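import Pool.Agent.W_4929df_h92.Vec

/-!
Unique representability of binary matroids, first part: the position of a point. Here `Y = ⊥`;
`Sp F w A ⊔ ⊥ = Sp F w A` by `sup_bot_eq`; `cl_iff` and `not_cl_iff` with `Y = ⊥`.
-/

set_option autoImplicit false

namespace Pool.MP_4929df_co.H92

open Submodule

variable {F : Type*} [Field F] {V : Type*} [AddCommGroup V] [Module F V]
  {α : Type*} [DecidableEq α]

/-- the elements of `G` together with the point `q` have no minor `U_{2,4}` containing `q`: on a line
(modulo `C`) through `x, y` and `q` every `z` is parallel to `q`, `x` or `y` -/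
def NoLine (w : α → V) (q : V) (G : Finset α) : Prop :=
  ∀ C ⊆ G, ∀ x ∈ G, ∀ y ∈ G, ∀ z ∈ G, q ∈ Sp F w (insert x (insert y C)) →
    w z ∈ Sp F w (insert x (insert y C)) → q ∉ Sp F w (insert x C) → q ∉ Sp F w (insert y C) →
    q ∉ Sp F w (insert z C) → w z ∈ Sp F w (insert x C) ∨ w z ∈ Sp F w (insert y C)

variable [FiniteDimensional F V] {w : α → V} {p q : V} {G : Finset α}

omit [FiniteDimensional F V] in
theorem BinA_exch {a b : V} {S : Submodule F V} (h : b ∈ span F {a} ⊔ S) (hb : b ∉ S) :
    a ∈ span F {b} ⊔ S := by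
  obtain ⟨u, hu, s, hs, e⟩ := mem_sup.1 h
  obtain ⟨c, rfl⟩ := mem_span_singleton.1 hu
  have hc : c ≠ 0 := by
    rintro rfl
    apply hb
    rw [← e, zero_smul, zero_add]
    exact hs
  have e2 : a = c⁻¹ • b + -(c⁻¹ • s) := by
    rw [← e, smul_add, smul_smul, inv_mul_cancel₀ hc, one_smul]
    abel
  rw [e2]
  exact add_mem (mem_sup_left (smul_mem _ _ (mem_span_singleton_self b)))
    (mem_sup_right (neg_mem (smul_mem _ _ hs)))

omit [FiniteDimensional F V] in
theorem BinA_le {a b : V} {S : Submodule F V} (h : b ∈ span F {a} ⊔ S) :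
    span F {b} ⊔ S ≤ span F {a} ⊔ S :=
  sup_le ((span_singleton_le_iff_mem _ _).2 h) le_sup_right

theorem BinA_fin_le (a : V) (S : Submodule F V) :
    Module.finrank F (span F {a} ⊔ S : Submodule F V) ≤ Module.finrank F S + 1 := by
  refine (Submodule.finrank_add_le_finrank_add_finrank _ _).trans ?_
  have h1 : Module.finrank F (span F {a}) ≤ 1 := by
    simpa using finrank_span_le_card (R := F) ({a} : Set V)
  omega

theorem BinA_fin_lt {a : V} {S : Submodule F V} (h : a ∉ S) :
    Module.finrank F S + 1 ≤ Module.finrank F (span F {a} ⊔ S : Submodule F V) := by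
  refine Submodule.finrank_lt_finrank_of_lt (lt_of_le_of_ne le_sup_right ?_)
  intro e
  apply h
  rw [e]
  exact mem_sup_left (mem_span_singleton_self a)

omit [FiniteDimensional F V] [DecidableEq α] in
theorem BinA_rk (A : Finset α) :
    rk F w (⊥ : Submodule F V) A = Module.finrank F (Sp F w A) := by
  unfold rk
  rw [sup_bot_eq]

omit [FiniteDimensional F V] in
theorem BinA_pt {y : α} {C : Finset α} (hq : q ∈ Sp F w (insert y C)) (hqC : q ∉ Sp F w C)
    (hp : p ∈ Sp F w (insert y C)) : p ∈ span F {q} ⊔ Sp F w C := by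
  rw [Sp_insert] at hq hp
  exact BinA_le (BinA_exch hq hqC) hp

/-- The final step: all elements of `K` are on the line (modulo `C`) of `q` and `p`. Suppose
`p ∉ span {q} ⊔ Sp F w C`. Then `w y ∈ span {p, q} ⊔ Sp F w C =: L` for `y ∈ K` (from `h2`: `p = t q +
s w y + c`, `s ≠ 0`). Let `r = rk F w ⊥`. `p, q ∈ Sp F w (K ∪ C)`, so `L = Sp F w (K ∪ C)`,
`r (K ∪ C) = r C + 2`. Take `x ∈ K` and `K₁ = K.filter (fun y => w y ∈ Sp F w (insert x C))`,
`K₂ = K \ K₁`. If `K₂ = ∅` then `r (K ∪ C) ≤ r C + 1`, contradiction. Take `y ∈ K₂`: then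
`Sp F w (insert x (insert y C)) = L`, so `NoLine` says that every `z ∈ K₂` is in
`Sp F w (insert y C)` (it is not in `Sp F w (insert x C)`). So `r (K₁ ∪ C) ≤ r C + 1`,
`r (K₂ ∪ C) ≤ r C + 1`, contradiction to `Conn` for `(K₁, K₂)`. (`q ∉ Sp F w (insert y C)` for
`y ∈ K` is `h1`.) -/
theorem unique_pt_line (hno : NoLine (F := F) w q G) {K C : Finset α} (hKG : K ⊆ G) (hCG : C ⊆ G)
    (hK : K.Nonempty) (hconn : Conn (ct (rk F w (⊥ : Submodule F V)) C) K)
    (hq : q ∈ Sp F w (K ∪ C)) (hp : p ∈ Sp F w (K ∪ C))
    (h1 : ∀ y ∈ K, q ∉ Sp F w (insert y C))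
    (h2 : ∀ y ∈ K, p ∈ span F {q} ⊔ Sp F w (insert y C)) : p ∈ span F {q} ⊔ Sp F w C := by
  by_contra hcon
  obtain ⟨x, hx⟩ := hK
  have hqC : q ∉ Sp F w C := fun h => h1 x hx (Sp_mono (Finset.subset_insert _ _) h)
  have hL1 : ∀ y ∈ K, w y ∈ span F {p} ⊔ (span F {q} ⊔ Sp F w C) := by
    intro y hy
    refine BinA_exch ?_ hcon
    have := h2 y hy
    rw [Sp_insert, sup_left_comm] at this
    exact this
  have hL : Sp F w (K ∪ C) = span F {p} ⊔ (span F {q} ⊔ Sp F w C) := by
    apply le_antisymm
    · rw [Sp_le]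
      intro y hy
      rcases Finset.mem_union.1 hy with hy | hy
      · exact hL1 y hy
      · exact mem_sup_right (mem_sup_right (mem_Sp hy))
    · exact sup_le ((span_singleton_le_iff_mem _ _).2 hp)
        (sup_le ((span_singleton_le_iff_mem _ _).2 hq) (Sp_mono Finset.subset_union_right))
  have hf1 : Module.finrank F (Sp F w C) + 2 ≤ Module.finrank F (Sp F w (K ∪ C)) := by
    rw [hL]
    have a1 := BinA_fin_lt hcon
    have a2 := BinA_fin_lt hqC
    omega
  have hf2 : Module.finrank F (Sp F w (K ∪ C)) ≤ Module.finrank F (Sp F w C) + 2 := by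
    rw [hL]
    have a1 := BinA_fin_le p (span F {q} ⊔ Sp F w C)
    have a2 := BinA_fin_le q (Sp F w C)
    omega
  have hwC : ∀ y ∈ K, w y ∉ Sp F w C := by
    intro y hy h
    apply hcon
    have h3 := h2 y hy
    rwa [Sp_insert, sup_eq_right.2 ((span_singleton_le_iff_mem _ _).2 h)] at h3
  have hins : ∀ y, Module.finrank F (Sp F w (insert y C)) ≤ Module.finrank F (Sp F w C) + 1 := by
    intro y
    rw [Sp_insert]
    exact BinA_fin_le _ _
  classical
  by_cases hall : ∀ y ∈ K, w y ∈ Sp F w (insert x C)
  · refine h1 x hx ((Sp_le.2 ?_ : Sp F w (K ∪ C) ≤ Sp F w (insert x C)) hq)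
    intro y hy
    rcases Finset.mem_union.1 hy with hy | hy
    · exact hall y hy
    · exact mem_Sp (Finset.mem_insert_of_mem hy)
  · push Not at hall
    obtain ⟨y, hy, hyx⟩ := hall
    have hle : Sp F w (insert x (insert y C)) ≤ Sp F w (K ∪ C) := by
      apply Sp_mono
      intro a ha
      simp only [Finset.mem_insert, Finset.mem_union] at ha ⊢
      rcases ha with rfl | rfl | ha
      · exact Or.inl hx
      · exact Or.inl hy
      · exact Or.inr ha
    have hge : Module.finrank F (Sp F w C) + 2 ≤
        Module.finrank F (Sp F w (insert x (insert y C))) := by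
      rw [Finset.insert_comm, Sp_insert]
      have a1 := BinA_fin_lt hyx
      have a2 := BinA_fin_lt (hwC x hx)
      rw [← Sp_insert] at a2
      omega
    have heq : Sp F w (insert x (insert y C)) = Sp F w (K ∪ C) :=
      Submodule.eq_of_le_of_finrank_le hle (hf2.trans hge)
    have hz : ∀ z ∈ K, w z ∉ Sp F w (insert x C) → w z ∈ Sp F w (insert y C) := by
      intro z hzK hzx
      have hzL : w z ∈ Sp F w (insert x (insert y C)) := by
        rw [heq]
        exact mem_Sp (Finset.mem_union_left _ hzK)
      have hqL : q ∈ Sp F w (insert x (insert y C)) := by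
        rw [heq]
        exact hq
      rcases hno C hCG x (hKG hx) y (hKG hy) z (hKG hzK) hqL hzL (h1 x hx) (h1 y hy) (h1 z hzK)
        with h | h
      · exact absurd h hzx
      · exact h
    have hc := hconn (K.filter (fun z => w z ∈ Sp F w (insert x C)))
      (K.filter (fun z => ¬ w z ∈ Sp F w (insert x C)))
      (Finset.filter_union_filter_not_eq _ _) (Finset.disjoint_filter_filter_not _ _ _)
      ⟨x, Finset.mem_filter.2 ⟨hx, mem_Sp (Finset.mem_insert_self _ _)⟩⟩
      ⟨y, Finset.mem_filter.2 ⟨hy, hyx⟩⟩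
    rw [ct_empty_apply] at hc
    unfold ct at hc
    rw [BinA_rk, BinA_rk, BinA_rk, BinA_rk] at hc
    have b1 : Sp F w (K.filter (fun z => w z ∈ Sp F w (insert x C)) ∪ C) ≤
        Sp F w (insert x C) := by
      rw [Sp_le]
      intro z hz'
      rcases Finset.mem_union.1 hz' with hz' | hz'
      · exact (Finset.mem_filter.1 hz').2
      · exact mem_Sp (Finset.mem_insert_of_mem hz')
    have b2 : Sp F w (K.filter (fun z => ¬ w z ∈ Sp F w (insert x C)) ∪ C) ≤
        Sp F w (insert y C) := by
      rw [Sp_le]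
      intro z hz'
      rcases Finset.mem_union.1 hz' with hz' | hz'
      · exact hz z (Finset.mem_filter.1 hz').1 (Finset.mem_filter.1 hz').2
      · exact mem_Sp (Finset.mem_insert_of_mem hz')
    have b3 := Submodule.finrank_mono b1
    have b4 := Submodule.finrank_mono b2
    have b5 := hins x
    have b6 := hins y
    omega

/-- Induction on `K.card`, generalizing `K, C`. Suppose `p ∉ span {q} ⊔ Sp F w C`. `K` is nonempty
(`q ∈ Sp F w (K ∪ C)`, `q ∉ Sp F w C`). Let `y ∈ K`; `Conn.tutte` for `ct r C`.
(i) `Conn (ct r C) (K.erase y)`: if `K.erase y` is nonempty then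
`r (K.erase y ∪ C) = r (K ∪ C)` (`Conn.erase_eq`), so the spans are equal and the induction hypothesis
applies; if it is empty then `K = {y}` and `p ∈ Sp F w ({y} ∪ C) = span {q} ⊔ Sp F w C`
(dimensions). (ii) `Conn (ct r (C ∪ {y})) (K.erase y)` (`ct_ct`): if `q ∉ Sp F w (insert y C)`, the
induction hypothesis for `K.erase y`, `insert y C` gives `p ∈ span {q} ⊔ Sp F w (insert y C)`. If
`q ∈ Sp F w (insert y C)`, then by `hp` `p ∈ Sp F w (insert y C) = span {q} ⊔ Sp F w C`
(dimensions), contradiction. So the hypotheses of `unique_pt_line` hold. -/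
theorem unique_pt_aux (hno : NoLine (F := F) w q G) : ∀ (n : ℕ) (K C : Finset α), K.card = n →
    K ⊆ G → C ⊆ G → Disjoint K C → Conn (ct (rk F w (⊥ : Submodule F V)) C) K →
    q ∉ Sp F w C → q ∈ Sp F w (K ∪ C) → (∀ A ⊆ K, q ∈ Sp F w (A ∪ C) → p ∈ Sp F w (A ∪ C)) →
    p ∈ span F {q} ⊔ Sp F w C := by
  intro n
  induction n with
  | zero =>
    intro K C hcard hKG hCG hd hconn hqC hq hp
    exfalso
    rw [Finset.card_eq_zero.1 hcard, Finset.empty_union] at hq
    exact hqC hq
  | succ n ih =>
    intro K C hcard hKG hCG hd hconn hqC hq hp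
    by_contra hcon
    have hK : K.Nonempty := Finset.card_pos.1 (by omega)
    have hr : IsRk (ct (rk F w (⊥ : Submodule F V)) C) := (rk_isRk w ⊥).ct C
    have key : ∀ y ∈ K, q ∉ Sp F w (insert y C) ∧ p ∈ span F {q} ⊔ Sp F w (insert y C) := by
      intro y hy
      have hq1 : q ∉ Sp F w (insert y C) := by
        intro h
        apply hcon
        have e : insert y C = {y} ∪ C := Finset.insert_eq y C
        refine BinA_pt h hqC ?_
        rw [e]
        exact hp {y} (Finset.singleton_subset_iff.2 hy) (by rw [← e]; exact h)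
      refine ⟨hq1, ?_⟩
      have hce : (K.erase y).card = n := by
        rw [Finset.card_erase_of_mem hy]
        omega
      have hsub : K.erase y ⊆ K := Finset.erase_subset _ _
      rcases hconn.tutte hr hy with h | h
      · exfalso
        by_cases hne : (K.erase y).Nonempty
        · have e1 : rk F w (⊥ : Submodule F V) (K.erase y ∪ C) = rk F w ⊥ (K ∪ C) :=
            hconn.erase_eq hr hy hne
          have e2 := sup_eq_of_rk_le (Finset.union_subset_union_left hsub) e1.ge
          rw [sup_bot_eq, sup_bot_eq] at e2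
          apply hcon
          refine ih (K.erase y) C hce (hsub.trans hKG) hCG (hd.mono_left hsub) h hqC ?_ ?_
          · rw [e2]
            exact hq
          · intro A hA
            exact hp A (hA.trans hsub)
        · have e1 : K = {y} := by
            apply Finset.Subset.antisymm
            · intro z hz
              rw [Finset.mem_singleton]
              by_contra hzy
              exact hne ⟨z, Finset.mem_erase.2 ⟨hzy, hz⟩⟩
            · exact Finset.singleton_subset_iff.2 hy
          apply hq1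
          rw [e1] at hq
          rw [Finset.insert_eq]
          exact hq
      · rw [ct_ct] at h
        have eC : C ∪ {y} = insert y C := by
          rw [Finset.union_comm, ← Finset.insert_eq]
        rw [eC] at h
        have eu : ∀ A : Finset α, A ∪ insert y C = insert y A ∪ C := by
          intro A
          rw [Finset.union_insert, Finset.insert_union]
        refine ih (K.erase y) (insert y C) hce (hsub.trans hKG) ?_ ?_ h hq1 ?_ ?_
        · exact Finset.insert_subset (hKG hy) hCG
        · rw [Finset.disjoint_insert_right]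
          exact ⟨Finset.notMem_erase _ _, hd.mono_left hsub⟩
        · rw [eu, Finset.insert_erase hy]
          exact hq
        · intro A hA
          rw [eu]
          exact hp _ (Finset.insert_subset hy (hA.trans hsub))
    exact hcon (unique_pt_line hno hKG hCG hK hconn hq (hp K subset_rfl hq)
      (fun y hy => (key y hy).1) (fun y hy => (key y hy).2))

/-- `unique_pt_aux` with `C = ∅` -/
theorem unique_pt (hno : NoLine (F := F) w q G) (hconn : Conn (rk F w (⊥ : Submodule F V)) G)
    (hq0 : q ≠ 0) (hq : q ∈ Sp F w G) (hp : ∀ A ⊆ G, q ∈ Sp F w A → p ∈ Sp F w A) :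
    p ∈ span F {q} := by
  have h := unique_pt_aux (p := p) hno G.card G ∅ rfl subset_rfl (Finset.empty_subset _)
    (Finset.disjoint_empty_right _) ?_ ?_ ?_ ?_
  · rwa [Sp_empty, sup_bot_eq] at h
  · have e : ct (rk F w (⊥ : Submodule F V)) ∅ = rk F w ⊥ := by
      funext A
      show rk F w ⊥ (A ∪ ∅) = _
      rw [Finset.union_empty]
    rw [e]
    exact hconn
  · rw [Sp_empty, mem_bot]
    exact hq0
  · rw [Finset.union_empty]
    exact hq
  · intro A hA
    rw [Finset.union_empty]
    exact hp A hA

end Pool.MP_4929df_co.H92
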