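import Pool.Agent.W_4929df_h92.BinB1

/-!
Unique representability of binary matroids, second part.
-/

set_option autoImplicit false

namespace Pool.MP_4929df_co.H92

open Submodule

variable {F : Type} [Field F] {V : Type} [AddCommGroup V] [Module F V] [FiniteDimensional F V]
  {V' : Type} [AddCommGroup V'] [Module F V'] [FiniteDimensional F V']
  {U : Type} [AddCommGroup U] [Module (ZMod 2) U] [FiniteDimensional (ZMod 2) U]
  {α : Type} [DecidableEq α] {w : α → V} {w' : α → V'} {u : α → U} {G : Finset α}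

theorem BinB3_sum_mem {F : Type} [Field F] {V : Type} [AddCommGroup V] [Module F V]
    {α : Type} (w : α → V) (A : Finset α) (a : α → F) : ∑ y ∈ A, a y • w y ∈ Sp F w A :=
  Submodule.sum_mem _ fun _ hy => Submodule.smul_mem _ _ (mem_Sp hy)

theorem BinB3_split {F : Type} [Field F] {V : Type} [AddCommGroup V] [Module F V]
    {α : Type} [DecidableEq α] {G : Finset α} (w : α → V) {x : α} (hx : x ∈ G) {A B : Finset α}
    (hA : A ∪ B = G.erase x) (hAB : Disjoint A B) (hw : Sp F w A ⊓ Sp F w B = ⊥) (a : α → F) :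
    ∑ y ∈ G, a y • w y = 0 ↔ (∑ y ∈ insert x A, a y • w y ∈ Sp F w B ∧
      ∑ y ∈ insert x B, a y • w y ∈ Sp F w A) := by
  have hxE : x ∉ A ∪ B := by rw [hA]; simp
  have hxA : x ∉ A := fun h => hxE (Finset.mem_union_left _ h)
  have hxB : x ∉ B := fun h => hxE (Finset.mem_union_right _ h)
  rw [Finset.sum_insert hxA, Finset.sum_insert hxB, ← Finset.insert_erase hx,
    Finset.sum_insert (Finset.notMem_erase x G), ← hA, Finset.sum_union hAB]
  have hs := BinB3_sum_mem w A a
  have ht := BinB3_sum_mem w B a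
  generalize ∑ y ∈ A, a y • w y = s at hs ⊢
  generalize ∑ y ∈ B, a y • w y = t at ht ⊢
  generalize a x • w x = e
  constructor
  · intro h
    constructor
    · have h1 : e + s = -t := by
        rw [eq_neg_iff_add_eq_zero, ← h]; abel
      rw [h1]
      exact Submodule.neg_mem _ ht
    · have h1 : e + t = -s := by
        rw [eq_neg_iff_add_eq_zero, ← h]; abel
      rw [h1]
      exact Submodule.neg_mem _ hs
  · rintro ⟨h1, h2⟩
    have h3 : e + (s + t) ∈ Sp F w B := by
      rw [← add_assoc]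
      exact Submodule.add_mem _ h1 ht
    have h4 : e + (s + t) ∈ Sp F w A := by
      have h5 : e + (s + t) = (e + t) + s := by abel
      rw [h5]
      exact Submodule.add_mem _ h2 hs
    have h6 : e + (s + t) ∈ Sp F w A ⊓ Sp F w B := ⟨h4, h3⟩
    rw [hw] at h6
    exact (Submodule.mem_bot F).1 h6

theorem BinB3_scale {F : Type} [Field F] {V : Type} [AddCommGroup V] [Module F V]
    {α : Type} (w : α → V) {x : α} {A : Finset α} {cA c : α → F} (h0 : cA x ≠ 0)
    (hc : ∀ y ∈ A, c y = cA y / cA x) (W : Submodule F V) (a : α → F) :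
    ∑ y ∈ A, (a y * c y) • w y ∈ W ↔ ∑ y ∈ A, (a y * cA y) • w y ∈ W := by
  have h1 : ∑ y ∈ A, (a y * c y) • w y = (cA x)⁻¹ • ∑ y ∈ A, (a y * cA y) • w y := by
    rw [Finset.smul_sum]
    refine Finset.sum_congr rfl fun y hy => ?_
    rw [smul_smul, hc y hy]
    congr 1
    field_simp
  rw [h1]
  exact Submodule.smul_mem_iff _ (inv_ne_zero h0)

/-- The separated case. `G.erase x = A ∪ B`, disjoint, `Sp F w A ⊓ Sp F w B = ⊥`, the same for `w'`.
`cA` for `insert x A` modulo `Sp F w B`, `Sp F w' B`; `cB` for `insert x B` modulo `Sp F w A`,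
`Sp F w' A`. Scale so that `cA x = cB x = 1` (divide by `cA x`, `cB x`); `c = cA` on `A`, `cB` on `B`,
`c x = 1`. A combination over `G` vanishes iff the part over `insert x A` is in `Sp F w B` and the
part over `insert x B` is in `Sp F w A` (`⇐`: with `s = ∑_A`, `t = ∑_B`, `e = a x • w x`:
`s + e ∈ Sp B`, `t + e ∈ Sp A`; so `s + e + t ∈ Sp F w B` and `s + e + t ∈ Sp F w A`, so it is 0). -/
theorem rel_sep {x : α} (hx : x ∈ G) {A B : Finset α} (hA : A ∪ B = G.erase x)
    (hAB : Disjoint A B) (hw : Sp F w A ⊓ Sp F w B = ⊥) (hw' : Sp F w' A ⊓ Sp F w' B = ⊥)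
    (hcA : ∃ c : α → F, (∀ y, c y ≠ 0) ∧ ∀ a : α → F,
      (∑ y ∈ insert x A, a y • w y ∈ Sp F w B ↔
        ∑ y ∈ insert x A, (a y * c y) • w' y ∈ Sp F w' B))
    (hcB : ∃ c : α → F, (∀ y, c y ≠ 0) ∧ ∀ a : α → F,
      (∑ y ∈ insert x B, a y • w y ∈ Sp F w A ↔
        ∑ y ∈ insert x B, (a y * c y) • w' y ∈ Sp F w' A)) :
    ∃ c : α → F, (∀ y, c y ≠ 0) ∧ ∀ a : α → F,
      (∑ y ∈ G, a y • w y = 0 ↔ ∑ y ∈ G, (a y * c y) • w' y = 0) := by
  obtain ⟨cA, hcA0, hcA⟩ := hcA
  obtain ⟨cB, hcB0, hcB⟩ := hcB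
  have hxE : x ∉ A ∪ B := by rw [hA]; simp
  have hxA : x ∉ A := fun h => hxE (Finset.mem_union_left _ h)
  have hxB : x ∉ B := fun h => hxE (Finset.mem_union_right _ h)
  let c : α → F := fun y => if y = x then 1 else if y ∈ A then cA y / cA x else cB y / cB x
  have cx : c x = 1 := if_pos rfl
  have cyA : ∀ y ∈ A, c y = cA y / cA x := by
    intro y hy
    have h1 : y ≠ x := fun h => hxA (h ▸ hy)
    show (if y = x then 1 else if y ∈ A then cA y / cA x else cB y / cB x) = _
    rw [if_neg h1, if_pos hy]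
  have cyB : ∀ y ∈ B, c y = cB y / cB x := by
    intro y hy
    have h1 : y ≠ x := fun h => hxB (h ▸ hy)
    have h3 : y ∉ A := fun h => Finset.disjoint_left.1 hAB h hy
    show (if y = x then 1 else if y ∈ A then cA y / cA x else cB y / cB x) = _
    rw [if_neg h1, if_neg h3]
  have ciA : ∀ y ∈ insert x A, c y = cA y / cA x := by
    intro y hy
    rw [Finset.mem_insert] at hy
    rcases hy with hy | hy
    · rw [hy, cx, div_self (hcA0 x)]
    · exact cyA y hy
  have ciB : ∀ y ∈ insert x B, c y = cB y / cB x := by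
    intro y hy
    rw [Finset.mem_insert] at hy
    rcases hy with hy | hy
    · rw [hy, cx, div_self (hcB0 x)]
    · exact cyB y hy
  refine ⟨c, ?_, ?_⟩
  · intro y
    show (if y = x then 1 else if y ∈ A then cA y / cA x else cB y / cB x) ≠ 0
    split_ifs
    · exact one_ne_zero
    · exact div_ne_zero (hcA0 _) (hcA0 _)
    · exact div_ne_zero (hcB0 _) (hcB0 _)
  · intro a
    have sA := BinB3_scale w' (hcA0 x) ciA (Sp F w' B) a
    have sB := BinB3_scale w' (hcB0 x) ciB (Sp F w' A) a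
    have hspl := BinB3_split w' hx hA hAB hw' (fun y => a y * c y)
    rw [BinB3_split w hx hA hAB hw a, hcA a, hcB a, ← sA, ← sB]
    exact hspl.symm

end Pool.MP_4929df_co.H92
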