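import Pool.Agent.W_4929df_h92.BinA

/-!
Unique representability of binary matroids, second part.
-/

set_option autoImplicit false

namespace Pool.MP_4929df_co.H92

open Submodule

variable {F : Type} [Field F] {V : Type} [AddCommGroup V] [Module F V] [FiniteDimensional F V]
  {V' : Type} [AddCommGroup V'] [Module F V'] [FiniteDimensional F V']
  {U : Type} [AddCommGroup U] [Module (ZMod 2) U] [FiniteDimensional (ZMod 2) U]
  {α : Type} [DecidableEq α] {w : α → V} {w' : α → V'} {u : α → U} {G : Finset α}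

/-- the rank functions of `w` and `u` are equal on subsets of `G` -/
def SameRk {F F' : Type} [Field F] [Field F'] {V V' : Type} [AddCommGroup V] [Module F V]
    [AddCommGroup V'] [Module F' V'] {α : Type} (G : Finset α) (w : α → V) (w' : α → V') : Prop :=
  ∀ A ⊆ G, Module.finrank F (Sp F w A) = Module.finrank F' (Sp F' w' A)

/-- membership in spans is the same (`cl_iff` with `Y = ⊥` on both sides, or directly by
dimensions) -/
theorem SameRk.mem {F F' : Type} [Field F] [Field F'] {V V' : Type} [AddCommGroup V] [Module F V]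
    [FiniteDimensional F V] [AddCommGroup V'] [Module F' V'] [FiniteDimensional F' V']
    {α : Type} [DecidableEq α] {G : Finset α} {w : α → V} {w' : α → V'}
    (h : SameRk (F := F) (F' := F') G w w') {A : Finset α} (hA : A ⊆ G) {x : α} (hx : x ∈ G) :
    w x ∈ Sp F w A ↔ w' x ∈ Sp F' w' A := by
  have e1 := cl_iff (F := F) (v := w) (Y := (⊥ : Submodule F V)) (A := A) (x := x)
  have e2 := cl_iff (F := F') (v := w') (Y := (⊥ : Submodule F' V')) (A := A) (x := x)
  unfold rk at e1 e2
  have s1 : ∀ B : Finset α, Sp F w B ⊔ (⊥ : Submodule F V) = Sp F w B := fun B => sup_bot_eq _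
  have s2 : ∀ B : Finset α, Sp F' w' B ⊔ (⊥ : Submodule F' V') = Sp F' w' B := fun B =>
    sup_bot_eq _
  rw [s1, s1] at e1
  rw [s2, s2] at e2
  rw [← e1, ← e2, h _ (Finset.insert_subset hx hA), h _ hA]

theorem BinB1_mem_insert {F' : Type*} [Field F'] {V' : Type*} [AddCommGroup V'] [Module F' V']
    {α : Type*} [DecidableEq α] {w : α → V'} {x : α} {A : Finset α} {q : V'} :
    q ∈ Sp F' w (insert x A) ↔ ∃ a : F', ∃ c ∈ Sp F' w A, a • w x + c = q := by
  rw [Sp_insert, Submodule.mem_sup]
  constructor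
  · rintro ⟨y, hy, c, hc, rfl⟩
    obtain ⟨a, rfl⟩ := Submodule.mem_span_singleton.1 hy
    exact ⟨a, c, hc, rfl⟩
  · rintro ⟨a, c, hc, rfl⟩
    exact ⟨a • w x, Submodule.mem_span_singleton.2 ⟨a, rfl⟩, c, hc, rfl⟩

theorem BinB1_zmod2 (a : ZMod 2) : a = 0 ∨ a = 1 := by
  revert a
  decide

/-- `NoLine` for binary matroids: transfer everything to `u` by `SameRk.mem`. Over `ZMod 2`:
`u d = α u x + β u y + c`; `u d ∉ Sp (insert x C)` gives `β = 1`, and `α = 1` in the same way;
`u z = α' u x + β' u y + c'`; `(α', β') = (1, 1)` would give `u d ∈ Sp (insert z C)`. So `α' = 0` or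
`β' = 0`. -/
theorem noLine_of_binary {d : α} (h : SameRk (F := F) (F' := ZMod 2) (insert d G) w u) :
    NoLine (F := F) w (w d) G := by
  intro C hC x hx y hy z hz h1 h2 h3 h4 h5
  have hC' : C ⊆ insert d G := hC.trans (Finset.subset_insert _ _)
  have hd : d ∈ insert d G := Finset.mem_insert_self _ _
  have hx' : x ∈ insert d G := Finset.mem_insert_of_mem hx
  have hy' : y ∈ insert d G := Finset.mem_insert_of_mem hy
  have hz' : z ∈ insert d G := Finset.mem_insert_of_mem hz
  have hxC : insert x C ⊆ insert d G := Finset.insert_subset hx' hC'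
  have hyC : insert y C ⊆ insert d G := Finset.insert_subset hy' hC'
  have hzC : insert z C ⊆ insert d G := Finset.insert_subset hz' hC'
  have hxyC : insert x (insert y C) ⊆ insert d G := Finset.insert_subset hx' hyC
  rw [h.mem hxyC hd] at h1
  rw [h.mem hxyC hz'] at h2
  rw [h.mem hxC hd] at h3
  rw [h.mem hyC hd] at h4
  rw [h.mem hzC hd] at h5
  rw [h.mem hxC hz', h.mem hyC hz']
  obtain ⟨a, q, hq, h1⟩ := BinB1_mem_insert.1 h1
  obtain ⟨b, c, hc, rfl⟩ := BinB1_mem_insert.1 hq
  obtain ⟨a', q', hq', h2⟩ := BinB1_mem_insert.1 h2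
  obtain ⟨b', c', hc', rfl⟩ := BinB1_mem_insert.1 hq'
  rcases BinB1_zmod2 a with rfl | rfl
  · exact absurd (BinB1_mem_insert.2 ⟨b, c, hc, by rw [← h1, zero_smul, zero_add]⟩) h4
  rcases BinB1_zmod2 b with rfl | rfl
  · exact absurd (BinB1_mem_insert.2 ⟨1, c, hc, by rw [← h1, zero_smul, zero_add]⟩) h3
  rcases BinB1_zmod2 a' with rfl | rfl
  · right
    exact BinB1_mem_insert.2 ⟨b', c', hc', by rw [← h2, zero_smul, zero_add]⟩
  rcases BinB1_zmod2 b' with rfl | rfl
  · left
    exact BinB1_mem_insert.2 ⟨1, c', hc', by rw [← h2, zero_smul, zero_add]⟩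
  exfalso
  refine h5 (BinB1_mem_insert.2 ⟨1, c - c', Submodule.sub_mem _ hc hc', ?_⟩)
  rw [← h1, ← h2]
  simp only [one_smul]
  abel

end Pool.MP_4929df_co.H92
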