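import Pool.Agent.W_4929df_h92.BinB1

/-!
Unique representability of binary matroids, second part.
-/

set_option autoImplicit false

namespace Pool.MP_4929df_co.H92

open Submodule

variable {F : Type} [Field F] {V : Type} [AddCommGroup V] [Module F V] [FiniteDimensional F V]
  {V' : Type} [AddCommGroup V'] [Module F V'] [FiniteDimensional F V']
  {U : Type} [AddCommGroup U] [Module (ZMod 2) U] [FiniteDimensional (ZMod 2) U]
  {α : Type} [DecidableEq α] {w : α → V} {w' : α → V'} {u : α → U} {G : Finset α}

omit [FiniteDimensional F V] in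
/-- membership in `Sp F w A` as a sum -/
theorem BinB2_mem_Sp {A : Finset α} {v : V} :
    v ∈ Sp F w A ↔ ∃ a : α → F, ∑ y ∈ A, a y • w y = v := by
  constructor
  · intro h
    unfold Sp at h
    induction h using Submodule.span_induction with
    | mem v hv =>
      obtain ⟨y, hy, rfl⟩ := hv
      have hy' : y ∈ A := by exact_mod_cast hy
      refine ⟨fun z => if z = y then 1 else 0, ?_⟩
      simp only [ite_smul, one_smul, zero_smul]
      rw [Finset.sum_ite_eq' A y w, if_pos hy']
    | zero => exact ⟨0, by simp⟩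
    | add v v' _ _ h1 h2 =>
      obtain ⟨a, rfl⟩ := h1
      obtain ⟨b, rfl⟩ := h2
      refine ⟨a + b, ?_⟩
      simp only [Pi.add_apply, add_smul, Finset.sum_add_distrib]
    | smul c v _ h1 =>
      obtain ⟨a, rfl⟩ := h1
      refine ⟨c • a, ?_⟩
      simp only [Pi.smul_apply, smul_eq_mul, mul_smul, ← Finset.smul_sum]
  · rintro ⟨a, rfl⟩
    exact Submodule.sum_mem _ fun y hy => Submodule.smul_mem _ _ (mem_Sp hy)

/-- The connected case. `K = G.erase x`; `c` on `K`. There is a linear map `Φ` with
`Φ (w y) = c y • w' y` for `y ∈ K`, injective on `Sp F w K` (from `hc`; for instance define it on a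
maximal independent subset of `w '' K`, or via the quotient of `K → F` by the relations). If
`w x ∉ Sp F w K`, then by `SameRk.mem` `w' x ∉ Sp F w' K` and all relations have `a x = 0`; `c x = 1`.
If `w x = 0` then `w' x = 0`, `c x = 1`. Otherwise let `q = Φ (w x)`, `p = w' x`, both in
`Sp F w' K`, nonzero; for `A ⊆ K`: `q ∈ Sp F w' A` iff `w x ∈ Sp F w A` iff `p ∈ Sp F w' A`.
`NoLine` holds for `w'` and `p` (`noLine_of_binary`), and `unique_pt` (for `w'`, with the roles
`q := w' x` and `p := Φ (w x)`) gives `Φ (w x) = t • w' x`, `t ≠ 0`; `c x = t`. -/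
theorem rel_conn {x : α} (hx : x ∈ G) (h : SameRk (F := F) (F' := ZMod 2) G w u)
    (h' : SameRk (F := F) (F' := ZMod 2) G w' u)
    (hconn : Conn (rk F w (⊥ : Submodule F V)) (G.erase x)) (hne : (G.erase x).Nonempty)
    (hc : ∃ c : α → F, (∀ y, c y ≠ 0) ∧ ∀ a : α → F,
      (∑ y ∈ G.erase x, a y • w y = 0 ↔ ∑ y ∈ G.erase x, (a y * c y) • w' y = 0)) :
    ∃ c : α → F, (∀ y, c y ≠ 0) ∧ ∀ a : α → F,
      (∑ y ∈ G, a y • w y = 0 ↔ ∑ y ∈ G, (a y * c y) • w' y = 0) := by
  obtain ⟨c, hc0, hc⟩ := hc
  have hKG : G.erase x ⊆ G := Finset.erase_subset _ _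
  -- the two rank functions agree
  have hsame : ∀ A ⊆ G, ∀ y ∈ G, (w y ∈ Sp F w A ↔ w' y ∈ Sp F w' A) := by
    intro A hA y hy
    rw [h.mem hA hy, h'.mem hA hy]
  have hfin : ∀ A ⊆ G, Module.finrank F (Sp F w A) = Module.finrank F (Sp F w' A) := by
    intro A hA
    rw [h A hA, h' A hA]
  have hsum : ∀ (a : α → F), ∑ y ∈ G, a y • w y = a x • w x + ∑ y ∈ G.erase x, a y • w y :=
    fun a => (Finset.add_sum_erase G (fun y => a y • w y) hx).symm
  have hsum' : ∀ (a : α → F), ∑ y ∈ G, a y • w' y = a x • w' x + ∑ y ∈ G.erase x, a y • w' y :=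
    fun a => (Finset.add_sum_erase G (fun y => a y • w' y) hx).symm
  -- change `c` at `x`
  have hupd : ∀ (t : F) (a : α → F),
      ∑ y ∈ G, (a y * Function.update c x t y) • w' y =
      (a x * t) • w' x + ∑ y ∈ G.erase x, (a y * c y) • w' y := by
    intro t a
    rw [hsum' (fun y => a y * Function.update c x t y)]
    congr 1
    · rw [Function.update_self]
    · refine Finset.sum_congr rfl fun y hy => ?_
      rw [Function.update_of_ne (Finset.ne_of_mem_erase hy)]
  have hupd0 : ∀ (t : F), t ≠ 0 → ∀ y, Function.update c x t y ≠ 0 := by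
    intro t ht y
    by_cases hy : y = x
    · subst hy; rwa [Function.update_self]
    · rw [Function.update_of_ne hy]; exact hc0 y
  by_cases hwx : w x ∈ Sp F w (G.erase x)
  · -- write `w x` as a sum
    obtain ⟨b, hb⟩ := BinB2_mem_Sp.1 hwx
    set q : V' := ∑ y ∈ G.erase x, (b y * c y) • w' y with hq
    -- membership of `q`
    have hqA : ∀ A ⊆ G.erase x, w x ∈ Sp F w A → q ∈ Sp F w' A := by
      intro A hA hA2
      obtain ⟨a, ha⟩ := BinB2_mem_Sp.1 hA2
      have e1 : ∑ y ∈ G.erase x, (b y - if y ∈ A then a y else 0) • w y = 0 := by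
        simp only [sub_smul, Finset.sum_sub_distrib, ite_smul, zero_smul]
        rw [hb, ← Finset.sum_filter, Finset.filter_mem_eq_inter, Finset.inter_eq_right.2 hA, ha,
          sub_self]
      rw [hc] at e1
      simp only [sub_mul, sub_smul, Finset.sum_sub_distrib, ite_mul, zero_mul, ite_smul,
        zero_smul] at e1
      rw [← Finset.sum_filter, Finset.filter_mem_eq_inter, Finset.inter_eq_right.2 hA, ← hq] at e1
      rw [sub_eq_zero.1 e1]
      exact Submodule.sum_mem _ fun y hy => Submodule.smul_mem _ _ (mem_Sp hy)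
    by_cases hw0 : w x = 0
    · have hw0' : w' x = 0 := by
        have h1 : w x ∈ Sp F w (∅ : Finset α) := by rw [Sp_empty, hw0]; exact Submodule.zero_mem _
        rw [hsame ∅ (Finset.empty_subset _) x hx, Sp_empty, Submodule.mem_bot] at h1
        exact h1
      refine ⟨Function.update c x 1, hupd0 1 one_ne_zero, fun a => ?_⟩
      rw [hsum, hupd, hw0, hw0', smul_zero, smul_zero, zero_add, zero_add]
      exact hc a
    · have hw0' : w' x ≠ 0 := by
        intro h1
        apply hw0
        have h2 : w' x ∈ Sp F w' (∅ : Finset α) := by rw [Sp_empty, h1]; exact Submodule.zero_mem _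
        rw [← hsame ∅ (Finset.empty_subset _) x hx, Sp_empty, Submodule.mem_bot] at h2
        exact h2
      have hq0 : q ≠ 0 := by
        intro h1
        apply hw0
        rw [← hb, hc]
        exact h1
      have hconn' : Conn (rk F w' (⊥ : Submodule F V')) (G.erase x) := by
        intro A B hAB hd hA hB
        have h1 := hconn A B hAB hd hA hB
        have e : ∀ D ⊆ G, rk F w (⊥ : Submodule F V) D = rk F w' (⊥ : Submodule F V') D := by
          intro D hD
          unfold rk
          rw [sup_bot_eq, sup_bot_eq]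
          exact hfin D hD
        have hAG : A ⊆ G := (Finset.subset_union_left.trans hAB.subset).trans hKG
        have hBG : B ⊆ G := (Finset.subset_union_right.trans hAB.subset).trans hKG
        rwa [e _ hKG, e _ (Finset.empty_subset _), e _ hAG, e _ hBG] at h1
      have hno : NoLine (F := F) w' (w' x) (G.erase x) := by
        refine noLine_of_binary (u := u) (d := x) ?_
        rw [Finset.insert_erase hx]
        exact h'
      have hpt := unique_pt (p := q) hno hconn' hw0'
        ((hsame _ hKG x hx).1 hwx)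
        (fun A hA hA2 => hqA A hA ((hsame A (hA.trans hKG) x hx).2 hA2))
      obtain ⟨t, ht⟩ := Submodule.mem_span_singleton.1 hpt
      have ht0 : t ≠ 0 := by
        rintro rfl
        rw [zero_smul] at ht
        exact hq0 ht.symm
      refine ⟨Function.update c x t, hupd0 t ht0, fun a => ?_⟩
      rw [hsum, hupd]
      have e1 : a x • w x + ∑ y ∈ G.erase x, a y • w y =
          ∑ y ∈ G.erase x, (a x * b y + a y) • w y := by
        rw [← hb, Finset.smul_sum, ← Finset.sum_add_distrib]
        exact Finset.sum_congr rfl fun y _ => by rw [add_smul, mul_smul (a x)]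
      have e2 : (a x * t) • w' x + ∑ y ∈ G.erase x, (a y * c y) • w' y =
          ∑ y ∈ G.erase x, ((a x * b y + a y) * c y) • w' y := by
        rw [mul_smul, ht, hq, Finset.smul_sum, ← Finset.sum_add_distrib]
        refine Finset.sum_congr rfl fun y _ => ?_
        rw [add_mul, add_smul, mul_assoc, mul_smul (a x)]
      rw [e1, e2]
      exact hc _
  · -- `w x` is independent of the others
    have hwx' : w' x ∉ Sp F w' (G.erase x) := fun h1 => hwx ((hsame _ hKG x hx).2 h1)
    refine ⟨Function.update c x 1, hupd0 1 one_ne_zero, fun a => ?_⟩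
    rw [hsum, hupd, mul_one]
    have k1 : a x • w x + ∑ y ∈ G.erase x, a y • w y = 0 →
        a x = 0 ∧ ∑ y ∈ G.erase x, a y • w y = 0 := by
      intro h1
      have h2 : a x = 0 := by
        by_contra h3
        apply hwx
        have h4 : w x = -((a x)⁻¹ • ∑ y ∈ G.erase x, a y • w y) := by
          have h5 : a x • w x = -∑ y ∈ G.erase x, a y • w y := eq_neg_of_add_eq_zero_left h1
          rw [← smul_neg, ← h5, smul_smul, inv_mul_cancel₀ h3, one_smul]
        rw [h4]
        exact Submodule.neg_mem _ (Submodule.smul_mem _ _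
          (Submodule.sum_mem _ fun y hy => Submodule.smul_mem _ _ (mem_Sp hy)))
      rw [h2, zero_smul, zero_add] at h1
      exact ⟨h2, h1⟩
    have k2 : a x • w' x + ∑ y ∈ G.erase x, (a y * c y) • w' y = 0 →
        a x = 0 ∧ ∑ y ∈ G.erase x, (a y * c y) • w' y = 0 := by
      intro h1
      have h2 : a x = 0 := by
        by_contra h3
        apply hwx'
        have h4 : w' x = -((a x)⁻¹ • ∑ y ∈ G.erase x, (a y * c y) • w' y) := by
          have h5 : a x • w' x = -∑ y ∈ G.erase x, (a y * c y) • w' y :=
            eq_neg_of_add_eq_zero_left h1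
          rw [← smul_neg, ← h5, smul_smul, inv_mul_cancel₀ h3, one_smul]
        rw [h4]
        exact Submodule.neg_mem _ (Submodule.smul_mem _ _
          (Submodule.sum_mem _ fun y hy => Submodule.smul_mem _ _ (mem_Sp hy)))
      rw [h2, zero_smul, zero_add] at h1
      exact ⟨h2, h1⟩
    constructor
    · intro h1
      obtain ⟨h2, h3⟩ := k1 h1
      rw [h2, zero_smul, zero_add]
      exact (hc a).1 h3
    · intro h1
      obtain ⟨h2, h3⟩ := k2 h1
      rw [h2, zero_smul, zero_add]
      exact (hc a).2 h3

end Pool.MP_4929df_co.H92
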