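import Pool.Agent.W_4929df_h92.BinB1

/-!
Unique representability of binary matroids, third part.
-/

set_option autoImplicit false

namespace Pool.MP_4929df_co.H92

open Submodule

/-- an isomorphism of subspaces extends: complements of `W` and `W'` have the same dimension -/
theorem exists_extend_equiv {F : Type} [Field F] {V : Type} [AddCommGroup V] [Module F V]
    [FiniteDimensional F V] {W W' : Submodule F V} (f : W ≃ₗ[F] W') :
    ∃ g : V ≃ₗ[F] V, ∀ x : W, g x = f x := by
  obtain ⟨C, hC⟩ := Submodule.exists_isCompl W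
  obtain ⟨C', hC'⟩ := Submodule.exists_isCompl W'
  have e1 : Module.finrank F W + Module.finrank F C = Module.finrank F V :=
    Submodule.finrank_add_eq_of_isCompl hC
  have e2 : Module.finrank F W' + Module.finrank F C' = Module.finrank F V :=
    Submodule.finrank_add_eq_of_isCompl hC'
  have e3 : Module.finrank F W = Module.finrank F W' := f.finrank_eq
  have e4 : Module.finrank F C = Module.finrank F C' := by omega
  let e : C ≃ₗ[F] C' := LinearEquiv.ofFinrankEq C C' e4
  refine ⟨(W.prodEquivOfIsCompl C hC).symm ≪≫ₗ (LinearEquiv.prodCongr f e) ≪≫ₗ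
    (W'.prodEquivOfIsCompl C' hC'), fun x => ?_⟩
  simp only [LinearEquiv.trans_apply]
  rw [Submodule.prodEquivOfIsCompl_symm_apply_left]
  simp

/-- From relations to a linear automorphism of the space: `Sp F w G` and `Sp F w' G` are isomorphic
by `w' y ↦ (c y)⁻¹ • w y` (quotients of `G → F` by the relations; `c y ≠ 0`), extend by
`exists_extend_equiv`. -/
theorem equiv_of_rel {F : Type} [Field F] {V : Type} [AddCommGroup V] [Module F V]
    [FiniteDimensional F V] {α : Type} [DecidableEq α] {w w' : α → V} {G : Finset α} {c : α → F}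
    (hc : ∀ y, c y ≠ 0)
    (h : ∀ a : α → F, (∑ y ∈ G, a y • w y = 0 ↔ ∑ y ∈ G, (a y * c y) • w' y = 0)) :
    ∃ g : V ≃ₗ[F] V, ∀ y ∈ G, w y = c y • g (w' y) := by
  have _ := hc
  let P : (α → F) →ₗ[F] V := ∑ y ∈ G, (LinearMap.proj y).smulRight (w y)
  let P' : (α → F) →ₗ[F] V := ∑ y ∈ G, (LinearMap.proj y).smulRight (c y • w' y)
  have hP : ∀ a, P a = ∑ y ∈ G, a y • w y := fun a => by
    simp [P, LinearMap.sum_apply]
  have hP' : ∀ a, P' a = ∑ y ∈ G, (a y * c y) • w' y := fun a => by
    simp [P', LinearMap.sum_apply, smul_smul]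
  have hk : LinearMap.ker P' = LinearMap.ker P := by
    ext a
    rw [LinearMap.mem_ker, LinearMap.mem_ker, hP, hP', h]
  let f : LinearMap.range P' ≃ₗ[F] LinearMap.range P :=
    P'.quotKerEquivRange.symm ≪≫ₗ (Submodule.quotEquivOfEq _ _ hk) ≪≫ₗ P.quotKerEquivRange
  obtain ⟨g, hg⟩ := exists_extend_equiv f
  have hgP : ∀ a, g (P' a) = P a := by
    intro a
    have h1 := hg ⟨P' a, LinearMap.mem_range_self P' a⟩
    have h2 : P'.quotKerEquivRange.symm ⟨P' a, LinearMap.mem_range_self P' a⟩ =
        Submodule.Quotient.mk a := by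
      rw [LinearEquiv.symm_apply_eq]
      rfl
    simp only [f, LinearEquiv.trans_apply, h2] at h1
    exact h1
  refine ⟨g, fun y hy => ?_⟩
  have h1 := hgP (Pi.single y 1)
  rw [hP, hP'] at h1
  rw [Finset.sum_eq_single y (fun b _ hb => by simp [Pi.single_eq_of_ne hb])
    (fun hn => absurd hy hn)] at h1
  rw [Finset.sum_eq_single y (fun b _ hb => by simp [Pi.single_eq_of_ne hb])
    (fun hn => absurd hy hn)] at h1
  simp only [Pi.single_eq_same, one_mul, one_smul, map_smul] at h1
  exact h1.symm

theorem BinD_le {F F' : Type} [Field F] [Field F'] {V V' : Type} [AddCommGroup V]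
    [Module F V] [FiniteDimensional F V] [AddCommGroup V'] [Module F' V'] [FiniteDimensional F' V']
    {α : Type} [DecidableEq α] {w : α → V} {w' : α → V'} {A : Finset α}
    (h : ∀ S : Set α, S ⊆ (A : Set α) → (LinearIndependent F (fun s : S => w (s : α)) →
      LinearIndependent F' (fun s : S => w' (s : α)))) :
    Module.finrank F (Sp F w A) ≤ Module.finrank F' (Sp F' w' A) := by
  obtain ⟨κ, a, hinj, hspan, hli⟩ := exists_linearIndependent' F (fun s : A => w (s : α))
  have hinj' : Function.Injective (fun k => ((a k : A) : α)) :=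
    fun x y hxy => hinj (Subtype.ext hxy)
  have : Finite κ := Finite.of_injective a hinj
  have : Fintype κ := Fintype.ofFinite κ
  let S : Set α := Set.range (fun k => ((a k : A) : α))
  have hS : S ⊆ (A : Set α) := by
    rintro _ ⟨k, rfl⟩
    exact (a k).2
  let e : κ ≃ S := Equiv.ofInjective _ hinj'
  have h1 : LinearIndependent F (fun s : S => w (s : α)) := by
    rw [← linearIndependent_equiv e]
    exact hli
  have h2 := h S hS h1
  rw [← linearIndependent_equiv e] at h2
  have h3 : Module.finrank F' (span F' (Set.range ((fun s : S => w' (s : α)) ∘ e))) =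
      Fintype.card κ := finrank_span_eq_card h2
  have h4 : Module.finrank F (span F (Set.range ((fun s : A => w (s : α)) ∘ a))) =
      Fintype.card κ := finrank_span_eq_card hli
  have h5 : Sp F w A = span F (Set.range ((fun s : A => w (s : α)) ∘ a)) := by
    rw [hspan]
    unfold Sp
    congr 1
    ext x
    simp
  rw [h5, h4, ← h3]
  refine Submodule.finrank_mono (span_le.2 ?_)
  rintro _ ⟨k, rfl⟩
  exact mem_Sp (a k).2

/-- equal independent sets, equal ranks: a set `A` contains a basis of `Sp F w A`
(`exists_linearIndependent`...), whose vectors are independent for `w'`, so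
`finrank (Sp w A) ≤ finrank (Sp w' A)`; by symmetry equality. Here only for subsets of `G`. -/
theorem sameRk_of_indep {F F' : Type} [Field F] [Field F'] {V V' : Type} [AddCommGroup V]
    [Module F V] [FiniteDimensional F V] [AddCommGroup V'] [Module F' V'] [FiniteDimensional F' V']
    {α : Type} [DecidableEq α] {w : α → V} {w' : α → V'} {G : Finset α}
    (h : ∀ S : Set α, S ⊆ (G : Set α) → (LinearIndependent F (fun s : S => w (s : α)) ↔
      LinearIndependent F' (fun s : S => w' (s : α)))) : SameRk (F := F) (F' := F') G w w' := by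
  intro A hA
  have hAG : (A : Set α) ⊆ (G : Set α) := by exact_mod_cast hA
  exact le_antisymm (BinD_le fun S hS => (h S (hS.trans hAG)).1)
    (BinD_le fun S hS => (h S (hS.trans hAG)).2)

end Pool.MP_4929df_co.H92
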