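import Pool.Agent.W_4929df_h92.BinB

/-!
Unique representability of binary matroids, third part.
-/

set_option autoImplicit false

namespace Pool.MP_4929df_co.H92

open Submodule

/-- the rank function of the quotient: `Sp F (W.mkQ ∘ w) A = (Sp F w A ⊔ W).map W.mkQ` (or
`(Sp F w A).map W.mkQ`), and `finrank` of `(Sp F w A ⊔ W).map W.mkQ` is
`finrank (Sp F w A ⊔ W) - finrank W` -/
theorem finrank_mkQ {F : Type} [Field F] {V : Type} [AddCommGroup V] [Module F V]
    [FiniteDimensional F V] {α : Type} [DecidableEq α] (w : α → V) (B A : Finset α) :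
    Module.finrank F (Sp F (fun x => (Sp F w B).mkQ (w x)) A) + Module.finrank F (Sp F w B) =
      Module.finrank F (Sp F w (A ∪ B)) := by
  have h1 : Sp F (fun x => (Sp F w B).mkQ (w x)) A = (Sp F w (A ∪ B)).map (Sp F w B).mkQ := by
    rw [Sp_union, Submodule.map_sup, Submodule.mkQ_map_self, sup_bot_eq]
    unfold Sp
    rw [Submodule.map_span]
    congr 1
    rw [Set.image_image]
  have h2 := LinearMap.finrank_range_add_finrank_ker
    ((Sp F w B).mkQ.domRestrict (Sp F w (A ∪ B)))
  rw [LinearMap.range_domRestrict] at h2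
  have h3 : LinearMap.ker ((Sp F w B).mkQ.domRestrict (Sp F w (A ∪ B))) =
      (Sp F w B).comap (Sp F w (A ∪ B)).subtype := by
    ext y
    simp [LinearMap.mem_ker, LinearMap.domRestrict_apply]
  have h4 : Module.finrank F ((Sp F w B).comap (Sp F w (A ∪ B)).subtype) =
      Module.finrank F (Sp F w B) :=
    (Submodule.comapSubtypeEquivOfLe (Sp_mono Finset.subset_union_right)).finrank_eq
  rw [h3, h4] at h2
  rw [h1]
  exact h2

theorem BinC1_sameRk {F F' : Type} [Field F] [Field F'] {V V' : Type} [AddCommGroup V]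
    [Module F V] [FiniteDimensional F V] [AddCommGroup V'] [Module F' V'] [FiniteDimensional F' V']
    {α : Type} [DecidableEq α] {G : Finset α} {w : α → V} {w' : α → V'}
    (h : SameRk (F := F) (F' := F') G w w') {A B : Finset α} (hA : A ⊆ G) (hB : B ⊆ G) :
    SameRk (F := F) (F' := F') A (fun x => (Sp F w B).mkQ (w x))
      (fun x => (Sp F' w' B).mkQ (w' x)) := by
  intro C hC
  have h1 := finrank_mkQ (F := F) w B C
  have h2 := finrank_mkQ (F := F') w' B C
  have h3 := h (C ∪ B) (Finset.union_subset (hC.trans hA) hB)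
  have h4 := h B hB
  omega

theorem BinC1_inf {F : Type} [Field F] {V : Type} [AddCommGroup V] [Module F V]
    [FiniteDimensional F V] {α : Type} [DecidableEq α] {w : α → V} {A B : Finset α}
    (h : Module.finrank F (Sp F w A) + Module.finrank F (Sp F w B) ≤
      Module.finrank F (Sp F w (A ∪ B))) : Sp F w A ⊓ Sp F w B = ⊥ := by
  have h1 := Submodule.finrank_sup_add_finrank_inf_eq (Sp F w A) (Sp F w B)
  rw [← Sp_union] at h1
  have h2 : Module.finrank F (Sp F w A ⊓ Sp F w B : Submodule F V) = 0 := by omega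
  exact Submodule.finrank_eq_zero.1 h2

theorem BinC1_sum {F : Type} [Field F] {V : Type} [AddCommGroup V] [Module F V]
    {α : Type} (w : α → V) (W : Submodule F V) (A : Finset α) (a : α → F) :
    ∑ y ∈ A, a y • W.mkQ (w y) = 0 ↔ ∑ y ∈ A, a y • w y ∈ W := by
  have h1 : ∑ y ∈ A, a y • W.mkQ (w y) = W.mkQ (∑ y ∈ A, a y • w y) := by
    rw [map_sum]
    exact Finset.sum_congr rfl fun y _ => (map_smul _ _ _).symm
  rw [h1, ← LinearMap.mem_ker, Submodule.ker_mkQ]

/-- Induction on `G.card`, for all spaces. `G = ∅`: trivial (`c = 1`). `x ∈ G`. If `G.erase x = ∅`: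
`G = {x}`, `w x = 0` iff `w' x = 0` (`SameRk` for `{x}`), `c = 1`. If `Conn (rk F w ⊥) (G.erase x)`:
induction hypothesis for `G.erase x` and `rel_conn`. Otherwise a partition `(A, B)` of `G.erase x`,
both nonempty, with `rk A + rk B ≤ rk (G.erase x) + rk ∅`, so (`rk ∅ = 0`) the spans of `A` and `B`
have zero intersection, for `w` and for `w'` (`SameRk`). The induction hypothesis for `insert x A`
(smaller because `B` is nonempty) and the vectors modulo `Sp F w B`, `Sp F w' B`, `Sp (ZMod 2) u B`
(`finrank_mkQ` gives `SameRk`), the same for `insert x B`; `rel_sep`. -/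
theorem binary_rel (F : Type) [Field F] (α : Type) [DecidableEq α] : ∀ (n : ℕ)
    (V : Type) [AddCommGroup V] [Module F V] [FiniteDimensional F V]
    (V' : Type) [AddCommGroup V'] [Module F V'] [FiniteDimensional F V']
    (U : Type) [AddCommGroup U] [Module (ZMod 2) U] [FiniteDimensional (ZMod 2) U]
    (w : α → V) (w' : α → V') (u : α → U) (G : Finset α), G.card = n →
    SameRk (F := F) (F' := ZMod 2) G w u → SameRk (F := F) (F' := ZMod 2) G w' u →
    ∃ c : α → F, (∀ y, c y ≠ 0) ∧ ∀ a : α → F,
      (∑ y ∈ G, a y • w y = 0 ↔ ∑ y ∈ G, (a y * c y) • w' y = 0) := by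
  intro n
  induction n using Nat.strong_induction_on with
  | _ n ih =>
  intro V _ _ _ V' _ _ _ U _ _ _ w w' u G hcard h h'
  by_cases hG : G = ∅
  · subst hG
    exact ⟨fun _ => 1, fun _ => one_ne_zero, fun a => by simp⟩
  obtain ⟨x, hx⟩ := Finset.nonempty_iff_ne_empty.2 hG
  have hce : (G.erase x).card + 1 = n := by
    rw [Finset.card_erase_add_one hx, hcard]
  have hsub : G.erase x ⊆ G := Finset.erase_subset _ _
  by_cases hne : (G.erase x).Nonempty
  · by_cases hconn : Conn (rk F w (⊥ : Submodule F V)) (G.erase x)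
    · exact rel_conn hx h h' hconn hne (ih _ (by omega) V V' U w w' u (G.erase x) rfl
        (fun A hA => h A (hA.trans hsub)) (fun A hA => h' A (hA.trans hsub)))
    · unfold Conn at hconn
      push Not at hconn
      obtain ⟨A, B, hAB, hd, hA, hB, hlt⟩ := hconn
      rw [BinA_rk, BinA_rk, BinA_rk, BinA_rk, ← hAB] at hlt
      have hAG : A ⊆ G := fun y hy => hsub (hAB ▸ Finset.mem_union_left _ hy)
      have hBG : B ⊆ G := fun y hy => hsub (hAB ▸ Finset.mem_union_right _ hy)
      have hABG : A ∪ B ⊆ G := hAB ▸ hsub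
      have h0 : Module.finrank F (Sp F w (∅ : Finset α)) = 0 := by
        rw [Sp_empty]
        exact finrank_bot F V
      have hw : Sp F w A ⊓ Sp F w B = ⊥ := BinC1_inf (by omega)
      have hw' : Sp F w' A ⊓ Sp F w' B = ⊥ := BinC1_inf (by
        rw [h' A hAG, h' B hBG, h' _ hABG, ← h A hAG, ← h B hBG, ← h _ hABG]
        omega)
      have hcardAB : A.card + B.card = (G.erase x).card := by
        rw [← Finset.card_union_of_disjoint hd, hAB]
      have hA1 := hA.card_pos
      have hB1 := hB.card_pos
      have hiA := Finset.card_insert_le x A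
      have hiB := Finset.card_insert_le x B
      refine rel_sep hx hAB hd hw hw' ?_ ?_
      · obtain ⟨c, hc, hca⟩ := ih (insert x A).card (by omega) (V ⧸ Sp F w B) (V' ⧸ Sp F w' B)
          (U ⧸ Sp (ZMod 2) u B) (fun y => (Sp F w B).mkQ (w y)) (fun y => (Sp F w' B).mkQ (w' y))
          (fun y => (Sp (ZMod 2) u B).mkQ (u y)) (insert x A) rfl
          (BinC1_sameRk h (Finset.insert_subset hx hAG) hBG)
          (BinC1_sameRk h' (Finset.insert_subset hx hAG) hBG)
        refine ⟨c, hc, fun a => ?_⟩
        have := hca a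
        rw [BinC1_sum w _ _ a, BinC1_sum w' _ _ (fun y => a y * c y)] at this
        exact this
      · obtain ⟨c, hc, hca⟩ := ih (insert x B).card (by omega) (V ⧸ Sp F w A) (V' ⧸ Sp F w' A)
          (U ⧸ Sp (ZMod 2) u A) (fun y => (Sp F w A).mkQ (w y)) (fun y => (Sp F w' A).mkQ (w' y))
          (fun y => (Sp (ZMod 2) u A).mkQ (u y)) (insert x B) rfl
          (BinC1_sameRk h (Finset.insert_subset hx hBG) hAG)
          (BinC1_sameRk h' (Finset.insert_subset hx hBG) hAG)
        refine ⟨c, hc, fun a => ?_⟩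
        have := hca a
        rw [BinC1_sum w _ _ a, BinC1_sum w' _ _ (fun y => a y * c y)] at this
        exact this
  · have hGx : G = {x} := by
      apply Finset.Subset.antisymm
      · intro z hz
        rw [Finset.mem_singleton]
        by_contra hzx
        exact hne ⟨z, Finset.mem_erase.2 ⟨hzx, hz⟩⟩
      · exact Finset.singleton_subset_iff.2 hx
    have e1 := h.mem (Finset.empty_subset _) hx
    have e2 := h'.mem (Finset.empty_subset _) hx
    rw [Sp_empty, Sp_empty, Submodule.mem_bot, Submodule.mem_bot] at e1 e2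
    refine ⟨fun _ => 1, fun _ => one_ne_zero, fun a => ?_⟩
    rw [hGx, Finset.sum_singleton, Finset.sum_singleton, mul_one, smul_eq_zero, smul_eq_zero,
      e1, e2]

end Pool.MP_4929df_co.H92
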