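import Pool.Agent.W_4929df_h92.BixbyDefs

/-!
The Bixby-type lemma (step 2 of proofs row 546). `ct r {x}` applied to `A` is `r (A ∪ {x})`
(by `rfl`), `ct_empty_apply` gives its value at the empty set.
-/

set_option autoImplicit false

namespace Pool.MP_4929df_co.H92

variable {α : Type*} [DecidableEq α]

variable {r : Finset α → ℕ} {G Th : Finset α} {x : α}

/-- the complement of `A` in `G` -/
theorem BixbyA_sdiff {A B : Finset α} (hx : x ∈ G) (hA : A ∪ B = G.erase x)
    (hAB : Disjoint A B) : G \ A = B ∪ {x} := by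
  ext a
  have h1 := Finset.ext_iff.1 hA a
  have h2 : a ∈ A → a ∉ B := fun h => Finset.disjoint_left.1 hAB h
  have h3 := erase_disj hA
  simp only [Finset.mem_union, Finset.mem_erase, Finset.mem_sdiff, Finset.mem_singleton] at h1 ⊢
  by_cases h : a = x
  · subst h; tauto
  · tauto

/-- a 2-separation of `G` whose second side contains `x` and more -/
theorem BixbyA_side (h : BH r G x Th) {A B : Finset α} (hA : A ∪ B = G.erase x)
    (hAB : Disjoint A B) (hB : B.Nonempty) (h1 : r A + r (B ∪ {x}) ≤ r G + r ∅ + 1) :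
    Ser r G A := by
  have h3 := erase_disj hA
  have hU : A ∪ (B ∪ {x}) = G := by
    ext a
    have h1 := Finset.ext_iff.1 hA a
    simp only [Finset.mem_union, Finset.mem_erase, Finset.mem_singleton] at h1 ⊢
    by_cases h' : a = x
    · subst h'; simp [h.hx]
    · tauto
  have hD : Disjoint A (B ∪ {x}) := by
    rw [Finset.disjoint_union_right]
    exact ⟨hAB, by rw [Finset.disjoint_singleton_right]; exact h3.1⟩
  rcases h.hG.2 A (B ∪ {x}) hU hD h1 with h4 | h4
  · exact h4
  · exfalso
    obtain ⟨b, hb⟩ := hB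
    have := h.not_ser h4 (by simp) (s := b) (by simp [hb])
    exact h3.2 (this ▸ hb)

theorem BixbyA_ins (h : BH r G x Th) (B : Finset α) : r (B ∪ {x}) ≤ r B + 1 := by
  simpa using h.hr.add_card B {x}

theorem BixbyA_card (h : BH r G x Th) {A B : Finset α} (hA : A ∪ B = G.erase x)
    (hAB : Disjoint A B) : A.card + B.card + 1 = G.card := by
  rw [← Finset.card_union_of_disjoint hAB, hA, Finset.card_erase_add_one h.hx]

theorem BixbyA_conn (h : BH r G x Th) : Conn r (G.erase x) := by
  intro A B hA hAB hAn hBn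
  by_contra hcon
  have e5 := h.hr.mono (G.erase x) G (Finset.erase_subset _ _)
  have i1 := BixbyA_ins h A
  have i2 := BixbyA_ins h B
  have s1 := h.h8 _ (BixbyA_side h hA hAB hBn (by omega))
  have s2 := h.h8 _ (BixbyA_side h ((Finset.union_comm B A).trans hA) hAB.symm hAn (by omega))
  have c := BixbyA_card h hA hAB
  have := h.card
  omega

/-- Step (a), first part. `G.erase x` is not `Good`. If `Conn` fails: a partition `(A, B)` of
`G.erase x` with `A, B` nonempty and `r A + r B ≤ r (G.erase x) + r ∅ ≤ r G + r ∅`; apply `TwoS r G`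
to `(A, B ∪ {x})` (`r (B ∪ {x}) ≤ r B + 1`): `Ser r G (B ∪ {x})` is impossible by `not_ser`
(`B` nonempty), so `Ser r G A`, `A.card ≤ 8`; in the same way `B.card ≤ 8`, so `G.card ≤ 17`,
contradiction to `BH.card`. So `TwoS` fails, which is the statement
(`r (G.erase x) = r G` by `Conn.erase_eq`; `(G.erase x) \ A = B`; `A` is nonempty because
`A = ∅` would give `r G + 2 ≤ 0 + r B`). -/
theorem BH.exists_sep (h : BH r G x Th) : ∃ A B, A ∪ B = G.erase x ∧ Disjoint A B ∧
    A.Nonempty ∧ B.Nonempty ∧ r A + r B ≤ r G + r ∅ + 1 ∧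
    r G + 2 ≤ A.card + r B ∧ r G + 2 ≤ B.card + r A := by
  have hc := BixbyA_conn h
  have hT : ¬ TwoS r (G.erase x) := fun hT => h.hdel ⟨hc, hT⟩
  unfold TwoS at hT
  push Not at hT
  obtain ⟨A, B, hA, hAB, h1, h2, h3⟩ := hT
  have e := h.hG.1.erase_eq h.hr h.hx h.erase_nonempty
  rw [e] at h1
  have sA : (G.erase x) \ A = B := by
    rw [← hA, Finset.union_sdiff_cancel_left hAB]
  have sB : (G.erase x) \ B = A := by
    rw [← hA, Finset.union_comm, Finset.union_sdiff_cancel_left hAB.symm]
  have hAs : A ⊆ G.erase x := by rw [← hA]; exact Finset.subset_union_left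
  have hBs : B ⊆ G.erase x := by rw [← hA]; exact Finset.subset_union_right
  have h2' : ¬ (A.card + r B ≤ r G + 1) := by
    intro h4; apply h2; refine ⟨hAs, ?_⟩; rw [sA, e]; exact h4
  have h3' : ¬ (B.card + r A ≤ r G + 1) := by
    intro h4; apply h3; refine ⟨hBs, ?_⟩; rw [sB, e]; exact h4
  have mB := h.hr.mono B G (hBs.trans (Finset.erase_subset _ _))
  have mA := h.hr.mono A G (hAs.trans (Finset.erase_subset _ _))
  refine ⟨A, B, hA, hAB, ?_, ?_, h1, by omega, by omega⟩
  · rw [← Finset.card_pos]; omega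
  · rw [← Finset.card_pos]; omega

/-- Step (a), second part: `x` is not in the closure of `B`. Otherwise (`r (B ∪ {x}) ≤ r B`)
`TwoS r G` for `(A, B ∪ {x})` gives `Ser r G A`, i.e. `A.card + r (B ∪ {x}) ≤ r G + 1`
(`G \ A = B ∪ {x}`), contradiction to `r G + 2 ≤ A.card + r B`, or `Ser r G (B ∪ {x})`, impossible
by `not_ser`. -/
theorem BH.not_cl (h : BH r G x Th) {A B : Finset α} (hA : A ∪ B = G.erase x) (hAB : Disjoint A B)
    (hB : B.Nonempty) (h1 : r A + r B ≤ r G + r ∅ + 1) (h2 : r G + 2 ≤ A.card + r B) :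
    r (B ∪ {x}) = r B + 1 := by
  have i := BixbyA_ins h B
  by_contra hcon
  have s1 := BixbyA_side h hA hAB hB (by omega)
  have s2 := s1.2
  rw [BixbyA_sdiff h.hx hA hAB] at s2
  have := h.hr.mono B (B ∪ {x}) Finset.subset_union_left
  omega

/-- Two series sets cannot cover the side `A` of a separation as in `exists_sep`:
`A.card ≤ (A ∩ C).card + (A ∩ D).card`, `(A ∩ C).card + r (G \ (A ∩ C)) ≤ r G + 1` and the same for
`D`; submodularity `r G + r (G \ A) ≤ r (G \ (A ∩ C)) + r (G \ (A ∩ D))` (`A ⊆ C ∪ D`, and `C, D`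
disjoint); `G \ A = B ∪ {x}` has rank `r B + 1`; so `A.card + r B + 1 ≤ r G + 2`. -/
theorem BH.not_two (h : BH r G x Th) {A B C D : Finset α} (hA : A ∪ B = G.erase x)
    (hAB : Disjoint A B) (hCD : Disjoint C D) (hC : C ∪ D = G.erase x)
    (h2 : r G + 2 ≤ A.card + r B) (h3 : r (B ∪ {x}) = r B + 1)
    (h4 : Ser r G (A ∩ C)) (h5 : Ser r G (A ∩ D)) : False := by
  have hAC : A ⊆ C ∪ D := by
    rw [hC, ← hA]; exact Finset.subset_union_left
  have c : A.card = (A ∩ C).card + (A ∩ D).card := by
    rw [← Finset.card_union_of_disjoint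
      (hCD.mono Finset.inter_subset_right Finset.inter_subset_right),
      ← Finset.inter_union_distrib_left, Finset.inter_eq_left.2 hAC]
  have s := h.hr.sub4 (A := G \ (A ∩ C)) (B := G \ (A ∩ D)) (C := G) (D := G \ A)
    (by
      intro a ha
      have h2 : a ∈ C → a ∉ D := fun h => Finset.disjoint_left.1 hCD h
      simp only [Finset.mem_union, Finset.mem_sdiff, Finset.mem_inter]
      tauto)
    (by
      intro a ha
      simp only [Finset.mem_sdiff, Finset.mem_inter] at ha ⊢
      tauto)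
  rw [BixbyA_sdiff h.hx hA hAB] at s
  have h4' := h4.2
  have h5' := h5.2
  omega

end Pool.MP_4929df_co.H92
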