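import Pool.Agent.W_4929df_h92.BixbyA

/-!
The Bixby-type lemma (step 2 of proofs row 546). `ct r {x}` applied to `A` is `r (A ∪ {x})`
(by `rfl`), `ct_empty_apply` gives its value at the empty set.
-/

set_option autoImplicit false

namespace Pool.MP_4929df_co.H92

variable {α : Type*} [DecidableEq α]

variable {r : Finset α → ℕ} {G Th : Finset α} {x : α}

/-- A crossing of small connectivity is a series set. -/
theorem BixbyB_cross (h : BH r G x Th) {A B C D : Finset α} (hA : A ∪ B = G.erase x)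
    (hAB : Disjoint A B) (hC : C ∪ D = G.erase x) (hCD : Disjoint C D) (hB : B.Nonempty)
    (h1 : r (A ∩ C) + r (B ∪ D ∪ {x}) ≤ r G + r ∅ + 1) : Ser r G (A ∩ C) := by
  rcases h.hG.2 _ _ (cross_union h.hx hA hC) (cross_disj hA hAB hCD) h1 with h2 | h2
  · exact h2
  · exfalso
    obtain ⟨b, hb⟩ := hB
    have h3 : b = x := h.not_ser h2 (by simp) (by
      simp only [Finset.mem_union]
      exact Or.inl (Or.inl hb))
    rw [h3] at hb
    exact (erase_disj hA).2 hb

/-- Step (b). Take `A, B` from `exists_sep`, `r (A ∪ {x}) = r A + 1`, `r (B ∪ {x}) = r B + 1`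
(`not_cl`, also with `A, B` exchanged). `uncross` gives `λ(A ∩ C) + λ(B ∩ D) ≤ 3`, where
`λ(A ∩ C) = r (A ∩ C) + r (B ∪ D ∪ {x}) - r G - r ∅`. So one of them is at most 1; then `TwoS r G`
(`cross_union`, `cross_disj`) says that `A ∩ C` is `Ser` (the complement contains `x` and `B` or
`A`, use `not_ser`), or `B ∩ D` is. In the same way `A ∩ D` or `B ∩ C` is `Ser`. The combinations
`A ∩ C, A ∩ D` and `B ∩ D, B ∩ C` are excluded by `not_two`. The other two give `SS r G C`
(`C = (A ∩ C) ∪ (B ∩ C)`) or `SS r G D`. -/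
theorem BH.inv (h : BH r G x Th) {C D : Finset α} (hC : C ∪ D = G.erase x) (hCD : Disjoint C D)
    (h1 : r (C ∪ {x}) + r (D ∪ {x}) ≤ r G + r ∅ + 2) : SS r G C ∨ SS r G D := by
  obtain ⟨A, B, hA, hAB, hAn, hBn, hs, ha, hb⟩ := h.exists_sep
  have hA' : B ∪ A = G.erase x := (Finset.union_comm B A).trans hA
  have hC' : D ∪ C = G.erase x := (Finset.union_comm D C).trans hC
  have hxB : r (B ∪ {x}) = r B + 1 := h.not_cl hA hAB hBn hs ha
  have hxA : r (A ∪ {x}) = r A + 1 := h.not_cl hA' hAB.symm hAn (by omega) hb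
  have u1 := uncross h.hr x A B C D
  have u2 := uncross h.hr x A B D C
  have m1 : Ser r G (A ∩ C) ∨ Ser r G (B ∩ D) := by
    by_cases hc : r (A ∩ C) + r (B ∪ D ∪ {x}) ≤ r G + r ∅ + 1
    · exact Or.inl (BixbyB_cross h hA hAB hC hCD hBn hc)
    · exact Or.inr (BixbyB_cross h hA' hAB.symm hC' hCD.symm hAn (by omega))
  have m2 : Ser r G (A ∩ D) ∨ Ser r G (B ∩ C) := by
    by_cases hc : r (A ∩ D) + r (B ∪ C ∪ {x}) ≤ r G + r ∅ + 1
    · exact Or.inl (BixbyB_cross h hA hAB hC' hCD.symm hBn hc)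
    · exact Or.inr (BixbyB_cross h hA' hAB.symm hC hCD hAn (by omega))
  have hcov : ∀ {E : Finset α}, E ⊆ G.erase x → E ⊆ (A ∩ E) ∪ (B ∩ E) := by
    intro E hE e he
    have h3 : e ∈ A ∪ B := by rw [hA]; exact hE he
    simp only [Finset.mem_union, Finset.mem_inter] at h3 ⊢
    tauto
  rcases m1 with m1 | m1 <;> rcases m2 with m2 | m2
  · exact (h.not_two hA hAB hCD hC ha hxB m1 m2).elim
  · exact Or.inl ⟨_, _, m1, m2, hcov (by rw [← hC]; exact Finset.subset_union_left)⟩
  · exact Or.inr ⟨_, _, m2, m1, hcov (by rw [← hC]; exact Finset.subset_union_right)⟩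
  · exact (h.not_two hA' hAB.symm hCD hC hb hxA m2 m1).elim

/-- Step (c). Suppose `(C, D)` is a partition of `G.erase x`, both nonempty,
`r (C ∪ {x}) + r (D ∪ {x}) ≤ r G + r {x}`, `r {x} = r ∅ + 1` (`Conn.single`). `Conn r G` for
`(C, D ∪ {x})` gives `r (C ∪ {x}) ≤ r C`; in the same way `r (D ∪ {x}) ≤ r D`. `TwoS r G` for
`(C ∪ {x}, D)`: `Ser r G (C ∪ {x})` is impossible (`not_ser`), so `Ser r G D`, `D.card ≤ 8`; in the
same way `C.card ≤ 8`; contradiction to `BH.card`. -/
theorem BH.conn_ct (h : BH r G x Th) : Conn (ct r {x}) (G.erase x) := by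
  intro C D hC hCD hCn hDn
  by_contra hcon
  have e1 : ct r {x} (G.erase x) = r G := by
    show r (G.erase x ∪ {x}) = r G
    congr 1
    ext a; simp only [Finset.mem_union, Finset.mem_erase, Finset.mem_singleton]
    by_cases ha : a = x <;> simp [ha, h.hx]
  have e2 : ct r {x} ∅ = r ∅ + 1 := by
    rw [ct_empty_apply]
    exact Conn.single h.hr h.hG.1 h.hx h.erase_nonempty
  have e3 : ct r {x} C = r (C ∪ {x}) := rfl
  have e4 : ct r {x} D = r (D ∪ {x}) := rfl
  rw [e1, e2, e3, e4] at hcon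
  have hxC : x ∉ C := (erase_disj hC).1
  have hxD : x ∉ D := (erase_disj hC).2
  have p1 : C ∪ (D ∪ {x}) = G := by
    rw [← Finset.union_assoc, hC]
    ext a; simp only [Finset.mem_union, Finset.mem_erase, Finset.mem_singleton]
    by_cases ha : a = x <;> simp [ha, h.hx]
  have p2 : D ∪ (C ∪ {x}) = G := by
    rw [← Finset.union_assoc, Finset.union_comm D C, hC]
    ext a; simp only [Finset.mem_union, Finset.mem_erase, Finset.mem_singleton]
    by_cases ha : a = x <;> simp [ha, h.hx]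
  have d1 : Disjoint C (D ∪ {x}) := by
    rw [Finset.disjoint_union_right]
    exact ⟨hCD, by simpa using hxC⟩
  have d2 : Disjoint D (C ∪ {x}) := by
    rw [Finset.disjoint_union_right]
    exact ⟨hCD.symm, by simpa using hxD⟩
  have c1 := h.hG.1 _ _ p1 d1 hCn ⟨x, by simp⟩
  have c2 := h.hG.1 _ _ p2 d2 hDn ⟨x, by simp⟩
  have mC := h.hr.mono C (C ∪ {x}) Finset.subset_union_left
  have mD := h.hr.mono D (D ∪ {x}) Finset.subset_union_left
  have s1 : Ser r G C := by
    rcases h.hG.2 _ _ p1 d1 (by omega) with h2 | h2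
    · exact h2
    · exfalso
      obtain ⟨b, hb⟩ := hDn
      have h3 : b = x := h.not_ser h2 (by simp) (by simp [hb])
      exact hxD (h3 ▸ hb)
  have s2 : Ser r G D := by
    rcases h.hG.2 _ _ p2 d2 (by omega) with h2 | h2
    · exact h2
    · exfalso
      obtain ⟨b, hb⟩ := hCn
      have h3 : b = x := h.not_ser h2 (by simp) (by simp [hb])
      exact hxC (h3 ▸ hb)
  have k1 := h.h8 _ s1
  have k2 := h.h8 _ s2
  have k3 : (G.erase x).card ≤ C.card + D.card := by
    rw [← hC]
    exact Finset.card_union_le _ _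
  rw [Finset.card_erase_of_mem h.hx] at k3
  have k4 := h.card
  omega

end Pool.MP_4929df_co.H92
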