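import Pool.Agent.W_4929df_h92.BixbyDefs

/-!
The Bixby-type lemma (step 2 of proofs row 546). `ct r {x}` applied to `A` is `r (A ∪ {x})`
(by `rfl`), `ct_empty_apply` gives its value at the empty set.
-/

set_option autoImplicit false

namespace Pool.MP_4929df_co.H92

variable {α : Type*} [DecidableEq α]

variable {r : Finset α → ℕ} {G Th : Finset α} {x : α}

/-- Moving elements of a series set: if `X` is a series set, `s ∈ X`, `s ∉ D`, then the elements of
`D ∩ X` are coloops of `D`. Proof: `r (G.erase s) = r G` (`Conn.erase_eq`; if `G.erase s` is empty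
then `D` is empty and the claim is trivial). Submodularity with `D` and `(G.erase s) \ (D ∩ X)`:
union `G.erase s`, intersection `⊇ D \ X`; so
`r G + r (D \ X) ≤ r D + r ((G.erase s) \ (D ∩ X))`, and
`r ((G.erase s) \ (D ∩ X)) ≤ r (G \ X) + (X.card - 1 - (D ∩ X).card) ≤ r G - (D ∩ X).card`
(`(G.erase s) \ (D ∩ X) ⊆ (G \ X) ∪ ((X.erase s) \ (D ∩ X))`, `IsRk.le_add_card`). -/
theorem ser_move (hr : IsRk r) (hG : Conn r G) {X D : Finset α} (hX : Ser r G X) (hD : D ⊆ G)
    {s : α} (hs : s ∈ X) (hsD : s ∉ D) : r (D \ X) + (D ∩ X).card ≤ r D := by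
  rcases (G.erase s).eq_empty_or_nonempty with he | hne
  · have hDe : D = ∅ := by
      rw [Finset.eq_empty_iff_forall_notMem]
      intro a ha
      have h1 : a ∈ G.erase s := Finset.mem_erase.2 ⟨fun h => hsD (h ▸ ha), hD ha⟩
      rw [he] at h1
      simp at h1
    subst hDe
    simp
  have h1 := hG.erase_eq hr (hX.1 hs) hne
  have h2 := hr.sub4 (A := D) (B := (G.erase s) \ (D ∩ X)) (C := G.erase s) (D := D \ X)
    (by
      intro a ha
      simp only [Finset.mem_union, Finset.mem_sdiff, Finset.mem_inter]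
      tauto)
    (by
      intro a ha
      have h3 := @hD a
      have h4 : a = s → a ∉ D := fun h => h ▸ hsD
      simp only [Finset.mem_sdiff, Finset.mem_inter, Finset.mem_erase] at ha ⊢
      tauto)
  have h3 : r ((G.erase s) \ (D ∩ X)) ≤ r (G \ X) + ((X.erase s) \ (D ∩ X)).card :=
    hr.le_add_card (by
      intro a ha
      simp only [Finset.mem_sdiff, Finset.mem_inter, Finset.mem_erase, Finset.mem_union] at ha ⊢
      tauto)
  have h4 : D ∩ X ⊆ X.erase s := by
    intro a ha
    have h5 : a = s → a ∉ D := fun h => h ▸ hsD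
    simp only [Finset.mem_inter, Finset.mem_erase] at ha ⊢
    tauto
  have h5 := Finset.card_sdiff_add_card_eq_card h4
  have h6 := Finset.card_erase_add_one hs
  have h7 := hX.2
  omega

/-- Step (d), first part. `C ⊆ X ∪ Y`, both `Ser`. From the hypotheses `r (C ∪ {x}) ≤ r ∅ + C.card`.
Take `Z ⊆ C` minimal with `r (Z ∪ {x}) ≤ r ∅ + Z.card`; `Z` is nonempty (`r {x} = r ∅ + 1`).
By minimality `r ((Z.erase z) ∪ {x}) = r ∅ + Z.card` for all `z ∈ Z`, so
`r (Z ∪ {x}) = r ∅ + Z.card` and every `z ∈ Z` is in the closure of `(Z.erase z) ∪ {x}`.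
`r Z = r ∅ + Z.card`: otherwise `r Z + 1 ≤ r ∅ + Z.card` and, because `Z ⊆ X ∪ Y`,
`Z.card + r (G \ Z) ≤ r G + 2` (`Z ∩ X` and `Z \ X ⊆ Y` are `Ser`, submodularity), so
`r Z + r (G \ Z) ≤ r G + r ∅ + 1`; `TwoS`: `Ser (G \ Z)` is impossible (contains `x` and, by
`BH.card` and `Z.card ≤ 16`, more), so `Ser r G Z`, so `r Z + r (G \ Z) ≤ r G + r ∅`, contradiction
to `Conn`. So `r (Z ∪ {x}) = r Z`; by `hxTh` and `cl_mono` `Z` is not contained in `Th`: `b ∈ Z`,
`b ∉ Th`. `b ∈ Y`, say: then `Y = {b}` (any other `s ∈ Y` gives `Ser {b, s}`, `b ∈ Th` by `hTh`),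
so `P = Z.erase b ⊆ X`. -/
theorem BH.exists_del (h : BH r G x Th) {G' C D : Finset α} (hG' : G' ⊆ G.erase x)
    (hC : C ∪ D = G') (hCD : Disjoint C D)
    (h1 : r (C ∪ {x}) + r (D ∪ {x}) ≤ r G + r ∅ + 2) (h2 : r G + 2 ≤ C.card + r (D ∪ {x}))
    (h3 : SS r G C) :
    ∃ b ∈ C, ∃ P ⊆ C, ∃ X, Ser r G X ∧ P ⊆ X ∧ b ∉ P ∧
      r (insert b (P ∪ {x})) ≤ r (P ∪ {x}) := by
  obtain ⟨X, Y, hX, hY, hCXY⟩ := h3
  have hr := h.hr
  have hxx := h.hG.1.single hr h.hx h.erase_nonempty
  have hSne : (C.powerset.filter (fun Z => r (Z ∪ {x}) ≤ r ∅ + Z.card)).Nonempty :=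
    ⟨C, by rw [Finset.mem_filter, Finset.mem_powerset]; exact ⟨subset_rfl, by omega⟩⟩
  obtain ⟨Z, hZ, hmin⟩ := Finset.exists_min_image _ Finset.card hSne
  rw [Finset.mem_filter, Finset.mem_powerset] at hZ
  obtain ⟨hZC, hZr⟩ := hZ
  have hxC : x ∉ C := by
    intro hxC
    have h4 := hG' (hC ▸ Finset.mem_union_left D hxC)
    simp at h4
  have hxZ : x ∉ Z := fun h => hxC (hZC h)
  have hZG : Z ⊆ G := by
    intro a ha
    have h4 := hG' (hC ▸ Finset.mem_union_left D (hZC ha))
    exact Finset.mem_of_mem_erase h4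
  have hZne : Z.Nonempty := by
    rw [Finset.nonempty_iff_ne_empty]
    rintro rfl
    rw [Finset.empty_union, Finset.card_empty] at hZr
    omega
  have hme : ∀ z ∈ Z, r ∅ + Z.card ≤ r (Z.erase z ∪ {x}) := by
    intro z hz
    by_contra hcon
    have h4 := Finset.card_erase_add_one hz
    have h5 := hmin (Z.erase z) (by
      rw [Finset.mem_filter, Finset.mem_powerset]
      exact ⟨(Finset.erase_subset z Z).trans hZC, by omega⟩)
    omega
  have hZX : Ser r G (Z ∩ X) := hX.mono hr Finset.inter_subset_right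
  have hZY : Ser r G (Z \ X) := hY.mono hr (by
    intro a ha
    have h4 := @hCXY a
    have h5 := @hZC a
    simp only [Finset.mem_sdiff, Finset.mem_union] at ha h4
    tauto)
  have hcard : (Z ∩ X).card + (Z \ X).card = Z.card := by
    rw [add_comm]
    exact Finset.card_sdiff_add_card_inter Z X
  have hZ16 : Z.card ≤ 16 := by
    have h4 := h.h8 _ hZX
    have h5 := h.h8 _ hZY
    omega
  have hsub := hr.sub4 (A := G \ (Z ∩ X)) (B := G \ (Z \ X)) (C := G) (D := G \ Z)
    (by
      intro a ha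
      simp only [Finset.mem_union, Finset.mem_sdiff, Finset.mem_inter]
      tauto)
    (by
      intro a ha
      simp only [Finset.mem_sdiff, Finset.mem_inter] at ha ⊢
      tauto)
  have hsum : Z.card + r (G \ Z) ≤ r G + 2 := by
    have h4 := hZX.2
    have h5 := hZY.2
    omega
  have hxGZ : x ∈ G \ Z := Finset.mem_sdiff.2 ⟨h.hx, hxZ⟩
  have hU : Z ∪ (G \ Z) = G := Finset.union_sdiff_of_subset hZG
  have hconn := h.hG.1 Z (G \ Z) hU Finset.disjoint_sdiff hZne ⟨x, hxGZ⟩
  have hrZ : r ∅ + Z.card ≤ r Z := by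
    by_contra hcon
    rcases h.hG.2 Z (G \ Z) hU Finset.disjoint_sdiff (by omega) with h4 | h4
    · have h5 := h4.2
      omega
    · have h5 : G \ Z ⊆ {x} := by
        intro s hs
        rw [Finset.mem_singleton]
        exact h.not_ser h4 hxGZ hs
      have h6 := Finset.card_le_card h5
      have h7 := Finset.card_sdiff_add_card_eq_card hZG
      have h8 := h.card
      rw [Finset.card_singleton] at h6
      omega
  have hxcl : r (insert x Z) ≤ r Z := by
    have h4 : insert x Z = Z ∪ {x} := by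
      ext a; simp only [Finset.mem_insert, Finset.mem_union, Finset.mem_singleton]; tauto
    rw [h4]
    omega
  have hZTh : ¬ Z ⊆ Th := by
    intro h4
    have h5 := hr.cl_mono hxcl h4
    have h6 := h.hxTh
    omega
  rw [Finset.not_subset] at hZTh
  obtain ⟨b, hbZ, hbTh⟩ := hZTh
  have hsingle : ∀ W, Ser r G W → b ∈ W → ∀ s ∈ W, s = b := by
    intro W hW hbW s hs
    by_contra hne
    apply hbTh
    exact h.hTh b (hW.1 hbW) s (hW.1 hs) (fun h => hne h.symm) (hW.mono hr (by
      intro a ha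
      simp only [Finset.mem_insert, Finset.mem_singleton] at ha
      rcases ha with rfl | rfl <;> assumption))
  have hfin : r (insert b (Z.erase b ∪ {x})) ≤ r (Z.erase b ∪ {x}) := by
    have h4 : insert b (Z.erase b ∪ {x}) = Z ∪ {x} := by
      rw [← Finset.insert_union, Finset.insert_erase hbZ]
    rw [h4]
    have := hme b hbZ
    omega
  have hb' := hCXY (hZC hbZ)
  rw [Finset.mem_union] at hb'
  rcases hb' with hb' | hb'
  · refine ⟨b, hZC hbZ, Z.erase b, (Finset.erase_subset _ _).trans hZC, Y, hY, ?_,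
      Finset.notMem_erase b Z, hfin⟩
    intro a ha
    rw [Finset.mem_erase] at ha
    have h4 := hCXY (hZC ha.2)
    rw [Finset.mem_union] at h4
    exact h4.resolve_left fun h5 => ha.1 (hsingle X hX hb' a h5)
  · refine ⟨b, hZC hbZ, Z.erase b, (Finset.erase_subset _ _).trans hZC, X, hX, ?_,
      Finset.notMem_erase b Z, hfin⟩
    intro a ha
    rw [Finset.mem_erase] at ha
    have h4 := hCXY (hZC ha.2)
    rw [Finset.mem_union] at h4
    exact h4.resolve_right fun h5 => ha.1 (hsingle Y hY hb' a h5)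

end Pool.MP_4929df_co.H92
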