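import Pool.Agent.W_4929df_h92.BixbyC

/-!
The Bixby-type lemma (step 2 of proofs row 546). `ct r {x}` applied to `A` is `r (A ∪ {x})`
(by `rfl`), `ct_empty_apply` gives its value at the empty set.
-/

set_option autoImplicit false

namespace Pool.MP_4929df_co.H92

variable {α : Type*} [DecidableEq α]

variable {r : Finset α → ℕ} {G Th : Finset α} {x : α}

/-- Step (d), the main inequality. `G' = insert b G''`, `(C, D)` a partition of `G''`, `P ⊆ G''`,
`P ⊆ X`, `X` a series set of `G`, `b` in the closure of `P ∪ {x}`. Then one of: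
`(insert b C, D)` has the same sum; `(C, insert b D)` has the same sum; or `X` meets both `C` and `D`
and both `(insert b (C ∪ X'), D \ X)` and `(C \ X, insert b (D ∪ X'))`, `X' = X ∩ G''`, have sums not
larger. (`P ⊆ C`: `cl_mono` gives `r (insert b C ∪ {x}) ≤ r (C ∪ {x})`. `P ⊆ D`: the same.
Otherwise some `s ∈ P ∩ D`, `s' ∈ P ∩ C`; `x ∉ X` by `not_ser` (`s ∈ X`, `s ≠ x`);
`ser_move` for `D ∪ {x}` and `s'` gives `r ((D \ X) ∪ {x}) + (D ∩ X).card ≤ r (D ∪ {x})`, and
`r (C ∪ X' ∪ {x}) ≤ r (C ∪ {x}) + (D ∩ X).card`, and `b` is in the closure of `P ∪ {x}`,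
`P ⊆ C ∪ X'`.) -/
theorem BH.move (h : BH r G x Th) {G'' C D P X : Finset α} {b : α} (hG'' : G'' ⊆ G.erase x)
    (hC : C ∪ D = G'') (hCD : Disjoint C D) (hP : P ⊆ G'') (hPX : P ⊆ X) (hX : Ser r G X)
    (hb : r (insert b (P ∪ {x})) ≤ r (P ∪ {x})) :
    r (insert b C ∪ {x}) ≤ r (C ∪ {x}) ∨ r (insert b D ∪ {x}) ≤ r (D ∪ {x}) ∨
    (r (insert b (C ∪ X ∩ G'') ∪ {x}) + r (D \ X ∪ {x}) ≤ r (C ∪ {x}) + r (D ∪ {x}) ∧
      r (C \ X ∪ {x}) + r (insert b (D ∪ X ∩ G'') ∪ {x}) ≤ r (C ∪ {x}) + r (D ∪ {x})) := by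
  have hxG : ∀ a ∈ G'', a ≠ x ∧ a ∈ G := fun a ha => by
    have := hG'' ha
    rwa [Finset.mem_erase] at this
  by_cases hPC : P ⊆ C
  · left
    rw [Finset.insert_union]
    exact h.hr.cl_mono hb (Finset.union_subset_union_left hPC)
  by_cases hPD : P ⊆ D
  · right; left
    rw [Finset.insert_union]
    exact h.hr.cl_mono hb (Finset.union_subset_union_left hPD)
  right; right
  obtain ⟨s, hsP, hsC⟩ := Finset.not_subset.1 hPC
  obtain ⟨s', hs'P, hs'D⟩ := Finset.not_subset.1 hPD
  have hsG := hxG s (hP hsP)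
  have hs'G := hxG s' (hP hs'P)
  have hxX : x ∉ X := fun hxX => hsG.1 (h.not_ser hX hxX (hPX hsP))
  have hCG : ∀ a ∈ C, a ∈ G'' := fun a ha => hC ▸ Finset.mem_union_left _ ha
  have hDG : ∀ a ∈ D, a ∈ G'' := fun a ha => hC ▸ Finset.mem_union_right _ ha
  have hCD' : ∀ a ∈ G'', a ∈ C ∨ a ∈ D := fun a ha => by
    rw [← hC] at ha
    exact Finset.mem_union.1 ha
  have hCxG : C ∪ {x} ⊆ G := by
    intro a ha
    rcases Finset.mem_union.1 ha with h1 | h1
    · exact (hxG a (hCG a h1)).2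
    · rw [Finset.mem_singleton.1 h1]; exact h.hx
  have hDxG : D ∪ {x} ⊆ G := by
    intro a ha
    rcases Finset.mem_union.1 ha with h1 | h1
    · exact (hxG a (hDG a h1)).2
    · rw [Finset.mem_singleton.1 h1]; exact h.hx
  have key : ∀ E : Finset α, (E ∪ {x}) \ X = E \ X ∪ {x} ∧ (E ∪ {x}) ∩ X = E ∩ X := by
    intro E
    constructor
    · ext a
      simp only [Finset.mem_sdiff, Finset.mem_union, Finset.mem_singleton]
      constructor
      · rintro ⟨h1 | h1, h2⟩
        · exact Or.inl ⟨h1, h2⟩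
        · exact Or.inr h1
      · rintro (⟨h1, h2⟩ | h1)
        · exact ⟨Or.inl h1, h2⟩
        · exact ⟨Or.inr h1, h1 ▸ hxX⟩
    · ext a
      simp only [Finset.mem_inter, Finset.mem_union, Finset.mem_singleton]
      constructor
      · rintro ⟨h1 | h1, h2⟩
        · exact ⟨h1, h2⟩
        · exact absurd (h1 ▸ h2) hxX
      · rintro ⟨h1, h2⟩
        exact ⟨Or.inl h1, h2⟩
  have hD1 := ser_move h.hr h.hG.1 hX hDxG (hPX hs'P) (s := s') (by
    intro h1
    rcases Finset.mem_union.1 h1 with h2 | h2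
    · exact hs'D h2
    · exact hs'G.1 (Finset.mem_singleton.1 h2))
  have hC1 := ser_move h.hr h.hG.1 hX hCxG (hPX hsP) (s := s) (by
    intro h1
    rcases Finset.mem_union.1 h1 with h2 | h2
    · exact hsC h2
    · exact hsG.1 (Finset.mem_singleton.1 h2))
  rw [(key D).1, (key D).2] at hD1
  rw [(key C).1, (key C).2] at hC1
  have hPXG : P ⊆ X ∩ G'' := Finset.subset_inter hPX hP
  have e1 : r (insert b (C ∪ X ∩ G'') ∪ {x}) ≤ r (C ∪ X ∩ G'' ∪ {x}) := by
    rw [Finset.insert_union]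
    exact h.hr.cl_mono hb (Finset.union_subset_union_left
      (hPXG.trans Finset.subset_union_right))
  have e2 : r (C ∪ X ∩ G'' ∪ {x}) ≤ r (C ∪ {x}) + (D ∩ X).card := h.hr.le_add_card (by
    intro a ha
    simp only [Finset.mem_union, Finset.mem_inter, Finset.mem_singleton] at ha ⊢
    rcases ha with (h1 | ⟨h1, h2⟩) | h1
    · exact Or.inl (Or.inl h1)
    · rcases hCD' a h2 with h3 | h3
      · exact Or.inl (Or.inl h3)
      · exact Or.inr ⟨h3, h1⟩
    · exact Or.inl (Or.inr h1))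
  have e3 : r (insert b (D ∪ X ∩ G'') ∪ {x}) ≤ r (D ∪ X ∩ G'' ∪ {x}) := by
    rw [Finset.insert_union]
    exact h.hr.cl_mono hb (Finset.union_subset_union_left
      (hPXG.trans Finset.subset_union_right))
  have e4 : r (D ∪ X ∩ G'' ∪ {x}) ≤ r (D ∪ {x}) + (C ∩ X).card := h.hr.le_add_card (by
    intro a ha
    simp only [Finset.mem_union, Finset.mem_inter, Finset.mem_singleton] at ha ⊢
    rcases ha with (h1 | ⟨h1, h2⟩) | h1
    · exact Or.inl (Or.inl h1)
    · rcases hCD' a h2 with h3 | h3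
      · exact Or.inr ⟨h3, h1⟩
      · exact Or.inl (Or.inl h3)
    · exact Or.inl (Or.inr h1))
  constructor <;> omega

/-- set bookkeeping for `inv_erase` and `conn_erase` -/
theorem BixbyD_sets {G' X C D : Finset α} {b : α} (hbG : b ∈ G') (hC : C ∪ D = G'.erase b)
    (hCD : Disjoint C D) :
    (insert b C ∪ D = G' ∧ Disjoint (insert b C) D) ∧
    (C ∪ insert b D = G' ∧ Disjoint C (insert b D)) ∧
    (insert b (C ∪ X ∩ G'.erase b) ∪ D \ X = G' ∧
      Disjoint (insert b (C ∪ X ∩ G'.erase b)) (D \ X)) ∧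
    (C \ X ∪ insert b (D ∪ X ∩ G'.erase b) = G' ∧
      Disjoint (C \ X) (insert b (D ∪ X ∩ G'.erase b))) := by
  have h1 : ∀ a, (a ∈ C ∨ a ∈ D) ↔ (a ≠ b ∧ a ∈ G') := fun a => by
    rw [← Finset.mem_union, hC, Finset.mem_erase]
  have h2 : ∀ a, a ∈ C → a ∉ D := fun a ha => Finset.disjoint_left.1 hCD ha
  refine ⟨⟨?_, ?_⟩, ⟨?_, ?_⟩, ⟨?_, ?_⟩, ⟨?_, ?_⟩⟩
  · ext a
    have := h1 a
    by_cases hab : a = b
    · subst hab; simp [hbG]
    · simp only [Finset.mem_union, Finset.mem_insert, hab, false_or]; tauto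
  · rw [Finset.disjoint_left]
    intro a ha hD
    have := h1 a; have := h2 a
    rw [Finset.mem_insert] at ha; tauto
  · ext a
    have := h1 a
    by_cases hab : a = b
    · subst hab; simp [hbG]
    · simp only [Finset.mem_union, Finset.mem_insert, hab, false_or]; tauto
  · rw [Finset.disjoint_left]
    intro a ha hD
    have := h1 a; have := h2 a
    rw [Finset.mem_insert] at hD; tauto
  · ext a
    have := h1 a
    by_cases hab : a = b
    · subst hab; simp [hbG]
    · simp only [Finset.mem_union, Finset.mem_insert, Finset.mem_inter, Finset.mem_sdiff,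
        Finset.mem_erase, hab, false_or]
      tauto
  · rw [Finset.disjoint_left]
    intro a ha hD
    have := h1 a; have := h2 a
    simp only [Finset.mem_insert, Finset.mem_union, Finset.mem_inter, Finset.mem_sdiff] at ha hD
    tauto
  · ext a
    have := h1 a
    by_cases hab : a = b
    · subst hab; simp [hbG]
    · simp only [Finset.mem_union, Finset.mem_insert, Finset.mem_inter, Finset.mem_sdiff,
        Finset.mem_erase, hab, false_or]
      tauto
  · rw [Finset.disjoint_left]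
    intro a ha hD
    have := h1 a; have := h2 a
    simp only [Finset.mem_insert, Finset.mem_union, Finset.mem_inter, Finset.mem_sdiff] at ha hD
    tauto

/-- Step (d), second part: `Inv` for `G'.erase b`. Use `BH.move` with `G'' = G'.erase b`. In the
first two cases apply `hinv` to `(insert b C, D)` or `(C, insert b D)` and `SS.mono`. In the third
case `hinv` for `(insert b (C ∪ X ∩ G''), D \ X)` gives `SS C` or `SS (D \ X)`, and for the other
pair `SS D` or `SS (C \ X)`. If `SS (D \ X)` and `SS (C \ X)`, then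
`G'.erase b ⊆ (D \ X) ∪ (C \ X) ∪ X` has at most 40 elements (`h8`), but
`r G = r (G' ∪ {x}) ≤ r ∅ + 42`, contradiction. -/
theorem BH.inv_erase (h : BH r G x Th) {G' P X : Finset α} {b : α} (hG' : G' ⊆ G.erase x)
    (hspan : r (G' ∪ {x}) = r G)
    (hinv : ∀ C D, C ∪ D = G' → Disjoint C D → r (C ∪ {x}) + r (D ∪ {x}) ≤ r G + r ∅ + 2 →
      SS r G C ∨ SS r G D)
    (hbG : b ∈ G') (hP : P ⊆ G') (hbP : b ∉ P) (hPX : P ⊆ X) (hX : Ser r G X)
    (hb : r (insert b (P ∪ {x})) ≤ r (P ∪ {x})) {C D : Finset α} (hC : C ∪ D = G'.erase b)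
    (hCD : Disjoint C D) (h1 : r (C ∪ {x}) + r (D ∪ {x}) ≤ r G + r ∅ + 2) :
    SS r G C ∨ SS r G D := by
  have hG'' : G'.erase b ⊆ G.erase x := (Finset.erase_subset _ _).trans hG'
  have hP'' : P ⊆ G'.erase b := fun a ha => Finset.mem_erase.2
    ⟨fun hab => hbP (hab ▸ ha), hP ha⟩
  obtain ⟨⟨u1, d1⟩, ⟨u2, d2⟩, ⟨u3, d3⟩, ⟨u4, d4⟩⟩ := BixbyD_sets (X := X) hbG hC hCD
  rcases h.move hG'' hC hCD hP'' hPX hX hb with m | m | ⟨m1, m2⟩
  · rcases hinv _ _ u1 d1 (by omega) with k | k
    · exact Or.inl (k.mono (Finset.subset_insert _ _))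
    · exact Or.inr k
  · rcases hinv _ _ u2 d2 (by omega) with k | k
    · exact Or.inl k
    · exact Or.inr (k.mono (Finset.subset_insert _ _))
  · rcases hinv _ _ u3 d3 (by omega) with k | k
    · exact Or.inl (k.mono (Finset.subset_union_left.trans (Finset.subset_insert _ _)))
    rcases hinv _ _ u4 d4 (by omega) with k' | k'
    · exfalso
      obtain ⟨X1, Y1, hX1, hY1, hD1⟩ := k
      obtain ⟨X2, Y2, hX2, hY2, hC1⟩ := k'
      have hsub : G' ∪ {x} ⊆ ∅ ∪ (X ∪ (X1 ∪ Y1) ∪ (X2 ∪ Y2) ∪ {b, x}) := by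
        intro a ha
        simp only [Finset.mem_union, Finset.mem_singleton, Finset.mem_insert] at ha ⊢
        right
        rcases ha with h2 | h2
        · by_cases hab : a = b
          · exact Or.inr (Or.inl hab)
          by_cases haX : a ∈ X
          · exact Or.inl (Or.inl (Or.inl haX))
          have h3 : a ∈ C ∪ D := by rw [hC, Finset.mem_erase]; exact ⟨hab, h2⟩
          rcases Finset.mem_union.1 h3 with h4 | h4
          · have := Finset.mem_union.1 (hC1 (Finset.mem_sdiff.2 ⟨h4, haX⟩))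
            exact Or.inl (Or.inr this)
          · have := Finset.mem_union.1 (hD1 (Finset.mem_sdiff.2 ⟨h4, haX⟩))
            exact Or.inl (Or.inl (Or.inr this))
        · exact Or.inr (Or.inr h2)
      have h2 := h.hr.le_add_card hsub
      have c0 := h.h8 X hX
      have c1 := h.h8 X1 hX1
      have c2 := h.h8 Y1 hY1
      have c3 := h.h8 X2 hX2
      have c4 := h.h8 Y2 hY2
      have b1 := Finset.card_union_le (X ∪ (X1 ∪ Y1) ∪ (X2 ∪ Y2)) {b, x}
      have b2 := Finset.card_union_le (X ∪ (X1 ∪ Y1)) (X2 ∪ Y2)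
      have b3 := Finset.card_union_le X (X1 ∪ Y1)
      have b4 := Finset.card_union_le X1 Y1
      have b5 := Finset.card_union_le X2 Y2
      have b6 := Finset.card_le_two (a := b) (b := x)
      have hbig := h.hbig
      omega
    · exact Or.inr (k'.mono (Finset.subset_union_left.trans (Finset.subset_insert _ _)))

/-- Step (d), `Conn` for `G'.erase b` (first `r (G'.erase b ∪ {x}) = r (G' ∪ {x}) = r G`). Suppose
`(C, D)` is a partition of `G'.erase b`, both nonempty, `r (C ∪ {x}) + r (D ∪ {x}) ≤ r G + r {x}`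
(`r {x} = r ∅ + 1`). `BH.move`: in the first two cases `Conn` of `G'` for `(insert b C, D)` or
`(C, insert b D)` is a contradiction. In the third case `Conn` of `G'` for
`(insert b (C ∪ X ∩ G''), D \ X)` shows that `D \ X` is empty, and in the same way `C \ X` is empty,
so `G'.erase b ⊆ X` has at most 8 elements, contradiction as in `inv_erase`. -/
theorem BH.conn_erase (h : BH r G x Th) {G' P X : Finset α} {b : α} (hG' : G' ⊆ G.erase x)
    (hspan : r (G' ∪ {x}) = r G) (hconn : Conn (ct r {x}) G')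
    (hbG : b ∈ G') (hP : P ⊆ G') (hbP : b ∉ P) (hPX : P ⊆ X) (hX : Ser r G X)
    (hb : r (insert b (P ∪ {x})) ≤ r (P ∪ {x})) :
    r (G'.erase b ∪ {x}) = r G ∧ Conn (ct r {x}) (G'.erase b) := by
  have hG'' : G'.erase b ⊆ G.erase x := (Finset.erase_subset _ _).trans hG'
  have hP'' : P ⊆ G'.erase b := fun a ha => Finset.mem_erase.2
    ⟨fun hab => hbP (hab ▸ ha), hP ha⟩
  have hins : insert b (G'.erase b ∪ {x}) = G' ∪ {x} := by
    rw [← Finset.insert_union, Finset.insert_erase hbG]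
  have hr1 : r (G'.erase b ∪ {x}) = r G := by
    have h1 := h.hr.cl_mono hb (Finset.union_subset_union_left (t := {x}) hP'')
    have h2 := h.hr.mono (G'.erase b ∪ {x}) (G' ∪ {x})
      (Finset.union_subset_union_left (Finset.erase_subset _ _))
    rw [hins] at h1
    omega
  refine ⟨hr1, ?_⟩
  intro A B hAB hd hA hB
  show r (G'.erase b ∪ {x}) + ct r {x} ∅ + 1 ≤ r (A ∪ {x}) + r (B ∪ {x})
  by_contra hlt
  rw [hr1] at hlt
  have hc : ∀ A' B' : Finset α, A' ∪ B' = G' → Disjoint A' B' → A'.Nonempty → B'.Nonempty →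
      r (G' ∪ {x}) + ct r {x} ∅ + 1 ≤ r (A' ∪ {x}) + r (B' ∪ {x}) := hconn
  obtain ⟨⟨u1, d1⟩, ⟨u2, d2⟩, ⟨u3, d3⟩, ⟨u4, d4⟩⟩ := BixbyD_sets (X := X) hbG hAB hd
  rcases h.move hG'' hAB hd hP'' hPX hX hb with m | m | ⟨m1, m2⟩
  · have := hc _ _ u1 d1 (Finset.insert_nonempty _ _) hB
    omega
  · have := hc _ _ u2 d2 hA (Finset.insert_nonempty _ _)
    omega
  · have hB' : B \ X = ∅ := by
      by_contra hne
      have := hc _ _ u3 d3 (Finset.insert_nonempty _ _) (Finset.nonempty_iff_ne_empty.2 hne)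
      omega
    have hA' : A \ X = ∅ := by
      by_contra hne
      have := hc _ _ u4 d4 (Finset.nonempty_iff_ne_empty.2 hne) (Finset.insert_nonempty _ _)
      omega
    have hsub : G'.erase b ∪ {x} ⊆ ∅ ∪ (X ∪ {x}) := by
      rw [Finset.empty_union, ← hAB]
      refine Finset.union_subset_union_left (Finset.union_subset ?_ ?_)
      · exact Finset.sdiff_eq_empty_iff_subset.1 hA'
      · exact Finset.sdiff_eq_empty_iff_subset.1 hB'
    have h2 := h.hr.le_add_card hsub
    have c0 := h.h8 X hX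
    have b1 := Finset.card_union_le X {x}
    rw [Finset.card_singleton] at b1
    have hbig := h.hbig
    omega

end Pool.MP_4929df_co.H92
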