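import Pool.Agent.W_4929df_h92.Tutte

/-!
The Bixby-type lemma (step 2 of proofs row 546). `ct r {x}` applied to `A` is `r (A ∪ {x})`
(by `rfl`), `ct_empty_apply` gives its value at the empty set.
-/

set_option autoImplicit false

namespace Pool.MP_4929df_co.H92

variable {α : Type*} [DecidableEq α]

/-- contained in a union of two series sets of `G` -/
def SS (r : Finset α → ℕ) (G C : Finset α) : Prop :=
  ∃ X Y, Ser r G X ∧ Ser r G Y ∧ C ⊆ X ∪ Y

/-- the hypotheses of the lemma -/
structure BH (r : Finset α → ℕ) (G : Finset α) (x : α) (Th : Finset α) : Prop where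
  hr : IsRk r
  hG : Good r G
  hx : x ∈ G
  hthin : ∀ s ∈ G, s ≠ x → ¬ Ser r G {x, s}
  hdel : ¬ Good r (G.erase x)
  hTh : ∀ s ∈ G, ∀ s' ∈ G, s ≠ s' → Ser r G {s, s'} → s ∈ Th
  hxTh : r Th < r (insert x Th)
  h8 : ∀ X, Ser r G X → X.card ≤ 8
  hbig : r ∅ + 50 < r G

variable {r : Finset α → ℕ} {G Th : Finset α} {x : α}

theorem SS.mono {C D : Finset α} (h : SS r G C) (hD : D ⊆ C) : SS r G D := by
  obtain ⟨X, Y, hX, hY, hC⟩ := h
  exact ⟨X, Y, hX, hY, hD.trans hC⟩

/-- `r ∅ + 50 < r G ≤ r ∅ + G.card` (`IsRk.le_card`) -/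
theorem BH.card (h : BH r G x Th) : 50 < G.card := by
  have h1 := h.hr.le_card G
  have h2 := h.hbig
  omega

theorem BH.erase_nonempty (h : BH r G x Th) : (G.erase x).Nonempty := by
  rw [← Finset.card_pos, Finset.card_erase_of_mem h.hx]
  have := h.card
  omega

/-- a series set containing `x` is contained in `{x}` (`Ser.mono` and `hthin`) -/
theorem BH.not_ser (h : BH r G x Th) {A : Finset α} (hA : Ser r G A) (hxA : x ∈ A) {s : α}
    (hs : s ∈ A) : s = x := by
  by_contra hne
  exact h.hthin s (hA.1 hs) hne (hA.mono h.hr (by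
    intro a ha
    simp only [Finset.mem_insert, Finset.mem_singleton] at ha
    rcases ha with rfl | rfl <;> assumption))

end Pool.MP_4929df_co.H92
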