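import Pool.Agent.W_4929df_h92.BixbyB
import Pool.Agent.W_4929df_h92.BixbyD

/-!
The Bixby-type lemma (step 2 of proofs row 546). `ct r {x}` applied to `A` is `r (A ∪ {x})`
(by `rfl`), `ct_empty_apply` gives its value at the empty set.
-/

set_option autoImplicit false

namespace Pool.MP_4929df_co.H92

variable {α : Type*} [DecidableEq α]

variable {r : Finset α → ℕ} {G Th : Finset α} {x : α}

/-- Step 2. Choose `G' ⊆ G.erase x` with `G'.card` minimal among those with `r (G' ∪ {x}) = r G`,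
`Conn (ct r {x}) G'` and the property `hinv` of `inv_erase` (`G.erase x` is one: `BH.conn_ct`,
`BH.inv`). If `TwoS (ct r {x}) G'` fails for `(C, D)`: `r (C ∪ {x}) + r (D ∪ {x}) ≤ r G + r ∅ + 2`,
`r G + 2 ≤ C.card + r (D ∪ {x})`, `r G + 2 ≤ D.card + r (C ∪ {x})` (`G' \ C = D`). By `hinv` one of
them is `SS`; `exists_del` for this side gives `b, P, X` and `inv_erase`, `conn_erase` contradict
minimality. -/
theorem bixby (h : BH r G x Th) : ∃ G' ⊆ G.erase x, Good (ct r {x}) G' ∧ r (G' ∪ {x}) = r G := by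
  classical
  set S := (G.erase x).powerset.filter (fun G' => r (G' ∪ {x}) = r G ∧ Conn (ct r {x}) G' ∧
    ∀ C D, C ∪ D = G' → Disjoint C D → r (C ∪ {x}) + r (D ∪ {x}) ≤ r G + r ∅ + 2 →
      SS r G C ∨ SS r G D) with hS
  have e1 : r (G.erase x ∪ {x}) = r G := by
    congr 1
    ext a; simp only [Finset.mem_union, Finset.mem_erase, Finset.mem_singleton]
    by_cases ha : a = x <;> simp [ha, h.hx]
  have hSne : S.Nonempty := by
    refine ⟨G.erase x, ?_⟩
    rw [hS, Finset.mem_filter, Finset.mem_powerset]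
    exact ⟨subset_rfl, e1, h.conn_ct, fun C D hC hCD h1 => h.inv hC hCD h1⟩
  obtain ⟨G', hG'S, hmin⟩ := Finset.exists_min_image S Finset.card hSne
  have hG'S' := hG'S
  rw [hS, Finset.mem_filter, Finset.mem_powerset] at hG'S'
  obtain ⟨hG', hspan, hconn, hinv⟩ := hG'S'
  refine ⟨G', hG', ⟨hconn, ?_⟩, hspan⟩
  -- the key step
  have key : ∀ C D, C ∪ D = G' → Disjoint C D →
      r (C ∪ {x}) + r (D ∪ {x}) ≤ r G + r ∅ + 2 → r G + 2 ≤ C.card + r (D ∪ {x}) →
      SS r G C → False := by
    intro C D hC hCD h1 h2 h3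
    obtain ⟨b, hbC, P, hPC, X, hX, hPX, hbP, hb⟩ := h.exists_del hG' hC hCD h1 h2 h3
    have hCG : C ⊆ G' := by rw [← hC]; exact Finset.subset_union_left
    have hbG : b ∈ G' := hCG hbC
    have hP : P ⊆ G' := hPC.trans hCG
    obtain ⟨h4, h5⟩ := h.conn_erase hG' hspan hconn hbG hP hbP hPX hX hb
    have h6 : G'.erase b ∈ S := by
      rw [hS, Finset.mem_filter, Finset.mem_powerset]
      exact ⟨(Finset.erase_subset _ _).trans hG', h4, h5, fun C D hC hCD h1 =>
        h.inv_erase hG' hspan hinv hbG hP hbP hPX hX hb hC hCD h1⟩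
    have h7 := hmin _ h6
    have h8 := Finset.card_erase_add_one hbG
    omega
  have hxx := h.hG.1.single h.hr h.hx h.erase_nonempty
  intro C D hC hCD h1
  have e2 : ct r {x} ∅ = r ∅ + 1 := by
    rw [ct_empty_apply]
    exact hxx
  have e3 : ct r {x} C = r (C ∪ {x}) := rfl
  have e4 : ct r {x} D = r (D ∪ {x}) := rfl
  have e5 : ct r {x} G' = r G := hspan
  rw [e2, e3, e4, e5] at h1
  by_contra hcon
  rw [not_or] at hcon
  obtain ⟨hc1, hc2⟩ := hcon
  have hCG : C ⊆ G' := by rw [← hC]; exact Finset.subset_union_left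
  have hDG : D ⊆ G' := by rw [← hC]; exact Finset.subset_union_right
  have s1 : G' \ C = D := by
    rw [← hC, Finset.union_sdiff_left]
    exact Finset.sdiff_eq_self_of_disjoint hCD.symm
  have s2 : G' \ D = C := by
    rw [← hC, Finset.union_sdiff_right]
    exact Finset.sdiff_eq_self_of_disjoint hCD
  have h2 : r G + 2 ≤ C.card + r (D ∪ {x}) := by
    by_contra h2
    apply hc1
    refine ⟨hCG, ?_⟩
    rw [s1, e4, e5]
    omega
  have h3 : r G + 2 ≤ D.card + r (C ∪ {x}) := by
    by_contra h3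
    apply hc2
    refine ⟨hDG, ?_⟩
    rw [s2, e3, e5]
    omega
  rcases hinv C D hC hCD (by omega) with h4 | h4
  · exact key C D hC hCD (by omega) h2 h4
  · exact key D C ((Finset.union_comm D C).trans hC) hCD.symm (by omega) h3 h4

end Pool.MP_4929df_co.H92
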