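import Pool.Agent.W_4929df_h92.BlkDefs

/-!
Tutte's linking theorem for rank functions (proofs row 572, step 5 (e)).
-/

set_option autoImplicit false

namespace Pool.MP_4929df_co.H92

variable {α : Type} [DecidableEq α] {r : Finset α → ℕ}

/-- One step: `e ∈ R`. If all sets `A ⊆ R` satisfy the inequality, then this holds for
`R.erase e` and `r`, or for `R.erase e` and `ct r {e}` (`ct r {e} A = r (A ∪ {e})`, by `rfl`;
`ct_empty_apply`). Suppose `A, B ⊆ R.erase e` violate them:
`r (A ∪ X) + r ((R.erase e) \ A ∪ Y) < r (X ∪ Y ∪ R.erase e) + r ∅ + k` and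
`r (B ∪ X ∪ {e}) + r ((R.erase e) \ B ∪ Y ∪ {e}) < r (X ∪ Y ∪ R) + r {e} + k` (unions reordered).
Submodularity (`IsRk.sub4`): `r (A ∪ X) + r (B ∪ X ∪ {e}) ≥ r (A ∩ B ∪ X) + r (A ∪ B ∪ {e} ∪ X)` and
the same for the complements; the hypothesis for `A ∩ B` and for `insert e (A ∪ B)` gives the
contradiction with `r {e} ≤ r ∅ + 1`, `r (X ∪ Y ∪ R.erase e) ≤ r (X ∪ Y ∪ R)`. -/
theorem link_step (hr : IsRk r) {X Y R : Finset α} {k : ℕ} {e : α} (he : e ∈ R) (heX : e ∉ X)
    (heY : e ∉ Y)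
    (h : ∀ A ⊆ R, r (X ∪ Y ∪ R) + r ∅ + k ≤ r (A ∪ X) + r (R \ A ∪ Y)) :
    (∀ A ⊆ R.erase e, r (X ∪ Y ∪ R.erase e) + r ∅ + k ≤ r (A ∪ X) + r (R.erase e \ A ∪ Y)) ∨
    (∀ A ⊆ R.erase e, ct r {e} (X ∪ Y ∪ R.erase e) + ct r {e} ∅ + k ≤
      ct r {e} (A ∪ X) + ct r {e} (R.erase e \ A ∪ Y)) := by
  by_contra hcon
  rw [not_or] at hcon
  obtain ⟨hA', hB'⟩ := hcon
  simp only [not_forall, not_le] at hA' hB'
  obtain ⟨A, hA, hA2⟩ := hA'
  obtain ⟨B, hB, hB2⟩ := hB'
  rw [ct_empty_apply] at hB2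
  change r (B ∪ X ∪ {e}) + r (R.erase e \ B ∪ Y ∪ {e}) <
    r (X ∪ Y ∪ R.erase e ∪ {e}) + r {e} + k at hB2
  have hcap : A ∩ B ⊆ R := fun a ha =>
    Finset.mem_of_mem_erase (hA (Finset.mem_inter.mp ha).1)
  have hcup : insert e (A ∪ B) ⊆ R := by
    intro a ha
    rcases Finset.mem_insert.mp ha with rfl | ha
    · exact he
    · rcases Finset.mem_union.mp ha with ha | ha
      · exact Finset.mem_of_mem_erase (hA ha)
      · exact Finset.mem_of_mem_erase (hB ha)
  have h1 := h _ hcap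
  have h2 := h _ hcup
  have h3 : r (insert e (A ∪ B) ∪ X) + r (A ∩ B ∪ X) ≤ r (A ∪ X) + r (B ∪ X ∪ {e}) := by
    refine hr.sub4 ?_ ?_
    · intro a ha
      simp only [Finset.mem_union, Finset.mem_insert, Finset.mem_singleton] at ha ⊢
      tauto
    · intro a ha
      simp only [Finset.mem_union, Finset.mem_inter, Finset.mem_singleton] at ha ⊢
      tauto
  have h4 : r (R \ (A ∩ B) ∪ Y) + r (R \ insert e (A ∪ B) ∪ Y) ≤
      r (R.erase e \ A ∪ Y) + r (R.erase e \ B ∪ Y ∪ {e}) := by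
    refine hr.sub4 ?_ ?_
    · intro a ha
      simp only [Finset.mem_union, Finset.mem_sdiff, Finset.mem_inter, Finset.mem_erase,
        Finset.mem_singleton] at ha ⊢
      tauto
    · intro a ha
      simp only [Finset.mem_union, Finset.mem_sdiff, Finset.mem_inter, Finset.mem_erase,
        Finset.mem_singleton, Finset.mem_insert] at ha ⊢
      tauto
  have h5 : X ∪ Y ∪ R.erase e ∪ {e} = X ∪ Y ∪ R := by
    ext a
    by_cases hae : a = e
    · subst hae
      simp [he]
    · simp [hae]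
  rw [h5] at hB2
  have h6 : r {e} ≤ r ∅ + 1 := by simpa using hr.le_card {e}
  have h7 : r (X ∪ Y ∪ R.erase e) ≤ r (X ∪ Y ∪ R) :=
    hr.mono _ _ (Finset.union_subset_union_right (Finset.erase_subset _ _))
  omega

/-- Tutte's linking theorem. Induction on `R.card` (generalizing `r`, `R`) with `link_step`. In the
first case the set `T ⊆ R.erase e` works, in the second `insert e T`. -/
theorem linking (hr : IsRk r) {X Y : Finset α} {k : ℕ} : ∀ R : Finset α, Disjoint R X →
    Disjoint R Y → (∀ A ⊆ R, r (X ∪ Y ∪ R) + r ∅ + k ≤ r (A ∪ X) + r (R \ A ∪ Y)) →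
    ∃ T ⊆ R, r (X ∪ Y ∪ T) + r T + k ≤ r (T ∪ X) + r (T ∪ Y) := by
  suffices H : ∀ (n : ℕ) (r : Finset α → ℕ), IsRk r → ∀ R : Finset α, R.card = n →
      Disjoint R X → Disjoint R Y →
      (∀ A ⊆ R, r (X ∪ Y ∪ R) + r ∅ + k ≤ r (A ∪ X) + r (R \ A ∪ Y)) →
      ∃ T ⊆ R, r (X ∪ Y ∪ T) + r T + k ≤ r (T ∪ X) + r (T ∪ Y) from
    fun R hX hY h => H R.card r hr R rfl hX hY h
  intro n
  induction n with
  | zero =>
    intro r hr R hR hX hY h
    rw [Finset.card_eq_zero] at hR
    subst hR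
    refine ⟨∅, subset_rfl, ?_⟩
    have := h ∅ subset_rfl
    simpa using this
  | succ n ih =>
    intro r hr R hR hX hY h
    obtain ⟨e, he⟩ : R.Nonempty := by
      rw [← Finset.card_pos]
      omega
    have heX : e ∉ X := fun hx => Finset.disjoint_left.mp hX he hx
    have heY : e ∉ Y := fun hx => Finset.disjoint_left.mp hY he hx
    have hcard : (R.erase e).card = n := by
      rw [Finset.card_erase_of_mem he]
      omega
    have hX' : Disjoint (R.erase e) X := hX.mono_left (Finset.erase_subset _ _)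
    have hY' : Disjoint (R.erase e) Y := hY.mono_left (Finset.erase_subset _ _)
    rcases link_step hr he heX heY h with h1 | h1
    · obtain ⟨T, hT, hT2⟩ := ih r hr (R.erase e) hcard hX' hY' h1
      exact ⟨T, hT.trans (Finset.erase_subset _ _), hT2⟩
    · obtain ⟨T, hT, hT2⟩ := ih (ct r {e}) (hr.ct {e}) (R.erase e) hcard hX' hY' h1
      refine ⟨insert e T, ?_, ?_⟩
      · intro a ha
        rcases Finset.mem_insert.mp ha with rfl | ha
        · exact he
        · exact Finset.mem_of_mem_erase (hT ha)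
      · change r (X ∪ Y ∪ T ∪ {e}) + r (T ∪ {e}) + k ≤ r (T ∪ X ∪ {e}) + r (T ∪ Y ∪ {e}) at hT2
        have e1 : X ∪ Y ∪ insert e T = X ∪ Y ∪ T ∪ {e} := by
          ext a; simp only [Finset.mem_union, Finset.mem_insert, Finset.mem_singleton]; tauto
        have e2 : insert e T = T ∪ {e} := by
          ext a; simp only [Finset.mem_union, Finset.mem_insert, Finset.mem_singleton]; tauto
        have e3 : insert e T ∪ X = T ∪ X ∪ {e} := by
          ext a; simp only [Finset.mem_union, Finset.mem_insert, Finset.mem_singleton]; tauto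
        have e4 : insert e T ∪ Y = T ∪ Y ∪ {e} := by
          ext a; simp only [Finset.mem_union, Finset.mem_insert, Finset.mem_singleton]; tauto
        rw [e1, e3, e4, e2]
        exact hT2

end Pool.MP_4929df_co.H92
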