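import Pool.Agent.W_4929df_h92.BlkA

/-!
A basis that keeps two elements independent (proofs row 572, step 5 (e)).
-/

set_option autoImplicit false

namespace Pool.MP_4929df_co.H92

variable {α : Type} [DecidableEq α] {r : Finset α → ℕ}

/-- An independent set `T₁ ⊆ R` of `r` modulo `S` is contained in a basis `T ⊆ R` modulo `S`.
Induction on `(R \ T₁).card`, or take a set of maximal size among the `T` with `T₁ ⊆ T ⊆ R`,
`r (T ∪ S) = r S + T.card`, and use `IsRk.cl_union`, `IsRk.ins`. -/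
theorem exists_basis_ext (hr : IsRk r) {R S T₁ : Finset α} (hT₁ : T₁ ⊆ R)
    (h : r (T₁ ∪ S) = r S + T₁.card) :
    ∃ T, T₁ ⊆ T ∧ T ⊆ R ∧ r (T ∪ S) = r (R ∪ S) ∧ r (T ∪ S) = r S + T.card := by
  have key : ∀ Q : Finset α, Q ⊆ R → ∃ T, T₁ ⊆ T ∧ T ⊆ R ∧ T ⊆ T₁ ∪ Q ∧
      r (T ∪ S) = r (T₁ ∪ Q ∪ S) ∧ r (T ∪ S) = r S + T.card := by
    intro Q
    induction Q using Finset.induction_on with
    | empty =>
      intro _
      exact ⟨T₁, Finset.Subset.refl _, hT₁, by simp, by rw [Finset.union_empty], h⟩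
    | insert x Q hx ih =>
      intro hQ
      have hxR : x ∈ R := hQ (Finset.mem_insert_self _ _)
      obtain ⟨T, hT1, hT2, hT3, hT4, hT5⟩ := ih ((Finset.subset_insert _ _).trans hQ)
      have e1 : T₁ ∪ insert x Q ∪ S = insert x (T₁ ∪ Q ∪ S) := by
        rw [Finset.union_insert, Finset.insert_union]
      have hsub : T ∪ S ⊆ T₁ ∪ Q ∪ S := Finset.union_subset_union_left hT3
      by_cases hc : r (insert x (T ∪ S)) ≤ r (T ∪ S)
      · refine ⟨T, hT1, hT2, hT3.trans ?_, ?_, hT5⟩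
        · exact Finset.union_subset_union_right (Finset.subset_insert _ _)
        · have h1 := hr.cl_mono hc hsub
          have h2 := hr.mono (T₁ ∪ Q ∪ S) (insert x (T₁ ∪ Q ∪ S)) (Finset.subset_insert _ _)
          rw [e1]
          omega
      · have hxT : x ∉ T := by
          intro hxT
          rw [Finset.insert_eq_of_mem (Finset.mem_union_left _ hxT)] at hc
          exact hc le_rfl
        refine ⟨insert x T, hT1.trans (Finset.subset_insert _ _),
          Finset.insert_subset hxR hT2, ?_, ?_, ?_⟩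
        · rw [Finset.union_insert]
          exact Finset.insert_subset_insert _ hT3
        · have h1 := hr.ins x (T₁ ∪ Q ∪ S)
          have h2 := hr.mono (insert x (T ∪ S)) (insert x (T₁ ∪ Q ∪ S))
            (Finset.insert_subset_insert _ hsub)
          rw [e1, Finset.insert_union]
          omega
        · have h1 := hr.ins x (T ∪ S)
          rw [Finset.insert_union, Finset.card_insert_of_notMem hxT]
          omega
  obtain ⟨T, h1, h2, -, h4, h5⟩ := key R (Finset.Subset.refl _)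
  rw [Finset.union_eq_right.2 hT₁] at h4
  exact ⟨T, h1, h2, h4, h5⟩

/-- The set `T₁` from `linking` with `k = 2`, of minimal size among the `T₁ ⊆ R` with
`r (X ∪ S ∪ T₁) + r T₁ + 2 ≤ r (T₁ ∪ X) + r (T₁ ∪ S)`. As `r (T₁ ∪ X) ≤ r T₁ + 2` (`hX`,
submodularity): `r (T₁ ∪ X) = r T₁ + 2` and `r (X ∪ S ∪ T₁) = r (T₁ ∪ S)`. If
`r (T₁ ∪ S) = r (T₁.erase y ∪ S)` for some `y ∈ T₁`, then `T₁.erase y` has the property too
(`r (T₁.erase y ∪ X) ≥ r (T₁.erase y) + 2` by submodularity with `T₁`); so `all_coloop` gives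
`r (T₁ ∪ S) = r S + T₁.card`. -/
theorem link_min (hr : IsRk r) {X S R : Finset α} (hRX : Disjoint R X) (hRS : Disjoint R S)
    (hX : r X ≤ r ∅ + 2)
    (h : ∀ A ⊆ R, r (X ∪ S ∪ R) + r ∅ + 2 ≤ r (A ∪ X) + r (R \ A ∪ S)) :
    ∃ T₁ ⊆ R, r (T₁ ∪ X) = r T₁ + 2 ∧ r (X ∪ S ∪ T₁) = r (T₁ ∪ S) ∧
      r (T₁ ∪ S) = r S + T₁.card := by
  classical
  obtain ⟨T₀, hT₀R, hT₀⟩ := linking hr R hRX hRS h
  obtain ⟨T₁, hmem, hmin⟩ := Finset.exists_min_image
    (R.powerset.filter fun T => r (X ∪ S ∪ T) + r T + 2 ≤ r (T ∪ X) + r (T ∪ S))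
    Finset.card ⟨T₀, Finset.mem_filter.2 ⟨Finset.mem_powerset.2 hT₀R, hT₀⟩⟩
  rw [Finset.mem_filter, Finset.mem_powerset] at hmem
  obtain ⟨hT₁R, hT₁⟩ := hmem
  have h1 := hr.sub4 (A := T₁) (B := X) (C := T₁ ∪ X) (D := ∅) (Finset.Subset.refl _)
    (Finset.empty_subset _)
  have h2 := hr.mono (T₁ ∪ S) (X ∪ S ∪ T₁) (by
    intro a ha; simp only [Finset.mem_union] at ha ⊢; tauto)
  refine ⟨T₁, hT₁R, by omega, by omega, all_coloop hr ?_⟩
  intro y hy
  by_contra hc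
  have h3 := hmin (T₁.erase y) (Finset.mem_filter.2
    ⟨Finset.mem_powerset.2 ((Finset.erase_subset _ _).trans hT₁R), ?_⟩)
  · rw [Finset.card_erase_of_mem hy] at h3
    have h4 : 0 < T₁.card := Finset.card_pos.2 ⟨y, hy⟩
    omega
  · have h4 := hr.mono (X ∪ S ∪ T₁.erase y) (X ∪ S ∪ T₁)
      (Finset.union_subset_union_right (Finset.erase_subset _ _))
    have h5 := hr.sub4 (A := T₁.erase y ∪ X) (B := T₁) (C := T₁ ∪ X) (D := T₁.erase y)
      (by intro a ha; simp only [Finset.mem_union] at ha ⊢; tauto)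
      (Finset.subset_inter Finset.subset_union_left (Finset.erase_subset _ _))
    omega

/-- Extend `T₁` of `link_min` to a basis `T` (`exists_basis_ext`). Submodularity for `T ∪ X` and
`X ∪ S ∪ T₁`: `r (T ∪ S) + r (T₁ ∪ X) ≤ r (T ∪ X) + r (X ∪ S ∪ T₁)`, and
`r T₁ = r ∅ + T₁.card` (independent modulo `S`, submodularity), `r T ≤ r ∅ + T.card`. -/
theorem link_basis (hr : IsRk r) {X S R : Finset α} (hRX : Disjoint R X) (hRS : Disjoint R S)
    (hX : r X ≤ r ∅ + 2)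
    (h : ∀ A ⊆ R, r (X ∪ S ∪ R) + r ∅ + 2 ≤ r (A ∪ X) + r (R \ A ∪ S)) :
    ∃ T ⊆ R, r (T ∪ S) = r (R ∪ S) ∧ r (T ∪ S) = r S + T.card ∧ r T + 2 ≤ r (T ∪ X) := by
  obtain ⟨T₁, hT₁R, h1, h2, h3⟩ := link_min hr hRX hRS hX h
  obtain ⟨T, hT, hTR, h4, h5⟩ := exists_basis_ext hr hT₁R h3
  refine ⟨T, hTR, h4, h5, ?_⟩
  have h6 := hr.sub4 (A := T ∪ X) (B := X ∪ S ∪ T₁) (C := T ∪ S) (D := T₁ ∪ X)
    (by intro a ha; simp only [Finset.mem_union] at ha ⊢; tauto)
    (by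
      intro a ha
      simp only [Finset.mem_union, Finset.mem_inter] at ha ⊢
      rcases ha with ha | ha
      · exact ⟨Or.inl (hT ha), Or.inr ha⟩
      · exact ⟨Or.inr ha, Or.inl (Or.inl ha)⟩)
  have h7 := hr.sub4 (A := T₁) (B := S) (C := T₁ ∪ S) (D := ∅) (Finset.Subset.refl _)
    (Finset.empty_subset _)
  have h8 := hr.le_card T
  omega

end Pool.MP_4929df_co.H92
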