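import Pool.Agent.W_4929df_h92.BlkB

/-!
Independence modulo a subspace, and the vector version of `link_basis` (proofs row 572, step 5 (e)).
-/

set_option autoImplicit false

namespace Pool.MP_4929df_co.H92

open Submodule

variable {F : Type} [Field F] {V : Type} [AddCommGroup V] [Module F V] [FiniteDimensional F V]
  {α : Type} [DecidableEq α] {v : α → V}

omit [FiniteDimensional F V] in
theorem Ind2.mono {W W' : Submodule F V} {a b : V} (h : Ind2 W a b) (hW : W' ≤ W) :
    Ind2 W' a b := fun x y hxy => h x y (hW hxy)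

omit [FiniteDimensional F V] in
theorem BlkC_ind2 {W : Submodule F V} {a b : V} :
    Ind2 W a b ↔ a ∉ W ∧ b ∉ span F {a} ⊔ W := by
  constructor
  · intro h
    refine ⟨fun ha => ?_, fun hb => ?_⟩
    · exact one_ne_zero (h 1 0 (by simpa using ha)).1
    · obtain ⟨y, hy, z, hz, hyz⟩ := mem_sup.1 hb
      obtain ⟨t, rfl⟩ := mem_span_singleton.1 hy
      refine one_ne_zero (h (-t) 1 ?_).2
      have e : (-t) • a + (1 : F) • b = z := by
        rw [← hyz, one_smul, neg_smul]
        abel
      rw [e]
      exact hz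
  · rintro ⟨ha, hb⟩ x y hxy
    have hy : y = 0 := by
      by_contra hy
      apply hb
      have e : b = y⁻¹ • (x • a + y • b) + (-(y⁻¹ * x)) • a := by
        rw [smul_add, smul_smul, smul_smul, inv_mul_cancel₀ hy, one_smul, neg_smul]
        abel
      rw [e]
      exact add_mem (mem_sup_right (smul_mem _ _ hxy))
        (mem_sup_left (smul_mem _ _ (mem_span_singleton_self a)))
    subst hy
    refine ⟨?_, rfl⟩
    by_contra hx
    apply ha
    have e : a = x⁻¹ • (x • a + (0 : F) • b) := by
      rw [zero_smul, add_zero, smul_smul, inv_mul_cancel₀ hx, one_smul]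
    rw [e]
    exact smul_mem _ _ hxy

/-- the pair as a family indexed by `Bool` -/
def BlkC_p (a b : V) : Bool → V := fun c => if c then a else b

omit [FiniteDimensional F V] in
theorem BlkC_Sp (a b : V) : Sp F (BlkC_p a b) {false, true} = span F {a, b} := by
  unfold Sp
  congr 1
  ext z
  constructor
  · rintro ⟨c, hc, rfl⟩
    cases c
    · exact Or.inr rfl
    · exact Or.inl rfl
  · rintro (rfl | rfl)
    · exact ⟨true, by simp, rfl⟩
    · exact ⟨false, by simp, rfl⟩

omit [FiniteDimensional F V] in
theorem BlkC_rk (W : Submodule F V) (a b : V) :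
    Module.finrank F (W ⊔ span F {a, b} : Submodule F V) =
      rk F (BlkC_p a b) W (insert false {true}) := by
  unfold rk
  rw [show (insert false {true} : Finset Bool) = {false, true} from rfl, BlkC_Sp, sup_comm]

/-- dimension formula: the two vectors are linearly independent in `V ⧸ W` -/
theorem ind2_iff {W : Submodule F V} {a b : V} :
    Ind2 W a b ↔ Module.finrank F (W ⊔ span F {a, b} : Submodule F V) =
      Module.finrank F W + 2 := by
  have h0 : rk F (BlkC_p a b) W ∅ = Module.finrank F W := rk_empty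
  have h1 := (rk_isRk (BlkC_p a b) W).ins true ∅
  have h2 := (rk_isRk (BlkC_p a b) W).ins false {true}
  have h3 := not_cl_iff (v := BlkC_p a b) (Y := W) (A := ∅) (x := true)
  have h4 := not_cl_iff (v := BlkC_p a b) (Y := W) (A := {true}) (x := false)
  have e1 : (insert true ∅ : Finset Bool) = {true} := rfl
  rw [Sp_empty, bot_sup_eq] at h3
  rw [Sp_singleton] at h4
  have e2 : BlkC_p a b true = a := rfl
  have e3 : BlkC_p a b false = b := rfl
  rw [e1] at h1 h3
  rw [e2] at h3 h4
  rw [e3] at h4
  rw [BlkC_ind2, BlkC_rk, ← h3, ← h4]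
  omega

/-- `≤` always holds -/
theorem finrank_pair_le (W : Submodule F V) (a b : V) :
    Module.finrank F (W ⊔ span F {a, b} : Submodule F V) ≤ Module.finrank F W + 2 := by
  have h0 : rk F (BlkC_p a b) W ∅ = Module.finrank F W := rk_empty
  have h1 := (rk_isRk (BlkC_p a b) W).ins true ∅
  have h2 := (rk_isRk (BlkC_p a b) W).ins false {true}
  have e1 : (insert true ∅ : Finset Bool) = {true} := rfl
  rw [e1] at h1
  rw [BlkC_rk]
  omega

omit [FiniteDimensional F V] [DecidableEq α] in
theorem BlkC_map (a b : V) (A : Finset α) :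
    Sp F (Sum.elim v (BlkC_p a b)) (A.map Function.Embedding.inl) = Sp F v A := by
  unfold Sp
  congr 1
  ext z
  simp

omit [FiniteDimensional F V] in
theorem BlkC_X (a b : V) :
    Sp F (Sum.elim v (BlkC_p a b)) {Sum.inr true, Sum.inr false} = span F {a, b} := by
  unfold Sp
  congr 1
  ext z
  constructor
  · rintro ⟨c, hc, rfl⟩
    simp only [Finset.coe_insert, Finset.coe_singleton, Set.mem_insert_iff,
      Set.mem_singleton_iff] at hc
    rcases hc with rfl | rfl
    · exact Or.inl rfl
    · exact Or.inr rfl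
  · rintro (rfl | rfl)
    · exact ⟨Sum.inr true, by simp, rfl⟩
    · exact ⟨Sum.inr false, by simp, rfl⟩

omit [FiniteDimensional F V] [DecidableEq α] in
theorem BlkC_rk_map (U : Submodule F V) (a b : V) (A : Finset α) :
    rk F (Sum.elim v (BlkC_p a b)) U (A.map Function.Embedding.inl) = rk F v U A := by
  unfold rk
  rw [BlkC_map]

/-- The vector version. `γ = α ⊕ Bool`, `w (inl x) = v x`, `w (inr true) = a`, `w (inr false) = b`,
rank function `rk F w U`; `link_basis` with `X = {inr true, inr false}`, `S.map inl`, `R.map inl`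
(`Sp F w (A.map inl) = Sp F v A`; every subset of `R.map inl` is `A.map inl` with `A ⊆ R`). -/
theorem link_vec {U : Submodule F V} {S R : Finset α} {a b : V} (hRS : Disjoint R S)
    (hab : span F {a, b} ≤ Sp F v (R ∪ S) ⊔ U)
    (h : ∀ A ⊆ R, rk F v U (R ∪ S) + Module.finrank F U + 2 ≤
      rk F v (U ⊔ span F {a, b}) A + rk F v U (R \ A ∪ S)) :
    ∃ T ⊆ R, rk F v U (T ∪ S) = rk F v U (R ∪ S) ∧ rk F v U (T ∪ S) = rk F v U S + T.card ∧
      Ind2 (Sp F v T ⊔ U) a b := by
  classical
  set w : α ⊕ Bool → V := Sum.elim v (BlkC_p a b) with hw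
  set X : Finset (α ⊕ Bool) := {Sum.inr true, Sum.inr false} with hXd
  have hr : IsRk (rk F w U) := rk_isRk w U
  have hXs : Sp F w X = span F {a, b} := BlkC_X a b
  have hm : ∀ A : Finset α, rk F w U (A.map Function.Embedding.inl) = rk F v U A :=
    fun A => BlkC_rk_map U a b A
  have hms : ∀ A : Finset α, Sp F w (A.map Function.Embedding.inl) = Sp F v A :=
    fun A => BlkC_map a b A
  have hRX : Disjoint (R.map Function.Embedding.inl) X := by
    rw [Finset.disjoint_left]
    intro z hz hz'
    obtain ⟨x, -, rfl⟩ := Finset.mem_map.1 hz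
    rw [hXd] at hz'
    simp at hz'
  have hRS' : Disjoint (R.map Function.Embedding.inl) (S.map (Function.Embedding.inl (β := Bool))) :=
    (Finset.disjoint_map _).2 hRS
  have hX2 : rk F w U X ≤ rk F w U ∅ + 2 := by
    have h1 := hr.le_card X
    have h2 : X.card ≤ 2 := Finset.card_le_two
    omega
  have hAX : ∀ A : Finset α, rk F w U (A.map Function.Embedding.inl ∪ X) =
      rk F v (U ⊔ span F {a, b}) A := by
    intro A
    unfold rk
    rw [Sp_union, hms, hXs, sup_assoc, sup_comm (span F {a, b}) U]
  have hall : rk F w U (X ∪ S.map Function.Embedding.inl ∪ R.map Function.Embedding.inl) =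
      rk F v U (R ∪ S) := by
    have e : Sp F w (X ∪ S.map Function.Embedding.inl ∪ R.map Function.Embedding.inl) ⊔ U =
        Sp F v (R ∪ S) ⊔ U := by
      rw [Sp_union, Sp_union, hXs, hms, hms, sup_assoc (span F {a, b}),
        sup_comm (Sp F v S) (Sp F v R), ← Sp_union, sup_assoc]
      exact sup_eq_right.2 hab
    unfold rk
    rw [e]
  obtain ⟨T', hT', h1, h2, h3⟩ := link_basis hr hRX hRS' hX2 (by
    intro A' hA'
    obtain ⟨A, hA, rfl⟩ := Finset.subset_map_iff.1 hA'
    rw [hall, hAX, rk_empty, ← Finset.map_sdiff, ← Finset.map_union, hm]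
    exact h A hA)
  obtain ⟨T, hT, rfl⟩ := Finset.subset_map_iff.1 hT'
  rw [← Finset.map_union, ← Finset.map_union, hm, hm] at h1
  rw [← Finset.map_union, hm, hm, Finset.card_map] at h2
  rw [hm, hAX] at h3
  refine ⟨T, hT, h1, h2, ?_⟩
  rw [ind2_iff]
  have h4 := finrank_pair_le (Sp F v T ⊔ U) a b
  have e : rk F v (U ⊔ span F {a, b}) T =
      Module.finrank F (Sp F v T ⊔ U ⊔ span F {a, b} : Submodule F V) := by
    unfold rk
    rw [sup_assoc]
  have e2 : rk F v U T = Module.finrank F (Sp F v T ⊔ U : Submodule F V) := rfl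
  omega

end Pool.MP_4929df_co.H92
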