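import Pool.Agent.W_4929df_h92.BlkC

/-!
Bases of `N / S` and separators (proofs row 572, step 5 (c), (e)).
-/

set_option autoImplicit false

namespace Pool.MP_4929df_co.H92

open Submodule

section rank

variable {α : Type} [DecidableEq α] {r : Finset α → ℕ} {X S T R : Finset α}

/-- the part of a basis outside a separator `R` is a basis of the rest: from `Bas` and `SepN`,
`r ((T \ R) ∪ S) = r (X \ R)`, `(T \ R).card + r S = r (X \ R)`, `(T ∩ R).card + r S = r (R ∪ S)`.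
(`r (A ∪ S) ≤ r S + A.card`; `r (T ∪ S) = r S + T.card`; submodularity.) -/
theorem Bas.split (hr : IsRk r) (hS : S ⊆ X) (hT : Bas r X S T) (hR : SepN r X S R) :
    r (T \ R ∪ S) = r (X \ R) ∧ (T \ R).card + r S = r (X \ R) ∧
      (T ∩ R).card + r S = r (R ∪ S) := by
  obtain ⟨hT1, hT2, hT3⟩ := hT
  obtain ⟨hR1, hR2⟩ := hR
  have h1 : r (T \ R ∪ S) ≤ r (X \ R) := by
    refine hr.mono _ _ ?_
    intro a ha
    simp only [Finset.mem_union, Finset.mem_sdiff] at ha ⊢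
    rcases ha with ha | ha
    · exact ⟨(Finset.mem_sdiff.mp (hT1 ha.1)).1, ha.2⟩
    · exact ⟨hS ha, fun h => (Finset.mem_sdiff.mp (hR1 h)).2 ha⟩
  have h2 : r (T ∩ R ∪ S) ≤ r (R ∪ S) :=
    hr.mono _ _ (Finset.union_subset_union_left Finset.inter_subset_right)
  have h3 : r (T ∪ S) + r S ≤ r (T \ R ∪ S) + r (T ∩ R ∪ S) := by
    refine hr.sub4 ?_ ?_
    · intro a ha
      simp only [Finset.mem_union, Finset.mem_sdiff, Finset.mem_inter] at ha ⊢
      tauto
    · intro a ha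
      simp only [Finset.mem_union, Finset.mem_sdiff, Finset.mem_inter] at ha ⊢
      tauto
  have h4 : r (T \ R ∪ S) ≤ r S + (T \ R).card := hr.le_add_card (by rw [Finset.union_comm])
  have h5 : r (T ∩ R ∪ S) ≤ r S + (T ∩ R).card := hr.le_add_card (by rw [Finset.union_comm])
  have h6 : (T \ R).card + (T ∩ R).card = T.card := Finset.card_sdiff_add_card_inter T R
  refine ⟨?_, ?_, ?_⟩ <;> omega

/-- conversely replace the part in `R`: if `T₂ ⊆ R` with `r (T₂ ∪ S) = r (R ∪ S)` and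
`r (T₂ ∪ S) = r S + T₂.card`, then `T \ R ∪ T₂` is a basis, and `(T \ R ∪ T₂) \ R = T \ R`. -/
theorem Bas.replace (hr : IsRk r) (hS : S ⊆ X) (hT : Bas r X S T) (hR : SepN r X S R)
    {T₂ : Finset α} (h2 : T₂ ⊆ R) (hs : r (T₂ ∪ S) = r (R ∪ S))
    (hc : r (T₂ ∪ S) = r S + T₂.card) :
    Bas r X S (T \ R ∪ T₂) ∧ (T \ R ∪ T₂) \ R = T \ R := by
  obtain ⟨k1, k2, k3⟩ := hT.split hr hS hR
  obtain ⟨hT1, hT2, hT3⟩ := hT
  obtain ⟨hR1, hR2⟩ := hR
  refine ⟨⟨?_, ?_, ?_⟩, ?_⟩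
  · exact Finset.union_subset (Finset.sdiff_subset.trans hT1) (h2.trans hR1)
  · have h3 : r ((T \ R ∪ T₂ ∪ S) ∪ (X \ R)) + r (T \ R ∪ S) ≤ r (T \ R ∪ T₂ ∪ S) + r (X \ R) := by
      refine hr.sub4 (Finset.Subset.refl _) ?_
      intro a ha
      simp only [Finset.mem_union, Finset.mem_sdiff, Finset.mem_inter] at ha ⊢
      rcases ha with ha | ha
      · exact ⟨Or.inl (Or.inl ha), (Finset.mem_sdiff.mp (hT1 ha.1)).1, ha.2⟩
      · exact ⟨Or.inr ha, hS ha, fun h => (Finset.mem_sdiff.mp (hR1 h)).2 ha⟩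
    have h4 : r (((T \ R ∪ T₂ ∪ S) ∪ (X \ R)) ∪ (R ∪ S)) + r (T₂ ∪ S) ≤
        r ((T \ R ∪ T₂ ∪ S) ∪ (X \ R)) + r (R ∪ S) := by
      refine hr.sub4 (Finset.Subset.refl _) ?_
      intro a ha
      simp only [Finset.mem_union, Finset.mem_sdiff, Finset.mem_inter] at ha ⊢
      rcases ha with ha | ha
      · exact ⟨Or.inl (Or.inl (Or.inr ha)), Or.inl (h2 ha)⟩
      · exact ⟨Or.inl (Or.inr ha), Or.inr ha⟩
    have h5 : r X ≤ r (((T \ R ∪ T₂ ∪ S) ∪ (X \ R)) ∪ (R ∪ S)) := by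
      refine hr.mono _ _ ?_
      intro a ha
      simp only [Finset.mem_union, Finset.mem_sdiff]
      tauto
    have h6 : r (T \ R ∪ T₂ ∪ S) ≤ r X := by
      refine hr.mono _ _ ?_
      refine Finset.union_subset (Finset.union_subset ?_ ?_) hS
      · exact (Finset.sdiff_subset.trans hT1).trans Finset.sdiff_subset
      · exact (h2.trans hR1).trans Finset.sdiff_subset
    omega
  · have h3 : (T \ R ∪ T₂).card = (T \ R).card + T₂.card := by
      refine Finset.card_union_of_disjoint ?_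
      exact Finset.disjoint_of_subset_right h2 Finset.sdiff_disjoint
    omega
  · ext a
    simp only [Finset.mem_union, Finset.mem_sdiff]
    constructor
    · rintro ⟨h | h, h'⟩
      · exact h
      · exact absurd (h2 h) h'
    · intro h
      exact ⟨Or.inl h, h.2⟩

/-- a basis exists (`exists_basis_ext` with `T₁ = ∅`, `R = X \ S`) -/
theorem exists_bas (hr : IsRk r) (hS : S ⊆ X) : ∃ T, Bas r X S T := by
  obtain ⟨T, _, h2, h3, h4⟩ := exists_basis_ext hr (R := X \ S) (S := S) (T₁ := ∅)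
    (Finset.empty_subset _) (by simp)
  have e : X \ S ∪ S = X := Finset.sdiff_union_of_subset hS
  rw [e] at h3
  exact ⟨T, h2, h3, by omega⟩

end rank

variable {F : Type} [Field F] {V : Type} [AddCommGroup V] [Module F V] [FiniteDimensional F V]
  {α : Type} [DecidableEq α] {v : α → V} {Y : Submodule F V} {X S T : Finset α}

/-- `(v(T) + Y) ∩ (v(S) + Y) = Y`: dimensions (`Bas.sp`, `Bas.ind`, `rk F v Y T ≤ dim Y + T.card`) -/
theorem Bas.inf_eq (hS : S ⊆ X) (hT : Bas (rk F v Y) X S T) :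
    (Sp F v T ⊔ Y) ⊓ (Sp F v S ⊔ Y) = Y := by
  have h1 := Submodule.finrank_sup_add_finrank_inf_eq (Sp F v T ⊔ Y) (Sp F v S ⊔ Y)
  have e1 : Sp F v T ⊔ Y ⊔ (Sp F v S ⊔ Y) = Sp F v (T ∪ S) ⊔ Y := by
    rw [Sp_union, sup_sup_sup_comm, sup_idem]
  rw [e1] at h1
  have h2 : Module.finrank F (Sp F v (T ∪ S) ⊔ Y : Submodule F V) = rk F v Y X := hT.sp
  have h3 : T.card + rk F v Y S = rk F v Y X := hT.ind
  have h4 : Module.finrank F (Sp F v S ⊔ Y : Submodule F V) = rk F v Y S := rfl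
  have h5 : Module.finrank F (Sp F v T ⊔ Y : Submodule F V) = rk F v Y T := rfl
  have h6 := (rk_isRk v Y).le_card T
  rw [rk_empty] at h6
  refine (Submodule.eq_of_le_of_finrank_le (le_inf le_sup_right le_sup_right) ?_).symm
  omega

/-- `dim (v(T) + Y) = dim Y + T.card` and `v(T) ∩ Y = 0` and `dim v(T) = T.card`
(`dim v(T) ≤ T.card`) -/
theorem Bas.indep (hS : S ⊆ X) (hT : Bas (rk F v Y) X S T) :
    Sp F v T ⊓ Y = ⊥ ∧ Module.finrank F (Sp F v T) = T.card := by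
  have h0 := hT.inf_eq hS
  have h1 := Submodule.finrank_sup_add_finrank_inf_eq (Sp F v T ⊔ Y) (Sp F v S ⊔ Y)
  have e1 : Sp F v T ⊔ Y ⊔ (Sp F v S ⊔ Y) = Sp F v (T ∪ S) ⊔ Y := by
    rw [Sp_union, sup_sup_sup_comm, sup_idem]
  rw [e1, h0] at h1
  have h2 : Module.finrank F (Sp F v (T ∪ S) ⊔ Y : Submodule F V) = rk F v Y X := hT.sp
  have h3 : T.card + rk F v Y S = rk F v Y X := hT.ind
  have h4 : Module.finrank F (Sp F v S ⊔ Y : Submodule F V) = rk F v Y S := rfl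
  have h5 := Submodule.finrank_sup_add_finrank_inf_eq (Sp F v T) Y
  have h6 := (rk_isRk v (⊥ : Submodule F V)).le_card T
  rw [rk_empty, finrank_bot] at h6
  have h7 : Module.finrank F (Sp F v T) = rk F v ⊥ T := by
    unfold rk
    rw [sup_bot_eq]
  refine ⟨?_, by omega⟩
  rw [← Submodule.finrank_eq_zero (R := F)]
  omega

end Pool.MP_4929df_co.H92
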