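import Pool.Agent.W_4929df_h92.BlkD

/-!
Linking inside a separator (proofs row 572, step 5 (e)).
-/

set_option autoImplicit false

namespace Pool.MP_4929df_co.H92

open Submodule

variable {F : Type} [Field F] {V : Type} [AddCommGroup V] [Module F V] [FiniteDimensional F V]
  {α : Type} [DecidableEq α] {v : α → V} {Y : Submodule F V} {X S T : Finset α}

/-- Step 5 (e). `U = Sp F v (T \ R) ⊔ Y`; apply `link_vec` and `Bas.replace`
(`Sp F v T₂ ⊔ U = Sp F v (T \ R ∪ T₂) ⊔ Y`). The hypothesis of `link_vec`: `A = ∅` by `hab`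
(`ind2_iff`); `A = {x}`: `rk F v U ((R \ {x}) ∪ S) = dim V` because `X \ {x}` has full rank
(`h3` with `j = 1`) and the elements of `X \ S \ R` are in `Sp F v S ⊔ U` (`Bas.split`,
`sup_eq_of_rk_le`); `2 ≤ A.card`: `h3` with `j = 2` (`2 ≤ (X \ A).card` from `hS2`: `S ⊆ X \ A` and
`rk F v Y S ≤ dim Y + S.card`), `rk F v U A = rk F v Y A + (T \ R).card` for `A ⊆ R ∪ S`
(`T \ R` is independent modulo `R ∪ S`), `rk F v U (R \ A ∪ S) = rk F v Y (X \ A)`. -/
theorem exists_link (hS : S ⊆ X) (hX : Sp F v X ⊔ Y = ⊤) (h3 : ThreeR (rk F v Y) X)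
    (hS2 : rk F v Y ∅ + 2 ≤ rk F v Y S) (hT : Bas (rk F v Y) X S T) {R : Finset α}
    (hR : SepN (rk F v Y) X S R) {a b : V} (hab : Ind2 (Sp F v (T \ R) ⊔ Y) a b) :
    ∃ T', Bas (rk F v Y) X S T' ∧ T' \ R = T \ R ∧ Ind2 (Sp F v T' ⊔ Y) a b := by
  classical
  have hr := rk_isRk (F := F) v Y
  obtain ⟨-, s2, -⟩ := Bas.split hr hS hT hR
  have hRX : R ⊆ X := hR.1.trans Finset.sdiff_subset
  have hTX : T ⊆ X := hT.sub.trans Finset.sdiff_subset
  have hRS : Disjoint R S := by
    rw [Finset.disjoint_left]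
    intro x hx
    exact (Finset.mem_sdiff.1 (hR.1 hx)).2
  have hRS' : ∀ x, x ∈ R → x ∉ S := fun x hx => Finset.disjoint_left.1 hRS hx
  have hsep := hR.2
  -- the rank of everything
  have hfull : rk F v Y (R ∪ S ∪ (T \ R)) = rk F v Y X := by
    apply le_antisymm
    · apply hr.mono
      exact Finset.union_subset (Finset.union_subset hRX hS) (Finset.sdiff_subset.trans hTX)
    · rw [← hT.sp]
      apply hr.mono
      intro x hx
      simp only [Finset.mem_union, Finset.mem_sdiff] at hx ⊢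
      tauto
  have hfull2 : rk F v Y (R ∪ S ∪ (T \ R)) = rk F v Y (R ∪ S) + (T \ R).card := by omega
  have hU : ∀ A : Finset α, rk F v (Sp F v (T \ R) ⊔ Y) A = rk F v Y (A ∪ (T \ R)) := fun A =>
    (congrFun (ct_rk (F := F) (v := v) (Y := Y) (T \ R)) A).symm
  have hUA : ∀ A ⊆ R ∪ S, rk F v (Sp F v (T \ R) ⊔ Y) A = rk F v Y A + (T \ R).card := by
    intro A hA
    rw [hU]
    have h1 := hr.add_card A (T \ R)
    have h2 := hr.sub4 (A := A ∪ (T \ R)) (B := R ∪ S) (C := R ∪ S ∪ (T \ R)) (D := A)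
      (by intro x hx; simp only [Finset.mem_union] at hx ⊢; tauto)
      (Finset.subset_inter Finset.subset_union_left hA)
    omega
  have hU0 : Module.finrank F (Sp F v (T \ R) ⊔ Y : Submodule F V) =
      rk F v Y ∅ + (T \ R).card := by
    rw [← rk_empty (v := v)]
    exact hUA ∅ (Finset.empty_subset _)
  have hS3 : 2 ≤ S.card := by
    have := hr.le_card S
    omega
  have hspan : span F {a, b} ≤ Sp F v (R ∪ S) ⊔ (Sp F v (T \ R) ⊔ Y) := by
    have h1 : Sp F v (R ∪ S ∪ (T \ R)) ⊔ Y = ⊤ := by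
      rw [← hX]
      apply sup_eq_of_rk_le
      · exact Finset.union_subset (Finset.union_subset hRX hS) (Finset.sdiff_subset.trans hTX)
      · exact hfull.ge
    rw [← sup_assoc, ← Sp_union, h1]
    exact le_top
  have hsp2 := ind2_iff.1 hab
  obtain ⟨T₂, hT₂, h4, h5, h6⟩ := link_vec (F := F) (v := v) (U := Sp F v (T \ R) ⊔ Y)
    (S := S) (R := R) (a := a) (b := b) hRS hspan (by
      intro A hA
      have hA2 : R \ A ∪ S ⊆ R ∪ S := Finset.union_subset_union_left Finset.sdiff_subset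
      rw [hUA _ Finset.Subset.rfl, hUA _ hA2, hU0]
      have g1 : Module.finrank F (Sp F v (T \ R) ⊔ Y ⊔ span F {a, b} : Submodule F V) ≤
          rk F v (Sp F v (T \ R) ⊔ Y ⊔ span F {a, b}) A :=
        Submodule.finrank_mono le_sup_right
      have g2 : rk F v (Sp F v (T \ R) ⊔ Y) A ≤ rk F v (Sp F v (T \ R) ⊔ Y ⊔ span F {a, b}) A :=
        Submodule.finrank_mono (sup_le_sup_left le_sup_left _)
      rw [hUA A (hA.trans Finset.subset_union_left)] at g2
      have g3 := hr.sub4 (A := R \ A ∪ S) (B := X \ R) (C := X \ A) (D := S)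
        (by intro x hx; simp only [Finset.mem_union, Finset.mem_sdiff] at hx ⊢; tauto)
        (by
          intro x hx
          have := hS hx
          have h7 : x ∉ R := fun h => hRS' x h hx
          simp only [Finset.mem_inter, Finset.mem_union, Finset.mem_sdiff]
          tauto)
      have hcard : 2 ≤ (X \ A).card := by
        refine hS3.trans (Finset.card_le_card ?_)
        intro x hx
        exact Finset.mem_sdiff.2 ⟨hS hx, fun h => hRS' x (hA h) hx⟩
      rcases Nat.lt_or_ge A.card 2 with hc | hc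
      · rcases Nat.eq_zero_or_pos A.card with hc0 | hc0
        · rw [Finset.card_eq_zero] at hc0
          subst hc0
          rw [Finset.sdiff_empty]
          omega
        · have hc1 : A.card = 1 := by omega
          have h7 := h3 A (hA.trans hRX) 1 (by omega) (by omega) (by omega)
          have h8 := hr.le_card A
          omega
      · have h7 := h3 A (hA.trans hRX) 2 (by omega) (by omega) (by omega)
        omega)
  have hT2S : T₂ ∪ S ⊆ R ∪ S := Finset.union_subset_union_left hT₂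
  rw [hUA _ hT2S, hUA _ Finset.Subset.rfl] at h4
  rw [hUA _ hT2S, hUA _ Finset.subset_union_right] at h5
  obtain ⟨h7, h8⟩ := Bas.replace hr hS hT hR hT₂ (by omega) (by omega)
  refine ⟨T \ R ∪ T₂, h7, h8, ?_⟩
  have h9 : Sp F v (T \ R ∪ T₂) ⊔ Y = Sp F v T₂ ⊔ (Sp F v (T \ R) ⊔ Y) := by
    rw [Sp_union, sup_comm (Sp F v (T \ R)) (Sp F v T₂), sup_assoc]
  rw [h9]
  exact h6

end Pool.MP_4929df_co.H92
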