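import Pool.Agent.W_4929df_h92.RepB

/-!
Dual representations: the space `Rel` of linear relations of the vectors `w x` and the vectors
`dualv w x` (coordinate functionals of `Rel`).
-/

set_option autoImplicit false

namespace Pool.MP_4929df_co.H92

open Submodule

variable {F : Type} [Field F] {V : Type} [AddCommGroup V] [Module F V] [FiniteDimensional F V]
  {α : Type} [Fintype α] [DecidableEq α]

/-- the linear relations of the vectors `w x` -/
def Rel (F : Type) [Field F] {V : Type} [AddCommGroup V] [Module F V] {α : Type} [Fintype α]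
    (w : α → V) : Submodule F (α → F) where
  carrier := {a | ∑ x, a x • w x = 0}
  add_mem' {a b} ha hb := by
    simp only [Set.mem_ofPred_eq, Pi.add_apply, add_smul, Finset.sum_add_distrib] at *
    rw [ha, hb, add_zero]
  zero_mem' := by simp
  smul_mem' t a ha := by
    simp only [Set.mem_ofPred_eq, Pi.smul_apply, smul_eq_mul, mul_smul] at *
    rw [← Finset.smul_sum, ha, smul_zero]

omit [FiniteDimensional F V] [DecidableEq α] in
theorem mem_Rel {w : α → V} {a : α → F} : a ∈ Rel F w ↔ ∑ x, a x • w x = 0 := Iff.rfl

/-- the dual representation: coordinate functionals on the space of relations -/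
def dualv (w : α → V) (x : α) : Module.Dual F (Rel F w) :=
  (LinearMap.proj (R := F) (φ := fun _ : α => F) x).comp (Rel F w).subtype

/-- Tutte 3-connectivity of a rank function on `G` -/
def ThreeR {α : Type} [DecidableEq α] (r : Finset α → ℕ) (G : Finset α) : Prop :=
  ∀ X ⊆ G, ∀ j : ℕ, j < 3 → j ≤ X.card → j ≤ (G \ X).card → r G + r ∅ + j ≤ r X + r (G \ X)

/-- the representations of the contraction by `C` given by `w` and `w'` (on the elements of `G`) are
equivalent: the relations modulo the span of `C` correspond by scaling with `c` -/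
def EquivMod {F : Type} [Field F] {V : Type} [AddCommGroup V] [Module F V] {α : Type}
    (C G : Finset α) (w w' : α → V) : Prop :=
  ∃ c : α → F, (∀ x, c x ≠ 0) ∧ ∀ a : α → F, (∑ x ∈ G, a x • w x ∈ Sp F w C ↔
    ∑ x ∈ G, (a x * c x) • w' x ∈ Sp F w' C)

end Pool.MP_4929df_co.H92
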