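import Pool.Agent.W_4929df_h92.Tutte

/-!
Components of a matroid, and components of a contraction (step 6 of proofs row 546).
-/

set_option autoImplicit false

namespace Pool.MP_4929df_co.H92

variable {α : Type*} [DecidableEq α] {r : Finset α → ℕ}

/-- Decomposition into connected components. Strong induction on `G.card`. `G = ∅`: the empty
family. If `Conn r G`: `{G}`. Otherwise there is a partition `(A, B)` of `G`, both nonempty, with
`r A + r B ≤ r G + r ∅` (so equality, `IsRk.sub`); take the union of the families of `A` and `B`.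
For `P` in the family of `A`: `r P + r (A \ P) = r A + r ∅` and
`r (G \ P) + r ∅ ≤ r (A \ P) + r B` (`sub4` with `∅`), so `r P + r (G \ P) ≤ r G + r ∅`; `≥` by
`sub4`. -/
theorem comps (hr : IsRk r) (G : Finset α) : ∃ 𝒟 : Finset (Finset α),
    (∀ P ∈ 𝒟, P.Nonempty ∧ P ⊆ G ∧ Conn r P ∧ r P + r (G \ P) = r G + r ∅) ∧
    (∀ P ∈ 𝒟, ∀ Q ∈ 𝒟, P ≠ Q → Disjoint P Q) ∧ ∀ x ∈ G, ∃ P ∈ 𝒟, x ∈ P := by
  induction G using Finset.strongInduction with
  | H G ih =>
  rcases Finset.eq_empty_or_nonempty G with hG | hG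
  · subst hG
    exact ⟨∅, by simp, by simp, by simp⟩
  by_cases hC : Conn r G
  · refine ⟨{G}, ?_, ?_, ?_⟩
    · intro P hP
      rw [Finset.mem_singleton] at hP
      subst hP
      refine ⟨hG, Finset.Subset.refl _, hC, ?_⟩
      simp
    · intro P hP Q hQ hne
      rw [Finset.mem_singleton] at hP hQ
      exact absurd (hP.trans hQ.symm) hne
    · intro x hx
      exact ⟨G, Finset.mem_singleton_self _, hx⟩
  · unfold Conn at hC
    push Not at hC
    obtain ⟨A, B, hAB, hd, hAn, hBn, hlt⟩ := hC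
    have hle : r A + r B ≤ r G + r ∅ := by omega
    have hAG : A ⊂ G := by
      rw [Finset.ssubset_iff_subset_ne]
      refine ⟨hAB ▸ Finset.subset_union_left, ?_⟩
      intro h
      obtain ⟨b, hb⟩ := hBn
      have : b ∈ G := hAB ▸ Finset.mem_union_right _ hb
      rw [← h] at this
      exact (Finset.disjoint_left.1 hd) this hb
    have hBG : B ⊂ G := by
      rw [Finset.ssubset_iff_subset_ne]
      refine ⟨hAB ▸ Finset.subset_union_right, ?_⟩
      intro h
      obtain ⟨a, ha⟩ := hAn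
      have : a ∈ G := hAB ▸ Finset.mem_union_left _ ha
      rw [← h] at this
      exact (Finset.disjoint_left.1 hd) ha this
    obtain ⟨𝒜, a1, a2, a3⟩ := ih A hAG
    obtain ⟨ℬ, b1, b2, b3⟩ := ih B hBG
    have key : ∀ {A B : Finset α}, A ∪ B = G → Disjoint A B → r A + r B ≤ r G + r ∅ →
        ∀ P, P.Nonempty ∧ P ⊆ A ∧ Conn r P ∧ r P + r (A \ P) = r A + r ∅ →
        P.Nonempty ∧ P ⊆ G ∧ Conn r P ∧ r P + r (G \ P) = r G + r ∅ := by
      intro A B hAB hd hle P hP
      obtain ⟨h1, h2, h3, h4⟩ := hP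
      have hPG : P ⊆ G := h2.trans (hAB ▸ Finset.subset_union_left)
      refine ⟨h1, hPG, h3, ?_⟩
      have h5 := hr.sub4 (A := A \ P) (B := B) (C := G \ P) (D := ∅)
        (by
          intro a ha
          rw [← hAB] at ha
          simp only [Finset.mem_union, Finset.mem_sdiff] at ha ⊢
          tauto) (Finset.empty_subset _)
      have h6 := hr.sub4 (A := P) (B := G \ P) (C := G) (D := ∅)
        (by
          intro a ha
          simp only [Finset.mem_union, Finset.mem_sdiff]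
          tauto) (Finset.empty_subset _)
      omega
    have hle' : r B + r A ≤ r G + r ∅ := by omega
    refine ⟨𝒜 ∪ ℬ, ?_, ?_, ?_⟩
    · intro P hP
      rw [Finset.mem_union] at hP
      rcases hP with hP | hP
      · exact key hAB hd hle P (a1 P hP)
      · exact key ((Finset.union_comm B A).trans hAB) hd.symm hle' P (b1 P hP)
    · intro P hP Q hQ hne
      rw [Finset.mem_union] at hP hQ
      rcases hP with hP | hP <;> rcases hQ with hQ | hQ
      · exact a2 P hP Q hQ hne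
      · exact hd.mono (a1 P hP).2.1 (b1 Q hQ).2.1
      · exact hd.symm.mono (b1 P hP).2.1 (a1 Q hQ).2.1
      · exact b2 P hP Q hQ hne
    · intro x hx
      rw [← hAB, Finset.mem_union] at hx
      rcases hx with hx | hx
      · obtain ⟨P, hP, hxP⟩ := a3 x hx
        exact ⟨P, Finset.mem_union_left _ hP, hxP⟩
      · obtain ⟨P, hP, hxP⟩ := b3 x hx
        exact ⟨P, Finset.mem_union_right _ hP, hxP⟩

/-- From components to the size: if there are fewer than `m` components and `m * n ≤ G.card`, then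
some component has at least `n` elements (`Finset.card_biUnion_le`, or
`Finset.exists_le_card_fiber_of_mul_le_card_of_maps_to`) -/
theorem comps_large {G : Finset α} {𝒟 : Finset (Finset α)} {m n : ℕ}
    (h : ∀ x ∈ G, ∃ P ∈ 𝒟, x ∈ P) (hm : 𝒟.card ≤ m) (hn : m * n < G.card) :
    ∃ P ∈ 𝒟, n < P.card := by
  by_contra hcon
  push Not at hcon
  have h1 : G ⊆ 𝒟.biUnion id := by
    intro x hx
    obtain ⟨P, hP, hxP⟩ := h x hx
    exact Finset.mem_biUnion.2 ⟨P, hP, hxP⟩
  have h2 := Finset.card_le_card h1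
  have h3 : (𝒟.biUnion id).card ≤ 𝒟.card * n :=
    Finset.card_biUnion_le_card_mul 𝒟 id n (fun P hP => hcon P hP)
  have h4 : 𝒟.card * n ≤ m * n := Nat.mul_le_mul_right _ hm
  omega

/-- Let `G₁` be the elements of `G` outside the closure of `Z`. A separator `P` of the contraction
by `Z` restricted to `G₁` satisfies the formula in `G`. Proof: every `x ∈ G \ G₁` is in the closure
of `Z`, so by `cl_union`/`cl_mono` `r (G \ P) = r (G₁ \ P ∪ Z)` (`Z ⊆ G`, `Disjoint P Z`) and
`r G = r (G₁ ∪ Z)`. -/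
theorem sep_of_ct (hr : IsRk r) {G G₁ Z P : Finset α} (hZ : Z ⊆ G) (hG₁ : G₁ ⊆ G)
    (hcl : ∀ x ∈ G, x ∉ G₁ → r (insert x Z) ≤ r Z) (hPG : P ⊆ G₁) (hPZ : Disjoint P Z)
    (h : ct r Z P + ct r Z (G₁ \ P) = ct r Z G₁ + ct r Z ∅) :
    r (P ∪ Z) + r (G \ P) = r G + r Z := by
  rw [ct_empty_apply] at h
  have h0 : r (P ∪ Z) + r (G₁ \ P ∪ Z) = r (G₁ ∪ Z) + r Z := h
  have key : ∀ X : Finset α, r (X ∪ Z ∪ (G \ G₁)) ≤ r (X ∪ Z) := by
    intro X
    refine hr.cl_union ?_
    intro x hx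
    rw [Finset.mem_sdiff] at hx
    exact hr.cl_mono (hcl x hx.1 hx.2) Finset.subset_union_right
  have k1 := key G₁
  have k2 := key (G₁ \ P)
  have k3 : r G ≤ r (G₁ ∪ Z ∪ (G \ G₁)) := hr.mono _ _ (by
    intro a ha
    simp only [Finset.mem_union, Finset.mem_sdiff]
    tauto)
  have k4 : r (G₁ ∪ Z) ≤ r G := hr.mono _ _ (Finset.union_subset hG₁ hZ)
  have k5 : r (G \ P) ≤ r (G₁ \ P ∪ Z ∪ (G \ G₁)) := hr.mono _ _ (by
    intro a ha
    simp only [Finset.mem_union, Finset.mem_sdiff] at ha ⊢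
    tauto)
  have k6 : r (G₁ \ P ∪ Z) ≤ r (G \ P) := hr.mono _ _ (by
    intro a ha
    have e1 := @hG₁ a
    have e2 := @hZ a
    have e3 := fun h : a ∈ P => Finset.disjoint_left.1 hPZ h
    simp only [Finset.mem_union, Finset.mem_sdiff] at ha ⊢
    tauto)
  omega

/-- Nested separators: `P` is a separator of the contraction by `Z` (`hP`), `S ⊆ P`, and `Q ⊆ P \ S`
is a separator of the contraction by `Z ∪ S` restricted to `P` (`hQ`). Then `Q` is a separator of
the contraction by `Z ∪ S` in `G`. `≤`: `r (G \ Q) + r Z ≤ r (P \ Q ∪ Z) + r (G \ P)` (`sub4`,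
`Disjoint P Z`, `Z ⊆ G`); `≥`: `sub4` for `Q ∪ (Z ∪ S)` and `G \ Q`. -/
theorem sep_nest (hr : IsRk r) {G P Q Z S : Finset α} (hZ : Z ⊆ G) (hPG : P ⊆ G)
    (hPZ : Disjoint P Z) (hS : S ⊆ P) (hQP : Q ⊆ P \ S)
    (hP : r (P ∪ Z) + r (G \ P) = r G + r Z)
    (hQ : ct r Z (Q ∪ S) + ct r Z (P \ Q) = ct r Z P + ct r Z S) :
    r (Q ∪ (Z ∪ S)) + r (G \ Q) = r G + r (Z ∪ S) := by
  have hQ0 : r (Q ∪ S ∪ Z) + r (P \ Q ∪ Z) = r (P ∪ Z) + r (S ∪ Z) := hQ
  have e1 : Q ∪ S ∪ Z = Q ∪ (Z ∪ S) := by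
    ext a; simp only [Finset.mem_union]; tauto
  have e2 : S ∪ Z = Z ∪ S := Finset.union_comm _ _
  rw [e1, e2] at hQ0
  have h1 := hr.sub4 (A := P \ Q ∪ Z) (B := G \ P) (C := G \ Q) (D := Z)
    (by
      intro a ha
      simp only [Finset.mem_union, Finset.mem_sdiff] at ha ⊢
      tauto)
    (by
      intro a ha
      have e1 := @hZ a
      have e3 := fun h : a ∈ P => Finset.disjoint_left.1 hPZ h
      simp only [Finset.mem_union, Finset.mem_inter, Finset.mem_sdiff] at ha ⊢
      tauto)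
  have h2 := hr.sub4 (A := Q ∪ (Z ∪ S)) (B := G \ Q) (C := G) (D := Z ∪ S)
    (by
      intro a ha
      simp only [Finset.mem_union, Finset.mem_sdiff] at ha ⊢
      tauto)
    (by
      intro a ha
      have e1 := @hZ a
      have e2 := @hQP a
      have e3 := fun h : a ∈ P => Finset.disjoint_left.1 hPZ h
      have e4 := @hS a
      have e5 := @hPG a
      simp only [Finset.mem_union, Finset.mem_inter, Finset.mem_sdiff] at ha e2 ⊢
      tauto)
  omega

end Pool.MP_4929df_co.H92
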