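import Pool.Agent.W_4929df_h92.Tutte

/-!
Rank functions of vectors: `Sp F v A` is the span of the vectors `v x`, `x ∈ A`, and
`rk F v Y A` is the dimension of `Sp F v A ⊔ Y`.
-/

set_option autoImplicit false

namespace Pool.MP_4929df_co.H92

open Submodule

variable (F : Type*) [Field F] {V : Type*} [AddCommGroup V] [Module F V]
  {α : Type*} [DecidableEq α]

/-- the span of the vectors of `A` -/
def Sp (v : α → V) (A : Finset α) : Submodule F V := span F (v '' (A : Set α))

/-- the rank function of the vectors `v` modulo `Y` -/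
noncomputable def rk (v : α → V) (Y : Submodule F V) (A : Finset α) : ℕ :=
  Module.finrank F (Sp F v A ⊔ Y : Submodule F V)

variable {F} {v : α → V} {Y : Submodule F V}

omit [DecidableEq α] in
theorem Sp_mono {A B : Finset α} (h : A ⊆ B) : Sp F v A ≤ Sp F v B :=
  span_mono (Set.image_mono (by exact_mod_cast h))

omit [DecidableEq α] in
theorem mem_Sp {A : Finset α} {x : α} (h : x ∈ A) : v x ∈ Sp F v A :=
  subset_span ⟨x, by exact_mod_cast h, rfl⟩

omit [DecidableEq α] in
theorem Sp_le {A : Finset α} {W : Submodule F V} : Sp F v A ≤ W ↔ ∀ x ∈ A, v x ∈ W := by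
  unfold Sp
  rw [span_le]
  constructor
  · intro h x hx; exact h ⟨x, by exact_mod_cast hx, rfl⟩
  · rintro h _ ⟨x, hx, rfl⟩; exact h x (by exact_mod_cast hx)

theorem Sp_union (A B : Finset α) : Sp F v (A ∪ B) = Sp F v A ⊔ Sp F v B := by
  unfold Sp
  rw [Finset.coe_union, Set.image_union, span_union]

theorem Sp_insert (x : α) (A : Finset α) : Sp F v (insert x A) = span F {v x} ⊔ Sp F v A := by
  unfold Sp
  rw [Finset.coe_insert, Set.image_insert_eq, span_insert]

omit [DecidableEq α] in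
theorem Sp_singleton (x : α) : Sp F v {x} = span F {v x} := by
  unfold Sp
  rw [Finset.coe_singleton, Set.image_singleton]

omit [DecidableEq α] in
theorem Sp_empty : Sp F v ∅ = ⊥ := by
  unfold Sp
  rw [Finset.coe_empty, Set.image_empty, span_empty]

omit [DecidableEq α] in
theorem rk_empty : rk F v Y ∅ = Module.finrank F Y := by
  unfold rk
  rw [Sp_empty, bot_sup_eq]

theorem ct_rk (S : Finset α) : ct (rk F v Y) S = rk F v (Sp F v S ⊔ Y) := by
  funext A
  show Module.finrank F (Sp F v (A ∪ S) ⊔ Y : Submodule F V) =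
    Module.finrank F (Sp F v A ⊔ (Sp F v S ⊔ Y) : Submodule F V)
  rw [Sp_union, sup_assoc]

section fd

variable [FiniteDimensional F V]

theorem rk_isRk (v : α → V) (Y : Submodule F V) : IsRk (rk F v Y) where
  mono A B h := Submodule.finrank_mono (sup_le_sup_right (Sp_mono h) _)
  sub A B := by
    show Module.finrank F (Sp F v (A ∪ B) ⊔ Y : Submodule F V) +
      Module.finrank F (Sp F v (A ∩ B) ⊔ Y : Submodule F V) ≤
      Module.finrank F (Sp F v A ⊔ Y : Submodule F V) +
      Module.finrank F (Sp F v B ⊔ Y : Submodule F V)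
    rw [← Submodule.finrank_sup_add_finrank_inf_eq (Sp F v A ⊔ Y) (Sp F v B ⊔ Y)]
    have e1 : Sp F v (A ∪ B) ⊔ Y = Sp F v A ⊔ Y ⊔ (Sp F v B ⊔ Y) := by
      rw [Sp_union, sup_sup_sup_comm, sup_idem]
    rw [e1]
    have h2 : Sp F v (A ∩ B) ⊔ Y ≤ (Sp F v A ⊔ Y) ⊓ (Sp F v B ⊔ Y) :=
      le_inf (sup_le_sup_right (Sp_mono Finset.inter_subset_left) _)
        (sup_le_sup_right (Sp_mono Finset.inter_subset_right) _)
    exact Nat.add_le_add_left (Submodule.finrank_mono h2) _
  ins x A := by
    show Module.finrank F (Sp F v (insert x A) ⊔ Y : Submodule F V) ≤ _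
    rw [Sp_insert, sup_assoc]
    refine (Submodule.finrank_add_le_finrank_add_finrank _ _).trans ?_
    have h1 : Module.finrank F (span F {v x}) ≤ 1 := by
      simpa using finrank_span_le_card (R := F) ({v x} : Set V)
    unfold rk
    omega

omit [DecidableEq α] in
theorem sup_eq_of_rk_le {A B : Finset α} (h : A ⊆ B) (h1 : rk F v Y B ≤ rk F v Y A) :
    Sp F v A ⊔ Y = Sp F v B ⊔ Y :=
  Submodule.eq_of_le_of_finrank_le (sup_le_sup_right (Sp_mono h) _) h1

theorem cl_iff {A : Finset α} {x : α} :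
    rk F v Y (insert x A) ≤ rk F v Y A ↔ v x ∈ Sp F v A ⊔ Y := by
  constructor
  · intro h
    rw [sup_eq_of_rk_le (Finset.subset_insert x A) h]
    exact mem_sup_left (mem_Sp (Finset.mem_insert_self _ _))
  · intro h
    unfold rk
    rw [Sp_insert, sup_assoc, sup_eq_right.2 ((span_singleton_le_iff_mem _ _).2 h)]

theorem not_cl_iff {A : Finset α} {x : α} :
    rk F v Y (insert x A) = rk F v Y A + 1 ↔ v x ∉ Sp F v A ⊔ Y := by
  rw [← cl_iff]
  have h1 := (rk_isRk v Y).ins x A
  omega

end fd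

/-- families of vectors with the same position relative to the vectors of `G` modulo `Y` -/
structure Fam (F : Type*) [Field F] {V : Type*} [AddCommGroup V] [Module F V] {α : Type*}
    (v : α → V) (Y : Submodule F V) (G : Finset α) (H : Set V) : Prop where
  h1 : ∀ h ∈ H, h ∈ Sp F v G ⊔ Y
  h2 : ∀ h ∈ H, ∀ h' ∈ H, h ≠ h' → h ∉ span F {h'} ⊔ Y
  h3 : ∀ A ⊆ G, ∀ h ∈ H, ∀ h' ∈ H, h ∈ Sp F v A ⊔ Y → h' ∈ Sp F v A ⊔ Y

end Pool.MP_4929df_co.H92
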