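import Pool.Agent.W_4929df_h92.TripleA
import Pool.Agent.W_4929df_h92.StarA
import Pool.Agent.W_4929df_h92.Vec
import Pool.Agent.W_4929df_h92.DualDefs

/-!
Definitions for the theorem on arbitrary extensions (proofs row 572). `r` is the rank function of
`N` (its value at the empty set is arbitrary), `X` the ground set of `N`, `S ⊆ X`.
-/

set_option autoImplicit false

namespace Pool.MP_4929df_co.H92

open Submodule

/-- `a, b` are linearly independent modulo `W` -/
def Ind2 {F : Type} [Field F] {V : Type} [AddCommGroup V] [Module F V] (W : Submodule F V)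
    (a b : V) : Prop := ∀ x y : F, x • a + y • b ∈ W → x = 0 ∧ y = 0

/-- `T` is a basis of `N / S` -/
structure Bas {α : Type} [DecidableEq α] (r : Finset α → ℕ) (X S T : Finset α) : Prop where
  sub : T ⊆ X \ S
  sp : r (T ∪ S) = r X
  ind : T.card + r S = r X

/-- `P` is a separator (a union of components) of `N / S` -/
def SepN {α : Type} [DecidableEq α] (r : Finset α → ℕ) (X S P : Finset α) : Prop :=
  P ⊆ X \ S ∧ r (P ∪ S) + r (X \ P) = r X + r S

end Pool.MP_4929df_co.H92
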