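import Pool.Agent.W_4929df_h92.BlkC

/-!
Separators of `N / S` (proofs row 572, step 5 (a), (d)).
-/

set_option autoImplicit false

namespace Pool.MP_4929df_co.H92

open Submodule

section rank

variable {α : Type} [DecidableEq α] {r : Finset α → ℕ} {X S P P' : Finset α}

theorem SepN.empty : SepN r X S ∅ := by
  refine ⟨Finset.empty_subset _, ?_⟩
  rw [Finset.empty_union, Finset.sdiff_empty, Nat.add_comm]

/-- the lower bound in the definition of separators -/
theorem BlkE_lower (hr : IsRk r) (hS : S ⊆ X) {Q : Finset α} (hQ : Q ⊆ X \ S) :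
    r X + r S ≤ r (Q ∪ S) + r (X \ Q) := by
  refine hr.sub4 ?_ ?_
  · intro x hx
    by_cases h : x ∈ Q
    · simp [h]
    · simp [h, hx]
  · intro x hx
    have h1 : x ∉ Q := by
      intro h
      exact (Finset.mem_sdiff.mp (hQ h)).2 hx
    simp [h1, hx, hS hx]

/-- the union of two separators: submodularity for `P ∪ S, P' ∪ S` (union `P ∪ P' ∪ S`, intersection
`P ∩ P' ∪ S`) and for `X \ P, X \ P'` (union `X \ (P ∩ P')`, intersection `X \ (P ∪ P')`), and
`r X + r S ≤ r (Q ∪ S) + r (X \ Q)` for `Q = P ∩ P'` and for `Q = P ∪ P'`. -/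
theorem SepN.union (hr : IsRk r) (hS : S ⊆ X) (hP : SepN r X S P) (hP' : SepN r X S P') :
    SepN r X S (P ∪ P') := by
  obtain ⟨h1, h2⟩ := hP
  obtain ⟨h3, h4⟩ := hP'
  have hu : P ∪ P' ⊆ X \ S := Finset.union_subset h1 h3
  have hi : P ∩ P' ⊆ X \ S := fun x hx => h1 (Finset.mem_inter.mp hx).1
  refine ⟨hu, ?_⟩
  have ha := BlkE_lower hr hS hu
  have hb := BlkE_lower hr hS hi
  have hc : r (P ∪ P' ∪ S) + r (P ∩ P' ∪ S) ≤ r (P ∪ S) + r (P' ∪ S) := by
    refine hr.sub4 ?_ ?_
    · intro x hx
      simp only [Finset.mem_union] at hx ⊢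
      tauto
    · intro x hx
      simp only [Finset.mem_union, Finset.mem_inter] at hx ⊢
      tauto
  have hd : r (X \ (P ∩ P')) + r (X \ (P ∪ P')) ≤ r (X \ P) + r (X \ P') := by
    refine hr.sub4 ?_ ?_
    · intro x hx
      simp only [Finset.mem_sdiff, Finset.mem_union, Finset.mem_inter] at hx ⊢
      tauto
    · intro x hx
      simp only [Finset.mem_sdiff, Finset.mem_union, Finset.mem_inter] at hx ⊢
      tauto
  omega

/-- a separator of `N / S` gives a separator of `N / (insert s S)`. If `s ∈ P`: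
`P.erase s ∪ insert s S = P ∪ S`, `X \ P.erase s = insert s (X \ P)`; submodularity for
`X \ P` and `insert s S`. If `s ∉ P`: submodularity for `P ∪ S` and `insert s S`. `≥`: submodularity
for `P.erase s ∪ insert s S` and `X \ P.erase s`. -/
theorem SepN.insert (hr : IsRk r) (hS : S ⊆ X) (hP : SepN r X S P) {s : α} (hs : s ∈ X) :
    SepN r X (insert s S) (P.erase s) := by
  obtain ⟨h1, h2⟩ := hP
  have hsub : P.erase s ⊆ X \ (Insert.insert s S) := by
    intro x hx
    have hx1 := Finset.mem_erase.mp hx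
    have hx2 := Finset.mem_sdiff.mp (h1 hx1.2)
    refine Finset.mem_sdiff.mpr ⟨hx2.1, ?_⟩
    intro h
    rcases Finset.mem_insert.mp h with h | h
    · exact hx1.1 h
    · exact hx2.2 h
  have hS' : Insert.insert s S ⊆ X := Finset.insert_subset hs hS
  refine ⟨hsub, ?_⟩
  have hlow := BlkE_lower hr hS' hsub
  refine le_antisymm ?_ hlow
  by_cases hsP : s ∈ P
  · have e1 : P.erase s ∪ Insert.insert s S = P ∪ S := by
      ext x
      simp only [Finset.mem_union, Finset.mem_erase, Finset.mem_insert]
      by_cases hx : x = s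
      · subst hx; simp [hsP]
      · simp [hx]
    have hd : r (X \ P.erase s) + r S ≤ r (X \ P) + r (Insert.insert s S) := by
      refine hr.sub4 ?_ ?_
      · intro x hx
        simp only [Finset.mem_sdiff, Finset.mem_union, Finset.mem_erase, Finset.mem_insert] at hx ⊢
        tauto
      · intro x hx
        have hxP : x ∉ P := fun h => (Finset.mem_sdiff.mp (h1 h)).2 hx
        simp [hx, hS hx, hxP]
    rw [e1]
    omega
  · have e1 : P.erase s = P := Finset.erase_eq_of_notMem hsP
    have hd : r (P ∪ Insert.insert s S) + r S ≤ r (P ∪ S) + r (Insert.insert s S) := by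
      refine hr.sub4 ?_ ?_
      · intro x hx
        simp only [Finset.mem_union, Finset.mem_insert] at hx ⊢
        tauto
      · intro x hx
        simp [hx]
    rw [e1]
    omega

end rank

end Pool.MP_4929df_co.H92
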