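import Pool.Agent.W_4929df_h92.BlkE

/-!
Separators of `N / S` (proofs row 572, step 5 (d)).
-/

set_option autoImplicit false

namespace Pool.MP_4929df_co.H92

open Submodule

variable {F : Type} [Field F] {V : Type} [AddCommGroup V] [Module F V] [FiniteDimensional F V]
  {α : Type} [DecidableEq α] {v : α → V} {Y : Submodule F V} {X S P : Finset α}

theorem BlkE1_sub {r : Finset α → ℕ} (hS : S ⊆ X) (hP : SepN r X S P) :
    S ⊆ X \ P := by
  intro s hs
  refine Finset.mem_sdiff.2 ⟨hS hs, fun hsP => ?_⟩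
  exact (Finset.mem_sdiff.1 (hP.1 hsP)).2 hs

/-- `(v(P ∪ S) + Y) ∩ (v(X \ P) + Y) = v(S) + Y`: `≥` clear, equality of dimensions from
`SepN` (`Submodule.finrank_sup_add_finrank_inf_eq`; the sup is `Sp F v X ⊔ Y`) -/
theorem SepN.inf_eq (hS : S ⊆ X) (hP : SepN (rk F v Y) X S P) :
    (Sp F v (P ∪ S) ⊔ Y) ⊓ (Sp F v (X \ P) ⊔ Y) = Sp F v S ⊔ Y := by
  have hSP : S ⊆ X \ P := BlkE1_sub hS hP
  have hU : (Sp F v (P ∪ S) ⊔ Y) ⊔ (Sp F v (X \ P) ⊔ Y) = Sp F v X ⊔ Y := by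
    rw [sup_sup_sup_comm, sup_idem, ← Sp_union]
    congr 2
    ext a
    have h1 : a ∈ P → a ∈ X := fun h => (Finset.mem_sdiff.1 (hP.1 h)).1
    have h2 : a ∈ S → a ∈ X := fun h => hS h
    simp only [Finset.mem_union, Finset.mem_sdiff]
    tauto
  symm
  refine Submodule.eq_of_le_of_finrank_le (le_inf (sup_le_sup_right (Sp_mono
    Finset.subset_union_right) _) (sup_le_sup_right (Sp_mono hSP) _)) ?_
  have h1 := Submodule.finrank_sup_add_finrank_inf_eq (Sp F v (P ∪ S) ⊔ Y) (Sp F v (X \ P) ⊔ Y)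
  rw [hU] at h1
  have h2 := hP.2
  unfold rk at h2
  omega

/-- `b = a₁ + p + y` with `a₁ ∈ v(A \ P)`, `p ∈ v(A ∩ P)`, `y ∈ Y`; `p` is in
`(v(P ∪ S) + Y) ∩ (v(X \ P) + Y)` -/
theorem sep_step (hS : S ⊆ X) (hP : SepN (rk F v Y) X S P) {A : Finset α} (hSA : S ⊆ A)
    (hAX : A ⊆ X) {b : V} (hb : b ∈ Sp F v A ⊔ Y) (hb' : b ∈ Sp F v (X \ P) ⊔ Y) :
    b ∈ Sp F v (A \ P) ⊔ Y := by
  have hA : A = (A \ P) ∪ (A ∩ P) := by
    ext a; simp only [Finset.mem_union, Finset.mem_sdiff, Finset.mem_inter]; tauto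
  rw [hA, Sp_union] at hb
  obtain ⟨c, hc, y, hy, rfl⟩ := Submodule.mem_sup.1 hb
  obtain ⟨a, ha, p, hp, rfl⟩ := Submodule.mem_sup.1 hc
  have h1 : p ∈ Sp F v (X \ P) ⊔ Y := by
    have h2 : a ∈ Sp F v (X \ P) ⊔ Y :=
      mem_sup_left (Sp_mono (Finset.sdiff_subset_sdiff hAX (Finset.Subset.refl P)) ha)
    have h3 : y ∈ Sp F v (X \ P) ⊔ Y := mem_sup_right hy
    have h4 := sub_mem (sub_mem hb' h3) h2
    have h5 : a + p + y - y - a = p := by abel
    rwa [h5] at h4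
  have h6 : p ∈ Sp F v (P ∪ S) ⊔ Y :=
    mem_sup_left (Sp_mono (Finset.inter_subset_right.trans Finset.subset_union_left) hp)
  have h7 : p ∈ Sp F v S ⊔ Y := by
    rw [← SepN.inf_eq hS hP]
    exact ⟨h6, h1⟩
  have hS' : S ⊆ A \ P := by
    intro s hs
    have h8 := BlkE1_sub hS hP hs
    exact Finset.mem_sdiff.2 ⟨hSA hs, (Finset.mem_sdiff.1 h8).2⟩
  exact add_mem (add_mem (mem_sup_left ha) ((sup_le_sup_right (Sp_mono hS') Y) h7))
    (mem_sup_right hy)

/-- Induction over the finite set of all separators with at most `t` elements (`sep_step`); they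
cover `X \ S`. -/
theorem mem_of_forall_sep (hS : S ⊆ X) {t : ℕ}
    (hc : ∀ x ∈ X \ S, ∃ P, SepN (rk F v Y) X S P ∧ x ∈ P ∧ P.card ≤ t) {b : V}
    (hX : b ∈ Sp F v X ⊔ Y)
    (h : ∀ P, SepN (rk F v Y) X S P → P.card ≤ t → b ∈ Sp F v (X \ P) ⊔ Y) :
    b ∈ Sp F v S ⊔ Y := by
  classical
  have key : ∀ Q : Finset (Finset α), (∀ P ∈ Q, SepN (rk F v Y) X S P ∧ P.card ≤ t) →
      b ∈ Sp F v (X \ Q.sup id) ⊔ Y := by
    intro Q
    induction Q using Finset.induction_on with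
    | empty =>
      intro _
      rw [Finset.sup_empty, Finset.bot_eq_empty, Finset.sdiff_empty]
      exact hX
    | insert P Q hPQ ih =>
      intro hQ
      have h1 := ih (fun P' hP' => hQ P' (Finset.mem_insert_of_mem hP'))
      have h2 := hQ P (Finset.mem_insert_self _ _)
      have hSA : S ⊆ X \ Q.sup id := by
        intro s hs
        refine Finset.mem_sdiff.2 ⟨hS hs, ?_⟩
        intro hs'
        obtain ⟨P', hP', hsP'⟩ := Finset.mem_sup.1 hs'
        have h3 := (hQ P' (Finset.mem_insert_of_mem hP')).1.1 hsP'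
        exact (Finset.mem_sdiff.1 h3).2 hs
      have h4 := sep_step hS h2.1 hSA Finset.sdiff_subset h1 (h P h2.1 h2.2)
      have h5 : (X \ Q.sup id) \ P = X \ (insert P Q).sup id := by
        rw [Finset.sup_insert, id, Finset.sup_eq_union]
        ext a; simp only [Finset.mem_sdiff, Finset.mem_union]; tauto
      rwa [h5] at h4
  choose! f hf using hc
  have h1 := key ((X \ S).image f) (by
    intro P hP
    obtain ⟨x, hx, rfl⟩ := Finset.mem_image.1 hP
    exact ⟨(hf x hx).1, (hf x hx).2.2⟩)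
  refine (sup_le_sup_right (Sp_mono ?_) Y) h1
  intro x hx
  by_contra hxS
  have h2 := Finset.mem_sdiff.1 hx
  have h3 : x ∈ X \ S := Finset.mem_sdiff.2 ⟨h2.1, hxS⟩
  exact h2.2 (Finset.mem_sup.2 ⟨f x, Finset.mem_image_of_mem f h3, (hf x h3).2.1⟩)

end Pool.MP_4929df_co.H92
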