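import Pool.Agent.W_4929df_h92.BlkD
import Pool.Agent.W_4929df_h92.BlkE1

/-!
The choice of `R` (proofs row 572, step 5 (d)).
-/

set_option autoImplicit false

namespace Pool.MP_4929df_co.H92

open Submodule

variable {F : Type} [Field F] {V : Type} [AddCommGroup V] [Module F V] [FiniteDimensional F V]
  {α : Type} [DecidableEq α] {v : α → V} {Y : Submodule F V} {X S : Finset α}

omit [FiniteDimensional F V] [DecidableEq α] in
theorem BlkE2_mono {A B : Finset α} (h : A ⊆ B) : Sp F v A ⊔ Y ≤ Sp F v B ⊔ Y :=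
  sup_le_sup_right (Sp_mono h) _

omit [FiniteDimensional F V] in
theorem BlkE2_symm {W : Submodule F V} {a b : V} (h : Ind2 W a b) : Ind2 W b a := by
  intro x y hxy
  have := h y x (by rwa [add_comm])
  exact ⟨this.2, this.1⟩

omit [FiniteDimensional F V] in
theorem BlkE2_dep {W : Submodule F V} {a b : V} (h : ¬ Ind2 W a b) :
    ∃ x y : F, x • a + y • b ∈ W ∧ (x = 0 → y ≠ 0) := by
  unfold Ind2 at h
  push Not at h
  obtain ⟨x, y, h1, h2⟩ := h
  exact ⟨x, y, h1, h2⟩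

omit [FiniteDimensional F V] in
theorem BlkE2_smul {W : Submodule F V} {x : F} {a : V} (h : x • a ∈ W) (ha : a ∉ W) : x = 0 := by
  by_contra hx
  exact ha ((Submodule.smul_mem_iff _ hx).1 h)

omit [FiniteDimensional F V] in
theorem BlkE2_dep2 {W : Submodule F V} {a b : V} (h : ¬ Ind2 W a b) (hb : b ∉ W) :
    ∃ c : F, a - c • b ∈ W := by
  obtain ⟨x, y, h1, h2⟩ := BlkE2_dep h
  have hx : x ≠ 0 := by
    intro hx
    subst hx
    rw [zero_smul, zero_add] at h1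
    exact h2 rfl (BlkE2_smul h1 hb)
  refine ⟨-(y / x), ?_⟩
  have h3 : x • (a - -(y / x) • b) ∈ W := by
    convert h1 using 1
    rw [neg_smul, sub_neg_eq_add, smul_add, smul_smul, mul_div_cancel₀ _ hx]
  exact (Submodule.smul_mem_iff _ hx).1 h3

/-- (i). By contradiction: `a ∉ v(X \ P) + Y` for some small `P` (`mem_of_forall_sep`, otherwise
`a ∈ v(S) + Y`, contradiction to `Ind2`). With `P' = P`: `a, b` are dependent modulo
`v(X \ P) + Y`, so `b - c • a ∈ v(X \ P) + Y`. For every small `P'` a dependence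
`x • a + y • b ∈ v(X \ (P ∪ P')) + Y ≤ v(X \ P) + Y` has `x + y * c = 0`, so `y ≠ 0` and
`b - c • a ∈ v(X \ P') + Y`. `mem_of_forall_sep`: `b - c • a ∈ v(S) + Y`. -/
theorem exists_pair (hS : S ⊆ X) (hX : Sp F v X ⊔ Y = ⊤) {t : ℕ}
    (hc : ∀ x ∈ X \ S, ∃ P, SepN (rk F v Y) X S P ∧ x ∈ P ∧ P.card ≤ t) {a b : V}
    (h : Ind2 (Sp F v S ⊔ Y) a b) :
    ∃ P P', SepN (rk F v Y) X S P ∧ P.card ≤ t ∧ SepN (rk F v Y) X S P' ∧ P'.card ≤ t ∧
      Ind2 (Sp F v (X \ (P ∪ P')) ⊔ Y) a b := by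
  by_contra hcon
  push Not at hcon
  have ha : a ∉ Sp F v S ⊔ Y := by
    intro ha
    have := (h 1 0 (by simpa using ha)).1
    exact one_ne_zero this
  obtain ⟨P, hP, hPt, haP⟩ : ∃ P, SepN (rk F v Y) X S P ∧ P.card ≤ t ∧
      a ∉ Sp F v (X \ P) ⊔ Y := by
    by_contra hno
    push Not at hno
    exact ha (mem_of_forall_sep hS hc (by rw [hX]; trivial) hno)
  have h1 := hcon P P hP hPt hP hPt
  rw [Finset.union_idempotent] at h1
  obtain ⟨c, hbc⟩ := BlkE2_dep2 (fun h2 => h1 (BlkE2_symm h2)) haP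
  have hall : ∀ P', SepN (rk F v Y) X S P' → P'.card ≤ t →
      b - c • a ∈ Sp F v (X \ P') ⊔ Y := by
    intro P' hP' hPt'
    obtain ⟨x, y, h3, h4⟩ := BlkE2_dep (hcon P P' hP hPt hP' hPt')
    have h5 : x • a + y • b ∈ Sp F v (X \ P) ⊔ Y :=
      BlkE2_mono (Finset.sdiff_subset_sdiff (Finset.Subset.refl _)
        Finset.subset_union_left) h3
    have h6 : (x + y * c) • a ∈ Sp F v (X \ P) ⊔ Y := by
      have h7 := Submodule.sub_mem _ h5 (Submodule.smul_mem _ y hbc)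
      convert h7 using 1
      rw [smul_sub, smul_smul, add_smul]
      abel
    have h8 : x + y * c = 0 := BlkE2_smul h6 haP
    have hy : y ≠ 0 := by
      intro hy
      subst hy
      rw [zero_mul, add_zero] at h8
      exact h4 h8 rfl
    have h9 : y • (b - c • a) ∈ Sp F v (X \ P') ⊔ Y := by
      have h10 : x • a + y • b ∈ Sp F v (X \ P') ⊔ Y :=
        BlkE2_mono (Finset.sdiff_subset_sdiff (Finset.Subset.refl _)
          Finset.subset_union_right) h3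
      convert h10 using 1
      have h11 : x = -(y * c) := eq_neg_of_add_eq_zero_left h8
      rw [h11, smul_sub, smul_smul, neg_smul]
      abel
    exact (Submodule.smul_mem_iff _ hy).1 h9
  have h12 := mem_of_forall_sep hS hc (by rw [hX]; trivial) hall
  have h13 := (h (-c) 1 (by
    convert h12 using 1
    rw [neg_smul, one_smul]
    abel)).2
  exact one_ne_zero h13

/-- (iii). `s = a - c • b ∈ v(S) + Y` is not in `Y` (`h`). `P` small with `b ∉ v(X \ P) + Y`. If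
`x • a + y • b = x • s + (x * c + y) • b` is in `v(T \ P) + Y ≤ v(X \ P) + Y`, then
`x * c + y = 0`, and `x • s` is in `(v(T) + Y) ∩ (v(S) + Y) = Y` (`Bas.inf_eq`). -/
theorem exists_one (hS : S ⊆ X) (hX : Sp F v X ⊔ Y = ⊤) {t : ℕ}
    (hc : ∀ x ∈ X \ S, ∃ P, SepN (rk F v Y) X S P ∧ x ∈ P ∧ P.card ≤ t) {a b : V}
    (h : Ind2 Y a b) (hb : b ∉ Sp F v S ⊔ Y) {c : F} (hac : a - c • b ∈ Sp F v S ⊔ Y) :
    ∃ P, SepN (rk F v Y) X S P ∧ P.card ≤ t ∧
      ∀ T, Bas (rk F v Y) X S T → Ind2 (Sp F v (T \ P) ⊔ Y) a b := by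
  obtain ⟨P, hP, hPt, hbP⟩ : ∃ P, SepN (rk F v Y) X S P ∧ P.card ≤ t ∧
      b ∉ Sp F v (X \ P) ⊔ Y := by
    by_contra hno
    push Not at hno
    exact hb (mem_of_forall_sep hS hc (by rw [hX]; trivial) hno)
  refine ⟨P, hP, hPt, fun T hT x y hxy => ?_⟩
  have hTX : T ⊆ X := hT.sub.trans Finset.sdiff_subset
  have hSP : S ⊆ X \ P := by
    intro z hz
    rw [Finset.mem_sdiff]
    refine ⟨hS hz, fun hzP => ?_⟩
    exact (Finset.mem_sdiff.1 (hP.1 hzP)).2 hz
  have h1 : x • a + y • b ∈ Sp F v (X \ P) ⊔ Y :=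
    BlkE2_mono (Finset.sdiff_subset_sdiff hTX (Finset.Subset.refl _)) hxy
  have h2 : x • (a - c • b) ∈ Sp F v (X \ P) ⊔ Y :=
    Submodule.smul_mem _ x (BlkE2_mono hSP hac)
  have h3 : (x * c + y) • b ∈ Sp F v (X \ P) ⊔ Y := by
    have h4 := Submodule.sub_mem _ h1 h2
    convert h4 using 1
    rw [smul_sub, smul_smul, add_smul]
    abel
  have h5 : x * c + y = 0 := BlkE2_smul h3 hbP
  have h6 : x • (a - c • b) ∈ Y := by
    rw [← Bas.inf_eq hS hT]
    refine Submodule.mem_inf.2 ⟨?_, Submodule.smul_mem _ x hac⟩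
    have h7 : x • a + y • b ∈ Sp F v T ⊔ Y :=
      BlkE2_mono Finset.sdiff_subset hxy
    convert h7 using 1
    have h8 : y = -(x * c) := eq_neg_of_add_eq_zero_right h5
    rw [h8, smul_sub, smul_smul, neg_smul]
    abel
  have h9 := h x (-(x * c)) (by
    convert h6 using 1
    rw [smul_sub, smul_smul, neg_smul]
    abel)
  refine ⟨h9.1, ?_⟩
  rw [h9.1, zero_mul, zero_add] at h5
  exact h5

/-- (d). Cases: `Ind2 (v(S) + Y) a b`: `exists_pair`, `R = P ∪ P'` (`SepN.union`,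
`T \ R ⊆ X \ R`). Both in `v(S) + Y`: `R = ∅`, `Bas.inf_eq`. Otherwise `exists_one` for `a, b` or
`b, a` (`Ind2` is symmetric). -/
theorem exists_R (hS : S ⊆ X) (hX : Sp F v X ⊔ Y = ⊤) {t : ℕ}
    (hc : ∀ x ∈ X \ S, ∃ P, SepN (rk F v Y) X S P ∧ x ∈ P ∧ P.card ≤ t) {a b : V}
    (h : Ind2 Y a b) :
    ∃ R, SepN (rk F v Y) X S R ∧ R.card ≤ 2 * t ∧
      ∀ T, Bas (rk F v Y) X S T → Ind2 (Sp F v (T \ R) ⊔ Y) a b := by
  by_cases h1 : Ind2 (Sp F v S ⊔ Y) a b
  · obtain ⟨P, P', hP, hPt, hP', hPt', h2⟩ := exists_pair hS hX hc h1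
    refine ⟨P ∪ P', SepN.union (rk_isRk v Y) hS hP hP', ?_, fun T hT => h2.mono ?_⟩
    · have := Finset.card_union_le P P'
      omega
    · have hTX : T ⊆ X := hT.sub.trans Finset.sdiff_subset
      exact sup_le_sup_right (Sp_mono (Finset.sdiff_subset_sdiff hTX (Finset.Subset.refl _))) _
  · by_cases hb : b ∈ Sp F v S ⊔ Y
    · by_cases ha : a ∈ Sp F v S ⊔ Y
      · refine ⟨∅, SepN.empty, by simp, fun T hT x y hxy => h x y ?_⟩
        rw [← Bas.inf_eq hS hT]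
        rw [Finset.sdiff_empty] at hxy
        exact Submodule.mem_inf.2 ⟨hxy, Submodule.add_mem _ (Submodule.smul_mem _ x ha) (Submodule.smul_mem _ y hb)⟩
      · obtain ⟨P, hP, hPt, h2⟩ := exists_one hS hX hc (BlkE2_symm h) ha (c := 0)
          (by simpa using hb)
        exact ⟨P, hP, by omega, fun T hT => BlkE2_symm (h2 T hT)⟩
    · obtain ⟨c, hac⟩ := BlkE2_dep2 h1 hb
      obtain ⟨P, hP, hPt, h2⟩ := exists_one hS hX hc h hb hac
      exact ⟨P, hP, by omega, h2⟩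

end Pool.MP_4929df_co.H92
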