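import Pool.Agent.W_4929df_h92.BlkD2
import Pool.Agent.W_4929df_h92.BlkE2

/-!
Most bases separate (proofs row 572, step 5 (f), (g)).
-/

set_option autoImplicit false

namespace Pool.MP_4929df_co.H92

open Submodule

/-- Counting: choose `T' = Φ T`; `Φ` maps `𝔅` to `𝔅.filter p`, and the fibre over `T'` consists of
sets `T` with `T \ R = T' \ R`, which are determined by `T ∩ R`
(`Finset.card_le_mul_card_image` or `Finset.card_eq_sum_card_fiberwise`). -/
theorem card_le_of_modify {α : Type} [DecidableEq α] (𝔅 : Finset (Finset α))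
    (p : Finset α → Prop) [DecidablePred p] (R : Finset α)
    (h : ∀ T ∈ 𝔅, ∃ T' ∈ 𝔅, p T' ∧ T' \ R = T \ R) :
    𝔅.card ≤ 2 ^ R.card * (𝔅.filter p).card := by
  classical
  let f : Finset α → Finset α := fun T => if hT : T ∈ 𝔅 then (h T hT).choose else T
  have hf : ∀ T ∈ 𝔅, f T ∈ 𝔅 ∧ p (f T) ∧ f T \ R = T \ R := by
    intro T hT
    simp only [f, dif_pos hT]
    exact (h T hT).choose_spec
  refine Finset.card_le_mul_card_image_of_maps_to (f := f)
    (fun T hT => Finset.mem_filter.2 ⟨(hf T hT).1, (hf T hT).2.1⟩) _ ?_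
  intro b _
  have hsub : 𝔅.filter (fun a => f a = b) ⊆ R.powerset.image (fun U => b \ R ∪ U) := by
    intro a ha
    rw [Finset.mem_filter] at ha
    rw [Finset.mem_image]
    refine ⟨a ∩ R, Finset.mem_powerset.2 Finset.inter_subset_right, ?_⟩
    rw [← ha.2, (hf a ha.1).2.2]
    exact Finset.sdiff_union_inter a R
  exact (Finset.card_le_card hsub).trans (Finset.card_image_le.trans (Finset.card_powerset R).le)

open Classical in
/-- the finite set of the bases of `N / S` -/
noncomputable def bases {α : Type} [DecidableEq α] (r : Finset α → ℕ) (X S : Finset α) :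
    Finset (Finset α) := (X \ S).powerset.filter (fun T => Bas r X S T)

theorem mem_bases {α : Type} [DecidableEq α] {r : Finset α → ℕ} {X S T : Finset α} :
    T ∈ bases r X S ↔ Bas r X S T := by
  classical
  unfold bases
  rw [Finset.mem_filter, Finset.mem_powerset]
  exact ⟨fun h => h.2, fun h => ⟨h.sub, h⟩⟩

variable {F : Type} [Field F] {V : Type} [AddCommGroup V] [Module F V] [FiniteDimensional F V]
  {α : Type} [DecidableEq α] {v : α → V} {Y : Submodule F V} {X S : Finset α}

open Classical in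
/-- (f): `exists_R`, `exists_link`, `card_le_of_modify`, `2 ^ (2 * t) = 4 ^ t` -/
theorem count_ind (hS : S ⊆ X) (hX : Sp F v X ⊔ Y = ⊤) (h3 : ThreeR (rk F v Y) X)
    (hS2 : rk F v Y ∅ + 2 ≤ rk F v Y S) {t : ℕ}
    (hc : ∀ x ∈ X \ S, ∃ P, SepN (rk F v Y) X S P ∧ x ∈ P ∧ P.card ≤ t) {a b : V}
    (h : Ind2 Y a b) :
    (bases (rk F v Y) X S).card ≤
      4 ^ t * ((bases (rk F v Y) X S).filter (fun T => Ind2 (Sp F v T ⊔ Y) a b)).card := by
  obtain ⟨R, hR, hRc, hRT⟩ := exists_R hS hX hc h
  have h1 := card_le_of_modify (bases (rk F v Y) X S) (fun T => Ind2 (Sp F v T ⊔ Y) a b) R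
    (by
      intro T hT
      rw [mem_bases] at hT
      obtain ⟨T', h1, h2, h3⟩ := exists_link hS hX h3 hS2 hT hR (hRT T hT)
      exact ⟨T', mem_bases.2 h1, h3, h2⟩)
  refine h1.trans (Nat.mul_le_mul_right _ ?_)
  calc 2 ^ R.card ≤ 2 ^ (2 * t) := Nat.pow_le_pow_right (by norm_num) hRc
    _ = 4 ^ t := by rw [pow_mul]; norm_num

open Classical in
/-- (g). If `Ind2 Y a b`: `count_ind`, `Ind2.mono`. If `a ∈ Y` and `b ∈ Y`: all bases have
`Sp F v T ⊓ Y = ⊥` (`Bas.indep`). Otherwise `a, b ∉ Y` and `b = c • a + s` with `c ≠ 0`, `s ∈ Y`,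
`s ≠ 0` (`h`); there is `a'` with `Ind2 Y a a'` (`hS2` gives `dim V ≥ dim Y + 2`, so
`Y ⊔ span F {a} ≠ ⊤`); `count_ind` for `a, a'`; if `Ind2 (Sp F v T ⊔ Y) a a'` and
`x • a + y • b ∈ Sp F v T`, then `(x + y * c) • a ∈ Sp F v T ⊔ Y`, so `x + y * c = 0` and
`y • s ∈ Sp F v T ⊓ Y = ⊥`. -/
theorem count_ind' (hS : S ⊆ X) (hX : Sp F v X ⊔ Y = ⊤) (h3 : ThreeR (rk F v Y) X)
    (hS2 : rk F v Y ∅ + 2 ≤ rk F v Y S) {t : ℕ}
    (hc : ∀ x ∈ X \ S, ∃ P, SepN (rk F v Y) X S P ∧ x ∈ P ∧ P.card ≤ t) {a b : V}
    (h : Ind2 (⊥ : Submodule F V) a b) (hY : a ∈ Y ↔ b ∈ Y) :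
    (bases (rk F v Y) X S).card ≤
      4 ^ t * ((bases (rk F v Y) X S).filter (fun T => Ind2 (Sp F v T) a b)).card := by
  have key : ∀ a' : V, Ind2 Y a a' →
      (∀ T, Bas (rk F v Y) X S T → Ind2 (Sp F v T ⊔ Y) a a' → Ind2 (Sp F v T) a b) →
      (bases (rk F v Y) X S).card ≤
        4 ^ t * ((bases (rk F v Y) X S).filter (fun T => Ind2 (Sp F v T) a b)).card := by
    intro a' h1 h2
    refine (count_ind hS hX h3 hS2 hc h1).trans (Nat.mul_le_mul_left _ (Finset.card_le_card ?_))
    intro T hT
    rw [Finset.mem_filter] at hT ⊢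
    exact ⟨hT.1, h2 T (mem_bases.1 hT.1) hT.2⟩
  by_cases h1 : Ind2 Y a b
  · exact key b h1 (fun T _ hI => hI.mono le_sup_left)
  · by_cases ha : a ∈ Y
    · have hb : b ∈ Y := hY.1 ha
      have hall : (bases (rk F v Y) X S).filter (fun T => Ind2 (Sp F v T) a b) =
          bases (rk F v Y) X S := by
        apply Finset.filter_true_of_mem
        intro T hT x y hxy
        have hT' := (Bas.indep hS (mem_bases.1 hT)).1
        apply h
        rw [← hT']
        exact ⟨hxy, Y.add_mem (Y.smul_mem _ ha) (Y.smul_mem _ hb)⟩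
      rw [hall]
      exact Nat.le_mul_of_pos_left _ (by positivity)
    · have hb : b ∉ Y := fun hb => ha (hY.2 hb)
      unfold Ind2 at h1
      push Not at h1
      obtain ⟨x, y, hxy, hne⟩ := h1
      have hy : y ≠ 0 := by
        rintro rfl
        have hx : x ≠ 0 := fun hx => hne hx rfl
        rw [zero_smul, add_zero] at hxy
        exact ha ((Y.smul_mem_iff hx).1 hxy)
      -- the element `s`
      obtain ⟨c, s, hs, hbs⟩ : ∃ (c : F) (s : V), s ∈ Y ∧ b = c • a + s := by
        refine ⟨-(y⁻¹ * x), y⁻¹ • (x • a + y • b), Y.smul_mem _ hxy, ?_⟩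
        rw [smul_add, smul_smul, smul_smul, inv_mul_cancel₀ hy, one_smul, neg_smul]
        abel
      have hs0 : s ≠ 0 := by
        rintro rfl
        have := h (-c) 1 (by
          rw [hbs, add_zero, one_smul, neg_smul, neg_add_cancel]
          exact Submodule.zero_mem _)
        exact one_ne_zero this.2
      obtain ⟨a', ha'⟩ : ∃ a', a' ∉ Y ⊔ span F {a} := by
        by_contra hcon
        push Not at hcon
        have htop : Y ⊔ span F {a} = ⊤ := (Submodule.eq_top_iff').2 hcon
        have h4 : Module.finrank F (Y ⊔ span F {a} : Submodule F V) ≤ Module.finrank F Y + 1 := by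
          refine (Submodule.finrank_add_le_finrank_add_finrank _ _).trans ?_
          have h1 : Module.finrank F (span F {a}) ≤ 1 := by
            simpa using finrank_span_le_card (R := F) ({a} : Set V)
          omega
        rw [htop, finrank_top] at h4
        rw [rk_empty] at hS2
        have h5 : rk F v Y S ≤ Module.finrank F V := Submodule.finrank_le _
        omega
      have hI : Ind2 Y a a' := by
        intro x y hxy
        have hy : y = 0 := by
          by_contra hy
          apply ha'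
          have h6 : y • a' ∈ Y ⊔ span F {a} := by
            have : y • a' = (x • a + y • a') - x • a := by abel
            rw [this]
            exact Submodule.sub_mem _ (mem_sup_left hxy)
              (mem_sup_right (smul_mem _ _ (mem_span_singleton_self a)))
          exact ((Y ⊔ span F {a}).smul_mem_iff hy).1 h6
        subst hy
        rw [zero_smul, add_zero] at hxy
        refine ⟨?_, rfl⟩
        by_contra hx
        exact ha ((Y.smul_mem_iff hx).1 hxy)
      refine key a' hI ?_
      intro T hT hTI x y hxy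
      have e1 : x • a + y • b = (x + y * c) • a + y • s := by
        rw [hbs, smul_add, smul_smul, add_smul, add_assoc]
      have hz : x + y * c = 0 := by
        refine (hTI (x + y * c) 0 ?_).1
        rw [zero_smul, add_zero]
        have : (x + y * c) • a = (x • a + y • b) - y • s := by rw [e1]; abel
        rw [this]
        exact Submodule.sub_mem _ (mem_sup_left hxy) (mem_sup_right (Y.smul_mem _ hs))
      have hys : y • s ∈ Sp F v T ⊓ Y := by
        refine ⟨?_, Y.smul_mem _ hs⟩
        rw [e1, hz, zero_smul, zero_add] at hxy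
        exact hxy
      rw [(Bas.indep hS hT).1, Submodule.mem_bot, smul_eq_zero] at hys
      rcases hys with hy0 | hs'
      · subst hy0
        rw [zero_mul, add_zero] at hz
        exact ⟨hz, rfl⟩
      · exact absurd hs' hs0

end Pool.MP_4929df_co.H92
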