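import Mathlib

/-!
Nested classes of functions (proofs row 572, step 3).
-/

set_option autoImplicit false

namespace Pool.MP_4929df_co.H92

/-- Induction on `m` (with `N` for `m + 1` equal to `K * (N_m + 1) + 1`). There are two functions
that differ at some `e₀`. By the pigeonhole principle some value `p₀` at `e₀` is taken by more than
`N_m` of the functions (`Nat.card` of the subtype `ι' = {i // g i e₀ = p₀}`); some function has
another value at `e₀` (call it `h₀`). Apply the induction hypothesis to `ι'` and use `Fin.cons`. -/
theorem nested (K m : ℕ) : ∃ N : ℕ, ∀ (ι α W : Type) [Finite ι] (g : ι → α → W),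
    (∀ x, (Set.range fun i => g i x).ncard ≤ K) → Function.Injective g → N < Nat.card ι →
    ∃ (e : Fin m → α) (p : Fin m → W) (s : ι) (h : Fin m → ι), (∀ k, g s (e k) = p k) ∧
      (∀ k, g (h k) (e k) ≠ p k) ∧ ∀ i k, i < k → g (h k) (e i) = p i := by
  classical
  induction m with
  | zero =>
    refine ⟨0, ?_⟩
    intro ι α W _ g _ _ hc
    obtain ⟨s⟩ : Nonempty ι := (Nat.card_pos_iff.1 hc).1
    exact ⟨Fin.elim0, Fin.elim0, s, Fin.elim0, fun k => k.elim0, fun k => k.elim0,
      fun i => i.elim0⟩
  | succ m ih =>
    obtain ⟨N, hN⟩ := ih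
    refine ⟨K * (N + 1) + 1, ?_⟩
    intro ι α W _ g hK hg hc
    have := Fintype.ofFinite ι
    rw [Nat.card_eq_fintype_card] at hc
    have h2 : 1 < Fintype.card ι := by omega
    obtain ⟨a, b, hab⟩ := Fintype.exists_pair_of_one_lt_card h2
    obtain ⟨e₀, he₀⟩ : ∃ x, g a x ≠ g b x := by
      by_contra hcon
      push Not at hcon
      exact hab (hg (funext hcon))
    have hcard : ((Finset.univ : Finset ι).image fun i => g i e₀).card ≤ K := by
      have h3 := hK e₀
      have h4 : (Set.range fun i => g i e₀) =
          (((Finset.univ : Finset ι).image fun i => g i e₀ : Finset W) : Set W) := by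
        ext w
        simp
      rw [h4, Set.ncard_coe_finset] at h3
      exact h3
    obtain ⟨p₀, -, hp₀⟩ := Finset.exists_lt_card_fiber_of_mul_lt_card_of_maps_to
      (s := (Finset.univ : Finset ι)) (t := (Finset.univ : Finset ι).image fun i => g i e₀)
      (f := fun i => g i e₀) (n := N) (fun i hi => Finset.mem_image_of_mem _ hi) (by
        rw [Finset.card_univ]
        have h5 := Nat.mul_le_mul_right N hcard
        have h6 : K * (N + 1) = K * N + K := by ring
        omega)
    obtain ⟨h₀, hh₀⟩ : ∃ i, g i e₀ ≠ p₀ := by
      by_contra hcon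
      push Not at hcon
      exact he₀ ((hcon a).trans (hcon b).symm)
    obtain ⟨e, p, s, h, h1, h3, h4⟩ := hN {i : ι // g i e₀ = p₀} α W (fun i => g i.1) (by
        intro x
        refine le_trans (Set.ncard_le_ncard ?_ (Set.finite_range _)) (hK x)
        rintro w ⟨i, rfl⟩
        exact ⟨i.1, rfl⟩) (hg.comp Subtype.val_injective) (by
        rw [Nat.card_eq_fintype_card, Fintype.card_subtype]
        exact hp₀)
    refine ⟨Fin.cons e₀ e, Fin.cons p₀ p, s.1, Fin.cons h₀ fun k => (h k).1, ?_, ?_, ?_⟩
    · intro k
      refine Fin.cases ?_ (fun k => ?_) k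
      · simpa using s.2
      · simpa using h1 k
    · intro k
      refine Fin.cases ?_ (fun k => ?_) k
      · simpa using hh₀
      · simpa using h3 k
    · intro i k
      refine Fin.cases ?_ (fun k => ?_) k
      · intro hik
        exact absurd hik (Fin.not_lt_zero i)
      · refine Fin.cases ?_ (fun i => ?_) i
        · intro _
          simpa using (h k).2
        · intro hik
          simpa using h4 i k (Fin.succ_lt_succ_iff.1 hik)

end Pool.MP_4929df_co.H92
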