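import Pool.Agent.W_4929df_h92.BlkG
import Pool.Agent.W_78bee8_h33.Ramsey

/-!
Extraction of toggles (proofs row 572, step 3).
-/

set_option autoImplicit false

namespace Pool.MP_4929df_co.H92

theorem BlkG2_lab {W : Type} (K : ℕ) (S : Set W) (hf : S.Finite) (hc : S.ncard ≤ K) :
    ∃ f : W → Fin (K + 1), Set.InjOn f S := by
  classical
  have : Fintype S := hf.fintype
  have hcard : Fintype.card S ≤ Fintype.card (Fin (K + 1)) := by
    rw [Fintype.card_fin, ← Nat.card_eq_fintype_card, Nat.card_coe_set_eq]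
    omega
  obtain ⟨emb⟩ := Function.Embedding.nonempty_of_card_le hcard
  refine ⟨fun w => if h : w ∈ S then emb ⟨w, h⟩ else 0, ?_⟩
  intro x hx y hy hxy
  simp only [hx, hy, dif_pos] at hxy
  have := emb.injective hxy
  simpa using this

/-- `nested K m` with `m` from `U78.ramsey 2 (Fin (K + 1) × Fin (K + 1)) (2 * n + 3)`: for each `k`
number the at most `K` values at `e k` (an injection `lab k` from `Set.range fun i => g i (e k)`
into `Fin (K + 1)`), and colour the pair `j < k` by `(lab k (g (h j) (e k)), lab k (p k))`. Let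
`J : Fin (2 * n + 3) ↪o Fin m` be monochromatic with colour `(x, y)`. If `x = y`:
`g (h j) (e k) = p k` for all `j < k` in `J`; take `a = p`, `b k = g (h k) (e k)` on `J`
(members `s` and `h i`). If `x ≠ y`: `g (h j) (e k)` is the same value `s k ≠ p k` for all `j < k` in
`J`; take the elements with the numbers `2 * i + 1`, `a = s`, `b = p`; for `i < k` the members
`h` of number `2 * i` (values `s, s`) and `2 * i + 2` (values `p, s`). -/
theorem extraction (K n : ℕ) : ∃ N : ℕ, ∀ (ι α W : Type) [Finite ι] (g : ι → α → W),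
    (∀ x, (Set.range fun i => g i x).ncard ≤ K) → Function.Injective g → N < Nat.card ι →
    ∃ (e : Fin n → α) (a b : Fin n → W), (∀ k, a k ≠ b k) ∧ ∀ i k, i < k →
      (∃ j, g j (e i) = a i ∧ g j (e k) = a k) ∧ ∃ j, g j (e i) = b i ∧ g j (e k) = a k := by
  classical
  obtain ⟨m, hm⟩ := U78.ramsey 2 (Fin (K + 1) × Fin (K + 1)) (2 * n + 3)
  obtain ⟨N, hN⟩ := nested K m
  refine ⟨N, ?_⟩
  intro ι α W _ g hb hinj hcard
  obtain ⟨e, p, s, h, hs, hne, hlt⟩ := hN ι α W g hb hinj hcard
  have hlab : ∀ k : Fin m, ∃ f : W → Fin (K + 1), Set.InjOn f (Set.range fun i => g i (e k)) :=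
    fun k => BlkG2_lab K _ (Set.finite_range _) (hb _)
  choose lab hlab using hlab
  have hp : ∀ k, p k ∈ Set.range fun i => g i (e k) := fun k => ⟨s, hs k⟩
  obtain ⟨J, hJ⟩ := hm (fun t => (lab (t 1) (g (h (t 0)) (e (t 1))), lab (t 1) (p (t 1))))
  have hpair : ∀ j k : Fin (2 * n + 3), j < k → ∃ t : Fin 2 ↪o Fin (2 * n + 3), t 0 = j ∧ t 1 = k := by
    intro j k hjk
    have hmono : StrictMono (![j, k] : Fin 2 → Fin (2 * n + 3)) := by
      intro a b hab
      fin_cases a <;> fin_cases b <;> simp_all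
    exact ⟨OrderEmbedding.ofStrictMono _ hmono, rfl, rfl⟩
  have hcol : ∀ j k j' k' : Fin (2 * n + 3), j < k → j' < k' →
      lab (J k) (g (h (J j)) (e (J k))) = lab (J k') (g (h (J j')) (e (J k'))) ∧
      lab (J k) (p (J k)) = lab (J k') (p (J k')) := by
    intro j k j' k' h1 h2
    obtain ⟨t, ht0, ht1⟩ := hpair j k h1
    obtain ⟨t', ht0', ht1'⟩ := hpair j' k' h2
    have := hJ t t'
    simp only [RelEmbedding.coe_trans, Function.comp_apply, ht0, ht1, ht0', ht1', Prod.mk.injEq]
      at this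
    exact this
  let z : Fin (2 * n + 3) := ⟨0, by omega⟩
  let o : Fin (2 * n + 3) := ⟨1, by omega⟩
  have hzo : z < o := by simp [z, o]
  by_cases hxy : lab (J o) (g (h (J z)) (e (J o))) = lab (J o) (p (J o))
  · -- equal colours
    have hval : ∀ j k : Fin (2 * n + 3), j < k → g (h (J j)) (e (J k)) = p (J k) := by
      intro j k hjk
      obtain ⟨h1, h2⟩ := hcol j k z o hjk hzo
      refine hlab (J k) ⟨h (J j), rfl⟩ (hp _) ?_
      rw [h1, h2, hxy]
    let c : Fin n → Fin (2 * n + 3) := fun k => ⟨k.1, by omega⟩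
    refine ⟨fun k => e (J (c k)), fun k => p (J (c k)), fun k => g (h (J (c k))) (e (J (c k))),
      fun k => (hne _).symm, ?_⟩
    intro i k hik
    have hc : c i < c k := by simp only [c, Fin.lt_def]; exact hik
    exact ⟨⟨s, hs _, hs _⟩, ⟨h (J (c i)), rfl, hval _ _ hc⟩⟩
  · -- different colours
    let c : Fin n → Fin (2 * n + 3) := fun k => ⟨2 * k.1 + 1, by omega⟩
    let d : Fin n → Fin (2 * n + 3) := fun k => ⟨2 * k.1 + 2, by omega⟩
    have hzc : ∀ k, z < c k := fun k => by simp [z, c, Fin.lt_def]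
    refine ⟨fun k => e (J (c k)), fun k => g (h (J z)) (e (J (c k))), fun k => p (J (c k)),
      ?_, ?_⟩
    · intro k hk
      obtain ⟨h1, h2⟩ := hcol z (c k) z o (hzc k) hzo
      apply hxy
      rw [← h1, ← h2]
      exact congrArg _ hk
    · intro i k hik
      have hdk : d i < c k := by
        simp only [d, c, Fin.lt_def]
        have : i.1 < k.1 := hik
        omega
      have hcd : c i < d i := by simp [c, d, Fin.lt_def]
      refine ⟨⟨h (J z), rfl, rfl⟩, ⟨h (J (d i)), ?_, ?_⟩⟩
      · exact hlt _ _ (J.strictMono hcd)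
      · obtain ⟨h1, _⟩ := hcol (d i) (c k) z (c k) hdk (hzc k)
        exact hlab (J (c k)) ⟨h (J (d i)), rfl⟩ ⟨h (J z), rfl⟩ h1

end Pool.MP_4929df_co.H92
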