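import Pool.Agent.W_4929df_h92.BlkC
import Pool.Agent.W_4929df_h92.BinB1

/-!
The counting principle (proofs row 572, step 4).
-/

set_option autoImplicit false

namespace Pool.MP_4929df_co.H92

open Submodule

variable {F : Type} [Field F] {V : Type} [AddCommGroup V] [Module F V] [FiniteDimensional F V]
  {α : Type} [Fintype α] [DecidableEq α] {v : α → V}

/-- If `i < k` are both separated by `T`, then `a k - a i ∉ Sp F v T`: otherwise
`dim (v(T) + span {a i} + span {a k}) = dim v(T) + 1` (`a i ∉ v(T)`), by `SameRk` (the set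
`T ∪ {e i, e k}`, `f j = v` on `T`) also `dim (v(T) + span {b i} + span {a k}) = dim v(T) + 1`;
`a k ∉ v(T)`, so `b i ∈ v(T) + span {a k} = v(T) + span {a i}`, contradiction to `Ind2`. -/
theorem sep_inj {ι : Type} {f : ι → α → V} {T : Finset α} (hfv : ∀ i, ∀ x ∈ T, f i x = v x)
    (hrk : ∀ i j, SameRk (F := F) (F' := F) Finset.univ (f i) (f j)) {x y : α} {a a' b : V}
    (h1 : ∃ j, span F {f j x} = span F {a} ∧ span F {f j y} = span F {a'})
    (h2 : ∃ j, span F {f j x} = span F {b} ∧ span F {f j y} = span F {a'})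
    (hi : Ind2 (Sp F v T) a b) (hk : a' ∉ Sp F v T) : a' - a ∉ Sp F v T := by
  intro hmem
  obtain ⟨j1, hx1, hy1⟩ := h1
  obtain ⟨j2, hx2, hy2⟩ := h2
  have hSp : ∀ j, Sp F (f j) T = Sp F v T := by
    intro j
    unfold Sp
    congr 1
    exact Set.image_congr (fun z hz => hfv j z hz)
  have m1 : f j1 y ∈ Sp F (f j1) (insert x T) := by
    rw [BinB1_mem_insert]
    have e1 : f j1 y ∈ span F {a'} := by
      rw [← hy1]; exact Submodule.mem_span_singleton_self _
    obtain ⟨c, hc⟩ := Submodule.mem_span_singleton.1 e1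
    have e2 : a ∈ span F {f j1 x} := by
      rw [hx1]; exact Submodule.mem_span_singleton_self _
    obtain ⟨d, hd⟩ := Submodule.mem_span_singleton.1 e2
    refine ⟨c * d, c • (a' - a), ?_, ?_⟩
    · rw [hSp]; exact Submodule.smul_mem _ _ hmem
    · rw [mul_smul, hd, ← hc, smul_sub]; abel
  have m2 : f j2 y ∈ Sp F (f j2) (insert x T) :=
    ((hrk j1 j2).mem (Finset.subset_univ _) (Finset.mem_univ _)).1 m1
  rw [BinB1_mem_insert] at m2
  obtain ⟨t, w, hw, hty⟩ := m2
  rw [hSp] at hw
  have e3 : a' ∈ span F {f j2 y} := by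
    rw [hy2]; exact Submodule.mem_span_singleton_self _
  obtain ⟨s, hs⟩ := Submodule.mem_span_singleton.1 e3
  have e4 : f j2 x ∈ span F {b} := by
    rw [← hx2]; exact Submodule.mem_span_singleton_self _
  obtain ⟨r, hr⟩ := Submodule.mem_span_singleton.1 e4
  have key : (1 : F) • a + (-(s * (t * r))) • b ∈ Sp F v T := by
    have e5 : (1 : F) • a + (-(s * (t * r))) • b = s • w - (a' - a) := by
      rw [← hs, ← hty, ← hr, one_smul, neg_smul, smul_add, smul_smul, smul_smul, mul_assoc]
      abel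
    rw [e5]
    exact Submodule.sub_mem _ (Submodule.smul_mem _ _ hw) hmem
  exact one_ne_zero (hi _ _ key).1

/-- The map `k ↦ mkQ (a k)` to `V ⧸ Sp F v T` is injective on the separated indices (`sep_inj`). -/
theorem card_sep [Finite F] {ι : Type} {f : ι → α → V} {T : Finset α}
    (hfv : ∀ i, ∀ x ∈ T, f i x = v x)
    (hrk : ∀ i j, SameRk (F := F) (F' := F) Finset.univ (f i) (f j)) {n : ℕ} {e : Fin n → α}
    {a b : Fin n → V}
    (h : ∀ i k, i < k →
      (∃ j, span F {f j (e i)} = span F {a i} ∧ span F {f j (e k)} = span F {a k}) ∧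
      ∃ j, span F {f j (e i)} = span F {b i} ∧ span F {f j (e k)} = span F {a k}) :
    {k | Ind2 (Sp F v T) (a k) (b k)}.ncard ≤
      Nat.card F ^ (Module.finrank F V - Module.finrank F (Sp F v T)) := by
  classical
  have hnot : ∀ k, Ind2 (Sp F v T) (a k) (b k) → a k ∉ Sp F v T := by
    intro k hk hmem
    have := (hk 1 0 (by rw [one_smul, zero_smul, add_zero]; exact hmem)).1
    exact one_ne_zero this
  have hlt : ∀ i k, i < k → Ind2 (Sp F v T) (a i) (b i) → Ind2 (Sp F v T) (a k) (b k) →
      (Sp F v T).mkQ (a i) ≠ (Sp F v T).mkQ (a k) := by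
    intro i k hik hi hk heq
    have h0 := sep_inj (F := F) (v := v) hfv hrk (h i k hik).1 (h i k hik).2 hi (hnot k hk)
    apply h0
    rw [Submodule.mkQ_apply, Submodule.mkQ_apply, Submodule.Quotient.eq] at heq
    have := Submodule.neg_mem _ heq
    rwa [neg_sub] at this
  have hinj : Set.InjOn (fun k => (Sp F v T).mkQ (a k))
      {k | Ind2 (Sp F v T) (a k) (b k)} := by
    intro i hi k hk heq
    by_contra hne
    rcases lt_or_gt_of_ne hne with hl | hl
    · exact hlt i k hl hi hk heq
    · exact hlt k i hl hk hi heq.symm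
  have : Finite (V ⧸ Sp F v T) := Module.finite_of_finite F
  have h1 : {k | Ind2 (Sp F v T) (a k) (b k)}.ncard ≤
      (Set.univ : Set (V ⧸ Sp F v T)).ncard :=
    Set.ncard_le_ncard_of_injOn _ (fun _ _ => Set.mem_univ _) hinj Set.finite_univ
  rw [Set.ncard_univ, Module.natCard_eq_pow_finrank (K := F)] at h1
  have h2 := Submodule.finrank_quotient_add_finrank (Sp F v T)
  have h3 : Module.finrank F (V ⧸ Sp F v T) =
      Module.finrank F V - Module.finrank F (Sp F v T) := by omega
  rwa [h3] at h1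

end Pool.MP_4929df_co.H92
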