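import Pool.Agent.W_4929df_h92.BlkE

/-!
Enlarging `S` (proofs row 572, step 5 (a)).
-/

set_option autoImplicit false

namespace Pool.MP_4929df_co.H92

open Submodule

section rank

variable {α : Type} [DecidableEq α] {r : Finset α → ℕ} {X S : Finset α}

/-- step 5 (a), one element: `SepN.insert` -/
theorem cover_insert (hr : IsRk r) (hS : S ⊆ X) {t : ℕ}
    (hc : ∀ x ∈ X \ S, ∃ P, SepN r X S P ∧ x ∈ P ∧ P.card ≤ t) {s : α} (hs : s ∈ X) :
    ∀ x ∈ X \ insert s S, ∃ P, SepN r X (insert s S) P ∧ x ∈ P ∧ P.card ≤ t := by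
  intro x hx
  rw [Finset.mem_sdiff, Finset.mem_insert, not_or] at hx
  obtain ⟨P, hP, hxP, hPt⟩ := hc x (Finset.mem_sdiff.2 ⟨hx.1, hx.2.2⟩)
  exact ⟨P.erase s, hP.insert hr hS hs, Finset.mem_erase.2 ⟨hx.2.1, hxP⟩,
    (Finset.card_le_card (Finset.erase_subset _ _)).trans hPt⟩

/-- one step of the enlargement -/
theorem BlkI1_step (hr : IsRk r) (hS : S ⊆ X) (h2 : r ∅ + 2 ≤ r X) (h : r S < r ∅ + 2) {t : ℕ}
    (hc : ∀ x ∈ X \ S, ∃ P, SepN r X S P ∧ x ∈ P ∧ P.card ≤ t) :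
    ∃ s ∈ X, r (insert s S) = r S + 1 ∧ insert s S ⊆ X ∧
      ∀ x ∈ X \ insert s S, ∃ P, SepN r X (insert s S) P ∧ x ∈ P ∧ P.card ≤ t := by
  by_contra hcon
  have h1 : ∀ x ∈ X, r (insert x S) ≤ r S := by
    intro x hx
    by_contra h3
    have h4 := hr.ins x S
    exact hcon ⟨x, hx, by omega, Finset.insert_subset hx hS, cover_insert hr hS hc hx⟩
  have h5 := hr.cl_union h1
  rw [Finset.union_eq_right.2 hS] at h5
  omega

/-- step 5 (a): there is `S' ⊇ S`, `S' ⊆ X`, `S'.card ≤ S.card + 2`, `r ∅ + 2 ≤ r S'`. If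
`r S < r ∅ + 2` there is `s ∈ X` with `r (insert s S) = r S + 1` (`IsRk.cl_union`); twice. -/
theorem exists_enlarge (hr : IsRk r) (hS : S ⊆ X) (h2 : r ∅ + 2 ≤ r X) {t : ℕ}
    (hc : ∀ x ∈ X \ S, ∃ P, SepN r X S P ∧ x ∈ P ∧ P.card ≤ t) :
    ∃ S' ⊆ X, S'.card ≤ S.card + 2 ∧ r ∅ + 2 ≤ r S' ∧
      ∀ x ∈ X \ S', ∃ P, SepN r X S' P ∧ x ∈ P ∧ P.card ≤ t := by
  rcases Nat.lt_or_ge (r S) (r ∅ + 2) with h | h
  · obtain ⟨s, hs, hr1, hS1, hc1⟩ := BlkI1_step hr hS h2 h hc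
    have hk1 := Finset.card_insert_le s S
    rcases Nat.lt_or_ge (r (insert s S)) (r ∅ + 2) with h' | h'
    · obtain ⟨s', hs', hr2, hS2, hc2⟩ := BlkI1_step hr hS1 h2 h' hc1
      have hk2 := Finset.card_insert_le s' (insert s S)
      have h0 := hr.mono ∅ S (Finset.empty_subset _)
      exact ⟨insert s' (insert s S), hS2, by omega, by omega, hc2⟩
    · exact ⟨insert s S, hS1, by omega, h', hc1⟩
  · exact ⟨S, hS, by omega, h, hc⟩

end rank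

end Pool.MP_4929df_co.H92
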