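import Pool.Agent.W_4929df_h92.BlkF
import Pool.Agent.W_4929df_h92.BlkH
import Pool.Agent.W_4929df_h92.BlkI1

/-!
There is no long sequence of toggles (proofs row 572, step 6).
-/

set_option autoImplicit false

namespace Pool.MP_4929df_co.H92

open Submodule

variable {F : Type} [Field F] {V : Type} [AddCommGroup V] [Module F V] [FiniteDimensional F V]
  {α : Type} [Fintype α] [DecidableEq α] {v : α → V}

omit [FiniteDimensional F V] [Fintype α] [DecidableEq α] [Field F] [AddCommGroup V] [Module F V] in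
open Classical in
/-- double counting of the pairs `(k, T)` with `R k T` -/
theorem BlkI_count {β : Type} (𝔅 : Finset β) {n N c : ℕ} (R : Fin n → β → Prop)
    (hne : 𝔅.Nonempty) (h1 : ∀ k, 𝔅.card ≤ c * (𝔅.filter (fun T => R k T)).card)
    (h2 : ∀ T ∈ 𝔅, {k | R k T}.ncard ≤ N) : n ≤ c * N := by
  have e1 : n * 𝔅.card ≤ ∑ k : Fin n, c * (𝔅.filter (fun T => R k T)).card := by
    have h := Finset.card_nsmul_le_sum (Finset.univ : Finset (Fin n))
      (fun k => c * (𝔅.filter (fun T => R k T)).card) 𝔅.card (fun k _ => h1 k)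
    simpa using h
  have e2 : ∑ k : Fin n, (𝔅.filter (fun T => R k T)).card =
      ∑ T ∈ 𝔅, ((Finset.univ : Finset (Fin n)).filter (fun k => R k T)).card :=
    Finset.sum_card_bipartiteAbove_eq_sum_card_bipartiteBelow R
  have e3 : ∀ T ∈ 𝔅, ((Finset.univ : Finset (Fin n)).filter (fun k => R k T)).card ≤ N := by
    intro T hT
    refine le_trans (le_of_eq ?_) (h2 T hT)
    rw [← Set.ncard_coe_finset]
    congr 1
    ext k
    simp
  have e4 : ∑ T ∈ 𝔅, ((Finset.univ : Finset (Fin n)).filter (fun k => R k T)).card ≤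
      𝔅.card * N := by
    have h := Finset.sum_le_card_nsmul 𝔅
      (fun T => ((Finset.univ : Finset (Fin n)).filter (fun k => R k T)).card) N e3
    simpa using h
  rw [← Finset.mul_sum, e2] at e1
  have e5 : n * 𝔅.card ≤ c * N * 𝔅.card := by
    refine e1.trans ?_
    calc c * _ ≤ c * (𝔅.card * N) := Nat.mul_le_mul_left _ e4
      _ = c * N * 𝔅.card := by ring
  exact Nat.le_of_mul_le_mul_right e5 hne.card_pos

omit [Fintype α] in
/-- `rk F v Y A ≤ dim Y + A.card` -/
theorem BlkI_rk_le (Y : Submodule F V) (A : Finset α) :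
    rk F v Y A ≤ Module.finrank F Y + A.card := by
  induction A using Finset.induction_on with
  | empty => rw [rk_empty]; exact Nat.le_add_right _ _
  | insert x A hx ih =>
    have h := (rk_isRk v Y).ins x A
    rw [Finset.card_insert_of_notMem hx]
    omega

/-- Step 6. `Y = Sp F v C`, `r = rk F v Y`. If `r X ≤ r ∅ + 1`: `dim V ≤ t + 1` and `card_sep` with
`T = ∅` (all `k` are separated). Otherwise `exists_enlarge` and double counting over
`bases r X S'` and `Fin n` with `count_ind'` (`hY`) and `card_sep`;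
`dim V - dim Sp F v T = r S' ≤ t + (t + 2)` (`Bas.indep`, `Bas.ind`, `r X = dim V`);
`bases r X S'` is not empty (`exists_bas`). `Ind2 ⊥ (a k) (b k)` is `hab k`. -/
theorem no_toggles (h8 : Nat.card F = 8) {t n : ℕ} (hn : 4 ^ t * 8 ^ (2 * t + 2) < n)
    {C X S : Finset α} (hC : C.card ≤ t) (hX : Sp F v X ⊔ Sp F v C = ⊤)
    (h3 : ThreeR (rk F v (Sp F v C)) X) (hS : S ⊆ X) (hSt : S.card ≤ t)
    (hc : ∀ x ∈ X \ S, ∃ P, SepN (rk F v (Sp F v C)) X S P ∧ x ∈ P ∧ P.card ≤ t)
    {ι : Type} {f : ι → α → V} (hfv : ∀ i, ∀ x ∈ X ∪ C, f i x = v x)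
    (hrk : ∀ i j, SameRk (F := F) (F' := F) Finset.univ (f i) (f j)) {e : Fin n → α}
    {a b : Fin n → V} (hab : ∀ k, Ind2 (⊥ : Submodule F V) (a k) (b k))
    (hY : ∀ k, a k ∈ Sp F v C ↔ b k ∈ Sp F v C)
    (h : ∀ i k, i < k →
      (∃ j, span F {f j (e i)} = span F {a i} ∧ span F {f j (e k)} = span F {a k}) ∧
      ∃ j, span F {f j (e i)} = span F {b i} ∧ span F {f j (e k)} = span F {a k}) : False := by
  haveI : Finite F := Nat.finite_of_card_ne_zero (by rw [h8]; norm_num)
  have hr := rk_isRk v (Sp F v C)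
  have hV : rk F v (Sp F v C) X = Module.finrank F V := by
    unfold rk
    rw [hX, finrank_top]
  have hYt : Module.finrank F (Sp F v C) ≤ t := by
    have h1 := BlkI_rk_le (v := v) (⊥ : Submodule F V) C
    unfold rk at h1
    rw [sup_bot_eq, finrank_bot] at h1
    omega
  rcases Nat.lt_or_ge (rk F v (Sp F v C) X) (rk F v (Sp F v C) ∅ + 2) with hlt | hge
  · have h1 := card_sep (F := F) (v := v) (T := ∅) (f := f) (by simp) hrk h
    have h2 : {k | Ind2 (Sp F v (∅ : Finset α)) (a k) (b k)} = Set.univ := by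
      refine Set.eq_univ_of_forall fun k => ?_
      show Ind2 (Sp F v (∅ : Finset α)) (a k) (b k)
      rw [Sp_empty]
      exact hab k
    rw [h2, Set.ncard_univ, Nat.card_fin, h8] at h1
    rw [rk_empty] at hlt
    have h3 : Module.finrank F V - Module.finrank F (Sp F v (∅ : Finset α)) ≤ 2 * t + 2 := by
      omega
    have h4 : 8 ^ (Module.finrank F V - Module.finrank F (Sp F v (∅ : Finset α))) ≤
        8 ^ (2 * t + 2) := Nat.pow_le_pow_right (by norm_num) h3
    have h5 : 8 ^ (2 * t + 2) ≤ 4 ^ t * 8 ^ (2 * t + 2) :=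
      Nat.le_mul_of_pos_left _ (Nat.pow_pos (by norm_num))
    omega
  · obtain ⟨S', hS'X, hS'c, hS'2, hc'⟩ := exists_enlarge hr hS hge hc
    obtain ⟨T₀, hT₀⟩ := exists_bas hr hS'X
    have hmain : n ≤ 4 ^ t * 8 ^ (2 * t + 2) := by
      refine BlkI_count (bases (rk F v (Sp F v C)) X S')
        (fun k T => Ind2 (Sp F v T) (a k) (b k)) ⟨T₀, mem_bases.2 hT₀⟩ (fun k => ?_)
        (fun T hT => ?_)
      · exact count_ind' hS'X hX h3 hS'2 hc' (hab k) (hY k)
      · have hB := mem_bases.1 hT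
        have hTX : ∀ i, ∀ x ∈ T, f i x = v x := fun i x hx =>
          hfv i x (Finset.mem_union_left _ (Finset.mem_sdiff.1 (hB.sub hx)).1)
        refine (card_sep hTX hrk h).trans ?_
        rw [h8]
        refine Nat.pow_le_pow_right (by norm_num) ?_
        have h1 := (Bas.indep hS'X hB).2
        have h2 := hB.ind
        have h4 := BlkI_rk_le (v := v) (Sp F v C) S'
        omega
    omega

end Pool.MP_4929df_co.H92
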