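import Pool.Agent.W_4929df_h92.FinC0

/-!
The coordinates (step 9 of proofs row 546).
-/

set_option autoImplicit false

namespace Pool.MP_4929df_co.H92

open Submodule

variable {F : Type} [Field F] {V : Type} [AddCommGroup V] [Module F V]
  {α : Type} [DecidableEq α] {v : α → V} {Y : Submodule F V} {G : Finset α} {H : Set V}

variable [FiniteDimensional F V]

omit [DecidableEq α] in
/-- Coordinates: six vectors independent modulo `W`. The linear map
`L (x, s, t) = W.mkQ (∑ x k • a k + s • u + t • w)` is injective; take a left inverse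
(`LinearMap.exists_leftInverse_of_injective`) composed with `W.mkQ`. -/
theorem exists_coord {W : Submodule F V} {e : Fin 4 → V} {u w : V}
    (h : ∀ (x : Fin 4 → F) (s t : F), ∑ k, x k • e k + s • u + t • w ∈ W →
      (∀ k, x k = 0) ∧ s = 0 ∧ t = 0) :
    ∃ Λ : V →ₗ[F] (Fin 4 → F) × F × F, (∀ z ∈ W, Λ z = 0) ∧
      (∀ k, Λ (e k) = (Pi.single k 1, 0, 0)) ∧ Λ u = (0, 1, 0) ∧ Λ w = (0, 0, 1) ∧
      ∀ g ∈ W ⊔ span F (insert u (insert w (Set.range e))),
        g - (∑ k, (Λ g).1 k • e k + (Λ g).2.1 • u + (Λ g).2.2 • w) ∈ W := by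
  classical
  let L0 : (Fin 4 → F) × F × F →ₗ[F] V :=
    (Fintype.linearCombination F e).coprod
      ((LinearMap.toSpanSingleton F V u).coprod (LinearMap.toSpanSingleton F V w))
  have hL0 : ∀ z : (Fin 4 → F) × F × F,
      L0 z = ∑ k, z.1 k • e k + z.2.1 • u + z.2.2 • w := by
    intro z
    simp [L0, Fintype.linearCombination_apply, add_assoc]
  let L : (Fin 4 → F) × F × F →ₗ[F] V ⧸ W := W.mkQ ∘ₗ L0
  have hker : LinearMap.ker L = ⊥ := by
    rw [LinearMap.ker_eq_bot']
    intro z hz
    have hz' : L0 z ∈ W := by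
      have : W.mkQ (L0 z) = 0 := hz
      rwa [Submodule.mkQ_apply, Submodule.Quotient.mk_eq_zero] at this
    rw [hL0] at hz'
    obtain ⟨h1, h2, h3⟩ := h z.1 z.2.1 z.2.2 hz'
    ext k
    · exact h1 k
    · exact h2
    · exact h3
  obtain ⟨R, hR⟩ := LinearMap.exists_leftInverse_of_injective L hker
  have hRL : ∀ z, R (W.mkQ (L0 z)) = z := by
    intro z
    have := LinearMap.congr_fun hR z
    simpa [L] using this
  have hRW : ∀ z ∈ W, R (W.mkQ z) = 0 := by
    intro z hz
    have : W.mkQ z = 0 := by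
      rw [Submodule.mkQ_apply, Submodule.Quotient.mk_eq_zero]
      exact hz
    rw [this, map_zero]
  have he : ∀ k, L0 (Pi.single k 1, 0, 0) = e k := by
    intro k
    rw [hL0]
    simp [Pi.single_apply, ite_smul]
  have hu : L0 (0, 1, 0) = u := by
    rw [hL0]
    simp
  have hw : L0 (0, 0, 1) = w := by
    rw [hL0]
    simp
  refine ⟨R ∘ₗ W.mkQ, fun z hz => hRW z hz, fun k => ?_, ?_, ?_, ?_⟩
  · have := hRL (Pi.single k 1, 0, 0)
    rw [he] at this
    exact this
  · have := hRL (0, 1, 0)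
    rw [hu] at this
    exact this
  · have := hRL (0, 0, 1)
    rw [hw] at this
    exact this
  · intro g hg
    have hrange : span F (insert u (insert w (Set.range e))) ≤ LinearMap.range L0 := by
      rw [span_le]
      rintro y (rfl | rfl | ⟨k, rfl⟩)
      · exact ⟨_, hu⟩
      · exact ⟨_, hw⟩
      · exact ⟨_, he k⟩
    obtain ⟨a, ha, b, hb, rfl⟩ := Submodule.mem_sup.1 hg
    obtain ⟨z, rfl⟩ := hrange hb
    have h1 : (R ∘ₗ W.mkQ) (a + L0 z) = z := by
      rw [map_add]
      change R (W.mkQ a) + R (W.mkQ (L0 z)) = z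
      rw [hRW a ha, hRL z, zero_add]
    rw [h1, ← hL0, add_sub_cancel_right]
    exact ha

end Pool.MP_4929df_co.H92
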