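import Pool.Agent.W_4929df_h92.FinC1
import Pool.Agent.W_4929df_h92.FinC2

/-!
The coordinates (step 9 of proofs row 546).
-/

set_option autoImplicit false

namespace Pool.MP_4929df_co.H92

open Submodule

variable {F : Type} [Field F] {V : Type} [AddCommGroup V] [Module F V]
  {α : Type} [DecidableEq α] {v : α → V} {Y : Submodule F V} {G : Finset α} {H : Set V}

variable [FiniteDimensional F V]

/-- Step 9. Choose `A, a, b, c, β, γ` from `TV` for each `k`. Take `B ⊆ G` with `B.card` maximal such
that the six vectors are independent modulo `Sp F v (univ.biUnion A ∪ B) ⊔ Y` (`B = ∅` works by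
`six_indep`). Then every `v x`, `x ∈ G`, is in
`Sp F v (univ.biUnion A ∪ B) ⊔ Y ⊔ span (insert u (insert w (range (v ∘ a))))`: otherwise
`insert x B` has the property. `D = univ.biUnion A ∪ B`, `exists_coord`. -/
theorem exists_model {S : Finset α} {P : Fin 4 → Finset α} {u w : V} (hS : S ⊆ G)
    (hPG : ∀ k, P k ⊆ G \ S) (hdisj : ∀ k l, k ≠ l → Disjoint (P k) (P l))
    (hsep : ∀ k, rk F v Y (P k ∪ S) + rk F v Y (G \ P k) = rk F v Y G + rk F v Y S)
    (hu : u ∈ Sp F v S) (hw : w ∈ Sp F v S)
    (huw : ∀ x y : F, x • u + y • w ∈ Y → x = 0 ∧ y = 0) (hTV : ∀ k, TV v Y S (P k) u w) :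
    ∃ (D : Finset α) (a b c : Fin 4 → α) (β γ : Fin 4 → F) (Λ : V →ₗ[F] (Fin 4 → F) × F × F),
      Model v Y G D a b c u w β γ Λ := by
  classical
  choose A hAP a haP b hbP c hcP β γ hβ hγ hbk hck haA hsk using hTV
  let Ind : Finset α → Prop := fun B => ∀ (x : Fin 4 → F) (s t : F),
    ∑ k, x k • v (a k) + s • u + t • w ∈ Sp F v (Finset.univ.biUnion A ∪ B) ⊔ Y →
      (∀ k, x k = 0) ∧ s = 0 ∧ t = 0
  have hInd0 : Ind ∅ := by
    intro x s t h
    rw [Finset.union_empty] at h
    exact six_indep hS hPG hdisj hsep hAP haP haA hsk hu hw huw h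
  obtain ⟨B, hB, hmax⟩ := Finset.exists_max_image (G.powerset.filter Ind) Finset.card
    ⟨∅, by simp [hInd0]⟩
  rw [Finset.mem_filter, Finset.mem_powerset] at hB
  obtain ⟨hBG, hBI⟩ := hB
  set D : Finset α := Finset.univ.biUnion A ∪ B with hDdef
  have hPG' : ∀ k, P k ⊆ G := fun k => (hPG k).trans Finset.sdiff_subset
  have hDG : D ⊆ G := by
    refine Finset.union_subset ?_ hBG
    refine Finset.biUnion_subset.2 fun k _ => (hAP k).trans (hPG' k)
  have hAD : ∀ k, A k ⊆ D := fun k =>
    (Finset.subset_biUnion_of_mem A (Finset.mem_univ k)).trans Finset.subset_union_left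
  have hspan : ∀ x ∈ G, v x ∈ (Sp F v D ⊔ Y) ⊔
      span F (insert u (insert w (Set.range fun k => v (a k)))) := by
    intro x hx
    by_contra hcon
    have hxB : x ∉ B := fun h => hcon (mem_sup_left (mem_sup_left
      (mem_Sp (Finset.mem_union_right _ h))))
    have hI : Ind (insert x B) := by
      intro y s t h
      have e : Finset.univ.biUnion A ∪ insert x B = insert x D := by
        rw [hDdef, Finset.union_insert]
      rw [e, Sp_insert, sup_assoc] at h
      obtain ⟨p, hp, q, hq, hpq⟩ := mem_sup.1 h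
      obtain ⟨r, rfl⟩ := mem_span_singleton.1 hp
      have hr : r = 0 := by
        by_contra hr
        apply hcon
        have e2 : v x = r⁻¹ • (-q) + r⁻¹ • (∑ k, y k • v (a k) + s • u + t • w) := by
          rw [← hpq, smul_add, smul_smul, inv_mul_cancel₀ hr, one_smul, smul_neg]
          abel
        rw [e2]
        refine add_mem (mem_sup_left (smul_mem _ _ (neg_mem hq))) (mem_sup_right
          (smul_mem _ _ ?_))
        refine add_mem (add_mem (sum_mem fun k _ => smul_mem _ _ (subset_span ?_))
          (smul_mem _ _ (subset_span ?_))) (smul_mem _ _ (subset_span ?_))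
        · exact Set.mem_insert_of_mem _ (Set.mem_insert_of_mem _ ⟨k, rfl⟩)
        · exact Set.mem_insert _ _
        · exact Set.mem_insert_of_mem _ (Set.mem_insert _ _)
      rw [hr, zero_smul, zero_add] at hpq
      rw [← hpq] at h
      refine hBI y s t ?_
      rw [← hpq]
      exact hq
    have h1 := hmax (insert x B) (by
      rw [Finset.mem_filter, Finset.mem_powerset]
      exact ⟨Finset.insert_subset hx hBG, hI⟩)
    rw [Finset.card_insert_of_notMem hxB] at h1
    omega
  obtain ⟨Λ, h1, h2, h3, h4, h5⟩ := exists_coord (W := Sp F v D ⊔ Y) (e := fun k => v (a k))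
    (u := u) (w := w) hBI
  refine ⟨D, a, b, c, β, γ, Λ, ?_⟩
  exact
    { hD := hDG
      ha := fun k => hPG' k (haP k)
      hb := fun k => hPG' k (hbP k)
      hc := fun k => hPG' k (hcP k)
      hβ := hβ
      hγ := hγ
      hu := mem_sup_left (Sp_mono hS hu)
      hw := mem_sup_left (Sp_mono hS hw)
      hbk := fun k => FinC1_mono (hAD k) (hbk k)
      hck := fun k => FinC1_mono (hAD k) (hck k)
      hΛD := h1
      hΛa := h2
      hΛu := h3
      hΛw := h4
      hdec := by
        intro g hg
        apply h5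
        have h6 : Sp F v G ⊔ Y ≤ (Sp F v D ⊔ Y) ⊔
            span F (insert u (insert w (Set.range fun k => v (a k)))) := by
          refine sup_le (Sp_le.2 hspan) (le_trans le_sup_right le_sup_left)
        exact h6 hg }

end Pool.MP_4929df_co.H92
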