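import Pool.Agent.W_4929df_h92.GenA
import Pool.Agent.W_4929df_h92.BixbyE

/-!
In a minimal counterexample the family spans (step 3 of proofs row 546).
-/

set_option autoImplicit false

namespace Pool.MP_4929df_co.H92

open Submodule

variable {F : Type*} [Field F] {V : Type*} [AddCommGroup V] [Module F V] [FiniteDimensional F V]
  {α : Type*} [DecidableEq α] {v : α → V} {Y : Submodule F V} {G : Finset α} {H : Set V}

/-- `v s ∈ span F H ⊔ Y` for `s` in a nontrivial series class: otherwise `Fam.contract` and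
`thick_good` (`ct_rk`) contradict `hmin`; `insert s (G.erase s) = G` -/
theorem thick_mem (hG : Good (rk F v Y) G) (hF : Fam F v Y G H)
    (hmin : ∀ (Y' : Submodule F V) (G' : Finset α), G'.card < G.card → Good (rk F v Y') G' →
      ¬ Fam F v Y' G' H) {s s' : α} (hs : s ∈ G) (hs' : s' ∈ G) (hne : s ≠ s')
    (h : Ser (rk F v Y) G {s, s'}) : v s ∈ span F H ⊔ Y := by
  by_contra hx
  have h1 := thick_good (rk_isRk v Y) hG hs hs' hne h
  rw [ct_rk] at h1
  have h2 := hF.contract hs hx (G' := G.erase s) (Finset.erase_subset _ _)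
    (by rw [Finset.insert_erase hs])
  exact hmin _ _ (Finset.card_erase_lt_of_mem hs) h1 h2

/-- no `h ∈ H` is in `Sp F v (G \ {s, s'}) ⊔ Y`: otherwise by `h3` all of `H`, so by `thick_mem`
`v s`, but `thick_not_cl` (with `cl_iff`) says that `v s` is not in it -/
theorem pair_not_mem (hG : Good (rk F v Y) G) (hF : Fam F v Y G H)
    (hmin : ∀ (Y' : Submodule F V) (G' : Finset α), G'.card < G.card → Good (rk F v Y') G' →
      ¬ Fam F v Y' G' H) {s s' : α} (hs : s ∈ G) (hs' : s' ∈ G) (hne : s ≠ s')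
    (h : Ser (rk F v Y) G {s, s'}) : ∀ h ∈ H, h ∉ Sp F v (G \ {s, s'}) ⊔ Y := by
  intro h0 hh0 hmem
  have h1 : span F H ⊔ Y ≤ Sp F v (G \ {s, s'}) ⊔ Y := by
    refine sup_le ?_ le_sup_right
    rw [span_le]
    intro h' hh'
    exact hF.h3 _ Finset.sdiff_subset h0 hh0 h' hh' hmem
  have h2 := h1 (thick_mem hG hF hmin hs hs' hne h)
  rw [← cl_iff] at h2
  have h3 := thick_not_cl (rk_isRk v Y) hG.1 hs hs' hne h (D := G \ {s, s'}) Finset.sdiff_subset
    (by simp) (by simp)
  have h4 : G \ {s, s'} ∪ {s} = insert s (G \ {s, s'}) := by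
    rw [Finset.union_comm]
    rfl
  rw [h4] at h3
  omega

/-- Step 3. Otherwise there is `x ∈ G` with `v x ∉ span F H ⊔ Y` (`Sp_le`). `bixby` with
`Th = G.filter (fun s => ∃ s' ∈ G, s ≠ s' ∧ Ser (rk F v Y) G {s, s'})`: `x` is thin by `thick_mem`
(`Finset.pair_comm`); `G.erase x` is not `Good`: otherwise `Fam.delete` (`Conn.erase_eq`)
contradicts `hmin`; `rk Th < rk (insert x Th)` by `cl_iff`, because `Sp F v Th ≤ span F H ⊔ Y`
(`thick_mem`) and `v x` is not in it; series sets have at most 8 elements by `ser_card` and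
`pair_not_mem` (for at most one element it is clear; `Ser.mono`). The result `G'` and
`Fam.contract` contradict `hmin` (`ct_rk`, `G' ∪ {x} = insert x G'`). -/
theorem span_of_min [Finite F] (h8 : Nat.card F = 8) (hG : Good (rk F v Y) G)
    (hF : Fam F v Y G H) (hne : H.Nonempty) (hbig : Module.finrank F Y + 50 < rk F v Y G)
    (hmin : ∀ (Y' : Submodule F V) (G' : Finset α), G'.card < G.card → Good (rk F v Y') G' →
      ¬ Fam F v Y' G' H) : Sp F v G ⊔ Y ≤ span F H ⊔ Y := by
  classical
  by_contra hcon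
  obtain ⟨x, hx, hvx⟩ : ∃ x ∈ G, v x ∉ span F H ⊔ Y := by
    by_contra hall
    push Not at hall
    exact hcon (sup_le (Sp_le.2 hall) le_sup_right)
  obtain ⟨h0, hh0⟩ := hne
  have hr := rk_isRk v Y
  have hbig' : rk F v Y ∅ + 50 < rk F v Y G := by
    rw [rk_empty]
    exact hbig
  have hGne : (G.erase x).Nonempty := by
    rw [← Finset.card_pos]
    have h1 := hr.le_card G
    have h2 := Finset.card_erase_add_one hx
    omega
  have hTh : ∀ s ∈ G.filter (fun s => ∃ s' ∈ G, s ≠ s' ∧ Ser (rk F v Y) G {s, s'}),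
      v s ∈ span F H ⊔ Y := by
    intro s hs
    rw [Finset.mem_filter] at hs
    obtain ⟨hs, s', hs', hne, hser⟩ := hs
    exact thick_mem hG hF hmin hs hs' hne hser
  have hB : BH (rk F v Y) G x
      (G.filter (fun s => ∃ s' ∈ G, s ≠ s' ∧ Ser (rk F v Y) G {s, s'})) := by
    refine ⟨hr, hG, hx, ?_, ?_, ?_, ?_, ?_, hbig'⟩
    · intro s hs hne hser
      exact hvx (thick_mem hG hF hmin hx hs hne.symm hser)
    · intro hgood
      exact hmin Y (G.erase x) (Finset.card_erase_lt_of_mem hx) hgood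
        (hF.delete (Finset.erase_subset _ _) (hG.1.erase_eq hr hx hGne))
    · intro s hs s' hs' hne hser
      rw [Finset.mem_filter]
      exact ⟨hs, s', hs', hne, hser⟩
    · by_contra hle
      rw [not_lt, cl_iff] at hle
      exact hvx ((sup_le (Sp_le.2 hTh) le_sup_right : _ ≤ span F H ⊔ Y) hle)
    · intro X hX
      by_cases h2 : 2 ≤ X.card
      · rw [← h8]
        refine ser_card hG.1 hX h2 (hF.h1 h0 hh0) ?_
        intro z hz z' hz' hne
        exact pair_not_mem hG hF hmin (hX.1 hz) (hX.1 hz') hne (hX.mono hr (by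
          intro a ha
          simp only [Finset.mem_insert, Finset.mem_singleton] at ha
          rcases ha with rfl | rfl <;> assumption)) h0 hh0
      · omega
  obtain ⟨G', hG', hgood, hspan⟩ := bixby hB
  rw [ct_rk] at hgood
  have h4 : G' ∪ {x} = insert x G' := by
    rw [Finset.union_comm]
    rfl
  rw [h4] at hspan
  refine hmin _ G' ?_ hgood (hF.contract hx hvx (hG'.trans (Finset.erase_subset _ _)) hspan)
  exact (Finset.card_le_card hG').trans_lt (Finset.card_erase_lt_of_mem hx)

end Pool.MP_4929df_co.H92
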