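import Pool.Agent.W_4929df_h92.FinD
import Pool.Agent.W_4929df_h92.FinC
import Pool.Agent.W_4929df_h92.GenB

/-!
The bound for families (the claim of proofs row 546).
-/

set_option autoImplicit false

namespace Pool.MP_4929df_co.H92

open Submodule

/-- A generic spanning family exists only in bounded rank. `n` from `star 8 (8 ^ 64 + K + 12)
(fun ρ => 8 ^ ρ)`, `K = 3 * 8 ^ 128 + 1`. If `n + 11 ≤ G.card`: `Gen.flat`, `Gen.circ_le`, `star`,
`exists_fat`, `exists_four`, `exists_model`, `Model.false`. -/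
theorem gen_bound : ∃ n : ℕ, ∀ (F : Type) [Field F] (V : Type) [AddCommGroup V] [Module F V]
    [FiniteDimensional F V] (α : Type) [DecidableEq α] (v : α → V) (Y : Submodule F V)
    (G : Finset α) (H : Set V), Gen v Y G H → G.card < n := by
  obtain ⟨n, hn⟩ := star 8 (8 ^ 64 + (3 * 8 ^ 128 + 1) + 12) (fun ρ => 8 ^ ρ)
  refine ⟨max n 11, ?_⟩
  intro F _ V _ _ _ α _ v Y G H hg
  by_contra hcon
  rw [not_lt] at hcon
  have hn' : n ≤ G.card := (le_max_left _ _).trans hcon
  have hbig : 11 ≤ G.card := (le_max_right _ _).trans hcon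
  have hst := hn (rk F v Y) G (rk_isRk v Y) hg.hG.1 (fun X hX hc => hg.circ_le hX hc)
    (hg.flat hbig) hn'
  obtain ⟨S, P, hfat⟩ := exists_fat hg hst
  obtain ⟨u, hu, w, hw, huw, P', hPG, hdisj, hsep, hTV⟩ := exists_four hg.h8 hfat
  obtain ⟨D, a, b, c, β, γ, Λ, hM⟩ := exists_model hfat.hS hPG hdisj hsep hu hw huw hTV
  exact hM.false hg

/-- The claim. `n` from `gen_bound`, `K = 8 ^ (n + 60)`. Suppose `K < H.ncard`; by strong induction on
`G.card` there is no `Good` pair `(Y, G)` with the family `H`: the induction hypothesis is `hmin` of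
`span_of_min`; `Fam.ncard_le` gives `n + 60 < rk F v Y G - finrank F Y ≤ G.card`
(`Nat.pow_lt_pow_iff_right`); `gen_of_fam` and `gen_bound` give the contradiction. -/
theorem fam_bound : ∃ K : ℕ, ∀ (F : Type) [Field F] (V : Type) [AddCommGroup V] [Module F V]
    [FiniteDimensional F V] (α : Type) [DecidableEq α] (v : α → V) (Y : Submodule F V)
    (G : Finset α) (H : Set V), Nat.card F = 8 → Good (rk F v Y) G → Fam F v Y G H →
      H.ncard ≤ K := by
  obtain ⟨n, hn⟩ := gen_bound
  refine ⟨8 ^ (n + 60), ?_⟩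
  intro F _ V _ _ _ α _ v Y G H h8 hG hF
  by_contra hcon
  rw [not_le] at hcon
  have hfin : Finite F := Nat.finite_of_card_ne_zero (by rw [h8]; norm_num)
  have hne : H.Nonempty := by
    rw [Set.nonempty_iff_ne_empty]
    rintro rfl
    rw [Set.ncard_empty] at hcon
    exact absurd hcon (Nat.not_lt_zero _)
  have main : ∀ (N : ℕ) (Y' : Submodule F V) (G' : Finset α), G'.card = N →
      Good (rk F v Y') G' → ¬ Fam F v Y' G' H := by
    intro N
    induction N using Nat.strong_induction_on with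
    | _ N ih =>
      intro Y' G' hN hG' hF'
      have h1 := hF'.ncard_le
      rw [h8] at h1
      have h2 : n + 60 < rk F v Y' G' - Module.finrank F Y' :=
        (Nat.pow_lt_pow_iff_right (by norm_num : 1 < 8)).1 (hcon.trans_le h1)
      have hU := span_of_min h8 hG' hF' hne (by omega) (fun Y'' G'' hlt hG'' =>
        ih G''.card (hN ▸ hlt) Y'' G'' rfl hG'')
      have h3 := hn F V α v Y' G' H (gen_of_fam h8 hG' hF' hne hU)
      have h4 := (rk_isRk v Y').le_card G'
      rw [rk_empty] at h4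
      omega
  exact main _ Y G rfl hG hF

/-- The bound for families of vectors that may be proportional: `K' = 8 * K + 8`. `H` satisfies
`h1` and `h3` of `Fam` with `Y = ⊥`. Take a maximal subset `H' ⊆ H \ {0}` of pairwise
non-proportional vectors; it is a `Fam`, so `H'.ncard ≤ K`, and every element of `H \ {0}` is
`t • h'` with `h' ∈ H'`, `t : F`. -/
theorem vec_bound : ∃ K : ℕ, ∀ (F : Type) [Field F] (V : Type) [AddCommGroup V] [Module F V]
    [FiniteDimensional F V] (α : Type) [DecidableEq α] (v : α → V)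
    (G : Finset α) (H : Set V), Nat.card F = 8 → Good (rk F v (⊥ : Submodule F V)) G →
      (∀ h ∈ H, h ∈ Sp F v G) →
      (∀ A ⊆ G, ∀ h ∈ H, ∀ h' ∈ H, h ∈ Sp F v A → h' ∈ Sp F v A) → H.ncard ≤ K := by
  obtain ⟨K, hK⟩ := fam_bound
  refine ⟨8 * K + 8, ?_⟩
  intro F _ V _ _ _ α _ v G H h8 hG h1 h3
  have hfin : Finite F := Nat.finite_of_card_ne_zero (by rw [h8]; norm_num)
  have hV : Finite V := Module.finite_of_finite F
  have hrep : ∀ ℓ : Submodule F V, ∃ h : V, (∃ k ∈ H \ {0}, span F {k} = ℓ) →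
      h ∈ H \ {0} ∧ span F {h} = ℓ := by
    intro ℓ
    by_cases hℓ : ∃ k ∈ H \ {0}, span F {k} = ℓ
    · obtain ⟨k, hk, hkℓ⟩ := hℓ
      exact ⟨k, fun _ => ⟨hk, hkℓ⟩⟩
    · exact ⟨0, fun h => absurd h hℓ⟩
  choose rep hrep using hrep
  obtain ⟨H', hH'⟩ : ∃ H' : Set V, H' = (fun k => rep (span F {k})) '' (H \ {0}) := ⟨_, rfl⟩
  have hsub : ∀ k ∈ H \ {0}, rep (span F {k}) ∈ H \ {0} ∧ span F {rep (span F {k})} = span F {k} :=
    fun k hk => hrep _ ⟨k, hk, rfl⟩
  have hF : Fam F v (⊥ : Submodule F V) G H' := by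
    refine ⟨?_, ?_, ?_⟩
    · intro h hh
      rw [hH'] at hh
      obtain ⟨k, hk, rfl⟩ := hh
      rw [sup_bot_eq]
      exact h1 _ (hsub k hk).1.1
    · intro h hh h' hh' hne hmem
      rw [hH'] at hh hh'
      obtain ⟨k, hk, rfl⟩ := hh
      obtain ⟨k', hk', rfl⟩ := hh'
      apply hne
      rw [sup_bot_eq] at hmem
      have e : span F {rep (span F {k})} = span F {rep (span F {k'})} := by
        obtain ⟨t, ht⟩ := mem_span_singleton.1 hmem
        have ht0 : t ≠ 0 := by
          rintro rfl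
          rw [zero_smul] at ht
          exact (hsub k hk).1.2 ht.symm
        change t • rep (span F {k'}) = rep (span F {k}) at ht
        rw [← ht]
        exact span_singleton_smul_eq (IsUnit.mk0 t ht0) _
      rw [(hsub k hk).2, (hsub k' hk').2] at e
      change rep (span F {k}) = rep (span F {k'})
      rw [e]
    · intro A hA h hh h' hh' hmem
      rw [hH'] at hh hh'
      obtain ⟨k, hk, rfl⟩ := hh
      obtain ⟨k', hk', rfl⟩ := hh'
      rw [sup_bot_eq] at hmem ⊢
      exact h3 A hA _ (hsub k hk).1.1 _ (hsub k' hk').1.1 hmem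
  have hcard := hK F V α v ⊥ G H' h8 hG hF
  have hcov : H ⊆ insert 0 ((fun p : F × V => p.1 • p.2) '' (Set.univ ×ˢ H')) := by
    intro h hh
    by_cases h0 : h = 0
    · exact Or.inl h0
    · right
      have hk : h ∈ H \ {0} := ⟨hh, h0⟩
      have hm : h ∈ span F {rep (span F {h})} := by
        rw [(hsub h hk).2]
        exact mem_span_singleton_self h
      obtain ⟨t, ht⟩ := mem_span_singleton.1 hm
      refine ⟨(t, rep (span F {h})), ⟨Set.mem_univ _, ?_⟩, ht⟩
      rw [hH']
      exact ⟨h, hk, rfl⟩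
  have e1 : H.ncard ≤ (insert 0 ((fun p : F × V => p.1 • p.2) '' (Set.univ ×ˢ H'))).ncard :=
    Set.ncard_le_ncard hcov (Set.toFinite _)
  have e2 := Set.ncard_insert_le (0 : V) ((fun p : F × V => p.1 • p.2) '' (Set.univ ×ˢ H'))
  have e3 : ((fun p : F × V => p.1 • p.2) '' (Set.univ ×ˢ H')).ncard ≤
      ((Set.univ : Set F) ×ˢ H').ncard := Set.ncard_image_le (Set.toFinite _)
  have e4 : ((Set.univ : Set F) ×ˢ H').ncard = 8 * H'.ncard := by
    rw [Set.ncard_prod, Set.ncard_univ, h8]
  omega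

end Pool.MP_4929df_co.H92
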