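import Pool.Agent.W_4929df_h92.DualDefs

/-!
Deletion of `D` and contraction of `C`: representations that agree outside `D`.
-/

set_option autoImplicit false

namespace Pool.MP_4929df_co.H92

open Submodule

theorem MixA_sdiff {α : Type} [DecidableEq α] {G A B : Finset α} (h : A ∪ B = G)
    (hd : Disjoint A B) : G \ A = B := by
  rw [← h, Finset.union_sdiff_cancel_left hd]

/-- `Good` from `ThreeR`: `Conn` is `j = 1`; `TwoS`: if `r A + r B ≤ r G + r ∅ + 1` then by `j = 2`
`A` or `B` has at most one element, so it is `Ser` (`r (G \ A) ≤ r G`) -/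
theorem good_of_threeR {α : Type} [DecidableEq α] {r : Finset α → ℕ} (hr : IsRk r) {G : Finset α}
    (h : ThreeR r G) : Good r G := by
  refine ⟨?_, ?_⟩
  · intro A B hAB hd hA hB
    have h1 := MixA_sdiff hAB hd
    have h2 := h A (hAB ▸ Finset.subset_union_left) 1 (by omega) (Finset.card_pos.2 hA)
      (by rw [h1]; exact Finset.card_pos.2 hB)
    rw [h1] at h2
    exact h2
  · intro A B hAB hd hle
    have h1 := MixA_sdiff hAB hd
    have h1' : G \ B = A := MixA_sdiff (by rw [Finset.union_comm]; exact hAB) hd.symm
    have hAG : A ⊆ G := hAB ▸ Finset.subset_union_left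
    have hBG : B ⊆ G := hAB ▸ Finset.subset_union_right
    by_cases hA : A.card ≤ 1
    · left
      refine ⟨hAG, ?_⟩
      have h3 := hr.mono (G \ A) G Finset.sdiff_subset
      omega
    · by_cases hB : B.card ≤ 1
      · right
        refine ⟨hBG, ?_⟩
        have h3 := hr.mono (G \ B) G Finset.sdiff_subset
        omega
      · exfalso
        have h2 := h A hAG 2 (by omega) (by omega) (by rw [h1]; omega)
        rw [h1] at h2
        omega

/-- `Good` is invariant under adding a constant on subsets of `G` -/
theorem good_shift {α : Type} [DecidableEq α] {r r' : Finset α → ℕ} {G : Finset α} {k : ℕ}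
    (h : ∀ A ⊆ G, r' A = r A + k) (hG : Good r G) : Good r' G := by
  obtain ⟨hC, hT⟩ := hG
  have h0 := h ∅ (Finset.empty_subset _)
  have hGG := h G (Finset.Subset.refl _)
  refine ⟨?_, ?_⟩
  · intro A B hAB hd hA hB
    have h1 := hC A B hAB hd hA hB
    have h2 := h A (hAB ▸ Finset.subset_union_left)
    have h3 := h B (hAB ▸ Finset.subset_union_right)
    omega
  · intro A B hAB hd hle
    have h2 := h A (hAB ▸ Finset.subset_union_left)
    have h3 := h B (hAB ▸ Finset.subset_union_right)
    rcases hT A B hAB hd (by omega) with h4 | h4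
    · left
      refine ⟨h4.1, ?_⟩
      have h5 := h4.2
      have h6 := h (G \ A) Finset.sdiff_subset
      omega
    · right
      refine ⟨h4.1, ?_⟩
      have h5 := h4.2
      have h6 := h (G \ B) Finset.sdiff_subset
      omega

end Pool.MP_4929df_co.H92
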