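import Pool.Agent.W_4929df_h92.BlkC
import Pool.Agent.W_4929df_h92.MixA
import Pool.Agent.W_4929df_h92.Main
import Pool.Agent.W_4929df_h92.BinC1

/-!
The bound for representations that agree on `X ∪ C` (proofs row 572, step 2).
-/

set_option autoImplicit false

namespace Pool.MP_4929df_co.H92

open Submodule

private theorem BlkJ1_Sp {F : Type} [Field F] {V : Type} [AddCommGroup V] [Module F V]
    {α : Type} [DecidableEq α] (v : α → V) (W : Submodule F V) (A : Finset α) :
    Sp F (fun x => W.mkQ (v x)) A = (Sp F v A).map W.mkQ := by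
  unfold Sp
  rw [Submodule.map_span]
  congr 1
  rw [Set.image_image]

private theorem BlkJ1_mem {F : Type} [Field F] {V : Type} [AddCommGroup V] [Module F V]
    {α : Type} [DecidableEq α] (v : α → V) (W : Submodule F V) (A : Finset α) (h : V) :
    W.mkQ h ∈ Sp F (fun x => W.mkQ (v x)) A ↔ h ∈ W ⊔ Sp F v A := by
  rw [BlkJ1_Sp, ← Submodule.comap_map_mkQ, Submodule.mem_comap]

private theorem BlkJ1_rk {F : Type} [Field F] {V : Type} [AddCommGroup V] [Module F V]
    [FiniteDimensional F V] {α : Type} [DecidableEq α] (v : α → V) (C A : Finset α) :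
    rk F v (Sp F v C) A = rk F (fun x => (Sp F v C).mkQ (v x)) ⊥ A +
      Module.finrank F (Sp F v C) := by
  have h1 := finrank_mkQ (F := F) v C A
  unfold rk
  rw [sup_bot_eq, h1, Sp_union]

/-- Step 2: vectors with the same position relative to `X ∪ C`. `K` from `vec_bound`, for
`V ⧸ Sp F v C`, `v' = mkQ ∘ v`, `G = X` and the image of `H` (`Good`: `good_of_threeR`,
`good_shift`: `rk F v (Sp F v C) A = rk F v' ⊥ A + dim (Sp F v C)`); the fibres of `mkQ` have
`8 ^ dim (Sp F v C) ≤ 8 ^ t` elements. -/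
theorem vec_bound_C : ∃ K : ℕ, ∀ (t : ℕ) (F : Type) [Field F] (V : Type) [AddCommGroup V]
    [Module F V] [FiniteDimensional F V] (α : Type) [DecidableEq α] (v : α → V)
    (C X : Finset α) (H : Set V), Nat.card F = 8 → C.card ≤ t → ThreeR (rk F v (Sp F v C)) X →
    Sp F v X ⊔ Sp F v C = ⊤ →
    (∀ A ⊆ X, ∀ h ∈ H, ∀ h' ∈ H, h ∈ Sp F v (A ∪ C) → h' ∈ Sp F v (A ∪ C)) →
    H.ncard ≤ K * 8 ^ t := by
  classical
  obtain ⟨K, hK⟩ := vec_bound
  refine ⟨K, ?_⟩
  intro t F _ V _ _ _ α _ v C X H h8 hCt h3R htop hH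
  have hfin : Finite F := Nat.finite_of_card_ne_zero (by rw [h8]; norm_num)
  have hV : Finite V := Module.finite_of_finite F
  set W : Submodule F V := Sp F v C with hW
  have hthree : ThreeR (rk F (fun x => W.mkQ (v x)) ⊥) X := by
    intro Y hY j hj h1 h2
    have h3 := h3R Y hY j hj h1 h2
    rw [BlkJ1_rk v C X, BlkJ1_rk v C ∅, BlkJ1_rk v C Y, BlkJ1_rk v C (X \ Y)] at h3
    rw [← hW] at h3
    omega
  have hgood : Good (rk F (fun x => W.mkQ (v x)) ⊥) X := good_of_threeR (rk_isRk _ _) hthree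
  have hb : (W.mkQ '' H).ncard ≤ K := by
    refine hK F (V ⧸ W) α (fun x => W.mkQ (v x)) X (W.mkQ '' H) h8 hgood ?_ ?_
    · rintro _ ⟨h, -, rfl⟩
      rw [BlkJ1_mem, sup_comm, htop]
      exact Submodule.mem_top
    · rintro A hA _ ⟨h, hh, rfl⟩ _ ⟨h', hh', rfl⟩ hmem
      rw [BlkJ1_mem] at hmem ⊢
      have h1 := hH A hA h hh h' hh'
      rw [Sp_union, sup_comm] at h1
      exact h1 hmem
  have hWcard : Nat.card W ≤ 8 ^ t := by
    rw [Module.natCard_eq_pow_finrank (K := F) (V := W), h8]
    refine Nat.pow_le_pow_right (by norm_num) (le_trans ?_ hCt)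
    have h1 := finrank_span_finset_le_card (R := F) (C.image v)
    have h0 : (v '' (C : Set α)) = ((C.image v : Finset V) : Set V) := by
      rw [Finset.coe_image]
    have h2 : Module.finrank F W ≤ (C.image v).card := by
      rw [hW]
      unfold Sp
      rw [h0]
      exact h1
    exact h2.trans Finset.card_image_le
  have hHf : H.Finite := Set.toFinite H
  rw [Set.ncard_eq_toFinset_card H hHf]
  have hfib : ∀ b ∈ hHf.toFinset.image (fun h => W.mkQ h),
      (hHf.toFinset.filter (fun h => W.mkQ h = b)).card ≤ 8 ^ t := by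
    intro b hb'
    obtain ⟨h₀, -, hb₀⟩ := Finset.mem_image.1 hb'
    refine le_trans ?_ hWcard
    have hWf : (W : Set V).Finite := Set.toFinite _
    have h2 : (hHf.toFinset.filter (fun h => W.mkQ h = b)).card ≤ hWf.toFinset.card := by
      refine Finset.card_le_card_of_injOn (fun h => h - h₀) ?_ ?_
      · intro h hh
        have hh' := (Finset.mem_filter.1 hh).2
        rw [Finset.mem_coe, Set.Finite.mem_toFinset, SetLike.mem_coe,
          ← Submodule.Quotient.mk_eq_zero, Submodule.Quotient.mk_sub, sub_eq_zero]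
        exact hh'.trans hb₀.symm
      · intro a _ b _ hab
        exact sub_left_injective hab
    refine h2.trans (le_of_eq ?_)
    rw [← Set.ncard_eq_toFinset_card (W : Set V) hWf]
    rfl
  have h3 := Finset.card_le_mul_card_image hHf.toFinset (8 ^ t) hfib
  have h4 : (hHf.toFinset.image (fun h => W.mkQ h)).card = (W.mkQ '' H).ncard := by
    rw [Set.ncard_eq_toFinset_card (W.mkQ '' H) (hHf.image _)]
    congr 1
    ext b
    simp
  rw [h4] at h3
  calc hHf.toFinset.card ≤ 8 ^ t * (W.mkQ '' H).ncard := h3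
    _ ≤ 8 ^ t * K := Nat.mul_le_mul_left _ hb
    _ = K * 8 ^ t := Nat.mul_comm _ _

/-- Two nonzero vectors with different spans are independent. -/
theorem ind2_of_span_ne {F : Type} [Field F] {V : Type} [AddCommGroup V] [Module F V] {a b : V}
    (ha : a ≠ 0) (hb : b ≠ 0) (h : span F {a} ≠ span F {b}) : Ind2 (⊥ : Submodule F V) a b := by
  intro x y hxy
  rw [Submodule.mem_bot] at hxy
  by_cases hy : y = 0
  · rw [hy, zero_smul, add_zero] at hxy
    exact ⟨(smul_eq_zero.1 hxy).resolve_right ha, hy⟩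
  · exfalso
    have hx : x ≠ 0 := by
      rintro rfl
      rw [zero_smul, zero_add] at hxy
      exact (smul_eq_zero.1 hxy).elim hy hb
    apply h
    rw [Submodule.span_singleton_eq_span_singleton]
    have hz : (-(y⁻¹ * x)) ≠ 0 := neg_ne_zero.2 (mul_ne_zero (inv_ne_zero hy) hx)
    refine ⟨Units.mk0 _ hz, ?_⟩
    show (-(y⁻¹ * x)) • a = b
    have h1 : y • b = -(x • a) := eq_neg_of_add_eq_zero_right hxy
    have h2 : b = y⁻¹ • (y • b) := by rw [smul_smul, inv_mul_cancel₀ hy, one_smul]
    rw [h2, h1, smul_neg, smul_smul, neg_smul]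

end Pool.MP_4929df_co.H92
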