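import Pool.Agent.W_4929df_h92.BlkI
import Pool.Agent.W_4929df_h92.BlkG2
import Pool.Agent.W_4929df_h92.BlkJ1

/-!
The bound for representations that agree on `X ∪ C` (proofs row 572, steps 3 and 6).
-/

set_option autoImplicit false

namespace Pool.MP_4929df_co.H92

open Submodule

/-- the span of `A ⊆ X ∪ C` is the same for `v` and `w` if they agree on `A` -/
theorem BlkJ_Sp_congr {F : Type} [Field F] {V : Type} [AddCommGroup V] [Module F V] {α : Type}
    {v w : α → V} {A : Finset α} (h : ∀ x ∈ A, w x = v x) : Sp F w A = Sp F v A := by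
  unfold Sp
  congr 1
  ext y
  constructor
  · rintro ⟨x, hx, rfl⟩
    exact ⟨x, hx, (h x (by exact_mod_cast hx)).symm⟩
  · rintro ⟨x, hx, rfl⟩
    exact ⟨x, hx, h x (by exact_mod_cast hx)⟩

/-- `N` from `extraction (K * 8 ^ t) (4 ^ t * 8 ^ (2 * t + 2) + 2)`, `K` from `vec_bound_C`, applied
to `g i x = span F {f i x}` with values in `Submodule F V`. If the conclusion fails then `g` is
injective (`span F {f i x} = span F {f j x}` gives `c`). Write the values as `span F {a k}`,
`span F {b k}` with vectors `f j (e k)` (for all `k` but the last one, which is left out);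
`Ind2 ⊥` by `ind2_of_span_ne` (`f j x = 0` does not depend on
`j`, by `SameRk.mem` with the empty set); `hY` by `SameRk.mem` with `C` (`f j = v` on `C`);
contradiction by `no_toggles`. -/
theorem agree_bound_star (t : ℕ) : ∃ k : ℕ, ∀ (F : Type) [Field F] (V : Type) [AddCommGroup V]
    [Module F V] [FiniteDimensional F V] (α : Type) [Fintype α] [DecidableEq α] (v : α → V)
    (C X S : Finset α) (ι : Type) [Finite ι] (f : ι → α → V), Nat.card F = 8 → C.card ≤ t →
    Sp F v X ⊔ Sp F v C = ⊤ → ThreeR (rk F v (Sp F v C)) X → S ⊆ X → S.card ≤ t →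
    (∀ x ∈ X \ S, ∃ P, SepN (rk F v (Sp F v C)) X S P ∧ x ∈ P ∧ P.card ≤ t) →
    (∀ i, ∀ x ∈ X ∪ C, f i x = v x) →
    (∀ i j, SameRk (F := F) (F' := F) Finset.univ (f i) (f j)) → k < Nat.card ι →
    ∃ i j, i ≠ j ∧ ∃ c : α → F, (∀ x, c x ≠ 0) ∧ ∀ x, f i x = c x • f j x := by
  obtain ⟨K, hK⟩ := vec_bound_C
  obtain ⟨N, hN⟩ := extraction (K * 8 ^ t) (4 ^ t * 8 ^ (2 * t + 2) + 1 + 1)
  refine ⟨N, ?_⟩
  intro F _ V _ _ _ α _ _ v C X S ι _ f h8 hC hX h3 hS hSt hc hfv hrk hk
  by_contra hcon
  have h0 : ∀ i j x, f i x = 0 → f j x = 0 := by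
    intro i j x h
    have h1 := (hrk i j).mem (A := ∅) (Finset.empty_subset _) (Finset.mem_univ x)
    rw [Sp_empty, Sp_empty, mem_bot, mem_bot] at h1
    exact h1.1 h
  have hSp : ∀ i, ∀ A ⊆ X ∪ C, Sp F (f i) A = Sp F v A := fun i A hA =>
    BlkJ_Sp_congr fun x hx => hfv i x (hA hx)
  have hpos : ∀ i j x, ∀ A ⊆ X ∪ C, f i x ∈ Sp F v A → f j x ∈ Sp F v A := by
    intro i j x A hA h
    have h1 := (hrk i j).mem (A := A) (Finset.subset_univ _) (Finset.mem_univ x)
    rw [hSp i A hA, hSp j A hA] at h1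
    exact h1.1 h
  have hinj : Function.Injective (fun (i : ι) (x : α) => (span F {f i x} : Submodule F V)) := by
    intro i j hij
    by_contra hne
    have h1 : ∀ x, ∃ c : F, c ≠ 0 ∧ f i x = c • f j x := by
      intro x
      by_cases hx : f i x = 0
      · exact ⟨1, one_ne_zero, by rw [hx, h0 i j x hx, smul_zero]⟩
      · have h3 : (span F {f i x} : Submodule F V) = span F {f j x} := congrFun hij x
        have h2 : f i x ∈ (span F {f j x} : Submodule F V) := by
          rw [← h3]
          exact mem_span_singleton_self _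
        obtain ⟨c, hc⟩ := mem_span_singleton.1 h2
        refine ⟨c, ?_, hc.symm⟩
        rintro rfl
        exact hx (by rw [← hc, zero_smul])
    choose c hc1 hc2 using h1
    exact hcon ⟨i, j, hne, c, hc1, hc2⟩
  have hcard : ∀ x, (Set.range fun i => (span F {f i x} : Submodule F V)).ncard ≤ K * 8 ^ t := by
    intro x
    have e : (Set.range fun i => (span F {f i x} : Submodule F V)) =
        (fun w : V => (span F {w} : Submodule F V)) '' (Set.range fun i => f i x) := by
      rw [← Set.range_comp]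
      rfl
    rw [e]
    refine (Set.ncard_image_le (Set.finite_range _)).trans ?_
    refine hK t F V α v C X _ h8 hC h3 hX ?_
    rintro A hA _ ⟨i, rfl⟩ _ ⟨j, rfl⟩ hh
    exact hpos i j x _ (Finset.union_subset_union_left hA) hh
  obtain ⟨e, a, b, hne, hij⟩ := hN ι α (Submodule F V)
    (fun i x => (span F {f i x} : Submodule F V)) hcard hinj hk
  have hA : ∀ k : Fin (4 ^ t * 8 ^ (2 * t + 2) + 1), ∃ j,
      (span F {f j (e k.castSucc)} : Submodule F V) = a k.castSucc := fun k => by
    obtain ⟨⟨j, hj, -⟩, -⟩ := hij k.castSucc (Fin.last _) (Fin.castSucc_lt_last k)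
    exact ⟨j, hj⟩
  have hB : ∀ k : Fin (4 ^ t * 8 ^ (2 * t + 2) + 1), ∃ j,
      (span F {f j (e k.castSucc)} : Submodule F V) = b k.castSucc := fun k => by
    obtain ⟨-, j, hj, -⟩ := hij k.castSucc (Fin.last _) (Fin.castSucc_lt_last k)
    exact ⟨j, hj⟩
  choose ja hja using hA
  choose jb hjb using hB
  refine no_toggles (F := F) (V := V) (v := v) h8 (t := t) (n := 4 ^ t * 8 ^ (2 * t + 2) + 1)
    (Nat.lt_succ_self _) hC hX h3 hS hSt hc hfv hrk (e := fun k => e k.castSucc)
    (a := fun k => f (ja k) (e k.castSucc)) (b := fun k => f (jb k) (e k.castSucc)) ?_ ?_ ?_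
  · intro k
    have h1 : (span F {f (ja k) (e k.castSucc)} : Submodule F V) ≠
        span F {f (jb k) (e k.castSucc)} := by
      rw [hja, hjb]
      exact hne _
    refine ind2_of_span_ne ?_ ?_ h1
    · intro h
      exact h1 (by rw [h, h0 _ (jb k) _ h])
    · intro h
      exact h1 (by rw [h, h0 _ (ja k) _ h])
  · intro k
    exact ⟨hpos _ _ _ C Finset.subset_union_right, hpos _ _ _ C Finset.subset_union_right⟩
  · intro i k hik
    obtain ⟨⟨j, hj1, hj2⟩, j', hj3, hj4⟩ := hij i.castSucc k.castSucc (by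
      rw [Fin.castSucc_lt_castSucc_iff]; exact hik)
    refine ⟨⟨j, ?_, ?_⟩, j', ?_, ?_⟩
    · rw [hja]; exact hj1
    · rw [hja]; exact hj2
    · rw [hjb]; exact hj3
    · rw [hja]; exact hj4

end Pool.MP_4929df_co.H92
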