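import Pool.Agent.W_4929df_h92.MixB3

/-!
The bound for representations that induce equivalent representations of `N` (proofs row 572).
-/

set_option autoImplicit false

namespace Pool.MP_4929df_co.H92

open Submodule

/-- the restrictions of `f i` and `f j` to `X ∪ C` are equivalent -/
def EqOn {F : Type} [Field F] {V : Type} [AddCommGroup V] [Module F V] {α : Type}
    (Z : Finset α) (w w' : α → V) : Prop :=
  ∃ g : V ≃ₗ[F] V, ∃ c : α → F, (∀ x, c x ≠ 0) ∧ ∀ x ∈ Z, w x = c x • g (w' x)

/-- spans in the subtype -/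
theorem BlkK1_Sp {F : Type} [Field F] {V : Type} [AddCommGroup V] [Module F V] {α : Type}
    [DecidableEq α] (Z : Finset α) (w : α → V) (A : Finset {x // x ∈ Z}) :
    Sp F (fun x : {x // x ∈ Z} => w x.1) A = Sp F w (A.map (Function.Embedding.subtype _)) := by
  unfold Sp
  congr 1
  ext y
  constructor
  · rintro ⟨x, hx, rfl⟩
    refine ⟨x.1, ?_, rfl⟩
    simpa using hx
  · rintro ⟨x, hx, rfl⟩
    rw [Finset.mem_coe, Finset.mem_map] at hx
    obtain ⟨z, hz, rfl⟩ := hx
    exact ⟨z, hz, rfl⟩

/-- ranks in the subtype -/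
theorem BlkK1_rk {F : Type} [Field F] {V : Type} [AddCommGroup V] [Module F V] {α : Type}
    [DecidableEq α] (Z : Finset α) (w : α → V) (Y : Submodule F V) (A : Finset {x // x ∈ Z}) :
    rk F (fun x : {x // x ∈ Z} => w x.1) Y A =
      rk F w Y (A.map (Function.Embedding.subtype _)) := by
  unfold rk
  rw [BlkK1_Sp]

/-- connectivity in the subtype -/
theorem BlkK1_threeR {α : Type} [DecidableEq α] {Z X : Finset α} (hX : X ⊆ Z)
    {r : Finset α → ℕ} (h : ThreeR r X) :
    ThreeR (fun A : Finset {x // x ∈ Z} => r (A.map (Function.Embedding.subtype _)))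
      (X.subtype (fun x => x ∈ Z)) := by
  have e1 : (X.subtype (fun x => x ∈ Z)).map (Function.Embedding.subtype _) = X :=
    Finset.subtype_map_of_mem hX
  intro A hA j hj h1 h2
  have e2 : ((X.subtype (fun x => x ∈ Z)) \ A).map (Function.Embedding.subtype _) =
      X \ A.map (Function.Embedding.subtype _) := by
    rw [Finset.map_sdiff, e1]
  have h3 := h (A.map (Function.Embedding.subtype _))
    (by rw [← e1]; exact Finset.map_subset_map.2 hA) j hj
    (by rw [Finset.card_map]; exact h1) (by rw [← e2, Finset.card_map]; exact h2)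
  show r ((X.subtype (fun x => x ∈ Z)).map (Function.Embedding.subtype _)) +
    r ((∅ : Finset {x // x ∈ Z}).map (Function.Embedding.subtype _)) + j ≤
    r (A.map (Function.Embedding.subtype _)) +
    r (((X.subtype (fun x => x ∈ Z)) \ A).map (Function.Embedding.subtype _))
  rw [e1, e2, Finset.map_empty]
  exact h3

/-- equivalence in the subtype -/
theorem BlkK1_equiv {F : Type} [Field F] {V : Type} [AddCommGroup V] [Module F V] {α : Type}
    [DecidableEq α] {Z X C : Finset α} (hX : X ⊆ Z) (hC : C ⊆ Z) {w w' : α → V}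
    (h : EquivMod (F := F) C X w w') :
    EquivMod (F := F) (C.subtype (fun x => x ∈ Z)) (X.subtype (fun x => x ∈ Z))
      (fun x : {x // x ∈ Z} => w x.1) (fun x : {x // x ∈ Z} => w' x.1) := by
  obtain ⟨c, hc, h⟩ := h
  have eX : (X.subtype (fun x => x ∈ Z)).map (Function.Embedding.subtype _) = X :=
    Finset.subtype_map_of_mem hX
  have eC : (C.subtype (fun x => x ∈ Z)).map (Function.Embedding.subtype _) = C :=
    Finset.subtype_map_of_mem hC
  refine ⟨fun x => c x.1, fun x => hc x.1, fun a => ?_⟩
  rw [BlkK1_Sp, BlkK1_Sp, eC]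
  have h1 := h (fun x => if hx : x ∈ Z then a ⟨x, hx⟩ else 0)
  rw [← eX, Finset.sum_map, Finset.sum_map] at h1
  have e1 : ∀ x : {x // x ∈ Z}, (if hx : (Function.Embedding.subtype (fun x => x ∈ Z)) x ∈ Z then
      a ⟨(Function.Embedding.subtype (fun x => x ∈ Z)) x, hx⟩ else 0) = a x := by
    intro x
    have hx : (Function.Embedding.subtype (fun x => x ∈ Z)) x ∈ Z := x.2
    rw [dif_pos hx]
    rfl
  simp only [e1] at h1
  exact h1

/-- Step 1 with `mixed_bound t` (`D = ∅`) for the type `{x // x ∈ X ∪ C}` and the families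
`fun x => f i x.1` (all spans and ranks of `Finset`s of the subtype are those of their images
`A.map (Function.Embedding.subtype _)`; the function `c` is extended by `1`). -/
theorem restrict_bound (t : ℕ) : ∃ k : ℕ, ∀ (F : Type) [Field F] (V : Type)
    [AddCommGroup V] [Module F V] [FiniteDimensional F V] (α : Type) [Fintype α] [DecidableEq α]
    (C X : Finset α) (ι : Type) [Finite ι] (f : ι → α → V), Nat.card F = 8 → Disjoint C X →
    C.card ≤ t → (∀ i, ThreeR (rk F (f i) (Sp F (f i) C)) X) →
    (∀ i j, SameRk (F := F) (F' := F) Finset.univ (f i) (f j)) →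
    (∀ i, Sp F (f i) (X ∪ C) = ⊤) → (∀ i j, EquivMod (F := F) C X (f i) (f j)) →
    k < Nat.card ι → ∃ i j, i ≠ j ∧ EqOn (F := F) (X ∪ C) (f i) (f j) := by
  obtain ⟨k, hk⟩ := mixed_bound t
  refine ⟨k, ?_⟩
  intro F _ V _ _ _ α _ _ C X ι _ f h8 hCX hCt h3 hsame htop heq hcard
  have hX : X ⊆ X ∪ C := Finset.subset_union_left
  have hC : C ⊆ X ∪ C := Finset.subset_union_right
  have eX : (X.subtype (fun x => x ∈ X ∪ C)).map (Function.Embedding.subtype _) = X :=
    Finset.subtype_map_of_mem hX
  have eC : (C.subtype (fun x => x ∈ X ∪ C)).map (Function.Embedding.subtype _) = C :=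
    Finset.subtype_map_of_mem hC
  obtain ⟨i, j, hij, g, c, hc, h⟩ := hk F V {x // x ∈ X ∪ C} (X.subtype (fun x => x ∈ X ∪ C))
    (C.subtype (fun x => x ∈ X ∪ C)) ∅ ι (fun i x => f i x.1) h8
    (by
      ext x
      have h1 := x.2
      rw [Finset.mem_union] at h1
      simp only [Finset.union_empty, Finset.mem_union, Finset.mem_subtype, Finset.mem_univ,
        iff_true]
      exact h1)
    (by
      rw [Finset.disjoint_left] at hCX ⊢
      intro x h1 h2
      rw [Finset.mem_subtype] at h1 h2
      exact hCX h2 h1)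
    (Finset.disjoint_empty_right _)
    (by rw [← Finset.card_map (Function.Embedding.subtype _), eC]; exact hCt)
    (by rw [Finset.card_empty]; exact Nat.zero_le _)
    (by
      intro i
      have h1 := BlkK1_threeR hX (h3 i)
      have e1 : rk F (fun x : {x // x ∈ X ∪ C} => f i x.1)
          (Sp F (fun x : {x // x ∈ X ∪ C} => f i x.1) (C.subtype (fun x => x ∈ X ∪ C))) =
          fun A => rk F (f i) (Sp F (f i) C) (A.map (Function.Embedding.subtype _)) := by
        funext A
        rw [BlkK1_rk, BlkK1_Sp, eC]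
      rw [e1]
      exact h1)
    (by
      intro i j A _
      rw [BlkK1_Sp, BlkK1_Sp]
      exact hsame i j _ (Finset.subset_univ _))
    (by
      intro i
      rw [BlkK1_Sp, Finset.univ_eq_attach, Finset.attach_map_val]
      exact htop i)
    (fun i j => BlkK1_equiv hX hC (heq i j)) hcard
  refine ⟨i, j, hij, g, fun x => if hx : x ∈ X ∪ C then c ⟨x, hx⟩ else 1, ?_, ?_⟩
  · intro x
    beta_reduce
    by_cases hx : x ∈ X ∪ C
    · rw [dif_pos hx]
      exact hc _
    · rw [dif_neg hx]
      exact one_ne_zero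
  · intro x hx
    beta_reduce
    rw [dif_pos hx]
    exact h ⟨x, hx⟩

end Pool.MP_4929df_co.H92
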