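import Pool.Agent.W_4929df_h92.BlkJ
import Pool.Agent.W_4929df_h92.BlkK1

/-!
The bound for representations that induce equivalent representations of `N` (proofs row 572).
-/

set_option autoImplicit false

namespace Pool.MP_4929df_co.H92

open Submodule

/-- The abstract theorem. `k = k₁ * k₂` with `k₁` from `restrict_bound`, `k₂` from
`agree_bound_star`. `class_pigeon` for `EqOn (X ∪ C)` (its hypothesis: `restrict_bound` for the
subtype of `T : Set ι`); for `i₀` and the `i` related to it, `f i₀ x = c i x • g i (f i x)` on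
`X ∪ C`; apply `agree_bound_star` to `fun x => c i x • g i (f i x)` and `v = f i₀` as in
`mixed_bound` (`MixB3_Sp_map`). -/
theorem star_bound (t : ℕ) : ∃ k : ℕ, ∀ (F : Type) [Field F] (V : Type)
    [AddCommGroup V] [Module F V] [FiniteDimensional F V] (α : Type) [Fintype α] [DecidableEq α]
    (C X S : Finset α) (ι : Type) [Finite ι] (f : ι → α → V), Nat.card F = 8 → Disjoint C X →
    C.card ≤ t → (∀ i, ThreeR (rk F (f i) (Sp F (f i) C)) X) → S ⊆ X → S.card ≤ t →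
    (∀ i, ∀ x ∈ X \ S, ∃ P, SepN (rk F (f i) (Sp F (f i) C)) X S P ∧ x ∈ P ∧ P.card ≤ t) →
    (∀ i j, SameRk (F := F) (F' := F) Finset.univ (f i) (f j)) →
    (∀ i, Sp F (f i) (X ∪ C) = ⊤) → (∀ i j, EquivMod (F := F) C X (f i) (f j)) →
    k < Nat.card ι →
    ∃ i j, i ≠ j ∧ ∃ g : V ≃ₗ[F] V, ∃ c : α → F, (∀ x, c x ≠ 0) ∧ ∀ x, f i x = c x • g (f j x) := by
  obtain ⟨K₁, hK₁⟩ := restrict_bound t
  obtain ⟨K₂, hK₂⟩ := agree_bound_star t
  refine ⟨K₁ * K₂, ?_⟩
  intro F _ V _ _ _ α _ _ C X S ι _ f h8 hCX hCt h3 hSX hSt hsep hsame htop heq hcard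
  obtain ⟨i₀, hi₀⟩ := class_pigeon (ι := ι)
    (R := fun i j => EqOn (F := F) (X ∪ C) (f i) (f j))
    (fun i => ⟨LinearEquiv.refl F V, fun _ => 1, fun _ => one_ne_zero, fun x _ => by
      rw [one_smul, LinearEquiv.refl_apply]⟩)
    (by
      rintro i j ⟨g, c, hc, h⟩
      refine ⟨g.symm, fun x => (c x)⁻¹, fun x => inv_ne_zero (hc x), fun x hx => ?_⟩
      rw [h x hx, map_smul, LinearEquiv.symm_apply_apply, smul_smul, inv_mul_cancel₀ (hc x),
        one_smul])
    (by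
      intro T hT
      obtain ⟨i, j, hij, h⟩ := hK₁ F V α C X T (fun i => f i.1) h8 hCX hCt
        (fun i => h3 i.1) (fun i j => hsame i.1 j.1) (fun i => htop i.1)
        (fun i j => heq i.1 j.1) (by rwa [Nat.card_coe_set_eq])
      exact ⟨i.1, i.2, j.1, j.2, fun h => hij (Subtype.ext h), h⟩)
    hcard
  have hex : ∀ i : {i | EqOn (F := F) (X ∪ C) (f i₀) (f i)}, ∃ g : V ≃ₗ[F] V, ∃ c : α → F,
      (∀ x, c x ≠ 0) ∧ ∀ x ∈ X ∪ C, f i₀ x = c x • g (f i.1 x) := fun i => i.2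
  choose g c hc hgc using hex
  obtain ⟨i, j, hij, u, hu0, hu⟩ := hK₂ F V α (f i₀) C X S
    {i | EqOn (F := F) (X ∪ C) (f i₀) (f i)} (fun i x => c i x • g i (f i.1 x)) h8 hCt
    (by rw [← Sp_union]; exact htop i₀) (h3 i₀) hSX hSt (hsep i₀)
    (fun i x hx => (hgc i x hx).symm)
    (by
      intro i j A hA
      rw [MixB3_Sp_map (hc i), MixB3_Sp_map (hc j), LinearEquiv.finrank_map_eq,
        LinearEquiv.finrank_map_eq]
      exact hsame i.1 j.1 A hA)
    (by rwa [Nat.card_coe_set_eq])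
  refine ⟨i.1, j.1, fun h => hij (Subtype.ext h), (g j).trans (g i).symm,
    fun x => (c i x)⁻¹ * (u x * c j x),
    fun x => mul_ne_zero (inv_ne_zero (hc i x)) (mul_ne_zero (hu0 x) (hc j x)), fun x => ?_⟩
  have h1 : f i.1 x = (c i x)⁻¹ • (g i).symm (c i x • g i (f i.1 x)) := by
    rw [map_smul, LinearEquiv.symm_apply_apply, smul_smul, inv_mul_cancel₀ (hc i x), one_smul]
  rw [h1]
  have h2 : c i x • g i (f i.1 x) = u x • (c j x • g j (f j.1 x)) := hu x
  rw [h2, map_smul, map_smul, smul_smul, smul_smul, LinearEquiv.trans_apply, mul_assoc]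

end Pool.MP_4929df_co.H92
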