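import Pool.Agent.W_4929df_h92.BrwDefs

/-!
Equivalence of representations on a set `A`, with the boundary `Gd F w A` of `A`.
-/

set_option autoImplicit false

namespace Pool.MP_4929df_co.H92

open Submodule

variable {F : Type} [Field F] {E : Type} [Fintype E] [DecidableEq E] {V : Type}
  [AddCommGroup V] [Module F V] {w w' w'' : E → V} {A A' : Finset E}

theorem EqA.symm (h : EqA F A w w') : EqA F A w' w := by
  obtain ⟨g, c, h1, h2⟩ := h
  refine ⟨g.symm, fun x => (c x)⁻¹, fun x hx => ⟨inv_ne_zero (h1 x hx).1, ?_⟩, ?_⟩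
  · rw [(h1 x hx).2, map_smul, LinearEquiv.symm_apply_apply, smul_smul,
      inv_mul_cancel₀ (h1 x hx).1, one_smul]
  · rw [← h2, ← Submodule.map_comp]
    simp

theorem EqA.trans (h : EqA F A w w') (h' : EqA F A w' w'') : EqA F A w w'' := by
  obtain ⟨g, c, h1, h2⟩ := h
  obtain ⟨g', c', h1', h2'⟩ := h'
  refine ⟨g.trans g', fun x => c' x * c x, fun x hx =>
    ⟨mul_ne_zero (h1' x hx).1 (h1 x hx).1, ?_⟩, ?_⟩
  · rw [(h1' x hx).2, (h1 x hx).2, map_smul, smul_smul, LinearEquiv.trans_apply]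
  · rw [← h2', ← h2, ← Submodule.map_comp]
    rfl

/-- boundaries of subsets: `v ∈ Sp A' ⊓ Sp A'ᶜ`, `A'ᶜ = (A \ A') ∪ Aᶜ`, `v = b + c`,
`b ∈ Sp (A \ A')`, `c ∈ Sp Aᶜ`; then `c = v - b ∈ Sp A` -/
theorem Gd_sub (w : E → V) (h : A' ⊆ A) :
    Gd F w A' = Sp F w A' ⊓ (Sp F w (A \ A') ⊔ Gd F w A) := by
  have hc : A'ᶜ = (A \ A') ∪ Aᶜ := by
    ext x
    simp only [Finset.mem_compl, Finset.mem_union, Finset.mem_sdiff]
    have := @h x
    tauto
  unfold Gd
  rw [hc, Sp_union]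
  ext v
  simp only [Submodule.mem_inf]
  constructor
  · rintro ⟨hv, hv'⟩
    refine ⟨hv, ?_⟩
    obtain ⟨b, hb, c, hc', rfl⟩ := Submodule.mem_sup.1 hv'
    refine Submodule.mem_sup.2 ⟨b, hb, c, ⟨?_, hc'⟩, rfl⟩
    have h1 : c = (b + c) - b := by abel
    rw [h1]
    exact Submodule.sub_mem _ (Sp_mono h hv) (Sp_mono Finset.sdiff_subset hb)
  · rintro ⟨hv, hv'⟩
    refine ⟨hv, ?_⟩
    have h1 : Sp F w (A \ A') ⊔ Sp F w A ⊓ Sp F w Aᶜ ≤ Sp F w (A \ A') ⊔ Sp F w Aᶜ :=
      sup_le_sup_left inf_le_right _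
    exact h1 hv'

/-- a map that is an equivalence on `A` maps spans of subsets of `A` to the spans -/
theorem map_Sp {g : V ≃ₗ[F] V} {c : E → F} (h : ∀ x ∈ A, c x ≠ 0 ∧ w' x = c x • g (w x))
    (hA : A' ⊆ A) : (Sp F w A').map (g : V →ₗ[F] V) = Sp F w' A' := by
  apply le_antisymm
  · rw [Submodule.map_le_iff_le_comap, Sp_le]
    intro x hx
    rw [Submodule.mem_comap]
    obtain ⟨h0, h1⟩ := h x (hA hx)
    have h2 : g (w x) = (c x)⁻¹ • w' x := by
      rw [h1, smul_smul, inv_mul_cancel₀ h0, one_smul]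
    have h3 : g (w x) ∈ Sp F w' A' := by
      rw [h2]
      exact Submodule.smul_mem _ _ (mem_Sp hx)
    exact h3
  · rw [Sp_le]
    intro x hx
    rw [(h x (hA hx)).2]
    exact Submodule.smul_mem _ _ ⟨w x, mem_Sp hx, rfl⟩

/-- `Gd_sub` and `map_Sp` (`Submodule.map_inf` for an injective map, `Submodule.map_sup`) -/
theorem map_Gd {g : V ≃ₗ[F] V} {c : E → F} (h : ∀ x ∈ A, c x ≠ 0 ∧ w' x = c x • g (w x))
    (hG : (Gd F w A).map (g : V →ₗ[F] V) = Gd F w' A) (hA : A' ⊆ A) :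
    (Gd F w A').map (g : V →ₗ[F] V) = Gd F w' A' := by
  rw [Gd_sub w hA, Gd_sub w' hA, Submodule.map_inf _ g.injective, Submodule.map_sup, hG,
    map_Sp h hA, map_Sp h Finset.sdiff_subset]

theorem EqA.mono (h : EqA F A w w') (hA : A' ⊆ A) : EqA F A' w w' := by
  obtain ⟨g, c, h1, h2⟩ := h
  exact ⟨g, c, fun x hx => h1 x (hA hx), map_Gd h1 h2 hA⟩

/-- the dimension of the boundary is a rank of the matroid -/
theorem finrank_Gd [FiniteDimensional F V] (w : E → V) (A : Finset E) :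
    Module.finrank F (Gd F w A) + rk F w ⊥ Finset.univ = rk F w ⊥ A + rk F w ⊥ Aᶜ := by
  have h1 := Submodule.finrank_sup_add_finrank_inf_eq (Sp F w A) (Sp F w Aᶜ)
  rw [← Sp_union, Finset.union_compl] at h1
  unfold rk Gd
  rw [sup_bot_eq, sup_bot_eq, sup_bot_eq]
  omega

theorem finrank_Gd_same [FiniteDimensional F V] (h : SameR F w w') (A : Finset E) :
    Module.finrank F (Gd F w A) = Module.finrank F (Gd F w' A) := by
  have h1 := finrank_Gd (F := F) w A
  have h2 := finrank_Gd (F := F) w' A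
  have e1 := h A
  have e2 := h Aᶜ
  have e3 := h Finset.univ
  unfold rk at h1 h2
  rw [sup_bot_eq, sup_bot_eq, sup_bot_eq] at h1 h2
  omega

/-- the equivalence relation -/
def EqA.setoid (F : Type) [Field F] {E : Type} [Fintype E] [DecidableEq E] {V : Type}
    [AddCommGroup V] [Module F V] (w₀ : E → V) (A : Finset E) : Setoid (RepS F w₀) where
  r := fun u v => EqA F A u.1 v.1
  iseqv := ⟨fun u => EqA.refl F A u.1, fun h => h.symm, fun h h' => h.trans h'⟩

/-- the number of inequivalent representations on `A` -/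
noncomputable def nA (F : Type) [Field F] {E : Type} [Fintype E] [DecidableEq E] {V : Type}
    [AddCommGroup V] [Module F V] (w₀ : E → V) (A : Finset E) : ℕ :=
  Nat.card (Quotient (EqA.setoid F w₀ A))

end Pool.MP_4929df_co.H92
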