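import Pool.Agent.W_4929df_h92.UnqC

/-!
Relative uniqueness, lifting from the quotient.
-/

set_option autoImplicit false

namespace Pool.MP_4929df_co.H92

open Submodule

variable {F : Type} [Field F] {E : Type} [DecidableEq E] {V : Type} [AddCommGroup V] [Module F V]
  {w w' : E → V} {B : Submodule F V} {D : Finset E}

private theorem UnqC2_fun {u : V} (hu : u ∉ B) : ∃ f : V →ₗ[F] F, (∀ b ∈ B, f b = 0) ∧ f u = 1 := by
  obtain ⟨f, h1, h2⟩ := Submodule.exists_dual_map_eq_bot_of_notMem hu inferInstance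
  refine ⟨(f u)⁻¹ • f, fun b hb => ?_, ?_⟩
  · have h3 : f b ∈ B.map f := Submodule.mem_map_of_mem hb
    rw [h2, Submodule.mem_bot] at h3
    rw [LinearMap.smul_apply, h3, smul_zero]
  · rw [LinearMap.smul_apply, smul_eq_mul, inv_mul_cancel₀ h1]

private theorem UnqC2_fun2 {u u' : V} (hu : u ∉ B) (hu' : u' ∉ B) :
    ∃ f : V →ₗ[F] F, (∀ b ∈ B, f b = 0) ∧ f u = 1 ∧ f u' ≠ 0 := by
  obtain ⟨f, f1, f2⟩ := UnqC2_fun hu
  obtain ⟨f', f1', f2'⟩ := UnqC2_fun hu'
  by_cases h : f u' = 0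
  · by_cases h' : f' u = 0
    · refine ⟨f + f', fun b hb => ?_, ?_, ?_⟩
      · rw [LinearMap.add_apply, f1 b hb, f1' b hb, add_zero]
      · rw [LinearMap.add_apply, f2, h', add_zero]
      · rw [LinearMap.add_apply, h, f2', zero_add]
        exact one_ne_zero
    · refine ⟨(f' u)⁻¹ • f', fun b hb => ?_, ?_, ?_⟩
      · rw [LinearMap.smul_apply, f1' b hb, smul_zero]
      · rw [LinearMap.smul_apply, smul_eq_mul, inv_mul_cancel₀ h']
      · rw [LinearMap.smul_apply, smul_eq_mul, f2', mul_one]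
        exact inv_ne_zero h'
  · exact ⟨f, f1, f2, h⟩

/-- two vectors outside `B`: an automorphism fixing `B` maps one to the other. (If `u' ∈ B ⊔ ⟨u⟩`,
`u' = b + t • u`, `t ≠ 0`, take the identity on a complement and on `B`, `u ↦ u'`; otherwise extend
a basis. In general: both `B ⊔ ⟨u⟩` and `B ⊔ ⟨u'⟩` have dimension `finrank B + 1`; the isomorphism
of these subspaces extends to `V`.) -/
theorem exists_fix_move [FiniteDimensional F V] {u u' : V} (hu : u ∉ B) (hu' : u' ∉ B) :
    ∃ g : V ≃ₗ[F] V, (∀ b ∈ B, g b = b) ∧ g u = u' := by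
  obtain ⟨f, f1, f2, f3⟩ := UnqC2_fun2 hu hu'
  refine ⟨LinearEquiv.ofLinearMap (LinearMap.id + f.smulRight (u' - u))
    (LinearMap.id - ((f u')⁻¹ • f).smulRight (u' - u)) ?_ ?_, ?_, ?_⟩
  · ext v
    change (v - ((f u')⁻¹ * f v) • (u' - u)) + f (v - ((f u')⁻¹ * f v) • (u' - u)) • (u' - u) = v
    have e : f (v - ((f u')⁻¹ * f v) • (u' - u)) = (f u')⁻¹ * f v := by
      rw [map_sub, map_smul, map_sub, f2, smul_eq_mul]
      field_simp
      ring
    rw [e, sub_add_cancel]
  · ext v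
    change (v + f v • (u' - u)) - ((f u')⁻¹ * f (v + f v • (u' - u))) • (u' - u) = v
    have e : (f u')⁻¹ * f (v + f v • (u' - u)) = f v := by
      rw [map_add, map_smul, map_sub, f2, smul_eq_mul]
      field_simp
      ring
    rw [e, add_sub_cancel_right]
  · intro b hb
    change b + f b • (u' - u) = b
    rw [f1 b hb, zero_smul, add_zero]
  · change u + f u • (u' - u) = u'
    rw [f2, one_smul, add_sub_cancel]

/-- lifting an automorphism of the quotient that fixes the image of `B` (`u ∉ B`): choose a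
complement `W ≥ B` of `⟨u⟩` in `V`; `W ≃ V ⧸ ⟨u⟩` -/
theorem exists_lift [FiniteDimensional F V] {u : V} (hu : u ∉ B)
    (g : (V ⧸ span F {u}) ≃ₗ[F] (V ⧸ span F {u})) (hg : ∀ b ∈ qB F u B, g b = b) :
    ∃ g₀ : V ≃ₗ[F] V, (∀ b ∈ B, g₀ b = b) ∧ g₀ u = u ∧
      ∀ v, (span F {u}).mkQ (g₀ v) = g ((span F {u}).mkQ v) := by
  obtain ⟨f, f1, f2⟩ := UnqC2_fun hu
  -- the section
  obtain ⟨s, hs⟩ : ∃ s : (V ⧸ span F {u}) →ₗ[F] V, ∀ v, s ((span F {u}).mkQ v) = v - f v • u := by
    refine ⟨(span F {u}).liftQ (LinearMap.id - f.smulRight u) ?_, fun v => ?_⟩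
    · rw [span_singleton_le_iff_mem, LinearMap.mem_ker, LinearMap.sub_apply, LinearMap.id_apply,
        LinearMap.smulRight_apply, f2, one_smul, sub_self]
    · rw [mkQ_apply, liftQ_apply, LinearMap.sub_apply, LinearMap.id_apply, LinearMap.smulRight_apply]
  have hs1 : ∀ x, (span F {u}).mkQ (s x) = x := by
    intro x
    obtain ⟨v, rfl⟩ := (span F {u}).mkQ_surjective x
    rw [hs, map_sub, map_smul]
    have h1 : (span F {u}).mkQ u = 0 := by
      rw [mkQ_apply, Quotient.mk_eq_zero]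
      exact mem_span_singleton_self u
    rw [h1, smul_zero, sub_zero]
  have hs2 : ∀ x, f (s x) = 0 := by
    intro x
    obtain ⟨v, rfl⟩ := (span F {u}).mkQ_surjective x
    rw [hs, map_sub, map_smul, f2, smul_eq_mul, mul_one, sub_self]
  have hu0 : (span F {u}).mkQ u = 0 := by
    rw [mkQ_apply, Quotient.mk_eq_zero]
    exact mem_span_singleton_self u
  have key : ∀ v, (span F {u}).mkQ (s (g ((span F {u}).mkQ v)) + f v • u) = g ((span F {u}).mkQ v) := by
    intro v
    rw [map_add, map_smul, hu0, smul_zero, add_zero, hs1]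
  have key' : ∀ v, (span F {u}).mkQ (s (g.symm ((span F {u}).mkQ v)) + f v • u) =
      g.symm ((span F {u}).mkQ v) := by
    intro v
    rw [map_add, map_smul, hu0, smul_zero, add_zero, hs1]
  refine ⟨LinearEquiv.ofLinearMap
    (s ∘ₗ g.toLinearMap ∘ₗ (span F {u}).mkQ + f.smulRight u)
    (s ∘ₗ g.symm.toLinearMap ∘ₗ (span F {u}).mkQ + f.smulRight u) ?_ ?_, ?_, ?_, ?_⟩
  · ext v
    change s (g ((span F {u}).mkQ (s (g.symm ((span F {u}).mkQ v)) + f v • u))) +
      f (s (g.symm ((span F {u}).mkQ v)) + f v • u) • u = v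
    rw [key', g.apply_symm_apply, map_add, hs2, map_smul, f2, hs, smul_eq_mul, mul_one, zero_add, sub_add_cancel]
  · ext v
    change s (g.symm ((span F {u}).mkQ (s (g ((span F {u}).mkQ v)) + f v • u))) +
      f (s (g ((span F {u}).mkQ v)) + f v • u) • u = v
    rw [key, g.symm_apply_apply, map_add, hs2, map_smul, f2, hs, smul_eq_mul, mul_one, zero_add, sub_add_cancel]
  · intro b hb
    change s (g ((span F {u}).mkQ b)) + f b • u = b
    rw [hg _ (Submodule.mem_map_of_mem hb), hs, f1 b hb, zero_smul, sub_zero, add_zero]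
  · change s (g ((span F {u}).mkQ u)) + f u • u = u
    rw [hu0, map_zero, map_zero, f2, one_smul, zero_add]
  · intro v
    exact key v

/-- Consequence of uniqueness in the quotient: up to equivalence relative to `B` we may assume
that `w' d - w d` is a multiple of `u = w e` for all `d ∈ D.erase e` and `w' e = w e`. Take `g₀` from
`exists_lift`; `w₁ d = c d • g₀ (w d)` for `d ≠ e`, `w₁ e = w e`. -/
theorem exists_cong [FiniteDimensional F V] {e : E} (he : e ∈ D) (hu : w' e = w e) (hB : w e ∉ B)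
    (h : UEq F (qv F (w e) w) (qv F (w e) w') (qB F (w e) B) (D.erase e)) :
    ∃ w₁ : E → V, UEq F w w₁ B D ∧ w₁ e = w e ∧
      ∀ d ∈ D, ∃ t : F, w' d = w₁ d + t • w e := by
  obtain ⟨g, c, h1, h2⟩ := h
  obtain ⟨g₀, k1, k2, k3⟩ := exists_lift hB g h1
  refine ⟨fun d => if d = e then w e else c d • g₀ (w d),
    ⟨g₀, fun d => if d = e then 1 else c d, k1, fun x hx => ?_⟩, by simp, fun d hd => ?_⟩
  · by_cases hxe : x = e
    · subst hxe
      simp [k2]
    · beta_reduce
      rw [if_neg hxe, if_neg hxe]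
      exact ⟨(h2 x (Finset.mem_erase.2 ⟨hxe, hx⟩)).1, rfl⟩
  · by_cases hde : d = e
    · subst hde
      exact ⟨0, by simp [hu]⟩
    · simp only [hde, if_false]
      have h3 := (h2 d (Finset.mem_erase.2 ⟨hde, hd⟩)).2
      unfold qv at h3
      rw [← k3, ← map_smul, ← sub_eq_zero, ← map_sub, mkQ_apply, Quotient.mk_eq_zero, mem_span_singleton] at h3
      obtain ⟨t, ht⟩ := h3
      exact ⟨t, by rw [ht, add_sub_cancel]⟩

end Pool.MP_4929df_co.H92
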