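import Pool.Agent.W_4929df_h92.BrwA1
import Pool.Agent.W_4929df_h92.UnqC2

/-!
Counting representations on a set.
-/

set_option autoImplicit false

namespace Pool.MP_4929df_co.H92

open Submodule

variable {F : Type} [Field F] {E : Type} [Fintype E] [DecidableEq E] {V : Type}
  [AddCommGroup V] [Module F V] {w₀ : E → V} {A A' : Finset E}

private theorem BrwA2_fin [Finite V] : Finite (Quotient (EqA.setoid F w₀ A)) := by
  have h1 : Finite (RepS F w₀) := inferInstance
  infer_instance

/-- `RepS F w₀` is finite and nonempty -/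
theorem nA_pos [Finite V] : 0 < nA F w₀ A := by
  have h1 : Finite (Quotient (EqA.setoid F w₀ A)) := BrwA2_fin
  have h2 : Nonempty (Quotient (EqA.setoid F w₀ A)) :=
    ⟨Quotient.mk _ ⟨w₀, fun _ => rfl⟩⟩
  exact Nat.card_pos

/-- the map of quotients -/
private def BrwA2_map (h : A' ⊆ A) :
    Quotient (EqA.setoid F w₀ A) → Quotient (EqA.setoid F w₀ A') :=
  Quotient.map' id fun _ _ hab => EqA.mono hab h

private theorem BrwA2_surj (h : A' ⊆ A) : Function.Surjective (BrwA2_map (F := F) (w₀ := w₀) h) := by
  intro q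
  induction q using Quotient.inductionOn with
  | h a => exact ⟨Quotient.mk _ a, rfl⟩

/-- the map of quotients for `A' ⊆ A` (`EqA.mono`) is onto -/
theorem nA_mono [Finite V] (h : A' ⊆ A) : nA F w₀ A' ≤ nA F w₀ A := by
  have h1 : Finite (Quotient (EqA.setoid F w₀ A)) := BrwA2_fin
  exact Nat.card_le_card_of_surjective _ (BrwA2_surj h)

/-- a fibre of this map with more than `H` elements -/
theorem exists_many [Finite V] {H : ℕ} (h : A' ⊆ A) (hH : H * nA F w₀ A' < nA F w₀ A) :
    ∃ f : ℕ → RepS F w₀, (∀ i j, EqA F A' (f i).1 (f j).1) ∧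
      ∀ i, i ≤ H → ∀ j, j ≤ H → i ≠ j → ¬ EqA F A (f i).1 (f j).1 := by
  classical
  have h1 : Finite (Quotient (EqA.setoid F w₀ A)) := BrwA2_fin
  have h2 : Finite (Quotient (EqA.setoid F w₀ A')) := BrwA2_fin
  letI := Fintype.ofFinite (Quotient (EqA.setoid F w₀ A))
  letI := Fintype.ofFinite (Quotient (EqA.setoid F w₀ A'))
  have h3 : Fintype.card (Quotient (EqA.setoid F w₀ A')) * H <
      Fintype.card (Quotient (EqA.setoid F w₀ A)) := by
    rw [← Nat.card_eq_fintype_card, ← Nat.card_eq_fintype_card, mul_comm]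
    exact hH
  obtain ⟨y, hy⟩ := Fintype.exists_lt_card_fiber_of_mul_lt_card (BrwA2_map (F := F) (w₀ := w₀) h) h3
  obtain ⟨s, hs⟩ : ∃ s : Finset (Quotient (EqA.setoid F w₀ A)),
      s = Finset.univ.filter fun x => BrwA2_map (F := F) (w₀ := w₀) h x = y := ⟨_, rfl⟩
  rw [← hs] at hy
  obtain ⟨e, he⟩ : ∃ e : Fin (H + 1) → s, Function.Injective e :=
    ⟨fun i => s.equivFin.symm (Fin.castLE hy i), fun i j hij =>
      Fin.castLE_injective hy (s.equivFin.symm.injective hij)⟩
  have h5 : ∀ i : Fin (H + 1), BrwA2_map (F := F) (w₀ := w₀) h (e i).1 = y := by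
    intro i
    have h6 : ∀ z ∈ s, BrwA2_map (F := F) (w₀ := w₀) h z = y := by
      intro z hz
      rw [hs, Finset.mem_filter] at hz
      exact hz.2
    exact h6 _ (e i).2
  obtain ⟨f, hf⟩ : ∃ f : ℕ → RepS F w₀,
      f = fun i => (e ⟨min i H, by omega⟩).1.out := ⟨_, rfl⟩
  have h6 : ∀ i : ℕ, Quotient.mk (EqA.setoid F w₀ A) (f i) = (e ⟨min i H, by omega⟩).1 := by
    intro i
    rw [hf]
    exact Quotient.out_eq _
  have h7 : ∀ i : ℕ, Quotient.mk (EqA.setoid F w₀ A') (f i) = y := by
    intro i
    rw [← h5 ⟨min i H, by omega⟩, ← h6]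
    rfl
  refine ⟨f, fun i j => ?_, fun i hi j hj hij hE => ?_⟩
  · have h8 := (h7 i).trans (h7 j).symm
    exact Quotient.exact h8
  · have h8 : Quotient.mk (EqA.setoid F w₀ A) (f i) = Quotient.mk (EqA.setoid F w₀ A) (f j) :=
      Quotient.sound hE
    rw [h6, h6] at h8
    have h9 := he (Subtype.ext h8)
    rw [Fin.mk.injEq] at h9
    omega

/-- `K` pairwise inequivalent representations -/
theorem le_nA [Finite V] {K : ℕ} (f : Fin K → RepS F w₀)
    (hf : ∀ i j, i ≠ j → ¬ EqA F A (f i).1 (f j).1) : K ≤ nA F w₀ A := by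
  have h1 : Finite (Quotient (EqA.setoid F w₀ A)) := BrwA2_fin
  have h2 : Function.Injective fun i => Quotient.mk (EqA.setoid F w₀ A) (f i) := by
    intro i j hij
    by_contra hne
    exact hf i j hne (Quotient.exact hij)
  have h3 := Nat.card_le_card_of_injective _ h2
  rwa [Nat.card_eq_fintype_card, Fintype.card_fin] at h3

/-- One element. Let `w, w' ∈ RepS`. `w x = 0` iff `w' x = 0` (`SameR` for `{x}`);
`Gd F w {x} = Sp w {x}` iff `finrank (Gd F w {x}) = 1`, otherwise it is `⊥` (`finrank_Gd_same`). If
`w x ≠ 0` take `g` with `g (w x) = w' x` (`exists_fix_move` in `UnqC2` with `B = ⊥` is such a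
statement; or extend to a basis). -/
theorem nA_single [FiniteDimensional F V] (x : E) : nA F w₀ {x} ≤ 1 := by
  have key : ∀ u v : RepS F w₀, EqA F {x} u.1 v.1 := by
    rintro ⟨w, hw⟩ ⟨w', hw'⟩
    have hs : SameR F w w' := fun S => (hw S).symm.trans (hw' S)
    show EqA F {x} w w'
    have h1 := hs {x}
    rw [Sp_singleton, Sp_singleton] at h1
    have h2 := finrank_Gd_same hs {x}
    rcases eq_or_ne (w x) 0 with h0 | h0
    · have h0' : w' x = 0 := by
        by_contra hne
        rw [h0, span_zero_singleton, finrank_bot, finrank_span_singleton hne] at h1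
        omega
      have h3 : Gd F w {x} = ⊥ := by
        unfold Gd
        rw [Sp_singleton, h0, span_zero_singleton, bot_inf_eq]
      have h4 : Gd F w' {x} = ⊥ := by
        unfold Gd
        rw [Sp_singleton, h0', span_zero_singleton, bot_inf_eq]
      refine ⟨LinearEquiv.refl F V, fun _ => 1, ?_, ?_⟩
      · intro y hy
        rw [Finset.mem_singleton] at hy
        rw [hy, h0, h0']
        exact ⟨one_ne_zero, by simp⟩
      · rw [h3, h4, Submodule.map_bot]
    · have h0' : w' x ≠ 0 := by
        intro h3
        rw [h3, span_zero_singleton, finrank_bot, finrank_span_singleton h0] at h1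
        omega
      obtain ⟨g, -, hg⟩ := exists_fix_move (F := F) (B := (⊥ : Submodule F V))
        (u := w x) (u' := w' x) (by simpa using h0) (by simpa using h0')
      refine ⟨g, fun _ => 1, ?_, ?_⟩
      · intro y hy
        rw [Finset.mem_singleton] at hy
        rw [hy]
        exact ⟨one_ne_zero, by rw [one_smul, hg]⟩
      · have h3 : Gd F w {x} ≤ span F {w x} := by
          rw [← Sp_singleton]
          exact inf_le_left
        have h4 : Gd F w' {x} ≤ span F {w' x} := by
          rw [← Sp_singleton]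
          exact inf_le_left
        rcases Nat.eq_zero_or_pos (Module.finrank F (Gd F w {x})) with h5 | h5
        · have h6 : Gd F w {x} = ⊥ := Submodule.finrank_eq_zero.1 h5
          have h7 : Gd F w' {x} = ⊥ := Submodule.finrank_eq_zero.1 (h2 ▸ h5)
          rw [h6, h7, Submodule.map_bot]
        · have h6 : Gd F w {x} = span F {w x} :=
            Submodule.eq_of_le_of_finrank_le h3 (by rw [finrank_span_singleton h0]; exact h5)
          have h7 : Gd F w' {x} = span F {w' x} :=
            Submodule.eq_of_le_of_finrank_le h4 (by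
              rw [finrank_span_singleton h0', ← h2]
              exact h5)
          rw [h6, h7, Submodule.map_span, Set.image_singleton]
          show span F {g (w x)} = span F {w' x}
          rw [hg]
  have h1 : Subsingleton (Quotient (EqA.setoid F w₀ {x})) := by
    refine ⟨fun a b => ?_⟩
    induction a using Quotient.inductionOn with
    | h a =>
      induction b using Quotient.inductionOn with
      | h b => exact Quotient.sound (key a b)
  exact Finite.card_le_one_iff_subsingleton.2 h1

end Pool.MP_4929df_co.H92
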