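import Pool.Agent.W_4929df_h92.BrwA2

/-!
The number of representations on a union of two sets.
-/

set_option autoImplicit false

namespace Pool.MP_4929df_co.H92

open Submodule

variable {F : Type} [Field F] {E : Type} [Fintype E] [DecidableEq E] {V : Type}
  [AddCommGroup V] [Module F V] {w₀ w w' : E → V} {A A₁ A₂ : Finset E} {k : ℕ}

/-- a surjection onto a subspace of dimension at most `k` -/
theorem exists_onto [FiniteDimensional F V] (G : Submodule F V) (h : Module.finrank F G ≤ k) :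
    ∃ th : (Fin k → F) →ₗ[F] V, LinearMap.range th = G := by
  have e : (Fin (Module.finrank F G) → F) ≃ₗ[F] G :=
    LinearEquiv.ofFinrankEq _ _ (by simp)
  have hs : Function.Surjective (LinearMap.funLeft F F (Fin.castLE h)) :=
    LinearMap.funLeft_surjective_of_injective F F _ (Fin.castLE_injective h)
  refine ⟨G.subtype ∘ₗ (e : (Fin (Module.finrank F G) → F) →ₗ[F] G) ∘ₗ
    LinearMap.funLeft F F (Fin.castLE h), ?_⟩
  rw [LinearMap.range_comp, LinearMap.range_comp, LinearMap.range_eq_top.2 hs, Submodule.map_top,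
    LinearEquiv.range, Submodule.map_top, Submodule.range_subtype]

/-- An element of the boundary of `A₁ ∪ A₂` is a sum of elements of the boundaries: `v = a₁ + a₂`,
`a₁ = v - a₂ ∈ Sp (A₁ ∪ A₂)ᶜ ⊔ Sp A₂ ≤ Sp A₁ᶜ` -/
theorem Gd_union_mem (hd : Disjoint A₁ A₂) {a₁ a₂ : V} (h₁ : a₁ ∈ Sp F w A₁)
    (h₂ : a₂ ∈ Sp F w A₂) (h : a₁ + a₂ ∈ Gd F w (A₁ ∪ A₂)) :
    a₁ ∈ Gd F w A₁ ∧ a₂ ∈ Gd F w A₂ := by
  have hv : a₁ + a₂ ∈ Sp F w (A₁ ∪ A₂)ᶜ := h.2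
  have s1 : (A₁ ∪ A₂)ᶜ ⊆ A₁ᶜ := Finset.compl_subset_compl.2 Finset.subset_union_left
  have s2 : (A₁ ∪ A₂)ᶜ ⊆ A₂ᶜ := Finset.compl_subset_compl.2 Finset.subset_union_right
  have s3 : A₂ ⊆ A₁ᶜ := fun x hx => Finset.mem_compl.2 fun hx1 => Finset.disjoint_left.1 hd hx1 hx
  have s4 : A₁ ⊆ A₂ᶜ := fun x hx => Finset.mem_compl.2 fun hx1 => Finset.disjoint_left.1 hd hx hx1
  refine ⟨⟨h₁, ?_⟩, ⟨h₂, ?_⟩⟩
  · have h1 : a₁ = (a₁ + a₂) - a₂ := by abel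
    rw [h1]
    exact Submodule.sub_mem _ (Sp_mono s1 hv) (Sp_mono s3 h₂)
  · have h1 : a₂ = (a₁ + a₂) - a₁ := by abel
    rw [h1]
    exact Submodule.sub_mem _ (Sp_mono s2 hv) (Sp_mono s4 h₁)

/-- an isomorphism between two subspaces extends to the whole space -/
private theorem BrwA3_ext_iso [FiniteDimensional F V] {W W' : Submodule F V} (φ : W ≃ₗ[F] W') :
    ∃ g : V ≃ₗ[F] V, ∀ x : W, g x = φ x := by
  obtain ⟨C, hC⟩ := Submodule.exists_isCompl W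
  obtain ⟨C', hC'⟩ := Submodule.exists_isCompl W'
  have h1 := finrank_add_eq_of_isCompl hC
  have h2 := finrank_add_eq_of_isCompl hC'
  have h3 := φ.finrank_eq
  have h4 : Module.finrank F C = Module.finrank F C' := by omega
  let ψ : C ≃ₗ[F] C' := LinearEquiv.ofFinrankEq C C' h4
  refine ⟨(prodEquivOfIsCompl W C hC).symm ≪≫ₗ (φ.prodCongr ψ) ≪≫ₗ prodEquivOfIsCompl W' C' hC',
    fun x => ?_⟩
  simp

/-- a subspace of `V × V` which meets both factors in zero is part of the graph of an isomorphism -/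
private theorem BrwA3_ext [FiniteDimensional F V] (N : Submodule F (V × V))
    (h1 : ∀ v, ((0 : V), v) ∈ N → v = 0) (h2 : ∀ v, (v, (0 : V)) ∈ N → v = 0) :
    ∃ g : V ≃ₗ[F] V, ∀ v v', (v, v') ∈ N → g v = v' := by
  set f := (LinearMap.fst F V V).domRestrict N with hf
  set k := (LinearMap.snd F V V).domRestrict N with hk
  have hf1 : Function.Injective f := by
    rw [← LinearMap.ker_eq_bot, LinearMap.ker_eq_bot']
    rintro ⟨⟨a, b⟩, hn⟩ h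
    have ha : a = 0 := h
    subst ha
    have hb := h1 b hn
    subst hb
    rfl
  have hk1 : Function.Injective k := by
    rw [← LinearMap.ker_eq_bot, LinearMap.ker_eq_bot']
    rintro ⟨⟨a, b⟩, hn⟩ h
    have hb : b = 0 := h
    subst hb
    have ha := h2 a hn
    subst ha
    rfl
  obtain ⟨g, hg⟩ := BrwA3_ext_iso
    ((LinearEquiv.ofInjective f hf1).symm ≪≫ₗ LinearEquiv.ofInjective k hk1)
  refine ⟨g, fun v v' hn => ?_⟩
  have h3 := hg ((LinearEquiv.ofInjective f hf1) ⟨(v, v'), hn⟩)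
  rw [LinearEquiv.trans_apply, LinearEquiv.symm_apply_apply] at h3
  exact h3

/-- the pairs `(v₁ + v₂, g₁ v₁ + g₂ v₂)` -/
private def BrwA3_N (S₁ S₂ : Submodule F V) (g₁ g₂ : V ≃ₗ[F] V) : Submodule F (V × V) where
  carrier := {z | ∃ v₁ ∈ S₁, ∃ v₂ ∈ S₂, z = (v₁ + v₂, g₁ v₁ + g₂ v₂)}
  add_mem' := by
    rintro _ _ ⟨v₁, h1, v₂, h2, rfl⟩ ⟨u₁, h3, u₂, h4, rfl⟩
    refine ⟨v₁ + u₁, S₁.add_mem h1 h3, v₂ + u₂, S₂.add_mem h2 h4, ?_⟩
    rw [Prod.mk_add_mk, map_add, map_add]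
    exact Prod.ext (by simp only; abel) (by simp only; abel)
  zero_mem' := ⟨0, S₁.zero_mem, 0, S₂.zero_mem, Prod.ext (by simp) (by simp)⟩
  smul_mem' := by
    rintro c _ ⟨v₁, h1, v₂, h2, rfl⟩
    refine ⟨c • v₁, S₁.smul_mem c h1, c • v₂, S₂.smul_mem c h2, ?_⟩
    rw [Prod.smul_mk, map_smul, map_smul, smul_add, smul_add]

/-- Equivalences on `A₁` and `A₂` that agree with the position of the boundaries give an
equivalence on `A₁ ∪ A₂`. Define a linear map on `Sp w A₁ ⊔ Sp w A₂` by `a₁ + a₂ ↦ g₁ a₁ + g₂ a₂`: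
if `a₁ + a₂ = 0` then `a₁ ∈ Gd w A₁`, `a₂ ∈ Gd w A₂` (`Gd_union_mem`), `a₁ = th₁ a`, `a₂ = th₂ b`, and
`g₁ a₁ + g₂ a₂ = th₁' a + th₂' b = 0` by `hK`. In the same way it is injective (`map_Gd`,
`map_Sp` for the inverse). (For the formal proof take the linear map
`(v₁, v₂) ↦ g₁ v₁ + g₂ v₂` on `Sp w A₁ × Sp w A₂`, its kernel is the kernel of `v₁ + v₂`.) Extend it to
an automorphism `g` of `V`. The boundary of `A₁ ∪ A₂` is mapped onto the boundary by `hH`. -/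
theorem EqA_union [FiniteDimensional F V] (hd : Disjoint A₁ A₂)
    {th₁ th₂ th₁' th₂' : (Fin k → F) →ₗ[F] V}
    (r₁ : LinearMap.range th₁ = Gd F w A₁) (r₂ : LinearMap.range th₂ = Gd F w A₂)
    (r₁' : LinearMap.range th₁' = Gd F w' A₁) (r₂' : LinearMap.range th₂' = Gd F w' A₂)
    {g₁ g₂ : V ≃ₗ[F] V} {c₁ c₂ : E → F} (e₁ : ∀ x ∈ A₁, c₁ x ≠ 0 ∧ w' x = c₁ x • g₁ (w x))
    (e₂ : ∀ x ∈ A₂, c₂ x ≠ 0 ∧ w' x = c₂ x • g₂ (w x)) (t₁ : ∀ a, th₁' a = g₁ (th₁ a))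
    (t₂ : ∀ a, th₂' a = g₂ (th₂ a)) (hK : ∀ a b, th₁ a + th₂ b = 0 ↔ th₁' a + th₂' b = 0)
    (hH : ∀ a b, th₁ a + th₂ b ∈ Gd F w (A₁ ∪ A₂) ↔ th₁' a + th₂' b ∈ Gd F w' (A₁ ∪ A₂)) :
    EqA F (A₁ ∪ A₂) w w' := by
  have m₁ : ∀ v ∈ Sp F w A₁, g₁ v ∈ Sp F w' A₁ := fun v hv => by
    rw [← map_Sp e₁ subset_rfl]
    exact ⟨v, hv, rfl⟩
  have m₂ : ∀ v ∈ Sp F w A₂, g₂ v ∈ Sp F w' A₂ := fun v hv => by
    rw [← map_Sp e₂ subset_rfl]
    exact ⟨v, hv, rfl⟩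
  obtain ⟨g, hg⟩ := BrwA3_ext (BrwA3_N (Sp F w A₁) (Sp F w A₂) g₁ g₂) (by
    rintro v ⟨v₁, h1, v₂, h2, h3⟩
    rw [Prod.mk.injEq] at h3
    obtain ⟨h3, rfl⟩ := h3
    have h4 : v₁ + v₂ ∈ Gd F w (A₁ ∪ A₂) := by
      rw [← h3]
      exact Submodule.zero_mem _
    obtain ⟨h5, h6⟩ := Gd_union_mem hd h1 h2 h4
    rw [← r₁] at h5
    rw [← r₂] at h6
    obtain ⟨a, rfl⟩ := h5
    obtain ⟨b, rfl⟩ := h6
    rw [← t₁, ← t₂]
    exact (hK a b).1 h3.symm) (by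
    rintro v ⟨v₁, h1, v₂, h2, h3⟩
    rw [Prod.mk.injEq] at h3
    obtain ⟨rfl, h3⟩ := h3
    have h4 : g₁ v₁ + g₂ v₂ ∈ Gd F w' (A₁ ∪ A₂) := by
      rw [← h3]
      exact Submodule.zero_mem _
    obtain ⟨h5, h6⟩ := Gd_union_mem hd (m₁ v₁ h1) (m₂ v₂ h2) h4
    rw [← r₁'] at h5
    rw [← r₂'] at h6
    obtain ⟨a, ha⟩ := h5
    obtain ⟨b, hb⟩ := h6
    rw [← ha, ← hb] at h3
    have h7 := (hK a b).2 h3.symm
    rw [t₁] at ha
    rw [t₂] at hb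
    rw [← g₁.injective ha, ← g₂.injective hb]
    exact h7)
  have hgv : ∀ v₁ ∈ Sp F w A₁, ∀ v₂ ∈ Sp F w A₂, g (v₁ + v₂) = g₁ v₁ + g₂ v₂ :=
    fun v₁ h1 v₂ h2 => hg _ _ ⟨v₁, h1, v₂, h2, rfl⟩
  refine ⟨g, fun x => if x ∈ A₁ then c₁ x else c₂ x, fun x hx => ?_, ?_⟩
  · by_cases hx1 : x ∈ A₁
    · simp only [if_pos hx1]
      refine ⟨(e₁ x hx1).1, ?_⟩
      have h1 := hgv (w x) (mem_Sp hx1) 0 (Submodule.zero_mem _)
      rw [add_zero, map_zero, add_zero] at h1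
      rw [h1]
      exact (e₁ x hx1).2
    · simp only [if_neg hx1]
      have hx2 : x ∈ A₂ := (Finset.mem_union.1 hx).resolve_left hx1
      refine ⟨(e₂ x hx2).1, ?_⟩
      have h1 := hgv 0 (Submodule.zero_mem _) (w x) (mem_Sp hx2)
      rw [zero_add, map_zero, zero_add] at h1
      rw [h1]
      exact (e₂ x hx2).2
  · have q₁ : ∀ a, th₁ a ∈ Sp F w A₁ := fun a => by
      have h1 : th₁ a ∈ Gd F w A₁ := by
        rw [← r₁]
        exact ⟨a, rfl⟩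
      exact h1.1
    have q₂ : ∀ a, th₂ a ∈ Sp F w A₂ := fun a => by
      have h1 : th₂ a ∈ Gd F w A₂ := by
        rw [← r₂]
        exact ⟨a, rfl⟩
      exact h1.1
    have hgt : ∀ a b, g (th₁ a + th₂ b) = th₁' a + th₂' b := fun a b => by
      rw [hgv _ (q₁ a) _ (q₂ b), t₁, t₂]
    apply le_antisymm
    · rintro _ ⟨v, hv, rfl⟩
      have h1 : v ∈ Sp F w (A₁ ∪ A₂) := hv.1
      rw [Sp_union] at h1
      obtain ⟨v₁, h3, v₂, h2, rfl⟩ := Submodule.mem_sup.1 h1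
      obtain ⟨h5, h6⟩ := Gd_union_mem hd h3 h2 hv
      rw [← r₁] at h5
      rw [← r₂] at h6
      obtain ⟨a, rfl⟩ := h5
      obtain ⟨b, rfl⟩ := h6
      show g (th₁ a + th₂ b) ∈ Gd F w' (A₁ ∪ A₂)
      rw [hgt]
      exact (hH a b).1 hv
    · intro v hv
      have h1 : v ∈ Sp F w' (A₁ ∪ A₂) := hv.1
      rw [Sp_union] at h1
      obtain ⟨v₁, h3, v₂, h2, rfl⟩ := Submodule.mem_sup.1 h1
      obtain ⟨h5, h6⟩ := Gd_union_mem hd h3 h2 hv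
      rw [← r₁'] at h5
      rw [← r₂'] at h6
      obtain ⟨a, rfl⟩ := h5
      obtain ⟨b, rfl⟩ := h6
      exact ⟨th₁ a + th₂ b, (hH a b).2 hv, hgt a b⟩

end Pool.MP_4929df_co.H92
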