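import Pool.Agent.W_4929df_h92.BrwA3

/-!
The number of representations on a union of two sets, counting.
-/

set_option autoImplicit false

namespace Pool.MP_4929df_co.H92

open Submodule

variable {F : Type} [Field F] {E : Type} [Fintype E] [DecidableEq E] {V : Type}
  [AddCommGroup V] [Module F V] {w₀ w w' : E → V} {A A₁ A₂ : Finset E} {k : ℕ}

/-- the factor in `nA_union` -/
noncomputable def JJ (F : Type) (k : ℕ) : ℕ :=
  Nat.card (Set ((Fin k → F) × (Fin k → F)) × Set ((Fin k → F) × (Fin k → F)))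

theorem JJ_pos [Finite F] : 0 < JJ F k := by
  unfold JJ
  exact Nat.card_pos

private theorem BrwA3b_data [FiniteDimensional F V] (w₀ : E → V) (A : Finset E)
    (h : Module.finrank F (Gd F w₀ A) ≤ k) :
    ∃ (v : Quotient (EqA.setoid F w₀ A) → E → V) (th : Quotient (EqA.setoid F w₀ A) → (Fin k → F) →ₗ[F] V)
      (g : RepS F w₀ → V ≃ₗ[F] V) (c : RepS F w₀ → E → F),
      (∀ q, LinearMap.range (th q) = Gd F (v q) A) ∧
      ∀ w : RepS F w₀, (∀ x ∈ A, c w x ≠ 0 ∧ w.1 x = c w x • g w (v (Quotient.mk _ w) x)) ∧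
        (Gd F (v (Quotient.mk _ w)) A).map (g w : V →ₗ[F] V) = Gd F w.1 A := by
  have h1 : ∀ q : Quotient (EqA.setoid F w₀ A), ∃ th : (Fin k → F) →ₗ[F] V,
      LinearMap.range th = Gd F q.out.1 A := by
    intro q
    refine exists_onto _ ?_
    rw [← finrank_Gd_same (w := w₀) q.out.2 A]
    exact h
  choose th hth using h1
  have h2 : ∀ w : RepS F w₀, ∃ (g : V ≃ₗ[F] V) (c : E → F),
      (∀ x ∈ A, c x ≠ 0 ∧ w.1 x = c x • g ((Quotient.mk (EqA.setoid F w₀ A) w).out.1 x)) ∧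
      (Gd F ((Quotient.mk (EqA.setoid F w₀ A) w).out.1) A).map (g : V →ₗ[F] V) = Gd F w.1 A := by
    intro w
    have h3 : EqA F A (Quotient.mk (EqA.setoid F w₀ A) w).out.1 w.1 :=
      Quotient.mk_out (s := EqA.setoid F w₀ A) w
    exact h3
  choose g c hgc using h2
  exact ⟨fun q => q.out.1, th, g, c, hth, hgc⟩

/-- For a class of `EqA.setoid F w₀ A₁` let `v` be its representative (`Quotient.out`) and choose a
surjection `θ` onto `Gd F v A₁` (`exists_onto`, `finrank_Gd_same`); for every `w` in the class choose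
`g, c` from `EqA F A₁ v w`, and let `th₁ = g ∘ θ`; the same for `A₂`. Map `w` to the two classes and
the two sets `{(a, b) | th₁ a + th₂ b = 0}`, `{(a, b) | th₁ a + th₂ b ∈ Gd F w (A₁ ∪ A₂)}`. Two
representations with the same image are equivalent on `A₁ ∪ A₂` by `EqA_union`
(`g₁ = g' ∘ g⁻¹`). So `Nat.card` of the quotient is at most the one of the product. -/
theorem nA_union [Finite F] [Finite V] [FiniteDimensional F V] (hd : Disjoint A₁ A₂)
    (h₁ : Module.finrank F (Gd F w₀ A₁) ≤ k) (h₂ : Module.finrank F (Gd F w₀ A₂) ≤ k) :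
    nA F w₀ (A₁ ∪ A₂) ≤ JJ F k * (nA F w₀ A₁ * nA F w₀ A₂) := by
  obtain ⟨v₁, θ₁, g₁, c₁, r₁, e₁⟩ := BrwA3b_data (k := k) w₀ A₁ h₁
  obtain ⟨v₂, θ₂, g₂, c₂, r₂, e₂⟩ := BrwA3b_data (k := k) w₀ A₂ h₂
  -- the frames
  obtain ⟨T₁, hT₁⟩ : ∃ T : RepS F w₀ → (Fin k → F) →ₗ[F] V,
      ∀ w, T w = (g₁ w : V →ₗ[F] V) ∘ₗ θ₁ (Quotient.mk _ w) := ⟨_, fun _ => rfl⟩
  obtain ⟨T₂, hT₂⟩ : ∃ T : RepS F w₀ → (Fin k → F) →ₗ[F] V,
      ∀ w, T w = (g₂ w : V →ₗ[F] V) ∘ₗ θ₂ (Quotient.mk _ w) := ⟨_, fun _ => rfl⟩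
  have hr₁ : ∀ w, LinearMap.range (T₁ w) = Gd F w.1 A₁ := by
    intro w
    rw [hT₁, LinearMap.range_comp, r₁, (e₁ w).2]
  have hr₂ : ∀ w, LinearMap.range (T₂ w) = Gd F w.1 A₂ := by
    intro w
    rw [hT₂, LinearMap.range_comp, r₂, (e₂ w).2]
  let Φ : RepS F w₀ → (Set ((Fin k → F) × (Fin k → F)) × Set ((Fin k → F) × (Fin k → F))) ×
      (Quotient (EqA.setoid F w₀ A₁) × Quotient (EqA.setoid F w₀ A₂)) := fun w =>
    (({z | T₁ w z.1 + T₂ w z.2 = 0}, {z | T₁ w z.1 + T₂ w z.2 ∈ Gd F w.1 (A₁ ∪ A₂)}),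
      (Quotient.mk _ w, Quotient.mk _ w))
  have key : ∀ w w' : RepS F w₀, Φ w = Φ w' → EqA F (A₁ ∪ A₂) w.1 w'.1 := by
    intro w w' hww
    have a1 : {z : (Fin k → F) × (Fin k → F) | T₁ w z.1 + T₂ w z.2 = 0} =
        {z | T₁ w' z.1 + T₂ w' z.2 = 0} := congrArg (fun z => z.1.1) hww
    have a2 : {z : (Fin k → F) × (Fin k → F) | T₁ w z.1 + T₂ w z.2 ∈ Gd F w.1 (A₁ ∪ A₂)} =
        {z | T₁ w' z.1 + T₂ w' z.2 ∈ Gd F w'.1 (A₁ ∪ A₂)} := congrArg (fun z => z.1.2) hww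
    have a3 : Quotient.mk (EqA.setoid F w₀ A₁) w = Quotient.mk (EqA.setoid F w₀ A₁) w' :=
      congrArg (fun z => z.2.1) hww
    have a4 : Quotient.mk (EqA.setoid F w₀ A₂) w = Quotient.mk (EqA.setoid F w₀ A₂) w' :=
      congrArg (fun z => z.2.2) hww
    refine EqA_union hd (hr₁ w) (hr₂ w) (hr₁ w') (hr₂ w')
      (g₁ := (g₁ w).symm.trans (g₁ w')) (g₂ := (g₂ w).symm.trans (g₂ w'))
      (c₁ := fun x => c₁ w' x * (c₁ w x)⁻¹) (c₂ := fun x => c₂ w' x * (c₂ w x)⁻¹) ?_ ?_ ?_ ?_ ?_ ?_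
    · intro x hx
      have b1 := (e₁ w).1 x hx
      have b2 := (e₁ w').1 x hx
      rw [← a3] at b2
      refine ⟨mul_ne_zero b2.1 (inv_ne_zero b1.1), ?_⟩
      rw [LinearEquiv.trans_apply]
      conv_rhs => rw [b1.2]
      rw [map_smul, map_smul, LinearEquiv.symm_apply_apply, smul_smul, mul_assoc, inv_mul_cancel₀ b1.1, mul_one]
      exact b2.2
    · intro x hx
      have b1 := (e₂ w).1 x hx
      have b2 := (e₂ w').1 x hx
      rw [← a4] at b2
      refine ⟨mul_ne_zero b2.1 (inv_ne_zero b1.1), ?_⟩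
      rw [LinearEquiv.trans_apply]
      conv_rhs => rw [b1.2]
      rw [map_smul, map_smul, LinearEquiv.symm_apply_apply, smul_smul, mul_assoc, inv_mul_cancel₀ b1.1, mul_one]
      exact b2.2
    · intro a
      rw [hT₁, hT₁, ← a3]
      change g₁ w' (θ₁ _ a) = g₁ w' ((g₁ w).symm (g₁ w (θ₁ _ a)))
      rw [LinearEquiv.symm_apply_apply]
    · intro a
      rw [hT₂, hT₂, ← a4]
      change g₂ w' (θ₂ _ a) = g₂ w' ((g₂ w).symm (g₂ w (θ₂ _ a)))
      rw [LinearEquiv.symm_apply_apply]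
    · intro a b
      exact Set.ext_iff.1 a1 (a, b)
    · intro a b
      exact Set.ext_iff.1 a2 (a, b)
  have hinj : Function.Injective fun q : Quotient (EqA.setoid F w₀ (A₁ ∪ A₂)) => Φ q.out := by
    intro q q' hqq
    have h3 : (EqA.setoid F w₀ (A₁ ∪ A₂)).r q.out q'.out := key _ _ hqq
    have h4 := Quotient.sound (s := EqA.setoid F w₀ (A₁ ∪ A₂)) h3
    rwa [Quotient.out_eq, Quotient.out_eq] at h4
  have h5 := Nat.card_le_card_of_injective _ hinj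
  rw [Nat.card_prod, Nat.card_prod (Quotient (EqA.setoid F w₀ A₁))] at h5
  exact h5

end Pool.MP_4929df_co.H92
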