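import Pool.Agent.W_4929df_h92.BrwA3b

/-!
Descent in the tree.
-/

set_option autoImplicit false

namespace Pool.MP_4929df_co.H92

open Submodule

variable {F : Type} [Field F] {E : Type} [Fintype E] [DecidableEq E] {V : Type}
  [AddCommGroup V] [Module F V] {w₀ : E → V} {k : ℕ}

theorem BTree.all_els {P : Finset E → Prop} {t : BTree E} (h : t.All P) : P t.els := by
  cases t with
  | leaf e => exact h
  | node l r => exact h.1

/-- Induction on `t`. Leaf: `nA_single`. Node: if `N ≤ nA l.els` use `l`; if `N ≤ nA r.els` use `r`;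
otherwise `nA_union` gives `nA (l.els ∪ r.els) ≤ JJ F k * (N * N)`. -/
theorem tree_window [Finite F] [Finite V] [FiniteDimensional F V] {N : ℕ} (hN : 1 ≤ N)
    (t : BTree E) (ht : t.Good) (hw : t.All (fun A => Module.finrank F (Gd F w₀ A) ≤ k))
    (h : N ≤ nA F w₀ t.els) :
    ∃ t' : BTree E, t'.Good ∧ t'.All (fun A => Module.finrank F (Gd F w₀ A) ≤ k) ∧
      t'.els ⊆ t.els ∧ N ≤ nA F w₀ t'.els ∧ nA F w₀ t'.els ≤ JJ F k * (N * N) := by
  induction t with
  | leaf e =>
    refine ⟨.leaf e, ht, hw, subset_rfl, h, ?_⟩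
    have h1 : nA F w₀ (BTree.leaf e).els ≤ 1 := nA_single e
    have h2 : 0 < JJ F k * (N * N) := Nat.mul_pos JJ_pos (Nat.mul_pos hN hN)
    omega
  | node l r ihl ihr =>
    obtain ⟨hd, hgl, hgr⟩ := ht
    obtain ⟨h0, hwl, hwr⟩ := hw
    by_cases hl : N ≤ nA F w₀ l.els
    · obtain ⟨t', a1, a2, a3, a4, a5⟩ := ihl hgl hwl hl
      exact ⟨t', a1, a2, a3.trans Finset.subset_union_left, a4, a5⟩
    · by_cases hr : N ≤ nA F w₀ r.els
      · obtain ⟨t', a1, a2, a3, a4, a5⟩ := ihr hgr hwr hr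
        exact ⟨t', a1, a2, a3.trans Finset.subset_union_right, a4, a5⟩
      · refine ⟨.node l r, ⟨hd, hgl, hgr⟩, ⟨h0, hwl, hwr⟩, subset_rfl, h, ?_⟩
        have h1 : nA F w₀ (l.els ∪ r.els) ≤ JJ F k * (nA F w₀ l.els * nA F w₀ r.els) :=
          nA_union hd (BTree.all_els hwl) (BTree.all_els hwr)
        exact h1.trans (Nat.mul_le_mul_left _ (Nat.mul_le_mul (by omega) (by omega)))

/-- Induction on `L`. `N = 1` for `L = 0` (`f = fun _ => t.els`). If `N ≥ 1` is the number for `L`, take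
`N' = H * (JJ F k * (N * N)) + N + 1` for `L + 1`: `tree_window` gives `t'`; the chain `f` for `t'` has
`nA (f L) ≤ nA t'.els ≤ JJ F k * (N * N)` (`nA_mono`); put `f (L + 1) = t.els`. -/
theorem tree_chain (F : Type) [Field F] [Finite F] (k H L : ℕ) : ∃ N : ℕ, 1 ≤ N ∧
    ∀ (E : Type) [Fintype E] [DecidableEq E] (V : Type) [AddCommGroup V] [Module F V] [Finite V]
      (w₀ : E → V) (t : BTree E), t.Good →
      t.All (fun A => Module.finrank F (Gd F w₀ A) ≤ k) → N ≤ nA F w₀ t.els →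
      ∃ f : ℕ → Finset E, f L ⊆ t.els ∧ (∀ j, j < L → f j ⊆ f (j + 1)) ∧
        (∀ j, j ≤ L → Module.finrank F (Gd F w₀ (f j)) ≤ k) ∧
        ∀ j, j < L → H * nA F w₀ (f j) < nA F w₀ (f (j + 1)) := by
  induction L with
  | zero =>
    refine ⟨1, le_rfl, ?_⟩
    intro E _ _ V _ _ _ w₀ t _ hw _
    exact ⟨fun _ => t.els, subset_rfl, fun j hj => absurd hj (Nat.not_lt_zero j),
      fun _ _ => BTree.all_els hw, fun j hj => absurd hj (Nat.not_lt_zero j)⟩
  | succ L ih =>
    obtain ⟨N, hN, ih⟩ := ih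
    refine ⟨H * (JJ F k * (N * N)) + N + 1, by omega, ?_⟩
    intro E _ _ V _ _ _ w₀ t hg hw h
    have : FiniteDimensional F V := Module.Finite.of_finite
    obtain ⟨t', b1, b2, b3, b4, b5⟩ := tree_window hN t hg hw (by omega)
    obtain ⟨f, f1, f2, f3, f4⟩ := ih E V w₀ t' b1 b2 b4
    obtain ⟨G, g1, g2⟩ : ∃ G : ℕ → Finset E, (∀ j, j ≤ L → G j = f j) ∧ ∀ j, L < j → G j = t.els :=
      ⟨fun j => if j ≤ L then f j else t.els, fun j hj => if_pos hj, fun j hj => if_neg (by omega)⟩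
    refine ⟨G, ?_, ?_, ?_, ?_⟩
    · rw [g2 _ (Nat.lt_succ_self L)]
    · intro j hj
      rcases Nat.lt_or_ge j L with h1 | h1
      · rw [g1 j (by omega), g1 (j + 1) (by omega)]
        exact f2 j h1
      · have h2 : j = L := by omega
        rw [h2, g1 L le_rfl, g2 (L + 1) (by omega)]
        exact f1.trans b3
    · intro j hj
      rcases Nat.lt_or_ge L j with h1 | h1
      · rw [g2 j h1]
        exact BTree.all_els hw
      · rw [g1 j h1]
        exact f3 j h1
    · intro j hj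
      rcases Nat.lt_or_ge j L with h1 | h1
      · rw [g1 j (by omega), g1 (j + 1) (by omega)]
        exact f4 j h1
      · have h2 : j = L := by omega
        rw [h2, g1 L le_rfl, g2 (L + 1) (by omega)]
        have h3 : nA F w₀ (f L) ≤ nA F w₀ t'.els := nA_mono f1
        have h4 : H * nA F w₀ (f L) ≤ H * (JJ F k * (N * N)) :=
          Nat.mul_le_mul_left _ (h3.trans b5)
        omega

end Pool.MP_4929df_co.H92
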