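import Mathlib

/-!
Ramsey's theorem for pairs.
-/

set_option autoImplicit false

namespace Pool.MP_4929df_co.H92

/-- First step: a sequence in which the colour of `(i, j)`, `i < j`, depends on `i` only. Statement by
induction on `m`: for every `m` there is `N` such that for every `f` and every set `S` of at least `N`
natural numbers there are `m` elements of `S` with this property: take the least element `x` of `S`,
split the rest by the colour `f x y`, use a class with at least `(N - 1) / card C` elements. -/
theorem ramsey_one (C : Type) [Finite C] (m : ℕ) : ∃ N : ℕ, ∀ (f : ℕ → ℕ → C) (S : Finset ℕ),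
    N ≤ S.card → ∃ g : ℕ → ℕ, (∀ i, i < m → g i ∈ S) ∧ (∀ i j, i < j → j < m → g i < g j) ∧
      ∃ c : ℕ → C, ∀ i j, i < j → j < m → f (g i) (g j) = c i := by
  classical
  haveI : Fintype C := Fintype.ofFinite C
  induction m with
  | zero =>
    refine ⟨0, fun f S _ => ⟨id, ?_, ?_, fun i => f i i, ?_⟩⟩
    · intro i hi
      omega
    · intro i j _ hj
      omega
    · intro i j _ hj
      omega
  | succ m ih =>
    obtain ⟨N', hN'⟩ := ih
    refine ⟨Fintype.card C * N' + 1, fun f S hS => ?_⟩
    have hne : S.Nonempty := Finset.card_pos.1 (by omega)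
    set x := S.min' hne with hx
    have hxS : x ∈ S := S.min'_mem hne
    have hcard : (Finset.univ : Finset C).card * N' ≤ (S.erase x).card := by
      rw [Finset.card_erase_of_mem hxS, Finset.card_univ]
      omega
    obtain ⟨c₀, -, hc₀⟩ := Finset.exists_le_card_fiber_of_mul_le_card_of_maps_to
      (s := S.erase x) (t := (Finset.univ : Finset C)) (f := fun y => f x y) (n := N')
      (fun _ _ => Finset.mem_univ _) ⟨f 0 0, Finset.mem_univ _⟩ hcard
    obtain ⟨g', h1, h2, c', h3⟩ := hN' f _ hc₀
    refine ⟨fun i => Nat.casesOn i x g', ?_, ?_, fun i => Nat.casesOn i c₀ c', ?_⟩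
    · intro i hi
      cases i with
      | zero => exact hxS
      | succ i =>
        have := h1 i (by omega)
        rw [Finset.mem_filter, Finset.mem_erase] at this
        exact this.1.2
    · intro i j hij hj
      cases j with
      | zero => omega
      | succ j =>
        cases i with
        | zero =>
          have := h1 j (by omega)
          rw [Finset.mem_filter, Finset.mem_erase] at this
          exact lt_of_le_of_ne (S.min'_le _ this.1.2) (Ne.symm this.1.1)
        | succ i => exact h2 i j (by omega) (by omega)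
    · intro i j hij hj
      cases j with
      | zero => omega
      | succ j =>
        cases i with
        | zero =>
          have := h1 j (by omega)
          rw [Finset.mem_filter] at this
          exact this.2
        | succ i => exact h3 i j (by omega) (by omega)

/-- pigeonhole for sequences: many values of the same colour -/
theorem pigeon_seq (C : Type) [Finite C] (m : ℕ) : ∃ N : ℕ, ∀ f : ℕ → C,
    ∃ g : ℕ → ℕ, (∀ i, i < m → g i < N) ∧ (∀ i j, i < j → j < m → g i < g j) ∧
      ∃ c : C, ∀ i, i < m → f (g i) = c := by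
  classical
  haveI : Fintype C := Fintype.ofFinite C
  refine ⟨Fintype.card C * m, fun f => ?_⟩
  obtain ⟨c, -, hc⟩ := Finset.exists_le_card_fiber_of_mul_le_card_of_maps_to
      (s := Finset.range (Fintype.card C * m)) (t := (Finset.univ : Finset C)) (f := f) (n := m)
      (fun _ _ => Finset.mem_univ _) ⟨f 0, Finset.mem_univ _⟩ (by rw [Finset.card_range, Finset.card_univ])
  obtain ⟨T, hT, hTc⟩ := Finset.exists_subset_card_eq hc
  refine ⟨fun i => if h : i < m then T.orderEmbOfFin hTc ⟨i, h⟩ else 0, ?_, ?_, c, ?_⟩
  · intro i hi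
    have h1 := hT (T.orderEmbOfFin_mem hTc ⟨i, hi⟩)
    rw [Finset.mem_filter, Finset.mem_range] at h1
    simp only [hi, dif_pos]
    exact h1.1
  · intro i j hij hj
    have hi : i < m := by omega
    simp only [hi, hj, dif_pos]
    exact (T.orderEmbOfFin hTc).strictMono (show (⟨i, hi⟩ : Fin m) < ⟨j, hj⟩ from hij)
  · intro i hi
    have h1 := hT (T.orderEmbOfFin_mem hTc ⟨i, hi⟩)
    rw [Finset.mem_filter] at h1
    simp only [hi, dif_pos]
    exact h1.2

/-- Ramsey: `ramsey_one` for `card C * m + 1` and the pigeonhole principle for `c` -/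
theorem ramsey (C : Type) [Finite C] (m : ℕ) : ∃ N : ℕ, ∀ f : ℕ → ℕ → C,
    ∃ g : ℕ → ℕ, (∀ i, i < m → g i < N) ∧ (∀ i j, i < j → j < m → g i < g j) ∧
      ∃ c : C, ∀ i j, i < j → j < m → f (g i) (g j) = c := by
  obtain ⟨P, hP⟩ := pigeon_seq C m
  obtain ⟨N, hN⟩ := ramsey_one C P
  refine ⟨N, fun f => ?_⟩
  obtain ⟨g, h1, h2, c, h3⟩ := hN f (Finset.range N) (by rw [Finset.card_range])
  obtain ⟨g₂, k1, k2, c₀, k3⟩ := hP c
  refine ⟨fun i => g (g₂ i), ?_, ?_, c₀, ?_⟩
  · intro i hi
    exact Finset.mem_range.1 (h1 _ (k1 i hi))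
  · intro i j hij hj
    exact h2 _ _ (k2 i j hij hj) (k1 j hj)
  · intro i j hij hj
    have e1 := h3 _ _ (k2 i j hij hj) (k1 j hj)
    have e2 := k3 i (by omega)
    rw [e1, e2]

end Pool.MP_4929df_co.H92
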