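import Pool.Agent.W_4929df_h92.BrwA4
import Pool.Agent.W_4929df_h92.BrwR

/-!
A long linked chain of sets of the same connectivity.
-/

set_option autoImplicit false

namespace Pool.MP_4929df_co.H92

open Submodule

/-- `f` as in `tree_chain` with `L = N` large, `H ≥ 1`. For `i < j` let `κ i j` be the least
`finrank (Gd F w₀ X)`, `f i ⊆ X ⊆ f j` (at most `k`, take `X = f i`); `ramsey` for `Fin (k + 1)` and
`2 * n + 2` gives positions `g 0 < ... < g (2 n + 1) < N` with `κ = s` for all pairs. Choose `A l`,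
`f (g (2 l)) ⊆ A l ⊆ f (g (2 l + 1))`, `finrank (Gd F w₀ (A l)) = s`. Sets between `A 0` and `A n` are
between `f (g 0)` and `f (g (2 n + 1))`. `H * nA (A l) ≤ H * nA (f (g (2 l + 1))) <
nA (f (g (2 l + 1) + 1)) ≤ nA (f (g (2 l + 2))) ≤ nA (A (l + 1))`, so also `A l ≠ A (l + 1)`
(`1 ≤ H`). Take the `N` of `tree_chain` for `L = N_ramsey`. -/
theorem exists_lnk (F : Type) [Field F] [Finite F] (k H n : ℕ) (hH : 1 ≤ H) : ∃ N : ℕ,
    ∀ (E : Type) [Fintype E] [DecidableEq E] (V : Type) [AddCommGroup V] [Module F V] [Finite V]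
      (w₀ : E → V) (t : BTree E), t.Good →
      t.All (fun A => Module.finrank F (Gd F w₀ A) ≤ k) → N ≤ nA F w₀ t.els →
      ∃ (s : ℕ) (A : ℕ → Finset E), s ≤ k ∧ Lnk F w₀ A n s ∧
        ∀ l, l < n → H * nA F w₀ (A l) < nA F w₀ (A (l + 1)) := by
  classical
  obtain ⟨N0, hram⟩ := ramsey (Fin (k + 1)) (2 * n + 2)
  obtain ⟨N, hN1, htree⟩ := tree_chain F k H N0
  refine ⟨N, ?_⟩
  intro E _ _ V _ _ _ w₀ t ht hw hN
  obtain ⟨f, -, hfmono, hfk, hfH⟩ := htree E V w₀ t ht hw hN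
  have hmono : ∀ i j, i ≤ j → j ≤ N0 → f i ⊆ f j := by
    intro i j hij
    induction j, hij using Nat.le_induction with
    | base => exact fun _ => Finset.Subset.refl _
    | succ j hij ih => exact fun h => (ih (by omega)).trans (hfmono j (by omega))
  obtain ⟨S, hS⟩ : ∃ S : ℕ → ℕ → Set ℕ, ∀ i j, S i j =
      {m | ∃ X : Finset E, f i ⊆ X ∧ X ⊆ f j ∧ Module.finrank F (Gd F w₀ X) = m} := ⟨_, fun _ _ => rfl⟩
  have hSk : ∀ i j, i ≤ j → j ≤ N0 → sInf (S i j) ≤ k := by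
    intro i j hij hj
    refine le_trans (Nat.sInf_le ?_) (hfk i (hij.trans hj))
    rw [hS]
    exact ⟨f i, Finset.Subset.refl _, hmono i j hij hj, rfl⟩
  obtain ⟨g, hgN, hgm, c, hc⟩ := hram fun i j => ⟨min (sInf (S i j)) k, by omega⟩
  obtain ⟨s, hs⟩ : ∃ s : ℕ, s = (c : ℕ) := ⟨_, rfl⟩
  have hsk : s ≤ k := by
    rw [hs]
    have := c.2
    omega
  have hκ : ∀ i j, i < j → j < 2 * n + 2 → sInf (S (g i) (g j)) = s := by
    intro i j hij hj
    have h1 := congrArg Fin.val (hc i j hij hj)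
    simp only at h1
    have h2 := hSk (g i) (g j) (hgm i j hij hj).le (hgN j hj).le
    rw [min_eq_left h2] at h1
    rw [hs, h1]
  have hex : ∀ l, ∃ X : Finset E, l ≤ n → f (g (2 * l)) ⊆ X ∧ X ⊆ f (g (2 * l + 1)) ∧
      Module.finrank F (Gd F w₀ X) = s := by
    intro l
    by_cases hl : l ≤ n
    · have h1 := hgm (2 * l) (2 * l + 1) (by omega) (by omega)
      have h2 := hgN (2 * l + 1) (by omega)
      have hne : (S (g (2 * l)) (g (2 * l + 1))).Nonempty := by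
        rw [hS]
        exact ⟨_, f (g (2 * l)), Finset.Subset.refl _, hmono _ _ h1.le h2.le, rfl⟩
      have h3 := Nat.sInf_mem hne
      rw [hκ (2 * l) (2 * l + 1) (by omega) (by omega), hS] at h3
      obtain ⟨X, hX1, hX2, hX3⟩ := h3
      exact ⟨X, fun _ => ⟨hX1, hX2, hX3⟩⟩
    · exact ⟨∅, fun h => absurd h hl⟩
  choose A hA using hex
  have hgrow : ∀ l, l < n → H * nA F w₀ (A l) < nA F w₀ (A (l + 1)) := by
    intro l hl
    obtain ⟨-, h1, -⟩ := hA l hl.le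
    obtain ⟨h2, -, -⟩ := hA (l + 1) hl
    have h3 : nA F w₀ (A l) ≤ nA F w₀ (f (g (2 * l + 1))) := nA_mono h1
    have h4 : g (2 * l + 1) < N0 := hgN _ (by omega)
    have h5 := hfH _ h4
    have h6 : g (2 * l + 1) < g (2 * (l + 1)) := hgm _ _ (by omega) (by omega)
    have h7 : g (2 * (l + 1)) < N0 := hgN _ (by omega)
    have h8 : nA F w₀ (f (g (2 * l + 1) + 1)) ≤ nA F w₀ (f (g (2 * (l + 1)))) :=
      nA_mono (hmono _ _ (by omega) h7.le)
    have h9 : nA F w₀ (f (g (2 * (l + 1)))) ≤ nA F w₀ (A (l + 1)) := nA_mono h2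
    have h10 : H * nA F w₀ (A l) ≤ H * nA F w₀ (f (g (2 * l + 1))) := Nat.mul_le_mul_left H h3
    omega
  refine ⟨s, A, hsk, ⟨?_, ?_, ?_⟩, hgrow⟩
  · intro l hl
    have h0 := hgrow l hl
    obtain ⟨-, h1, -⟩ := hA l hl.le
    obtain ⟨h2, -, -⟩ := hA (l + 1) hl
    have h6 : g (2 * l + 1) < g (2 * (l + 1)) := hgm _ _ (by omega) (by omega)
    have h7 : g (2 * (l + 1)) < N0 := hgN _ (by omega)
    have hsub : A l ⊆ A (l + 1) := h1.trans ((hmono _ _ h6.le h7.le).trans h2)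
    refine lt_of_le_of_ne hsub fun h => ?_
    rw [← h] at h0
    have h3 : nA F w₀ (A l) ≤ H * nA F w₀ (A l) := Nat.le_mul_of_pos_left _ (by omega)
    omega
  · intro l hl
    exact (hA l hl).2.2
  · intro B h1 h2
    rw [← hκ 0 (2 * n + 1) (by omega) (by omega)]
    refine Nat.sInf_le ?_
    rw [hS]
    refine ⟨B, ?_, ?_, rfl⟩
    · have h3 := (hA 0 (Nat.zero_le _)).1
      simp only [Nat.mul_zero] at h3
      exact h3.trans h1
    · exact h2.trans (hA n le_rfl).2.1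

end Pool.MP_4929df_co.H92
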