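import Pool.Agent.W_4929df_h92.BrwA1

/-!
Traces and labels of framed representations.
-/

set_option autoImplicit false

namespace Pool.MP_4929df_co.H92

open Submodule

variable {F : Type} [Field F] {E : Type} [Fintype E] [DecidableEq E] {V : Type}
  [AddCommGroup V] [Module F V] {w₀ : E → V} {A : ℕ → Finset E} {n s : ℕ}
  {u v x : FRep F w₀ A n s}

/-- membership in the boundary, through the frame -/
private theorem BrwC1_ex {l : ℕ} (hl : l ≤ n) {y : V} (h1 : y ∈ Sp F u.w (A l))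
    (h2 : y ∈ Sp F u.w (A l)ᶜ) : ∃ g, u.th l g = y := by
  have h3 : y ∈ LinearMap.range (u.th l) := by
    rw [u.rng l hl]
    exact ⟨h1, h2⟩
  exact h3

private theorem BrwC1_in {l : ℕ} (hl : l ≤ n) (g : Fin s → F) : u.th l g ∈ Sp F u.w (A l) := by
  have h3 : u.th l g ∈ LinearMap.range (u.th l) := ⟨g, rfl⟩
  rw [u.rng l hl] at h3
  exact h3.1

private theorem BrwC1_out {l : ℕ} (hl : l ≤ n) (g : Fin s → F) :
    u.th l g ∈ Sp F u.w (A l)ᶜ := by
  have h3 : u.th l g ∈ LinearMap.range (u.th l) := ⟨g, rfl⟩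
  rw [u.rng l hl] at h3
  exact h3.2

theorem chain_le (hA : ∀ l, l < n → A l ⊆ A (l + 1)) {l m : ℕ} (hlm : l ≤ m) (hm : m ≤ n) :
    A l ⊆ A m := by
  induction m, hlm using Nat.le_induction with
  | base => exact subset_rfl
  | succ m hlm ih => exact (ih (by omega)).trans (hA m (by omega))

theorem FRep.T_empty {l : ℕ} (hl : l ≤ n) : u.T l ∅ = ⊥ := by
  rw [eq_bot_iff]
  intro g hg
  rw [FRep.mem_T, Sp_empty, Submodule.mem_bot] at hg
  rw [Submodule.mem_bot]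
  exact u.inj l hl (by rw [hg, map_zero])

theorem FRep.T_all {l : ℕ} (hl : l ≤ n) : u.T l (A l) = ⊤ := by
  rw [eq_top_iff]
  intro g _
  exact BrwC1_in hl g

theorem FRep.T_compl {l : ℕ} (hl : l ≤ n) : u.T l (A l)ᶜ = ⊤ := by
  rw [eq_top_iff]
  intro g _
  exact BrwC1_out hl g

/-- `Sp S ⊓ Sp S'` is contained in `Gd (A l) = range (th l)`, so it is the image of
`T l S ⊓ T l S'` -/
theorem FRep.compat [FiniteDimensional F V] {l : ℕ} (hl : l ≤ n) {S S' : Finset E}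
    (hS : S ⊆ A l) (hS' : S' ⊆ (A l)ᶜ) :
    Module.finrank F (u.T l S ⊓ u.T l S' : Submodule F (Fin s → F)) + rk F w₀ ⊥ (S ∪ S') =
      rk F w₀ ⊥ S + rk F w₀ ⊥ S' := by
  have h1 := Submodule.finrank_sup_add_finrank_inf_eq (Sp F u.w S) (Sp F u.w S')
  rw [← Sp_union] at h1
  have h2 : Module.finrank F (u.T l S ⊓ u.T l S' : Submodule F (Fin s → F)) =
      Module.finrank F (Sp F u.w S ⊓ Sp F u.w S' : Submodule F V) := by
    have h3 : u.T l S ⊓ u.T l S' = (Sp F u.w S ⊓ Sp F u.w S').comap (u.th l) := rfl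
    rw [h3, (Submodule.equivMapOfInjective (u.th l) (u.inj l hl) _).finrank_eq,
      Submodule.map_comap_eq, u.rng l hl, inf_eq_right.2]
    exact inf_le_inf (Sp_mono hS) (Sp_mono hS')
  unfold rk
  rw [sup_bot_eq, sup_bot_eq, sup_bot_eq, u.same S, u.same S', u.same (S ∪ S'), h2]
  omega

/-- the dimension of a trace is the same for all representations (`compat` with `S' = (A l)ᶜ`) -/
theorem FRep.finrank_T [FiniteDimensional F V] {l : ℕ} (hl : l ≤ n) {S : Finset E}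
    (hS : S ⊆ A l) : Module.finrank F (u.T l S) = Module.finrank F (v.T l S) := by
  have h1 := FRep.compat (u := u) hl hS (subset_refl (A l)ᶜ)
  have h2 := FRep.compat (u := v) hl hS (subset_refl (A l)ᶜ)
  rw [FRep.T_compl hl, inf_top_eq] at h1 h2
  omega

theorem FRep.finrank_T' [FiniteDimensional F V] {l : ℕ} (hl : l ≤ n) {S : Finset E}
    (hS : S ⊆ (A l)ᶜ) : Module.finrank F (u.T l S) = Module.finrank F (v.T l S) := by
  have h1 := FRep.compat (u := u) hl (subset_refl (A l)) hS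
  have h2 := FRep.compat (u := v) hl (subset_refl (A l)) hS
  rw [FRep.T_all hl, top_inf_eq] at h1 h2
  omega

/-- `th m h = a + z`, `a ∈ Sp S`, `z ∈ Sp Z`; then `a = th m h - z ∈ Sp (A l)ᶜ` (as
`th m h ∈ Sp (A m)ᶜ`), so `a ∈ Gd (A l)`, `a = th l g` -/
theorem FRep.T_comp (hA : ∀ l, l < n → A l ⊆ A (l + 1)) {l m : ℕ} (hlm : l ≤ m) (hm : m ≤ n)
    {S Z : Finset E} (hS : S ⊆ A l) (hZ : Z ⊆ A m \ A l) :
    u.T m (S ∪ Z) = rimg (u.L l m Z) (u.T l S) := by
  have hAm : A l ⊆ A m := chain_le hA hlm hm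
  have hZc : Z ⊆ (A l)ᶜ := fun x hx => Finset.mem_compl.2 (Finset.mem_sdiff.1 (hZ hx)).2
  ext h
  rw [FRep.mem_T, Sp_union, mem_rimg]
  constructor
  · intro hh
    obtain ⟨a, ha, z, hz, haz⟩ := Submodule.mem_sup.1 hh
    have h1 : a ∈ Sp F u.w (A l)ᶜ := by
      have h2 : a = u.th m h - z := by rw [← haz]; abel
      rw [h2]
      exact Submodule.sub_mem _ (Sp_mono (Finset.compl_subset_compl.2 hAm) (BrwC1_out hm h))
        (Sp_mono hZc hz)
    obtain ⟨g, hg⟩ := BrwC1_ex (u := u) (hlm.trans hm) (Sp_mono hS ha) h1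
    refine ⟨g, ?_, ?_⟩
    · rw [FRep.mem_T, hg]
      exact ha
    · rw [FRep.mem_L, hg, ← haz, add_sub_cancel_left]
      exact hz
  · rintro ⟨g, hg, hgh⟩
    rw [FRep.mem_T] at hg
    rw [FRep.mem_L] at hgh
    exact Submodule.mem_sup.2 ⟨_, hg, _, hgh, by abel⟩

theorem FRep.T_comp' (hA : ∀ l, l < n → A l ⊆ A (l + 1)) {l m : ℕ} (hlm : l ≤ m) (hm : m ≤ n)
    {S Z : Finset E} (hS : S ⊆ (A m)ᶜ) (hZ : Z ⊆ A m \ A l) :
    u.T l (S ∪ Z) = rpre (u.L l m Z) (u.T m S) := by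
  have hAm : A l ⊆ A m := chain_le hA hlm hm
  have hZm : Z ⊆ A m := fun x hx => (Finset.mem_sdiff.1 (hZ hx)).1
  ext g
  rw [FRep.mem_T, Sp_union, mem_rpre]
  constructor
  · intro hh
    obtain ⟨a, ha, z, hz, haz⟩ := Submodule.mem_sup.1 hh
    have h1 : a ∈ Sp F u.w (A m) := by
      have h2 : a = u.th l g - z := by rw [← haz]; abel
      rw [h2]
      exact Submodule.sub_mem _ (Sp_mono hAm (BrwC1_in (hlm.trans hm) g)) (Sp_mono hZm hz)
    obtain ⟨h, hh⟩ := BrwC1_ex (u := u) hm h1 (Sp_mono hS ha)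
    refine ⟨h, ?_, ?_⟩
    · rw [FRep.mem_T, hh]
      exact ha
    · rw [FRep.mem_L, hh, ← haz]
      have h2 : a - (a + z) = -z := by abel
      rw [h2]
      exact Submodule.neg_mem _ hz
  · rintro ⟨h, hh, hgh⟩
    rw [FRep.mem_T] at hh
    rw [FRep.mem_L] at hgh
    exact Submodule.mem_sup.2 ⟨_, hh, _, Submodule.neg_mem _ hgh, by abel⟩

/-- `th m' h - th l g = z + z'`; `th l g + z = th m' h - z'` is in `Sp (A m) ⊓ Sp (A m)ᶜ` -/
theorem FRep.L_comp (hA : ∀ l, l < n → A l ⊆ A (l + 1)) {l m m' : ℕ} (hlm : l ≤ m)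
    (hm : m ≤ m') (hm' : m' ≤ n) {Z Z' : Finset E} (hZ : Z ⊆ A m \ A l) (hZ' : Z' ⊆ A m' \ A m) :
    u.L l m' (Z ∪ Z') = rcomp (u.L l m Z) (u.L m m' Z') := by
  have hAm : A l ⊆ A m := chain_le hA hlm (hm.trans hm')
  have hAm' : A m ⊆ A m' := chain_le hA hm hm'
  have hZm : Z ⊆ A m := fun x hx => (Finset.mem_sdiff.1 (hZ hx)).1
  have hZc : Z' ⊆ (A m)ᶜ := fun x hx => Finset.mem_compl.2 (Finset.mem_sdiff.1 (hZ' hx)).2
  ext ⟨g, h⟩
  rw [FRep.mem_L, Sp_union, mem_rcomp]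
  constructor
  · intro hh
    obtain ⟨z, hz, z', hz', hzz⟩ := Submodule.mem_sup.1 hh
    have e1 : u.th l g + z = u.th m' h - z' := by
      have h2 : u.th m' h = z + z' + u.th l g := by rw [hzz]; abel
      rw [h2]
      abel
    have h1 : u.th l g + z ∈ Sp F u.w (A m) :=
      Submodule.add_mem _ (Sp_mono hAm (BrwC1_in (hlm.trans (hm.trans hm')) g)) (Sp_mono hZm hz)
    have h2 : u.th l g + z ∈ Sp F u.w (A m)ᶜ := by
      rw [e1]
      exact Submodule.sub_mem _ (Sp_mono (Finset.compl_subset_compl.2 hAm') (BrwC1_out hm' h))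
        (Sp_mono hZc hz')
    obtain ⟨k, hk⟩ := BrwC1_ex (u := u) (hm.trans hm') h1 h2
    refine ⟨k, ?_, ?_⟩
    · rw [FRep.mem_L, hk, add_sub_cancel_left]
      exact hz
    · rw [FRep.mem_L, hk, e1, sub_sub_cancel]
      exact hz'
  · rintro ⟨k, hk1, hk2⟩
    rw [FRep.mem_L] at hk1 hk2
    exact Submodule.mem_sup.2 ⟨_, hk1, _, hk2, by abel⟩

theorem FRep.L_self {l : ℕ} (hl : l ≤ n) : u.L l l ∅ = rid F (Fin s → F) := by
  ext ⟨g, h⟩
  rw [FRep.mem_L, Sp_empty, Submodule.mem_bot, mem_rid, sub_eq_zero]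
  constructor
  · intro hh
    exact (u.inj l hl hh).symm
  · intro hh
    rw [hh]

end Pool.MP_4929df_co.H92
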