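import Pool.Agent.W_4929df_h92.BrwC1

/-!
Framed representations that are the same below or above a cut.
-/

set_option autoImplicit false

namespace Pool.MP_4929df_co.H92

open Submodule

variable {F : Type} [Field F] {E : Type} [Fintype E] [DecidableEq E] {V : Type}
  [AddCommGroup V] [Module F V] {w₀ : E → V} {A : ℕ → Finset E} {n s : ℕ}
  {u v x : FRep F w₀ A n s}

theorem LowEq.refl (u : FRep F w₀ A n s) (l : ℕ) : LowEq u u l :=
  ⟨fun _ _ _ _ => rfl, fun _ _ _ _ _ _ => rfl⟩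

theorem UpEq.refl (u : FRep F w₀ A n s) (l : ℕ) : UpEq u u l :=
  ⟨fun _ _ _ _ _ => rfl, fun _ _ _ _ _ _ _ => rfl⟩

theorem LowEq.symm {l : ℕ} (h : LowEq u v l) : LowEq v u l :=
  ⟨fun m hm S hS => (h.tr m hm S hS).symm, fun m m' h1 h2 Z hZ => (h.lb m m' h1 h2 Z hZ).symm⟩

theorem UpEq.symm {l : ℕ} (h : UpEq u v l) : UpEq v u l :=
  ⟨fun m hm hn S hS => (h.tr m hm hn S hS).symm,
    fun m m' h1 h2 h3 Z hZ => (h.lb m m' h1 h2 h3 Z hZ).symm⟩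

theorem LowEq.trans {l : ℕ} (h : LowEq u v l) (h' : LowEq v x l) : LowEq u x l :=
  ⟨fun m hm S hS => (h.tr m hm S hS).trans (h'.tr m hm S hS),
    fun m m' h1 h2 Z hZ => (h.lb m m' h1 h2 Z hZ).trans (h'.lb m m' h1 h2 Z hZ)⟩

theorem UpEq.trans {l : ℕ} (h : UpEq u v l) (h' : UpEq v x l) : UpEq u x l :=
  ⟨fun m hm hn S hS => (h.tr m hm hn S hS).trans (h'.tr m hm hn S hS),
    fun m m' h1 h2 h3 Z hZ => (h.lb m m' h1 h2 h3 Z hZ).trans (h'.lb m m' h1 h2 h3 Z hZ)⟩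

theorem LowEq.mono {l m : ℕ} (h : LowEq u v l) (hm : m ≤ l) : LowEq u v m :=
  ⟨fun i hi S hS => h.tr i (hi.trans hm) S hS, fun i j h1 h2 Z hZ => h.lb i j h1 (h2.trans hm) Z hZ⟩

theorem UpEq.mono {l m : ℕ} (h : UpEq u v l) (hm : l ≤ m) : UpEq u v m :=
  ⟨fun i hi hn S hS => h.tr i (hm.trans hi) hn S hS,
    fun i j h1 h2 h3 Z hZ => h.lb i j (hm.trans h1) h2 h3 Z hZ⟩

/-- `g` maps `Sp u.w Z` onto `Sp v.w Z` for `Z ⊆ A l` (`map_Sp`) -/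
theorem LowG.lowEq {l : ℕ} (hA : ∀ l, l < n → A l ⊆ A (l + 1)) (hl : l ≤ n) (h : LowG u v l) :
    LowEq u v l := by
  obtain ⟨g, c, hc, hth⟩ := h
  have key : ∀ Z : Finset E, Z ⊆ A l → ∀ y : V, y ∈ Sp F u.w Z ↔ g y ∈ Sp F v.w Z := by
    intro Z hZ y
    rw [← map_Sp hc hZ]
    constructor
    · intro hy
      exact ⟨y, hy, rfl⟩
    · rintro ⟨y', hy', he⟩
      have : y' = y := g.injective he
      exact this ▸ hy'
  constructor
  · intro m hm S hS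
    ext a
    rw [FRep.mem_T, FRep.mem_T, hth m hm a]
    exact key S (hS.trans (chain_le hA hm hl)) _
  · intro m m' h1 h2 Z hZ
    ext ⟨a, b⟩
    rw [FRep.mem_L, FRep.mem_L, hth m (h1.trans h2) a, hth m' h2 b, ← map_sub]
    exact key Z ((hZ.trans Finset.sdiff_subset).trans (chain_le hA h2 hl)) _

theorem FRep.st_low {u₀ : FRep F w₀ A n s} {l m : ℕ} (h : LowEq u v l) (hm : m ≤ l) :
    FRep.st u₀ u m = FRep.st u₀ v m := by
  ext z
  constructor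
  · rintro ⟨S, hS, rfl⟩
    exact ⟨S, hS, by rw [h.tr m hm S hS]⟩
  · rintro ⟨S, hS, rfl⟩
    exact ⟨S, hS, by rw [h.tr m hm S hS]⟩

private theorem BrwC1b_st_up (hA : ∀ l, l < n → A l ⊆ A (l + 1)) {u₀ : FRep F w₀ A n s} {l m : ℕ}
    (h : UpEq u v l) (hst : FRep.st u₀ u l = FRep.st u₀ v l) (hlm : l ≤ m) (hm : m ≤ n) :
    FRep.st u₀ u m ⊆ FRep.st u₀ v m := by
  rintro z ⟨S', hS', rfl⟩
  have hZ : S' \ A l ⊆ A m \ A l := Finset.sdiff_subset_sdiff hS' (le_refl _)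
  have hS : S' ∩ A l ⊆ A l := Finset.inter_subset_right
  have hSS : (S' ∩ A l) ∪ (S' \ A l) = S' := by
    ext x
    simp only [Finset.mem_union, Finset.mem_inter, Finset.mem_sdiff]
    tauto
  have h1 : (u₀.T l (S' ∩ A l), u.T l (S' ∩ A l)) ∈ FRep.st u₀ v l := by
    rw [← hst]
    exact ⟨S' ∩ A l, hS, rfl⟩
  obtain ⟨S1, hS1, he⟩ := h1
  rw [Prod.mk.injEq] at he
  obtain ⟨he1, he2⟩ := he
  have e1 : u₀.T m S' = u₀.T m (S1 ∪ (S' \ A l)) := by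
    rw [FRep.T_comp hA hlm hm hS1 hZ, he1, ← FRep.T_comp hA hlm hm hS hZ, hSS]
  have e2 : u.T m S' = v.T m (S1 ∪ (S' \ A l)) := by
    rw [FRep.T_comp hA hlm hm hS1 hZ, he2, ← h.lb l m le_rfl hlm hm _ hZ,
      ← FRep.T_comp hA hlm hm hS hZ, hSS]
  refine ⟨S1 ∪ (S' \ A l), Finset.union_subset (hS1.trans (chain_le hA hlm hm))
    (hZ.trans Finset.sdiff_subset), ?_⟩
  rw [e1, e2]

/-- states above a cut: `T_comp` with `S ⊆ A l`, `Z ⊆ A m \ A l` (every subset of `A m` is such a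
union); if `(u₀.T l S, u.T l S) = (u₀.T l S', v.T l S')` then
`(u₀.T m (S ∪ Z), u.T m (S ∪ Z)) = (u₀.T m (S' ∪ Z), v.T m (S' ∪ Z))` -/
theorem FRep.st_up (hA : ∀ l, l < n → A l ⊆ A (l + 1)) {u₀ : FRep F w₀ A n s} {l m : ℕ}
    (h : UpEq u v l) (hst : FRep.st u₀ u l = FRep.st u₀ v l) (hlm : l ≤ m) (hm : m ≤ n) :
    FRep.st u₀ u m = FRep.st u₀ v m :=
  Set.Subset.antisymm (BrwC1b_st_up hA h hst hlm hm) (BrwC1b_st_up hA h.symm hst.symm hlm hm)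

end Pool.MP_4929df_co.H92
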