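import Pool.Agent.W_4929df_h92.BrwC1
import Pool.Agent.W_4929df_h92.BlkA

/-!
Labels that are graphs of isomorphisms, transporting sets.
-/

set_option autoImplicit false

namespace Pool.MP_4929df_co.H92

open Submodule

/-- a relation on a finite-dimensional space is the graph of an isomorphism iff `rimg R ⊥ = ⊥`,
`rimg R ⊤ = ⊤`, `rpre R ⊥ = ⊥` -/
theorem riso_iff {F X : Type} [Field F] [AddCommGroup X] [Module F X] [FiniteDimensional F X]
    {R : Submodule F (X × X)} :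
    (∃ e, RIso R e) ↔ rimg R ⊥ = ⊥ ∧ rimg R ⊤ = ⊤ ∧ rpre R ⊥ = ⊥ := by
  constructor
  · rintro ⟨e, he⟩
    refine ⟨?_, ?_, ?_⟩
    · rw [eq_bot_iff]
      intro h hh
      obtain ⟨g, hg, hgh⟩ := mem_rimg.1 hh
      rw [(mem_bot F).1 hg] at hgh
      rw [mem_bot, (he _ _).1 hgh, map_zero]
    · rw [eq_top_iff]
      intro h _
      exact mem_rimg.2 ⟨e.symm h, mem_top, (he _ _).2 (by simp)⟩
    · rw [eq_bot_iff]
      intro g hh
      obtain ⟨h, hg, hgh⟩ := mem_rpre.1 hh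
      rw [(mem_bot F).1 hg] at hgh
      have h1 := (he _ _).1 hgh
      rw [mem_bot]
      exact e.injective (by rw [← h1, map_zero])
  · rintro ⟨h1, h2, h3⟩
    set p1 : R →ₗ[F] X := (LinearMap.fst F X X).comp R.subtype with hp1
    set p2 : R →ₗ[F] X := (LinearMap.snd F X X).comp R.subtype with hp2
    have i2 : Function.Injective p2 := by
      rw [← LinearMap.ker_eq_bot, LinearMap.ker_eq_bot']
      rintro ⟨⟨g, h⟩, hgh⟩ h0
      have h0' : h = 0 := h0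
      subst h0'
      have h4 : g ∈ rpre R ⊥ := mem_rpre.2 ⟨0, (mem_bot F).2 rfl, hgh⟩
      rw [h3, mem_bot] at h4
      subst h4
      rfl
    have s2 : Function.Surjective p2 := by
      intro h
      have h4 : h ∈ rimg R ⊤ := by
        rw [h2]
        exact mem_top
      obtain ⟨g, -, hgh⟩ := mem_rimg.1 h4
      exact ⟨⟨(g, h), hgh⟩, rfl⟩
    have i1 : Function.Injective p1 := by
      rw [← LinearMap.ker_eq_bot, LinearMap.ker_eq_bot']
      rintro ⟨⟨g, h⟩, hgh⟩ h0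
      have h0' : g = 0 := h0
      subst h0'
      have h4 : h ∈ rimg R ⊥ := mem_rimg.2 ⟨0, (mem_bot F).2 rfl, hgh⟩
      rw [h1, mem_bot] at h4
      subst h4
      rfl
    have hfr : Module.finrank F R = Module.finrank F X :=
      LinearEquiv.finrank_eq (LinearEquiv.ofBijective p2 ⟨i2, s2⟩)
    have s1 : Function.Surjective p1 :=
      (LinearMap.injective_iff_surjective_of_finrank_eq_finrank hfr).1 i1
    set e1 : R ≃ₗ[F] X := LinearEquiv.ofBijective p1 ⟨i1, s1⟩ with he1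
    set e2 : R ≃ₗ[F] X := LinearEquiv.ofBijective p2 ⟨i2, s2⟩ with he2
    refine ⟨e1.symm.trans e2, fun g h => ⟨fun hgh => ?_, fun hgh => ?_⟩⟩
    · have h4 : e1 ⟨(g, h), hgh⟩ = g := rfl
      have h5 : e1.symm g = ⟨(g, h), hgh⟩ := by rw [LinearEquiv.symm_apply_eq, h4]
      rw [LinearEquiv.trans_apply, h5]
      rfl
    · obtain ⟨⟨⟨g', h'⟩, hgh'⟩, hr⟩ : ∃ r : R, r = e1.symm g := ⟨_, rfl⟩
      have h4 : e1 ⟨(g', h'), hgh'⟩ = g := by rw [hr, LinearEquiv.apply_symm_apply]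
      have h5 : g' = g := h4
      rw [LinearEquiv.trans_apply, ← hr] at hgh
      have h6 : h = h' := hgh
      rw [h6, ← h5]
      exact hgh'

variable {F : Type} [Field F] {E : Type} [Fintype E] [DecidableEq E] {V : Type}
  [AddCommGroup V] [Module F V] {w₀ : E → V} {A : ℕ → Finset E} {n s : ℕ}
  {u v : FRep F w₀ A n s}

theorem FRep.L_img_bot (hA : ∀ l, l < n → A l ⊆ A (l + 1)) {l m : ℕ} (hlm : l ≤ m) (hm : m ≤ n)
    {Z : Finset E} (hZ : Z ⊆ A m \ A l) : rimg (u.L l m Z) ⊥ = u.T m Z := by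
  ext h
  rw [mem_rimg, FRep.mem_T]
  constructor
  · rintro ⟨g, hg, hgh⟩
    rw [(mem_bot F).1 hg, FRep.mem_L, map_zero, sub_zero] at hgh
    exact hgh
  · intro hh
    refine ⟨0, (mem_bot F).2 rfl, ?_⟩
    rw [FRep.mem_L, map_zero, sub_zero]
    exact hh

theorem FRep.L_img_top (hA : ∀ l, l < n → A l ⊆ A (l + 1)) {l m : ℕ} (hlm : l ≤ m) (hm : m ≤ n)
    {Z : Finset E} (hZ : Z ⊆ A m \ A l) : rimg (u.L l m Z) ⊤ = u.T m (A l ∪ Z) := by
  rw [FRep.T_comp hA hlm hm subset_rfl hZ, FRep.T_all (hlm.trans hm)]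

theorem FRep.L_pre_bot (hA : ∀ l, l < n → A l ⊆ A (l + 1)) {l m : ℕ} (hlm : l ≤ m) (hm : m ≤ n)
    {Z : Finset E} (hZ : Z ⊆ A m \ A l) : rpre (u.L l m Z) ⊥ = u.T l Z := by
  ext g
  rw [mem_rpre, FRep.mem_T]
  constructor
  · rintro ⟨h, hg, hgh⟩
    rw [(mem_bot F).1 hg, FRep.mem_L, map_zero, zero_sub] at hgh
    exact (neg_mem_iff).1 hgh
  · intro hh
    refine ⟨0, (mem_bot F).2 rfl, ?_⟩
    rw [FRep.mem_L, map_zero, zero_sub]
    exact (neg_mem_iff).2 hh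

theorem FRep.L_pre_top (hA : ∀ l, l < n → A l ⊆ A (l + 1)) {l m : ℕ} (hlm : l ≤ m) (hm : m ≤ n)
    {Z : Finset E} (hZ : Z ⊆ A m \ A l) : rpre (u.L l m Z) ⊤ = u.T l ((A m)ᶜ ∪ Z) := by
  rw [FRep.T_comp' hA hlm hm subset_rfl hZ, FRep.T_compl hm]

private theorem brwC2_facts [FiniteDimensional F V] (hA : ∀ l, l < n → A l ⊆ A (l + 1)) {l m : ℕ}
    (hlm : l ≤ m) (hm : m ≤ n) {Z : Finset E} (hZ : Z ⊆ A m \ A l) :
    Module.finrank F (u.T m Z) + rk F w₀ ⊥ (Z ∪ (A m)ᶜ) = rk F w₀ ⊥ Z + rk F w₀ ⊥ (A m)ᶜ ∧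
    Module.finrank F (u.T l Z) + rk F w₀ ⊥ (A l ∪ Z) = rk F w₀ ⊥ (A l) + rk F w₀ ⊥ Z ∧
    Module.finrank F (u.T m (A l ∪ Z)) + rk F w₀ ⊥ (A l ∪ Z ∪ (A m)ᶜ) =
      rk F w₀ ⊥ (A l ∪ Z) + rk F w₀ ⊥ (A m)ᶜ ∧
    Module.finrank F (u.T l (Z ∪ (A m)ᶜ)) + rk F w₀ ⊥ (A l ∪ (Z ∪ (A m)ᶜ)) =
      rk F w₀ ⊥ (A l) + rk F w₀ ⊥ (Z ∪ (A m)ᶜ) := by
  have hl : l ≤ n := hlm.trans hm
  have hAlm : A l ⊆ A m := chain_le hA hlm hm
  have hZm : Z ⊆ A m := hZ.trans Finset.sdiff_subset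
  have hZl : Z ⊆ (A l)ᶜ := fun x hx => Finset.mem_compl.2 (Finset.mem_sdiff.1 (hZ hx)).2
  have hml : (A m)ᶜ ⊆ (A l)ᶜ := Finset.compl_subset_compl.2 hAlm
  refine ⟨?_, ?_, ?_, ?_⟩
  · have h := FRep.compat (u := u) hm hZm (subset_refl (A m)ᶜ)
    rwa [FRep.T_compl hm, inf_top_eq] at h
  · have h := FRep.compat (u := u) hl (subset_refl (A l)) hZl
    rwa [FRep.T_all hl, top_inf_eq] at h
  · have h := FRep.compat (u := u) hm (Finset.union_subset hAlm hZm) (subset_refl (A m)ᶜ)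
    rwa [FRep.T_compl hm, inf_top_eq] at h
  · have h := FRep.compat (u := u) hl (subset_refl (A l)) (Finset.union_subset hZl hml)
    rwa [FRep.T_all hl, top_inf_eq] at h

private theorem brwC2_le (W : Submodule F (Fin s → F)) : Module.finrank F W ≤ s := by
  have h := Submodule.finrank_le W
  rwa [Module.finrank_fin_fun] at h

private theorem brwC2_top (W : Submodule F (Fin s → F)) : W = ⊤ ↔ Module.finrank F W = s := by
  constructor
  · rintro rfl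
    rw [finrank_top, Module.finrank_fin_fun]
  · intro h
    exact Submodule.eq_top_of_finrank_eq (by rw [h, Module.finrank_fin_fun])

/-- in terms of ranks (`compat`, `finrank (u.T m S) = s` iff `u.T m S = ⊤`) -/
theorem FRep.iso_iff [FiniteDimensional F V] (hA : ∀ l, l < n → A l ⊆ A (l + 1)) {l m : ℕ}
    (hlm : l ≤ m) (hm : m ≤ n) {Z : Finset E} (hZ : Z ⊆ A m \ A l) :
    (∃ e, RIso (u.L l m Z) e) ↔ rk F w₀ ⊥ (Z ∪ (A m)ᶜ) = rk F w₀ ⊥ Z + rk F w₀ ⊥ (A m)ᶜ ∧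
      rk F w₀ ⊥ (A l ∪ Z) = rk F w₀ ⊥ (A l) + rk F w₀ ⊥ Z ∧
      rk F w₀ ⊥ (A l ∪ Z ∪ (A m)ᶜ) + s = rk F w₀ ⊥ (A l ∪ Z) + rk F w₀ ⊥ (A m)ᶜ := by
  obtain ⟨h1, h2, h3, -⟩ := brwC2_facts (u := u) hA hlm hm hZ
  rw [riso_iff, FRep.L_img_bot hA hlm hm hZ, FRep.L_img_top hA hlm hm hZ, FRep.L_pre_bot hA hlm hm hZ,
    ← Submodule.finrank_eq_zero (S := u.T m Z), brwC2_top, ← Submodule.finrank_eq_zero (S := u.T l Z)]
  omega

/-- the same sets have isomorphisms as labels in all representations -/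
theorem FRep.iso_all [FiniteDimensional F V] (hA : ∀ l, l < n → A l ⊆ A (l + 1)) {l m : ℕ}
    (hlm : l ≤ m) (hm : m ≤ n) {Z : Finset E} (hZ : Z ⊆ A m \ A l)
    (h : ∃ e, RIso (u.L l m Z) e) : ∃ e, RIso (v.L l m Z) e := by
  rw [FRep.iso_iff hA hlm hm hZ] at h ⊢
  exact h

/-- Transporting sets. `linking` for `r = rk F w₀ ⊥`, `X = A l`, `Y = (A m)ᶜ`, `R = A m \ A l`, `k = s`:
for `A' ⊆ R` the set `A l ∪ A'` is between `A 0` and `A n`, use `Lnk.linked` and `finrank_Gd`. It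
gives `T ⊆ R` with `r (X ∪ Y ∪ T) + r T + s ≤ r (T ∪ X) + r (T ∪ Y)` (`r ∅ = 0`). As
`r (T ∪ Y) ≤ r T + r Y` and `r (T ∪ X) ≤ r T + r X`, and `finrank (T m (A l ∪ T)) ≤ s`,
`finrank (T l (T ∪ (A m)ᶜ)) ≤ s` by `compat`, all are equalities; `iso_iff`. (If there is no `FRep`
the statement about all `u` is trivial; use `u` for `compat`.) -/
theorem exists_trans [FiniteDimensional F V] (hL : Lnk F w₀ A n s) {l m : ℕ} (hlm : l ≤ m)
    (hm : m ≤ n) : ∃ Y, Y ⊆ A m \ A l ∧ ∀ u : FRep F w₀ A n s, ∃ e, RIso (u.L l m Y) e := by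
  have hA : ∀ l, l < n → A l ⊆ A (l + 1) := fun l hl => (hL.mono l hl).subset
  have hAlm : A l ⊆ A m := chain_le hA hlm hm
  have hd1 : Disjoint (A m \ A l) (A l) := Finset.sdiff_disjoint
  have hd2 : Disjoint (A m \ A l) (A m)ᶜ := by
    rw [Finset.disjoint_left]
    intro x hx hx'
    exact (Finset.mem_compl.1 hx') (Finset.mem_sdiff.1 hx).1
  have hr0 : rk F w₀ ⊥ ∅ = 0 := by
    rw [rk_empty]
    simp
  obtain ⟨T, hT, hT2⟩ := linking (rk_isRk w₀ (⊥ : Submodule F V)) (X := A l) (Y := (A m)ᶜ) (k := s)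
    (A m \ A l) hd1 hd2 (by
      intro B hB
      have h1 : A l ∪ (A m)ᶜ ∪ (A m \ A l) = Finset.univ := by
        ext x
        simp only [Finset.mem_union, Finset.mem_compl, Finset.mem_sdiff, Finset.mem_univ, iff_true]
        tauto
      have h2 : (A m \ A l) \ B ∪ (A m)ᶜ = (B ∪ A l)ᶜ := by
        ext x
        have e1 := @hAlm x
        have e2 := @hB x
        simp only [Finset.mem_sdiff] at e2
        simp only [Finset.mem_union, Finset.mem_compl, Finset.mem_sdiff]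
        tauto
      rw [h1, h2, hr0]
      have h3 := hL.linked (B ∪ A l) ((chain_le hA (Nat.zero_le l) (hlm.trans hm)).trans
        Finset.subset_union_right) (Finset.union_subset ((hB.trans Finset.sdiff_subset).trans
          (chain_le hA hm le_rfl)) (chain_le hA (hlm.trans hm) le_rfl))
      have h4 := finrank_Gd (F := F) w₀ (B ∪ A l)
      omega)
  refine ⟨T, hT, fun u => ?_⟩
  rw [FRep.iso_iff hA hlm hm hT]
  obtain ⟨h1, h2, h3, h4⟩ := brwC2_facts (u := u) hA hlm hm hT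
  have b1 := brwC2_le (u.T m (A l ∪ T))
  have b2 := brwC2_le (u.T l (T ∪ (A m)ᶜ))
  have e1 : A l ∪ (A m)ᶜ ∪ T = A l ∪ T ∪ (A m)ᶜ := by
    ext x
    simp only [Finset.mem_union]
    tauto
  have e2 : A l ∪ (T ∪ (A m)ᶜ) = A l ∪ T ∪ (A m)ᶜ := by rw [Finset.union_assoc]
  rw [e1, Finset.union_comm T (A l)] at hT2
  rw [e2] at h4
  omega

end Pool.MP_4929df_co.H92
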