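import Pool.Agent.W_4929df_h92.BrwC1b

/-!
Gluing two framed representations with the same state at a cut.
-/

set_option autoImplicit false

namespace Pool.MP_4929df_co.H92

open Submodule

variable {F : Type} [Field F] {E : Type} [Fintype E] [DecidableEq E] {V : Type}
  [AddCommGroup V] [Module F V] {w₀ : E → V} {A : ℕ → Finset E} {n s : ℕ}
  {u₀ u v : FRep F w₀ A n s}

/-- two injective maps into the same space differ by an automorphism -/
private theorem BrwC3_ext {W X : Type} [AddCommGroup W] [Module F W] [FiniteDimensional F W]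
    [AddCommGroup X] [Module F X] (i j : X →ₗ[F] W) (hi : Function.Injective i)
    (hj : Function.Injective j) : ∃ g : W ≃ₗ[F] W, ∀ x, g (i x) = j x := by
  obtain ⟨Q, hQ⟩ := Submodule.exists_isCompl (LinearMap.range i)
  obtain ⟨Q', hQ'⟩ := Submodule.exists_isCompl (LinearMap.range j)
  have e0 : LinearMap.range i ≃ₗ[F] LinearMap.range j :=
    (LinearEquiv.ofInjective i hi).symm.trans (LinearEquiv.ofInjective j hj)
  have h1 : Module.finrank F Q = Module.finrank F Q' := by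
    have h2 := Submodule.finrank_add_eq_of_isCompl hQ
    have h3 := Submodule.finrank_add_eq_of_isCompl hQ'
    have h4 := e0.finrank_eq
    omega
  let eQ : Q ≃ₗ[F] Q' := LinearEquiv.ofFinrankEq _ _ h1
  let e1 : LinearMap.range i ≃ₗ[F] LinearMap.range j :=
    (LinearEquiv.ofInjective i hi).symm.trans (LinearEquiv.ofInjective j hj)
  refine ⟨(Submodule.prodEquivOfIsCompl _ _ hQ).symm.trans
    ((LinearEquiv.prodCongr e1 eQ).trans (Submodule.prodEquivOfIsCompl _ _ hQ')), fun x => ?_⟩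
  have hx : (Submodule.prodEquivOfIsCompl _ _ hQ).symm (i x) =
      (LinearEquiv.ofInjective i hi x, 0) := by
    rw [LinearEquiv.symm_apply_eq]
    simp
  rw [LinearEquiv.trans_apply, hx, LinearEquiv.trans_apply]
  simp [e1]

/-- `Sp u.w (A l)` and `Sp v.w (A l)` have the same dimension and contain the ranges of the
injective maps `u.th l`, `v.th l` -/
theorem exists_glue_map [FiniteDimensional F V] (u v : FRep F w₀ A n s) {l : ℕ} (hl : l ≤ n) :
    ∃ g : V ≃ₗ[F] V, (∀ a, g (u.th l a) = v.th l a) ∧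
      (Sp F u.w (A l)).map (g : V →ₗ[F] V) = Sp F v.w (A l) := by
  have hfin : Module.finrank F (Sp F u.w (A l)) = Module.finrank F (Sp F v.w (A l)) := by
    rw [← u.same (A l), ← v.same (A l)]
  let e0 : Sp F u.w (A l) ≃ₗ[F] Sp F v.w (A l) := LinearEquiv.ofFinrankEq _ _ hfin
  have hu : ∀ a, u.th l a ∈ Sp F u.w (A l) := by
    intro a
    have h3 : u.th l a ∈ LinearMap.range (u.th l) := ⟨a, rfl⟩
    rw [u.rng l hl] at h3
    exact h3.1
  have hv : ∀ a, v.th l a ∈ Sp F v.w (A l) := by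
    intro a
    have h3 : v.th l a ∈ LinearMap.range (v.th l) := ⟨a, rfl⟩
    rw [v.rng l hl] at h3
    exact h3.1
  let i : (Fin s → F) →ₗ[F] Sp F u.w (A l) := (u.th l).codRestrict _ hu
  let j : (Fin s → F) →ₗ[F] Sp F v.w (A l) := (v.th l).codRestrict _ hv
  have hi : Function.Injective i := by
    intro a b hab
    apply u.inj l hl
    exact congrArg Subtype.val hab
  have hj : Function.Injective j := by
    intro a b hab
    apply v.inj l hl
    exact congrArg Subtype.val hab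
  obtain ⟨g0, hg0⟩ := BrwC3_ext i ((e0.symm : _ →ₗ[F] Sp F u.w (A l)).comp j) hi
    (by
      intro a b hab
      apply hj
      apply e0.symm.injective
      exact hab)
  let e : Sp F u.w (A l) ≃ₗ[F] Sp F v.w (A l) := g0.trans e0
  have he : ∀ a, e (i a) = j a := by
    intro a
    have h1 : g0 (i a) = e0.symm (j a) := hg0 a
    change e0 (g0 (i a)) = j a
    rw [h1, LinearEquiv.apply_symm_apply]
  obtain ⟨g, hg⟩ := BrwC3_ext (Sp F u.w (A l)).subtype
    ((Sp F v.w (A l)).subtype.comp (e : Sp F u.w (A l) →ₗ[F] Sp F v.w (A l)))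
    (Submodule.subtype_injective _)
    (by
      intro a b hab
      apply e.injective
      exact Submodule.subtype_injective _ hab)
  refine ⟨g, fun a => ?_, ?_⟩
  · have h1 := hg (i a)
    have h2 : ((Sp F v.w (A l)).subtype.comp (e : Sp F u.w (A l) →ₗ[F] Sp F v.w (A l))) (i a) =
        v.th l a := by
      change ((e (i a) : Sp F v.w (A l)) : V) = v.th l a
      rw [he]
      rfl
    rw [h2] at h1
    exact h1
  · apply le_antisymm
    · rintro _ ⟨y, hy, rfl⟩
      have h1 := hg ⟨y, hy⟩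
      have h2 : (g : V →ₗ[F] V) y = ((e ⟨y, hy⟩ : Sp F v.w (A l)) : V) := h1
      rw [h2]
      exact (e ⟨y, hy⟩).2
    · intro z hz
      refine ⟨((e.symm ⟨z, hz⟩ : Sp F u.w (A l)) : V), (e.symm ⟨z, hz⟩).2, ?_⟩
      have h1 := hg (e.symm ⟨z, hz⟩)
      have h2 : ((Sp F v.w (A l)).subtype.comp (e : Sp F u.w (A l) →ₗ[F] Sp F v.w (A l)))
          (e.symm ⟨z, hz⟩) = z := by
        change ((e (e.symm ⟨z, hz⟩) : Sp F v.w (A l)) : V) = z
        rw [LinearEquiv.apply_symm_apply]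
      rw [h2] at h1
      exact h1

/-- the glued vectors -/
def gl (C : Finset E) (g : V ≃ₗ[F] V) (w w' : E → V) : E → V :=
  fun x => if x ∈ C then g (w x) else w' x

private theorem BrwC3_h (C : Finset E) (g : V ≃ₗ[F] V) (w w' : E → V) :
    ∀ x ∈ C, (fun _ : E => (1 : F)) x ≠ 0 ∧
      gl C g w w' x = (fun _ : E => (1 : F)) x • g (w x) := by
  intro x hx
  refine ⟨one_ne_zero, ?_⟩
  simp [gl, hx]

theorem gl_low {C : Finset E} {g : V ≃ₗ[F] V} {w w' : E → V} {S : Finset E} (hS : S ⊆ C) :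
    Sp F (gl C g w w') S = (Sp F w S).map (g : V →ₗ[F] V) :=
  (map_Sp (BrwC3_h C g w w') hS).symm

theorem gl_up {C : Finset E} {g : V ≃ₗ[F] V} {w w' : E → V} {S : Finset E} (hS : S ⊆ Cᶜ) :
    Sp F (gl C g w w') S = Sp F w' S := by
  have h : ∀ x ∈ S, gl C g w w' x = w' x := by
    intro x hx
    have h1 : x ∉ C := Finset.mem_compl.1 (hS hx)
    simp [gl, h1]
  apply le_antisymm
  · rw [Sp_le]
    intro x hx
    rw [h x hx]
    exact mem_Sp hx
  · rw [Sp_le]
    intro x hx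
    rw [← h x hx]
    exact mem_Sp hx

/-- Ranks. Let `x = gl (A l) g u.w v.w`, `S ⊆ A l`, `S' ⊆ (A l)ᶜ`. `Sp x S ⊓ Sp x S'` is contained in
`g (Sp u (A l)) ⊓ Sp v (A l)ᶜ = Sp v (A l) ⊓ Sp v (A l)ᶜ = range (v.th l)`, and
`v.th l a = g (u.th l a)`, so it is the image of `u.T l S ⊓ v.T l S'`. By `hst` there is `S₁ ⊆ A l`
with `u₀.T l S₁ = u₀.T l S`, `v.T l S₁ = u.T l S`. By `compat` for `v`:
`finrank (v.T l S₁ ⊓ v.T l S') = r S₁ + r S' - r (S₁ ∪ S')`, by `compat` for `u₀` this is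
`finrank (u₀.T l S₁ ⊓ u₀.T l S') = finrank (u₀.T l S ⊓ u₀.T l S') = r S + r S' - r (S ∪ S')`,
`r = rk F w₀ ⊥`. Finally `finrank (Sp x (S ∪ S')) = r S + r S' - finrank (Sp x S ⊓ Sp x S')`. -/
theorem gl_same [FiniteDimensional F V] {l : ℕ} (hl : l ≤ n)
    (hst : FRep.st u₀ u l = FRep.st u₀ v l) {g : V ≃ₗ[F] V} (hg : ∀ a, g (u.th l a) = v.th l a)
    (hS : (Sp F u.w (A l)).map (g : V →ₗ[F] V) = Sp F v.w (A l)) :
    SameR F w₀ (gl (A l) g u.w v.w) := by
  intro S
  have hS1 : S ∩ A l ⊆ A l := Finset.inter_subset_right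
  have hS2 : S \ A l ⊆ (A l)ᶜ := fun x hx => Finset.mem_compl.2 (Finset.mem_sdiff.1 hx).2
  have hSS : (S ∩ A l) ∪ (S \ A l) = S := by
    ext x
    simp only [Finset.mem_union, Finset.mem_inter, Finset.mem_sdiff]
    tauto
  obtain ⟨S3, hS3, he⟩ : (u₀.T l (S ∩ A l), u.T l (S ∩ A l)) ∈ FRep.st u₀ v l := by
    rw [← hst]
    exact ⟨S ∩ A l, hS1, rfl⟩
  rw [Prod.mk.injEq] at he
  obtain ⟨he1, he2⟩ := he
  have c1 := FRep.compat (u := v) hl hS3 hS2
  have c2 := FRep.compat (u := u₀) hl hS3 hS2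
  have c3 := FRep.compat (u := u₀) hl hS1 hS2
  rw [he1] at c2
  rw [he2] at c1
  have h1 := Submodule.finrank_sup_add_finrank_inf_eq (Sp F (gl (A l) g u.w v.w) (S ∩ A l))
    (Sp F (gl (A l) g u.w v.w) (S \ A l))
  rw [← Sp_union, hSS, gl_low hS1, gl_up hS2] at h1
  have h2 : Module.finrank F (u.T l (S ∩ A l) ⊓ v.T l (S \ A l) : Submodule F (Fin s → F)) =
      Module.finrank F ((Sp F u.w (S ∩ A l)).map (g : V →ₗ[F] V) ⊓ Sp F v.w (S \ A l) :
        Submodule F V) := by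
    have h3 : u.T l (S ∩ A l) ⊓ v.T l (S \ A l) =
        ((Sp F u.w (S ∩ A l)).map (g : V →ₗ[F] V) ⊓ Sp F v.w (S \ A l)).comap (v.th l) := by
      ext a
      simp only [Submodule.mem_inf, Submodule.mem_comap]
      rw [FRep.mem_T, FRep.mem_T, ← hg a]
      constructor
      · rintro ⟨h4, h5⟩
        exact ⟨⟨_, h4, rfl⟩, h5⟩
      · rintro ⟨⟨y, h4, h6⟩, h5⟩
        have h7 : y = u.th l a := g.injective h6
        exact ⟨h7 ▸ h4, h5⟩
    rw [h3, (Submodule.equivMapOfInjective (v.th l) (v.inj l hl) _).finrank_eq,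
      Submodule.map_comap_eq, v.rng l hl, inf_eq_right.2]
    refine inf_le_inf ?_ (Sp_mono hS2)
    rw [← hS]
    exact Submodule.map_mono (Sp_mono hS1)
  have h4 : Module.finrank F ((Sp F u.w (S ∩ A l)).map (g : V →ₗ[F] V)) =
      Module.finrank F (Sp F u.w (S ∩ A l)) := by
    exact (g.submoduleMap (Sp F u.w (S ∩ A l))).finrank_eq.symm
  rw [← h2, h4, ← u.same, ← v.same] at h1
  unfold rk at c1 c2 c3
  rw [sup_bot_eq, sup_bot_eq, sup_bot_eq] at c1 c2 c3
  rw [hSS] at c3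
  omega

/-- boundaries above the cut: `Sp x (A m) = Sp x (A l) ⊔ Sp x (A m \ A l) = Sp v (A m)` -/
theorem gl_Gd_up (hA : ∀ l, l < n → A l ⊆ A (l + 1)) {l m : ℕ} (hlm : l ≤ m) (hm : m ≤ n)
    {g : V ≃ₗ[F] V} (hS : (Sp F u.w (A l)).map (g : V →ₗ[F] V) = Sp F v.w (A l)) :
    Gd F (gl (A l) g u.w v.w) (A m) = Gd F v.w (A m) := by
  have hAm : A l ⊆ A m := chain_le hA hlm hm
  have h1 : A m = A l ∪ (A m \ A l) := (Finset.union_sdiff_of_subset hAm).symm
  have h2 : Sp F (gl (A l) g u.w v.w) (A m) = Sp F v.w (A m) := by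
    rw [h1, Sp_union, Sp_union, gl_low (subset_refl _), hS, gl_up]
    intro x hx
    exact Finset.mem_compl.2 (Finset.mem_sdiff.1 hx).2
  unfold Gd
  rw [h2, gl_up (Finset.compl_subset_compl.2 hAm)]

/-- boundaries below the cut: `Gd x (A l) = Gd v (A l) = g (Gd u (A l))`, then `Gd_sub` -/
theorem gl_Gd_low (hA : ∀ l, l < n → A l ⊆ A (l + 1)) {l m : ℕ} (hml : m ≤ l) (hl : l ≤ n)
    {g : V ≃ₗ[F] V} (hg : ∀ a, g (u.th l a) = v.th l a)
    (hS : (Sp F u.w (A l)).map (g : V →ₗ[F] V) = Sp F v.w (A l)) :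
    Gd F (gl (A l) g u.w v.w) (A m) = (Gd F u.w (A m)).map (g : V →ₗ[F] V) := by
  refine (map_Gd (BrwC3_h (A l) g u.w v.w) ?_ (chain_le hA hml hl)).symm
  rw [gl_Gd_up hA le_rfl hl hS, ← u.rng l hl, ← v.rng l hl, ← LinearMap.range_comp]
  congr 1
  ext a
  simp [hg]

/-- The glued framed representation: vectors `gl (A l) g u.w v.w`, frames `g ∘ u.th m` for `m ≤ l`,
`v.th m` for `m > l` (equal to `g ∘ u.th l` for `m = l`). -/
theorem glue [FiniteDimensional F V] (hA : ∀ l, l < n → A l ⊆ A (l + 1)) {l : ℕ} (hl : l ≤ n)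
    (hst : FRep.st u₀ u l = FRep.st u₀ v l) :
    ∃ x : FRep F w₀ A n s, LowEq x u l ∧ UpEq x v l := by
  obtain ⟨g, hg, hS⟩ := exists_glue_map u v hl
  have hlow : ∀ S : Finset E, S ⊆ A l → ∀ y : V,
      g y ∈ Sp F (gl (A l) g u.w v.w) S ↔ y ∈ Sp F u.w S := by
    intro S hSl y
    rw [gl_low hSl]
    constructor
    · rintro ⟨y', hy', he⟩
      have : y' = y := g.injective he
      exact this ▸ hy'
    · intro hy
      exact ⟨y, hy, rfl⟩
  let x : FRep F w₀ A n s :=
    { w := gl (A l) g u.w v.w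
      th := fun m => if m ≤ l then (g : V →ₗ[F] V).comp (u.th m) else v.th m
      same := gl_same hl hst hg hS
      inj := by
        intro m hm
        by_cases hml : m ≤ l
        · rw [if_pos hml]
          intro a b hab
          exact u.inj m hm (g.injective hab)
        · rw [if_neg hml]
          exact v.inj m hm
      rng := by
        intro m hm
        by_cases hml : m ≤ l
        · rw [if_pos hml, LinearMap.range_comp, u.rng m hm, gl_Gd_low hA hml hl hg hS]
        · rw [if_neg hml, v.rng m hm, gl_Gd_up hA (by omega) hm hS] }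
  have xlow : ∀ m, m ≤ l → ∀ a, x.th m a = g (u.th m a) := by
    intro m hm a
    change (if m ≤ l then (g : V →ₗ[F] V).comp (u.th m) else v.th m) a = _
    rw [if_pos hm]
    rfl
  have xup : ∀ m, l ≤ m → ∀ a, x.th m a = v.th m a := by
    intro m hm a
    rcases Nat.lt_or_eq_of_le hm with h | h
    · change (if m ≤ l then (g : V →ₗ[F] V).comp (u.th m) else v.th m) a = _
      rw [if_neg (by omega)]
    · subst h
      rw [xlow l le_rfl, hg]
  have xw : x.w = gl (A l) g u.w v.w := rfl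
  refine ⟨x, ⟨?_, ?_⟩, ⟨?_, ?_⟩⟩
  · intro m hm S hSm
    ext a
    rw [FRep.mem_T, FRep.mem_T, xlow m hm, xw]
    exact hlow S (hSm.trans (chain_le hA hm hl)) _
  · intro m m' h1 h2 Z hZ
    ext ⟨a, b⟩
    rw [FRep.mem_L, FRep.mem_L, xlow m (h1.trans h2), xlow m' h2, xw, ← map_sub]
    exact hlow Z ((hZ.trans Finset.sdiff_subset).trans (chain_le hA h2 hl)) _
  · intro m hm hn S hSm
    ext a
    rw [FRep.mem_T, FRep.mem_T, xup m hm, xw,
      gl_up (hSm.trans (Finset.compl_subset_compl.2 (chain_le hA hm hn)))]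
  · intro m m' h1 h2 h3 Z hZ
    ext ⟨a, b⟩
    rw [FRep.mem_L, FRep.mem_L, xup m h1, xup m' (h1.trans h2), xw, gl_up]
    intro y hy
    have h4 := (Finset.mem_sdiff.1 (hZ hy)).2
    exact Finset.mem_compl.2 fun h5 => h4 (chain_le hA h1 (h2.trans h3) h5)

end Pool.MP_4929df_co.H92
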