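import Pool.Agent.W_4929df_h92.BrwC2
import Pool.Agent.W_4929df_h92.BlkB

/-!
Transporting bases: sets `W` of a block that are a basis of the block modulo the left side and
independent modulo the right side.
-/

set_option autoImplicit false

namespace Pool.MP_4929df_co.H92

open Submodule

/-- transporting base of the block between the cuts `l` and `m` -/
structure TB (F : Type) [Field F] {E : Type} [Fintype E] [DecidableEq E] {V : Type}
    [AddCommGroup V] [Module F V] (w₀ : E → V) (A : ℕ → Finset E) (l m : ℕ) (W : Finset E) :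
    Prop where
  sub : W ⊆ A m \ A l
  span : rk F w₀ ⊥ (A l ∪ W) = rk F w₀ ⊥ (A m)
  indL : rk F w₀ ⊥ (A l ∪ W) = rk F w₀ ⊥ (A l) + W.card
  indR : rk F w₀ ⊥ (W ∪ (A m)ᶜ) = W.card + rk F w₀ ⊥ (A m)ᶜ

variable {F : Type} [Field F] {E : Type} [Fintype E] [DecidableEq E] {V : Type}
  [AddCommGroup V] [Module F V] [FiniteDimensional F V] {w₀ : E → V} {A : ℕ → Finset E} {n s : ℕ}
  {u v : FRep F w₀ A n s} {l m m' : ℕ} {W W' Z : Finset E}

omit [Fintype E] in
private theorem BrwC4_empty : rk F w₀ (⊥ : Submodule F V) ∅ = 0 := by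
  rw [rk_empty]
  simp

/-- equal ranks of `X ⊆ Y` give equal ranks of `X ∪ C`, `Y ∪ C` -/
private theorem BrwC4_cl {X Y C : Finset E} (hXY : X ⊆ Y)
    (h : rk F w₀ (⊥ : Submodule F V) X = rk F w₀ ⊥ Y) :
    rk F w₀ (⊥ : Submodule F V) (X ∪ C) = rk F w₀ ⊥ (Y ∪ C) := by
  have hr := rk_isRk w₀ (⊥ : Submodule F V)
  have h1 := hr.mono (X ∪ C) (Y ∪ C) (Finset.union_subset_union_left hXY)
  have h2 := hr.sub4 (A := X ∪ C) (B := Y) (C := Y ∪ C) (D := X)
    (by
      intro a ha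
      simp only [Finset.mem_union] at ha ⊢
      tauto)
    (Finset.subset_inter Finset.subset_union_left hXY)
  omega

/-- `iso_iff`: `rk (A l ∪ W ∪ (A m)ᶜ) = rk univ`, `finrank_Gd` for `A m` -/
theorem TB.iso (hL : Lnk F w₀ A n s) (hlm : l ≤ m) (hm : m ≤ n) (h : TB F w₀ A l m W)
    (u : FRep F w₀ A n s) : ∃ e, RIso (u.L l m W) e := by
  have hA : ∀ l, l < n → A l ⊆ A (l + 1) := fun l hl => (hL.mono l hl).subset
  have hAlm : A l ⊆ A m := chain_le hA hlm hm
  have hr := rk_isRk w₀ (⊥ : Submodule F V)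
  rw [FRep.iso_iff hA hlm hm h.sub]
  have h0 : rk F w₀ (⊥ : Submodule F V) ∅ = 0 := BrwC4_empty
  have h1 := hr.le_card W
  have h2 := hr.sub4 (A := A l) (B := W) (C := A l ∪ W) (D := ∅) subset_rfl (Finset.empty_subset _)
  have h3 := h.indL
  have h4 := h.span
  have h5 := h.indR
  have h6 := finrank_Gd (F := F) w₀ (A m)
  rw [hL.width m hm] at h6
  have h7 := BrwC4_cl (F := F) (w₀ := w₀) (X := A l ∪ W) (Y := A m) (C := (A m)ᶜ)
    (Finset.union_subset hAlm (h.sub.trans Finset.sdiff_subset)) h4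
  rw [Finset.union_compl] at h7
  refine ⟨?_, ?_, ?_⟩
  · omega
  · omega
  · omega

/-- a larger set, independent modulo the left side, has the same label -/
private theorem BrwC4_eq (hL : Lnk F w₀ A n s) (hlm : l ≤ m) (hm : m ≤ n) {Z' : Finset E}
    (hZW : Z' ⊆ W) (hW : W ⊆ A m \ A l)
    (hr : rk F w₀ (⊥ : Submodule F V) (A l ∪ W) = rk F w₀ ⊥ (A l) + W.card)
    (v : FRep F w₀ A n s) (hZ : ∃ e, RIso (v.L l m Z') e) : v.L l m W = v.L l m Z' := by
  have hA : ∀ l, l < n → A l ⊆ A (l + 1) := fun l hl => (hL.mono l hl).subset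
  have hWl : W ⊆ (A l)ᶜ := fun x hx => Finset.mem_compl.2 (Finset.mem_sdiff.1 (hW hx)).2
  have hT : v.T l W = ⊥ := by
    have h1 := FRep.compat (u := v) (hlm.trans hm) (subset_refl (A l)) hWl
    rw [FRep.T_all (hlm.trans hm), top_inf_eq] at h1
    have h2 := (rk_isRk w₀ (⊥ : Submodule F V)).le_card W
    have h3 : rk F w₀ (⊥ : Submodule F V) ∅ = 0 := BrwC4_empty
    rw [← Submodule.finrank_eq_zero (S := v.T l W)]
    omega
  obtain ⟨e, he⟩ := hZ
  have hle : v.L l m Z' ≤ v.L l m W := by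
    rintro ⟨g, h⟩ hgh
    rw [FRep.mem_L] at hgh ⊢
    exact Sp_mono hZW hgh
  refine le_antisymm ?_ hle
  rintro ⟨g, h⟩ hgh
  have h1 : (e.symm h, h) ∈ v.L l m Z' := (he _ _).2 (by simp)
  have h2 : (g, h) - (e.symm h, h) ∈ v.L l m W := Submodule.sub_mem _ hgh (hle h1)
  have h3 : g - e.symm h ∈ rpre (v.L l m W) ⊥ :=
    mem_rpre.2 ⟨0, (mem_bot F).2 rfl, by simpa using h2⟩
  rw [FRep.L_pre_bot hA hlm hm hW, hT, mem_bot, sub_eq_zero] at h3
  rw [h3]
  exact h1

/-- A set with an isomorphism as label has the same label (in all representations) as some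
transporting base. Let `Z' ⊆ Z` be a basis of `Z` (`rk Z' = Z'.card = rk Z`, so the spans and labels
are the same), independent modulo `A l` by `iso_iff`; extend it to `W ⊆ A m \ A l` with
`rk (A l ∪ W) = rk (A m) = rk (A l) + W.card` (`exists_basis_ext` in `BlkB`). For a framed
representation `u` the label of `W` contains the one of `Z'`, and both have dimension `s`:
`T l W = ⊥` (`W` is independent modulo `A l`), so the relation `u.L l m W` is the graph of a map
defined on a subspace (`rpre ⊥ = ⊥`), of dimension at most `s`. So the labels are equal, and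
`T m W = ⊥`, i.e. `Sp W` and `Sp (A m)ᶜ` are disjoint. (If there is no framed representation there is
nothing to compare; use the given `u`.) -/
theorem exists_tb_of_iso (hL : Lnk F w₀ A n s) (hlm : l ≤ m) (hm : m ≤ n) (u : FRep F w₀ A n s)
    (hZ : Z ⊆ A m \ A l) (h : ∃ e, RIso (u.L l m Z) e) :
    ∃ W, TB F w₀ A l m W ∧ ∀ v : FRep F w₀ A n s, v.L l m W = v.L l m Z := by
  have hA : ∀ l, l < n → A l ⊆ A (l + 1) := fun l hl => (hL.mono l hl).subset
  have hAlm : A l ⊆ A m := chain_le hA hlm hm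
  have hr := rk_isRk w₀ (⊥ : Submodule F V)
  have h0 : rk F w₀ (⊥ : Submodule F V) ∅ = 0 := BrwC4_empty
  obtain ⟨Z', -, hZ', h1, h2⟩ := exists_basis_ext hr (R := Z) (S := ∅) (T₁ := ∅)
    (Finset.empty_subset _) (by simp)
  rw [Finset.union_empty] at h1 h2
  rw [Finset.union_empty] at h1
  obtain ⟨k1, k2, k3⟩ := (FRep.iso_iff hA hlm hm hZ).1 h
  have k4 := BrwC4_cl (F := F) (w₀ := w₀) (C := A l) hZ' h1
  obtain ⟨W, hZW, hW, h3, h4⟩ := exists_basis_ext hr (R := A m \ A l) (S := A l) (T₁ := Z')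
    (hZ'.trans hZ) (by
      rw [Finset.union_comm Z (A l)] at k4
      omega)
  rw [Finset.sdiff_union_of_subset hAlm] at h3
  rw [Finset.union_comm W (A l)] at h3 h4
  -- the labels of `Z'` and `Z` are the same
  have hLZ : ∀ v : FRep F w₀ A n s, v.L l m Z' = v.L l m Z := by
    intro v
    have h5 : Sp F v.w Z' = Sp F v.w Z := by
      refine Submodule.eq_of_le_of_finrank_le (Sp_mono hZ') ?_
      rw [← v.same Z, ← v.same Z']
      unfold rk at h1
      rw [sup_bot_eq, sup_bot_eq] at h1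
      exact h1.ge
    unfold FRep.L
    rw [h5]
  have hLW : ∀ v : FRep F w₀ A n s, v.L l m W = v.L l m Z := by
    intro v
    rw [← hLZ v]
    refine BrwC4_eq hL hlm hm hZW hW h4 v ?_
    rw [hLZ v]
    exact FRep.iso_all hA hlm hm hZ h
  refine ⟨W, ⟨hW, h3, h4, ?_⟩, hLW⟩
  have h6 : ∃ e, RIso (u.L l m W) e := by
    rw [hLW u]
    exact h
  obtain ⟨k5, k6, -⟩ := (FRep.iso_iff hA hlm hm hW).1 h6
  have h7 := hr.le_card W
  omega

/-- `exists_trans` and `exists_tb_of_iso` -/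
theorem exists_tb (hL : Lnk F w₀ A n s) (hlm : l ≤ m) (hm : m ≤ n) (u : FRep F w₀ A n s) :
    ∃ W, TB F w₀ A l m W := by
  obtain ⟨Y, hY, hYi⟩ := exists_trans hL hlm hm
  obtain ⟨W, hW, -⟩ := exists_tb_of_iso hL hlm hm u hY (hYi u)
  exact ⟨W, hW⟩

theorem TB.union (hL : Lnk F w₀ A n s) (hlm : l ≤ m) (hm : m ≤ m') (hm' : m' ≤ n)
    (h : TB F w₀ A l m W) (h' : TB F w₀ A m m' W') : TB F w₀ A l m' (W ∪ W') := by
  have hA : ∀ l, l < n → A l ⊆ A (l + 1) := fun l hl => (hL.mono l hl).subset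
  have hAlm : A l ⊆ A m := chain_le hA hlm (hm.trans hm')
  have hAm : A m ⊆ A m' := chain_le hA hm hm'
  have hr := rk_isRk w₀ (⊥ : Submodule F V)
  have hW := h.sub
  have hW' := h'.sub
  have hdisj : Disjoint W W' := by
    rw [Finset.disjoint_left]
    intro x hx hx'
    exact (Finset.mem_sdiff.1 (hW' hx')).2 (Finset.mem_sdiff.1 (hW hx)).1
  have hcard : (W ∪ W').card = W.card + W'.card := Finset.card_union_of_disjoint hdisj
  have e1 : A l ∪ (W ∪ W') = A l ∪ W ∪ W' := (Finset.union_assoc _ _ _).symm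
  have h1 := BrwC4_cl (F := F) (w₀ := w₀) (X := A l ∪ W) (Y := A m) (C := W')
    (Finset.union_subset hAlm (hW.trans Finset.sdiff_subset)) h.span
  have h2 := h.indL
  have h3 := h.span
  have h4 := h'.indL
  have h5 := h'.span
  have h6 := h.indR
  have h7 := h'.indR
  refine ⟨?_, ?_, ?_, ?_⟩
  · intro x hx
    rw [Finset.mem_sdiff]
    rcases Finset.mem_union.1 hx with hx | hx
    · have h8 := Finset.mem_sdiff.1 (hW hx)
      exact ⟨hAm h8.1, h8.2⟩
    · have h8 := Finset.mem_sdiff.1 (hW' hx)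
      exact ⟨h8.1, fun h9 => h8.2 (hAlm h9)⟩
  · rw [e1]
    omega
  · rw [e1]
    omega
  · rw [hcard]
    have e2 : W ∪ W' ∪ (A m')ᶜ = W ∪ (W' ∪ (A m')ᶜ) := Finset.union_assoc _ _ _
    rw [e2]
    have hX : W' ∪ (A m')ᶜ ⊆ (A m)ᶜ := by
      intro x hx
      rw [Finset.mem_compl]
      rcases Finset.mem_union.1 hx with hx | hx
      · exact (Finset.mem_sdiff.1 (hW' hx)).2
      · exact fun h9 => (Finset.mem_compl.1 hx) (hAm h9)
    have h8 := hr.sub4 (A := W ∪ (W' ∪ (A m')ᶜ)) (B := (A m)ᶜ) (C := W ∪ (A m)ᶜ)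
      (D := W' ∪ (A m')ᶜ)
      (by
        intro a ha
        simp only [Finset.mem_union] at ha ⊢
        tauto)
      (Finset.subset_inter Finset.subset_union_right hX)
    have h9 := hr.add_card (W' ∪ (A m')ᶜ) W
    rw [Finset.union_comm] at h9
    omega

end Pool.MP_4929df_co.H92
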