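import Pool.Agent.W_4929df_h92.BrwC1b
import Pool.Agent.W_4929df_h92.BrwC3

/-!
Framing representations; restriction to subchains.
-/

set_option autoImplicit false

namespace Pool.MP_4929df_co.H92

open Submodule

variable {F : Type} [Field F] {E : Type} [Fintype E] [DecidableEq E] {V : Type}
  [AddCommGroup V] [Module F V] {w₀ : E → V} {A : ℕ → Finset E} {n s : ℕ}
  {u v x : FRep F w₀ A n s}

theorem Lnk.sub (hL : Lnk F w₀ A n s) {l : ℕ} (hl : l < n) : A l ⊆ A (l + 1) :=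
  (hL.mono l hl).1

/-- frames exist: `finrank (Gd F w (A l)) = s` by `finrank_Gd_same` -/
theorem exists_frep [FiniteDimensional F V] (hL : Lnk F w₀ A n s) {w : E → V}
    (hw : SameR F w₀ w) : ∃ u : FRep F w₀ A n s, u.w = w := by
  classical
  have h1 : ∀ l, l ≤ n → Module.finrank F (Fin s → F) = Module.finrank F (Gd F w (A l)) := by
    intro l hl
    rw [Module.finrank_fin_fun, ← finrank_Gd_same hw (A l), hL.width l hl]
  have h2 : ∀ l, ∃ th : (Fin s → F) →ₗ[F] V, l ≤ n →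
      Function.Injective th ∧ LinearMap.range th = Gd F w (A l) := by
    intro l
    by_cases hl : l ≤ n
    · let e0 : (Fin s → F) ≃ₗ[F] Gd F w (A l) := LinearEquiv.ofFinrankEq _ _ (h1 l hl)
      refine ⟨(Gd F w (A l)).subtype.comp (e0 : (Fin s → F) →ₗ[F] Gd F w (A l)), fun _ =>
        ⟨(Submodule.subtype_injective _).comp e0.injective, ?_⟩⟩
      rw [LinearMap.range_comp_of_range_eq_top _ (LinearEquiv.range e0), Submodule.range_subtype]
    · exact ⟨0, fun h => absurd h hl⟩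
  choose th hth using h2
  exact ⟨⟨w, th, hw, fun l hl => (hth l hl).1, fun l hl => (hth l hl).2⟩, rfl⟩

/-- frames that agree with the frames of `u` below `A j`: `v.th m = g ∘ u.th m` for `m ≤ j`
(`map_Gd`), any frames above -/
theorem exists_frep_low [FiniteDimensional F V] (hL : Lnk F w₀ A n s) (u : FRep F w₀ A n s)
    {w' : E → V} (hw : SameR F w₀ w') {j : ℕ} (hj : j ≤ n) (h : EqA F (A j) u.w w') :
    ∃ v : FRep F w₀ A n s, v.w = w' ∧ LowG u v j := by
  classical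
  obtain ⟨v0, hv0⟩ := exists_frep hL hw
  obtain ⟨g, c, h1, h2⟩ := h
  have hA : ∀ l, l < n → A l ⊆ A (l + 1) := fun l hl => hL.sub hl
  refine ⟨⟨w', fun m => if m ≤ j then (g : V →ₗ[F] V).comp (u.th m) else v0.th m, hw,
    fun m hm => ?_, fun m hm => ?_⟩, rfl, g, c, fun x hx => h1 x hx, fun m hm a => ?_⟩
  · by_cases hmj : m ≤ j
    · simp only [if_pos hmj]
      exact g.injective.comp (u.inj m hm)
    · simp only [if_neg hmj]
      exact v0.inj m hm
  · by_cases hmj : m ≤ j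
    · simp only [if_pos hmj]
      rw [LinearMap.range_comp, u.rng m hm]
      exact map_Gd h1 h2 (chain_le hA hmj hj)
    · simp only [if_neg hmj]
      rw [v0.rng m hm, hv0]
  · simp only [if_pos hm]
    rfl

theorem LowG.symm {l : ℕ} (h : LowG u v l) : LowG v u l := by
  obtain ⟨g, c, h1, h2⟩ := h
  refine ⟨g.symm, fun x => (c x)⁻¹, fun x hx => ⟨inv_ne_zero (h1 x hx).1, ?_⟩, fun m hm a => ?_⟩
  · rw [(h1 x hx).2, map_smul, LinearEquiv.symm_apply_apply, smul_smul,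
      inv_mul_cancel₀ (h1 x hx).1, one_smul]
  · rw [h2 m hm a, LinearEquiv.symm_apply_apply]

theorem LowG.trans {l : ℕ} (h : LowG u v l) (h' : LowG v x l) : LowG u x l := by
  obtain ⟨g, c, h1, h2⟩ := h
  obtain ⟨g', c', h1', h2'⟩ := h'
  refine ⟨g.trans g', fun z => c' z * c z, fun z hz =>
    ⟨mul_ne_zero (h1' z hz).1 (h1 z hz).1, ?_⟩, fun m hm a => ?_⟩
  · rw [(h1' z hz).2, (h1 z hz).2, map_smul, smul_smul, LinearEquiv.trans_apply]
  · rw [h2' m hm a, h2 m hm a, LinearEquiv.trans_apply]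

private theorem BrwD1_mono {n' : ℕ} {f : ℕ → ℕ} (hm : ∀ i, i < n' → f i < f (i + 1)) {i j : ℕ}
    (hij : i ≤ j) (hj : j ≤ n') : f i ≤ f j := by
  induction j, hij using Nat.le_induction with
  | base => exact le_rfl
  | succ j hij ih => exact (ih (by omega)).trans (hm j (by omega)).le

/-- a subchain of a linked chain is linked -/
theorem Lnk.subchain (hL : Lnk F w₀ A n s) {n' : ℕ} {f : ℕ → ℕ} (hf : ∀ i, i ≤ n' → f i ≤ n)
    (hm : ∀ i, i < n' → f i < f (i + 1)) : Lnk F w₀ (fun i => A (f i)) n' s := by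
  have hA : ∀ l, l < n → A l ⊆ A (l + 1) := fun l hl => hL.sub hl
  refine ⟨fun l hl => ?_, fun l hl => hL.width _ (hf l hl), fun B h1 h2 => ?_⟩
  · have h1 : f (l + 1) ≤ n := hf (l + 1) hl
    have h2 : f l < f (l + 1) := hm l hl
    exact lt_of_lt_of_le (hL.mono (f l) (lt_of_lt_of_le h2 h1)) (chain_le hA h2 h1)
  · exact hL.linked B ((chain_le hA (Nat.zero_le _) (hf 0 (Nat.zero_le _))).trans h1)
      (h2.trans (chain_le hA (hf n' le_rfl) le_rfl))

theorem FRep.sub_L {n' : ℕ} (u : FRep F w₀ A n s) (f : ℕ → ℕ) (hf : ∀ i, i ≤ n' → f i ≤ n)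
    (i j : ℕ) (Z : Finset E) : (u.sub f hf).L i j Z = u.L (f i) (f j) Z := rfl

theorem FRep.sub_T {n' : ℕ} (u : FRep F w₀ A n s) (f : ℕ → ℕ) (hf : ∀ i, i ≤ n' → f i ≤ n)
    (i : ℕ) (S : Finset E) : (u.sub f hf).T i S = u.T (f i) S := rfl

/-- `f` is monotone on `{0, ..., n'}` -/
theorem LowEq.sub {n' : ℕ} {f : ℕ → ℕ} (hf : ∀ i, i ≤ n' → f i ≤ n)
    (hm : ∀ i, i < n' → f i < f (i + 1)) {i : ℕ} (hi : i ≤ n') (h : LowEq u v (f i)) :
    LowEq (u.sub f hf) (v.sub f hf) i :=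
  ⟨fun m h1 S hS => h.tr (f m) (BrwD1_mono hm h1 hi) S hS, fun m m' h1 h2 Z hZ =>
    h.lb (f m) (f m') (BrwD1_mono hm h1 (h2.trans hi)) (BrwD1_mono hm h2 hi) Z hZ⟩

theorem UpEq.sub {n' : ℕ} {f : ℕ → ℕ} (hf : ∀ i, i ≤ n' → f i ≤ n)
    (hm : ∀ i, i < n' → f i < f (i + 1)) {i : ℕ} (hi : i ≤ n') (h : UpEq u v (f i)) :
    UpEq (u.sub f hf) (v.sub f hf) i :=
  ⟨fun m h1 h2 S hS => h.tr (f m) (BrwD1_mono hm h1 h2) (hf m h2) S hS, fun m m' h1 h2 h3 Z hZ =>
    h.lb (f m) (f m') (BrwD1_mono hm h1 (h2.trans h3)) (BrwD1_mono hm h2 h3) (hf m' h3) Z hZ⟩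

/-- cancellation of isomorphisms in a composition of relations -/
theorem rcomp_cancel {F X : Type} [Field F] [AddCommGroup X] [Module F X]
    {R R' Q Q' : Submodule F (X × X)} {e e' : X ≃ₗ[F] X} (h : RIso R e) (h' : RIso R' e')
    (hq : rcomp (rcomp R Q) R' = rcomp (rcomp R Q') R') : Q = Q' := by
  have key : ∀ (P : Submodule F (X × X)) (a b : X),
      (e.symm a, e' b) ∈ rcomp (rcomp R P) R' ↔ (a, b) ∈ P := by
    intro P a b
    rw [mem_rcomp]
    constructor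
    · rintro ⟨m, h1, h2⟩
      rw [mem_rcomp] at h1
      obtain ⟨m', h3, h4⟩ := h1
      rw [h] at h3
      rw [h'] at h2
      rw [LinearEquiv.apply_symm_apply] at h3
      have h5 : b = m := e'.injective h2
      rw [h3, ← h5] at h4
      exact h4
    · intro hab
      refine ⟨b, ?_, (h' b (e' b)).2 rfl⟩
      rw [mem_rcomp]
      refine ⟨a, ?_, hab⟩
      rw [h, LinearEquiv.apply_symm_apply]
  ext ⟨a, b⟩
  rw [← key Q a b, ← key Q' a b, hq]

end Pool.MP_4929df_co.H92
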