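import Pool.Agent.W_4929df_h92.UnqI

/-!
Relative uniqueness, the theorem.
-/

set_option autoImplicit false

namespace Pool.MP_4929df_co.H92

open Submodule

/-- The theorem. Induction on `D.card = n`, for all `V`. `n = 0`: `g = id`. If there is a pair
`x ≠ x'` in `D` with `rk ⊥ {x, x'} + rk B (D \ {x, x'}) ≤ rk B D + 1`: either `rk ⊥ {x, x'} ≤ 1`
(`unq_par_good`, `unq_par`), or `rk ⊥ {x, x'} = 2` and `unq_ser_con`. Otherwise `UGood.three`; take
`e ∈ D`; `w e ∈ B`: `unq_inB_good`, `unq_inB`; otherwise `unq_bixby` and `unq_del_good`, `unq_del` or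
`unq_con_good`, `unq_con`. (`FiniteDimensional F (V ⧸ _)` is an instance.) -/
theorem unq_aux {F : Type} [Field F] {E : Type} [DecidableEq E] (n : ℕ) :
    ∀ (V : Type) [AddCommGroup V] [Module F V] [FiniteDimensional F V] (w w' : E → V)
      (B : Submodule F V) (D : Finset E), D.card = n → UH F w w' B D → UGood F w B D →
      UEq F w w' B D := by
  induction n with
  | zero =>
    intro V _ _ _ w w' B D hn _ _
    rw [Finset.card_eq_zero] at hn
    subst hn
    exact ⟨LinearEquiv.refl F V, fun _ => 1, fun _ _ => rfl, fun x hx =>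
      absurd hx (Finset.notMem_empty x)⟩
  | succ n ih =>
    intro V _ _ _ w w' B D hn h hg
    have hc : ∀ x ∈ D, (D.erase x).card = n := fun x hx => by
      rw [Finset.card_erase_of_mem hx, hn, Nat.add_sub_cancel]
    by_cases hp : ∃ x ∈ D, ∃ x' ∈ D, x ≠ x' ∧
        rk F w ⊥ {x, x'} + rk F w B (D \ {x, x'}) ≤ rk F w B D + 1
    · obtain ⟨x, hx, x', hx', hne, hxx⟩ := hp
      rcases Nat.lt_or_ge 1 (rk F w ⊥ {x, x'}) with hr | hr
      · exact unq_ser_con h hg hx hx' hne (by omega)
          (fun w₁ w₂ h1 h2 => ih _ w₁ w₂ _ _ (hc x' hx') h1 h2)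
      · exact unq_par h hg hx hx' hne hr (ih V w w' B _ (hc x' hx')
          (h.mono (Finset.erase_subset _ _)) (unq_par_good hg hx hx' hne hr))
    · have h3 : UThree F w B D := hg.three (fun x hx x' hx' hne => by
        by_contra hcon
        exact hp ⟨x, hx, x', hx', hne, by omega⟩)
      have hD : D.Nonempty := by
        rw [← Finset.card_pos]
        omega
      obtain ⟨e, he⟩ := hD
      by_cases heB : w e ∈ B
      · exact unq_inB h hg he heB (ih V w w' B _ (hc e he) (h.mono (Finset.erase_subset _ _))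
          (unq_inB_good hg he heB))
      · rcases unq_bixby h3 he with hb | hb
        · exact unq_del h h3 he (ih V w w' B _ (hc e he) (h.mono (Finset.erase_subset _ _))
            (unq_del_good h3 he hb))
        · exact unq_con h h3 he heB (unq_con_good h3 he heB hb)
            (fun w₁ w₂ h1 h2 => ih _ w₁ w₂ _ _ (hc e he) h1 h2)

/-- relative uniqueness -/
theorem unq {F : Type} [Field F] {E : Type} [DecidableEq E] {V : Type} [AddCommGroup V]
    [Module F V] [FiniteDimensional F V] {w w' : E → V} {B : Submodule F V} {D : Finset E}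
    (h : UH F w w' B D) (hg : UGood F w B D) : UEq F w w' B D :=
  unq_aux D.card V w w' B D rfl h hg

end Pool.MP_4929df_co.H92
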