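import Pool.Agent.W_4929df_h92.BrwC1
import Pool.Agent.W_4929df_h92.UnqI2

/-!
Connectivity relative to a boundary from 4-connectivity.
-/

set_option autoImplicit false

namespace Pool.MP_4929df_co.H92

open Submodule

variable {F : Type} [Field F] {E : Type} [Fintype E] [DecidableEq E] {V : Type}
  [AddCommGroup V] [Module F V] [FiniteDimensional F V] {w₀ w : E → V} {D X : Finset E}
  {B : Submodule F V}

/-- `Sp X ⊓ Sp Dᶜ = Sp X ⊓ B` -/
theorem rel_rk (h1 : Sp F w D ⊓ Sp F w Dᶜ ≤ B) (h2 : B ≤ Sp F w Dᶜ) (hX : X ⊆ D) :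
    rk F w B X + rk F w ⊥ Dᶜ = rk F w ⊥ (X ∪ Dᶜ) + Module.finrank F B := by
  have h3 : Sp F w X ⊓ Sp F w Dᶜ = Sp F w X ⊓ B :=
    le_antisymm (le_inf inf_le_left ((inf_le_inf_right _ (Sp_mono hX)).trans h1))
      (inf_le_inf_left _ h2)
  have h4 := Submodule.finrank_sup_add_finrank_inf_eq (Sp F w X) B
  have h5 := Submodule.finrank_sup_add_finrank_inf_eq (Sp F w X) (Sp F w Dᶜ)
  rw [← Sp_union, h3] at h5
  unfold rk
  rw [sup_bot_eq, sup_bot_eq]
  omega

/-- For `P ⊆ D`: `rk F w B (D \ P) - rk F w B D = rk F w ⊥ Pᶜ - rk F w ⊥ univ` by `rel_rk`; `Four` for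
`j = 1` and `j = 2` (`rk F w ⊥` is `rk F w₀ ⊥`; `2 ≤ Pᶜ.card`). -/
theorem four_good (h4 : Four F w₀) (hw : SameR F w₀ w) (hD : 2 ≤ Dᶜ.card)
    (h1 : Sp F w D ⊓ Sp F w Dᶜ ≤ B) (h2 : B ≤ Sp F w Dᶜ) : UGood F w B D := by
  intro P hP
  have e1 := rel_rk h1 h2 (subset_refl D)
  have e2 := rel_rk h1 h2 (Finset.sdiff_subset (s := D) (t := P))
  have e3 : D \ P ∪ Dᶜ = Pᶜ := by
    ext a
    simp only [Finset.mem_union, Finset.mem_sdiff, Finset.mem_compl]
    constructor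
    · rintro (h | h)
      · exact h.2
      · exact fun ha => h (hP ha)
    · intro h
      by_cases ha : a ∈ D
      · exact Or.inl ⟨ha, h⟩
      · exact Or.inr ha
  rw [Finset.union_compl] at e1
  rw [e3] at e2
  have e4 : ∀ S : Finset E, rk F w ⊥ S = Module.finrank F (Sp F w₀ S) := by
    intro S
    unfold rk
    rw [sup_bot_eq, hw S]
  have hc : 2 ≤ Pᶜ.card := hD.trans (Finset.card_le_card (Finset.compl_subset_compl.2 hP))
  have e5 := e4 Finset.univ
  have e6 := e4 P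
  have e7 := e4 Pᶜ
  refine ⟨fun hne => ?_, fun hle => ?_⟩
  · have h5 := h4 P 1 (by omega) (Finset.card_pos.2 hne) (by omega)
    omega
  · by_contra hcon
    have h5 := h4 P 2 (by omega) (by omega) hc
    omega

end Pool.MP_4929df_co.H92
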