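import Pool.Agent.W_4929df_h92.BrwD1
import Pool.Agent.W_4929df_h92.BrwD2
import Pool.Agent.W_4929df_h92.BrwA3

/-!
Equal label functions on a block and equal lower parts give equivalent representations.
-/

set_option autoImplicit false

namespace Pool.MP_4929df_co.H92

open Submodule

variable {F : Type} [Field F] {E : Type} [Fintype E] [DecidableEq E] {V : Type}
  [AddCommGroup V] [Module F V] [FiniteDimensional F V] {w₀ : E → V} {A : ℕ → Finset E} {n s : ℕ}
  {u v : FRep F w₀ A n s}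

/-- an isomorphism between two subspaces extends to the whole space -/
private theorem BrwD3_ext_iso {W W' : Submodule F V} (φ : W ≃ₗ[F] W') :
    ∃ g : V ≃ₗ[F] V, ∀ x : W, g x = φ x := by
  obtain ⟨C, hC⟩ := Submodule.exists_isCompl W
  obtain ⟨C', hC'⟩ := Submodule.exists_isCompl W'
  have h1 := finrank_add_eq_of_isCompl hC
  have h2 := finrank_add_eq_of_isCompl hC'
  have h3 := φ.finrank_eq
  have h4 : Module.finrank F C = Module.finrank F C' := by omega
  let ψ : C ≃ₗ[F] C' := LinearEquiv.ofFinrankEq C C' h4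
  refine ⟨(prodEquivOfIsCompl W C hC).symm ≪≫ₗ (φ.prodCongr ψ) ≪≫ₗ prodEquivOfIsCompl W' C' hC',
    fun x => ?_⟩
  simp

/-- two linear maps with the same kernel differ by an automorphism -/
private theorem BrwD3_ker {M : Type} [AddCommGroup M] [Module F M] (f f' : M →ₗ[F] V)
    (h : LinearMap.ker f = LinearMap.ker f') : ∃ θ : V ≃ₗ[F] V, ∀ x, θ (f x) = f' x := by
  obtain ⟨g, hg⟩ := BrwD3_ext_iso
    (f.quotKerEquivRange.symm ≪≫ₗ Submodule.quotEquivOfEq _ _ h ≪≫ₗ f'.quotKerEquivRange)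
  refine ⟨g, fun x => ?_⟩
  have h1 := hg ⟨f x, LinearMap.mem_range_self f x⟩
  rw [h1, LinearEquiv.trans_apply, LinearEquiv.trans_apply]
  have h2 : f.quotKerEquivRange.symm ⟨f x, LinearMap.mem_range_self f x⟩ =
      Submodule.Quotient.mk x := by
    rw [LinearEquiv.symm_apply_eq]
    exact Subtype.ext (LinearMap.quotKerEquivRange_apply_mk f x).symm
  rw [h2, Submodule.quotEquivOfEq_mk, LinearMap.quotKerEquivRange_apply_mk]

omit [Fintype E] [DecidableEq E] [FiniteDimensional F V] in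
private theorem BrwD3_Sp (θ : V ≃ₗ[F] V) (w : E → V) (Z : Finset E) :
    Sp F (fun x => θ (w x)) Z = (Sp F w Z).map (θ : V →ₗ[F] V) := by
  unfold Sp
  rw [Submodule.map_span, Set.image_image]
  rfl

/-- the span of the two boundaries of the block `j` -/
def FRep.BB (u : FRep F w₀ A n s) (j : ℕ) : Submodule F V :=
  LinearMap.range (u.th j) ⊔ LinearMap.range (u.th (j + 1))

/-- `b = a + c`, `a ∈ Sp (A j)`, `c ∈ Sp (A (j+1))ᶜ`, `b ∈ Sp D`: `a = b - c ∈ Sp (A j)ᶜ`, so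
`a ∈ Gd (A j)`, and `c ∈ Gd (A (j + 1))` -/
theorem FRep.Gd_block (hA : ∀ l, l < n → A l ⊆ A (l + 1)) {j : ℕ} (hj : j < n) :
    Gd F u.w (A (j + 1) \ A j) = Sp F u.w (A (j + 1) \ A j) ⊓ u.BB j ∧
      u.BB j ≤ Sp F u.w (A (j + 1) \ A j)ᶜ := by
  have hAj := hA j hj
  have r1 : LinearMap.range (u.th j) = Gd F u.w (A j) := u.rng j hj.le
  have r2 : LinearMap.range (u.th (j + 1)) = Gd F u.w (A (j + 1)) := u.rng (j + 1) hj
  have e1 : A j ⊆ (A (j + 1) \ A j)ᶜ := fun x hx => by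
    rw [Finset.mem_compl, Finset.mem_sdiff]
    exact fun h => h.2 hx
  have e2 : (A (j + 1))ᶜ ⊆ (A (j + 1) \ A j)ᶜ := Finset.compl_subset_compl.2 Finset.sdiff_subset
  have e3 : A (j + 1) \ A j ⊆ (A j)ᶜ := fun x hx => Finset.mem_compl.2 (Finset.mem_sdiff.1 hx).2
  have e4 : (A (j + 1) \ A j)ᶜ = A j ∪ (A (j + 1))ᶜ := by
    ext x
    have := @hAj x
    simp only [Finset.mem_union, Finset.mem_compl, Finset.mem_sdiff]
    tauto
  have h2 : u.BB j ≤ Sp F u.w (A (j + 1) \ A j)ᶜ := by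
    unfold FRep.BB
    rw [r1, r2]
    exact sup_le (inf_le_left.trans (Sp_mono e1)) (inf_le_right.trans (Sp_mono e2))
  refine ⟨le_antisymm (fun b hb => ⟨hb.1, ?_⟩) (fun b hb => ⟨hb.1, h2 hb.2⟩), h2⟩
  have hb1 : b ∈ Sp F u.w (A (j + 1) \ A j) := hb.1
  have hb2 : b ∈ Sp F u.w (A (j + 1) \ A j)ᶜ := hb.2
  rw [e4, Sp_union] at hb2
  obtain ⟨a, ha, c, hc, rfl⟩ := Submodule.mem_sup.1 hb2
  have ha1 : a ∈ Sp F u.w (A j)ᶜ := by
    have h3 : a = (a + c) - c := by abel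
    rw [h3]
    exact Submodule.sub_mem _ (Sp_mono e3 hb1) (Sp_mono (Finset.compl_subset_compl.2 hAj) hc)
  have hc1 : c ∈ Sp F u.w (A (j + 1)) := by
    have h3 : c = (a + c) - a := by abel
    rw [h3]
    exact Submodule.sub_mem _ (Sp_mono Finset.sdiff_subset hb1) (Sp_mono hAj ha)
  unfold FRep.BB
  rw [r1, r2]
  exact Submodule.add_mem_sup ⟨ha, ha1⟩ ⟨hc1, hc⟩

/-- An automorphism of `V` that maps the frames of `u` at `j` and `j + 1` to those of `v`: by `h` the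
two maps `(a, b) ↦ u.th (j+1) b - u.th j a` and `(a, b) ↦ v.th (j+1) b - v.th j a` have the same
kernel, so their ranges are isomorphic; extend. -/
theorem FRep.exists_frame_map {j : ℕ} (h : u.L j (j + 1) ∅ = v.L j (j + 1) ∅) :
    ∃ θ : V ≃ₗ[F] V, (∀ a, θ (u.th j a) = v.th j a) ∧ ∀ a, θ (u.th (j + 1) a) = v.th (j + 1) a := by
  obtain ⟨θ, hθ⟩ := BrwD3_ker
    ((u.th (j + 1)).comp (LinearMap.snd F (Fin s → F) (Fin s → F)) -
      (u.th j).comp (LinearMap.fst F (Fin s → F) (Fin s → F)))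
    ((v.th (j + 1)).comp (LinearMap.snd F (Fin s → F) (Fin s → F)) -
      (v.th j).comp (LinearMap.fst F (Fin s → F) (Fin s → F))) (by
    unfold FRep.L at h
    rw [Sp_empty, Sp_empty] at h
    exact h)
  refine ⟨θ, fun a => ?_, fun a => ?_⟩
  · have h1 := hθ (a, 0)
    simp only [LinearMap.sub_apply, LinearMap.comp_apply, LinearMap.snd_apply,
      LinearMap.fst_apply, map_zero, zero_sub, map_neg, neg_inj] at h1
    exact h1
  · have h1 := hθ (0, a)
    simp only [LinearMap.sub_apply, LinearMap.comp_apply, LinearMap.snd_apply,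
      LinearMap.fst_apply, map_zero, sub_zero] at h1
    exact h1

/-- With `θ` from `exists_frame_map`, `w₁ = θ ∘ u.w`, `B = v.BB j`, `D = A (j + 1) \ A j`:
`UH F w₁ v.w B D` (elements of `B` are `v.th (j+1) b - v.th j a`, membership in `Sp w₁ Z` and in
`Sp v.w Z` is given by the labels of `Z`; ranks by `SameR`), `UGood F w₁ B D` by `four_good`; `unq`. -/
theorem FRep.block_map (hL : Lnk F w₀ A n s) (h4 : Four F w₀) {j : ℕ} (hj : j < n)
    (hc : 2 ≤ (A j).card)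
    (hlab : ∀ Z, Z ⊆ A (j + 1) \ A j → u.L j (j + 1) Z = v.L j (j + 1) Z) :
    ∃ g : V ≃ₗ[F] V, ∃ c : E → F, (∀ a, g (u.th j a) = v.th j a) ∧
      (∀ a, g (u.th (j + 1) a) = v.th (j + 1) a) ∧
      ∀ x ∈ A (j + 1) \ A j, c x ≠ 0 ∧ v.w x = c x • g (u.w x) := by
  have hA : ∀ l, l < n → A l ⊆ A (l + 1) := fun l hl => (hL.mono l hl).subset
  obtain ⟨θ, h1, h2⟩ := FRep.exists_frame_map (u := u) (v := v) (hlab ∅ (Finset.empty_subset _))
  have hB : (u.BB j).map (θ : V →ₗ[F] V) = v.BB j := by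
    unfold FRep.BB
    rw [Submodule.map_sup, ← LinearMap.range_comp, ← LinearMap.range_comp]
    have e1 : (θ : V →ₗ[F] V) ∘ₗ u.th j = v.th j := LinearMap.ext h1
    have e2 : (θ : V →ₗ[F] V) ∘ₗ u.th (j + 1) = v.th (j + 1) := LinearMap.ext h2
    rw [e1, e2]
  have hS := BrwD3_Sp θ u.w
  obtain ⟨hG1, hG2⟩ := FRep.Gd_block (u := u) hA hj
  have hsame : SameR F w₀ (fun x => θ (u.w x)) := by
    intro S
    rw [hS, u.same S]
    exact (LinearEquiv.finrank_map_eq θ _).symm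
  have hcap : ∀ Z, Z ⊆ A (j + 1) \ A j →
      Sp F (fun x => θ (u.w x)) Z ⊓ v.BB j = Sp F v.w Z ⊓ v.BB j := by
    intro Z hZ
    have key : ∀ y ∈ v.BB j, (y ∈ Sp F (fun x => θ (u.w x)) Z ↔ y ∈ Sp F v.w Z) := by
      intro y hy
      obtain ⟨_, ⟨a, rfl⟩, _, ⟨b, rfl⟩, rfl⟩ := Submodule.mem_sup.1 hy
      have e1 : v.th j a + v.th (j + 1) b = v.th (j + 1) b - v.th j (-a) := by
        rw [map_neg]
        abel
      have e2 : v.th (j + 1) b - v.th j (-a) = θ (u.th (j + 1) b - u.th j (-a)) := by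
        rw [map_sub, h1, h2]
      have h3 : (-a, b) ∈ u.L j (j + 1) Z ↔ (-a, b) ∈ v.L j (j + 1) Z := by rw [hlab Z hZ]
      rw [FRep.mem_L, FRep.mem_L] at h3
      rw [e1, ← h3, hS, e2]
      constructor
      · rintro ⟨y', hy', he⟩
        have h4 : y' = u.th (j + 1) b - u.th j (-a) := θ.injective he
        rw [← h4]
        exact hy'
      · intro h4
        exact ⟨_, h4, rfl⟩
    ext y
    constructor
    · rintro ⟨h3, h4⟩
      exact ⟨(key y h4).1 h3, h4⟩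
    · rintro ⟨h3, h4⟩
      exact ⟨(key y h4).2 h3, h4⟩
  have hUH : UH F (fun x => θ (u.w x)) v.w (v.BB j) (A (j + 1) \ A j) := by
    refine ⟨hcap, fun Z _ => ?_⟩
    unfold rk
    rw [sup_bot_eq, sup_bot_eq, ← hsame Z, v.same Z]
  have hgood : UGood F (fun x => θ (u.w x)) (v.BB j) (A (j + 1) \ A j) := by
    refine four_good h4 hsame ?_ ?_ ?_
    · refine hc.trans (Finset.card_le_card fun x hx => ?_)
      rw [Finset.mem_compl, Finset.mem_sdiff]
      exact fun h => h.2 hx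
    · rw [hS, hS, ← hB, ← Submodule.map_inf _ θ.injective]
      refine Submodule.map_mono ?_
      have h3 : Sp F u.w (A (j + 1) \ A j) ⊓ Sp F u.w (A (j + 1) \ A j)ᶜ =
        Sp F u.w (A (j + 1) \ A j) ⊓ u.BB j := hG1
      rw [h3]
      exact inf_le_right
    · rw [hS, ← hB]
      exact Submodule.map_mono hG2
  obtain ⟨g, c, hg, hgc⟩ := unq hUH hgood
  refine ⟨θ ≪≫ₗ g, c, fun a => ?_, fun a => ?_, hgc⟩
  · rw [LinearEquiv.trans_apply, h1]
    exact hg _ (Submodule.mem_sup_left ⟨a, rfl⟩)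
  · rw [LinearEquiv.trans_apply, h2]
    exact hg _ (Submodule.mem_sup_right ⟨a, rfl⟩)

end Pool.MP_4929df_co.H92
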