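import Pool.Agent.W_4929df_h92.BrwD3

/-!
Equal label functions on a block give equivalence.
-/

set_option autoImplicit false

namespace Pool.MP_4929df_co.H92

open Submodule

variable {F : Type} [Field F] {E : Type} [Fintype E] [DecidableEq E] {V : Type}
  [AddCommGroup V] [Module F V] [FiniteDimensional F V] {w₀ : E → V} {A : ℕ → Finset E} {n s : ℕ}
  {u v : FRep F w₀ A n s}

/-- `EqA_union` for `A₁ = A j`, `A₂ = A (j + 1) \ A j`, `th₁ = u.th j`, `th₂` a surjection of some
`Fin k → F` onto `Gd F u.w A₂` (for the same type of `th₁` use `k = s + finrank`, or apply the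
lemma with `th₁` composed with a projection), `g₁` from `LowG`, `g₂ = g` from `block_map`, which maps
`Gd F u.w A₂ = Sp A₂ ⊓ u.BB j` onto `Gd F v.w A₂` and the frames at `j` and `j + 1` to the frames.
`hK`: apply `g₂` to `u.th j a + th₂ b`. `hH`: `Gd F u.w (A (j + 1)) = range (u.th (j + 1))`. -/
theorem FRep.block_eq (hL : Lnk F w₀ A n s) (h4 : Four F w₀) {j : ℕ} (hj : j < n)
    (hc : 2 ≤ (A j).card) (hlow : LowG u v j)
    (hlab : ∀ Z, Z ⊆ A (j + 1) \ A j → u.L j (j + 1) Z = v.L j (j + 1) Z) :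
    EqA F (A (j + 1)) u.w v.w := by
  obtain ⟨g₁, c₁, e₁, t₁⟩ := hlow
  obtain ⟨g₂, c₂, q₁, q₂, e₂⟩ := FRep.block_map hL h4 hj hc hlab
  have hA : ∀ l, l < n → A l ⊆ A (l + 1) := fun l hl => (hL.mono l hl).1
  have hU : A j ∪ A (j + 1) \ A j = A (j + 1) := Finset.union_sdiff_of_subset (hA j hj)
  have hd : Disjoint (A j) (A (j + 1) \ A j) := Finset.disjoint_sdiff
  -- the map `g₂` and the boundaries
  have hr1 : (LinearMap.range (u.th j)).map (g₂ : V →ₗ[F] V) = LinearMap.range (v.th j) := by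
    ext y
    constructor
    · rintro ⟨_, ⟨a, rfl⟩, rfl⟩
      exact ⟨a, (q₁ a).symm⟩
    · rintro ⟨a, rfl⟩
      exact ⟨u.th j a, ⟨a, rfl⟩, q₁ a⟩
  have hr2 : (LinearMap.range (u.th (j + 1))).map (g₂ : V →ₗ[F] V) = LinearMap.range (v.th (j + 1)) := by
    ext y
    constructor
    · rintro ⟨_, ⟨a, rfl⟩, rfl⟩
      exact ⟨a, (q₂ a).symm⟩
    · rintro ⟨a, rfl⟩
      exact ⟨u.th (j + 1) a, ⟨a, rfl⟩, q₂ a⟩
  have hB : (u.BB j).map (g₂ : V →ₗ[F] V) = v.BB j := by
    unfold FRep.BB
    rw [Submodule.map_sup, hr1, hr2]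
  have hS : (Sp F u.w (A (j + 1) \ A j)).map (g₂ : V →ₗ[F] V) = Sp F v.w (A (j + 1) \ A j) :=
    map_Sp e₂ subset_rfl
  have hG : (Gd F u.w (A (j + 1) \ A j)).map (g₂ : V →ₗ[F] V) = Gd F v.w (A (j + 1) \ A j) := by
    rw [(FRep.Gd_block (u := u) hA hj).1, (FRep.Gd_block (u := v) hA hj).1,
      Submodule.map_inf _ g₂.injective, hS, hB]
  -- the surjections
  have hsk : s ≤ s + Module.finrank F V := Nat.le_add_right _ _
  have hπ : Function.Surjective (LinearMap.funLeft F F (Fin.castLE hsk)) :=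
    LinearMap.funLeft_surjective_of_injective F F _ (Fin.castLE_injective hsk)
  have hπ' := LinearMap.range_eq_top.2 hπ
  obtain ⟨th₂, r₂⟩ := exists_onto (k := s + Module.finrank F V) (Gd F u.w (A (j + 1) \ A j))
    ((Submodule.finrank_le _).trans (Nat.le_add_left _ _))
  have hu : LinearMap.range (u.th j) = Gd F u.w (A j) := u.rng j hj.le
  have hv : LinearMap.range (v.th j) = Gd F v.w (A j) := v.rng j hj.le
  have key := EqA_union (w := u.w) (w' := v.w) hd (th₁ := (u.th j).comp (LinearMap.funLeft F F (Fin.castLE hsk)))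
    (th₂ := th₂) (th₁' := (v.th j).comp (LinearMap.funLeft F F (Fin.castLE hsk)))
    (th₂' := (g₂ : V →ₗ[F] V).comp th₂)
    (by rw [LinearMap.range_comp_of_range_eq_top _ hπ', hu]) r₂
    (by rw [LinearMap.range_comp_of_range_eq_top _ hπ', hv])
    (by rw [LinearMap.range_comp, r₂, hG]) e₁ e₂
    (fun a => by
      rw [LinearMap.comp_apply, LinearMap.comp_apply]
      exact t₁ j le_rfl _)
    (fun a => rfl)
    (fun a b => by
      rw [LinearMap.comp_apply, LinearMap.comp_apply, LinearMap.comp_apply, ← q₁, LinearEquiv.coe_coe, ← map_add]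
      constructor
      · intro h
        rw [h, map_zero]
      · intro h
        exact (LinearEquiv.map_eq_zero_iff g₂).1 h)
    (fun a b => by
      rw [LinearMap.comp_apply, LinearMap.comp_apply, LinearMap.comp_apply, ← q₁, LinearEquiv.coe_coe, ← map_add, hU,
        ← u.rng (j + 1) hj, ← v.rng (j + 1) hj, ← hr2]
      constructor
      · intro h
        exact ⟨_, h, rfl⟩
      · rintro ⟨y, hy, h⟩
        have : y = _ := g₂.injective h
        exact this ▸ hy)
  rwa [hU] at key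

end Pool.MP_4929df_co.H92
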