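import Pool.Agent.W_4929df_h92.BrwD3b
import Pool.Agent.W_4929df_h92.BrwA2
import Pool.Agent.W_4929df_h92.BrwR

/-!
Many framed representations that differ on one block only.
-/

set_option autoImplicit false

namespace Pool.MP_4929df_co.H92

open Submodule

/-- the number of states -/
noncomputable def QQ (F : Type) [Field F] (s : ℕ) : ℕ :=
  Nat.card (Set (Submodule F (Fin s → F) × Submodule F (Fin s → F)))

/-- pigeonhole: more than `N * card C` values contain `N + 1` equal ones -/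
private theorem brwD4_pigeon {C : Type} [Finite C] (N : ℕ) (c : ℕ → C) :
    ∃ g : ℕ → ℕ, (∀ a, g a ≤ N * Nat.card C) ∧ (∀ a b, c (g a) = c (g b)) ∧
      ∀ a, a ≤ N → ∀ b, b ≤ N → a ≠ b → g a ≠ g b := by
  classical
  letI := Fintype.ofFinite C
  have h3 : Fintype.card C * N < Fintype.card (Fin (N * Nat.card C + 1)) := by
    rw [Fintype.card_fin, Nat.card_eq_fintype_card, mul_comm]
    omega
  obtain ⟨y, hy⟩ := Fintype.exists_lt_card_fiber_of_mul_lt_card
    (fun i : Fin (N * Nat.card C + 1) => c i.1) h3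
  obtain ⟨s, hs⟩ : ∃ s : Finset (Fin (N * Nat.card C + 1)),
      s = Finset.univ.filter fun x => c x.1 = y := ⟨_, rfl⟩
  rw [← hs] at hy
  have hmem : ∀ z ∈ s, c z.1 = y := by
    intro z hz
    rw [hs, Finset.mem_filter] at hz
    exact hz.2
  obtain ⟨e, he⟩ : ∃ e : Fin (N + 1) → s, Function.Injective e :=
    ⟨fun i => s.equivFin.symm (Fin.castLE hy i), fun i j hij =>
      Fin.castLE_injective hy (s.equivFin.symm.injective hij)⟩
  refine ⟨fun a => (e ⟨min a N, by omega⟩).1.1, ?_, ?_, ?_⟩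
  · intro a
    exact Nat.le_of_lt_succ (e ⟨min a N, by omega⟩).1.2
  · intro a b
    exact (hmem _ (e ⟨min a N, by omega⟩).2).trans (hmem _ (e ⟨min b N, by omega⟩).2).symm
  · intro a ha b hb hab h
    have h9 := he (Subtype.ext (Fin.ext h))
    rw [Fin.mk.injEq] at h9
    omega

/-- `exists_many` with `H = N * QQ F s` for `A j ⊆ A (j + 1)`: representations `f i`, `i ≤ H`, pairwise
inequivalent on `A (j + 1)`, all equivalent on `A j`. Frame them (`exists_frep`, `exists_frep_low`):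
`u i` with `LowG (u 0) (u i) j`. By the pigeonhole principle (more than `N * QQ` indices) `N + 1` of
them, `u (g 0), ..., u (g N)`, have the same state at `j + 1`. Glue (`glue` at the cut `j + 1`) the
lower part of `u (g a)` and the upper part of `u (g 0)`. Labels of block `j` are those of
`u (g a)`; if they are equal for `a ≠ b` then `FRep.block_eq` gives
`EqA F (A (j + 1)) (u (g a)).w (u (g b)).w`. (`v a = v 0` for `a > N`.) -/
theorem exists_family {F : Type} [Field F] [Finite F] {E : Type} [Fintype E] [DecidableEq E]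
    {V : Type} [AddCommGroup V] [Module F V] [Finite V] [FiniteDimensional F V] {w₀ : E → V}
    {A : ℕ → Finset E} {n s N j : ℕ} (hL : Lnk F w₀ A n s) (h4 : Four F w₀) (hj : j < n)
    (hc : 2 ≤ (A j).card) (u₀ : FRep F w₀ A n s)
    (hH : N * QQ F s * nA F w₀ (A j) < nA F w₀ (A (j + 1))) :
    ∃ v : ℕ → FRep F w₀ A n s, (∀ a b, LowEq (v a) (v b) j) ∧ (∀ a b, UpEq (v a) (v b) (j + 1)) ∧
      (∀ a b, FRep.st u₀ (v a) (j + 1) = FRep.st u₀ (v b) (j + 1)) ∧
      ∀ a, a ≤ N → ∀ b, b ≤ N → a ≠ b →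
        ∃ Z, Z ⊆ A (j + 1) \ A j ∧ (v a).L j (j + 1) Z ≠ (v b).L j (j + 1) Z := by
  classical
  have hA : ∀ l, l < n → A l ⊆ A (l + 1) := fun l hl => hL.sub hl
  obtain ⟨f, hf1, hf2⟩ := exists_many (hA j hj) hH
  obtain ⟨u₁, hu₁⟩ := exists_frep hL (f 0).2
  have h1 : ∀ i, ∃ v : FRep F w₀ A n s, v.w = (f i).1 ∧ LowG u₁ v j := by
    intro i
    refine exists_frep_low hL u₁ (f i).2 hj.le ?_
    rw [hu₁]
    exact hf1 0 i
  choose u hu hlow using h1
  have hG : ∀ a b, LowG (u a) (u b) j := fun a b => (hlow a).symm.trans (hlow b)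
  have hfin : Finite (Set (Submodule F (Fin s → F) × Submodule F (Fin s → F))) := inferInstance
  obtain ⟨g, hg1, hg2, hg3⟩ := brwD4_pigeon N fun i => FRep.st u₀ (u i) (j + 1)
  have h2 : ∀ a, ∃ x : FRep F w₀ A n s, LowEq x (u (g a)) (j + 1) ∧ UpEq x (u (g 0)) (j + 1) :=
    fun a => glue hA hj (hg2 a 0)
  choose v hv1 hv2 using h2
  refine ⟨v, ?_, ?_, ?_, ?_⟩
  · intro a b
    exact ((hv1 a).mono (Nat.le_succ j)).trans
      (((hG (g a) (g b)).lowEq hA hj.le).trans ((hv1 b).mono (Nat.le_succ j)).symm)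
  · intro a b
    exact (hv2 a).trans (hv2 b).symm
  · intro a b
    rw [FRep.st_low (hv1 a) le_rfl, FRep.st_low (hv1 b) le_rfl]
    exact hg2 a b
  · intro a ha b hb hab
    by_contra hcon
    have h3 : ∀ Z, Z ⊆ A (j + 1) \ A j → (v a).L j (j + 1) Z = (v b).L j (j + 1) Z := by
      intro Z hZ
      by_contra h5
      exact hcon ⟨Z, hZ, h5⟩
    have h4' : EqA F (A (j + 1)) (u (g a)).w (u (g b)).w := by
      refine FRep.block_eq hL h4 hj hc (hG _ _) fun Z hZ => ?_
      rw [← (hv1 a).lb j (j + 1) (Nat.le_succ j) le_rfl Z hZ,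
        ← (hv1 b).lb j (j + 1) (Nat.le_succ j) le_rfl Z hZ]
      exact h3 Z hZ
    rw [hu, hu] at h4'
    exact hf2 (g a) (hg1 a) (g b) (hg1 b) (hg3 a ha b hb hab) h4'

end Pool.MP_4929df_co.H92
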