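import Pool.Agent.W_4929df_h92.BrwD4
import Pool.Agent.W_4929df_h92.BrwC2

/-!
The pattern: representations `v t a` that are as `α` below `A t` and as `γ` above `A (t + 1)`.
-/

set_option autoImplicit false

namespace Pool.MP_4929df_co.H92

open Submodule

structure Pat {F : Type} [Field F] {E : Type} [Fintype E] [DecidableEq E] {V : Type}
    [AddCommGroup V] [Module F V] {w₀ : E → V} {A : ℕ → Finset E} {n s : ℕ} (N : ℕ)
    (α γ : FRep F w₀ A n s) (v : ℕ → ℕ → FRep F w₀ A n s) : Prop where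
  low : ∀ t, t < n → ∀ a, a ≤ N → LowEq (v t a) α t
  up : ∀ t, t < n → ∀ a, a ≤ N → UpEq (v t a) γ (t + 1)
  dist : ∀ t, t < n → ∀ a, a ≤ N → ∀ b, b ≤ N → a ≠ b →
    ∃ Z, Z ⊆ A (t + 1) \ A t ∧ (v t a).L t (t + 1) Z ≠ (v t b).L t (t + 1) Z

variable {F : Type} [Field F] {E : Type} [Fintype E] [DecidableEq E] {V : Type}
  [AddCommGroup V] [Module F V] [FiniteDimensional F V] {w₀ : E → V} {A : ℕ → Finset E} {n s : ℕ}

/-- One merged block. `i < j < i'`; `α` and all `v a` have the same state at `i`, `γ` and all `v a`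
the same state at `i'`. Glue `α` below `i` with `v a` (`y a`), then `y a` with `γ` above `i'` (`x a`;
`FRep.st_up` gives the state of `y a` at `i'`). Labels of `x a` between `i` and `i'` are those of `v a`.
Let `Z` be a set where the labels of `v a` and `v b` differ on block `j`, `Y₁`, `Y₂` from
`exists_trans` for `i, j` and for `j + 1, i'`; the labels of `Y₁` (`Y₂`) are the same for `v a` and
`v b`; `L_comp` and `rcomp_cancel` show that the labels of `Y₁ ∪ Z ∪ Y₂` differ. -/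
theorem exists_merged (hL : Lnk F w₀ A n s) {u₀ α γ : FRep F w₀ A n s}
    {v : ℕ → FRep F w₀ A n s} {i j i' N : ℕ} (hij : i ≤ j) (hji : j + 1 ≤ i') (hi : i' ≤ n)
    (hlow : ∀ a b, LowEq (v a) (v b) j) (hup : ∀ a b, UpEq (v a) (v b) (j + 1))
    (hα : ∀ a, FRep.st u₀ α i = FRep.st u₀ (v a) i)
    (hγ : ∀ a, FRep.st u₀ (v a) i' = FRep.st u₀ γ i')
    (hd : ∀ a, a ≤ N → ∀ b, b ≤ N → a ≠ b →
      ∃ Z, Z ⊆ A (j + 1) \ A j ∧ (v a).L j (j + 1) Z ≠ (v b).L j (j + 1) Z) :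
    ∃ x : ℕ → FRep F w₀ A n s, (∀ a, LowEq (x a) α i) ∧ (∀ a, UpEq (x a) γ i') ∧
      ∀ a, a ≤ N → ∀ b, b ≤ N → a ≠ b →
        ∃ Z, Z ⊆ A i' \ A i ∧ (x a).L i i' Z ≠ (x b).L i i' Z := by
  have hA : ∀ l, l < n → A l ⊆ A (l + 1) := fun l hl => (hL.mono l hl).subset
  have hii : i ≤ i' := by omega
  have hin : i ≤ n := hii.trans hi
  have hjn : j ≤ n := by omega
  have hj1 : j + 1 ≤ n := hji.trans hi
  have hy : ∀ a, ∃ y : FRep F w₀ A n s, LowEq y α i ∧ UpEq y (v a) i := fun a =>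
    glue hA hin (hα a)
  choose y hy1 hy2 using hy
  have hst : ∀ a, FRep.st u₀ (y a) i' = FRep.st u₀ γ i' := fun a => by
    have h1 : FRep.st u₀ (y a) i = FRep.st u₀ (v a) i := by
      rw [FRep.st_low (hy1 a) le_rfl]
      exact hα a
    rw [FRep.st_up hA (hy2 a) h1 hii hi]
    exact hγ a
  have hx : ∀ a, ∃ x : FRep F w₀ A n s, LowEq x (y a) i' ∧ UpEq x γ i' := fun a =>
    glue hA hi (hst a)
  choose x hx1 hx2 using hx
  refine ⟨x, fun a => ((hx1 a).mono hii).trans (hy1 a), hx2, ?_⟩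
  intro a ha b hb hab
  obtain ⟨Z, hZ, hne⟩ := hd a ha b hb hab
  obtain ⟨Y₁, hY₁, he₁⟩ := exists_trans hL hij hjn
  obtain ⟨Y₂, hY₂, he₂⟩ := exists_trans hL hji hi
  have hAij : A i ⊆ A j := chain_le hA hij hjn
  have hAj : A j ⊆ A (j + 1) := hA j (by omega)
  have hAji : A (j + 1) ⊆ A i' := chain_le hA hji hi
  have hYZ : Y₁ ∪ Z ⊆ A (j + 1) \ A i := by
    intro t ht
    rw [Finset.mem_sdiff]
    rcases Finset.mem_union.1 ht with h | h
    · have h1 := Finset.mem_sdiff.1 (hY₁ h)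
      exact ⟨hAj h1.1, h1.2⟩
    · have h1 := Finset.mem_sdiff.1 (hZ h)
      exact ⟨h1.1, fun h2 => h1.2 (hAij h2)⟩
  have hW : Y₁ ∪ Z ∪ Y₂ ⊆ A i' \ A i := by
    intro t ht
    rw [Finset.mem_sdiff]
    rcases Finset.mem_union.1 ht with h | h
    · have h1 := Finset.mem_sdiff.1 (hYZ h)
      exact ⟨hAji h1.1, h1.2⟩
    · have h1 := Finset.mem_sdiff.1 (hY₂ h)
      exact ⟨h1.1, fun h2 => h1.2 (hAj (hAij h2))⟩
  have hlab : ∀ c, (x c).L i i' (Y₁ ∪ Z ∪ Y₂) =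
      rcomp (rcomp ((v c).L i j Y₁) ((v c).L j (j + 1) Z)) ((v c).L (j + 1) i' Y₂) := fun c => by
    rw [(hx1 c).lb i i' hii le_rfl _ hW, (hy2 c).lb i i' le_rfl hii hi _ hW,
      FRep.L_comp hA (hij.trans (Nat.le_succ j)) hji hi hYZ hY₂,
      FRep.L_comp hA hij (Nat.le_succ j) hj1 hY₁ hZ]
  refine ⟨Y₁ ∪ Z ∪ Y₂, hW, fun h => hne ?_⟩
  rw [hlab a, hlab b, ← (hlow a b).lb i j hij le_rfl Y₁ hY₁,
    ← (hup a b).lb (j + 1) i' le_rfl hji hi Y₂ hY₂] at h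
  obtain ⟨e, he⟩ := he₁ (v a)
  obtain ⟨e', he'⟩ := he₂ (v a)
  exact rcomp_cancel he he' h

end Pool.MP_4929df_co.H92
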