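import Pool.Agent.W_4929df_h92.BrwD5

/-!
The pattern.
-/

set_option autoImplicit false

namespace Pool.MP_4929df_co.H92

open Submodule

variable {F : Type} [Field F] {E : Type} [Fintype E] [DecidableEq E] {V : Type}
  [AddCommGroup V] [Module F V] [FiniteDimensional F V] {w₀ : E → V} {A : ℕ → Finset E} {n s : ℕ}

/-- The pattern. For every `j` with `2 ≤ j < n'` let `v j a` be the family of `exists_family`
(`2 ≤ (A j).card` because the chain is strictly increasing), `u₀` any framed representation. `ramsey`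
with `m = 2 n + 3` for the colour `(st u₀ (v (j+2) 0) (i+2), st u₀ (v (i+2) 0) (j+2))` of `i < j`, a
value in a finite type. With positions `g 0 < ... < g (2 n + 2)` (shifted by 2) let `A' t = A (g (2 t + 1))`,
`α = v (g (2 n + 2)) 0`, `γ = v (g 0) 0`, and for `t < n` use `exists_merged` for `i = g (2 t + 1)`,
`j = g (2 t + 2)`, `i' = g (2 t + 3)`, `v (g (2 t + 2))`. (`st (v j a) i = st (v j 0) i` for `i ≤ j` by
`LowEq`, `st (v j a) i' = st (v j 0) i'` for `i' > j` by `st_up`.) Restrict everything to the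
subchain. -/
theorem exists_pat (F : Type) [Field F] [Finite F] (s N n : ℕ) : ∃ n' : ℕ,
    ∀ (E : Type) [Fintype E] [DecidableEq E] (V : Type) [AddCommGroup V] [Module F V] [Finite V]
      [FiniteDimensional F V] (w₀ : E → V) (A : ℕ → Finset E), Lnk F w₀ A n' s → Four F w₀ →
      (∀ l, l < n' → N * QQ F s * nA F w₀ (A l) < nA F w₀ (A (l + 1))) →
      ∃ A' : ℕ → Finset E, Lnk F w₀ A' n s ∧ 3 ≤ (A' 0).card ∧
        ∃ (α γ : FRep F w₀ A' n s) (v : ℕ → ℕ → FRep F w₀ A' n s), Pat N α γ v := by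
  classical
  have hfin : Finite (Submodule F (Fin s → F)) :=
    Finite.of_injective (fun W : Submodule F (Fin s → F) => (W : Set (Fin s → F)))
      SetLike.coe_injective
  obtain ⟨Nr, hram⟩ := ramsey (Set (Submodule F (Fin s → F) × Submodule F (Fin s → F)) ×
    Set (Submodule F (Fin s → F) × Submodule F (Fin s → F))) (2 * n + 3)
  refine ⟨Nr + 2, ?_⟩
  intro E _ _ V _ _ _ _ w₀ A hL h4 hH
  have hsub : ∀ l, l < Nr + 2 → A l ⊆ A (l + 1) := fun l hl => hL.sub hl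
  have hcard : ∀ l, l ≤ Nr + 2 → l ≤ (A l).card := by
    intro l
    induction l with
    | zero => exact fun _ => Nat.zero_le _
    | succ l ih =>
      intro hl
      have h1 := ih (by omega)
      have h2 := Finset.card_lt_card (hL.mono l (by omega))
      omega
  obtain ⟨u₀, -⟩ := exists_frep hL (w := w₀) (fun _ => rfl)
  have hfam : ∀ j, ∃ v : ℕ → FRep F w₀ A (Nr + 2) s, 2 ≤ j → j < Nr + 2 →
      (∀ a b, LowEq (v a) (v b) j) ∧ (∀ a b, UpEq (v a) (v b) (j + 1)) ∧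
      (∀ a b, FRep.st u₀ (v a) (j + 1) = FRep.st u₀ (v b) (j + 1)) ∧
      ∀ a, a ≤ N → ∀ b, b ≤ N → a ≠ b →
        ∃ Z, Z ⊆ A (j + 1) \ A j ∧ (v a).L j (j + 1) Z ≠ (v b).L j (j + 1) Z := by
    intro j
    by_cases hj : 2 ≤ j ∧ j < Nr + 2
    · obtain ⟨v, hv⟩ := exists_family (N := N) hL h4 hj.2 (hj.1.trans (hcard j hj.2.le)) u₀
        (hH j hj.2)
      exact ⟨v, fun _ _ => hv⟩
    · exact ⟨fun _ => u₀, fun h1 h2 => absurd ⟨h1, h2⟩ hj⟩
  choose v hv using hfam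
  obtain ⟨g, hg1, hg2, c, hc⟩ := hram fun i j =>
    (FRep.st u₀ (v (j + 2) 0) (i + 2), FRep.st u₀ (v (i + 2) 0) (j + 2))
  obtain ⟨G, hG⟩ : ∃ G : ℕ → ℕ, ∀ k, G k = g k + 2 := ⟨fun k => g k + 2, fun _ => rfl⟩
  have hG1 : ∀ k, k < 2 * n + 3 → G k < Nr + 2 := fun k hk => by
    rw [hG]
    have := hg1 k hk
    omega
  have hG0 : ∀ k, 2 ≤ G k := fun k => by
    rw [hG]
    omega
  have hG2 : ∀ k l, k < l → l < 2 * n + 3 → G k < G l := fun k l hkl hl => by
    rw [hG, hG]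
    have := hg2 k l hkl hl
    omega
  have hlo : ∀ k l, k < l → l < 2 * n + 3 → ∀ a, FRep.st u₀ (v (G l) a) (G k) = c.1 := by
    intro k l hkl hl a
    have h1 := congrArg Prod.fst (hc k l hkl hl)
    simp only at h1
    rw [← hG, ← hG] at h1
    rw [← h1]
    exact FRep.st_low ((hv (G l) (hG0 l) (hG1 l hl)).1 a 0) (hG2 k l hkl hl).le
  have hup : ∀ k l, k < l → l < 2 * n + 3 → ∀ a, FRep.st u₀ (v (G k) a) (G l) = c.2 := by
    intro k l hkl hl a
    have h1 := congrArg Prod.snd (hc k l hkl hl)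
    simp only at h1
    rw [← hG, ← hG] at h1
    rw [← h1]
    have h2 := hv (G k) (hG0 k) (hG1 k (by omega))
    exact FRep.st_up hsub (h2.2.1 a 0) (h2.2.2.1 a 0) (hG2 k l hkl hl) (hG1 l hl).le
  have hf : ∀ t, t ≤ n → G (2 * t + 1) ≤ Nr + 2 := fun t ht => (hG1 _ (by omega)).le
  have hfm : ∀ t, t < n → G (2 * t + 1) < G (2 * (t + 1) + 1) := fun t ht =>
    hG2 _ _ (by omega) (by omega)
  have hx : ∀ t, ∃ x : ℕ → FRep F w₀ A (Nr + 2) s, t < n →
      (∀ a, LowEq (x a) (v (G (2 * n + 2)) 0) (G (2 * t + 1))) ∧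
      (∀ a, UpEq (x a) (v (G 0) 0) (G (2 * (t + 1) + 1))) ∧
      ∀ a, a ≤ N → ∀ b, b ≤ N → a ≠ b →
        ∃ Z, Z ⊆ A (G (2 * (t + 1) + 1)) \ A (G (2 * t + 1)) ∧
          (x a).L (G (2 * t + 1)) (G (2 * (t + 1) + 1)) Z ≠
            (x b).L (G (2 * t + 1)) (G (2 * (t + 1) + 1)) Z := by
    intro t
    by_cases ht : t < n
    · have h1 := hv (G (2 * t + 2)) (hG0 _) (hG1 _ (by omega))
      obtain ⟨x, hx⟩ := exists_merged (N := N) hL (u₀ := u₀) (α := v (G (2 * n + 2)) 0)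
        (γ := v (G 0) 0) (v := v (G (2 * t + 2))) (i := G (2 * t + 1)) (j := G (2 * t + 2))
        (i' := G (2 * (t + 1) + 1)) (hG2 _ _ (by omega) (by omega)).le
        (hG2 (2 * t + 2) (2 * (t + 1) + 1) (by omega) (by omega)) (hf (t + 1) ht) h1.1 h1.2.1
        (fun a => by rw [hlo _ _ (by omega) (by omega) 0, hlo _ _ (by omega) (by omega) a])
        (fun a => by rw [hup _ _ (by omega) (by omega) 0, hup _ _ (by omega) (by omega) a])
        h1.2.2.2
      exact ⟨x, fun _ => hx⟩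
    · exact ⟨fun _ => u₀, fun h => absurd h ht⟩
  choose x hx using hx
  refine ⟨fun t => A (G (2 * t + 1)), hL.subchain hf hfm, ?_, (v (G (2 * n + 2)) 0).sub _ hf,
    (v (G 0) 0).sub _ hf, fun t a => (x t a).sub _ hf, ⟨?_, ?_, ?_⟩⟩
  · have h1 := hcard (G 1) (hG1 1 (by omega)).le
    have h2 := hG2 0 1 (by omega) (by omega)
    have h3 := hG0 0
    show 3 ≤ (A (G (2 * 0 + 1))).card
    rw [show 2 * 0 + 1 = 1 by norm_num]
    omega
  · intro t ht a _
    exact LowEq.sub hf hfm ht.le ((hx t ht).1 a)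
  · intro t ht a _
    exact UpEq.sub hf hfm ht ((hx t ht).2.1 a)
  · intro t ht a ha b hb hab
    exact (hx t ht).2.2 a ha b hb hab

end Pool.MP_4929df_co.H92
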