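import Pool.Agent.W_4929df_h92.ChnDefs

/-!
Definitions for the branch-width theorem: equivalence of representations on a set, framed
representations of a chain of sets, traces and labels.
-/

set_option autoImplicit false

namespace Pool.MP_4929df_co.H92

open Submodule

section

variable (F : Type) [Field F] {E : Type} [Fintype E] [DecidableEq E] {V : Type}
  [AddCommGroup V] [Module F V]

/-- the boundary of `A` -/
def Gd (w : E → V) (A : Finset E) : Submodule F V := Sp F w A ⊓ Sp F w Aᶜ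

/-- `w` and `w'` are equivalent on `A`, with the boundary -/
def EqA (A : Finset E) (w w' : E → V) : Prop :=
  ∃ g : V ≃ₗ[F] V, ∃ c : E → F, (∀ x ∈ A, c x ≠ 0 ∧ w' x = c x • g (w x)) ∧
    (Gd F w A).map (g : V →ₗ[F] V) = Gd F w' A

/-- the representations of the matroid of `w₀` -/
abbrev RepS (w₀ : E → V) : Type := {w : E → V // SameR F w₀ w}

theorem EqA.refl (A : Finset E) (w : E → V) : EqA F A w w :=
  ⟨LinearEquiv.refl F V, fun _ => 1, fun x _ => ⟨one_ne_zero, by simp⟩, by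
    simp [Submodule.map_id]⟩

end

/-- relations: image, preimage, composition (first `R`, then `R'`), the identity -/
def rimg {F X : Type} [Field F] [AddCommGroup X] [Module F X] (R : Submodule F (X × X))
    (W : Submodule F X) : Submodule F X :=
  (R ⊓ W.comap (LinearMap.fst F X X)).map (LinearMap.snd F X X)

def rpre {F X : Type} [Field F] [AddCommGroup X] [Module F X] (R : Submodule F (X × X))
    (W : Submodule F X) : Submodule F X :=
  (R ⊓ W.comap (LinearMap.snd F X X)).map (LinearMap.fst F X X)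

def rcomp {F X : Type} [Field F] [AddCommGroup X] [Module F X] (R R' : Submodule F (X × X)) :
    Submodule F (X × X) where
  carrier := {z | ∃ m, (z.1, m) ∈ R ∧ (m, z.2) ∈ R'}
  add_mem' := by
    rintro ⟨a, b⟩ ⟨a', b'⟩ ⟨m, h1, h2⟩ ⟨m', h1', h2'⟩
    exact ⟨m + m', R.add_mem h1 h1', R'.add_mem h2 h2'⟩
  zero_mem' := ⟨0, R.zero_mem, R'.zero_mem⟩
  smul_mem' := by
    rintro c ⟨a, b⟩ ⟨m, h1, h2⟩
    exact ⟨c • m, R.smul_mem c h1, R'.smul_mem c h2⟩

def rid (F X : Type) [Field F] [AddCommGroup X] [Module F X] : Submodule F (X × X) where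
  carrier := {z | z.1 = z.2}
  add_mem' := by
    rintro ⟨a, b⟩ ⟨a', b'⟩ h h'
    simp only [Set.mem_setOf_eq] at h h' ⊢
    simp [h, h']
  zero_mem' := rfl
  smul_mem' := by
    rintro c ⟨a, b⟩ h
    simp only [Set.mem_setOf_eq] at h ⊢
    simp [h]

/-- `R` is the graph of `e` -/
def RIso {F X : Type} [Field F] [AddCommGroup X] [Module F X] (R : Submodule F (X × X))
    (e : X ≃ₗ[F] X) : Prop := ∀ g h, (g, h) ∈ R ↔ h = e g

section

variable {F X : Type} [Field F] [AddCommGroup X] [Module F X] {R R' : Submodule F (X × X)}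
  {W : Submodule F X}

theorem mem_rimg {h : X} : h ∈ rimg R W ↔ ∃ g ∈ W, (g, h) ∈ R := by
  unfold rimg
  constructor
  · rintro ⟨⟨g, h'⟩, ⟨h1, h2⟩, rfl⟩
    exact ⟨g, h2, h1⟩
  · rintro ⟨g, h1, h2⟩
    exact ⟨(g, h), ⟨h2, h1⟩, rfl⟩

theorem mem_rpre {g : X} : g ∈ rpre R W ↔ ∃ h ∈ W, (g, h) ∈ R := by
  unfold rpre
  constructor
  · rintro ⟨⟨g', h⟩, ⟨h1, h2⟩, rfl⟩
    exact ⟨h, h2, h1⟩
  · rintro ⟨h, h1, h2⟩
    exact ⟨(g, h), ⟨h2, h1⟩, rfl⟩

theorem mem_rcomp {g h : X} : (g, h) ∈ rcomp R R' ↔ ∃ m, (g, m) ∈ R ∧ (m, h) ∈ R' := Iff.rfl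

theorem mem_rid {g h : X} : (g, h) ∈ rid F X ↔ g = h := Iff.rfl

end

/-- the chain `A 0 ⊂ ... ⊂ A n`: all sets have connectivity `s`, all sets between `A 0` and `A n` at
least `s` -/
structure Lnk (F : Type) [Field F] {E : Type} [Fintype E] [DecidableEq E] {V : Type}
    [AddCommGroup V] [Module F V] (w₀ : E → V) (A : ℕ → Finset E) (n s : ℕ) : Prop where
  mono : ∀ l, l < n → A l ⊂ A (l + 1)
  width : ∀ l, l ≤ n → Module.finrank F (Gd F w₀ (A l)) = s
  linked : ∀ B, A 0 ⊆ B → B ⊆ A n → s ≤ Module.finrank F (Gd F w₀ B)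

/-- representations with frames of the cuts `A 0, ..., A n` -/
structure FRep (F : Type) [Field F] {E : Type} [Fintype E] [DecidableEq E] {V : Type}
    [AddCommGroup V] [Module F V] (w₀ : E → V) (A : ℕ → Finset E) (n s : ℕ) where
  w : E → V
  th : ℕ → (Fin s → F) →ₗ[F] V
  same : SameR F w₀ w
  inj : ∀ l, l ≤ n → Function.Injective (th l)
  rng : ∀ l, l ≤ n → LinearMap.range (th l) = Gd F w (A l)

section

variable {F : Type} [Field F] {E : Type} [Fintype E] [DecidableEq E] {V : Type}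
  [AddCommGroup V] [Module F V] {w₀ : E → V} {A : ℕ → Finset E} {n s : ℕ}

/-- the trace of `S` at the cut `l` -/
def FRep.T (u : FRep F w₀ A n s) (l : ℕ) (S : Finset E) : Submodule F (Fin s → F) :=
  (Sp F u.w S).comap (u.th l)

/-- the label of `Z` between the cuts `l` and `m` -/
def FRep.L (u : FRep F w₀ A n s) (l m : ℕ) (Z : Finset E) :
    Submodule F ((Fin s → F) × (Fin s → F)) :=
  (Sp F u.w Z).comap ((u.th m).comp (LinearMap.snd F _ _) - (u.th l).comp (LinearMap.fst F _ _))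

theorem FRep.mem_T {u : FRep F w₀ A n s} {l : ℕ} {S : Finset E} {g : Fin s → F} :
    g ∈ u.T l S ↔ u.th l g ∈ Sp F u.w S := Iff.rfl

theorem FRep.mem_L {u : FRep F w₀ A n s} {l m : ℕ} {Z : Finset E} {g h : Fin s → F} :
    (g, h) ∈ u.L l m Z ↔ u.th m h - u.th l g ∈ Sp F u.w Z := Iff.rfl

/-- the same traces and labels below the cut `l` -/
structure LowEq (u v : FRep F w₀ A n s) (l : ℕ) : Prop where
  tr : ∀ m, m ≤ l → ∀ S, S ⊆ A m → u.T m S = v.T m S
  lb : ∀ m m', m ≤ m' → m' ≤ l → ∀ Z, Z ⊆ A m' \ A m → u.L m m' Z = v.L m m' Z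

/-- the same traces and labels above the cut `l` -/
structure UpEq (u v : FRep F w₀ A n s) (l : ℕ) : Prop where
  tr : ∀ m, l ≤ m → m ≤ n → ∀ S, S ⊆ (A m)ᶜ → u.T m S = v.T m S
  lb : ∀ m m', l ≤ m → m ≤ m' → m' ≤ n → ∀ Z, Z ⊆ A m' \ A m → u.L m m' Z = v.L m m' Z

/-- the same below the cut `l`, up to an isomorphism and scaling that respects the frames -/
def LowG (u v : FRep F w₀ A n s) (l : ℕ) : Prop :=
  ∃ g : V ≃ₗ[F] V, ∃ c : E → F, (∀ x ∈ A l, c x ≠ 0 ∧ v.w x = c x • g (u.w x)) ∧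
    ∀ m, m ≤ l → ∀ a, v.th m a = g (u.th m a)

/-- the state at the cut `l` relative to `u₀` -/
def FRep.st (u₀ u : FRep F w₀ A n s) (l : ℕ) :
    Set (Submodule F (Fin s → F) × Submodule F (Fin s → F)) :=
  {z | ∃ S, S ⊆ A l ∧ (u₀.T l S, u.T l S) = z}

/-- restriction to a subchain -/
def FRep.sub {n' : ℕ} (u : FRep F w₀ A n s) (f : ℕ → ℕ) (hf : ∀ i, i ≤ n' → f i ≤ n) :
    FRep F w₀ (fun i => A (f i)) n' s where
  w := u.w
  th := fun i => u.th (f i)
  same := u.same
  inj := fun l hl => u.inj _ (hf l hl)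
  rng := fun l hl => u.rng _ (hf l hl)

/-- change of frames -/
def FRep.gauge (u : FRep F w₀ A n s) (G : ℕ → (Fin s → F) ≃ₗ[F] (Fin s → F)) :
    FRep F w₀ A n s where
  w := u.w
  th := fun l => (u.th l).comp (G l : (Fin s → F) →ₗ[F] (Fin s → F))
  same := u.same
  inj := fun l hl => (u.inj l hl).comp (G l).injective
  rng := fun l hl => by
    rw [LinearMap.range_comp_of_range_eq_top _ (LinearEquiv.range (G l))]
    exact u.rng l hl

end

/-- rooted binary trees -/
inductive BTree (E : Type) where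
  | leaf : E → BTree E
  | node : BTree E → BTree E → BTree E

/-- the elements at the leaves -/
def BTree.els {E : Type} [DecidableEq E] : BTree E → Finset E
  | .leaf e => {e}
  | .node l r => l.els ∪ r.els

/-- the leaves are different -/
def BTree.Good {E : Type} [DecidableEq E] : BTree E → Prop
  | .leaf _ => True
  | .node l r => Disjoint l.els r.els ∧ l.Good ∧ r.Good

/-- `P` holds for all displayed sets -/
def BTree.All {E : Type} [DecidableEq E] (P : Finset E → Prop) : BTree E → Prop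
  | .leaf e => P {e}
  | .node l r => P (l.els ∪ r.els) ∧ l.All P ∧ r.All P

end Pool.MP_4929df_co.H92
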