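import Pool.Agent.W_4929df_h92.BrwD5
import Pool.Agent.W_4929df_h92.BrwC4

/-!
Changing the frames.
-/

set_option autoImplicit false

namespace Pool.MP_4929df_co.H92

open Submodule

/-- the isomorphism whose graph is `R`, if there is one -/
noncomputable def isoOf {F X : Type} [Field F] [AddCommGroup X] [Module F X]
    (R : Submodule F (X × X)) : X ≃ₗ[F] X := by
  classical exact if h : ∃ e, RIso R e then h.choose else LinearEquiv.refl F X

theorem isoOf_spec {F X : Type} [Field F] [AddCommGroup X] [Module F X]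
    {R : Submodule F (X × X)} (h : ∃ e, RIso R e) : RIso R (isoOf R) := by
  unfold isoOf
  rw [dif_pos h]
  exact h.choose_spec

/-- successive products -/
def trs {F X : Type} [Field F] [AddCommGroup X] [Module F X] (e : ℕ → X ≃ₗ[F] X) :
    ℕ → X ≃ₗ[F] X
  | 0 => LinearEquiv.refl F X
  | t + 1 => (trs e t).trans (e t)

variable {F : Type} [Field F] {E : Type} [Fintype E] [DecidableEq E] {V : Type}
  [AddCommGroup V] [Module F V] [FiniteDimensional F V] {w₀ : E → V} {A : ℕ → Finset E} {n s : ℕ}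
  {u v : FRep F w₀ A n s} {G G' : ℕ → (Fin s → F) ≃ₗ[F] (Fin s → F)} {l m : ℕ}

theorem FRep.mem_gauge_L {Z : Finset E} {g h : Fin s → F} :
    (g, h) ∈ (u.gauge G).L l m Z ↔ (G l g, G m h) ∈ u.L l m Z := Iff.rfl

theorem FRep.mem_gauge_T {S : Finset E} {g : Fin s → F} :
    g ∈ (u.gauge G).T l S ↔ G l g ∈ u.T l S := Iff.rfl

theorem LowEq.gauge (h : LowEq u v l) (hG : ∀ m, m ≤ l → G m = G' m) :
    LowEq (u.gauge G) (v.gauge G') l := by
  refine ⟨fun m hm S hS => ?_, fun m m' hm hm' Z hZ => ?_⟩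
  · ext g
    rw [FRep.mem_gauge_T, FRep.mem_gauge_T, hG m hm, h.tr m hm S hS]
  · ext ⟨g, g'⟩
    rw [FRep.mem_gauge_L, FRep.mem_gauge_L, hG m (hm.trans hm'), hG m' hm', h.lb m m' hm hm' Z hZ]

theorem UpEq.gauge (h : UpEq u v l) (hG : ∀ m, l ≤ m → m ≤ n → G m = G' m) :
    UpEq (u.gauge G) (v.gauge G') l := by
  refine ⟨fun m hm hn S hS => ?_, fun m m' hm hm' hn Z hZ => ?_⟩
  · ext g
    rw [FRep.mem_gauge_T, FRep.mem_gauge_T, hG m hm hn, h.tr m hm hn S hS]
  · ext ⟨g, g'⟩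
    rw [FRep.mem_gauge_L, FRep.mem_gauge_L, hG m hm (hm'.trans hn), hG m' (hm.trans hm') hn,
      h.lb m m' hm hm' hn Z hZ]

/-- after the change of frames the label of `Y t` is the identity -/
theorem gauge_id {Y : ℕ → Finset E} (h : ∀ t, t < n → ∃ e, RIso (u.L t (t + 1) (Y t)) e) :
    ∀ t, t < n → (u.gauge (trs fun t => isoOf (u.L t (t + 1) (Y t)))).L t (t + 1) (Y t) =
      rid F (Fin s → F) := by
  intro t ht
  ext ⟨g, g'⟩
  rw [FRep.mem_gauge_L, mem_rid, isoOf_spec (h t ht) _ _]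
  simp only [trs, LinearEquiv.trans_apply]
  constructor
  · intro hh
    exact ((trs (fun t => isoOf (u.L t (t + 1) (Y t))) t).injective
      ((isoOf (u.L t (t + 1) (Y t))).injective hh)).symm
  · intro hh
    rw [hh]

/-- a constant change of frames keeps identity labels -/
theorem gauge_const (b : (Fin s → F) ≃ₗ[F] (Fin s → F)) {Z : Finset E}
    (h : u.L l m Z = rid F (Fin s → F)) :
    (u.gauge fun _ => b).L l m Z = rid F (Fin s → F) := by
  ext ⟨g, g'⟩
  rw [FRep.mem_gauge_L, h, mem_rid, mem_rid]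
  exact b.injective.eq_iff

/-- union of the sets `Y l, ..., Y (m - 1)` -/
def Yun (Y : ℕ → Finset E) (l m : ℕ) : Finset E := (Finset.Ico l m).biUnion Y

private theorem BrwE1_succ (Y : ℕ → Finset E) (hlm : l ≤ m) :
    Yun Y l (m + 1) = Yun Y l m ∪ Y m := by
  unfold Yun
  ext x
  simp only [Finset.mem_biUnion, Finset.mem_Ico, Finset.mem_union]
  constructor
  · rintro ⟨t, ⟨h1, h2⟩, h3⟩
    rcases Nat.lt_succ_iff_lt_or_eq.1 h2 with h4 | h4
    · exact Or.inl ⟨t, ⟨h1, h4⟩, h3⟩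
    · right
      rw [← h4]
      exact h3
  · rintro (⟨t, ⟨h1, h2⟩, h3⟩ | h)
    · exact ⟨t, ⟨h1, by omega⟩, h3⟩
    · exact ⟨m, ⟨hlm, by omega⟩, h⟩

private theorem BrwE1_self (Y : ℕ → Finset E) : Yun Y l l = ∅ := by
  unfold Yun
  simp

theorem Yun_sub (hL : Lnk F w₀ A n s) {Y : ℕ → Finset E}
    (hY : ∀ t, t < n → Y t ⊆ A (t + 1) \ A t) (hlm : l ≤ m) (hm : m ≤ n) :
    Yun Y l m ⊆ A m \ A l := by
  have hA : ∀ l, l < n → A l ⊆ A (l + 1) := fun l hl => (hL.mono l hl).subset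
  intro x hx
  unfold Yun at hx
  obtain ⟨t, ht, hxt⟩ := Finset.mem_biUnion.1 hx
  obtain ⟨h1, h2⟩ := Finset.mem_Ico.1 ht
  have h3 := Finset.mem_sdiff.1 (hY t (by omega) hxt)
  rw [Finset.mem_sdiff]
  exact ⟨chain_le hA (by omega : t + 1 ≤ m) hm h3.1,
    fun h4 => h3.2 (chain_le hA h1 (by omega : t ≤ n) h4)⟩

theorem Yun_L (hL : Lnk F w₀ A n s) {Y : ℕ → Finset E}
    (hY : ∀ t, t < n → Y t ⊆ A (t + 1) \ A t)
    (h : ∀ t, t < n → u.L t (t + 1) (Y t) = rid F (Fin s → F)) (hlm : l ≤ m) (hm : m ≤ n) :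
    u.L l m (Yun Y l m) = rid F (Fin s → F) := by
  have hA : ∀ l, l < n → A l ⊆ A (l + 1) := fun l hl => (hL.mono l hl).subset
  induction m, hlm using Nat.le_induction with
  | base =>
    rw [BrwE1_self]
    exact FRep.L_self hm
  | succ m hlm ih =>
    rw [BrwE1_succ Y hlm, FRep.L_comp hA hlm (Nat.le_succ m) hm
      (Yun_sub hL hY hlm (by omega)) (hY m (by omega)), ih (by omega), h m (by omega)]
    ext ⟨g, g'⟩
    rw [mem_rcomp]
    constructor
    · rintro ⟨k, hk, hk'⟩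
      rw [mem_rid] at hk hk' ⊢
      exact hk.trans hk'
    · intro hh
      exact ⟨g, mem_rid.2 rfl, hh⟩

theorem Yun_TB (hL : Lnk F w₀ A n s) {Y : ℕ → Finset E}
    (hY : ∀ t, t < n → TB F w₀ A t (t + 1) (Y t)) (hlm : l ≤ m) (hm : m ≤ n) :
    TB F w₀ A l m (Yun Y l m) := by
  induction m, hlm using Nat.le_induction with
  | base =>
    rw [BrwE1_self]
    refine ⟨Finset.empty_subset _, ?_, ?_, ?_⟩
    · rw [Finset.union_empty]
    · rw [Finset.union_empty, Finset.card_empty, Nat.add_zero]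
    · rw [Finset.empty_union, Finset.card_empty, Nat.zero_add]
  | succ m hlm ih =>
    rw [BrwE1_succ Y hlm]
    exact TB.union hL hlm (Nat.le_succ m) hm (ih (by omega)) (hY m (by omega))

end Pool.MP_4929df_co.H92
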