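import Pool.Agent.W_4929df_h92.BrwE1

/-!
The pattern with identity labels.
-/

set_option autoImplicit false

namespace Pool.MP_4929df_co.H92

open Submodule

/-- the pattern after the change of frames -/
structure Pat2 {F : Type} [Field F] {E : Type} [Fintype E] [DecidableEq E] {V : Type}
    [AddCommGroup V] [Module F V] {w₀ : E → V} {A : ℕ → Finset E} {n s : ℕ} (Y : ℕ → Finset E)
    (α γ : FRep F w₀ A n s) (v : ℕ → FRep F w₀ A n s) : Prop where
  low : ∀ t, t < n → LowEq (v t) α t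
  up : ∀ t, t < n → UpEq (v t) γ (t + 1)
  Ytb : ∀ t, t < n → TB F w₀ A t (t + 1) (Y t)
  Yα : ∀ t, t < n → α.L t (t + 1) (Y t) = rid F (Fin s → F)
  Yγ : ∀ t, t < n → γ.L t (t + 1) (Y t) = rid F (Fin s → F)
  Yv : ∀ i, i < n → ∀ t, t < n → (v i).L t (t + 1) (Y t) = rid F (Fin s → F)
  diff : ∀ t, t < n → ∃ Z, Z ⊆ A (t + 1) \ A t ∧ (v t).L t (t + 1) Z ≠ α.L t (t + 1) Z

variable {F : Type} [Field F] {E : Type} [Fintype E] [DecidableEq E] {V : Type}
  [AddCommGroup V] [Module F V] [FiniteDimensional F V] {w₀ : E → V} {A : ℕ → Finset E} {n s : ℕ}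

private theorem brwE2_trs {X : Type} [AddCommGroup X] [Module F X] {e e' : ℕ → X ≃ₗ[F] X} {m : ℕ}
    (h : ∀ i, i < m → e i = e' i) : trs e m = trs e' m := by
  induction m with
  | zero => rfl
  | succ m ih =>
    show (trs e m).trans (e m) = (trs e' m).trans (e' m)
    rw [ih fun i hi => h i (by omega), h m (by omega)]

private theorem brwE2_up {X : Type} [AddCommGroup X] [Module F X] {e e' : ℕ → X ≃ₗ[F] X} {m l : ℕ}
    (hml : m ≤ l) (h : ∀ i, m ≤ i → i < l → e i = e' i) :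
    trs e l = ((trs e m).trans (trs e' m).symm).trans (trs e' l) := by
  induction l, hml using Nat.le_induction with
  | base =>
    ext x
    simp
  | succ l hl ih =>
    show (trs e l).trans (e l) = _
    rw [ih fun i h1 h2 => h i h1 (by omega), h l hl (by omega)]
    rfl

private theorem brwE2_ne {u v : FRep F w₀ A n s} {G G' : ℕ → (Fin s → F) ≃ₗ[F] (Fin s → F)}
    {l m : ℕ} {Z : Finset E} (h1 : G l = G' l) (h2 : G m = G' m) (h : u.L l m Z ≠ v.L l m Z) :
    (u.gauge G).L l m Z ≠ (v.gauge G').L l m Z := by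
  intro hcon
  apply h
  ext ⟨g, k⟩
  have h3 : ((G l).symm g, (G m).symm k) ∈ (u.gauge G).L l m Z ↔
      ((G l).symm g, (G m).symm k) ∈ (v.gauge G').L l m Z := by rw [hcon]
  rw [FRep.mem_gauge_L, FRep.mem_gauge_L, ← h1, ← h2, LinearEquiv.apply_symm_apply,
    LinearEquiv.apply_symm_apply] at h3
  exact h3

private theorem brwE2_rid {X : Type} [AddCommGroup X] [Module F X] (R : Submodule F (X × X)) :
    rcomp R (rid F X) = R := by
  ext ⟨g, h⟩
  rw [mem_rcomp]
  constructor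
  · rintro ⟨m, h1, h2⟩
    rw [mem_rid] at h2
    rwa [← h2]
  · intro h1
    exact ⟨h, h1, rfl⟩

/-- First step. `Y t` a transporting base of block `t` (`exists_tb`, `TB.iso`). For a framed
representation `u` let `G u = trs (fun t => isoOf (u.L t (t + 1) (Y t)))` and
`α' = α.gauge (G α)`, `γ' = γ.gauge (G γ)`, `v' t a = (v t a).gauge (G (v t a))`. `LowEq (v' t a) α' t`
because the labels of `Y i`, `i < t`, are the same. For `l ≥ t + 1` `G (v t a) l = b * G γ l` with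
`b = b t a` independent of `l` (composition: first `b`, then `G γ l`; the labels of `Y i`, `i > t`, are
the same), so `UpEq (v' t a) (γ'.gauge (fun _ => b t a)) (t + 1)`. Among `a = 0, ..., N` two, `a ≠ a'`,
have the same `b` (there are at most `N` linear automorphisms). The labels of some `Z` in
block `t` for `v' t a` and `v' t a'` are different (same change of frames at `t` and `t + 1`), so one
of them is not the one of `α'`. -/
theorem gauge_pat [Finite F] (hL : Lnk F w₀ A n s) {N : ℕ}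
    (hN : Nat.card ((Fin s → F) ≃ₗ[F] (Fin s → F)) ≤ N) {α γ : FRep F w₀ A n s}
    {v : ℕ → ℕ → FRep F w₀ A n s} (hp : Pat N α γ v) :
    ∃ (Y : ℕ → Finset E) (α' γ' : FRep F w₀ A n s) (v' : ℕ → FRep F w₀ A n s)
      (b : ℕ → (Fin s → F) ≃ₗ[F] (Fin s → F)),
      (∀ t, t < n → TB F w₀ A t (t + 1) (Y t)) ∧
      (∀ t, t < n → α'.L t (t + 1) (Y t) = rid F (Fin s → F)) ∧
      (∀ t, t < n → γ'.L t (t + 1) (Y t) = rid F (Fin s → F)) ∧
      (∀ i, i < n → ∀ t, t < n → (v' i).L t (t + 1) (Y t) = rid F (Fin s → F)) ∧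
      (∀ t, t < n → LowEq (v' t) α' t) ∧
      (∀ t, t < n → UpEq (v' t) (γ'.gauge fun _ => b t) (t + 1)) ∧
      ∀ t, t < n → ∃ Z, Z ⊆ A (t + 1) \ A t ∧ (v' t).L t (t + 1) Z ≠ α'.L t (t + 1) Z := by
  classical
  -- transporting bases
  have hex : ∀ t, ∃ W, t < n → TB F w₀ A t (t + 1) W := by
    intro t
    by_cases ht : t < n
    · obtain ⟨W, hW⟩ := exists_tb hL (Nat.le_succ t) ht α
      exact ⟨W, fun _ => hW⟩
    · exact ⟨∅, fun h => absurd h ht⟩
  choose Y hY using hex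
  have hiso : ∀ (u : FRep F w₀ A n s) (t : ℕ), t < n → ∃ e, RIso (u.L t (t + 1) (Y t)) e :=
    fun u t ht => TB.iso hL (Nat.le_succ t) ht (hY t ht) u
  obtain ⟨e, he⟩ : ∃ e : FRep F w₀ A n s → ℕ → (Fin s → F) ≃ₗ[F] (Fin s → F),
      e = fun u t => isoOf (u.L t (t + 1) (Y t)) := ⟨_, rfl⟩
  have hid : ∀ (u : FRep F w₀ A n s) (t : ℕ), t < n →
      (u.gauge (trs (e u))).L t (t + 1) (Y t) = rid F (Fin s → F) := by
    intro u t ht
    rw [he]
    exact gauge_id (hiso u) t ht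
  have hlow : ∀ t, t < n → ∀ a, a ≤ N → ∀ m, m ≤ t → trs (e (v t a)) m = trs (e α) m := by
    intro t ht a ha m hm
    refine brwE2_trs fun i hi => ?_
    rw [he]
    show isoOf ((v t a).L i (i + 1) (Y i)) = isoOf (α.L i (i + 1) (Y i))
    rw [(hp.low t ht a ha).lb i (i + 1) (Nat.le_succ i) (by omega) (Y i) (hY i (by omega)).sub]
  obtain ⟨B, hB⟩ : ∃ B : ℕ → ℕ → (Fin s → F) ≃ₗ[F] (Fin s → F),
      B = fun t a => (trs (e (v t a)) (t + 1)).trans (trs (e γ) (t + 1)).symm := ⟨_, rfl⟩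
  have hup : ∀ t, t < n → ∀ a, a ≤ N → ∀ m, t + 1 ≤ m → m ≤ n →
      trs (e (v t a)) m = (B t a).trans (trs (e γ) m) := by
    intro t ht a ha m hm hmn
    rw [hB]
    refine brwE2_up hm fun i h1 h2 => ?_
    rw [he]
    show isoOf ((v t a).L i (i + 1) (Y i)) = isoOf (γ.L i (i + 1) (Y i))
    rw [(hp.up t ht a ha).lb i (i + 1) h1 (Nat.le_succ i) (by omega) (Y i) (hY i (by omega)).sub]
  -- two indices with the same change of frames
  have hfin : Finite ((Fin s → F) ≃ₗ[F] (Fin s → F)) :=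
    Finite.of_injective (fun f : (Fin s → F) ≃ₗ[F] (Fin s → F) => (f : (Fin s → F) → (Fin s → F)))
      DFunLike.coe_injective
  have hpick : ∀ t, ∃ a, t < n → a ≤ N ∧ ∃ Z, Z ⊆ A (t + 1) \ A t ∧
      ((v t a).gauge (trs (e (v t a)))).L t (t + 1) Z ≠ (α.gauge (trs (e α))).L t (t + 1) Z := by
    intro t
    by_cases ht : t < n
    · have hni : ¬ Function.Injective fun a : Fin (N + 1) => B t a := by
        intro hinj
        have h1 := Nat.card_le_card_of_injective _ hinj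
        rw [Nat.card_eq_fintype_card, Fintype.card_fin] at h1
        omega
      rw [Function.Injective] at hni
      push Not at hni
      obtain ⟨a, a', hb, hne⟩ := hni
      have ha : (a : ℕ) ≤ N := by omega
      have ha' : (a' : ℕ) ≤ N := by omega
      have hne' : (a : ℕ) ≠ (a' : ℕ) := fun h => hne (Fin.ext h)
      obtain ⟨Z, hZ, hd⟩ := hp.dist t ht a ha a' ha' hne'
      have hg1 : trs (e (v t a)) t = trs (e (v t a')) t := by
        rw [hlow t ht a ha t le_rfl, hlow t ht a' ha' t le_rfl]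
      have hg2 : trs (e (v t a)) (t + 1) = trs (e (v t a')) (t + 1) := by
        rw [hup t ht a ha (t + 1) le_rfl ht, hup t ht a' ha' (t + 1) le_rfl ht]
        exact congrArg (fun b => LinearEquiv.trans b (trs (e γ) (t + 1))) hb
      have hd' := brwE2_ne hg1 hg2 hd
      by_cases h1 : ((v t a).gauge (trs (e (v t a)))).L t (t + 1) Z =
          (α.gauge (trs (e α))).L t (t + 1) Z
      · refine ⟨a', fun _ => ⟨ha', Z, hZ, fun h2 => hd' ?_⟩⟩
        rw [h1, h2]
      · exact ⟨a, fun _ => ⟨ha, Z, hZ, h1⟩⟩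
    · exact ⟨0, fun h => absurd h ht⟩
  choose a ha using hpick
  refine ⟨Y, α.gauge (trs (e α)), γ.gauge (trs (e γ)),
    fun t => (v t (a t)).gauge (trs (e (v t (a t)))), fun t => B t (a t), hY,
    hid α, hid γ, fun i _ t ht => hid _ t ht, ?_, ?_, fun t ht => (ha t ht).2⟩
  · intro t ht
    exact (hp.low t ht (a t) (ha t ht).1).gauge fun m hm => hlow t ht (a t) (ha t ht).1 m hm
  · intro t ht
    have h1 := (hp.up t ht (a t) (ha t ht).1).gauge
      (G := trs (e (v t (a t)))) (G' := fun m => (B t (a t)).trans (trs (e γ) m))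
      fun m h1 h2 => hup t ht (a t) (ha t ht).1 m h1 h2
    exact ⟨fun m h2 h3 S hS => (h1.tr m h2 h3 S hS).trans rfl,
      fun m m' h2 h3 h4 Z hZ => (h1.lb m m' h2 h3 h4 Z hZ).trans rfl⟩

/-- Subchains of a pattern. `Y' i = Yun Y (f i) (f (i + 1))`. If the labels of `Z` in block `f i`
differ then so do the labels of `Z ∪ Yun Y (f i + 1) (f (i + 1))` between `f i` and `f (i + 1)`
(`L_comp`, `Yun_L`). -/
theorem Pat2.sub (hL : Lnk F w₀ A n s) {Y : ℕ → Finset E} {α γ : FRep F w₀ A n s}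
    {v : ℕ → FRep F w₀ A n s} (hp : Pat2 Y α γ v) {n' : ℕ} {f : ℕ → ℕ}
    (hf : ∀ i, i ≤ n' → f i ≤ n) (hm : ∀ i, i < n' → f i < f (i + 1)) :
    Pat2 (fun i => Yun Y (f i) (f (i + 1))) (α.sub f hf) (γ.sub f hf)
      (fun i => (v (f i)).sub f hf) := by
  have hfn : ∀ i, i < n' → f i < n := fun i hi => (hm i hi).trans_le (hf (i + 1) hi)
  have hYs : ∀ t, t < n → Y t ⊆ A (t + 1) \ A t := fun t ht => (hp.Ytb t ht).sub
  have hA : ∀ l, l < n → A l ⊆ A (l + 1) := fun l hl => hL.sub hl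
  refine ⟨fun t ht => ?_, fun t ht => ?_, fun t ht => ?_, fun t ht => ?_, fun t ht => ?_,
    fun i hi t ht => ?_, fun t ht => ?_⟩
  · exact (hp.low (f t) (hfn t ht)).sub hf hm ht.le
  · have h1 := hp.up (f t) (hfn t ht)
    have h2 := hm t ht
    have h3 : UpEq (v (f t)) γ (f (t + 1)) :=
      ⟨fun m hm1 hm2 S hS => h1.tr m (by omega) hm2 S hS,
        fun m m' hm1 hm2 hm3 Z hZ => h1.lb m m' (by omega) hm2 hm3 Z hZ⟩
    exact h3.sub hf hm ht
  · have h1 := Yun_TB hL hp.Ytb (hm t ht).le (hf (t + 1) ht)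
    exact ⟨h1.sub, h1.span, h1.indL, h1.indR⟩
  · exact Yun_L hL hYs hp.Yα (hm t ht).le (hf (t + 1) ht)
  · exact Yun_L hL hYs hp.Yγ (hm t ht).le (hf (t + 1) ht)
  · exact Yun_L hL hYs (hp.Yv (f i) (hfn i hi)) (hm t ht).le (hf (t + 1) ht)
  · obtain ⟨Z, hZ, hd⟩ := hp.diff (f t) (hfn t ht)
    have hle : f t + 1 ≤ f (t + 1) := hm t ht
    have hn1 : f (t + 1) ≤ n := hf (t + 1) ht
    have hYu := Yun_sub hL hYs hle hn1
    have e1 := FRep.L_comp (u := v (f t)) hA (Nat.le_succ (f t)) hle hn1 hZ hYu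
    have e2 := FRep.L_comp (u := α) hA (Nat.le_succ (f t)) hle hn1 hZ hYu
    rw [Yun_L hL hYs (hp.Yv (f t) (hfn t ht)) hle hn1, brwE2_rid] at e1
    rw [Yun_L hL hYs hp.Yα hle hn1, brwE2_rid] at e2
    refine ⟨Z ∪ Yun Y (f t + 1) (f (t + 1)), ?_, ?_⟩
    · intro x hx
      have h1 : A (f t) ⊆ A (f t + 1) := hA _ (hfn t ht)
      have h2 : A (f t + 1) ⊆ A (f (t + 1)) := chain_le hA hle hn1
      rw [Finset.mem_union] at hx
      show x ∈ A (f (t + 1)) \ A (f t)
      rw [Finset.mem_sdiff]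
      rcases hx with hx | hx
      · have h3 := Finset.mem_sdiff.1 (hZ hx)
        exact ⟨h2 h3.1, h3.2⟩
      · have h3 := Finset.mem_sdiff.1 (hYu hx)
        exact ⟨h3.1, fun h4 => h3.2 (h1 h4)⟩
    · show (v (f t)).L (f t) (f (t + 1)) (Z ∪ Yun Y (f t + 1) (f (t + 1))) ≠
        α.L (f t) (f (t + 1)) (Z ∪ Yun Y (f t + 1) (f (t + 1)))
      rw [e1, e2]
      exact hd

end Pool.MP_4929df_co.H92
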