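import Pool.Agent.W_4929df_h92.BrwE2
import Pool.Agent.W_4929df_h92.BrwD6

/-!
The pattern with identity labels, existence.
-/

set_option autoImplicit false

namespace Pool.MP_4929df_co.H92

open Submodule

private theorem brwE3_rid {F X : Type} [Field F] [AddCommGroup X] [Module F X]
    (R : Submodule F (X × X)) : rcomp R (rid F X) = R := by
  ext ⟨g, h⟩
  rw [mem_rcomp]
  constructor
  · rintro ⟨m, h1, h2⟩
    rw [mem_rid] at h2
    rwa [← h2]
  · intro h1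
    exact ⟨h, h1, rfl⟩

/-- `Pat2.sub` with hypotheses at the positions `f i` only. -/
private theorem brwE3_sub {F : Type} [Field F] {E : Type} [Fintype E] [DecidableEq E] {V : Type}
    [AddCommGroup V] [Module F V] [FiniteDimensional F V] {w₀ : E → V} {A : ℕ → Finset E}
    {n s : ℕ} (hL : Lnk F w₀ A n s) {Y : ℕ → Finset E} {α γ : FRep F w₀ A n s}
    {v : ℕ → FRep F w₀ A n s} {n' : ℕ} {f : ℕ → ℕ}
    (hf : ∀ i, i ≤ n' → f i ≤ n) (hm : ∀ i, i < n' → f i < f (i + 1))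
    (hYtb : ∀ t, t < n → TB F w₀ A t (t + 1) (Y t))
    (hYα : ∀ t, t < n → α.L t (t + 1) (Y t) = rid F (Fin s → F))
    (hYγ : ∀ t, t < n → γ.L t (t + 1) (Y t) = rid F (Fin s → F))
    (hlow : ∀ i, i < n' → LowEq (v (f i)) α (f i))
    (hup : ∀ i, i < n' → UpEq (v (f i)) γ (f i + 1))
    (hYv : ∀ i, i < n' → ∀ t, t < n → (v (f i)).L t (t + 1) (Y t) = rid F (Fin s → F))
    (hdiff : ∀ i, i < n' → ∃ Z, Z ⊆ A (f i + 1) \ A (f i) ∧
      (v (f i)).L (f i) (f i + 1) Z ≠ α.L (f i) (f i + 1) Z) :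
    Pat2 (fun i => Yun Y (f i) (f (i + 1))) (α.sub f hf) (γ.sub f hf)
      (fun i => (v (f i)).sub f hf) := by
  have hfn : ∀ i, i < n' → f i < n := fun i hi => (hm i hi).trans_le (hf (i + 1) hi)
  have hYs : ∀ t, t < n → Y t ⊆ A (t + 1) \ A t := fun t ht => (hYtb t ht).sub
  have hA : ∀ l, l < n → A l ⊆ A (l + 1) := fun l hl => hL.sub hl
  refine ⟨fun t ht => ?_, fun t ht => ?_, fun t ht => ?_, fun t ht => ?_, fun t ht => ?_,
    fun i hi t ht => ?_, fun t ht => ?_⟩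
  · exact (hlow t ht).sub hf hm ht.le
  · have h1 := hup t ht
    have h2 := hm t ht
    have h3 : UpEq (v (f t)) γ (f (t + 1)) :=
      ⟨fun m hm1 hm2 S hS => h1.tr m (by omega) hm2 S hS,
        fun m m' hm1 hm2 hm3 Z hZ => h1.lb m m' (by omega) hm2 hm3 Z hZ⟩
    exact h3.sub hf hm ht
  · have h1 := Yun_TB hL hYtb (hm t ht).le (hf (t + 1) ht)
    exact ⟨h1.sub, h1.span, h1.indL, h1.indR⟩
  · exact Yun_L hL hYs hYα (hm t ht).le (hf (t + 1) ht)
  · exact Yun_L hL hYs hYγ (hm t ht).le (hf (t + 1) ht)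
  · exact Yun_L hL hYs (hYv i hi) (hm t ht).le (hf (t + 1) ht)
  · obtain ⟨Z, hZ, hd⟩ := hdiff t ht
    have hle : f t + 1 ≤ f (t + 1) := hm t ht
    have hn1 : f (t + 1) ≤ n := hf (t + 1) ht
    have hYu := Yun_sub hL hYs hle hn1
    have e1 := FRep.L_comp (u := v (f t)) hA (Nat.le_succ (f t)) hle hn1 hZ hYu
    have e2 := FRep.L_comp (u := α) hA (Nat.le_succ (f t)) hle hn1 hZ hYu
    rw [Yun_L hL hYs (hYv t ht) hle hn1, brwE3_rid] at e1
    rw [Yun_L hL hYs hYα hle hn1, brwE3_rid] at e2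
    refine ⟨Z ∪ Yun Y (f t + 1) (f (t + 1)), ?_, ?_⟩
    · intro x hx
      have h1 : A (f t) ⊆ A (f t + 1) := hA _ (hfn t ht)
      have h2 : A (f t + 1) ⊆ A (f (t + 1)) := chain_le hA hle hn1
      rw [Finset.mem_union] at hx
      show x ∈ A (f (t + 1)) \ A (f t)
      rw [Finset.mem_sdiff]
      rcases hx with hx | hx
      · have h3 := Finset.mem_sdiff.1 (hZ hx)
        exact ⟨h2 h3.1, h3.2⟩
      · have h3 := Finset.mem_sdiff.1 (hYu hx)
        exact ⟨h3.1, fun h4 => h3.2 (h1 h4)⟩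
    · show (v (f t)).L (f t) (f (t + 1)) (Z ∪ Yun Y (f t + 1) (f (t + 1))) ≠
        α.L (f t) (f (t + 1)) (Z ∪ Yun Y (f t + 1) (f (t + 1)))
      rw [e1, e2]
      exact hd

private theorem brwE3_mono {f : ℕ → ℕ} {n : ℕ} (hm : ∀ i, i < n → f i < f (i + 1)) {l m : ℕ}
    (hlm : l < m) (hmn : m ≤ n) : f l < f m := by
  induction m, hlm using Nat.le_induction with
  | base => exact hm l (by omega)
  | succ m hlm ih => exact (ih (by omega)).trans (hm m (by omega))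

/-- `gauge_pat` for a long chain and `pigeon_seq` for `b`: positions `f 0 < ... < f (n - 1)` with
`b (f i) = b`, `f n = f (n - 1) + 1` (or `f` from `pigeon_seq` for `n + 1`); the
subchain, `γ = (γ'.gauge (fun _ => b)).sub`, as in `Pat2.sub` (the same arguments; `Pat2` for the whole
chain is not available because `b` is not constant). -/
theorem exists_pat2 (F : Type) [Field F] [Finite F] (s n : ℕ) : ∃ n' : ℕ,
    ∀ (E : Type) [Fintype E] [DecidableEq E] (V : Type) [AddCommGroup V] [Module F V]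
      [FiniteDimensional F V] (w₀ : E → V) (A : ℕ → Finset E), Lnk F w₀ A n' s →
      3 ≤ (A 0).card → ∀ (α γ : FRep F w₀ A n' s) (v : ℕ → ℕ → FRep F w₀ A n' s),
      Pat (Nat.card ((Fin s → F) ≃ₗ[F] (Fin s → F))) α γ v →
      ∃ A' : ℕ → Finset E, Lnk F w₀ A' n s ∧ 3 ≤ (A' 0).card ∧
        ∃ (Y : ℕ → Finset E) (α γ : FRep F w₀ A' n s) (v : ℕ → FRep F w₀ A' n s),
          Pat2 Y α γ v := by
  have hfin : Finite ((Fin s → F) ≃ₗ[F] (Fin s → F)) :=
    Finite.of_injective (fun f : (Fin s → F) ≃ₗ[F] (Fin s → F) => (f : (Fin s → F) → (Fin s → F)))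
      DFunLike.coe_injective
  obtain ⟨N, hN⟩ := pigeon_seq ((Fin s → F) ≃ₗ[F] (Fin s → F)) (n + 1)
  refine ⟨N, fun E _ _ V _ _ _ w₀ A hL h3 α γ v hp => ?_⟩
  obtain ⟨Y, α', γ', v', b, hY, hα, hγ, hv, hlow, hup, hd⟩ := gauge_pat hL le_rfl hp
  obtain ⟨g, hg1, hg2, c, hc⟩ := hN b
  have hf : ∀ i, i ≤ n → g i ≤ N := fun i hi => (hg1 i (by omega)).le
  have hm : ∀ i, i < n → g i < g (i + 1) := fun i hi => hg2 i (i + 1) (by omega) (by omega)
  have hfn : ∀ i, i < n → g i < N := fun i hi => hg1 i (by omega)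
  refine ⟨fun i => A (g i), hL.subchain hf hm, ?_, fun i => Yun Y (g i) (g (i + 1)),
    α'.sub g hf, (γ'.gauge fun _ => c).sub g hf, fun i => (v' (g i)).sub g hf, ?_⟩
  · have hA : ∀ l, l < N → A l ⊆ A (l + 1) := fun l hl => hL.sub hl
    have h4 : A 0 ⊆ A (g 0) := chain_le hA (Nat.zero_le _) (hf 0 (Nat.zero_le _))
    exact h3.trans (Finset.card_le_card h4)
  · refine brwE3_sub (v := v') hL hf hm hY hα (fun t ht => gauge_const c (hγ t ht))
      (fun i hi => hlow (g i) (hfn i hi)) (fun i hi => ?_) (fun i hi => hv (g i) (hfn i hi))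
      (fun i hi => hd (g i) (hfn i hi))
    have h1 := hup (g i) (hfn i hi)
    rw [hc i (by omega)] at h1
    exact h1

/-- homogeneous types of all merged blocks -/
structure Pat3 {F : Type} [Field F] {E : Type} [Fintype E] [DecidableEq E] {V : Type}
    [AddCommGroup V] [Module F V] {w₀ : E → V} {A : ℕ → Finset E} {n s : ℕ} (Y : ℕ → Finset E)
    (α γ : FRep F w₀ A n s) (v : ℕ → FRep F w₀ A n s)
    (𝒯 : Set (Submodule F ((Fin s → F) × (Fin s → F)) × Submodule F ((Fin s → F) × (Fin s → F)))) :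
    Prop extends Pat2 Y α γ v where
  ty : ∀ l m, l < m → m ≤ n → {z | ∃ Z, Z ⊆ A m \ A l ∧ (α.L l m Z, γ.L l m Z) = z} = 𝒯

/-- `ramsey` for the colour `{(α.L i j Z, γ.L i j Z)}` of `i < j` (`m = n + 1`), `Pat2.sub` -/
theorem exists_pat3 (F : Type) [Field F] [Finite F] (s n : ℕ) : ∃ n' : ℕ,
    ∀ (E : Type) [Fintype E] [DecidableEq E] (V : Type) [AddCommGroup V] [Module F V]
      [FiniteDimensional F V] (w₀ : E → V) (A : ℕ → Finset E), Lnk F w₀ A n' s →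
      3 ≤ (A 0).card → ∀ (Y : ℕ → Finset E) (α γ : FRep F w₀ A n' s)
      (v : ℕ → FRep F w₀ A n' s), Pat2 Y α γ v →
      ∃ A' : ℕ → Finset E, Lnk F w₀ A' n s ∧ 3 ≤ (A' 0).card ∧
        ∃ (Y : ℕ → Finset E) (α γ : FRep F w₀ A' n s) (v : ℕ → FRep F w₀ A' n s)
          (𝒯 : Set (Submodule F ((Fin s → F) × (Fin s → F)) ×
            Submodule F ((Fin s → F) × (Fin s → F)))), Pat3 Y α γ v 𝒯 := by
  have hfin : Finite (Set (Submodule F ((Fin s → F) × (Fin s → F)) ×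
      Submodule F ((Fin s → F) × (Fin s → F)))) := inferInstance
  obtain ⟨N, hN⟩ := ramsey (Set (Submodule F ((Fin s → F) × (Fin s → F)) ×
      Submodule F ((Fin s → F) × (Fin s → F)))) (n + 1)
  refine ⟨N, fun E _ _ V _ _ _ w₀ A hL h3 Y α γ v hp => ?_⟩
  obtain ⟨g, hg1, hg2, c, hc⟩ := hN fun l m =>
    {z | ∃ Z, Z ⊆ A m \ A l ∧ (α.L l m Z, γ.L l m Z) = z}
  have hf : ∀ i, i ≤ n → g i ≤ N := fun i hi => (hg1 i (by omega)).le
  have hm : ∀ i, i < n → g i < g (i + 1) := fun i hi => hg2 i (i + 1) (by omega) (by omega)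
  refine ⟨fun i => A (g i), hL.subchain hf hm, ?_, fun i => Yun Y (g i) (g (i + 1)),
    α.sub g hf, γ.sub g hf, fun i => (v (g i)).sub g hf, c, hp.sub hL hf hm, ?_⟩
  · have hA : ∀ l, l < N → A l ⊆ A (l + 1) := fun l hl => hL.sub hl
    have h4 : A 0 ⊆ A (g 0) := chain_le hA (Nat.zero_le _) (hf 0 (Nat.zero_le _))
    exact h3.trans (Finset.card_le_card h4)
  · intro l m hlm hmn
    exact hc l m hlm (by omega)

variable {F : Type} [Field F] {E : Type} [Fintype E] [DecidableEq E] {V : Type}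
  [AddCommGroup V] [Module F V] [FiniteDimensional F V] {w₀ : E → V} {A : ℕ → Finset E} {n s : ℕ}
  {Y : ℕ → Finset E} {α γ : FRep F w₀ A n s} {v : ℕ → FRep F w₀ A n s}
  {𝒯 : Set (Submodule F ((Fin s → F) × (Fin s → F)) × Submodule F ((Fin s → F) × (Fin s → F)))}

theorem Pat3.sub (hL : Lnk F w₀ A n s) (hp : Pat3 Y α γ v 𝒯) {n' : ℕ} {f : ℕ → ℕ}
    (hf : ∀ i, i ≤ n' → f i ≤ n) (hm : ∀ i, i < n' → f i < f (i + 1)) :
    Pat3 (fun i => Yun Y (f i) (f (i + 1))) (α.sub f hf) (γ.sub f hf)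
      (fun i => (v (f i)).sub f hf) 𝒯 :=
  ⟨Pat2.sub hL hp.toPat2 hf hm, fun l m hlm hmn =>
    hp.ty (f l) (f m) (brwE3_mono hm hlm hmn) (hf m hmn)⟩

end Pool.MP_4929df_co.H92
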