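import Pool.Agent.W_4929df_h92.BrwE3

/-!
Letters: the pairs of labels in `𝒯`.
-/

set_option autoImplicit false

namespace Pool.MP_4929df_co.H92

open Submodule

section

variable {F X : Type} [Field F] [AddCommGroup X] [Module F X] {R R' R'' : Submodule F (X × X)}
  {e e' : X ≃ₗ[F] X} {W : Submodule F X}

theorem RIso.comp (h : RIso R e) (h' : RIso R' e') : RIso (rcomp R R') (e.trans e') := by
  intro g k
  rw [mem_rcomp]
  constructor
  · rintro ⟨m, h1, h2⟩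
    rw [(h g m).1 h1] at h2
    exact (h' _ _).1 h2
  · intro hk
    exact ⟨e g, (h g _).2 rfl, (h' _ _).2 hk⟩

theorem riso_rid : RIso (rid F X) (LinearEquiv.refl F X) := by
  intro g k
  rw [mem_rid]
  exact eq_comm

theorem RIso.rimg (h : RIso R e) : rimg R W = W.map (e : X →ₗ[F] X) := by
  ext k
  rw [mem_rimg, Submodule.mem_map]
  constructor
  · rintro ⟨g, h1, h2⟩
    exact ⟨g, h1, ((h g k).1 h2).symm⟩
  · rintro ⟨g, h1, h2⟩
    exact ⟨g, h1, (h g k).2 h2.symm⟩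

theorem RIso.rpre (h : RIso R e) : rpre R W = W.comap (e : X →ₗ[F] X) := by
  ext g
  rw [mem_rpre, Submodule.mem_comap]
  constructor
  · rintro ⟨k, h1, h2⟩
    rw [(h g k).1 h2] at h1
    exact h1
  · intro h1
    exact ⟨e g, h1, (h g _).2 rfl⟩

theorem RIso.unique (h : RIso R e) (h' : RIso R e') : e = e' := by
  ext g
  exact (h' g (e g)).1 ((h g (e g)).2 rfl)

theorem rimg_rcomp : rimg (rcomp R R') W = rimg R' (rimg R W) := by
  ext k
  simp only [mem_rimg, mem_rcomp]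
  constructor
  · rintro ⟨g, h1, m, h2, h3⟩
    exact ⟨m, ⟨g, h1, h2⟩, h3⟩
  · rintro ⟨m, ⟨g, h1, h2⟩, h3⟩
    exact ⟨g, h1, m, h2, h3⟩

theorem rpre_rcomp : rpre (rcomp R R') W = rpre R (rpre R' W) := by
  ext g
  simp only [mem_rpre, mem_rcomp]
  constructor
  · rintro ⟨k, h1, m, h2, h3⟩
    exact ⟨m, ⟨k, h1, h3⟩, h2⟩
  · rintro ⟨m, ⟨k, h1, h3⟩, h2⟩
    exact ⟨k, h1, m, h2, h3⟩

theorem rimg_rid : rimg (rid F X) W = W := by
  ext k
  simp only [mem_rimg, mem_rid]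
  constructor
  · rintro ⟨g, h1, rfl⟩
    exact h1
  · intro h1
    exact ⟨k, h1, rfl⟩

theorem rpre_rid : rpre (rid F X) W = W := by
  ext k
  simp only [mem_rpre, mem_rid]
  constructor
  · rintro ⟨g, h1, rfl⟩
    exact h1
  · intro h1
    exact ⟨k, h1, rfl⟩

/-- the relation `R` followed by the inverse of `e` -/
theorem mem_rcomp_symm {g h : X} (h' : RIso R' e.symm) : (g, h) ∈ rcomp R R' ↔ (g, e h) ∈ R := by
  rw [mem_rcomp]
  constructor
  · rintro ⟨m, h1, h2⟩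
    have h3 := (h' m h).1 h2
    rw [h3, LinearEquiv.apply_symm_apply]
    exact h1
  · intro h1
    exact ⟨e h, h1, (h' _ _).2 (LinearEquiv.symm_apply_apply e h).symm⟩

end

variable {F : Type} [Field F] {E : Type} [Fintype E] [DecidableEq E] {V : Type}
  [AddCommGroup V] [Module F V] [FiniteDimensional F V] {w₀ : E → V} {A : ℕ → Finset E} {n s : ℕ}
  {Y : ℕ → Finset E} {α γ : FRep F w₀ A n s} {v : ℕ → FRep F w₀ A n s}
  {𝒯 : Set (Submodule F ((Fin s → F) × (Fin s → F)) × Submodule F ((Fin s → F) × (Fin s → F)))}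

omit [FiniteDimensional F V] in
theorem Pat3.mem (hp : Pat3 Y α γ v 𝒯) {l m : ℕ} (hlm : l < m) (hm : m ≤ n) {Z : Finset E}
    (hZ : Z ⊆ A m \ A l) : (α.L l m Z, γ.L l m Z) ∈ 𝒯 := by
  rw [← hp.ty l m hlm hm]
  exact ⟨Z, hZ, rfl⟩

omit [FiniteDimensional F V] in
theorem Pat3.copy (hp : Pat3 Y α γ v 𝒯) {l m : ℕ} (hlm : l < m) (hm : m ≤ n)
    {z : Submodule F ((Fin s → F) × (Fin s → F)) × Submodule F ((Fin s → F) × (Fin s → F))}
    (hz : z ∈ 𝒯) : ∃ Z, Z ⊆ A m \ A l ∧ α.L l m Z = z.1 ∧ γ.L l m Z = z.2 := by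
  rw [← hp.ty l m hlm hm] at hz
  obtain ⟨Z, hZ, rfl⟩ := hz
  exact ⟨Z, hZ, rfl, rfl⟩

omit [FiniteDimensional F V] in
/-- copies of `z` in block 0 and of `z'` in block 1, `L_comp` -/
theorem Pat3.comp (hL : Lnk F w₀ A n s) (hp : Pat3 Y α γ v 𝒯) (hn : 2 ≤ n)
    {z z' : Submodule F ((Fin s → F) × (Fin s → F)) × Submodule F ((Fin s → F) × (Fin s → F))}
    (hz : z ∈ 𝒯) (hz' : z' ∈ 𝒯) : (rcomp z.1 z'.1, rcomp z.2 z'.2) ∈ 𝒯 := by
  have hA : ∀ l, l < n → A l ⊆ A (l + 1) := fun l hl => (hL.mono l hl).subset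
  obtain ⟨Z, hZ, h1, h2⟩ := hp.copy (l := 0) (m := 1) (by omega) (by omega) hz
  obtain ⟨Z', hZ', h1', h2'⟩ := hp.copy (l := 1) (m := 2) (by omega) hn hz'
  have hU : Z ∪ Z' ⊆ A 2 \ A 0 := by
    intro x hx
    rw [Finset.mem_sdiff]
    rcases Finset.mem_union.1 hx with hx | hx
    · have hx' := Finset.mem_sdiff.1 (hZ hx)
      exact ⟨hA 1 (by omega) hx'.1, hx'.2⟩
    · have hx' := Finset.mem_sdiff.1 (hZ' hx)
      exact ⟨hx'.1, fun h => hx'.2 (hA 0 (by omega) h)⟩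
  have h3 := hp.mem (l := 0) (m := 2) (by omega) hn hU
  rw [FRep.L_comp hA (by omega : (0 : ℕ) ≤ 1) (by omega : (1 : ℕ) ≤ 2) hn hZ hZ',
    FRep.L_comp hA (by omega : (0 : ℕ) ≤ 1) (by omega : (1 : ℕ) ≤ 2) hn hZ hZ', h1, h2, h1', h2'] at h3
  exact h3

omit [FiniteDimensional F V] in
theorem Pat3.one (hp : Pat3 Y α γ v 𝒯) (hn : 1 ≤ n) :
    (rid F (Fin s → F), rid F (Fin s → F)) ∈ 𝒯 := by
  have h1 := hp.mem (l := 0) (m := 1) (by omega) hn (hp.Ytb 0 (by omega)).sub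
  rw [hp.Yα 0 (by omega), hp.Yγ 0 (by omega)] at h1
  exact h1

/-- Inverse letters. The second label is the graph of some `e'` (`FRep.iso_all`). The pair `(e, e')`
has finite order `d ≥ 1` in the finite group of pairs of linear automorphisms, the inverse is the
product of `d - 1` factors `(e, e')`, in `𝒯` by `Pat3.comp`, `Pat3.one`. -/
theorem Pat3.inv [Finite F] (hL : Lnk F w₀ A n s) (hp : Pat3 Y α γ v 𝒯) (hn : 2 ≤ n)
    {z : Submodule F ((Fin s → F) × (Fin s → F)) × Submodule F ((Fin s → F) × (Fin s → F))}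
    (hz : z ∈ 𝒯) {e : (Fin s → F) ≃ₗ[F] (Fin s → F)} (h : RIso z.1 e) :
    ∃ e', RIso z.2 e' ∧ ∃ z' ∈ 𝒯, RIso z'.1 e.symm ∧ RIso z'.2 e'.symm := by
  have hA : ∀ l, l < n → A l ⊆ A (l + 1) := fun l hl => (hL.mono l hl).subset
  obtain ⟨Z, hZ, h1, h2⟩ := hp.copy (l := 0) (m := 1) (by omega) (by omega) hz
  obtain ⟨e', he'⟩ : ∃ e', RIso (γ.L 0 1 Z) e' :=
    FRep.iso_all (u := α) hA (by omega) (by omega) hZ ⟨e, by rw [h1]; exact h⟩
  rw [h2] at he'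
  refine ⟨e', he', ?_⟩
  have key : ∀ k : ℕ, ∃ z' ∈ 𝒯, RIso z'.1 (e ^ k) ∧ RIso z'.2 (e' ^ k) := by
    intro k
    induction k with
    | zero => exact ⟨_, hp.one (by omega), riso_rid, riso_rid⟩
    | succ k ih =>
      obtain ⟨z', h3, h4, h5⟩ := ih
      refine ⟨_, hp.comp hL hn h3 hz, ?_, ?_⟩
      · rw [pow_succ']
        exact h4.comp h
      · rw [pow_succ']
        exact h5.comp he'
  have : Finite ((Fin s → F) ≃ₗ[F] (Fin s → F)) :=
    Finite.of_injective (fun f : (Fin s → F) ≃ₗ[F] (Fin s → F) => (f : (Fin s → F) → (Fin s → F)))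
      DFunLike.coe_injective
  have hd : 0 < orderOf (e, e') := orderOf_pos (e, e')
  have hpow : (e, e') ^ orderOf (e, e') = 1 := pow_orderOf_eq_one (e, e')
  obtain ⟨d, hd'⟩ : ∃ d, orderOf (e, e') = d + 1 := ⟨orderOf (e, e') - 1, by omega⟩
  rw [hd', Prod.pow_mk, Prod.mk_eq_one, pow_succ, pow_succ] at hpow
  obtain ⟨z', h3, h4, h5⟩ := key d
  rw [eq_inv_of_mul_eq_one_left hpow.1] at h4
  rw [eq_inv_of_mul_eq_one_left hpow.2] at h5
  exact ⟨z', h3, h4, h5⟩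

omit [FiniteDimensional F V] in
/-- labels of `v j` in other blocks -/
theorem Pat3.left (hp : Pat3 Y α γ v 𝒯) {j l m : ℕ} (hj : j < n) (hlm : l ≤ m) (hm : m ≤ j)
    {Z : Finset E} (hZ : Z ⊆ A m \ A l) : (v j).L l m Z = α.L l m Z :=
  (hp.low j hj).lb l m hlm hm Z hZ

omit [FiniteDimensional F V] in
theorem Pat3.right (hp : Pat3 Y α γ v 𝒯) {j l m : ℕ} (hj : j < n) (hl : j + 1 ≤ l) (hlm : l ≤ m)
    (hm : m ≤ n) {Z : Finset E} (hZ : Z ⊆ A m \ A l) : (v j).L l m Z = γ.L l m Z :=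
  (hp.up j hj).lb l m hl hlm hm Z hZ

end Pool.MP_4929df_co.H92
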