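import Pool.Agent.W_4929df_h92.BrwF1

/-!
The rules for one block.
-/

set_option autoImplicit false

namespace Pool.MP_4929df_co.H92

open Submodule

/-- a relation containing the graph of `e` -/
theorem rpre_ge {F X : Type} [Field F] [AddCommGroup X] [Module F X] {R R' : Submodule F (X × X)}
    {e : X ≃ₗ[F] X} (h : RIso R' e) (hR : R' ≤ R) (W : Submodule F X) :
    rpre R (W.map (e : X →ₗ[F] X)) = W ⊔ rpre R ⊥ := by
  ext g
  rw [mem_rpre, Submodule.mem_sup]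
  constructor
  · rintro ⟨y, hy, hgy⟩
    obtain ⟨x, hx, rfl⟩ := Submodule.mem_map.1 hy
    have h1 : (x, e x) ∈ R := hR ((h x (e x)).2 rfl)
    have h2 : (g - x, (0 : X)) ∈ R := by
      have h3 := R.sub_mem hgy h1
      simpa using h3
    refine ⟨x, hx, g - x, mem_rpre.2 ⟨0, Submodule.zero_mem _, h2⟩, by abel⟩
  · rintro ⟨x, hx, y, hy, rfl⟩
    obtain ⟨z, hz, hyz⟩ := mem_rpre.1 hy
    rw [Submodule.mem_bot] at hz
    subst hz
    have h1 : (x, e x) ∈ R := hR ((h x (e x)).2 rfl)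
    have h2 := R.add_mem h1 hyz
    refine ⟨e x, Submodule.mem_map.2 ⟨x, hx, rfl⟩, ?_⟩
    simpa using h2

/-- a relation contained in the graph of `e` -/
theorem rpre_le {F X : Type} [Field F] [AddCommGroup X] [Module F X] {R R' : Submodule F (X × X)}
    {e : X ≃ₗ[F] X} (h : RIso R' e) (hR : R ≤ R') (W : Submodule F X) :
    rpre R (W.map (e : X →ₗ[F] X)) = W ⊓ rpre R ⊤ := by
  ext g
  rw [mem_rpre, Submodule.mem_inf, mem_rpre]
  constructor
  · rintro ⟨y, hy, hgy⟩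
    obtain ⟨x, hx, hxy⟩ := Submodule.mem_map.1 hy
    have h1 : y = e g := (h g y).1 (hR hgy)
    have h2 : x = g := by
      apply e.injective
      rw [← h1]
      exact hxy
    exact ⟨h2 ▸ hx, y, Submodule.mem_top, hgy⟩
  · rintro ⟨hg, y, -, hgy⟩
    have h1 : y = e g := (h g y).1 (hR hgy)
    exact ⟨y, Submodule.mem_map.2 ⟨g, hg, h1.symm⟩, hgy⟩

variable {F : Type} [Field F] {E : Type} [Fintype E] [DecidableEq E] {V : Type}
  [AddCommGroup V] [Module F V] [FiniteDimensional F V] {w₀ : E → V} {A : ℕ → Finset E} {n s : ℕ}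
  {Y : ℕ → Finset E} {α γ : FRep F w₀ A n s} {v : ℕ → FRep F w₀ A n s}
  {𝒯 : Set (Submodule F ((Fin s → F) × (Fin s → F)) × Submodule F ((Fin s → F) × (Fin s → F)))}

/-- the label is monotone in the set -/
theorem FRep.L_mono (u : FRep F w₀ A n s) {l m : ℕ} {Z Z' : Finset E} (h : Z ⊆ Z') :
    u.L l m Z ≤ u.L l m Z' :=
  Submodule.comap_mono (Sp_mono h)

omit [FiniteDimensional F V] in
private theorem BrwF2_up (hA : ∀ l, l < n → A l ⊆ A (l + 1)) {l m m' : ℕ} (hlm : l ≤ m) (hm : m ≤ n)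
    {Z : Finset E} (hZ : Z ⊆ A m' \ A m) : Z ⊆ (A l)ᶜ := by
  intro x hx
  rw [Finset.mem_compl]
  intro hx'
  exact (Finset.mem_sdiff.1 (hZ hx)).2 (chain_le hA hlm hm hx')

omit [FiniteDimensional F V] in
private theorem BrwF2_low (hA : ∀ l, l < n → A l ⊆ A (l + 1)) {l m m' : ℕ} (hml : m' ≤ l) (hl : l ≤ n)
    {Z : Finset E} (hZ : Z ⊆ A m' \ A m) : Z ⊆ A l := by
  intro x hx
  exact chain_le hA hml hl (Finset.mem_sdiff.1 (hZ hx)).1

private theorem BrwF2_comap {X : Type} [AddCommGroup X] [Module F X] (e : X ≃ₗ[F] X) (W : Submodule F X) :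
    W.comap (e.symm : X →ₗ[F] X) = W.map (e : X →ₗ[F] X) := by
  ext x
  rw [Submodule.mem_comap, Submodule.mem_map]
  constructor
  · intro hx
    exact ⟨e.symm x, hx, by simp⟩
  · rintro ⟨y, hy, rfl⟩
    simpa using hy

/-- Rule 1. `F' ⊆ Z ⊆` block `i`, the label of `F'` is the graph of `e`. Let `C` be a copy of the
inverse letter of `F'` (`Pat3.inv`) in block `i - 1` and `Z'` a copy of `Z` in block `i - 2` (as sets,
`Pat3.copy`, only the `α`-labels matter). Word `Z' ∪ C ∪ Z`, trace at the cut `i - 2`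
(`FRep.T_comp'` three times, starting with `T (i + 1) ∅ = ⊥`): for `α` it is
`rpre α(Z) (e K) = K ⊔ K = K` with `K = rpre (α.L i (i + 1) Z) ⊥` (`rpre_ge`), for `v i` (whose labels in
the blocks `i - 2`, `i - 1` are those of `α`) it is `K' ⊔ K` with `K' = rpre ((v i).L i (i + 1) Z) ⊥`.
Both have the same dimension by `FRep.finrank_T'`, and also `K`, `K'` (`T_comp'` with `S = ∅`). So
`K' = K`. -/
theorem Pat3.rule_bot [Finite F] (hL : Lnk F w₀ A n s) (hp : Pat3 Y α γ v 𝒯) {i : ℕ}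
    (hi : 2 ≤ i) (hi' : i < n) {Z F' : Finset E} (hZ : Z ⊆ A (i + 1) \ A i) (hF : F' ⊆ Z)
    (h : ∃ e, RIso (α.L i (i + 1) F') e) :
    rpre ((v i).L i (i + 1) Z) ⊥ = rpre (α.L i (i + 1) Z) ⊥ := by
  obtain ⟨k, rfl⟩ : ∃ k, i = k + 2 := ⟨i - 2, by omega⟩
  have hA : ∀ l, l < n → A l ⊆ A (l + 1) := fun l hl => (hL.mono l hl).subset
  obtain ⟨e, he⟩ := h
  have hFA : F' ⊆ A (k + 2 + 1) \ A (k + 2) := hF.trans hZ
  obtain ⟨e₂, -, z', hz', hz1, -⟩ := hp.inv hL (by omega) (hp.mem (by omega) (by omega) hFA) he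
  obtain ⟨C, hC, hCα, -⟩ := hp.copy (l := k + 1) (m := k + 2) (by omega) (by omega) hz'
  obtain ⟨Z', hZ', hZα, -⟩ := hp.copy (l := k) (m := k + 1) (by omega) (by omega)
    (hp.mem (by omega) (by omega) hZ)
  have hT : ∀ u : FRep F w₀ A n s, u.T (k + 2) Z = rpre (u.L (k + 2) (k + 2 + 1) Z) ⊥ := by
    intro u
    have h1 := FRep.T_comp' (u := u) hA (l := k + 2) (m := k + 2 + 1) (by omega) (by omega) (S := ∅)
      (Finset.empty_subset _) hZ
    rwa [Finset.empty_union, FRep.T_empty (by omega)] at h1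
  have key : ∀ u : FRep F w₀ A n s, u.L (k + 1) (k + 2) C = z'.1 →
      u.L k (k + 1) Z' = α.L (k + 2) (k + 2 + 1) Z →
      u.T k (Z ∪ C ∪ Z') = rpre (u.L (k + 2) (k + 2 + 1) Z) ⊥ ⊔ rpre (α.L (k + 2) (k + 2 + 1) Z) ⊥ := by
    intro u h1 h2
    rw [FRep.T_comp' hA (l := k) (m := k + 1) (by omega) (by omega)
      (Finset.union_subset (BrwF2_up hA (by omega) (by omega) hZ) (BrwF2_up hA le_rfl (by omega) hC)) hZ',
      FRep.T_comp' hA (l := k + 1) (m := k + 2) (by omega) (by omega) (BrwF2_up hA le_rfl (by omega) hZ) hC,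
      hT, h1, h2, hz1.rpre, BrwF2_comap, rpre_ge he (α.L_mono hF)]
  have k1 := key α hCα hZα
  have k2 := key (v (k + 2)) (by rw [hp.left (by omega) (by omega) (by omega) hC, hCα])
    (by rw [hp.left (by omega) (by omega) (by omega) hZ', hZα])
  have hS : Z ∪ C ∪ Z' ⊆ (A k)ᶜ := Finset.union_subset (Finset.union_subset (BrwF2_up hA (by omega) (by omega) hZ)
    (BrwF2_up hA (by omega) (by omega) hC)) (BrwF2_up hA le_rfl (by omega) hZ')
  have d1 := FRep.finrank_T' (u := α) (v := v (k + 2)) (l := k) (by omega) hS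
  have d2 := FRep.finrank_T' (u := α) (v := v (k + 2)) (l := k + 2) (by omega) (BrwF2_up hA le_rfl (by omega) hZ)
  rw [k1, k2, sup_idem] at d1
  rw [hT, hT] at d2
  have h3 : rpre (α.L (k + 2) (k + 2 + 1) Z) ⊥ =
      rpre ((v (k + 2)).L (k + 2) (k + 2 + 1) Z) ⊥ ⊔ rpre (α.L (k + 2) (k + 2 + 1) Z) ⊥ :=
    Submodule.eq_of_le_of_finrank_eq le_sup_right d1
  exact Submodule.eq_of_le_of_finrank_eq (h3 ▸ le_sup_left) d2.symm

/-- Rule 2. The same with `Z ⊆ F'`, starting with `T (i + 1) (A (i + 1))ᶜ = ⊤`, `rpre_le`. -/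
theorem Pat3.rule_top [Finite F] (hL : Lnk F w₀ A n s) (hp : Pat3 Y α γ v 𝒯) {i : ℕ}
    (hi : 2 ≤ i) (hi' : i < n) {Z F' : Finset E} (hF' : F' ⊆ A (i + 1) \ A i) (hF : Z ⊆ F')
    (h : ∃ e, RIso (α.L i (i + 1) F') e) :
    rpre ((v i).L i (i + 1) Z) ⊤ = rpre (α.L i (i + 1) Z) ⊤ := by
  obtain ⟨k, rfl⟩ : ∃ k, i = k + 2 := ⟨i - 2, by omega⟩
  have hA : ∀ l, l < n → A l ⊆ A (l + 1) := fun l hl => (hL.mono l hl).subset
  obtain ⟨e, he⟩ := h
  have hZ : Z ⊆ A (k + 2 + 1) \ A (k + 2) := hF.trans hF'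
  obtain ⟨e₂, -, z', hz', hz1, -⟩ := hp.inv hL (by omega) (hp.mem (by omega) (by omega) hF') he
  obtain ⟨C, hC, hCα, -⟩ := hp.copy (l := k + 1) (m := k + 2) (by omega) (by omega) hz'
  obtain ⟨Z', hZ', hZα, -⟩ := hp.copy (l := k) (m := k + 1) (by omega) (by omega)
    (hp.mem (by omega) (by omega) hZ)
  have hc3 : (A (k + 2 + 1))ᶜ ⊆ (A (k + 2))ᶜ :=
    Finset.compl_subset_compl.2 (chain_le hA (by omega) (by omega))
  have hc2 : (A (k + 2))ᶜ ⊆ (A (k + 1))ᶜ :=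
    Finset.compl_subset_compl.2 (chain_le hA (by omega) (by omega))
  have hc1 : (A (k + 1))ᶜ ⊆ (A k)ᶜ :=
    Finset.compl_subset_compl.2 (chain_le hA (by omega) (by omega))
  have hSZ : (A (k + 2 + 1))ᶜ ∪ Z ⊆ (A (k + 2))ᶜ := Finset.union_subset hc3 (BrwF2_up hA le_rfl (by omega) hZ)
  have hT : ∀ u : FRep F w₀ A n s, u.T (k + 2) ((A (k + 2 + 1))ᶜ ∪ Z) = rpre (u.L (k + 2) (k + 2 + 1) Z) ⊤ := by
    intro u
    have h1 := FRep.T_comp' (u := u) hA (l := k + 2) (m := k + 2 + 1) (by omega) (by omega)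
      (S := (A (k + 2 + 1))ᶜ) (Finset.Subset.refl _) hZ
    rwa [FRep.T_compl (by omega)] at h1
  have key : ∀ u : FRep F w₀ A n s, u.L (k + 1) (k + 2) C = z'.1 →
      u.L k (k + 1) Z' = α.L (k + 2) (k + 2 + 1) Z →
      u.T k ((A (k + 2 + 1))ᶜ ∪ Z ∪ C ∪ Z') =
        rpre (u.L (k + 2) (k + 2 + 1) Z) ⊤ ⊓ rpre (α.L (k + 2) (k + 2 + 1) Z) ⊤ := by
    intro u h1 h2
    rw [FRep.T_comp' hA (l := k) (m := k + 1) (by omega) (by omega)
      (Finset.union_subset (hSZ.trans hc2) (BrwF2_up hA le_rfl (by omega) hC)) hZ',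
      FRep.T_comp' hA (l := k + 1) (m := k + 2) (by omega) (by omega) hSZ hC,
      hT, h1, h2, hz1.rpre, BrwF2_comap, rpre_le he (α.L_mono hF)]
  have k1 := key α hCα hZα
  have k2 := key (v (k + 2)) (by rw [hp.left (by omega) (by omega) (by omega) hC, hCα])
    (by rw [hp.left (by omega) (by omega) (by omega) hZ', hZα])
  have hS : (A (k + 2 + 1))ᶜ ∪ Z ∪ C ∪ Z' ⊆ (A k)ᶜ := Finset.union_subset (Finset.union_subset
    ((hSZ.trans hc2).trans hc1) (BrwF2_up hA (by omega) (by omega) hC)) (BrwF2_up hA le_rfl (by omega) hZ')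
  have d1 := FRep.finrank_T' (u := α) (v := v (k + 2)) (l := k) (by omega) hS
  have d2 := FRep.finrank_T' (u := α) (v := v (k + 2)) (l := k + 2) (by omega) hSZ
  rw [k1, k2, inf_idem] at d1
  rw [hT, hT] at d2
  have h3 : rpre ((v (k + 2)).L (k + 2) (k + 2 + 1) Z) ⊤ ⊓ rpre (α.L (k + 2) (k + 2 + 1) Z) ⊤ =
      rpre (α.L (k + 2) (k + 2 + 1) Z) ⊤ :=
    Submodule.eq_of_le_of_finrank_eq inf_le_right d1.symm
  exact (Submodule.eq_of_le_of_finrank_eq (inf_eq_right.1 h3) d2).symm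

/-- subspaces that are traces from the left and from the right -/
def Seen {F : Type} [Field F] {s : ℕ}
    (𝒯 : Set (Submodule F ((Fin s → F) × (Fin s → F)) × Submodule F ((Fin s → F) × (Fin s → F))))
    (W : Submodule F (Fin s → F)) : Prop :=
  (∃ z ∈ 𝒯, rimg z.1 ⊥ = W ∨ rimg z.1 ⊤ = W) ∧ ∃ z ∈ 𝒯, rpre z.1 ⊥ = W ∨ rpre z.1 ⊤ = W

/-- Rule 3. Word: a copy of the left letter of `W` in block `i - 2` (with `S = ∅` or `S = A (i - 2)`
to the left), a copy of the inverse letter of `F'` in block `i - 1`, `F'` in block `i`, `Y (i + 1)`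
in block `i + 1`, a copy of the right letter `z'` of `W` in block `i + 2` (with `S' = ∅` or
`S' = (A (i + 3))ᶜ` to the right). At the cut `i + 2` the dimension of
(left trace ⊓ right trace) is the same for all framed representations (`FRep.compat`). For `α`: the
left trace is `W`, the right trace is `W`. For `v (i + 1)`: the left trace is `W`, the right trace is
`W'` (from `z'.2`), of the same dimension (`finrank_T'`), so `W' = W`. For `v i`: the left trace is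
`e' (e⁻¹ W)`, the right trace `W' = W`. So `e' (e⁻¹ W) = W`. -/
theorem Pat3.rule_fix [Finite F] (hL : Lnk F w₀ A n s) (hp : Pat3 Y α γ v 𝒯) {i : ℕ}
    (hi : 2 ≤ i) (hi' : i + 3 ≤ n) {F' : Finset E} (hF : F' ⊆ A (i + 1) \ A i)
    {e e' : (Fin s → F) ≃ₗ[F] (Fin s → F)} (h : RIso (α.L i (i + 1) F') e)
    (h' : RIso ((v i).L i (i + 1) F') e') {W : Submodule F (Fin s → F)} (hW : Seen 𝒯 W) :
    W.map ((e.symm.trans e' : (Fin s → F) ≃ₗ[F] (Fin s → F)) : (Fin s → F) →ₗ[F] (Fin s → F)) =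
      W := by
  obtain ⟨k, rfl⟩ : ∃ k, i = k + 2 := ⟨i - 2, by omega⟩
  have hA : ∀ l, l < n → A l ⊆ A (l + 1) := fun l hl => (hL.mono l hl).subset
  obtain ⟨⟨z₁, hz₁, hzW₁⟩, z₂, hz₂, hzW₂⟩ := hW
  obtain ⟨e₂, -, z', hz', hz1, -⟩ := hp.inv hL (by omega) (hp.mem (by omega) (by omega) hF) h
  obtain ⟨X₁, hX₁, hX₁α, -⟩ := hp.copy (l := k) (m := k + 1) (by omega) (by omega) hz₁
  obtain ⟨C, hC, hCα, -⟩ := hp.copy (l := k + 1) (m := k + 2) (by omega) (by omega) hz'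
  obtain ⟨X₂, hX₂, hX₂α, hX₂γ⟩ := hp.copy (l := k + 4) (m := k + 5) (by omega) (by omega) hz₂
  have hY : Y (k + 3) ⊆ A (k + 3 + 1) \ A (k + 3) := (hp.Ytb (k + 3) (by omega)).sub
  -- the left side
  obtain ⟨S, hS, hSW⟩ : ∃ S, S ⊆ A k ∧ ∀ u : FRep F w₀ A n s, u.L k (k + 1) X₁ = z₁.1 → u.T (k + 1) (S ∪ X₁) = W := by
    rcases hzW₁ with h1 | h1
    · refine ⟨∅, Finset.empty_subset _, fun u hu => ?_⟩
      rw [FRep.T_comp hA (l := k) (m := k + 1) (by omega) (by omega) (Finset.empty_subset _) hX₁,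
        FRep.T_empty (by omega), hu, h1]
    · refine ⟨A k, Finset.Subset.refl _, fun u hu => ?_⟩
      rw [FRep.T_comp hA (l := k) (m := k + 1) (by omega) (by omega) (Finset.Subset.refl _) hX₁,
        FRep.T_all (by omega), hu, h1]
  -- the right side
  obtain ⟨S', hS', W', hSα, hSγ⟩ : ∃ S', S' ⊆ (A (k + 5))ᶜ ∧ ∃ W' : Submodule F (Fin s → F),
      (α.T (k + 4) (S' ∪ X₂) = W) ∧
      ∀ u : FRep F w₀ A n s, u.L (k + 4) (k + 5) X₂ = z₂.2 → u.T (k + 4) (S' ∪ X₂) = W' := by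
    rcases hzW₂ with h1 | h1
    · refine ⟨∅, Finset.empty_subset _, rpre z₂.2 ⊥, ?_, fun u hu => ?_⟩
      · rw [FRep.T_comp' hA (l := k + 4) (m := k + 5) (by omega) (by omega) (Finset.empty_subset _) hX₂,
          FRep.T_empty (by omega), hX₂α, h1]
      · rw [FRep.T_comp' hA (l := k + 4) (m := k + 5) (by omega) (by omega) (Finset.empty_subset _) hX₂,
          FRep.T_empty (by omega), hu]
    · refine ⟨(A (k + 5))ᶜ, Finset.Subset.refl _, rpre z₂.2 ⊤, ?_, fun u hu => ?_⟩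
      · rw [FRep.T_comp' hA (l := k + 4) (m := k + 5) (by omega) (by omega) (Finset.Subset.refl _) hX₂,
          FRep.T_compl (by omega), hX₂α, h1]
      · rw [FRep.T_comp' hA (l := k + 4) (m := k + 5) (by omega) (by omega) (Finset.Subset.refl _) hX₂,
          FRep.T_compl (by omega), hu]
  have hl1 : S ∪ X₁ ⊆ A (k + 1) := Finset.union_subset (hS.trans (chain_le hA (by omega) (by omega)))
    (BrwF2_low hA le_rfl (by omega) hX₁)
  have hl2 : S ∪ X₁ ∪ C ⊆ A (k + 2) := Finset.union_subset (hl1.trans (chain_le hA (by omega) (by omega)))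
    (BrwF2_low hA le_rfl (by omega) hC)
  have hl3 : S ∪ X₁ ∪ C ∪ F' ⊆ A (k + 3) := Finset.union_subset (hl2.trans (chain_le hA (by omega) (by omega)))
    (BrwF2_low hA le_rfl (by omega) hF)
  have hl4 : S ∪ X₁ ∪ C ∪ F' ∪ Y (k + 3) ⊆ A (k + 4) := Finset.union_subset
    (hl3.trans (chain_le hA (by omega) (by omega))) (BrwF2_low hA le_rfl (by omega) hY)
  have hr : S' ∪ X₂ ⊆ (A (k + 4))ᶜ := Finset.union_subset
    (hS'.trans (Finset.compl_subset_compl.2 (chain_le hA (by omega) (by omega)))) (BrwF2_up hA le_rfl (by omega) hX₂)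
  -- the left trace at the cut `k + 4`
  have left : ∀ (u : FRep F w₀ A n s) (g : (Fin s → F) ≃ₗ[F] (Fin s → F)), u.L k (k + 1) X₁ = z₁.1 →
      u.L (k + 1) (k + 2) C = z'.1 → RIso (u.L (k + 2) (k + 3) F') g →
      u.L (k + 3) (k + 3 + 1) (Y (k + 3)) = rid F (Fin s → F) →
      u.T (k + 4) (S ∪ X₁ ∪ C ∪ F' ∪ Y (k + 3)) =
        W.map ((e.symm.trans g : (Fin s → F) ≃ₗ[F] (Fin s → F)) : (Fin s → F) →ₗ[F] (Fin s → F)) := by
    intro u g h1 h2 h3 h4
    rw [FRep.T_comp hA (l := k + 3) (m := k + 3 + 1) (by omega) (by omega) hl3 hY, h4, rimg_rid,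
      FRep.T_comp hA (l := k + 2) (m := k + 3) (by omega) (by omega) hl2 hF, h3.rimg,
      FRep.T_comp hA (l := k + 1) (m := k + 2) (by omega) (by omega) hl1 hC, h2, hz1.rimg, hSW u h1, ← Submodule.map_comp]
    rfl
  have L1 := left α e hX₁α hCα h (hp.Yα _ (by omega))
  have L2 := left (v (k + 3)) e (by rw [hp.left (by omega) (by omega) (by omega) hX₁, hX₁α])
    (by rw [hp.left (by omega) (by omega) (by omega) hC, hCα])
    (by rw [hp.left (by omega) (by omega) le_rfl hF]; exact h) (hp.Yv _ (by omega) _ (by omega))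
  have L3 := left (v (k + 2)) e' (by rw [hp.left (by omega) (by omega) (by omega) hX₁, hX₁α])
    (by rw [hp.left (by omega) (by omega) le_rfl hC, hCα]) h' (hp.Yv _ (by omega) _ (by omega))
  have hid : W.map ((e.symm.trans e : (Fin s → F) ≃ₗ[F] (Fin s → F)) : (Fin s → F) →ₗ[F] (Fin s → F)) = W := by
    rw [LinearEquiv.symm_trans_self]
    exact Submodule.map_id W
  rw [hid] at L1 L2
  have R2 := hSγ (v (k + 3)) (by rw [hp.right (by omega) (by omega) (by omega) (by omega) hX₂, hX₂γ])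
  have R3 := hSγ (v (k + 2)) (by rw [hp.right (by omega) (by omega) (by omega) (by omega) hX₂, hX₂γ])
  have c1 := FRep.compat (u := α) (l := k + 4) (by omega) hl4 hr
  have c2 := FRep.compat (u := v (k + 3)) (l := k + 4) (by omega) hl4 hr
  have c3 := FRep.compat (u := v (k + 2)) (l := k + 4) (by omega) hl4 hr
  have c4 := FRep.finrank_T' (u := α) (v := v (k + 3)) (l := k + 4) (by omega) hr
  rw [L1, hSα, inf_idem] at c1
  rw [L2, R2] at c2
  rw [L3, R3] at c3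
  rw [hSα, R2] at c4
  have h1 : W ⊓ W' = W := Submodule.eq_of_le_of_finrank_eq inf_le_left (by omega)
  have h2 : W = W' := Submodule.eq_of_le_of_finrank_eq (inf_eq_left.1 h1) c4
  rw [← h2] at c3
  have h3 : W.map ((e.symm.trans e' : (Fin s → F) ≃ₗ[F] (Fin s → F)) : (Fin s → F) →ₗ[F] (Fin s → F)) ⊓ W = W :=
    Submodule.eq_of_le_of_finrank_eq inf_le_right (by omega)
  exact (Submodule.eq_of_le_of_finrank_eq (inf_eq_right.1 h3) (LinearEquiv.finrank_map_eq _ _).symm).symm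

end Pool.MP_4929df_co.H92
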