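import Pool.Agent.W_4929df_h92.ChnDefs

/-!
Coordinates in one block (proofs row 594, section 2).
-/

set_option autoImplicit false

namespace Pool.MP_4929df_co.H92

open Submodule

variable {F : Type} [Field F] {E : Type} [Fintype E] [DecidableEq E] {V : Type}
  [AddCommGroup V] [Module F V] {k : ℕ} {w : E → V}

omit [Fintype E] in
private theorem ChnQ2_mem {S : Finset E} {v : V} (h : v ∈ Sp F w S) :
    ∃ b : E → F, v = ∑ y ∈ S, b y • w y := by
  unfold Sp at h
  refine Submodule.span_induction (p := fun v _ => ∃ b : E → F, v = ∑ y ∈ S, b y • w y) ?_ ?_ ?_ ?_ h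
  · rintro _ ⟨y, hy, rfl⟩
    refine ⟨fun z => if z = y then 1 else 0, ?_⟩
    rw [Finset.sum_eq_single y]
    · simp
    · intro z _ hz
      simp [hz]
    · intro hn
      exact absurd (Finset.mem_coe.1 hy) hn
  · exact ⟨0, by simp⟩
  · rintro u v _ _ ⟨b, hb⟩ ⟨b', hb'⟩
    refine ⟨b + b', ?_⟩
    rw [hb, hb', ← Finset.sum_add_distrib]
    exact Finset.sum_congr rfl fun y _ => by rw [Pi.add_apply, add_smul]
  · rintro t v _ ⟨b, hb⟩
    refine ⟨t • b, ?_⟩
    rw [hb, Finset.smul_sum]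
    exact Finset.sum_congr rfl fun y _ => by rw [Pi.smul_apply, smul_eq_mul, mul_smul]

omit [Fintype E] [DecidableEq E] in
private theorem ChnQ2_card (S : Finset E) : Module.finrank F (Sp F w S) ≤ S.card := by
  classical
  unfold Sp
  have h1 := finrank_span_le_card (R := F) (w '' (S : Set E))
  refine h1.trans ?_
  rw [Set.toFinset_image, Finset.toFinset_coe]
  exact Finset.card_image_le

omit [Fintype E] in
/-- The vectors of `Y` are independent modulo `Sp A`. -/
private theorem ChnQ2_ind [FiniteDimensional F V] {A Y : Finset E}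
    (h : Module.finrank F (Sp F w (A ∪ Y)) = Module.finrank F (Sp F w A) + Y.card)
    (b : E → F) (hb : ∑ y ∈ Y, b y • w y ∈ Sp F w A) : ∀ y ∈ Y, b y = 0 := by
  intro y hy
  by_contra hne
  have h1 : w y ∈ Sp F w (A ∪ Y.erase y) := by
    rw [← Finset.sum_erase_add Y _ hy] at hb
    have h2 : ∑ z ∈ Y.erase y, b z • w z ∈ Sp F w (Y.erase y) :=
      sum_mem fun z hz => smul_mem _ _ (mem_Sp hz)
    have h3 : b y • w y ∈ Sp F w (A ∪ Y.erase y) := by
      rw [Sp_union]
      have e : b y • w y = (∑ z ∈ Y.erase y, b z • w z + b y • w y) - ∑ z ∈ Y.erase y, b z • w z := by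
        abel
      rw [e]
      exact sub_mem (mem_sup_left hb) (mem_sup_right h2)
    exact (Submodule.smul_mem_iff _ hne).1 h3
  have h4 : Sp F w (A ∪ Y) ≤ Sp F w (A ∪ Y.erase y) := by
    rw [Sp_le]
    intro z hz
    by_cases hzy : z = y
    · rw [hzy]
      exact h1
    · refine mem_Sp ?_
      rcases Finset.mem_union.1 hz with h5 | h5
      · exact Finset.mem_union_left _ h5
      · exact Finset.mem_union_right _ (Finset.mem_erase.2 ⟨hzy, h5⟩)
  have h5 := Submodule.finrank_mono h4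
  have h6 : Module.finrank F (Sp F w (A ∪ Y.erase y)) ≤
      Module.finrank F (Sp F w A) + Module.finrank F (Sp F w (Y.erase y)) := by
    rw [Sp_union]
    exact Submodule.finrank_add_le_finrank_add_finrank _ _
  have h7 := ChnQ2_card (F := F) (w := w) (Y.erase y)
  rw [Finset.card_erase_of_mem hy] at h7
  have h8 : 0 < Y.card := Finset.card_pos.2 ⟨y, hy⟩
  omega

/-- The vectors of `Y` are independent modulo `Sp A`. -/
theorem ind_of_rank [FiniteDimensional F V] {A Y : Finset E}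
    (h : Module.finrank F (Sp F w (A ∪ Y)) = Module.finrank F (Sp F w A) + Y.card)
    (b : E → F) (hb : ∑ y ∈ Y, b y • w y ∈ Sp F w A) : ∀ y ∈ Y, b y = 0 :=
  ChnQ2_ind h b hb

/-- One step. `Sp (A ∪ Y) = Sp B` and `Sp (Bᶜ ∪ Y) = Sp Aᶜ` by dimensions. For the standard basis
vector `e_i` of `Fin k → F` the vector `th e_i ∈ Sp Aᶜ` is a vector of `Sp Bᶜ` plus a combination
of the `w y`; let `ph y` be the functional with these values and
`th' g = th g - ∑ ph y g • w y`. It is injective by `ind_of_rank` for `A`, its range is in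
`Sp B ⊓ Sp Bᶜ`, and equal to it by dimensions (`finrank = k`). -/
theorem chrep_step [FiniteDimensional F V] {A B Y : Finset E} (hAB : A ⊆ B) (hY : Y ⊆ B \ A)
    (hA : Module.finrank F (Sp F w A) + Module.finrank F (Sp F w Aᶜ) =
      Module.finrank F (Sp F w Finset.univ) + k)
    (hB : Module.finrank F (Sp F w B) + Module.finrank F (Sp F w Bᶜ) =
      Module.finrank F (Sp F w Finset.univ) + k)
    (h1 : Module.finrank F (Sp F w (A ∪ Y)) = Module.finrank F (Sp F w A) + Y.card)
    (h2 : Module.finrank F (Sp F w B) = Module.finrank F (Sp F w A) + Y.card)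
    (h3 : Module.finrank F (Sp F w (Bᶜ ∪ Y)) = Module.finrank F (Sp F w Bᶜ) + Y.card)
    (th : (Fin k → F) →ₗ[F] V) (hinj : Function.Injective th)
    (hrng : LinearMap.range th = Sp F w A ⊓ Sp F w Aᶜ) :
    ∃ (ph : E → (Fin k → F) →ₗ[F] F) (th' : (Fin k → F) →ₗ[F] V),
      (∀ g, th' g = th g - ∑ y ∈ Y, ph y g • w y) ∧ Function.Injective th' ∧
        LinearMap.range th' = Sp F w B ⊓ Sp F w Bᶜ := by
  have hYB : ∀ y ∈ Y, y ∈ B ∧ y ∉ A := fun y hy => Finset.mem_sdiff.1 (hY hy)
  have hmA : ∀ g, th g ∈ Sp F w A := fun g => by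
    have : th g ∈ LinearMap.range th := ⟨g, rfl⟩
    rw [hrng] at this
    exact this.1
  have hmAc : ∀ g, th g ∈ Sp F w Aᶜ := fun g => by
    have : th g ∈ LinearMap.range th := ⟨g, rfl⟩
    rw [hrng] at this
    exact this.2
  have hsub : Bᶜ ∪ Y ⊆ Aᶜ := by
    intro z hz
    rw [Finset.mem_compl]
    rcases Finset.mem_union.1 hz with h | h
    · exact fun hzA => (Finset.mem_compl.1 h) (hAB hzA)
    · exact (hYB z h).2
  have heq : Sp F w (Bᶜ ∪ Y) = Sp F w Aᶜ :=
    Submodule.eq_of_le_of_finrank_eq (Sp_mono hsub) (by omega)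
  -- coefficients
  have hex : ∀ i : Fin k, ∃ b : E → F, th (Pi.single i 1) - ∑ y ∈ Y, b y • w y ∈ Sp F w Bᶜ := by
    intro i
    have h4 := hmAc (Pi.single i 1)
    rw [← heq, Sp_union] at h4
    obtain ⟨u, hu, u', hu', he⟩ := Submodule.mem_sup.1 h4
    obtain ⟨b, hb⟩ := ChnQ2_mem hu'
    refine ⟨b, ?_⟩
    rw [← hb, ← he, add_sub_cancel_right]
    exact hu
  choose b hb using hex
  obtain ⟨ph, hph⟩ : ∃ ph : E → (Fin k → F) →ₗ[F] F, ph = fun y =>
      ∑ i, (b i y) • (LinearMap.proj i : (Fin k → F) →ₗ[F] F) := ⟨_, rfl⟩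
  have hph1 : ∀ y i, ph y (Pi.single i 1) = b i y := by
    intro y i
    rw [hph]
    simp only [LinearMap.sum_apply, LinearMap.smul_apply, LinearMap.proj_apply, smul_eq_mul]
    rw [Finset.sum_eq_single i]
    · simp
    · intro j _ hj
      rw [Pi.single_eq_of_ne hj, mul_zero]
    · intro hn
      exact absurd (Finset.mem_univ i) hn
  have hth : ∀ g, (th - ∑ y ∈ Y, (ph y).smulRight (w y)) g = th g - ∑ y ∈ Y, ph y g • w y := by
    intro g
    simp [LinearMap.sum_apply]
  have hinj' : Function.Injective (th - ∑ y ∈ Y, (ph y).smulRight (w y)) := by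
    rw [injective_iff_map_eq_zero]
    intro g hg
    rw [hth, sub_eq_zero] at hg
    have h4 : ∑ y ∈ Y, ph y g • w y ∈ Sp F w A := by
      rw [← hg]
      exact hmA g
    have h5 := ChnQ2_ind h1 (fun y => ph y g) h4
    have h6 : ∑ y ∈ Y, ph y g • w y = 0 := by
      refine Finset.sum_eq_zero fun y hy => ?_
      have h7 : ph y g = 0 := h5 y hy
      rw [h7, zero_smul]
    rw [h6] at hg
    exact hinj (by rw [hg, map_zero])
  refine ⟨ph, th - ∑ y ∈ Y, (ph y).smulRight (w y), hth, hinj', ?_⟩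
  refine Submodule.eq_of_le_of_finrank_eq ?_ ?_
  · rintro _ ⟨g, rfl⟩
    refine ⟨?_, ?_⟩
    · rw [hth]
      refine sub_mem (Sp_mono hAB (hmA g)) (sum_mem fun y hy => smul_mem _ _ (mem_Sp (hYB y hy).1))
    · have h4 : ∀ i : Fin k, (Pi.single i 1 : Fin k → F) ∈
          (Sp F w Bᶜ).comap (th - ∑ y ∈ Y, (ph y).smulRight (w y)) := by
        intro i
        rw [Submodule.mem_comap, hth]
        have h5 := hb i
        have e : ∑ y ∈ Y, ph y (Pi.single i 1) • w y = ∑ y ∈ Y, b i y • w y :=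
          Finset.sum_congr rfl fun y _ => by rw [hph1]
        rw [e]
        exact h5
      have h5 : g ∈ (Sp F w Bᶜ).comap (th - ∑ y ∈ Y, (ph y).smulRight (w y)) := by
        have e : g = ∑ i, g i • (Pi.single i 1 : Fin k → F) := by
          ext j
          simp [Finset.sum_apply, Pi.single_apply]
        rw [e]
        exact sum_mem fun i _ => smul_mem _ _ (h4 i)
      exact h5
  · have h4 := LinearMap.finrank_range_of_inj hinj'
    rw [Module.finrank_fin_fun] at h4
    have h5 := Submodule.finrank_sup_add_finrank_inf_eq (Sp F w B) (Sp F w Bᶜ)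
    rw [← Sp_union, Finset.union_compl] at h5
    omega

/-- `w x ∈ Sp B = Sp (A ∪ Y)`, so `w x` minus a combination of the `w y` is in `Sp A`, and in
`Sp Aᶜ`. -/
theorem chrep_xel [FiniteDimensional F V] {A B Y : Finset E} (hAB : A ⊆ B) (hY : Y ⊆ B \ A)
    (h1 : Module.finrank F (Sp F w (A ∪ Y)) = Module.finrank F (Sp F w A) + Y.card)
    (h2 : Module.finrank F (Sp F w B) = Module.finrank F (Sp F w A) + Y.card)
    (th : (Fin k → F) →ₗ[F] V) (hrng : LinearMap.range th = Sp F w A ⊓ Sp F w Aᶜ)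
    {x : E} (hx : x ∈ B \ A) :
    ∃ (a : E → F) (p : Fin k → F), w x = ∑ y ∈ Y, a y • w y + th p := by
  have hYB : ∀ y ∈ Y, y ∈ B ∧ y ∉ A := fun y hy => Finset.mem_sdiff.1 (hY hy)
  obtain ⟨hxB, hxA⟩ := Finset.mem_sdiff.1 hx
  have hsub : A ∪ Y ⊆ B := Finset.union_subset hAB fun y hy => (hYB y hy).1
  have heq : Sp F w (A ∪ Y) = Sp F w B :=
    Submodule.eq_of_le_of_finrank_eq (Sp_mono hsub) (by omega)
  have h3 : w x ∈ Sp F w B := mem_Sp hxB
  rw [← heq, Sp_union] at h3
  obtain ⟨u, hu, u', hu', he⟩ := Submodule.mem_sup.1 h3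
  obtain ⟨b, hb⟩ := ChnQ2_mem hu'
  have h4 : u ∈ LinearMap.range th := by
    rw [hrng]
    refine ⟨hu, ?_⟩
    have e : u = w x - u' := by rw [← he, add_sub_cancel_right]
    rw [e, hb]
    exact sub_mem (mem_Sp (Finset.mem_compl.2 hxA))
      (sum_mem fun y hy => smul_mem _ _ (mem_Sp (Finset.mem_compl.2 (hYB y hy).2)))
  obtain ⟨p, hp⟩ := h4
  refine ⟨b, p, ?_⟩
  rw [hp, ← hb, ← he, add_comm]

end Pool.MP_4929df_co.H92
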