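import Pool.Agent.W_4929df_h92.BrwF2
import Pool.Agent.W_4929df_h92.ChnQ2

/-!
Coordinates of a block relative to a transporting base.
-/

set_option autoImplicit false

namespace Pool.MP_4929df_co.H92

open Submodule

/-- coordinates of the block between the cuts `l` and `l + 1`, relative to the base `W` -/
structure Blk {F : Type} [Field F] {E : Type} [Fintype E] [DecidableEq E] {V : Type}
    [AddCommGroup V] [Module F V] {w₀ : E → V} {A : ℕ → Finset E} {n s : ℕ}
    (u : FRep F w₀ A n s) (l : ℕ) (W : Finset E) (κ : (Fin s → F) ≃ₗ[F] (Fin s → F))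
    (p : E → Fin s → F) (ph : E → (Fin s → F) →ₗ[F] F) (a : E → E → F) : Prop where
  tb : TB F w₀ A l (l + 1) W
  step : ∀ g, u.th (l + 1) (κ g) = u.th l g - ∑ y ∈ W, ph y g • u.w y
  xel : ∀ x ∈ (A (l + 1) \ A l) \ W, u.w x = ∑ y ∈ W, a x y • u.w y + u.th l (p x)

variable {F : Type} [Field F] {E : Type} [Fintype E] [DecidableEq E] {V : Type}
  [AddCommGroup V] [Module F V] [FiniteDimensional F V] {w₀ : E → V} {A : ℕ → Finset E} {n s : ℕ}
  {u u' : FRep F w₀ A n s} {l m : ℕ} {W W' Z : Finset E}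
  {κ κ' : (Fin s → F) ≃ₗ[F] (Fin s → F)} {p p' : E → Fin s → F}
  {ph ph' : E → (Fin s → F) →ₗ[F] F} {a a' : E → E → F}

omit [Fintype E] in
/-- elements of a span are combinations -/
private theorem BrwG1_mem {w : E → V} {S : Finset E} {v : V} (h : v ∈ Sp F w S) :
    ∃ b : E → F, v = ∑ y ∈ S, b y • w y := by
  unfold Sp at h
  refine Submodule.span_induction (p := fun v _ => ∃ b : E → F, v = ∑ y ∈ S, b y • w y) ?_ ?_ ?_ ?_ h
  · rintro _ ⟨y, hy, rfl⟩
    refine ⟨fun z => if z = y then 1 else 0, ?_⟩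
    rw [Finset.sum_eq_single y]
    · simp
    · intro z _ hz
      simp [hz]
    · intro hn
      exact absurd (Finset.mem_coe.1 hy) hn
  · exact ⟨0, by simp⟩
  · rintro u v _ _ ⟨b, hb⟩ ⟨b', hb'⟩
    refine ⟨b + b', ?_⟩
    rw [hb, hb', ← Finset.sum_add_distrib]
    exact Finset.sum_congr rfl fun y _ => by rw [Pi.add_apply, add_smul]
  · rintro t v _ ⟨b, hb⟩
    refine ⟨t • b, ?_⟩
    rw [hb, Finset.smul_sum]
    exact Finset.sum_congr rfl fun y _ => by rw [Pi.smul_apply, smul_eq_mul, mul_smul]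

omit [FiniteDimensional F V] in
private theorem BrwG1_rk (u : FRep F w₀ A n s) (S : Finset E) :
    Module.finrank F (Sp F u.w S) = rk F w₀ ⊥ S := by
  unfold rk
  rw [sup_bot_eq, u.same S]

omit [FiniteDimensional F V] in
private theorem BrwG1_in (u : FRep F w₀ A n s) {i : ℕ} (hi : i ≤ n) (g : Fin s → F) :
    u.th i g ∈ Sp F u.w (A i) ∧ u.th i g ∈ Sp F u.w (A i)ᶜ := by
  have h3 : u.th i g ∈ LinearMap.range (u.th i) := ⟨g, rfl⟩
  rw [u.rng i hi] at h3
  exact h3

omit [FiniteDimensional F V] in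
private theorem BrwG1_comb (u : FRep F w₀ A n s) {S T : Finset E} (hS : S ⊆ T) (b : E → F) :
    ∑ y ∈ S, b y • u.w y ∈ Sp F u.w T :=
  sum_mem fun _ hy => smul_mem _ _ (mem_Sp (hS hy))

/-- independence modulo the left side: `finrank (Sp F u.w (A l) ⊔ Sp F u.w W)` is
`finrank (Sp F u.w (A l)) + W.card` -/
theorem TB.ind (h : TB F w₀ A l m W) (u : FRep F w₀ A n s) (b : E → F)
    (hb : ∑ y ∈ W, b y • u.w y ∈ Sp F u.w (A l)) : ∀ y ∈ W, b y = 0 := by
  refine ind_of_rank ?_ b hb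
  rw [BrwG1_rk, BrwG1_rk]
  exact h.indL

/-- independence modulo the right side -/
theorem TB.ind' (h : TB F w₀ A l m W) (u : FRep F w₀ A n s) (b : E → F)
    (hb : ∑ y ∈ W, b y • u.w y ∈ Sp F u.w (A m)ᶜ) : ∀ y ∈ W, b y = 0 := by
  refine ind_of_rank ?_ b hb
  rw [BrwG1_rk, BrwG1_rk, Finset.union_comm, h.indR, add_comm]

/-- `κ` is the isomorphism with graph `u.L l (l + 1) W` (`TB.iso`); for `x` in the block `u.w x` is in
`Sp (A (l + 1)) = Sp (A l) ⊔ Sp W` (`TB.span`), and the part in `Sp (A l)` is also in `Sp (A l)ᶜ`, so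
it is `u.th l (p x)` -/
theorem exists_blk (hL : Lnk F w₀ A n s) (hl : l < n) (h : TB F w₀ A l (l + 1) W)
    (u : FRep F w₀ A n s) : ∃ κ p ph a, Blk u l W κ p ph a := by
  have hA : A l ⊆ A (l + 1) := (hL.mono l hl).subset
  obtain ⟨κ, hκ⟩ := h.iso hL (Nat.le_succ l) hl u
  have h1 : Module.finrank F (Sp F u.w (A l ∪ W)) = Module.finrank F (Sp F u.w (A l)) + W.card := by
    rw [BrwG1_rk, BrwG1_rk]
    exact h.indL
  have h2 : Module.finrank F (Sp F u.w (A (l + 1))) =
      Module.finrank F (Sp F u.w (A l)) + W.card := by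
    rw [BrwG1_rk, BrwG1_rk, ← h.span]
    exact h.indL
  have hex0 : ∀ x : E, ∃ (a : E → F) (p : Fin s → F), x ∈ A (l + 1) \ A l →
      u.w x = ∑ y ∈ W, a y • u.w y + u.th l p := by
    intro x
    by_cases hx : x ∈ A (l + 1) \ A l
    · obtain ⟨a, p, hap⟩ := chrep_xel hA h.sub h1 h2 (u.th l) (u.rng l hl.le) hx
      exact ⟨a, p, fun _ => hap⟩
    · exact ⟨0, 0, fun h => absurd h hx⟩
  choose a p hap using hex0
  have hex : ∀ i : Fin s, ∃ b : E → F,
      u.th (l + 1) (κ (Pi.single i 1)) - u.th l (Pi.single i 1) = ∑ y ∈ W, b y • u.w y := by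
    intro i
    have h4 : (Pi.single i (1 : F), κ (Pi.single i 1)) ∈ u.L l (l + 1) W := (hκ _ _).2 rfl
    rw [FRep.mem_L] at h4
    exact BrwG1_mem h4
  choose b hb using hex
  obtain ⟨ph, hph⟩ : ∃ ph : E → (Fin s → F) →ₗ[F] F, ph = fun y =>
      ∑ i, (-(b i y)) • (LinearMap.proj i : (Fin s → F) →ₗ[F] F) := ⟨_, rfl⟩
  have hph1 : ∀ y i, ph y (Pi.single i 1) = -(b i y) := by
    intro y i
    rw [hph]
    simp only [LinearMap.sum_apply, LinearMap.smul_apply, LinearMap.proj_apply, smul_eq_mul]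
    rw [Finset.sum_eq_single i]
    · simp
    · intro j _ hj
      rw [Pi.single_eq_of_ne hj, mul_zero]
    · intro hn
      exact absurd (Finset.mem_univ i) hn
  have hlin : (u.th (l + 1)).comp (κ : (Fin s → F) →ₗ[F] (Fin s → F)) =
      u.th l - ∑ y ∈ W, (ph y).smulRight (u.w y) := by
    refine (Pi.basisFun F (Fin s)).ext fun i => ?_
    rw [Pi.basisFun_apply]
    simp only [LinearMap.comp_apply, LinearEquiv.coe_coe, LinearMap.sub_apply, LinearMap.sum_apply,
      LinearMap.smulRight_apply, hph1, neg_smul, Finset.sum_neg_distrib, sub_neg_eq_add]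
    rw [← hb i]
    abel
  refine ⟨κ, p, ph, a, h, fun g => ?_, fun x hx => hap x (Finset.mem_sdiff.1 hx).1⟩
  have h5 := LinearMap.congr_fun hlin g
  simpa [LinearMap.sum_apply] using h5

theorem Blk.riso (hl : l < n) (h : Blk u l W κ p ph a) : RIso (u.L l (l + 1) W) κ := by
  intro g g'
  rw [FRep.mem_L]
  constructor
  · intro h1
    have h2 : u.th (l + 1) (g' - κ g) ∈ Sp F u.w W := by
      have e : u.th (l + 1) (g' - κ g) =
          (u.th (l + 1) g' - u.th l g) + ∑ y ∈ W, ph y g • u.w y := by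
        rw [map_sub, h.step g]
        abel
      rw [e]
      exact add_mem h1 (BrwG1_comb u subset_rfl _)
    obtain ⟨b, hb⟩ := BrwG1_mem h2
    have h3 := (BrwG1_in u (Nat.succ_le_of_lt hl) (g' - κ g)).2
    rw [hb] at h3
    have h4 := h.tb.ind' u b h3
    have h5 : u.th (l + 1) (g' - κ g) = 0 := by
      rw [hb]
      exact Finset.sum_eq_zero fun y hy => by rw [h4 y hy, zero_smul]
    have h6 : g' - κ g = 0 := u.inj (l + 1) hl (by rw [h5, map_zero])
    exact sub_eq_zero.1 h6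
  · rintro rfl
    rw [h.step g, sub_sub_cancel_left]
    exact neg_mem (BrwG1_comb u subset_rfl _)

/-- The label formula, with `h' = κ.symm h`. An element of `Sp u.w Z` is
`∑ x ∈ Z \ W, b x • u.w x + ∑ y ∈ Z ∩ W, c y • u.w y`; insert `xel` and `step` and compare the
coefficients of `u.w y`, `y ∈ W` (`TB.ind`), and the parts in `Sp (A l)` (`u.inj l`). -/
theorem Blk.mem_L (hl : l < n) (h : Blk u l W κ p ph a) (hZ : Z ⊆ A (l + 1) \ A l)
    {g g' : Fin s → F} :
    (g, κ g') ∈ u.L l (l + 1) Z ↔ ∃ b : E → F, g = g' - ∑ x ∈ Z \ W, b x • p x ∧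
      ∀ y ∈ W \ Z, ph y g' + ∑ x ∈ Z \ W, b x * a x y = 0 := by
  have key : ∀ b : E → F, ∑ x ∈ Z \ W, b x • u.w x =
      ∑ y ∈ W, (∑ x ∈ Z \ W, b x * a x y) • u.w y + u.th l (∑ x ∈ Z \ W, b x • p x) := by
    intro b
    have h1 : ∀ x ∈ Z \ W, b x • u.w x =
        ∑ y ∈ W, (b x * a x y) • u.w y + b x • u.th l (p x) := by
      intro x hx
      rw [Finset.mem_sdiff] at hx
      rw [h.xel x (Finset.mem_sdiff.2 ⟨hZ hx.1, hx.2⟩), smul_add, Finset.smul_sum]
      congr 1
      exact Finset.sum_congr rfl fun y _ => by rw [smul_smul]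
    rw [Finset.sum_congr rfl h1, Finset.sum_add_distrib, Finset.sum_comm, map_sum]
    congr 1
    · exact Finset.sum_congr rfl fun y _ => by rw [Finset.sum_smul]
    · exact Finset.sum_congr rfl fun x _ => by rw [map_smul]
  rw [FRep.mem_L, h.step g']
  constructor
  · intro h1
    obtain ⟨b, hb⟩ := BrwG1_mem h1
    have h2 : ∑ y ∈ Z, b y • u.w y = ∑ x ∈ Z \ W, b x • u.w x +
        ∑ y ∈ W, (if y ∈ Z then b y else 0) • u.w y := by
      have e1 : ∑ y ∈ W, (if y ∈ Z then b y else 0) • u.w y = ∑ y ∈ Z ∩ W, b y • u.w y := by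
        rw [Finset.inter_comm, ← Finset.filter_mem_eq_inter, Finset.sum_filter]
        refine Finset.sum_congr rfl fun y _ => ?_
        split_ifs
        · rfl
        · rw [zero_smul]
      rw [e1, add_comm, Finset.sum_inter_add_sum_sdiff]
    have h3 : u.th l (g' - g - ∑ x ∈ Z \ W, b x • p x) =
        ∑ y ∈ W, (ph y g' + ∑ x ∈ Z \ W, b x * a x y + if y ∈ Z then b y else 0) • u.w y := by
      have e2 : u.th l g' - u.th l g = ∑ y ∈ W, ph y g' • u.w y + ∑ y ∈ Z, b y • u.w y := by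
        rw [← hb]
        abel
      rw [map_sub, map_sub, e2, h2, key b]
      simp only [add_smul, Finset.sum_add_distrib]
      abel
    have h4 := (BrwG1_in u hl.le (g' - g - ∑ x ∈ Z \ W, b x • p x)).1
    rw [h3] at h4
    have h5 := h.tb.ind u _ h4
    have h6 : u.th l (g' - g - ∑ x ∈ Z \ W, b x • p x) = 0 := by
      rw [h3]
      exact Finset.sum_eq_zero fun y hy => by rw [h5 y hy, zero_smul]
    have h7 : g' - g - ∑ x ∈ Z \ W, b x • p x = 0 := u.inj l hl.le (by rw [h6, map_zero])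
    refine ⟨b, ?_, fun y hy => ?_⟩
    · rw [sub_eq_zero] at h7
      rw [← h7]
      abel
    · rw [Finset.mem_sdiff] at hy
      have h8 := h5 y hy.1
      rw [if_neg hy.2, add_zero] at h8
      exact h8
  · rintro ⟨b, rfl, hb⟩
    have e3 : u.th l g' - ∑ y ∈ W, ph y g' • u.w y - u.th l (g' - ∑ x ∈ Z \ W, b x • p x) =
        ∑ x ∈ Z \ W, b x • u.w x -
          ∑ y ∈ W, (ph y g' + ∑ x ∈ Z \ W, b x * a x y) • u.w y := by
      rw [map_sub, key b]
      simp only [add_smul, Finset.sum_add_distrib]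
      abel
    rw [e3]
    refine sub_mem (BrwG1_comb u Finset.sdiff_subset b) (sum_mem fun y hy => ?_)
    by_cases hyZ : y ∈ Z
    · exact smul_mem _ _ (mem_Sp hyZ)
    · rw [hb y (Finset.mem_sdiff.2 ⟨hy, hyZ⟩), zero_smul]
      exact zero_mem _

theorem Blk.mem_add (hl : l < n) (h : Blk u l W κ p ph a) {x : E}
    (hx : x ∈ (A (l + 1) \ A l) \ W) {g g' : Fin s → F} :
    (g, κ g') ∈ u.L l (l + 1) (insert x W) ↔ ∃ b : F, g = g' - b • p x := by
  have hx1 := Finset.mem_sdiff.1 hx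
  have hZ : insert x W ⊆ A (l + 1) \ A l := Finset.insert_subset hx1.1 h.tb.sub
  have e1 : insert x W \ W = {x} := by
    rw [Finset.insert_sdiff_of_notMem _ hx1.2, Finset.sdiff_self]
    rfl
  have e2 : W \ insert x W = ∅ := Finset.sdiff_eq_empty_iff_subset.2 (Finset.subset_insert x W)
  rw [h.mem_L hl hZ, e1, e2]
  simp only [Finset.sum_singleton, Finset.notMem_empty, false_imp_iff, implies_true, and_true]
  constructor
  · rintro ⟨b, hb⟩
    exact ⟨b x, hb⟩
  · rintro ⟨b, hb⟩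
    exact ⟨fun _ => b, hb⟩

theorem Blk.mem_del (hl : l < n) (h : Blk u l W κ p ph a) {y : E} (hy : y ∈ W)
    {g g' : Fin s → F} :
    (g, κ g') ∈ u.L l (l + 1) (W.erase y) ↔ g = g' ∧ ph y g' = 0 := by
  have hZ : W.erase y ⊆ A (l + 1) \ A l := (Finset.erase_subset y W).trans h.tb.sub
  have e1 : W.erase y \ W = ∅ := Finset.sdiff_eq_empty_iff_subset.2 (Finset.erase_subset y W)
  have e2 : W \ W.erase y = {y} := by
    ext z
    simp only [Finset.mem_sdiff, Finset.mem_erase, Finset.mem_singleton]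
    constructor
    · rintro ⟨h1, h2⟩
      by_contra h3
      exact h2 ⟨h3, h1⟩
    · rintro rfl
      exact ⟨hy, fun h1 => h1.1 rfl⟩
  rw [h.mem_L hl hZ, e1, e2]
  simp

/-- the coordinates with respect to `Y` determine the isomorphism of another base: insert `xel` for
the base `Y` in `step` for the base `W`; `(g - ∑ ..., κ g) ∈ u.L l (l + 1) Y` -/
theorem Blk.kap_rel (hl : l < n) (h : Blk u l W κ p ph a) (h' : Blk u l W' κ' p' ph' a')
    (g : Fin s → F) : κ g = κ' (g - ∑ d ∈ W \ W', ph d g • p' d) := by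
  have h1 : (g - ∑ d ∈ W \ W', ph d g • p' d, κ g) ∈ u.L l (l + 1) W' := by
    rw [FRep.mem_L, h.step g, map_sub, map_sum]
    have e1 : ∑ y ∈ W, ph y g • u.w y = ∑ y ∈ W ∩ W', ph y g • u.w y +
        ∑ y ∈ W \ W', ph y g • u.w y := (Finset.sum_inter_add_sum_sdiff W W' _).symm
    have e2 : ∑ y ∈ W \ W', ph y g • u.w y = ∑ d ∈ W \ W', ph d g • ∑ y ∈ W', a' d y • u.w y +
        ∑ d ∈ W \ W', u.th l (ph d g • p' d) := by
      rw [← Finset.sum_add_distrib]
      refine Finset.sum_congr rfl fun d hd => ?_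
      rw [Finset.mem_sdiff] at hd
      rw [h'.xel d (Finset.mem_sdiff.2 ⟨h.tb.sub hd.1, hd.2⟩), smul_add, map_smul]
    have e3 : u.th l g - ∑ y ∈ W, ph y g • u.w y -
        (u.th l g - ∑ d ∈ W \ W', u.th l (ph d g • p' d)) =
          -(∑ y ∈ W ∩ W', ph y g • u.w y +
            ∑ d ∈ W \ W', ph d g • ∑ y ∈ W', a' d y • u.w y) := by
      rw [e1, e2]
      abel
    rw [e3]
    refine neg_mem (add_mem (BrwG1_comb u Finset.inter_subset_right _) (sum_mem fun d _ => ?_))
    exact smul_mem _ _ (BrwG1_comb u subset_rfl _)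
  exact (h'.riso hl _ _).1 h1

omit [Fintype E] [DecidableEq E] [FiniteDimensional F V] in
private theorem BrwG1_scale {w : E → V} {c : E → F} (hc : ∀ x, c x ≠ 0) (S : Finset E) :
    Sp F (fun x => c x • w x) S = Sp F w S := by
  apply le_antisymm
  · rw [Sp_le]
    intro x hx
    exact smul_mem _ _ (mem_Sp hx)
  · rw [Sp_le]
    intro x hx
    have h1 : w x = (c x)⁻¹ • (c x • w x) := by
      rw [smul_smul, inv_mul_cancel₀ (hc x), one_smul]
    rw [h1]
    exact smul_mem _ _ (mem_Sp (v := fun x => c x • w x) hx)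

/-- scaling of the vectors -/
def FRep.scale (u : FRep F w₀ A n s) (c : E → F) (hc : ∀ x, c x ≠ 0) : FRep F w₀ A n s where
  w := fun x => c x • u.w x
  th := u.th
  same := by
    intro S
    rw [BrwG1_scale hc]
    exact u.same S
  inj := u.inj
  rng := by
    intro i hi
    unfold Gd
    rw [BrwG1_scale hc, BrwG1_scale hc]
    exact u.rng i hi

theorem FRep.scale_L (c : E → F) (hc : ∀ x, c x ≠ 0) (i j : ℕ) (Z : Finset E) :
    (u.scale c hc).L i j Z = u.L i j Z := by
  have h1 : Sp F (u.scale c hc).w Z = Sp F u.w Z := BrwG1_scale hc Z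
  unfold FRep.L
  rw [h1]
  rfl

theorem FRep.scale_T (c : E → F) (hc : ∀ x, c x ≠ 0) (i : ℕ) (Z : Finset E) :
    (u.scale c hc).T i Z = u.T i Z := by
  have h1 : Sp F (u.scale c hc).w Z = Sp F u.w Z := BrwG1_scale hc Z
  unfold FRep.T
  rw [h1]
  rfl

end Pool.MP_4929df_co.H92
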