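import Pool.Agent.W_4929df_h92.BrwG1

/-!
Exchange of one element of the base of a block.
-/

set_option autoImplicit false

namespace Pool.MP_4929df_co.H92

open Submodule

variable {F : Type} [Field F] {E : Type} [Fintype E] [DecidableEq E] {V : Type}
  [AddCommGroup V] [Module F V] [FiniteDimensional F V] {w₀ : E → V} {A : ℕ → Finset E} {n s : ℕ}
  {u u' : FRep F w₀ A n s} {l m : ℕ} {W W' Z : Finset E}
  {κ κ' : (Fin s → F) ≃ₗ[F] (Fin s → F)} {p p' : E → Fin s → F}
  {ph ph' : E → (Fin s → F) →ₗ[F] F} {a a' : E → E → F} {x y : E}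

omit [FiniteDimensional F V] in
/-- transfer of ranks to a framed representation -/
private theorem brwG2_rk (u : FRep F w₀ A n s) (S : Finset E) : rk F w₀ ⊥ S = rk F u.w ⊥ S := by
  unfold rk
  rw [sup_bot_eq, sup_bot_eq]
  exact u.same S

omit [FiniteDimensional F V] in
private theorem brwG2_th_mem (u : FRep F w₀ A n s) {l : ℕ} (hl : l ≤ n) (g : Fin s → F) :
    u.th l g ∈ Sp F u.w (A l) ∧ u.th l g ∈ Sp F u.w (A l)ᶜ := by
  have h1 : u.th l g ∈ LinearMap.range (u.th l) := LinearMap.mem_range_self _ _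
  rw [u.rng l hl] at h1
  exact h1

omit [Fintype E] in
private theorem brwG2_card (hx : x ∉ W) (hy : y ∈ W) : (insert x (W.erase y)).card = W.card := by
  rw [Finset.card_insert_of_notMem (fun h => hx (Finset.mem_of_mem_erase h)),
    Finset.card_erase_add_one hy]

omit [Fintype E] in
/-- exchange in an independent set modulo `Sp F w C` -/
private theorem brwG2_gen {w : E → V} {C W : Finset E} {x y : E}
    (hW : rk F w ⊥ (C ∪ W) = rk F w ⊥ C + W.card) (hy : y ∈ W) {b : E → F} {t : V}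
    (ht : t ∈ Sp F w C) (hx : w x = ∑ d ∈ W, b d • w d + t) :
    rk F w ⊥ (C ∪ insert x (W.erase y)) = rk F w ⊥ C + W.card ↔ b y ≠ 0 := by
  have hr := rk_isRk (F := F) w ⊥
  have e1 : C ∪ insert x (W.erase y) = insert x (C ∪ W.erase y) := Finset.union_insert _ _ _
  have e2 : C ∪ W = insert y (C ∪ W.erase y) := by
    rw [← Finset.union_insert, Finset.insert_erase hy]
  have hc : (W.erase y).card + 1 = W.card := Finset.card_erase_add_one hy
  have h1 := hr.add_card C (W.erase y)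
  have h2 := hr.ins y (C ∪ W.erase y)
  have h3 := hr.ins x (C ∪ W.erase y)
  rw [e2] at hW
  have hP : rk F w ⊥ (C ∪ W.erase y) + 1 = rk F w ⊥ C + W.card := by omega
  have hny : w y ∉ Sp F w (C ∪ W.erase y) ⊔ ⊥ := not_cl_iff.1 (by omega)
  rw [e1, ← hP, not_cl_iff]
  rw [sup_bot_eq] at hny ⊢
  refine not_iff_not.2 ?_
  have hsub : ∑ d ∈ W.erase y, b d • w d + t ∈ Sp F w (C ∪ W.erase y) :=
    Submodule.add_mem _ (Submodule.sum_mem _ fun d hd => Submodule.smul_mem _ _
      (mem_Sp (Finset.mem_union_right _ hd))) (Sp_mono Finset.subset_union_left ht)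
  have hx' : w x = b y • w y + (∑ d ∈ W.erase y, b d • w d + t) := by
    rw [hx, ← Finset.add_sum_erase W (fun d => b d • w d) hy, add_assoc]
  rw [hx', Submodule.add_mem_iff_left _ hsub]
  constructor
  · intro h
    by_contra hb
    exact hny ((Submodule.smul_mem_iff _ hb).1 h)
  · intro h
    rw [h, zero_smul]
    exact Submodule.zero_mem _

private theorem brwG2_right (hL : Lnk F w₀ A n s) (hl : l < n) (h : Blk u l W κ p ph a)
    (hx : x ∈ (A (l + 1) \ A l) \ W) (hy : y ∈ W) :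
    rk F w₀ ⊥ (insert x (W.erase y) ∪ (A (l + 1))ᶜ) =
      (insert x (W.erase y)).card + rk F w₀ ⊥ (A (l + 1))ᶜ ↔ a x y + ph y (p x) ≠ 0 := by
  have hxW : x ∉ W := (Finset.mem_sdiff.1 hx).2
  have e1 : u.w x = ∑ d ∈ W, (a x d + ph d (p x)) • u.w d + u.th (l + 1) (κ (p x)) := by
    rw [h.step (p x), h.xel x hx]
    simp only [add_smul, Finset.sum_add_distrib]
    abel
  have hR := h.tb.indR
  rw [brwG2_rk u, brwG2_rk u, Finset.union_comm, add_comm W.card] at hR
  have h1 := brwG2_gen hR hy (brwG2_th_mem u (Nat.succ_le_of_lt hl) (κ (p x))).2 e1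
  rw [brwG2_card hxW hy, brwG2_rk u, brwG2_rk u, Finset.union_comm, add_comm W.card]
  exact h1

/-- `Sp (A l) ⊔ Sp (W - y + x)` is `Sp (A (l + 1))` iff `a x y ≠ 0` (`xel`, `TB.ind`) -/
theorem Blk.span_iff (hL : Lnk F w₀ A n s) (hl : l < n) (h : Blk u l W κ p ph a)
    (hx : x ∈ (A (l + 1) \ A l) \ W) (hy : y ∈ W) :
    rk F w₀ ⊥ (A l ∪ insert x (W.erase y)) = rk F w₀ ⊥ (A (l + 1)) ↔ a x y ≠ 0 := by
  have hxW : x ∉ W := (Finset.mem_sdiff.1 hx).2
  have h1 := h.tb.indL
  have h2 := h.tb.span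
  rw [← h2, h1, brwG2_rk u, brwG2_rk u]
  rw [brwG2_rk u, brwG2_rk u] at h1
  exact brwG2_gen h1 hy (brwG2_th_mem u hl.le (p x)).1 (h.xel x hx)

theorem Blk.zero_iff (hL : Lnk F w₀ A n s) (hl : l < n) (h : Blk u l W κ p ph a)
    (h' : Blk u' l W κ' p' ph' a') (hx : x ∈ (A (l + 1) \ A l) \ W) (hy : y ∈ W) :
    a x y = 0 ↔ a' x y = 0 := by
  rw [← not_iff_not]
  exact (h.span_iff hL hl hx hy).symm.trans (h'.span_iff hL hl hx hy)

/-- the functions after the exchange of `y` for `x` -/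
def pvP (p : E → Fin s → F) (a : E → E → F) (x y : E) : E → Fin s → F :=
  fun d => if d = y then -(a x y)⁻¹ • p x else p d - (a d y * (a x y)⁻¹) • p x

def pvH (p : E → Fin s → F) (ph : E → (Fin s → F) →ₗ[F] F) (a : E → E → F) (x y : E) :
    E → (Fin s → F) →ₗ[F] F :=
  fun d => if d = x then (a x y + ph y (p x))⁻¹ • ph y else
    ph d - ((a x d + ph d (p x)) * (a x y + ph y (p x))⁻¹) • ph y

def pvA (a : E → E → F) (x y : E) : E → E → F :=
  fun d e => if d = y then (if e = x then (a x y)⁻¹ else -(a x e * (a x y)⁻¹)) else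
    (if e = x then a d y * (a x y)⁻¹ else a d e - a d y * a x e * (a x y)⁻¹)

/-- The swap map `g ↦ g - (a + ph y (p x))⁻¹ (ph y g) p x` as an isomorphism (inverse:
`g ↦ g + a⁻¹ (ph y g) p x`). -/
theorem exists_swp {q : Fin s → F} {f : (Fin s → F) →ₗ[F] F} {b : F} (h1 : b ≠ 0)
    (h2 : b + f q ≠ 0) : ∃ e : (Fin s → F) ≃ₗ[F] (Fin s → F),
    ∀ g, e g = g - (f g * (b + f q)⁻¹) • q := by
  refine ⟨LinearEquiv.ofLinearMap (LinearMap.id - (f.smulRight ((b + f q)⁻¹ • q)))
    (LinearMap.id + (f.smulRight (b⁻¹ • q))) ?_ ?_, ?_⟩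
  · refine LinearMap.ext fun g => ?_
    simp only [LinearMap.comp_apply, LinearMap.sub_apply, LinearMap.add_apply, LinearMap.id_apply,
      LinearMap.smulRight_apply, map_add, map_smul, smul_smul]
    funext i
    simp only [Pi.add_apply, Pi.sub_apply, Pi.smul_apply, smul_eq_mul]
    field_simp
    ring
  · refine LinearMap.ext fun g => ?_
    simp only [LinearMap.comp_apply, LinearMap.sub_apply, LinearMap.add_apply, LinearMap.id_apply,
      LinearMap.smulRight_apply, map_sub, map_smul, smul_smul]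
    funext i
    simp only [Pi.add_apply, Pi.sub_apply, Pi.smul_apply, smul_eq_mul]
    field_simp
    ring
  · intro g
    simp [smul_smul]

private theorem brwG2_tb (hL : Lnk F w₀ A n s) (hl : l < n) (h : Blk u l W κ p ph a)
    (hx : x ∈ (A (l + 1) \ A l) \ W) (hy : y ∈ W) (h1 : a x y ≠ 0)
    (h2 : a x y + ph y (p x) ≠ 0) : TB F w₀ A l (l + 1) (insert x (W.erase y)) := by
  have hx1 := Finset.mem_sdiff.1 hx
  have hs := (h.span_iff hL hl hx hy).2 h1
  refine ⟨?_, hs, ?_, (brwG2_right hL hl h hx hy).2 h2⟩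
  · refine Finset.insert_subset hx1.1 ((Finset.erase_subset _ _).trans h.tb.sub)
  · rw [hs, ← h.tb.span, h.tb.indL, brwG2_card hx1.2 hy]

/-- The exchange. `u.w y = (a x y)⁻¹ (u.w x - ∑ d ∈ W.erase y, a x d • u.w d - u.th l (p x))` by
`xel`; insert it everywhere. For `tb`: the span is `Sp (A (l + 1))` by `Blk.span_iff`; the
cardinality is the same; for `indR` show that a combination
`b x • u.w x + ∑ d ∈ W.erase y, b d • u.w d` in `Sp (A (l + 1))ᶜ` is 0: it is
`∑ d ∈ W, (...) • u.w d + u.th l (b x • p x)`, and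
`u.th l g = u.th (l + 1) (κ g) + ∑ d ∈ W, ph d g • u.w d`, so by `TB.ind'` the coefficient of `u.w y`
is `b x (a x y + ph y (p x)) = 0`, `b x = 0`, and then all are 0. -/
theorem Blk.pivot (hL : Lnk F w₀ A n s) (hl : l < n) (h : Blk u l W κ p ph a)
    (hx : x ∈ (A (l + 1) \ A l) \ W) (hy : y ∈ W) (h1 : a x y ≠ 0)
    (h2 : a x y + ph y (p x) ≠ 0) :
    ∃ κ' : (Fin s → F) ≃ₗ[F] (Fin s → F),
      (∀ g, κ' g = κ (g - (ph y g * (a x y + ph y (p x))⁻¹) • p x)) ∧
      Blk u l (insert x (W.erase y)) κ' (pvP p a x y) (pvH p ph a x y) (pvA a x y) := by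
  have hxW : x ∉ W := (Finset.mem_sdiff.1 hx).2
  have hxE : x ∉ W.erase y := fun hh => hxW (Finset.mem_of_mem_erase hh)
  have hxy : x ≠ y := fun hh => hxW (hh ▸ hy)
  obtain ⟨e, he⟩ := exists_swp h1 h2
  refine ⟨e.trans κ, fun g => by rw [LinearEquiv.trans_apply, he], ?_⟩
  set δ := a x y + ph y (p x) with hδ
  have ky : u.w y = (a x y)⁻¹ • (u.w x - ∑ d ∈ W.erase y, a x d • u.w d - u.th l (p x)) := by
    have e1 : u.w x - ∑ d ∈ W.erase y, a x d • u.w d - u.th l (p x) = a x y • u.w y := by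
      rw [h.xel x hx, ← Finset.add_sum_erase W (fun d => a x d • u.w d) hy]
      abel
    rw [e1, smul_smul, inv_mul_cancel₀ h1, one_smul]
  refine ⟨brwG2_tb hL hl h hx hy h1 h2, fun g => ?_, fun d hd => ?_⟩
  · rw [LinearEquiv.trans_apply, he, h.step]
    rw [Finset.sum_insert hxE, ← Finset.add_sum_erase W _ hy]
    have e2 : pvH p ph a x y x g = δ⁻¹ * ph y g := by
      unfold pvH
      rw [if_pos rfl, LinearMap.smul_apply, smul_eq_mul]
    have e3 : ∑ d ∈ W.erase y, pvH p ph a x y d g • u.w d =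
        ∑ d ∈ W.erase y, ph d g • u.w d - (ph y g * δ⁻¹) • ∑ d ∈ W.erase y, a x d • u.w d -
          (ph y g * δ⁻¹) • ∑ d ∈ W.erase y, ph d (p x) • u.w d := by
      rw [Finset.smul_sum, Finset.smul_sum, ← Finset.sum_sub_distrib, ← Finset.sum_sub_distrib]
      refine Finset.sum_congr rfl fun d hd => ?_
      have hdx : d ≠ x := fun hh => hxE (hh ▸ hd)
      unfold pvH
      rw [if_neg hdx, smul_smul, smul_smul, ← sub_smul, ← sub_smul]
      simp only [LinearMap.sub_apply, LinearMap.smul_apply, smul_eq_mul]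
      congr 1
      ring
    have e4 : ∑ d ∈ W.erase y, ph d (g - (ph y g * δ⁻¹) • p x) • u.w d =
        ∑ d ∈ W.erase y, ph d g • u.w d -
          (ph y g * δ⁻¹) • ∑ d ∈ W.erase y, ph d (p x) • u.w d := by
      rw [Finset.smul_sum, ← Finset.sum_sub_distrib]
      refine Finset.sum_congr rfl fun d hd => ?_
      rw [smul_smul, ← sub_smul, map_sub, map_smul, smul_eq_mul]
    have e5 : u.th l (p x) = u.w x - a x y • u.w y - ∑ d ∈ W.erase y, a x d • u.w d := by
      rw [h.xel x hx, ← Finset.add_sum_erase W (fun d => a x d • u.w d) hy]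
      abel
    have e6 : ph y (g - (ph y g * δ⁻¹) • p x) = ph y g * δ⁻¹ * a x y := by
      rw [map_sub, map_smul, smul_eq_mul]
      field_simp
      rw [hδ]
      ring
    rw [e4, e3, e2, e6, map_sub, map_smul, e5, smul_sub, smul_sub, smul_smul, mul_comm δ⁻¹]
    abel
  · unfold pvP pvA
    have hd1 := Finset.mem_sdiff.1 hd
    have hdx : d ≠ x := fun hh => hd1.2 (hh ▸ Finset.mem_insert_self _ _)
    rw [Finset.sum_insert hxE]
    by_cases hdy : d = y
    · subst hdy
      simp only [if_true]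
      have e1 : ∑ e ∈ W.erase d, (if e = x then (a x d)⁻¹ else -(a x e * (a x d)⁻¹)) • u.w e =
          -((a x d)⁻¹ • ∑ e ∈ W.erase d, a x e • u.w e) := by
        rw [Finset.smul_sum, ← Finset.sum_neg_distrib]
        refine Finset.sum_congr rfl fun e he => ?_
        have hex : e ≠ x := fun hh => hxE (hh ▸ he)
        rw [if_neg hex, smul_smul, neg_smul, mul_comm]
      rw [e1, map_smul, neg_smul]
      nth_rw 1 [ky]
      rw [smul_sub, smul_sub]
      abel
    · simp only [if_neg hdy, if_true]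
      have hdW : d ∉ W := fun hh =>
        hd1.2 (Finset.mem_insert_of_mem (Finset.mem_erase.2 ⟨hdy, hh⟩))
      have e1 : ∑ e ∈ W.erase y, (if e = x then a d y * (a x y)⁻¹ else
          a d e - a d y * a x e * (a x y)⁻¹) • u.w e =
          ∑ e ∈ W.erase y, a d e • u.w e -
            (a d y * (a x y)⁻¹) • ∑ e ∈ W.erase y, a x e • u.w e := by
        rw [Finset.smul_sum, ← Finset.sum_sub_distrib]
        refine Finset.sum_congr rfl fun e he => ?_
        have hex : e ≠ x := fun hh => hxE (hh ▸ he)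
        rw [if_neg hex, smul_smul, ← sub_smul]
        congr 1
        ring
      rw [e1, h.xel d (Finset.mem_sdiff.2 ⟨hd1.1, hdW⟩), ← Finset.add_sum_erase W _ hy]
      rw [map_sub, map_smul]
      nth_rw 1 [ky]
      rw [smul_smul, smul_sub, smul_sub]
      abel

/-- the converse: the exchanged set is a transporting base only in this case (if `a x y = 0` the span
is wrong; if `a x y + ph y (p x) = 0` then `u.w x - ∑ d ∈ W.erase y, (...) • u.w d` is in
`Sp (A (l + 1))ᶜ`) -/
theorem Blk.swap_iff (hL : Lnk F w₀ A n s) (hl : l < n) (h : Blk u l W κ p ph a)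
    (hx : x ∈ (A (l + 1) \ A l) \ W) (hy : y ∈ W) :
    TB F w₀ A l (l + 1) (insert x (W.erase y)) ↔ a x y ≠ 0 ∧ a x y + ph y (p x) ≠ 0 := by
  refine ⟨fun hT => ⟨(h.span_iff hL hl hx hy).1 hT.span, ?_⟩, fun hh =>
    brwG2_tb hL hl h hx hy hh.1 hh.2⟩
  exact (brwG2_right hL hl h hx hy).1 hT.indR

/-- scaling to given coordinates: `c x • p x` and `(c y)⁻¹ • ph y` -/
theorem Blk.scale (h : Blk u l W κ p ph a) (c : E → F) (hc : ∀ x, c x ≠ 0)
    (hp : ∀ x ∈ (A (l + 1) \ A l) \ W, p' x = c x • p x)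
    (hph : ∀ y ∈ W, ph y = c y • ph' y) :
    Blk (u.scale c hc) l W κ p' ph' (fun x y => c x * a x y * (c y)⁻¹) := by
  refine ⟨h.tb, fun g => ?_, fun x hx => ?_⟩
  · show u.th (l + 1) (κ g) = u.th l g - ∑ y ∈ W, ph' y g • (c y • u.w y)
    rw [h.step g]
    congr 1
    refine Finset.sum_congr rfl fun y hy => ?_
    rw [hph y hy, LinearMap.smul_apply, smul_eq_mul, smul_smul, mul_comm]
  · show c x • u.w x = ∑ y ∈ W, (c x * a x y * (c y)⁻¹) • (c y • u.w y) + u.th l (p' x)
    rw [hp x hx, map_smul]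
    nth_rw 1 [h.xel x hx]
    rw [smul_add, Finset.smul_sum]
    congr 1
    refine Finset.sum_congr rfl fun y hy => ?_
    rw [smul_smul, smul_smul, mul_assoc _ (c y)⁻¹, inv_mul_cancel₀ (hc y), mul_one]

end Pool.MP_4929df_co.H92
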