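import Pool.Agent.W_4929df_h92.BrwG2

/-!
Letters from the coordinates of a block; shared coordinates.
-/

set_option autoImplicit false

namespace Pool.MP_4929df_co.H92

open Submodule

/-- the relation of adding a multiple of `q` -/
def addR {F X : Type} [Field F] [AddCommGroup X] [Module F X] (q : X) : Submodule F (X × X) :=
  (span F {q}).comap (LinearMap.snd F X X - LinearMap.fst F X X)

/-- the relation of intersecting with the kernel of `f` -/
def cutR {F X : Type} [Field F] [AddCommGroup X] [Module F X] (f : X →ₗ[F] F) :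
    Submodule F (X × X) :=
  rid F X ⊓ (LinearMap.ker f).comap (LinearMap.fst F X X)

section

variable {F X : Type} [Field F] [AddCommGroup X] [Module F X] {q : X} {f : X →ₗ[F] F}
  {W : Submodule F X}

theorem mem_addR {g h : X} : (g, h) ∈ addR (F := F) q ↔ h - g ∈ span F {q} := Iff.rfl

theorem mem_cutR {g h : X} : (g, h) ∈ cutR f ↔ g = h ∧ f g = 0 := Iff.rfl

theorem rimg_addR : rimg (addR (F := F) q) W = W ⊔ span F {q} := by
  ext h
  rw [mem_rimg, Submodule.mem_sup]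
  constructor
  · rintro ⟨g, hg, hgh⟩
    exact ⟨g, hg, h - g, mem_addR.1 hgh, by abel⟩
  · rintro ⟨g, hg, z, hz, rfl⟩
    refine ⟨g, hg, mem_addR.2 ?_⟩
    rw [add_sub_cancel_left]
    exact hz

theorem rpre_addR : rpre (addR (F := F) q) W = W ⊔ span F {q} := by
  ext g
  rw [mem_rpre, Submodule.mem_sup]
  constructor
  · rintro ⟨h, hh, hgh⟩
    refine ⟨h, hh, g - h, ?_, by abel⟩
    rw [← neg_sub]
    exact neg_mem (mem_addR.1 hgh)
  · rintro ⟨h, hh, z, hz, rfl⟩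
    refine ⟨h, hh, mem_addR.2 ?_⟩
    rw [sub_add_cancel_left]
    exact neg_mem hz

theorem rimg_cutR : rimg (cutR f) W = W ⊓ LinearMap.ker f := by
  ext h
  rw [mem_rimg, Submodule.mem_inf, LinearMap.mem_ker]
  constructor
  · rintro ⟨g, hg, hgh⟩
    obtain ⟨rfl, h1⟩ := mem_cutR.1 hgh
    exact ⟨hg, h1⟩
  · rintro ⟨h1, h2⟩
    exact ⟨h, h1, mem_cutR.2 ⟨rfl, h2⟩⟩

theorem rpre_cutR : rpre (cutR f) W = W ⊓ LinearMap.ker f := by
  ext g
  rw [mem_rpre, Submodule.mem_inf, LinearMap.mem_ker]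
  constructor
  · rintro ⟨h, hh, hgh⟩
    obtain ⟨rfl, h1⟩ := mem_cutR.1 hgh
    exact ⟨hh, h1⟩
  · rintro ⟨h1, h2⟩
    exact ⟨g, h1, mem_cutR.2 ⟨rfl, h2⟩⟩

end

variable {F : Type} [Field F] [Finite F] {E : Type} [Fintype E] [DecidableEq E] {V : Type}
  [AddCommGroup V] [Module F V] [FiniteDimensional F V] {w₀ : E → V} {A : ℕ → Finset E} {n s : ℕ}
  {Y : ℕ → Finset E} {α γ : FRep F w₀ A n s} {v : ℕ → FRep F w₀ A n s}
  {𝒯 : Set (Submodule F ((Fin s → F) × (Fin s → F)) × Submodule F ((Fin s → F) × (Fin s → F)))}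
  {l : ℕ} {W : Finset E} {κ : (Fin s → F) ≃ₗ[F] (Fin s → F)} {p : E → Fin s → F}
  {ph : E → (Fin s → F) →ₗ[F] F} {a : E → E → F} {x y : E}

private theorem BrwG3_comap {X : Type} [AddCommGroup X] [Module F X] (e : X ≃ₗ[F] X)
    (W : Submodule F X) : W.comap (e.symm : X →ₗ[F] X) = W.map (e : X →ₗ[F] X) := by
  ext x
  rw [Submodule.mem_comap, Submodule.mem_map]
  constructor
  · intro hx
    exact ⟨e.symm x, hx, by simp⟩
  · rintro ⟨y, hy, rfl⟩
    simpa using hy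

/-- functionals with the same kernel -/
private theorem BrwG3_ker {X : Type} [AddCommGroup X] [Module F X] {f g : X →ₗ[F] F}
    (h : LinearMap.ker f = LinearMap.ker g) : ∃ c : F, c ≠ 0 ∧ f = c • g := by
  by_cases hg : g = 0
  · refine ⟨1, one_ne_zero, ?_⟩
    rw [hg, LinearMap.ker_zero, LinearMap.ker_eq_top] at h
    rw [h, hg, smul_zero]
  · obtain ⟨x, hx⟩ : ∃ x, g x ≠ 0 := by
      by_contra hcon
      push Not at hcon
      exact hg (LinearMap.ext hcon)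
    have hfx : f x ≠ 0 := by
      intro h1
      have h2 : x ∈ LinearMap.ker f := h1
      rw [h] at h2
      exact hx h2
    refine ⟨f x / g x, div_ne_zero hfx hx, LinearMap.ext fun y => ?_⟩
    have h1 : y - (g y / g x) • x ∈ LinearMap.ker g := by
      rw [LinearMap.mem_ker, map_sub, map_smul, smul_eq_mul, div_mul_cancel₀ _ hx, sub_self]
    rw [← h, LinearMap.mem_ker, map_sub, map_smul, smul_eq_mul, sub_eq_zero] at h1
    rw [h1, LinearMap.smul_apply, smul_eq_mul]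
    field_simp

private theorem BrwG3_bot {u : FRep F w₀ A n s} (hl : l < n) (h : Blk u l W κ p ph a)
    (hx : x ∈ (A (l + 1) \ A l) \ W) : rpre (u.L l (l + 1) (insert x W)) ⊥ = span F {p x} := by
  ext g
  rw [mem_rpre, Submodule.mem_span_singleton]
  constructor
  · rintro ⟨k, hk, hgk⟩
    rw [Submodule.mem_bot] at hk
    subst hk
    have h1 : (g, κ 0) ∈ u.L l (l + 1) (insert x W) := by
      rw [map_zero]
      exact hgk
    obtain ⟨b, hb⟩ := (h.mem_add hl hx).1 h1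
    exact ⟨-b, by rw [hb, neg_smul, zero_sub]⟩
  · rintro ⟨b, rfl⟩
    refine ⟨0, Submodule.zero_mem _, ?_⟩
    have h1 := (h.mem_add hl hx (g := b • p x) (g' := 0)).2 ⟨-b, by rw [neg_smul, sub_neg_eq_add, zero_add]⟩
    rw [map_zero] at h1
    exact h1

private theorem BrwG3_top {u : FRep F w₀ A n s} (hl : l < n) (h : Blk u l W κ p ph a)
    (hy : y ∈ W) : rpre (u.L l (l + 1) (W.erase y)) ⊤ = LinearMap.ker (ph y) := by
  ext g
  rw [mem_rpre, LinearMap.mem_ker]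
  constructor
  · rintro ⟨k, -, hgk⟩
    have h1 : (g, κ (κ.symm k)) ∈ u.L l (l + 1) (W.erase y) := by
      rw [LinearEquiv.apply_symm_apply]
      exact hgk
    obtain ⟨h2, h3⟩ := (h.mem_del hl hy).1 h1
    rw [h2]
    exact h3
  · intro hg
    exact ⟨κ g, Submodule.mem_top, (h.mem_del hl hy).2 ⟨rfl, hg⟩⟩

/-- `insert x W` followed by the inverse letter of `W` (`Pat3.mem`, `Pat3.inv`, `Pat3.comp`,
`Blk.mem_add`, `mem_rcomp_symm`) -/
theorem Pat3.add_mem (hL : Lnk F w₀ A n s) (hp : Pat3 Y α γ v 𝒯) (hn : 2 ≤ n) (hl : l < n)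
    (h : Blk α l W κ p ph a) (hx : x ∈ (A (l + 1) \ A l) \ W) : ∃ z ∈ 𝒯, z.1 = addR (p x) := by
  have h0 : W ⊆ A (l + 1) \ A l := h.tb.sub
  have hx1 := Finset.mem_sdiff.1 hx
  have h1 := hp.mem (Nat.lt_succ_self l) hl (Finset.insert_subset hx1.1 h0)
  have h2 := hp.mem (Nat.lt_succ_self l) hl h0
  obtain ⟨e', -, z', hz', hz1, -⟩ := hp.inv hL hn h2 (h.riso hl)
  refine ⟨_, hp.comp hL hn h1 hz', ?_⟩
  ext ⟨g, k⟩
  rw [mem_rcomp_symm hz1, h.mem_add hl hx, mem_addR, Submodule.mem_span_singleton]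
  constructor
  · rintro ⟨b, rfl⟩
    exact ⟨b, by abel⟩
  · rintro ⟨b, hb⟩
    exact ⟨b, by rw [hb]; abel⟩

theorem Pat3.cut_mem (hL : Lnk F w₀ A n s) (hp : Pat3 Y α γ v 𝒯) (hn : 2 ≤ n) (hl : l < n)
    (h : Blk α l W κ p ph a) (hy : y ∈ W) : ∃ z ∈ 𝒯, z.1 = cutR (ph y) := by
  have h0 : W ⊆ A (l + 1) \ A l := h.tb.sub
  have h1 := hp.mem (Nat.lt_succ_self l) hl ((Finset.erase_subset y W).trans h0)
  have h2 := hp.mem (Nat.lt_succ_self l) hl h0
  obtain ⟨e', -, z', hz', hz1, -⟩ := hp.inv hL hn h2 (h.riso hl)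
  refine ⟨_, hp.comp hL hn h1 hz', ?_⟩
  ext ⟨g, k⟩
  rw [mem_rcomp_symm hz1, h.mem_del hl hy, mem_cutR]
  constructor
  · rintro ⟨rfl, h3⟩
    exact ⟨rfl, h3⟩
  · rintro ⟨rfl, h3⟩
    exact ⟨rfl, h3⟩

theorem seen_add {q : Fin s → F} (h : ∃ z ∈ 𝒯, z.1 = addR q) : Seen 𝒯 (span F {q}) := by
  obtain ⟨z, hz, h1⟩ := h
  refine ⟨⟨z, hz, Or.inl ?_⟩, z, hz, Or.inl ?_⟩
  · rw [h1, rimg_addR, bot_sup_eq]
  · rw [h1, rpre_addR, bot_sup_eq]

theorem seen_cut {f : (Fin s → F) →ₗ[F] F} (h : ∃ z ∈ 𝒯, z.1 = cutR f) :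
    Seen 𝒯 (LinearMap.ker f) := by
  obtain ⟨z, hz, h1⟩ := h
  refine ⟨⟨z, hz, Or.inr ?_⟩, z, hz, Or.inr ?_⟩
  · rw [h1, rimg_cutR, top_inf_eq]
  · rw [h1, rpre_cutR, top_inf_eq]

/-- invariance under letters that are isomorphisms: to the left `z`, then the letter; to the right the
inverse letter, then `z'` -/
theorem Pat3.seen_map (hL : Lnk F w₀ A n s) (hp : Pat3 Y α γ v 𝒯) (hn : 2 ≤ n)
    {z : Submodule F ((Fin s → F) × (Fin s → F)) × Submodule F ((Fin s → F) × (Fin s → F))}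
    (hz : z ∈ 𝒯) {e : (Fin s → F) ≃ₗ[F] (Fin s → F)} (h : RIso z.1 e)
    {U : Submodule F (Fin s → F)} (hU : Seen 𝒯 U) :
    Seen 𝒯 (U.map (e : (Fin s → F) →ₗ[F] (Fin s → F))) := by
  obtain ⟨⟨z₁, hz₁, h1⟩, z₂, hz₂, h2⟩ := hU
  obtain ⟨e', -, z', hz', hz1, -⟩ := hp.inv hL hn hz h
  refine ⟨⟨_, hp.comp hL hn hz₁ hz, ?_⟩, _, hp.comp hL hn hz' hz₂, ?_⟩
  · show rimg (rcomp z₁.1 z.1) ⊥ = _ ∨ rimg (rcomp z₁.1 z.1) ⊤ = _
    rw [rimg_rcomp, rimg_rcomp, h.rimg, h.rimg]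
    rcases h1 with h1 | h1
    · left
      rw [h1]
    · right
      rw [h1]
  · show rpre (rcomp z'.1 z₂.1) ⊥ = _ ∨ rpre (rcomp z'.1 z₂.1) ⊤ = _
    rw [rpre_rcomp, rpre_rcomp, hz1.rpre, hz1.rpre]
    rcases h2 with h2 | h2
    · left
      rw [h2]
      exact BrwG3_comap e U
    · right
      rw [h2]
      exact BrwG3_comap e U

/-- Shared points and functionals, for one block `i ≥ 2`. With `exists_blk` for `v i`: `κ'`, `p'`,
`ph'`, `a'`. For `x` in the block outside `W`: `rpre (L (insert x W)) ⊥ = span {p x}`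
(`Blk.mem_add`), so `span {p' x} = span {p x}` by `Pat3.rule_bot`; for `y ∈ W`
`rpre (L (W.erase y)) ⊤ = ker (ph y)`, so the kernels are equal by `Pat3.rule_top` and `ph' y` is a
nonzero multiple of `ph y`. Choose the scalars (`1` outside the block), `Blk.scale`. -/
theorem Pat3.shared (hL : Lnk F w₀ A n s) (hp : Pat3 Y α γ v 𝒯) {i : ℕ} (hi : 2 ≤ i)
    (hi' : i < n) (h : Blk α i W κ p ph a) :
    ∃ c : E → F, ∃ hc : ∀ x, c x ≠ 0, ∃ κ' a', Blk ((v i).scale c hc) i W κ' p ph a' := by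
  obtain ⟨κ', p', ph', a', h'⟩ := exists_blk hL hi' h.tb (v i)
  have hex : ∀ x : E, ∃ c : F, c ≠ 0 ∧ (x ∈ (A (i + 1) \ A i) \ W → p x = c • p' x) ∧
      (x ∈ W → ph' x = c • ph x) := by
    intro x
    by_cases hx : x ∈ W
    · have h1 : LinearMap.ker (ph' x) = LinearMap.ker (ph x) := by
        rw [← BrwG3_top hi' h' hx, ← BrwG3_top hi' h hx]
        exact hp.rule_top hL hi hi' h.tb.sub (Finset.erase_subset x W) ⟨κ, h.riso hi'⟩
      obtain ⟨c, hc, h2⟩ := BrwG3_ker h1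
      exact ⟨c, hc, fun h3 => absurd hx (Finset.mem_sdiff.1 h3).2, fun _ => h2⟩
    · by_cases hx2 : x ∈ (A (i + 1) \ A i) \ W
      · have h1 : span F {p' x} = span F {p x} := by
          rw [← BrwG3_bot hi' h' hx2, ← BrwG3_bot hi' h hx2]
          exact hp.rule_bot hL hi hi' (Finset.insert_subset (Finset.mem_sdiff.1 hx2).1 h.tb.sub)
            (Finset.subset_insert x W) ⟨κ, h.riso hi'⟩
        obtain ⟨c, h2⟩ := Submodule.span_singleton_eq_span_singleton.1 h1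
        exact ⟨c, c.ne_zero, fun _ => h2.symm, fun h3 => absurd h3 hx⟩
      · exact ⟨1, one_ne_zero, fun h3 => absurd h3 hx2, fun h3 => absurd h3 hx⟩
  choose c hc hc1 hc2 using hex
  exact ⟨c, hc, κ', _, h'.scale c hc (fun x hx => hc1 x hx) fun y hy => hc2 y hy⟩

/-- the same for any coordinates of a scaled `v i`: the points are the same -/
theorem Pat3.span_eq (hL : Lnk F w₀ A n s) (hp : Pat3 Y α γ v 𝒯) {i : ℕ} (hi : 2 ≤ i)
    (hi' : i < n) (h : Blk α i W κ p ph a) {c : E → F} {hc : ∀ x, c x ≠ 0}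
    {κ' : (Fin s → F) ≃ₗ[F] (Fin s → F)} {p' : E → Fin s → F} {ph' : E → (Fin s → F) →ₗ[F] F}
    {a' : E → E → F} (h' : Blk ((v i).scale c hc) i W κ' p' ph' a')
    (hx : x ∈ (A (i + 1) \ A i) \ W) : span F {p' x} = span F {p x} := by
  have h1 := BrwG3_bot hi' h' hx
  rw [FRep.scale_L] at h1
  rw [← h1, ← BrwG3_bot hi' h hx]
  exact hp.rule_bot hL hi hi' (Finset.insert_subset (Finset.mem_sdiff.1 hx).1 h.tb.sub)
    (Finset.subset_insert x W) ⟨κ, h.riso hi'⟩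

/-- the functionals have the same kernels -/
theorem Pat3.ker_eq (hL : Lnk F w₀ A n s) (hp : Pat3 Y α γ v 𝒯) {i : ℕ} (hi : 2 ≤ i)
    (hi' : i < n) (h : Blk α i W κ p ph a) {c : E → F} {hc : ∀ x, c x ≠ 0}
    {κ' : (Fin s → F) ≃ₗ[F] (Fin s → F)} {p' : E → Fin s → F} {ph' : E → (Fin s → F) →ₗ[F] F}
    {a' : E → E → F} (h' : Blk ((v i).scale c hc) i W κ' p' ph' a')
    (hy : y ∈ W) : LinearMap.ker (ph' y) = LinearMap.ker (ph y) := by
  have h1 := BrwG3_top hi' h' hy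
  rw [FRep.scale_L] at h1
  rw [← h1, ← BrwG3_top hi' h hy]
  exact hp.rule_top hL hi hi' h.tb.sub (Finset.erase_subset y W) ⟨κ, h.riso hi'⟩

end Pool.MP_4929df_co.H92
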