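import Pool.Agent.W_4929df_h92.BrwG3

/-!
The smallest difference between `α` and `v i` on block `i`.
-/

set_option autoImplicit false

namespace Pool.MP_4929df_co.H92

open Submodule

variable {F : Type} [Field F] [Finite F] {E : Type} [Fintype E] [DecidableEq E] {V : Type}
  [AddCommGroup V] [Module F V] [FiniteDimensional F V] {w₀ : E → V} {A : ℕ → Finset E} {n s : ℕ}
  {Y : ℕ → Finset E} {α γ : FRep F w₀ A n s} {v : ℕ → FRep F w₀ A n s}
  {𝒯 : Set (Submodule F ((Fin s → F) × (Fin s → F)) × Submodule F ((Fin s → F) × (Fin s → F)))}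
  {i : ℕ}

/-- One step. `W` has the same label for `α` and `v i`, `Z` has different labels. `exists_blk` for `α`
and `Pat3.shared`: coordinates `κ, p, ph, a` and `κ', p, ph, a'` with `κ' = κ` (`RIso.unique`,
`FRep.scale_L`). If `a x y = a' x y` for all `x ∈ Z \ W`, `y ∈ W \ Z` then `Blk.mem_L` gives equal
labels of `Z`. So there are `x`, `y` with `a x y ≠ a' x y`; both are nonzero (`Blk.zero_iff`), and
`a x y + ph y (p x) = 0` iff `a' x y + ph y (p x) = 0` (`Blk.swap_iff` for both), so both are nonzero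
(otherwise `a x y = a' x y`). `W' = insert x (W.erase y)` is a transporting base (`Blk.swap_iff`), and
`Blk.pivot` for `α` and for `v i` gives the labels `κ ∘ kap`. -/
theorem Pat3.diff_step (hL : Lnk F w₀ A n s) (hp : Pat3 Y α γ v 𝒯) (hi : 2 ≤ i) (hi' : i < n)
    {W Z : Finset E} (hW : TB F w₀ A i (i + 1) W)
    (heq : (v i).L i (i + 1) W = α.L i (i + 1) W) (hZ : Z ⊆ A (i + 1) \ A i)
    (hne : (v i).L i (i + 1) Z ≠ α.L i (i + 1) Z) :
    ∃ x ∈ Z \ W, ∃ y ∈ W \ Z, TB F w₀ A i (i + 1) (insert x (W.erase y)) := by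
  obtain ⟨κ, p, ph, a, hα⟩ := exists_blk hL hi' hW α
  obtain ⟨c, hc, κ', a', hv⟩ := Pat3.shared hL hp hi hi' hα
  have hκ : κ' = κ := by
    have h1 := hα.riso hi'
    have h2 := hv.riso hi'
    rw [FRep.scale_L, heq] at h2
    exact RIso.unique h2 h1
  subst hκ
  by_contra hcon
  push Not at hcon
  have hxb : ∀ x ∈ Z \ W, x ∈ (A (i + 1) \ A i) \ W := by
    intro x hx
    rw [Finset.mem_sdiff] at hx ⊢
    exact ⟨hZ hx.1, hx.2⟩
  have haa : ∀ x ∈ Z \ W, ∀ y ∈ W \ Z, a x y = a' x y := by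
    intro x hx y hy
    have hyW : y ∈ W := (Finset.mem_sdiff.1 hy).1
    have h1 := hcon x hx y hy
    have h2 := h1
    rw [Blk.swap_iff hL hi' hα (hxb x hx) hyW] at h1
    rw [Blk.swap_iff hL hi' hv (hxb x hx) hyW] at h2
    have h3 := Blk.zero_iff hL hi' hα hv (hxb x hx) hyW
    by_cases h0 : a x y = 0
    · rw [h0, h3.1 h0]
    · have h0' : a' x y ≠ 0 := fun h => h0 (h3.2 h)
      have h4 : a x y + ph y (p x) = 0 := by
        by_contra h5
        exact h1 ⟨h0, h5⟩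
      have h6 : a' x y + ph y (p x) = 0 := by
        by_contra h5
        exact h2 ⟨h0', h5⟩
      exact add_right_cancel (h4.trans h6.symm)
  apply hne
  rw [← FRep.scale_L c hc i (i + 1) Z]
  ext ⟨g, h⟩
  obtain ⟨g', rfl⟩ := κ'.surjective h
  rw [Blk.mem_L hi' hv hZ, Blk.mem_L hi' hα hZ]
  refine exists_congr fun b => and_congr_right fun _ => ?_
  refine forall₂_congr fun y hy => ?_
  have h5 : ∑ x ∈ Z \ W, b x * a' x y = ∑ x ∈ Z \ W, b x * a x y :=
    Finset.sum_congr rfl fun x hx => by rw [haa x hx y hy]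
  rw [h5]

/-- Induction on `(Z \ W).card`: if the labels of `insert x (W.erase y)` are the same for `α` and
`v i` continue with this set, which has fewer elements of `Z` missing. Start with `W = Y i` and
`Z` from `Pat2.diff`. -/
theorem Pat3.exists_bad (hL : Lnk F w₀ A n s) (hp : Pat3 Y α γ v 𝒯) (hi : 2 ≤ i) (hi' : i < n) :
    ∃ W x y, TB F w₀ A i (i + 1) W ∧ (v i).L i (i + 1) W = α.L i (i + 1) W ∧
      x ∈ (A (i + 1) \ A i) \ W ∧ y ∈ W ∧ TB F w₀ A i (i + 1) (insert x (W.erase y)) ∧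
      (v i).L i (i + 1) (insert x (W.erase y)) ≠ α.L i (i + 1) (insert x (W.erase y)) := by
  obtain ⟨Z, hZ, hne⟩ := hp.diff i hi'
  have key : ∀ k : ℕ, ∀ W : Finset E, (Z \ W).card ≤ k → TB F w₀ A i (i + 1) W →
      (v i).L i (i + 1) W = α.L i (i + 1) W →
      ∃ W x y, TB F w₀ A i (i + 1) W ∧ (v i).L i (i + 1) W = α.L i (i + 1) W ∧
      x ∈ (A (i + 1) \ A i) \ W ∧ y ∈ W ∧ TB F w₀ A i (i + 1) (insert x (W.erase y)) ∧
      (v i).L i (i + 1) (insert x (W.erase y)) ≠ α.L i (i + 1) (insert x (W.erase y)) := by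
    intro k
    induction k with
    | zero =>
      intro W hk hW heq
      obtain ⟨x, hx, -⟩ := Pat3.diff_step hL hp hi hi' hW heq hZ hne
      have h1 : Z \ W = ∅ := Finset.card_eq_zero.1 (Nat.le_zero.1 hk)
      rw [h1] at hx
      exact absurd hx (Finset.notMem_empty x)
    | succ k ih =>
      intro W hk hW heq
      obtain ⟨x, hx, y, hy, hT⟩ := Pat3.diff_step hL hp hi hi' hW heq hZ hne
      by_cases hl : (v i).L i (i + 1) (insert x (W.erase y)) =
          α.L i (i + 1) (insert x (W.erase y))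
      · refine ih (insert x (W.erase y)) ?_ hT hl
        have h2 : Z \ insert x (W.erase y) ⊆ (Z \ W).erase x := by
          intro z hz
          rw [Finset.mem_sdiff, Finset.mem_insert, not_or, Finset.mem_erase] at hz
          rw [Finset.mem_erase, Finset.mem_sdiff]
          refine ⟨hz.2.1, hz.1, fun hzW => hz.2.2 ⟨?_, hzW⟩⟩
          rintro rfl
          exact (Finset.mem_sdiff.1 hy).2 hz.1
        have h3 := Finset.card_le_card h2
        rw [Finset.card_erase_of_mem hx] at h3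
        omega
      · exact ⟨W, x, y, hW, heq, Finset.mem_sdiff.2 ⟨hZ (Finset.mem_sdiff.1 hx).1,
          (Finset.mem_sdiff.1 hx).2⟩, (Finset.mem_sdiff.1 hy).1, hT, hl⟩
  exact key _ (Y i) le_rfl (hp.Ytb i hi') ((hp.Yv i hi' i hi').trans (hp.Yα i hi').symm)

omit [Finite F] in
private theorem BrwH1_rid {X : Type} [AddCommGroup X] [Module F X] {R R' : Submodule F (X × X)}
    {e e' : X ≃ₗ[F] X} (h : RIso R e) (h' : RIso R' e') (he : e.trans e' = LinearEquiv.refl F X) :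
    rcomp R R' = rid F X := by
  have h1 := RIso.comp h h'
  rw [he] at h1
  ext ⟨g, k⟩
  rw [h1 g k, mem_rid]
  exact ⟨fun h => h.symm, fun h => h.symm⟩

omit [Finite F] in
private theorem BrwH1_cancel {X : Type} [AddCommGroup X] [Module F X]
    {R Q Q' : Submodule F (X × X)} {e : X ≃ₗ[F] X} (h : RIso R e)
    (hq : rcomp R Q = rcomp R Q') : Q = Q' :=
  rcomp_cancel h riso_rid (congrArg (fun T => rcomp T (rid F X)) hq)

/-- the pattern with a bad pair `x t`, `y t` in every block -/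
structure Pat4 {F : Type} [Field F] {E : Type} [Fintype E] [DecidableEq E] {V : Type}
    [AddCommGroup V] [Module F V] {w₀ : E → V} {A : ℕ → Finset E} {n s : ℕ} (Y : ℕ → Finset E)
    (α γ : FRep F w₀ A n s) (v : ℕ → FRep F w₀ A n s)
    (𝒯 : Set (Submodule F ((Fin s → F) × (Fin s → F)) × Submodule F ((Fin s → F) × (Fin s → F))))
    (x y : ℕ → E) : Prop extends Pat3 Y α γ v 𝒯 where
  hx : ∀ t, t < n → x t ∈ (A (t + 1) \ A t) \ Y t
  hy : ∀ t, t < n → y t ∈ Y t
  swp : ∀ t, t < n → TB F w₀ A t (t + 1) (insert (x t) ((Y t).erase (y t)))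
  ne : ∀ t, t < n → (v t).L t (t + 1) (insert (x t) ((Y t).erase (y t))) ≠
    α.L t (t + 1) (insert (x t) ((Y t).erase (y t)))

/-- One merged block: the old blocks `i - 1` and `i` (`3 ≤ i < n`; here `j + 1 = i`). `W`, `x`, `y`
from `Pat3.exists_bad` for `i`; `z' ∈ 𝒯` the inverse letter of `(α.L W, γ.L W)` (`Pat3.inv`, the
labels of `W` are graphs of isomorphisms by `TB.iso`), a copy `C₀` of `z'` in block `i - 1`
(`Pat3.copy`), and `C` from `exists_tb_of_iso`. `Y' = C ∪ W` (`TB.union`); all labels by `L_comp`; the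
label of `C` for `v i` is the one for `α` (`Pat3.left`). The labels of `insert x (Y'.erase y)`
`= C ∪ insert x (W.erase y)` differ by cancelling the isomorphism. -/
theorem Pat3.merge_one (hL : Lnk F w₀ A n s) (hp : Pat3 Y α γ v 𝒯) {j : ℕ} (hj : 1 ≤ j)
    (hj' : j + 1 < n) :
    ∃ Y' x y, TB F w₀ A j (j + 2) Y' ∧ α.L j (j + 2) Y' = rid F (Fin s → F) ∧
      γ.L j (j + 2) Y' = rid F (Fin s → F) ∧ (v (j + 1)).L j (j + 2) Y' = rid F (Fin s → F) ∧
      x ∈ (A (j + 2) \ A j) \ Y' ∧ y ∈ Y' ∧ TB F w₀ A j (j + 2) (insert x (Y'.erase y)) ∧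
      (v (j + 1)).L j (j + 2) (insert x (Y'.erase y)) ≠ α.L j (j + 2) (insert x (Y'.erase y)) := by
  have hA : ∀ l, l < n → A l ⊆ A (l + 1) := fun l hl => hL.sub hl
  obtain ⟨W, x, y, hW, hWl, hx, hy, hT, hne⟩ :=
    Pat3.exists_bad hL hp (i := j + 1) (by omega) hj'
  have hn : 2 ≤ n := by omega
  have hj2 : j + 1 + 1 ≤ n := hj'
  obtain ⟨e, he⟩ := hW.iso hL (Nat.le_succ _) hj2 α
  obtain ⟨e', he', z', hz', hz1, hz2⟩ :=
    Pat3.inv hL hp hn (hp.mem (Nat.lt_succ_self (j + 1)) hj2 hW.sub) he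
  obtain ⟨C₀, hC₀, hCα, hCγ⟩ := hp.copy (Nat.lt_succ_self j) hj'.le hz'
  obtain ⟨C, hC, hCl⟩ := exists_tb_of_iso hL (Nat.le_succ j) hj'.le α hC₀
    ⟨e.symm, by rw [hCα]; exact hz1⟩
  have hCα' : RIso (α.L j (j + 1) C) e.symm := by
    rw [hCl, hCα]
    exact hz1
  have hCγ' : RIso (γ.L j (j + 1) C) e'.symm := by
    rw [hCl, hCγ]
    exact hz2
  have hCv : (v (j + 1)).L j (j + 1) C = α.L j (j + 1) C :=
    hp.left hj' (Nat.le_succ j) le_rfl hC.sub
  have hW1 : W ⊆ A (j + 1 + 1) \ A (j + 1) := hW.sub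
  have hT1 : insert x (W.erase y) ⊆ A (j + 1 + 1) \ A (j + 1) := hT.sub
  have hcomp : ∀ (u : FRep F w₀ A n s) (S : Finset E), S ⊆ A (j + 1 + 1) \ A (j + 1) →
      u.L j (j + 2) (C ∪ S) = rcomp (u.L j (j + 1) C) (u.L (j + 1) (j + 2) S) := fun u S hS =>
    FRep.L_comp hA (Nat.le_succ j) (Nat.le_succ (j + 1)) hj2 hC.sub hS
  have hAj : A j ⊆ A (j + 1) := hA j (by omega)
  have hxC : x ∉ C := by
    intro h1
    have h2 := (Finset.mem_sdiff.1 (hC.sub h1)).1
    have h3 := (Finset.mem_sdiff.1 (Finset.mem_sdiff.1 hx).1).2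
    exact h3 h2
  have hyC : y ∉ C := by
    intro h1
    have h2 := (Finset.mem_sdiff.1 (hC.sub h1)).1
    exact (Finset.mem_sdiff.1 (hW1 hy)).2 h2
  have hset : insert x ((C ∪ W).erase y) = C ∪ insert x (W.erase y) := by
    ext z
    simp only [Finset.mem_insert, Finset.mem_erase, Finset.mem_union]
    constructor
    · rintro (h1 | ⟨h1, h2 | h2⟩)
      · exact Or.inr (Or.inl h1)
      · exact Or.inl h2
      · exact Or.inr (Or.inr ⟨h1, h2⟩)
    · rintro (h1 | h1 | ⟨h1, h2⟩)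
      · refine Or.inr ⟨?_, Or.inl h1⟩
        rintro rfl
        exact hyC h1
      · exact Or.inl h1
      · exact Or.inr ⟨h1, Or.inr h2⟩
  have hα : α.L j (j + 2) (C ∪ W) = rid F (Fin s → F) := by
    rw [hcomp α W hW1]
    exact BrwH1_rid hCα' he (by ext1 g; simp)
  refine ⟨C ∪ W, x, y, hC.union hL (Nat.le_succ j) (Nat.le_succ (j + 1)) hj2 hW, hα, ?_, ?_, ?_,
    Finset.mem_union_right _ hy, ?_, ?_⟩
  · rw [hcomp γ W hW1]
    exact BrwH1_rid hCγ' he' (by ext1 g; simp)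
  · rw [hcomp _ W hW1, hCv]
    have h1 : (v (j + 1)).L (j + 1) (j + 2) W = α.L (j + 1) (j + 2) W := hWl
    rw [h1, ← hcomp α W hW1]
    exact hα
  · obtain ⟨h1, h2⟩ := Finset.mem_sdiff.1 hx
    obtain ⟨h3, h4⟩ := Finset.mem_sdiff.1 h1
    refine Finset.mem_sdiff.2 ⟨Finset.mem_sdiff.2 ⟨h3, fun h5 => h4 (hAj h5)⟩, fun h5 => ?_⟩
    rcases Finset.mem_union.1 h5 with h6 | h6
    · exact hxC h6
    · exact h2 h6
  · rw [hset]
    exact hC.union hL (Nat.le_succ j) (Nat.le_succ (j + 1)) hj2 hT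
  · rw [hset, hcomp _ _ hT1, hcomp _ _ hT1, hCv]
    intro hq
    exact hne (BrwH1_cancel hCα' hq)

end Pool.MP_4929df_co.H92
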