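import Pool.Agent.W_4929df_h92.BrwH1

/-!
The pattern with bad pairs: existence, coordinates, two blocks with the same point and functional.
-/

set_option autoImplicit false

namespace Pool.MP_4929df_co.H92

open Submodule

/-- relations with the same isomorphism are equal -/
private theorem BrwH2_riso_eq {F X : Type} [Field F] [AddCommGroup X] [Module F X]
    {R R' : Submodule F (X × X)} {e : X ≃ₗ[F] X} (h : RIso R e) (h' : RIso R' e) : R = R' := by
  ext ⟨g, k⟩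
  rw [h g k, h' g k]

/-- Subchain `f t = 2 * t + 2` of a chain with `2 * n + 3 ≤ n'`; `Y t`, `x t`, `y t` from
`Pat3.merge_one` with `j = 2 * t + 2`, `v t = (v (2 * t + 3)).sub f`. The labels of `Y t'` for the new
`v t`, `t' ≠ t`, are those of `α` or `γ` (`Pat3.left`, `Pat3.right`); `low`, `up` by `LowEq.mono`,
`LowEq.sub`, `UpEq.sub`; `ty` from `Pat3.ty`. -/
theorem Pat3.merge {F : Type} [Field F] [Finite F] {E : Type} [Fintype E] [DecidableEq E]
    {V : Type} [AddCommGroup V] [Module F V] [FiniteDimensional F V] {w₀ : E → V}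
    {A : ℕ → Finset E} {n n' s : ℕ} {Y : ℕ → Finset E} {α γ : FRep F w₀ A n' s}
    {v : ℕ → FRep F w₀ A n' s}
    {𝒯 : Set (Submodule F ((Fin s → F) × (Fin s → F)) ×
      Submodule F ((Fin s → F) × (Fin s → F)))}
    (hL : Lnk F w₀ A n' s) (hp : Pat3 Y α γ v 𝒯) (hn : 2 * n + 3 ≤ n') (h3 : 3 ≤ (A 0).card) :
    ∃ A' : ℕ → Finset E, Lnk F w₀ A' n s ∧ 3 ≤ (A' 0).card ∧
      ∃ (Y : ℕ → Finset E) (α γ : FRep F w₀ A' n s) (v : ℕ → FRep F w₀ A' n s) (x y : ℕ → E),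
        Pat4 Y α γ v 𝒯 x y := by
  classical
  obtain ⟨f, hfd⟩ : ∃ f : ℕ → ℕ, ∀ t, f t = 2 * t + 2 := ⟨fun t => 2 * t + 2, fun _ => rfl⟩
  have hf : ∀ i, i ≤ n → f i ≤ n' := fun i hi => by
    rw [hfd]
    omega
  have hm : ∀ i, i < n → f i < f (i + 1) := fun i _ => by
    rw [hfd, hfd]
    omega
  have hA : ∀ l, l < n' → A l ⊆ A (l + 1) := fun l hl => hL.sub hl
  have hex : ∀ t, ∃ Y' x y, t < n → TB F w₀ A (f t) (f (t + 1)) Y' ∧
      α.L (f t) (f (t + 1)) Y' = rid F (Fin s → F) ∧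
      γ.L (f t) (f (t + 1)) Y' = rid F (Fin s → F) ∧
      (v (f t + 1)).L (f t) (f (t + 1)) Y' = rid F (Fin s → F) ∧
      x ∈ (A (f (t + 1)) \ A (f t)) \ Y' ∧ y ∈ Y' ∧
      TB F w₀ A (f t) (f (t + 1)) (insert x (Y'.erase y)) ∧
      (v (f t + 1)).L (f t) (f (t + 1)) (insert x (Y'.erase y)) ≠
        α.L (f t) (f (t + 1)) (insert x (Y'.erase y)) := by
    intro t
    by_cases ht : t < n
    · have e1 : f (t + 1) = f t + 2 := by
        rw [hfd, hfd]
        ring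
      have e2 : f t = 2 * t + 2 := hfd t
      obtain ⟨Y', x, y, h⟩ := hp.merge_one hL (j := f t) (by omega) (by omega)
      refine ⟨Y', x, y, fun _ => ?_⟩
      rw [e1]
      exact h
    · have h0 : (A n').Nonempty := by
        have h1 : A 0 ⊆ A n' := chain_le hA (Nat.zero_le _) le_rfl
        have h2 : (A 0).Nonempty := Finset.card_pos.1 (by omega)
        exact h2.mono h1
      obtain ⟨z, -⟩ := h0
      exact ⟨∅, z, z, fun h => absurd h ht⟩
  choose Y' x y hY using hex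
  refine ⟨fun t => A (f t), hL.subchain hf hm, ?_, Y', α.sub f hf, γ.sub f hf,
    fun t => (v (f t + 1)).sub f hf, x, y, ?_⟩
  · exact h3.trans (Finset.card_le_card (chain_le hA (Nat.zero_le _) (hf 0 (Nat.zero_le _))))
  have hlt : ∀ t, t < n → f t + 1 < n' := fun t ht => by
    have := hfd t
    omega
  refine
    { low := ?_
      up := ?_
      Ytb := ?_
      Yα := ?_
      Yγ := ?_
      Yv := ?_
      diff := ?_
      ty := ?_
      hx := ?_
      hy := ?_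
      swp := ?_
      ne := ?_ }
  · intro t ht
    exact ((hp.low (f t + 1) (hlt t ht)).mono (Nat.le_succ _)).sub hf hm ht.le
  · intro t ht
    have h1 := hp.up (f t + 1) (hlt t ht)
    have e1 : f (t + 1) = f t + 1 + 1 := by
      rw [hfd, hfd]
      ring
    rw [← e1] at h1
    exact h1.sub hf hm ht
  · intro t ht
    have h1 := (hY t ht).1
    exact ⟨h1.sub, h1.span, h1.indL, h1.indR⟩
  · intro t ht
    exact (hY t ht).2.1
  · intro t ht
    exact (hY t ht).2.2.1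
  · intro i hi t ht
    show (v (f i + 1)).L (f t) (f (t + 1)) (Y' t) = rid F (Fin s → F)
    have e1 := hfd t
    have e2 := hfd (t + 1)
    have e3 := hfd i
    rcases lt_trichotomy t i with h | h | h
    · rw [hp.left (hlt i hi) (hm t ht).le (by omega) (hY t ht).1.sub]
      exact (hY t ht).2.1
    · subst h
      exact (hY t ht).2.2.2.1
    · rw [hp.right (hlt i hi) (by omega) (hm t ht).le (hf (t + 1) ht) (hY t ht).1.sub]
      exact (hY t ht).2.2.1
  · intro t ht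
    exact ⟨_, (hY t ht).2.2.2.2.2.2.1.sub, (hY t ht).2.2.2.2.2.2.2⟩
  · intro l m hlm hmn
    have e1 := hfd l
    have e2 := hfd m
    exact hp.ty (f l) (f m) (by omega) (hf m hmn)
  · intro t ht
    exact (hY t ht).2.2.2.2.1
  · intro t ht
    exact (hY t ht).2.2.2.2.2.1
  · intro t ht
    have h1 := (hY t ht).2.2.2.2.2.2.1
    exact ⟨h1.sub, h1.span, h1.indL, h1.indR⟩
  · intro t ht
    exact (hY t ht).2.2.2.2.2.2.2

variable {F : Type} [Field F] [Finite F] {E : Type} [Fintype E] [DecidableEq E] {V : Type}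
  [AddCommGroup V] [Module F V] [FiniteDimensional F V] {w₀ : E → V} {A : ℕ → Finset E} {n s : ℕ}
  {Y : ℕ → Finset E} {α γ : FRep F w₀ A n s} {v : ℕ → FRep F w₀ A n s}
  {𝒯 : Set (Submodule F ((Fin s → F) × (Fin s → F)) × Submodule F ((Fin s → F) × (Fin s → F)))}
  {x y : ℕ → E}

/-- coordinates of block `l` for the base `Y l` (`κ` is the identity) -/
theorem Pat3.exists_coord (hL : Lnk F w₀ A n s) (hp : Pat3 Y α γ v 𝒯) :
    ∃ (P : ℕ → E → Fin s → F) (H : ℕ → E → (Fin s → F) →ₗ[F] F) (a : ℕ → E → E → F),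
      ∀ l, l < n → Blk α l (Y l) (LinearEquiv.refl F (Fin s → F)) (P l) (H l) (a l) := by
  have hex : ∀ l, ∃ (P : E → Fin s → F) (H : E → (Fin s → F) →ₗ[F] F) (a : E → E → F),
      l < n → Blk α l (Y l) (LinearEquiv.refl F (Fin s → F)) P H a := by
    intro l
    by_cases hl : l < n
    · obtain ⟨κ, P, H, a, h⟩ := exists_blk hL hl (hp.Ytb l hl) α
      have h1 := h.riso hl
      rw [hp.Yα l hl] at h1
      have h2 := h1.unique riso_rid
      rw [h2] at h
      exact ⟨P, H, a, fun _ => h⟩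
    · exact ⟨fun _ => 0, fun _ => 0, fun _ _ => 0, fun h => absurd h hl⟩
  choose P H a h using hex
  exact ⟨P, H, a, h⟩

/-- The bad pair in coordinates. `Pat3.shared` gives `κ' = 1` (the label of `Y i` for `v i` is the
identity). `Blk.swap_iff` for both. If `P x = 0` or `H y = 0` or `a x y = a' x y` then the
isomorphisms of `Blk.pivot` are the same and the labels of the exchanged set would be equal. -/
theorem Pat4.bad (hL : Lnk F w₀ A n s) (hp : Pat4 Y α γ v 𝒯 x y) {i : ℕ} (hi : 2 ≤ i)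
    (hi' : i < n) {P : E → Fin s → F} {H : E → (Fin s → F) →ₗ[F] F} {a : E → E → F}
    (h : Blk α i (Y i) (LinearEquiv.refl F (Fin s → F)) P H a) :
    ∃ (c : E → F) (hc : ∀ x, c x ≠ 0) (a' : E → E → F),
      Blk ((v i).scale c hc) i (Y i) (LinearEquiv.refl F (Fin s → F)) P H a' ∧
      P (x i) ≠ 0 ∧ H (y i) ≠ 0 ∧ a (x i) (y i) ≠ 0 ∧ a' (x i) (y i) ≠ 0 ∧
      a (x i) (y i) + H (y i) (P (x i)) ≠ 0 ∧ a' (x i) (y i) + H (y i) (P (x i)) ≠ 0 ∧
      a (x i) (y i) ≠ a' (x i) (y i) := by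
  have hsw := (h.swap_iff hL hi' (hp.hx i hi') (hp.hy i hi')).1 (hp.swp i hi')
  obtain ⟨c, hc, κ', a', h'⟩ := hp.toPat3.shared hL hi hi' h
  have h1 := h'.riso hi'
  rw [FRep.scale_L, hp.Yv i hi' i hi'] at h1
  have h2 := h1.unique riso_rid
  rw [h2] at h'
  have hsw' := (h'.swap_iff hL hi' (hp.hx i hi') (hp.hy i hi')).1 (hp.swp i hi')
  obtain ⟨κ₁, hκ₁, hb₁⟩ := h.pivot hL hi' (hp.hx i hi') (hp.hy i hi') hsw.1 hsw.2
  obtain ⟨κ₂, hκ₂, hb₂⟩ := h'.pivot hL hi' (hp.hx i hi') (hp.hy i hi') hsw'.1 hsw'.2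
  have hne : κ₁ ≠ κ₂ := by
    intro he
    have h3 := hb₁.riso hi'
    have h4 := hb₂.riso hi'
    rw [FRep.scale_L, ← he] at h4
    exact hp.ne i hi' (BrwH2_riso_eq h4 h3)
  refine ⟨c, hc, a', h', ?_, ?_, hsw.1, hsw'.1, hsw.2, hsw'.2, ?_⟩
  · intro h0
    apply hne
    ext1 g
    rw [hκ₁, hκ₂, h0, smul_zero, smul_zero]
  · intro h0
    apply hne
    ext1 g
    rw [hκ₁, hκ₂, h0, LinearMap.zero_apply, zero_mul, zero_mul]
  · intro h0
    apply hne
    ext1 g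
    rw [hκ₁, hκ₂, h0]

/-- The consequence of rule 3 for the bad pair: `e`, `e'` are the isomorphisms of the exchanged set for
`α` and `v i` (`Blk.pivot`): `e g = g - (H y g * b⁻¹) • P x`, `e' g = g - (H y g * b'⁻¹) • P x` with
`b = a x y + H y (P x) ≠ b'`. `Pat3.rule_fix`: `U.map (e.symm.trans e') = U`. For `g` with `e g ∈ U` also
`e' g ∈ U`, so `H y g • P x ∈ U`. If `P x ∉ U` then `H y g = 0`, so `e g = g`: `U ≤ ker (H y)`. -/
theorem Pat4.fix (hL : Lnk F w₀ A n s) (hp : Pat4 Y α γ v 𝒯 x y) {i : ℕ} (hi : 2 ≤ i)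
    (hi' : i + 3 ≤ n) {P : E → Fin s → F} {H : E → (Fin s → F) →ₗ[F] F} {a : E → E → F}
    (h : Blk α i (Y i) (LinearEquiv.refl F (Fin s → F)) P H a)
    {U : Submodule F (Fin s → F)} (hU : Seen 𝒯 U) :
    P (x i) ∈ U ∨ U ≤ LinearMap.ker (H (y i)) := by
  have hin : i < n := by omega
  obtain ⟨c, hc, a', h', -, -, ha, ha', hb, hb', hne⟩ := hp.bad hL hi hin h
  obtain ⟨κ₁, hκ₁, hb₁⟩ := h.pivot hL hin (hp.hx i hin) (hp.hy i hin) ha hb
  obtain ⟨κ₂, hκ₂, hb₂⟩ := h'.pivot hL hin (hp.hx i hin) (hp.hy i hin) ha' hb'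
  have h3 := hb₁.riso hin
  have h4 := hb₂.riso hin
  rw [FRep.scale_L] at h4
  have h5 := hp.toPat3.rule_fix hL hi hi' (hp.swp i hin).sub h3 h4 hU
  by_cases hx : P (x i) ∈ U
  · exact Or.inl hx
  refine Or.inr fun g₀ hg₀ => ?_
  rw [LinearMap.mem_ker]
  obtain ⟨g, hg⟩ : ∃ g, κ₁ g = g₀ := ⟨κ₁.symm g₀, by simp⟩
  have h6 : κ₂ g ∈ U := by
    rw [← h5]
    refine ⟨g₀, hg₀, ?_⟩
    show κ₂ (κ₁.symm g₀) = κ₂ g
    rw [← hg, LinearEquiv.symm_apply_apply]
  have e1 : κ₁ g = g - (H (y i) g * (a (x i) (y i) + H (y i) (P (x i)))⁻¹) • P (x i) := hκ₁ g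
  have e2 : κ₂ g = g - (H (y i) g * (a' (x i) (y i) + H (y i) (P (x i)))⁻¹) • P (x i) := hκ₂ g
  have h7 : κ₁ g - κ₂ g ∈ U := U.sub_mem (by rw [hg]; exact hg₀) h6
  have h8 : κ₁ g - κ₂ g = (H (y i) g * ((a' (x i) (y i) + H (y i) (P (x i)))⁻¹ -
      (a (x i) (y i) + H (y i) (P (x i)))⁻¹)) • P (x i) := by
    rw [e1, e2, mul_sub, sub_smul]
    abel
  have h9 : H (y i) g = 0 := by
    by_contra h0
    have h10 : (a' (x i) (y i) + H (y i) (P (x i)))⁻¹ -
        (a (x i) (y i) + H (y i) (P (x i)))⁻¹ ≠ 0 := by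
      intro h11
      have h12 := inv_injective (sub_eq_zero.1 h11)
      exact hne (add_right_cancel h12).symm
    apply hx
    rw [h8] at h7
    have h11 := U.smul_mem (H (y i) g * ((a' (x i) (y i) + H (y i) (P (x i)))⁻¹ -
      (a (x i) (y i) + H (y i) (P (x i)))⁻¹))⁻¹ h7
    rwa [smul_smul, inv_mul_cancel₀ (mul_ne_zero h0 h10), one_smul] at h11
  rw [h9, zero_mul, zero_smul, sub_zero, hg] at e1
  rw [e1]
  exact h9

/-- pigeonhole for `l ↦ (P l (x l), H l (y l))` on `{2, ..., n - 3}`, a function to a finite type -/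
theorem exists_two (F : Type) [Field F] [Finite F] (s : ℕ) : ∃ n : ℕ,
    ∀ {E : Type} (P : ℕ → E → Fin s → F) (H : ℕ → E → (Fin s → F) →ₗ[F] F) (x y : ℕ → E),
      ∃ i i', 2 ≤ i ∧ i < i' ∧ i' + 3 ≤ n ∧ P i (x i) = P i' (x i') ∧ H i (y i) = H i' (y i') := by
  have : Finite ((Fin s → F) →ₗ[F] F) :=
    Finite.of_injective (fun f : (Fin s → F) →ₗ[F] F => (f : (Fin s → F) → F)) DFunLike.coe_injective
  have := Fintype.ofFinite ((Fin s → F) × ((Fin s → F) →ₗ[F] F))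
  refine ⟨Fintype.card ((Fin s → F) × ((Fin s → F) →ₗ[F] F)) + 5, fun P H x y => ?_⟩
  obtain ⟨k, k', hne, heq⟩ := Fintype.exists_ne_map_eq_of_card_lt
    (fun k : Fin (Fintype.card ((Fin s → F) × ((Fin s → F) →ₗ[F] F)) + 1) =>
      (P (2 + k) (x (2 + k)), H (2 + k) (y (2 + k)))) (by simp)
  simp only [Prod.mk.injEq] at heq
  have hk := k.2
  have hk' := k'.2
  have hne' : (k : ℕ) ≠ (k' : ℕ) := fun h => hne (Fin.ext h)
  rcases lt_or_gt_of_ne hne' with h | h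
  · exact ⟨2 + k, 2 + k', by omega, by omega, by omega, heq.1, heq.2⟩
  · exact ⟨2 + k', 2 + k, by omega, by omega, by omega, heq.1.symm, heq.2.symm⟩

end Pool.MP_4929df_co.H92
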