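import Pool.Agent.W_4929df_h92.BrwS1

/-!
Types of the elements of a block; forbidden configurations in the case `f q ≠ 0`.
-/

set_option autoImplicit false

namespace Pool.MP_4929df_co.H92

open Submodule

variable {F : Type} [Field F] [Finite F] {E : Type} [Fintype E] [DecidableEq E] {V : Type}
  [AddCommGroup V] [Module F V] [FiniteDimensional F V] {w₀ : E → V} {A : ℕ → Finset E} {n s : ℕ}
  {Y : ℕ → Finset E} {α γ : FRep F w₀ A n s} {v : ℕ → FRep F w₀ A n s}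
  {𝒯 : Set (Submodule F ((Fin s → F) × (Fin s → F)) × Submodule F ((Fin s → F) × (Fin s → F)))}
  {l : ℕ} {W : Finset E} {κ : (Fin s → F) ≃ₗ[F] (Fin s → F)} {p : E → Fin s → F}
  {ph : E → (Fin s → F) →ₗ[F] F} {a : E → E → F} {x y : E} {q : Fin s → F}
  {f : (Fin s → F) →ₗ[F] F}

/-- `Pat3.add_mem`, `seen_add`, `hfix` for `span {p x}` -/
theorem Blk.t1 (hL : Lnk F w₀ A n s) (hp : Pat3 Y α γ v 𝒯) (hn : 2 ≤ n) (hl : l < n)
    (hfix : ∀ U, Seen 𝒯 U → q ∈ U ∨ U ≤ LinearMap.ker f) (hq : q ≠ 0)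
    (h : Blk α l W κ p ph a) (hx : x ∈ (A (l + 1) \ A l) \ W) :
    f (p x) = 0 ∨ ∃ c : F, c ≠ 0 ∧ p x = c • q := by
  rcases hfix _ (seen_add (Pat3.add_mem hL hp hn hl h hx)) with h1 | h1
  · right
    obtain ⟨b, hb⟩ := Submodule.mem_span_singleton.1 h1
    have hb0 : b ≠ 0 := by
      rintro rfl
      rw [zero_smul] at hb
      exact hq hb.symm
    refine ⟨b⁻¹, inv_ne_zero hb0, ?_⟩
    rw [← hb, smul_smul, inv_mul_cancel₀ hb0, one_smul]
  · left
    exact LinearMap.mem_ker.1 (h1 (Submodule.mem_span_singleton_self _))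

/-- `Pat3.cut_mem`, `seen_cut`, `hfix` for `ker (ph y)` -/
theorem Blk.t2 (hL : Lnk F w₀ A n s) (hp : Pat3 Y α γ v 𝒯) (hn : 2 ≤ n) (hl : l < n)
    (hfix : ∀ U, Seen 𝒯 U → q ∈ U ∨ U ≤ LinearMap.ker f) (hf : f ≠ 0)
    (h : Blk α l W κ p ph a) (hy : y ∈ W) :
    ph y q = 0 ∨ ∃ c : F, c ≠ 0 ∧ ph y = c • f := by
  rcases hfix _ (seen_cut (Pat3.cut_mem hL hp hn hl h hy)) with h1 | h1
  · left
    exact LinearMap.mem_ker.1 h1
  · right
    have h2 : ph y ≠ 0 := by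
      intro h2
      apply hf
      refine LinearMap.ext fun g => ?_
      have h3 : g ∈ LinearMap.ker (ph y) := by rw [h2]; exact rfl
      exact LinearMap.mem_ker.1 (h1 h3)
    obtain ⟨g₀, hg₀⟩ : ∃ g₀, ph y g₀ ≠ 0 := by
      by_contra h3
      push Not at h3
      exact h2 (LinearMap.ext h3)
    have h3 : ∀ g, f g = (f g₀ * (ph y g₀)⁻¹) * ph y g := by
      intro g
      have h4 : g - (ph y g * (ph y g₀)⁻¹) • g₀ ∈ LinearMap.ker (ph y) := by
        rw [LinearMap.mem_ker, map_sub, map_smul, smul_eq_mul, mul_assoc,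
          inv_mul_cancel₀ hg₀, mul_one, sub_self]
      have h5 := LinearMap.mem_ker.1 (h1 h4)
      rw [map_sub, map_smul, smul_eq_mul, sub_eq_zero] at h5
      rw [h5]
      ring
    have hc : f g₀ * (ph y g₀)⁻¹ ≠ 0 := by
      intro hc
      apply hf
      refine LinearMap.ext fun g => ?_
      rw [h3 g, hc, zero_mul]
      rfl
    refine ⟨(f g₀ * (ph y g₀)⁻¹)⁻¹, inv_ne_zero hc, ?_⟩
    refine LinearMap.ext fun g => ?_
    rw [LinearMap.smul_apply, smul_eq_mul, h3 g, ← mul_assoc, inv_mul_cancel₀ hc, one_mul]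

/-- the exchange letter followed by the inverse letter of `W` (`Blk.pivot`, `Blk.riso`) -/
theorem Pat3.swp_mem (hL : Lnk F w₀ A n s) (hp : Pat3 Y α γ v 𝒯) (hn : 2 ≤ n) (hl : l < n)
    (h : Blk α l W κ p ph a) (hx : x ∈ (A (l + 1) \ A l) \ W) (hy : y ∈ W) (h1 : a x y ≠ 0)
    (h2 : a x y + ph y (p x) ≠ 0) :
    ∃ z ∈ 𝒯, ∃ e : (Fin s → F) ≃ₗ[F] (Fin s → F), RIso z.1 e ∧
      ∀ g, e g = g - (ph y g * (a x y + ph y (p x))⁻¹) • p x := by
  obtain ⟨κ', hκ, h'⟩ := h.pivot hL hl hx hy h1 h2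
  have hx1 := Finset.mem_sdiff.1 hx
  obtain ⟨e', -, z', hz', hz1, -⟩ := hp.inv hL hn
    (hp.mem (l := l) (m := l + 1) (Nat.lt_succ_self l) hl h.tb.sub) (h.riso hl)
  have h3 := hp.comp hL hn
    (hp.mem (l := l) (m := l + 1) (Nat.lt_succ_self l) hl h'.tb.sub) hz'
  refine ⟨_, h3, κ'.trans κ.symm, (h'.riso hl).comp hz1, fun g => ?_⟩
  rw [LinearEquiv.trans_apply, hκ g, LinearEquiv.symm_apply_apply]

/-- Edge between `y` with `ph y = c • f` and `x` with `p x ∈ ker f`: the subspace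
`span {e q}`, `e` from `Pat3.swp_mem` (`ph y (p x) = 0`), is seen (`Pat3.seen_map`, `seen_add`), but
`e q = q - c' • p x` with `c' ≠ 0`. -/
theorem hom_edge1 (hL : Lnk F w₀ A n s) (hp : Pat3 Y α γ v 𝒯) (hn : 2 ≤ n) (hl : l < n)
    (hfix : ∀ U, Seen 𝒯 U → q ∈ U ∨ U ≤ LinearMap.ker f) (hfq : f q ≠ 0)
    (hadd : ∃ z ∈ 𝒯, z.1 = addR q) (h : Blk α l W κ p ph a)
    (hx : x ∈ (A (l + 1) \ A l) \ W) (hy : y ∈ W) (ha : a x y ≠ 0) (hpx : p x ≠ 0)
    (hfx : f (p x) = 0) {c : F} (hc : c ≠ 0) (hphy : ph y = c • f) : False := by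
  have h0 : ph y (p x) = 0 := by rw [hphy, LinearMap.smul_apply, hfx, smul_zero]
  obtain ⟨z, hz, e, he, heg⟩ := Pat3.swp_mem hL hp hn hl h hx hy ha (by rwa [h0, add_zero])
  have hq : e q = q - (c * f q * (a x y)⁻¹) • p x := by
    rw [heg q, h0, add_zero, hphy, LinearMap.smul_apply, smul_eq_mul]
  have hc' : c * f q * (a x y)⁻¹ ≠ 0 := mul_ne_zero (mul_ne_zero hc hfq) (inv_ne_zero ha)
  have hfe : f (e q) = f q := by rw [hq, map_sub, map_smul, hfx, smul_zero, sub_zero]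
  rcases hfix _ (Pat3.seen_map hL hp hn hz he (seen_add hadd)) with h1 | h1
  · obtain ⟨g, hg, hgq⟩ := Submodule.mem_map.1 h1
    obtain ⟨t, rfl⟩ := Submodule.mem_span_singleton.1 hg
    rw [LinearEquiv.coe_coe, map_smul] at hgq
    have h2 : t = 1 := by
      have h3 := congrArg f hgq
      rw [map_smul, hfe, smul_eq_mul] at h3
      exact mul_right_cancel₀ hfq (h3.trans (one_mul _).symm)
    rw [h2, one_smul, hq, sub_eq_self] at hgq
    exact (smul_ne_zero hc' hpx) hgq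
  · have h2 : f (e q) = 0 := LinearMap.mem_ker.1
      (h1 (Submodule.mem_map.2 ⟨q, Submodule.mem_span_singleton_self q, rfl⟩))
    exact hfq (hfe ▸ h2)

/-- Edge between `x` with `p x = c • q` and `y` with `ph y q = 0`: `(ker f).map e` is seen. -/
theorem hom_edge2 (hL : Lnk F w₀ A n s) (hp : Pat3 Y α γ v 𝒯) (hn : 2 ≤ n) (hl : l < n)
    (hfix : ∀ U, Seen 𝒯 U → q ∈ U ∨ U ≤ LinearMap.ker f) (hfq : f q ≠ 0)
    (hcut : ∃ z ∈ 𝒯, z.1 = cutR f) (h : Blk α l W κ p ph a)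
    (hx : x ∈ (A (l + 1) \ A l) \ W) (hy : y ∈ W) (ha : a x y ≠ 0) (hphy : ph y ≠ 0)
    (hyq : ph y q = 0) {c : F} (hc : c ≠ 0) (hpx : p x = c • q) : False := by
  have h0 : ph y (p x) = 0 := by rw [hpx, map_smul, hyq, smul_zero]
  obtain ⟨z, hz, e, he, heg⟩ := Pat3.swp_mem hL hp hn hl h hx hy ha (by rwa [h0, add_zero])
  have heg' : ∀ g, e g = g - (ph y g * (a x y)⁻¹ * c) • q := by
    intro g
    rw [heg g, h0, add_zero, hpx, smul_smul]
  rcases hfix _ (Pat3.seen_map hL hp hn hz he (seen_cut hcut)) with h1 | h1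
  · obtain ⟨g, hg, hgq⟩ := Submodule.mem_map.1 h1
    rw [LinearEquiv.coe_coe, heg' g] at hgq
    have h2 := congrArg (ph y) hgq
    rw [map_sub, map_smul, hyq, smul_zero, sub_zero] at h2
    rw [h2, zero_mul, zero_mul, zero_smul, sub_zero] at hgq
    rw [← hgq] at hfq
    exact hfq (LinearMap.mem_ker.1 hg)
  · have h2 : ∀ g, f g = 0 → ph y g = 0 := by
      intro g hg
      have h3 : f (e g) = 0 := LinearMap.mem_ker.1
        (h1 (Submodule.mem_map.2 ⟨g, LinearMap.mem_ker.2 hg, rfl⟩))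
      rw [heg' g, map_sub, map_smul, hg, zero_sub, neg_eq_zero, smul_eq_mul] at h3
      by_contra h4
      exact mul_ne_zero (mul_ne_zero (mul_ne_zero h4 (inv_ne_zero ha)) hc) hfq h3
    apply hphy
    refine LinearMap.ext fun g => ?_
    have h3 := h2 (g - (f g * (f q)⁻¹) • q) (by
      rw [map_sub, map_smul, smul_eq_mul, mul_assoc, inv_mul_cancel₀ hfq, mul_one, sub_self])
    rw [map_sub, map_smul, hyq, smul_zero, sub_zero] at h3
    rw [h3]
    rfl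

/-- Path through a `y` with `ph y = 0`: `Blk.pivot` for `x'`, `y`, then `Blk.t1` for `x`: the new point
is `c • q - m • p x'` with `m ≠ 0`. -/
theorem hom_path1 (hL : Lnk F w₀ A n s) (hp : Pat3 Y α γ v 𝒯) (hn : 2 ≤ n) (hl : l < n)
    (hfix : ∀ U, Seen 𝒯 U → q ∈ U ∨ U ≤ LinearMap.ker f) (hfq : f q ≠ 0)
    (h : Blk α l W κ p ph a) {x' : E}
    (hx : x ∈ (A (l + 1) \ A l) \ W) (hx' : x' ∈ (A (l + 1) \ A l) \ W) (hy : y ∈ W)
    (ha : a x y ≠ 0) (ha' : a x' y ≠ 0) (hphy : ph y = 0) {c : F} (hc : c ≠ 0)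
    (hpx : p x = c • q) (hpx' : p x' ≠ 0) (hfx' : f (p x') = 0) : False := by
  have hq : q ≠ 0 := by
    rintro rfl
    exact hfq (map_zero f)
  have hxx : x ≠ x' := by
    rintro rfl
    rw [hpx, map_smul, smul_eq_mul] at hfx'
    exact mul_ne_zero hc hfq hfx'
  have hx1 := Finset.mem_sdiff.1 hx
  have hxy : x ≠ y := by
    rintro rfl
    exact hx1.2 hy
  obtain ⟨κ', -, h'⟩ := h.pivot hL hl hx' hy ha' (by
    rwa [hphy, LinearMap.zero_apply, add_zero])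
  have hx2 : x ∈ (A (l + 1) \ A l) \ insert x' (W.erase y) := by
    refine Finset.mem_sdiff.2 ⟨hx1.1, fun h1 => ?_⟩
    rcases Finset.mem_insert.1 h1 with h1 | h1
    · exact hxx h1
    · exact hx1.2 (Finset.mem_of_mem_erase h1)
  have hP : pvP p a x' y x = c • q - (a x y * (a x' y)⁻¹) • p x' := by
    unfold pvP
    rw [if_neg hxy, hpx]
  have hm : a x y * (a x' y)⁻¹ ≠ 0 := mul_ne_zero ha (inv_ne_zero ha')
  have hfP : f (pvP p a x' y x) = c * f q := by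
    rw [hP, map_sub, map_smul, map_smul, hfx', smul_zero, sub_zero, smul_eq_mul]
  rcases Blk.t1 hL hp hn hl hfix hq h' hx2 with h1 | ⟨c₂, -, h1⟩
  · rw [hfP] at h1
    exact mul_ne_zero hc hfq h1
  · have h2 : c₂ = c := by
      rw [h1, map_smul, smul_eq_mul] at hfP
      exact mul_right_cancel₀ hfq hfP
    rw [h2, hP, sub_eq_self] at h1
    exact smul_ne_zero hm hpx' h1

/-- Path through an `x` with `p x = 0`: `Blk.pivot` for `x`, `y'`, then `Blk.t2` for `y`. -/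
theorem hom_path2 (hL : Lnk F w₀ A n s) (hp : Pat3 Y α γ v 𝒯) (hn : 2 ≤ n) (hl : l < n)
    (hfix : ∀ U, Seen 𝒯 U → q ∈ U ∨ U ≤ LinearMap.ker f) (hfq : f q ≠ 0)
    (h : Blk α l W κ p ph a) {y' : E}
    (hx : x ∈ (A (l + 1) \ A l) \ W) (hy : y ∈ W) (hy' : y' ∈ W)
    (ha : a x y ≠ 0) (ha' : a x y' ≠ 0) (hpx : p x = 0) {c : F} (hc : c ≠ 0)
    (hphy : ph y = c • f) (hphy' : ph y' ≠ 0) (hyq' : ph y' q = 0) : False := by
  have hf : f ≠ 0 := by
    rintro rfl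
    exact hfq rfl
  have hyy : y ≠ y' := by
    rintro rfl
    rw [hphy, LinearMap.smul_apply, smul_eq_mul] at hyq'
    exact mul_ne_zero hc hfq hyq'
  have hx1 := Finset.mem_sdiff.1 hx
  have hyx : y ≠ x := by
    rintro rfl
    exact hx1.2 hy
  obtain ⟨κ', -, h'⟩ := h.pivot hL hl hx hy' ha' (by
    rwa [hpx, map_zero, add_zero])
  have hy2 : y ∈ insert x (W.erase y') :=
    Finset.mem_insert_of_mem (Finset.mem_erase.2 ⟨hyy, hy⟩)
  have hH : pvH p ph a x y' y = c • f - (a x y * (a x y')⁻¹) • ph y' := by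
    unfold pvH
    rw [if_neg hyx, hpx, map_zero, map_zero, add_zero, add_zero, hphy]
  have hm : a x y * (a x y')⁻¹ ≠ 0 := mul_ne_zero ha (inv_ne_zero ha')
  have hHq : pvH p ph a x y' y q = c * f q := by
    rw [hH, LinearMap.sub_apply, LinearMap.smul_apply, LinearMap.smul_apply, hyq', smul_zero,
      sub_zero, smul_eq_mul]
  rcases Blk.t2 hL hp hn hl hfix hf h' hy2 with h1 | ⟨c₂, -, h1⟩
  · rw [hHq] at h1
    exact mul_ne_zero hc hfq h1
  · have h2 : c₂ = c := by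
      rw [h1, LinearMap.smul_apply, smul_eq_mul] at hHq
      exact mul_right_cancel₀ hfq hHq
    rw [h2, hH, sub_eq_self] at h1
    exact smul_ne_zero hm hphy' h1

end Pool.MP_4929df_co.H92
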