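import Pool.Agent.W_4929df_h92.BrwI1

/-!
The case `f q ≠ 0`.
-/

set_option autoImplicit false

namespace Pool.MP_4929df_co.H92

open Submodule

/-- a base of block `l` with its coordinates -/
structure BSt {F : Type} [Field F] {E : Type} [Fintype E] [DecidableEq E] {V : Type}
    [AddCommGroup V] [Module F V] {w₀ : E → V} {A : ℕ → Finset E} {n s : ℕ}
    (α : FRep F w₀ A n s) (l : ℕ) where
  W : Finset E
  κ : (Fin s → F) ≃ₗ[F] (Fin s → F)
  p : E → Fin s → F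
  ph : E → (Fin s → F) →ₗ[F] F
  a : E → E → F
  h : Blk α l W κ p ph a

section

variable {F : Type} [Field F] {E : Type} [Fintype E] [DecidableEq E] {V : Type}
  [AddCommGroup V] [Module F V] {w₀ : E → V} {A : ℕ → Finset E} {n s : ℕ}
  {α : FRep F w₀ A n s} {l : ℕ}

/-- point in `⟨q⟩`, functional in `⟨f⟩` -/
def BSt.PT (S : BSt α l) (q : Fin s → F) (f : (Fin s → F) →ₗ[F] F) (d : E) : Prop :=
  (d ∈ (A (l + 1) \ A l) \ S.W ∧ ∃ c : F, c ≠ 0 ∧ S.p d = c • q) ∨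
    (d ∈ S.W ∧ ∃ c : F, c ≠ 0 ∧ S.ph d = c • f)

/-- point in `ker f`, functional vanishing at `q` -/
def BSt.QT (S : BSt α l) (q : Fin s → F) (f : (Fin s → F) →ₗ[F] F) (d : E) : Prop :=
  (d ∈ (A (l + 1) \ A l) \ S.W ∧ S.p d ≠ 0 ∧ f (S.p d) = 0) ∨
    (d ∈ S.W ∧ S.ph d ≠ 0 ∧ S.ph d q = 0)

def BSt.adj (S : BSt α l) (d e : E) : Prop := badj (A (l + 1) \ A l) S.W S.a d e

end

variable {F : Type} [Field F] [Finite F] {E : Type} [Fintype E] [DecidableEq E] {V : Type}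
  [AddCommGroup V] [Module F V] [FiniteDimensional F V] {w₀ : E → V} {A : ℕ → Finset E} {n s : ℕ}
  {Y : ℕ → Finset E} {α γ : FRep F w₀ A n s} {v : ℕ → FRep F w₀ A n s}
  {𝒯 : Set (Submodule F ((Fin s → F) × (Fin s → F)) × Submodule F ((Fin s → F) × (Fin s → F)))}
  {l : ℕ} {q : Fin s → F} {f : (Fin s → F) →ₗ[F] F} {x y : ℕ → E}

/-- an element outside the base of neither type has point 0 -/
private theorem brwI2_null1 (hL : Lnk F w₀ A n s) (hp : Pat3 Y α γ v 𝒯) (hn : 2 ≤ n) (hl : l < n)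
    (hfix : ∀ U, Seen 𝒯 U → q ∈ U ∨ U ≤ LinearMap.ker f) (hq : q ≠ 0) (S : BSt α l) {d : E}
    (hd : d ∈ (A (l + 1) \ A l) \ S.W) (h1 : ¬ S.QT q f d) (h2 : ¬ S.PT q f d) : S.p d = 0 := by
  rcases Blk.t1 hL hp hn hl hfix hq S.h hd with h3 | ⟨c, hc, h3⟩
  · by_contra h4
    exact h1 (Or.inl ⟨hd, h4, h3⟩)
  · exact absurd (Or.inl ⟨hd, c, hc, h3⟩) h2

/-- an element of the base of neither type has functional 0 -/
private theorem brwI2_null2 (hL : Lnk F w₀ A n s) (hp : Pat3 Y α γ v 𝒯) (hn : 2 ≤ n) (hl : l < n)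
    (hfix : ∀ U, Seen 𝒯 U → q ∈ U ∨ U ≤ LinearMap.ker f) (hf : f ≠ 0) (S : BSt α l) {d : E}
    (hd : d ∈ S.W) (h1 : ¬ S.QT q f d) (h2 : ¬ S.PT q f d) : S.ph d = 0 := by
  rcases Blk.t2 hL hp hn hl hfix hf S.h hd with h3 | ⟨c, hc, h3⟩
  · by_contra h4
    exact h1 (Or.inr ⟨hd, h4, h3⟩)
  · exact absurd (Or.inr ⟨hd, c, hc, h3⟩) h2

omit [Finite F] [FiniteDimensional F V] in
/-- edges after the pivot: `y` leaves the base, `x` enters; `r` is the one of `x`, `y` that is far -/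
private theorem brwI2_edge (S : BSt α l) {x y r : E} (hy : y ∈ S.W)
    (hx : x ∈ (A (l + 1) \ A l) \ S.W) (hr : r = x ∨ r = y) {d e : E} (hde : S.adj d e)
    (hdx : d ≠ x) (hdy : d ≠ y) (hex : e ≠ x) (hey : e ≠ y) (hd : ¬ S.adj d r)
    (he : ¬ S.adj e r) :
    badj (A (l + 1) \ A l) (insert x (S.W.erase y)) (pvA S.a x y) d e := by
  have key : ∀ d e, d ∈ (A (l + 1) \ A l) \ S.W → e ∈ S.W → S.a d e ≠ 0 → d ≠ x → d ≠ y →
      e ≠ x → e ≠ y → ¬ S.adj d r → ¬ S.adj e r →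
      d ∈ (A (l + 1) \ A l) \ insert x (S.W.erase y) ∧ e ∈ insert x (S.W.erase y) ∧
        pvA S.a x y d e ≠ 0 := by
    intro d e hdW heW hae hdx hdy hex hey hd he
    have h1 := Finset.mem_sdiff.1 hdW
    refine ⟨Finset.mem_sdiff.2 ⟨h1.1, fun h4 => ?_⟩,
      Finset.mem_insert_of_mem (Finset.mem_erase.2 ⟨hey, heW⟩), ?_⟩
    · rcases Finset.mem_insert.1 h4 with h5 | h5
      · exact hdx h5
      · exact h1.2 (Finset.mem_of_mem_erase h5)
    · unfold pvA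
      rw [if_neg hdy, if_neg hex]
      have h2 : S.a d y * S.a x e = 0 := by
        rcases hr with rfl | rfl
        · have h3 : S.a r e = 0 := by
            by_contra h3
            exact he (Or.inr ⟨heW, hx, h3⟩)
          rw [h3, mul_zero]
        · have h3 : S.a d r = 0 := by
            by_contra h3
            exact hd (Or.inl ⟨hdW, hy, h3⟩)
          rw [h3, zero_mul]
      rw [h2, zero_mul, sub_zero]
      exact hae
  rcases hde with ⟨h1, h2, h3⟩ | ⟨h1, h2, h3⟩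
  · exact Or.inl (key d e h1 h2 h3 hdx hdy hex hey hd he)
  · obtain ⟨k1, k2, k3⟩ := key e d h2 h1 h3 hex hey hdx hdy he hd
    exact Or.inr ⟨k2, k1, k3⟩

/-- The pivot step. By `Blk.t1`, `Blk.t2` the element `u` is null (`p u = 0` resp. `ph u = 0`) and so
is every `t` with the same properties. If `v ∉ W` and `u ∈ W`: `Blk.pivot` for `x = v`, `y = u`
(`ph u = 0`); if `v ∈ W` and `u ∉ W`: `Blk.pivot` for `x = u`, `y = v` (`p u = 0`). The new
coordinates are `pvP`, `pvH`, `pvA`. -/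
theorem hom_step (hL : Lnk F w₀ A n s) (hp : Pat3 Y α γ v 𝒯) (hn : 2 ≤ n) (hl : l < n)
    (hfix : ∀ U, Seen 𝒯 U → q ∈ U ∨ U ≤ LinearMap.ker f) (hfq : f q ≠ 0)
    (S : BSt α l) (u v' : E) (huv : S.adj u v') (hv : S.QT q f v') (hu : ¬ S.QT q f u)
    (hu' : ¬ S.PT q f u)
    (hst : ∀ d, S.PT q f d → ¬ S.adj d u ∧ ¬ S.adj d v' ∧ ¬ S.QT q f d) :
    ∃ S' : BSt α l, (∀ d, S.PT q f d → S'.PT q f d) ∧
      (∀ d e, S.adj d e → d ≠ u → d ≠ v' → e ≠ u → e ≠ v' → ¬ S.adj d v' → ¬ S.adj e v' →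
        S'.adj d e) ∧
      ∀ t, S.adj t u → ¬ S.QT q f t → ¬ S.PT q f t → S'.QT q f t := by
  have hq : q ≠ 0 := by
    rintro rfl
    exact hfq (map_zero f)
  have hf : f ≠ 0 := by
    rintro rfl
    exact hfq rfl
  rcases huv with ⟨hu1, hv1, ha⟩ | ⟨hu1, hv1, ha⟩
  · -- `u` outside, `v'` in the base
    have hpu : S.p u = 0 := brwI2_null1 hL hp hn hl hfix hq S hu1 hu hu'
    have huW : u ∉ S.W := (Finset.mem_sdiff.1 hu1).2
    have huv : u ≠ v' := fun h => huW (h ▸ hv1)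
    have hvq : S.ph v' ≠ 0 ∧ S.ph v' q = 0 := by
      rcases hv with ⟨h1, -⟩ | ⟨-, h1⟩
      · exact absurd hv1 (Finset.mem_sdiff.1 h1).2
      · exact h1
    obtain ⟨κ', -, h'⟩ := S.h.pivot hL hl hu1 hv1 ha (by
      rwa [hpu, map_zero, add_zero])
    have hP : ∀ d, d ≠ v' → pvP S.p S.a u v' d = S.p d := by
      intro d hd
      unfold pvP
      rw [if_neg hd, hpu, smul_zero, sub_zero]
    have hH : ∀ d, d ≠ u →
        pvH S.p S.ph S.a u v' d = S.ph d - (S.a u d * (S.a u v')⁻¹) • S.ph v' := by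
      intro d hd
      unfold pvH
      rw [if_neg hd, hpu, map_zero, map_zero, add_zero, add_zero]
    refine ⟨⟨insert u (S.W.erase v'), κ', _, _, _, h'⟩, ?_, ?_, ?_⟩
    · intro d hd
      have hd0 := hst d hd
      have hdv : d ≠ v' := fun h => hd0.2.2 (h ▸ hv)
      have hdu : d ≠ u := fun h => hu' (h ▸ hd)
      rcases hd with ⟨h1, c, hc, h2⟩ | ⟨h1, c, hc, h2⟩
      · have h3 := Finset.mem_sdiff.1 h1
        refine Or.inl ⟨Finset.mem_sdiff.2 ⟨h3.1, fun h4 => ?_⟩, c, hc, ?_⟩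
        · rcases Finset.mem_insert.1 h4 with h5 | h5
          · exact hdu h5
          · exact h3.2 (Finset.mem_of_mem_erase h5)
        · show pvP S.p S.a u v' d = c • q
          rw [hP d hdv, h2]
      · refine Or.inr ⟨Finset.mem_insert_of_mem (Finset.mem_erase.2 ⟨hdv, h1⟩), c, hc, ?_⟩
        show pvH S.p S.ph S.a u v' d = c • f
        have h3 : S.a u d = 0 := by
          by_contra h3
          exact hd0.1 (Or.inr ⟨h1, hu1, h3⟩)
        rw [hH d hdu, h3, zero_mul, zero_smul, sub_zero, h2]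
    · intro d e hde hdu hdv heu hev hdv' hev'
      exact brwI2_edge S hv1 hu1 (Or.inr rfl) hde hdu hdv heu hev hdv' hev'
    · intro t ht htQ htP
      have htW : t ∈ S.W ∧ S.a u t ≠ 0 := by
        rcases ht with ⟨-, h1, -⟩ | ⟨h1, -, h2⟩
        · exact absurd h1 huW
        · exact ⟨h1, h2⟩
      have hpt : S.ph t = 0 := brwI2_null2 hL hp hn hl hfix hf S htW.1 htQ htP
      have htv : t ≠ v' := fun h => htQ (h ▸ hv)
      have htu : t ≠ u := fun h => huW (h ▸ htW.1)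
      have hm : S.a u t * (S.a u v')⁻¹ ≠ 0 := mul_ne_zero htW.2 (inv_ne_zero ha)
      refine Or.inr ⟨Finset.mem_insert_of_mem (Finset.mem_erase.2 ⟨htv, htW.1⟩), ?_, ?_⟩
      · show pvH S.p S.ph S.a u v' t ≠ 0
        rw [hH t htu, hpt, zero_sub, neg_ne_zero]
        exact smul_ne_zero hm hvq.1
      · show pvH S.p S.ph S.a u v' t q = 0
        rw [hH t htu, hpt, zero_sub, LinearMap.neg_apply, LinearMap.smul_apply, hvq.2, smul_zero,
          neg_zero]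
  · -- `u` in the base, `v'` outside
    have hpu : S.ph u = 0 := brwI2_null2 hL hp hn hl hfix hf S hu1 hu hu'
    have hvW : v' ∉ S.W := (Finset.mem_sdiff.1 hv1).2
    have huv : u ≠ v' := fun h => hvW (h ▸ hu1)
    have hvq : S.p v' ≠ 0 ∧ f (S.p v') = 0 := by
      rcases hv with ⟨-, h1⟩ | ⟨h1, -⟩
      · exact h1
      · exact absurd h1 hvW
    obtain ⟨κ', -, h'⟩ := S.h.pivot hL hl hv1 hu1 ha (by
      rwa [hpu, LinearMap.zero_apply, add_zero])
    have hP : ∀ d, d ≠ u →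
        pvP S.p S.a v' u d = S.p d - (S.a d u * (S.a v' u)⁻¹) • S.p v' := by
      intro d hd
      unfold pvP
      rw [if_neg hd]
    have hH : ∀ d, d ≠ v' → pvH S.p S.ph S.a v' u d = S.ph d := by
      intro d hd
      unfold pvH
      rw [if_neg hd, hpu, smul_zero, sub_zero]
    refine ⟨⟨insert v' (S.W.erase u), κ', _, _, _, h'⟩, ?_, ?_, ?_⟩
    · intro d hd
      have hd0 := hst d hd
      have hdv : d ≠ v' := fun h => hd0.2.2 (h ▸ hv)
      have hdu : d ≠ u := fun h => hu' (h ▸ hd)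
      rcases hd with ⟨h1, c, hc, h2⟩ | ⟨h1, c, hc, h2⟩
      · have h3 := Finset.mem_sdiff.1 h1
        refine Or.inl ⟨Finset.mem_sdiff.2 ⟨h3.1, fun h4 => ?_⟩, c, hc, ?_⟩
        · rcases Finset.mem_insert.1 h4 with h5 | h5
          · exact hdv h5
          · exact h3.2 (Finset.mem_of_mem_erase h5)
        · show pvP S.p S.a v' u d = c • q
          have h4 : S.a d u = 0 := by
            by_contra h4
            exact hd0.1 (Or.inl ⟨h1, hu1, h4⟩)
          rw [hP d hdu, h4, zero_mul, zero_smul, sub_zero, h2]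
      · refine Or.inr ⟨Finset.mem_insert_of_mem (Finset.mem_erase.2 ⟨hdu, h1⟩), c, hc, ?_⟩
        show pvH S.p S.ph S.a v' u d = c • f
        rw [hH d hdv, h2]
    · intro d e hde hdu hdv heu hev hdv' hev'
      exact brwI2_edge S hu1 hv1 (Or.inl rfl) hde hdv hdu hev heu hdv' hev'
    · intro t ht htQ htP
      have htW : t ∈ (A (l + 1) \ A l) \ S.W ∧ S.a t u ≠ 0 := by
        rcases ht with ⟨h1, -, h2⟩ | ⟨-, h1, -⟩
        · exact ⟨h1, h2⟩
        · exact absurd hu1 (Finset.mem_sdiff.1 h1).2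
      have hpt : S.p t = 0 := brwI2_null1 hL hp hn hl hfix hq S htW.1 htQ htP
      have h3 := Finset.mem_sdiff.1 htW.1
      have htv : t ≠ v' := fun h => htQ (h ▸ hv)
      have htu : t ≠ u := fun h => h3.2 (h ▸ hu1)
      have hm : S.a t u * (S.a v' u)⁻¹ ≠ 0 := mul_ne_zero htW.2 (inv_ne_zero ha)
      refine Or.inl ⟨Finset.mem_sdiff.2 ⟨h3.1, fun h4 => ?_⟩, ?_, ?_⟩
      · rcases Finset.mem_insert.1 h4 with h5 | h5
        · exact htv h5
        · exact h3.2 (Finset.mem_of_mem_erase h5)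
      · show pvP S.p S.a v' u t ≠ 0
        rw [hP t htu, hpt, zero_sub, neg_ne_zero]
        exact smul_ne_zero hm hvq.1
      · show f (pvP S.p S.a v' u t) = 0
        rw [hP t htu, hpt, zero_sub, map_neg, map_smul, hvq.2, smul_zero, neg_zero]

/-- `path_red` with `hom_step`; paths of length 0, 1, 2 are impossible by `hom_edge1`, `hom_edge2`,
`hom_path1`, `hom_path2` (the middle vertex is null) -/
theorem hom_none (hL : Lnk F w₀ A n s) (hp : Pat3 Y α γ v 𝒯) (hn : 2 ≤ n) (hl : l < n)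
    (hfix : ∀ U, Seen 𝒯 U → q ∈ U ∨ U ≤ LinearMap.ker f) (hfq : f q ≠ 0)
    (hadd : ∃ z ∈ 𝒯, z.1 = addR q) (hcut : ∃ z ∈ 𝒯, z.1 = cutR f)
    (S : BSt α l) {k : ℕ} {d : E} (hk : Rch S.adj (S.PT q f) k d) : ¬ S.QT q f d := by
  intro hQ
  have hq : q ≠ 0 := by
    rintro rfl
    exact hfq (map_zero f)
  have hf : f ≠ 0 := by
    rintro rfl
    exact hfq rfl
  obtain ⟨S', h⟩ := path_red (fun S : BSt α l => S.adj) (fun S => S.PT q f) (fun S => S.QT q f)
    (fun S d e hde => badj_symm hde)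
    (fun S u v' huv hv hu hu' _ hst => hom_step hL hp hn hl hfix hfq S u v' huv hv hu hu' hst)
    ⟨k, d, hk, hQ⟩
  rcases h with ⟨v', h1, h2⟩ | ⟨c, v', h1, h2, h3, -⟩ | ⟨c, u, v', h1, h2, h3, h4, h5, h6, -⟩
  · rcases h1 with ⟨k1, b, hb, k2⟩ | ⟨k1, b, hb, k2⟩
    · rcases h2 with ⟨-, -, k3⟩ | ⟨k3, -⟩
      · rw [k2, map_smul, smul_eq_mul] at k3
        exact mul_ne_zero hb hfq k3
      · exact (Finset.mem_sdiff.1 k1).2 k3
    · rcases h2 with ⟨k3, -⟩ | ⟨-, -, k3⟩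
      · exact (Finset.mem_sdiff.1 k3).2 k1
      · rw [k2, LinearMap.smul_apply, smul_eq_mul] at k3
        exact mul_ne_zero hb hfq k3
  · rcases h2 with ⟨k1, k2, k3⟩ | ⟨k1, k2, k3⟩
    · -- `c` outside, `v'` in the base
      obtain ⟨b, hb, k4⟩ : ∃ b : F, b ≠ 0 ∧ S'.p c = b • q := by
        rcases h1 with ⟨-, h⟩ | ⟨h, -⟩
        · exact h
        · exact absurd h (Finset.mem_sdiff.1 k1).2
      obtain ⟨k5, k6⟩ : S'.ph v' ≠ 0 ∧ S'.ph v' q = 0 := by
        rcases h3 with ⟨h, -⟩ | ⟨-, h⟩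
        · exact absurd k2 (Finset.mem_sdiff.1 h).2
        · exact h
      exact hom_edge2 hL hp hn hl hfix hfq hcut S'.h k1 k2 k3 k5 k6 hb k4
    · obtain ⟨b, hb, k4⟩ : ∃ b : F, b ≠ 0 ∧ S'.ph c = b • f := by
        rcases h1 with ⟨h, -⟩ | ⟨-, h⟩
        · exact absurd k1 (Finset.mem_sdiff.1 h).2
        · exact h
      obtain ⟨k5, k6⟩ : S'.p v' ≠ 0 ∧ f (S'.p v') = 0 := by
        rcases h3 with ⟨-, h⟩ | ⟨h, -⟩
        · exact h
        · exact absurd h (Finset.mem_sdiff.1 k2).2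
      exact hom_edge1 hL hp hn hl hfix hfq hadd S'.h k2 k1 k3 k5 k6 hb k4
  · rcases h3 with ⟨k1, k2, k3⟩ | ⟨k1, k2, k3⟩
    · -- `u` outside, `v'` in the base
      have hpu : S'.p u = 0 := brwI2_null1 hL hp hn hl hfix hq S' k1 h5 h6
      obtain ⟨j1, j2⟩ : c ∈ S'.W ∧ S'.a u c ≠ 0 := by
        rcases h2 with ⟨-, h, -⟩ | ⟨h, -, h'⟩
        · exact absurd h (Finset.mem_sdiff.1 k1).2
        · exact ⟨h, h'⟩
      obtain ⟨b, hb, k4⟩ : ∃ b : F, b ≠ 0 ∧ S'.ph c = b • f := by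
        rcases h1 with ⟨h, -⟩ | ⟨-, h⟩
        · exact absurd j1 (Finset.mem_sdiff.1 h).2
        · exact h
      obtain ⟨k5, k6⟩ : S'.ph v' ≠ 0 ∧ S'.ph v' q = 0 := by
        rcases h4 with ⟨h, -⟩ | ⟨-, h⟩
        · exact absurd k2 (Finset.mem_sdiff.1 h).2
        · exact h
      exact hom_path2 hL hp hn hl hfix hfq S'.h k1 j1 k2 j2 k3 hpu hb k4 k5 k6
    · have hpu : S'.ph u = 0 := brwI2_null2 hL hp hn hl hfix hf S' k1 h5 h6
      obtain ⟨j1, j2⟩ : c ∈ (A (l + 1) \ A l) \ S'.W ∧ S'.a c u ≠ 0 := by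
        rcases h2 with ⟨h, -, h'⟩ | ⟨-, h, -⟩
        · exact ⟨h, h'⟩
        · exact absurd k1 (Finset.mem_sdiff.1 h).2
      obtain ⟨b, hb, k4⟩ : ∃ b : F, b ≠ 0 ∧ S'.p c = b • q := by
        rcases h1 with ⟨-, h⟩ | ⟨h, -⟩
        · exact h
        · exact absurd h (Finset.mem_sdiff.1 j1).2
      obtain ⟨k5, k6⟩ : S'.p v' ≠ 0 ∧ f (S'.p v') = 0 := by
        rcases h4 with ⟨-, h⟩ | ⟨h, -⟩
        · exact h
        · exact absurd h (Finset.mem_sdiff.1 k2).2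
      exact hom_path1 hL hp hn hl hfix hfq S'.h j1 k2 k1 j2 k3 hpu hb k4 k5 k6

/-- The case `f q ≠ 0`, `q = P i (x i) = P i' (x i')`, `f = H i (y i) = H i' (y i')`. `Pat4.fix` for
`i` gives `hfix`; `hadd`, `hcut` by `Pat3.add_mem`, `Pat3.cut_mem`. `no_comp` for
`St l = PT` at the base `Y l`; vertices that are not `QT` and not `PT` are null (`Blk.t1`,
`Blk.t2`). -/
theorem hom_false (hL : Lnk F w₀ A n s) (hc : 3 ≤ (A 0).card) (h4 : Four F w₀)
    (hp : Pat4 Y α γ v 𝒯 x y) {P : ℕ → E → Fin s → F} {H : ℕ → E → (Fin s → F) →ₗ[F] F}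
    {a : ℕ → E → E → F}
    (hb : ∀ l, l < n → Blk α l (Y l) (LinearEquiv.refl F (Fin s → F)) (P l) (H l) (a l))
    {i i' : ℕ} (hi : 2 ≤ i) (hii : i < i') (hi' : i' + 3 ≤ n) (hP : P i (x i) = P i' (x i'))
    (hH : H i (y i) = H i' (y i')) (hfq : H i (y i) (P i (x i)) ≠ 0) : False := by
  have hn : 2 ≤ n := by omega
  have hin : i < n := by omega
  have hin' : i' < n := by omega
  obtain ⟨q, hqd⟩ : ∃ q, q = P i (x i) := ⟨_, rfl⟩
  obtain ⟨f, hfd⟩ : ∃ f, f = H i (y i) := ⟨_, rfl⟩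
  have hfix : ∀ U, Seen 𝒯 U → q ∈ U ∨ U ≤ LinearMap.ker f := by
    intro U hU
    rw [hqd, hfd]
    exact hp.fix hL hi (by omega) (hb i hin) hU
  have hadd : ∃ z ∈ 𝒯, z.1 = addR q := by
    rw [hqd]
    exact Pat3.add_mem hL hp.toPat3 hn hin (hb i hin) (hp.hx i hin)
  have hcut : ∃ z ∈ 𝒯, z.1 = cutR f := by
    rw [hfd]
    exact Pat3.cut_mem hL hp.toPat3 hn hin (hb i hin) (hp.hy i hin)
  rw [← hqd, ← hfd] at hfq
  have hq : q ≠ 0 := by
    intro h
    rw [h, map_zero] at hfq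
    exact hfq rfl
  have hf : f ≠ 0 := by
    intro h
    rw [h] at hfq
    exact hfq rfl
  refine no_comp (q := q) (f := f) hL hc h4 hii hin' hb hf
    (St := fun l d => (d ∈ (A (l + 1) \ A l) \ Y l ∧ ∃ c : F, c ≠ 0 ∧ P l d = c • q) ∨
      (d ∈ Y l ∧ ∃ c : F, c ≠ 0 ∧ H l d = c • f)) ?_ (hp.hx i hin) (hp.hy i hin)
    (hp.hx i' hin') (hp.hy i' hin') ?_ ?_ ?_ ?_ ?_ ?_
  · rintro l - h2 d (⟨h3, -⟩ | ⟨h3, -⟩)
    · exact (Finset.mem_sdiff.1 h3).1
    · exact (hb l (by omega)).tb.sub h3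
  · exact Or.inl ⟨hp.hx i hin, 1, one_ne_zero, by rw [one_smul, hqd]⟩
  · exact Or.inr ⟨hp.hy i hin, 1, one_ne_zero, by rw [one_smul, hfd]⟩
  · exact Or.inl ⟨hp.hx i' hin', 1, one_ne_zero, by rw [one_smul, hqd, hP]⟩
  · exact Or.inr ⟨hp.hy i' hin', 1, one_ne_zero, by rw [one_smul, hfd, hH]⟩
  · intro l h1 h2 k d hk
    have hl : l < n := by omega
    obtain ⟨S, hS⟩ : ∃ S : BSt α l, S = ⟨Y l, LinearEquiv.refl F (Fin s → F), P l, H l, a l, hb l hl⟩ :=
      ⟨_, rfl⟩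
    have hk' : Rch S.adj (S.PT q f) k d := by
      rw [hS]
      exact hk
    have hQ := hom_none hL hp.toPat3 hn hl hfix hfq hadd hcut S hk'
    have hdb : d ∈ A (l + 1) \ A l := by
      cases k with
      | zero =>
        rcases hk with ⟨h3, -⟩ | ⟨h3, -⟩
        · exact (Finset.mem_sdiff.1 h3).1
        · exact (hb l hl).tb.sub h3
      | succ k =>
        obtain ⟨u, -, hu⟩ := hk
        rcases hu with ⟨-, h3, -⟩ | ⟨-, h3, -⟩
        · exact (hb l hl).tb.sub h3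
        · exact (Finset.mem_sdiff.1 h3).1
    constructor
    · intro hdY
      have hd' : d ∈ (A (l + 1) \ A l) \ Y l := Finset.mem_sdiff.2 ⟨hdb, hdY⟩
      rcases Blk.t1 hL hp.toPat3 hn hl hfix hq (hb l hl) hd' with h3 | ⟨c, -, h3⟩
      · have h4 : P l d = 0 := by
          by_contra h4
          apply hQ
          rw [hS]
          exact Or.inl ⟨hd', h4, h3⟩
        rw [h4]
        exact Submodule.zero_mem _
      · rw [h3]
        exact Submodule.smul_mem _ _ (Submodule.mem_span_singleton_self _)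
    · intro hdY
      rcases Blk.t2 hL hp.toPat3 hn hl hfix hf (hb l hl) hdY with h3 | ⟨c, -, h3⟩
      · have h4 : H l d = 0 := by
          by_contra h4
          apply hQ
          rw [hS]
          exact Or.inr ⟨hdY, h4, h3⟩
        rw [h4, LinearMap.ker_zero]
        exact le_top
      · intro g hg
        rw [LinearMap.mem_ker] at hg ⊢
        rw [h3, LinearMap.smul_apply, hg, smul_zero]
  · intro l h1 h2 d hd hk
    have hl : l < n := by omega
    have hP0 := hk 0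
    constructor
    · intro hdY
      have hd' : d ∈ (A (l + 1) \ A l) \ Y l := Finset.mem_sdiff.2 ⟨hd, hdY⟩
      rcases Blk.t1 hL hp.toPat3 hn hl hfix hq (hb l hl) hd' with h3 | ⟨c, hc', h3⟩
      · exact h3
      · exact absurd (Or.inl ⟨hd', c, hc', h3⟩) hP0
    · intro hdY
      rcases Blk.t2 hL hp.toPat3 hn hl hfix hf (hb l hl) hdY with h3 | ⟨c, hc', h3⟩
      · exact h3
      · exact absurd (Or.inr ⟨hdY, c, hc', h3⟩) hP0

end Pool.MP_4929df_co.H92
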