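import Mathlib

/-!
The arithmetic of the field with 8 elements in the case `f q = 0`.
-/

set_option autoImplicit false

namespace Pool.MP_4929df_co.H92

open Submodule

/-- the additive subgroup `{0, a, b, a + b}` (characteristic 2) -/
private def brwJ1four {F : Type} [Field F] [CharP F 2] (a b : F) : AddSubgroup F where
  carrier := {x | x = 0 ∨ x = a ∨ x = b ∨ x = a + b}
  zero_mem' := Or.inl rfl
  add_mem' := by
    have haa : a + a = 0 := CharTwo.add_self_eq_zero a
    have hbb : b + b = 0 := CharTwo.add_self_eq_zero b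
    intro x y hx hy
    simp only [Set.mem_ofPred_eq] at hx hy ⊢
    rcases hx with h | h | h | h <;> rcases hy with h' | h' | h' | h' <;> rw [h, h'] <;>
      first
      | exact Or.inl (by linear_combination (0 : F) * haa)
      | exact Or.inl (by linear_combination haa)
      | exact Or.inl (by linear_combination hbb)
      | exact Or.inl (by linear_combination haa + hbb)
      | exact Or.inr (Or.inl (by linear_combination (0 : F) * haa))
      | exact Or.inr (Or.inl (by linear_combination haa))
      | exact Or.inr (Or.inl (by linear_combination hbb))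
      | exact Or.inr (Or.inr (Or.inl (by linear_combination (0 : F) * haa)))
      | exact Or.inr (Or.inr (Or.inl (by linear_combination haa)))
      | exact Or.inr (Or.inr (Or.inl (by linear_combination hbb)))
      | exact Or.inr (Or.inr (Or.inr (by linear_combination (0 : F) * haa)))
  neg_mem' := by
    intro x hx
    rw [CharTwo.neg_eq]
    exact hx

private theorem brwJ1mem {F : Type} [Field F] [CharP F 2] {a b x : F} :
    x ∈ brwJ1four a b ↔ x = 0 ∨ x = a ∨ x = b ∨ x = a + b := Iff.rfl

private theorem brwJ1idx {F : Type} [Field F] [CharP F 2] (hF : Nat.card F = 8) {a b : F}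
    (ha : a ≠ 0) (hb : b ≠ 0) (hab : a ≠ b) : (brwJ1four a b).index = 2 := by
  classical
  have haa : a + a = 0 := CharTwo.add_self_eq_zero a
  have hbb : b + b = 0 := CharTwo.add_self_eq_zero b
  have h1 : a + b ≠ 0 := fun h => hab (by linear_combination h - hbb)
  have h2 : ((brwJ1four a b : AddSubgroup F) : Set F) = (({0, a, b, a + b} : Finset F) : Set F) := by
    ext x
    simp [brwJ1mem]
  have h3 : Nat.card (brwJ1four a b) = 4 := by
    have h4 : Nat.card (brwJ1four a b) = Nat.card ((brwJ1four a b : AddSubgroup F) : Set F) := rfl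
    rw [h4, h2, Nat.card_coe_set_eq, Set.ncard_coe_finset]
    rw [Finset.card_insert_of_notMem, Finset.card_insert_of_notMem, Finset.card_insert_of_notMem,
      Finset.card_singleton]
    · simp [ha]
    · simp [hab, hb]
    · simp only [Finset.mem_insert, Finset.mem_singleton, not_or]
      exact ⟨fun h => ha h.symm, fun h => hb h.symm, fun h => h1 h.symm⟩
  have h5 := (brwJ1four a b).card_mul_index
  rw [h3, hF] at h5
  omega

private theorem brwJ1sum {F : Type} [Field F] [CharP F 2] (hF : Nat.card F = 8) {a b x y : F}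
    (ha : a ≠ 0) (hb : b ≠ 0) (hab : a ≠ b) (hx : x ∉ brwJ1four a b) (hy : y ∉ brwJ1four a b) :
    x + y ∈ brwJ1four a b := by
  rw [AddSubgroup.add_mem_iff_of_index_two (brwJ1idx hF ha hb hab)]
  exact iff_of_false hx hy

/-- In a field with 8 elements (characteristic 2) a four-element additive subgroup
`{0, a, b, a + b}` has index 2: the sum of two non-members is a member. -/
theorem sum_mem_four {F : Type} [Field F] [CharP F 2] (hF : Nat.card F = 8) {a b x y : F}
    (ha : a ≠ 0) (hb : b ≠ 0) (hab : a ≠ b)
    (hx : x ≠ 0 ∧ x ≠ a ∧ x ≠ b ∧ x ≠ a + b) (hy : y ≠ 0 ∧ y ≠ a ∧ y ≠ b ∧ y ≠ a + b) :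
    x + y = 0 ∨ x + y = a ∨ x + y = b ∨ x + y = a + b := by
  rw [← brwJ1mem]
  refine brwJ1sum hF ha hb hab ?_ ?_
  · rw [brwJ1mem]
    tauto
  · rw [brwJ1mem]
    tauto

/-- `t` is `τ₂`, `e` is `e_a`, `e'` is `e_b`, `a = u_a`, `b = u_b`. Let
`G = {0, e, a, e + a}`. (1) `t ∉ G`: otherwise `g = t + e ∈ G` and `g = t + e + a ∈ G`; `h0` and `h1` for
these give `e = e'` and `e + a = e' + b`, so `a = b`. (2) `t ≠ e' + g` and `t ≠ e' + b + g` for `g ∈ G`:
by `h0`, `h1` otherwise `t ∈ G`. (3) `e = 0`: `e' = 0`, `G = {0, a}`, so `t` is none of `0, a, b, a + b`.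
`e = a`: `e' = b`, again. Otherwise `G` has 4 elements; if `e + e' ∉ G` then by `sum_mem_four`
(`t ∉ G`) `t + e + e' ∈ G`, contradiction to (2); so `e' ∈ G`, and in the same way `e' + b ∈ G`, so
`b ∈ G`, `G = {0, a, b, a + b}`, contradiction to `ht`. -/
theorem fin8_aux {F : Type} [Field F] [CharP F 2] (hF : Nat.card F = 8) {a b e e' t : F}
    (ha : a ≠ 0) (hb : b ≠ 0) (hab : a ≠ b)
    (ht : t = 0 ∨ t = a ∨ t = b ∨ t = a + b)
    (h0 : ∀ g, g = 0 ∨ g = e ∨ g = a ∨ g = e + a → (t + g = e ↔ t + g = e'))
    (h1 : ∀ g, g = 0 ∨ g = e ∨ g = a ∨ g = e + a → (t + g = e + a ↔ t + g = e' + b))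
    (i0 : e = 0 ↔ e' = 0) (i1 : e = a ↔ e' = b) : False := by
  have h2 : (2 : F) = 0 := CharTwo.two_eq_zero
  have k0 : ∀ g ∈ brwJ1four e a, (t + g = e ↔ t + g = e') := fun g hg => h0 g (brwJ1mem.1 hg)
  have k1 : ∀ g ∈ brwJ1four e a, (t + g = e + a ↔ t + g = e' + b) :=
    fun g hg => h1 g (brwJ1mem.1 hg)
  have me : e ∈ brwJ1four e a := Or.inr (Or.inl rfl)
  have ma : a ∈ brwJ1four e a := Or.inr (Or.inr (Or.inl rfl))
  have t1 : t ∉ brwJ1four e a := by
    intro ht'
    have q1 := (k0 (t + e) (add_mem ht' me)).1 (by linear_combination t * h2)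
    have q2 := (k1 (t + (e + a)) (add_mem ht' (add_mem me ma))).1 (by linear_combination t * h2)
    exact hab (by linear_combination q2 - q1)
  have t2 : ∀ g ∈ brwJ1four e a, t ≠ e' + g := by
    intro g hg h
    have q1 := (k0 g hg).2 (by linear_combination h + g * h2)
    refine t1 ?_
    have q2 : t = e + g := by linear_combination q1 - g * h2
    rw [q2]
    exact add_mem me hg
  have t3 : ∀ g ∈ brwJ1four e a, t ≠ e' + b + g := by
    intro g hg h
    have q1 := (k1 g hg).2 (by linear_combination h + g * h2)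
    refine t1 ?_
    have q2 : t = e + a + g := by linear_combination q1 - g * h2
    rw [q2]
    exact add_mem (add_mem me ma) hg
  by_cases he : e = 0
  · have he' := i0.1 he
    rcases ht with h | h | h | h
    · exact t1 (h ▸ zero_mem _)
    · exact t1 (h ▸ ma)
    · exact t3 0 (zero_mem _) (by rw [he', h]; ring)
    · exact t3 a ma (by rw [he', h]; ring)
  · by_cases hea : e = a
    · have he' := i1.1 hea
      rcases ht with h | h | h | h
      · exact t1 (h ▸ zero_mem _)
      · exact t1 (h ▸ ma)
      · exact t2 0 (zero_mem _) (by rw [he', h]; ring)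
      · exact t2 a ma (by rw [he', h]; ring)
    · have m1 : e' ∈ brwJ1four e a := by
        by_contra hn
        have q := brwJ1sum hF he ha hea t1 hn
        exact t2 _ q (by linear_combination (-e') * h2)
      have m2 : e' + b ∈ brwJ1four e a := by
        by_contra hn
        have q := brwJ1sum hF he ha hea t1 hn
        exact t3 _ q (by linear_combination (-e' - b) * h2)
      have mb : b ∈ brwJ1four e a := by
        have q := add_mem m1 m2
        have q2 : e' + (e' + b) = b := by linear_combination e' * h2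
        rwa [q2] at q
      rcases ht with h | h | h | h
      · exact t1 (h ▸ zero_mem _)
      · exact t1 (h ▸ ma)
      · exact t1 (h ▸ mb)
      · exact t1 (h ▸ add_mem ma mb)

/-- Write `τ = τ₁ • q + τ₂ • z`, `c₀ = .. • q + e • z`, `c₀' = .. • q + e' • z` (`q`, `z` are linearly
independent). `hS` with `o = z`, `g = 0` and `g = a • q`: `τ₁` is none of `0, a, b, a + b` (for
`o = z`: `τ + g + a • q ∈ span {z}` iff the `q`-coordinate is 0). With `o = q + z`: `τ₁ + τ₂` is none of
them. So `τ₂` is one of them by `sum_mem_four`. Now `fin8_aux` for `t = τ₂`: the elements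
`g ∈ {0, e, a, e + a}` are the `z`-coordinates of `0`, `c₀`, `c₀ + (c₀ + a • z) = a • z`,
`c₀ + a • z`, all in `Gm`. -/
theorem el_alg {F X : Type} [Field F] [CharP F 2] (hF : Nat.card F = 8) [AddCommGroup X]
    [Module F X] {q z : X} (hq : q ≠ 0) (hz : z ∉ span F {q}) {Gm : X → Prop} (g0 : Gm 0)
    (gadd : ∀ g g', Gm g → Gm g' → g ∈ span F {q, z} → g' ∈ span F {q, z} → Gm (g + g'))
    {a b : F} (ha : a ≠ 0) (hb : b ≠ 0) (hab : a ≠ b)
    {c₀ c₀' τ : X} (hc : c₀ ∈ span F {q, z}) (hc' : c₀' ∈ span F {q, z})
    (hτ : τ ∈ span F {q, z}) (gS : Gm (a • q)) (gF : Gm c₀) (gF' : Gm (c₀ + a • z))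
    (hS : ∀ o, o = q ∨ o = z ∨ o = q + z → ∀ g, Gm g → g ∈ span F {q, z} →
      (τ + g + a • q ∈ span F {o} ↔ τ + g + b • q ∈ span F {o}))
    (h0 : ∀ g, Gm g → g ∈ span F {q, z} →
      (τ + g + c₀ ∈ span F {q} ↔ τ + g + c₀' ∈ span F {q}))
    (h1 : ∀ g, Gm g → g ∈ span F {q, z} →
      (τ + g + (c₀ + a • z) ∈ span F {q} ↔ τ + g + (c₀' + b • z) ∈ span F {q}))
    (i0 : c₀ ∈ span F {q} ↔ c₀' ∈ span F {q})
    (i1 : c₀ + a • z ∈ span F {q} ↔ c₀' + b • z ∈ span F {q}) : False := by
  have h2 : (2 : F) = 0 := CharTwo.two_eq_zero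
  -- linear independence
  have hli : ∀ s t : F, s • q + t • z = 0 → s = 0 ∧ t = 0 := by
    intro s t h
    have ht : t = 0 := by
      by_contra ht
      refine hz (mem_span_singleton.2 ⟨-(t⁻¹ * s), ?_⟩)
      have : t • z = -(s • q) := by
        rw [eq_neg_iff_add_eq_zero, add_comm]
        exact h
      rw [neg_smul, mul_smul, ← smul_neg, ← this, smul_smul, inv_mul_cancel₀ ht, one_smul]
    rw [ht, zero_smul, add_zero] at h
    exact ⟨(smul_eq_zero.1 h).resolve_right hq, ht⟩
  have hq' : ∀ u v : F, u • q + v • z ∈ span F {q} ↔ v = 0 := by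
    intro u v
    rw [mem_span_singleton]
    constructor
    · rintro ⟨k, hk⟩
      have := hli (k - u) (-v) (by rw [sub_smul, hk, neg_smul]; abel)
      exact neg_eq_zero.1 this.2
    · rintro rfl
      exact ⟨u, by rw [zero_smul, add_zero]⟩
  have hz' : ∀ u v : F, u • q + v • z ∈ span F {z} ↔ u = 0 := by
    intro u v
    rw [mem_span_singleton]
    constructor
    · rintro ⟨k, hk⟩
      have := hli (-u) (k - v) (by rw [sub_smul, hk, neg_smul]; abel)
      exact neg_eq_zero.1 this.1
    · rintro rfl
      exact ⟨v, by rw [zero_smul, zero_add]⟩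
  have hqz' : ∀ u v : F, u • q + v • z ∈ span F {q + z} ↔ u = v := by
    intro u v
    rw [mem_span_singleton]
    constructor
    · rintro ⟨k, hk⟩
      rw [smul_add] at hk
      have := hli (k - u) (k - v) (by
        rw [sub_smul, sub_smul]
        have h3 : k • q - u • q + (k • z - v • z) = (k • q + k • z) - (u • q + v • z) := by abel
        rw [h3, hk, sub_self])
      linear_combination this.2 - this.1
    · rintro rfl
      exact ⟨u, by rw [smul_add]⟩
  obtain ⟨c1, e, hce⟩ := mem_span_pair.1 hc
  obtain ⟨c1', e', hce'⟩ := mem_span_pair.1 hc'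
  obtain ⟨t1, t2, hte⟩ := mem_span_pair.1 hτ
  have mq : q ∈ span F {q, z} := subset_span (by simp)
  have mz : z ∈ span F {q, z} := subset_span (by simp)
  have e0 : ∀ x : F, t1 • q + t2 • z + 0 + x • q = (t1 + x) • q + t2 • z := by
    intro x
    rw [add_smul]
    abel
  have e1 : ∀ x : F, t1 • q + t2 • z + a • q + x • q = (t1 + a + x) • q + t2 • z := by
    intro x
    rw [add_smul, add_smul]
    abel
  have A0 := hS z (Or.inr (Or.inl rfl)) 0 g0 (zero_mem _)
  have A1 := hS z (Or.inr (Or.inl rfl)) (a • q) gS (smul_mem _ _ mq)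
  have B0 := hS (q + z) (Or.inr (Or.inr rfl)) 0 g0 (zero_mem _)
  have B1 := hS (q + z) (Or.inr (Or.inr rfl)) (a • q) gS (smul_mem _ _ mq)
  rw [← hte, e0, e0, hz', hz'] at A0
  rw [← hte, e1, e1, hz', hz'] at A1
  rw [← hte, e0, e0, hqz', hqz'] at B0
  rw [← hte, e1, e1, hqz', hqz'] at B1
  have hT : t2 = 0 ∨ t2 = a ∨ t2 = b ∨ t2 = a + b := by
    have key : ∀ s : F, (s + a = 0 ↔ s + b = 0) → (s + a + a = 0 ↔ s + a + b = 0) →
        s ≠ 0 ∧ s ≠ a ∧ s ≠ b ∧ s ≠ a + b := by
      intro s k0 k1
      refine ⟨?_, ?_, ?_, ?_⟩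
      · intro h
        have := k1.1 (by linear_combination h + a * h2)
        exact hab (by linear_combination this - h - b * h2)
      · intro h
        have := k0.1 (by linear_combination h + a * h2)
        exact hab (by linear_combination this - h - b * h2)
      · intro h
        have := k0.2 (by linear_combination h + b * h2)
        exact hab (by linear_combination this - h - b * h2)
      · intro h
        have := k1.2 (by linear_combination h + (a + b) * h2)
        exact hab (by linear_combination this - h - (a + b) * h2)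
    have s1 := key t1 A0 A1
    have s2 := key (t1 + t2)
      ⟨fun h => by
        have := B0.1 (by linear_combination h - t2 * h2)
        linear_combination this + t2 * h2,
       fun h => by
        have := B0.2 (by linear_combination h - t2 * h2)
        linear_combination this + t2 * h2⟩
      ⟨fun h => by
        have := B1.1 (by linear_combination h - t2 * h2)
        linear_combination this + t2 * h2,
       fun h => by
        have := B1.2 (by linear_combination h - t2 * h2)
        linear_combination this + t2 * h2⟩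
    have s3 := sum_mem_four hF ha hb hab s1 s2
    have s4 : t1 + (t1 + t2) = t2 := by linear_combination t1 * h2
    rwa [s4] at s3
  -- the elements of `Gm`
  have hg : ∀ g, g = 0 ∨ g = e ∨ g = a ∨ g = e + a →
      ∃ (γ : X) (u : F), Gm γ ∧ γ ∈ span F {q, z} ∧ γ = u • q + g • z := by
    rintro g (rfl | rfl | rfl | rfl)
    · exact ⟨0, 0, g0, zero_mem _, by simp⟩
    · exact ⟨c₀, c1, gF, hc, hce.symm⟩
    · refine ⟨c₀ + (c₀ + g • z), 2 * c1, gadd _ _ gF gF' hc (add_mem hc (smul_mem _ _ mz)),
        add_mem hc (add_mem hc (smul_mem _ _ mz)), ?_⟩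
      rw [← hce]
      have h3 : (2 * c1) • q + g • z = c1 • q + e • z + (c1 • q + e • z + g • z) - (2 * e) • z := by
        rw [two_mul, two_mul, add_smul, add_smul]
        abel
      rw [h3, h2, zero_mul, zero_smul, sub_zero]
    · refine ⟨c₀ + a • z, c1, gF', add_mem hc (smul_mem _ _ mz), ?_⟩
      rw [← hce, add_smul]
      abel
  refine fin8_aux hF ha hb hab (e := e) (e' := e') hT ?_ ?_ ?_ ?_
  · intro g hgg
    obtain ⟨γ, u, g1, g2, g3⟩ := hg g hgg
    have k := h0 γ g1 g2
    have r1 : τ + γ + c₀ = (t1 + u + c1) • q + (t2 + g + e) • z := by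
      rw [← hte, ← hce, g3]
      simp only [add_smul]
      abel
    have r2 : τ + γ + c₀' = (t1 + u + c1') • q + (t2 + g + e') • z := by
      rw [← hte, ← hce', g3]
      simp only [add_smul]
      abel
    rw [r1, r2, hq', hq'] at k
    constructor
    · intro h
      have := k.1 (by linear_combination h + e * h2)
      linear_combination this - e' * h2
    · intro h
      have := k.2 (by linear_combination h + e' * h2)
      linear_combination this - e * h2
  · intro g hgg
    obtain ⟨γ, u, g1, g2, g3⟩ := hg g hgg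
    have k := h1 γ g1 g2
    have r1 : τ + γ + (c₀ + a • z) = (t1 + u + c1) • q + (t2 + g + e + a) • z := by
      rw [← hte, ← hce, g3]
      simp only [add_smul]
      abel
    have r2 : τ + γ + (c₀' + b • z) = (t1 + u + c1') • q + (t2 + g + e' + b) • z := by
      rw [← hte, ← hce', g3]
      simp only [add_smul]
      abel
    rw [r1, r2, hq', hq'] at k
    constructor
    · intro h
      have := k.1 (by linear_combination h + (e + a) * h2)
      linear_combination this - (e' + b) * h2
    · intro h
      have := k.2 (by linear_combination h + (e' + b) * h2)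
      linear_combination this - (e + a) * h2
  · rw [← hce, ← hce', hq', hq'] at i0
    exact i0
  · have r1 : c₀ + a • z = c1 • q + (e + a) • z := by
      rw [← hce, add_smul]
      abel
    have r2 : c₀' + b • z = c1' • q + (e' + b) • z := by
      rw [← hce', add_smul]
      abel
    rw [r1, r2, hq', hq'] at i1
    constructor
    · intro h
      have := i1.1 (by linear_combination h + a * h2)
      linear_combination this - b * h2
    · intro h
      have := i1.2 (by linear_combination h + b * h2)
      linear_combination this - a * h2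

end Pool.MP_4929df_co.H92
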