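import Pool.Agent.W_4929df_h92.BrwI1

/-!
Typed bases in the case `f q = 0`.
-/

set_option autoImplicit false

namespace Pool.MP_4929df_co.H92

open Submodule

/-- A base `W` of block `i` with coordinates, such that in the set `𝒟` all functionals are multiples of
`f`, all points are in `Pi`, and the isomorphism is `g ↦ g + f g • c`, `c ∈ Pi`. `Y` is the original
base. -/
structure SSt {F : Type} [Field F] {E : Type} [Fintype E] [DecidableEq E] {V : Type}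
    [AddCommGroup V] [Module F V] {w₀ : E → V} {A : ℕ → Finset E} {n s : ℕ}
    (u : FRep F w₀ A n s) (i : ℕ) (Y : Finset E) (𝒟 : E → Prop) (Pi : Submodule F (Fin s → F))
    (f : (Fin s → F) →ₗ[F] F) where
  W : Finset E
  κ : (Fin s → F) ≃ₗ[F] (Fin s → F)
  p : E → Fin s → F
  ph : E → (Fin s → F) →ₗ[F] F
  a : E → E → F
  c : Fin s → F
  h : Blk u i W κ p ph a
  hW : ∀ d ∈ W, d ∉ Y → 𝒟 d
  hph : ∀ d ∈ W, 𝒟 d → ∃ b : F, ph d = b • f
  hp : ∀ d ∈ (A (i + 1) \ A i) \ W, 𝒟 d → p d ∈ Pi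
  hc : c ∈ Pi
  hκ : ∀ g, κ g = g + f g • c

/-- The dual: all points are multiples of `q`, all functionals are in `Psi`, the isomorphism is
`g ↦ g + c g • q`, `c ∈ Psi`. -/
structure DSt {F : Type} [Field F] {E : Type} [Fintype E] [DecidableEq E] {V : Type}
    [AddCommGroup V] [Module F V] {w₀ : E → V} {A : ℕ → Finset E} {n s : ℕ}
    (u : FRep F w₀ A n s) (i : ℕ) (Y : Finset E) (𝒟 : E → Prop)
    (Psi : Submodule F ((Fin s → F) →ₗ[F] F)) (q : Fin s → F) where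
  W : Finset E
  κ : (Fin s → F) ≃ₗ[F] (Fin s → F)
  p : E → Fin s → F
  ph : E → (Fin s → F) →ₗ[F] F
  a : E → E → F
  c : (Fin s → F) →ₗ[F] F
  h : Blk u i W κ p ph a
  hW : ∀ d ∈ Y, d ∉ W → 𝒟 d
  hp : ∀ d ∈ (A (i + 1) \ A i) \ W, 𝒟 d → ∃ b : F, p d = b • q
  hph : ∀ d ∈ W, 𝒟 d → ph d ∈ Psi
  hc : c ∈ Psi
  hκ : ∀ g, κ g = g + c g • q

variable {F : Type} [Field F] [Finite F] {E : Type} [Fintype E] [DecidableEq E] {V : Type}
  [AddCommGroup V] [Module F V] [FiniteDimensional F V] {w₀ : E → V} {A : ℕ → Finset E} {n s : ℕ}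
  {u : FRep F w₀ A n s} {i : ℕ} {Y : Finset E} {𝒟 : E → Prop} {Pi : Submodule F (Fin s → F)}
  {f : (Fin s → F) →ₗ[F] F} {Psi : Submodule F ((Fin s → F) →ₗ[F] F)} {q : Fin s → F}
  {P : E → Fin s → F} {H : E → (Fin s → F) →ₗ[F] F} {aY : E → E → F} {x y : E}

/-- `Blk.pivot`; `ph y` is a multiple of `f`, which vanishes on `p x ∈ Pi`, so
`a x y + ph y (p x) = a x y` -/
theorem SSt.pivot (hL : Lnk F w₀ A n s) (hi : i < n) (hf : f ≠ 0) (hPi : Pi ≤ LinearMap.ker f)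
    (S : SSt u i Y 𝒟 Pi f) (hx : x ∈ (A (i + 1) \ A i) \ S.W) (hx' : 𝒟 x) (hy : y ∈ S.W)
    (hy' : 𝒟 y) (ha : S.a x y ≠ 0) :
    ∃ S' : SSt u i Y 𝒟 Pi f, S'.W = insert x (S.W.erase y) ∧ S'.p = pvP S.p S.a x y ∧
      S'.ph = pvH S.p S.ph S.a x y ∧ S'.a = pvA S.a x y ∧
      ∀ b : F, S.ph y = b • f → S'.c = S.c - (b * (S.a x y)⁻¹) • S.p x := by
  obtain ⟨b₀, hb₀⟩ := S.hph y hy hy'
  have hpx : S.p x ∈ Pi := S.hp x hx hx'
  have hfx : f (S.p x) = 0 := LinearMap.mem_ker.1 (hPi hpx)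
  have h0 : S.ph y (S.p x) = 0 := by
    rw [hb₀, LinearMap.smul_apply, hfx, smul_zero]
  have h2 : S.a x y + S.ph y (S.p x) ≠ 0 := by rwa [h0, add_zero]
  obtain ⟨κ', hκ', hB⟩ := S.h.pivot hL hi hx hy ha h2
  have hxW : x ∉ S.W := (Finset.mem_sdiff.1 hx).2
  refine ⟨{ W := insert x (S.W.erase y), κ := κ', p := pvP S.p S.a x y, ph := pvH S.p S.ph S.a x y,
            a := pvA S.a x y, c := S.c - (b₀ * (S.a x y)⁻¹) • S.p x, h := hB,
            hW := ?_, hph := ?_, hp := ?_, hc := ?_, hκ := ?_ }, rfl, rfl, rfl, rfl, ?_⟩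
  · intro d hd hdY
    rcases Finset.mem_insert.1 hd with rfl | hd
    · exact hx'
    · exact S.hW d (Finset.mem_of_mem_erase hd) hdY
  · intro d hd hd'
    rcases eq_or_ne d x with rfl | hdx
    · refine ⟨(S.a d y + S.ph y (S.p d))⁻¹ * b₀, ?_⟩
      unfold pvH
      rw [if_pos rfl]
      nth_rw 2 [hb₀]
      rw [smul_smul]
    · have hdW : d ∈ S.W := Finset.mem_of_mem_erase ((Finset.mem_insert.1 hd).resolve_left hdx)
      obtain ⟨b, hb⟩ := S.hph d hdW hd'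
      refine ⟨b - ((S.a x d + S.ph d (S.p x)) * (S.a x y + S.ph y (S.p x))⁻¹) * b₀, ?_⟩
      unfold pvH
      rw [if_neg hdx]
      generalize (S.a x d + S.ph d (S.p x)) * (S.a x y + S.ph y (S.p x))⁻¹ = X
      rw [hb, hb₀]
      refine LinearMap.ext fun g => ?_
      simp only [LinearMap.sub_apply, LinearMap.smul_apply, smul_eq_mul]
      ring
  · intro d hd hd'
    have hd1 := Finset.mem_sdiff.1 hd
    unfold pvP
    split_ifs with hdy
    · exact Pi.smul_mem _ hpx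
    · have hdW : d ∉ S.W := fun hh =>
        hd1.2 (Finset.mem_insert_of_mem (Finset.mem_erase.2 ⟨hdy, hh⟩))
      exact Pi.sub_mem (S.hp d (Finset.mem_sdiff.2 ⟨hd1.1, hdW⟩) hd') (Pi.smul_mem _ hpx)
  · exact Pi.sub_mem S.hc (Pi.smul_mem _ hpx)
  · intro g
    rw [hκ', S.hκ, h0, add_zero, map_sub, map_smul, hfx, smul_zero, sub_zero, hb₀,
      LinearMap.smul_apply, smul_eq_mul, smul_sub, smul_smul]
    have e : b₀ * f g * (S.a x y)⁻¹ = f g * (b₀ * (S.a x y)⁻¹) := by ring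
    rw [e]
    abel
  · intro b hb
    have h3 : b • f = b₀ • f := hb.symm.trans hb₀
    obtain ⟨g₁, hg₁⟩ : ∃ g, f g ≠ 0 := by
      by_contra hh
      push Not at hh
      exact hf (LinearMap.ext hh)
    have h4 : b = b₀ := by
      have h5 := LinearMap.congr_fun h3 g₁
      rw [LinearMap.smul_apply, LinearMap.smul_apply, smul_eq_mul, smul_eq_mul] at h5
      exact mul_right_cancel₀ hg₁ h5
    rw [h4]

/-- `ph y ∈ Psi` vanishes on `p x = b • q`; `κ' g = κ (g - (ph y g * (a x y)⁻¹) • b • q)` and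
`c q = 0` -/
theorem DSt.pivot (hL : Lnk F w₀ A n s) (hi : i < n) (hq : q ≠ 0) (hPsi : ∀ g ∈ Psi, g q = 0)
    (S : DSt u i Y 𝒟 Psi q) (hx : x ∈ (A (i + 1) \ A i) \ S.W) (hx' : 𝒟 x) (hy : y ∈ S.W)
    (hy' : 𝒟 y) (ha : S.a x y ≠ 0) :
    ∃ S' : DSt u i Y 𝒟 Psi q, S'.W = insert x (S.W.erase y) ∧ S'.p = pvP S.p S.a x y ∧
      S'.ph = pvH S.p S.ph S.a x y ∧ S'.a = pvA S.a x y ∧
      ∀ b : F, S.p x = b • q → S'.c = S.c - (b * (S.a x y)⁻¹) • S.ph y := by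
  obtain ⟨b₀, hb₀⟩ := S.hp x hx hx'
  have hpy : S.ph y ∈ Psi := S.hph y hy hy'
  have hyq : S.ph y q = 0 := hPsi _ hpy
  have hcq : S.c q = 0 := hPsi _ S.hc
  have h0 : S.ph y (S.p x) = 0 := by
    rw [hb₀, map_smul, hyq, smul_zero]
  have h2 : S.a x y + S.ph y (S.p x) ≠ 0 := by rwa [h0, add_zero]
  obtain ⟨κ', hκ', hB⟩ := S.h.pivot hL hi hx hy ha h2
  have hxW : x ∉ S.W := (Finset.mem_sdiff.1 hx).2
  refine ⟨{ W := insert x (S.W.erase y), κ := κ', p := pvP S.p S.a x y, ph := pvH S.p S.ph S.a x y,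
            a := pvA S.a x y, c := S.c - (b₀ * (S.a x y)⁻¹) • S.ph y, h := hB,
            hW := ?_, hp := ?_, hph := ?_, hc := ?_, hκ := ?_ }, rfl, rfl, rfl, rfl, ?_⟩
  · intro d hdY hd
    rcases eq_or_ne d y with rfl | hdy
    · exact hy'
    · exact S.hW d hdY fun hh => hd (Finset.mem_insert_of_mem (Finset.mem_erase.2 ⟨hdy, hh⟩))
  · intro d hd hd'
    have hd1 := Finset.mem_sdiff.1 hd
    unfold pvP
    split_ifs with hdy
    · refine ⟨-(S.a x y)⁻¹ * b₀, ?_⟩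
      rw [hb₀, smul_smul]
    · have hdW : d ∉ S.W := fun hh =>
        hd1.2 (Finset.mem_insert_of_mem (Finset.mem_erase.2 ⟨hdy, hh⟩))
      obtain ⟨b, hb⟩ := S.hp d (Finset.mem_sdiff.2 ⟨hd1.1, hdW⟩) hd'
      refine ⟨b - (S.a d y * (S.a x y)⁻¹) * b₀, ?_⟩
      rw [sub_smul, ← hb, hb₀, smul_smul]
  · intro d hd hd'
    rcases eq_or_ne d x with rfl | hdx
    · unfold pvH
      rw [if_pos rfl]
      exact Psi.smul_mem _ hpy
    · have hdW : d ∈ S.W := Finset.mem_of_mem_erase ((Finset.mem_insert.1 hd).resolve_left hdx)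
      unfold pvH
      rw [if_neg hdx]
      exact Psi.sub_mem (S.hph d hdW hd') (Psi.smul_mem _ hpy)
  · exact Psi.sub_mem S.hc (Psi.smul_mem _ hpy)
  · intro g
    rw [hκ', S.hκ, h0, add_zero, hb₀, smul_smul, map_sub, map_smul, hcq, smul_zero, sub_zero,
      LinearMap.sub_apply, LinearMap.smul_apply, smul_eq_mul, sub_smul]
    have e : S.ph y g * (S.a x y)⁻¹ * b₀ = b₀ * (S.a x y)⁻¹ * S.ph y g := by ring
    rw [e]
    abel
  · intro b hb
    have h3 : b • q = b₀ • q := hb.symm.trans hb₀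
    have h4 : b = b₀ := by
      by_contra hne
      exact hq ((smul_eq_zero.1 (show (b - b₀) • q = 0 by rw [sub_smul, h3, sub_self])).resolve_left
        (sub_ne_zero.2 hne))
    rw [h4]

/-- `Blk.kap_rel` with the base `Y` (`κ' = 1`): `f g • c = - ∑ d ∈ W \ Y, ph d g • P d`; all `P d` with
`d ≠ z` are in `span {q}` (`hW`, `hD`). With `f g = 1` and `ph z = b • f`: `c` is in `span {q}` iff
`b = 0` (if `z ∈ W`). -/
theorem SSt.pat (hi : i < n) (hf : f ≠ 0) (S : SSt u i Y 𝒟 Pi f)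
    (hY : Blk u i Y (LinearEquiv.refl F (Fin s → F)) P H aY) {z : E} (hz : z ∉ Y) (hz' : 𝒟 z)
    (hzq : P z ∉ span F {q})
    (hD : ∀ d, 𝒟 d → d ∉ Y → d ≠ z → P d ∈ span F {q}) :
    S.c ∈ span F {q} ↔ (z ∈ S.W → S.ph z = 0) := by
  obtain ⟨g₁, hg₁⟩ : ∃ g, f g ≠ 0 := by
    by_contra hh
    push Not at hh
    exact hf (LinearMap.ext hh)
  obtain ⟨g₀, hg₀⟩ : ∃ g, f g = 1 := ⟨(f g₁)⁻¹ • g₁, by
    rw [map_smul, smul_eq_mul, inv_mul_cancel₀ hg₁]⟩
  have hc : S.c = -∑ d ∈ S.W \ Y, S.ph d g₀ • P d := by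
    have h1 := S.h.kap_rel hi hY g₀
    rw [S.hκ, hg₀, one_smul, LinearEquiv.refl_apply, sub_eq_add_neg] at h1
    exact add_left_cancel h1
  have hph : ∀ d ∈ S.W \ Y, S.ph d = S.ph d g₀ • f := by
    intro d hd
    have hd1 := Finset.mem_sdiff.1 hd
    obtain ⟨b, hb⟩ := S.hph d hd1.1 (S.hW d hd1.1 hd1.2)
    have : S.ph d g₀ = b := by
      rw [hb, LinearMap.smul_apply, hg₀, smul_eq_mul, mul_one]
    rw [this]
    exact hb
  have hother : ∀ T : Finset E, T ⊆ S.W \ Y → z ∉ T → ∑ d ∈ T, S.ph d g₀ • P d ∈ span F {q} := by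
    intro T hT hzT
    refine Submodule.sum_mem _ fun d hd => Submodule.smul_mem _ _ ?_
    have hd1 := Finset.mem_sdiff.1 (hT hd)
    exact hD d (S.hW d hd1.1 hd1.2) hd1.2 fun hh => hzT (hh ▸ hd)
  rw [hc, neg_mem_iff]
  by_cases hzW : z ∈ S.W
  · have hzm : z ∈ S.W \ Y := Finset.mem_sdiff.2 ⟨hzW, hz⟩
    rw [← Finset.add_sum_erase _ (fun d => S.ph d g₀ • P d) hzm,
      Submodule.add_mem_iff_left _ (hother _ (Finset.erase_subset _ _) (Finset.notMem_erase _ _))]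
    constructor
    · intro h1 _
      rw [hph z hzm]
      by_contra h2
      have h3 : S.ph z g₀ ≠ 0 := fun hh => h2 (by rw [hh, zero_smul])
      exact hzq ((Submodule.smul_mem_iff _ h3).1 h1)
    · intro h1
      rw [h1 hzW, LinearMap.zero_apply, zero_smul]
      exact Submodule.zero_mem _
  · refine ⟨fun _ h => absurd h hzW, fun _ => hother _ subset_rfl fun hh => hzW (Finset.mem_sdiff.1 hh).1⟩

/-- `Blk.kap_rel` for `Y` relative to `W`: `κ (g - ∑ d ∈ Y \ W, H d g • p d) = g`, so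
`c g • q = ∑ d ∈ Y \ W, H d g • p d` (`c q = 0`), `p d = b d • q`, all `H d` with `d ≠ z` are in
`span {f}` -/
theorem DSt.pat (hi : i < n) (hq : q ≠ 0) (hPsi : ∀ g ∈ Psi, g q = 0) (S : DSt u i Y 𝒟 Psi q)
    (hY : Blk u i Y (LinearEquiv.refl F (Fin s → F)) P H aY) {z : E} (hz : z ∈ Y) (hz' : 𝒟 z)
    (hzf : H z ∉ span F {f})
    (hD : ∀ d, 𝒟 d → d ∈ Y → d ≠ z → H d ∈ span F {f}) :
    S.c ∈ span F {f} ↔ (z ∉ S.W → S.p z = 0) := by
  classical
  have hcq : S.c q = 0 := hPsi _ S.hc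
  have hb : ∀ d : E, ∃ b : F, d ∈ Y \ S.W → S.p d = b • q := by
    intro d
    by_cases hd : d ∈ Y \ S.W
    · have hd1 := Finset.mem_sdiff.1 hd
      obtain ⟨b, hb⟩ := S.hp d (Finset.mem_sdiff.2 ⟨hY.tb.sub hd1.1, hd1.2⟩) (S.hW d hd1.1 hd1.2)
      exact ⟨b, fun _ => hb⟩
    · exact ⟨0, fun h => absurd h hd⟩
  choose b hb using hb
  have hc : S.c = ∑ d ∈ Y \ S.W, b d • H d := by
    refine LinearMap.ext fun g => ?_
    have h1 := hY.kap_rel hi S.h g
    have e1 : ∑ d ∈ Y \ S.W, H d g • S.p d = (∑ d ∈ Y \ S.W, b d • H d) g • q := by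
      rw [LinearMap.sum_apply, Finset.sum_smul]
      refine Finset.sum_congr rfl fun d hd => ?_
      rw [hb d hd, smul_smul, LinearMap.smul_apply, smul_eq_mul, mul_comm]
    rw [LinearEquiv.refl_apply, e1, S.hκ, map_sub, map_smul, hcq, smul_zero, sub_zero] at h1
    have h2 : (S.c g - (∑ d ∈ Y \ S.W, b d • H d) g) • q = 0 := by
      rw [sub_smul]
      have h3 : g = g + (S.c g • q - (∑ d ∈ Y \ S.W, b d • H d) g • q) := by
        refine h1.trans ?_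
        abel
      exact (left_eq_add.1 h3)
    exact sub_eq_zero.1 ((smul_eq_zero.1 h2).resolve_right hq)
  have hother : ∀ T : Finset E, T ⊆ Y \ S.W → z ∉ T → ∑ d ∈ T, b d • H d ∈ span F {f} := by
    intro T hT hzT
    refine Submodule.sum_mem _ fun d hd => Submodule.smul_mem _ _ ?_
    have hd1 := Finset.mem_sdiff.1 (hT hd)
    exact hD d (S.hW d hd1.1 hd1.2) hd1.1 fun hh => hzT (hh ▸ hd)
  rw [hc]
  by_cases hzW : z ∈ S.W
  · refine ⟨fun _ h => absurd hzW h, fun _ => hother _ subset_rfl fun hh => (Finset.mem_sdiff.1 hh).2 hzW⟩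
  · have hzm : z ∈ Y \ S.W := Finset.mem_sdiff.2 ⟨hz, hzW⟩
    rw [← Finset.add_sum_erase _ (fun d => b d • H d) hzm,
      Submodule.add_mem_iff_left _ (hother _ (Finset.erase_subset _ _) (Finset.notMem_erase _ _))]
    constructor
    · intro h1 _
      rw [hb z hzm]
      by_contra h2
      have h3 : b z ≠ 0 := fun hh => h2 (by rw [hh, zero_smul])
      exact hzf ((Submodule.smul_mem_iff _ h3).1 h1)
    · intro h1
      have h2 : b z = 0 := by
        have h3 := h1 hzW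
        rw [hb z hzm] at h3
        exact (smul_eq_zero.1 h3).resolve_right hq
      rw [h2, zero_smul]
      exact Submodule.zero_mem _

end Pool.MP_4929df_co.H92
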