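import Pool.Agent.W_4929df_h92.BrwJ3

/-!
The path argument in the case `f q = 0`, far point: paths of length 1.
-/

set_option autoImplicit false

namespace Pool.MP_4929df_co.H92

open Submodule

section

variable {F : Type} [Field F] {X : Type} [AddCommGroup X] [Module F X]

private theorem BrwJ3b_addR {q : X} {c : F} (hc : c ≠ 0) : addR (F := F) (c • q) = addR q := by
  unfold addR
  rw [Submodule.span_singleton_smul_eq (IsUnit.mk0 c hc)]

private theorem BrwJ3b_eq {q z z' : X} (hq : q ≠ 0) (hz : z ∉ span F {q}) {t : F}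
    (h1 : z' = t • z) (h2 : span F {q - z'} = span F {q - z}) : z' = z := by
  obtain ⟨r, hr⟩ := Submodule.span_singleton_eq_span_singleton.1 h2
  have hr' : (r : F) • (q - t • z) = q - z := by rw [← h1]; exact hr
  have h3 : ((r : F) * t - 1) • z = ((r : F) - 1) • q := by
    rw [smul_sub, smul_smul] at hr'
    rw [← sub_eq_zero]
    have h4 : ((r : F) * t - 1) • z - ((r : F) - 1) • q =
        (q - z) - ((r : F) • q - ((r : F) * t) • z) := by module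
    rw [h4, hr', sub_self]
  by_cases h4 : (r : F) * t - 1 = 0
  · rw [h4, zero_smul] at h3
    have h5 : (r : F) - 1 = 0 := (smul_eq_zero.1 h3.symm).resolve_right hq
    have h6 : (r : F) = 1 := sub_eq_zero.1 h5
    rw [h6, one_mul] at h4
    rw [h1, sub_eq_zero.1 h4, one_smul]
  · exfalso
    apply hz
    rw [Submodule.mem_span_singleton]
    refine ⟨((r : F) * t - 1)⁻¹ * ((r : F) - 1), ?_⟩
    rw [mul_smul, ← h3, smul_smul, inv_mul_cancel₀ h4, one_smul]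

private theorem BrwJ3b_span {q x z c : X} (hz : z ∈ span F {q, x}) (hzq : z ∉ span F {q})
    (hc : c ∈ span F {q, x}) : c ∈ span F {q, z} := by
  obtain ⟨a, b, h1⟩ := Submodule.mem_span_pair.1 hz
  obtain ⟨a', b', h2⟩ := Submodule.mem_span_pair.1 hc
  have hb : b ≠ 0 := by
    rintro rfl
    apply hzq
    rw [Submodule.mem_span_singleton]
    exact ⟨a, by rw [← h1, zero_smul, add_zero]⟩
  have hx : x = b⁻¹ • (z - a • q) := by
    rw [← h1, add_sub_cancel_left, smul_smul, inv_mul_cancel₀ hb, one_smul]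
  have hq1 : q ∈ span F {q, z} := Submodule.subset_span (Set.mem_insert _ _)
  have hz1 : z ∈ span F {q, z} := Submodule.subset_span (Set.mem_insert_of_mem _ rfl)
  have hx1 : x ∈ span F {q, z} := by
    rw [hx]
    exact smul_mem _ _ (sub_mem hz1 (smul_mem _ _ hq1))
  rw [← h2]
  exact add_mem (smul_mem _ _ hq1) (smul_mem _ _ hx1)

private theorem BrwJ3b_neg [CharP F 2] (x : X) : -x = x := by
  have h : (2 : F) = 0 := CharTwo.two_eq_zero
  have h1 : (2 : F) • x = 0 := by rw [h, zero_smul]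
  rw [two_smul] at h1
  exact neg_eq_of_add_eq_zero_left h1

end

variable {F : Type} [Field F] [Finite F] {E : Type} [Fintype E] [DecidableEq E] {V : Type}
  [AddCommGroup V] [Module F V] [FiniteDimensional F V] {w₀ : E → V} {A : ℕ → Finset E} {n s : ℕ}
  {Y : ℕ → Finset E} {α γ : FRep F w₀ A n s} {v : ℕ → FRep F w₀ A n s}
  {𝒯 : Set (Submodule F ((Fin s → F) × (Fin s → F)) × Submodule F ((Fin s → F) × (Fin s → F)))}
  {i : ℕ} {𝒟 : E → Prop} {Pi : Submodule F (Fin s → F)} {f : (Fin s → F) →ₗ[F] F}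
  {q : Fin s → F} {x₀ y₀ : E} {a₀ b₀ : F} {c : E → F} {hc : ∀ x, c x ≠ 0}
  {P : E → Fin s → F} {H : E → (Fin s → F) →ₗ[F] F} {aY bY : E → E → F}

/-- End of the path argument, a path of length 1: it is `y₀ - v'` (`v' ∉ W`). `F₀ = W`,
`F₁ = insert v' (W.erase y₀)` (`SSt.pivot`, `b = 1`), `z = (a₀ * (S.a v' y₀)⁻¹) • S.p v'` (for `S'`:
`z' = (b₀ * (S'.a v' y₀)⁻¹) • S'.p v'`; `z' = z` because `span {S'.p v'} = span {S.p v'}`
(`Pat3.span_eq` at `W`) and `span {q - z'} = span {q - z}` (`Pat3.span_eq` at `F₁` for `x₀`, `pvP`)).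
Letters: `Pat3.add_mem` at `W` for `v'` and at `F₁` for `x₀`. The last two statements: `SSt.pat` for
both representations and both bases, `Pat3.ker_eq`. -/
theorem EPr.ter_one [CharP F 2] (hL : Lnk F w₀ A n s) (hp : Pat3 Y α γ v 𝒯) (hi : 2 ≤ i)
    (hi' : i < n) (hf : f ≠ 0) (hq : q ≠ 0) (hfq : f q = 0) {z₀ : E}
    (hfz : f (P z₀) = 0) (ha : a₀ ≠ 0) (hb : b₀ ≠ 0)
    (hY : Blk α i (Y i) (LinearEquiv.refl F (Fin s → F)) P H aY)
    (hY' : Blk ((v i).scale c hc) i (Y i) (LinearEquiv.refl F (Fin s → F)) P H bY)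
    (hz : z₀ ∉ Y i) (hz' : 𝒟 z₀) (hzq : P z₀ ∉ span F {q})
    (hD : ∀ d, 𝒟 d → d ∉ Y i → d ≠ z₀ → P d ∈ span F {q}) (hy : 𝒟 y₀)
    (R : EPr α ((v i).scale c hc) i (Y i) 𝒟 (span F {q, P z₀}) f q x₀ y₀ a₀ b₀) {v' : E}
    (h1 : R.adj y₀ v') (h2 : R.far v') :
    Ter 𝒯 α (v i) i f q a₀⁻¹ b₀⁻¹ := by
  have hn : 2 ≤ n := hi.trans hi'.le
  have hPi : span F {q, P z₀} ≤ LinearMap.ker f := by
    rw [Submodule.span_le]
    rintro _ (rfl | rfl)
    · exact hfq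
    · exact hfz
  obtain ⟨hv, hvW, hvq⟩ := h2
  have hav : R.S.a v' y₀ ≠ 0 := by
    rcases h1.2.2 with h3 | h3
    · exact absurd R.hy (Finset.mem_sdiff.1 h3.1).2
    · exact h3.2.2
  have hS'h : Blk ((v i).scale c hc) i R.S.W R.S'.κ R.S'.p R.S'.ph R.S'.a := by
    have h3 := R.S'.h
    rwa [R.hWW] at h3
  have hav' : R.S'.a v' y₀ ≠ 0 := fun h3 =>
    hav ((R.S.h.zero_iff hL hi' hS'h hvW R.hy).2 h3)
  obtain ⟨S1, hW1, hp1, -, -, hc1⟩ := R.S.pivot hL hi' hf hPi hvW hv R.hy hy hav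
  obtain ⟨S1', hW1', hp1', -, -, hc1'⟩ := R.S'.pivot hL hi' hf hPi (x := v') (y := y₀)
    (by rw [R.hWW]; exact hvW) hv (by rw [R.hWW]; exact R.hy) hy hav'
  have hc2 := hc1 1 (by rw [R.fy, one_smul])
  have hc2' := hc1' 1 (by rw [R.fy', one_smul])
  rw [one_mul] at hc2 hc2'
  have hWW1 : S1'.W = S1.W := by rw [hW1, hW1', R.hWW]
  have hS1'h : Blk ((v i).scale c hc) i S1.W S1'.κ S1'.p S1'.ph S1'.a := by
    have h3 := S1'.h
    rwa [hWW1] at h3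
  have hxW := Finset.mem_sdiff.1 R.hx
  have hxy : x₀ ≠ y₀ := fun h3 => hxW.2 (h3 ▸ R.hy)
  have hxv : x₀ ≠ v' := by
    intro h3
    apply hvq
    rw [← h3, R.px]
    exact Submodule.mem_span_singleton_self _
  have hx1 : x₀ ∈ (A (i + 1) \ A i) \ S1.W := by
    refine Finset.mem_sdiff.2 ⟨hxW.1, fun h3 => ?_⟩
    rw [hW1] at h3
    rcases Finset.mem_insert.1 h3 with h3 | h3
    · exact hxv h3
    · exact hxW.2 (Finset.mem_of_mem_erase h3)
  obtain ⟨z, hzdef⟩ : ∃ z, z = (a₀ * (R.S.a v' y₀)⁻¹) • R.S.p v' := ⟨_, rfl⟩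
  obtain ⟨z', hzdef'⟩ : ∃ z', z' = (b₀ * (R.S'.a v' y₀)⁻¹) • R.S'.p v' := ⟨_, rfl⟩
  have hp2 : S1.p x₀ = q - z := by
    rw [hp1, hzdef]
    unfold pvP
    rw [if_neg hxy, R.px, R.ax]
  have hp2' : S1'.p x₀ = q - z' := by
    rw [hp1', hzdef']
    unfold pvP
    rw [if_neg hxy, R.px', R.ax']
  have hca : a₀ * (R.S.a v' y₀)⁻¹ ≠ 0 := mul_ne_zero ha (inv_ne_zero hav)
  have hzPi : z ∈ span F {q, P z₀} := by
    rw [hzdef]
    exact smul_mem _ _ (R.S.hp v' hvW hv)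
  have hzq1 : z ∉ span F {q} := by
    rw [hzdef]
    intro h3
    exact hvq ((Submodule.smul_mem_iff _ hca).1 h3)
  have hzz : z' = z := by
    have h3 : span F {R.S'.p v'} = span F {R.S.p v'} := hp.span_eq hL hi hi' R.S.h hS'h hvW
    have h4 : span F {S1'.p x₀} = span F {S1.p x₀} := hp.span_eq hL hi hi' S1.h hS1'h hx1
    rw [hp2, hp2'] at h4
    have h5 : R.S'.p v' ∈ span F {R.S.p v'} := by
      rw [← h3]
      exact Submodule.mem_span_singleton_self _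
    obtain ⟨r, hr⟩ := Submodule.mem_span_singleton.1 h5
    refine BrwJ3b_eq hq hzq1
      (t := b₀ * (R.S'.a v' y₀)⁻¹ * (r * (a₀ * (R.S.a v' y₀)⁻¹)⁻¹)) ?_ h4
    rw [hzdef, smul_smul, mul_assoc, mul_assoc r, inv_mul_cancel₀ hca, mul_one, mul_smul, hr,
      hzdef']
  have hcz : S1.c = R.S.c + a₀⁻¹ • z := by
    rw [hc2, hzdef, smul_smul, inv_mul_cancel_left₀ ha, sub_eq_add_neg, BrwJ3b_neg (F := F)]
  have hcz' : S1'.c = R.S'.c + b₀⁻¹ • z := by
    rw [hc2', ← hzz, hzdef', smul_smul, inv_mul_cancel_left₀ hb, sub_eq_add_neg, BrwJ3b_neg (F := F)]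
  have hl1 : Lab f R.S.c (α.L i (i + 1) R.S.W) := ⟨R.S.κ, R.S.h.riso hi', R.S.hκ⟩
  have hl2 : Lab f R.S'.c ((v i).L i (i + 1) R.S.W) := by
    refine ⟨R.S'.κ, ?_, R.S'.hκ⟩
    have h3 := hS'h.riso hi'
    rwa [FRep.scale_L] at h3
  have hl3 : Lab f S1.c (α.L i (i + 1) S1.W) := ⟨S1.κ, S1.h.riso hi', S1.hκ⟩
  have hl4 : Lab f S1'.c ((v i).L i (i + 1) S1.W) := by
    refine ⟨S1'.κ, ?_, S1'.hκ⟩
    have h3 := hS1'h.riso hi'
    rwa [FRep.scale_L] at h3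
  have hpat : ∀ (T : SSt α i (Y i) 𝒟 (span F {q, P z₀}) f)
      (T' : SSt ((v i).scale c hc) i (Y i) 𝒟 (span F {q, P z₀}) f), T'.W = T.W →
      (T.c ∈ span F {q} ↔ T'.c ∈ span F {q}) := by
    intro T T' hTT
    rw [T.pat hi' hf hY hz hz' hzq hD, T'.pat hi' hf hY' hz hz' hzq hD, hTT]
    have hT'h : Blk ((v i).scale c hc) i T.W T'.κ T'.p T'.ph T'.a := by
      have h3 := T'.h
      rwa [hTT] at h3
    refine forall_congr' fun hzT => ?_
    have h3 := hp.ker_eq hL hi hi' T.h hT'h hzT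
    rw [← LinearMap.ker_eq_top, ← LinearMap.ker_eq_top, h3]
  refine ⟨z, R.S.c, R.S'.c, R.S.W, S1.W, R.S.h.tb.sub, S1.h.tb.sub, hPi hzPi, hzq1, ?_, ?_,
    BrwJ3b_span hzPi hzq1 R.S.hc, BrwJ3b_span hzPi hzq1 R.S'.hc, hl1, hl2, ?_, ?_,
    hpat _ _ R.hWW, ?_⟩
  · obtain ⟨t, ht, ht1⟩ := hp.add_mem hL hn hi' R.S.h hvW
    exact ⟨t, ht, by rw [ht1, hzdef, BrwJ3b_addR hca]⟩
  · obtain ⟨t, ht, ht1⟩ := hp.add_mem hL hn hi' S1.h hx1
    exact ⟨t, ht, by rw [ht1, hp2, sub_eq_add_neg, BrwJ3b_neg (F := F)]⟩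
  · rw [← hcz]
    exact hl3
  · rw [← hcz']
    exact hl4
  · rw [← hcz, ← hcz']
    exact hpat _ _ hWW1

end Pool.MP_4929df_co.H92
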