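import Pool.Agent.W_4929df_h92.BrwJ3

/-!
The path argument in the case `f q = 0`, far point: paths of length 2.
-/

set_option autoImplicit false

namespace Pool.MP_4929df_co.H92

open Submodule

variable {F : Type} [Field F] [Finite F] {E : Type} [Fintype E] [DecidableEq E] {V : Type}
  [AddCommGroup V] [Module F V] [FiniteDimensional F V] {w₀ : E → V} {A : ℕ → Finset E} {n s : ℕ}
  {Y : ℕ → Finset E} {α γ : FRep F w₀ A n s} {v : ℕ → FRep F w₀ A n s}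
  {𝒯 : Set (Submodule F ((Fin s → F) × (Fin s → F)) × Submodule F ((Fin s → F) × (Fin s → F)))}
  {i : ℕ} {𝒟 : E → Prop} {Pi : Submodule F (Fin s → F)} {f : (Fin s → F) →ₗ[F] F}
  {q : Fin s → F} {x₀ y₀ : E} {a₀ b₀ : F} {c : E → F} {hc : ∀ x, c x ≠ 0}
  {P : E → Fin s → F} {H : E → (Fin s → F) →ₗ[F] F} {aY bY : E → E → F}

/-- the two pivots, in one representation -/
private theorem BrwJ3c_two (hL : Lnk F w₀ A n s) (hi' : i < n) (hf : f ≠ 0)
    (hPi : Pi ≤ LinearMap.ker f) {r : FRep F w₀ A n s} {Y' : Finset E} (S : SSt r i Y' 𝒟 Pi f)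
    (hx : x₀ ∈ (A (i + 1) \ A i) \ S.W) (hx' : 𝒟 x₀) (hy : y₀ ∈ S.W) (hy' : 𝒟 y₀)
    (px : S.p x₀ = q) (fy : S.ph y₀ = f) (ax : S.a x₀ y₀ = a₀) (ha : a₀ ≠ 0) {e d : E}
    (he : e ∈ S.W) (he' : 𝒟 e) (hd : d ∈ (A (i + 1) \ A i) \ S.W) (hd' : 𝒟 d) (hdx : d ≠ x₀)
    (hey : e ≠ y₀) (hde : S.a d e ≠ 0) (hdy : S.a d y₀ = 0) :
    ∃ S₀ S₁ : SSt r i Y' 𝒟 Pi f, S₀.W = insert d (S.W.erase e) ∧
      S₁.W = insert x₀ ((insert d (S.W.erase e)).erase y₀) ∧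
      x₀ ∈ (A (i + 1) \ A i) \ insert d (S.W.erase e) ∧
      S₀.p x₀ = q - (S.a x₀ e * (S.a d e)⁻¹) • S.p d ∧
      S₁.c = S₀.c - a₀⁻¹ • (q - (S.a x₀ e * (S.a d e)⁻¹) • S.p d) := by
  have hx1 := Finset.mem_sdiff.1 hx
  have hd1 := Finset.mem_sdiff.1 hd
  have hxe : x₀ ≠ e := fun h => hx1.2 (h ▸ he)
  have hyd : y₀ ≠ d := fun h => hd1.2 (h ▸ hy)
  have hfd : f (S.p d) = 0 := hPi (S.hp d hd hd')
  obtain ⟨S₀, hW, hp, hph, hA, -⟩ := S.pivot hL hi' hf hPi hd hd' he he' hde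
  have h1 : S₀.p x₀ = q - (S.a x₀ e * (S.a d e)⁻¹) • S.p d := by
    rw [hp]
    unfold pvP
    rw [if_neg hxe, px]
  have h2 : S₀.ph y₀ = f := by
    rw [hph]
    unfold pvH
    rw [if_neg hyd, fy, hdy, hfd, zero_add, zero_mul, zero_smul, sub_zero]
  have h3 : S₀.a x₀ y₀ = a₀ := by
    rw [hA]
    unfold pvA
    rw [if_neg hxe, if_neg hyd, ax, hdy, mul_zero, zero_mul, sub_zero]
  have h4 : x₀ ∈ (A (i + 1) \ A i) \ insert d (S.W.erase e) := by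
    refine Finset.mem_sdiff.2 ⟨hx1.1, fun h => ?_⟩
    rcases Finset.mem_insert.1 h with h | h
    · exact hdx h.symm
    · exact hx1.2 (Finset.mem_of_mem_erase h)
  have h5 : y₀ ∈ S₀.W := by
    rw [hW]
    exact Finset.mem_insert_of_mem (Finset.mem_erase.2 ⟨hey.symm, hy⟩)
  have h6 : x₀ ∈ (A (i + 1) \ A i) \ S₀.W := by
    rw [hW]
    exact h4
  obtain ⟨S₁, hW1, -, -, -, hc1⟩ := S₀.pivot hL hi' hf hPi h6 hx' h5 hy' (by rw [h3]; exact ha)
  refine ⟨S₀, S₁, hW, ?_, h4, h1, ?_⟩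
  · rw [hW1, hW]
  · have h7 := hc1 1 (by rw [one_smul]; exact h2)
    rw [one_mul, h3, h1] at h7
    exact h7

/-- A path of length 2: `x₀ - u - v'`, `u ∈ W`, `v' ∉ W`, `S.a v' y₀ = 0`. `F₀ = insert v' (W.erase u)`
(`SSt.pivot`, call the result `S₀`), with
`S₀.p x₀ = q - z₁`, `z₁ = (S.a x₀ u * (S.a v' u)⁻¹) • S.p v'`, `S₀.ph y₀ = f`, `S₀.a x₀ y₀ = a₀`;
`F₁ = insert x₀ (F₀.erase y₀)`, `c₁ = c₀ - a₀⁻¹ • (q - z₁)`. The vector of `Ter` is `z = q + z₁`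
(`= q - z₁`, characteristic 2), `q + z = z₁`. `z₁` is the same in both representations as in
`EPr.ter_one` (`Pat3.span_eq` at `W` for `v'` and at `F₀` for `x₀`). -/
theorem EPr.ter_two [CharP F 2] (hL : Lnk F w₀ A n s) (hp : Pat3 Y α γ v 𝒯) (hi : 2 ≤ i)
    (hi' : i < n) (hf : f ≠ 0) (hq : q ≠ 0) (hfq : f q = 0) {z₀ : E}
    (hfz : f (P z₀) = 0) (ha : a₀ ≠ 0) (hb : b₀ ≠ 0)
    (hY : Blk α i (Y i) (LinearEquiv.refl F (Fin s → F)) P H aY)
    (hY' : Blk ((v i).scale c hc) i (Y i) (LinearEquiv.refl F (Fin s → F)) P H bY)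
    (hz : z₀ ∉ Y i) (hz' : 𝒟 z₀) (hzq : P z₀ ∉ span F {q})
    (hD : ∀ d, 𝒟 d → d ∉ Y i → d ≠ z₀ → P d ∈ span F {q}) (hx : 𝒟 x₀) (hy : 𝒟 y₀)
    (R : EPr α ((v i).scale c hc) i (Y i) 𝒟 (span F {q, P z₀}) f q x₀ y₀ a₀ b₀) {u v' : E}
    (h1 : R.adj x₀ u) (h2 : R.adj u v') (h3 : R.far v') (h4 : ¬ R.adj y₀ v')
    (h5 : u ≠ y₀) : Ter 𝒯 α (v i) i f q a₀⁻¹ b₀⁻¹ := by
  have hn : 2 ≤ n := by omega
  have hPi : span F {q, P z₀} ≤ LinearMap.ker f := by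
    rw [Submodule.span_le]
    intro t ht
    rcases ht with ht | ht
    · rw [ht]
      exact hfq
    · rw [Set.mem_singleton_iff.1 ht]
      exact hfz
  obtain ⟨-, hDu, hb1⟩ := h1
  obtain ⟨hDv, hvm, hvf⟩ := h3
  have hxm := Finset.mem_sdiff.1 R.hx
  have hvm1 := Finset.mem_sdiff.1 hvm
  have hu1 : u ∈ R.S.W ∧ R.S.a x₀ u ≠ 0 := by
    rcases hb1 with ⟨-, h, h'⟩ | ⟨h, -, -⟩
    · exact ⟨h, h'⟩
    · exact absurd h hxm.2
  have hu2 : R.S.a v' u ≠ 0 := by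
    rcases h2.2.2 with ⟨h, -, -⟩ | ⟨-, -, h'⟩
    · exact absurd hu1.1 (Finset.mem_sdiff.1 h).2
    · exact h'
  have hvy : R.S.a v' y₀ = 0 := by
    by_contra h
    exact h4 ⟨hy, hDv, Or.inr ⟨R.hy, hvm, h⟩⟩
  have hvx : v' ≠ x₀ := by
    rintro rfl
    apply hvf
    rw [R.px]
    exact Submodule.mem_span_singleton_self q
  have hB' : Blk ((v i).scale c hc) i R.S.W R.S'.κ R.S'.p R.S'.ph R.S'.a := R.hWW ▸ R.S'.h
  have hW' := R.hWW
  have hx0 : x₀ ∈ (A (i + 1) \ A i) \ R.S'.W := by rw [hW']; exact R.hx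
  have hv0 : v' ∈ (A (i + 1) \ A i) \ R.S'.W := by rw [hW']; exact hvm
  have hy0 : y₀ ∈ R.S'.W := by rw [hW']; exact R.hy
  have hu0 : u ∈ R.S'.W := by rw [hW']; exact hu1.1
  have hu1' : R.S'.a x₀ u ≠ 0 := fun h =>
    hu1.2 ((R.S.h.zero_iff hL hi' hB' R.hx hu1.1).2 h)
  have hu2' : R.S'.a v' u ≠ 0 := fun h => hu2 ((R.S.h.zero_iff hL hi' hB' hvm hu1.1).2 h)
  have hvy' : R.S'.a v' y₀ = 0 := (R.S.h.zero_iff hL hi' hB' hvm R.hy).1 hvy
  obtain ⟨S₀, S₁, k1, k2, k3, k4, k5⟩ := BrwJ3c_two hL hi' hf hPi R.S R.hx hx R.hy hy R.px R.fy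
    R.ax ha hu1.1 hDu hvm hDv hvx h5 hu2 hvy
  obtain ⟨T₀, T₁, l1, l2, l3, l4, l5⟩ := BrwJ3c_two hL hi' hf hPi R.S' hx0 hx hy0 hy R.px' R.fy'
    R.ax' hb hu0 hDu hv0 hDv hvx h5 hu2' hvy'
  rw [hW'] at l1 l2 l3
  set t := R.S.a x₀ u * (R.S.a v' u)⁻¹ with ht
  set t' := R.S'.a x₀ u * (R.S'.a v' u)⁻¹ with ht'
  have ht0 : t ≠ 0 := mul_ne_zero hu1.2 (inv_ne_zero hu2)
  set z₁ := t • R.S.p v' with hz1
  have hz1q : z₁ ∉ span F {q} := by
    intro h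
    apply hvf
    have h6 := Submodule.smul_mem _ t⁻¹ h
    rw [hz1, smul_smul, inv_mul_cancel₀ ht0, one_smul] at h6
    exact h6
  -- the same vector in both representations
  have hzz : t' • R.S'.p v' = z₁ := by
    have e1 : span F {R.S'.p v'} = span F {R.S.p v'} := hp.span_eq hL hi hi' R.S.h hB' hvm
    obtain ⟨r, hr⟩ := Submodule.mem_span_singleton.1 (show R.S'.p v' ∈ span F {R.S.p v'} from
      e1 ▸ Submodule.mem_span_singleton_self _)
    have hT : Blk ((v i).scale c hc) i S₀.W T₀.κ T₀.p T₀.ph T₀.a := by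
      rw [k1, ← l1]
      exact T₀.h
    have e2 : span F {T₀.p x₀} = span F {S₀.p x₀} := hp.span_eq hL hi hi' S₀.h hT
      (by rw [k1]; exact k3)
    obtain ⟨r', hr'⟩ := Submodule.mem_span_singleton.1 (show T₀.p x₀ ∈ span F {S₀.p x₀} from
      e2 ▸ Submodule.mem_span_singleton_self _)
    rw [l4, k4] at hr'
    -- `r' • (q - z₁) = q - t' • r • p v'`
    have e3 : t' • R.S'.p v' = (t' * r * t⁻¹) • z₁ := by
      rw [← hr, hz1, smul_smul, smul_smul, mul_assoc (t' * r), inv_mul_cancel₀ ht0, mul_one]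
    rw [e3] at hr' ⊢
    set m := t' * r * t⁻¹ with hm
    have e4 : (r' - 1) • q = (r' - m) • z₁ := by
      rw [sub_smul, sub_smul, one_smul]
      have e5 : r' • q - r' • z₁ = q - m • z₁ := by rw [← smul_sub]; exact hr'
      rw [sub_eq_sub_iff_add_eq_add] at e5 ⊢
      rw [add_comm (r' • z₁) q]
      rw [← e5]
    have e6 : r' = m := by
      by_contra h
      apply hz1q
      have h7 : z₁ = (r' - m)⁻¹ • (r' - 1) • q := by
        rw [e4, smul_smul, inv_mul_cancel₀ (sub_ne_zero.2 h), one_smul]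
      rw [h7]
      exact Submodule.smul_mem _ _ (Submodule.smul_mem _ _ (Submodule.mem_span_singleton_self q))
    rw [e6, sub_self, zero_smul] at e4
    have e7 : m = 1 := by
      rcases smul_eq_zero.1 e4 with h | h
      · exact sub_eq_zero.1 h
      · exact absurd h hq
    rw [e7, one_smul]
  rw [hzz] at l4 l5
  have h2x : ∀ x : Fin s → F, x + x = 0 := fun x => by
    funext j
    exact CharTwo.add_self_eq_zero (x j)
  have hneg : ∀ x : Fin s → F, -x = x := fun x => neg_eq_of_add_eq_zero_left (h2x x)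
  have hsub : ∀ x y : Fin s → F, x - y = x + y := fun x y => by rw [sub_eq_add_neg, hneg]
  rw [hsub q z₁] at k4 k5 l4 l5
  rw [hsub] at k5 l5
  have hzP : z₁ ∈ span F {q, P z₀} := Submodule.smul_mem _ _ (R.S.hp v' hvm hDv)
  have hqP : q ∈ span F {q, P z₀} := Submodule.subset_span (Set.mem_insert _ _)
  have hPz : span F {q, P z₀} ≤ span F {q, q + z₁} := by
    obtain ⟨b1, b2, hb12⟩ := Submodule.mem_span_pair.1 hzP
    have hb2 : b2 ≠ 0 := by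
      rintro rfl
      apply hz1q
      rw [← hb12, zero_smul, add_zero]
      exact Submodule.smul_mem _ _ (Submodule.mem_span_singleton_self q)
    have hq' : q ∈ span F {q, q + z₁} := Submodule.subset_span (Set.mem_insert _ _)
    have hz' : q + z₁ ∈ span F {q, q + z₁} :=
      Submodule.subset_span (Set.mem_insert_of_mem _ rfl)
    rw [Submodule.span_le]
    intro w hw
    rcases hw with hw | hw
    · rw [hw]
      exact hq'
    · rw [Set.mem_singleton_iff.1 hw]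
      have h7 : P z₀ = b2⁻¹ • ((q + z₁) - q - b1 • q) := by
        rw [add_sub_cancel_left, ← hb12, add_sub_cancel_left, smul_smul, inv_mul_cancel₀ hb2,
          one_smul]
      rw [h7]
      exact Submodule.smul_mem _ _ (Submodule.sub_mem _ (Submodule.sub_mem _ hz' hq')
        (Submodule.smul_mem _ _ hq'))
  have hpat : ∀ (X : SSt α i (Y i) 𝒟 (span F {q, P z₀}) f)
      (X' : SSt ((v i).scale c hc) i (Y i) 𝒟 (span F {q, P z₀}) f), X'.W = X.W →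
      (X.c ∈ span F {q} ↔ X'.c ∈ span F {q}) := by
    intro X X' hXX
    rw [X.pat hi' hf hY hz hz' hzq hD, X'.pat hi' hf hY' hz hz' hzq hD, hXX]
    have hX' : Blk ((v i).scale c hc) i X.W X'.κ X'.p X'.ph X'.a := hXX ▸ X'.h
    refine forall_congr' fun hzX => ?_
    have h8 := hp.ker_eq hL hi hi' X.h hX' hzX
    constructor
    · intro h9
      rw [h9, LinearMap.ker_zero, LinearMap.ker_eq_top] at h8
      exact h8
    · intro h9
      rw [h9, LinearMap.ker_zero] at h8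
      exact LinearMap.ker_eq_top.1 h8.symm
  have hsp : ∀ x y : Fin s → F, span F {x} = span F {y} → addR (F := F) x = addR y :=
    fun x y h => by unfold addR; rw [h]
  refine ⟨q + z₁, S₀.c, T₀.c, insert v' (R.S.W.erase u),
    insert x₀ ((insert v' (R.S.W.erase u)).erase y₀), ?_, ?_, ?_, ?_, ?_, ?_, ?_, ?_, ?_, ?_, ?_,
    ?_, ?_, ?_⟩
  · rw [← k1]
    exact S₀.h.tb.sub
  · rw [← k2]
    exact S₁.h.tb.sub
  · exact hPi (Submodule.add_mem _ hqP hzP)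
  · intro h
    apply hz1q
    have h6 := Submodule.sub_mem _ h (Submodule.mem_span_singleton_self q)
    rw [add_sub_cancel_left] at h6
    exact h6
  · obtain ⟨w, hw, hw'⟩ := hp.add_mem hL hn hi' S₀.h (x := x₀) (by rw [k1]; exact k3)
    exact ⟨w, hw, by rw [hw', k4]⟩
  · obtain ⟨w, hw, hw'⟩ := hp.add_mem hL hn hi' R.S.h hvm
    refine ⟨w, hw, ?_⟩
    rw [hw', ← add_assoc, h2x, zero_add]
    apply hsp
    rw [hz1]
    exact (Submodule.span_singleton_smul_eq (IsUnit.mk0 t ht0) _).symm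
  · exact hPz S₀.hc
  · exact hPz T₀.hc
  · refine ⟨S₀.κ, ?_, S₀.hκ⟩
    rw [← k1]
    exact S₀.h.riso hi'
  · refine ⟨T₀.κ, ?_, T₀.hκ⟩
    rw [← l1, ← FRep.scale_L (u := v i) c hc]
    exact T₀.h.riso hi'
  · refine ⟨S₁.κ, ?_, ?_⟩
    · rw [← k2]
      exact S₁.h.riso hi'
    · rw [← k5]
      exact S₁.hκ
  · refine ⟨T₁.κ, ?_, ?_⟩
    · rw [← l2, ← FRep.scale_L (u := v i) c hc]
      exact T₁.h.riso hi'
    · rw [← l5]
      exact T₁.hκ
  · exact hpat S₀ T₀ (by rw [k1, l1])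
  · rw [← k5, ← l5]
    exact hpat S₁ T₁ (by rw [k2, l2])


end Pool.MP_4929df_co.H92
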