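import Pool.Agent.W_4929df_h92.BrwJ2

/-!
The path argument in the case `f q = 0`, far functional (dual to `BrwJ3`).
-/

set_option autoImplicit false

namespace Pool.MP_4929df_co.H92

open Submodule

/-- `R` is the graph of `g ↦ g + c g • q` -/
def LabD {F X : Type} [Field F] [AddCommGroup X] [Module F X] (q : X) (c : X →ₗ[F] F)
    (R : Submodule F (X × X)) : Prop := ∃ e : X ≃ₗ[F] X, RIso R e ∧ ∀ g, e g = g + c g • q

/-- a base of block `i` with coordinates in two representations, with the pair `x₀`, `y₀` -/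
structure EDu {F : Type} [Field F] {E : Type} [Fintype E] [DecidableEq E] {V : Type}
    [AddCommGroup V] [Module F V] {w₀ : E → V} {A : ℕ → Finset E} {n s : ℕ}
    (α β : FRep F w₀ A n s) (i : ℕ) (Y : Finset E) (𝒟 : E → Prop)
    (Psi : Submodule F ((Fin s → F) →ₗ[F] F)) (f : (Fin s → F) →ₗ[F] F) (q : Fin s → F)
    (x₀ y₀ : E) (a₀ b₀ : F) where
  S : DSt α i Y 𝒟 Psi q
  S' : DSt β i Y 𝒟 Psi q
  hWW : S'.W = S.W
  hx : x₀ ∈ (A (i + 1) \ A i) \ S.W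
  hy : y₀ ∈ S.W
  px : S.p x₀ = q
  px' : S'.p x₀ = q
  fy : S.ph y₀ = f
  fy' : S'.ph y₀ = f
  ax : S.a x₀ y₀ = a₀
  ax' : S'.a x₀ y₀ = b₀

section

variable {F : Type} [Field F] {E : Type} [Fintype E] [DecidableEq E] {V : Type}
  [AddCommGroup V] [Module F V] {w₀ : E → V} {A : ℕ → Finset E} {n s : ℕ}
  {α β : FRep F w₀ A n s} {i : ℕ} {Y : Finset E} {𝒟 : E → Prop}
  {Psi : Submodule F ((Fin s → F) →ₗ[F] F)} {f : (Fin s → F) →ₗ[F] F} {q : Fin s → F}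
  {x₀ y₀ : E} {a₀ b₀ : F}

def EDu.adj (R : EDu α β i Y 𝒟 Psi f q x₀ y₀ a₀ b₀) (d e : E) : Prop :=
  𝒟 d ∧ 𝒟 e ∧ badj (A (i + 1) \ A i) R.S.W R.S.a d e

def EDu.far (R : EDu α β i Y 𝒟 Psi f q x₀ y₀ a₀ b₀) (d : E) : Prop :=
  𝒟 d ∧ d ∈ R.S.W ∧ R.S.ph d ∉ span F {f}

/-- The result of the path argument: two sets `F₀`, `F₁` of block `i` and a functional `z` such that
the letters (cut with `z`), (cut with `f + z`) exist and the labels of `F₀`, `F₁` are as given. -/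
def TerD (𝒯 : Set (Submodule F ((Fin s → F) × (Fin s → F)) ×
      Submodule F ((Fin s → F) × (Fin s → F))))
    (α β : FRep F w₀ A n s) (i : ℕ) (f : (Fin s → F) →ₗ[F] F) (q : Fin s → F) (ua ub : F) :
    Prop :=
  ∃ (z c₀ c₀' : (Fin s → F) →ₗ[F] F) (F₀ F₁ : Finset E), F₀ ⊆ A (i + 1) \ A i ∧
    F₁ ⊆ A (i + 1) \ A i ∧
    z q = 0 ∧ z ∉ span F {f} ∧ (∃ t ∈ 𝒯, t.1 = cutR z) ∧ (∃ t ∈ 𝒯, t.1 = cutR (f + z)) ∧
    c₀ ∈ span F {f, z} ∧ c₀' ∈ span F {f, z} ∧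
    LabD q c₀ (α.L i (i + 1) F₀) ∧ LabD q c₀' (β.L i (i + 1) F₀) ∧
    LabD q (c₀ + ua • z) (α.L i (i + 1) F₁) ∧ LabD q (c₀' + ub • z) (β.L i (i + 1) F₁) ∧
    (c₀ ∈ span F {f} ↔ c₀' ∈ span F {f}) ∧
    (c₀ + ua • z ∈ span F {f} ↔ c₀' + ub • z ∈ span F {f})

end

variable {F : Type} [Field F] [Finite F] {E : Type} [Fintype E] [DecidableEq E] {V : Type}
  [AddCommGroup V] [Module F V] [FiniteDimensional F V] {w₀ : E → V} {A : ℕ → Finset E} {n s : ℕ}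
  {Y : ℕ → Finset E} {α : FRep F w₀ A n s}
  {i : ℕ} {𝒟 : E → Prop} {Psi : Submodule F ((Fin s → F) →ₗ[F] F)}
  {f : (Fin s → F) →ₗ[F] F} {q : Fin s → F} {x₀ y₀ : E} {a₀ b₀ : F}
  {P : E → Fin s → F} {H : E → (Fin s → F) →ₗ[F] F} {aY bY : E → E → F}

/-- The pivot step: `v' ∈ W` is far, `u ∉ W`, `S.a u v' ≠ 0`, `S'.a u v' ≠ 0` (`Blk.zero_iff`).
`DSt.pivot` for `x = u`, `y = v'` in both representations. `x₀`, `y₀` keep their data because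
`S.a x₀ v' = 0` and `S.a u y₀ = 0` (`hst`), also for `S'` (`Blk.zero_iff`), and `Psi` vanishes at `q`.
If `t ∈ W` is adjacent to `u` and `S.ph t ∈ span {f}` then the new functional is
`S.ph t - (S.a u t * (S.a u v')⁻¹) • S.ph v'`, not in `span {f}`. -/
theorem EDu.step (hL : Lnk F w₀ A n s) (hi : i < n) (hq : q ≠ 0) (hPsi : ∀ g ∈ Psi, g q = 0)
    {β : FRep F w₀ A n s} (hx : 𝒟 x₀) (hy : 𝒟 y₀)
    (R : EDu α β i (Y i) 𝒟 Psi f q x₀ y₀ a₀ b₀) (u v' : E) (huv : R.adj u v') (hv : R.far v')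
    (hu : ¬ R.far u) (hu' : ¬ (u = x₀ ∨ u = y₀)) (hv' : ¬ (v' = x₀ ∨ v' = y₀))
    (hst : ∀ d, (d = x₀ ∨ d = y₀) → ¬ R.adj d u ∧ ¬ R.adj d v' ∧ ¬ R.far d) :
    ∃ R' : EDu α β i (Y i) 𝒟 Psi f q x₀ y₀ a₀ b₀,
      (∀ d e, R.adj d e → d ≠ u → d ≠ v' → e ≠ u → e ≠ v' → ¬ R.adj d v' → ¬ R.adj e v' →
        R'.adj d e) ∧
      ∀ t, R.adj t u → ¬ R.far t → ¬ (t = x₀ ∨ t = y₀) → R'.far t := by
  obtain ⟨hDu, hDv, hb⟩ := huv
  obtain ⟨-, hvW, hvf⟩ := hv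
  obtain ⟨huD, -, hauv⟩ : u ∈ (A (i + 1) \ A i) \ R.S.W ∧ v' ∈ R.S.W ∧ R.S.a u v' ≠ 0 := by
    rcases hb with hb | ⟨-, h2, -⟩
    · exact hb
    · exact absurd hvW (Finset.mem_sdiff.1 h2).2
  have huW : u ∉ R.S.W := (Finset.mem_sdiff.1 huD).2
  have hux : x₀ ≠ u := fun hh => hu' (Or.inl hh.symm)
  have huy : y₀ ≠ u := fun hh => hu' (Or.inr hh.symm)
  have hvx : x₀ ≠ v' := fun hh => hv' (Or.inl hh.symm)
  have hvy : y₀ ≠ v' := fun hh => hv' (Or.inr hh.symm)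
  have hB' : Blk β i R.S.W R.S'.κ R.S'.p R.S'.ph R.S'.a := R.hWW ▸ R.S'.h
  -- zeros of the first matrix
  have hax : R.S.a x₀ v' = 0 := by
    by_contra hne
    exact (hst x₀ (Or.inl rfl)).2.1 ⟨hx, hDv, Or.inl ⟨R.hx, hvW, hne⟩⟩
  have hay : R.S.a u y₀ = 0 := by
    by_contra hne
    exact (hst y₀ (Or.inr rfl)).1 ⟨hy, hDu, Or.inr ⟨R.hy, huD, hne⟩⟩
  have hax' : R.S'.a x₀ v' = 0 := (R.S.h.zero_iff hL hi hB' R.hx hvW).1 hax
  have hay' : R.S'.a u y₀ = 0 := (R.S.h.zero_iff hL hi hB' huD R.hy).1 hay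
  have hauv' : R.S'.a u v' ≠ 0 := fun hh => hauv ((R.S.h.zero_iff hL hi hB' huD hvW).2 hh)
  have huD' : u ∈ (A (i + 1) \ A i) \ R.S'.W := by rw [R.hWW]; exact huD
  have hvW' : v' ∈ R.S'.W := by rw [R.hWW]; exact hvW
  have hyW' : y₀ ∈ R.S'.W := by rw [R.hWW]; exact R.hy
  -- functionals of the base vanish on the point of `u`
  have hz : ∀ t ∈ R.S.W, 𝒟 t → R.S.ph t (R.S.p u) = 0 := by
    intro t ht ht'
    obtain ⟨b, hb⟩ := R.S.hp u huD hDu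
    rw [hb, map_smul, hPsi _ (R.S.hph t ht ht'), smul_zero]
  have hz' : ∀ t ∈ R.S'.W, 𝒟 t → R.S'.ph t (R.S'.p u) = 0 := by
    intro t ht ht'
    obtain ⟨b, hb⟩ := R.S'.hp u huD' hDu
    rw [hb, map_smul, hPsi _ (R.S'.hph t ht ht'), smul_zero]
  obtain ⟨S₁, hW₁, hp₁, hph₁, ha₁, -⟩ := R.S.pivot hL hi hq hPsi huD hDu hvW hDv hauv
  obtain ⟨S₂, hW₂, hp₂, hph₂, ha₂, -⟩ := R.S'.pivot hL hi hq hPsi huD' hDu hvW' hDv hauv'
  have hmem : ∀ d, d ∈ (A (i + 1) \ A i) \ R.S.W → d ≠ u → d ∈ (A (i + 1) \ A i) \ S₁.W := by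
    intro d hd hdu
    have hd1 := Finset.mem_sdiff.1 hd
    rw [hW₁]
    refine Finset.mem_sdiff.2 ⟨hd1.1, fun hh => ?_⟩
    rcases Finset.mem_insert.1 hh with hh | hh
    · exact hdu hh
    · exact hd1.2 (Finset.mem_of_mem_erase hh)
  have hmemW : ∀ d, d ∈ R.S.W → d ≠ v' → d ∈ S₁.W := by
    intro d hd hdv
    rw [hW₁]
    exact Finset.mem_insert_of_mem (Finset.mem_erase.2 ⟨hdv, hd⟩)
  have hval : ∀ d e, R.S.a d v' = 0 → d ≠ v' → e ≠ u → S₁.a d e = R.S.a d e := by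
    intro d e h0 hdv heu
    rw [ha₁]
    unfold pvA
    rw [if_neg hdv, if_neg heu, h0, zero_mul, zero_mul, sub_zero]
  refine ⟨{ S := S₁, S' := S₂, hWW := ?_, hx := hmem _ R.hx hux, hy := hmemW _ R.hy hvy,
            px := ?_, px' := ?_, fy := ?_, fy' := ?_, ax := ?_, ax' := ?_ }, ?_, ?_⟩
  · rw [hW₁, hW₂, R.hWW]
  · rw [hp₁]
    unfold pvP
    rw [if_neg hvx, hax, zero_mul, zero_smul, sub_zero, R.px]
  · rw [hp₂]
    unfold pvP
    rw [if_neg hvx, hax', zero_mul, zero_smul, sub_zero, R.px']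
  · rw [hph₁]
    unfold pvH
    rw [if_neg huy, hay, hz y₀ R.hy hy, add_zero, zero_mul, zero_smul, sub_zero, R.fy]
  · rw [hph₂]
    unfold pvH
    rw [if_neg huy, hay', hz' y₀ hyW' hy, add_zero, zero_mul, zero_smul, sub_zero, R.fy']
  · rw [hval x₀ y₀ hax hvx huy, R.ax]
  · rw [ha₂]
    unfold pvA
    rw [if_neg hvx, if_neg huy, hax', zero_mul, zero_mul, sub_zero, R.ax']
  · rintro d e ⟨hd, he, hde⟩ hdu hdv heu hev hdn hen
    refine ⟨hd, he, ?_⟩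
    rcases hde with ⟨h1, h2, h3⟩ | ⟨h1, h2, h3⟩
    · refine Or.inl ⟨hmem d h1 hdu, hmemW e h2 hev, ?_⟩
      have h0 : R.S.a d v' = 0 := by
        by_contra hne
        exact hdn ⟨hd, hDv, Or.inl ⟨h1, hvW, hne⟩⟩
      exact fun hh => h3 ((hval d e h0 hdv heu).symm.trans hh)
    · refine Or.inr ⟨hmemW d h1 hdv, hmem e h2 heu, ?_⟩
      have h0 : R.S.a e v' = 0 := by
        by_contra hne
        exact hen ⟨he, hDv, Or.inl ⟨h2, hvW, hne⟩⟩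
      exact fun hh => h3 ((hval e d h0 hev hdu).symm.trans hh)
  · rintro t ⟨ht, -, htu⟩ htf htn
    obtain ⟨htW, haut⟩ : t ∈ R.S.W ∧ R.S.a u t ≠ 0 := by
      rcases htu with ⟨-, h2, -⟩ | ⟨h1, -, h3⟩
      · exact absurd h2 huW
      · exact ⟨h1, h3⟩
    have htspan : R.S.ph t ∈ span F {f} := by
      by_contra hne
      exact htf ⟨ht, htW, hne⟩
    have htv : t ≠ v' := fun hh => hvf (hh ▸ htspan)
    have htu' : t ≠ u := fun hh => huW (hh ▸ htW)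
    refine ⟨ht, hmemW t htW htv, ?_⟩
    intro hin
    have hin' : S₁.ph t ∈ span F {f} := hin
    rw [hph₁] at hin'
    unfold pvH at hin'
    rw [if_neg htu', hz t htW ht, hz v' hvW hDv, add_zero, add_zero] at hin'
    have h5 : (R.S.a u t * (R.S.a u v')⁻¹) • R.S.ph v' ∈ span F {f} := by
      have h6 := (span F {f}).sub_mem htspan hin'
      rwa [sub_sub_cancel] at h6
    exact hvf ((Submodule.smul_mem_iff _ (mul_ne_zero haut (inv_ne_zero hauv))).1 h5)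

/-- The start: `W = Y i`, `κ = 1`, `c = 0` in both representations. -/
theorem exists_edu {z₀ : E} (hY : Blk α i (Y i) (LinearEquiv.refl F (Fin s → F)) P H aY)
    {β : FRep F w₀ A n s} (hY' : Blk β i (Y i) (LinearEquiv.refl F (Fin s → F)) P H bY)
    (hx : x₀ ∈ (A (i + 1) \ A i) \ Y i) (hy : y₀ ∈ Y i)
    (hP : ∀ d, 𝒟 d → d ∉ Y i → ∃ b : F, P d = b • P x₀)
    (hH : ∀ d, 𝒟 d → d ∈ Y i → H d ∈ span F {H y₀, H z₀}) :
    ∃ R : EDu α β i (Y i) 𝒟 (span F {H y₀, H z₀}) (H y₀) (P x₀) x₀ y₀ (aY x₀ y₀) (bY x₀ y₀),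
      R.S.W = Y i ∧ R.S.a = aY ∧ R.S.ph = H := by
  refine ⟨{ S := { W := Y i, κ := LinearEquiv.refl F (Fin s → F), p := P, ph := H, a := aY, c := 0,
                   h := hY, hW := ?_, hp := ?_, hph := ?_, hc := ?_, hκ := ?_ },
            S' := { W := Y i, κ := LinearEquiv.refl F (Fin s → F), p := P, ph := H, a := bY, c := 0,
                    h := hY', hW := ?_, hp := ?_, hph := ?_, hc := ?_, hκ := ?_ },
            hWW := rfl, hx := hx, hy := hy, px := rfl, px' := rfl, fy := rfl, fy' := rfl, ax := rfl,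
            ax' := rfl }, rfl, rfl, rfl⟩
  · exact fun d hd hd' => absurd hd hd'
  · exact fun d hd hd' => hP d hd' (Finset.mem_sdiff.1 hd).2
  · exact fun d hd hd' => hH d hd' hd
  · exact Submodule.zero_mem _
  · intro g
    rw [LinearMap.zero_apply, zero_smul, add_zero]
    rfl
  · exact fun d hd hd' => absurd hd hd'
  · exact fun d hd hd' => hP d hd' (Finset.mem_sdiff.1 hd).2
  · exact fun d hd hd' => hH d hd' hd
  · exact Submodule.zero_mem _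
  · intro g
    rw [LinearMap.zero_apply, zero_smul, add_zero]
    rfl

end Pool.MP_4929df_co.H92
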