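import Pool.Agent.W_4929df_h92.BrwJ4

/-!
The path argument in the case `f q = 0`, far functional: paths of length 1.
-/

set_option autoImplicit false

namespace Pool.MP_4929df_co.H92

open Submodule

section

variable {F X : Type} [Field F] [AddCommGroup X] [Module F X]

private theorem BrwJ4b_neg [CharP F 2] (x : X) : -x = x := by
  have h1 : (-1 : F) = 1 := CharTwo.neg_eq 1
  rw [← neg_one_smul F x, h1, one_smul]

/-- functionals with the same kernel -/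
private theorem BrwJ4b_ker {f g : X →ₗ[F] F}
    (h : LinearMap.ker f = LinearMap.ker g) : ∃ c : F, c ≠ 0 ∧ f = c • g := by
  by_cases hg : g = 0
  · refine ⟨1, one_ne_zero, ?_⟩
    rw [hg, LinearMap.ker_zero, LinearMap.ker_eq_top] at h
    rw [h, hg, smul_zero]
  · obtain ⟨x, hx⟩ : ∃ x, g x ≠ 0 := by
      by_contra hcon
      push Not at hcon
      exact hg (LinearMap.ext hcon)
    have hfx : f x ≠ 0 := by
      intro h1
      have h2 : x ∈ LinearMap.ker f := h1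
      rw [h] at h2
      exact hx h2
    refine ⟨f x / g x, div_ne_zero hfx hx, LinearMap.ext fun y => ?_⟩
    have h1 : y - (g y / g x) • x ∈ LinearMap.ker g := by
      rw [LinearMap.mem_ker, map_sub, map_smul, smul_eq_mul, div_mul_cancel₀ _ hx, sub_self]
    rw [← h, LinearMap.mem_ker, map_sub, map_smul, smul_eq_mul, sub_eq_zero] at h1
    rw [h1, LinearMap.smul_apply, smul_eq_mul]
    field_simp

private theorem BrwJ4b_cut {f : X →ₗ[F] F} {c : F} (hc : c ≠ 0) : cutR (c • f) = cutR f := by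
  ext ⟨g, h⟩
  rw [mem_cutR, mem_cutR, LinearMap.smul_apply, smul_eq_mul, mul_eq_zero, or_iff_right hc]

private theorem BrwJ4b_eq {f z z' : X} {l m : F} (hf : f ≠ 0) (hz : z ∉ span F {f})
    (h1 : z' = l • z) (h2 : f - z' = m • (f - z)) : z' = z := by
  have h3 : (l - m) • z = (1 - m) • f := by
    rw [sub_smul, sub_smul, one_smul, ← h1]
    rw [smul_sub] at h2
    have h4 : z' = f - (m • f - m • z) := by
      rw [← h2]
      abel
    rw [h4]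
    abel
  have h4 : l - m = 0 := by
    by_contra h5
    refine hz (Submodule.mem_span_singleton.2 ⟨(l - m)⁻¹ * (1 - m), ?_⟩)
    rw [mul_smul, ← h3, smul_smul, inv_mul_cancel₀ h5, one_smul]
  rw [h4, zero_smul] at h3
  have h5 : 1 - m = 0 := (smul_eq_zero.1 h3.symm).resolve_right hf
  have h6 : l = 1 := (sub_eq_zero.1 h4).trans (sub_eq_zero.1 h5).symm
  rw [h1, h6, one_smul]

private theorem BrwJ4b_span {f g h : X} (h1 : g ∈ span F {f, h}) (h2 : g ∉ span F {f}) :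
    span F {f, h} ≤ span F {f, g} := by
  have h3 : h ∈ span F {f, g} := by
    rw [Set.pair_comm]
    rw [Set.pair_comm] at h1
    exact mem_span_insert_exchange h1 h2
  rw [Submodule.span_le]
  rintro x (rfl | hx)
  · exact Submodule.subset_span (Set.mem_insert _ _)
  · rw [Set.mem_singleton_iff] at hx
    rw [hx]
    exact h3

end

variable {F : Type} [Field F] [Finite F] {E : Type} [Fintype E] [DecidableEq E] {V : Type}
  [AddCommGroup V] [Module F V] [FiniteDimensional F V] {w₀ : E → V} {A : ℕ → Finset E} {n s : ℕ}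
  {Y : ℕ → Finset E} {α γ : FRep F w₀ A n s} {v : ℕ → FRep F w₀ A n s}
  {𝒯 : Set (Submodule F ((Fin s → F) × (Fin s → F)) × Submodule F ((Fin s → F) × (Fin s → F)))}
  {i : ℕ} {𝒟 : E → Prop} {f : (Fin s → F) →ₗ[F] F}
  {q : Fin s → F} {x₀ y₀ : E} {a₀ b₀ : F} {c : E → F} {hc : ∀ x, c x ≠ 0}
  {P : E → Fin s → F} {H : E → (Fin s → F) →ₗ[F] F} {aY bY : E → E → F}

private theorem BrwJ4b_pat (hL : Lnk F w₀ A n s) (hp : Pat3 Y α γ v 𝒯) (hi : 2 ≤ i)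
    (hi' : i < n) (hq : q ≠ 0) {Psi : Submodule F ((Fin s → F) →ₗ[F] F)}
    (hPsi : ∀ g ∈ Psi, g q = 0) {z₀ : E}
    (hY : Blk α i (Y i) (LinearEquiv.refl F (Fin s → F)) P H aY)
    (hY' : Blk ((v i).scale c hc) i (Y i) (LinearEquiv.refl F (Fin s → F)) P H bY)
    (hz : z₀ ∈ Y i) (hz' : 𝒟 z₀) (hzf : H z₀ ∉ span F {f})
    (hD : ∀ d, 𝒟 d → d ∈ Y i → d ≠ z₀ → H d ∈ span F {f})
    (S : DSt α i (Y i) 𝒟 Psi q) (S' : DSt ((v i).scale c hc) i (Y i) 𝒟 Psi q)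
    (hWW : S'.W = S.W) : S.c ∈ span F {f} ↔ S'.c ∈ span F {f} := by
  rw [DSt.pat hi' hq hPsi S hY hz hz' hzf hD, DSt.pat hi' hq hPsi S' hY' hz hz' hzf hD, hWW]
  have hB' : Blk ((v i).scale c hc) i S.W S'.κ S'.p S'.ph S'.a := by
    rw [← hWW]
    exact S'.h
  refine forall_congr' fun hzW => ?_
  have h1 := hp.span_eq hL hi hi' S.h hB' (Finset.mem_sdiff.2 ⟨hY.tb.sub hz, hzW⟩)
  rw [← Submodule.span_singleton_eq_bot (R := F) (x := S.p z₀), ← h1,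
    Submodule.span_singleton_eq_bot]

/-- End of the path argument, a path of length 1: it is `x₀ - v'` (`v' ∈ W`). `F₀ = W`,
`F₁ = insert x₀ (W.erase v')` (`DSt.pivot`, `b = 1`), `z = (a₀ * (S.a x₀ v')⁻¹) • S.ph v'` (for `S'`:
`z' = (b₀ * (S'.a x₀ v')⁻¹) • S'.ph v'`; `z' = z` because `ker (S'.ph v') = ker (S.ph v')`
(`Pat3.ker_eq` at `W`) and `ker (f - z') = ker (f - z)` (`Pat3.ker_eq` at `F₁` for `y₀`, `pvH`, using
`f q = 0`)). Letters: `Pat3.cut_mem` at `W` for `v'` and at `F₁` for `y₀`. The last two statements: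
`DSt.pat` for both representations and both bases, `Pat3.span_eq`. -/
theorem EDu.ter_one [CharP F 2] (hL : Lnk F w₀ A n s) (hp : Pat3 Y α γ v 𝒯) (hi : 2 ≤ i)
    (hi' : i < n) (hf : f ≠ 0) (hq : q ≠ 0) (hfq : f q = 0) {z₀ : E}
    (hzq : H z₀ q = 0) (ha : a₀ ≠ 0) (hb : b₀ ≠ 0)
    (hY : Blk α i (Y i) (LinearEquiv.refl F (Fin s → F)) P H aY)
    (hY' : Blk ((v i).scale c hc) i (Y i) (LinearEquiv.refl F (Fin s → F)) P H bY)
    (hz : z₀ ∈ Y i) (hz' : 𝒟 z₀) (hzf : H z₀ ∉ span F {f})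
    (hD : ∀ d, 𝒟 d → d ∈ Y i → d ≠ z₀ → H d ∈ span F {f}) (hx : 𝒟 x₀)
    (R : EDu α ((v i).scale c hc) i (Y i) 𝒟 (span F {f, H z₀}) f q x₀ y₀ a₀ b₀) {v' : E}
    (h1 : R.adj x₀ v') (h2 : R.far v') :
    TerD 𝒯 α (v i) i f q a₀⁻¹ b₀⁻¹ := by
  have hn : 2 ≤ n := le_trans hi hi'.le
  have hPsi : ∀ g ∈ span F {f, H z₀}, g q = 0 := by
    intro g hg
    obtain ⟨s, t, rfl⟩ := Submodule.mem_span_pair.1 hg
    rw [LinearMap.add_apply, LinearMap.smul_apply, LinearMap.smul_apply, hfq, hzq, smul_zero,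
      smul_zero, add_zero]
  obtain ⟨S, S', hWW, hxm, hy0, px, px', fy, fy', ax, ax'⟩ := R
  obtain ⟨-, -, h3⟩ := h1
  obtain ⟨hv, hvW, hvf⟩ := h2
  simp only at h3 hvW hvf
  have hx1 := Finset.mem_sdiff.1 hxm
  have hav : S.a x₀ v' ≠ 0 := by
    rcases h3 with h3 | h3
    · exact h3.2.2
    · exact absurd h3.1 hx1.2
  have hB' : Blk ((v i).scale c hc) i S.W S'.κ S'.p S'.ph S'.a := by
    rw [← hWW]
    exact S'.h
  have hav' : S'.a x₀ v' ≠ 0 := fun h => hav ((Blk.zero_iff hL hi' S.h hB' hxm hvW).2 h)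
  have hyv : y₀ ≠ v' := by
    rintro rfl
    exact hvf (by rw [fy]; exact Submodule.mem_span_singleton_self f)
  have hyx : y₀ ≠ x₀ := by
    rintro rfl
    exact hx1.2 hy0
  have hvx : v' ≠ x₀ := by
    rintro rfl
    exact hx1.2 hvW
  have hvq : S.ph v' q = 0 := hPsi _ (S.hph v' hvW hv)
  have hvW' : v' ∈ S'.W := by rw [hWW]; exact hvW
  have hvq' : S'.ph v' q = 0 := hPsi _ (S'.hph v' hvW' hv)
  have hxm' : x₀ ∈ (A (i + 1) \ A i) \ S'.W := by rw [hWW]; exact hxm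
  obtain ⟨S₁, hW₁, hp₁, hph₁, -, hc₁⟩ := DSt.pivot hL hi' hq hPsi S hxm hx hvW hv hav
  obtain ⟨S₁', hW₁', hp₁', hph₁', -, hc₁'⟩ := DSt.pivot hL hi' hq hPsi S' hxm' hx hvW' hv hav'
  have hWW₁ : S₁'.W = S₁.W := by rw [hW₁, hW₁', hWW]
  have hB₁' : Blk ((v i).scale c hc) i S₁.W S₁'.κ S₁'.p S₁'.ph S₁'.a := by
    rw [← hWW₁]
    exact S₁'.h
  have hy1 : y₀ ∈ S₁.W := by
    rw [hW₁]
    exact Finset.mem_insert_of_mem (Finset.mem_erase.2 ⟨hyv, hy0⟩)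
  -- the functional
  obtain ⟨z, hzd⟩ : ∃ z, z = (a₀ * (S.a x₀ v')⁻¹) • S.ph v' := ⟨_, rfl⟩
  obtain ⟨z', hzd'⟩ : ∃ z', z' = (b₀ * (S'.a x₀ v')⁻¹) • S'.ph v' := ⟨_, rfl⟩
  have hk : a₀ * (S.a x₀ v')⁻¹ ≠ 0 := mul_ne_zero ha (inv_ne_zero hav)
  have hk' : b₀ * (S'.a x₀ v')⁻¹ ≠ 0 := mul_ne_zero hb (inv_ne_zero hav')
  have hzn : z ∉ span F {f} := by
    rw [hzd]
    exact fun h => hvf ((Submodule.smul_mem_iff _ hk).1 h)
  have hzP : z ∈ span F {f, H z₀} := by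
    rw [hzd]
    exact Submodule.smul_mem _ _ (S.hph v' hvW hv)
  have e1 : S₁.ph y₀ = f - z := by
    rw [hph₁]
    unfold pvH
    rw [if_neg hyx, fy, ax, px, hfq, hvq, add_zero, add_zero, hzd]
  have e1' : S₁'.ph y₀ = f - z' := by
    rw [hph₁']
    unfold pvH
    rw [if_neg hyx, fy', ax', px', hfq, hvq', add_zero, add_zero, hzd']
  have hzz : z' = z := by
    obtain ⟨k, -, hk2⟩ := BrwJ4b_ker (hp.ker_eq hL hi hi' S.h hB' hvW)
    obtain ⟨m, -, hm2⟩ := BrwJ4b_ker (hp.ker_eq hL hi hi' S₁.h hB₁' hy1)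
    rw [e1, e1'] at hm2
    refine BrwJ4b_eq (l := b₀ * (S'.a x₀ v')⁻¹ * k * (a₀ * (S.a x₀ v')⁻¹)⁻¹) hf hzn ?_ hm2
    rw [hzd', hk2, hzd, smul_smul, smul_smul, mul_assoc _ (a₀ * (S.a x₀ v')⁻¹)⁻¹,
      inv_mul_cancel₀ hk, mul_one]
  have e2 : a₀⁻¹ • z = (S.a x₀ v')⁻¹ • S.ph v' := by
    rw [hzd, smul_smul, ← mul_assoc, inv_mul_cancel₀ ha, one_mul]
  have e2' : b₀⁻¹ • z = (S'.a x₀ v')⁻¹ • S'.ph v' := by
    rw [← hzz, hzd', smul_smul, ← mul_assoc, inv_mul_cancel₀ hb, one_mul]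
  have e3 : S₁.c = S.c + a₀⁻¹ • z := by
    rw [hc₁ 1 (by rw [px, one_smul]), e2, one_mul, sub_eq_add_neg,
      BrwJ4b_neg (F := F) ((S.a x₀ v')⁻¹ • S.ph v')]
  have e3' : S₁'.c = S'.c + b₀⁻¹ • z := by
    rw [hc₁' 1 (by rw [px', one_smul]), e2', one_mul, sub_eq_add_neg,
      BrwJ4b_neg (F := F) ((S'.a x₀ v')⁻¹ • S'.ph v')]
  refine ⟨z, S.c, S'.c, S.W, S₁.W, S.h.tb.sub, S₁.h.tb.sub, hPsi z hzP, hzn, ?_, ?_,
    BrwJ4b_span hzP hzn S.hc, BrwJ4b_span hzP hzn S'.hc, ⟨S.κ, S.h.riso hi', S.hκ⟩,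
    ⟨S'.κ, ?_, S'.hκ⟩, ⟨S₁.κ, S₁.h.riso hi', ?_⟩, ⟨S₁'.κ, ?_, ?_⟩, ?_, ?_⟩
  · obtain ⟨t, ht, ht1⟩ := hp.cut_mem hL hn hi' S.h hvW
    exact ⟨t, ht, by rw [ht1, hzd, BrwJ4b_cut hk]⟩
  · obtain ⟨t, ht, ht1⟩ := hp.cut_mem hL hn hi' S₁.h hy1
    refine ⟨t, ht, ?_⟩
    rw [ht1, e1, sub_eq_add_neg, BrwJ4b_neg (F := F) z]
  · have h5 := hB'.riso hi'
    rw [FRep.scale_L] at h5
    exact h5
  · intro g
    rw [← e3]
    exact S₁.hκ g
  · have h5 := hB₁'.riso hi'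
    rw [FRep.scale_L] at h5
    exact h5
  · intro g
    rw [← e3']
    exact S₁'.hκ g
  · exact BrwJ4b_pat hL hp hi hi' hq hPsi hY hY' hz hz' hzf hD S S' hWW
  · rw [← e3, ← e3']
    exact BrwJ4b_pat hL hp hi hi' hq hPsi hY hY' hz hz' hzf hD S₁ S₁' hWW₁

end Pool.MP_4929df_co.H92
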