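import Pool.Agent.W_4929df_h92.BrwJ4

/-!
The path argument in the case `f q = 0`, far functional: paths of length 2.
-/

set_option autoImplicit false

namespace Pool.MP_4929df_co.H92

open Submodule

variable {F : Type} [Field F] [Finite F] {E : Type} [Fintype E] [DecidableEq E] {V : Type}
  [AddCommGroup V] [Module F V] [FiniteDimensional F V] {w₀ : E → V} {A : ℕ → Finset E} {n s : ℕ}
  {Y : ℕ → Finset E} {α γ : FRep F w₀ A n s} {v : ℕ → FRep F w₀ A n s}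
  {𝒯 : Set (Submodule F ((Fin s → F) × (Fin s → F)) × Submodule F ((Fin s → F) × (Fin s → F)))}
  {i : ℕ} {𝒟 : E → Prop} {f : (Fin s → F) →ₗ[F] F}
  {q : Fin s → F} {x₀ y₀ : E} {a₀ b₀ : F} {c : E → F} {hc : ∀ x, c x ≠ 0}
  {P : E → Fin s → F} {H : E → (Fin s → F) →ₗ[F] F} {aY bY : E → E → F}

/-- functionals with the same kernel -/
private theorem brwJ4c_ker {F : Type} [Field F] {X : Type} [AddCommGroup X] [Module F X]
    {f g : X →ₗ[F] F} (h : LinearMap.ker f = LinearMap.ker g) : ∃ c : F, c ≠ 0 ∧ f = c • g := by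
  by_cases hg : g = 0
  · refine ⟨1, one_ne_zero, ?_⟩
    rw [hg, LinearMap.ker_zero, LinearMap.ker_eq_top] at h
    rw [h, hg, smul_zero]
  · obtain ⟨x, hx⟩ : ∃ x, g x ≠ 0 := by
      by_contra hcon
      push Not at hcon
      exact hg (LinearMap.ext hcon)
    have hfx : f x ≠ 0 := by
      intro h1
      have h2 : x ∈ LinearMap.ker f := h1
      rw [h] at h2
      exact hx h2
    refine ⟨f x / g x, div_ne_zero hfx hx, LinearMap.ext fun y => ?_⟩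
    have h1 : y - (g y / g x) • x ∈ LinearMap.ker g := by
      rw [LinearMap.mem_ker, map_sub, map_smul, smul_eq_mul, div_mul_cancel₀ _ hx, sub_self]
    rw [← h, LinearMap.mem_ker, map_sub, map_smul, smul_eq_mul, sub_eq_zero] at h1
    rw [h1, LinearMap.smul_apply, smul_eq_mul]
    field_simp

/-- independence of two functionals -/
private theorem brwJ4c_ind {F : Type} [Field F] {X : Type} [AddCommGroup X] [Module F X]
    {f g : X} (hf : f ≠ 0) (hg : g ∉ span F {f}) {r t : F} (h : r • f = t • g) :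
    r = 0 ∧ t = 0 := by
  have ht : t = 0 := by
    by_contra ht
    apply hg
    rw [Submodule.mem_span_singleton]
    refine ⟨t⁻¹ * r, ?_⟩
    rw [mul_smul, h, smul_smul, inv_mul_cancel₀ ht, one_smul]
  refine ⟨?_, ht⟩
  rw [ht, zero_smul] at h
  exact (smul_eq_zero.1 h).resolve_right hf

/-- the relation of cutting depends only on the kernel -/
private theorem brwJ4c_cut {F : Type} [Field F] {X : Type} [AddCommGroup X] [Module F X]
    {f : X →ₗ[F] F} {t : F} (ht : t ≠ 0) : cutR (t • f) = cutR f := by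
  ext ⟨g, k⟩
  rw [mem_cutR, mem_cutR, LinearMap.smul_apply, smul_eq_mul, mul_eq_zero]
  constructor
  · rintro ⟨h1, h2⟩
    exact ⟨h1, h2.resolve_left ht⟩
  · rintro ⟨h1, h2⟩
    exact ⟨h1, Or.inr h2⟩

/-- the two pivots in one representation -/
private theorem brwJ4c_side (hL : Lnk F w₀ A n s) (hi : i < n) (hq : q ≠ 0)
    {Psi : Submodule F ((Fin s → F) →ₗ[F] F)} (hPsi : ∀ g ∈ Psi, g q = 0)
    {β : FRep F w₀ A n s} {Y₀ : Finset E} (S : DSt β i Y₀ 𝒟 Psi q)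
    (hx₀ : x₀ ∈ (A (i + 1) \ A i) \ S.W) (hy₀ : y₀ ∈ S.W) (hpx : S.p x₀ = q)
    (hfy : S.ph y₀ = f) (hax : S.a x₀ y₀ = a₀) (ha : a₀ ≠ 0) (hx : 𝒟 x₀) (hy : 𝒟 y₀) {u v' : E}
    (hu : u ∈ (A (i + 1) \ A i) \ S.W) (hu' : 𝒟 u) (hv : v' ∈ S.W) (hv' : 𝒟 v')
    (hux : u ≠ x₀) (hvy : v' ≠ y₀) (huv : S.a u v' ≠ 0) (hxv : S.a x₀ v' = 0) :
    ∃ S₀ S₁ : DSt β i Y₀ 𝒟 Psi q, S₀.W = insert u (S.W.erase v') ∧
      S₁.W = insert x₀ (S₀.W.erase y₀) ∧ y₀ ∈ S₀.W ∧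
      S₀.ph y₀ = f - (S.a u y₀ * (S.a u v')⁻¹) • S.ph v' ∧
      S₁.c = S₀.c - a₀⁻¹ • S₀.ph y₀ := by
  obtain ⟨S₀, hW₀, hp₀, hph₀, ha₀, -⟩ := DSt.pivot hL hi hq hPsi S hu hu' hv hv' huv
  have hu1 := Finset.mem_sdiff.1 hu
  have hx1 := Finset.mem_sdiff.1 hx₀
  have hyu : y₀ ≠ u := by
    rintro rfl
    exact hu1.2 hy₀
  have hxv' : x₀ ≠ v' := by
    rintro rfl
    exact hx1.2 hv
  obtain ⟨b, hb⟩ := S.hp u hu hu'
  have hv0 : S.ph v' (S.p u) = 0 := by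
    rw [hb, map_smul, hPsi _ (S.hph v' hv hv'), smul_zero]
  have hy0 : S.ph y₀ (S.p u) = 0 := by
    rw [hb, map_smul, hPsi _ (S.hph y₀ hy₀ hy), smul_zero]
  have e1 : S₀.ph y₀ = f - (S.a u y₀ * (S.a u v')⁻¹) • S.ph v' := by
    rw [hph₀]
    unfold pvH
    rw [if_neg hyu, hv0, hy0, add_zero, add_zero, hfy]
  have e2 : S₀.p x₀ = q := by
    rw [hp₀]
    unfold pvP
    rw [if_neg hxv', hxv, zero_mul, zero_smul, sub_zero, hpx]
  have e3 : S₀.a x₀ y₀ = a₀ := by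
    rw [ha₀]
    unfold pvA
    rw [if_neg hxv', if_neg hyu, hxv, zero_mul, zero_mul, sub_zero, hax]
  have hx2 : x₀ ∈ (A (i + 1) \ A i) \ S₀.W := by
    rw [hW₀]
    refine Finset.mem_sdiff.2 ⟨hx1.1, fun h => ?_⟩
    rcases Finset.mem_insert.1 h with h | h
    · exact hux h.symm
    · exact hx1.2 (Finset.mem_of_mem_erase h)
  have hy2 : y₀ ∈ S₀.W := by
    rw [hW₀]
    exact Finset.mem_insert_of_mem (Finset.mem_erase.2 ⟨hvy.symm, hy₀⟩)
  obtain ⟨S₁, hW₁, -, -, -, hc₁⟩ := DSt.pivot hL hi hq hPsi S₀ hx2 hx hy2 hy (by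
    rw [e3]
    exact ha)
  have e4 := hc₁ 1 (by rw [e2, one_smul])
  rw [one_mul, e3] at e4
  exact ⟨S₀, S₁, hW₀, hW₁, hy2, e1, e4⟩

/-- membership of `c` in both representations -/
private theorem brwJ4c_pat (hL : Lnk F w₀ A n s) (hp : Pat3 Y α γ v 𝒯) (hi : 2 ≤ i)
    (hi' : i < n) (hq : q ≠ 0) {Psi : Submodule F ((Fin s → F) →ₗ[F] F)}
    (hPsi : ∀ g ∈ Psi, g q = 0) {z₀ : E}
    (hY : Blk α i (Y i) (LinearEquiv.refl F (Fin s → F)) P H aY)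
    (hY' : Blk ((v i).scale c hc) i (Y i) (LinearEquiv.refl F (Fin s → F)) P H bY)
    (hz : z₀ ∈ Y i) (hz' : 𝒟 z₀) (hzf : H z₀ ∉ span F {f})
    (hD : ∀ d, 𝒟 d → d ∈ Y i → d ≠ z₀ → H d ∈ span F {f})
    (S : DSt α i (Y i) 𝒟 Psi q) (S' : DSt ((v i).scale c hc) i (Y i) 𝒟 Psi q)
    (hW : S'.W = S.W) : S.c ∈ span F {f} ↔ S'.c ∈ span F {f} := by
  rw [DSt.pat hi' hq hPsi S hY hz hz' hzf hD, DSt.pat hi' hq hPsi S' hY' hz hz' hzf hD, hW]
  have hB := S'.h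
  rw [hW] at hB
  have h1 : ∀ h : z₀ ∉ S.W, S.p z₀ = 0 ↔ S'.p z₀ = 0 := by
    intro h
    have h2 := Pat3.span_eq hL hp hi hi' S.h hB (x := z₀)
      (Finset.mem_sdiff.2 ⟨hY.tb.sub hz, h⟩)
    constructor
    · intro h3
      rw [h3, Submodule.span_zero_singleton, Submodule.span_singleton_eq_bot] at h2
      exact h2
    · intro h3
      rw [h3, Submodule.span_zero_singleton] at h2
      exact Submodule.span_singleton_eq_bot.1 h2.symm
  constructor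
  · intro h2 h3
    exact (h1 h3).1 (h2 h3)
  · intro h2 h3
    exact (h1 h3).2 (h2 h3)

/-- A path of length 2: `y₀ - u - v'`, `u ∉ W`, `v' ∈ W`, `S.a x₀ v' = 0`. `F₀ = insert u (W.erase v')`
(`DSt.pivot`, call the result `S₀`), with
`S₀.ph y₀ = f - z₁`, `z₁ = (S.a u y₀ * (S.a u v')⁻¹) • S.ph v'`, `S₀.p x₀ = q`, `S₀.a x₀ y₀ = a₀`;
`F₁ = insert x₀ (F₀.erase y₀)`, `c₁ = c₀ - a₀⁻¹ • (f - z₁)`. The functional of `TerD` is `z = f + z₁`
(`= f - z₁`, characteristic 2), `f + z = z₁`. `z₁` is the same in both representations as in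
`EDu.ter_one` (`Pat3.ker_eq` at `W` for `v'` and at `F₀` for `y₀`). -/
theorem EDu.ter_two [CharP F 2] (hL : Lnk F w₀ A n s) (hp : Pat3 Y α γ v 𝒯) (hi : 2 ≤ i)
    (hi' : i < n) (hf : f ≠ 0) (hq : q ≠ 0) (hfq : f q = 0) {z₀ : E}
    (hzq : H z₀ q = 0) (ha : a₀ ≠ 0) (hb : b₀ ≠ 0)
    (hY : Blk α i (Y i) (LinearEquiv.refl F (Fin s → F)) P H aY)
    (hY' : Blk ((v i).scale c hc) i (Y i) (LinearEquiv.refl F (Fin s → F)) P H bY)
    (hz : z₀ ∈ Y i) (hz' : 𝒟 z₀) (hzf : H z₀ ∉ span F {f})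
    (hD : ∀ d, 𝒟 d → d ∈ Y i → d ≠ z₀ → H d ∈ span F {f}) (hx : 𝒟 x₀) (hy : 𝒟 y₀)
    (R : EDu α ((v i).scale c hc) i (Y i) 𝒟 (span F {f, H z₀}) f q x₀ y₀ a₀ b₀) {u v' : E}
    (h1 : R.adj y₀ u) (h2 : R.adj u v') (h3 : R.far v') (h4 : ¬ R.adj x₀ v')
    (h5 : u ≠ x₀) : TerD 𝒯 α (v i) i f q a₀⁻¹ b₀⁻¹ := by
  have hn : 2 ≤ n := by omega
  have hPsi : ∀ g ∈ span F {f, H z₀}, g q = 0 := by
    intro g hg
    obtain ⟨r, t, rfl⟩ := Submodule.mem_span_pair.1 hg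
    rw [LinearMap.add_apply, LinearMap.smul_apply, LinearMap.smul_apply, hfq, hzq, smul_zero,
      smul_zero, add_zero]
  obtain ⟨h3a, h3b, h3c⟩ := h3
  obtain ⟨-, hu', h1c⟩ := h1
  obtain ⟨-, -, h2c⟩ := h2
  obtain ⟨hu, huy⟩ : u ∈ (A (i + 1) \ A i) \ R.S.W ∧ R.S.a u y₀ ≠ 0 := by
    rcases h1c with ⟨h, -, -⟩ | ⟨-, h, h'⟩
    · exact absurd R.hy (Finset.mem_sdiff.1 h).2
    · exact ⟨h, h'⟩
  have huv : R.S.a u v' ≠ 0 := by
    rcases h2c with ⟨-, -, h⟩ | ⟨h, -, -⟩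
    · exact h
    · exact absurd h (Finset.mem_sdiff.1 hu).2
  have hxv : R.S.a x₀ v' = 0 := by
    by_contra h
    exact h4 ⟨hx, h3a, Or.inl ⟨R.hx, h3b, h⟩⟩
  have hvy : v' ≠ y₀ := by
    rintro rfl
    apply h3c
    rw [R.fy]
    exact Submodule.mem_span_singleton_self f
  have hB := R.S'.h
  rw [R.hWW] at hB
  have huv' : R.S'.a u v' ≠ 0 := fun h => huv ((Blk.zero_iff hL hi' R.S.h hB hu h3b).2 h)
  have hxv' : R.S'.a x₀ v' = 0 := (Blk.zero_iff hL hi' R.S.h hB R.hx h3b).1 hxv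
  obtain ⟨S₀, S₁, hW₀, hW₁, hy2, e1, e4⟩ := brwJ4c_side hL hi' hq hPsi R.S R.hx R.hy R.px R.fy
    R.ax ha hx hy hu hu' h3b h3a h5 hvy huv hxv
  obtain ⟨S₀', S₁', hW₀', hW₁', -, e1', e4'⟩ := brwJ4c_side hL hi' hq hPsi R.S'
    (by rw [R.hWW]; exact R.hx) (by rw [R.hWW]; exact R.hy) R.px' R.fy' R.ax' hb hx hy
    (by rw [R.hWW]; exact hu) hu' (by rw [R.hWW]; exact h3b) h3a h5 hvy huv' hxv'
  have hWe : S₀'.W = S₀.W := by rw [hW₀', hW₀, R.hWW]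
  have hWe1 : S₁'.W = S₁.W := by rw [hW₁', hW₁, hWe]
  have hB₀ := S₀'.h
  rw [hWe] at hB₀
  obtain ⟨k, hk, hk1⟩ := brwJ4c_ker (Pat3.ker_eq hL hp hi hi' R.S.h hB h3b)
  obtain ⟨t, ht, ht1⟩ := brwJ4c_ker (Pat3.ker_eq hL hp hi hi' S₀.h hB₀ hy2)
  have hm : R.S.a u y₀ * (R.S.a u v')⁻¹ ≠ 0 := mul_ne_zero huy (inv_ne_zero huv)
  obtain ⟨m, hmd⟩ : ∃ m, m = R.S.a u y₀ * (R.S.a u v')⁻¹ := ⟨_, rfl⟩
  obtain ⟨m', hmd'⟩ : ∃ m', m' = R.S'.a u y₀ * (R.S'.a u v')⁻¹ := ⟨_, rfl⟩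
  obtain ⟨g, hg⟩ : ∃ g, g = R.S.ph v' := ⟨_, rfl⟩
  rw [← hmd, ← hg] at e1
  rw [← hmd] at hm
  rw [← hmd', hk1, ← hg, smul_smul] at e1'
  rw [← hg] at h3c
  have hgP : g ∈ span F {f, H z₀} := by
    rw [hg]
    exact R.S.hph v' h3b h3a
  have hgq : g q = 0 := hPsi g hgP
  -- the functional is the same in both representations
  have hmk : S₀'.ph y₀ = f - m • g := by
    have h6 : (1 - t) • f = (m' * k - t * m) • g := by
      have h7 : f - (m' * k) • g = t • (f - m • g) := by rw [← e1', ht1, e1]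
      refine LinearMap.ext fun x => ?_
      have h8 := LinearMap.congr_fun h7 x
      simp only [LinearMap.sub_apply, LinearMap.smul_apply, smul_eq_mul] at h8 ⊢
      linear_combination h8
    obtain ⟨h7, -⟩ := brwJ4c_ind hf h3c h6
    have h9 : t = 1 := (sub_eq_zero.1 h7).symm
    rw [ht1, h9, e1]
    exact LinearMap.ext fun x => by
      rw [LinearMap.smul_apply, one_smul]
  have h2F : ∀ a b : F, a - b = a + b := fun a b => CharTwo.sub_eq_add a b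
  have hsub : f - m • g = f + m • g := LinearMap.ext fun x => by
    rw [LinearMap.sub_apply, LinearMap.add_apply, h2F]
  have hfz : f + (f + m • g) = m • g := LinearMap.ext fun x => by
    rw [LinearMap.add_apply, LinearMap.add_apply, ← add_assoc, CharTwo.add_self_eq_zero,
      zero_add]
  have hzs : ∀ (r : F) (c₀ : (Fin s → F) →ₗ[F] F), c₀ - r • (f - m • g) =
      c₀ + r • (f + m • g) := fun r c₀ => by
    rw [hsub]
    exact LinearMap.ext fun x => by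
      rw [LinearMap.sub_apply, LinearMap.add_apply, h2F]
  have hzf1 : f + m • g ∉ span F {f} := by
    intro h
    obtain ⟨r, hr⟩ := Submodule.mem_span_singleton.1 h
    have h6 : (r - 1) • f = m • g := by
      refine LinearMap.ext fun x => ?_
      have h8 := LinearMap.congr_fun hr x
      simp only [LinearMap.add_apply, LinearMap.smul_apply, smul_eq_mul] at h8 ⊢
      linear_combination h8
    exact hm (brwJ4c_ind hf h3c h6).2
  have hHz : span F {f, H z₀} ≤ span F {f, f + m • g} := by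
    rw [Submodule.span_le]
    obtain ⟨r, r', hr⟩ := Submodule.mem_span_pair.1 hgP
    have hr' : r' ≠ 0 := by
      rintro rfl
      apply h3c
      rw [Submodule.mem_span_singleton]
      exact ⟨r, by rw [← hr, zero_smul, add_zero]⟩
    rintro w hw
    rcases hw with rfl | hw
    · exact Submodule.subset_span (Set.mem_insert _ _)
    · rw [Set.mem_singleton_iff] at hw
      subst hw
      refine Submodule.mem_span_pair.2 ⟨-(r'⁻¹ * r) - (r'⁻¹ * m⁻¹), r'⁻¹ * m⁻¹, ?_⟩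
      refine LinearMap.ext fun x => ?_
      have h8 := LinearMap.congr_fun hr x
      simp only [LinearMap.add_apply, LinearMap.smul_apply, smul_eq_mul] at h8 ⊢
      rw [← h8]
      field_simp
      ring
  rw [e1, hzs] at e4
  rw [hmk, hzs] at e4'
  refine ⟨f + m • g, S₀.c, S₀'.c, S₀.W, S₁.W, S₀.h.tb.sub, S₁.h.tb.sub, ?_, hzf1, ?_, ?_,
    hHz S₀.hc, hHz S₀'.hc, ⟨S₀.κ, S₀.h.riso hi', S₀.hκ⟩, ?_, ?_, ?_, ?_, ?_⟩
  · rw [LinearMap.add_apply, LinearMap.smul_apply, hfq, hgq, smul_zero, add_zero]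
  · obtain ⟨z, hz1, hz2⟩ := Pat3.cut_mem hL hp hn hi' S₀.h hy2
    exact ⟨z, hz1, by rw [hz2, e1, hsub]⟩
  · obtain ⟨z, hz1, hz2⟩ := Pat3.cut_mem hL hp hn hi' R.S.h h3b
    exact ⟨z, hz1, by rw [hz2, hfz, brwJ4c_cut hm, ← hg]⟩
  · refine ⟨S₀'.κ, ?_, S₀'.hκ⟩
    have h6 := hB₀.riso hi'
    rw [FRep.scale_L] at h6
    exact h6
  · rw [← e4]
    exact ⟨S₁.κ, S₁.h.riso hi', S₁.hκ⟩
  · rw [← e4']
    refine ⟨S₁'.κ, ?_, S₁'.hκ⟩
    have h6 := S₁'.h.riso hi'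
    rw [FRep.scale_L, hWe1] at h6
    exact h6
  · exact brwJ4c_pat hL hp hi hi' hq hPsi hY hY' hz hz' hzf hD S₀ S₀' hWe
  · rw [← e4, ← e4']
    exact brwJ4c_pat hL hp hi hi' hq hPsi hY hY' hz hz' hzf hD S₁ S₁' hWe1

end Pool.MP_4929df_co.H92
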