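import Pool.Agent.W_4929df_h92.BrwI1

/-!
Tests: end sets and words.
-/

set_option autoImplicit false

namespace Pool.MP_4929df_co.H92

open Submodule

variable {F : Type} [Field F] [Finite F] {E : Type} [Fintype E] [DecidableEq E] {V : Type}
  [AddCommGroup V] [Module F V] [FiniteDimensional F V] {w₀ : E → V} {A : ℕ → Finset E} {n s : ℕ}
  {Y : ℕ → Finset E} {α γ : FRep F w₀ A n s} {v : ℕ → FRep F w₀ A n s}
  {𝒯 : Set (Submodule F ((Fin s → F) × (Fin s → F)) × Submodule F ((Fin s → F) × (Fin s → F)))}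
  {i : ℕ}

omit [Finite F] [FiniteDimensional F V] in
/-- complements of a trace by subsets of `B` -/
private theorem brwJ5_compl (u : FRep F w₀ A n s) {l : ℕ} (hl : l ≤ n)
    (U : Submodule F (Fin s → F)) (B : Finset E) (hB : ∀ g, u.th l g ∈ Sp F u.w B) :
    ∃ S, S ⊆ B ∧ u.T l S ⊓ U = ⊥ ∧ u.T l S ⊔ U = ⊤ := by
  classical
  obtain ⟨S, hS, hmax⟩ : ∃ S ∈ (Finset.powerset B).filter (fun S => u.T l S ⊓ U = ⊥),
      ∀ S' ∈ (Finset.powerset B).filter (fun S => u.T l S ⊓ U = ⊥), S'.card ≤ S.card := by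
    refine Finset.exists_max_image _ _ ⟨∅, ?_⟩
    rw [Finset.mem_filter, Finset.mem_powerset]
    refine ⟨Finset.empty_subset _, ?_⟩
    rw [FRep.T_empty hl, bot_inf_eq]
  rw [Finset.mem_filter, Finset.mem_powerset] at hS
  obtain ⟨hSB, hSU⟩ := hS
  refine ⟨S, hSB, hSU, ?_⟩
  have h1 : Sp F u.w B ≤ Sp F u.w S ⊔ U.map (u.th l) := by
    rw [Sp_le]
    intro x hx
    by_contra hne
    have hxS : x ∉ S := fun h => hne (Submodule.mem_sup_left (mem_Sp h))
    have h2 : insert x S ∈ (Finset.powerset B).filter (fun S => u.T l S ⊓ U = ⊥) := by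
      rw [Finset.mem_filter, Finset.mem_powerset]
      refine ⟨Finset.insert_subset hx hSB, ?_⟩
      rw [eq_bot_iff]
      rintro g ⟨hg1, hg2⟩
      have hg3 : u.th l g ∈ Sp F u.w (insert x S) := hg1
      rw [Finset.insert_eq, Sp_union, Sp_singleton] at hg3
      obtain ⟨a, ha, b, hb, hab⟩ := Submodule.mem_sup.1 hg3
      obtain ⟨c, rfl⟩ := Submodule.mem_span_singleton.1 ha
      rcases eq_or_ne c 0 with hc | hc
      · rw [hc, zero_smul, zero_add] at hab
        have h5 : g ∈ u.T l S := by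
          rw [FRep.mem_T, ← hab]
          exact hb
        have h3 : g ∈ u.T l S ⊓ U := ⟨h5, hg2⟩
        rw [hSU] at h3
        exact h3
      · exfalso
        apply hne
        have h4 : u.w x = c⁻¹ • (-b) + c⁻¹ • u.th l g := by
          rw [← hab, ← smul_add, neg_add_cancel_comm_assoc, smul_smul, inv_mul_cancel₀ hc,
            one_smul]
        rw [h4]
        exact Submodule.add_mem_sup (Submodule.smul_mem _ _ (Submodule.neg_mem _ hb))
          (Submodule.smul_mem _ _ ⟨g, hg2, rfl⟩)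
    have h3 := hmax _ h2
    rw [Finset.card_insert_of_notMem hxS] at h3
    omega
  rw [eq_top_iff]
  intro g _
  obtain ⟨a, ha, b, hb, hab⟩ := Submodule.mem_sup.1 (h1 (hB g))
  obtain ⟨b, hb, rfl⟩ := hb
  refine Submodule.mem_sup.2 ⟨g - b, ?_, b, hb, sub_add_cancel _ _⟩
  rw [FRep.mem_T, map_sub, ← hab, add_sub_cancel_right]
  exact ha

/-- `S ⊆ A l` maximal such that `u.T l S ⊓ U = ⊥`: then `Sp (A l) ≤ Sp S ⊔ U.map (u.th l)` (for
`x ∈ A l` with `u.w x` not in this sum the set `insert x S` would have the same property), and for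
every `g` `u.th l g = a + u.th l b` with `a ∈ Sp S`, `b ∈ U`, so `g - b ∈ u.T l S`. -/
theorem FRep.exists_left_compl (u : FRep F w₀ A n s) {l : ℕ} (hl : l ≤ n)
    (U : Submodule F (Fin s → F)) : ∃ S, S ⊆ A l ∧ u.T l S ⊓ U = ⊥ ∧ u.T l S ⊔ U = ⊤ := by
  refine brwJ5_compl u hl U (A l) fun g => ?_
  have h1 : g ∈ u.T l (A l) := by
    rw [FRep.T_all hl]
    exact Submodule.mem_top
  exact h1

theorem FRep.exists_right_compl (u : FRep F w₀ A n s) {l : ℕ} (hl : l ≤ n)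
    (U : Submodule F (Fin s → F)) : ∃ S, S ⊆ (A l)ᶜ ∧ u.T l S ⊓ U = ⊥ ∧ u.T l S ⊔ U = ⊤ := by
  refine brwJ5_compl u hl U (A l)ᶜ fun g => ?_
  have h1 : g ∈ u.T l (A l)ᶜ := by
    rw [FRep.T_compl hl]
    exact Submodule.mem_top
  exact h1

/-- The word: `S`, a copy of `t` in block `i - 2`, a copy of `t'` in block `i - 1`, `F'` in block `i`,
`Y (i + 1)` in block `i + 1`, `S'`. Left and right trace at the cut `i + 2`, in `v (i + 1)` and in
`v i`: the dimension of the intersection is the same (`FRep.compat`). The trace of `S` at the cut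
`i - 2` is the one of `α` (`Pat2.low`), the trace of `S'` at the cut `i + 2` is the one of `γ`
(`Pat2.up`). `FRep.T_comp`, `RIso.rimg`, `Pat3.left`. -/
theorem test_word (hL : Lnk F w₀ A n s) (hp : Pat3 Y α γ v 𝒯) (hi : 2 ≤ i) (hi' : i + 2 ≤ n)
    {S S' : Finset E} (hS : S ⊆ A (i - 2)) (hS' : S' ⊆ (A (i + 2))ᶜ)
    {t t' : Submodule F ((Fin s → F) × (Fin s → F)) × Submodule F ((Fin s → F) × (Fin s → F))}
    (ht : t ∈ 𝒯) (ht' : t' ∈ 𝒯) {F' : Finset E} (hF : F' ⊆ A (i + 1) \ A i)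
    {e e' eg : (Fin s → F) ≃ₗ[F] (Fin s → F)} (hg : RIso t'.1 eg)
    (h : RIso (α.L i (i + 1) F') e) (h' : RIso ((v i).L i (i + 1) F') e') :
    Module.finrank F ((((rimg t.1 (α.T (i - 2) S)).map
        (eg : (Fin s → F) →ₗ[F] (Fin s → F))).map (e : (Fin s → F) →ₗ[F] (Fin s → F)) ⊓
        γ.T (i + 2) S' : Submodule F (Fin s → F))) =
      Module.finrank F ((((rimg t.1 (α.T (i - 2) S)).map
        (eg : (Fin s → F) →ₗ[F] (Fin s → F))).map (e' : (Fin s → F) →ₗ[F] (Fin s → F)) ⊓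
        γ.T (i + 2) S' : Submodule F (Fin s → F))) := by
  obtain ⟨j, rfl⟩ : ∃ j, i = j + 2 := ⟨i - 2, by omega⟩
  have e1 : j + 2 - 2 = j := by omega
  rw [e1] at hS ⊢
  have hA : ∀ l, l < n → A l ⊆ A (l + 1) := fun l hl => (hL.mono l hl).subset
  obtain ⟨Z, hZ, hZ1, -⟩ := hp.copy (l := j) (m := j + 1) (by omega) (by omega) ht
  obtain ⟨Z', hZ', hZ1', -⟩ := hp.copy (l := j + 1) (m := j + 2) (by omega) (by omega) ht'
  have hY : Y (j + 3) ⊆ A (j + 4) \ A (j + 3) := (hp.Ytb (j + 3) (by omega)).sub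
  have hs1 : S ∪ Z ⊆ A (j + 1) := Finset.union_subset (hS.trans (hA j (by omega)))
    (hZ.trans Finset.sdiff_subset)
  have hs2 : S ∪ Z ∪ Z' ⊆ A (j + 2) := Finset.union_subset (hs1.trans (hA (j + 1) (by omega)))
    (hZ'.trans Finset.sdiff_subset)
  have hs3 : S ∪ Z ∪ Z' ∪ F' ⊆ A (j + 3) :=
    Finset.union_subset (hs2.trans (hA (j + 2) (by omega))) (hF.trans Finset.sdiff_subset)
  have hs4 : S ∪ Z ∪ Z' ∪ F' ∪ Y (j + 3) ⊆ A (j + 4) :=
    Finset.union_subset (hs3.trans (hA (j + 3) (by omega))) (hY.trans Finset.sdiff_subset)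
  have key : ∀ (k : ℕ), k < n → j + 2 ≤ k → k ≤ j + 3 →
      ∀ e'' : (Fin s → F) ≃ₗ[F] (Fin s → F), RIso ((v k).L (j + 2) (j + 3) F') e'' →
      (v k).T (j + 4) (S ∪ Z ∪ Z' ∪ F' ∪ Y (j + 3)) = (((rimg t.1 (α.T j S)).map
        (eg : (Fin s → F) →ₗ[F] (Fin s → F))).map (e'' : (Fin s → F) →ₗ[F] (Fin s → F))) ∧
      (v k).T (j + 4) S' = γ.T (j + 4) S' := by
    intro k hk hk1 hk2 e'' he
    constructor
    · rw [FRep.T_comp hA (by omega : j + 3 ≤ j + 4) hi' hs3 hY,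
        hp.Yv k hk (j + 3) (by omega), rimg_rid,
        FRep.T_comp hA (by omega : j + 2 ≤ j + 3) (by omega) hs2 hF, he.rimg,
        FRep.T_comp hA (by omega : j + 1 ≤ j + 2) (by omega) hs1 hZ',
        hp.left hk (by omega : j + 1 ≤ j + 2) hk1 hZ', hZ1', hg.rimg,
        FRep.T_comp hA (by omega : j ≤ j + 1) (by omega) hS hZ,
        hp.left hk (by omega : j ≤ j + 1) (by omega) hZ, hZ1,
        (hp.low k hk).tr j (by omega) S hS]
    · exact (hp.up k hk).tr (j + 4) (by omega) hi' S' hS'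
  have hk1 : RIso ((v (j + 3)).L (j + 2) (j + 3) F') e := by
    rw [hp.left (by omega : j + 3 < n) (by omega : j + 2 ≤ j + 3) le_rfl hF]
    exact h
  obtain ⟨h1, h2⟩ := key (j + 3) (by omega) (by omega) le_rfl e hk1
  obtain ⟨h3, h4⟩ := key (j + 2) (by omega) le_rfl (by omega) e' h'
  have h5 := FRep.compat (u := v (j + 3)) hi' hs4 hS'
  have h6 := FRep.compat (u := v (j + 2)) hi' hs4 hS'
  rw [h1, h2] at h5
  rw [h3, h4] at h6
  have e2 : j + 2 + 2 = j + 4 := rfl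
  rw [e2]
  omega

end Pool.MP_4929df_co.H92
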