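import Pool.Agent.W_4929df_h92.BrwJ5
import Pool.Agent.W_4929df_h92.BrwJ3

/-!
The tests for the case of a far point.
-/

set_option autoImplicit false

namespace Pool.MP_4929df_co.H92

open Submodule

variable {F : Type} [Field F] [Finite F] {E : Type} [Fintype E] [DecidableEq E] {V : Type}
  [AddCommGroup V] [Module F V] [FiniteDimensional F V] {w₀ : E → V} {A : ℕ → Finset E} {n s : ℕ}
  {Y : ℕ → Finset E} {α γ : FRep F w₀ A n s} {v : ℕ → FRep F w₀ A n s}
  {𝒯 : Set (Submodule F ((Fin s → F) × (Fin s → F)) × Submodule F ((Fin s → F) × (Fin s → F)))}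
  {i : ℕ} {f : (Fin s → F) →ₗ[F] F} {q z : Fin s → F}

/-- the identity (`Pat3.one`) -/
theorem lab_zero (hp : Pat3 Y α γ v 𝒯) (hn : 1 ≤ n) : ∃ t ∈ 𝒯, Lab f 0 t.1 :=
  ⟨_, hp.one hn, LinearEquiv.refl F (Fin s → F), riso_rid, fun g => by
    rw [smul_zero, add_zero, LinearEquiv.refl_apply]⟩

/-- composition (`Pat3.comp`); `f g = 0` -/
theorem lab_add (hL : Lnk F w₀ A n s) (hp : Pat3 Y α γ v 𝒯) (hn : 2 ≤ n) {g g' : Fin s → F}
    (hg : f g = 0) (h : ∃ t ∈ 𝒯, Lab f g t.1) (h' : ∃ t ∈ 𝒯, Lab f g' t.1) :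
    ∃ t ∈ 𝒯, Lab f (g + g') t.1 := by
  obtain ⟨t, ht, e, he, hex⟩ := h
  obtain ⟨t', ht', e', he', hex'⟩ := h'
  refine ⟨_, hp.comp hL hn ht ht', e.trans e', he.comp he', fun x => ?_⟩
  rw [LinearEquiv.trans_apply, hex', hex, map_add, map_smul, hg, smul_zero, add_zero, smul_add,
    add_assoc]

omit [Finite F] in
private theorem brwJ5b_span (hfq : f q = 0) (hfz : f z = 0) {g : Fin s → F}
    (hg : g ∈ span F {q, z}) : f g = 0 := by
  have h1 : span F {q, z} ≤ LinearMap.ker f := by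
    rw [Submodule.span_le]
    rintro x (rfl | rfl)
    · exact LinearMap.mem_ker.2 hfq
    · exact LinearMap.mem_ker.2 hfz
  exact LinearMap.mem_ker.1 (h1 hg)

omit [Finite F] in
private theorem brwJ5b_one {t : Fin s → F} (ht : t ≠ 0) (W : Submodule F (Fin s → F)) :
    Module.finrank F (W ⊓ span F {t} : Submodule F (Fin s → F)) = 1 ↔ t ∈ W := by
  constructor
  · intro h
    by_contra hW
    have h1 : W ⊓ span F {t} = ⊥ := by
      rw [eq_bot_iff]
      rintro x ⟨hx, hx'⟩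
      obtain ⟨b, rfl⟩ := Submodule.mem_span_singleton.1 hx'
      rcases eq_or_ne b 0 with hb | hb
      · rw [hb, zero_smul]
        exact Submodule.zero_mem _
      · exfalso
        apply hW
        have h2 := W.smul_mem b⁻¹ hx
        rwa [smul_smul, inv_mul_cancel₀ hb, one_smul] at h2
    rw [h1, finrank_bot] at h
    omega
  · intro h
    have h1 : W ⊓ span F {t} = span F {t} :=
      inf_eq_right.2 ((Submodule.span_singleton_le_iff_mem _ _).2 h)
    rw [h1, finrank_span_singleton ht]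

/-- Linear algebra of the test. `T` is a complement of `Pi = span {q, z} ≤ ker f`, `U = span {t}` with
`f t = 1`, `t = v₀ + τ`, `v₀ ∈ T`, `τ ∈ Pi`. `e x = x + f x • c`, `eg x = x + f x • g` with `c, g ∈ Pi`. Then
`t` is in `(T ⊔ span {o}).map eg |>.map e` iff `t - (c + g) ∈ T ⊔ span {o}` iff
`τ - g - c ∈ span {o}`. -/
theorem test_lin [CharP F 2] {T U : Submodule F (Fin s → F)} {t v₀ τ o c g : Fin s → F}
    (hT : T ⊓ span F {q, z} = ⊥) (hfq : f q = 0) (hfz : f z = 0) (ht : f t = 1)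
    (hU : U = span F {t}) (hv : v₀ ∈ T) (hτ : τ ∈ span F {q, z}) (htv : t = v₀ + τ)
    (ho : o ∈ span F {q, z}) (hc : c ∈ span F {q, z}) (hg : g ∈ span F {q, z})
    {e eg : (Fin s → F) ≃ₗ[F] (Fin s → F)} (he : ∀ x, e x = x + f x • c)
    (heg : ∀ x, eg x = x + f x • g) :
    Module.finrank F ((((T ⊔ span F {o}).map (eg : (Fin s → F) →ₗ[F] (Fin s → F))).map
      (e : (Fin s → F) →ₗ[F] (Fin s → F)) ⊓ U : Submodule F (Fin s → F))) = 1 ↔
      τ + g + c ∈ span F {o} := by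
  have ht0 : t ≠ 0 := by
    rintro rfl
    rw [map_zero] at ht
    exact zero_ne_one ht
  have hfg : f g = 0 := brwJ5b_span hfq hfz hg
  have hfc : f c = 0 := brwJ5b_span hfq hfz hc
  have hch : ∀ x : Fin s → F, x + x = 0 := fun x => by
    have h1 : (2 : F) = 0 := CharTwo.two_eq_zero
    rw [← two_smul F x, h1, zero_smul]
  have hcomp : ∀ x, e (eg x) = x + f x • (g + c) := by
    intro x
    rw [he, heg, map_add, map_smul, hfg, smul_zero, add_zero, smul_add, add_assoc]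
  rw [hU, brwJ5b_one ht0]
  have hsum : ∀ x : Fin s → F, x ∈ span F {q, z} → (x ∈ T ⊔ span F {o} ↔ x ∈ span F {o}) := by
    intro x hx
    constructor
    · intro h
      obtain ⟨a, ha, b, hb, hab⟩ := Submodule.mem_sup.1 h
      have hb' : b ∈ span F {q, z} := ((Submodule.span_singleton_le_iff_mem _ _).2 ho) hb
      have h1 : a ∈ T ⊓ span F {q, z} := by
        refine ⟨ha, ?_⟩
        have h2 : a = x - b := by
          rw [← hab, add_sub_cancel_right]
        rw [h2]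
        exact Submodule.sub_mem _ hx hb'
      rw [hT, Submodule.mem_bot] at h1
      rw [← hab, h1, zero_add]
      exact hb
    · intro h
      exact Submodule.mem_sup_right h
  rw [← hsum _ (Submodule.add_mem _ (Submodule.add_mem _ hτ hg) hc)]
  have hkey : t + (g + c) = v₀ + (τ + g + c) := by
    rw [htv]
    abel
  have hiff : τ + g + c ∈ T ⊔ span F {o} ↔ t + (g + c) ∈ T ⊔ span F {o} := by
    rw [hkey]
    exact (Submodule.add_mem_iff_right _ (Submodule.mem_sup_left hv)).symm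
  rw [hiff]
  constructor
  · intro h
    obtain ⟨y, hy, hyt⟩ := Submodule.mem_map.1 h
    obtain ⟨x, hx, hxy⟩ := Submodule.mem_map.1 hy
    have h1 : e (eg x) = t := by
      rw [← hyt, ← hxy]
      rfl
    rw [hcomp] at h1
    have h2 : f x = 1 := by
      rw [← ht, ← h1, map_add, map_smul, map_add, hfg, hfc, add_zero, smul_zero, add_zero]
    rw [h2, one_smul] at h1
    have h3 : t + (g + c) = x := by
      rw [← h1, add_assoc, hch, add_zero]
    rw [h3]
    exact hx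
  · intro h
    refine Submodule.mem_map.2 ⟨eg (t + (g + c)), Submodule.mem_map.2 ⟨_, h, rfl⟩, ?_⟩
    have h1 : f (t + (g + c)) = 1 := by
      rw [map_add, map_add, hfg, hfc, add_zero, add_zero, ht]
    change e (eg (t + (g + c))) = t
    rw [hcomp, h1, one_smul, add_assoc, hch, add_zero]

/-- `S ⊆ A (i - 2)` with `α.T (i - 2) S` a complement of `span {q, z}`
(`FRep.exists_left_compl`), `S' ⊆ (A (i + 2))ᶜ` with `γ.T (i + 2) S'` a complement of `ker f`
(`FRep.exists_right_compl`), so it is `span {t}` with `f t = 1`. `test_word` with the letter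
`addR o` (`rimg_addR`), `test_lin` for `c` and for `c'` (the dimension is at most 1). -/
theorem test_p [CharP F 2] (hL : Lnk F w₀ A n s) (hp : Pat3 Y α γ v 𝒯) (hi : 2 ≤ i)
    (hi' : i + 2 ≤ n) (hf : f ≠ 0) (hfq : f q = 0) (hfz : f z = 0) :
    ∃ τ ∈ span F {q, z}, ∀ o ∈ span F {q, z}, (∃ t ∈ 𝒯, t.1 = addR o) →
      ∀ g ∈ span F {q, z}, (∃ t ∈ 𝒯, Lab f g t.1) → ∀ F', F' ⊆ A (i + 1) \ A i →
      ∀ c ∈ span F {q, z}, ∀ c' ∈ span F {q, z}, Lab f c (α.L i (i + 1) F') →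
      Lab f c' ((v i).L i (i + 1) F') →
      (τ + g + c ∈ span F {o} ↔ τ + g + c' ∈ span F {o}) := by
  obtain ⟨S, hS, hS1, hS2⟩ := FRep.exists_left_compl α (l := i - 2) (by omega) (span F {q, z})
  obtain ⟨S', hS', hS1', hS2'⟩ := FRep.exists_right_compl γ (l := i + 2) hi' (LinearMap.ker f)
  obtain ⟨t0, ht0, hft0⟩ : ∃ t0 ∈ γ.T (i + 2) S', f t0 ≠ 0 := by
    by_contra hcon
    push Not at hcon
    have h1 : γ.T (i + 2) S' ≤ LinearMap.ker f := fun x hx => LinearMap.mem_ker.2 (hcon x hx)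
    rw [sup_eq_right.2 h1] at hS2'
    exact hf (LinearMap.ker_eq_top.1 hS2')
  obtain ⟨t, htd⟩ : ∃ t, t = (f t0)⁻¹ • t0 := ⟨_, rfl⟩
  have htm : t ∈ γ.T (i + 2) S' := by
    rw [htd]
    exact Submodule.smul_mem _ _ ht0
  have hft : f t = 1 := by
    rw [htd, map_smul, smul_eq_mul, inv_mul_cancel₀ hft0]
  have hU : γ.T (i + 2) S' = span F {t} := by
    refine le_antisymm (fun x hx => ?_) ((Submodule.span_singleton_le_iff_mem _ _).2 htm)
    have h1 : x - f x • t ∈ γ.T (i + 2) S' ⊓ LinearMap.ker f := by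
      refine ⟨Submodule.sub_mem _ hx (Submodule.smul_mem _ _ htm), LinearMap.mem_ker.2 ?_⟩
      rw [map_sub, map_smul, hft, smul_eq_mul, mul_one, sub_self]
    rw [hS1', Submodule.mem_bot, sub_eq_zero] at h1
    rw [h1]
    exact Submodule.smul_mem _ _ (Submodule.mem_span_singleton_self t)
  have htop : t ∈ α.T (i - 2) S ⊔ span F {q, z} := by
    rw [hS2]
    exact Submodule.mem_top
  obtain ⟨v₀, hv₀, τ, hτ, hvτ⟩ := Submodule.mem_sup.1 htop
  refine ⟨τ, hτ, ?_⟩
  rintro o ho ⟨t1, ht1, ht1o⟩ g hg ⟨t2, ht2, eg, heg, hegx⟩ F' hF' c hc c' hc' ⟨e, he, hex⟩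
    ⟨e', he', hex'⟩
  have h1 := test_word hL hp hi hi' hS hS' ht1 ht2 hF' heg he he'
  rw [ht1o, rimg_addR] at h1
  rw [← test_lin hS1 hfq hfz hft hU hv₀ hτ hvτ.symm ho hc hg hex hegx, h1]
  exact test_lin hS1 hfq hfz hft hU hv₀ hτ hvτ.symm ho hc' hg hex' hegx

end Pool.MP_4929df_co.H92
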