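import Pool.Agent.W_4929df_h92.BrwJ5
import Pool.Agent.W_4929df_h92.BrwJ4

/-!
The tests for the case of a far functional.
-/

set_option autoImplicit false

namespace Pool.MP_4929df_co.H92

open Submodule

variable {F : Type} [Field F] [Finite F] {E : Type} [Fintype E] [DecidableEq E] {V : Type}
  [AddCommGroup V] [Module F V] [FiniteDimensional F V] {w₀ : E → V} {A : ℕ → Finset E} {n s : ℕ}
  {Y : ℕ → Finset E} {α γ : FRep F w₀ A n s} {v : ℕ → FRep F w₀ A n s}
  {𝒯 : Set (Submodule F ((Fin s → F) × (Fin s → F)) × Submodule F ((Fin s → F) × (Fin s → F)))}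
  {i : ℕ} {f z : (Fin s → F) →ₗ[F] F} {q : Fin s → F}

omit [Finite F] in
private theorem brwJ5c_rank {X : Type} [AddCommGroup X] [Module F X] [FiniteDimensional F X]
    {W : Submodule F X} {o : X →ₗ[F] F} (h : ∃ x ∈ W, o x ≠ 0) :
    Module.finrank F (W ⊓ LinearMap.ker o : Submodule F X) + 1 = Module.finrank F W := by
  obtain ⟨x, hx, hox⟩ := h
  have h1 : (o.domRestrict W : Module.Dual F W) ≠ 0 := by
    intro hcon
    exact hox (LinearMap.congr_fun hcon ⟨x, hx⟩)
  have h2 := Module.Dual.finrank_ker_add_one_of_ne_zero h1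
  have h3 : W ⊓ LinearMap.ker o = (LinearMap.ker (o.domRestrict W)).map W.subtype := by
    ext y
    constructor
    · rintro ⟨hy, hy'⟩
      exact ⟨⟨y, hy⟩, hy', rfl⟩
    · rintro ⟨⟨y', hy⟩, hy', rfl⟩
      exact ⟨hy, hy'⟩
  rw [h3, Submodule.finrank_map_subtype_eq]
  exact h2

omit [Finite F] in
private theorem brwJ5c_ker (hfz : z ∉ span F {f}) : ∃ x ∈ LinearMap.ker f, z x ≠ 0 := by
  by_contra hcon
  push Not at hcon
  apply hfz
  have h1 := mem_span_of_iInf_ker_le_ker (L := fun _ : Unit => f) (K := z) (by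
    intro x hx
    rw [Submodule.mem_iInf] at hx
    exact hcon x (hx ()))
  rwa [Set.range_const] at h1

omit [Finite F] in
/-- `x` in the image of `T ⊓ ker o` -/
private theorem brwJ5c_mem [CharP F 2] {T : Submodule F (Fin s → F)}
    {η o c g : (Fin s → F) →ₗ[F] F} (hT : T = LinearMap.ker η) (hη : η q = 1)
    (hoq : o q = 0) (hcq : c q = 0) (hgq : g q = 0)
    {e eg : (Fin s → F) ≃ₗ[F] (Fin s → F)} (he : ∀ x, e x = x + c x • q)
    (heg : ∀ x, eg x = x + g x • q) (x : Fin s → F) :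
    x ∈ ((T ⊓ LinearMap.ker o).map (eg : (Fin s → F) →ₗ[F] (Fin s → F))).map
      (e : (Fin s → F) →ₗ[F] (Fin s → F)) ↔ η x = g x + c x ∧ o x = 0 := by
  subst hT
  constructor
  · rintro ⟨_, ⟨y, ⟨hy1, hy2⟩, rfl⟩, rfl⟩
    have hy1' : η y = 0 := hy1
    have hy2' : o y = 0 := hy2
    have h1 : (e : (Fin s → F) →ₗ[F] (Fin s → F)) ((eg : (Fin s → F) →ₗ[F] (Fin s → F)) y) =
        y + (g y + c y) • q := by
      rw [LinearEquiv.coe_coe, LinearEquiv.coe_coe, he, heg, map_add, map_smul, hcq, smul_zero,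
        add_zero, add_smul, add_assoc]
    rw [h1]
    simp only [map_add, map_smul, hη, hoq, hcq, hgq, hy1', hy2', add_zero, zero_add,
      smul_eq_mul, mul_one, mul_zero, and_self]
  · rintro ⟨h1, h2⟩
    refine ⟨_, ⟨x - (g x + c x) • q, ⟨?_, ?_⟩, rfl⟩, ?_⟩
    · show η (x - (g x + c x) • q) = 0
      rw [map_sub, map_smul, hη, h1, smul_eq_mul, mul_one, sub_self]
    · show o (x - (g x + c x) • q) = 0
      rw [map_sub, map_smul, hoq, h2, smul_zero, sub_zero]
    · rw [LinearEquiv.coe_coe, LinearEquiv.coe_coe, he, heg]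
      simp only [map_add, map_sub, map_smul, hcq, hgq, smul_zero, sub_zero, add_zero]
      rw [add_smul]
      abel

theorem labd_zero (hp : Pat3 Y α γ v 𝒯) (hn : 1 ≤ n) : ∃ t ∈ 𝒯, LabD q 0 t.1 :=
  ⟨_, hp.one hn, LinearEquiv.refl F _, riso_rid, fun g => by simp⟩

theorem labd_add (hL : Lnk F w₀ A n s) (hp : Pat3 Y α γ v 𝒯) (hn : 2 ≤ n)
    {g g' : (Fin s → F) →ₗ[F] F} (hg : g' q = 0) (h : ∃ t ∈ 𝒯, LabD q g t.1)
    (h' : ∃ t ∈ 𝒯, LabD q g' t.1) : ∃ t ∈ 𝒯, LabD q (g + g') t.1 := by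
  obtain ⟨t, ht, e, he1, he2⟩ := h
  obtain ⟨t', ht', e', he1', he2'⟩ := h'
  refine ⟨_, hp.comp hL hn ht ht', e.trans e', he1.comp he1', fun x => ?_⟩
  rw [LinearEquiv.trans_apply, he2', he2, map_add, map_smul, hg, smul_zero, add_zero,
    LinearMap.add_apply, add_smul, add_assoc]

/-- `U` a complement of `ker f ⊓ ker z`, `η` any functional: some `τ ∈ span {f, z}` agrees with `η` on
`U` (the functional that is `η` on `U` and `0` on `ker f ⊓ ker z`;
`mem_span_of_iInf_ker_le_ker`). -/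
theorem exists_agree {U : Submodule F (Fin s → F)}
    (hU : U ⊓ (LinearMap.ker f ⊓ LinearMap.ker z) = ⊥)
    (hU' : U ⊔ (LinearMap.ker f ⊓ LinearMap.ker z) = ⊤) (η : (Fin s → F) →ₗ[F] F) :
    ∃ τ ∈ span F {f, z}, ∀ x ∈ U, τ x = η x := by
  have hc : IsCompl U (LinearMap.ker f ⊓ LinearMap.ker z) :=
    ⟨disjoint_iff.mpr hU, codisjoint_iff.mpr hU'⟩
  refine ⟨LinearMap.ofIsCompl hc (η.domRestrict U) 0, ?_, fun x hx => ?_⟩
  · have h1 := mem_span_of_iInf_ker_le_ker (L := ![f, z])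
      (K := LinearMap.ofIsCompl hc (η.domRestrict U) 0) (by
        intro x hx
        rw [Submodule.mem_iInf] at hx
        have h2 : x ∈ LinearMap.ker f ⊓ LinearMap.ker z := ⟨hx 0, hx 1⟩
        rw [LinearMap.mem_ker]
        exact LinearMap.ofIsCompl_apply_right hc ⟨x, h2⟩)
    rwa [Matrix.range_cons, Matrix.range_cons, Matrix.range_empty, Set.union_empty,
      Set.singleton_union] at h1
  · exact LinearMap.ofIsCompl_apply_left hc ⟨x, hx⟩

/-- Linear algebra of the test. `T = ker η` with `η q = 1`, all of `span {f, z}` vanishes at `q`. `x` is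
in `(T ⊓ ker o).map eg |>.map e` iff `η x = g x + c x` and `o x = 0`. On `U`, of dimension 2 (dual to
`span {f, z}`), `η = τ`; the nonzero common zeros of `τ + g + c` and `o ≠ 0` in `U` exist iff
`τ + g + c ∈ span {o}` (both are in `span {f, z}`, which embeds in the dual of `U`); the dimension of
the intersection is then 1, otherwise 0. -/
theorem testd_lin [CharP F 2] {T U : Submodule F (Fin s → F)}
    {η τ o c g : (Fin s → F) →ₗ[F] F} (hfz : z ∉ span F {f}) (hf : f ≠ 0)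
    (hfq : f q = 0) (hzq : z q = 0) (hT : T = LinearMap.ker η) (hη : η q = 1)
    (hU : U ⊓ (LinearMap.ker f ⊓ LinearMap.ker z) = ⊥)
    (hU' : U ⊔ (LinearMap.ker f ⊓ LinearMap.ker z) = ⊤)
    (hτ : τ ∈ span F {f, z}) (hτη : ∀ x ∈ U, τ x = η x)
    (ho : o ∈ span F {f, z}) (ho' : o ≠ 0) (hc : c ∈ span F {f, z}) (hg : g ∈ span F {f, z})
    {e eg : (Fin s → F) ≃ₗ[F] (Fin s → F)} (he : ∀ x, e x = x + c x • q)
    (heg : ∀ x, eg x = x + g x • q) :
    Module.finrank F ((((T ⊓ LinearMap.ker o).map (eg : (Fin s → F) →ₗ[F] (Fin s → F))).map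
      (e : (Fin s → F) →ₗ[F] (Fin s → F)) ⊓ U : Submodule F (Fin s → F))) = 1 ↔
      τ + g + c ∈ span F {o} := by
  have hq0 : ∀ p ∈ span F {f, z}, p q = 0 := by
    intro p hp
    obtain ⟨a, b, rfl⟩ := Submodule.mem_span_pair.1 hp
    simp [hfq, hzq]
  have hK0 : ∀ p ∈ span F {f, z}, ∀ x ∈ LinearMap.ker f ⊓ LinearMap.ker z, p x = 0 := by
    intro p hp x hx
    obtain ⟨a, b, rfl⟩ := Submodule.mem_span_pair.1 hp
    have h1 : f x = 0 := hx.1
    have h2 : z x = 0 := hx.2
    simp [h1, h2]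
  have hX := brwJ5c_mem (T := T) (η := η) (o := o) (c := c) (g := g) hT hη (hq0 o ho) (hq0 c hc)
    (hq0 g hg) he heg
  have hc' : IsCompl U (LinearMap.ker f ⊓ LinearMap.ker z) :=
    ⟨disjoint_iff.mpr hU, codisjoint_iff.mpr hU'⟩
  have hU2 : Module.finrank F U = 2 := by
    have h1 := Submodule.finrank_add_eq_of_isCompl hc'
    have h2 := brwJ5c_rank (W := LinearMap.ker f) (brwJ5c_ker hfz)
    have h3 := Module.Dual.finrank_ker_add_one_of_ne_zero hf
    omega
  have hσ : ∀ x ∈ U, (τ + g + c) x = η x - (g x + c x) := by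
    intro x hx
    rw [LinearMap.add_apply, LinearMap.add_apply, hτη x hx, CharTwo.sub_eq_add, add_assoc]
  constructor
  · intro h1
    by_contra hcon
    have h2 : (((T ⊓ LinearMap.ker o).map (eg : (Fin s → F) →ₗ[F] (Fin s → F))).map
        (e : (Fin s → F) →ₗ[F] (Fin s → F)) ⊓ U : Submodule F (Fin s → F)) = ⊥ := by
      rw [Submodule.eq_bot_iff]
      rintro x ⟨hx1, hx2⟩
      obtain ⟨hx3, hx4⟩ := (hX x).1 hx1
      have hx5 : (τ + g + c) x = 0 := by rw [hσ x hx2, hx3, sub_self]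
      obtain ⟨a, b, rfl⟩ := Submodule.mem_span_pair.1 ho
      have hmem : τ + g + c ∈ span F {f, z} := add_mem (add_mem hτ hg) hc
      generalize τ + g + c = σ at hcon hx5 hmem
      obtain ⟨a', b', rfl⟩ := Submodule.mem_span_pair.1 hmem
      have hdet : a * b' - a' * b ≠ 0 := by
        intro hd
        have hd' : a * b' = a' * b := sub_eq_zero.1 hd
        apply hcon
        rw [Submodule.mem_span_singleton]
        by_cases ha : a = 0
        · have hb : b ≠ 0 := by
            rintro rfl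
            apply ho'
            rw [ha, zero_smul, zero_smul, add_zero]
          have ha' : a' = 0 := by
            rw [ha, zero_mul] at hd'
            exact (mul_eq_zero.1 hd'.symm).resolve_right hb
          refine ⟨b' / b, ?_⟩
          rw [ha, ha', zero_smul, zero_add, smul_smul, div_mul_cancel₀ _ hb, zero_add]
        · refine ⟨a' / a, ?_⟩
          rw [smul_add, smul_smul, smul_smul, div_mul_cancel₀ _ ha]
          congr 2
          rw [div_mul_eq_mul_div, div_eq_iff ha, ← hd', mul_comm]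
      rw [LinearMap.add_apply, LinearMap.smul_apply, LinearMap.smul_apply, smul_eq_mul,
        smul_eq_mul] at hx4 hx5
      have h3 : f x = 0 := by
        have h4 : (a * b' - a' * b) * f x = 0 := by
          linear_combination b' * hx4 - b * hx5
        exact (mul_eq_zero.1 h4).resolve_left hdet
      have h3' : z x = 0 := by
        have h4 : (a * b' - a' * b) * z x = 0 := by
          linear_combination a * hx5 - a' * hx4
        exact (mul_eq_zero.1 h4).resolve_left hdet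
      have h5 : x ∈ U ⊓ (LinearMap.ker f ⊓ LinearMap.ker z) := ⟨hx2, h3, h3'⟩
      rw [hU] at h5
      exact h5
    rw [h2, finrank_bot] at h1
    exact zero_ne_one h1
  · intro h1
    obtain ⟨a, ha⟩ := Submodule.mem_span_singleton.1 h1
    have h2 : (((T ⊓ LinearMap.ker o).map (eg : (Fin s → F) →ₗ[F] (Fin s → F))).map
        (e : (Fin s → F) →ₗ[F] (Fin s → F)) ⊓ U : Submodule F (Fin s → F)) =
        U ⊓ LinearMap.ker o := by
      ext x
      rw [Submodule.mem_inf, Submodule.mem_inf, hX, LinearMap.mem_ker]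
      constructor
      · rintro ⟨⟨_, h4⟩, h5⟩
        exact ⟨h5, h4⟩
      · rintro ⟨h5, h4⟩
        refine ⟨⟨?_, h4⟩, h5⟩
        have h6 := hσ x h5
        rw [← ha, LinearMap.smul_apply, h4, smul_zero] at h6
        exact (sub_eq_zero.1 h6.symm)
    have h3 : ∃ x ∈ U, o x ≠ 0 := by
      by_contra hcon
      push Not at hcon
      apply ho'
      refine LinearMap.ext fun x => ?_
      have hx : x ∈ U ⊔ (LinearMap.ker f ⊓ LinearMap.ker z) := by
        rw [hU']
        exact Submodule.mem_top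
      obtain ⟨y, hy, y', hy', rfl⟩ := Submodule.mem_sup.1 hx
      rw [map_add, hcon y hy, hK0 o ho y' hy', add_zero, LinearMap.zero_apply]
    have h4 := brwJ5c_rank h3
    rw [h2]
    omega

/-- `S ⊆ A (i - 2)` with `α.T (i - 2) S` a complement of `span {q}` (`FRep.exists_left_compl`), so it
is `ker η` with `η q = 1`; `S' ⊆ (A (i + 2))ᶜ` with `γ.T (i + 2) S'` a complement of
`ker f ⊓ ker z`. `test_word` with the letter `cutR o` (`rimg_cutR`), `exists_agree`,
`testd_lin`. -/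
theorem test_d [CharP F 2] (hL : Lnk F w₀ A n s) (hp : Pat3 Y α γ v 𝒯) (hi : 2 ≤ i)
    (hi' : i + 2 ≤ n) (hq : q ≠ 0) (hf : f ≠ 0) (hfz : z ∉ span F {f}) (hfq : f q = 0)
    (hzq : z q = 0) :
    ∃ τ ∈ span F {f, z}, ∀ o ∈ span F {f, z}, o ≠ 0 → (∃ t ∈ 𝒯, t.1 = cutR o) →
      ∀ g ∈ span F {f, z}, (∃ t ∈ 𝒯, LabD q g t.1) → ∀ F', F' ⊆ A (i + 1) \ A i →
      ∀ c ∈ span F {f, z}, ∀ c' ∈ span F {f, z}, LabD q c (α.L i (i + 1) F') →
      LabD q c' ((v i).L i (i + 1) F') →
      (τ + g + c ∈ span F {o} ↔ τ + g + c' ∈ span F {o}) := by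
  obtain ⟨S, hS, hS1, hS2⟩ := α.exists_left_compl (l := i - 2) (by omega) (span F {q})
  obtain ⟨S', hS', hS1', hS2'⟩ := γ.exists_right_compl (l := i + 2) hi'
    (LinearMap.ker f ⊓ LinearMap.ker z)
  obtain ⟨η, hT, hη⟩ : ∃ η : (Fin s → F) →ₗ[F] F, α.T (i - 2) S = LinearMap.ker η ∧
      η q = 1 := by
    have hc : IsCompl (α.T (i - 2) S) (span F {q}) :=
      ⟨disjoint_iff.mpr hS1, codisjoint_iff.mpr hS2⟩
    have hqm : q ∈ span F {q} := Submodule.mem_span_singleton_self q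
    have h1 : ∀ y ∈ α.T (i - 2) S, LinearMap.ofIsCompl hc (0 : α.T (i - 2) S →ₗ[F] F)
        (LinearEquiv.coord F (Fin s → F) q hq : span F {q} →ₗ[F] F) y = 0 := fun y hy =>
      LinearMap.ofIsCompl_apply_left hc ⟨y, hy⟩
    have h2 : LinearMap.ofIsCompl hc (0 : α.T (i - 2) S →ₗ[F] F)
        (LinearEquiv.coord F (Fin s → F) q hq : span F {q} →ₗ[F] F) q = 1 := by
      have h3 := LinearMap.ofIsCompl_apply_right hc (φ := (0 : α.T (i - 2) S →ₗ[F] F))
        (ψ := (LinearEquiv.coord F (Fin s → F) q hq : span F {q} →ₗ[F] F)) ⟨q, hqm⟩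
      rw [LinearEquiv.coe_coe, LinearEquiv.coord_self] at h3
      exact h3
    refine ⟨_, ?_, h2⟩
    ext x
    rw [LinearMap.mem_ker]
    constructor
    · exact h1 x
    · intro hx
      have hx' : x ∈ α.T (i - 2) S ⊔ span F {q} := by
        rw [hS2]
        exact Submodule.mem_top
      obtain ⟨y, hy, y', hy', rfl⟩ := Submodule.mem_sup.1 hx'
      obtain ⟨k, rfl⟩ := Submodule.mem_span_singleton.1 hy'
      rw [map_add, h1 y hy, zero_add, map_smul, h2, smul_eq_mul, mul_one] at hx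
      rw [hx, zero_smul, add_zero]
      exact hy
  obtain ⟨τ, hτ, hτη⟩ := exists_agree (f := f) (z := z) hS1' hS2' η
  refine ⟨τ, hτ, fun o ho ho' hto g hg htg F' hF' c hc c' hc' hL1 hL2 => ?_⟩
  obtain ⟨t, ht, hto⟩ := hto
  obtain ⟨t', ht', eg, heg1, heg2⟩ := htg
  obtain ⟨e, he1, he2⟩ := hL1
  obtain ⟨e', he1', he2'⟩ := hL2
  have h := test_word hL hp hi hi' hS hS' ht ht' hF' heg1 he1 he1'
  rw [hto, rimg_cutR] at h
  rw [← testd_lin hfz hf hfq hzq hT hη hS1' hS2' hτ hτη ho ho' hc hg he2 heg2,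
    ← testd_lin hfz hf hfq hzq hT hη hS1' hS2' hτ hτη ho ho' hc' hg he2' heg2, h]

end Pool.MP_4929df_co.H92
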