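import Pool.Agent.W_4929df_h92.BrwJ1
import Pool.Agent.W_4929df_h92.BrwJ3b
import Pool.Agent.W_4929df_h92.BrwJ3c
import Pool.Agent.W_4929df_h92.BrwJ5b

/-!
The case `f q = 0`, far point: the contradiction.
-/

set_option autoImplicit false

namespace Pool.MP_4929df_co.H92

open Submodule

variable {F : Type} [Field F] [Finite F] {E : Type} [Fintype E] [DecidableEq E] {V : Type}
  [AddCommGroup V] [Module F V] [FiniteDimensional F V] {w₀ : E → V} {A : ℕ → Finset E} {n s : ℕ}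
  {Y : ℕ → Finset E} {α γ : FRep F w₀ A n s} {v : ℕ → FRep F w₀ A n s}
  {𝒯 : Set (Submodule F ((Fin s → F) × (Fin s → F)) × Submodule F ((Fin s → F) × (Fin s → F)))}
  {i : ℕ} {f : (Fin s → F) →ₗ[F] F} {q : Fin s → F} {x y : ℕ → E}

/-- `el_alg` with `Gm g = ∃ t ∈ 𝒯, Lab f g t.1` (`lab_zero`, `lab_add`), `τ` from `test_p`, the tests for
`F' = S`, `F₀`, `F₁`; `gS`, `gF`, `gF'` by `Pat3.mem` -/
theorem primal_false [CharP F 2] (hF : Nat.card F = 8) (hL : Lnk F w₀ A n s)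
    (hp : Pat3 Y α γ v 𝒯) (hi : 2 ≤ i) (hi' : i + 2 ≤ n) (hf : f ≠ 0) (hq : q ≠ 0)
    (hfq : f q = 0) (hadd : ∃ t ∈ 𝒯, t.1 = addR q) {ua ub : F} (ha : ua ≠ 0) (hb : ub ≠ 0)
    (hab : ua ≠ ub) {S : Finset E} (hS : S ⊆ A (i + 1) \ A i)
    (hSa : Lab f (ua • q) (α.L i (i + 1) S)) (hSb : Lab f (ub • q) ((v i).L i (i + 1) S))
    (hT : Ter 𝒯 α (v i) i f q ua ub) : False := by
  obtain ⟨z, c₀, c₀', F₀, F₁, hF0, hF1, hfz, hzq, hz, hqz, hc, hc', hl0, hl0', hl1, hl1', i0, i1⟩ :=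
    hT
  obtain ⟨τ, hτ, htest⟩ := test_p hL hp hi hi' hf hfq hfz
  have hn : 2 ≤ n := by omega
  have hin : i + 1 ≤ n := by omega
  have mq : q ∈ span F {q, z} := subset_span (Set.mem_insert _ _)
  have mz : z ∈ span F {q, z} := subset_span (Set.mem_insert_of_mem _ rfl)
  have hle : ∀ g ∈ span F {q, z}, f g = 0 := by
    intro g hg
    obtain ⟨b, b', hbb⟩ := mem_span_pair.1 hg
    rw [← hbb, map_add, map_smul, map_smul, hfq, hfz, smul_zero, smul_zero, add_zero]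
  refine el_alg hF hq hzq (Gm := fun g => ∃ t ∈ 𝒯, Lab f g t.1) (lab_zero hp (by omega)) ?_ ha hb hab
    hc hc' hτ ⟨_, hp.mem (Nat.lt_succ_self i) hin hS, hSa⟩
    ⟨_, hp.mem (Nat.lt_succ_self i) hin hF0, hl0⟩ ⟨_, hp.mem (Nat.lt_succ_self i) hin hF1, hl1⟩
    ?_ ?_ ?_ i0 i1
  · intro g g' hg hg' hgs _
    exact lab_add hL hp hn (hle g hgs) hg hg'
  · rintro o ho g hg hgs
    have ho' : o ∈ span F {q, z} ∧ ∃ t ∈ 𝒯, t.1 = addR o := by
      rcases ho with rfl | rfl | rfl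
      · exact ⟨mq, hadd⟩
      · exact ⟨mz, hz⟩
      · exact ⟨add_mem mq mz, hqz⟩
    exact htest o ho'.1 ho'.2 g hgs hg S hS _ (smul_mem _ _ mq) _ (smul_mem _ _ mq) hSa hSb
  · intro g hg hgs
    exact htest q mq hadd g hgs hg F₀ hF0 c₀ hc c₀' hc' hl0 hl0'
  · intro g hg hgs
    exact htest q mq hadd g hgs hg F₁ hF1 _ (add_mem hc (smul_mem _ _ mz)) _
      (add_mem hc' (smul_mem _ _ mz)) hl1 hl1'

/-- `Pat4.bad` gives the coordinates of a scaled `v i`; `exists_epr`, `path_red` with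
`EPr.step` (states: all `EPr`, start vertices `x i`, `y i`), `EPr.ter_one`, `EPr.ter_two` (in a path
`c - v'` with `v'` far `c ∈ W`, so `c = y i`; in a path `c - u - v'`: `c ∉ W`, `c = x i`); then
`primal_false` with `ua = (a (x i) (y i))⁻¹`, `ub = (a' (x i) (y i))⁻¹` and the exchanged set
(`Blk.pivot`, characteristic 2). `H d ∈ span {f}` gives the multiples needed in `exists_epr`;
`f (P z) = 0` by `Blk.t1` with `Pat4.fix`. -/
theorem el_primal [CharP F 2] (hF : Nat.card F = 8) (hL : Lnk F w₀ A n s)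
    (hp : Pat4 Y α γ v 𝒯 x y) (hi : 2 ≤ i) (hi' : i + 3 ≤ n) {P : E → Fin s → F}
    {H : E → (Fin s → F) →ₗ[F] F} {a : E → E → F}
    (hb : Blk α i (Y i) (LinearEquiv.refl F (Fin s → F)) P H a)
    (hfq : H (y i) (P (x i)) = 0) {𝒟 : E → Prop} {z : E} {k : ℕ}
    (hk : Rch (fun d e => 𝒟 d ∧ 𝒟 e ∧ badj (A (i + 1) \ A i) (Y i) a d e)
      (fun d => d = x i ∨ d = y i) k z)
    (hx : 𝒟 (x i)) (hy : 𝒟 (y i)) (hz : 𝒟 z) (hzY : z ∈ (A (i + 1) \ A i) \ Y i)
    (hzq : P z ∉ span F {P (x i)})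
    (hP : ∀ d, 𝒟 d → d ∉ Y i → d ≠ z → P d ∈ span F {P (x i)})
    (hH : ∀ d, 𝒟 d → d ∈ Y i → H d ∈ span F {H (y i)}) : False := by
  have hin : i < n := by omega
  have hn : 2 ≤ n := by omega
  obtain ⟨c, hc, a', hb', hPx, hHy, ha, ha', -, -, hne⟩ := hp.bad hL hi hin hb
  have hfix : ∀ U, Seen 𝒯 U → P (x i) ∈ U ∨ U ≤ LinearMap.ker (H (y i)) :=
    fun U hU => hp.fix hL hi hi' hb hU
  have hfz : H (y i) (P z) = 0 := by
    rcases Blk.t1 hL hp.toPat3 hn hin hfix hPx hb hzY with h1 | ⟨b, -, h1⟩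
    · exact h1
    · exfalso
      apply hzq
      rw [h1]
      exact smul_mem _ _ (mem_span_singleton_self _)
  have hzY' : z ∉ Y i := (Finset.mem_sdiff.1 hzY).2
  have hPi : span F {P (x i), P z} ≤ LinearMap.ker (H (y i)) := by
    rw [span_le]
    intro t ht
    rcases ht with ht | ht
    · rw [ht]
      exact hfq
    · rw [Set.mem_singleton_iff.1 ht]
      exact hfz
  obtain ⟨R₀, hW₀, ha₀, hp₀⟩ := exists_epr (𝒟 := 𝒟) (z₀ := z) hb hb' (hp.hx i hin) (hp.hy i hin)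
    (fun d hd hdY => by
      obtain ⟨b, hb1⟩ := mem_span_singleton.1 (hH d hd hdY)
      exact ⟨b, hb1.symm⟩)
    (fun d hd hdY => by
      by_cases hdz : d = z
      · rw [hdz]
        exact subset_span (Set.mem_insert_of_mem _ rfl)
      · exact span_mono (Set.singleton_subset_iff.2 (Set.mem_insert _ _)) (hP d hd hdY hdz))
  -- the result of the path argument
  have hTer : Ter 𝒯 α (v i) i (H (y i)) (P (x i)) (a (x i) (y i))⁻¹ (a' (x i) (y i))⁻¹ := by
    have hstart : ∃ k w, Rch R₀.adj (fun d => d = x i ∨ d = y i) k w ∧ R₀.far w := by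
      refine ⟨k, z, ?_, hz, ?_, ?_⟩
      · have e1 : R₀.adj = fun d e => 𝒟 d ∧ 𝒟 e ∧ badj (A (i + 1) \ A i) (Y i) a d e := by
          unfold EPr.adj
          rw [hW₀, ha₀]
        rw [e1]
        exact hk
      · rw [hW₀]
        exact hzY
      · rw [hp₀]
        exact hzq
    obtain ⟨R, hR⟩ := path_red
      (σ := EPr α ((v i).scale c hc) i (Y i) 𝒟 (span F {P (x i), P z}) (H (y i)) (P (x i)) (x i) (y i)
        (a (x i) (y i)) (a' (x i) (y i)))
      (fun R d e => R.adj d e) (fun _ d => d = x i ∨ d = y i) (fun R d => R.far d)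
      (fun R d e h => ⟨h.2.1, h.1, badj_symm h.2.2⟩)
      (fun R u w h1 h2 h3 h4 h5 h6 => by
        obtain ⟨R', h7, h8⟩ := EPr.step hL hin hHy hPi hx hy R u w h1 h2 h3 h4 h5 h6
        exact ⟨R', fun d hd => hd, h7, h8⟩)
      hstart
    rcases hR with ⟨w, hw, hfar⟩ | ⟨c', w, hc', hadj, hfar, -⟩ | ⟨c', u, w, hc', hadj, hadj', hfar,
      -, hu, hst⟩
    · exfalso
      rcases hw with rfl | rfl
      · apply hfar.2.2
        rw [R.px]
        exact mem_span_singleton_self _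
      · exact (Finset.mem_sdiff.1 hfar.2.1).2 R.hy
    · have hwW : w ∉ R.S.W := (Finset.mem_sdiff.1 hfar.2.1).2
      have hcW : c' ∈ R.S.W := by
        rcases hadj.2.2 with h1 | h1
        · exact absurd h1.2.1 hwW
        · exact h1.1
      have hcy : c' = y i := by
        rcases hc' with h1 | h1
        · exact absurd hcW (h1 ▸ (Finset.mem_sdiff.1 R.hx).2)
        · exact h1
      rw [hcy] at hadj
      exact EPr.ter_one hL hp.toPat3 hi hin hHy hPx hfq hfz ha ha' hb hb' hzY' hz hzq hP hy R hadj hfar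
    · have hwW : w ∉ R.S.W := (Finset.mem_sdiff.1 hfar.2.1).2
      have huW : u ∈ R.S.W := by
        rcases hadj'.2.2 with h1 | h1
        · exact absurd h1.2.1 hwW
        · exact h1.1
      have hcW : c' ∉ R.S.W := by
        rcases hadj.2.2 with h1 | h1
        · exact (Finset.mem_sdiff.1 h1.1).2
        · exact absurd huW (Finset.mem_sdiff.1 h1.2.1).2
      have hcx : c' = x i := by
        rcases hc' with h1 | h1
        · exact h1
        · exact absurd (h1 ▸ R.hy) hcW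
      rw [hcx] at hadj
      exact EPr.ter_two hL hp.toPat3 hi hin hHy hPx hfq hfz ha ha' hb hb' hzY' hz hzq hP hx hy R hadj
        hadj' hfar (hst (y i) (Or.inr rfl)).2 (fun h1 => hu (Or.inr h1))
  -- the exchanged set
  have hneg : ∀ g : Fin s → F, -g = g := fun g => by
    funext j
    exact CharTwo.neg_eq (g j)
  obtain ⟨κ₁, hκ₁, hb₁⟩ := hb.pivot hL hin (hp.hx i hin) (hp.hy i hin) ha
    (by rw [hfq, add_zero]; exact ha)
  obtain ⟨κ₂, hκ₂, hb₂⟩ := hb'.pivot hL hin (hp.hx i hin) (hp.hy i hin) ha'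
    (by rw [hfq, add_zero]; exact ha')
  have h4 := hb₂.riso hin
  rw [FRep.scale_L] at h4
  refine primal_false hF hL hp.toPat3 hi (by omega) hHy hPx hfq
    (Pat3.add_mem hL hp.toPat3 hn hin hb (hp.hx i hin)) (inv_ne_zero ha) (inv_ne_zero ha')
    (fun h1 => hne (inv_injective h1)) hb₁.tb.sub ⟨κ₁, hb₁.riso hin, fun g => ?_⟩
    ⟨κ₂, h4, fun g => ?_⟩ hTer
  · rw [hκ₁ g, hfq, add_zero, LinearEquiv.refl_apply, sub_eq_add_neg, hneg, mul_smul]
  · rw [hκ₂ g, hfq, add_zero, LinearEquiv.refl_apply, sub_eq_add_neg, hneg, mul_smul]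

end Pool.MP_4929df_co.H92
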