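import Pool.Agent.W_4929df_h92.BrwJ1
import Pool.Agent.W_4929df_h92.BrwJ4b
import Pool.Agent.W_4929df_h92.BrwJ4c
import Pool.Agent.W_4929df_h92.BrwJ5c

/-!
The case `f q = 0`, far functional: the contradiction.
-/

set_option autoImplicit false

namespace Pool.MP_4929df_co.H92

open Submodule

variable {F : Type} [Field F] [Finite F] {E : Type} [Fintype E] [DecidableEq E] {V : Type}
  [AddCommGroup V] [Module F V] [FiniteDimensional F V] {w₀ : E → V} {A : ℕ → Finset E} {n s : ℕ}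
  {Y : ℕ → Finset E} {α γ : FRep F w₀ A n s} {v : ℕ → FRep F w₀ A n s}
  {𝒯 : Set (Submodule F ((Fin s → F) × (Fin s → F)) × Submodule F ((Fin s → F) × (Fin s → F)))}
  {i : ℕ} {f : (Fin s → F) →ₗ[F] F} {q : Fin s → F} {x y : ℕ → E}

/-- `el_alg` for `X = (Fin s → F) →ₗ[F] F`, with `f` for `q`, `Gm g = ∃ t ∈ 𝒯, LabD q g t.1` (`labd_zero`,
`labd_add`), `τ` from `test_d`, the tests for `F' = S`, `F₀`, `F₁` -/
theorem dual_false [CharP F 2] (hF : Nat.card F = 8) (hL : Lnk F w₀ A n s)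
    (hp : Pat3 Y α γ v 𝒯) (hi : 2 ≤ i) (hi' : i + 2 ≤ n) (hf : f ≠ 0) (hq : q ≠ 0)
    (hfq : f q = 0) (hcut : ∃ t ∈ 𝒯, t.1 = cutR f) {ua ub : F} (ha : ua ≠ 0) (hb : ub ≠ 0)
    (hab : ua ≠ ub) {S : Finset E} (hS : S ⊆ A (i + 1) \ A i)
    (hSa : LabD q (ua • f) (α.L i (i + 1) S)) (hSb : LabD q (ub • f) ((v i).L i (i + 1) S))
    (hT : TerD 𝒯 α (v i) i f q ua ub) : False := by
  obtain ⟨z, c₀, c₀', F₀, F₁, hF₀, hF₁, hzq, hzf, hcutz, hcutfz, hc, hc', l0, l0', l1, l1', i0,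
    i1⟩ := hT
  obtain ⟨τ, hτ, htest⟩ := test_d hL hp hi hi' hq hf hzf hfq hzq
  have hin : i < n := by omega
  have mf : f ∈ span F {f, z} := subset_span (by simp)
  have mz : z ∈ span F {f, z} := subset_span (by simp)
  have hz0 : z ≠ 0 := by
    intro h
    rw [h] at hzf
    exact hzf (zero_mem _)
  have hfz0 : f + z ≠ 0 := by
    intro h
    refine hzf (mem_span_singleton.2 ⟨-1, ?_⟩)
    rw [neg_one_smul]
    exact neg_eq_of_add_eq_zero_right h
  have hspan : ∀ g ∈ span F {f, z}, g q = 0 := by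
    intro g hg
    obtain ⟨a, b, rfl⟩ := mem_span_pair.1 hg
    rw [LinearMap.add_apply, LinearMap.smul_apply, LinearMap.smul_apply, hfq, hzq, smul_zero,
      smul_zero, add_zero]
  have hmem : ∀ F' : Finset E, F' ⊆ A (i + 1) \ A i → ∀ c, LabD q c (α.L i (i + 1) F') →
      ∃ t ∈ 𝒯, LabD q c t.1 := fun F' hF' c h =>
    ⟨_, hp.mem (Nat.lt_succ_self i) hin hF', h⟩
  refine el_alg hF (q := f) (z := z) hf hzf (Gm := fun g => ∃ t ∈ 𝒯, LabD q g t.1)
    (labd_zero hp (by omega)) ?_ ha hb hab hc hc' hτ (hmem S hS _ hSa) (hmem F₀ hF₀ _ l0)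
    (hmem F₁ hF₁ _ l1) ?_ ?_ ?_ i0 i1
  · intro g g' h h' _ hg'
    exact labd_add hL hp (by omega) (hspan g' hg') h h'
  · intro o ho g hg hgs
    have ho1 : o ∈ span F {f, z} := by
      rcases ho with h | h | h
      · rw [h]
        exact mf
      · rw [h]
        exact mz
      · rw [h]
        exact add_mem mf mz
    have ho2 : o ≠ 0 := by
      rcases ho with h | h | h
      · rw [h]
        exact hf
      · rw [h]
        exact hz0
      · rw [h]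
        exact hfz0
    have ho3 : ∃ t ∈ 𝒯, t.1 = cutR o := by
      rcases ho with h | h | h
      · rw [h]
        exact hcut
      · rw [h]
        exact hcutz
      · rw [h]
        exact hcutfz
    exact htest o ho1 ho2 ho3 g hgs hg S hS _ (smul_mem _ _ mf) _ (smul_mem _ _ mf) hSa hSb
  · intro g hg hgs
    exact htest f mf hf hcut g hgs hg F₀ hF₀ _ hc _ hc' l0 l0'
  · intro g hg hgs
    exact htest f mf hf hcut g hgs hg F₁ hF₁ _ (add_mem hc (smul_mem _ _ mz)) _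
      (add_mem hc' (smul_mem _ _ mz)) l1 l1'

/-- as `el_primal`, with `exists_edu`, `EDu.step`, `EDu.ter_one`, `EDu.ter_two`, `dual_false`; in a
path `c - v'` with `v'` far `c ∉ W`, so `c = x i`; in a path `c - u - v'`: `c ∈ W`, `c = y i`.
`H z (P (x i)) = 0` by `Blk.t2` with `Pat4.fix`. -/
theorem el_dual [CharP F 2] (hF : Nat.card F = 8) (hL : Lnk F w₀ A n s)
    (hp : Pat4 Y α γ v 𝒯 x y) (hi : 2 ≤ i) (hi' : i + 3 ≤ n) {P : E → Fin s → F}
    {H : E → (Fin s → F) →ₗ[F] F} {a : E → E → F}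
    (hb : Blk α i (Y i) (LinearEquiv.refl F (Fin s → F)) P H a)
    (hfq : H (y i) (P (x i)) = 0) {𝒟 : E → Prop} {z : E} {k : ℕ}
    (hk : Rch (fun d e => 𝒟 d ∧ 𝒟 e ∧ badj (A (i + 1) \ A i) (Y i) a d e)
      (fun d => d = x i ∨ d = y i) k z)
    (hx : 𝒟 (x i)) (hy : 𝒟 (y i)) (hz : 𝒟 z) (hzY : z ∈ Y i)
    (hzf : H z ∉ span F {H (y i)})
    (hP : ∀ d, 𝒟 d → d ∉ Y i → P d ∈ span F {P (x i)})
    (hH : ∀ d, 𝒟 d → d ∈ Y i → d ≠ z → H d ∈ span F {H (y i)}) : False := by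
  have hin : i < n := by omega
  obtain ⟨c, hc, a', h', hPx, hHy, ha0, ha0', -, -, hne⟩ := hp.bad hL hi hin hb
  have hfix : ∀ U, Seen 𝒯 U → P (x i) ∈ U ∨ U ≤ LinearMap.ker (H (y i)) := fun U hU =>
    hp.fix hL hi hi' hb hU
  have hzq : H z (P (x i)) = 0 := by
    rcases Blk.t2 hL hp.toPat3 (by omega) hin hfix hHy hb hzY with h1 | ⟨c, -, h1⟩
    · exact h1
    · exact absurd (mem_span_singleton.2 ⟨c, h1.symm⟩) hzf
  have hPsi : ∀ g ∈ span F {H (y i), H z}, g (P (x i)) = 0 := by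
    intro g hg
    obtain ⟨a, b, rfl⟩ := mem_span_pair.1 hg
    rw [LinearMap.add_apply, LinearMap.smul_apply, LinearMap.smul_apply, hfq, hzq, smul_zero,
      smul_zero, add_zero]
  obtain ⟨R, hR1, hR2, hR3⟩ := exists_edu (𝒟 := 𝒟) (z₀ := z) hb h' (hp.hx i hin) (hp.hy i hin)
    (fun d hd hdY => by
      obtain ⟨b, hb⟩ := mem_span_singleton.1 (hP d hd hdY)
      exact ⟨b, hb.symm⟩)
    (fun d hd hdY => by
      rcases eq_or_ne d z with rfl | hdz
      · exact subset_span (by simp)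
      · exact span_mono (by simp) (hH d hd hdY hdz))
  have hadj : R.adj = fun d e => 𝒟 d ∧ 𝒟 e ∧ badj (A (i + 1) \ A i) (Y i) a d e := by
    funext d e
    unfold EDu.adj
    rw [hR1, hR2]
  have hfar : R.far z := by
    refine ⟨hz, ?_, ?_⟩
    · rw [hR1]
      exact hzY
    · rw [hR3]
      exact hzf
  have key : ∃ R' : EDu α ((v i).scale c hc) i (Y i) 𝒟 (span F {H (y i), H z}) (H (y i))
      (P (x i)) (x i) (y i) (a (x i) (y i)) (a' (x i) (y i)),
      (∃ v', (v' = x i ∨ v' = y i) ∧ R'.far v') ∨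
      (∃ c v', (c = x i ∨ c = y i) ∧ R'.adj c v' ∧ R'.far v' ∧
        ∀ d, (d = x i ∨ d = y i) → ¬ R'.far d) ∨
      ∃ c u v', (c = x i ∨ c = y i) ∧ R'.adj c u ∧ R'.adj u v' ∧ R'.far v' ∧ ¬ R'.far u ∧
        ¬ (u = x i ∨ u = y i) ∧ ∀ d, (d = x i ∨ d = y i) → ¬ R'.far d ∧ ¬ R'.adj d v' := by
    refine path_red (σ := EDu α ((v i).scale c hc) i (Y i) 𝒟 (span F {H (y i), H z}) (H (y i))
      (P (x i)) (x i) (y i) (a (x i) (y i)) (a' (x i) (y i))) (fun R => R.adj)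
      (fun _ d => d = x i ∨ d = y i) (fun R => R.far) ?_ ?_ (S := R) ⟨k, z, ?_, hfar⟩
    · intro S d e h
      exact ⟨h.2.1, h.1, badj_symm h.2.2⟩
    · intro S u v' h1 h2 h3 h4 h5 h6
      obtain ⟨R', h7, h8⟩ := EDu.step hL hin hPx hPsi hx hy S u v' h1 h2 h3 h4 h5 h6
      exact ⟨R', fun d h => h, h7, h8⟩
    · show Rch R.adj _ k z
      rw [hadj]
      exact hk
  have hter : TerD 𝒯 α (v i) i (H (y i)) (P (x i)) (a (x i) (y i))⁻¹ (a' (x i) (y i))⁻¹ := by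
    obtain ⟨R', hR'⟩ := key
    have hD : ∀ d, 𝒟 d → d ∈ Y i → d ≠ z → H d ∈ span F {H (y i)} := hH
    rcases hR' with ⟨v', hs, hf'⟩ | ⟨e, v', hs, h1, h2, -⟩ | ⟨e, u, v', hs, h1, h2, h3, -, h4, h5⟩
    · exfalso
      rcases hs with rfl | rfl
      · exact (Finset.mem_sdiff.1 R'.hx).2 hf'.2.1
      · refine hf'.2.2 ?_
        rw [R'.fy]
        exact mem_span_singleton_self _
    · have h6 : e ∉ R'.S.W := by
        rcases h1.2.2 with ⟨h7, -, -⟩ | ⟨-, h7, -⟩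
        · exact (Finset.mem_sdiff.1 h7).2
        · exact absurd h2.2.1 (Finset.mem_sdiff.1 h7).2
      have h7 : e = x i := by
        rcases hs with h | h
        · exact h
        · exact absurd R'.hy (h ▸ h6)
      rw [h7] at h1
      exact EDu.ter_one hL hp.toPat3 hi hin hHy hPx hfq hzq ha0 ha0' hb h' hzY hz hzf hD hx R' h1 h2
    · have h6 : u ∉ R'.S.W := by
        rcases h2.2.2 with ⟨h7, -, -⟩ | ⟨-, h7, -⟩
        · exact (Finset.mem_sdiff.1 h7).2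
        · exact absurd h3.2.1 (Finset.mem_sdiff.1 h7).2
      have h7 : e ∈ R'.S.W := by
        rcases h1.2.2 with ⟨-, h7, -⟩ | ⟨h7, -, -⟩
        · exact absurd h7 h6
        · exact h7
      have h8 : e = y i := by
        rcases hs with h | h
        · exact absurd h7 (h ▸ (Finset.mem_sdiff.1 R'.hx).2)
        · exact h
      rw [h8] at h1
      exact EDu.ter_two hL hp.toPat3 hi hin hHy hPx hfq hzq ha0 ha0' hb h' hzY hz hzf hD hx hy R'
        h1 h2 h3 (h5 _ (Or.inl rfl)).2 fun h => h4 (Or.inl h)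
  obtain ⟨κ₁, hκ₁, hb₁⟩ := hb.pivot hL hin (hp.hx i hin) (hp.hy i hin) ha0 (by rwa [hfq, add_zero])
  obtain ⟨κ₂, hκ₂, hb₂⟩ := h'.pivot hL hin (hp.hx i hin) (hp.hy i hin) ha0'
    (by rwa [hfq, add_zero])
  have hSa : LabD (P (x i)) ((a (x i) (y i))⁻¹ • H (y i))
      (α.L i (i + 1) (insert (x i) ((Y i).erase (y i)))) := by
    refine ⟨κ₁, hb₁.riso hin, fun g => ?_⟩
    rw [hκ₁ g, LinearEquiv.refl_apply, hfq, add_zero, LinearMap.smul_apply, smul_eq_mul,
      sub_eq_add_neg, ← neg_smul, CharTwo.neg_eq, mul_comm]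
  have hSb : LabD (P (x i)) ((a' (x i) (y i))⁻¹ • H (y i))
      ((v i).L i (i + 1) (insert (x i) ((Y i).erase (y i)))) := by
    refine ⟨κ₂, ?_, fun g => ?_⟩
    · have h1 := hb₂.riso hin
      rwa [FRep.scale_L] at h1
    · rw [hκ₂ g, LinearEquiv.refl_apply, hfq, add_zero, LinearMap.smul_apply, smul_eq_mul,
        sub_eq_add_neg, ← neg_smul, CharTwo.neg_eq, mul_comm]
  exact dual_false hF hL hp.toPat3 hi (by omega) hHy hPx hfq
    (hp.toPat3.cut_mem hL (by omega) hin hb (hp.hy i hin)) (inv_ne_zero ha0) (inv_ne_zero ha0')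
    (fun h => hne (inv_injective h)) (hp.swp i hin).sub hSa hSb hter

end Pool.MP_4929df_co.H92
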