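import Pool.Agent.W_4929df_h92.BrwJ6
import Pool.Agent.W_4929df_h92.BrwJ7
import Pool.Agent.W_4929df_h92.BrwI2

/-!
The case `f q = 0`.
-/

set_option autoImplicit false

namespace Pool.MP_4929df_co.H92

open Submodule

variable {F : Type} [Field F] [Finite F] {E : Type} [Fintype E] [DecidableEq E] {V : Type}
  [AddCommGroup V] [Module F V] [FiniteDimensional F V] {w₀ : E → V} {A : ℕ → Finset E} {n s : ℕ}
  {Y : ℕ → Finset E} {α γ : FRep F w₀ A n s} {v : ℕ → FRep F w₀ A n s}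
  {𝒯 : Set (Submodule F ((Fin s → F) × (Fin s → F)) × Submodule F ((Fin s → F) × (Fin s → F)))}
  {i i' : ℕ} {x y : ℕ → E}

/-- reachability is monotone -/
private theorem BrwJ8_mono {E : Type} {adj adj' : E → E → Prop} {st st' : E → Prop}
    (h : ∀ d e, adj d e → adj' d e) (h' : ∀ d, st d → st' d) :
    ∀ k d, Rch adj st k d → Rch adj' st' k d := by
  intro k
  induction k with
  | zero => exact fun d hd => h' d hd
  | succ k ih =>
    rintro d ⟨u, hu, hud⟩
    exact ⟨u, ih u hu, h u d hud⟩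

/-- a reachable vertex needs a start vertex -/
private theorem BrwJ8_start {E : Type} {adj : E → E → Prop} {st : E → Prop} :
    ∀ k d, Rch adj st k d → ∃ t, st t := by
  intro k
  induction k with
  | zero => exact fun d hd => ⟨d, hd⟩
  | succ k ih =>
    rintro d ⟨u, hu, -⟩
    exact ih u hu

/-- Take `z` and the least `k` with `z` in `Rch k` and `z` far as in `hz`. `𝒟 d` holds for `d = z`, for
`d ∉ Y i` with `P d ∈ span {P (x i)}`, and for `d ∈ Y i` with `H d ∈ span {H (y i)}`. All vertices of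
`Rch j`, `j < k`, satisfy `𝒟` (they are in the block and not far), so `z` is reachable within
`𝒟`. `el_primal` or `el_dual`. -/
theorem el_block [CharP F 2] (hF : Nat.card F = 8) (hL : Lnk F w₀ A n s)
    (hp : Pat4 Y α γ v 𝒯 x y) (hi : 2 ≤ i) (hi' : i + 3 ≤ n) {P : E → Fin s → F}
    {H : E → (Fin s → F) →ₗ[F] F} {a : E → E → F}
    (hb : Blk α i (Y i) (LinearEquiv.refl F (Fin s → F)) P H a)
    (hfq : H (y i) (P (x i)) = 0) {z : E} {k : ℕ}
    (hk : Rch (badj (A (i + 1) \ A i) (Y i) a) (fun d => d = x i ∨ d = y i) k z)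
    (hz : (z ∉ Y i ∧ P z ∉ span F {P (x i)}) ∨ (z ∈ Y i ∧ H z ∉ span F {H (y i)})) :
    False := by
  classical
  set far : E → Prop := fun d =>
    (d ∉ Y i ∧ P d ∉ span F {P (x i)}) ∨ (d ∈ Y i ∧ H d ∉ span F {H (y i)}) with hfar
  have hin : i < n := by omega
  have hxi := Finset.mem_sdiff.1 (hp.hx i hin)
  have hyi := hp.hy i hin
  have hex : ∃ k, ∃ d, Rch (badj (A (i + 1) \ A i) (Y i) a) (fun d => d = x i ∨ d = y i) k d ∧
      far d := ⟨k, z, hk, hz⟩
  obtain ⟨z₀, hk₀, hz₀⟩ := Nat.find_spec hex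
  have hmin : ∀ j, j < Nat.find hex → ∀ d,
      Rch (badj (A (i + 1) \ A i) (Y i) a) (fun d => d = x i ∨ d = y i) j d → ¬ far d :=
    fun j hj d h1 h2 => Nat.find_min hex hj ⟨d, h1, h2⟩
  set k₀ := Nat.find hex with hk₀d
  clear_value k₀
  have hnf : ∀ d, ¬ far d → (d ∉ Y i → P d ∈ span F {P (x i)}) ∧
      (d ∈ Y i → H d ∈ span F {H (y i)}) := by
    intro d hd
    refine ⟨fun h1 => ?_, fun h1 => ?_⟩
    · by_contra h2
      exact hd (Or.inl ⟨h1, h2⟩)
    · by_contra h2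
      exact hd (Or.inr ⟨h1, h2⟩)
  have hfx : ¬ far (x i) := by
    rintro (⟨-, h⟩ | ⟨h, -⟩)
    · exact h (mem_span_singleton_self _)
    · exact hxi.2 h
  have hfy : ¬ far (y i) := by
    rintro (⟨h, -⟩ | ⟨-, h⟩)
    · exact h hyi
    · exact h (mem_span_singleton_self _)
  -- the restricted paths
  have hpath : ∀ j d, j ≤ k₀ → (j < k₀ ∨ d = z₀) →
      Rch (badj (A (i + 1) \ A i) (Y i) a) (fun d => d = x i ∨ d = y i) j d →
      Rch (fun d e => (d = z₀ ∨ ¬ far d) ∧ (e = z₀ ∨ ¬ far e) ∧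
        badj (A (i + 1) \ A i) (Y i) a d e) (fun d => d = x i ∨ d = y i) j d := by
    intro j
    induction j with
    | zero => exact fun d _ _ hd => hd
    | succ j ih =>
      rintro d hj hjd ⟨u, hu, hud⟩
      have h1 : ¬ far u := hmin j (by omega) u hu
      refine ⟨u, ih u (by omega) (Or.inl (by omega)) hu, Or.inr h1, ?_, hud⟩
      rcases hjd with h2 | h2
      · exact Or.inr (hmin (j + 1) h2 d ⟨u, hu, hud⟩)
      · exact Or.inl h2
  have hk1 := hpath k₀ z₀ le_rfl (Or.inr rfl) hk₀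
  have hblk : z₀ ∉ Y i → z₀ ∈ (A (i + 1) \ A i) \ Y i := by
    intro h1
    cases k₀ with
    | zero =>
      rcases hk₀ with h2 | h2
      · rw [h2]
        exact hp.hx i hin
      · exact absurd (h2 ▸ hyi) h1
    | succ j =>
      obtain ⟨u, -, hu⟩ := hk₀
      rcases hu with ⟨-, h2, -⟩ | ⟨-, h2, -⟩
      · exact absurd h2 h1
      · exact h2
  rcases hz₀ with ⟨h1, h2⟩ | ⟨h1, h2⟩
  · refine el_primal hF hL hp hi hi' hb hfq (𝒟 := fun d => d = z₀ ∨ ¬ far d) hk1 (Or.inr hfx)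
      (Or.inr hfy) (Or.inl rfl) (hblk h1) h2 ?_ ?_
    · rintro d (h3 | h3) h4 h5
      · exact absurd h3 h5
      · exact (hnf d h3).1 h4
    · rintro d (h3 | h3) h4
      · exact absurd (h3 ▸ h4) h1
      · exact (hnf d h3).2 h4
  · refine el_dual hF hL hp hi hi' hb hfq (𝒟 := fun d => d = z₀ ∨ ¬ far d) hk1 (Or.inr hfx)
      (Or.inr hfy) (Or.inl rfl) h1 h2 ?_ ?_
    · rintro d (h3 | h3) h4
      · exact absurd h1 (h3 ▸ h4)
      · exact (hnf d h3).1 h4
    · rintro d (h3 | h3) h4 h5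
      · exact absurd h3 h5
      · exact (hnf d h3).2 h4

/-- If in block `i` or `i'` a far vertex can be reached from the bad pair, `el_block`. Otherwise
`no_comp` with `St l d = ((l = i ∨ l = i') ∧ (d = x l ∨ d = y l))`, `q = P i (x i)`,
`f = H i (y i)`; `hN` by `Blk.t1`, `Blk.t2` with `Pat4.fix` for `i`, `f q = 0`. -/
theorem el_false [CharP F 2] (hF : Nat.card F = 8) (hL : Lnk F w₀ A n s)
    (hc : 3 ≤ (A 0).card) (h4 : Four F w₀)
    (hp : Pat4 Y α γ v 𝒯 x y) {P : ℕ → E → Fin s → F} {H : ℕ → E → (Fin s → F) →ₗ[F] F}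
    {a : ℕ → E → E → F}
    (hb : ∀ l, l < n → Blk α l (Y l) (LinearEquiv.refl F (Fin s → F)) (P l) (H l) (a l))
    (hi : 2 ≤ i) (hii : i < i') (hi' : i' + 3 ≤ n) (hP : P i (x i) = P i' (x i'))
    (hH : H i (y i) = H i' (y i')) (hfq : H i (y i) (P i (x i)) = 0) : False := by
  have hin : i < n := by omega
  have hin' : i' < n := by omega
  have hn : 2 ≤ n := by omega
  -- no far vertex can be reached
  have hno : ∀ l, l = i ∨ l = i' → ∀ k d,
      Rch (badj (A (l + 1) \ A l) (Y l) (a l)) (fun d => d = x l ∨ d = y l) k d →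
      (d ∉ Y l → P l d ∈ span F {P l (x l)}) ∧ (d ∈ Y l → H l d ∈ span F {H l (y l)}) := by
    intro l hl k d hk
    have h1 : 2 ≤ l := by omega
    have h2 : l + 3 ≤ n := by omega
    have h3 : H l (y l) (P l (x l)) = 0 := by
      rcases hl with rfl | rfl
      · exact hfq
      · rw [← hP, ← hH]
        exact hfq
    refine ⟨fun h4 => ?_, fun h4 => ?_⟩
    · by_contra h5
      exact el_block hF hL hp h1 h2 (hb l (by omega)) h3 hk (Or.inl ⟨h4, h5⟩)
    · by_contra h5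
      exact el_block hF hL hp h1 h2 (hb l (by omega)) h3 hk (Or.inr ⟨h4, h5⟩)
  obtain ⟨-, -, -, -, hq, hf, -⟩ := hp.bad hL hi hin (hb i hin)
  have hfix : ∀ U, Seen 𝒯 U → P i (x i) ∈ U ∨ U ≤ LinearMap.ker (H i (y i)) :=
    fun U hU => hp.fix hL hi (by omega) (hb i hin) hU
  have hblk : ∀ l, l < n → ∀ d, d = x l ∨ d = y l → d ∈ A (l + 1) \ A l := by
    rintro l hl d (rfl | rfl)
    · exact (Finset.mem_sdiff.1 (hp.hx l hl)).1
    · exact (hb l hl).tb.sub (hp.hy l hl)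
  refine no_comp (q := P i (x i)) (f := H i (y i)) (x := x) (y := y)
    (St := fun l d => (l = i ∨ l = i') ∧ (d = x l ∨ d = y l)) hL hc h4 hii hin' hb hf
    (fun l _ h2 d hd => hblk l (by omega) d hd.2) (hp.hx i hin) (hp.hy i hin) (hp.hx i' hin')
    (hp.hy i' hin') ⟨Or.inl rfl, Or.inl rfl⟩ ⟨Or.inl rfl, Or.inr rfl⟩ ⟨Or.inr rfl, Or.inl rfl⟩
    ⟨Or.inr rfl, Or.inr rfl⟩ ?_ ?_
  · intro l h1 h2 k d hk
    obtain ⟨t, ht, -⟩ := BrwJ8_start k d hk
    have h3 := hno l ht k d (BrwJ8_mono (fun _ _ h => h) (fun _ h => h.2) k d hk)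
    have h5 : P l (x l) = P i (x i) := by
      rcases ht with rfl | rfl
      · rfl
      · exact hP.symm
    have h6 : H l (y l) = H i (y i) := by
      rcases ht with rfl | rfl
      · rfl
      · exact hH.symm
    rw [h5, h6] at h3
    refine ⟨h3.1, fun h7 => ?_⟩
    obtain ⟨b, hb1⟩ := mem_span_singleton.1 (h3.2 h7)
    intro g hg
    rw [LinearMap.mem_ker] at hg ⊢
    rw [← hb1, LinearMap.smul_apply, hg, smul_zero]
  · intro l h1 h2 d hd _
    refine ⟨fun h3 => ?_, fun h3 => ?_⟩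
    · rcases Blk.t1 hL hp.toPat3 hn (by omega) hfix hq (hb l (by omega))
        (Finset.mem_sdiff.2 ⟨hd, h3⟩) with h5 | ⟨b, -, h5⟩
      · exact h5
      · rw [h5, map_smul, hfq, smul_zero]
    · rcases Blk.t2 hL hp.toPat3 hn (by omega) hfix hf (hb l (by omega)) h3 with h5 | ⟨b, -, h5⟩
      · exact h5
      · rw [h5, LinearMap.smul_apply, hfq, smul_zero]

/-- `Pat3.exists_coord`, `exists_two`, `hom_false`, `el_false` -/
theorem exists_len (F : Type) [Field F] [Finite F] [CharP F 2] (hF : Nat.card F = 8) (s : ℕ) :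
    ∃ n : ℕ, ∀ {E : Type} [Fintype E] [DecidableEq E] {V : Type} [AddCommGroup V] [Module F V]
      [FiniteDimensional F V] {w₀ : E → V} {A : ℕ → Finset E} {Y : ℕ → Finset E}
      {α γ : FRep F w₀ A n s} {v : ℕ → FRep F w₀ A n s}
      {𝒯 : Set (Submodule F ((Fin s → F) × (Fin s → F)) ×
        Submodule F ((Fin s → F) × (Fin s → F)))} {x y : ℕ → E},
      Lnk F w₀ A n s → 3 ≤ (A 0).card → Four F w₀ → ¬ Pat4 Y α γ v 𝒯 x y := by
  obtain ⟨n, hn⟩ := exists_two F s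
  refine ⟨n, fun {E} _ _ {V} _ _ _ {w₀} {A} {Y} {α} {γ} {v} {𝒯} {x} {y} hL hc h4 hp => ?_⟩
  obtain ⟨P, H, a, hb⟩ := Pat3.exists_coord hL hp.toPat3
  obtain ⟨i, i', h1, h2, h3, h5, h6⟩ := hn P H x y
  by_cases h7 : H i (y i) (P i (x i)) = 0
  · exact el_false hF hL hc h4 hp hb h1 h2 h3 h5 h6 h7
  · exact hom_false hL hc h4 hp hb h1 h2 h3 h5 h6 h7

end Pool.MP_4929df_co.H92
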