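import Pool.Agent.W_4929df_h92.BrwB
import Pool.Agent.W_4929df_h92.BrwE3
import Pool.Agent.W_4929df_h92.BrwJ8

/-!
The number of classes is bounded.
-/

set_option autoImplicit false

namespace Pool.MP_4929df_co.H92

open Submodule

/-- initial part of a linked chain -/
theorem Lnk.init {F : Type} [Field F] {E : Type} [Fintype E] [DecidableEq E] {V : Type}
    [AddCommGroup V] [Module F V] {w₀ : E → V} {A : ℕ → Finset E} {n m s : ℕ}
    (hL : Lnk F w₀ A n s) (hm : m ≤ n) : Lnk F w₀ A m s := by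
  have hA : ∀ l, l < n → A l ⊆ A (l + 1) := fun l hl => (hL.mono l hl).1
  exact ⟨fun l hl => hL.mono l (hl.trans_le hm), fun l hl => hL.width l (hl.trans hm),
    fun B h0 h1 => hL.linked B h0 (h1.trans (chain_le hA hm le_rfl))⟩

/-- For given `s` a length `n` such that a linked chain of sets of connectivity `s` cannot have
`N * QQ F s * nA (A l) < nA (A (l + 1))` for all `l < n`, `N = Nat.card` of the linear
automorphisms. `n₄` from `exists_len`, `n₃ = 2 * n₄ + 3` (`Pat3.merge`), `n₂` from `exists_pat3`, `n₁`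
from `exists_pat2`, `n` from `exists_pat`. -/
theorem exists_bound_s (F : Type) [Field F] [Finite F] [CharP F 2] (hF : Nat.card F = 8)
    (s : ℕ) : ∃ n : ℕ, ∀ (E : Type) [Fintype E] [DecidableEq E] (V : Type) [AddCommGroup V]
      [Module F V] [Finite V] [FiniteDimensional F V] (w₀ : E → V) (A : ℕ → Finset E),
      Lnk F w₀ A n s → Four F w₀ →
      ¬ ∀ l, l < n → Nat.card ((Fin s → F) ≃ₗ[F] (Fin s → F)) * QQ F s * nA F w₀ (A l) <
        nA F w₀ (A (l + 1)) := by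
  obtain ⟨n₄, h₄⟩ := exists_len F hF s
  obtain ⟨n₂, h₂⟩ := exists_pat3 F s (2 * n₄ + 3)
  obtain ⟨n₁, h₁⟩ := exists_pat2 F s n₂
  obtain ⟨n, hn⟩ := exists_pat F s (Nat.card ((Fin s → F) ≃ₗ[F] (Fin s → F))) n₁
  refine ⟨n, ?_⟩
  intro E _ _ V _ _ _ _ w₀ A hL h4 hall
  obtain ⟨A₁, hL₁, hc₁, α₁, γ₁, v₁, hp₁⟩ := hn E V w₀ A hL h4 hall
  obtain ⟨A₂, hL₂, hc₂, Y₂, α₂, γ₂, v₂, hp₂⟩ := h₁ E V w₀ A₁ hL₁ hc₁ α₁ γ₁ v₁ hp₁
  obtain ⟨A₃, hL₃, hc₃, Y₃, α₃, γ₃, v₃, 𝒯, hp₃⟩ := h₂ E V w₀ A₂ hL₂ hc₂ Y₂ α₂ γ₂ v₂ hp₂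
  obtain ⟨A₄, hL₄, hc₄, Y₄, α₄, γ₄, v₄, x, y, hp₄⟩ := hp₃.merge hL₃ le_rfl hc₃
  exact h₄ hL₄ hc₄ h4 hp₄

/-- Let `n` and `H` be at least the numbers of `exists_bound_s` for all `s ≤ k`
(`H ≥ 1`), `N` from `exists_lnk`; `K = N`. `Lnk.init`. -/
theorem branch_nA (F : Type) [Field F] [Finite F] [CharP F 2] (hF : Nat.card F = 8) (k : ℕ) :
    ∃ K : ℕ, ∀ (E : Type) [Fintype E] [DecidableEq E] (V : Type) [AddCommGroup V] [Module F V]
      [Finite V] [FiniteDimensional F V] (w₀ : E → V) (t : BTree E), t.Good →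
      t.All (fun X => Module.finrank F (Gd F w₀ X) ≤ k) → Four F w₀ →
      nA F w₀ t.els ≤ K := by
  choose b hb using fun s => exists_bound_s F hF s
  obtain ⟨c, hc⟩ : ∃ c : ℕ → ℕ, ∀ s, c s = Nat.card ((Fin s → F) ≃ₗ[F] (Fin s → F)) * QQ F s :=
    ⟨_, fun _ => rfl⟩
  obtain ⟨N, hN⟩ := exists_lnk F k ((Finset.range (k + 1)).sup c + 1)
    ((Finset.range (k + 1)).sup b) (by omega)
  refine ⟨N, ?_⟩
  intro E _ _ V _ _ _ _ w₀ t ht hw h4
  by_contra hcon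
  obtain ⟨s, A, hs, hL, hH⟩ := hN E V w₀ t ht hw (by omega)
  have hmem : s ∈ Finset.range (k + 1) := Finset.mem_range.2 (by omega)
  have hbs : b s ≤ (Finset.range (k + 1)).sup b := Finset.le_sup (f := b) hmem
  have hcs : c s ≤ (Finset.range (k + 1)).sup c := Finset.le_sup (f := c) hmem
  refine hb s E V w₀ A (hL.init hbs) h4 fun l hl => ?_
  refine lt_of_le_of_lt ?_ (hH l (by omega))
  rw [← hc]
  exact Nat.mul_le_mul_right _ (by omega)

end Pool.MP_4929df_co.H92
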