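import Pool.Agent.W_4929df_h92.RepC

/-!
The theorem for representations as in the frozen statement.
-/

set_option autoImplicit false

namespace Pool.MP_4929df_co.H92

/-- 3-connectivity outside `D` -/
def ThreeOutside {E : Type} {m : ℕ} (v : E → (Fin m → GaloisField 2 3)) (D : Set E) : Prop :=
  ∀ X : Set E, X ⊆ Dᶜ → ∀ j : ℕ, j < 3 → j ≤ X.ncard → j ≤ (Dᶜ \ X).ncard →
    Module.finrank (GaloisField 2 3) (Submodule.span (GaloisField 2 3) (v '' Dᶜ)) + j ≤
      Module.finrank (GaloisField 2 3) (Submodule.span (GaloisField 2 3) (v '' X)) +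
      Module.finrank (GaloisField 2 3) (Submodule.span (GaloisField 2 3) (v '' (Dᶜ \ X)))

/-- 4-connectivity (hypothesis of the frozen statement) -/
def FourConn {E : Type} {m : ℕ} (v : E → (Fin m → GaloisField 2 3)) : Prop :=
  ∀ X : Set E, ∀ j : ℕ, j < 4 → j ≤ X.ncard → j ≤ Xᶜ.ncard →
    Module.finrank (GaloisField 2 3) (Submodule.span (GaloisField 2 3) (Set.range v)) + j ≤
      Module.finrank (GaloisField 2 3) (Submodule.span (GaloisField 2 3) (v '' X)) +
      Module.finrank (GaloisField 2 3) (Submodule.span (GaloisField 2 3) (v '' Xᶜ))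

/-- binary outside `D` -/
def BinaryOutside {E : Type} {m : ℕ} (v : E → (Fin m → GaloisField 2 3)) (D : Set E) : Prop :=
  ∃ (n : ℕ) (u : E → (Fin n → ZMod 2)), ∀ S : Set E, S ⊆ Dᶜ →
    (LinearIndependent (GaloisField 2 3) (fun s : S => v (s : E)) ↔
      LinearIndependent (ZMod 2) (fun s : S => u (s : E)))

/-- equivalent outside `D` -/
def EquivOutside {E : Type} {r : ℕ} (D : Set E) (w w' : E → (Fin r → GaloisField 2 3)) : Prop :=
  ∃ g : (Fin r → GaloisField 2 3) ≃ₗ[GaloisField 2 3] (Fin r → GaloisField 2 3),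
    ∃ c : E → GaloisField 2 3, (∀ e, c e ≠ 0) ∧ ∀ e, e ∉ D → w e = c e • g (w' e)

/-- The final theorem. `K` from `equiv_bound`, `k = max ((K * 8 ^ t) ^ t) (max ((K * 8) ^ 1) (8 ^ 25))`.
`G = (Dᶜ).toFinset` (classical). If `M` is 4-connected and `D = {e}`: for at most 5 elements
`small_case`; otherwise `three_of_four` (with `D` of one element; use `t = 1`). In the binary case
`equiv_of_binary` gives `EquivOutside` for all pairs. `sameRk_of_indep` for the hypotheses of
`equiv_bound`; `Three` for `w i` from `Three` for `v`, it depends only on the ranks. Subfamilies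
`w ∘ Fin.castLE` as in Pool/Agent/Results/MP_4929df_co/GraphicExtensions.lean. -/
theorem final (t : ℕ) : ∃ k : ℕ, ∀ (E : Type) [Fintype E] (m : ℕ)
    (v : E → (Fin m → GaloisField 2 3)) (D : Set E), D.ncard ≤ t →
    (ThreeOutside v D ∨ (D.ncard = 1 ∧ FourConn v)) →
    ∀ r : ℕ, ∀ w : Fin (k + 1) → E → (Fin r → GaloisField 2 3),
      (∀ i, Submodule.span (GaloisField 2 3) (Set.range (w i)) = ⊤ ∧
        ∀ S : Set E, (LinearIndependent (GaloisField 2 3) (fun s : S => w i (s : E)) ↔
          LinearIndependent (GaloisField 2 3) (fun s : S => v (s : E)))) →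
      (BinaryOutside v D ∨ ∀ i j, EquivOutside D (w i) (w j)) →
      ∃ i j : Fin (k + 1), i ≠ j ∧
        ∃ g : (Fin r → GaloisField 2 3) ≃ₗ[GaloisField 2 3] (Fin r → GaloisField 2 3),
        ∃ c : E → GaloisField 2 3, (∀ e, c e ≠ 0) ∧ ∀ e, w i e = c e • g (w j e) := by
  classical
  obtain ⟨K, hK⟩ := equiv_bound
  refine ⟨max ((K * 8 ^ t) ^ t) (8 ^ 25), ?_⟩
  intro E _ m v D hD hcase r w hw hbin
  have h8 : Nat.card (GaloisField 2 3) = 8 := by
    rw [GaloisField.card 2 3 (by norm_num)]; norm_num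
  have hcard : Nat.card (Fin (max ((K * 8 ^ t) ^ t) (8 ^ 25) + 1)) =
      max ((K * 8 ^ t) ^ t) (8 ^ 25) + 1 := by
    rw [Nat.card_eq_fintype_card, Fintype.card_fin]
  have hc1 : (K * 8 ^ t) ^ t < Nat.card (Fin (max ((K * 8 ^ t) ^ t) (8 ^ 25) + 1)) := by
    rw [hcard]; exact Nat.lt_succ_of_le (le_max_left _ _)
  have hc2 : 8 ^ 25 < Nat.card (Fin (max ((K * 8 ^ t) ^ t) (8 ^ 25) + 1)) := by
    rw [hcard]; exact Nat.lt_succ_of_le (le_max_right _ _)
  generalize hk : max ((K * 8 ^ t) ^ t) (8 ^ 25) = k at w hw hbin hc1 hc2 hcard ⊢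
  have hrk : ∀ i, ∀ X : Set E,
      Module.finrank (GaloisField 2 3) (Submodule.span (GaloisField 2 3) (w i '' X)) =
      Module.finrank (GaloisField 2 3) (Submodule.span (GaloisField 2 3) (v '' X)) := by
    intro i X
    have h := sameRk_of_indep (F := GaloisField 2 3) (F' := GaloisField 2 3) (w := w i) (w' := v)
      (G := Finset.univ) (fun S _ => (hw i).2 S) X.toFinset (Finset.subset_univ _)
    unfold Sp at h
    rw [Set.coe_toFinset] at h
    exact h
  have hsame : ∀ i j, SameRk (F := GaloisField 2 3) (F' := GaloisField 2 3) Finset.univ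
      (w i) (w j) := by
    intro i j
    exact sameRk_of_indep (fun S _ => ((hw i).2 S).trans ((hw j).2 S).symm)
  have hspan : ∀ i, Sp (GaloisField 2 3) (w i) Finset.univ = ⊤ := by
    intro i
    unfold Sp
    rw [Finset.coe_univ, Set.image_univ]
    exact (hw i).1
  have hGc : ((Dᶜ).toFinset : Set E) = Dᶜ := Set.coe_toFinset _
  have hequiv : ∀ i j, ∃ g : (Fin r → GaloisField 2 3) ≃ₗ[GaloisField 2 3]
      (Fin r → GaloisField 2 3), ∃ c : E → GaloisField 2 3, (∀ x, c x ≠ 0) ∧
      ∀ x ∈ (Dᶜ).toFinset, w i x = c x • g (w j x) := by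
    intro i j
    rcases hbin with ⟨n, u, hu⟩ | hE
    · exact equiv_of_binary (u := u) (G := (Dᶜ).toFinset)
        (fun S hS => ((hw i).2 S).trans (hu S (by rw [← hGc]; exact hS)))
        (fun S hS => ((hw j).2 S).trans (hu S (by rw [← hGc]; exact hS)))
    · obtain ⟨g, c, hc, h⟩ := hE i j
      exact ⟨g, c, hc, fun x hx => h x (by simpa using hx)⟩
  have hmain : (∀ i, Three (F := GaloisField 2 3) (w i) (Dᶜ).toFinset) →
      ∃ i j : Fin (k + 1), i ≠ j ∧
        ∃ g : (Fin r → GaloisField 2 3) ≃ₗ[GaloisField 2 3] (Fin r → GaloisField 2 3),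
        ∃ c : E → GaloisField 2 3, (∀ e, c e ≠ 0) ∧ ∀ e, w i e = c e • g (w j e) := by
    intro hthree
    refine hK t (GaloisField 2 3) (Fin r → GaloisField 2 3) E (Dᶜ).toFinset D.toFinset
      (Fin (k + 1)) w h8 hthree ?_ ?_ ?_ hsame hspan hequiv hc1
    · ext x; simp only [Finset.mem_union, Set.mem_toFinset, Set.mem_compl_iff, Finset.mem_univ,
        iff_true]; tauto
    · rw [Set.disjoint_toFinset]; exact disjoint_compl_left
    · rw [← Set.ncard_eq_toFinset_card']; exact hD
  rcases hcase with h3 | ⟨hD1, h4⟩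
  · apply hmain
    intro i X hX j hj hX1 hX2
    rw [hGc] at hX hX2 ⊢
    rw [hrk, hrk, hrk]
    exact h3 X hX j hj hX1 hX2
  · obtain ⟨e, rfl⟩ := Set.ncard_eq_one.1 hD1
    by_cases h5 : Fintype.card E ≤ 5
    · obtain ⟨i, j, hij, h⟩ := small_case h8 h5 (w := w) (fun i => (hw i).1) hc2
      refine ⟨i, j, hij, LinearEquiv.refl _ _, fun _ => 1, fun _ => one_ne_zero, fun x => ?_⟩
      rw [h, one_smul, LinearEquiv.refl_apply]
    · apply hmain
      intro i
      have h6 : Three (F := GaloisField 2 3) (w i) (Finset.univ.erase e) := by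
        refine three_of_four (by omega) ?_ e
        intro X j hj hX1 hX2
        rw [← Set.image_univ, hrk, hrk, hrk, Set.image_univ]
        exact h4 X j hj hX1 hX2
      convert h6 using 1
      ext x
      simp

end Pool.MP_4929df_co.H92
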