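import Pool.Agent.W_4929df_h92.MixA2

/-!
Deletion of `D` and contraction of `C`: representations that agree outside `D`.
-/

set_option autoImplicit false

namespace Pool.MP_4929df_co.H92

open Submodule

/-- rank modulo the empty space is the dimension of the span -/
theorem MixA3_rk {F : Type} [Field F] {V : Type} [AddCommGroup V] [Module F V] {α : Type}
    (v : α → V) (A : Finset α) :
    rk F v (⊥ : Submodule F V) A = Module.finrank F (Sp F v A) := by
  unfold rk
  rw [sup_bot_eq]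

/-- `D₀` skew to `G ∪ C` adds its cardinality over every `A ∪ C` -/
theorem MixA3_shift {F : Type} [Field F] {V : Type} [AddCommGroup V] [Module F V]
    [FiniteDimensional F V] {α : Type} [DecidableEq α] (v : α → V) {G C D₀ A : Finset α}
    (hfr : Module.finrank F (Sp F v (G ∪ C ∪ D₀)) =
      Module.finrank F (Sp F v (G ∪ C)) + D₀.card) (hA : A ⊆ G) :
    rk F v (Sp F v (C ∪ D₀)) A = rk F v (Sp F v C) A + D₀.card := by
  have hr := rk_isRk v (⊥ : Submodule F V)
  have e1 : rk F v (Sp F v (C ∪ D₀)) A = rk F v (⊥ : Submodule F V) (A ∪ C ∪ D₀) := by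
    rw [MixA3_rk]
    unfold rk
    rw [← Sp_union, Finset.union_assoc]
  have e2 : rk F v (Sp F v C) A = rk F v (⊥ : Submodule F V) (A ∪ C) := by
    rw [MixA3_rk]
    unfold rk
    rw [← Sp_union]
  rw [← MixA3_rk, ← MixA3_rk] at hfr
  rw [e1, e2]
  have h1 := hr.add_card (A ∪ C) D₀
  have h2 : rk F v (⊥ : Submodule F V) (G ∪ C ∪ D₀) + rk F v (⊥ : Submodule F V) (A ∪ C) ≤
      rk F v (⊥ : Submodule F V) (G ∪ C) + rk F v (⊥ : Submodule F V) (A ∪ C ∪ D₀) := by
    refine hr.sub4 ?_ ?_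
    · intro a ha; simp only [Finset.mem_union] at ha ⊢; tauto
    · intro a ha
      have h3 := @hA a
      simp only [Finset.mem_union, Finset.mem_inter] at ha ⊢; tauto
  omega

theorem MixA3_finrank_le {F : Type} [Field F] {V : Type} [AddCommGroup V] [Module F V]
    {α : Type} (v : α → V) (A : Finset α) : Module.finrank F (Sp F v A) ≤ A.card := by
  classical
  have h5 : Sp F v A = span F ((A.image v : Finset V) : Set V) := by
    unfold Sp
    rw [Finset.coe_image]
  rw [h5]
  exact (finrank_span_finset_le_card _).trans Finset.card_image_le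

/-- As `agree_bound`, but the minor with `C` contracted is 3-connected. `C, D, G` partition the
ground set. `D₀ ⊆ D` from `exists_basis_mod v (G ∪ C) D`, `exists_adjust` (with `G ∪ C` instead of
`G`) gives `g i` and `f' i x = g i (f i x)` which agree with `v` on `G ∪ C ∪ D₀`. For `d ∈ D` the set
`{f' i d}` satisfies the hypotheses of `vec_boundY` with `Y = Sp F v (C ∪ D₀)`:
`Sp F v G ⊔ Y = ⊤`; `f' i d ∈ Sp F v A ⊔ Y = Sp F v (A ∪ C ∪ D₀)` is decided by the ranks
(`SameRk.mem`); `rk F v Y A = rk F v (Sp F v C) A + D₀.card` for `A ⊆ G` (`D₀` is skew to `G ∪ C`),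
so `good_of_threeR` and `good_shift`. `finrank Y ≤ 2 * t`. `pigeon`. (`K ≥ 1`.) -/
theorem agree_boundC : ∃ K : ℕ, ∀ (t : ℕ) (F : Type) [Field F] (V : Type) [AddCommGroup V]
    [Module F V] [FiniteDimensional F V] (α : Type) [Fintype α] [DecidableEq α] (v : α → V)
    (G C D : Finset α) (ι : Type) [Finite ι] (f : ι → α → V), Nat.card F = 8 →
    ThreeR (rk F v (Sp F v C)) G → G ∪ C ∪ D = Finset.univ → Disjoint G C → Disjoint (G ∪ C) D →
    C.card ≤ t → D.card ≤ t →
    (∀ i, SameRk (F := F) (F' := F) Finset.univ v (f i)) →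
    (∀ i, Sp F (f i) Finset.univ = ⊤) → (∀ i, ∀ x ∈ G ∪ C, f i x = v x) →
    (K * 8 ^ (2 * t)) ^ t < Nat.card ι →
    ∃ i j, i ≠ j ∧ ∃ g : V ≃ₗ[F] V, ∀ x, f i x = g (f j x) := by
  obtain ⟨K0, hK0⟩ := vec_boundY
  refine ⟨K0 + 1, ?_⟩
  intro t F _ V _ _ _ α _ _ v G C D ι _ f h8 h3 hGD _ _ hCt hDt hsame htop hagree hcard
  obtain ⟨D₀, hD₀, hfr, hsp⟩ := exists_basis_mod (F := F) v (G ∪ C) D
  have hne : Nonempty ι := by
    by_contra hc
    rw [not_nonempty_iff] at hc
    rw [Nat.card_of_isEmpty] at hcard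
    exact Nat.not_lt_zero _ hcard
  obtain ⟨i0⟩ := hne
  have hvt : Sp F v (G ∪ C ∪ D₀) = ⊤ := by
    rw [hsp, hGD]
    apply Submodule.eq_top_of_finrank_eq
    rw [hsame i0 Finset.univ (Finset.Subset.refl _), htop i0, finrank_top]
  have hft : ∀ i, Sp F (f i) (G ∪ C ∪ D₀) = ⊤ := by
    intro i
    apply Submodule.eq_top_of_finrank_eq
    rw [← hsame i (G ∪ C ∪ D₀) (Finset.subset_univ _), hvt, finrank_top]
  have hff : ∀ i, Module.finrank F (Sp F (f i) (G ∪ C ∪ D₀)) =
      Module.finrank F (Sp F (f i) (G ∪ C)) + D₀.card := by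
    intro i
    rw [← hsame i (G ∪ C ∪ D₀) (Finset.subset_univ _),
      ← hsame i (G ∪ C) (Finset.subset_univ _), hfr]
  have hadj := fun i => exists_adjust (D₀ := D₀) (hagree i) hfr hvt (hff i) (hft i)
  choose g hgG hgD using hadj
  have hsame' : ∀ i, SameRk (F := F) (F' := F) Finset.univ v (fun x => g i (f i x)) := by
    intro i A hA
    rw [RepB1_Sp_map, LinearEquiv.finrank_map_eq]
    exact hsame i A hA
  have hgood : Good (rk F v (Sp F v (C ∪ D₀))) G :=
    good_shift (fun A hA => MixA3_shift v hfr hA) (good_of_threeR (rk_isRk v (Sp F v C)) h3)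
  have hYt : Module.finrank F (Sp F v (C ∪ D₀)) ≤ 2 * t := by
    have h1 := MixA3_finrank_le (F := F) v (C ∪ D₀)
    have h2 := Finset.card_union_le C D₀
    have h4 := Finset.card_le_card hD₀
    omega
  have hval : ∀ d ∈ D, (Set.range fun i => g i (f i d)).Finite ∧
      (Set.range fun i => g i (f i d)).ncard ≤ (K0 + 1) * 8 ^ (2 * t) := by
    intro d _
    refine ⟨Set.finite_range _, ?_⟩
    have h1 := hK0 F V α v (Sp F v (C ∪ D₀)) G (Set.range fun i => g i (f i d)) h8 hgood ?_ ?_
    · exact h1.trans (Nat.mul_le_mul (Nat.le_succ _) (Nat.pow_le_pow_right (by norm_num) hYt))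
    · intro h _
      rw [← Sp_union, ← Finset.union_assoc, hvt]
      exact Submodule.mem_top
    · rintro A hA _ ⟨i, rfl⟩ _ ⟨j, rfl⟩ hi
      rw [← Sp_union] at hi ⊢
      have hS : ∀ k, Sp F (fun x => g k (f k x)) (A ∪ (C ∪ D₀)) = Sp F v (A ∪ (C ∪ D₀)) := by
        intro k
        apply RepB1_Sp_congr
        intro x hx
        rcases Finset.mem_union.1 hx with hx | hx
        · exact hgG k x (Finset.mem_union_left _ (hA hx))
        · rcases Finset.mem_union.1 hx with hx | hx
          · exact hgG k x (Finset.mem_union_right _ hx)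
          · exact hgD k x hx
      have hm : ∀ k, v d ∈ Sp F v (A ∪ (C ∪ D₀)) ↔
          g k (f k d) ∈ Sp F (fun x => g k (f k x)) (A ∪ (C ∪ D₀)) := fun k =>
        (hsame' k).mem (Finset.subset_univ _) (Finset.mem_univ d)
      have h2 : g i (f i d) ∈ Sp F (fun x => g i (f i x)) (A ∪ (C ∪ D₀)) := by
        rw [hS i]; exact hi
      have h3 := (hm j).1 ((hm i).2 h2)
      rw [hS j] at h3
      exact h3
  have hB : ((K0 + 1) * 8 ^ (2 * t)) ^ D.card < Nat.card ι := by
    refine lt_of_le_of_lt (Nat.pow_le_pow_right ?_ hDt) hcard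
    positivity
  obtain ⟨i, j, hij, heq⟩ := pigeon (f := fun i x => g i (f i x)) hval hB
  refine ⟨i, j, hij, (g j).trans (g i).symm, fun x => ?_⟩
  have hx : g i (f i x) = g j (f j x) := by
    have hxu : x ∈ G ∪ C ∪ D := by rw [hGD]; exact Finset.mem_univ x
    rcases Finset.mem_union.1 hxu with hx | hx
    · rw [hgG i x hx, hgG j x hx]
    · exact heq x hx
  rw [LinearEquiv.trans_apply, ← hx, LinearEquiv.symm_apply_apply]

end Pool.MP_4929df_co.H92
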