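import Pool.Agent.W_4929df_h92.DualC2

/-!
Deletion of `D` and contraction of `C`: the bound.
-/

set_option autoImplicit false

namespace Pool.MP_4929df_co.H92

open Submodule

/-- spans are transferred along the embedding of the subtype -/
theorem MixB2_Sp {F : Type} [Field F] {V : Type} [AddCommGroup V] [Module F V] {α : Type}
    {D : Finset α} (w : α → V) (A : Finset {x // x ∉ D}) :
    Sp F (fun x : {x // x ∉ D} => w x.1) A =
      Sp F w (A.map (Function.Embedding.subtype (fun x => x ∉ D))) := by
  unfold Sp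
  rw [Finset.coe_map, Set.image_image]
  rfl

/-- extension by a constant -/
def MixB2_ext {F : Type} {α : Type} [DecidableEq α] {D : Finset α} (a : {x // x ∉ D} → F) (z : F)
    (x : α) : F := if h : x ∉ D then a ⟨x, h⟩ else z

theorem MixB2_ext_apply {F : Type} {α : Type} [DecidableEq α] {D : Finset α}
    (a : {x // x ∉ D} → F) (z : F) (x : {x // x ∉ D}) : MixB2_ext a z x.1 = a x := by
  unfold MixB2_ext
  rw [dif_pos x.2]

/-- Restriction to the elements outside `D` (a subtype): `contract_bound` for
`α' = {x // x ∉ D}` gives `i ≠ j` in `ι` with `f i x = c x • g (f j x)` for `x ∉ D`. (`C' =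
C.subtype _`, `Finset.univ \ C'` corresponds to `univ \ (C ∪ D)`; sums, spans and ranks are
transferred along the embedding of the subtype.) -/
theorem contract_bound_outside : ∃ K : ℕ, ∀ (t : ℕ) (F : Type) [Field F] (V : Type)
    [AddCommGroup V] [Module F V] [FiniteDimensional F V] (α : Type) [Fintype α] [DecidableEq α]
    (G C D : Finset α) (ι : Type) [Finite ι] (f : ι → α → V), Nat.card F = 8 →
    G ∪ C ∪ D = Finset.univ → Disjoint G C → Disjoint (G ∪ C) D → C.card ≤ t →
    (∀ i, ThreeR (rk F (f i) (Sp F (f i) C)) G) →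
    (∀ i j, SameRk (F := F) (F' := F) Finset.univ (f i) (f j)) →
    (∀ i j, EquivMod (F := F) C G (f i) (f j)) →
    (K * 8 ^ t) ^ t < Nat.card ι →
    ∃ i j, i ≠ j ∧ ∃ g : V ≃ₗ[F] V, ∃ c : α → F, (∀ x, c x ≠ 0) ∧
      ∀ x ∉ D, f i x = c x • g (f j x) := by
  obtain ⟨K, hK⟩ := contract_bound
  refine ⟨K, ?_⟩
  intro t F _ V _ _ _ α _ _ G C D ι _ f hF huniv hGC hD hC hT hrk heq hcard
  set C' : Finset {x // x ∉ D} := C.subtype (fun x => x ∉ D) with hC'
  have hCD : ∀ x ∈ C, x ∉ D := fun x hx hxD =>
    Finset.disjoint_left.1 hD (Finset.mem_union_right _ hx) hxD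
  have hGD : ∀ x ∈ G, x ∉ D := fun x hx hxD =>
    Finset.disjoint_left.1 hD (Finset.mem_union_left _ hx) hxD
  have hmC : C'.map (Function.Embedding.subtype (fun x => x ∉ D)) = C :=
    Finset.subtype_map_of_mem hCD
  have hmG : (Finset.univ \ C').map (Function.Embedding.subtype (fun x => x ∉ D)) = G := by
    ext x
    rw [Finset.mem_map]
    constructor
    · rintro ⟨y, hy, rfl⟩
      have h1 : y.1 ∉ C := by
        intro h2
        rw [Finset.mem_sdiff] at hy
        exact hy.2 (by rw [hC', Finset.mem_subtype]; exact h2)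
      have h3 : y.1 ∈ G ∪ C ∪ D := by rw [huniv]; exact Finset.mem_univ _
      rw [Finset.mem_union, Finset.mem_union] at h3
      rcases h3 with (h3 | h3) | h3
      · exact h3
      · exact absurd h3 h1
      · exact absurd h3 y.2
    · intro hx
      refine ⟨⟨x, hGD x hx⟩, ?_, rfl⟩
      rw [Finset.mem_sdiff, hC', Finset.mem_subtype]
      exact ⟨Finset.mem_univ _, fun h => Finset.disjoint_left.1 hGC hx h⟩
  have hmX : ∀ X : Finset {x // x ∉ D}, ((Finset.univ \ C') \ X).map
      (Function.Embedding.subtype (fun x => x ∉ D)) =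
      G \ X.map (Function.Embedding.subtype (fun x => x ∉ D)) := by
    intro X
    rw [Finset.map_sdiff, hmG]
  have hrk' : ∀ (i : ι) (X : Finset {x // x ∉ D}),
      rk F (fun x : {x // x ∉ D} => f i x.1) (Sp F (fun x : {x // x ∉ D} => f i x.1) C') X =
      rk F (f i) (Sp F (f i) C) (X.map (Function.Embedding.subtype (fun x => x ∉ D))) := by
    intro i X
    unfold rk
    rw [MixB2_Sp, MixB2_Sp, hmC]
  obtain ⟨i, j, hij, g, c, hc, hg⟩ := hK t F V {x // x ∉ D} C' ι
    (fun i x => f i x.1) hF
    (by rw [← Finset.card_map (Function.Embedding.subtype (fun x => x ∉ D)), hmC]; exact hC)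
    (by
      intro i X hX k hk h1 h2
      rw [hrk', hrk', hrk', hrk', hmG, hmX, Finset.map_empty]
      refine hT i _ ?_ k hk ?_ ?_
      · rw [← hmG]
        exact Finset.map_subset_map.2 hX
      · rw [Finset.card_map]
        exact h1
      · rw [← hmX, Finset.card_map]
        exact h2)
    (by
      intro i j A _
      rw [MixB2_Sp, MixB2_Sp]
      exact hrk i j _ (Finset.subset_univ _))
    (by
      intro i j
      obtain ⟨c, hc, h⟩ := heq i j
      refine ⟨fun x => c x.1, fun x => hc x.1, fun a => ?_⟩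
      have h1 := h (MixB2_ext a 0)
      rw [← hmG, Finset.sum_map, Finset.sum_map] at h1
      simp only [Function.Embedding.coe_subtype, MixB2_ext_apply] at h1
      rw [MixB2_Sp, MixB2_Sp, hmC]
      exact h1)
    hcard
  refine ⟨i, j, hij, g, MixB2_ext c 1, ?_, ?_⟩
  · intro x
    unfold MixB2_ext
    split_ifs with h
    · exact one_ne_zero
    · exact hc _
  · intro x hx
    have h1 := hg ⟨x, hx⟩
    have h2 := MixB2_ext_apply c 1 ⟨x, hx⟩
    rw [h2]
    exact h1

end Pool.MP_4929df_co.H92
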