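import Pool.Agent.W_4929df_h92.MixB
import Pool.Agent.W_4929df_h92.MixB2
import Pool.Agent.W_4929df_h92.MixA3

/-!
Deletion of `D` and contraction of `C`: the bound.
-/

set_option autoImplicit false

namespace Pool.MP_4929df_co.H92

open Submodule

/-- spans are invariant under scaling with nonzero factors -/
theorem MixB3_Sp_scale {F : Type} [Field F] {V : Type} [AddCommGroup V] [Module F V] {α : Type}
    {c : α → F} (hc : ∀ x, c x ≠ 0) (w : α → V) (A : Finset α) :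
    Sp F (fun x => c x • w x) A = Sp F w A := by
  apply le_antisymm
  · rw [Sp_le]
    intro x hx
    exact Submodule.smul_mem _ _ (mem_Sp hx)
  · rw [Sp_le]
    intro x hx
    have h1 : w x = (c x)⁻¹ • (c x • w x) := by
      rw [smul_smul, inv_mul_cancel₀ (hc x), one_smul]
    rw [h1]
    exact Submodule.smul_mem _ _ (mem_Sp (v := fun x => c x • w x) hx)

/-- spans of the scaled images under an automorphism -/
theorem MixB3_Sp_map {F : Type} [Field F] {V : Type} [AddCommGroup V] [Module F V] {α : Type}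
    {c : α → F} (hc : ∀ x, c x ≠ 0) (g : V ≃ₗ[F] V) (w : α → V) (A : Finset α) :
    Sp F (fun x => c x • g (w x)) A = (Sp F w A).map (g : V →ₗ[F] V) := by
  rw [MixB3_Sp_scale hc (fun x => g (w x)) A, RepB1_Sp_map]

/-- The mixed bound. `R i j`: `∃ g c, ∀ x ∉ D, f i x = c x • g (f j x)`; `contract_bound_outside`
(for subtypes of `ι`) gives the hypothesis of `class_pigeon` with `a = (K₁ * 8 ^ t) ^ t`;
`b = (K₂ * 8 ^ (2 * t)) ^ t` from `agree_boundC`. For `i₀` and the `i` related to it, normalise: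
`f i₀ x = c i x • g i (f i x)` for `x ∉ D`, and apply `agree_boundC` to `c i x • g i (f i x)` and
`v = f i₀` (`ι' = {i // R i₀ i}`). -/
theorem mixed_bound (t : ℕ) : ∃ k : ℕ, ∀ (F : Type) [Field F] (V : Type)
    [AddCommGroup V] [Module F V] [FiniteDimensional F V] (α : Type) [Fintype α] [DecidableEq α]
    (G C D : Finset α) (ι : Type) [Finite ι] (f : ι → α → V), Nat.card F = 8 →
    G ∪ C ∪ D = Finset.univ → Disjoint G C → Disjoint (G ∪ C) D → C.card ≤ t → D.card ≤ t →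
    (∀ i, ThreeR (rk F (f i) (Sp F (f i) C)) G) →
    (∀ i j, SameRk (F := F) (F' := F) Finset.univ (f i) (f j)) →
    (∀ i, Sp F (f i) Finset.univ = ⊤) →
    (∀ i j, EquivMod (F := F) C G (f i) (f j)) → k < Nat.card ι →
    ∃ i j, i ≠ j ∧ ∃ g : V ≃ₗ[F] V, ∃ c : α → F, (∀ x, c x ≠ 0) ∧ ∀ x, f i x = c x • g (f j x) := by
  obtain ⟨K₁, hK₁⟩ := contract_bound_outside
  obtain ⟨K₂, hK₂⟩ := agree_boundC
  refine ⟨(K₁ * 8 ^ t) ^ t * (K₂ * 8 ^ (2 * t)) ^ t, ?_⟩
  intro F _ V _ _ _ α _ _ G C D ι _ f h8 hGD hGC hGCD hCt hDt h3 hsame htop heq hcard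
  obtain ⟨i₀, hi₀⟩ := class_pigeon (ι := ι)
    (R := fun i j => ∃ g : V ≃ₗ[F] V, ∃ c : α → F, (∀ x, c x ≠ 0) ∧
      ∀ x ∉ D, f i x = c x • g (f j x))
    (fun i => ⟨LinearEquiv.refl F V, fun _ => 1, fun _ => one_ne_zero, fun x _ => by
      rw [one_smul, LinearEquiv.refl_apply]⟩)
    (by
      rintro i j ⟨g, c, hc, h⟩
      refine ⟨g.symm, fun x => (c x)⁻¹, fun x => inv_ne_zero (hc x), fun x hx => ?_⟩
      rw [h x hx, map_smul, LinearEquiv.symm_apply_apply, smul_smul, inv_mul_cancel₀ (hc x),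
        one_smul])
    (by
      intro T hT
      obtain ⟨i, j, hij, g, c, hc, h⟩ := hK₁ t F V α G C D T (fun i => f i.1) h8 hGD hGC hGCD hCt
        (fun i => h3 i.1) (fun i j => hsame i.1 j.1) (fun i j => heq i.1 j.1)
        (by rwa [Nat.card_coe_set_eq])
      exact ⟨i.1, i.2, j.1, j.2, fun h => hij (Subtype.ext h), g, c, hc, h⟩)
    hcard
  have hex : ∀ i : {i | ∃ g : V ≃ₗ[F] V, ∃ c : α → F, (∀ x, c x ≠ 0) ∧
      ∀ x ∉ D, f i₀ x = c x • g (f i x)}, ∃ g : V ≃ₗ[F] V, ∃ c : α → F, (∀ x, c x ≠ 0) ∧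
      ∀ x ∉ D, f i₀ x = c x • g (f i.1 x) := fun i => i.2
  choose g c hc hgc using hex
  obtain ⟨i, j, hij, u, hu⟩ := hK₂ t F V α (f i₀) G C D
    {i | ∃ g : V ≃ₗ[F] V, ∃ c : α → F, (∀ x, c x ≠ 0) ∧
      ∀ x ∉ D, f i₀ x = c x • g (f i x)} (fun i x => c i x • g i (f i.1 x)) h8 (h3 i₀) hGD hGC hGCD
    hCt hDt
    (by
      intro i A hA
      rw [MixB3_Sp_map (hc i), LinearEquiv.finrank_map_eq]
      exact hsame i₀ i.1 A hA)
    (by
      intro i
      rw [MixB3_Sp_map (hc i), htop i.1, Submodule.map_top, LinearEquiv.range])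
    (by
      intro i x hx
      exact (hgc i x (Finset.disjoint_left.1 hGCD hx)).symm)
    (by rwa [Nat.card_coe_set_eq])
  refine ⟨i.1, j.1, fun h => hij (Subtype.ext h), ((g j).trans u).trans (g i).symm,
    fun x => (c i x)⁻¹ * c j x, fun x => mul_ne_zero (inv_ne_zero (hc i x)) (hc j x), fun x => ?_⟩
  have h1 : f i.1 x = (c i x)⁻¹ • (g i).symm (c i x • g i (f i.1 x)) := by
    rw [map_smul, LinearEquiv.symm_apply_apply, smul_smul, inv_mul_cancel₀ (hc i x), one_smul]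
  rw [h1]
  have h2 := hu x
  rw [h2, map_smul, map_smul, smul_smul, LinearEquiv.trans_apply, LinearEquiv.trans_apply]

end Pool.MP_4929df_co.H92
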