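import Pool.Agent.W_4929df_h92.DualDefs

/-!
3-connectivity for the contraction of one element.
-/

set_option autoImplicit false

namespace Pool.MP_4929df_co.H92

open Submodule

variable {F : Type} [Field F] {V : Type} [AddCommGroup V] [Module F V] [FiniteDimensional F V]
  {α : Type} [DecidableEq α]

theorem MixC2_key {r : Finset α → ℕ} (hr : IsRk r) {U X Z : Finset α} {e : α} (j : ℕ)
    (h0 : r ∅ = 0)
    (h4 : r U + (j + 1) ≤ r X + r (insert e Z)) :
    r U + r {e} + j ≤ r (insert e X) + r (insert e Z) := by
  have h1 := hr.mono X (insert e X) (Finset.subset_insert _ _)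
  have h2 := hr.le_card {e}
  rw [h0, Finset.card_singleton] at h2
  omega

omit [FiniteDimensional F V] in
theorem MixC2_fin [Fintype α] {v : α → V}
    (h : ∀ X : Set α, ∀ j : ℕ, j < 4 → j ≤ X.ncard → j ≤ Xᶜ.ncard →
      Module.finrank F (span F (Set.range v)) + j ≤
        Module.finrank F (span F (v '' X)) + Module.finrank F (span F (v '' Xᶜ)))
    (A : Finset α) {j : ℕ} (hj : j < 4) (hA : j ≤ A.card) (hB : j ≤ Aᶜ.card) :
    rk F v (⊥ : Submodule F V) Finset.univ + j ≤
      rk F v (⊥ : Submodule F V) A + rk F v (⊥ : Submodule F V) Aᶜ := by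
  have key := h (A : Set α) j hj (by rw [Set.ncard_coe_finset]; exact hA)
    (by rw [← Finset.coe_compl, Set.ncard_coe_finset]; exact hB)
  rw [← Finset.coe_compl] at key
  rw [RepA1_rk, RepA1_rk, RepA1_rk]
  unfold Sp
  rw [Finset.coe_univ, Set.image_univ]
  exact key

/-- `M` 4-connected with at least 6 elements, `e ∈ M`: the contraction `M / e` is 3-connected
(compare `three_of_four` in RepC.lean). Let `R A = finrank (span (v '' A))`. For `X ⊆ univ \ {e}`,
`Z = univ \ {e} \ X`, `j ≤ 2`, `j ≤ X.card`, `j ≤ Z.card`; claim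
`R univ + R {e} + j ≤ R (insert e X) + R (insert e Z)`. If `j = 0`: submodularity. For `j = 1, 2` one
of `X, Z`, say `X`, has at least `3 ≥ j + 1` elements; 4-connectivity for `X` and its complement
`insert e Z` with `j + 1`: `R univ + j + 1 ≤ R X + R (insert e Z)`, and
`R X ≤ R (insert e X)`, `R {e} ≤ 1`. Here `rk F v (Sp F v {e}) A = R (A ∪ {e})`. -/
theorem threeR_of_four [Fintype α] {v : α → V} (h6 : 6 ≤ Fintype.card α)
    (h : ∀ X : Set α, ∀ j : ℕ, j < 4 → j ≤ X.ncard → j ≤ Xᶜ.ncard →
      Module.finrank F (span F (Set.range v)) + j ≤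
        Module.finrank F (span F (v '' X)) + Module.finrank F (span F (v '' Xᶜ))) (e : α) :
    ThreeR (rk F v (Sp F v {e})) (Finset.univ.erase e) := by
  have hct : rk F v (Sp F v {e}) = ct (rk F v (⊥ : Submodule F V)) {e} := by
    rw [ct_rk, sup_bot_eq]
  have hr := rk_isRk v (⊥ : Submodule F V)
  have h0 : rk F v (⊥ : Submodule F V) ∅ = 0 := by rw [rk_empty, finrank_bot]
  rw [hct]
  intro X hX j hj hXj hZj
  have heX : e ∉ X := fun he => by simpa using hX he
  have hU : Finset.univ.erase e ∪ {e} = (Finset.univ : Finset α) := by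
    ext a; simp only [Finset.mem_union, Finset.mem_erase, Finset.mem_singleton,
      Finset.mem_univ, and_true, iff_true]; tauto
  have hX1 : X ∪ {e} = insert e X := by
    ext a; simp only [Finset.mem_union, Finset.mem_singleton, Finset.mem_insert]; tauto
  have hZ1 : (Finset.univ.erase e \ X) ∪ {e} = insert e (Finset.univ.erase e \ X) := by
    ext a; simp only [Finset.mem_union, Finset.mem_singleton, Finset.mem_insert]; tauto
  have hXc : Xᶜ = insert e (Finset.univ.erase e \ X) := by
    ext a
    simp only [Finset.mem_compl, Finset.mem_insert, Finset.mem_sdiff, Finset.mem_erase,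
      Finset.mem_univ, and_true]
    by_cases ha : a = e
    · subst ha; simp [heX]
    · simp [ha]
  have hZc : (Finset.univ.erase e \ X)ᶜ = insert e X := by
    ext a
    simp only [Finset.mem_compl, Finset.mem_insert, Finset.mem_sdiff, Finset.mem_erase,
      Finset.mem_univ, and_true]
    tauto
  have heZ : e ∉ Finset.univ.erase e \ X := by simp
  have hcX : (insert e X).card = X.card + 1 := Finset.card_insert_of_notMem heX
  have hcZ : (insert e (Finset.univ.erase e \ X)).card = (Finset.univ.erase e \ X).card + 1 :=
    Finset.card_insert_of_notMem heZ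
  have hsum : X.card + (Finset.univ.erase e \ X).card + 1 = Fintype.card α := by
    have h1 := Finset.card_compl_add_card X
    rw [hXc, hcZ] at h1
    omega
  show rk F v (⊥ : Submodule F V) (Finset.univ.erase e ∪ {e}) +
      rk F v (⊥ : Submodule F V) (∅ ∪ {e}) + j ≤
    rk F v (⊥ : Submodule F V) (X ∪ {e}) +
      rk F v (⊥ : Submodule F V) ((Finset.univ.erase e \ X) ∪ {e})
  rw [hU, hX1, hZ1, Finset.empty_union]
  by_cases hj0 : j = 0
  · subst hj0
    have h2 := hr.sub4 (A := insert e X) (B := insert e (Finset.univ.erase e \ X))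
      (C := Finset.univ) (D := {e})
      (by
        intro a _
        simp only [Finset.mem_union, Finset.mem_insert, Finset.mem_sdiff, Finset.mem_erase,
          Finset.mem_univ, and_true]
        tauto)
      (by
        intro a ha
        simp only [Finset.mem_singleton] at ha
        subst ha
        simp)
    omega
  · by_cases hX3 : 3 ≤ X.card
    · refine MixC2_key hr j h0 ?_
      have := MixC2_fin h X (j := j + 1) (by omega) (by omega) (by rw [hXc, hcZ]; omega)
      rw [hXc] at this
      exact this
    · have h3 := MixC2_fin h (Finset.univ.erase e \ X) (j := j + 1) (by omega) (by omega)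
        (by rw [hZc, hcX]; omega)
      rw [hZc] at h3
      have := MixC2_key hr (U := Finset.univ) (X := Finset.univ.erase e \ X) (Z := X) (e := e) j
        h0 h3
      omega

/-- `Three` (stated with sets) as `ThreeR` with `C = ∅`: `rk F v (Sp F v ∅) A = finrank (Sp F v A)`,
`rk ∅ = 0` -/
theorem threeR_of_three {v : α → V} {G : Finset α} (h : Three (F := F) v G) :
    ThreeR (rk F v (Sp F v ∅)) G := by
  intro X hX j hj hXj hZj
  rw [Sp_empty, rk_empty, finrank_bot, RepA1_rk, RepA1_rk, RepA1_rk, add_zero]
  exact RepA1_three h (Finset.union_sdiff_of_subset hX) Finset.disjoint_sdiff hj hXj hZj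

end Pool.MP_4929df_co.H92
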