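import Pool.Agent.W_4929df_h92.MixC
import Pool.Agent.W_4929df_h92.MixC2
import Pool.Agent.W_4929df_h92.MixB3
import Pool.Agent.W_4929df_h92.Final

/-!
The theorem for deletion of `D` and contraction of `C`.
-/

set_option autoImplicit false

namespace Pool.MP_4929df_co.H92

/-- the rank of `X` in the matroid of the vectors `v` -/
noncomputable def rank {E : Type} {m : ℕ} (v : E → (Fin m → GaloisField 2 3)) (X : Set E) : ℕ :=
  Module.finrank (GaloisField 2 3) (Submodule.span (GaloisField 2 3) (v '' X))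

/-- the minor (delete `D`, contract `C`) is 3-connected -/
def ThreeMinor {E : Type} {m : ℕ} (v : E → (Fin m → GaloisField 2 3)) (C D : Set E) : Prop :=
  ∀ X : Set E, X ⊆ (C ∪ D)ᶜ → ∀ j : ℕ, j < 3 → j ≤ X.ncard → j ≤ ((C ∪ D)ᶜ \ X).ncard →
    rank v ((C ∪ D)ᶜ ∪ C) + rank v C + j ≤ rank v (X ∪ C) + rank v (((C ∪ D)ᶜ \ X) ∪ C)

/-- the minor (delete `D`, contract `C`) is binary -/
def BinaryMinor {E : Type} {m : ℕ} (v : E → (Fin m → GaloisField 2 3)) (C D : Set E) : Prop :=
  ∃ (n : ℕ) (u : E → (Fin n → ZMod 2)), ∀ X : Set E, X ⊆ (C ∪ D)ᶜ →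
    rank v (X ∪ C) = rank v C + Module.finrank (ZMod 2) (Submodule.span (ZMod 2) (u '' X))

/-- the representations of the minor given by `w` and `w'` are equivalent -/
def EquivMinor {E : Type} {r : ℕ} (C D : Set E) (w w' : E → (Fin r → GaloisField 2 3)) : Prop :=
  ∃ g : ((Fin r → GaloisField 2 3) ⧸ Submodule.span (GaloisField 2 3) (w' '' C)) ≃ₗ[GaloisField 2 3]
      ((Fin r → GaloisField 2 3) ⧸ Submodule.span (GaloisField 2 3) (w '' C)),
    ∃ c : E → GaloisField 2 3, (∀ e, c e ≠ 0) ∧ ∀ e, e ∉ C ∪ D →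
      (Submodule.span (GaloisField 2 3) (w '' C)).mkQ (w e) =
        c e • g ((Submodule.span (GaloisField 2 3) (w' '' C)).mkQ (w' e))

/-- The final theorem, mixed version. -/
theorem final2 (t : ℕ) : ∃ k : ℕ, ∀ (E : Type) [Fintype E] (m : ℕ)
    (v : E → (Fin m → GaloisField 2 3)) (C D : Set E), Disjoint C D → C.ncard ≤ t → D.ncard ≤ t →
    (ThreeMinor v C D ∨ ((C ∪ D).ncard = 1 ∧ FourConn v)) →
    ∀ r : ℕ, ∀ w : Fin (k + 1) → E → (Fin r → GaloisField 2 3),
      (∀ i, Submodule.span (GaloisField 2 3) (Set.range (w i)) = ⊤ ∧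
        ∀ S : Set E, (LinearIndependent (GaloisField 2 3) (fun s : S => w i (s : E)) ↔
          LinearIndependent (GaloisField 2 3) (fun s : S => v (s : E)))) →
      (BinaryMinor v C D ∨ ∀ i j, EquivMinor C D (w i) (w j)) →
      ∃ i j : Fin (k + 1), i ≠ j ∧
        ∃ g : (Fin r → GaloisField 2 3) ≃ₗ[GaloisField 2 3] (Fin r → GaloisField 2 3),
        ∃ c : E → GaloisField 2 3, (∀ e, c e ≠ 0) ∧ ∀ e, w i e = c e • g (w j e) := by
  classical
  obtain ⟨k0, hk0⟩ := mixed_bound t
  refine ⟨max k0 (8 ^ 25), ?_⟩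
  intro E _ m v C D hCD hC hD hcase r w hw hbin
  have h8 : Nat.card (GaloisField 2 3) = 8 := by
    rw [GaloisField.card 2 3 (by norm_num)]; norm_num
  have hcard : Nat.card (Fin (max k0 (8 ^ 25) + 1)) = max k0 (8 ^ 25) + 1 := by
    rw [Nat.card_eq_fintype_card, Fintype.card_fin]
  have hc1 : k0 < Nat.card (Fin (max k0 (8 ^ 25) + 1)) := by
    rw [hcard]; exact Nat.lt_succ_of_le (le_max_left _ _)
  have hc2 : 8 ^ 25 < Nat.card (Fin (max k0 (8 ^ 25) + 1)) := by
    rw [hcard]; exact Nat.lt_succ_of_le (le_max_right _ _)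
  generalize hk : max k0 (8 ^ 25) = k at w hw hbin hc1 hc2 hcard ⊢
  have hrk : ∀ i, ∀ X : Set E,
      Module.finrank (GaloisField 2 3) (Submodule.span (GaloisField 2 3) (w i '' X)) =
      rank v X := by
    intro i X
    have h := sameRk_of_indep (F := GaloisField 2 3) (F' := GaloisField 2 3) (w := w i) (w' := v)
      (G := Finset.univ) (fun S _ => (hw i).2 S) X.toFinset (Finset.subset_univ _)
    unfold Sp at h
    rw [Set.coe_toFinset] at h
    exact h
  have hsame : ∀ i j, SameRk (F := GaloisField 2 3) (F' := GaloisField 2 3) Finset.univ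
      (w i) (w j) := by
    intro i j
    exact sameRk_of_indep (fun S _ => ((hw i).2 S).trans ((hw j).2 S).symm)
  have hspan : ∀ i, Sp (GaloisField 2 3) (w i) Finset.univ = ⊤ := by
    intro i
    unfold Sp
    rw [Finset.coe_univ, Set.image_univ]
    exact (hw i).1
  have hSpC : ∀ i, Sp (GaloisField 2 3) (w i) C.toFinset =
      Submodule.span (GaloisField 2 3) (w i '' C) := by
    intro i
    unfold Sp
    rw [Set.coe_toFinset]
  have hrkC : ∀ i, ∀ A : Finset E,
      rk (GaloisField 2 3) (w i) (Sp (GaloisField 2 3) (w i) C.toFinset) A =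
        rank v ((A : Set E) ∪ C) := by
    intro i A
    unfold rk
    rw [← Sp_union, ← hrk i]
    unfold Sp
    rw [Finset.coe_union, Set.coe_toFinset]
  have hunion : ((C ∪ D)ᶜ).toFinset ∪ C.toFinset ∪ D.toFinset = Finset.univ := by
    ext x
    simp only [Finset.mem_union, Set.mem_toFinset, Set.mem_compl_iff, Set.mem_union,
      Finset.mem_univ, iff_true]
    tauto
  have hd1 : Disjoint ((C ∪ D)ᶜ).toFinset C.toFinset := by
    rw [Set.disjoint_toFinset]
    exact (disjoint_compl_left).mono_right Set.subset_union_left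
  have hd2 : Disjoint (((C ∪ D)ᶜ).toFinset ∪ C.toFinset) D.toFinset := by
    rw [Finset.disjoint_union_left, Set.disjoint_toFinset, Set.disjoint_toFinset]
    exact ⟨(disjoint_compl_left).mono_right Set.subset_union_right, hCD⟩
  have hequiv : ∀ i j, EquivMod (F := GaloisField 2 3) C.toFinset ((C ∪ D)ᶜ).toFinset
      (w i) (w j) := by
    intro i j
    rcases hbin with ⟨n, u, hu⟩ | hE
    · refine equivMod_of_binary (u := u) ?_ ?_
      · intro A hA
        have h1 := hu (A : Set E) (by
          intro x hx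
          have := hA (Finset.mem_coe.1 hx)
          rwa [Set.mem_toFinset] at this)
        rw [← hrk i, ← hrk i] at h1
        unfold Sp
        rw [Finset.coe_union, Set.coe_toFinset]
        exact h1
      · intro A hA
        have h1 := hu (A : Set E) (by
          intro x hx
          have := hA (Finset.mem_coe.1 hx)
          rwa [Set.mem_toFinset] at this)
        rw [← hrk j, ← hrk j] at h1
        unfold Sp
        rw [Finset.coe_union, Set.coe_toFinset]
        exact h1
    · obtain ⟨g, c, hc, h⟩ := hE i j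
      have key : ∀ (W W' : Submodule (GaloisField 2 3) (Fin r → GaloisField 2 3)),
          Sp (GaloisField 2 3) (w i) C.toFinset = W → Sp (GaloisField 2 3) (w j) C.toFinset = W' →
          ∀ g : ((Fin r → GaloisField 2 3) ⧸ W') ≃ₗ[GaloisField 2 3]
            ((Fin r → GaloisField 2 3) ⧸ W),
          (∀ e, e ∉ C ∪ D → W.mkQ (w i e) = c e • g (W'.mkQ (w j e))) →
          EquivMod (F := GaloisField 2 3) C.toFinset ((C ∪ D)ᶜ).toFinset (w i) (w j) := by
        rintro _ _ rfl rfl g' h'
        exact equivMod_of_quot g' hc (fun x hx => h' x (by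
          rw [Set.mem_toFinset] at hx
          exact hx))
      exact key _ _ (hSpC i) (hSpC j) g h
  have hmain : (∀ i, ThreeR (rk (GaloisField 2 3) (w i)
      (Sp (GaloisField 2 3) (w i) C.toFinset)) ((C ∪ D)ᶜ).toFinset) →
      ∃ i j : Fin (k + 1), i ≠ j ∧
        ∃ g : (Fin r → GaloisField 2 3) ≃ₗ[GaloisField 2 3] (Fin r → GaloisField 2 3),
        ∃ c : E → GaloisField 2 3, (∀ e, c e ≠ 0) ∧ ∀ e, w i e = c e • g (w j e) := by
    intro hthree
    refine hk0 (GaloisField 2 3) (Fin r → GaloisField 2 3) E ((C ∪ D)ᶜ).toFinset C.toFinset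
      D.toFinset (Fin (k + 1)) w h8 hunion hd1 hd2 ?_ ?_ hthree hsame hspan hequiv hc1
    · rw [← Set.ncard_eq_toFinset_card']; exact hC
    · rw [← Set.ncard_eq_toFinset_card']; exact hD
  rcases hcase with h3 | ⟨hCD1, h4⟩
  · apply hmain
    intro i X hX j hj hX1 hX2
    have hXs : (X : Set E) ⊆ (C ∪ D)ᶜ := by
      intro x hx
      have := hX (Finset.mem_coe.1 hx)
      rwa [Set.mem_toFinset] at this
    have hdiff : ((((C ∪ D)ᶜ).toFinset \ X : Finset E) : Set E) = (C ∪ D)ᶜ \ (X : Set E) := by
      rw [Finset.coe_sdiff, Set.coe_toFinset]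
    rw [hrkC, hrkC, hrkC, hrkC, hdiff, Set.coe_toFinset, Finset.coe_empty, Set.empty_union]
    refine h3 X hXs j hj ?_ ?_
    · rwa [Set.ncard_coe_finset]
    · rwa [← hdiff, Set.ncard_coe_finset]
  · by_cases h5 : Fintype.card E ≤ 5
    · obtain ⟨i, j, hij, h⟩ := small_case h8 h5 (w := w) (fun i => (hw i).1) hc2
      refine ⟨i, j, hij, LinearEquiv.refl _ _, fun _ => 1, fun _ => one_ne_zero, fun x => ?_⟩
      rw [h, one_smul, LinearEquiv.refl_apply]
    · obtain ⟨e, he⟩ := Set.ncard_eq_one.1 hCD1
      have h4' : ∀ i, ∀ X : Set E, ∀ j : ℕ, j < 4 → j ≤ X.ncard → j ≤ Xᶜ.ncard →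
          Module.finrank (GaloisField 2 3)
            (Submodule.span (GaloisField 2 3) (Set.range (w i))) + j ≤
          Module.finrank (GaloisField 2 3) (Submodule.span (GaloisField 2 3) (w i '' X)) +
          Module.finrank (GaloisField 2 3) (Submodule.span (GaloisField 2 3) (w i '' Xᶜ)) := by
        intro i X j hj hX1 hX2
        rw [← Set.image_univ, hrk, hrk, hrk]
        unfold rank
        rw [Set.image_univ]
        exact h4 X j hj hX1 hX2
      have hG : ((C ∪ D)ᶜ).toFinset = Finset.univ.erase e := by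
        ext x
        rw [Set.mem_toFinset, he]
        simp
      have hcase2 : (C = {e} ∧ D = ∅) ∨ (C = ∅ ∧ D = {e}) := by
        rcases C.eq_empty_or_nonempty with hC0 | hC0
        · right
          rw [hC0, Set.empty_union] at he
          exact ⟨hC0, he⟩
        · left
          have h6 : C = {e} := (Set.Nonempty.subset_singleton_iff hC0).1
            (Set.subset_union_left.trans he.subset)
          refine ⟨h6, Set.eq_empty_of_forall_notMem fun x hx => ?_⟩
          have h7 : x = e := by
            have : x ∈ C ∪ D := Or.inr hx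
            rw [he] at this
            exact this
          subst h7
          exact Set.disjoint_left.1 hCD (by rw [h6]; rfl) hx
      apply hmain
      intro i
      rw [hG]
      rcases hcase2 with ⟨h6, h7⟩ | ⟨h6, h7⟩
      · have h8' := threeR_of_four (by omega) (h4' i) e
        convert h8' using 2
        unfold Sp
        rw [Set.coe_toFinset, h6, Finset.coe_singleton]
      · have h8' := threeR_of_three (three_of_four (by omega) (h4' i) e)
        convert h8' using 2
        unfold Sp
        rw [Set.coe_toFinset, h6, Finset.coe_empty]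

end Pool.MP_4929df_co.H92
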