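import Pool.Agent.W_4929df_h92.BrwK1
import Pool.Agent.W_4929df_h92.Final2

/-!
The branch-width theorem for representations as in the frozen statement (proofs row 608).
-/

set_option autoImplicit false

namespace Pool.MP_4929df_co.H92

open Submodule

/-- the leaves of a tree as a list -/
def BTree.leaves {E : Type} : BTree E → List E
  | .leaf e => [e]
  | .node l r => l.leaves ++ r.leaves

/-- the displayed sets: the sets of leaves of the subtrees -/
def BTree.Displays {E : Type} : BTree E → Set E → Prop
  | .leaf e, X => X = {e}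
  | .node l r, X => X = {x | x ∈ l.leaves ++ r.leaves} ∨ l.Displays X ∨ r.Displays X

theorem BTree.mem_els {E : Type} [DecidableEq E] {t : BTree E} {x : E} :
    x ∈ t.els ↔ x ∈ t.leaves := by
  induction t with
  | leaf e => simp [BTree.els, BTree.leaves]
  | node l r ihl ihr => simp [BTree.els, BTree.leaves, ihl, ihr]

theorem BTree.good {E : Type} [DecidableEq E] {t : BTree E} (h : t.leaves.Nodup) : t.Good := by
  induction t with
  | leaf e => trivial
  | node l r ihl ihr =>
    have h1 : (l.leaves ++ r.leaves).Nodup := h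
    obtain ⟨h2, h3, h4⟩ := List.nodup_append'.1 h1
    refine ⟨Finset.disjoint_left.2 fun x hx hx' => ?_, ihl h2, ihr h3⟩
    exact h4 (BTree.mem_els.1 hx) (BTree.mem_els.1 hx')

theorem BTree.all_of_displays {E : Type} [DecidableEq E] {P : Finset E → Prop}
    {t : BTree E} (h : ∀ X : Finset E, t.Displays (X : Set E) → P X) : t.All P := by
  induction t with
  | leaf e =>
    refine h {e} ?_
    show ((({e} : Finset E) : Set E)) = {e}
    exact Finset.coe_singleton e
  | node l r ihl ihr =>
    refine ⟨h _ (Or.inl ?_), ihl fun X hX => h X (Or.inr (Or.inl hX)),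
      ihr fun X hX => h X (Or.inr (Or.inr hX))⟩
    ext x
    simp only [Finset.coe_union, Set.mem_union, Finset.mem_coe, BTree.mem_els, Set.mem_setOf_eq,
      List.mem_append]

/-- `branch_nA` for `F = GaloisField 2 3`, `V = Fin r → F`, `w₀ = w 0`, as `final6` in `ChnS.lean`: the
rank function of all `w i` is the one of `v` (`sameRk_of_indep`), `Four F (w 0)` from `FourConn v`,
`finrank (Gd F (w 0) X) + rank v univ = rank v X + rank v Xᶜ` (`finrank_Gd`). If all pairs `w i`,
`w j`, `i ≠ j`, are inequivalent then `le_nA` with `Fin (K + 1)` gives `K + 1 ≤ nA F (w 0) univ`.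
`EqA F univ (w j) (w i)` is the conclusion. -/
theorem final7 (k : ℕ) : ∃ K : ℕ, ∀ (E : Type) [Fintype E] (m : ℕ)
    (v : E → (Fin m → GaloisField 2 3)) (t : BTree E), FourConn v → t.leaves.Nodup →
    (∀ e, e ∈ t.leaves) →
    (∀ X, t.Displays X → rank v X + rank v Xᶜ ≤ rank v Set.univ + k) →
    ∀ r : ℕ, ∀ w : Fin (K + 1) → E → (Fin r → GaloisField 2 3),
      (∀ i, Submodule.span (GaloisField 2 3) (Set.range (w i)) = ⊤ ∧
        ∀ S : Set E, (LinearIndependent (GaloisField 2 3) (fun s : S => w i (s : E)) ↔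
          LinearIndependent (GaloisField 2 3) (fun s : S => v (s : E)))) →
      ∃ i j : Fin (K + 1), i ≠ j ∧
        ∃ g : (Fin r → GaloisField 2 3) ≃ₗ[GaloisField 2 3] (Fin r → GaloisField 2 3),
        ∃ c : E → GaloisField 2 3, (∀ e, c e ≠ 0) ∧ ∀ e, w i e = c e • g (w j e) := by
  classical
  have h8 : Nat.card (GaloisField 2 3) = 8 := by
    rw [GaloisField.card 2 3 (by norm_num)]; norm_num
  haveI hfin : Finite (GaloisField 2 3) := Nat.finite_of_card_ne_zero (by rw [h8]; norm_num)
  obtain ⟨K, hK⟩ := branch_nA (GaloisField 2 3) h8 k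
  refine ⟨K, ?_⟩
  intro E _ m v t hfour hnd hall hdis r w hw
  have hrk : ∀ i, ∀ S : Finset E, Module.finrank (GaloisField 2 3) (Sp (GaloisField 2 3) (w i) S) =
      rank v (S : Set E) := fun i S =>
    sameRk_of_indep (F := GaloisField 2 3) (F' := GaloisField 2 3) (w := w i) (w' := v)
      (G := Finset.univ) (fun S _ => (hw i).2 S) S (Finset.subset_univ _)
  have hsame : ∀ i, SameR (GaloisField 2 3) (w 0) (w i) := fun i S => (hrk 0 S).trans (hrk i S).symm
  have hels : t.els = Finset.univ := by
    ext x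
    exact ⟨fun _ => Finset.mem_univ x, fun _ => BTree.mem_els.2 (hall x)⟩
  have hw0 : ∀ X : Finset E, rk (GaloisField 2 3) (w 0) ⊥ X = rank v (X : Set E) := by
    intro X
    unfold rk
    rw [sup_bot_eq]
    exact hrk 0 X
  have hA : t.All (fun X => Module.finrank (GaloisField 2 3) (Gd (GaloisField 2 3) (w 0) X) ≤ k) := by
    refine BTree.all_of_displays fun X hX => ?_
    have h1 := finrank_Gd (F := GaloisField 2 3) (w 0) X
    rw [hw0, hw0, hw0, Finset.coe_univ, Finset.coe_compl] at h1
    have h2 := hdis _ hX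
    omega
  have hF : Four (GaloisField 2 3) (w 0) := by
    intro P j hj h1 h2
    rw [hrk, hrk, hrk, Finset.coe_univ, Finset.coe_compl]
    have h3 := hfour (P : Set E) j hj (by rwa [Set.ncard_coe_finset])
      (by rwa [← Finset.coe_compl, Set.ncard_coe_finset])
    rw [← Set.image_univ] at h3
    exact h3
  have h1 := hK E (Fin r → GaloisField 2 3) (w 0) t (BTree.good hnd) hA hF
  rw [hels] at h1
  by_contra hne
  have h2 : K + 1 ≤ nA (GaloisField 2 3) (w 0) Finset.univ := by
    refine le_nA (fun i => ⟨w i, hsame i⟩) ?_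
    rintro i j hij ⟨g, c, hc, -⟩
    exact hne ⟨j, i, hij.symm, g, c, fun e => (hc e (Finset.mem_univ e)).1,
      fun e => (hc e (Finset.mem_univ e)).2⟩
  omega

end Pool.MP_4929df_co.H92
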