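import Mathlib

/-!
Shortening of paths by pivots, abstractly.
-/

set_option autoImplicit false

namespace Pool.MP_4929df_co.H92

/-- reachable from the start vertices by a path with `k` edges -/
def Rch {E : Type} (adj : E → E → Prop) (start : E → Prop) : ℕ → E → Prop
  | 0, v => start v
  | k + 1, v => ∃ u, Rch adj start k u ∧ adj u v

/-- States `σ` with graphs, start vertices and far vertices. `hstep`: if `v` is far, adjacent to `u`
which is neither far nor a start vertex, and no start vertex is adjacent to `u` or `v`, then there is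
another state such that start vertices stay start vertices, edges `d e` not touching `u`, `v`, with
`d`, `e` not adjacent to `v`, stay edges, and neighbours of `u` that are neither far nor start
vertices become far. Conclusion: if a far vertex can be reached in some state then there is a state
with a path of length 0, 1 or 2 to a far vertex.

Proof: strong induction on `k`, the least length of a path from a start vertex to a far vertex of the
state `S` (for all `S`). If `k ≤ 2` we are done. If `k ≥ 3` let `t`, `u`, `v` be the last three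
vertices, `t` in `Rch (k - 2)`, `u` in `Rch (k - 1)`, `v` far. By minimality `t`, `u` are not far, not
start vertices, no start vertex is adjacent to `u` or `v`, no vertex of `Rch j`, `j ≤ k - 2`, is
adjacent to `v`, and `u`, `v` are not in `Rch j` for `j ≤ k - 2`. In the new state every vertex of
`Rch j`, `j ≤ k - 2`, is still in `Rch j` (induction on `j`), and `t` is far. -/
theorem path_red {σ E : Type} (adj : σ → E → E → Prop) (start far : σ → E → Prop)
    (hsymm : ∀ S d e, adj S d e → adj S e d)
    (hstep : ∀ S u v, adj S u v → far S v → ¬ far S u → ¬ start S u → ¬ start S v →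
      (∀ d, start S d → ¬ adj S d u ∧ ¬ adj S d v ∧ ¬ far S d) →
      ∃ S', (∀ d, start S d → start S' d) ∧
        (∀ d e, adj S d e → d ≠ u → d ≠ v → e ≠ u → e ≠ v → ¬ adj S d v → ¬ adj S e v →
          adj S' d e) ∧
        ∀ t, adj S t u → ¬ far S t → ¬ start S t → far S' t)
    {S : σ} (h : ∃ k v, Rch (adj S) (start S) k v ∧ far S v) :
    ∃ S', (∃ v, start S' v ∧ far S' v) ∨
      (∃ c v, start S' c ∧ adj S' c v ∧ far S' v ∧ ∀ d, start S' d → ¬ far S' d) ∨
      ∃ c u v, start S' c ∧ adj S' c u ∧ adj S' u v ∧ far S' v ∧ ¬ far S' u ∧ ¬ start S' u ∧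
        ∀ d, start S' d → ¬ far S' d ∧ ¬ adj S' d v := by
  obtain ⟨k, hk⟩ := h
  induction k using Nat.strong_induction_on generalizing S with
  | _ k ih =>
    by_cases hmin : ∃ j, j < k ∧ ∃ v, Rch (adj S) (start S) j v ∧ far S v
    · obtain ⟨j, hj, hv⟩ := hmin
      exact ih j hj hv
    have hm : ∀ j, j < k → ∀ v, Rch (adj S) (start S) j v → ¬ far S v :=
      fun j hj v h1 h2 => hmin ⟨j, hj, v, h1, h2⟩
    obtain ⟨v, hv, hf⟩ := hk
    match k, ih, hm, hv with
    | 0, _, _, hv => exact ⟨S, Or.inl ⟨v, hv, hf⟩⟩
    | 1, _, hm, hv =>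
      obtain ⟨u, hu, huv⟩ := hv
      exact ⟨S, Or.inr (Or.inl ⟨u, v, hu, huv, hf, fun d hd => hm 0 one_pos d hd⟩)⟩
    | 2, _, hm, hv =>
      obtain ⟨u, ⟨c, hc, hcu⟩, huv⟩ := hv
      refine ⟨S, Or.inr (Or.inr ⟨c, u, v, hc, hcu, huv, hf, ?_, ?_, fun d hd => ⟨?_, ?_⟩⟩)⟩
      · exact hm 1 (by omega) u ⟨c, hc, hcu⟩
      · intro hu
        exact hm 1 (by omega) v ⟨u, hu, huv⟩ hf
      · exact hm 0 (by omega) d hd
      · intro hdv
        exact hm 1 (by omega) v ⟨d, hd, hdv⟩ hf
    | m + 3, ih, hm, hv =>
      obtain ⟨u, hu, huv⟩ := hv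
      obtain ⟨t, ht, htu⟩ := hu
      have hu : Rch (adj S) (start S) (m + 2) u := ⟨t, ht, htu⟩
      -- a path to `u` of length `j` gives one to `v` of length `j + 1`
      have hno : ∀ j, j + 1 < m + 3 → ¬ Rch (adj S) (start S) j u :=
        fun j hj h1 => hm (j + 1) hj v ⟨u, h1, huv⟩ hf
      obtain ⟨S', h1, h2, h3⟩ := hstep S u v huv hf (hm (m + 2) (by omega) u hu)
        (fun h => hno 0 (by omega) h) (fun h => hm 0 (by omega) v h hf)
        (fun d hd => ⟨fun h => hno 1 (by omega) ⟨d, hd, h⟩,
          fun h => hm 1 (by omega) v ⟨d, hd, h⟩ hf, hm 0 (by omega) d hd⟩)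
      have h4 : ∀ j, j ≤ m + 1 → ∀ x, Rch (adj S) (start S) j x →
          Rch (adj S') (start S') j x := by
        intro j
        induction j with
        | zero => exact fun _ x hx => h1 x hx
        | succ j ihj =>
          rintro hj x ⟨d, hd, hdx⟩
          have hx : Rch (adj S) (start S) (j + 1) x := ⟨d, hd, hdx⟩
          refine ⟨d, ihj (by omega) d hd, h2 d x hdx ?_ ?_ ?_ ?_ ?_ ?_⟩
          · intro h
            exact hno j (by omega) (h ▸ hd)
          · intro h
            exact hm j (by omega) v (h ▸ hd) hf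
          · intro h
            exact hno (j + 1) (by omega) (h ▸ hx)
          · intro h
            exact hm (j + 1) (by omega) v (h ▸ hx) hf
          · intro h
            exact hm (j + 1) (by omega) v ⟨d, hd, h⟩ hf
          · intro h
            exact hm (j + 2) (by omega) v ⟨x, hx, h⟩ hf
      refine ih (m + 1) (by omega) ⟨t, h4 (m + 1) le_rfl t ht, h3 t htu (hm (m + 1) (by omega) t ht) ?_⟩
      intro h
      exact hno 1 (by omega) ⟨t, h, htu⟩

end Pool.MP_4929df_co.H92
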