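import Pool.Agent.W_4929df_h92.BrwH2
import Pool.Agent.W_4929df_h92.BrwP1

/-!
The separation lemma.
-/

set_option autoImplicit false

namespace Pool.MP_4929df_co.H92

open Submodule

variable {F : Type} [Field F] {E : Type} [Fintype E] [DecidableEq E] {V : Type}
  [AddCommGroup V] [Module F V] [FiniteDimensional F V] {w₀ : E → V} {A : ℕ → Finset E} {n s : ℕ}
  {Y : ℕ → Finset E} {α : FRep F w₀ A n s} {P : ℕ → E → Fin s → F}
  {H : ℕ → E → (Fin s → F) →ₗ[F] F} {a : ℕ → E → E → F} {i m : ℕ} {q : Fin s → F}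
  {f : (Fin s → F) →ₗ[F] F} {C : Finset E}

omit [FiniteDimensional F V] in
private theorem BrwS1_rk (u : FRep F w₀ A n s) (S : Finset E) :
    rk F w₀ ⊥ S = Module.finrank F (Sp F u.w S) := by
  unfold rk
  rw [sup_bot_eq, u.same S]

omit [Fintype E] [DecidableEq E] [FiniteDimensional F V] in
private theorem BrwS1_card (w : E → V) (S : Finset E) : Module.finrank F (Sp F w S) ≤ S.card := by
  classical
  unfold Sp
  have h1 : (w '' (S : Set E)) = ((S.image w : Finset V) : Set V) := by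
    rw [Finset.coe_image]
  rw [h1]
  exact (finrank_span_finset_le_card (S.image w)).trans Finset.card_image_le

private theorem BrwS1_mem {l : ℕ} (h1 : i ≤ l) (h2 : l < m) {y : E} (hy : y ∈ Y l) :
    y ∈ Yun Y i m :=
  Finset.mem_biUnion.2 ⟨l, Finset.mem_Ico.2 ⟨h1, h2⟩, hy⟩

omit [FiniteDimensional F V] in
private theorem BrwS1_in (u : FRep F w₀ A n s) {l : ℕ} (hl : l ≤ n) (g : Fin s → F) :
    u.th l g ∈ Sp F u.w (A l) ∧ u.th l g ∈ Sp F u.w (A l)ᶜ := by
  have h3 : u.th l g ∈ LinearMap.range (u.th l) := ⟨g, rfl⟩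
  rw [u.rng l hl] at h3
  exact h3

/-- every element of a zone is in a block -/
private theorem BrwS1_cover (hi : i ≤ m) {x : E} (hx : x ∈ A m \ A i) :
    ∃ l, i ≤ l ∧ l < m ∧ x ∈ A (l + 1) \ A l := by
  induction m, hi using Nat.le_induction with
  | base =>
    rw [Finset.sdiff_self] at hx
    exact absurd hx (Finset.notMem_empty x)
  | succ m hm ih =>
    by_cases h : x ∈ A m
    · obtain ⟨l, h1, h2, h3⟩ := ih (Finset.mem_sdiff.2 ⟨h, (Finset.mem_sdiff.1 hx).2⟩)
      exact ⟨l, h1, h2.trans (Nat.lt_succ_self m), h3⟩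
    · exact ⟨m, hm, Nat.lt_succ_self m, Finset.mem_sdiff.2 ⟨(Finset.mem_sdiff.1 hx).1, h⟩⟩

/-- the sets of the chain -/
theorem BrwS1_mono (hL : Lnk F w₀ A n s) {l l' : ℕ} (h : l ≤ l') (h' : l' ≤ n) :
    A l ⊆ A l' := by
  induction l', h using Nat.le_induction with
  | base => exact subset_rfl
  | succ l' _ ih => exact (ih (by omega)).trans (hL.mono l' (by omega)).subset

/-- `Blk.step` with `κ = 1`; the terms with `y ∉ C` vanish (`h4`). Induction on `l`. -/
theorem sep_q (hb : ∀ l, i ≤ l → l < m →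
      Blk α l (Y l) (LinearEquiv.refl F (Fin s → F)) (P l) (H l) (a l))
    (h4 : ∀ l, i ≤ l → l < m → ∀ y ∈ Y l, y ∉ C → H l y q = 0) {l : ℕ} (hil : i ≤ l)
    (hlm : l ≤ m) : α.th l q - α.th i q ∈ Sp F α.w (Yun Y i m ∩ C) := by
  induction l, hil using Nat.le_induction with
  | base =>
    rw [sub_self]
    exact Submodule.zero_mem _
  | succ l hil ih =>
    have h1 := (hb l hil (by omega)).step q
    rw [LinearEquiv.refl_apply] at h1
    have e : α.th (l + 1) q - α.th i q =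
        (α.th l q - α.th i q) - ∑ y ∈ Y l, H l y q • α.w y := by
      rw [h1]
      abel
    rw [e]
    refine Submodule.sub_mem _ (ih (by omega)) (Submodule.sum_mem _ fun y hy => ?_)
    by_cases hyC : y ∈ C
    · exact Submodule.smul_mem _ _ (mem_Sp (Finset.mem_inter.2 ⟨BrwS1_mem hil (by omega) hy, hyC⟩))
    · rw [h4 l hil (by omega) y hy hyC, zero_smul]
      exact Submodule.zero_mem _

theorem sep_ker (hb : ∀ l, i ≤ l → l < m →
      Blk α l (Y l) (LinearEquiv.refl F (Fin s → F)) (P l) (H l) (a l))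
    (h3 : ∀ l, i ≤ l → l < m → ∀ y ∈ Y l, y ∈ C → LinearMap.ker f ≤ LinearMap.ker (H l y))
    {l : ℕ} (hil : i ≤ l) (hlm : l ≤ m) {g : Fin s → F} (hg : f g = 0) :
    α.th l g - α.th i g ∈ Sp F α.w (Yun Y i m \ C) := by
  induction l, hil using Nat.le_induction with
  | base =>
    rw [sub_self]
    exact Submodule.zero_mem _
  | succ l hil ih =>
    have h1 := (hb l hil (by omega)).step g
    rw [LinearEquiv.refl_apply] at h1
    have e : α.th (l + 1) g - α.th i g =
        (α.th l g - α.th i g) - ∑ y ∈ Y l, H l y g • α.w y := by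
      rw [h1]
      abel
    rw [e]
    refine Submodule.sub_mem _ (ih (by omega)) (Submodule.sum_mem _ fun y hy => ?_)
    by_cases hyC : y ∈ C
    · have h2 : g ∈ LinearMap.ker (H l y) := h3 l hil (by omega) y hy hyC (LinearMap.mem_ker.2 hg)
      rw [LinearMap.mem_ker.1 h2, zero_smul]
      exact Submodule.zero_mem _
    · exact Submodule.smul_mem _ _ (mem_Sp (Finset.mem_sdiff.2 ⟨BrwS1_mem hil (by omega) hy, hyC⟩))

/-- The separation lemma. `YC = Yun Y i m ∩ C`, `YQ = Yun Y i m \ C`. By `xel`, `hadj` and `sep_q`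
`Sp C ≤ Sp YC ⊔ span {α.th i q}`, so `rk C ≤ YC.card + 1`. By `xel`, `hadj`, `sep_ker`
`Sp Cᶜ ≤ (Sp (A i) ⊔ Sp YQ) ⊔ Sp (A m)ᶜ` (every element of the zone `A m \ A i` is in some block), and
`α.th m (ker f)`, of dimension `s - 1`, is in `(Sp (A i) ⊔ Sp YQ) ⊓ Sp (A m)ᶜ` (`sep_ker` for `l = m`,
`α.rng`), so `rk Cᶜ + (s - 1) ≤ rk (A i) + YQ.card + rk (A m)ᶜ` (`1 ≤ s` because `f ≠ 0`). Finally
`rk (A m) = rk (A i) + YC.card + YQ.card` (`Yun_TB` for the blocks from `i` to `m`; it is stated for all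
blocks `t < n`, so use a version for `i ≤ t < m` if needed, or induction with `TB.union`) and
`rk univ + s = rk (A m) + rk (A m)ᶜ` (`finrank_Gd`). (`rk = rk F w₀ ⊥`, `α.same`.) -/
theorem sep_rank (hL : Lnk F w₀ A n s) (him : i ≤ m) (hm : m ≤ n)
    (hb : ∀ l, i ≤ l → l < m →
      Blk α l (Y l) (LinearEquiv.refl F (Fin s → F)) (P l) (H l) (a l))
    (hf : f ≠ 0) (hC : C ⊆ A m \ A i)
    (hadj : ∀ l, i ≤ l → l < m → ∀ x ∈ (A (l + 1) \ A l) \ Y l, ∀ y ∈ Y l, a l x y ≠ 0 →
      (x ∈ C ↔ y ∈ C))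
    (h1 : ∀ l, i ≤ l → l < m → ∀ x ∈ (A (l + 1) \ A l) \ Y l, x ∈ C → P l x ∈ span F {q})
    (h2 : ∀ l, i ≤ l → l < m → ∀ x ∈ (A (l + 1) \ A l) \ Y l, x ∉ C → f (P l x) = 0)
    (h3 : ∀ l, i ≤ l → l < m → ∀ y ∈ Y l, y ∈ C → LinearMap.ker f ≤ LinearMap.ker (H l y))
    (h4 : ∀ l, i ≤ l → l < m → ∀ y ∈ Y l, y ∉ C → H l y q = 0) :
    rk F w₀ ⊥ C + rk F w₀ ⊥ Cᶜ ≤ rk F w₀ ⊥ Finset.univ + 2 := by
  have hi := BrwS1_in α (him.trans hm)
  have hAim : A i ⊆ A m := BrwS1_mono hL him hm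
  -- (1)
  have e1 : Sp F α.w C ≤ Sp F α.w (Yun Y i m ∩ C) ⊔ span F {α.th i q} := by
    refine Sp_le.2 fun x hx => ?_
    obtain ⟨l, k1, k2, k3⟩ := BrwS1_cover him (hC hx)
    by_cases hxY : x ∈ Y l
    · exact Submodule.mem_sup_left (mem_Sp (Finset.mem_inter.2 ⟨BrwS1_mem k1 k2 hxY, hx⟩))
    · have hxX : x ∈ (A (l + 1) \ A l) \ Y l := Finset.mem_sdiff.2 ⟨k3, hxY⟩
      rw [(hb l k1 k2).xel x hxX]
      refine Submodule.add_mem _ (Submodule.sum_mem _ fun y hy => ?_) ?_
      · by_cases h : a l x y = 0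
        · rw [h, zero_smul]
          exact Submodule.zero_mem _
        · exact Submodule.smul_mem _ _ (Submodule.mem_sup_left (mem_Sp (Finset.mem_inter.2
            ⟨BrwS1_mem k1 k2 hy, (hadj l k1 k2 x hxX y hy h).1 hx⟩)))
      · obtain ⟨t, ht⟩ := Submodule.mem_span_singleton.1 (h1 l k1 k2 x hxX hx)
        rw [← ht, map_smul]
        refine Submodule.smul_mem _ _ ?_
        have e : α.th l q = (α.th l q - α.th i q) + α.th i q := by abel
        rw [e]
        exact Submodule.add_mem _ (Submodule.mem_sup_left (sep_q hb h4 k1 k2.le))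
          (Submodule.mem_sup_right (Submodule.mem_span_singleton_self _))
  have e1' : Module.finrank F (Sp F α.w C) ≤ (Yun Y i m ∩ C).card + 1 := by
    have k1 : Module.finrank F (span F {α.th i q}) ≤ 1 := by
      simpa using finrank_span_le_card (R := F) ({α.th i q} : Set V)
    calc Module.finrank F (Sp F α.w C)
        ≤ Module.finrank F (Sp F α.w (Yun Y i m ∩ C) ⊔ span F {α.th i q} : Submodule F V) :=
          Submodule.finrank_mono e1
      _ ≤ Module.finrank F (Sp F α.w (Yun Y i m ∩ C)) + Module.finrank F (span F {α.th i q}) :=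
          Submodule.finrank_add_le_finrank_add_finrank _ _
      _ ≤ (Yun Y i m ∩ C).card + 1 := Nat.add_le_add (BrwS1_card _ _) k1
  -- (2)
  obtain ⟨S₁, hS₁⟩ : ∃ S₁, S₁ = A i ∪ ((A m \ A i) \ C) := ⟨_, rfl⟩
  have e2 : Sp F α.w S₁ ≤ Sp F α.w (A i) ⊔ Sp F α.w (Yun Y i m \ C) := by
    refine Sp_le.2 fun x hx => ?_
    rw [hS₁, Finset.mem_union] at hx
    rcases hx with hx | hx
    · exact Submodule.mem_sup_left (mem_Sp hx)
    · have hxC : x ∉ C := (Finset.mem_sdiff.1 hx).2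
      obtain ⟨l, k1, k2, k3⟩ := BrwS1_cover him (Finset.mem_sdiff.1 hx).1
      by_cases hxY : x ∈ Y l
      · exact Submodule.mem_sup_right (mem_Sp (Finset.mem_sdiff.2 ⟨BrwS1_mem k1 k2 hxY, hxC⟩))
      · have hxX : x ∈ (A (l + 1) \ A l) \ Y l := Finset.mem_sdiff.2 ⟨k3, hxY⟩
        rw [(hb l k1 k2).xel x hxX]
        refine Submodule.add_mem _ (Submodule.sum_mem _ fun y hy => ?_) ?_
        · by_cases h : a l x y = 0
          · rw [h, zero_smul]
            exact Submodule.zero_mem _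
          · exact Submodule.smul_mem _ _ (Submodule.mem_sup_right (mem_Sp (Finset.mem_sdiff.2
              ⟨BrwS1_mem k1 k2 hy, fun hyC => hxC ((hadj l k1 k2 x hxX y hy h).2 hyC)⟩)))
        · have e : α.th l (P l x) = (α.th l (P l x) - α.th i (P l x)) + α.th i (P l x) := by abel
          rw [e]
          exact Submodule.add_mem _
            (Submodule.mem_sup_right (sep_ker hb h3 k1 k2.le (h2 l k1 k2 x hxX hxC)))
            (Submodule.mem_sup_left (hi _).1)
  have e2' : Module.finrank F (Sp F α.w S₁) ≤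
      Module.finrank F (Sp F α.w (A i)) + (Yun Y i m \ C).card :=
    calc Module.finrank F (Sp F α.w S₁)
        ≤ Module.finrank F (Sp F α.w (A i) ⊔ Sp F α.w (Yun Y i m \ C) : Submodule F V) :=
          Submodule.finrank_mono e2
      _ ≤ Module.finrank F (Sp F α.w (A i)) + Module.finrank F (Sp F α.w (Yun Y i m \ C)) :=
          Submodule.finrank_add_le_finrank_add_finrank _ _
      _ ≤ Module.finrank F (Sp F α.w (A i)) + (Yun Y i m \ C).card :=
          Nat.add_le_add_left (BrwS1_card _ _) _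
  -- the union of the bases
  have e5 : ∀ l, i ≤ l → l ≤ m → rk F w₀ ⊥ (A i) + (Yun Y i l).card ≤ rk F w₀ ⊥ (A l) := by
    intro l hil
    induction l, hil using Nat.le_induction with
    | base =>
      intro _
      unfold Yun
      simp
    | succ l hil ih =>
      intro hlm
      have k1 := (hb l hil (by omega)).tb
      have k2 := k1.span
      have k3 := k1.indL
      have k4 : (Yun Y i (l + 1)).card ≤ (Yun Y i l).card + (Y l).card := by
        have k5 : Yun Y i (l + 1) = Y l ∪ Yun Y i l := by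
          unfold Yun
          rw [Nat.Ico_succ_right_eq_insert_Ico hil, Finset.biUnion_insert]
        rw [k5, add_comm]
        exact Finset.card_union_le _ _
      have k6 := ih (by omega)
      omega
  have e5' := e5 m him le_rfl
  have hYm : (Yun Y i m \ C).card + (Yun Y i m ∩ C).card = (Yun Y i m).card :=
    Finset.card_sdiff_add_card_inter _ _
  -- (3)
  have hYsub : Yun Y i m \ C ⊆ S₁ := by
    intro y hy
    obtain ⟨hy1, hy2⟩ := Finset.mem_sdiff.1 hy
    unfold Yun at hy1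
    obtain ⟨l, hl, hyl⟩ := Finset.mem_biUnion.1 hy1
    rw [Finset.mem_Ico] at hl
    have k1 := Finset.mem_sdiff.1 ((hb l hl.1 hl.2).tb.sub hyl)
    rw [hS₁]
    refine Finset.mem_union_right _ (Finset.mem_sdiff.2 ⟨Finset.mem_sdiff.2 ⟨?_, ?_⟩, hy2⟩)
    · exact BrwS1_mono hL (by omega : l + 1 ≤ m) hm k1.1
    · exact fun h => k1.2 (BrwS1_mono hL hl.1 (by omega) h)
  have e3 : (LinearMap.ker f).map (α.th m) ≤ Sp F α.w S₁ ⊓ Sp F α.w (A m)ᶜ := by
    rintro _ ⟨g, hg, rfl⟩
    refine ⟨?_, (BrwS1_in α hm g).2⟩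
    have e : α.th m g = (α.th m g - α.th i g) + α.th i g := by abel
    rw [e]
    refine Submodule.add_mem _ (Sp_mono hYsub (sep_ker hb h3 him le_rfl (LinearMap.mem_ker.1 hg)))
      (Sp_mono ?_ (hi g).1)
    rw [hS₁]
    exact Finset.subset_union_left
  have e3' : s ≤ Module.finrank F (Sp F α.w S₁ ⊓ Sp F α.w (A m)ᶜ : Submodule F V) + 1 := by
    have k1 := Submodule.finrank_mono e3
    have k0 := (Submodule.equivMapOfInjective (α.th m) (α.inj m hm) (LinearMap.ker f)).finrank_eq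
    have k2 := Module.Dual.finrank_ker_add_one_of_ne_zero hf
    rw [Module.finrank_fin_fun] at k2
    omega
  -- (4)
  have e4 : Cᶜ = S₁ ∪ (A m)ᶜ := by
    ext e
    rw [hS₁, Finset.mem_compl, Finset.mem_union, Finset.mem_union, Finset.mem_compl,
      Finset.mem_sdiff, Finset.mem_sdiff]
    constructor
    · intro h
      by_cases he : e ∈ A m
      · by_cases he' : e ∈ A i
        · exact Or.inl (Or.inl he')
        · exact Or.inl (Or.inr ⟨⟨he, he'⟩, h⟩)
      · exact Or.inr he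
    · rintro ((h | h) | h) hC'
      · exact (Finset.mem_sdiff.1 (hC hC')).2 h
      · exact h.2 hC'
      · exact h (Finset.mem_sdiff.1 (hC hC')).1
  have e6 := Submodule.finrank_sup_add_finrank_inf_eq (Sp F α.w S₁) (Sp F α.w (A m)ᶜ)
  rw [← Sp_union, ← e4] at e6
  have e7 := finrank_Gd (F := F) w₀ (A m)
  rw [hL.width m hm] at e7
  have r1 := BrwS1_rk α C
  have r2 := BrwS1_rk α Cᶜ
  have r3 := BrwS1_rk α (A m)
  have r4 := BrwS1_rk α (A m)ᶜ
  have r5 := BrwS1_rk α (A i)
  omega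

end Pool.MP_4929df_co.H92
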