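import Pool.Agent.W_4929df_h92.BrwS0

/-!
The separation lemma: the contradiction.
-/

set_option autoImplicit false

namespace Pool.MP_4929df_co.H92

open Submodule

variable {F : Type} [Field F] {E : Type} [Fintype E] [DecidableEq E] {V : Type}
  [AddCommGroup V] [Module F V] [FiniteDimensional F V] {w₀ : E → V} {A : ℕ → Finset E} {n s : ℕ}
  {Y : ℕ → Finset E} {α : FRep F w₀ A n s} {P : ℕ → E → Fin s → F}
  {H : ℕ → E → (Fin s → F) →ₗ[F] F} {a : ℕ → E → E → F} {i m : ℕ} {q : Fin s → F}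
  {f : (Fin s → F) →ₗ[F] F} {C : Finset E}

/-- adjacency in a block `D` with base `W` -/
def badj {F : Type} [Field F] {E : Type} [DecidableEq E] (D W : Finset E) (a : E → E → F)
    (d e : E) : Prop :=
  (d ∈ D \ W ∧ e ∈ W ∧ a d e ≠ 0) ∨ (d ∈ W ∧ e ∈ D \ W ∧ a e d ≠ 0)

theorem badj_symm {F : Type} [Field F] {E : Type} [DecidableEq E] {D W : Finset E}
    {a : E → E → F} {d e : E} (h : badj D W a d e) : badj D W a e d := by
  rcases h with ⟨h1, h2, h3⟩ | ⟨h1, h2, h3⟩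
  · exact Or.inr ⟨h2, h1, h3⟩
  · exact Or.inl ⟨h2, h1, h3⟩

/-- The contradiction. `C` is the set of all `d` that are reachable from `St l` in their block `l`,
`i ≤ l ≤ i'`; reachable vertices stay in the block. `sep_rank` with `m = i' + 1`; `C` has at least
the four elements `x i`, `y i`, `x i'`, `y i'`, and `A 0 ⊆ Cᶜ`, so `Four` (with 3) is violated. -/
theorem no_comp (hL : Lnk F w₀ A n s) (hc : 3 ≤ (A 0).card) (h4 : Four F w₀) {i i' : ℕ}
    (hii : i < i') (hi' : i' < n)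
    (hb : ∀ l, l < n → Blk α l (Y l) (LinearEquiv.refl F (Fin s → F)) (P l) (H l) (a l))
    (hf : f ≠ 0) {St : ℕ → E → Prop}
    (hSt : ∀ l, i ≤ l → l ≤ i' → ∀ d, St l d → d ∈ A (l + 1) \ A l) {x y : ℕ → E}
    (hx : x i ∈ (A (i + 1) \ A i) \ Y i) (hy : y i ∈ Y i)
    (hx' : x i' ∈ (A (i' + 1) \ A i') \ Y i') (hy' : y i' ∈ Y i')
    (hSx : St i (x i)) (hSy : St i (y i)) (hSx' : St i' (x i')) (hSy' : St i' (y i'))
    (hR : ∀ l, i ≤ l → l ≤ i' → ∀ k d, Rch (badj (A (l + 1) \ A l) (Y l) (a l)) (St l) k d →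
      (d ∉ Y l → P l d ∈ span F {q}) ∧ (d ∈ Y l → LinearMap.ker f ≤ LinearMap.ker (H l d)))
    (hN : ∀ l, i ≤ l → l ≤ i' → ∀ d ∈ A (l + 1) \ A l,
      (∀ k, ¬ Rch (badj (A (l + 1) \ A l) (Y l) (a l)) (St l) k d) →
      (d ∉ Y l → f (P l d) = 0) ∧ (d ∈ Y l → H l d q = 0)) : False := by
  classical
  -- reachable vertices stay in the block
  have hblk : ∀ l, i ≤ l → l ≤ i' → ∀ k d,
      Rch (badj (A (l + 1) \ A l) (Y l) (a l)) (St l) k d → d ∈ A (l + 1) \ A l := by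
    intro l h1 h2 k
    cases k with
    | zero => exact fun d hd => hSt l h1 h2 d hd
    | succ k =>
      rintro d ⟨u, -, hu⟩
      rcases hu with ⟨-, h3, -⟩ | ⟨-, h3, -⟩
      · exact (hb l (by omega)).tb.sub h3
      · exact (Finset.mem_sdiff.1 h3).1
  -- the blocks are disjoint
  have hdis : ∀ l l', l < l' → l' < n → ∀ d, d ∈ A (l + 1) \ A l → d ∉ A (l' + 1) \ A l' := by
    intro l l' h1 h2 d h3 h4
    exact (Finset.mem_sdiff.1 h4).2
      (BrwS1_mono hL (by omega : l + 1 ≤ l') h2.le (Finset.mem_sdiff.1 h3).1)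
  obtain ⟨C, hCd⟩ : ∃ C : Finset E, ∀ d, d ∈ C ↔ ∃ l, i ≤ l ∧ l ≤ i' ∧
      ∃ k, Rch (badj (A (l + 1) \ A l) (Y l) (a l)) (St l) k d :=
    ⟨Finset.univ.filter fun d => ∃ l, i ≤ l ∧ l ≤ i' ∧
      ∃ k, Rch (badj (A (l + 1) \ A l) (Y l) (a l)) (St l) k d, fun d => by simp⟩
  have hCl : ∀ l, i ≤ l → l ≤ i' → ∀ d ∈ A (l + 1) \ A l,
      (d ∈ C ↔ ∃ k, Rch (badj (A (l + 1) \ A l) (Y l) (a l)) (St l) k d) := by
    intro l h1 h2 d hd
    rw [hCd]
    constructor
    · rintro ⟨l', h3, h4, k, hk⟩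
      have h5 := hblk l' h3 h4 k d hk
      rcases lt_trichotomy l l' with h6 | h6 | h6
      · exact absurd h5 (hdis l l' h6 (by omega) d hd)
      · subst h6
        exact ⟨k, hk⟩
      · exact absurd hd (hdis l' l h6 (by omega) d h5)
    · rintro ⟨k, hk⟩
      exact ⟨l, h1, h2, k, hk⟩
  have hCsub : C ⊆ A (i' + 1) \ A i := by
    intro d hd
    obtain ⟨l, h1, h2, k, hk⟩ := (hCd d).1 hd
    have h3 := Finset.mem_sdiff.1 (hblk l h1 h2 k d hk)
    exact Finset.mem_sdiff.2 ⟨BrwS1_mono hL (by omega : l + 1 ≤ i' + 1) hi' h3.1,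
      fun h => h3.2 (BrwS1_mono hL h1 (by omega) h)⟩
  have key := sep_rank (C := C) (q := q) hL (by omega : i ≤ i' + 1) hi'
    (fun l _ h2 => hb l (by omega)) hf hCsub
    (by
      intro l h1 h2 x hx y hy hxy
      have hx' := (Finset.mem_sdiff.1 hx).1
      have hy' := (hb l (by omega)).tb.sub hy
      rw [hCl l h1 (by omega) x hx', hCl l h1 (by omega) y hy']
      constructor
      · rintro ⟨k, hk⟩
        exact ⟨k + 1, x, hk, Or.inl ⟨hx, hy, hxy⟩⟩
      · rintro ⟨k, hk⟩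
        exact ⟨k + 1, y, hk, Or.inr ⟨hy, hx, hxy⟩⟩)
    (by
      intro l h1 h2 x hx hxC
      have hx' := Finset.mem_sdiff.1 hx
      obtain ⟨k, hk⟩ := (hCl l h1 (by omega) x hx'.1).1 hxC
      exact (hR l h1 (by omega) k x hk).1 hx'.2)
    (by
      intro l h1 h2 x hx hxC
      have hx' := Finset.mem_sdiff.1 hx
      refine (hN l h1 (by omega) x hx'.1 fun k hk => ?_).1 hx'.2
      exact hxC ((hCl l h1 (by omega) x hx'.1).2 ⟨k, hk⟩))
    (by
      intro l h1 h2 y hy hyC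
      have hy' := (hb l (by omega)).tb.sub hy
      obtain ⟨k, hk⟩ := (hCl l h1 (by omega) y hy').1 hyC
      exact (hR l h1 (by omega) k y hk).2 hy)
    (by
      intro l h1 h2 y hy hyC
      have hy' := (hb l (by omega)).tb.sub hy
      refine (hN l h1 (by omega) y hy' fun k hk => ?_).2 hy
      exact hyC ((hCl l h1 (by omega) y hy').2 ⟨k, hk⟩))
  -- three elements
  have hxi := Finset.mem_sdiff.1 hx
  have hxi' := Finset.mem_sdiff.1 hx'
  have hyi := (hb i (by omega)).tb.sub hy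
  have c1 : x i ∈ C := (hCl i le_rfl hii.le _ hxi.1).2 ⟨0, hSx⟩
  have c2 : y i ∈ C := (hCl i le_rfl hii.le _ hyi).2 ⟨0, hSy⟩
  have c3 : x i' ∈ C := (hCl i' hii.le le_rfl _ hxi'.1).2 ⟨0, hSx'⟩
  have d1 : x i ≠ y i := fun h => hxi.2 (h ▸ hy)
  have d2 : x i ≠ x i' := fun h => hdis i i' hii hi' _ hxi.1 (h ▸ hxi'.1)
  have d3 : y i ≠ x i' := fun h => hdis i i' hii hi' _ hyi (h ▸ hxi'.1)
  have hcard : 3 ≤ C.card := by
    have h5 : ({x i, y i, x i'} : Finset E).card = 3 := by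
      rw [Finset.card_insert_of_notMem (by simp [d1, d2]), Finset.card_insert_of_notMem (by simp [d3]),
        Finset.card_singleton]
    rw [← h5]
    refine Finset.card_le_card ?_
    intro d hd
    simp only [Finset.mem_insert, Finset.mem_singleton] at hd
    rcases hd with rfl | rfl | rfl
    · exact c1
    · exact c2
    · exact c3
  have hcard' : 3 ≤ Cᶜ.card := by
    refine hc.trans (Finset.card_le_card ?_)
    intro d hd
    rw [Finset.mem_compl]
    intro h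
    exact (Finset.mem_sdiff.1 (hCsub h)).2 (BrwS1_mono hL (Nat.zero_le i) (by omega) hd)
  have h7 := h4 C 3 (by norm_num) hcard hcard'
  unfold rk at key
  rw [sup_bot_eq, sup_bot_eq, sup_bot_eq] at key
  omega

end Pool.MP_4929df_co.H92
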