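import Pool.Agent.W_4929df_h92.ChnDefs

/-!
Traces of sets on the left of a cut (proofs row 594, section 3).
-/

set_option autoImplicit false

namespace Pool.MP_4929df_co.H92

open Submodule

variable {F : Type} [Field F] {E : Type} [Fintype E] [DecidableEq E] {V : Type}
  [AddCommGroup V] [Module F V] {c : Chn E} {k : ℕ} {w : E → V}

/-- membership in the span of a union -/
private theorem chnA1_mem_union {S Z : Finset E} (v : V) :
    v ∈ Sp F w (S ∪ Z) ↔ ∃ b : E → F, v - ∑ x ∈ Z, b x • w x ∈ Sp F w S := by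
  rw [Sp_union, Submodule.mem_sup]
  constructor
  · rintro ⟨s, hs, z, hz, rfl⟩
    obtain ⟨b, hb⟩ := (Submodule.mem_span_image_finset_iff_exists_fun' F).1 hz
    refine ⟨b, ?_⟩
    rw [hb, add_sub_cancel_right]
    exact hs
  · rintro ⟨b, hb⟩
    refine ⟨_, hb, ∑ x ∈ Z, b x • w x, ?_, sub_add_cancel _ _⟩
    exact Submodule.sum_mem _ fun x hx => Submodule.smul_mem _ _ (mem_Sp hx)

/-- the coefficient of `w y` -/
private theorem chnA1_eq (R : ChRep F c k w) {l : ℕ} (hl : l < c.n) {Z : Finset E}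
    (hZ : Z ⊆ c.A (l + 1) \ c.A l) (g : Fin k → F) (b : E → F) :
    R.th (l + 1) g - ∑ x ∈ Z, b x • w x =
      R.th l (g - ∑ x ∈ Z \ c.Y l, b x • R.p x) - ∑ y ∈ c.Y l,
        (R.ph y g + ∑ x ∈ Z \ c.Y l, b x * R.a x y + (if y ∈ Z then b y else 0)) • w y := by
  have e1 : ∑ x ∈ Z, b x • w x = ∑ x ∈ Z \ c.Y l, b x • w x + ∑ x ∈ Z ∩ c.Y l, b x • w x := by
    rw [add_comm, Finset.sum_inter_add_sum_sdiff]
  have e2 : ∑ x ∈ Z \ c.Y l, b x • w x = ∑ x ∈ Z \ c.Y l,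
      (∑ y ∈ c.Y l, (b x * R.a x y) • w y + b x • R.th l (R.p x)) := by
    refine Finset.sum_congr rfl fun x hx => ?_
    have hx1 : x ∈ c.X l := by
      rw [Finset.mem_sdiff] at hx
      exact Finset.mem_sdiff.2 ⟨hZ hx.1, hx.2⟩
    rw [R.xel l hl x hx1, smul_add, Finset.smul_sum]
    congr 1
    exact Finset.sum_congr rfl fun y _ => smul_smul _ _ _
  have e3 : ∑ x ∈ Z \ c.Y l, ∑ y ∈ c.Y l, (b x * R.a x y) • w y =
      ∑ y ∈ c.Y l, (∑ x ∈ Z \ c.Y l, b x * R.a x y) • w y := by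
    rw [Finset.sum_comm]
    exact Finset.sum_congr rfl fun y _ => (Finset.sum_smul).symm
  have e4 : ∑ x ∈ Z ∩ c.Y l, b x • w x = ∑ y ∈ c.Y l, (if y ∈ Z then b y else 0) • w y := by
    rw [Finset.inter_comm, ← Finset.sum_filter_add_sum_filter_not (c.Y l) (fun y => y ∈ Z),
      ← Finset.filter_mem_eq_inter]
    have h0 : ∑ y ∈ (c.Y l).filter (fun y => ¬ y ∈ Z), (if y ∈ Z then b y else 0) • w y = 0 := by
      refine Finset.sum_eq_zero fun y hy => ?_
      rw [Finset.mem_filter] at hy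
      rw [if_neg hy.2, zero_smul]
    rw [h0, add_zero]
    refine Finset.sum_congr rfl fun y hy => ?_
    rw [Finset.mem_filter] at hy
    rw [if_pos hy.2]
  have e5 : R.th l (g - ∑ x ∈ Z \ c.Y l, b x • R.p x) =
      R.th l g - ∑ x ∈ Z \ c.Y l, b x • R.th l (R.p x) := by
    rw [map_sub, map_sum]
    congr 1
    exact Finset.sum_congr rfl fun x _ => map_smul _ _ _
  rw [R.step l hl g, e1, e2, Finset.sum_add_distrib, e3, e4, e5]
  simp only [add_smul, Finset.sum_add_distrib]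
  abel

/-- The general formula on the left. If `th (l+1) g = s + ∑ b x • w x` (`x ∈ Z`, `s` in the span
of `S`), write `w x` with `R.xel` for `x ∈ Z \ Y l`, `th (l+1) g` with `R.step` and compare with
`R.indL`. -/
theorem ChRep.mem_T_left (R : ChRep F c k w) {l : ℕ} (hl : l < c.n) {S Z : Finset E}
    (hS : S ⊆ c.A l) (hZ : Z ⊆ c.A (l + 1) \ c.A l) (g : Fin k → F) :
    g ∈ R.T (l + 1) (S ∪ Z) ↔ ∃ b : E → F, g - ∑ x ∈ Z \ c.Y l, b x • R.p x ∈ R.T l S ∧
      ∀ y ∈ c.Y l \ Z, R.ph y g + ∑ x ∈ Z \ c.Y l, b x * R.a x y = 0 := by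
  have h1 : g ∈ R.T (l + 1) (S ∪ Z) ↔
      ∃ b : E → F, R.th (l + 1) g - ∑ x ∈ Z, b x • w x ∈ Sp F w S := by
    unfold ChRep.T
    rw [Submodule.mem_comap]
    exact chnA1_mem_union _
  rw [h1]
  constructor
  · rintro ⟨b, hb⟩
    rw [chnA1_eq R hl hZ g b] at hb
    have hA : R.th l (g - ∑ x ∈ Z \ c.Y l, b x • R.p x) ∈ Sp F w (c.A l) := by
      have h2 : R.th l (g - ∑ x ∈ Z \ c.Y l, b x • R.p x) ∈ LinearMap.range (R.th l) := ⟨_, rfl⟩
      rw [R.rng l hl.le] at h2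
      exact h2.1
    have hc : ∑ y ∈ c.Y l, (R.ph y g + ∑ x ∈ Z \ c.Y l, b x * R.a x y +
        (if y ∈ Z then b y else 0)) • w y ∈ Sp F w (c.A l) := by
      have h3 := Submodule.sub_mem _ hA (Sp_mono hS hb)
      rwa [sub_sub_cancel] at h3
    have h0 := R.indL l hl (fun y => R.ph y g + ∑ x ∈ Z \ c.Y l, b x * R.a x y +
      (if y ∈ Z then b y else 0)) hc
    refine ⟨b, ?_, ?_⟩
    · have h4 : ∑ y ∈ c.Y l, (R.ph y g + ∑ x ∈ Z \ c.Y l, b x * R.a x y +
          (if y ∈ Z then b y else 0)) • w y = 0 := by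
        refine Finset.sum_eq_zero fun y hy => ?_
        have h5 := h0 y hy
        beta_reduce at h5
        rw [h5, zero_smul]
      rw [h4, sub_zero] at hb
      exact hb
    · intro y hy
      rw [Finset.mem_sdiff] at hy
      have h5 := h0 y hy.1
      beta_reduce at h5
      rwa [if_neg hy.2, add_zero] at h5
  · rintro ⟨b, hb1, hb2⟩
    obtain ⟨b', hb'⟩ : ∃ b' : E → F, b' = fun x => if x ∈ c.Y l then
      -(R.ph x g + ∑ z ∈ Z \ c.Y l, b z * R.a z x) else b x := ⟨_, rfl⟩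
    have hbb : ∀ x ∈ Z \ c.Y l, b' x = b x := by
      intro x hx
      rw [Finset.mem_sdiff] at hx
      rw [hb']
      exact if_neg hx.2
    refine ⟨b', ?_⟩
    rw [chnA1_eq R hl hZ g b']
    have e1 : ∑ x ∈ Z \ c.Y l, b' x • R.p x = ∑ x ∈ Z \ c.Y l, b x • R.p x :=
      Finset.sum_congr rfl fun x hx => by rw [hbb x hx]
    have e2 : ∑ y ∈ c.Y l, (R.ph y g + ∑ x ∈ Z \ c.Y l, b' x * R.a x y +
        (if y ∈ Z then b' y else 0)) • w y = 0 := by
      refine Finset.sum_eq_zero fun y hy => ?_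
      have e3 : ∑ x ∈ Z \ c.Y l, b' x * R.a x y = ∑ x ∈ Z \ c.Y l, b x * R.a x y :=
        Finset.sum_congr rfl fun x hx => by rw [hbb x hx]
      rw [e3]
      by_cases hyZ : y ∈ Z
      · have e4 : b' y = -(R.ph y g + ∑ z ∈ Z \ c.Y l, b z * R.a z y) := by
          rw [hb']
          exact if_pos hy
        rw [if_pos hyZ, e4, add_neg_cancel, zero_smul]
      · rw [if_neg hyZ, add_zero, hb2 y (Finset.mem_sdiff.2 ⟨hy, hyZ⟩), zero_smul]
    rw [e1, e2, sub_zero]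
    exact hb1

end Pool.MP_4929df_co.H92
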