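import Pool.Agent.W_4929df_h92.ChnDefs

/-!
Traces of sets on the right of a cut (proofs row 594, section 3).
-/

set_option autoImplicit false

namespace Pool.MP_4929df_co.H92

open Submodule

variable {F : Type} [Field F] {E : Type} [Fintype E] [DecidableEq E] {V : Type}
  [AddCommGroup V] [Module F V] {c : Chn E} {k : ℕ} {w : E → V}

/-- The general formula on the right, as on the left with
`w x = ∑ (a x y + ph y (p x)) • w y + th (l+1) (p x)` and `R.indR`. -/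
theorem ChRep.mem_T_right (R : ChRep F c k w) {l : ℕ} (hl : l < c.n) {S Z : Finset E}
    (hS : S ⊆ (c.A (l + 1))ᶜ) (hZ : Z ⊆ c.A (l + 1) \ c.A l) (g : Fin k → F) :
    g ∈ R.T l (S ∪ Z) ↔ ∃ b : E → F, g - ∑ x ∈ Z \ c.Y l, b x • R.p x ∈ R.T (l + 1) S ∧
      ∀ y ∈ c.Y l \ Z, R.ph y g = ∑ x ∈ Z \ c.Y l, b x * (R.a x y + R.ph y (R.p x)) := by
  have hXmem : ∀ x ∈ Z \ c.Y l, x ∈ c.X l := fun x hx => by
    rw [Finset.mem_sdiff] at hx
    exact Finset.mem_sdiff.2 ⟨hZ hx.1, hx.2⟩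
  have hth : ∀ g, R.th l g = R.th (l + 1) g + ∑ y ∈ c.Y l, R.ph y g • w y := fun g => by
    rw [R.step l hl g, sub_add_cancel]
  have hx1 : ∀ x ∈ Z \ c.Y l, w x = R.th (l + 1) (R.p x) +
      ∑ y ∈ c.Y l, (R.a x y + R.ph y (R.p x)) • w y := by
    intro x hx
    rw [R.xel l hl x (hXmem x hx), hth (R.p x)]
    simp only [add_smul, Finset.sum_add_distrib]
    abel
  have key : ∀ b : E → F, R.th l g = R.th (l + 1) (g - ∑ x ∈ Z \ c.Y l, b x • R.p x) +
      ∑ x ∈ Z \ c.Y l, b x • w x +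
      ∑ y ∈ c.Y l, (R.ph y g - ∑ x ∈ Z \ c.Y l, b x * (R.a x y + R.ph y (R.p x))) • w y := by
    intro b
    have e1 : ∑ x ∈ Z \ c.Y l, b x • w x = R.th (l + 1) (∑ x ∈ Z \ c.Y l, b x • R.p x) +
        ∑ y ∈ c.Y l, (∑ x ∈ Z \ c.Y l, b x * (R.a x y + R.ph y (R.p x))) • w y := by
      rw [map_sum]
      simp only [Finset.sum_smul]
      rw [Finset.sum_comm (s := c.Y l), ← Finset.sum_add_distrib]
      refine Finset.sum_congr rfl fun x hx => ?_
      rw [hx1 x hx, smul_add, LinearMap.map_smul, Finset.smul_sum]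
      simp only [smul_smul]
    simp only [sub_smul, Finset.sum_sub_distrib]
    rw [hth g, e1, map_sub]
    abel
  have hsub : ∀ c1 c2 : E → F, ∑ y ∈ c.Y l, (c1 y - c2 y) • w y =
      ∑ y ∈ c.Y l, c1 y • w y - ∑ y ∈ c.Y l, c2 y • w y := fun c1 c2 => by
    simp only [sub_smul, Finset.sum_sub_distrib]
  have hmemZ : ∀ v, v ∈ Sp F w Z ↔ ∃ b : E → F, ∑ x ∈ Z, b x • w x = v := fun v =>
    Submodule.mem_span_image_finset_iff_exists_fun' F
  have hsplit : ∀ b : E → F, ∑ x ∈ Z, b x • w x =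
      ∑ x ∈ Z \ c.Y l, b x • w x + ∑ y ∈ c.Y l, (if y ∈ Z then b y else 0) • w y := by
    intro b
    rw [← Finset.sum_inter_add_sum_sdiff Z (c.Y l), add_comm]
    congr 1
    simp only [ite_smul, zero_smul]
    rw [← Finset.sum_filter]
    refine Finset.sum_congr ?_ fun _ _ => rfl
    ext y
    rw [Finset.mem_inter, Finset.mem_filter, and_comm]
  have hmem : g ∈ R.T l (S ∪ Z) ↔ R.th l g ∈ Sp F w S ⊔ Sp F w Z := by
    rw [← Sp_union]; exact Iff.rfl
  rw [hmem, Submodule.mem_sup]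
  constructor
  · rintro ⟨s, hs, z, hz, hsz⟩
    obtain ⟨b, rfl⟩ := (hmemZ z).1 hz
    have h1 := key b
    rw [← hsz, hsplit b] at h1
    have h2 : ∑ y ∈ c.Y l, ((if y ∈ Z then b y else 0) -
        (R.ph y g - ∑ x ∈ Z \ c.Y l, b x * (R.a x y + R.ph y (R.p x)))) • w y =
        R.th (l + 1) (g - ∑ x ∈ Z \ c.Y l, b x • R.p x) - s := by
      rw [hsub (fun y => if y ∈ Z then b y else 0) (fun y => R.ph y g -
        ∑ x ∈ Z \ c.Y l, b x * (R.a x y + R.ph y (R.p x)))]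
      rw [sub_eq_sub_iff_add_eq_add]
      refine add_left_cancel (a := ∑ x ∈ Z \ c.Y l, b x • w x) (Eq.trans ?_ (h1.trans ?_))
      · abel
      · abel
    have h5 : R.th (l + 1) (g - ∑ x ∈ Z \ c.Y l, b x • R.p x) - s ∈
        Sp F w (c.A (l + 1))ᶜ := by
      refine Submodule.sub_mem _ ?_ (Sp_mono hS hs)
      have h6 : R.th (l + 1) (g - ∑ x ∈ Z \ c.Y l, b x • R.p x) ∈
          LinearMap.range (R.th (l + 1)) := ⟨_, rfl⟩
      rw [R.rng (l + 1) hl] at h6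
      exact h6.2
    rw [← h2] at h5
    have h7 := R.indR l hl _ h5
    refine ⟨b, ?_, fun y hy => ?_⟩
    · show R.th (l + 1) (g - ∑ x ∈ Z \ c.Y l, b x • R.p x) ∈ Sp F w S
      have h8 : R.th (l + 1) (g - ∑ x ∈ Z \ c.Y l, b x • R.p x) - s = 0 := by
        rw [← h2]
        exact Finset.sum_eq_zero fun y hy => by rw [h7 y hy, zero_smul]
      rw [sub_eq_zero.1 h8]
      exact hs
    · rw [Finset.mem_sdiff] at hy
      have h8 := h7 y hy.1
      rw [if_neg hy.2, zero_sub, neg_eq_zero, sub_eq_zero] at h8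
      exact h8
  · rintro ⟨b, hb1, hb2⟩
    refine ⟨R.th (l + 1) (g - ∑ x ∈ Z \ c.Y l, b x • R.p x), hb1, _, ?_, by
      rw [key b, add_assoc]⟩
    refine Submodule.add_mem _ (Submodule.sum_mem _ fun x hx => Submodule.smul_mem _ _
      (mem_Sp (Finset.mem_sdiff.1 hx).1)) (Submodule.sum_mem _ fun y hy => ?_)
    by_cases hyZ : y ∈ Z
    · exact Submodule.smul_mem _ _ (mem_Sp hyZ)
    · rw [hb2 y (Finset.mem_sdiff.2 ⟨hy, hyZ⟩), sub_self, zero_smul]
      exact Submodule.zero_mem _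

end Pool.MP_4929df_co.H92
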