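import Pool.Agent.W_4929df_h92.ChnDefs

/-!
Elementary facts on traces and ranks (proofs row 594, section 3).
-/

set_option autoImplicit false

namespace Pool.MP_4929df_co.H92

open Submodule

variable {F : Type} [Field F] {E : Type} [Fintype E] [DecidableEq E] {V : Type}
  [AddCommGroup V] [Module F V] {c : Chn E} {k : ℕ} {w : E → V}

theorem Chn.A_mono (c : Chn E) {l m : ℕ} (hlm : l ≤ m) (hm : m ≤ c.n) : c.A l ⊆ c.A m := by
  induction m, hlm using Nat.le_induction with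
  | base => exact subset_rfl
  | succ m hlm ih => exact (ih (by omega)).trans (c.mono m (by omega))

theorem ChRep.T_mono (R : ChRep F c k w) (l : ℕ) {S S' : Finset E} (h : S ⊆ S') :
    R.T l S ≤ R.T l S' :=
  Submodule.comap_mono (Sp_mono h)

theorem ChRep.T_empty (R : ChRep F c k w) {l : ℕ} (hl : l ≤ c.n) : R.T l ∅ = ⊥ := by
  unfold ChRep.T
  rw [Sp_empty, Submodule.comap_bot]
  exact LinearMap.ker_eq_bot.2 (R.inj l hl)

theorem ChRep.th_mem (R : ChRep F c k w) {l : ℕ} (hl : l ≤ c.n) (g : Fin k → F) :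
    R.th l g ∈ Sp F w (c.A l) ∧ R.th l g ∈ Sp F w (c.A l)ᶜ := by
  have h : R.th l g ∈ Sp F w (c.A l) ⊓ Sp F w (c.A l)ᶜ := by
    rw [← R.rng l hl]; exact ⟨g, rfl⟩
  exact h

theorem ChRep.T_left (R : ChRep F c k w) {l : ℕ} (hl : l ≤ c.n) : R.T l (c.A l) = ⊤ :=
  eq_top_iff.2 fun g _ => (R.th_mem hl g).1

theorem ChRep.T_right (R : ChRep F c k w) {l : ℕ} (hl : l ≤ c.n) : R.T l (c.A l)ᶜ = ⊤ :=
  eq_top_iff.2 fun g _ => (R.th_mem hl g).2

/-- `Sp S ⊓ Sp S'` is the image of `T S ⊓ T S'` under the injective map `th l`. -/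
theorem ChRep.finrank_T [FiniteDimensional F V] (R : ChRep F c k w) {l : ℕ} (hl : l ≤ c.n)
    {S S' : Finset E} (hS : S ⊆ c.A l) (hS' : S' ⊆ (c.A l)ᶜ) :
    Module.finrank F (Sp F w (S ∪ S')) +
      Module.finrank F (R.T l S ⊓ R.T l S' : Submodule F (Fin k → F)) =
      Module.finrank F (Sp F w S) + Module.finrank F (Sp F w S') := by
  have h1 : Sp F w S ⊓ Sp F w S' =
      (R.T l S ⊓ R.T l S' : Submodule F (Fin k → F)).map (R.th l) := by
    ext v
    constructor
    · rintro ⟨hv, hv'⟩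
      have h2 : v ∈ LinearMap.range (R.th l) := by
        rw [R.rng l hl]
        exact ⟨Sp_mono hS hv, Sp_mono hS' hv'⟩
      obtain ⟨g, rfl⟩ := h2
      exact ⟨g, ⟨hv, hv'⟩, rfl⟩
    · rintro ⟨g, ⟨hg, hg'⟩, rfl⟩
      exact ⟨hg, hg'⟩
  rw [Sp_union, ← Submodule.finrank_sup_add_finrank_inf_eq (Sp F w S) (Sp F w S'), h1,
    (Submodule.equivMapOfInjective (R.th l) (R.inj l hl) _).finrank_eq]

/-- `finrank_T` for the two sides of the cut -/
theorem ChRep.finrank_univ [FiniteDimensional F V] (R : ChRep F c k w) {l : ℕ} (hl : l ≤ c.n) :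
    Module.finrank F (Sp F w Finset.univ) + k =
      Module.finrank F (Sp F w (c.A l)) + Module.finrank F (Sp F w (c.A l)ᶜ) := by
  have h := R.finrank_T hl (subset_refl (c.A l)) (subset_refl (c.A l)ᶜ)
  rw [R.T_left hl, R.T_right hl, inf_top_eq, finrank_top, Module.finrank_fin_fun,
    Finset.union_compl] at h
  exact h

end Pool.MP_4929df_co.H92
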