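import Pool.Agent.W_4929df_h92.ChnA3

/-!
Ranks along the chain (proofs row 594, section 3).
-/

set_option autoImplicit false

namespace Pool.MP_4929df_co.H92

open Submodule

variable {F : Type} [Field F] {E : Type} [Fintype E] [DecidableEq E] {V : Type}
  [AddCommGroup V] [Module F V] {c : Chn E} {k : ℕ} {w : E → V}

private theorem ChnA4_coef {S : Finset E} {v : V} (h : v ∈ Sp F w S) :
    ∃ b : E → F, ∑ i ∈ S, b i • w i = v := by
  induction S using Finset.induction_on generalizing v with
  | empty =>
    rw [Sp_empty] at h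
    exact ⟨fun _ => 0, by rw [Finset.sum_empty]; exact ((Submodule.mem_bot F).1 h).symm⟩
  | insert x S hx ih =>
    rw [Sp_insert] at h
    obtain ⟨u, hu, z, hz, rfl⟩ := Submodule.mem_sup.1 h
    obtain ⟨t, rfl⟩ := Submodule.mem_span_singleton.1 hu
    obtain ⟨b, rfl⟩ := ih hz
    refine ⟨fun i => if i = x then t else b i, ?_⟩
    rw [Finset.sum_insert hx]
    show (if x = x then t else b x) • w x + ∑ i ∈ S, (if i = x then t else b i) • w i = _
    rw [if_pos rfl]
    congr 1
    refine Finset.sum_congr rfl fun i hi => ?_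
    have hix : i ≠ x := by
      rintro rfl
      exact hx hi
    rw [if_neg hix]

omit [Fintype E] [DecidableEq E] in
private theorem ChnA4_card (S : Finset E) : Module.finrank F (Sp F w S) ≤ S.card := by
  classical
  unfold Sp
  have h1 : (w '' (S : Set E)) = ((S.image w : Finset V) : Set V) := by
    rw [Finset.coe_image]
  rw [h1]
  exact (finrank_span_finset_le_card (S.image w)).trans Finset.card_image_le

/-- `Sp (A l ∪ Y') = Sp (A l) ⊕ Sp Y'` and the vectors of `Y'` are independent, `R.indL`. -/
theorem ChRep.finrank_Y [FiniteDimensional F V] (R : ChRep F c k w) {l : ℕ} (hl : l < c.n)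
    {Y' : Finset E} (hY : Y' ⊆ c.Y l) :
    Module.finrank F (Sp F w (c.A l ∪ Y')) = Module.finrank F (Sp F w (c.A l)) + Y'.card := by
  induction Y' using Finset.induction_on with
  | empty => rw [Finset.union_empty, Finset.card_empty, Nat.add_zero]
  | insert y Y' hy ih =>
    have hY1 : Y' ⊆ c.Y l := (Finset.subset_insert y Y').trans hY
    have hyl : y ∈ c.Y l := hY (Finset.mem_insert_self y Y')
    have h1 : w y ∉ Sp F w (c.A l ∪ Y') := by
      intro h2
      rw [Sp_union] at h2
      obtain ⟨u, hu, v, hv, huv⟩ := Submodule.mem_sup.1 h2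
      obtain ⟨b, hb⟩ := ChnA4_coef hv
      obtain ⟨b', hb'⟩ : ∃ b' : E → F, b' = fun i => if i = y then 1 else
        if i ∈ Y' then - b i else 0 := ⟨_, rfl⟩
      have e1 : b' y = 1 := by rw [hb']; exact if_pos rfl
      have e2 : ∀ i ∈ Y', b' i = - b i := by
        intro i hi
        have hiy : i ≠ y := by
          rintro rfl
          exact hy hi
        rw [hb']
        show (if i = y then (1 : F) else if i ∈ Y' then - b i else 0) = _
        rw [if_neg hiy, if_pos hi]
      have e3 : ∀ i, i ∉ insert y Y' → b' i = 0 := by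
        intro i hi
        rw [Finset.mem_insert, not_or] at hi
        rw [hb']
        show (if i = y then (1 : F) else if i ∈ Y' then - b i else 0) = _
        rw [if_neg hi.1, if_neg hi.2]
      have e4 : ∑ i ∈ c.Y l, b' i • w i = u := by
        rw [← Finset.sum_subset hY (fun i _ hi => by rw [e3 i hi, zero_smul]),
          Finset.sum_insert hy, e1, one_smul,
          Finset.sum_congr rfl fun i hi => by rw [e2 i hi, neg_smul], Finset.sum_neg_distrib, hb,
          ← huv]
        abel
      have e5 := R.indL l hl b' (by rw [e4]; exact hu) y hyl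
      rw [e1] at e5
      exact one_ne_zero e5
    have h3 := (not_cl_iff (F := F) (v := w) (Y := (⊥ : Submodule F V)) (A := c.A l ∪ Y')
      (x := y)).2 (by rw [sup_bot_eq]; exact h1)
    unfold rk at h3
    rw [sup_bot_eq, sup_bot_eq] at h3
    rw [Finset.union_insert, h3, ih hY1, Finset.card_insert_of_notMem hy, Nat.add_assoc]

/-- `w x ∈ Sp (A l ∪ Y l)` for `x ∈ X l` by `R.xel`, `R.rng`. -/
theorem ChRep.finrank_succ [FiniteDimensional F V] (R : ChRep F c k w) {l : ℕ} (hl : l < c.n) :
    Module.finrank F (Sp F w (c.A (l + 1))) =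
      Module.finrank F (Sp F w (c.A l)) + (c.Y l).card := by
  have h1 : Sp F w (c.A (l + 1)) = Sp F w (c.A l ∪ c.Y l) := by
    refine le_antisymm (Sp_le.2 fun x hx => ?_) (Sp_mono ?_)
    · by_cases hxA : x ∈ c.A l
      · exact mem_Sp (Finset.mem_union_left _ hxA)
      · by_cases hxY : x ∈ c.Y l
        · exact mem_Sp (Finset.mem_union_right _ hxY)
        · have hxX : x ∈ c.X l := by
            unfold Chn.X
            exact Finset.mem_sdiff.2 ⟨Finset.mem_sdiff.2 ⟨hx, hxA⟩, hxY⟩
          rw [R.xel l hl x hxX]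
          refine Submodule.add_mem _ (Submodule.sum_mem _ fun y hy => ?_) ?_
          · exact Submodule.smul_mem _ _ (mem_Sp (Finset.mem_union_right _ hy))
          · have h2 : R.th l (R.p x) ∈ LinearMap.range (R.th l) := LinearMap.mem_range_self _ _
            rw [R.rng l hl.le] at h2
            exact Sp_mono Finset.subset_union_left h2.1
    · refine Finset.union_subset (c.mono l hl) ?_
      exact (c.sub l hl).trans Finset.sdiff_subset
  rw [h1]
  exact R.finrank_Y hl (Finset.Subset.refl _)

/-- `finrank (Sp (A l)) ≥ k`, so `A l` has at least `k` elements. -/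
theorem ChRep.le_card [FiniteDimensional F V] (R : ChRep F c k w) {l : ℕ} (hl : l ≤ c.n) :
    k ≤ (c.A l).card ∧ k ≤ (c.A l)ᶜ.card := by
  have h1 : Module.finrank F (LinearMap.range (R.th l)) = k := by
    rw [LinearMap.finrank_range_of_inj (R.inj l hl), Module.finrank_fin_fun]
  rw [R.rng l hl] at h1
  constructor
  · calc k = Module.finrank F (Sp F w (c.A l) ⊓ Sp F w (c.A l)ᶜ : Submodule F V) := h1.symm
      _ ≤ Module.finrank F (Sp F w (c.A l)) := Submodule.finrank_mono inf_le_left
      _ ≤ (c.A l).card := ChnA4_card _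
  · calc k = Module.finrank F (Sp F w (c.A l) ⊓ Sp F w (c.A l)ᶜ : Submodule F V) := h1.symm
      _ ≤ Module.finrank F (Sp F w (c.A l)ᶜ) := Submodule.finrank_mono inf_le_right
      _ ≤ (c.A l)ᶜ.card := ChnA4_card _

end Pool.MP_4929df_co.H92
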