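import Pool.Agent.W_4929df_h92.ChnA1

/-!
Operations on traces on the left of a cut (proofs row 594, section 3). All of them follow from
`ChRep.mem_T_left` (`Submodule.ext`).
-/

set_option autoImplicit false

namespace Pool.MP_4929df_co.H92

open Submodule

variable {F : Type} [Field F] {E : Type} [Fintype E] [DecidableEq E] {V : Type}
  [AddCommGroup V] [Module F V] {c : Chn E} {k : ℕ} {w : E → V}

omit [Fintype E] in
private theorem ChnB1_X {l : ℕ} {x : E} (hx : x ∈ c.X l) :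
    x ∈ c.A (l + 1) \ c.A l ∧ x ∉ c.Y l := by
  have h := hx
  unfold Chn.X at h
  exact Finset.mem_sdiff.1 h

theorem ChRep.T_id_left (R : ChRep F c k w) {l : ℕ} (hl : l < c.n) {S : Finset E}
    (hS : S ⊆ c.A l) : R.T (l + 1) (S ∪ c.Y l) = R.T l S := by
  ext g
  rw [R.mem_T_left hl hS (c.sub l hl) g]
  simp

theorem ChRep.T_join_left (R : ChRep F c k w) {l : ℕ} (hl : l < c.n) {S : Finset E}
    (hS : S ⊆ c.A l) {x : E} (hx : x ∈ c.X l) :
    R.T (l + 1) (S ∪ insert x (c.Y l)) = R.T l S ⊔ span F {R.p x} := by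
  obtain ⟨hxA, hxY⟩ := ChnB1_X hx
  have e1 : insert x (c.Y l) \ c.Y l = {x} := by
    ext z
    simp only [Finset.mem_sdiff, Finset.mem_insert, Finset.mem_singleton]
    constructor
    · rintro ⟨h1 | h1, h2⟩
      · exact h1
      · exact absurd h1 h2
    · rintro rfl
      exact ⟨Or.inl rfl, hxY⟩
  have e2 : c.Y l \ insert x (c.Y l) = ∅ := by
    rw [Finset.sdiff_eq_empty_iff_subset]
    exact Finset.subset_insert _ _
  ext g
  rw [R.mem_T_left hl hS (Finset.insert_subset hxA (c.sub l hl)) g, e1, e2, Submodule.mem_sup]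
  constructor
  · rintro ⟨b, h1, _⟩
    rw [Finset.sum_singleton] at h1
    exact ⟨_, h1, b x • R.p x, mem_span_singleton.2 ⟨b x, rfl⟩, by simp⟩
  · rintro ⟨u, hu, v, hv, rfl⟩
    obtain ⟨t, rfl⟩ := mem_span_singleton.1 hv
    refine ⟨fun _ => t, ?_, by simp⟩
    rw [Finset.sum_singleton]
    simpa using hu

theorem ChRep.T_join2_left (R : ChRep F c k w) {l : ℕ} (hl : l < c.n) {S : Finset E}
    (hS : S ⊆ c.A l) {x₁ x₂ : E} (hx₁ : x₁ ∈ c.X l) (hx₂ : x₂ ∈ c.X l) :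
    R.T (l + 1) (S ∪ insert x₁ (insert x₂ (c.Y l))) =
      R.T l S ⊔ span F {R.p x₁} ⊔ span F {R.p x₂} := by
  by_cases h12 : x₁ = x₂
  · subst h12
    rw [Finset.insert_idem, R.T_join_left hl hS hx₁, sup_assoc, sup_idem]
  obtain ⟨hxA₁, hxY₁⟩ := ChnB1_X hx₁
  obtain ⟨hxA₂, hxY₂⟩ := ChnB1_X hx₂
  have e1 : insert x₁ (insert x₂ (c.Y l)) \ c.Y l = {x₁, x₂} := by
    ext z
    simp only [Finset.mem_sdiff, Finset.mem_insert, Finset.mem_singleton]
    constructor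
    · rintro ⟨h1 | h1 | h1, h2⟩
      · exact Or.inl h1
      · exact Or.inr h1
      · exact absurd h1 h2
    · rintro (rfl | rfl)
      · exact ⟨Or.inl rfl, hxY₁⟩
      · exact ⟨Or.inr (Or.inl rfl), hxY₂⟩
  have e2 : c.Y l \ insert x₁ (insert x₂ (c.Y l)) = ∅ := by
    rw [Finset.sdiff_eq_empty_iff_subset]
    exact (Finset.subset_insert _ _).trans (Finset.subset_insert _ _)
  ext g
  rw [R.mem_T_left hl hS (Finset.insert_subset hxA₁ (Finset.insert_subset hxA₂ (c.sub l hl))) g,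
    e1, e2, Submodule.mem_sup]
  constructor
  · rintro ⟨b, h1, _⟩
    rw [Finset.sum_pair h12] at h1
    refine ⟨g - b x₂ • R.p x₂, ?_, b x₂ • R.p x₂, mem_span_singleton.2 ⟨b x₂, rfl⟩, by simp⟩
    rw [Submodule.mem_sup]
    exact ⟨_, h1, b x₁ • R.p x₁, mem_span_singleton.2 ⟨b x₁, rfl⟩, by abel⟩
  · rintro ⟨u, hu, v, hv, rfl⟩
    obtain ⟨u₀, hu₀, v₁, hv₁, rfl⟩ := Submodule.mem_sup.1 hu
    obtain ⟨t, rfl⟩ := mem_span_singleton.1 hv
    obtain ⟨t₁, rfl⟩ := mem_span_singleton.1 hv₁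
    refine ⟨fun z => if z = x₁ then t₁ else t, ?_, by simp⟩
    rw [Finset.sum_pair h12]
    beta_reduce
    rw [if_pos rfl, if_neg (Ne.symm h12)]
    have e3 : u₀ + t₁ • R.p x₁ + t • R.p x₂ - (t₁ • R.p x₁ + t • R.p x₂) = u₀ := by abel
    rw [e3]
    exact hu₀

theorem ChRep.T_kill_left (R : ChRep F c k w) {l : ℕ} (hl : l < c.n) {S : Finset E}
    (hS : S ⊆ c.A l) {y : E} (hy : y ∈ c.Y l) :
    R.T (l + 1) (S ∪ (c.Y l).erase y) = R.T l S ⊓ LinearMap.ker (R.ph y) := by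
  have e1 : (c.Y l).erase y \ c.Y l = ∅ := by
    rw [Finset.sdiff_eq_empty_iff_subset]
    exact Finset.erase_subset _ _
  have e2 : c.Y l \ (c.Y l).erase y = {y} := by
    ext z
    simp only [Finset.mem_sdiff, Finset.mem_erase, Finset.mem_singleton]
    constructor
    · rintro ⟨h1, h2⟩
      by_contra h3
      exact h2 ⟨h3, h1⟩
    · rintro rfl
      exact ⟨hy, fun h => h.1 rfl⟩
  ext g
  rw [R.mem_T_left hl hS ((Finset.erase_subset _ _).trans (c.sub l hl)) g, e1, e2,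
    Submodule.mem_inf, LinearMap.mem_ker]
  simp

theorem ChRep.T_kill2_left (R : ChRep F c k w) {l : ℕ} (hl : l < c.n) {S : Finset E}
    (hS : S ⊆ c.A l) {y₁ y₂ : E} (hy₁ : y₁ ∈ c.Y l) (hy₂ : y₂ ∈ c.Y l) :
    R.T (l + 1) (S ∪ ((c.Y l).erase y₁).erase y₂) =
      R.T l S ⊓ LinearMap.ker (R.ph y₁) ⊓ LinearMap.ker (R.ph y₂) := by
  have e0 : ((c.Y l).erase y₁).erase y₂ ⊆ c.Y l :=
    (Finset.erase_subset _ _).trans (Finset.erase_subset _ _)
  have e1 : ((c.Y l).erase y₁).erase y₂ \ c.Y l = ∅ := by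
    rw [Finset.sdiff_eq_empty_iff_subset]
    exact e0
  have e2 : ∀ z, z ∈ c.Y l \ ((c.Y l).erase y₁).erase y₂ ↔ z = y₁ ∨ z = y₂ := by
    intro z
    simp only [Finset.mem_sdiff, Finset.mem_erase]
    constructor
    · rintro ⟨h1, h2⟩
      by_contra h3
      push Not at h3
      exact h2 ⟨h3.2, h3.1, h1⟩
    · rintro (rfl | rfl)
      · exact ⟨hy₁, fun h => h.2.1 rfl⟩
      · exact ⟨hy₂, fun h => h.1 rfl⟩
  ext g
  rw [R.mem_T_left hl hS (e0.trans (c.sub l hl)) g, e1, Submodule.mem_inf, Submodule.mem_inf,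
    LinearMap.mem_ker, LinearMap.mem_ker]
  simp only [Finset.sum_empty, sub_zero, add_zero, exists_const]
  constructor
  · rintro ⟨h1, h2⟩
    exact ⟨⟨h1, h2 y₁ ((e2 y₁).2 (Or.inl rfl))⟩, h2 y₂ ((e2 y₂).2 (Or.inr rfl))⟩
  · rintro ⟨⟨h1, h2⟩, h3⟩
    refine ⟨h1, fun z hz => ?_⟩
    rcases (e2 z).1 hz with rfl | rfl
    · exact h2
    · exact h3

end Pool.MP_4929df_co.H92
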