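import Pool.Agent.W_4929df_h92.ChnA1

/-!
The swap on the left of a cut (proofs row 594, section 3).
-/

set_option autoImplicit false

namespace Pool.MP_4929df_co.H92

open Submodule

variable {F : Type} [Field F] {E : Type} [Fintype E] [DecidableEq E] {V : Type}
  [AddCommGroup V] [Module F V] {c : Chn E} {k : ℕ} {w : E → V}

/-- From `ChRep.mem_T_left`: `g - b • p ∈ T l S` and `ph g + b * a = 0`; then `g` is the image of
`v = g - b • p` under `kap`, as `ph v = -b * (a + ph p)`. -/
theorem ChRep.T_swap_left (R : ChRep F c k w) {l : ℕ} (hl : l < c.n) {S : Finset E}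
    (hS : S ⊆ c.A l) {x y : E} (hx : x ∈ c.X l) (hy : y ∈ c.Y l)
    (ha : R.a x y + R.ph y (R.p x) ≠ 0) :
    R.T (l + 1) (S ∪ insert x ((c.Y l).erase y)) =
      (R.T l S).map (kap (R.p x) (R.ph y) (R.a x y)) := by
  have hx' : x ∈ c.A (l + 1) \ c.A l ∧ x ∉ c.Y l := Finset.mem_sdiff.1 hx
  have hxy : y ≠ x := fun h => hx'.2 (h ▸ hy)
  have hZ : insert x ((c.Y l).erase y) ⊆ c.A (l + 1) \ c.A l := by
    intro z hz
    rcases Finset.mem_insert.1 hz with h | h
    · rw [h]
      exact hx'.1
    · exact c.sub l hl (Finset.mem_of_mem_erase h)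
  have h1 : insert x ((c.Y l).erase y) \ c.Y l = {x} := by
    ext z
    simp only [Finset.mem_sdiff, Finset.mem_insert, Finset.mem_erase, Finset.mem_singleton]
    constructor
    · rintro ⟨h | h, h2⟩
      · exact h
      · exact absurd h.2 h2
    · rintro rfl
      exact ⟨Or.inl rfl, hx'.2⟩
  have h2 : c.Y l \ insert x ((c.Y l).erase y) = {y} := by
    ext z
    simp only [Finset.mem_sdiff, Finset.mem_insert, Finset.mem_erase, Finset.mem_singleton]
    constructor
    · rintro ⟨h, h2⟩
      by_contra hne
      exact h2 (Or.inr ⟨hne, h⟩)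
    · rintro rfl
      exact ⟨hy, fun h => by
        rcases h with h | h
        · exact hxy h
        · exact h.1 rfl⟩
  ext g
  rw [R.mem_T_left hl hS hZ g, h1, h2, Submodule.mem_map]
  simp only [Finset.sum_singleton, Finset.mem_singleton, forall_eq]
  constructor
  · rintro ⟨b, hb1, hb2⟩
    refine ⟨g - b x • R.p x, hb1, ?_⟩
    have h3 : R.ph y (g - b x • R.p x) = -(b x) * (R.a x y + R.ph y (R.p x)) := by
      rw [map_sub, map_smul, smul_eq_mul]
      linear_combination hb2
    have h4 : (R.a x y + R.ph y (R.p x))⁻¹ * R.ph y (g - b x • R.p x) = -(b x) := by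
      rw [h3]
      field_simp
    simp only [kap, LinearMap.sub_apply, LinearMap.id_apply, LinearMap.smul_apply,
      LinearMap.smulRight_apply]
    rw [smul_smul, h4, neg_smul]
    abel
  · rintro ⟨v, hv, rfl⟩
    refine ⟨fun _ => -((R.a x y + R.ph y (R.p x))⁻¹ * R.ph y v), ?_, ?_⟩
    · have h5 : kap (R.p x) (R.ph y) (R.a x y) v -
          (-((R.a x y + R.ph y (R.p x))⁻¹ * R.ph y v)) • R.p x = v := by
        simp only [kap, LinearMap.sub_apply, LinearMap.id_apply, LinearMap.smul_apply,
          LinearMap.smulRight_apply]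
        rw [smul_smul, neg_smul]
        abel
      rw [h5]
      exact hv
    · simp only [kap, LinearMap.sub_apply, LinearMap.id_apply, LinearMap.smul_apply,
        LinearMap.smulRight_apply, map_sub, map_smul, smul_eq_mul]
      field_simp
      ring

end Pool.MP_4929df_co.H92
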