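import Pool.Agent.W_4929df_h92.ChnA1

/-!
The operation `- y + x₁ + x₂` on the left of a cut (proofs row 594, section 3).
-/

set_option autoImplicit false

namespace Pool.MP_4929df_co.H92

open Submodule

variable {F : Type} [Field F] {E : Type} [Fintype E] [DecidableEq E] {V : Type}
  [AddCommGroup V] [Module F V] {c : Chn E} {k : ℕ} {w : E → V}

/-- From `ChRep.mem_T_left`: `g - b₁ • p₁ - b₂ • p₂ ∈ T l S` and `ph g + b₁ * a₁ + b₂ * a₂ = 0`,
so `(b₁, b₂) = (-ph g / a₁, 0) + s • (a₂, -a₁)` for some `s`; with `g' = g - s • q`,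
`q = a₂ • p₁ - a₁ • p₂`, `ph q = 0`, this says `g' + (ph g' / a₁) • p₁ ∈ T l S`, i.e.
`g' ∈ (T l S).map kap` (`kap` is injective with inverse `1 + a₁⁻¹ p₁ ph` as `ph p₁ = 0`). -/
theorem ChRep.T_tri_left (R : ChRep F c k w) {l : ℕ} (hl : l < c.n) {S : Finset E}
    (hS : S ⊆ c.A l) {x₁ x₂ y : E} (hx₁ : x₁ ∈ c.X l) (hx₂ : x₂ ∈ c.X l) (hx : x₁ ≠ x₂)
    (hy : y ∈ c.Y l) (h1 : R.ph y (R.p x₁) = 0) (h2 : R.ph y (R.p x₂) = 0)
    (ha : R.a x₁ y ≠ 0) :
    R.T (l + 1) (S ∪ insert x₁ (insert x₂ ((c.Y l).erase y))) =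
      (R.T l S).map (kap (R.p x₁) (R.ph y) (R.a x₁ y)) ⊔
        span F {R.a x₂ y • R.p x₁ - R.a x₁ y • R.p x₂} := by
  have hx₁m : x₁ ∈ (c.A (l + 1) \ c.A l) \ c.Y l := hx₁
  have hx₂m : x₂ ∈ (c.A (l + 1) \ c.A l) \ c.Y l := hx₂
  have hx₁A : x₁ ∈ c.A (l + 1) \ c.A l := (Finset.mem_sdiff.mp hx₁m).1
  have hx₁Y : x₁ ∉ c.Y l := (Finset.mem_sdiff.mp hx₁m).2
  have hx₂A : x₂ ∈ c.A (l + 1) \ c.A l := (Finset.mem_sdiff.mp hx₂m).1
  have hx₂Y : x₂ ∉ c.Y l := (Finset.mem_sdiff.mp hx₂m).2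
  have hZ : insert x₁ (insert x₂ ((c.Y l).erase y)) ⊆ c.A (l + 1) \ c.A l := by
    intro z hz
    rcases Finset.mem_insert.mp hz with rfl | hz
    · exact hx₁A
    · rcases Finset.mem_insert.mp hz with rfl | hz
      · exact hx₂A
      · exact c.sub l hl (Finset.mem_of_mem_erase hz)
  have hZY : insert x₁ (insert x₂ ((c.Y l).erase y)) \ c.Y l = {x₁, x₂} := by
    ext z
    simp only [Finset.mem_sdiff, Finset.mem_insert, Finset.mem_erase, Finset.mem_singleton]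
    constructor
    · rintro ⟨h | h | h, h'⟩
      · exact Or.inl h
      · exact Or.inr h
      · exact absurd h.2 h'
    · rintro (rfl | rfl)
      · exact ⟨Or.inl rfl, hx₁Y⟩
      · exact ⟨Or.inr (Or.inl rfl), hx₂Y⟩
  have hYZ : ∀ z, z ∈ c.Y l \ insert x₁ (insert x₂ ((c.Y l).erase y)) ↔ z = y := by
    intro z
    simp only [Finset.mem_sdiff, Finset.mem_insert, Finset.mem_erase]
    constructor
    · rintro ⟨h, h'⟩
      by_contra hne
      exact h' (Or.inr (Or.inr ⟨hne, h⟩))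
    · rintro rfl
      refine ⟨hy, ?_⟩
      rintro (h | h | h)
      · exact hx₁Y (h ▸ hy)
      · exact hx₂Y (h ▸ hy)
      · exact h.1 rfl
  have hmap : ∀ g : Fin k → F, g ∈ (R.T l S).map (kap (R.p x₁) (R.ph y) (R.a x₁ y)) ↔
      g + ((R.a x₁ y)⁻¹ * R.ph y g) • R.p x₁ ∈ R.T l S := by
    intro g
    have hk : ∀ g' : Fin k → F, kap (R.p x₁) (R.ph y) (R.a x₁ y) g' =
        g' - ((R.a x₁ y)⁻¹ * R.ph y g') • R.p x₁ := by
      intro g'
      simp only [kap, h1, add_zero, LinearMap.sub_apply, LinearMap.id_apply,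
        LinearMap.smul_apply, LinearMap.smulRight_apply, smul_smul]
    rw [Submodule.mem_map]
    constructor
    · rintro ⟨g', hg', rfl⟩
      rw [hk]
      have e : R.ph y (g' - ((R.a x₁ y)⁻¹ * R.ph y g') • R.p x₁) = R.ph y g' := by
        rw [map_sub, map_smul, h1, smul_zero, sub_zero]
      rw [e, sub_add_cancel]
      exact hg'
    · intro hg
      refine ⟨_, hg, ?_⟩
      rw [hk]
      have e : R.ph y (g + ((R.a x₁ y)⁻¹ * R.ph y g) • R.p x₁) = R.ph y g := by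
        rw [map_add, map_smul, h1, smul_zero, add_zero]
      rw [e, add_sub_cancel_right]
  -- membership in the right-hand side
  have hq : R.ph y (R.a x₂ y • R.p x₁ - R.a x₁ y • R.p x₂) = 0 := by
    rw [map_sub, map_smul, map_smul, h1, h2, smul_zero, smul_zero, sub_zero]
  have hR : ∀ g : Fin k → F, g ∈ (R.T l S).map (kap (R.p x₁) (R.ph y) (R.a x₁ y)) ⊔
        span F {R.a x₂ y • R.p x₁ - R.a x₁ y • R.p x₂} ↔
      ∃ s : F, g - s • (R.a x₂ y • R.p x₁ - R.a x₁ y • R.p x₂) +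
        ((R.a x₁ y)⁻¹ * R.ph y g) • R.p x₁ ∈ R.T l S := by
    intro g
    rw [Submodule.mem_sup]
    constructor
    · rintro ⟨u, hu, v, hv, rfl⟩
      obtain ⟨s, rfl⟩ := Submodule.mem_span_singleton.1 hv
      refine ⟨s, ?_⟩
      have e : R.ph y (u + s • (R.a x₂ y • R.p x₁ - R.a x₁ y • R.p x₂)) = R.ph y u := by
        rw [map_add, map_smul, hq, smul_zero, add_zero]
      rw [e, add_sub_cancel_right]
      exact (hmap u).1 hu
    · rintro ⟨s, hs⟩
      refine ⟨g - s • (R.a x₂ y • R.p x₁ - R.a x₁ y • R.p x₂), ?_,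
        s • (R.a x₂ y • R.p x₁ - R.a x₁ y • R.p x₂), ?_, sub_add_cancel _ _⟩
      · rw [hmap]
        have e : R.ph y (g - s • (R.a x₂ y • R.p x₁ - R.a x₁ y • R.p x₂)) = R.ph y g := by
          rw [map_sub, map_smul, hq, smul_zero, sub_zero]
        rw [e]
        exact hs
      · exact Submodule.smul_mem _ _ (Submodule.mem_span_singleton_self _)
  ext g
  rw [R.mem_T_left hl hS hZ g, hR]
  simp only [hZY, Finset.sum_pair hx, hYZ, forall_eq]
  constructor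
  · rintro ⟨b, hb, hb2⟩
    refine ⟨-((R.a x₁ y)⁻¹ * b x₂), ?_⟩
    have hb1 : b x₁ = -((R.a x₁ y)⁻¹ * R.ph y g) - (R.a x₁ y)⁻¹ * b x₂ * R.a x₂ y := by
      field_simp
      linear_combination hb2
    have e : g - (-((R.a x₁ y)⁻¹ * b x₂)) • (R.a x₂ y • R.p x₁ - R.a x₁ y • R.p x₂) +
        ((R.a x₁ y)⁻¹ * R.ph y g) • R.p x₁ = g - (b x₁ • R.p x₁ + b x₂ • R.p x₂) := by
      have e2 : b x₂ = (R.a x₁ y)⁻¹ * b x₂ * R.a x₁ y := by
        field_simp
      have e3 : b x₂ • R.p x₂ = ((R.a x₁ y)⁻¹ * b x₂ * R.a x₁ y) • R.p x₂ := by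
        rw [← e2]
      rw [e3, hb1]
      module
    rw [e]
    exact hb
  · rintro ⟨s, hs⟩
    refine ⟨fun x => if x = x₁ then s * R.a x₂ y - (R.a x₁ y)⁻¹ * R.ph y g
      else -(s * R.a x₁ y), ?_, ?_⟩
    · simp only [if_true, if_neg hx.symm]
      have e : g - ((s * R.a x₂ y - (R.a x₁ y)⁻¹ * R.ph y g) • R.p x₁ +
          (-(s * R.a x₁ y)) • R.p x₂) =
          g - s • (R.a x₂ y • R.p x₁ - R.a x₁ y • R.p x₂) +
        ((R.a x₁ y)⁻¹ * R.ph y g) • R.p x₁ := by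
        module
      rw [e]
      exact hs
    · simp only [if_true, if_neg hx.symm]
      field_simp
      ring

end Pool.MP_4929df_co.H92
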