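import Pool.Agent.W_4929df_h92.ChnA1

/-!
The operation `- y₁ - y₂ + x` on the left of a cut (proofs row 594, section 3).
-/

set_option autoImplicit false

namespace Pool.MP_4929df_co.H92

open Submodule

variable {F : Type} [Field F] {E : Type} [Fintype E] [DecidableEq E] {V : Type}
  [AddCommGroup V] [Module F V] {c : Chn E} {k : ℕ} {w : E → V}

/-- From `ChRep.mem_T_left`: `g - b • p ∈ T l S`, `ph₁ g + b * a₁ = 0`, `ph₂ g + b * a₂ = 0`,
i.e. `b = -ph₁ g / a₁`, `g + (ph₁ g / a₁) • p ∈ T l S` (i.e. `g ∈ (T l S).map kap`, as `kap` has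
the inverse `1 + a₁⁻¹ p ph₁`) and `a₂ * ph₁ g - a₁ * ph₂ g = 0`. -/
theorem ChRep.T_cotri_left (R : ChRep F c k w) {l : ℕ} (hl : l < c.n) {S : Finset E}
    (hS : S ⊆ c.A l) {x y₁ y₂ : E} (hx : x ∈ c.X l) (hy₁ : y₁ ∈ c.Y l) (hy₂ : y₂ ∈ c.Y l)
    (hy : y₁ ≠ y₂) (h1 : R.ph y₁ (R.p x) = 0) (h2 : R.ph y₂ (R.p x) = 0)
    (ha : R.a x y₁ ≠ 0) :
    R.T (l + 1) (S ∪ insert x (((c.Y l).erase y₁).erase y₂)) =
      (R.T l S).map (kap (R.p x) (R.ph y₁) (R.a x y₁)) ⊓
        LinearMap.ker (R.a x y₂ • R.ph y₁ - R.a x y₁ • R.ph y₂) := by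
  have hxm : x ∈ (c.A (l + 1) \ c.A l) \ c.Y l := hx
  have hxA : x ∈ c.A (l + 1) \ c.A l := (Finset.mem_sdiff.mp hxm).1
  have hxY : x ∉ c.Y l := (Finset.mem_sdiff.mp hxm).2
  have hZ : insert x (((c.Y l).erase y₁).erase y₂) ⊆ c.A (l + 1) \ c.A l := by
    intro z hz
    rcases Finset.mem_insert.mp hz with rfl | hz
    · exact hxA
    · exact c.sub l hl (Finset.mem_of_mem_erase (Finset.mem_of_mem_erase hz))
  have hZY : insert x (((c.Y l).erase y₁).erase y₂) \ c.Y l = {x} := by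
    ext z
    simp only [Finset.mem_sdiff, Finset.mem_insert, Finset.mem_erase, Finset.mem_singleton]
    constructor
    · rintro ⟨h | h, h'⟩
      · exact h
      · exact absurd h.2.2 h'
    · rintro rfl
      exact ⟨Or.inl rfl, hxY⟩
  have hYZ : ∀ z, z ∈ c.Y l \ insert x (((c.Y l).erase y₁).erase y₂) ↔ z = y₁ ∨ z = y₂ := by
    intro z
    simp only [Finset.mem_sdiff, Finset.mem_insert, Finset.mem_erase]
    constructor
    · rintro ⟨h, h'⟩
      by_contra hne
      apply h'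
      right
      exact ⟨fun h0 => hne (Or.inr h0), fun h0 => hne (Or.inl h0), h⟩
    · rintro (rfl | rfl)
      · refine ⟨hy₁, ?_⟩
        rintro (h | h)
        · exact hxY (h ▸ hy₁)
        · exact h.2.1 rfl
      · refine ⟨hy₂, ?_⟩
        rintro (h | h)
        · exact hxY (h ▸ hy₂)
        · exact h.1 rfl
  have hmap : ∀ g : Fin k → F, g ∈ (R.T l S).map (kap (R.p x) (R.ph y₁) (R.a x y₁)) ↔
      g + ((R.a x y₁)⁻¹ * R.ph y₁ g) • R.p x ∈ R.T l S := by
    intro g
    have hk : ∀ g' : Fin k → F, kap (R.p x) (R.ph y₁) (R.a x y₁) g' =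
        g' - ((R.a x y₁)⁻¹ * R.ph y₁ g') • R.p x := by
      intro g'
      simp only [kap, h1, add_zero, LinearMap.sub_apply, LinearMap.id_apply,
        LinearMap.smul_apply, LinearMap.smulRight_apply, smul_smul]
    rw [Submodule.mem_map]
    constructor
    · rintro ⟨g', hg', rfl⟩
      rw [hk]
      have e : R.ph y₁ (g' - ((R.a x y₁)⁻¹ * R.ph y₁ g') • R.p x) = R.ph y₁ g' := by
        rw [map_sub, map_smul, h1, smul_zero, sub_zero]
      rw [e, sub_add_cancel]
      exact hg'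
    · intro hg
      refine ⟨_, hg, ?_⟩
      rw [hk]
      have e : R.ph y₁ (g + ((R.a x y₁)⁻¹ * R.ph y₁ g) • R.p x) = R.ph y₁ g := by
        rw [map_add, map_smul, h1, smul_zero, add_zero]
      rw [e, add_sub_cancel_right]
  ext g
  rw [R.mem_T_left hl hS hZ g, Submodule.mem_inf, hmap, LinearMap.mem_ker]
  simp only [hZY, Finset.sum_singleton, hYZ, LinearMap.sub_apply, LinearMap.smul_apply,
    smul_eq_mul]
  constructor
  · rintro ⟨b, hb, hb2⟩
    have e1 := hb2 y₁ (Or.inl rfl)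
    have e2 := hb2 y₂ (Or.inr rfl)
    have eb : b x = -((R.a x y₁)⁻¹ * R.ph y₁ g) := by
      field_simp
      linear_combination e1
    refine ⟨?_, ?_⟩
    · rw [eb, neg_smul, sub_neg_eq_add] at hb
      exact hb
    · linear_combination R.a x y₂ * e1 - R.a x y₁ * e2
  · rintro ⟨hg, he⟩
    refine ⟨fun _ => -((R.a x y₁)⁻¹ * R.ph y₁ g), ?_, ?_⟩
    · simp only [neg_smul, sub_neg_eq_add]
      exact hg
    · rintro y (rfl | rfl)
      · field_simp
        ring
      · field_simp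
        linear_combination (-1 : F) * he

end Pool.MP_4929df_co.H92
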