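import Pool.Agent.W_4929df_h92.ChnA2

/-!
Operations on traces on the right of a cut (proofs row 594, section 3). All of them follow from
`ChRep.mem_T_right` (`Submodule.ext`).
-/

set_option autoImplicit false

namespace Pool.MP_4929df_co.H92

open Submodule

variable {F : Type} [Field F] {E : Type} [Fintype E] [DecidableEq E] {V : Type}
  [AddCommGroup V] [Module F V] {c : Chn E} {k : ℕ} {w : E → V}

private theorem X_sub (c : Chn E) {l : ℕ} {x : E} (hx : x ∈ c.X l) :
    x ∈ c.A (l + 1) \ c.A l ∧ x ∉ c.Y l := by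
  unfold Chn.X at hx
  exact Finset.mem_sdiff.1 hx

private theorem insert_sub (c : Chn E) {l : ℕ} (hl : l < c.n) {x : E} (hx : x ∈ c.X l)
    {Z : Finset E} (hZ : Z ⊆ c.Y l) : insert x Z ⊆ c.A (l + 1) \ c.A l :=
  Finset.insert_subset (X_sub c hx).1 (hZ.trans (c.sub l hl))

private theorem insert_sdiff_Y (c : Chn E) {l : ℕ} {x : E} (hx : x ∈ c.X l)
    {Z : Finset E} (hZ : Z ⊆ c.Y l) : insert x Z \ c.Y l = {x} := by
  rw [Finset.insert_sdiff_of_notMem _ (X_sub c hx).2, Finset.sdiff_eq_empty_iff_subset.2 hZ]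
  rfl

theorem ChRep.T_id_right (R : ChRep F c k w) {l : ℕ} (hl : l < c.n) {S : Finset E}
    (hS : S ⊆ (c.A (l + 1))ᶜ) : R.T l (S ∪ c.Y l) = R.T (l + 1) S := by
  ext g
  rw [R.mem_T_right hl hS (c.sub l hl)]
  simp only [Finset.sdiff_self, Finset.sum_empty, sub_zero, Finset.notMem_empty, false_imp_iff,
    implies_true, and_true]
  exact ⟨fun ⟨_, h⟩ => h, fun h => ⟨0, h⟩⟩

theorem ChRep.T_join_right (R : ChRep F c k w) {l : ℕ} (hl : l < c.n) {S : Finset E}
    (hS : S ⊆ (c.A (l + 1))ᶜ) {x : E} (hx : x ∈ c.X l) :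
    R.T l (S ∪ insert x (c.Y l)) = R.T (l + 1) S ⊔ span F {R.p x} := by
  ext g
  rw [R.mem_T_right hl hS (insert_sub c hl hx (Finset.Subset.refl _)),
    insert_sdiff_Y c hx (Finset.Subset.refl _),
    Finset.sdiff_eq_empty_iff_subset.2 (Finset.subset_insert x (c.Y l)), Submodule.mem_sup]
  simp only [Finset.sum_singleton, Finset.notMem_empty, false_imp_iff, implies_true, and_true,
    Submodule.mem_span_singleton]
  constructor
  · rintro ⟨b, hb⟩
    exact ⟨_, hb, _, ⟨b x, rfl⟩, by abel⟩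
  · rintro ⟨v, hv, _, ⟨b, rfl⟩, rfl⟩
    refine ⟨fun _ => b, ?_⟩
    rwa [add_sub_cancel_right]

theorem ChRep.T_kill_right (R : ChRep F c k w) {l : ℕ} (hl : l < c.n) {S : Finset E}
    (hS : S ⊆ (c.A (l + 1))ᶜ) {y : E} (hy : y ∈ c.Y l) :
    R.T l (S ∪ (c.Y l).erase y) = R.T (l + 1) S ⊓ LinearMap.ker (R.ph y) := by
  ext g
  rw [R.mem_T_right hl hS ((Finset.erase_subset y (c.Y l)).trans (c.sub l hl)),
    Finset.sdiff_eq_empty_iff_subset.2 (Finset.erase_subset y (c.Y l)),
    Finset.sdiff_erase_self hy, Submodule.mem_inf, LinearMap.mem_ker]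
  simp only [Finset.sum_empty, sub_zero, Finset.mem_singleton, forall_eq]
  exact ⟨fun ⟨_, h⟩ => h, fun h => ⟨0, h⟩⟩

/-- `g - b • p ∈ T (l+1) S` and `ph g = b * (a + ph p)`; then `g` is the image of `v = g - b • p`
under `kapi`, as `ph v = b * a`. -/
theorem ChRep.T_swap_right (R : ChRep F c k w) {l : ℕ} (hl : l < c.n) {S : Finset E}
    (hS : S ⊆ (c.A (l + 1))ᶜ) {x y : E} (hx : x ∈ c.X l) (hy : y ∈ c.Y l)
    (ha : R.a x y ≠ 0) :
    R.T l (S ∪ insert x ((c.Y l).erase y)) =
      (R.T (l + 1) S).map (kapi (R.p x) (R.ph y) (R.a x y)) := by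
  have hxy : x ≠ y := fun h => (X_sub c hx).2 (h ▸ hy)
  have h1 : c.Y l \ insert x ((c.Y l).erase y) = {y} := by
    ext z
    simp only [Finset.mem_sdiff, Finset.mem_insert, Finset.mem_erase, Finset.mem_singleton, ne_eq]
    constructor
    · rintro ⟨hz, h⟩
      by_contra hzy
      exact h (Or.inr ⟨hzy, hz⟩)
    · rintro rfl
      exact ⟨hy, fun h => h.elim (fun h => hxy h.symm) (fun h => h.1 rfl)⟩
  ext g
  rw [R.mem_T_right hl hS (insert_sub c hl hx (Finset.erase_subset y (c.Y l))),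
    insert_sdiff_Y c hx (Finset.erase_subset y (c.Y l)), h1, Submodule.mem_map]
  simp only [Finset.sum_singleton, Finset.mem_singleton, forall_eq]
  constructor
  · rintro ⟨b, hb, hg⟩
    refine ⟨_, hb, ?_⟩
    have h2 : R.ph y (g - b x • R.p x) = b x * R.a x y := by
      rw [map_sub, map_smul, hg, smul_eq_mul]; ring
    unfold kapi
    simp only [LinearMap.add_apply, LinearMap.id_apply, LinearMap.smul_apply,
      LinearMap.smulRight_apply]
    rw [h2, smul_smul]
    have h3 : (R.a x y)⁻¹ * (b x * R.a x y) = b x := by field_simp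
    rw [h3]
    abel
  · rintro ⟨v, hv, rfl⟩
    refine ⟨fun _ => (R.a x y)⁻¹ * R.ph y v, ?_, ?_⟩
    · unfold kapi
      simp only [LinearMap.add_apply, LinearMap.id_apply, LinearMap.smul_apply,
        LinearMap.smulRight_apply]
      rw [smul_smul, add_sub_cancel_right]
      exact hv
    · unfold kapi
      simp only [LinearMap.add_apply, LinearMap.id_apply, LinearMap.smul_apply,
        LinearMap.smulRight_apply, map_add, map_smul, smul_eq_mul]
      field_simp

end Pool.MP_4929df_co.H92
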