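import Pool.Agent.W_4929df_h92.ChnA2

/-!
The operation `- y + x₁ + x₂` on the right of a cut (proofs row 594,
section 3).
-/

set_option autoImplicit false

namespace Pool.MP_4929df_co.H92

open Submodule

variable {F : Type} [Field F] {E : Type} [Fintype E] [DecidableEq E] {V : Type}
  [AddCommGroup V] [Module F V] {c : Chn E} {k : ℕ} {w : E → V}

/-- From `ChRep.mem_T_right`: `g - b₁ • p₁ - b₂ • p₂ ∈ T (l+1) S` and
`ph g = b₁ * a₁ + b₂ * a₂`, so `(b₁, b₂) = (ph g / a₁, 0) + s • (a₂, -a₁)`; with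
`g' = g - s • q`, `q = a₂ • p₁ - a₁ • p₂`, `ph q = 0`, this says
`g' - (ph g' / a₁) • p₁ ∈ T (l+1) S`, i.e. `g' ∈ (T (l+1) S).map kapi` (`ph p₁ = 0`). -/
theorem ChRep.T_tri_right (R : ChRep F c k w) {l : ℕ} (hl : l < c.n) {S : Finset E}
    (hS : S ⊆ (c.A (l + 1))ᶜ) {x₁ x₂ y : E} (hx₁ : x₁ ∈ c.X l) (hx₂ : x₂ ∈ c.X l)
    (hx : x₁ ≠ x₂) (hy : y ∈ c.Y l) (h1 : R.ph y (R.p x₁) = 0) (h2 : R.ph y (R.p x₂) = 0)
    (ha : R.a x₁ y ≠ 0) :
    R.T l (S ∪ insert x₁ (insert x₂ ((c.Y l).erase y))) =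
      (R.T (l + 1) S).map (kapi (R.p x₁) (R.ph y) (R.a x₁ y)) ⊔
        span F {R.a x₂ y • R.p x₁ - R.a x₁ y • R.p x₂} := by
  have hx1Y : x₁ ∉ c.Y l := (Finset.mem_sdiff.1 hx₁).2
  have hx2Y : x₂ ∉ c.Y l := (Finset.mem_sdiff.1 hx₂).2
  have hZ : insert x₁ (insert x₂ ((c.Y l).erase y)) ⊆ c.A (l + 1) \ c.A l := by
    intro z hz
    rcases Finset.mem_insert.1 hz with h | h
    · rw [h]; exact (Finset.mem_sdiff.1 hx₁).1
    · rcases Finset.mem_insert.1 h with h | h
      · rw [h]; exact (Finset.mem_sdiff.1 hx₂).1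
      · exact c.sub l hl (Finset.mem_of_mem_erase h)
  have e1 : insert x₁ (insert x₂ ((c.Y l).erase y)) \ c.Y l = {x₁, x₂} := by
    ext z
    simp only [Finset.mem_sdiff, Finset.mem_insert, Finset.mem_erase, Finset.mem_singleton]
    constructor
    · rintro ⟨h | h | h, h'⟩
      · exact Or.inl h
      · exact Or.inr h
      · exact absurd h.2 h'
    · rintro (h | h)
      · exact ⟨Or.inl h, by rw [h]; exact hx1Y⟩
      · exact ⟨Or.inr (Or.inl h), by rw [h]; exact hx2Y⟩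
  have e2 : c.Y l \ insert x₁ (insert x₂ ((c.Y l).erase y)) = {y} := by
    ext z
    simp only [Finset.mem_sdiff, Finset.mem_insert, Finset.mem_erase, Finset.mem_singleton]
    constructor
    · rintro ⟨h, h'⟩
      by_contra hzy
      exact h' (Or.inr (Or.inr ⟨hzy, h⟩))
    · rintro h
      rw [h]
      refine ⟨hy, ?_⟩
      rintro (h' | h' | h')
      · rw [h'] at hy; exact hx1Y hy
      · rw [h'] at hy; exact hx2Y hy
      · exact h'.1 rfl
  ext g
  rw [R.mem_T_right hl hS hZ g, e1, e2, Submodule.mem_sup]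
  simp only [Finset.sum_pair hx, Finset.mem_singleton, forall_eq, h1, h2, add_zero]
  constructor
  · rintro ⟨b, hb1, hb2⟩
    refine ⟨_, ⟨_, hb1, rfl⟩, -((R.a x₁ y)⁻¹ * b x₂) • (R.a x₂ y • R.p x₁ - R.a x₁ y • R.p x₂),
      Submodule.smul_mem _ _ (mem_span_singleton_self _), ?_⟩
    simp only [kapi, LinearMap.add_apply, LinearMap.id_apply, LinearMap.smul_apply,
      LinearMap.smulRight_apply, map_sub, map_add, LinearMap.map_smul, h1, h2, smul_zero, add_zero,
      sub_zero, hb2]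
    funext i
    simp only [Pi.add_apply, Pi.sub_apply, Pi.smul_apply, smul_eq_mul]
    field_simp
    ring
  · rintro ⟨_, ⟨t, ht, rfl⟩, v, hv, rfl⟩
    obtain ⟨s, rfl⟩ := mem_span_singleton.1 hv
    refine ⟨fun z => if z = x₁ then (R.a x₁ y)⁻¹ * R.ph y t + s * R.a x₂ y else -(s * R.a x₁ y), ?_, ?_⟩
    · beta_reduce
      rw [if_pos rfl, if_neg (Ne.symm hx)]
      have h3 : (kapi (R.p x₁) (R.ph y) (R.a x₁ y)) t + s • (R.a x₂ y • R.p x₁ - R.a x₁ y • R.p x₂) -
          (((R.a x₁ y)⁻¹ * R.ph y t + s * R.a x₂ y) • R.p x₁ + -(s * R.a x₁ y) • R.p x₂) = t := by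
        simp only [kapi, LinearMap.add_apply, LinearMap.id_apply, LinearMap.smul_apply,
          LinearMap.smulRight_apply]
        funext i
        simp only [Pi.add_apply, Pi.sub_apply, Pi.smul_apply, smul_eq_mul]
        ring
      rw [h3]
      exact ht
    · beta_reduce
      rw [if_pos rfl, if_neg (Ne.symm hx)]
      simp only [kapi, LinearMap.add_apply, LinearMap.id_apply, LinearMap.smul_apply,
        LinearMap.smulRight_apply, map_sub, map_add, LinearMap.map_smul, h1, h2, smul_zero, add_zero,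
        sub_zero, smul_eq_mul]
      field_simp
      ring

end Pool.MP_4929df_co.H92
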