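import Pool.Agent.W_4929df_h92.ChnA2

/-!
The operation `- y₁ - y₂ + x` on the right of a cut (proofs row 594,
section 3).
-/

set_option autoImplicit false

namespace Pool.MP_4929df_co.H92

open Submodule

variable {F : Type} [Field F] {E : Type} [Fintype E] [DecidableEq E] {V : Type}
  [AddCommGroup V] [Module F V] {c : Chn E} {k : ℕ} {w : E → V}

/-- From `ChRep.mem_T_right`: `g - b • p ∈ T (l+1) S`, `ph₁ g = b * a₁`, `ph₂ g = b * a₂`. -/
theorem ChRep.T_cotri_right (R : ChRep F c k w) {l : ℕ} (hl : l < c.n) {S : Finset E}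
    (hS : S ⊆ (c.A (l + 1))ᶜ) {x y₁ y₂ : E} (hx : x ∈ c.X l) (hy₁ : y₁ ∈ c.Y l)
    (hy₂ : y₂ ∈ c.Y l) (hy : y₁ ≠ y₂) (h1 : R.ph y₁ (R.p x) = 0) (h2 : R.ph y₂ (R.p x) = 0)
    (ha : R.a x y₁ ≠ 0) :
    R.T l (S ∪ insert x (((c.Y l).erase y₁).erase y₂)) =
      (R.T (l + 1) S).map (kapi (R.p x) (R.ph y₁) (R.a x y₁)) ⊓
        LinearMap.ker (R.a x y₂ • R.ph y₁ - R.a x y₁ • R.ph y₂) := by
  have hxX : x ∈ c.A (l + 1) \ c.A l ∧ x ∉ c.Y l := by
    have h := hx
    unfold Chn.X at h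
    exact Finset.mem_sdiff.1 h
  have hxy₁ : x ≠ y₁ := fun h => hxX.2 (h ▸ hy₁)
  have hxy₂ : x ≠ y₂ := fun h => hxX.2 (h ▸ hy₂)
  have hEY : ((c.Y l).erase y₁).erase y₂ ⊆ c.Y l :=
    (Finset.erase_subset _ _).trans (Finset.erase_subset _ _)
  have hZ : insert x (((c.Y l).erase y₁).erase y₂) ⊆ c.A (l + 1) \ c.A l :=
    Finset.insert_subset hxX.1 (hEY.trans (c.sub l hl))
  have hZY : insert x (((c.Y l).erase y₁).erase y₂) \ c.Y l = {x} := by
    rw [Finset.insert_sdiff_of_notMem _ hxX.2, Finset.sdiff_eq_empty_iff_subset.2 hEY]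
    rfl
  have hmem : ∀ z, z ∈ c.Y l \ insert x (((c.Y l).erase y₁).erase y₂) ↔ z = y₁ ∨ z = y₂ := by
    intro z
    simp only [Finset.mem_sdiff, Finset.mem_insert, Finset.mem_erase, ne_eq]
    constructor
    · rintro ⟨hz, h⟩
      by_contra hzy
      rw [not_or] at hzy
      exact h (Or.inr ⟨hzy.2, hzy.1, hz⟩)
    · rintro (rfl | rfl)
      · exact ⟨hy₁, fun h => h.elim (fun h => hxy₁ h.symm) (fun h => h.2.1 rfl)⟩
      · exact ⟨hy₂, fun h => h.elim (fun h => hxy₂ h.symm) (fun h => h.1 rfl)⟩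
  ext g
  rw [R.mem_T_right hl hS hZ, hZY, Submodule.mem_inf, Submodule.mem_map, LinearMap.mem_ker]
  simp only [Finset.sum_singleton, LinearMap.sub_apply, LinearMap.smul_apply, smul_eq_mul]
  constructor
  · rintro ⟨b, hb, hg⟩
    have e1 : R.ph y₁ g = b x * R.a x y₁ := by
      rw [hg y₁ ((hmem y₁).2 (Or.inl rfl)), h1, add_zero]
    have e2 : R.ph y₂ g = b x * R.a x y₂ := by
      rw [hg y₂ ((hmem y₂).2 (Or.inr rfl)), h2, add_zero]
    refine ⟨⟨_, hb, ?_⟩, ?_⟩
    · have h3 : R.ph y₁ (g - b x • R.p x) = b x * R.a x y₁ := by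
        rw [map_sub, map_smul, e1, h1, smul_zero, sub_zero]
      unfold kapi
      simp only [LinearMap.add_apply, LinearMap.id_apply, LinearMap.smul_apply,
        LinearMap.smulRight_apply]
      rw [h3, smul_smul]
      have h4 : (R.a x y₁)⁻¹ * (b x * R.a x y₁) = b x := by field_simp
      rw [h4]
      abel
    · rw [e1, e2]
      ring
  · rintro ⟨⟨v, hv, rfl⟩, hk⟩
    have e0 : kapi (R.p x) (R.ph y₁) (R.a x y₁) v =
        v + ((R.a x y₁)⁻¹ * R.ph y₁ v) • R.p x := by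
      unfold kapi
      simp only [LinearMap.add_apply, LinearMap.id_apply, LinearMap.smul_apply,
        LinearMap.smulRight_apply]
      rw [smul_smul]
    have e1 : R.ph y₁ (kapi (R.p x) (R.ph y₁) (R.a x y₁) v) = R.ph y₁ v := by
      rw [e0, map_add, map_smul, h1, smul_zero, add_zero]
    rw [e1] at hk
    refine ⟨fun _ => (R.a x y₁)⁻¹ * R.ph y₁ v, ?_, ?_⟩
    · rw [e0, add_sub_cancel_right]
      exact hv
    · intro z hz
      rcases (hmem z).1 hz with rfl | rfl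
      · rw [e1, h1, add_zero]
        field_simp
      · rw [h2, add_zero]
        have h5 : R.a x y₁ * R.ph z (kapi (R.p x) (R.ph y₁) (R.a x y₁) v) =
            R.a x z * R.ph y₁ v := (sub_eq_zero.1 hk).symm
        refine mul_left_cancel₀ ha ?_
        rw [h5]
        field_simp

end Pool.MP_4929df_co.H92
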