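import Pool.Agent.W_4929df_h92.ChnA3
import Pool.Agent.W_4929df_h92.ChnB1
import Pool.Agent.W_4929df_h92.ChnB2
import Pool.Agent.W_4929df_h92.ChnB3
import Pool.Agent.W_4929df_h92.ChnB4

/-!
Left pairs (proofs row 594, section 3).
-/

set_option autoImplicit false

namespace Pool.MP_4929df_co.H92

open Submodule

variable {F : Type} [Field F] {E : Type} [Fintype E] [DecidableEq E] {V V' : Type}
  [AddCommGroup V] [Module F V] [AddCommGroup V'] [Module F V'] {c : Chn E} {k : ℕ}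
  {w : E → V} {w' : E → V'} {R : ChRep F c k w} {R' : ChRep F c k w'}
  {U U' : Submodule F (Fin k → F)}

omit [Fintype E] in
private theorem ChnD1_sub {l : ℕ} (hl : l < c.n) {S Z : Finset E} (hS : S ⊆ c.A l)
    (hZ : Z ⊆ c.A (l + 1) \ c.A l) : S ∪ Z ⊆ c.A (l + 1) :=
  Finset.union_subset (hS.trans (c.mono l hl)) (hZ.trans Finset.sdiff_subset)

omit [Fintype E] in
private theorem ChnD1_X {l : ℕ} {x : E} (hx : x ∈ c.X l) : x ∈ c.A (l + 1) \ c.A l := by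
  have h := hx
  unfold Chn.X at h
  exact (Finset.mem_sdiff.1 h).1

theorem LP.bot {l : ℕ} (hl : l ≤ c.n) : LP R R' l ⊥ ⊥ := by
  exact ⟨∅, Finset.empty_subset _, R.T_empty hl, R'.T_empty hl⟩

theorem LP.top {l : ℕ} (hl : l ≤ c.n) : LP R R' l ⊤ ⊤ := by
  exact ⟨c.A l, Finset.Subset.refl _, R.T_left hl, R'.T_left hl⟩

/-- induction on `m` with `ChRep.T_id_left` -/
theorem LP.mono {l m : ℕ} (h : LP R R' l U U') (hlm : l ≤ m) (hm : m ≤ c.n) :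
    LP R R' m U U' := by
  induction m, hlm using Nat.le_induction with
  | base => exact h
  | succ m hlm ih =>
    obtain ⟨S, hS, h1, h2⟩ := ih (by omega)
    have hm' : m < c.n := hm
    exact ⟨S ∪ c.Y m, ChnD1_sub hm' hS (c.sub m hm'), (R.T_id_left hm' hS).trans h1,
      (R'.T_id_left hm' hS).trans h2⟩

theorem LP.join {l : ℕ} (h : LP R R' l U U') (hl : l < c.n) {x : E} (hx : x ∈ c.X l) :
    LP R R' (l + 1) (U ⊔ span F {R.p x}) (U' ⊔ span F {R'.p x}) := by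
  obtain ⟨S, hS, rfl, rfl⟩ := h
  exact ⟨S ∪ insert x (c.Y l), ChnD1_sub hl hS (Finset.insert_subset (ChnD1_X hx) (c.sub l hl)),
    R.T_join_left hl hS hx, R'.T_join_left hl hS hx⟩

theorem LP.join2 {l : ℕ} (h : LP R R' l U U') (hl : l < c.n) {x₁ x₂ : E} (hx₁ : x₁ ∈ c.X l)
    (hx₂ : x₂ ∈ c.X l) :
    LP R R' (l + 1) (U ⊔ span F {R.p x₁} ⊔ span F {R.p x₂})
      (U' ⊔ span F {R'.p x₁} ⊔ span F {R'.p x₂}) := by
  obtain ⟨S, hS, rfl, rfl⟩ := h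
  exact ⟨S ∪ insert x₁ (insert x₂ (c.Y l)), ChnD1_sub hl hS (Finset.insert_subset (ChnD1_X hx₁)
    (Finset.insert_subset (ChnD1_X hx₂) (c.sub l hl))),
    R.T_join2_left hl hS hx₁ hx₂, R'.T_join2_left hl hS hx₁ hx₂⟩

theorem LP.kill {l : ℕ} (h : LP R R' l U U') (hl : l < c.n) {y : E} (hy : y ∈ c.Y l) :
    LP R R' (l + 1) (U ⊓ LinearMap.ker (R.ph y)) (U' ⊓ LinearMap.ker (R'.ph y)) := by
  obtain ⟨S, hS, rfl, rfl⟩ := h
  exact ⟨S ∪ (c.Y l).erase y, ChnD1_sub hl hS ((Finset.erase_subset _ _).trans (c.sub l hl)),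
    R.T_kill_left hl hS hy, R'.T_kill_left hl hS hy⟩

theorem LP.kill2 {l : ℕ} (h : LP R R' l U U') (hl : l < c.n) {y₁ y₂ : E} (hy₁ : y₁ ∈ c.Y l)
    (hy₂ : y₂ ∈ c.Y l) :
    LP R R' (l + 1) (U ⊓ LinearMap.ker (R.ph y₁) ⊓ LinearMap.ker (R.ph y₂))
      (U' ⊓ LinearMap.ker (R'.ph y₁) ⊓ LinearMap.ker (R'.ph y₂)) := by
  obtain ⟨S, hS, rfl, rfl⟩ := h
  exact ⟨S ∪ ((c.Y l).erase y₁).erase y₂, ChnD1_sub hl hS (((Finset.erase_subset _ _).trans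
    (Finset.erase_subset _ _)).trans (c.sub l hl)),
    R.T_kill2_left hl hS hy₁ hy₂, R'.T_kill2_left hl hS hy₁ hy₂⟩

theorem LP.swap {l : ℕ} (h : LP R R' l U U') (hl : l < c.n) {x y : E} (hx : x ∈ c.X l)
    (hy : y ∈ c.Y l) (ha : R.a x y + R.ph y (R.p x) ≠ 0)
    (ha' : R'.a x y + R'.ph y (R'.p x) ≠ 0) :
    LP R R' (l + 1) (U.map (kap (R.p x) (R.ph y) (R.a x y)))
      (U'.map (kap (R'.p x) (R'.ph y) (R'.a x y))) := by
  obtain ⟨S, hS, rfl, rfl⟩ := h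
  exact ⟨S ∪ insert x ((c.Y l).erase y), ChnD1_sub hl hS (Finset.insert_subset (ChnD1_X hx)
    ((Finset.erase_subset _ _).trans (c.sub l hl))),
    R.T_swap_left hl hS hx hy ha, R'.T_swap_left hl hS hx hy ha'⟩

theorem LP.tri {l : ℕ} (h : LP R R' l U U') (hl : l < c.n) {x₁ x₂ y : E} (hx₁ : x₁ ∈ c.X l)
    (hx₂ : x₂ ∈ c.X l) (hx : x₁ ≠ x₂) (hy : y ∈ c.Y l)
    (h1 : R.ph y (R.p x₁) = 0) (h2 : R.ph y (R.p x₂) = 0) (ha : R.a x₁ y ≠ 0)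
    (h1' : R'.ph y (R'.p x₁) = 0) (h2' : R'.ph y (R'.p x₂) = 0) (ha' : R'.a x₁ y ≠ 0) :
    LP R R' (l + 1)
      (U.map (kap (R.p x₁) (R.ph y) (R.a x₁ y)) ⊔
        span F {R.a x₂ y • R.p x₁ - R.a x₁ y • R.p x₂})
      (U'.map (kap (R'.p x₁) (R'.ph y) (R'.a x₁ y)) ⊔
        span F {R'.a x₂ y • R'.p x₁ - R'.a x₁ y • R'.p x₂}) := by
  obtain ⟨S, hS, rfl, rfl⟩ := h
  exact ⟨S ∪ insert x₁ (insert x₂ ((c.Y l).erase y)), ChnD1_sub hl hS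
    (Finset.insert_subset (ChnD1_X hx₁) (Finset.insert_subset (ChnD1_X hx₂)
    ((Finset.erase_subset _ _).trans (c.sub l hl)))),
    R.T_tri_left hl hS hx₁ hx₂ hx hy h1 h2 ha, R'.T_tri_left hl hS hx₁ hx₂ hx hy h1' h2' ha'⟩

theorem LP.cotri {l : ℕ} (h : LP R R' l U U') (hl : l < c.n) {x y₁ y₂ : E} (hx : x ∈ c.X l)
    (hy₁ : y₁ ∈ c.Y l) (hy₂ : y₂ ∈ c.Y l) (hy : y₁ ≠ y₂)
    (h1 : R.ph y₁ (R.p x) = 0) (h2 : R.ph y₂ (R.p x) = 0) (ha : R.a x y₁ ≠ 0)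
    (h1' : R'.ph y₁ (R'.p x) = 0) (h2' : R'.ph y₂ (R'.p x) = 0) (ha' : R'.a x y₁ ≠ 0) :
    LP R R' (l + 1)
      (U.map (kap (R.p x) (R.ph y₁) (R.a x y₁)) ⊓
        LinearMap.ker (R.a x y₂ • R.ph y₁ - R.a x y₁ • R.ph y₂))
      (U'.map (kap (R'.p x) (R'.ph y₁) (R'.a x y₁)) ⊓
        LinearMap.ker (R'.a x y₂ • R'.ph y₁ - R'.a x y₁ • R'.ph y₂)) := by
  obtain ⟨S, hS, rfl, rfl⟩ := h
  exact ⟨S ∪ insert x (((c.Y l).erase y₁).erase y₂), ChnD1_sub hl hS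
    (Finset.insert_subset (ChnD1_X hx) (((Finset.erase_subset _ _).trans
    (Finset.erase_subset _ _)).trans (c.sub l hl))),
    R.T_cotri_left hl hS hx hy₁ hy₂ hy h1 h2 ha, R'.T_cotri_left hl hS hx hy₁ hy₂ hy h1' h2' ha'⟩

end Pool.MP_4929df_co.H92
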