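import Pool.Agent.W_4929df_h92.ChnA3
import Pool.Agent.W_4929df_h92.ChnC1
import Pool.Agent.W_4929df_h92.ChnC2
import Pool.Agent.W_4929df_h92.ChnC3

/-!
Right pairs (proofs row 594, section 3).
-/

set_option autoImplicit false

namespace Pool.MP_4929df_co.H92

open Submodule

variable {F : Type} [Field F] {E : Type} [Fintype E] [DecidableEq E] {V V' : Type}
  [AddCommGroup V] [Module F V] [AddCommGroup V'] [Module F V'] {c : Chn E} {k : ℕ}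
  {w : E → V} {w' : E → V'} {R : ChRep F c k w} {R' : ChRep F c k w'}
  {U U' : Submodule F (Fin k → F)}

private theorem ChnD2_S {l : ℕ} (hl : l < c.n) {S : Finset E} (hS : S ⊆ (c.A (l + 1))ᶜ) :
    S ⊆ (c.A l)ᶜ := by
  intro e he
  have h1 := hS he
  rw [Finset.mem_compl] at h1 ⊢
  exact fun h2 => h1 (c.mono l hl h2)

private theorem ChnD2_Y {l : ℕ} (hl : l < c.n) : c.Y l ⊆ (c.A l)ᶜ := by
  intro e he
  rw [Finset.mem_compl]
  exact (Finset.mem_sdiff.1 (c.sub l hl he)).2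

private theorem ChnD2_X {l : ℕ} {x : E} (hx : x ∈ c.X l) : x ∈ (c.A l)ᶜ := by
  rw [Finset.mem_compl]
  exact (Finset.mem_sdiff.1 (Finset.mem_sdiff.1 hx).1).2

theorem RP.bot {l : ℕ} (hl : l ≤ c.n) : RP R R' l ⊥ ⊥ := by
  exact ⟨∅, Finset.empty_subset _, R.T_empty hl, R'.T_empty hl⟩

theorem RP.top {l : ℕ} (hl : l ≤ c.n) : RP R R' l ⊤ ⊤ := by
  exact ⟨(c.A l)ᶜ, Finset.Subset.refl _, R.T_right hl, R'.T_right hl⟩

/-- induction on `m` with `ChRep.T_id_right` -/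
theorem RP.mono {l m : ℕ} (h : RP R R' m U U') (hlm : l ≤ m) (hm : m ≤ c.n) :
    RP R R' l U U' := by
  induction m, hlm using Nat.le_induction with
  | base => exact h
  | succ m hlm ih =>
    obtain ⟨S, hS, h1, h2⟩ := h
    refine ih ⟨S ∪ c.Y m, Finset.union_subset (ChnD2_S (by omega) hS) (ChnD2_Y (by omega)), ?_, ?_⟩ (by omega)
    · rw [R.T_id_right (by omega) hS, h1]
    · rw [R'.T_id_right (by omega) hS, h2]

theorem RP.join {l : ℕ} (h : RP R R' (l + 1) U U') (hl : l < c.n) {x : E} (hx : x ∈ c.X l) :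
    RP R R' l (U ⊔ span F {R.p x}) (U' ⊔ span F {R'.p x}) := by
  obtain ⟨S, hS, h1, h2⟩ := h
  refine ⟨S ∪ insert x (c.Y l), Finset.union_subset (ChnD2_S hl hS)
    (Finset.insert_subset (ChnD2_X hx) (ChnD2_Y hl)), ?_, ?_⟩
  · rw [R.T_join_right hl hS hx, h1]
  · rw [R'.T_join_right hl hS hx, h2]

theorem RP.kill {l : ℕ} (h : RP R R' (l + 1) U U') (hl : l < c.n) {y : E} (hy : y ∈ c.Y l) :
    RP R R' l (U ⊓ LinearMap.ker (R.ph y)) (U' ⊓ LinearMap.ker (R'.ph y)) := by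
  obtain ⟨S, hS, h1, h2⟩ := h
  refine ⟨S ∪ (c.Y l).erase y, Finset.union_subset (ChnD2_S hl hS)
    ((Finset.erase_subset _ _).trans (ChnD2_Y hl)), ?_, ?_⟩
  · rw [R.T_kill_right hl hS hy, h1]
  · rw [R'.T_kill_right hl hS hy, h2]

theorem RP.swap {l : ℕ} (h : RP R R' (l + 1) U U') (hl : l < c.n) {x y : E} (hx : x ∈ c.X l)
    (hy : y ∈ c.Y l) (ha : R.a x y ≠ 0) (ha' : R'.a x y ≠ 0) :
    RP R R' l (U.map (kapi (R.p x) (R.ph y) (R.a x y)))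
      (U'.map (kapi (R'.p x) (R'.ph y) (R'.a x y))) := by
  obtain ⟨S, hS, h1, h2⟩ := h
  refine ⟨S ∪ insert x ((c.Y l).erase y), Finset.union_subset (ChnD2_S hl hS)
    (Finset.insert_subset (ChnD2_X hx) ((Finset.erase_subset _ _).trans (ChnD2_Y hl))), ?_, ?_⟩
  · rw [R.T_swap_right hl hS hx hy ha, h1]
  · rw [R'.T_swap_right hl hS hx hy ha', h2]

theorem RP.tri {l : ℕ} (h : RP R R' (l + 1) U U') (hl : l < c.n) {x₁ x₂ y : E}
    (hx₁ : x₁ ∈ c.X l) (hx₂ : x₂ ∈ c.X l) (hx : x₁ ≠ x₂) (hy : y ∈ c.Y l)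
    (h1 : R.ph y (R.p x₁) = 0) (h2 : R.ph y (R.p x₂) = 0) (ha : R.a x₁ y ≠ 0)
    (h1' : R'.ph y (R'.p x₁) = 0) (h2' : R'.ph y (R'.p x₂) = 0) (ha' : R'.a x₁ y ≠ 0) :
    RP R R' l
      (U.map (kapi (R.p x₁) (R.ph y) (R.a x₁ y)) ⊔
        span F {R.a x₂ y • R.p x₁ - R.a x₁ y • R.p x₂})
      (U'.map (kapi (R'.p x₁) (R'.ph y) (R'.a x₁ y)) ⊔
        span F {R'.a x₂ y • R'.p x₁ - R'.a x₁ y • R'.p x₂}) := by
  obtain ⟨S, hS, e1, e2⟩ := h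
  refine ⟨S ∪ insert x₁ (insert x₂ ((c.Y l).erase y)), Finset.union_subset (ChnD2_S hl hS)
    (Finset.insert_subset (ChnD2_X hx₁) (Finset.insert_subset (ChnD2_X hx₂)
      ((Finset.erase_subset _ _).trans (ChnD2_Y hl)))), ?_, ?_⟩
  · rw [R.T_tri_right hl hS hx₁ hx₂ hx hy h1 h2 ha, e1]
  · rw [R'.T_tri_right hl hS hx₁ hx₂ hx hy h1' h2' ha', e2]

theorem RP.cotri {l : ℕ} (h : RP R R' (l + 1) U U') (hl : l < c.n) {x y₁ y₂ : E}
    (hx : x ∈ c.X l) (hy₁ : y₁ ∈ c.Y l) (hy₂ : y₂ ∈ c.Y l) (hy : y₁ ≠ y₂)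
    (h1 : R.ph y₁ (R.p x) = 0) (h2 : R.ph y₂ (R.p x) = 0) (ha : R.a x y₁ ≠ 0)
    (h1' : R'.ph y₁ (R'.p x) = 0) (h2' : R'.ph y₂ (R'.p x) = 0) (ha' : R'.a x y₁ ≠ 0) :
    RP R R' l
      (U.map (kapi (R.p x) (R.ph y₁) (R.a x y₁)) ⊓
        LinearMap.ker (R.a x y₂ • R.ph y₁ - R.a x y₁ • R.ph y₂))
      (U'.map (kapi (R'.p x) (R'.ph y₁) (R'.a x y₁)) ⊓
        LinearMap.ker (R'.a x y₂ • R'.ph y₁ - R'.a x y₁ • R'.ph y₂)) := by
  obtain ⟨S, hS, e1, e2⟩ := h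
  refine ⟨S ∪ insert x (((c.Y l).erase y₁).erase y₂), Finset.union_subset (ChnD2_S hl hS)
    (Finset.insert_subset (ChnD2_X hx) ((Finset.erase_subset _ _).trans
      ((Finset.erase_subset _ _).trans (ChnD2_Y hl)))), ?_, ?_⟩
  · rw [R.T_cotri_right hl hS hx hy₁ hy₂ hy h1 h2 ha, e1]
  · rw [R'.T_cotri_right hl hS hx hy₁ hy₂ hy h1' h2' ha', e2]

end Pool.MP_4929df_co.H92
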