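import Pool.Agent.W_4929df_h92.ChnD1
import Pool.Agent.W_4929df_h92.ChnD2

/-!
Compatibility of left pairs and right pairs (proofs row 594, section 3).
-/

set_option autoImplicit false

namespace Pool.MP_4929df_co.H92

open Submodule

variable {F : Type} [Field F] {E : Type} [Fintype E] [DecidableEq E] {V V' : Type}
  [AddCommGroup V] [Module F V] [AddCommGroup V'] [Module F V'] {c : Chn E} {k : ℕ}
  {w : E → V} {w' : E → V'} {R : ChRep F c k w} {R' : ChRep F c k w'}
  {U U' W W' : Submodule F (Fin k → F)}

/-- `ChRep.finrank_T` for `R` and `R'` -/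
theorem LP.compat [FiniteDimensional F V] [FiniteDimensional F V'] (hw : SameR F w w') {l : ℕ}
    (h : LP R R' l U U') (h' : RP R R' l W W') (hl : l ≤ c.n) :
    Module.finrank F (U ⊓ W : Submodule F (Fin k → F)) =
      Module.finrank F (U' ⊓ W' : Submodule F (Fin k → F)) := by
  obtain ⟨S, hS, rfl, rfl⟩ := h
  obtain ⟨S', hS', rfl, rfl⟩ := h'
  have h1 := R.finrank_T hl hS hS'
  have h2 := R'.finrank_T hl hS hS'
  have e1 := hw (S ∪ S')
  have e2 := hw S
  have e3 := hw S'
  omega

theorem LP.finrank_eq [FiniteDimensional F V] [FiniteDimensional F V'] (hw : SameR F w w')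
    {l : ℕ} (h : LP R R' l U U') (hl : l ≤ c.n) : Module.finrank F U = Module.finrank F U' := by
  have h1 := LP.compat hw h (RP.top hl) hl
  rwa [inf_top_eq, inf_top_eq] at h1

theorem RP.finrank_eq [FiniteDimensional F V] [FiniteDimensional F V'] (hw : SameR F w w')
    {l : ℕ} (h : RP R R' l W W') (hl : l ≤ c.n) : Module.finrank F W = Module.finrank F W' := by
  have h1 := LP.compat hw (LP.top hl) h hl
  rwa [top_inf_eq, top_inf_eq] at h1

/-- a left pair and a right pair with the same first component which has the same dimension as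
both second components: the second components are equal -/
theorem LP.eq_of_RP [FiniteDimensional F V] [FiniteDimensional F V'] (hw : SameR F w w')
    {l : ℕ} (h : LP R R' l U U') (h' : RP R R' l U W') (hl : l ≤ c.n) : U' = W' := by
  have h1 := LP.compat hw h h' hl
  rw [inf_idem] at h1
  have h2 := LP.finrank_eq hw h hl
  have h3 := RP.finrank_eq hw h' hl
  have e1 : U' ⊓ W' = U' := Submodule.eq_of_le_of_finrank_eq inf_le_left (by omega)
  have e2 : U' ⊓ W' = W' := Submodule.eq_of_le_of_finrank_eq inf_le_right (by omega)
  exact e1.symm.trans e2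

end Pool.MP_4929df_co.H92
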