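import Pool.Agent.W_4929df_h92.Vec

/-!
Definitions for the chain theorem (proofs row 594).
-/

set_option autoImplicit false

namespace Pool.MP_4929df_co.H92

open Submodule

/-- a chain `A 0 ⊆ ... ⊆ A n` with transporting sets `Y l ⊆ A (l+1) \ A l` of the blocks `l < n` -/
structure Chn (E : Type) [DecidableEq E] where
  n : ℕ
  A : ℕ → Finset E
  Y : ℕ → Finset E
  mono : ∀ l, l < n → A l ⊆ A (l + 1)
  sub : ∀ l, l < n → Y l ⊆ A (l + 1) \ A l

/-- the other elements of block `l` -/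
def Chn.X {E : Type} [DecidableEq E] (c : Chn E) (l : ℕ) : Finset E :=
  (c.A (l + 1) \ c.A l) \ c.Y l

/-- coordinates of the vectors `w` along the chain `c` (section 2 of row 594) -/
structure ChRep (F : Type) [Field F] {E : Type} [Fintype E] [DecidableEq E] {V : Type}
    [AddCommGroup V] [Module F V] (c : Chn E) (k : ℕ) (w : E → V) where
  th : ℕ → (Fin k → F) →ₗ[F] V
  p : E → Fin k → F
  ph : E → (Fin k → F) →ₗ[F] F
  a : E → E → F
  inj : ∀ l, l ≤ c.n → Function.Injective (th l)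
  rng : ∀ l, l ≤ c.n → LinearMap.range (th l) = Sp F w (c.A l) ⊓ Sp F w (c.A l)ᶜ
  step : ∀ l, l < c.n → ∀ g, th (l + 1) g = th l g - ∑ y ∈ c.Y l, ph y g • w y
  xel : ∀ l, l < c.n → ∀ x ∈ c.X l, w x = ∑ y ∈ c.Y l, a x y • w y + th l (p x)
  indL : ∀ l, l < c.n → ∀ b : E → F, ∑ y ∈ c.Y l, b y • w y ∈ Sp F w (c.A l) →
    ∀ y ∈ c.Y l, b y = 0
  indR : ∀ l, l < c.n → ∀ b : E → F, ∑ y ∈ c.Y l, b y • w y ∈ Sp F w (c.A (l + 1))ᶜ →
    ∀ y ∈ c.Y l, b y = 0
  top : Sp F w Finset.univ = ⊤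

section

variable {F : Type} [Field F] {E : Type} [Fintype E] [DecidableEq E] {V V' : Type}
  [AddCommGroup V] [Module F V] [AddCommGroup V'] [Module F V'] {c : Chn E} {k : ℕ}
  {w : E → V} {w' : E → V'}

/-- the trace `{g | th l g ∈ span S}` of `S` at the cut `l` -/
def ChRep.T (R : ChRep F c k w) (l : ℕ) (S : Finset E) : Submodule F (Fin k → F) :=
  (Sp F w S).comap (R.th l)

/-- left pairs: traces at the cut `l` of the same set `S ⊆ A l` in two representations -/
def LP (R : ChRep F c k w) (R' : ChRep F c k w') (l : ℕ) (U U' : Submodule F (Fin k → F)) : Prop :=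
  ∃ S, S ⊆ c.A l ∧ R.T l S = U ∧ R'.T l S = U'

/-- right pairs: traces at the cut `l` of the same set `S` disjoint from `A l` -/
def RP (R : ChRep F c k w) (R' : ChRep F c k w') (l : ℕ) (U U' : Submodule F (Fin k → F)) : Prop :=
  ∃ S, S ⊆ (c.A l)ᶜ ∧ R.T l S = U ∧ R'.T l S = U'

/-- the same rank function -/
def SameR (F : Type) [Field F] {E : Type} {V V' : Type} [AddCommGroup V] [Module F V]
    [AddCommGroup V'] [Module F V'] (w : E → V) (w' : E → V') : Prop :=
  ∀ S : Finset E, Module.finrank F (Sp F w S) = Module.finrank F (Sp F w' S)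

/-- shared letters: the same points `p x` and functionals `ph y` -/
def Sh (R : ChRep F c k w) (R' : ChRep F c k w') : Prop :=
  (∀ l, l < c.n → ∀ x ∈ c.X l, R.p x = R'.p x) ∧ ∀ l, l < c.n → ∀ y ∈ c.Y l, R.ph y = R'.ph y

/-- all blocks have rank or corank at most one -/
def Chn.Small (c : Chn E) : Prop := ∀ l, l < c.n → (c.Y l).card ≤ 1 ∨ (c.X l).card ≤ 1

/-- 4-connectivity -/
def Four (F : Type) [Field F] {E : Type} [Fintype E] [DecidableEq E] {V : Type} [AddCommGroup V]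
    [Module F V] (w : E → V) : Prop :=
  ∀ P : Finset E, ∀ j : ℕ, j < 4 → j ≤ P.card → j ≤ Pᶜ.card →
    Module.finrank F (Sp F w Finset.univ) + j ≤
      Module.finrank F (Sp F w P) + Module.finrank F (Sp F w Pᶜ)

/-- types of blocks -/
abbrev Ty (F : Type) [Field F] (k : ℕ) : Type :=
  Set ((Fin k → F) × ((Fin k → F) →ₗ[F] F) × F) × Set (Fin k → F) ×
    Set ((Fin k → F) →ₗ[F] F) × Prop × Prop

/-- the type of block `l` -/
def ChRep.ty (R : ChRep F c k w) (l : ℕ) : Ty F k :=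
  ({z | ∃ x ∈ c.X l, ∃ y ∈ c.Y l, (R.p x, R.ph y, R.a x y) = z}, {z | ∃ x ∈ c.X l, R.p x = z},
    {z | ∃ y ∈ c.Y l, R.ph y = z}, (c.Y l).card ≤ 1, (c.X l).card ≤ 1)

/-- visible pairs: `(U, U')` is a left pair at the cut `L` and `U` is the first component of a
right pair at the cut `M` -/
def Vis (R : ChRep F c k w) (R' : ChRep F c k w') (L M : ℕ)
    (U U' : Submodule F (Fin k → F)) : Prop := LP R R' L U U' ∧ ∃ U'', RP R R' M U U''

end

/-- the swap map on left traces -/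
def kap {F : Type} [Field F] {k : ℕ} (p : Fin k → F) (f : (Fin k → F) →ₗ[F] F) (a : F) :
    (Fin k → F) →ₗ[F] (Fin k → F) := LinearMap.id - (a + f p)⁻¹ • f.smulRight p

/-- the swap map on right traces -/
def kapi {F : Type} [Field F] {k : ℕ} (p : Fin k → F) (f : (Fin k → F) →ₗ[F] F) (a : F) :
    (Fin k → F) →ₗ[F] (Fin k → F) := LinearMap.id + a⁻¹ • f.smulRight p

/-- types of classes -/
def Cls (τ : Type) : ℕ → Type
  | 0 => τ
  | r + 1 => Cls τ r × Set (Cls τ r) × Set (Cls τ r)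

/-- classes of positions `< n` with respect to the types `ty` -/
def cls {τ : Type} (n : ℕ) (ty : ℕ → τ) : (r : ℕ) → ℕ → Cls τ r
  | 0, i => ty i
  | r + 1, i => (cls n ty r i, {z | ∃ m, m < i ∧ cls n ty r m = z},
      {z | ∃ m, i < m ∧ m < n ∧ cls n ty r m = z})

/-- context of two positions `i < j` with the same type: 8 further positions of this type on both
sides, and copies of everything in between further out -/
structure Ctx {τ : Type} (n : ℕ) (ty : ℕ → τ) (i j : ℕ) (L M : ℕ → ℕ) : Prop where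
  hij : i < j
  hj : j < n
  ht : ty i = ty j
  L0 : L 0 = i
  M0 : M 0 = j
  Ls : ∀ s, s < 8 → L (s + 1) < L s
  Ms : ∀ s, s < 8 → M s < M (s + 1)
  Mn : ∀ s, s ≤ 8 → M s < n
  tL : ∀ s, s ≤ 8 → ty (L s) = ty i
  tM : ∀ s, s ≤ 8 → ty (M s) = ty i
  wordL : ∀ m, i ≤ m → m ≤ j → ∃ b m', b < m' ∧ m' < L 8 ∧ ty b = ty i ∧ ty m' = ty m
  wordR : ∀ m, i ≤ m → m ≤ j → ∃ m' b, M 8 < m' ∧ m' < b ∧ b < n ∧ ty m' = ty m ∧ ty b = ty i

end Pool.MP_4929df_co.H92
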