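import Pool.Agent.W_4929df_h92.ChnA3

/-!
End sets (proofs row 594, section 11).
-/

set_option autoImplicit false

namespace Pool.MP_4929df_co.H92

open Submodule

variable {F : Type} [Field F] {E : Type} [Fintype E] [DecidableEq E] {V : Type}
  [AddCommGroup V] [Module F V] {c : Chn E} {k : ℕ} {w : E → V}

/-- A subset `S` of `A` such that `Sp S` is a complement of `W` in `Sp A`: of the sets `S ⊆ A`
with `Disjoint (Sp S) W` take one with the most elements of rank `finrank (Sp S)`, or a maximal
one: then every `w e`, `e ∈ A`, is in `Sp S ⊔ W`. -/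
theorem exists_compl_set [FiniteDimensional F V] (w : E → V) (A : Finset E) (W : Submodule F V)
    (hW : W ≤ Sp F w A) : ∃ S ⊆ A, Disjoint (Sp F w S) W ∧ Sp F w S ⊔ W = Sp F w A := by
  classical
  obtain ⟨S, hS, hmax⟩ := Finset.exists_max_image
    (A.powerset.filter fun S => Disjoint (Sp F w S) W) Finset.card
    ⟨∅, by simp [Sp_empty]⟩
  rw [Finset.mem_filter, Finset.mem_powerset] at hS
  refine ⟨S, hS.1, hS.2, le_antisymm (sup_le (Sp_mono hS.1) hW) (Sp_le.2 fun e he => ?_)⟩
  by_cases heS : e ∈ S
  · exact Submodule.mem_sup_left (mem_Sp heS)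
  · by_contra hne
    have h1 : Disjoint (Sp F w (insert e S)) W := by
      rw [Submodule.disjoint_def]
      intro x hx hxW
      rw [Sp_insert, Submodule.mem_sup] at hx
      obtain ⟨y, hy, z, hz, rfl⟩ := hx
      obtain ⟨a, rfl⟩ := Submodule.mem_span_singleton.1 hy
      by_cases ha : a = 0
      · subst ha
        rw [zero_smul, zero_add] at hxW ⊢
        exact Submodule.disjoint_def.1 hS.2 z hz hxW
      · exfalso
        apply hne
        have h2 : w e = a⁻¹ • (-z) + a⁻¹ • (a • w e + z) := by
          rw [smul_neg, smul_add, smul_smul, inv_mul_cancel₀ ha, one_smul]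
          abel
        rw [h2]
        exact Submodule.add_mem_sup (Submodule.smul_mem _ _ (Submodule.neg_mem _ hz))
          (Submodule.smul_mem _ _ hxW)
    have h3 := hmax (insert e S) (by
      rw [Finset.mem_filter, Finset.mem_powerset]
      exact ⟨Finset.insert_subset he hS.1, h1⟩)
    rw [Finset.card_insert_of_notMem heS] at h3
    omega

end Pool.MP_4929df_co.H92
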