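import Pool.Agent.W_4929df_h92.ChnA3
import Pool.Agent.W_4929df_h92.ChnE0

/-!
End sets (proofs row 594, section 11).
-/

set_option autoImplicit false

namespace Pool.MP_4929df_co.H92

open Submodule

variable {F : Type} [Field F] {E : Type} [Fintype E] [DecidableEq E] {V : Type}
  [AddCommGroup V] [Module F V] {c : Chn E} {k : ℕ} {w : E → V}

/-- `exists_compl_set` pulled back along an injective map into `Sp A` -/
private theorem compl_of [FiniteDimensional F V] (w : E → V) (A : Finset E)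
    (t : (Fin k → F) →ₗ[F] V) (ht : Function.Injective t) (hr : ∀ g, t g ∈ Sp F w A)
    (W : Submodule F (Fin k → F)) : ∃ S ⊆ A, IsCompl ((Sp F w S).comap t) W := by
  have hW : W.map t ≤ Sp F w A := by
    rintro _ ⟨g, _, rfl⟩
    exact hr g
  obtain ⟨S, hSA, hd, hs⟩ := exists_compl_set (F := F) w A (W.map t) hW
  refine ⟨S, hSA, ?_, ?_⟩
  · rw [Submodule.disjoint_def]
    intro g hg hgW
    have h0 : t g = 0 := (Submodule.disjoint_def.mp hd) (t g) hg ⟨g, hgW, rfl⟩
    exact ht (h0.trans (map_zero t).symm)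
  · rw [codisjoint_iff, eq_top_iff]
    rintro g -
    have h1 : t g ∈ Sp F w S ⊔ W.map t := by
      rw [hs]
      exact hr g
    obtain ⟨s, hs1, u, ⟨v, hv, rfl⟩, hsu⟩ := Submodule.mem_sup.mp h1
    refine Submodule.mem_sup.mpr ⟨g - v, ?_, v, hv, sub_add_cancel g v⟩
    have h2 : t (g - v) = s := by
      rw [map_sub, ← hsu, add_sub_cancel_right]
    show t (g - v) ∈ Sp F w S
    rw [h2]
    exact hs1

/-- `exists_compl_set` for the image of `W` under `th l` and the modular law -/
theorem ChRep.exists_left_compl [FiniteDimensional F V] (R : ChRep F c k w) {l : ℕ}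
    (hl : l ≤ c.n) (W : Submodule F (Fin k → F)) : ∃ S ⊆ c.A l, IsCompl (R.T l S) W := by
  refine compl_of w (c.A l) (R.th l) (R.inj l hl) (fun g => ?_) W
  have h : R.th l g ∈ LinearMap.range (R.th l) := ⟨g, rfl⟩
  rw [R.rng l hl] at h
  exact h.1

theorem ChRep.exists_right_compl [FiniteDimensional F V] (R : ChRep F c k w) {l : ℕ}
    (hl : l ≤ c.n) (W : Submodule F (Fin k → F)) : ∃ S ⊆ (c.A l)ᶜ, IsCompl (R.T l S) W := by
  refine compl_of w (c.A l)ᶜ (R.th l) (R.inj l hl) (fun g => ?_) W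
  have h : R.th l g ∈ LinearMap.range (R.th l) := ⟨g, rfl⟩
  rw [R.rng l hl] at h
  exact h.2

end Pool.MP_4929df_co.H92
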