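import Pool.Agent.W_4929df_h92.ChnA3

/-!
Zero patterns are the same in two representations (proofs row 594, section 6).
-/

set_option autoImplicit false

namespace Pool.MP_4929df_co.H92

open Submodule

variable {F : Type} [Field F] {E : Type} [Fintype E] [DecidableEq E] {V V' : Type}
  [AddCommGroup V] [Module F V] [AddCommGroup V'] [Module F V'] {c : Chn E} {k : ℕ}
  {w : E → V} {w' : E → V'}

private theorem ChnF1_cl [FiniteDimensional F V] (x : E) (S : Finset E) :
    w x ∈ Sp F w S ↔ Module.finrank F (Sp F w (insert x S)) = Module.finrank F (Sp F w S) := by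
  constructor
  · intro h
    rw [Sp_insert, sup_eq_right.2 ((span_singleton_le_iff_mem _ _).2 h)]
  · intro h
    have h1 : Sp F w S = Sp F w (insert x S) :=
      Submodule.eq_of_le_of_finrank_eq (Sp_mono (Finset.subset_insert x S)) h.symm
    rw [h1]
    exact mem_Sp (Finset.mem_insert_self x S)

/-- closures are the same -/
theorem SameR.mem_iff [FiniteDimensional F V] [FiniteDimensional F V'] (hw : SameR F w w')
    (x : E) (S : Finset E) : w x ∈ Sp F w S ↔ w' x ∈ Sp F w' S := by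
  rw [ChnF1_cl, ChnF1_cl, hw, hw]

private theorem ChnF1_mem {S : Finset E} {v : V} (h : v ∈ Sp F w S) :
    ∃ b : E → F, v = ∑ y ∈ S, b y • w y := by
  unfold Sp at h
  refine Submodule.span_induction (p := fun v _ => ∃ b : E → F, v = ∑ y ∈ S, b y • w y) ?_ ?_ ?_ ?_ h
  · rintro _ ⟨y, hy, rfl⟩
    refine ⟨fun z => if z = y then 1 else 0, ?_⟩
    rw [Finset.sum_eq_single y]
    · simp
    · intro z _ hz
      simp [hz]
    · intro hn
      exact absurd (Finset.mem_coe.1 hy) hn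
  · exact ⟨0, by simp⟩
  · rintro u v _ _ ⟨b, hb⟩ ⟨b', hb'⟩
    refine ⟨b + b', ?_⟩
    rw [hb, hb', ← Finset.sum_add_distrib]
    exact Finset.sum_congr rfl fun y _ => by rw [Pi.add_apply, add_smul]
  · rintro t v _ ⟨b, hb⟩
    refine ⟨t • b, ?_⟩
    rw [hb, Finset.smul_sum]
    exact Finset.sum_congr rfl fun y _ => by rw [Pi.smul_apply, smul_eq_mul, mul_smul]

private theorem ChnF1_key {W : Submodule F V} {Y : Finset E}
    (hind : ∀ b : E → F, ∑ y ∈ Y, b y • w y ∈ W → ∀ y ∈ Y, b y = 0) {a : E → F} {v t : V}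
    (hv : v = ∑ y ∈ Y, a y • w y + t) (ht : t ∈ W) {y : E} (hy : y ∈ Y) :
    a y = 0 ↔ v ∈ W ⊔ Sp F w (Y.erase y) := by
  constructor
  · intro h
    rw [hv, ← Finset.sum_erase_add Y _ hy, h, zero_smul, add_zero]
    refine add_mem (mem_sup_right ?_) (mem_sup_left ht)
    exact sum_mem fun z hz => smul_mem _ _ (mem_Sp hz)
  · intro h
    obtain ⟨u, hu, u', hu', he⟩ := Submodule.mem_sup.1 h
    obtain ⟨b, hb⟩ := ChnF1_mem hu'
    have h1 : ∑ z ∈ Y, (a z - if z = y then 0 else b z) • w z = u - t := by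
      have e1 : ∑ z ∈ Y, (a z - if z = y then 0 else b z) • w z =
          ∑ z ∈ Y, a z • w z - ∑ z ∈ Y, (if z = y then 0 else b z) • w z := by
        rw [← Finset.sum_sub_distrib]
        exact Finset.sum_congr rfl fun z _ => sub_smul _ _ _
      have e2 : ∑ z ∈ Y, (if z = y then 0 else b z) • w z = u' := by
        rw [← Finset.sum_erase_add Y _ hy, if_pos rfl, zero_smul, add_zero, hb]
        refine Finset.sum_congr rfl fun z hz => ?_
        rw [if_neg (Finset.ne_of_mem_erase hz)]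
      have e3 : ∑ z ∈ Y, a z • w z = v - t := by
        rw [hv, add_sub_cancel_right]
      rw [e1, e2, e3, ← he]
      abel
    have h2 := hind (fun z => a z - if z = y then 0 else b z) (by
      rw [h1]
      exact sub_mem hu ht) y hy
    simpa using h2

theorem ChRep.a_eq_zero_iff (R : ChRep F c k w) {l : ℕ} (hl : l < c.n) {x y : E}
    (hx : x ∈ c.X l) (hy : y ∈ c.Y l) :
    R.a x y = 0 ↔ w x ∈ Sp F w (c.A l ∪ (c.Y l).erase y) := by
  have ht : R.th l (R.p x) ∈ Sp F w (c.A l) := by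
    have h1 : R.th l (R.p x) ∈ LinearMap.range (R.th l) := ⟨_, rfl⟩
    rw [R.rng l hl.le] at h1
    exact h1.1
  rw [Sp_union]
  exact ChnF1_key (R.indL l hl) (a := R.a x) (R.xel l hl x hx) ht hy

theorem ChRep.aph_eq_zero_iff (R : ChRep F c k w) {l : ℕ} (hl : l < c.n) {x y : E}
    (hx : x ∈ c.X l) (hy : y ∈ c.Y l) :
    R.a x y + R.ph y (R.p x) = 0 ↔ w x ∈ Sp F w ((c.A (l + 1))ᶜ ∪ (c.Y l).erase y) := by
  have ht : R.th (l + 1) (R.p x) ∈ Sp F w (c.A (l + 1))ᶜ := by
    have h1 : R.th (l + 1) (R.p x) ∈ LinearMap.range (R.th (l + 1)) := ⟨_, rfl⟩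
    rw [R.rng (l + 1) hl] at h1
    exact h1.2
  rw [Sp_union]
  refine ChnF1_key (R.indR l hl) (a := fun y => R.a x y + R.ph y (R.p x)) ?_ ht hy
  rw [R.step l hl, R.xel l hl x hx]
  have e1 : ∑ y ∈ c.Y l, (R.a x y + R.ph y (R.p x)) • w y =
      ∑ y ∈ c.Y l, R.a x y • w y + ∑ y ∈ c.Y l, R.ph y (R.p x) • w y := by
    rw [← Finset.sum_add_distrib]
    exact Finset.sum_congr rfl fun z _ => add_smul _ _ _
  rw [e1]
  abel

theorem SameR.a_iff [FiniteDimensional F V] [FiniteDimensional F V'] (hw : SameR F w w')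
    (R : ChRep F c k w) (R' : ChRep F c k w') {l : ℕ} (hl : l < c.n) {x y : E}
    (hx : x ∈ c.X l) (hy : y ∈ c.Y l) : R.a x y = 0 ↔ R'.a x y = 0 := by
  rw [R.a_eq_zero_iff hl hx hy, R'.a_eq_zero_iff hl hx hy]
  exact hw.mem_iff x _

theorem SameR.aph_iff [FiniteDimensional F V] [FiniteDimensional F V'] (hw : SameR F w w')
    (R : ChRep F c k w) (R' : ChRep F c k w') {l : ℕ} (hl : l < c.n) {x y : E}
    (hx : x ∈ c.X l) (hy : y ∈ c.Y l) :
    R.a x y + R.ph y (R.p x) = 0 ↔ R'.a x y + R'.ph y (R'.p x) = 0 := by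
  rw [R.aph_eq_zero_iff hl hx hy, R'.aph_eq_zero_iff hl hx hy]
  exact hw.mem_iff x _

end Pool.MP_4929df_co.H92
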