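import Pool.Agent.W_4929df_h92.ChnD3

/-!
Parallel letters are the same in two representations (proofs row 594, section 6).
-/

set_option autoImplicit false

namespace Pool.MP_4929df_co.H92

open Submodule

variable {F : Type} [Field F] {E : Type} [Fintype E] [DecidableEq E] {V V' : Type}
  [AddCommGroup V] [Module F V] [AddCommGroup V'] [Module F V'] {c : Chn E} {k : ℕ}
  {w : E → V} {w' : E → V'}

private theorem ChnF2_pp [FiniteDimensional F V] [FiniteDimensional F V'] (hw : SameR F w w')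
    (R : ChRep F c k w) (R' : ChRep F c k w') {l l' : ℕ} (hl : l < c.n) (hl' : l' < c.n)
    (hll : l ≤ l') {x x' : E} (hx : x ∈ c.X l) (hx' : x' ∈ c.X l') :
    Module.finrank F (span F {R.p x} ⊔ span F {R.p x'} : Submodule F (Fin k → F)) =
      Module.finrank F (span F {R'.p x} ⊔ span F {R'.p x'} : Submodule F (Fin k → F)) := by
  have h0 : LP R R' l ⊥ ⊥ := LP.bot hl.le
  rcases Nat.eq_or_lt_of_le hll with rfl | h
  · have h1 := h0.join2 hl hx hx'
    have h2 := h1.finrank_eq hw hl
    rwa [bot_sup_eq, bot_sup_eq] at h2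
  · have h1 := ((h0.join hl hx).mono (Nat.succ_le_of_lt h) hl'.le).join hl' hx'
    have h2 := h1.finrank_eq hw hl'
    rwa [bot_sup_eq, bot_sup_eq] at h2

/-- joins from `⊥` (`LP.join2` if the blocks are the same) and `LP.finrank_eq` -/
theorem finrank_pp [FiniteDimensional F V] [FiniteDimensional F V'] (hw : SameR F w w')
    (R : ChRep F c k w) (R' : ChRep F c k w') {l l' : ℕ} (hl : l < c.n) (hl' : l' < c.n)
    {x x' : E} (hx : x ∈ c.X l) (hx' : x' ∈ c.X l') :
    Module.finrank F (span F {R.p x} ⊔ span F {R.p x'} : Submodule F (Fin k → F)) =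
      Module.finrank F (span F {R'.p x} ⊔ span F {R'.p x'} : Submodule F (Fin k → F)) := by
  rcases le_total l l' with h | h
  · exact ChnF2_pp hw R R' hl hl' h hx hx'
  · rw [sup_comm, sup_comm (span F {R'.p x})]
    exact ChnF2_pp hw R R' hl' hl h hx' hx

private theorem ChnF2_ff [FiniteDimensional F V] [FiniteDimensional F V'] (hw : SameR F w w')
    (R : ChRep F c k w) (R' : ChRep F c k w') {l l' : ℕ} (hl : l < c.n) (hl' : l' < c.n)
    (hll : l ≤ l') {y y' : E} (hy : y ∈ c.Y l) (hy' : y' ∈ c.Y l') :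
    Module.finrank F (LinearMap.ker (R.ph y) ⊓ LinearMap.ker (R.ph y') :
      Submodule F (Fin k → F)) =
      Module.finrank F (LinearMap.ker (R'.ph y) ⊓ LinearMap.ker (R'.ph y') :
        Submodule F (Fin k → F)) := by
  have h0 : LP R R' l ⊤ ⊤ := LP.top hl.le
  rcases Nat.eq_or_lt_of_le hll with rfl | h
  · have h1 := h0.kill2 hl hy hy'
    have h2 := h1.finrank_eq hw hl
    rwa [top_inf_eq, top_inf_eq] at h2
  · have h1 := ((h0.kill hl hy).mono (Nat.succ_le_of_lt h) hl'.le).kill hl' hy'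
    have h2 := h1.finrank_eq hw hl'
    rwa [top_inf_eq, top_inf_eq] at h2

/-- kills from `⊤` (`LP.kill2` if the blocks are the same) and `LP.finrank_eq` -/
theorem finrank_ff [FiniteDimensional F V] [FiniteDimensional F V'] (hw : SameR F w w')
    (R : ChRep F c k w) (R' : ChRep F c k w') {l l' : ℕ} (hl : l < c.n) (hl' : l' < c.n)
    {y y' : E} (hy : y ∈ c.Y l) (hy' : y' ∈ c.Y l') :
    Module.finrank F (LinearMap.ker (R.ph y) ⊓ LinearMap.ker (R.ph y') :
      Submodule F (Fin k → F)) =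
      Module.finrank F (LinearMap.ker (R'.ph y) ⊓ LinearMap.ker (R'.ph y') :
        Submodule F (Fin k → F)) := by
  rcases le_total l l' with h | h
  · exact ChnF2_ff hw R R' hl hl' h hy hy'
  · rw [inf_comm, inf_comm (LinearMap.ker (R'.ph y))]
    exact ChnF2_ff hw R R' hl' hl h hy' hy

/-- if the points of `x`, `x'` are the same in `R`, then they are nonzero multiples of each other
in `R'`: `finrank_pp` for the pairs `x, x'`, `x, x` and `x', x'` -/
theorem par_p [FiniteDimensional F V] [FiniteDimensional F V'] (hw : SameR F w w')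
    (R : ChRep F c k w) (R' : ChRep F c k w') {l l' : ℕ} (hl : l < c.n) (hl' : l' < c.n)
    {x x' : E} (hx : x ∈ c.X l) (hx' : x' ∈ c.X l') (h : R.p x = R.p x') :
    ∃ u : F, u ≠ 0 ∧ R'.p x = u • R'.p x' := by
  have h1 := finrank_pp hw R R' hl hl' hx hx'
  have h2 := finrank_pp hw R R' hl hl hx hx
  have h3 := finrank_pp hw R R' hl' hl' hx' hx'
  rw [h, sup_idem] at h1 h2
  rw [sup_idem] at h3
  rw [sup_idem] at h2 h3
  have e1 : span F {R'.p x} = span F {R'.p x} ⊔ span F {R'.p x'} :=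
    Submodule.eq_of_le_of_finrank_eq le_sup_left (by rw [← h2, ← h1])
  have e2 : span F {R'.p x'} = span F {R'.p x} ⊔ span F {R'.p x'} :=
    Submodule.eq_of_le_of_finrank_eq le_sup_right (by rw [← h3, ← h1])
  have e3 : span F {R'.p x} = span F {R'.p x'} := e1.trans e2.symm
  by_cases h0 : R'.p x' = 0
  · refine ⟨1, one_ne_zero, ?_⟩
    rw [h0, span_zero_singleton, span_singleton_eq_bot] at e3
    rw [e3, h0, smul_zero]
  · have h4 : R'.p x ∈ span F {R'.p x'} := by
      rw [← e3]
      exact mem_span_singleton_self _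
    obtain ⟨u, hu⟩ := mem_span_singleton.1 h4
    refine ⟨u, ?_, hu.symm⟩
    rintro rfl
    rw [zero_smul] at hu
    rw [← hu, span_zero_singleton] at e3
    exact h0 (span_singleton_eq_bot.1 e3.symm)

/-- the same for the functionals -/
theorem par_ph [FiniteDimensional F V] [FiniteDimensional F V'] (hw : SameR F w w')
    (R : ChRep F c k w) (R' : ChRep F c k w') {l l' : ℕ} (hl : l < c.n) (hl' : l' < c.n)
    {y y' : E} (hy : y ∈ c.Y l) (hy' : y' ∈ c.Y l') (h : R.ph y = R.ph y') :
    ∃ u : F, u ≠ 0 ∧ R'.ph y = u • R'.ph y' := by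
  have h1 := finrank_ff hw R R' hl hl' hy hy'
  have h2 := finrank_ff hw R R' hl hl hy hy
  have h3 := finrank_ff hw R R' hl' hl' hy' hy'
  rw [h, inf_idem] at h1 h2
  rw [inf_idem] at h3
  rw [inf_idem] at h2 h3
  have e1 : LinearMap.ker (R'.ph y) ⊓ LinearMap.ker (R'.ph y') = LinearMap.ker (R'.ph y) :=
    Submodule.eq_of_le_of_finrank_eq inf_le_left (by rw [← h2, ← h1])
  have e2 : LinearMap.ker (R'.ph y) ⊓ LinearMap.ker (R'.ph y') = LinearMap.ker (R'.ph y') :=
    Submodule.eq_of_le_of_finrank_eq inf_le_right (by rw [← h3, ← h1])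
  have e3 : LinearMap.ker (R'.ph y) = LinearMap.ker (R'.ph y') := e1.symm.trans e2
  by_cases h0 : R'.ph y' = 0
  · refine ⟨1, one_ne_zero, ?_⟩
    rw [h0, LinearMap.ker_zero, LinearMap.ker_eq_top] at e3
    rw [e3, h0, smul_zero]
  · obtain ⟨v, hv⟩ : ∃ v, R'.ph y' v ≠ 0 := by
      by_contra hc
      push Not at hc
      exact h0 (LinearMap.ext hc)
    have hv' : R'.ph y v ≠ 0 := by
      intro hz
      have h4 : v ∈ LinearMap.ker (R'.ph y) := hz
      rw [e3] at h4
      exact hv h4
    refine ⟨R'.ph y v * (R'.ph y' v)⁻¹, mul_ne_zero hv' (inv_ne_zero hv), LinearMap.ext fun g => ?_⟩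
    have h5 : g - (R'.ph y' g * (R'.ph y' v)⁻¹) • v ∈ LinearMap.ker (R'.ph y) := by
      rw [e3, LinearMap.mem_ker, map_sub, map_smul, smul_eq_mul]
      field_simp
      ring
    rw [LinearMap.mem_ker, map_sub, map_smul, smul_eq_mul, sub_eq_zero] at h5
    rw [h5, LinearMap.smul_apply, smul_eq_mul]
    ring

end Pool.MP_4929df_co.H92
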