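import Pool.Agent.W_4929df_h92.ChnA4

/-!
Several blocks (proofs row 594, section 4).
-/

set_option autoImplicit false

namespace Pool.MP_4929df_co.H92

open Submodule

/-- the union of the sets `Y l`, `i ≤ l < j` -/
def Chn.YY {E : Type} [DecidableEq E] (c : Chn E) (i j : ℕ) : Finset E :=
  (Finset.Ico i j).biUnion c.Y

variable {F : Type} [Field F] {E : Type} [Fintype E] [DecidableEq E] {V : Type}
  [AddCommGroup V] [Module F V] {c : Chn E} {k : ℕ} {w : E → V}

theorem Chn.YY_sub (c : Chn E) {i j : ℕ} (hj : j ≤ c.n) : c.YY i j ⊆ c.A j \ c.A i := by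
  intro e he
  unfold Chn.YY at he
  rw [Finset.mem_biUnion] at he
  obtain ⟨l, hl, hel⟩ := he
  rw [Finset.mem_Ico] at hl
  have h1 := c.sub l (by omega) hel
  rw [Finset.mem_sdiff] at h1 ⊢
  exact ⟨c.A_mono (by omega) hj h1.1, fun h2 => h1.2 (c.A_mono hl.1 (by omega) h2)⟩

/-- every element of `A j \ A i` is in `Y l` or in `X l` for some `l`, `i ≤ l < j` -/
theorem Chn.cover (c : Chn E) {i j : ℕ} (hij : i ≤ j) (hj : j ≤ c.n) {e : E}
    (he : e ∈ c.A j \ c.A i) : ∃ l, i ≤ l ∧ l < j ∧ (e ∈ c.Y l ∨ e ∈ c.X l) := by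
  induction j, hij using Nat.le_induction with
  | base =>
    rw [Finset.mem_sdiff] at he
    exact (he.2 he.1).elim
  | succ j hij ih =>
    rw [Finset.mem_sdiff] at he
    by_cases h1 : e ∈ c.A j
    · obtain ⟨l, h2, h3, h4⟩ := ih (by omega) (Finset.mem_sdiff.2 ⟨h1, he.2⟩)
      exact ⟨l, h2, by omega, h4⟩
    · refine ⟨j, hij, by omega, ?_⟩
      by_cases h2 : e ∈ c.Y j
      · exact Or.inl h2
      · refine Or.inr ?_
        unfold Chn.X
        rw [Finset.mem_sdiff, Finset.mem_sdiff]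
        exact ⟨⟨he.1, h1⟩, h2⟩

theorem Chn.X_sub (c : Chn E) {l : ℕ} : c.X l ⊆ c.A (l + 1) \ c.A l := by
  unfold Chn.X
  exact Finset.sdiff_subset

private theorem ChnG1_lt (c : Chn E) {l m : ℕ} (hlm : l < m) (hm : m < c.n) {e : E}
    (he : e ∈ c.A (l + 1) \ c.A l) (he' : e ∈ c.A (m + 1) \ c.A m) : False := by
  rw [Finset.mem_sdiff] at he he'
  exact he'.2 (c.A_mono (by omega) (by omega) he.1)

/-- blocks are disjoint -/
theorem Chn.block_unique (c : Chn E) {l m : ℕ} (hl : l < c.n) (hm : m < c.n) {e : E}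
    (he : e ∈ c.A (l + 1) \ c.A l) (he' : e ∈ c.A (m + 1) \ c.A m) : l = m := by
  rcases Nat.lt_trichotomy l m with h | h | h
  · exact (ChnG1_lt c h hm he he').elim
  · exact h
  · exact (ChnG1_lt c h hl he' he).elim

private theorem ChnG1_self (c : Chn E) (i : ℕ) : c.YY i i = ∅ := by
  unfold Chn.YY
  simp

private theorem ChnG1_succ (c : Chn E) {i j : ℕ} (hij : i ≤ j) :
    c.YY i (j + 1) = c.YY i j ∪ c.Y j := by
  ext e
  unfold Chn.YY
  rw [Finset.mem_union, Finset.mem_biUnion, Finset.mem_biUnion]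
  constructor
  · rintro ⟨l, hl, he⟩
    rw [Finset.mem_Ico] at hl
    rcases Nat.lt_or_ge l j with h | h
    · exact Or.inl ⟨l, Finset.mem_Ico.2 ⟨hl.1, h⟩, he⟩
    · have : l = j := by omega
      subst this
      exact Or.inr he
  · rintro (⟨l, hl, he⟩ | he)
    · rw [Finset.mem_Ico] at hl
      exact ⟨l, Finset.mem_Ico.2 ⟨hl.1, by omega⟩, he⟩
    · exact ⟨j, Finset.mem_Ico.2 ⟨hij, by omega⟩, he⟩

private theorem ChnG1_disj (c : Chn E) {i j : ℕ} (hj : j < c.n) :
    Disjoint (c.YY i j) (c.Y j) := by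
  rw [Finset.disjoint_left]
  intro e h1 h2
  have h3 := c.YY_sub (by omega) h1
  have h4 := c.sub j hj h2
  rw [Finset.mem_sdiff] at h3 h4
  exact h4.2 h3.1

theorem ChRep.th_eq (R : ChRep F c k w) {i j : ℕ} (hij : i ≤ j) (hj : j ≤ c.n)
    (g : Fin k → F) : R.th j g = R.th i g - ∑ y ∈ c.YY i j, R.ph y g • w y := by
  induction j, hij using Nat.le_induction with
  | base =>
    rw [ChnG1_self, Finset.sum_empty, sub_zero]
  | succ j hij ih =>
    rw [R.step j (by omega) g, ih (by omega), ChnG1_succ c hij,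
      Finset.sum_union (ChnG1_disj c (by omega)), sub_sub]

theorem ChRep.finrank_YY [FiniteDimensional F V] (R : ChRep F c k w) {i j : ℕ} (hij : i ≤ j)
    (hj : j ≤ c.n) :
    Module.finrank F (Sp F w (c.A j)) =
      Module.finrank F (Sp F w (c.A i)) + (c.YY i j).card := by
  induction j, hij using Nat.le_induction with
  | base =>
    rw [ChnG1_self, Finset.card_empty, add_zero]
  | succ j hij ih =>
    rw [R.finrank_succ (by omega), ih (by omega), ChnG1_succ c hij,
      Finset.card_union_of_disjoint (ChnG1_disj c (by omega)), add_assoc]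

end Pool.MP_4929df_co.H92
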