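import Pool.Agent.W_4929df_h92.ChnG1

/-!
The separation lemma (proofs row 594, section 4).
-/

set_option autoImplicit false

namespace Pool.MP_4929df_co.H92

open Submodule

variable {F : Type} [Field F] {E : Type} [Fintype E] [DecidableEq E] {V : Type}
  [AddCommGroup V] [Module F V] {c : Chn E} {k : ℕ} {w : E → V}

omit [Fintype E] [DecidableEq E] in
private theorem ChnG2_card (S : Finset E) : Module.finrank F (Sp F w S) ≤ S.card := by
  classical
  unfold Sp
  have h1 : (w '' (S : Set E)) = ((S.image w : Finset V) : Set V) := by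
    rw [Finset.coe_image]
  rw [h1]
  exact (finrank_span_finset_le_card (S.image w)).trans Finset.card_image_le

private theorem ChnG2_memYY {l i j : ℕ} (h1 : i ≤ l) (h2 : l < j) {y : E} (hy : y ∈ c.Y l) :
    y ∈ c.YY i j :=
  Finset.mem_biUnion.2 ⟨l, Finset.mem_Ico.2 ⟨h1, h2⟩, hy⟩

/-- the vector of an element of `X l` in terms of `th i` -/
private theorem ChnG2_X (R : ChRep F c k w) {i j : ℕ} (hj : j ≤ c.n) {P : Finset E}
    (ha : ∀ l, i ≤ l → l < j → ∀ x ∈ c.X l, ∀ y ∈ c.Y l, ¬ (x ∈ P ↔ y ∈ P) → R.a x y = 0)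
    (hph : ∀ l m, i ≤ l → l < m → m < j → ∀ y ∈ c.Y l, ∀ x ∈ c.X m, ¬ (x ∈ P ↔ y ∈ P) →
      R.ph y (R.p x) = 0) {l : ℕ} (hil : i ≤ l) (hlj : l < j) {x : E} (hx : x ∈ c.X l)
    {Q : Submodule F V} (hQ : R.th i (R.p x) ∈ Q)
    (hY : ∀ y ∈ c.YY i j, (x ∈ P ↔ y ∈ P) → w y ∈ Q) : w x ∈ Q := by
  rw [R.xel l (by omega) x hx, R.th_eq hil (by omega) (R.p x)]
  refine Submodule.add_mem _ (Submodule.sum_mem _ fun y hy => ?_)
    (Submodule.sub_mem _ hQ (Submodule.sum_mem _ fun y hy => ?_))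
  · by_cases h : (x ∈ P ↔ y ∈ P)
    · exact Submodule.smul_mem _ _ (hY y (ChnG2_memYY hil hlj hy) h)
    · rw [ha l hil hlj x hx y hy h, zero_smul]
      exact Submodule.zero_mem _
  · unfold Chn.YY at hy
    obtain ⟨m, hm, hym⟩ := Finset.mem_biUnion.1 hy
    rw [Finset.mem_Ico] at hm
    by_cases h : (x ∈ P ↔ y ∈ P)
    · exact Submodule.smul_mem _ _ (hY y (ChnG2_memYY hm.1 (hm.2.trans hlj) hym) h)
    · rw [hph m l hm.1 hm.2 hlj y hym x hx h, zero_smul]
      exact Submodule.zero_mem _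

/-- The separation lemma. For `x ∈ X l`: `w x = ∑ a x y • w y + th l (p x)` and
`th l (p x) = th i (p x) - ∑_{YY i l} ph y (p x) • w y` (`ChRep.th_eq`).
(1) `Sp P ≤ (L.map (th i)) ⊔ Sp (P ∩ YY i j)`, so `finrank (Sp P) ≤ finrank L + |P ∩ YY|`.
(2) Let `S₁ = A i ∪ ((A j \ A i) \ P)`. Then `Sp S₁ ≤ Sp (A i) ⊔ Sp (YY \ P)`, so
`finrank (Sp S₁) ≤ finrank (Sp (A i)) + |YY \ P| = finrank (Sp (A j)) - |YY ∩ P|`
(`ChRep.finrank_YY`).
(3) `U ≤ T j S₁` by `ChRep.th_eq` (`ph y g = 0` for `g ∈ U`, `y ∈ P`).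
(4) `Pᶜ = S₁ ∪ (A j)ᶜ`, `ChRep.finrank_T`, `ChRep.T_right`, `ChRep.finrank_univ` at `j`. -/
theorem ChRep.sep (hV : FiniteDimensional F V) (R : ChRep F c k w) {i j : ℕ} (hij : i ≤ j)
    (hj : j ≤ c.n) {P : Finset E} (hP : P ⊆ c.A j \ c.A i) {L U : Submodule F (Fin k → F)}
    (hL : ∀ l, i ≤ l → l < j → ∀ x ∈ c.X l, x ∈ P → R.p x ∈ L)
    (hU : ∀ l, i ≤ l → l < j → ∀ y ∈ c.Y l, y ∈ P → ∀ g ∈ U, R.ph y g = 0)
    (ha : ∀ l, i ≤ l → l < j → ∀ x ∈ c.X l, ∀ y ∈ c.Y l, ¬ (x ∈ P ↔ y ∈ P) → R.a x y = 0)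
    (hph : ∀ l m, i ≤ l → l < m → m < j → ∀ y ∈ c.Y l, ∀ x ∈ c.X m, ¬ (x ∈ P ↔ y ∈ P) →
      R.ph y (R.p x) = 0) :
    Module.finrank F (Sp F w P) + Module.finrank F (Sp F w Pᶜ) + Module.finrank F U ≤
      Module.finrank F (Sp F w Finset.univ) + Module.finrank F L + k := by
  have hAij : c.A i ⊆ c.A j := c.A_mono hij hj
  -- (1)
  have h1 : Sp F w P ≤ L.map (R.th i) ⊔ Sp F w (P ∩ c.YY i j) := by
    refine Sp_le.2 fun x hx => ?_
    obtain ⟨l, h2, h3, h4⟩ := c.cover hij hj (hP hx)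
    rcases h4 with h4 | h4
    · exact Submodule.mem_sup_right (mem_Sp (Finset.mem_inter.2 ⟨hx, ChnG2_memYY h2 h3 h4⟩))
    · refine ChnG2_X R hj ha hph h2 h3 h4
        (Submodule.mem_sup_left (Submodule.mem_map_of_mem (hL l h2 h3 x h4 hx))) fun y hy h => ?_
      exact Submodule.mem_sup_right (mem_Sp (Finset.mem_inter.2 ⟨h.1 hx, hy⟩))
  have h1' : Module.finrank F (Sp F w P) ≤ Module.finrank F L + (P ∩ c.YY i j).card := by
    calc Module.finrank F (Sp F w P)
        ≤ Module.finrank F (L.map (R.th i) ⊔ Sp F w (P ∩ c.YY i j) : Submodule F V) :=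
          Submodule.finrank_mono h1
      _ ≤ Module.finrank F (L.map (R.th i)) + Module.finrank F (Sp F w (P ∩ c.YY i j)) :=
          Submodule.finrank_add_le_finrank_add_finrank _ _
      _ ≤ Module.finrank F L + (P ∩ c.YY i j).card :=
          Nat.add_le_add (Submodule.finrank_map_le _ _) (ChnG2_card _)
  -- (2)
  obtain ⟨S₁, hS₁⟩ : ∃ S₁, S₁ = c.A i ∪ ((c.A j \ c.A i) \ P) := ⟨_, rfl⟩
  have hi : ∀ g, R.th i g ∈ Sp F w (c.A i) := by
    intro g
    have h2 : R.th i g ∈ LinearMap.range (R.th i) := LinearMap.mem_range_self _ _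
    rw [R.rng i (by omega)] at h2
    exact h2.1
  have h2 : Sp F w S₁ ≤ Sp F w (c.A i) ⊔ Sp F w (c.YY i j \ P) := by
    refine Sp_le.2 fun x hx => ?_
    rw [hS₁, Finset.mem_union] at hx
    rcases hx with hx | hx
    · exact Submodule.mem_sup_left (mem_Sp hx)
    · have hxP : x ∉ P := (Finset.mem_sdiff.1 hx).2
      obtain ⟨l, h2, h3, h4⟩ := c.cover hij hj (Finset.mem_sdiff.1 hx).1
      rcases h4 with h4 | h4
      · exact Submodule.mem_sup_right (mem_Sp (Finset.mem_sdiff.2 ⟨ChnG2_memYY h2 h3 h4, hxP⟩))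
      · refine ChnG2_X R hj ha hph h2 h3 h4 (Submodule.mem_sup_left (hi _)) fun y hy h => ?_
        exact Submodule.mem_sup_right (mem_Sp (Finset.mem_sdiff.2
          ⟨hy, fun h5 => hxP (h.2 h5)⟩))
  have h2' : Module.finrank F (Sp F w S₁) + (P ∩ c.YY i j).card ≤
      Module.finrank F (Sp F w (c.A j)) := by
    have h3 : Module.finrank F (Sp F w S₁) ≤
        Module.finrank F (Sp F w (c.A i)) + (c.YY i j \ P).card :=
      calc Module.finrank F (Sp F w S₁)
          ≤ Module.finrank F (Sp F w (c.A i) ⊔ Sp F w (c.YY i j \ P) : Submodule F V) :=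
            Submodule.finrank_mono h2
        _ ≤ Module.finrank F (Sp F w (c.A i)) + Module.finrank F (Sp F w (c.YY i j \ P)) :=
            Submodule.finrank_add_le_finrank_add_finrank _ _
        _ ≤ Module.finrank F (Sp F w (c.A i)) + (c.YY i j \ P).card :=
            Nat.add_le_add_left (ChnG2_card _) _
    have h4 := R.finrank_YY hij hj
    have h5 : (c.YY i j \ P).card + (P ∩ c.YY i j).card = (c.YY i j).card := by
      rw [Finset.inter_comm]
      exact Finset.card_sdiff_add_card_inter _ _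
    omega
  -- (3)
  have h3 : U ≤ R.T j S₁ := by
    intro g hg
    show R.th j g ∈ Sp F w S₁
    rw [R.th_eq hij hj g]
    have hAS : c.A i ⊆ S₁ := by
      rw [hS₁]
      exact Finset.subset_union_left
    refine Submodule.sub_mem _ (Sp_mono hAS (hi g)) (Submodule.sum_mem _ fun y hy => ?_)
    by_cases hyP : y ∈ P
    · have hy' := hy
      unfold Chn.YY at hy'
      obtain ⟨m, hm, hym⟩ := Finset.mem_biUnion.1 hy'
      rw [Finset.mem_Ico] at hm
      rw [hU m hm.1 hm.2 y hym hyP g hg, zero_smul]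
      exact Submodule.zero_mem _
    · refine Submodule.smul_mem _ _ (mem_Sp ?_)
      rw [hS₁]
      exact Finset.mem_union_right _ (Finset.mem_sdiff.2 ⟨c.YY_sub hj hy, hyP⟩)
  have h3' : Module.finrank F U ≤ Module.finrank F (R.T j S₁) := Submodule.finrank_mono h3
  -- (4)
  have h4 : Pᶜ = S₁ ∪ (c.A j)ᶜ := by
    ext e
    rw [hS₁, Finset.mem_compl, Finset.mem_union, Finset.mem_union, Finset.mem_compl,
      Finset.mem_sdiff, Finset.mem_sdiff]
    constructor
    · intro h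
      by_cases he : e ∈ c.A j
      · by_cases he' : e ∈ c.A i
        · exact Or.inl (Or.inl he')
        · exact Or.inl (Or.inr ⟨⟨he, he'⟩, h⟩)
      · exact Or.inr he
    · rintro ((h | h) | h) hP'
      · exact (Finset.mem_sdiff.1 (hP hP')).2 h
      · exact h.2 hP'
      · exact h (Finset.mem_sdiff.1 (hP hP')).1
  have hSj : S₁ ⊆ c.A j := by
    rw [hS₁]
    exact Finset.union_subset hAij ((Finset.sdiff_subset).trans Finset.sdiff_subset)
  have h5 := R.finrank_T hj hSj (Finset.Subset.refl (c.A j)ᶜ)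
  rw [R.T_right hj, inf_top_eq, ← h4] at h5
  have h6 := R.finrank_univ hj
  omega

end Pool.MP_4929df_co.H92
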