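import Pool.Agent.W_4929df_h92.ChnG2

/-!
4-connectivity along a chain (proofs row 594, section 5).
-/

set_option autoImplicit false

namespace Pool.MP_4929df_co.H92

open Submodule

variable {F : Type} [Field F] {E : Type} [Fintype E] [DecidableEq E] {V : Type}
  [AddCommGroup V] [Module F V] {c : Chn E} {k : ℕ} {w : E → V}

/-- the complement of `P` has at least `k ≥ 3` elements by `ChRep.le_card` -/
theorem Four.ge (hV : FiniteDimensional F V) (hk : 3 ≤ k) (R : ChRep F c k w)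
    (h4 : Four F w) {i : ℕ} (hi : i ≤ c.n) {P : Finset E} (hP : Disjoint P (c.A i)) {s : ℕ}
    (hs : s ≤ 3) (hsP : s ≤ P.card) :
    Module.finrank F (Sp F w Finset.univ) + s ≤
      Module.finrank F (Sp F w P) + Module.finrank F (Sp F w Pᶜ) := by
  haveI := hV
  refine h4 P s (by omega) hsP ?_
  have h1 : c.A i ⊆ Pᶜ := fun e he =>
    Finset.mem_compl.2 (fun hp => Finset.disjoint_left.1 hP hp he)
  have h2 := (R.le_card hi).1
  have h3 := Finset.card_le_card h1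
  omega

/-- `Four.ge` and the separation lemma `ChRep.sep` -/
theorem Four.no_sep (hV : FiniteDimensional F V) (hk : 3 ≤ k) (R : ChRep F c k w)
    (h4 : Four F w) {i j : ℕ} (hij : i ≤ j) (hj : j ≤ c.n) {P : Finset E}
    (hP : P ⊆ c.A j \ c.A i) {L U : Submodule F (Fin k → F)}
    (hL : ∀ l, i ≤ l → l < j → ∀ x ∈ c.X l, x ∈ P → R.p x ∈ L)
    (hU : ∀ l, i ≤ l → l < j → ∀ y ∈ c.Y l, y ∈ P → ∀ g ∈ U, R.ph y g = 0)
    (ha : ∀ l, i ≤ l → l < j → ∀ x ∈ c.X l, ∀ y ∈ c.Y l, ¬ (x ∈ P ↔ y ∈ P) → R.a x y = 0)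
    (hph : ∀ l m, i ≤ l → l < m → m < j → ∀ y ∈ c.Y l, ∀ x ∈ c.X m, ¬ (x ∈ P ↔ y ∈ P) →
      R.ph y (R.p x) = 0) {s : ℕ} (hs : s ≤ 3) (hsP : s ≤ P.card) :
    Module.finrank F U + s ≤ Module.finrank F L + k := by
  have h1 := R.sep hV hij hj hP hL hU ha hph
  have hd : Disjoint P (c.A i) := Finset.disjoint_left.2 (fun e he hi =>
    (Finset.mem_sdiff.1 (hP he)).2 hi)
  have h2 := Four.ge hV hk R h4 (hij.trans hj) hd hs hsP
  omega

end Pool.MP_4929df_co.H92
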