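import Pool.Agent.W_4929df_h92.ChnH0

/-!
Consequences of 4-connectivity in one block (proofs row 594, section 5).
-/

set_option autoImplicit false

namespace Pool.MP_4929df_co.H92

open Submodule

variable {F : Type} [Field F] {E : Type} [Fintype E] [DecidableEq E] {V : Type}
  [AddCommGroup V] [Module F V] {c : Chn E} {k : ℕ} {w : E → V}

omit [Fintype E] [DecidableEq E] in
private theorem ChnH1_card (w : E → V) (A : Finset E) : Module.finrank F (Sp F w A) ≤ A.card := by
  classical
  have h1 := finrank_span_finset_le_card (R := F) (A.image w)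
  rw [Finset.coe_image] at h1
  exact h1.trans Finset.card_image_le

/-- (N1) If `Y l = ∅` then `w x = 0`; if `Y l = {y}` then `w x = a • w y`. -/
theorem N1 (hV : FiniteDimensional F V) (hk : 3 ≤ k) (R : ChRep F c k w) (h4 : Four F w)
    {l : ℕ} (hl : l < c.n) (hY : (c.Y l).card ≤ 1) {x : E} (hx : x ∈ c.X l) : R.p x ≠ 0 := by
  intro h0
  have hxl : x ∈ c.A (l + 1) \ c.A l := c.X_sub hx
  have hxY : x ∉ c.Y l := (Finset.mem_sdiff.1 hx).2
  have hP : Disjoint (insert x (c.Y l)) (c.A l) := by
    rw [Finset.disjoint_left]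
    intro e he hA
    rcases Finset.mem_insert.1 he with rfl | he
    · exact (Finset.mem_sdiff.1 hxl).2 hA
    · exact (Finset.mem_sdiff.1 (c.sub l hl he)).2 hA
  have hcard : (insert x (c.Y l)).card = (c.Y l).card + 1 := Finset.card_insert_of_notMem hxY
  have h1 := h4.ge hV hk R hl.le hP (s := (c.Y l).card + 1) (by omega) hcard.ge
  have hwx : w x ∈ Sp F w (c.Y l) := by
    rw [R.xel l hl x hx, h0, map_zero, add_zero]
    exact Submodule.sum_mem _ fun y hy => Submodule.smul_mem _ _ (mem_Sp hy)
  have h2 : Sp F w (insert x (c.Y l)) ≤ Sp F w (c.Y l) := by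
    rw [Sp_le]
    intro e he
    rcases Finset.mem_insert.1 he with rfl | he
    · exact hwx
    · exact mem_Sp he
  have h3 := Submodule.finrank_mono h2
  have h4' := ChnH1_card (F := F) w (c.Y l)
  have h5 : Module.finrank F (Sp F w (insert x (c.Y l))ᶜ) ≤ Module.finrank F (Sp F w Finset.univ) :=
    Submodule.finrank_mono (Sp_mono (Finset.subset_univ _))
  omega

/-- (N1') Let `ph y = 0`. Then `th (l+1) g ∈ Sp (A l ∪ (Y l).erase y)` for all `g` by `R.step`,
so the complement of `{y}` in `A (l+1)` without `X l` and `(A (l+1))ᶜ` together have rank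
`r - 1`; adding `X l` (at most one element `x`) to `P = {y} ∪ X l`: `r(P) + r(Pᶜ) ≤ |P| + r - 1`,
contradiction to `Four.ge` with `s = P.card ≤ 2`. -/
theorem N1' (hV : FiniteDimensional F V) (hk : 3 ≤ k) (R : ChRep F c k w) (h4 : Four F w)
    {l : ℕ} (hl : l < c.n) (hX : (c.X l).card ≤ 1) {y : E} (hy : y ∈ c.Y l) : R.ph y ≠ 0 := by
  intro h0
  have hyl : y ∈ c.A (l + 1) \ c.A l := c.sub l hl hy
  have hyX : y ∉ c.X l := fun h => (Finset.mem_sdiff.1 h).2 hy
  have hP : Disjoint (insert y (c.X l)) (c.A l) := by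
    rw [Finset.disjoint_left]
    intro e he hA
    rcases Finset.mem_insert.1 he with rfl | he
    · exact (Finset.mem_sdiff.1 hyl).2 hA
    · exact (Finset.mem_sdiff.1 (c.X_sub he)).2 hA
  have hcard : (insert y (c.X l)).card = (c.X l).card + 1 := Finset.card_insert_of_notMem hyX
  have h1 := h4.ge hV hk R hl.le hP (s := (c.X l).card + 1) (by omega) hcard.ge
  have h2 := ChnH1_card (F := F) w (insert y (c.X l))
  have hl1 : l + 1 ≤ c.n := hl
  have hS1 : c.A l ∪ (c.Y l).erase y ⊆ c.A (l + 1) := by
    intro e he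
    rcases Finset.mem_union.1 he with h | h
    · exact c.mono l hl h
    · exact (Finset.mem_sdiff.1 (c.sub l hl (Finset.mem_of_mem_erase h))).1
  have h3 := R.finrank_T hl1 hS1 (le_refl (c.A (l + 1))ᶜ)
  have hT1 : R.T (l + 1) (c.A l ∪ (c.Y l).erase y) = ⊤ := by
    rw [eq_top_iff]
    intro g _
    show R.th (l + 1) g ∈ Sp F w (c.A l ∪ (c.Y l).erase y)
    rw [R.step l hl g, ← Finset.add_sum_erase _ _ hy, h0, LinearMap.zero_apply, zero_smul,
      zero_add]
    refine Submodule.sub_mem _ ?_ ?_
    · have h5 : R.th l g ∈ LinearMap.range (R.th l) := ⟨g, rfl⟩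
      rw [R.rng l hl.le] at h5
      exact Sp_mono Finset.subset_union_left h5.1
    · exact Submodule.sum_mem _ fun z hz =>
        Submodule.smul_mem _ _ (mem_Sp (Finset.mem_union_right _ hz))
  rw [hT1, R.T_right hl1, inf_top_eq, finrank_top, Module.finrank_fin_fun] at h3
  have h4' := R.finrank_Y hl (Finset.erase_subset y (c.Y l))
  have h5 := R.finrank_succ hl
  have h6 := R.finrank_univ hl1
  have h7 : ((c.Y l).erase y).card + 1 = (c.Y l).card := Finset.card_erase_add_one hy
  have hPc : (insert y (c.X l))ᶜ = (c.A l ∪ (c.Y l).erase y) ∪ (c.A (l + 1))ᶜ := by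
    ext e
    simp only [Finset.mem_compl, Finset.mem_insert, Finset.mem_union, Finset.mem_erase, Chn.X,
      Finset.mem_sdiff]
    constructor
    · intro h
      by_cases hA1 : e ∈ c.A (l + 1)
      · left
        by_cases hA : e ∈ c.A l
        · exact Or.inl hA
        · right
          refine ⟨fun h' => h (Or.inl h'), ?_⟩
          by_contra hY
          exact h (Or.inr ⟨⟨hA1, hA⟩, hY⟩)
      · exact Or.inr hA1
    · rintro ((h | ⟨h, h'⟩) | h) h''
      · rcases h'' with h'' | h''
        · subst h''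
          exact (Finset.mem_sdiff.1 hyl).2 h
        · exact h''.1.2 h
      · rcases h'' with h'' | h''
        · exact h h''
        · exact h''.2 h'
      · rcases h'' with h'' | h''
        · subst h''
          exact h (Finset.mem_sdiff.1 hyl).1
        · exact h h''.1.1
  rw [← hPc] at h3
  omega

end Pool.MP_4929df_co.H92
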