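import Pool.Agent.W_4929df_h92.ChnH1

/-!
Consequences of 4-connectivity in one block (proofs row 594, section 5).
-/

set_option autoImplicit false

namespace Pool.MP_4929df_co.H92

open Submodule

variable {F : Type} [Field F] {E : Type} [Fintype E] [DecidableEq E] {V : Type}
  [AddCommGroup V] [Module F V] {c : Chn E} {k : ℕ} {w : E → V}

private theorem ChnH2_X {l : ℕ} {x : E} (hx : x ∈ c.X l) : x ∈ c.A (l + 1) \ c.A l ∧ x ∉ c.Y l :=
  Finset.mem_sdiff.1 hx

/-- (N2) Otherwise `P = {y} ∪ {x ∈ X l | a x y ≠ 0}` contradicts `Four.no_sep` with `i = l`,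
`j = l + 1`, `L = span {q}`, `U = ⊤`: for `s = 2` if there is an active `x`, for `s = 1`,
`L = ⊥` if there is none. -/
theorem N2 (hV : FiniteDimensional F V) (hk : 3 ≤ k) (R : ChRep F c k w) (h4 : Four F w)
    {l : ℕ} (hl : l < c.n) (hY : (c.Y l).card ≤ 1) {y : E} (hy : y ∈ c.Y l)
    (hph : R.ph y = 0) (q : Fin k → F) : ∃ x ∈ c.X l, R.a x y ≠ 0 ∧ R.p x ∉ span F {q} := by
  classical
  by_contra hcon
  push Not at hcon
  have hY1 : ∀ y' ∈ c.Y l, y' = y := fun y' hy' => Finset.card_le_one.1 hY y' hy' y hy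
  set P : Finset E := insert y ((c.X l).filter fun x => R.a x y ≠ 0) with hPdef
  have hyP : y ∈ P := Finset.mem_insert_self _ _
  have hPs : P ⊆ c.A (l + 1) \ c.A l := by
    intro e he
    rcases Finset.mem_insert.1 he with rfl | he
    · exact c.sub l hl hy
    · exact (ChnH2_X (Finset.mem_filter.1 he).1).1
  have hU : ∀ m, l ≤ m → m < l + 1 → ∀ y' ∈ c.Y m, y' ∈ P → ∀ g ∈ (⊤ : Submodule F (Fin k → F)),
      R.ph y' g = 0 := by
    intro m h1 h2 y' hy' _ g _
    obtain rfl : m = l := by omega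
    rw [hY1 y' hy', hph]
    rfl
  have ha : ∀ m, l ≤ m → m < l + 1 → ∀ x ∈ c.X m, ∀ y' ∈ c.Y m, ¬ (x ∈ P ↔ y' ∈ P) →
      R.a x y' = 0 := by
    intro m h1 h2 x hx y' hy' hne
    obtain rfl : m = l := by omega
    rw [hY1 y' hy'] at hne ⊢
    by_contra h0
    exact hne ⟨fun _ => hyP, fun _ => Finset.mem_insert_of_mem (Finset.mem_filter.2 ⟨hx, h0⟩)⟩
  have hph' : ∀ m m', l ≤ m → m < m' → m' < l + 1 → ∀ y' ∈ c.Y m, ∀ x ∈ c.X m',
      ¬ (x ∈ P ↔ y' ∈ P) → R.ph y' (R.p x) = 0 := by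
    intro m m' h1 h2 h3
    omega
  by_cases hact : ∃ x ∈ c.X l, R.a x y ≠ 0
  · obtain ⟨x, hx, hax⟩ := hact
    have hxy : x ≠ y := fun h => (ChnH2_X hx).2 (h ▸ hy)
    have hcard : 2 ≤ P.card := by
      have h1 : ({y, x} : Finset E) ⊆ P := by
        intro e he
        rcases Finset.mem_insert.1 he with rfl | he
        · exact hyP
        · rw [Finset.mem_singleton.1 he]
          exact Finset.mem_insert_of_mem (Finset.mem_filter.2 ⟨hx, hax⟩)
      have h2 := Finset.card_le_card h1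
      rwa [Finset.card_pair hxy.symm] at h2
    have hL : ∀ m, l ≤ m → m < l + 1 → ∀ x' ∈ c.X m, x' ∈ P → R.p x' ∈ span F {q} := by
      intro m h1 h2 x' hx' hxP
      obtain rfl : m = l := by omega
      rcases Finset.mem_insert.1 hxP with h | h
      · exact absurd hy (h ▸ (ChnH2_X hx').2)
      · exact hcon x' hx' (Finset.mem_filter.1 h).2
    have h3 := Four.no_sep hV hk R h4 (Nat.le_succ l) hl hPs hL hU ha hph' (s := 2) (by omega)
      hcard
    have h4' : Module.finrank F (span F {q} : Submodule F (Fin k → F)) ≤ 1 := by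
      have := finrank_span_le_card (R := F) ({q} : Set (Fin k → F))
      simpa using this
    rw [finrank_top, Module.finrank_fin_fun] at h3
    omega
  · push Not at hact
    have hcard : 1 ≤ P.card := Finset.card_pos.2 ⟨y, hyP⟩
    have hL : ∀ m, l ≤ m → m < l + 1 → ∀ x' ∈ c.X m, x' ∈ P →
        R.p x' ∈ (⊥ : Submodule F (Fin k → F)) := by
      intro m h1 h2 x' hx' hxP
      obtain rfl : m = l := by omega
      rcases Finset.mem_insert.1 hxP with h | h
      · exact absurd hy (h ▸ (ChnH2_X hx').2)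
      · exact absurd (hact x' hx') (Finset.mem_filter.1 h).2
    have h3 := Four.no_sep hV hk R h4 (Nat.le_succ l) hl hPs hL hU ha hph' (s := 1) (by omega)
      hcard
    rw [finrank_top, Module.finrank_fin_fun, finrank_bot] at h3
    omega

/-- (N2') Otherwise `P = {x} ∪ {y ∈ Y l | a x y ≠ 0}` contradicts `Four.no_sep` with `i = l`,
`j = l + 1`, `L = ⊥`, `U = ker f`. -/
theorem N2' (hV : FiniteDimensional F V) (hk : 3 ≤ k) (R : ChRep F c k w) (h4 : Four F w)
    {l : ℕ} (hl : l < c.n) (hX : (c.X l).card ≤ 1) {x : E} (hx : x ∈ c.X l)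
    (hp : R.p x = 0) (f : (Fin k → F) →ₗ[F] F) :
    ∃ y ∈ c.Y l, R.a x y ≠ 0 ∧ R.ph y ∉ span F {f} := by
  classical
  by_contra hcon
  push Not at hcon
  have hX1 : ∀ x' ∈ c.X l, x' = x := fun x' hx' => Finset.card_le_one.1 hX x' hx' x hx
  set P : Finset E := insert x ((c.Y l).filter fun y => R.a x y ≠ 0) with hPdef
  have hxP : x ∈ P := Finset.mem_insert_self _ _
  have hPs : P ⊆ c.A (l + 1) \ c.A l := by
    intro e he
    rcases Finset.mem_insert.1 he with rfl | he
    · exact (ChnH2_X hx).1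
    · exact c.sub l hl (Finset.mem_filter.1 he).1
  have hL : ∀ m, l ≤ m → m < l + 1 → ∀ x' ∈ c.X m, x' ∈ P →
      R.p x' ∈ (⊥ : Submodule F (Fin k → F)) := by
    intro m h1 h2 x' hx' _
    obtain rfl : m = l := by omega
    rw [hX1 x' hx', hp]
    exact Submodule.zero_mem _
  have ha : ∀ m, l ≤ m → m < l + 1 → ∀ x' ∈ c.X m, ∀ y ∈ c.Y m, ¬ (x' ∈ P ↔ y ∈ P) →
      R.a x' y = 0 := by
    intro m h1 h2 x' hx' y hy hne
    obtain rfl : m = l := by omega
    rw [hX1 x' hx'] at hne ⊢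
    by_contra h0
    exact hne ⟨fun _ => Finset.mem_insert_of_mem (Finset.mem_filter.2 ⟨hy, h0⟩), fun _ => hxP⟩
  have hph' : ∀ m m', l ≤ m → m < m' → m' < l + 1 → ∀ y' ∈ c.Y m, ∀ x ∈ c.X m',
      ¬ (x ∈ P ↔ y' ∈ P) → R.ph y' (R.p x) = 0 := by
    intro m m' h1 h2 h3
    omega
  have hYP : ∀ y ∈ c.Y l, y ∈ P → R.a x y ≠ 0 := by
    intro y hy hyP
    rcases Finset.mem_insert.1 hyP with h | h
    · exact absurd (h ▸ hy) (ChnH2_X hx).2
    · exact (Finset.mem_filter.1 h).2
  by_cases hact : ∃ y ∈ c.Y l, R.a x y ≠ 0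
  · obtain ⟨y, hy, hay⟩ := hact
    have hxy : x ≠ y := fun h => (ChnH2_X hx).2 (h ▸ hy)
    have hcard : 2 ≤ P.card := by
      have h1 : ({x, y} : Finset E) ⊆ P := by
        intro e he
        rcases Finset.mem_insert.1 he with rfl | he
        · exact hxP
        · rw [Finset.mem_singleton.1 he]
          exact Finset.mem_insert_of_mem (Finset.mem_filter.2 ⟨hy, hay⟩)
      have h2 := Finset.card_le_card h1
      rwa [Finset.card_pair hxy] at h2
    have hU : ∀ m, l ≤ m → m < l + 1 → ∀ y' ∈ c.Y m, y' ∈ P → ∀ g ∈ LinearMap.ker f,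
        R.ph y' g = 0 := by
      intro m h1 h2 y' hy' hyP g hg
      obtain rfl : m = l := by omega
      obtain ⟨r, hr⟩ := Submodule.mem_span_singleton.1 (hcon y' hy' (hYP y' hy' hyP))
      rw [← hr, LinearMap.smul_apply, LinearMap.mem_ker.1 hg, smul_zero]
    have h3 := Four.no_sep hV hk R h4 (Nat.le_succ l) hl hPs hL hU ha hph' (s := 2) (by omega)
      hcard
    have h5 := LinearMap.finrank_range_add_finrank_ker f
    have h6 : Module.finrank F (LinearMap.range f) ≤ 1 := by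
      have := Submodule.finrank_le (LinearMap.range f)
      rwa [Module.finrank_self] at this
    rw [Module.finrank_fin_fun] at h5
    rw [finrank_bot] at h3
    omega
  · push Not at hact
    have hcard : 1 ≤ P.card := Finset.card_pos.2 ⟨x, hxP⟩
    have hU : ∀ m, l ≤ m → m < l + 1 → ∀ y' ∈ c.Y m, y' ∈ P →
        ∀ g ∈ (⊤ : Submodule F (Fin k → F)), R.ph y' g = 0 := by
      intro m h1 h2 y' hy' hyP g _
      obtain rfl : m = l := by omega
      exact absurd (hact y' hy') (hYP y' hy' hyP)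
    have h3 := Four.no_sep hV hk R h4 (Nat.le_succ l) hl hPs hL hU ha hph' (s := 1) (by omega)
      hcard
    rw [finrank_top, Module.finrank_fin_fun, finrank_bot] at h3
    omega

end Pool.MP_4929df_co.H92
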