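import Pool.Agent.W_4929df_h92.ChnA1
import Pool.Agent.W_4929df_h92.ChnH1

/-!
Equal letters in one block (proofs row 594, (N3)).
-/

set_option autoImplicit false

namespace Pool.MP_4929df_co.H92

open Submodule

variable {F : Type} [Field F] {E : Type} [Fintype E] [DecidableEq E] {V : Type}
  [AddCommGroup V] [Module F V] {c : Chn E} {k : ℕ} {w : E → V}

omit [Fintype E] [DecidableEq E] in
private theorem ChnH3_card (w : E → V) (A : Finset E) : Module.finrank F (Sp F w A) ≤ A.card := by
  classical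
  have h1 := finrank_span_finset_le_card (R := F) (A.image w)
  rw [Finset.coe_image] at h1
  exact h1.trans Finset.card_image_le

/-- (N3) Otherwise `w x = w x'`, contradiction to `Four.ge` for `P = {x, x'}`, `s = 2`. -/
theorem N3 (hV : FiniteDimensional F V) (hk : 3 ≤ k) (R : ChRep F c k w) (h4 : Four F w)
    {l : ℕ} (hl : l < c.n) (hY : (c.Y l).card ≤ 1) {y : E} (hy : y ∈ c.Y l) {x x' : E}
    (hx : x ∈ c.X l) (hx' : x' ∈ c.X l) (hp : R.p x = R.p x') (ha : R.a x y = R.a x' y) :
    x = x' := by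
  by_contra hne
  have hYy : c.Y l = {y} := by
    obtain ⟨z, hz⟩ := Finset.card_eq_one.1 (le_antisymm hY (Finset.card_pos.2 ⟨y, hy⟩))
    rw [hz] at hy ⊢
    rw [Finset.mem_singleton.1 hy]
  have hw : w x = w x' := by
    rw [R.xel l hl x hx, R.xel l hl x' hx', hYy, Finset.sum_singleton, Finset.sum_singleton, hp, ha]
  have hxl : x ∈ c.A (l + 1) \ c.A l := c.X_sub hx
  have hxl' : x' ∈ c.A (l + 1) \ c.A l := c.X_sub hx'
  have hP : Disjoint ({x, x'} : Finset E) (c.A l) := by
    rw [Finset.disjoint_left]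
    intro e he hA
    rw [Finset.mem_insert, Finset.mem_singleton] at he
    rcases he with rfl | rfl
    · exact (Finset.mem_sdiff.1 hxl).2 hA
    · exact (Finset.mem_sdiff.1 hxl').2 hA
  have h1 := h4.ge hV hk R hl.le hP (s := 2) (by omega) (Finset.card_pair hne).ge
  have h2 : Sp F w ({x, x'} : Finset E) ≤ Sp F w {x} := by
    rw [Sp_le]
    intro e he
    rw [Finset.mem_insert, Finset.mem_singleton] at he
    rcases he with rfl | rfl
    · exact mem_Sp (Finset.mem_singleton_self _)
    · rw [← hw]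
      exact mem_Sp (Finset.mem_singleton_self _)
  have h3 := Submodule.finrank_mono h2
  have h4' := ChnH3_card (F := F) w {x}
  rw [Finset.card_singleton] at h4'
  have h5 : Module.finrank F (Sp F w ({x, x'} : Finset E)ᶜ) ≤
      Module.finrank F (Sp F w Finset.univ) :=
    Submodule.finrank_mono (Sp_mono (Finset.subset_univ _))
  omega

/-- (N3') Otherwise let `P = {y, y'}`, `S₁ = A l ∪ (Y l \ P) ∪ {x}`. By `ChRep.mem_T_left`
`T (l+1) S₁ = ⊤` (`b = - ph y g / a x y`), so `r(Pᶜ) = r(S₁) + r((A (l+1))ᶜ) - k ≤ r - 1`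
(`ChRep.finrank_T`, `ChRep.finrank_univ`, `ChRep.finrank_Y`), contradiction to `Four.ge`. -/
theorem N3' (hV : FiniteDimensional F V) (hk : 3 ≤ k) (R : ChRep F c k w) (h4 : Four F w)
    {l : ℕ} (hl : l < c.n) (hX : (c.X l).card ≤ 1) {x : E} (hx : x ∈ c.X l) {y y' : E}
    (hy : y ∈ c.Y l) (hy' : y' ∈ c.Y l) (hph : R.ph y = R.ph y') (ha : R.a x y = R.a x y')
    (h0 : R.a x y ≠ 0) : y = y' := by
  by_contra hne
  have hXx : c.X l = {x} := by
    obtain ⟨z, hz⟩ := Finset.card_eq_one.1 (le_antisymm hX (Finset.card_pos.2 ⟨x, hx⟩))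
    rw [hz] at hx ⊢
    rw [Finset.mem_singleton.1 hx]
  have hyl : y ∈ c.A (l + 1) \ c.A l := c.sub l hl hy
  have hyl' : y' ∈ c.A (l + 1) \ c.A l := c.sub l hl hy'
  have hxl : x ∈ c.A (l + 1) \ c.A l := c.X_sub hx
  have hxY : x ∉ c.Y l := (Finset.mem_sdiff.1 hx).2
  have hP : Disjoint ({y, y'} : Finset E) (c.A l) := by
    rw [Finset.disjoint_left]
    intro e he hA
    rw [Finset.mem_insert, Finset.mem_singleton] at he
    rcases he with rfl | rfl
    · exact (Finset.mem_sdiff.1 hyl).2 hA
    · exact (Finset.mem_sdiff.1 hyl').2 hA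
  have h1 := h4.ge hV hk R hl.le hP (s := 2) (by omega) (Finset.card_pair hne).ge
  have h2 := ChnH3_card (F := F) w ({y, y'} : Finset E)
  rw [Finset.card_pair hne] at h2
  have hl1 : l + 1 ≤ c.n := hl
  obtain ⟨Z, hZ⟩ : ∃ Z : Finset E, Z = insert x (c.Y l \ {y, y'}) := ⟨_, rfl⟩
  have hZs : Z ⊆ c.A (l + 1) \ c.A l := by
    rw [hZ]
    intro e he
    rcases Finset.mem_insert.1 he with rfl | he
    · exact hxl
    · exact c.sub l hl (Finset.mem_sdiff.1 he).1
  have hZY : Z \ c.Y l = {x} := by
    rw [hZ]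
    ext e
    rw [Finset.mem_sdiff, Finset.mem_insert, Finset.mem_sdiff, Finset.mem_singleton]
    constructor
    · rintro ⟨h | h, h'⟩
      · exact h
      · exact absurd h.1 h'
    · rintro rfl
      exact ⟨Or.inl rfl, hxY⟩
  have hS1 : c.A l ∪ Z ⊆ c.A (l + 1) := by
    intro e he
    rcases Finset.mem_union.1 he with h | h
    · exact c.mono l hl h
    · exact (Finset.mem_sdiff.1 (hZs h)).1
  have hT1 : R.T (l + 1) (c.A l ∪ Z) = ⊤ := by
    rw [eq_top_iff]
    intro g _
    rw [R.mem_T_left hl (Finset.Subset.refl _) hZs g]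
    refine ⟨fun _ => - (R.ph y g / R.a x y), ?_, ?_⟩
    · rw [R.T_left hl.le]
      exact Submodule.mem_top
    · intro z hz
      rw [hZY, Finset.sum_singleton]
      rw [Finset.mem_sdiff] at hz
      have hz2 : z = y ∨ z = y' := by
        by_contra hcon
        apply hz.2
        rw [hZ]
        refine Finset.mem_insert_of_mem (Finset.mem_sdiff.2 ⟨hz.1, ?_⟩)
        rw [Finset.mem_insert, Finset.mem_singleton]
        exact hcon
      have key : R.ph y g + -(R.ph y g / R.a x y) * R.a x y = 0 := by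
        rw [neg_mul, div_mul_cancel₀ _ h0, add_neg_cancel]
      rcases hz2 with rfl | rfl
      · exact key
      · rw [← hph, ← ha]
        exact key
  have h3 := R.finrank_T hl1 hS1 (le_refl (c.A (l + 1))ᶜ)
  rw [hT1, R.T_right hl1, inf_top_eq, finrank_top, Module.finrank_fin_fun] at h3
  have h5 := R.finrank_succ hl
  have h6 := R.finrank_univ hl1
  have h7 := R.finrank_Y hl (Finset.sdiff_subset (s := c.Y l) (t := ({y, y'} : Finset E)))
  have h8 : (c.Y l \ ({y, y'} : Finset E)).card + 2 = (c.Y l).card := by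
    rw [← Finset.card_pair hne]
    refine Finset.card_sdiff_add_card_eq_card ?_
    intro e he
    rw [Finset.mem_insert, Finset.mem_singleton] at he
    rcases he with rfl | rfl
    · exact hy
    · exact hy'
  have h9 : Module.finrank F (Sp F w (c.A l ∪ Z)) ≤
      Module.finrank F (Sp F w (c.A l ∪ (c.Y l \ ({y, y'} : Finset E)))) + 1 := by
    have e1 : c.A l ∪ Z = insert x (c.A l ∪ (c.Y l \ ({y, y'} : Finset E))) := by
      rw [hZ, Finset.union_insert]
    rw [e1, Sp_insert]
    have e2 := Submodule.finrank_add_le_finrank_add_finrank (span F {w x})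
      (Sp F w (c.A l ∪ (c.Y l \ ({y, y'} : Finset E))))
    have e3 := ChnH3_card (F := F) w {x}
    rw [Finset.card_singleton, Sp_singleton] at e3
    omega
  have hPc : ({y, y'} : Finset E)ᶜ = (c.A l ∪ Z) ∪ (c.A (l + 1))ᶜ := by
    ext e
    simp only [hZ, Finset.mem_compl, Finset.mem_insert, Finset.mem_union, Finset.mem_singleton,
      Finset.mem_sdiff]
    constructor
    · intro h
      by_cases hA1 : e ∈ c.A (l + 1)
      · left
        by_cases hA : e ∈ c.A l
        · exact Or.inl hA
        · right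
          by_cases hYe : e ∈ c.Y l
          · exact Or.inr ⟨hYe, h⟩
          · left
            have : e ∈ c.X l := Finset.mem_sdiff.2 ⟨Finset.mem_sdiff.2 ⟨hA1, hA⟩, hYe⟩
            rw [hXx, Finset.mem_singleton] at this
            exact this
      · exact Or.inr hA1
    · rintro ((h | h | h) | h) h''
      · rcases h'' with rfl | rfl
        · exact (Finset.mem_sdiff.1 hyl).2 h
        · exact (Finset.mem_sdiff.1 hyl').2 h
      · rcases h'' with h'' | h''
        · exact hxY (by rw [← h, h'']; exact hy)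
        · exact hxY (by rw [← h, h'']; exact hy')
      · exact h.2 h''
      · rcases h'' with rfl | rfl
        · exact h (Finset.mem_sdiff.1 hyl).1
        · exact h (Finset.mem_sdiff.1 hyl').1
  rw [← hPc] at h3
  omega

end Pool.MP_4929df_co.H92
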