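import Pool.Agent.W_4929df_h92.ChnDefs

/-!
Classes of positions (proofs row 594, section 7).
-/

set_option autoImplicit false

namespace Pool.MP_4929df_co.H92

private theorem cls_succ {τ : Type} {n : ℕ} {ty : ℕ → τ} {r : ℕ} {i j : ℕ}
    (h : cls n ty (r + 1) i = cls n ty (r + 1) j) :
    cls n ty r i = cls n ty r j ∧
    ({z : Cls τ r | ∃ m, m < i ∧ cls n ty r m = z} = {z : Cls τ r | ∃ m, m < j ∧ cls n ty r m = z}) ∧
    ({z : Cls τ r | ∃ m, i < m ∧ m < n ∧ cls n ty r m = z} =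
      {z : Cls τ r | ∃ m, j < m ∧ m < n ∧ cls n ty r m = z}) := by
  have h' : ((cls n ty r i, {z : Cls τ r | ∃ m, m < i ∧ cls n ty r m = z},
      {z : Cls τ r | ∃ m, i < m ∧ m < n ∧ cls n ty r m = z}) :
        Cls τ r × Set (Cls τ r) × Set (Cls τ r)) =
      (cls n ty r j, {z : Cls τ r | ∃ m, m < j ∧ cls n ty r m = z},
      {z : Cls τ r | ∃ m, j < m ∧ m < n ∧ cls n ty r m = z}) := h
  rw [Prod.mk.injEq, Prod.mk.injEq] at h'
  exact h'

theorem cls_le {τ : Type} {n : ℕ} {ty : ℕ → τ} {r s : ℕ} (hrs : r ≤ s) {i j : ℕ}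
    (h : cls n ty s i = cls n ty s j) : cls n ty r i = cls n ty r j := by
  induction hrs with
  | refl => exact h
  | step _ ih => exact ih (cls_succ h).1

theorem cls_ty {τ : Type} {n : ℕ} {ty : ℕ → τ} {s : ℕ} {i j : ℕ}
    (h : cls n ty s i = cls n ty s j) : ty i = ty j :=
  cls_le (Nat.zero_le s) h

theorem cls_left {τ : Type} {n : ℕ} {ty : ℕ → τ} {r : ℕ} {i j : ℕ}
    (h : cls n ty (r + 1) i = cls n ty (r + 1) j) {m : ℕ} (hm : m < j) :
    ∃ m', m' < i ∧ cls n ty r m' = cls n ty r m := by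
  have h1 := (cls_succ h).2.1
  have h2 : cls n ty r m ∈ {z : Cls τ r | ∃ m, m < j ∧ cls n ty r m = z} := ⟨m, hm, rfl⟩
  rw [← h1] at h2
  exact h2

theorem cls_right {τ : Type} {n : ℕ} {ty : ℕ → τ} {r : ℕ} {i j : ℕ}
    (h : cls n ty (r + 1) i = cls n ty (r + 1) j) {m : ℕ} (hm : i < m) (hmn : m < n) :
    ∃ m', j < m' ∧ m' < n ∧ cls n ty r m' = cls n ty r m := by
  have h1 := (cls_succ h).2.2
  have h2 : cls n ty r m ∈ {z : Cls τ r | ∃ m, i < m ∧ m < n ∧ cls n ty r m = z} :=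
    ⟨m, hm, hmn, rfl⟩
  rw [h1] at h2
  exact h2

/-- descending sequence of positions of the class of `i` -/
private theorem seqL {τ : Type} {n : ℕ} {ty : ℕ → τ} {i j : ℕ} (hij : i < j)
    (h : cls n ty 16 i = cls n ty 16 j) : ∃ L : ℕ → ℕ, L 0 = i ∧ (∀ s, s < 8 → L (s + 1) < L s) ∧
      ∀ s, s ≤ 8 → cls n ty (16 - s) (L s) = cls n ty (16 - s) i := by
  have hst : ∀ s, s < 8 → ∀ x : ℕ, x ≤ i → cls n ty (16 - s) x = cls n ty (16 - s) i →
      ∃ y, y < x ∧ cls n ty (16 - (s + 1)) y = cls n ty (16 - (s + 1)) i := by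
    intro s hs x hx hc
    have hr : 16 - s = (16 - (s + 1)) + 1 := by omega
    have hc' : cls n ty (16 - s) x = cls n ty (16 - s) j :=
      hc.trans (cls_le (by omega) h)
    rw [hr] at hc'
    obtain ⟨y, hy, hyc⟩ := cls_left hc' (m := i) hij
    exact ⟨y, hy, hyc⟩
  classical
  let f : ℕ → ℕ → ℕ := fun s x => if hx : s < 8 ∧ x ≤ i ∧ cls n ty (16 - s) x = cls n ty (16 - s) i
    then Classical.choose (hst s hx.1 x hx.2.1 hx.2.2) else 0
  let L : ℕ → ℕ := fun s => Nat.rec i (fun s x => f s x) s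
  have hL0 : L 0 = i := rfl
  have hLs : ∀ s, L (s + 1) = f s (L s) := fun s => rfl
  have key : ∀ s, s ≤ 8 → L s ≤ i ∧ cls n ty (16 - s) (L s) = cls n ty (16 - s) i := by
    intro s
    induction s with
    | zero => intro _; exact ⟨le_of_eq hL0, by rw [hL0]⟩
    | succ s ih =>
      intro hs
      obtain ⟨h1, h2⟩ := ih (by omega)
      have hx : s < 8 ∧ L s ≤ i ∧ cls n ty (16 - s) (L s) = cls n ty (16 - s) i :=
        ⟨by omega, h1, h2⟩
      have hf : f s (L s) = Classical.choose (hst s hx.1 (L s) hx.2.1 hx.2.2) := dif_pos hx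
      have hsp := Classical.choose_spec (hst s hx.1 (L s) hx.2.1 hx.2.2)
      rw [← hf, ← hLs s] at hsp
      exact ⟨by omega, hsp.2⟩
  refine ⟨L, hL0, ?_, fun s hs => (key s hs).2⟩
  intro s hs
  obtain ⟨h1, h2⟩ := key s (by omega)
  have hx : s < 8 ∧ L s ≤ i ∧ cls n ty (16 - s) (L s) = cls n ty (16 - s) i := ⟨hs, h1, h2⟩
  have hf : f s (L s) = Classical.choose (hst s hx.1 (L s) hx.2.1 hx.2.2) := dif_pos hx
  have hsp := Classical.choose_spec (hst s hx.1 (L s) hx.2.1 hx.2.2)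
  rw [← hf, ← hLs s] at hsp
  exact hsp.1

/-- ascending sequence of positions of the class of `j` -/
private theorem seqM {τ : Type} {n : ℕ} {ty : ℕ → τ} {i j : ℕ} (hij : i < j) (hj : j < n)
    (h : cls n ty 16 i = cls n ty 16 j) : ∃ M : ℕ → ℕ, M 0 = j ∧ (∀ s, s < 8 → M s < M (s + 1)) ∧
      (∀ s, s ≤ 8 → M s < n) ∧
      ∀ s, s ≤ 8 → cls n ty (16 - s) (M s) = cls n ty (16 - s) j := by
  have hst : ∀ s, s < 8 → ∀ x : ℕ, j ≤ x → cls n ty (16 - s) x = cls n ty (16 - s) j →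
      ∃ y, x < y ∧ y < n ∧ cls n ty (16 - (s + 1)) y = cls n ty (16 - (s + 1)) j := by
    intro s hs x hx hc
    have hr : 16 - s = (16 - (s + 1)) + 1 := by omega
    have hc' : cls n ty (16 - s) i = cls n ty (16 - s) x :=
      (cls_le (by omega) h).trans hc.symm
    rw [hr] at hc'
    obtain ⟨y, hy, hyn, hyc⟩ := cls_right hc' (m := j) hij hj
    exact ⟨y, hy, hyn, hyc⟩
  classical
  let f : ℕ → ℕ → ℕ := fun s x => if hx : s < 8 ∧ j ≤ x ∧ cls n ty (16 - s) x = cls n ty (16 - s) j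
    then Classical.choose (hst s hx.1 x hx.2.1 hx.2.2) else 0
  let L : ℕ → ℕ := fun s => Nat.rec j (fun s x => f s x) s
  have hL0 : L 0 = j := rfl
  have hLs : ∀ s, L (s + 1) = f s (L s) := fun s => rfl
  have key : ∀ s, s ≤ 8 → j ≤ L s ∧ L s < n ∧ cls n ty (16 - s) (L s) = cls n ty (16 - s) j := by
    intro s
    induction s with
    | zero => intro _; exact ⟨le_of_eq hL0.symm, by rw [hL0]; exact hj, by rw [hL0]⟩
    | succ s ih =>
      intro hs
      obtain ⟨h1, _, h2⟩ := ih (by omega)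
      have hx : s < 8 ∧ j ≤ L s ∧ cls n ty (16 - s) (L s) = cls n ty (16 - s) j :=
        ⟨by omega, h1, h2⟩
      have hf : f s (L s) = Classical.choose (hst s hx.1 (L s) hx.2.1 hx.2.2) := dif_pos hx
      have hsp := Classical.choose_spec (hst s hx.1 (L s) hx.2.1 hx.2.2)
      rw [← hf, ← hLs s] at hsp
      exact ⟨by omega, hsp.2.1, hsp.2.2⟩
  refine ⟨L, hL0, ?_, fun s hs => (key s hs).2.1, fun s hs => (key s hs).2.2⟩
  intro s hs
  obtain ⟨h1, _, h2⟩ := key s (by omega)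
  have hx : s < 8 ∧ j ≤ L s ∧ cls n ty (16 - s) (L s) = cls n ty (16 - s) j := ⟨hs, h1, h2⟩
  have hf : f s (L s) = Classical.choose (hst s hx.1 (L s) hx.2.1 hx.2.2) := dif_pos hx
  have hsp := Classical.choose_spec (hst s hx.1 (L s) hx.2.1 hx.2.2)
  rw [← hf, ← hLs s] at hsp
  exact hsp.1

/-- For `i < j` of the same class of level `16` choose `L s`, `s = 0, 1, ..., 8`, with `L 0 = i`,
`L (s+1) < L s` and `cls (16 - s) (L s) = cls (16 - s) i`: `L 1` by `cls_left` applied to `i`, `j`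
and `m = i`, then `L (s+1)` by `cls_left` applied to `L s`, `i` and `m = L s < i`. Similarly
`M s` by `cls_right`, with `cls (16 - s) (M s) = cls (16 - s) j`. `wordL`: `L 8` and `j` have the
same class of level `8`; for `m < j` there is `m' < L 8` with the class of `m` of level `7`; if
`i < m` there is `b < m'` with the class of `i` of level `6`; if `m = i` use `L 1 < i` instead of
`i`; if `m = j` use `m = i` (`ty i = ty j`). `wordR` similarly. -/
theorem exists_ctx {τ : Type} {n : ℕ} {ty : ℕ → τ} {i j : ℕ} (hij : i < j) (hj : j < n)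
    (h : cls n ty 16 i = cls n ty 16 j) : ∃ L M : ℕ → ℕ, Ctx n ty i j L M := by
  obtain ⟨L, hL0, hLs, hLc⟩ := seqL hij h
  obtain ⟨M, hM0, hMs, hMn, hMc⟩ := seqM hij hj h
  have ht : ty i = ty j := cls_ty h
  have hL8 : cls n ty 8 (L 8) = cls n ty 8 j := by
    have h1 := hLc 8 le_rfl
    have h2 : cls n ty 8 i = cls n ty 8 j := cls_le (by norm_num) h
    exact h1.trans h2
  have hM8 : cls n ty 8 i = cls n ty 8 (M 8) := by
    have h1 := hMc 8 le_rfl
    have h2 : cls n ty 8 i = cls n ty 8 j := cls_le (by norm_num) h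
    exact h2.trans h1.symm
  have hL1 : L 1 < i := by have := hLs 0 (by norm_num); rw [hL0] at this; exact this
  have hM1 : j < M 1 := by have := hMs 0 (by norm_num); rw [hM0] at this; exact this
  have hL1c : ty (L 1) = ty i := cls_ty (hLc 1 (by norm_num))
  have hM1c : ty (M 1) = ty j := cls_ty (hMc 1 (by norm_num))
  -- the general steps
  have wl : ∀ m, m < j → ∀ a, a < m → ty a = ty i → ∃ b m', b < m' ∧ m' < L 8 ∧ ty b = ty i ∧
      ty m' = ty m := by
    intro m hm a ha hta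
    obtain ⟨m', hm', hc'⟩ := cls_left (r := 7) hL8 (m := m) hm
    obtain ⟨b, hb, hbc⟩ := cls_left (r := 6) hc' (m := a) ha
    exact ⟨b, m', hb, hm', (cls_ty hbc).trans hta, cls_ty hc'⟩
  have wr : ∀ m, i < m → m < n → ∀ a, m < a → a < n → ty a = ty i →
      ∃ m' b, M 8 < m' ∧ m' < b ∧ b < n ∧ ty m' = ty m ∧ ty b = ty i := by
    intro m hm hmn a ha han hta
    obtain ⟨m', hm', hmn', hc'⟩ := cls_right (r := 7) hM8 (m := m) hm hmn
    obtain ⟨b, hb, hbn, hbc⟩ := cls_right (r := 6) hc'.symm (m := a) ha han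
    exact ⟨m', b, hm', hb, hbn, cls_ty hc', (cls_ty hbc).trans hta⟩
  refine ⟨L, M, ⟨hij, hj, ht, hL0, hM0, hLs, hMs, hMn, fun s hs => cls_ty (hLc s hs),
    fun s hs => (cls_ty (hMc s hs)).trans ht.symm, ?_, ?_⟩⟩
  · intro m h1 h2
    rcases eq_or_lt_of_le h1 with rfl | h1
    · exact wl i hij (L 1) hL1 hL1c
    · rcases eq_or_lt_of_le h2 with rfl | h2
      · obtain ⟨b, m', e1, e2, e3, e4⟩ := wl i hij (L 1) hL1 hL1c
        exact ⟨b, m', e1, e2, e3, e4.trans ht⟩
      · exact wl m h2 i h1 rfl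
  · intro m h1 h2
    rcases eq_or_lt_of_le h2 with rfl | h2
    · exact wr m hij hj (M 1) hM1 (hMn 1 (by norm_num)) (hM1c.trans ht.symm)
    · rcases eq_or_lt_of_le h1 with rfl | h1
      · obtain ⟨m', b, e1, e2, e3, e4, e5⟩ := wr j hij hj (M 1) hM1 (hMn 1 (by norm_num))
          (hM1c.trans ht.symm)
        exact ⟨m', b, e1, e2, e3, e4.trans ht.symm, e5⟩
      · exact wr m h1 (h2.trans hj) j h2 hj ht.symm

end Pool.MP_4929df_co.H92
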