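import Pool.Agent.W_4929df_h92.ChnDefs

/-!
The field with 8 elements, algebra of the swap maps (proofs row 594, section 8).
-/

set_option autoImplicit false

namespace Pool.MP_4929df_co.H92

open Submodule

variable {F : Type} [Field F] {k : ℕ} {p : Fin k → F} {f : (Fin k → F) →ₗ[F] F} {a b : F}

private theorem ChnJ0_two (h8 : Nat.card F = 8) : (1 : F) + 1 = 0 := by
  have hfin : Finite F := Nat.finite_of_card_ne_zero (by rw [h8]; norm_num)
  have : Fintype F := Fintype.ofFinite F
  have h1 : ((Fintype.card F : ℕ) : F) = 0 := Nat.cast_card_eq_zero F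
  rw [← Nat.card_eq_fintype_card, h8] at h1
  have h2 : ((1 : F) + 1) ^ 3 = 0 := by
    have : ((1 : F) + 1) ^ 3 = ((8 : ℕ) : F) := by push_cast; ring
    rw [this, h1]
  exact pow_eq_zero_iff (n := 3) (by norm_num) |>.1 h2

theorem add_self8 (h8 : Nat.card F = 8) (x : F) : x + x = 0 := by
  have h := ChnJ0_two h8
  have : x + x = (1 + 1) * x := by ring
  rw [this, h, zero_mul]

theorem pow7 (h8 : Nat.card F = 8) {x : F} (hx : x ≠ 0) : x ^ 7 = 1 := by
  have hfin : Finite F := Nat.finite_of_card_ne_zero (by rw [h8]; norm_num)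
  have : Fintype F := Fintype.ofFinite F
  have h := FiniteField.pow_card_sub_one_eq_one x hx
  rw [← Nat.card_eq_fintype_card, h8] at h
  exact h

private theorem ChnJ0_eq (h8 : Nat.card F = 8) {x y : F} (h : x + y = 0) : x = y := by
  have h1 := add_self8 h8 y
  have : x + y = y + y := by rw [h, h1]
  exact add_right_cancel this

/-- `{0, g, g', g + g'}` is a subgroup of index 2: `b₁`, `b₂` outside, `b₁ + b₂` inside. -/
theorem index_two (h8 : Nat.card F = 8) {g g' b₁ b₂ b₃ : F} (hg : g ≠ 0) (hg' : g' ≠ 0)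
    (hgg : g ≠ g') (h3 : b₃ = b₁ + b₂)
    (h₁ : b₁ ≠ 0 ∧ b₁ ≠ g ∧ b₁ ≠ g' ∧ b₁ ≠ g + g')
    (h₂ : b₂ ≠ 0 ∧ b₂ ≠ g ∧ b₂ ≠ g' ∧ b₂ ≠ g + g')
    (h₃ : b₃ ≠ 0 ∧ b₃ ≠ g ∧ b₃ ≠ g' ∧ b₃ ≠ g + g') : False := by
  classical
  have hfin : Finite F := Nat.finite_of_card_ne_zero (by rw [h8]; norm_num)
  have : Fintype F := Fintype.ofFinite F
  have e := add_self8 h8
  have q := fun {x y : F} => ChnJ0_eq (x := x) (y := y) h8
  obtain ⟨a1, a2, a3, a4⟩ := h₁
  obtain ⟨c1, c2, c3, c4⟩ := h₂
  obtain ⟨d1, d2, d3, d4⟩ := h₃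
  have hgs : g + g' ≠ 0 := fun h => hgg (q h)
  let S : Finset F := {0, g, g', g + g'}
  have hS : ∀ x, x ∈ S ↔ x = 0 ∨ x = g ∨ x = g' ∨ x = g + g' := by
    intro x; simp [S]
  have hSc : S.card = 4 := by
    have n1 : (0 : F) ∉ ({g, g', g + g'} : Finset F) := by
      simp only [Finset.mem_insert, Finset.mem_singleton, not_or]
      exact ⟨fun h => hg h.symm, fun h => hg' h.symm, fun h => hgs h.symm⟩
    have n2 : g ∉ ({g', g + g'} : Finset F) := by
      simp only [Finset.mem_insert, Finset.mem_singleton, not_or]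
      exact ⟨hgg, fun h => hg' (by simpa using h.symm)⟩
    have n3 : g' ∉ ({g + g'} : Finset F) := by
      simp only [Finset.mem_singleton]
      exact fun h => hg (by simpa using h.symm)
    show (insert 0 (insert g (insert g' {g + g'})) : Finset F).card = 4
    rw [Finset.card_insert_of_notMem n1, Finset.card_insert_of_notMem n2,
      Finset.card_insert_of_notMem n3, Finset.card_singleton]
  have hadd : ∀ x y, x ∈ S → y ∈ S → x + y ∈ S := by
    intro x y hx hy
    rw [hS] at hx hy ⊢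
    have e1 := e g
    have e2 := e g'
    have e3 : g + (g + g') = g' := by rw [← add_assoc, e1, zero_add]
    have e4 : g' + (g + g') = g := by rw [add_comm g g', ← add_assoc, e2, zero_add]
    have e5 : g + g' + (g + g') = 0 := e _
    rcases hx with h | h | h | h <;> rcases hy with h' | h' | h' | h' <;> rw [h, h']
    · exact Or.inl (add_zero 0)
    · exact Or.inr (Or.inl (zero_add g))
    · exact Or.inr (Or.inr (Or.inl (zero_add g')))
    · exact Or.inr (Or.inr (Or.inr (zero_add _)))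
    · exact Or.inr (Or.inl (add_zero g))
    · exact Or.inl e1
    · exact Or.inr (Or.inr (Or.inr rfl))
    · exact Or.inr (Or.inr (Or.inl e3))
    · exact Or.inr (Or.inr (Or.inl (add_zero g')))
    · exact Or.inr (Or.inr (Or.inr (add_comm g' g)))
    · exact Or.inl e2
    · exact Or.inr (Or.inl e4)
    · exact Or.inr (Or.inr (Or.inr (add_zero _)))
    · exact Or.inr (Or.inr (Or.inl (by rw [add_comm, e3])))
    · exact Or.inr (Or.inl (by rw [add_comm, e4]))
    · exact Or.inl e5
  have hb1 : b₁ ∉ S := by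
    rw [hS]
    rintro (h | h | h | h)
    exacts [a1 h, a2 h, a3 h, a4 h]
  have hb2 : b₂ ∉ S := by
    rw [hS]
    rintro (h | h | h | h)
    exacts [c1 h, c2 h, c3 h, c4 h]
  have hb3 : b₁ + b₂ ∉ S := by
    rw [← h3, hS]
    rintro (h | h | h | h)
    exacts [d1 h, d2 h, d3 h, d4 h]
  let T : Finset F := S.image (fun x => b₁ + x)
  have hTc : T.card = 4 := by
    rw [Finset.card_image_of_injective _ (add_right_injective b₁), hSc]
  have hd : Disjoint S T := by
    rw [Finset.disjoint_left]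
    intro x hx hxT
    obtain ⟨y, hy, rfl⟩ := Finset.mem_image.1 hxT
    refine hb1 ?_
    have := hadd _ _ hx hy
    rwa [add_assoc, e, add_zero] at this
  have hU : (S ∪ T).card = 8 := by rw [Finset.card_union_of_disjoint hd, hSc, hTc]
  have huniv : S ∪ T = Finset.univ := by
    refine Finset.eq_univ_of_card _ ?_
    rw [hU, ← Nat.card_eq_fintype_card, h8]
  have hm : b₂ ∈ S ∪ T := by rw [huniv]; exact Finset.mem_univ _
  rcases Finset.mem_union.1 hm with h | h
  · exact hb2 h
  · obtain ⟨y, hy, h⟩ := Finset.mem_image.1 h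
    refine hb3 ?_
    have h' : b₂ = b₁ + y := h.symm
    rw [h', ← add_assoc, e, zero_add]
    exact hy

theorem kap_apply (v : Fin k → F) : kap p f a v = v - ((a + f p)⁻¹ * f v) • p := by
  simp [kap, smul_smul]

theorem kapi_apply (v : Fin k → F) : kapi p f a v = v + (a⁻¹ * f v) • p := by
  simp [kapi, smul_smul]

theorem kap_comm : kap p f a ∘ₗ kap p f b = kap p f b ∘ₗ kap p f a := by
  refine LinearMap.ext fun v => ?_
  rw [LinearMap.comp_apply, LinearMap.comp_apply, kap_apply (a := a), kap_apply (a := b),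
    kap_apply (a := b), kap_apply (a := a)]
  simp only [map_sub, map_smul, smul_eq_mul]
  module

theorem kap_kapi (ha : a ≠ 0) (h : a + f p ≠ 0) : kap p f a ∘ₗ kapi p f a = LinearMap.id := by
  refine LinearMap.ext fun v => ?_
  rw [LinearMap.comp_apply, kap_apply, kapi_apply, LinearMap.id_apply]
  simp only [map_add, map_smul, smul_eq_mul]
  have e : a⁻¹ * f v - (a + f p)⁻¹ * (f v + a⁻¹ * f v * f p) = 0 := by
    field_simp
    ring
  have : v + (a⁻¹ * f v) • p - ((a + f p)⁻¹ * (f v + a⁻¹ * f v * f p)) • p =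
      v + (a⁻¹ * f v - (a + f p)⁻¹ * (f v + a⁻¹ * f v * f p)) • p := by module
  rw [this, e, zero_smul, add_zero]

theorem kapi_kap (ha : a ≠ 0) (h : a + f p ≠ 0) : kapi p f a ∘ₗ kap p f a = LinearMap.id := by
  refine LinearMap.ext fun v => ?_
  rw [LinearMap.comp_apply, kapi_apply, kap_apply, LinearMap.id_apply]
  simp only [map_sub, map_smul, smul_eq_mul]
  have e : a⁻¹ * (f v - (a + f p)⁻¹ * f v * f p) - (a + f p)⁻¹ * f v = 0 := by
    field_simp
    ring
  have : v - ((a + f p)⁻¹ * f v) • p + (a⁻¹ * (f v - (a + f p)⁻¹ * f v * f p)) • p =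
      v + (a⁻¹ * (f v - (a + f p)⁻¹ * f v * f p) - (a + f p)⁻¹ * f v) • p := by module
  rw [this, e, zero_smul, add_zero]

theorem kap_inj (ha : a ≠ 0) (h : a + f p ≠ 0) : Function.Injective (kap p f a) := by
  have h1 := kapi_kap (p := p) (f := f) ha h
  intro x y hxy
  have h2 := LinearMap.congr_fun h1 x
  have h3 := LinearMap.congr_fun h1 y
  simp only [LinearMap.comp_apply, LinearMap.id_apply] at h2 h3
  rw [← h2, ← h3, hxy]

private theorem ChnJ0_pow (hf : f p ≠ 0) (h : a + f p ≠ 0) (n : ℕ) (v : Fin k → F) :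
    ((kap p f a) ^ n) v = v + (((a / (a + f p)) ^ n - 1) * (f v / f p)) • p := by
  induction n with
  | zero => simp
  | succ n ih =>
    rw [pow_succ', Module.End.mul_apply, ih, kap_apply]
    simp only [map_add, map_smul, smul_eq_mul]
    have e : ((a / (a + f p)) ^ n - 1) * (f v / f p) -
        (a + f p)⁻¹ * (f v + ((a / (a + f p)) ^ n - 1) * (f v / f p) * f p) =
        ((a / (a + f p)) ^ (n + 1) - 1) * (f v / f p) := by
      rw [pow_succ]
      generalize (a / (a + f p)) ^ n = t
      field_simp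
      ring
    rw [← e]
    module

/-- `kap` is the identity on `ker f` and multiplication by `a / (a + f p)` on `p ∉ ker f`. -/
theorem kap_pow7 (h8 : Nat.card F = 8) (hf : f p ≠ 0) (ha : a ≠ 0) (h : a + f p ≠ 0) :
    (kap p f a) ^ 7 = 1 := by
  refine LinearMap.ext fun v => ?_
  rw [ChnJ0_pow hf h, pow7 h8 (div_ne_zero ha h), sub_self, zero_mul, zero_smul, add_zero]
  rfl

theorem kap_kap (h8 : Nat.card F = 8) (hf : f p = 0) : kap p f a ∘ₗ kap p f a = LinearMap.id := by
  refine LinearMap.ext fun v => ?_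
  rw [LinearMap.comp_apply, kap_apply, kap_apply, LinearMap.id_apply]
  simp only [map_sub, map_smul, smul_eq_mul, hf, mul_zero, sub_zero, add_zero]
  have e := add_self8 h8 (a⁻¹ * f v)
  have : v - (a⁻¹ * f v) • p - (a⁻¹ * f v) • p = v - (a⁻¹ * f v + a⁻¹ * f v) • p := by module
  rw [this, e, zero_smul, sub_zero]

theorem kapi_eq_kap (h8 : Nat.card F = 8) (hf : f p = 0) : kapi p f a = kap p f a := by
  refine LinearMap.ext fun v => ?_
  simp only [kap_apply, kapi_apply, hf, add_zero]
  have e := add_self8 h8 (a⁻¹ * f v)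
  have : v + (a⁻¹ * f v) • p = v - (a⁻¹ * f v) • p + (a⁻¹ * f v + a⁻¹ * f v) • p := by module
  rw [this, e, zero_smul, add_zero]

end Pool.MP_4929df_co.H92
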