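import Pool.Agent.W_4929df_h92.ChnJ0

/-!
Subspaces with the same image under two swap maps (proofs row 594, section 8).
-/

set_option autoImplicit false

namespace Pool.MP_4929df_co.H92

open Submodule

variable {F : Type} [Field F] {k : ℕ} {p : Fin k → F} {f : (Fin k → F) →ₗ[F] F} {a b : F}

/-- `kap a z = z - α f(z) p` and `kap b z = z - β f(z) p` with `α ≠ β` are proportional: if
`f z ≠ 0`, then `(1 - c) z ∈ span {p}` with `c ≠ 1`. -/
theorem pt_fix (hab : a ≠ b) (ha : a + f p ≠ 0) (hb : b + f p ≠ 0) (hp : p ≠ 0)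
    {z : Fin k → F} (h : (span F {z}).map (kap p f a) = (span F {z}).map (kap p f b)) :
    f z = 0 ∨ z ∈ span F {p} := by
  rw [Submodule.map_span, Submodule.map_span, Set.image_singleton, Set.image_singleton] at h
  have h1 : kap p f a z ∈ span F {kap p f b z} := by
    rw [← h]
    exact mem_span_singleton_self _
  obtain ⟨c, hc⟩ := mem_span_singleton.1 h1
  rw [kap_apply, kap_apply] at hc
  by_cases hc1 : c = 1
  · left
    subst hc1
    rw [one_smul, sub_right_inj, ← sub_eq_zero, ← sub_smul, smul_eq_zero] at hc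
    rcases hc with h2 | h2
    · rw [← sub_mul, mul_eq_zero] at h2
      rcases h2 with h3 | h3
      · exfalso
        rw [sub_eq_zero, inv_inj] at h3
        exact hab (add_right_cancel h3).symm
      · exact h3
    · exact absurd h2 hp
  · right
    have hc2 : (1 : F) - c ≠ 0 := sub_ne_zero.2 (Ne.symm hc1)
    have h2 : (1 - c) • z = ((a + f p)⁻¹ * f z - c * ((b + f p)⁻¹ * f z)) • p := by
      rw [sub_smul, one_smul, sub_smul, mul_smul c, ← sub_eq_zero]
      have h3 := sub_eq_zero.2 hc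
      rw [smul_sub] at h3
      rw [← neg_eq_zero, ← h3]
      abel
    refine mem_span_singleton.2 ⟨(1 - c)⁻¹ * ((a + f p)⁻¹ * f z - c * ((b + f p)⁻¹ * f z)), ?_⟩
    rw [mul_smul, ← h2, smul_smul, inv_mul_cancel₀ hc2, one_smul]

/-- The image of `ker ψ` under `kap a` is the kernel of `ψ ∘ kapi a = ψ + a⁻¹ ψ(p) f`. -/
theorem map_ker_kap (ha : a ≠ 0) (h : a + f p ≠ 0) (ψ : (Fin k → F) →ₗ[F] F) :
    (LinearMap.ker ψ).map (kap p f a) = LinearMap.ker (ψ + (a⁻¹ * ψ p) • f) := by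
  have hψ : ∀ v, ψ (kapi p f a v) = (ψ + (a⁻¹ * ψ p) • f) v := by
    intro v
    rw [kapi_apply, map_add, map_smul, LinearMap.add_apply, LinearMap.smul_apply, smul_eq_mul,
      smul_eq_mul]
    ring
  ext v
  rw [Submodule.mem_map, LinearMap.mem_ker, ← hψ]
  constructor
  · rintro ⟨u, hu, rfl⟩
    have h1 : kapi p f a (kap p f a u) = u := LinearMap.congr_fun (kapi_kap ha h) u
    rw [h1]
    exact LinearMap.mem_ker.1 hu
  · intro hv
    exact ⟨kapi p f a v, LinearMap.mem_ker.2 hv, LinearMap.congr_fun (kap_kapi ha h) v⟩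

/-- By `map_ker_kap` the functionals `ψ + a⁻¹ ψ(p) f` and `ψ + b⁻¹ ψ(p) f` are proportional. -/
theorem hyp_fix (hab : a ≠ b) (ha0 : a ≠ 0) (hb0 : b ≠ 0) (ha : a + f p ≠ 0)
    (hb : b + f p ≠ 0) (hf : f ≠ 0) {ψ : (Fin k → F) →ₗ[F] F}
    (h : (LinearMap.ker ψ).map (kap p f a) = (LinearMap.ker ψ).map (kap p f b)) :
    ψ p = 0 ∨ ψ ∈ span F {f} := by
  rw [map_ker_kap ha0 ha, map_ker_kap hb0 hb] at h
  have hprop : ∃ c : F, ψ + (a⁻¹ * ψ p) • f = c • (ψ + (b⁻¹ * ψ p) • f) := by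
    by_cases h0 : ψ + (b⁻¹ * ψ p) • f = 0
    · refine ⟨0, ?_⟩
      rw [zero_smul]
      rw [h0, LinearMap.ker_zero] at h
      exact LinearMap.ker_eq_top.1 h
    · obtain ⟨v, hv⟩ : ∃ v, (ψ + (b⁻¹ * ψ p) • f) v ≠ 0 := by
        by_contra hcon
        push Not at hcon
        exact h0 (LinearMap.ext hcon)
      refine ⟨(ψ + (a⁻¹ * ψ p) • f) v * ((ψ + (b⁻¹ * ψ p) • f) v)⁻¹, ?_⟩
      generalize ψ + (a⁻¹ * ψ p) • f = A at h ⊢
      generalize ψ + (b⁻¹ * ψ p) • f = B at h hv ⊢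
      refine LinearMap.ext fun u => ?_
      have h1 : B u • v - B v • u ∈ LinearMap.ker B := by
        rw [LinearMap.mem_ker, map_sub, map_smul, map_smul, smul_eq_mul, smul_eq_mul]
        ring
      rw [← h, LinearMap.mem_ker, map_sub, map_smul, map_smul, smul_eq_mul, smul_eq_mul,
        sub_eq_zero] at h1
      show A u = (A v * (B v)⁻¹) * B u
      rw [mul_assoc, mul_comm (B v)⁻¹, ← mul_assoc, mul_comm (A v), h1]
      field_simp
  obtain ⟨c, hc⟩ := hprop
  have hcu : ∀ u, ψ u + a⁻¹ * ψ p * f u = c * (ψ u + b⁻¹ * ψ p * f u) :=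
    fun u => LinearMap.congr_fun hc u
  by_cases hc1 : c = 1
  · left
    subst hc1
    obtain ⟨v, hv⟩ : ∃ v, f v ≠ 0 := by
      by_contra hcon
      push Not at hcon
      exact hf (LinearMap.ext hcon)
    have h1 : (a⁻¹ - b⁻¹) * (ψ p * f v) = 0 := by linear_combination hcu v
    rcases mul_eq_zero.1 h1 with h2 | h2
    · exact absurd (inv_inj.1 (sub_eq_zero.1 h2)) hab
    · rcases mul_eq_zero.1 h2 with h3 | h3
      · exact h3
      · exact absurd h3 hv
  · right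
    have hc2 : (1 : F) - c ≠ 0 := sub_ne_zero.2 (Ne.symm hc1)
    refine mem_span_singleton.2 ⟨(1 - c)⁻¹ * (c * (b⁻¹ * ψ p) - a⁻¹ * ψ p), ?_⟩
    refine LinearMap.ext fun u => ?_
    show ((1 - c)⁻¹ * (c * (b⁻¹ * ψ p) - a⁻¹ * ψ p)) * f u = ψ u
    have h1 : (c * (b⁻¹ * ψ p) - a⁻¹ * ψ p) * f u = (1 - c) * ψ u := by
      linear_combination -hcu u
    rw [mul_assoc, h1, ← mul_assoc, inv_mul_cancel₀ hc2, one_mul]

end Pool.MP_4929df_co.H92
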