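import Pool.Agent.W_4929df_h92.ChnD3
import Pool.Agent.W_4929df_h92.ChnF1
import Pool.Agent.W_4929df_h92.ChnJ1

/-!
The situation of Claim R, blocks of the same type (proofs row 594, sections 7, 8).
-/

set_option autoImplicit false

namespace Pool.MP_4929df_co.H92

open Submodule

section ty

variable {F : Type} [Field F] {E : Type} [Fintype E] [DecidableEq E] {V : Type}
  [AddCommGroup V] [Module F V] {c : Chn E} {k : ℕ} {w : E → V} {R : ChRep F c k w} {l m : ℕ}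

theorem ty_pair (h : R.ty l = R.ty m) {x y : E} (hx : x ∈ c.X m) (hy : y ∈ c.Y m) :
    ∃ x' ∈ c.X l, ∃ y' ∈ c.Y l, R.p x' = R.p x ∧ R.ph y' = R.ph y ∧ R.a x' y' = R.a x y := by
  have h1 : (R.p x, R.ph y, R.a x y) ∈ (R.ty m).1 := ⟨x, hx, y, hy, rfl⟩
  rw [← h] at h1
  obtain ⟨x', hx', y', hy', h2⟩ := h1
  rw [Prod.mk.injEq, Prod.mk.injEq] at h2
  exact ⟨x', hx', y', hy', h2.1, h2.2.1, h2.2.2⟩

theorem ty_p (h : R.ty l = R.ty m) {x : E} (hx : x ∈ c.X m) : ∃ x' ∈ c.X l, R.p x' = R.p x := by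
  have h1 : R.p x ∈ (R.ty m).2.1 := ⟨x, hx, rfl⟩
  rw [← h] at h1
  obtain ⟨x', hx', h2⟩ := h1
  exact ⟨x', hx', h2⟩

theorem ty_ph (h : R.ty l = R.ty m) {y : E} (hy : y ∈ c.Y m) :
    ∃ y' ∈ c.Y l, R.ph y' = R.ph y := by
  have h1 : R.ph y ∈ (R.ty m).2.2.1 := ⟨y, hy, rfl⟩
  rw [← h] at h1
  obtain ⟨y', hy', h2⟩ := h1
  exact ⟨y', hy', h2⟩

theorem ty_Y (h : R.ty l = R.ty m) : (c.Y l).card ≤ 1 ↔ (c.Y m).card ≤ 1 := by
  have h1 : (R.ty l).2.2.2.1 = (R.ty m).2.2.2.1 := by rw [h]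
  exact iff_of_eq h1

theorem ty_X (h : R.ty l = R.ty m) : (c.X l).card ≤ 1 ↔ (c.X m).card ≤ 1 := by
  have h1 : (R.ty l).2.2.2.2 = (R.ty m).2.2.2.2 := by rw [h]
  exact iff_of_eq h1

theorem ty_tri (h : R.ty l = R.ty m) (hY : (c.Y m).card ≤ 1) {x₁ x₂ y : E} (hx₁ : x₁ ∈ c.X m)
    (hx₂ : x₂ ∈ c.X m) (hy : y ∈ c.Y m) :
    ∃ x₁' ∈ c.X l, ∃ x₂' ∈ c.X l, ∃ y' ∈ c.Y l, R.p x₁' = R.p x₁ ∧ R.p x₂' = R.p x₂ ∧
      R.ph y' = R.ph y ∧ R.a x₁' y' = R.a x₁ y ∧ R.a x₂' y' = R.a x₂ y := by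
  obtain ⟨u, hu, v, hv, h1, h2, h3⟩ := ty_pair h hx₁ hy
  obtain ⟨u', hu', v', hv', h1', _, h3'⟩ := ty_pair h hx₂ hy
  have hvv : v' = v := Finset.card_le_one.1 ((ty_Y h).2 hY) v' hv' v hv
  rw [hvv] at h3'
  exact ⟨u, hu, u', hu', v, hv, h1, h1', h2, h3, h3'⟩

theorem ty_cotri (h : R.ty l = R.ty m) (hX : (c.X m).card ≤ 1) {x y₁ y₂ : E} (hx : x ∈ c.X m)
    (hy₁ : y₁ ∈ c.Y m) (hy₂ : y₂ ∈ c.Y m) :
    ∃ x' ∈ c.X l, ∃ y₁' ∈ c.Y l, ∃ y₂' ∈ c.Y l, R.p x' = R.p x ∧ R.ph y₁' = R.ph y₁ ∧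
      R.ph y₂' = R.ph y₂ ∧ R.a x' y₁' = R.a x y₁ ∧ R.a x' y₂' = R.a x y₂ := by
  obtain ⟨u, hu, v, hv, h1, h2, h3⟩ := ty_pair h hx hy₁
  obtain ⟨u', hu', v', hv', _, h2', h3'⟩ := ty_pair h hx hy₂
  have huu : u' = u := Finset.card_le_one.1 ((ty_X h).2 hX) u' hu' u hu
  rw [huu] at h3'
  exact ⟨u, hu, v, hv, v', hv', h1, h2, h2', h3, h3'⟩

end ty

variable {F : Type} [Field F] {E : Type} [Fintype E] [DecidableEq E] {V V' : Type}
  [AddCommGroup V] [Module F V] [AddCommGroup V'] [Module F V'] {c : Chn E} {k : ℕ}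
  {w : E → V} {w' : E → V'}

/-- the situation of Claim R: `(x, y)`, `(x', y')` are pairs with the same letters in two blocks
`i < j` of the same type (with context `L`, `M`) -/
structure Sit (R : ChRep F c k w) (R' : ChRep F c k w') (L M : ℕ → ℕ) (i j : ℕ)
    (x y x' y' : E) : Prop where
  fd : FiniteDimensional F V
  fd' : FiniteDimensional F V'
  h8 : Nat.card F = 8
  hw : SameR F w w'
  hs : Sh R R'
  ctx : Ctx c.n R.ty i j L M
  hx : x ∈ c.X i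
  hy : y ∈ c.Y i
  hx' : x' ∈ c.X j
  hy' : y' ∈ c.Y j
  hp : R.p x' = R.p x
  hph : R.ph y' = R.ph y
  ha : R.a x' y' = R.a x y
  hp0 : R.p x ≠ 0
  hph0 : R.ph y ≠ 0
  ha0 : R.a x y ≠ 0
  hb0 : R.a x y + R.ph y (R.p x) ≠ 0
  hne : R'.a x y ≠ R'.a x' y'

variable {R : ChRep F c k w} {R' : ChRep F c k w'} {L M : ℕ → ℕ} {i j : ℕ} {x y x' y' : E}
  {U U' : Submodule F (Fin k → F)}

/-- the letters of `R'` at the two pairs are nonzero -/
theorem Sit.nz (S : Sit R R' L M i j x y x' y') :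
    R'.a x y ≠ 0 ∧ R'.a x' y' ≠ 0 ∧ R'.a x y + R.ph y (R.p x) ≠ 0 ∧
      R'.a x' y' + R.ph y (R.p x) ≠ 0 := by
  have := S.fd
  have := S.fd'
  have hj := S.ctx.hj
  have hi : i < c.n := S.ctx.hij.trans hj
  have hpx : R.p x = R'.p x := S.hs.1 i hi x S.hx
  have hphy : R.ph y = R'.ph y := S.hs.2 i hi y S.hy
  have hpx' : R.p x' = R'.p x' := S.hs.1 j hj x' S.hx'
  have hphy' : R.ph y' = R'.ph y' := S.hs.2 j hj y' S.hy'
  refine ⟨fun h => S.ha0 ((S.hw.a_iff R R' hi S.hx S.hy).2 h), fun h => S.ha0 ?_,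
    fun h => S.hb0 ((S.hw.aph_iff R R' hi S.hx S.hy).2 ?_), fun h => S.hb0 ?_⟩
  · rw [← S.ha]
    exact (S.hw.a_iff R R' hj S.hx' S.hy').2 h
  · rw [← hpx, ← hphy]
    exact h
  · rw [← S.ha, ← S.hp, ← S.hph]
    refine (S.hw.aph_iff R R' hj S.hx' S.hy').2 ?_
    rw [← hpx', ← hphy', S.hp, S.hph]
    exact h

/-- a swap on the left in a block `l` of the type of `i` -/
theorem Sit.swap_at (S : Sit R R' L M i j x y x' y') {m l : ℕ} (h : LP R R' m U U')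
    (hml : m ≤ l) (hl : l < c.n) (ht : R.ty l = R.ty i) :
    ∃ b : F, b ≠ 0 ∧ b + R.ph y (R.p x) ≠ 0 ∧
      LP R R' (l + 1) (U.map (kap (R.p x) (R.ph y) (R.a x y)))
        (U'.map (kap (R.p x) (R.ph y) b)) := by
  have := S.fd
  have := S.fd'
  obtain ⟨u, hu, v, hv, h1, h2, h3⟩ := ty_pair ht S.hx S.hy
  have hpu : R.p u = R'.p u := S.hs.1 l hl u hu
  have hphv : R.ph v = R'.ph v := S.hs.2 l hl v hv
  have e1 : R.a u v + R.ph v (R.p u) ≠ 0 := by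
    rw [h1, h2, h3]
    exact S.hb0
  have e2 : R'.a u v + R'.ph v (R'.p u) ≠ 0 := fun h =>
    e1 ((S.hw.aph_iff R R' hl hu hv).2 h)
  have e0 : R'.a u v ≠ 0 := fun h => S.ha0 (by
    rw [← h3]
    exact (S.hw.a_iff R R' hl hu hv).2 h)
  have h4 := (h.mono hml hl.le).swap hl hu hv e1 e2
  rw [← hpu, ← hphv, h1, h2, h3] at h4
  rw [← hpu, ← hphv, h1, h2] at e2
  exact ⟨R'.a u v, e0, e2, h4⟩

/-- the swap `(x, y)` in block `i` -/
theorem Sit.swap_i (S : Sit R R' L M i j x y x' y') {m : ℕ} (h : LP R R' m U U')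
    (hm : m ≤ i) :
    LP R R' (i + 1) (U.map (kap (R.p x) (R.ph y) (R.a x y)))
        (U'.map (kap (R.p x) (R.ph y) (R'.a x y))) := by
  have := S.fd
  have := S.fd'
  have hi : i < c.n := S.ctx.hij.trans S.ctx.hj
  have hpx : R.p x = R'.p x := S.hs.1 i hi x S.hx
  have hphy : R.ph y = R'.ph y := S.hs.2 i hi y S.hy
  have h4 := (h.mono hm hi.le).swap hi S.hx S.hy S.hb0 fun h =>
    S.hb0 ((S.hw.aph_iff R R' hi S.hx S.hy).2 h)
  rw [← hpx, ← hphy] at h4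
  exact h4

/-- the swap `(x', y')` in block `j` -/
theorem Sit.swap_j (S : Sit R R' L M i j x y x' y') {m : ℕ} (h : LP R R' m U U')
    (hm : m ≤ j) :
    LP R R' (j + 1) (U.map (kap (R.p x) (R.ph y) (R.a x y)))
        (U'.map (kap (R.p x) (R.ph y) (R'.a x' y'))) := by
  have := S.fd
  have := S.fd'
  have hj := S.ctx.hj
  have hpx' : R.p x' = R'.p x' := S.hs.1 j hj x' S.hx'
  have hphy' : R.ph y' = R'.ph y' := S.hs.2 j hj y' S.hy'
  have e1 : R.a x' y' + R.ph y' (R.p x') ≠ 0 := by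
    rw [S.hp, S.hph, S.ha]
    exact S.hb0
  have h4 := (h.mono hm hj.le).swap hj S.hx' S.hy' e1 fun h =>
    e1 ((S.hw.aph_iff R R' hj S.hx' S.hy').2 h)
  rw [← hpx', ← hphy', S.hp, S.hph, S.ha] at h4
  exact h4

/-- the positions of the context are ordered -/
theorem Ctx.lt_L {τ : Type} {n : ℕ} {ty : ℕ → τ} {i j : ℕ} {L M : ℕ → ℕ}
    (h : Ctx n ty i j L M) {s t : ℕ} (hst : s < t) (ht : t ≤ 8) : L t < L s := by
  induction t with
  | zero => omega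
  | succ t ih =>
    have h1 := h.Ls t (by omega)
    rcases Nat.lt_or_ge s t with h2 | h2
    · have h3 := ih h2 (by omega)
      omega
    · have h3 : s = t := by omega
      rw [h3]
      exact h1

theorem Ctx.lt_M {τ : Type} {n : ℕ} {ty : ℕ → τ} {i j : ℕ} {L M : ℕ → ℕ}
    (h : Ctx n ty i j L M) {s t : ℕ} (hst : s < t) (ht : t ≤ 8) : M s < M t := by
  induction t with
  | zero => omega
  | succ t ih =>
    have h1 := h.Ms t (by omega)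
    rcases Nat.lt_or_ge s t with h2 | h2
    · have h3 := ih h2 (by omega)
      omega
    · have h3 : s = t := by omega
      rw [h3]
      exact h1

end Pool.MP_4929df_co.H92
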