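import Pool.Agent.W_4929df_h92.ChnK0

/-!
Visible pairs are fixed, homology (proofs row 594, section 8).
-/

set_option autoImplicit false

namespace Pool.MP_4929df_co.H92

open Submodule

variable {F : Type} [Field F] {E : Type} [Fintype E] [DecidableEq E] {V V' : Type}
  [AddCommGroup V] [Module F V] [AddCommGroup V'] [Module F V'] {c : Chn E} {k : ℕ}
  {w : E → V} {w' : E → V'} {R : ChRep F c k w} {R' : ChRep F c k w'} {L M : ℕ → ℕ} {i j : ℕ}
  {x y x' y' : E} {U U' : Submodule F (Fin k → F)}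

/-- swaps in the blocks `L 6`, `L 5`, ..., `L 1` (`Sit.swap_at`): in `R'` a product `κ` of six maps
`kap`, which is injective and commutes with all `kap p f b` (`kap_comm`) -/
theorem Sit.six (S : Sit R R' L M i j x y x' y') (h : LP R R' (L 8) U U') :
    ∃ κ : (Fin k → F) →ₗ[F] (Fin k → F), Function.Injective κ ∧
      (∀ b, κ ∘ₗ kap (R.p x) (R.ph y) b = kap (R.p x) (R.ph y) b ∘ₗ κ) ∧
      LP R R' i (U.map ((kap (R.p x) (R.ph y) (R.a x y)) ^ 6)) (U'.map κ) := by
  have hL0 : L 0 = i := S.ctx.L0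
  have hin : i < c.n := lt_trans S.ctx.hij S.ctx.hj
  have key : ∀ t, t ≤ 6 → ∃ m, ∃ κ : (Fin k → F) →ₗ[F] (Fin k → F), m ≤ L (6 - t) ∧
      Function.Injective κ ∧
      (∀ b, κ ∘ₗ kap (R.p x) (R.ph y) b = kap (R.p x) (R.ph y) b ∘ₗ κ) ∧
      LP R R' m (U.map ((kap (R.p x) (R.ph y) (R.a x y)) ^ t)) (U'.map κ) := by
    intro t
    induction t with
    | zero =>
      intro _
      refine ⟨L 8, LinearMap.id, (Ctx.lt_L S.ctx (by omega) le_rfl).le, fun _ _ h1 => h1,
        fun b => ?_, ?_⟩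
      · rw [LinearMap.id_comp, LinearMap.comp_id]
      · rw [pow_zero, Submodule.map_id, Module.End.one_eq_id, Submodule.map_id]
        exact h
    | succ t ih =>
      intro ht
      obtain ⟨m, κ, hm, hi, hc, hLP⟩ := ih (by omega)
      have hl : L (6 - t) < c.n := by
        have h1 : L (6 - t) < L 0 := Ctx.lt_L S.ctx (by omega) (by omega)
        omega
      obtain ⟨b, hb, hb', hLP'⟩ := S.swap_at hLP hm hl (S.ctx.tL _ (by omega))
      refine ⟨L (6 - t) + 1, kap (R.p x) (R.ph y) b ∘ₗ κ, ?_, ?_, fun b' => ?_, ?_⟩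
      · exact Ctx.lt_L S.ctx (by omega) (by omega)
      · rw [LinearMap.coe_comp]
        exact (kap_inj hb hb').comp hi
      · rw [LinearMap.comp_assoc, hc b', ← LinearMap.comp_assoc, kap_comm, LinearMap.comp_assoc]
      · rw [pow_succ', Module.End.mul_eq_comp, Submodule.map_comp, Submodule.map_comp]
        exact hLP'
  obtain ⟨m, κ, hm, hi, hc, hLP⟩ := key 6 le_rfl
  refine ⟨κ, hi, hc, hLP.mono ?_ hin.le⟩
  rw [← hL0]
  exact hm

/-- `Sit.six`, then one swap at `i` or at `j`. In `R` the product of the seven swaps is the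
identity (`kap_pow7`), so by `LP.eq_of_RP` (at the cuts `i + 1` and `j + 1`, `RP.mono`)
`(U'.map κ).map (kap ..) = U''` in both cases; commute and cancel `κ`. -/
theorem Sit.fix_hom (S : Sit R R' L M i j x y x' y') (hf : R.ph y (R.p x) ≠ 0)
    (h : Vis R R' (L 8) (M 8 + 1) U U') :
    U'.map (kap (R.p x) (R.ph y) (R'.a x y)) = U'.map (kap (R.p x) (R.ph y) (R'.a x' y')) := by
  have : FiniteDimensional F V := S.fd
  have : FiniteDimensional F V' := S.fd'
  obtain ⟨hLP, U'', hRP⟩ := h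
  obtain ⟨κ, hi, hc, h6⟩ := S.six hLP
  have h7 : (U.map ((kap (R.p x) (R.ph y) (R.a x y)) ^ 6)).map
      (kap (R.p x) (R.ph y) (R.a x y)) = U := by
    rw [← Submodule.map_comp, ← Module.End.mul_eq_comp, ← pow_succ',
      kap_pow7 S.h8 hf S.ha0 S.hb0, Module.End.one_eq_id, Submodule.map_id]
  have hij := S.ctx.hij
  have hM0 : M 0 = j := S.ctx.M0
  have hM8 : M 0 < M 8 := Ctx.lt_M S.ctx (by omega) le_rfl
  have hMn : M 8 < c.n := S.ctx.Mn 8 le_rfl
  have e1 := S.swap_i h6 le_rfl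
  have e2 := S.swap_j h6 hij.le
  rw [h7] at e1 e2
  have f1 := LP.eq_of_RP S.hw e1 (hRP.mono (by omega) (by omega)) (by omega)
  have f2 := LP.eq_of_RP S.hw e2 (hRP.mono (by omega) (by omega)) (by omega)
  have f3 := f1.trans f2.symm
  rw [← Submodule.map_comp, ← Submodule.map_comp, ← hc, ← hc, Submodule.map_comp,
    Submodule.map_comp] at f3
  exact Submodule.map_injective_of_injective hi f3

end Pool.MP_4929df_co.H92
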