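import Pool.Agent.W_4929df_h92.ChnK0

/-!
Visible pairs are fixed, elation (proofs row 594, section 8).
-/

set_option autoImplicit false

namespace Pool.MP_4929df_co.H92

open Submodule

variable {F : Type} [Field F] {E : Type} [Fintype E] [DecidableEq E] {V V' : Type}
  [AddCommGroup V] [Module F V] [AddCommGroup V'] [Module F V'] {c : Chn E} {k : ℕ}
  {w : E → V} {w' : E → V'} {R : ChRep F c k w} {R' : ChRep F c k w'} {L M : ℕ → ℕ} {i j : ℕ}
  {x y x' y' : E} {U U' : Submodule F (Fin k → F)}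

/-- No swap: `U' = U''` by `LP.eq_of_RP` (at the cut `j + 1`). Swaps at `i` and `j`: in `R` their
product is the identity (`kap_kap`), so `(U'.map (kap ..)).map (kap ..) = U'' = U'`; apply
`kap_kap` for the swap at `j`. -/
theorem Sit.fix_ela (S : Sit R R' L M i j x y x' y') (hf : R.ph y (R.p x) = 0)
    (h : Vis R R' (L 8) (M 8 + 1) U U') :
    U'.map (kap (R.p x) (R.ph y) (R'.a x y)) = U'.map (kap (R.p x) (R.ph y) (R'.a x' y')) := by
  haveI := S.fd
  haveI := S.fd'
  obtain ⟨h1, U'', h2⟩ := h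
  have hL : L 8 < i := by
    have := S.ctx.lt_L (s := 0) (t := 8) (by norm_num) le_rfl
    rwa [S.ctx.L0] at this
  have hM : j < M 8 := by
    have := S.ctx.lt_M (s := 0) (t := 8) (by norm_num) le_rfl
    rwa [S.ctx.M0] at this
  have hn := S.ctx.Mn 8 le_rfl
  have hij := S.ctx.hij
  have hj := S.ctx.hj
  have hR : RP R R' (j + 1) U U'' := h2.mono (by omega) (by omega)
  have e1 : U' = U'' := LP.eq_of_RP S.hw (h1.mono (by omega) (by omega)) hR (by omega)
  have h3 := S.swap_j (S.swap_i h1 hL.le) (by omega : i + 1 ≤ j)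
  have hkk : ∀ (a : F) (W : Submodule F (Fin k → F)),
      (W.map (kap (R.p x) (R.ph y) a)).map (kap (R.p x) (R.ph y) a) = W := by
    intro a W
    rw [← Submodule.map_comp, kap_kap S.h8 hf, Submodule.map_id]
  rw [hkk] at h3
  have e2 := LP.eq_of_RP S.hw h3 hR (by omega)
  rw [← e1] at e2
  have e3 := congrArg (fun W => W.map (kap (R.p x) (R.ph y) (R'.a x' y'))) e2
  simp only [hkk] at e3
  exact e3

end Pool.MP_4929df_co.H92
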