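import Pool.Agent.W_4929df_h92.ChnK1
import Pool.Agent.W_4929df_h92.ChnK2

/-!
Visible points and hyperplanes, letters in the zone (proofs row 594, section 8).
-/

set_option autoImplicit false

namespace Pool.MP_4929df_co.H92

open Submodule

variable {F : Type} [Field F] {E : Type} [Fintype E] [DecidableEq E] {V V' : Type}
  [AddCommGroup V] [Module F V] [AddCommGroup V'] [Module F V'] {c : Chn E} {k : ℕ}
  {w : E → V} {w' : E → V'} {R : ChRep F c k w} {R' : ChRep F c k w'} {L M : ℕ → ℕ} {i j : ℕ}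
  {x y x' y' : E} {U U' : Submodule F (Fin k → F)}

/-- `Sit.fix_hom` or `Sit.fix_ela`, and `pt_fix` -/
theorem Sit.vis_pt (S : Sit R R' L M i j x y x' y') {z : Fin k → F}
    (h : Vis R R' (L 8) (M 8 + 1) U (span F {z})) : R.ph y z = 0 ∨ z ∈ span F {R.p x} := by
  obtain ⟨_, _, h3, h4⟩ := S.nz
  by_cases hf : R.ph y (R.p x) = 0
  · exact pt_fix S.hne h3 h4 S.hp0 (S.fix_ela hf h)
  · exact pt_fix S.hne h3 h4 S.hp0 (S.fix_hom hf h)

/-- `Sit.fix_hom` or `Sit.fix_ela`, and `hyp_fix` -/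
theorem Sit.vis_hyp (S : Sit R R' L M i j x y x' y') {ψ : (Fin k → F) →ₗ[F] F}
    (h : Vis R R' (L 8) (M 8 + 1) U (LinearMap.ker ψ)) :
    ψ (R.p x) = 0 ∨ ψ ∈ span F {R.ph y} := by
  obtain ⟨h1, h2, h3, h4⟩ := S.nz
  by_cases hf : R.ph y (R.p x) = 0
  · exact hyp_fix S.hne h1 h2 h3 h4 S.hph0 (S.fix_ela hf h)
  · exact hyp_fix S.hne h1 h2 h3 h4 S.hph0 (S.fix_hom hf h)

/-- Join from `⊥` at copies of `m` left of `L 8` and right of `M 8` (`Ctx.wordL`, `Ctx.wordR`,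
`ty_p`). -/
theorem Sit.zone_p (S : Sit R R' L M i j x y x' y') {m : ℕ} (him : i ≤ m) (hmj : m ≤ j)
    {e : E} (he : e ∈ c.X m) : R.ph y (R.p e) = 0 ∨ R.p e ∈ span F {R.p x} := by
  have hi : i < c.n := lt_trans S.ctx.hij S.ctx.hj
  have hL0 : L 0 = i := S.ctx.L0
  have hL8 : L 8 < L 0 := Ctx.lt_L S.ctx (by omega) le_rfl
  have hM8 := S.ctx.Mn 8 le_rfl
  obtain ⟨b, m', h1, h2, h3, h4⟩ := S.ctx.wordL m him hmj
  obtain ⟨m'', b', k1, k2, k3, k4, k5⟩ := S.ctx.wordR m him hmj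
  obtain ⟨e1, he1, f1⟩ := ty_p h4 he
  obtain ⟨e2, he2, f2⟩ := ty_p k4 he
  have hm' : m' < c.n := by omega
  have hm'' : m'' < c.n := by omega
  have g1 : R.p e1 = R'.p e1 := S.hs.1 m' hm' e1 he1
  have a1 := (LP.bot (R := R) (R' := R') hm'.le).join hm' he1
  rw [← g1, f1, bot_sup_eq] at a1
  have a2 := (RP.bot (R := R) (R' := R') (l := m'' + 1) hm'').join hm'' he2
  rw [f2, bot_sup_eq] at a2
  exact S.vis_pt ⟨a1.mono (by omega) (by omega), _, a2.mono (by omega) (by omega)⟩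

/-- Kill from `⊤` at copies of `m`. -/
theorem Sit.zone_ph (S : Sit R R' L M i j x y x' y') {m : ℕ} (him : i ≤ m) (hmj : m ≤ j)
    {e : E} (he : e ∈ c.Y m) : R.ph e (R.p x) = 0 ∨ R.ph e ∈ span F {R.ph y} := by
  have hi : i < c.n := lt_trans S.ctx.hij S.ctx.hj
  have hL0 : L 0 = i := S.ctx.L0
  have hL8 : L 8 < L 0 := Ctx.lt_L S.ctx (by omega) le_rfl
  have hM8 := S.ctx.Mn 8 le_rfl
  obtain ⟨b, m', h1, h2, h3, h4⟩ := S.ctx.wordL m him hmj
  obtain ⟨m'', b', k1, k2, k3, k4, k5⟩ := S.ctx.wordR m him hmj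
  obtain ⟨e1, he1, f1⟩ := ty_ph h4 he
  obtain ⟨e2, he2, f2⟩ := ty_ph k4 he
  have hm' : m' < c.n := by omega
  have hm'' : m'' < c.n := by omega
  have g1 : R.ph e1 = R'.ph e1 := S.hs.2 m' hm' e1 he1
  have a1 := (LP.top (R := R) (R' := R') hm'.le).kill hm' he1
  rw [← g1, f1, top_inf_eq] at a1
  have a2 := (RP.top (R := R) (R' := R') (l := m'' + 1) hm'').kill hm'' he2
  rw [f2, top_inf_eq] at a2
  exact S.vis_hyp ⟨a1.mono (by omega) (by omega), _, a2.mono (by omega) (by omega)⟩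

end Pool.MP_4929df_co.H92
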