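import Pool.Agent.W_4929df_h92.ChnK3

/-!
Homology: no active pairs (M1), (M2) in the zone (proofs row 594, section 9).
-/

set_option autoImplicit false

namespace Pool.MP_4929df_co.H92

open Submodule

variable {F : Type} [Field F] {E : Type} [Fintype E] [DecidableEq E] {V V' : Type}
  [AddCommGroup V] [Module F V] [AddCommGroup V'] [Module F V'] {c : Chn E} {k : ℕ}
  {w : E → V} {w' : E → V'} {R : ChRep F c k w} {R' : ChRep F c k w'} {L M : ℕ → ℕ} {i j : ℕ}
  {x y x' y' : E} {U U' : Submodule F (Fin k → F)}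

/-- the same word on the left and on the right: `W` from a block of the type of `i`, then a swap
in a block of the type of `m` -/
private theorem chnL1_word (S : Sit R R' L M i j x y x' y') {m : ℕ}
    (him : i ≤ m) (hmj : m ≤ j) {e g : E} (he : e ∈ c.X m) (hg : g ∈ c.Y m)
    (ha : R.a e g ≠ 0) (h0 : R.ph g (R.p e) = 0) {W : Submodule F (Fin k → F)}
    (hL : ∀ b, b < c.n → R.ty b = R.ty i → LP R R' (b + 1) W W)
    (hR : ∀ b, b < c.n → R.ty b = R.ty i → RP R R' b W W) :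
    ∃ b : F, b ≠ 0 ∧ Vis R R' (L 8) (M 8 + 1) (W.map (kap (R.p e) (R.ph g) (R.a e g)))
      (W.map (kap (R.p e) (R.ph g) b)) := by
  have := S.fd
  have := S.fd'
  have hL8 : L 8 < i := by
    have := S.ctx.lt_L (s := 0) (t := 8) (by norm_num) le_rfl
    rwa [S.ctx.L0] at this
  have hij := S.ctx.hij
  have hj := S.ctx.hj
  have key : ∀ l, l < c.n → ∀ e₁ ∈ c.X l, ∀ g₁ ∈ c.Y l, R.p e₁ = R.p e → R.ph g₁ = R.ph g →
      R.a e₁ g₁ = R.a e g → R'.a e₁ g₁ ≠ 0 ∧ R'.p e₁ = R.p e ∧ R'.ph g₁ = R.ph g := by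
    intro l hl e₁ he₁ g₁ hg₁ h1 h2 h3
    refine ⟨fun h => ?_, ?_, ?_⟩
    · have h4 := (S.hw.a_iff R R' hl he₁ hg₁).2 h
      exact ha (h3.symm.trans h4)
    · rw [← S.hs.1 l hl e₁ he₁, h1]
    · rw [← S.hs.2 l hl g₁ hg₁, h2]
  obtain ⟨b, m₁, hbm, hm₁, htb, htm⟩ := S.ctx.wordL m him hmj
  obtain ⟨e₁, he₁, g₁, hg₁, h1, h2, h3⟩ := ty_pair htm he hg
  obtain ⟨k1, k2, k3⟩ := key m₁ (by omega) e₁ he₁ g₁ hg₁ h1 h2 h3
  obtain ⟨m₂, b₂, hm₂, hmb₂, hb₂, htm₂, htb₂⟩ := S.ctx.wordR m him hmj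
  obtain ⟨e₂, he₂, g₂, hg₂, h1', h2', h3'⟩ := ty_pair htm₂ he hg
  obtain ⟨k1', k2', k3'⟩ := key m₂ (by omega) e₂ he₂ g₂ hg₂ h1' h2' h3'
  have f1 := ((hL b (by omega) htb).mono (by omega : b + 1 ≤ m₁) (by omega)).swap
    (by omega : m₁ < c.n) he₁ hg₁ (by rw [h1, h2, h3, h0, add_zero]; exact ha)
    (by rw [k2, k3, h0, add_zero]; exact k1)
  have f2 := ((hR b₂ hb₂ htb₂).mono (by omega : m₂ + 1 ≤ b₂) (by omega)).swap
    (by omega : m₂ < c.n) he₂ hg₂ (by rw [h3']; exact ha) k1'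
  rw [h1, h2, h3, k2, k3] at f1
  rw [h1', h2', h3', kapi_eq_kap S.h8 h0] at f2
  exact ⟨R'.a e₁ g₁, k1, f1.mono (by omega) (by omega), _, f2.mono (by omega) (by omega)⟩

/-- (M1) Otherwise: on the left (`Ctx.wordL` for `m`) join the copy of `x` in a block `b` of the
type of `i` to `⊥`, then swap the copies of `(e, g)` in a block of the type of `m`; on the right
(`Ctx.wordR`) the same. As `R.ph g (R.p e) = 0` (`h1`, `h3`), `kapi = kap` in `R`
(`kapi_eq_kap`), so this is a visible pair; in `R'` the left one is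
`span {p x + b • p e}` with `b ≠ 0`, contradiction to `Sit.vis_pt` (`ph y (p x) ≠ 0`,
`ph y (p e) = 0`). -/
theorem Sit.M1 (S : Sit R R' L M i j x y x' y') (hf : R.ph y (R.p x) ≠ 0) {m : ℕ}
    (him : i ≤ m) (hmj : m ≤ j) {e g : E} (he : e ∈ c.X m) (hg : g ∈ c.Y m)
    (ha : R.a e g ≠ 0) (h1 : R.ph g ∈ span F {R.ph y}) (h2 : R.ph g ≠ 0)
    (h3 : R.ph y (R.p e) = 0) : R.p e = 0 := by
  obtain ⟨s, hs⟩ := mem_span_singleton.1 h1
  have hs0 : s ≠ 0 := by
    rintro rfl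
    exact h2 (by rw [← hs, zero_smul])
  have hge : R.ph g (R.p e) = 0 := by
    rw [← hs, LinearMap.smul_apply, h3, smul_zero]
  have hgx : R.ph g (R.p x) ≠ 0 := by
    rw [← hs, LinearMap.smul_apply, smul_eq_mul]
    exact mul_ne_zero hs0 hf
  obtain ⟨b, hb, hv⟩ := chnL1_word S him hmj he hg ha hge (W := span F {R.p x})
    (fun b hb ht => by
      obtain ⟨x₁, hx₁, hp⟩ := ty_p ht S.hx
      have h := (LP.bot (R := R) (R' := R') hb.le).join hb hx₁
      rwa [← S.hs.1 b hb x₁ hx₁, hp, bot_sup_eq] at h)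
    (fun b hb ht => by
      obtain ⟨x₁, hx₁, hp⟩ := ty_p ht S.hx
      have h := (RP.bot (R := R) (R' := R') (Nat.succ_le_of_lt hb)).join hb hx₁
      rwa [← S.hs.1 b hb x₁ hx₁, hp, bot_sup_eq] at h)
  have e1 : (span F {R.p x}).map (kap (R.p e) (R.ph g) b) =
      span F {R.p x - (b⁻¹ * R.ph g (R.p x)) • R.p e} := by
    rw [Submodule.map_span, Set.image_singleton, kap_apply, hge, add_zero]
  rw [e1] at hv
  rcases S.vis_pt hv with h4 | h4
  · exfalso
    rw [map_sub, map_smul, h3, smul_zero, sub_zero] at h4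
    exact hf h4
  · obtain ⟨t, ht⟩ := mem_span_singleton.1 h4
    have h5 := congrArg (R.ph y) ht
    rw [map_sub, map_smul, map_smul, h3, smul_zero, sub_zero, smul_eq_mul] at h5
    have h6 : t = 1 := mul_right_cancel₀ hf (h5.trans (one_mul _).symm)
    rw [h6, one_smul, eq_comm, sub_eq_self, smul_eq_zero] at ht
    rcases ht with h7 | h7
    · exact absurd h7 (mul_ne_zero (inv_ne_zero hb) hgx)
    · exact h7

/-- (M2) Otherwise: kill the copy of `y` from `⊤`, then swap the copies of `(e, g)`; in `R'`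
the left one is `ker (ph y + b • ph g)` with `b ≠ 0` (`map_ker_kap`), contradiction to
`Sit.vis_hyp`. -/
theorem Sit.M2 (S : Sit R R' L M i j x y x' y') (hf : R.ph y (R.p x) ≠ 0) {m : ℕ}
    (him : i ≤ m) (hmj : m ≤ j) {e g : E} (he : e ∈ c.X m) (hg : g ∈ c.Y m)
    (ha : R.a e g ≠ 0) (h1 : R.p e ∈ span F {R.p x}) (h2 : R.p e ≠ 0)
    (h3 : R.ph g (R.p x) = 0) : R.ph g = 0 := by
  obtain ⟨s, hs⟩ := mem_span_singleton.1 h1
  have hs0 : s ≠ 0 := by
    rintro rfl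
    exact h2 (by rw [← hs, zero_smul])
  have hge : R.ph g (R.p e) = 0 := by
    rw [← hs, map_smul, h3, smul_zero]
  have hye : R.ph y (R.p e) ≠ 0 := by
    rw [← hs, map_smul, smul_eq_mul]
    exact mul_ne_zero hs0 hf
  obtain ⟨b, hb, hv⟩ := chnL1_word S him hmj he hg ha hge (W := LinearMap.ker (R.ph y))
    (fun b hb ht => by
      obtain ⟨y₁, hy₁, hp⟩ := ty_ph ht S.hy
      have h := (LP.top (R := R) (R' := R') hb.le).kill hb hy₁
      rwa [← S.hs.2 b hb y₁ hy₁, hp, top_inf_eq] at h)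
    (fun b hb ht => by
      obtain ⟨y₁, hy₁, hp⟩ := ty_ph ht S.hy
      have h := (RP.top (R := R) (R' := R') (Nat.succ_le_of_lt hb)).kill hb hy₁
      rwa [← S.hs.2 b hb y₁ hy₁, hp, top_inf_eq] at h)
  rw [map_ker_kap hb (by rw [hge, add_zero]; exact hb)] at hv
  rcases S.vis_hyp hv with h4 | h4
  · exfalso
    rw [LinearMap.add_apply, LinearMap.smul_apply, h3, smul_zero, add_zero] at h4
    exact hf h4
  · obtain ⟨t, ht⟩ := mem_span_singleton.1 h4
    have h5 := LinearMap.congr_fun ht (R.p x)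
    rw [LinearMap.add_apply, LinearMap.smul_apply, LinearMap.smul_apply, h3, smul_zero,
      add_zero, smul_eq_mul] at h5
    have h6 : t = 1 := mul_right_cancel₀ hf (h5.trans (one_mul _).symm)
    rw [h6, one_smul, left_eq_add, smul_eq_zero] at ht
    rcases ht with h7 | h7
    · exact absurd h7 (mul_ne_zero (inv_ne_zero hb) hye)
    · exact h7

end Pool.MP_4929df_co.H92
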