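import Pool.Agent.W_4929df_h92.ChnK3

/-!
Homology: no active triples (M3), (M3') in the zone (proofs row 594, section 9).
-/

set_option autoImplicit false

namespace Pool.MP_4929df_co.H92

open Submodule

variable {F : Type} [Field F] {E : Type} [Fintype E] [DecidableEq E] {V V' : Type}
  [AddCommGroup V] [Module F V] [AddCommGroup V'] [Module F V'] {c : Chn E} {k : ℕ}
  {w : E → V} {w' : E → V'} {R : ChRep F c k w} {R' : ChRep F c k w'} {L M : ℕ → ℕ} {i j : ℕ}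
  {x y x' y' : E} {U U' : Submodule F (Fin k → F)}

private theorem ChnL2_kap {f : (Fin k → F) →ₗ[F] F} {a : F} :
    kap (0 : Fin k → F) f a = LinearMap.id := by
  unfold kap
  rw [LinearMap.smulRight_zero, smul_zero, sub_zero]

private theorem ChnL2_kapi {f : (Fin k → F) →ₗ[F] F} {a : F} :
    kapi (0 : Fin k → F) f a = LinearMap.id := by
  unfold kapi
  rw [LinearMap.smulRight_zero, smul_zero, add_zero]

/-- (M3) Otherwise: `LP.tri`, `RP.tri` from `⊥` at copies of `m` (`Ctx.wordL`, `Ctx.wordR`,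
`ty_tri`): `span {a₂ • p₁ - a₁ • p₂}`, contradiction to `Sit.vis_pt`. -/
theorem Sit.M3 (S : Sit R R' L M i j x y x' y') (hf : R.ph y (R.p x) ≠ 0) {m : ℕ}
    (him : i ≤ m) (hmj : m ≤ j) {e₁ e₂ g : E} (he₁ : e₁ ∈ c.X m) (he₂ : e₂ ∈ c.X m)
    (hg : g ∈ c.Y m) (hY : (c.Y m).card ≤ 1) (hg0 : R.ph g = 0) (ha₁ : R.a e₁ g ≠ 0)
    (ha₂ : R.a e₂ g ≠ 0) (h1 : R.p e₁ ∈ span F {R.p x}) (h2 : R.p e₁ ≠ 0)
    (h3 : R.ph y (R.p e₂) = 0) : R.p e₂ = 0 := by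
  have hfd := S.fd
  have hfd' := S.fd'
  have hn := S.ctx.hj
  have hij := S.ctx.hij
  have hL0 := S.ctx.L0
  have hL8 := S.ctx.lt_L (s := 0) (t := 8) (by norm_num) le_rfl
  -- `φ (p e₁) ≠ 0`
  obtain ⟨c₁, hc₁⟩ := mem_span_singleton.1 h1
  have hc₁0 : c₁ ≠ 0 := by
    rintro rfl
    rw [zero_smul] at hc₁
    exact h2 hc₁.symm
  have hφ1 : R.ph y (R.p e₁) ≠ 0 := by
    rw [← hc₁, map_smul, smul_eq_mul]
    exact mul_ne_zero hc₁0 hf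
  have hp12 : R.p e₁ ≠ R.p e₂ := by
    intro h
    rw [h] at hφ1
    exact hφ1 h3
  obtain ⟨b, l, hbl, hl, -, htl⟩ := S.ctx.wordL m him hmj
  obtain ⟨l', b', hl', hlb', hb', htl', -⟩ := S.ctx.wordR m him hmj
  have hln : l < c.n := by omega
  have hln' : l' < c.n := by omega
  obtain ⟨x₁, hx₁, x₂, hx₂, y₁, hy₁, q1, q2, q3, q4, q5⟩ := ty_tri htl hY he₁ he₂ hg
  obtain ⟨x₁', hx₁', x₂', hx₂', y₁', hy₁', r1, r2, r3, r4, r5⟩ := ty_tri htl' hY he₁ he₂ hg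
  have hy0 : R.ph y₁ = 0 := by rw [q3, hg0]
  have hy0' : R'.ph y₁ = 0 := by rw [← S.hs.2 l hln y₁ hy₁, hy0]
  have hz0 : R.ph y₁' = 0 := by rw [r3, hg0]
  have hz0' : R'.ph y₁' = 0 := by rw [← S.hs.2 l' hln' y₁' hy₁', hz0]
  have ha₁' : R'.a x₁ y₁ ≠ 0 := by
    rw [Ne, ← S.hw.a_iff R R' hln hx₁ hy₁, q4]
    exact ha₁
  have ha₂' : R'.a x₂ y₁ ≠ 0 := by
    rw [Ne, ← S.hw.a_iff R R' hln hx₂ hy₁, q5]
    exact ha₂
  have hb₁' : R'.a x₁' y₁' ≠ 0 := by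
    rw [Ne, ← S.hw.a_iff R R' hln' hx₁' hy₁', r4]
    exact ha₁
  have hlp := LP.tri (R := R) (R' := R') (LP.bot hln.le) hln hx₁ hx₂
    (by rintro rfl; exact hp12 (q1.symm.trans q2)) hy₁ (by rw [hy0]; rfl) (by rw [hy0]; rfl)
    (by rw [q4]; exact ha₁) (by rw [hy0']; rfl) (by rw [hy0']; rfl) ha₁'
  have hrp := RP.tri (R := R) (R' := R') (RP.bot (l := l' + 1) hln') hln' hx₁' hx₂'
    (by rintro rfl; exact hp12 (r1.symm.trans r2)) hy₁' (by rw [hz0]; rfl) (by rw [hz0]; rfl)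
    (by rw [r4]; exact ha₁) (by rw [hz0']; rfl) (by rw [hz0']; rfl) hb₁'
  rw [Submodule.map_bot, Submodule.map_bot, bot_sup_eq, bot_sup_eq, q1, q2, q4, q5] at hlp
  rw [Submodule.map_bot, Submodule.map_bot, bot_sup_eq, bot_sup_eq, r1, r2, r4, r5] at hrp
  have hv := S.vis_pt ⟨hlp.mono (m := L 8) (by omega) (by omega), _, hrp.mono (l := M 8 + 1) (by omega) hln'.le⟩
  have e1 : R'.p x₁ = R.p e₁ := by rw [← S.hs.1 l hln x₁ hx₁, q1]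
  have e2 : R'.p x₂ = R.p e₂ := by rw [← S.hs.1 l hln x₂ hx₂, q2]
  rw [e1, e2] at hv
  rcases hv with hv | hv
  · rw [map_sub, map_smul, map_smul, h3, smul_zero, sub_zero, smul_eq_mul] at hv
    exact absurd hv (mul_ne_zero ha₂' hφ1)
  · have h4 : R'.a x₁ y₁ • R.p e₂ ∈ span F {R.p x} := by
      have h5 : R'.a x₁ y₁ • R.p e₂ = R'.a x₂ y₁ • R.p e₁ -
          (R'.a x₂ y₁ • R.p e₁ - R'.a x₁ y₁ • R.p e₂) := by abel
      rw [h5]
      exact sub_mem (smul_mem _ _ h1) hv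
    have h6 : R.p e₂ ∈ span F {R.p x} := (smul_mem_iff _ ha₁').1 h4
    obtain ⟨c₂, hc₂⟩ := mem_span_singleton.1 h6
    rw [← hc₂, map_smul, smul_eq_mul, mul_eq_zero] at h3
    rcases h3 with h3 | h3
    · rw [← hc₂, h3, zero_smul]
    · exact absurd h3 hf

/-- (M3') Otherwise: `LP.cotri`, `RP.cotri` from `⊤` at copies of `m`:
`ker (a₂ • ph₁ - a₁ • ph₂)`, contradiction to `Sit.vis_hyp`. -/
theorem Sit.M3' (S : Sit R R' L M i j x y x' y') (hf : R.ph y (R.p x) ≠ 0) {m : ℕ}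
    (him : i ≤ m) (hmj : m ≤ j) {e g₁ g₂ : E} (he : e ∈ c.X m) (hg₁ : g₁ ∈ c.Y m)
    (hg₂ : g₂ ∈ c.Y m) (hX : (c.X m).card ≤ 1) (he0 : R.p e = 0) (ha₁ : R.a e g₁ ≠ 0)
    (ha₂ : R.a e g₂ ≠ 0) (h1 : R.ph g₁ ∈ span F {R.ph y}) (h2 : R.ph g₁ ≠ 0)
    (h3 : R.ph g₂ (R.p x) = 0) : R.ph g₂ = 0 := by
  have hfd := S.fd
  have hfd' := S.fd'
  have hn := S.ctx.hj
  have hij := S.ctx.hij
  have hL0 := S.ctx.L0
  have hL8 := S.ctx.lt_L (s := 0) (t := 8) (by norm_num) le_rfl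
  obtain ⟨c₁, hc₁⟩ := mem_span_singleton.1 h1
  have hc₁0 : c₁ ≠ 0 := by
    rintro rfl
    rw [zero_smul] at hc₁
    exact h2 hc₁.symm
  have hφ1 : R.ph g₁ (R.p x) ≠ 0 := by
    rw [← hc₁, LinearMap.smul_apply, smul_eq_mul]
    exact mul_ne_zero hc₁0 hf
  have hp12 : R.ph g₁ ≠ R.ph g₂ := by
    intro h
    rw [h] at hφ1
    exact hφ1 h3
  obtain ⟨b, l, hbl, hl, -, htl⟩ := S.ctx.wordL m him hmj
  obtain ⟨l', b', hl', hlb', hb', htl', -⟩ := S.ctx.wordR m him hmj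
  have hln : l < c.n := by omega
  have hln' : l' < c.n := by omega
  obtain ⟨x₁, hx₁, y₁, hy₁, y₂, hy₂, q1, q2, q3, q4, q5⟩ := ty_cotri htl hX he hg₁ hg₂
  obtain ⟨x₁', hx₁', y₁', hy₁', y₂', hy₂', r1, r2, r3, r4, r5⟩ := ty_cotri htl' hX he hg₁ hg₂
  have hy0 : R.p x₁ = 0 := by rw [q1, he0]
  have hy0' : R'.p x₁ = 0 := by rw [← S.hs.1 l hln x₁ hx₁, hy0]
  have hz0 : R.p x₁' = 0 := by rw [r1, he0]
  have hz0' : R'.p x₁' = 0 := by rw [← S.hs.1 l' hln' x₁' hx₁', hz0]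
  have ha₁' : R'.a x₁ y₁ ≠ 0 := by
    rw [Ne, ← S.hw.a_iff R R' hln hx₁ hy₁, q4]
    exact ha₁
  have ha₂' : R'.a x₁ y₂ ≠ 0 := by
    rw [Ne, ← S.hw.a_iff R R' hln hx₁ hy₂, q5]
    exact ha₂
  have hb₁' : R'.a x₁' y₁' ≠ 0 := by
    rw [Ne, ← S.hw.a_iff R R' hln' hx₁' hy₁', r4]
    exact ha₁
  have hlp := LP.cotri (R := R) (R' := R') (LP.top hln.le) hln hx₁ hy₁ hy₂
    (by rintro rfl; exact hp12 (q2.symm.trans q3)) (by rw [hy0, map_zero]) (by rw [hy0, map_zero])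
    (by rw [q4]; exact ha₁) (by rw [hy0', map_zero]) (by rw [hy0', map_zero]) ha₁'
  have hrp := RP.cotri (R := R) (R' := R') (RP.top (l := l' + 1) hln') hln' hx₁' hy₁' hy₂'
    (by rintro rfl; exact hp12 (r2.symm.trans r3)) (by rw [hz0, map_zero]) (by rw [hz0, map_zero])
    (by rw [r4]; exact ha₁) (by rw [hz0', map_zero]) (by rw [hz0', map_zero]) hb₁'
  rw [hy0, hy0', ChnL2_kap, ChnL2_kap, Submodule.map_id, top_inf_eq, top_inf_eq, q2, q3, q4, q5] at hlp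
  rw [hz0, hz0', ChnL2_kapi, ChnL2_kapi, Submodule.map_id, top_inf_eq, top_inf_eq, r2, r3, r4, r5] at hrp
  have hv := S.vis_hyp ⟨hlp.mono (m := L 8) (by omega) (by omega), _, hrp.mono (l := M 8 + 1) (by omega) hln'.le⟩
  have e1 : R'.ph y₁ = R.ph g₁ := by rw [← S.hs.2 l hln y₁ hy₁, q2]
  have e2 : R'.ph y₂ = R.ph g₂ := by rw [← S.hs.2 l hln y₂ hy₂, q3]
  rw [e1, e2] at hv
  rcases hv with hv | hv
  · rw [LinearMap.sub_apply, LinearMap.smul_apply, LinearMap.smul_apply, h3, smul_zero, sub_zero,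
      smul_eq_mul] at hv
    exact absurd hv (mul_ne_zero ha₂' hφ1)
  · have h4 : R'.a x₁ y₁ • R.ph g₂ ∈ span F {R.ph y} := by
      have h5 : R'.a x₁ y₁ • R.ph g₂ = R'.a x₁ y₂ • R.ph g₁ -
          (R'.a x₁ y₂ • R.ph g₁ - R'.a x₁ y₁ • R.ph g₂) := by abel
      rw [h5]
      exact sub_mem (smul_mem _ _ h1) hv
    have h6 : R.ph g₂ ∈ span F {R.ph y} := (smul_mem_iff _ ha₁').1 h4
    obtain ⟨c₂, hc₂⟩ := mem_span_singleton.1 h6
    rw [← hc₂, LinearMap.smul_apply, smul_eq_mul, mul_eq_zero] at h3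
    rcases h3 with h3 | h3
    · rw [← hc₂, h3, zero_smul]
    · exact absurd h3 hf

end Pool.MP_4929df_co.H92
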