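import Pool.Agent.W_4929df_h92.ChnL1
import Pool.Agent.W_4929df_h92.ChnL2
import Pool.Agent.W_4929df_h92.ChnH2

/-!
Homology: the contradiction (proofs row 594, section 9).
-/

set_option autoImplicit false

namespace Pool.MP_4929df_co.H92

open Submodule

variable {F : Type} [Field F] {E : Type} [Fintype E] [DecidableEq E] {V V' : Type}
  [AddCommGroup V] [Module F V] [AddCommGroup V'] [Module F V'] {c : Chn E} {k : ℕ}
  {w : E → V} {w' : E → V'} {R : ChRep F c k w} {R' : ChRep F c k w'} {L M : ℕ → ℕ} {i j : ℕ}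
  {x y x' y' : E} {U U' : Submodule F (Fin k → F)}

/-- Let `P` be the set of `e ∈ X l` with `0 ≠ p e ∈ span {p x}` and of `g ∈ Y l` with
`0 ≠ ph g ∈ span {ph y}`, `i ≤ l ≤ j`. Apply `Four.no_sep` with `L = span {p x}`,
`U = ker (ph y)`, `s = 3` (`x, y, x', y' ∈ P`). Same block: `Sit.M1`, `Sit.M2` with
`Sit.zone_p`, `Sit.zone_ph`; if `ph g = 0`, then `(X l).card > 1` (`N1'`), so
`(Y l).card ≤ 1`, by `N2` there is an active `e₂` with `p e₂ ∉ span {p x}`, so
`ph y (p e₂) = 0`, and no active `e` has `p e ∈ span {p x}` (`Sit.M3`, `N1`); dually if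
`p e = 0`. Different blocks: `Sit.zone_p`, `Sit.zone_ph`. -/
theorem Sit.hom_false (S : Sit R R' L M i j x y x' y') (hk : 3 ≤ k) (h4 : Four F w)
    (hsm : c.Small) (hf : R.ph y (R.p x) ≠ 0) : False := by
  classical
  have hfd := S.fd
  have hjn : j < c.n := S.ctx.hj
  have hij : i < j := S.ctx.hij
  have hXY : ∀ l, ∀ e ∈ c.X l, e ∉ c.Y l := fun l e he => (Finset.mem_sdiff.1 he).2
  obtain ⟨P, hPdef⟩ : ∃ P : Finset E, ∀ e, e ∈ P ↔ ∃ l, i ≤ l ∧ l ≤ j ∧
      ((e ∈ c.X l ∧ R.p e ≠ 0 ∧ R.p e ∈ span F {R.p x}) ∨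
        (e ∈ c.Y l ∧ R.ph e ≠ 0 ∧ R.ph e ∈ span F {R.ph y})) :=
    ⟨Finset.univ.filter fun e => ∃ l, i ≤ l ∧ l ≤ j ∧
      ((e ∈ c.X l ∧ R.p e ≠ 0 ∧ R.p e ∈ span F {R.p x}) ∨
        (e ∈ c.Y l ∧ R.ph e ≠ 0 ∧ R.ph e ∈ span F {R.ph y})),
      fun e => by rw [Finset.mem_filter]; exact and_iff_right (Finset.mem_univ e)⟩
  have hPX : ∀ l, i ≤ l → l ≤ j → ∀ e ∈ c.X l,
      (e ∈ P ↔ R.p e ≠ 0 ∧ R.p e ∈ span F {R.p x}) := by
    intro l hil hlj e he
    rw [hPdef]
    constructor
    · rintro ⟨l', h1, h2, h3 | h3⟩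
      · exact h3.2
      · have h4 : l = l' := c.block_unique (by omega) (by omega) (c.X_sub he)
          (c.sub l' (by omega) h3.1)
        subst h4
        exact (hXY l e he h3.1).elim
    · exact fun h => ⟨l, hil, hlj, Or.inl ⟨he, h⟩⟩
  have hPY : ∀ l, i ≤ l → l ≤ j → ∀ e ∈ c.Y l,
      (e ∈ P ↔ R.ph e ≠ 0 ∧ R.ph e ∈ span F {R.ph y}) := by
    intro l hil hlj e he
    rw [hPdef]
    constructor
    · rintro ⟨l', h1, h2, h3 | h3⟩
      · have h4 : l = l' := c.block_unique (by omega) (by omega) (c.sub l (by omega) he)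
          (c.X_sub h3.1)
        subst h4
        exact (hXY l e h3.1 he).elim
      · exact h3.2
    · exact fun h => ⟨l, hil, hlj, Or.inr ⟨he, h⟩⟩
  have hPsub : P ⊆ c.A (j + 1) \ c.A i := by
    intro e he
    obtain ⟨l, h1, h2, h3⟩ := (hPdef e).1 he
    have h4 : e ∈ c.A (l + 1) \ c.A l := by
      rcases h3 with h3 | h3
      · exact c.X_sub h3.1
      · exact c.sub l (by omega) h3.1
    rw [Finset.mem_sdiff] at h4 ⊢
    exact ⟨c.A_mono (by omega) (by omega) h4.1, fun h5 => h4.2 (c.A_mono h1 (by omega) h5)⟩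
  have hxP : x ∈ P := (hPX i le_rfl hij.le x S.hx).2 ⟨S.hp0, mem_span_singleton_self _⟩
  have hyP : y ∈ P := (hPY i le_rfl hij.le y S.hy).2 ⟨S.hph0, mem_span_singleton_self _⟩
  have hxP' : x' ∈ P := (hPX j hij.le le_rfl x' S.hx').2
    ⟨by rw [S.hp]; exact S.hp0, by rw [S.hp]; exact mem_span_singleton_self _⟩
  have hne1 : x ≠ y := fun h => hXY i x S.hx (by rw [h]; exact S.hy)
  have hne2 : x ≠ x' := fun h => hij.ne (c.block_unique (by omega) hjn (c.X_sub S.hx)
    (by rw [h]; exact c.X_sub S.hx'))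
  have hne3 : y ≠ x' := fun h => hij.ne (c.block_unique (by omega) hjn (c.sub i (by omega) S.hy)
    (by rw [h]; exact c.X_sub S.hx'))
  have hcard : 3 ≤ P.card := by
    have h1 : ({x, y, x'} : Finset E) ⊆ P := by
      intro e he
      simp only [Finset.mem_insert, Finset.mem_singleton] at he
      rcases he with rfl | rfl | rfl
      · exact hxP
      · exact hyP
      · exact hxP'
    have h2 : ({x, y, x'} : Finset E).card = 3 := Finset.card_eq_three.2
      ⟨x, y, x', hne1, hne2, hne3, rfl⟩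
    exact h2 ▸ Finset.card_le_card h1
  -- letters outside `P`
  have hpz : ∀ l, i ≤ l → l ≤ j → ∀ e ∈ c.X l, e ∉ P → R.p e ≠ 0 →
      R.ph y (R.p e) = 0 := by
    intro l hil hlj e he heP h0
    rcases S.zone_p hil hlj he with h | h
    · exact h
    · exact (heP ((hPX l hil hlj e he).2 ⟨h0, h⟩)).elim
  have hphz : ∀ l, i ≤ l → l ≤ j → ∀ g ∈ c.Y l, g ∉ P → R.ph g ≠ 0 →
      R.ph g (R.p x) = 0 := by
    intro l hil hlj g hg hgP h0
    rcases S.zone_ph hil hlj hg with h | h
    · exact h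
    · exact (hgP ((hPY l hil hlj g hg).2 ⟨h0, h⟩)).elim
  have ha : ∀ l, i ≤ l → l < j + 1 → ∀ e ∈ c.X l, ∀ g ∈ c.Y l, ¬ (e ∈ P ↔ g ∈ P) →
      R.a e g = 0 := by
    intro l hil hlj e he g hg hn
    by_contra hne
    have hlj' : l ≤ j := by omega
    have hln : l < c.n := by omega
    by_cases heP : e ∈ P
    · have hgP : g ∉ P := fun h => hn ⟨fun _ => h, fun _ => heP⟩
      have he1 := (hPX l hil hlj' e he).1 heP
      by_cases hg0 : R.ph g = 0
      · have hY : (c.Y l).card ≤ 1 := by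
          rcases hsm l hln with h | h
          · exact h
          · exact (N1' hfd hk R h4 hln h hg hg0).elim
        obtain ⟨e₂, he₂, ha₂, hsp⟩ := N2 hfd hk R h4 hln hY hg hg0 (R.p x)
        have h5 : R.ph y (R.p e₂) = 0 := by
          rcases S.zone_p hil hlj' he₂ with h | h
          · exact h
          · exact (hsp h).elim
        have h6 := S.M3 hf hil hlj' he he₂ hg hY hg0 hne ha₂ he1.2 he1.1 h5
        exact hsp (by rw [h6]; exact Submodule.zero_mem _)
      · exact hg0 (S.M2 hf hil hlj' he hg hne he1.2 he1.1 (hphz l hil hlj' g hg hgP hg0))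
    · have hgP : g ∈ P := by
        by_contra h
        exact hn ⟨fun h' => (heP h').elim, fun h' => (h h').elim⟩
      have hg1 := (hPY l hil hlj' g hg).1 hgP
      by_cases he0 : R.p e = 0
      · have hX : (c.X l).card ≤ 1 := by
          rcases hsm l hln with h | h
          · exact (N1 hfd hk R h4 hln h he he0).elim
          · exact h
        obtain ⟨g₂, hg₂, ha₂, hsp⟩ := N2' hfd hk R h4 hln hX he he0 (R.ph y)
        have h5 : R.ph g₂ (R.p x) = 0 := by
          rcases S.zone_ph hil hlj' hg₂ with h | h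
          · exact h
          · exact (hsp h).elim
        have h6 := S.M3' hf hil hlj' he hg hg₂ hX he0 hne ha₂ hg1.2 hg1.1 h5
        exact hsp (by rw [h6]; exact Submodule.zero_mem _)
      · exact he0 (S.M1 hf hil hlj' he hg hne hg1.2 hg1.1 (hpz l hil hlj' e he heP he0))
  have hph : ∀ l m, i ≤ l → l < m → m < j + 1 → ∀ g ∈ c.Y l, ∀ e ∈ c.X m,
      ¬ (e ∈ P ↔ g ∈ P) → R.ph g (R.p e) = 0 := by
    intro l m hil hlm hmj g hg e he hn
    by_cases heP : e ∈ P
    · have hgP : g ∉ P := fun h => hn ⟨fun _ => h, fun _ => heP⟩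
      obtain ⟨t, ht⟩ := mem_span_singleton.1 ((hPX m (by omega) (by omega) e he).1 heP).2
      by_cases hg0 : R.ph g = 0
      · rw [hg0, LinearMap.zero_apply]
      · rw [← ht, map_smul, hphz l hil (by omega) g hg hgP hg0, smul_zero]
    · have hgP : g ∈ P := by
        by_contra h
        exact hn ⟨fun h' => (heP h').elim, fun h' => (h h').elim⟩
      obtain ⟨t, ht⟩ := mem_span_singleton.1 ((hPY l hil (by omega) g hg).1 hgP).2
      by_cases he0 : R.p e = 0
      · rw [he0, map_zero]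
      · rw [← ht, LinearMap.smul_apply, hpz m (by omega) (by omega) e he heP he0, smul_zero]
  have hmain := h4.no_sep hfd hk R (i := i) (j := j + 1) (by omega) (by omega) hPsub
    (L := span F {R.p x}) (U := LinearMap.ker (R.ph y))
    (fun l hil hlj e he heP => ((hPX l hil (by omega) e he).1 heP).2)
    (fun l hil hlj g hg hgP v hv => by
      obtain ⟨t, ht⟩ := mem_span_singleton.1 ((hPY l hil (by omega) g hg).1 hgP).2
      rw [← ht, LinearMap.smul_apply, LinearMap.mem_ker.1 hv, smul_zero]) ha hph (le_refl 3) hcard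
  have h5 := Module.Dual.finrank_ker_add_one_of_ne_zero (f := R.ph y) S.hph0
  rw [Module.finrank_fin_fun] at h5
  have h6 : Module.finrank F (span F {R.p x}) = 1 := finrank_span_singleton S.hp0
  omega

end Pool.MP_4929df_co.H92
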