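import Pool.Agent.W_4929df_h92.ChnK3
import Pool.Agent.W_4929df_h92.ChnH0

/-!
Elation: the contradiction if there is no independent active letter (proofs row 594,
section 10).
-/

set_option autoImplicit false

namespace Pool.MP_4929df_co.H92

open Submodule

variable {F : Type} [Field F] {E : Type} [Fintype E] [DecidableEq E] {V V' : Type}
  [AddCommGroup V] [Module F V] [AddCommGroup V'] [Module F V'] {c : Chn E} {k : ℕ}
  {w : E → V} {w' : E → V'} {R : ChRep F c k w} {R' : ChRep F c k w'} {L M : ℕ → ℕ} {i j : ℕ}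
  {x y x' y' : E} {U U' : Submodule F (Fin k → F)}

private theorem ChnM2_Xb (c : Chn E) {l : ℕ} {e : E} (he : e ∈ c.X l) :
    e ∈ c.A (l + 1) \ c.A l := Chn.X_sub c he

private theorem ChnM2_XY (c : Chn E) {l m : ℕ} (hl : l < c.n) (hm : m < c.n) {e : E}
    (he : e ∈ c.X l) (he' : e ∈ c.Y m) : False := by
  have h1 := c.block_unique hl hm (ChnM2_Xb c he) (c.sub m hm he')
  subst h1
  unfold Chn.X at he
  exact (Finset.mem_sdiff.1 he).2 he'

private theorem ChnM2_out (c : Chn E) {i j l : ℕ} (hj : j < c.n) (hil : i ≤ l) (hlj : l ≤ j)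
    {e : E} (he : e ∈ c.A (l + 1) \ c.A l) : e ∈ c.A (j + 1) \ c.A i := by
  rw [Finset.mem_sdiff] at he ⊢
  exact ⟨c.A_mono (by omega) (by omega) he.1,
    fun h => he.2 (c.A_mono (by omega) (by omega) h)⟩

/-- the separation `P` with `dim L = 1`, `dim Λ = 1` -/
private theorem ChnM2_core (S : Sit R R' L M i j x y x' y') (hk : 3 ≤ k) (h4 : Four F w)
    (hf : R.ph y (R.p x) = 0) {P : Finset E} (hP : P ⊆ c.A (j + 1) \ c.A i)
    (hL : ∀ l, i ≤ l → l ≤ j → ∀ e ∈ c.X l, e ∈ P → R.p e ∈ span F {R.p x})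
    (hU : ∀ l, i ≤ l → l ≤ j → ∀ e ∈ c.Y l, e ∈ P → R.ph e ∈ span F {R.ph y})
    (ha : ∀ l, i ≤ l → l ≤ j → ∀ e ∈ c.X l, ∀ g ∈ c.Y l, ¬ (e ∈ P ↔ g ∈ P) → R.a e g = 0)
    (hxP : x ∈ P) (hyP : y ∈ P) (hxP' : x' ∈ P) : False := by
  have hfd := S.fd
  have hj := S.ctx.hj
  have hij := S.ctx.hij
  have hi : i < c.n := hij.trans hj
  have hcard : 3 ≤ P.card := by
    have h1 : x ≠ y := fun h => ChnM2_XY c hi hi S.hx (h ▸ S.hy)
    have h2 : x ≠ x' := fun h => by
      have h3 := c.block_unique hi hj (ChnM2_Xb c S.hx) (h ▸ ChnM2_Xb c S.hx')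
      omega
    have h3 : y ≠ x' := fun h => ChnM2_XY c hj hi S.hx' (h ▸ S.hy)
    have h4 : ({x, y, x'} : Finset E) ⊆ P := by
      intro e he
      rw [Finset.mem_insert, Finset.mem_insert, Finset.mem_singleton] at he
      rcases he with rfl | rfl | rfl
      · exact hxP
      · exact hyP
      · exact hxP'
    have h5 := Finset.card_le_card h4
    rwa [Finset.card_eq_three.2 ⟨x, y, x', h1, h2, h3, rfl⟩] at h5
  have key := Four.no_sep hfd hk R h4 (i := i) (j := j + 1) (by omega) (by omega) hP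
    (L := span F {R.p x}) (U := LinearMap.ker (R.ph y))
    (fun l h1 h2 e he heP => hL l h1 (by omega) e he heP)
    (fun l h1 h2 e he heP g hg => by
      obtain ⟨b, hb⟩ := mem_span_singleton.1 (hU l h1 (by omega) e he heP)
      rw [← hb, LinearMap.smul_apply, LinearMap.mem_ker.1 hg, smul_zero])
    (fun l h1 h2 e he g hg h => ha l h1 (by omega) e he g hg h)
    (fun l m h1 h2 h3 g hg e he h => by
      by_cases heP : e ∈ P
      · obtain ⟨b, hb⟩ := mem_span_singleton.1 (hL m (by omega) (by omega) e he heP)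
        rw [← hb, map_smul]
        rcases S.zone_ph h1 (by omega) hg with h5 | h5
        · rw [h5, smul_zero]
        · obtain ⟨b', hb'⟩ := mem_span_singleton.1 h5
          rw [← hb', LinearMap.smul_apply, hf, smul_zero, smul_zero]
      · by_cases hgP : g ∈ P
        · obtain ⟨b, hb⟩ := mem_span_singleton.1 (hU l h1 (by omega) g hg hgP)
          rw [← hb, LinearMap.smul_apply]
          rcases S.zone_p (m := m) (by omega) (by omega) he with h5 | h5
          · rw [h5, smul_zero]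
          · obtain ⟨b', hb'⟩ := mem_span_singleton.1 h5
            rw [← hb', map_smul, hf, smul_zero, smul_zero]
        · exact (h (iff_of_false heP hgP)).elim)
    (s := 3) le_rfl hcard
  have h5 : Module.finrank F (span F {R.p x}) = 1 := finrank_span_singleton S.hp0
  have h6 : Module.finrank F (LinearMap.ker (R.ph y)) + 1 = k := by
    have h7 := LinearMap.finrank_range_add_finrank_ker (R.ph y)
    have h8 : LinearMap.range (R.ph y) = ⊤ := LinearMap.range_eq_top.2
      (LinearMap.surjective S.hph0)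
    rw [h8, finrank_top, Module.finrank_self, Module.finrank_fin_fun] at h7
    omega
  omega

/-- `P` consists of `y`, the active elements of `X i` (`a e y ≠ 0`), `y'` and the active elements
of `X j` (`a e y' ≠ 0`); `Four.no_sep` with `L = span {p x}`, `U = ker (ph y)`, `s = 3`. By
`Sit.zone_p`, `Sit.zone_ph` and `hf` all `p e` are in `ker (ph y)`, all `ph g` vanish at
`p x`. Block `j` has the type of `i`. -/
theorem Sit.ela_false (S : Sit R R' L M i j x y x' y') (hk : 3 ≤ k) (h4 : Four F w)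
    (hf : R.ph y (R.p x) = 0) (hY : (c.Y i).card ≤ 1)
    (hall : ∀ e ∈ c.X i, R.a e y ≠ 0 → R.p e ∈ span F {R.p x}) : False := by
  classical
  have hj := S.ctx.hj
  have hij := S.ctx.hij
  have hi : i < c.n := hij.trans hj
  have hYj : (c.Y j).card ≤ 1 := (ty_Y S.ctx.ht).1 hY
  have hYi : ∀ g ∈ c.Y i, g = y := fun g hg => Finset.card_le_one.1 hY g hg y S.hy
  have hYj' : ∀ g ∈ c.Y j, g = y' := fun g hg => Finset.card_le_one.1 hYj g hg y' S.hy'
  set P : Finset E := (insert y ((c.X i).filter fun e => R.a e y ≠ 0)) ∪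
    insert y' ((c.X j).filter fun e => R.a e y' ≠ 0) with hPdef
  have hmem : ∀ e, e ∈ P ↔ (e = y ∨ (e ∈ c.X i ∧ R.a e y ≠ 0)) ∨
      (e = y' ∨ (e ∈ c.X j ∧ R.a e y' ≠ 0)) := by
    intro e
    rw [hPdef, Finset.mem_union, Finset.mem_insert, Finset.mem_insert, Finset.mem_filter,
      Finset.mem_filter]
  have hax' : R.a x' y' ≠ 0 := by rw [S.ha]; exact S.ha0
  refine ChnM2_core S hk h4 hf (P := P) ?_ ?_ ?_ ?_ ((hmem x).2 (Or.inl (Or.inr ⟨S.hx, S.ha0⟩)))
    ((hmem y).2 (Or.inl (Or.inl rfl))) ((hmem x').2 (Or.inr (Or.inr ⟨S.hx', hax'⟩)))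
  · intro e he
    rcases (hmem e).1 he with (rfl | ⟨h1, _⟩) | (rfl | ⟨h1, _⟩)
    · exact ChnM2_out c hj le_rfl hij.le (c.sub i hi S.hy)
    · exact ChnM2_out c hj le_rfl hij.le (ChnM2_Xb c h1)
    · exact ChnM2_out c hj hij.le le_rfl (c.sub j hj S.hy')
    · exact ChnM2_out c hj hij.le le_rfl (ChnM2_Xb c h1)
  · intro l h1 h2 e he heP
    rcases (hmem e).1 heP with (rfl | ⟨h3, h5⟩) | (rfl | ⟨h3, h5⟩)
    · exact (ChnM2_XY c (by omega) hi he S.hy).elim
    · exact hall e h3 h5
    · exact (ChnM2_XY c (by omega) hj he S.hy').elim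
    · obtain ⟨u, hu, v, hv, g1, g2, g3⟩ := ty_pair S.ctx.ht h3 S.hy'
      have hvy := hYi v hv
      rw [hvy] at g3
      have h6 := hall u hu (by rw [g3]; exact h5)
      rwa [g1] at h6
  · intro l h1 h2 e he heP
    rcases (hmem e).1 heP with (rfl | ⟨h3, h5⟩) | (rfl | ⟨h3, h5⟩)
    · exact mem_span_singleton_self _
    · exact (ChnM2_XY c hi (by omega) h3 he).elim
    · rw [S.hph]
      exact mem_span_singleton_self _
    · exact (ChnM2_XY c hj (by omega) h3 he).elim
  · intro l h1 h2 e he g hg h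
    by_contra h0
    by_cases hl : l = i
    · subst hl
      have hgy := hYi g hg
      subst hgy
      exact h (iff_of_true ((hmem e).2 (Or.inl (Or.inr ⟨he, h0⟩))) ((hmem g).2 (Or.inl (Or.inl rfl))))
    · by_cases hl' : l = j
      · subst hl'
        have hgy := hYj' g hg
        subst hgy
        exact h (iff_of_true ((hmem e).2 (Or.inr (Or.inr ⟨he, h0⟩)))
          ((hmem g).2 (Or.inr (Or.inl rfl))))
      · refine h (iff_of_false (fun heP => ?_) (fun hgP => ?_))
        · rcases (hmem e).1 heP with (rfl | ⟨h3, _⟩) | (rfl | ⟨h3, _⟩)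
          · exact ChnM2_XY c (by omega) hi he S.hy
          · exact hl (c.block_unique (by omega) hi (ChnM2_Xb c he) (ChnM2_Xb c h3))
          · exact ChnM2_XY c (by omega) hj he S.hy'
          · exact hl' (c.block_unique (by omega) hj (ChnM2_Xb c he) (ChnM2_Xb c h3))
        · rcases (hmem g).1 hgP with (rfl | ⟨h3, _⟩) | (rfl | ⟨h3, _⟩)
          · exact hl (c.block_unique (by omega) hi (c.sub l (by omega) hg) (c.sub i hi S.hy))
          · exact ChnM2_XY c hi (by omega) h3 hg
          · exact hl' (c.block_unique (by omega) hj (c.sub l (by omega) hg) (c.sub j hj S.hy'))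
          · exact ChnM2_XY c hj (by omega) h3 hg

/-- `P` consists of `x`, the active elements of `Y i` (`a x g ≠ 0`), `x'` and the active elements
of `Y j` (`a x' g ≠ 0`). -/
theorem Sit.ela_false' (S : Sit R R' L M i j x y x' y') (hk : 3 ≤ k) (h4 : Four F w)
    (hf : R.ph y (R.p x) = 0) (hX : (c.X i).card ≤ 1)
    (hall : ∀ g ∈ c.Y i, R.a x g ≠ 0 → R.ph g ∈ span F {R.ph y}) : False := by
  classical
  have hj := S.ctx.hj
  have hij := S.ctx.hij
  have hi : i < c.n := hij.trans hj
  have hXj : (c.X j).card ≤ 1 := (ty_X S.ctx.ht).1 hX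
  have hXi : ∀ g ∈ c.X i, g = x := fun g hg => Finset.card_le_one.1 hX g hg x S.hx
  have hXj' : ∀ g ∈ c.X j, g = x' := fun g hg => Finset.card_le_one.1 hXj g hg x' S.hx'
  set P : Finset E := (insert x ((c.Y i).filter fun g => R.a x g ≠ 0)) ∪
    insert x' ((c.Y j).filter fun g => R.a x' g ≠ 0) with hPdef
  have hmem : ∀ e, e ∈ P ↔ (e = x ∨ (e ∈ c.Y i ∧ R.a x e ≠ 0)) ∨
      (e = x' ∨ (e ∈ c.Y j ∧ R.a x' e ≠ 0)) := by
    intro e
    rw [hPdef, Finset.mem_union, Finset.mem_insert, Finset.mem_insert, Finset.mem_filter,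
      Finset.mem_filter]
  refine ChnM2_core S hk h4 hf (P := P) ?_ ?_ ?_ ?_ ((hmem x).2 (Or.inl (Or.inl rfl)))
    ((hmem y).2 (Or.inl (Or.inr ⟨S.hy, S.ha0⟩))) ((hmem x').2 (Or.inr (Or.inl rfl)))
  · intro e he
    rcases (hmem e).1 he with (rfl | ⟨h1, _⟩) | (rfl | ⟨h1, _⟩)
    · exact ChnM2_out c hj le_rfl hij.le (ChnM2_Xb c S.hx)
    · exact ChnM2_out c hj le_rfl hij.le (c.sub i hi h1)
    · exact ChnM2_out c hj hij.le le_rfl (ChnM2_Xb c S.hx')
    · exact ChnM2_out c hj hij.le le_rfl (c.sub j hj h1)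
  · intro l h1 h2 e he heP
    rcases (hmem e).1 heP with (rfl | ⟨h3, h5⟩) | (rfl | ⟨h3, h5⟩)
    · exact mem_span_singleton_self _
    · exact (ChnM2_XY c (by omega) hi he h3).elim
    · rw [S.hp]
      exact mem_span_singleton_self _
    · exact (ChnM2_XY c (by omega) hj he h3).elim
  · intro l h1 h2 e he heP
    rcases (hmem e).1 heP with (rfl | ⟨h3, h5⟩) | (rfl | ⟨h3, h5⟩)
    · exact (ChnM2_XY c hi (by omega) S.hx he).elim
    · exact hall e h3 h5
    · exact (ChnM2_XY c hj (by omega) S.hx' he).elim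
    · obtain ⟨u, hu, v, hv, g1, g2, g3⟩ := ty_pair S.ctx.ht S.hx' h3
      have hux := hXi u hu
      rw [hux] at g3
      have h6 := hall v hv (by rw [g3]; exact h5)
      rwa [g2] at h6
  · intro l h1 h2 e he g hg h
    by_contra h0
    by_cases hl : l = i
    · subst hl
      have hex := hXi e he
      subst hex
      exact h (iff_of_true ((hmem e).2 (Or.inl (Or.inl rfl))) ((hmem g).2 (Or.inl (Or.inr ⟨hg, h0⟩))))
    · by_cases hl' : l = j
      · subst hl'
        have hex := hXj' e he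
        subst hex
        exact h (iff_of_true ((hmem e).2 (Or.inr (Or.inl rfl)))
          ((hmem g).2 (Or.inr (Or.inr ⟨hg, h0⟩))))
      · refine h (iff_of_false (fun heP => ?_) (fun hgP => ?_))
        · rcases (hmem e).1 heP with (rfl | ⟨h3, _⟩) | (rfl | ⟨h3, _⟩)
          · exact hl (c.block_unique (by omega) hi (ChnM2_Xb c he) (ChnM2_Xb c S.hx))
          · exact ChnM2_XY c (by omega) hi he h3
          · exact hl' (c.block_unique (by omega) hj (ChnM2_Xb c he) (ChnM2_Xb c S.hx'))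
          · exact ChnM2_XY c (by omega) hj he h3
        · rcases (hmem g).1 hgP with (rfl | ⟨h3, _⟩) | (rfl | ⟨h3, _⟩)
          · exact ChnM2_XY c hi (by omega) S.hx hg
          · exact hl (c.block_unique (by omega) hi (c.sub l (by omega) hg) (c.sub i hi h3))
          · exact ChnM2_XY c hj (by omega) S.hx' hg
          · exact hl' (c.block_unique (by omega) hj (c.sub l (by omega) hg) (c.sub j hj h3))

end Pool.MP_4929df_co.H92
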