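import Pool.Agent.W_4929df_h92.ChnJ0

/-!
Linear algebra for the parity argument (proofs row 594, sections 11, 12).
-/

set_option autoImplicit false

namespace Pool.MP_4929df_co.H92

open Submodule

variable {F : Type} [Field F] {k : ℕ} {W : Submodule F (Fin k → F)}

private theorem ChnN0_sep {U : Submodule F (Fin k → F)} {p : Fin k → F} (hp : p ∉ U) :
    ∃ η : (Fin k → F) →ₗ[F] F, η p = 1 ∧ ∀ w ∈ U, η w = 0 := by
  obtain ⟨f, hf, hf'⟩ := Submodule.exists_dual_map_eq_bot_of_notMem hp inferInstance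
  refine ⟨(f p)⁻¹ • f, ?_, fun w hw => ?_⟩
  · rw [LinearMap.smul_apply, smul_eq_mul, inv_mul_cancel₀ hf]
  · have h1 : f w ∈ U.map f := mem_map_of_mem hw
    rw [hf', mem_bot] at h1
    rw [LinearMap.smul_apply, h1, smul_zero]

private theorem ChnN0_span {f g : (Fin k → F) →ₗ[F] F} (hf : f ≠ 0)
    (h : ∀ v, f v = 0 → g v = 0) : g ∈ span F {f} := by
  obtain ⟨v, hv⟩ : ∃ v, f v ≠ 0 := by
    by_contra hcon
    push Not at hcon
    exact hf (LinearMap.ext hcon)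
  refine mem_span_singleton.2 ⟨g v * (f v)⁻¹, LinearMap.ext fun x => ?_⟩
  have h1 := h (x - (f x * (f v)⁻¹) • v) (by
    rw [map_sub, map_smul, smul_eq_mul, mul_assoc, inv_mul_cancel₀ hv, mul_one, sub_self])
  rw [map_sub, map_smul, smul_eq_mul, sub_eq_zero] at h1
  rw [LinearMap.smul_apply, smul_eq_mul, h1]
  ring

/-- coordinates with respect to `W ⊕ span {p₁} ⊕ span {p₂}` -/
theorem three_fun {p₁ p₂ : Fin k → F} (h : IsCompl W (span F {p₁} ⊔ span F {p₂}))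
    (hp₁ : p₁ ≠ 0) (hp₂ : p₂ ∉ span F {p₁}) :
    ∃ η₁ η₂ : (Fin k → F) →ₗ[F] F, η₁ p₁ = 1 ∧ η₁ p₂ = 0 ∧ η₂ p₁ = 0 ∧ η₂ p₂ = 1 ∧
      ∀ s t : F, (s ≠ 0 ∨ t ≠ 0) →
        LinearMap.ker (s • η₁ + t • η₂) = W ⊔ span F {t • p₁ - s • p₂} := by
  have hdis : ∀ w ∈ W, ∀ a b : F, w = a • p₁ + b • p₂ → w = 0 := by
    intro w hw a b hab
    have h1 : w ∈ (W ⊓ (span F {p₁} ⊔ span F {p₂}) : Submodule F (Fin k → F)) := by
      refine ⟨hw, ?_⟩
      rw [hab]
      exact add_mem (mem_sup_left (smul_mem _ _ (mem_span_singleton_self p₁)))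
        (mem_sup_right (smul_mem _ _ (mem_span_singleton_self p₂)))
    rw [h.inf_eq_bot] at h1
    exact (mem_bot F).1 h1
  have hn1 : p₁ ∉ W ⊔ span F {p₂} := by
    intro hp
    obtain ⟨w, hw, z, hz, hwz⟩ := mem_sup.1 hp
    obtain ⟨b, rfl⟩ := mem_span_singleton.1 hz
    have h1 : w = 0 := hdis w hw 1 (-b) (by rw [← hwz, one_smul, neg_smul]; abel)
    rw [h1, zero_add] at hwz
    by_cases hb : b = 0
    · rw [hb, zero_smul] at hwz
      exact hp₁ hwz.symm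
    · refine hp₂ (mem_span_singleton.2 ⟨b⁻¹, ?_⟩)
      rw [← hwz, smul_smul, inv_mul_cancel₀ hb, one_smul]
  have hn2 : p₂ ∉ W ⊔ span F {p₁} := by
    intro hp
    obtain ⟨w, hw, z, hz, hwz⟩ := mem_sup.1 hp
    obtain ⟨b, rfl⟩ := mem_span_singleton.1 hz
    have h1 : w = 0 := hdis w hw (-b) 1 (by rw [← hwz, one_smul, neg_smul]; abel)
    rw [h1, zero_add] at hwz
    exact hp₂ (mem_span_singleton.2 ⟨b, hwz⟩)
  obtain ⟨η₁, e1, e2⟩ := ChnN0_sep hn1
  obtain ⟨η₂, e3, e4⟩ := ChnN0_sep hn2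
  have w1 : ∀ w ∈ W, η₁ w = 0 := fun w hw => e2 w (mem_sup_left hw)
  have w2 : ∀ w ∈ W, η₂ w = 0 := fun w hw => e4 w (mem_sup_left hw)
  have q1 : η₁ p₂ = 0 := e2 p₂ (mem_sup_right (mem_span_singleton_self p₂))
  have q2 : η₂ p₁ = 0 := e4 p₁ (mem_sup_right (mem_span_singleton_self p₁))
  refine ⟨η₁, η₂, e1, q1, q2, e3, fun s t hst => le_antisymm ?_ ?_⟩
  · intro x hx
    have hx1 : x ∈ W ⊔ (span F {p₁} ⊔ span F {p₂}) := by
      rw [h.sup_eq_top]
      exact mem_top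
    obtain ⟨w, hw, y, hy, rfl⟩ := mem_sup.1 hx1
    obtain ⟨y1, hy1, y2, hy2, rfl⟩ := mem_sup.1 hy
    obtain ⟨a, rfl⟩ := mem_span_singleton.1 hy1
    obtain ⟨b, rfl⟩ := mem_span_singleton.1 hy2
    rw [LinearMap.mem_ker] at hx
    simp only [LinearMap.add_apply, LinearMap.smul_apply, map_add, map_smul, w1 w hw, w2 w hw,
      e1, e3, q1, q2, smul_eq_mul, mul_one, mul_zero, add_zero, zero_add] at hx
    replace hx : s * a + t * b = 0 := by linear_combination hx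
    refine add_mem (mem_sup_left hw) (mem_sup_right (mem_span_singleton.2 ?_))
    by_cases hs : s = 0
    · have ht : t ≠ 0 := by
        rcases hst with h1 | h1
        · exact absurd hs h1
        · exact h1
      have hb : b = 0 := by
        rw [hs, zero_mul, zero_add] at hx
        rcases mul_eq_zero.1 hx with h1 | h1
        · exact absurd h1 ht
        · exact h1
      refine ⟨a * t⁻¹, ?_⟩
      rw [hs, hb, zero_smul F p₂, sub_zero, add_zero, smul_smul, mul_assoc,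
        inv_mul_cancel₀ ht, mul_one]
    · refine ⟨-b * s⁻¹, ?_⟩
      have h1 : -b * s⁻¹ * t = a := by
        field_simp
        linear_combination -hx
      have h2 : -b * s⁻¹ * s = -b := by
        rw [mul_assoc, inv_mul_cancel₀ hs, mul_one]
      rw [smul_sub, smul_smul, smul_smul, h1, h2, neg_smul, sub_neg_eq_add]
  · refine sup_le ?_ ?_
    · intro w hw
      rw [LinearMap.mem_ker, LinearMap.add_apply, LinearMap.smul_apply, LinearMap.smul_apply,
        w1 w hw, w2 w hw, smul_zero, smul_zero, add_zero]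
    · rw [span_singleton_le_iff_mem, LinearMap.mem_ker]
      simp only [LinearMap.add_apply, LinearMap.smul_apply, map_sub, map_smul, e1, e3, q1, q2,
        smul_eq_mul, mul_one, mul_zero]
      ring

theorem three_pt {f₁ f₂ : (Fin k → F) →ₗ[F] F}
    (h : IsCompl W (LinearMap.ker f₁ ⊓ LinearMap.ker f₂)) (hf₁ : f₁ ≠ 0)
    (hf₂ : f₂ ∉ span F {f₁}) :
    ∃ u₁ u₂ : Fin k → F, f₁ u₁ = 0 ∧ f₂ u₁ = 1 ∧ f₁ u₂ = 1 ∧ f₂ u₂ = 0 ∧
      ∀ s t : F, (s ≠ 0 ∨ t ≠ 0) →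
        W ⊓ LinearMap.ker (s • f₁ + t • f₂) = span F {s • u₁ - t • u₂} := by
  have hdis : ∀ w ∈ W, f₁ w = 0 → f₂ w = 0 → w = 0 := by
    intro w hw h1 h2
    have h3 : w ∈ (W ⊓ (LinearMap.ker f₁ ⊓ LinearMap.ker f₂) : Submodule F (Fin k → F)) :=
      ⟨hw, h1, h2⟩
    rw [h.inf_eq_bot] at h3
    exact (mem_bot F).1 h3
  have hdec : ∀ v, ∃ w ∈ W, f₁ w = f₁ v ∧ f₂ w = f₂ v := by
    intro v
    have hv : v ∈ W ⊔ (LinearMap.ker f₁ ⊓ LinearMap.ker f₂) := by
      rw [h.sup_eq_top]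
      exact mem_top
    obtain ⟨w, hw, z, hz, rfl⟩ := mem_sup.1 hv
    have h1 : f₁ z = 0 := hz.1
    have h2 : f₂ z = 0 := hz.2
    exact ⟨w, hw, by rw [map_add, h1, add_zero], by rw [map_add, h2, add_zero]⟩
  have hex1 : ∃ v, f₁ v = 0 ∧ f₂ v ≠ 0 := by
    by_contra hcon
    push Not at hcon
    exact hf₂ (ChnN0_span hf₁ hcon)
  have hf₂0 : f₂ ≠ 0 := by
    rintro rfl
    exact hf₂ (zero_mem _)
  have hex2 : ∃ v, f₂ v = 0 ∧ f₁ v ≠ 0 := by
    by_contra hcon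
    push Not at hcon
    obtain ⟨c, hc⟩ := mem_span_singleton.1 (ChnN0_span hf₂0 hcon)
    have hc0 : c ≠ 0 := by
      rintro rfl
      rw [zero_smul] at hc
      exact hf₁ hc.symm
    refine hf₂ (mem_span_singleton.2 ⟨c⁻¹, ?_⟩)
    rw [← hc, smul_smul, inv_mul_cancel₀ hc0, one_smul]
  obtain ⟨v1, a1, a2⟩ := hex1
  obtain ⟨v2, b1, b2⟩ := hex2
  obtain ⟨u1, hu1, c1, c2⟩ := hdec ((f₂ v1)⁻¹ • v1)
  obtain ⟨u2, hu2, d1, d2⟩ := hdec ((f₁ v2)⁻¹ • v2)
  rw [map_smul, a1, smul_zero] at c1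
  rw [map_smul, smul_eq_mul, inv_mul_cancel₀ a2] at c2
  rw [map_smul, smul_eq_mul, inv_mul_cancel₀ b2] at d1
  rw [map_smul, b1, smul_zero] at d2
  refine ⟨u1, u2, c1, c2, d1, d2, fun s t hst => le_antisymm ?_ ?_⟩
  · rintro x ⟨hx, hx2⟩
    have hx3 : s * f₁ x + t * f₂ x = 0 := hx2
    have h1 : x = f₂ x • u1 + f₁ x • u2 := by
      have h2 : x - (f₂ x • u1 + f₁ x • u2) = 0 := by
        refine hdis _ (sub_mem hx (add_mem (smul_mem _ _ hu1) (smul_mem _ _ hu2))) ?_ ?_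
        · simp only [map_sub, map_add, map_smul, c1, d1, smul_eq_mul, mul_zero, mul_one, zero_add,
            sub_self]
        · simp only [map_sub, map_add, map_smul, c2, d2, smul_eq_mul, mul_zero, mul_one, add_zero,
            sub_self]
      exact sub_eq_zero.1 h2
    rw [mem_span_singleton]
    by_cases hs : s = 0
    · have ht : t ≠ 0 := by
        rcases hst with h1 | h1
        · exact absurd hs h1
        · exact h1
      have hb : f₂ x = 0 := by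
        rw [hs, zero_mul, zero_add] at hx3
        rcases mul_eq_zero.1 hx3 with h1 | h1
        · exact absurd h1 ht
        · exact h1
      refine ⟨-f₁ x * t⁻¹, ?_⟩
      rw [hb, zero_smul, zero_add] at h1
      rw [hs, zero_smul, zero_sub, smul_neg, smul_smul, mul_assoc, inv_mul_cancel₀ ht, mul_one,
        neg_smul, neg_neg]
      exact h1.symm
    · refine ⟨f₂ x * s⁻¹, ?_⟩
      have e1 : f₂ x * s⁻¹ * s = f₂ x := by rw [mul_assoc, inv_mul_cancel₀ hs, mul_one]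
      have e2 : f₂ x * s⁻¹ * t = - f₁ x := by
        field_simp
        linear_combination hx3
      rw [smul_sub, smul_smul, smul_smul, e1, e2, neg_smul, sub_neg_eq_add]
      exact h1.symm
  · rw [span_singleton_le_iff_mem]
    refine ⟨sub_mem (smul_mem _ _ hu1) (smul_mem _ _ hu2), ?_⟩
    show (s • f₁ + t • f₂) (s • u1 - t • u2) = 0
    simp only [LinearMap.add_apply, LinearMap.smul_apply, map_sub, map_smul, c1, c2, d1, d2,
      smul_eq_mul, mul_one, mul_zero]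
    ring

theorem one_pt {f : (Fin k → F) →ₗ[F] F} (h : IsCompl W (LinearMap.ker f)) (hf : f ≠ 0) :
    ∃ t : Fin k → F, f t ≠ 0 ∧ W = span F {t} := by
  obtain ⟨v, hv⟩ : ∃ v, f v ≠ 0 := by
    by_contra hcon
    push Not at hcon
    exact hf (LinearMap.ext hcon)
  have hv1 : v ∈ W ⊔ LinearMap.ker f := by
    rw [h.sup_eq_top]
    exact mem_top
  obtain ⟨w, hw, z, hz, rfl⟩ := mem_sup.1 hv1
  have hz1 : f z = 0 := hz
  rw [map_add, hz1, add_zero] at hv
  refine ⟨w, hv, le_antisymm (fun x hx => ?_) ?_⟩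
  · have h1 : x - (f x * (f w)⁻¹) • w ∈ (W ⊓ LinearMap.ker f : Submodule F (Fin k → F)) := by
      refine ⟨sub_mem hx (smul_mem _ _ hw), ?_⟩
      show f (x - (f x * (f w)⁻¹) • w) = 0
      rw [map_sub, map_smul, smul_eq_mul, mul_assoc, inv_mul_cancel₀ hv, mul_one, sub_self]
    rw [h.inf_eq_bot, mem_bot, sub_eq_zero] at h1
    exact mem_span_singleton.2 ⟨_, h1.symm⟩
  · rw [span_singleton_le_iff_mem]
    exact hw

theorem one_fun {p : Fin k → F} (h : IsCompl W (span F {p})) (hp : p ≠ 0) :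
    ∃ η : (Fin k → F) →ₗ[F] F, η p ≠ 0 ∧ W = LinearMap.ker η := by
  have hn : p ∉ W := by
    intro hpW
    have h1 : p ∈ (W ⊓ span F {p} : Submodule F (Fin k → F)) := ⟨hpW, mem_span_singleton_self p⟩
    rw [h.inf_eq_bot] at h1
    exact hp ((mem_bot F).1 h1)
  obtain ⟨η, e1, e2⟩ := ChnN0_sep hn
  refine ⟨η, by rw [e1]; exact one_ne_zero, le_antisymm (fun w hw => e2 w hw) ?_⟩
  intro x hx
  have hx1 : x ∈ W ⊔ span F {p} := by
    rw [h.sup_eq_top]
    exact mem_top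
  obtain ⟨w, hw, z, hz, rfl⟩ := mem_sup.1 hx1
  obtain ⟨c, rfl⟩ := mem_span_singleton.1 hz
  have hx2 : η (w + c • p) = 0 := hx
  rw [map_add, e2 w hw, map_smul, e1, smul_eq_mul, mul_one, zero_add] at hx2
  rw [hx2, zero_smul, add_zero]
  exact hw

end Pool.MP_4929df_co.H92
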