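import Pool.Agent.W_4929df_h92.ChnK0

/-!
The toggle lemma and complements (proofs row 594, section 11).
-/

set_option autoImplicit false

namespace Pool.MP_4929df_co.H92

open Submodule

variable {F : Type} [Field F] {E : Type} [Fintype E] [DecidableEq E] {V V' : Type}
  [AddCommGroup V] [Module F V] [AddCommGroup V'] [Module F V'] {c : Chn E} {k : ℕ}
  {w : E → V} {w' : E → V'} {R : ChRep F c k w} {R' : ChRep F c k w'} {L M : ℕ → ℕ} {i j : ℕ}
  {x y x' y' : E} {U U' : Submodule F (Fin k → F)}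

/-- Consider the swaps at a subset of `{i, j}`. For no swap and both swaps the left traces in `R`
are the same (`kap_kap`), for one swap too. In `R'`: `t ∈ (ker η).map (kap ..)` iff
`η t + g * ph y t * η (p x) = 0`, `g` the sum of the inverses of the letters of the swaps, iff
`η t / (ph y t * η (p x)) = g` (`add_self8`). The dimension of the intersection of the left trace
with `span {t}` (`LP.compat` at the cut `j + 1`) says whether `t` is in it. -/
theorem toggle [FiniteDimensional F V] [FiniteDimensional F V'] (h8 : Nat.card F = 8)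
    (hw : SameR F w w') (hs : Sh R R') (hij : i < j) (hj : j < c.n) (hx : x ∈ c.X i)
    (hy : y ∈ c.Y i) (hx' : x' ∈ c.X j) (hy' : y' ∈ c.Y j) (hp : R.p x' = R.p x)
    (hph : R.ph y' = R.ph y) (ha : R.a x' y' = R.a x y) (hf : R.ph y (R.p x) = 0)
    (ha0 : R.a x y ≠ 0) (hne : R'.a x y ≠ R'.a x' y') {W : Submodule F (Fin k → F)}
    {η : (Fin k → F) →ₗ[F] F} {t : Fin k → F} (hL : LP R R' i U (LinearMap.ker η))
    (hR : RP R R' (j + 1) W (span F {t})) (ht : R.ph y t ≠ 0) (hη : η (R.p x) ≠ 0) :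
    η t / (R.ph y t * η (R.p x)) ≠ 0 ∧
      η t / (R.ph y t * η (R.p x)) ≠ (R'.a x y)⁻¹ ∧
      η t / (R.ph y t * η (R.p x)) ≠ (R'.a x' y')⁻¹ ∧
      η t / (R.ph y t * η (R.p x)) ≠ (R'.a x y)⁻¹ + (R'.a x' y')⁻¹ := by
  have hi : i < c.n := hij.trans hj
  have hb : R'.a x y ≠ 0 := fun h => ha0 ((hw.a_iff R R' hi hx hy).2 h)
  have hb' : R'.a x' y' ≠ 0 := fun h => ha0 (by
    rw [← ha]; exact (hw.a_iff R R' hj hx' hy').2 h)
  have sw_i : ∀ A A' : Submodule F (Fin k → F), LP R R' i A A' →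
      LP R R' j (A.map (kap (R.p x) (R.ph y) (R.a x y)))
        (A'.map (kap (R.p x) (R.ph y) (R'.a x y))) := by
    intro A A' h
    have h1 := LP.swap h hi hx hy (by rw [hf, add_zero]; exact ha0) (by
      rw [← hs.1 i hi x hx, ← hs.2 i hi y hy, hf, add_zero]; exact hb)
    rw [← hs.1 i hi x hx, ← hs.2 i hi y hy] at h1
    exact h1.mono hij hj.le
  have sw_j : ∀ A A' : Submodule F (Fin k → F), LP R R' j A A' →
      LP R R' (j + 1) (A.map (kap (R.p x) (R.ph y) (R.a x y)))
        (A'.map (kap (R.p x) (R.ph y) (R'.a x' y'))) := by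
    intro A A' h
    have h1 := LP.swap h hj hx' hy' (by rw [hp, hph, hf, add_zero, ha]; exact ha0) (by
      rw [← hs.1 j hj x' hx', ← hs.2 j hj y' hy', hp, hph, hf, add_zero]; exact hb')
    rw [← hs.1 j hj x' hx', ← hs.2 j hj y' hy', hp, hph, ha] at h1
    exact h1
  have ht0 : t ≠ 0 := fun h => ht (by rw [h, map_zero])
  have hk : ∀ φ ψ : (Fin k → F) →ₗ[F] F,
      Module.finrank F (LinearMap.ker φ ⊓ span F {t} : Submodule F (Fin k → F)) =
        Module.finrank F (LinearMap.ker ψ ⊓ span F {t} : Submodule F (Fin k → F)) →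
      (φ t = 0 ↔ ψ t = 0) := by
    have h1 : ∀ φ : (Fin k → F) →ₗ[F] F, φ t = 0 ↔
        Module.finrank F (LinearMap.ker φ ⊓ span F {t} : Submodule F (Fin k → F)) = 1 := by
      intro φ
      constructor
      · intro h
        have h2 : LinearMap.ker φ ⊓ span F {t} = span F {t} :=
          inf_eq_right.2 ((span_singleton_le_iff_mem _ _).2 (LinearMap.mem_ker.2 h))
        rw [h2]
        exact finrank_span_singleton ht0
      · intro h
        have h2 : LinearMap.ker φ ⊓ span F {t} = span F {t} :=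
          Submodule.eq_of_le_of_finrank_eq inf_le_right (by
            rw [h, finrank_span_singleton ht0])
        have h3 : t ∈ LinearMap.ker φ ⊓ span F {t} := by
          rw [h2]; exact mem_span_singleton_self t
        exact LinearMap.mem_ker.1 h3.1
    intro φ ψ h
    rw [h1 φ, h1 ψ, h]
  have hmk : ∀ (b : F) (ψ : (Fin k → F) →ₗ[F] F), b ≠ 0 →
      (LinearMap.ker ψ).map (kap (R.p x) (R.ph y) b) =
        LinearMap.ker (ψ + (b⁻¹ * ψ (R.p x)) • R.ph y) := fun b ψ hb =>
    map_ker_kap hb (by rw [hf, add_zero]; exact hb) ψ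
  -- no swap, both swaps
  have c0 := LP.compat hw (hL.mono (by omega : i ≤ j + 1) hj) hR hj
  have c2 := LP.compat hw (sw_j _ _ (sw_i _ _ hL)) hR hj
  have hUU : (U.map (kap (R.p x) (R.ph y) (R.a x y))).map (kap (R.p x) (R.ph y) (R.a x y)) = U := by
    rw [← Submodule.map_comp, kap_kap h8 hf, Submodule.map_id]
  rw [hUU, c0, hmk _ _ hb, hmk _ _ hb'] at c2
  have d2 := hk _ _ c2
  -- one swap
  have c1 := LP.compat hw ((sw_i _ _ hL).mono (Nat.le_succ j) hj) hR hj
  have c1' := LP.compat hw (sw_j _ _ (hL.mono hij.le hj.le)) hR hj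
  rw [c1, hmk _ _ hb, hmk _ _ hb'] at c1'
  have d1 := hk _ _ c1'
  simp only [LinearMap.add_apply, LinearMap.smul_apply, smul_eq_mul, hf, mul_zero,
    add_zero] at d1 d2
  have hneg : ∀ z : F, -z = z := fun z => neg_eq_of_add_eq_zero_left (add_self8 h8 z)
  have hgg : (R'.a x y)⁻¹ ≠ (R'.a x' y')⁻¹ := fun h => hne (inv_injective h)
  have hq : R.ph y t * η (R.p x) ≠ 0 := mul_ne_zero ht hη
  -- `t` is in the kernel iff the quotient is `g`
  have hiff : ∀ g : F, η t + g * η (R.p x) * R.ph y t = 0 ↔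
      η t / (R.ph y t * η (R.p x)) = g := by
    intro g
    rw [div_eq_iff hq, add_eq_zero_iff_eq_neg, hneg]
    constructor
    · intro h; rw [h]; ring
    · intro h; rw [h]; ring
  have e0 : η t = 0 ↔ η t / (R.ph y t * η (R.p x)) = 0 := by
    rw [← hiff 0, zero_mul, zero_mul, add_zero]
  have e2 : η t + (R'.a x y)⁻¹ * η (R.p x) * R.ph y t +
      (R'.a x' y')⁻¹ * η (R.p x) * R.ph y t = 0 ↔
      η t / (R.ph y t * η (R.p x)) = (R'.a x y)⁻¹ + (R'.a x' y')⁻¹ := by
    rw [← hiff]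
    ring_nf
  rw [e0, e2] at d2
  rw [hiff, hiff] at d1
  refine ⟨fun h => ?_, fun h => ?_, fun h => ?_, fun h => ?_⟩
  · have h1 := d2.1 h
    rw [h] at h1
    apply hgg
    rw [← hneg (R'.a x' y')⁻¹, ← add_eq_zero_iff_eq_neg]
    exact h1.symm
  · exact hgg (h.symm.trans (d1.1 h))
  · exact hgg ((d1.2 h).symm.trans h)
  · have h1 := d2.2 h
    rw [h] at h1
    apply hgg
    rw [← hneg (R'.a x' y')⁻¹, ← add_eq_zero_iff_eq_neg]
    exact h1

end Pool.MP_4929df_co.H92
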