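import Pool.Agent.W_4929df_h92.ChnK0

/-!
Complements in both representations (proofs row 594, section 11).
-/

set_option autoImplicit false

namespace Pool.MP_4929df_co.H92

open Submodule

variable {F : Type} [Field F] {E : Type} [Fintype E] [DecidableEq E] {V V' : Type}
  [AddCommGroup V] [Module F V] [AddCommGroup V'] [Module F V'] {c : Chn E} {k : ℕ}
  {w : E → V} {w' : E → V'} {R : ChRep F c k w} {R' : ChRep F c k w'} {L M : ℕ → ℕ} {i j : ℕ}
  {x y x' y' : E} {U U' : Submodule F (Fin k → F)}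

private theorem ChnN2_a {U U' Z : Submodule F (Fin k → F)}
    (h1 : Module.finrank F U = Module.finrank F U')
    (h2 : Module.finrank F (U ⊔ Z : Submodule F (Fin k → F)) =
      Module.finrank F (U' ⊔ Z : Submodule F (Fin k → F))) (hc : IsCompl U Z) :
    IsCompl U' Z := by
  have e1 := Submodule.finrank_sup_add_finrank_inf_eq U Z
  have e2 := Submodule.finrank_sup_add_finrank_inf_eq U' Z
  have e3 : Module.finrank F (U ⊓ Z : Submodule F (Fin k → F)) = 0 := by
    rw [hc.inf_eq_bot]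
    exact finrank_bot F _
  have e4 : Module.finrank F (U ⊔ Z : Submodule F (Fin k → F)) =
      Module.finrank F (Fin k → F) := by
    rw [hc.sup_eq_top]
    exact finrank_top F _
  have e5 : U' ⊔ Z = ⊤ := Submodule.eq_top_of_finrank_eq (by omega)
  have e6 : U' ⊓ Z = ⊥ := Submodule.finrank_eq_zero.1 (by omega)
  exact IsCompl.of_eq e6 e5

private theorem ChnN2_b {U U' Z : Submodule F (Fin k → F)}
    (h1 : Module.finrank F U = Module.finrank F U')
    (h2 : Module.finrank F (Z ⊓ U : Submodule F (Fin k → F)) =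
      Module.finrank F (Z ⊓ U' : Submodule F (Fin k → F))) (hc : IsCompl U Z) :
    IsCompl U' Z := by
  refine ChnN2_a h1 ?_ hc
  have e1 := Submodule.finrank_sup_add_finrank_inf_eq U Z
  have e2 := Submodule.finrank_sup_add_finrank_inf_eq U' Z
  rw [inf_comm] at e1 e2
  omega

/-- `LP.join` at `l` and `LP.finrank_eq` -/
theorem compl_join [FiniteDimensional F V] [FiniteDimensional F V'] (hw : SameR F w w')
    (hs : Sh R R') {l : ℕ} (hl : l < c.n) {x₁ : E} (hx₁ : x₁ ∈ c.X l)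
    (h : LP R R' 0 U U') (hc : IsCompl U (span F {R.p x₁})) : IsCompl U' (span F {R.p x₁}) := by
  have h1 := LP.mono h (Nat.zero_le l) hl.le
  have h2 := LP.join h1 hl hx₁
  rw [← hs.1 l hl x₁ hx₁] at h2
  exact ChnN2_a (LP.finrank_eq hw h1 hl.le) (LP.finrank_eq hw h2 hl) hc

/-- `LP.join2` at `l` and `LP.finrank_eq` -/
theorem compl_join2 [FiniteDimensional F V] [FiniteDimensional F V'] (hw : SameR F w w')
    (hs : Sh R R') {l : ℕ} (hl : l < c.n) {x₁ x₂ : E} (hx₁ : x₁ ∈ c.X l) (hx₂ : x₂ ∈ c.X l)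
    (h : LP R R' 0 U U') (hc : IsCompl U (span F {R.p x₁} ⊔ span F {R.p x₂})) :
    IsCompl U' (span F {R.p x₁} ⊔ span F {R.p x₂}) := by
  have h1 := LP.mono h (Nat.zero_le l) hl.le
  have h2 := LP.join2 h1 hl hx₁ hx₂
  rw [← hs.1 l hl x₁ hx₁, ← hs.1 l hl x₂ hx₂, sup_assoc, sup_assoc] at h2
  exact ChnN2_a (LP.finrank_eq hw h1 hl.le) (LP.finrank_eq hw h2 hl) hc

/-- `LP.kill` from `⊤` at `l`, `RP.mono`, `LP.compat` -/
theorem compl_kill [FiniteDimensional F V] [FiniteDimensional F V'] (hw : SameR F w w')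
    (hs : Sh R R') {l : ℕ} (hl : l < c.n) {y₁ : E} (hy₁ : y₁ ∈ c.Y l)
    (h : RP R R' c.n U U') (hc : IsCompl U (LinearMap.ker (R.ph y₁))) :
    IsCompl U' (LinearMap.ker (R.ph y₁)) := by
  have h1 := RP.mono h (show l + 1 ≤ c.n from hl) le_rfl
  have h2 := LP.kill (LP.top (R := R) (R' := R') hl.le) hl hy₁
  rw [← hs.2 l hl y₁ hy₁, top_inf_eq] at h2
  exact ChnN2_b (RP.finrank_eq hw h1 hl) (LP.compat hw h2 h1 hl) hc

/-- `LP.kill2` from `⊤` at `l`, `RP.mono`, `LP.compat` -/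
theorem compl_kill2 [FiniteDimensional F V] [FiniteDimensional F V'] (hw : SameR F w w')
    (hs : Sh R R') {l : ℕ} (hl : l < c.n) {y₁ y₂ : E} (hy₁ : y₁ ∈ c.Y l) (hy₂ : y₂ ∈ c.Y l)
    (h : RP R R' c.n U U')
    (hc : IsCompl U (LinearMap.ker (R.ph y₁) ⊓ LinearMap.ker (R.ph y₂))) :
    IsCompl U' (LinearMap.ker (R.ph y₁) ⊓ LinearMap.ker (R.ph y₂)) := by
  have h1 := RP.mono h (show l + 1 ≤ c.n from hl) le_rfl
  have h2 := LP.kill2 (LP.top (R := R) (R' := R') hl.le) hl hy₁ hy₂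
  rw [← hs.2 l hl y₁ hy₁, ← hs.2 l hl y₂ hy₂, top_inf_eq] at h2
  exact ChnN2_b (RP.finrank_eq hw h1 hl) (LP.compat hw h2 h1 hl) hc

end Pool.MP_4929df_co.H92
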