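import Pool.Agent.W_4929df_h92.ChnD3
import Pool.Agent.W_4929df_h92.ChnF1
import Pool.Agent.W_4929df_h92.ChnJ0

/-!
Ratios of letters (proofs row 594, sections 11, 12, 13).
-/

set_option autoImplicit false

namespace Pool.MP_4929df_co.H92

open Submodule

variable {F : Type} [Field F] {E : Type} [Fintype E] [DecidableEq E] {V V' : Type}
  [AddCommGroup V] [Module F V] [AddCommGroup V'] [Module F V'] {c : Chn E} {k : ℕ}
  {w : E → V} {w' : E → V'} {R : ChRep F c k w} {R' : ChRep F c k w'}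

private theorem ChnN3_ne {M : Type*} [AddCommGroup M] [Module F M] {x y : M}
    (hind : y ∉ span F {x}) {a₁ a₂ : F} (h1 : a₁ ≠ 0) : a₂ • x - a₁ • y ≠ 0 := by
  intro h
  refine hind (mem_span_singleton.2 ⟨a₁⁻¹ * a₂, ?_⟩)
  rw [mul_smul, sub_eq_zero.1 h, smul_smul, inv_mul_cancel₀ h1, one_smul]

private theorem ChnN3_prop {M : Type*} [AddCommGroup M] [Module F M] {x y : M} (hx : x ≠ 0)
    (hind : y ∉ span F {x}) {a₁ a₂ b₁ b₂ t : F}
    (h : b₂ • x - b₁ • y = t • (a₂ • x - a₁ • y)) : a₁ * b₂ = b₁ * a₂ := by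
  have e : (b₂ - t * a₂) • x = (b₁ - t * a₁) • y := by
    rw [sub_smul, sub_smul, mul_smul, mul_smul, sub_eq_sub_iff_add_eq_add]
    rw [smul_sub, sub_eq_sub_iff_add_eq_add] at h
    rw [h]
    exact add_comm _ _
  have e1 : b₁ - t * a₁ = 0 := by
    by_contra hn
    refine hind (mem_span_singleton.2 ⟨(b₁ - t * a₁)⁻¹ * (b₂ - t * a₂), ?_⟩)
    rw [mul_smul, e, smul_smul, inv_mul_cancel₀ hn, one_smul]
  rw [e1, zero_smul] at e
  have e2 : b₂ - t * a₂ = 0 := (smul_eq_zero.1 e).resolve_right hx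
  have e3 : b₁ = t * a₁ := sub_eq_zero.1 e1
  have e4 : b₂ = t * a₂ := sub_eq_zero.1 e2
  rw [e3, e4]
  ring

private theorem ChnN3_map_span {p q : Fin k → F} {f : (Fin k → F) →ₗ[F] F} (a : F)
    (hq : f q = 0) : (span F {q}).map (kap p f a) = span F {q} := by
  rw [Submodule.map_span, Set.image_singleton, kap_apply, hq, mul_zero, zero_smul, sub_zero]

private theorem ChnN3_map_top {p : Fin k → F} {f : (Fin k → F) →ₗ[F] F} {a : F} (ha : a ≠ 0)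
    (hp : f p = 0) : (⊤ : Submodule F (Fin k → F)).map (kap p f a) = ⊤ := by
  rw [Submodule.map_top, LinearMap.range_eq_top]
  intro v
  have h := LinearMap.congr_fun (kap_kapi (p := p) (f := f) ha (by rwa [hp, add_zero])) v
  exact ⟨kapi p f a v, h⟩

private theorem ChnN3_map_ker {p : Fin k → F} {f g : (Fin k → F) →ₗ[F] F} {a : F} (ha : a ≠ 0)
    (hp : f p = 0) (hg : g p = 0) :
    (LinearMap.ker g).map (kap p f a) = LinearMap.ker g := by
  refine le_antisymm ?_ ?_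
  · rintro _ ⟨v, hv, rfl⟩
    have hv' : g v = 0 := hv
    rw [LinearMap.mem_ker, kap_apply, map_sub, map_smul, hv', hg, smul_zero, sub_zero]
  · intro v hv
    have hv' : g v = 0 := hv
    have h := LinearMap.congr_fun (kap_kapi (p := p) (f := f) ha (by rwa [hp, add_zero])) v
    refine ⟨kapi p f a v, ?_, h⟩
    show g (kapi p f a v) = 0
    rw [kapi_apply, map_add, map_smul, hv', hg, smul_zero, add_zero]

private theorem ChnN3_dual {φ ψ : (Fin k → F) →ₗ[F] F} (hφ : φ ≠ 0)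
    (h : LinearMap.ker φ ≤ LinearMap.ker ψ) : ∃ t : F, ψ = t • φ := by
  obtain ⟨u, hu⟩ : ∃ u, φ u ≠ 0 := by
    by_contra hn
    push Not at hn
    exact hφ (LinearMap.ext fun v => hn v)
  refine ⟨ψ u / φ u, LinearMap.ext fun v => ?_⟩
  have h1 : v - (φ v / φ u) • u ∈ LinearMap.ker φ := by
    rw [LinearMap.mem_ker, map_sub, map_smul, smul_eq_mul, div_mul_cancel₀ _ hu, sub_self]
  have h2 := h h1
  rw [LinearMap.mem_ker, map_sub, map_smul, smul_eq_mul, sub_eq_zero] at h2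
  rw [h2, LinearMap.smul_apply, smul_eq_mul]
  field_simp

/-- `LP.tri` from `⊥` at `l` and again at `m`: `kap q = q` for `q = a₂ • p₁ - a₁ • p₂`
(`ph q = 0`), so in `R` the trace is `span {q}`, of dimension 1, and in `R'` it is the span of
the two vectors `q` of `R'`, which are proportional by `LP.finrank_eq`. -/
theorem ratio_two [FiniteDimensional F V] [FiniteDimensional F V'] (hw : SameR F w w')
    (hs : Sh R R') {l m : ℕ} (hlm : l < m) (hm : m < c.n) {u₁ u₂ v u₁' u₂' v' : E}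
    (hu₁ : u₁ ∈ c.X l) (hu₂ : u₂ ∈ c.X l) (hv : v ∈ c.Y l) (hu₁' : u₁' ∈ c.X m)
    (hu₂' : u₂' ∈ c.X m) (hv' : v' ∈ c.Y m) (hp₁ : R.p u₁' = R.p u₁) (hp₂ : R.p u₂' = R.p u₂)
    (hph : R.ph v' = R.ph v) (ha₁ : R.a u₁' v' = R.a u₁ v) (ha₂ : R.a u₂' v' = R.a u₂ v)
    (h1 : R.ph v (R.p u₁) = 0) (h2 : R.ph v (R.p u₂) = 0) (hn₁ : R.a u₁ v ≠ 0)
    (hn₂ : R.a u₂ v ≠ 0) (h0 : R.p u₁ ≠ 0) (hind : R.p u₂ ∉ span F {R.p u₁}) :
    R'.a u₁ v * R'.a u₂' v' = R'.a u₁' v' * R'.a u₂ v := by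
  have hl : l < c.n := hlm.trans hm
  have hu : u₁ ≠ u₂ := by
    rintro rfl
    exact hind (mem_span_singleton_self _)
  have hu' : u₁' ≠ u₂' := by
    rintro rfl
    refine hind ?_
    rw [← hp₂, hp₁]
    exact mem_span_singleton_self _
  have s1 := hs.1 l hl u₁ hu₁
  have s2 := hs.1 l hl u₂ hu₂
  have s3 := hs.2 l hl v hv
  have s1' := hs.1 m hm u₁' hu₁'
  have s2' := hs.1 m hm u₂' hu₂'
  have s3' := hs.2 m hm v' hv'
  have m1 : R'.a u₁ v ≠ 0 := fun h => hn₁ ((hw.a_iff R R' hl hu₁ hv).2 h)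
  have m1' : R'.a u₁' v' ≠ 0 := fun h => hn₁ (by
    rw [← ha₁]
    exact (hw.a_iff R R' hm hu₁' hv').2 h)
  have t1 := (LP.bot (R := R) (R' := R') hl.le).tri hl hu₁ hu₂ hu hv h1 h2 hn₁
    (by rw [← s1, ← s3, h1]) (by rw [← s2, ← s3, h2]) m1
  rw [Submodule.map_bot, Submodule.map_bot, bot_sup_eq, bot_sup_eq, ← s1, ← s2] at t1
  have t2 := (t1.mono (Nat.succ_le_of_lt hlm) hm.le).tri hm hu₁' hu₂' hu' hv'
    (by rw [hph, hp₁, h1]) (by rw [hph, hp₂, h2]) (by rwa [ha₁])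
    (by rw [← s1', ← s3', hph, hp₁, h1]) (by rw [← s2', ← s3', hph, hp₂, h2]) m1'
  rw [← s1', ← s2', ← s3', hp₁, hp₂, hph, ha₁, ha₂, ChnN3_map_span, ChnN3_map_span, sup_idem] at t2
  · have t3 := t2.finrank_eq hw (Nat.succ_le_of_lt hm)
    rw [finrank_span_singleton (ChnN3_ne hind hn₁)] at t3
    have t4 : span F {R'.a u₂ v • R.p u₁ - R'.a u₁ v • R.p u₂} =
        span F {R'.a u₂ v • R.p u₁ - R'.a u₁ v • R.p u₂} ⊔
          span F {R'.a u₂' v' • R.p u₁ - R'.a u₁' v' • R.p u₂} :=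
      Submodule.eq_of_le_of_finrank_eq le_sup_left (by
        rw [finrank_span_singleton (ChnN3_ne hind m1), ← t3])
    have t5 : R'.a u₂' v' • R.p u₁ - R'.a u₁' v' • R.p u₂ ∈
        span F {R'.a u₂ v • R.p u₁ - R'.a u₁ v • R.p u₂} := by
      rw [t4]
      exact mem_sup_right (mem_span_singleton_self _)
    obtain ⟨t, ht⟩ := mem_span_singleton.1 t5
    exact ChnN3_prop h0 hind ht.symm
  · rw [map_sub, map_smul, map_smul, h1, h2, smul_zero, smul_zero, sub_zero]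
  · rw [map_sub, map_smul, map_smul, h1, h2, smul_zero, smul_zero, sub_zero]

/-- `LP.cotri` from `⊤` at `l` and again at `m` -/
theorem coratio_two [FiniteDimensional F V] [FiniteDimensional F V'] (hw : SameR F w w')
    (hs : Sh R R') {l m : ℕ} (hlm : l < m) (hm : m < c.n) {u v₁ v₂ u' v₁' v₂' : E}
    (hu : u ∈ c.X l) (hv₁ : v₁ ∈ c.Y l) (hv₂ : v₂ ∈ c.Y l) (hu' : u' ∈ c.X m)
    (hv₁' : v₁' ∈ c.Y m) (hv₂' : v₂' ∈ c.Y m) (hp : R.p u' = R.p u)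
    (hph₁ : R.ph v₁' = R.ph v₁) (hph₂ : R.ph v₂' = R.ph v₂) (ha₁ : R.a u' v₁' = R.a u v₁)
    (ha₂ : R.a u' v₂' = R.a u v₂) (h1 : R.ph v₁ (R.p u) = 0) (h2 : R.ph v₂ (R.p u) = 0)
    (hn₁ : R.a u v₁ ≠ 0) (hn₂ : R.a u v₂ ≠ 0) (h0 : R.ph v₁ ≠ 0)
    (hind : R.ph v₂ ∉ span F {R.ph v₁}) :
    R'.a u v₁ * R'.a u' v₂' = R'.a u' v₁' * R'.a u v₂ := by
  have hl : l < c.n := hlm.trans hm
  have hv : v₁ ≠ v₂ := by
    rintro rfl
    exact hind (mem_span_singleton_self _)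
  have hv' : v₁' ≠ v₂' := by
    rintro rfl
    refine hind ?_
    rw [← hph₂, hph₁]
    exact mem_span_singleton_self _
  have s1 := hs.2 l hl v₁ hv₁
  have s2 := hs.2 l hl v₂ hv₂
  have s3 := hs.1 l hl u hu
  have s1' := hs.2 m hm v₁' hv₁'
  have s2' := hs.2 m hm v₂' hv₂'
  have s3' := hs.1 m hm u' hu'
  have m1 : R'.a u v₁ ≠ 0 := fun h => hn₁ ((hw.a_iff R R' hl hu hv₁).2 h)
  have m1' : R'.a u' v₁' ≠ 0 := fun h => hn₁ (by
    rw [← ha₁]
    exact (hw.a_iff R R' hm hu' hv₁').2 h)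
  have t1 := (LP.top (R := R) (R' := R') hl.le).cotri hl hu hv₁ hv₂ hv h1 h2 hn₁
    (by rw [← s1, ← s3, h1]) (by rw [← s2, ← s3, h2]) m1
  rw [← s1, ← s2, ← s3, ChnN3_map_top hn₁ h1, ChnN3_map_top m1 h1, top_inf_eq, top_inf_eq] at t1
  have t2 := (t1.mono (Nat.succ_le_of_lt hlm) hm.le).cotri hm hu' hv₁' hv₂' hv'
    (by rw [hph₁, hp, h1]) (by rw [hph₂, hp, h2]) (by rwa [ha₁])
    (by rw [← s1', ← s3', hph₁, hp, h1]) (by rw [← s2', ← s3', hph₂, hp, h2]) m1'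
  have z : ∀ b₁ b₂ : F, (b₂ • R.ph v₁ - b₁ • R.ph v₂) (R.p u) = 0 := by
    intro b₁ b₂
    rw [LinearMap.sub_apply, LinearMap.smul_apply, LinearMap.smul_apply, h1, h2, smul_zero,
      smul_zero, sub_zero]
  rw [← s1', ← s2', ← s3', hp, hph₁, hph₂, ha₁, ha₂, ChnN3_map_ker hn₁ h1 (z _ _),
    ChnN3_map_ker m1' h1 (z _ _), inf_idem] at t2
  have t3 := t2.finrank_eq hw (Nat.succ_le_of_lt hm)
  have k1 := Module.Dual.finrank_ker_add_one_of_ne_zero (K := F)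
    (f := R.a u v₂ • R.ph v₁ - R.a u v₁ • R.ph v₂) (ChnN3_ne hind hn₁)
  have k2 := Module.Dual.finrank_ker_add_one_of_ne_zero (K := F)
    (f := R'.a u v₂ • R.ph v₁ - R'.a u v₁ • R.ph v₂) (ChnN3_ne hind m1)
  have t4 : LinearMap.ker (R'.a u v₂ • R.ph v₁ - R'.a u v₁ • R.ph v₂) ⊓
      LinearMap.ker (R'.a u' v₂' • R.ph v₁ - R'.a u' v₁' • R.ph v₂) =
      LinearMap.ker (R'.a u v₂ • R.ph v₁ - R'.a u v₁ • R.ph v₂) :=
    Submodule.eq_of_le_of_finrank_eq inf_le_left (by omega)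
  obtain ⟨t, ht⟩ := ChnN3_dual (ChnN3_ne hind m1) (inf_eq_left.1 t4)
  exact ChnN3_prop h0 hind ht

end Pool.MP_4929df_co.H92
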