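import Pool.Agent.W_4929df_h92.ChnN3
import Pool.Agent.W_4929df_h92.ChnK3

/-!
Parity: the three left traces (proofs row 594, section 11).
-/

set_option autoImplicit false

namespace Pool.MP_4929df_co.H92

open Submodule

variable {F : Type} [Field F] {E : Type} [Fintype E] [DecidableEq E] {V V' : Type}
  [AddCommGroup V] [Module F V] [AddCommGroup V'] [Module F V'] {c : Chn E} {k : ℕ}
  {w : E → V} {w' : E → V'} {R : ChRep F c k w} {R' : ChRep F c k w'} {L M : ℕ → ℕ} {i j : ℕ}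
  {x y x' y' : E} {U U' : Submodule F (Fin k → F)}

/-- `ph y (p x₂) = 0` by `Sit.zone_p` at `i`. `r = R'.a x y / R'.a x₂ y`; by `ratio_two` (with
`ty_tri`) the ratio is the same for copies in `j` and in all `L s`, `s = 1, ..., 8` (both
compared with `i`). The first two pairs: `LP.join` at `i - 1` is not possible, so join at `L 1`.
The third: the letters of the copies of `(x, y)` in `L 1, ..., L 8` in `R'` are nonzero, so two
of them are equal, say at `L t < L s`; `LP.swap` with the copy of `(x, y)` at `L t`, `LP.tri` at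
`L s`; the two maps `kap` cancel (`kap_kap`), in `R'` the trace is
`U' ⊔ span {a₂ • p x - (r * a₂) • p x₂}` with `a₂ ≠ 0`. -/
theorem Sit.left_three (S : Sit R R' L M i j x y x' y') (hf : R.ph y (R.p x) = 0)
    (hY : (c.Y i).card ≤ 1) {x₂ : E} (hx₂ : x₂ ∈ c.X i) (ha₂ : R.a x₂ y ≠ 0)
    (hind : R.p x₂ ∉ span F {R.p x}) (h : LP R R' 0 U U') :
    ∃ r : F, r ≠ 0 ∧ R'.a x y = r * R'.a x₂ y ∧
      (∀ x₂' ∈ c.X j, R.p x₂' = R.p x₂ → R.a x₂' y' = R.a x₂ y →
        R'.a x' y' = r * R'.a x₂' y') ∧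
      (∃ U₁, LP R R' i U₁ (U' ⊔ span F {R.p x₂})) ∧
      (∃ U₂, LP R R' i U₂ (U' ⊔ span F {R.p x})) ∧
      ∃ U₃, LP R R' i U₃ (U' ⊔ span F {R.p x - r • R.p x₂}) := by
  have := S.fd
  have := S.fd'
  have hij := S.ctx.hij
  have hj := S.ctx.hj
  have hin : i < c.n := hij.trans hj
  have hL0 : L 0 = i := S.ctx.L0
  have hLi : ∀ s, 1 ≤ s → s ≤ 8 → L s < i := by
    intro s h1 h2
    have h3 : L s < L 0 := S.ctx.lt_L (by omega) h2
    omega
  have hf2 : R.ph y (R.p x₂) = 0 := (S.zone_p le_rfl hij.le hx₂).resolve_right hind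
  have hpp : ∀ l, l < c.n → ∀ u ∈ c.X l, R'.p u = R.p u :=
    fun l hl u hu => (S.hs.1 l hl u hu).symm
  have hpph : ∀ l, l < c.n → ∀ u ∈ c.Y l, R'.ph u = R.ph u :=
    fun l hl u hu => (S.hs.2 l hl u hu).symm
  have hb2 : R'.a x₂ y ≠ 0 := fun h0 => ha₂ ((S.hw.a_iff R R' hin hx₂ S.hy).2 h0)
  have hb1 : R'.a x y ≠ 0 := S.nz.1
  obtain ⟨r, hr⟩ : ∃ r : F, r = R'.a x y / R'.a x₂ y := ⟨_, rfl⟩
  have hr1 : R'.a x y = r * R'.a x₂ y := by rw [hr, div_mul_cancel₀ _ hb2]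
  have hr0 : r ≠ 0 := by rw [hr]; exact div_ne_zero hb1 hb2
  refine ⟨r, hr0, hr1, ?_, ?_, ?_, ?_⟩
  · intro x₂' hx₂' hp₂' ha₂'
    have h1 := ratio_two S.hw S.hs hij hj S.hx hx₂ S.hy S.hx' hx₂' S.hy' S.hp hp₂' S.hph S.ha
      ha₂' hf hf2 S.ha0 ha₂ S.hp0 hind
    rw [hr1] at h1
    refine mul_right_cancel₀ hb2 ?_
    rw [← h1]
    ring
  · obtain ⟨u, hu, hpu⟩ := ty_p (S.ctx.tL 1 (by norm_num)) hx₂
    have hl : L 1 < i := hLi 1 le_rfl (by norm_num)
    have h1 := (h.mono (Nat.zero_le _) (hl.trans hin).le).join (hl.trans hin) hu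
    rw [hpp _ (hl.trans hin) u hu, hpu] at h1
    exact ⟨_, h1.mono hl hin.le⟩
  · obtain ⟨u, hu, hpu⟩ := ty_p (S.ctx.tL 1 (by norm_num)) S.hx
    have hl : L 1 < i := hLi 1 le_rfl (by norm_num)
    have h1 := (h.mono (Nat.zero_le _) (hl.trans hin).le).join (hl.trans hin) hu
    rw [hpp _ (hl.trans hin) u hu, hpu] at h1
    exact ⟨_, h1.mono hl hin.le⟩
  · have key : ∀ s : Fin 8, ∃ u₁ u₂ v : E, u₁ ∈ c.X (L (s.val + 1)) ∧
        u₂ ∈ c.X (L (s.val + 1)) ∧ v ∈ c.Y (L (s.val + 1)) ∧ R.p u₁ = R.p x ∧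
        R.p u₂ = R.p x₂ ∧ R.ph v = R.ph y ∧ R.a u₁ v = R.a x y ∧ R.a u₂ v = R.a x₂ y ∧
        R'.a u₁ v ≠ 0 ∧ R'.a u₂ v ≠ 0 ∧ R'.a u₁ v = r * R'.a u₂ v := by
      intro s
      have hs8 : s.val + 1 ≤ 8 := s.isLt
      have hl : L (s.val + 1) < i := hLi _ (by omega) hs8
      have hln : L (s.val + 1) < c.n := hl.trans hin
      obtain ⟨u₁, hu₁, u₂, hu₂, v, hv, e1, e2, e3, e4, e5⟩ :=
        ty_tri (S.ctx.tL _ hs8) hY S.hx hx₂ S.hy
      have n1 : R.a u₁ v ≠ 0 := by rw [e4]; exact S.ha0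
      have n2 : R.a u₂ v ≠ 0 := by rw [e5]; exact ha₂
      have n1' : R'.a u₁ v ≠ 0 := fun h0 => n1 ((S.hw.a_iff R R' hln hu₁ hv).2 h0)
      have n2' : R'.a u₂ v ≠ 0 := fun h0 => n2 ((S.hw.a_iff R R' hln hu₂ hv).2 h0)
      have h1 := ratio_two S.hw S.hs hl hin hu₁ hu₂ hv S.hx hx₂ S.hy e1.symm e2.symm e3.symm
        e4.symm e5.symm (by rw [e3, e1]; exact hf) (by rw [e3, e2]; exact hf2) n1 n2
        (by rw [e1]; exact S.hp0) (by rw [e1, e2]; exact hind)
      refine ⟨u₁, u₂, v, hu₁, hu₂, hv, e1, e2, e3, e4, e5, n1', n2', ?_⟩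
      rw [hr1] at h1
      refine mul_right_cancel₀ hb2 ?_
      rw [h1]
      ring
    choose u₁ u₂ v hu₁ hu₂ hv e1 e2 e3 e4 e5 n1 n2 hrat using key
    have hpig : ∃ s t : Fin 8, s < t ∧ R'.a (u₁ s) (v s) = R'.a (u₁ t) (v t) := by
      by_contra hcon
      push Not at hcon
      have : Finite F := Nat.finite_of_card_ne_zero (by rw [S.h8]; norm_num)
      have hinj : Function.Injective
          (fun o : Option (Fin 8) => o.elim (0 : F) (fun s => R'.a (u₁ s) (v s))) := by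
        intro o o' hoo
        rcases o with _ | s
        · rcases o' with _ | t
          · rfl
          · exact absurd hoo.symm (n1 t)
        · rcases o' with _ | t
          · exact absurd hoo (n1 s)
          · rcases lt_trichotomy s t with hst | hst | hst
            · exact absurd hoo (hcon s t hst)
            · rw [hst]
            · exact absurd hoo.symm (hcon t s hst)
      have h1 := Nat.card_le_card_of_injective _ hinj
      rw [S.h8, Nat.card_eq_fintype_card, Fintype.card_option, Fintype.card_fin] at h1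
      omega
    obtain ⟨s, t, hst, hα⟩ := hpig
    have hst' : s.val < t.val := hst
    have ht8 : t.val + 1 ≤ 8 := t.isLt
    have hs8 : s.val + 1 ≤ 8 := s.isLt
    have hlt : L (t.val + 1) < L (s.val + 1) := S.ctx.lt_L (by omega) ht8
    have hls : L (s.val + 1) < i := hLi _ (by omega) hs8
    have hlsn : L (s.val + 1) < c.n := hls.trans hin
    have hltn : L (t.val + 1) < c.n := hlt.trans hlsn
    have h0 := h.mono (Nat.zero_le (L (t.val + 1))) hltn.le
    have e0 : ∀ s : Fin 8, R.ph (v s) (R.p (u₁ s)) = 0 := by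
      intro s
      rw [e3, e1]
      exact hf
    have e0' : ∀ s : Fin 8, R.ph (v s) (R.p (u₂ s)) = 0 := by
      intro s
      rw [e3, e2]
      exact hf2
    have hne : u₁ s ≠ u₂ s := by
      intro h1
      apply hind
      rw [← e2 s, ← h1, e1 s]
      exact mem_span_singleton_self _
    have h1 := h0.swap hltn (hu₁ t) (hv t)
      (by rw [e0, add_zero, e4]; exact S.ha0)
      (by rw [hpp _ hltn _ (hu₁ t), hpph _ hltn _ (hv t), e0, add_zero]; exact n1 t)
    have h2 := (h1.mono hlt hlsn.le).tri hlsn (hu₁ s) (hu₂ s) hne (hv s) (e0 s) (e0' s)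
      (by rw [e4]; exact S.ha0)
      (by rw [hpp _ hlsn _ (hu₁ s), hpph _ hlsn _ (hv s)]; exact e0 s)
      (by rw [hpp _ hlsn _ (hu₂ s), hpph _ hlsn _ (hv s)]; exact e0' s)
      (n1 s)
    have h3 := h2.mono hls hin.le
    rw [hpp _ hltn _ (hu₁ t), hpph _ hltn _ (hv t), hpp _ hlsn _ (hu₁ s), hpp _ hlsn _ (hu₂ s),
      hpph _ hlsn _ (hv s), e1 t, e1 s, e2 s, e3 t, e3 s, ← hα] at h3
    have hkk : (U'.map (kap (R.p x) (R.ph y) (R'.a (u₁ s) (v s)))).map
        (kap (R.p x) (R.ph y) (R'.a (u₁ s) (v s))) = U' := by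
      rw [← Submodule.map_comp, kap_kap S.h8 hf, Submodule.map_id]
    rw [hkk] at h3
    have hspan : span F {R'.a (u₂ s) (v s) • R.p x - R'.a (u₁ s) (v s) • R.p x₂} =
        span F {R.p x - r • R.p x₂} := by
      rw [hrat s, mul_comm r, mul_smul, ← smul_sub]
      exact span_singleton_smul_eq (IsUnit.mk0 _ (n2 s)) _
    rw [hspan] at h3
    exact ⟨_, h3⟩

end Pool.MP_4929df_co.H92
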