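import Pool.Agent.W_4929df_h92.ChnN3
import Pool.Agent.W_4929df_h92.ChnK3

/-!
Dual parity: the three right traces (proofs row 594, section 12).
-/

set_option autoImplicit false

namespace Pool.MP_4929df_co.H92

open Submodule

variable {F : Type} [Field F] {E : Type} [Fintype E] [DecidableEq E] {V V' : Type}
  [AddCommGroup V] [Module F V] [AddCommGroup V'] [Module F V'] {c : Chn E} {k : ℕ}
  {w : E → V} {w' : E → V'} {R : ChRep F c k w} {R' : ChRep F c k w'} {L M : ℕ → ℕ} {i j : ℕ}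
  {x y x' y' : E} {U U' : Submodule F (Fin k → F)}

/-- pigeonhole: two of the eight nonzero letters are equal -/
private theorem ChnN5_pigeon (h8 : Nat.card F = 8) (b : ℕ → F)
    (hb : ∀ s, 1 ≤ s → s ≤ 8 → b s ≠ 0) : ∃ s t, 1 ≤ s ∧ s < t ∧ t ≤ 8 ∧ b s = b t := by
  classical
  have hfin : Finite F := Nat.finite_of_card_ne_zero (by rw [h8]; norm_num)
  letI : Fintype F := Fintype.ofFinite F
  have hc : Fintype.card F = 8 := by rw [← Nat.card_eq_fintype_card, h8]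
  have h1 : ((Finset.univ : Finset F).erase 0).card < (Finset.Icc 1 8).card := by
    rw [Finset.card_erase_of_mem (Finset.mem_univ _), Finset.card_univ, hc]
    decide
  obtain ⟨s, hs, t, ht, hne, he⟩ :=
    Finset.exists_ne_map_eq_of_card_lt_of_maps_to h1 (f := b) (fun s hs => by
      rw [Finset.mem_coe, Finset.mem_Icc] at hs
      rw [Finset.mem_coe, Finset.mem_erase]
      exact ⟨hb s hs.1 hs.2, Finset.mem_univ _⟩)
  rw [Finset.mem_Icc] at hs ht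
  rcases Nat.lt_or_gt_of_ne hne with h | h
  · exact ⟨s, t, hs.1, h, ht.2, he⟩
  · exact ⟨t, s, ht.1, h, hs.2, he.symm⟩

/-- Dual to `Sit.left_three`: `ph y₂ (p x) = 0` by `Sit.zone_ph` at `i`; `r` from
`coratio_two` (with `ty_cotri`), the same for the copies in `j` and in all `M s`,
`s = 1, ..., 8`. The first two: `RP.kill` of the copies of `y₂`, `y` at `M 1`. The third: two of
`M 1, ..., M 8` have copies of `(x, y)` with the same letter in `R'`, say `M s < M t`: `RP.swap`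
at `M t`, `RP.cotri` at `M s`; the two maps `kapi` cancel. -/
theorem Sit.right_three (S : Sit R R' L M i j x y x' y') (hf : R.ph y (R.p x) = 0)
    (hX : (c.X i).card ≤ 1) {y₂ : E} (hy₂ : y₂ ∈ c.Y i) (ha₂ : R.a x y₂ ≠ 0)
    (hind : R.ph y₂ ∉ span F {R.ph y}) (h : RP R R' c.n U U') :
    ∃ r : F, r ≠ 0 ∧ R'.a x y = r * R'.a x y₂ ∧
      (∀ y₂' ∈ c.Y j, R.ph y₂' = R.ph y₂ → R.a x' y₂' = R.a x y₂ →
        R'.a x' y' = r * R'.a x' y₂') ∧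
      (∃ U₁, RP R R' (j + 1) U₁ (U' ⊓ LinearMap.ker (R.ph y₂))) ∧
      (∃ U₂, RP R R' (j + 1) U₂ (U' ⊓ LinearMap.ker (R.ph y))) ∧
      ∃ U₃, RP R R' (j + 1) U₃ (U' ⊓ LinearMap.ker (R.ph y - r • R.ph y₂)) := by
  have := S.fd
  have := S.fd'
  have hj := S.ctx.hj
  have hij := S.ctx.hij
  have hi : i < c.n := hij.trans hj
  have hM0 : M 0 = j := S.ctx.M0
  have hf₂ : R.ph y₂ (R.p x) = 0 := by
    rcases S.zone_ph le_rfl hij.le hy₂ with h1 | h1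
    · exact h1
    · exact absurd h1 hind
  have hn1 : R'.a x y ≠ 0 := S.nz.1
  have hn2 : R'.a x y₂ ≠ 0 := fun h1 => ha₂ ((S.hw.a_iff R R' hi S.hx hy₂).2 h1)
  -- ratios
  obtain ⟨r, hr⟩ : ∃ r : F, r = R'.a x y * (R'.a x y₂)⁻¹ := ⟨_, rfl⟩
  have hr0 : r ≠ 0 := by
    rw [hr]
    exact mul_ne_zero hn1 (inv_ne_zero hn2)
  have hr1 : R'.a x y = r * R'.a x y₂ := by
    rw [hr, mul_assoc, inv_mul_cancel₀ hn2, mul_one]
  have hrat : ∀ m, i < m → m < c.n → ∀ u ∈ c.X m, ∀ v₁ ∈ c.Y m, ∀ v₂ ∈ c.Y m,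
      R.p u = R.p x → R.ph v₁ = R.ph y → R.ph v₂ = R.ph y₂ → R.a u v₁ = R.a x y →
      R.a u v₂ = R.a x y₂ → R'.a u v₁ = r * R'.a u v₂ := by
    intro m him hm u hu v₁ hv₁ v₂ hv₂ e1 e2 e3 e4 e5
    have h1 := coratio_two S.hw S.hs him hm S.hx S.hy hy₂ hu hv₁ hv₂ e1 e2 e3 e4 e5 hf hf₂
      S.ha0 ha₂ S.hph0 hind
    rw [hr1, mul_right_comm] at h1
    exact (mul_right_cancel₀ hn2 h1).symm
  -- copies in the blocks `M s`
  have hMj : ∀ s, 1 ≤ s → s ≤ 8 → j < M s := fun s h1 h2 => by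
    have h3 := S.ctx.lt_M (s := 0) (t := s) h1 h2
    rwa [hM0] at h3
  have hcopy : ∀ s, s ≤ 8 → ∃ u v₁ v₂, u ∈ c.X (M s) ∧ v₁ ∈ c.Y (M s) ∧ v₂ ∈ c.Y (M s) ∧
      R.p u = R.p x ∧ R.ph v₁ = R.ph y ∧ R.ph v₂ = R.ph y₂ ∧ R.a u v₁ = R.a x y ∧
      R.a u v₂ = R.a x y₂ := by
    intro s hs
    obtain ⟨u, hu, v₁, hv₁, v₂, hv₂, e⟩ := ty_cotri (S.ctx.tM s hs) hX S.hx S.hy hy₂
    exact ⟨u, v₁, v₂, hu, hv₁, hv₂, e⟩
  have hEne : Nonempty E := ⟨x⟩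
  choose! u v₁ v₂ hu hv₁ hv₂ eu ev₁ ev₂ ea₁ ea₂ using hcopy
  have hkill : ∀ v ∈ c.Y (M 1), ∃ U₁, RP R R' (j + 1) U₁ (U' ⊓ LinearMap.ker (R.ph v)) := by
    intro v hv
    have h1 : M 1 < c.n := S.ctx.Mn 1 (by norm_num)
    have h2 := (h.mono (Nat.succ_le_of_lt h1) le_rfl).kill h1 hv
    rw [← S.hs.2 (M 1) h1 v hv] at h2
    exact ⟨_, h2.mono (Nat.succ_le_of_lt (hMj 1 le_rfl (by norm_num))) h1.le⟩
  refine ⟨r, hr0, hr1, ?_, ?_, ?_, ?_⟩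
  · intro y₂' hy₂' e1 e2
    exact hrat j hij hj x' S.hx' y' S.hy' y₂' hy₂' S.hp S.hph e1 S.ha e2
  · have h1 := hkill (v₂ 1) (hv₂ 1 (by norm_num))
    rwa [ev₂ 1 (by norm_num)] at h1
  · have h1 := hkill (v₁ 1) (hv₁ 1 (by norm_num))
    rwa [ev₁ 1 (by norm_num)] at h1
  · -- two equal letters
    have hnz : ∀ s, 1 ≤ s → s ≤ 8 → R'.a (u s) (v₁ s) ≠ 0 := by
      intro s _ h2 h3
      refine S.ha0 ?_
      rw [← ea₁ s h2]
      exact (S.hw.a_iff R R' (S.ctx.Mn s h2) (hu s h2) (hv₁ s h2)).2 h3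
    obtain ⟨s, t, hs1, hst, ht8, hbb⟩ := ChnN5_pigeon S.h8 (fun s => R'.a (u s) (v₁ s)) hnz
    have hs8 : s ≤ 8 := by omega
    have hMs : M s < c.n := S.ctx.Mn s hs8
    have hMt : M t < c.n := S.ctx.Mn t ht8
    have hMst : M s < M t := S.ctx.lt_M hst ht8
    have p_s : R'.p (u s) = R.p x := (S.hs.1 _ hMs _ (hu s hs8)).symm.trans (eu s hs8)
    have p_t : R'.p (u t) = R.p x := (S.hs.1 _ hMt _ (hu t ht8)).symm.trans (eu t ht8)
    have f_s : R'.ph (v₁ s) = R.ph y := (S.hs.2 _ hMs _ (hv₁ s hs8)).symm.trans (ev₁ s hs8)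
    have f_t : R'.ph (v₁ t) = R.ph y := (S.hs.2 _ hMt _ (hv₁ t ht8)).symm.trans (ev₁ t ht8)
    have g_s : R'.ph (v₂ s) = R.ph y₂ := (S.hs.2 _ hMs _ (hv₂ s hs8)).symm.trans (ev₂ s hs8)
    have a_t0 : R.a (u t) (v₁ t) ≠ 0 := by rw [ea₁ t ht8]; exact S.ha0
    have a_s0 : R.a (u s) (v₁ s) ≠ 0 := by rw [ea₁ s hs8]; exact S.ha0
    have h1 := (h.mono (Nat.succ_le_of_lt hMt) le_rfl).swap hMt (hu t ht8) (hv₁ t ht8) a_t0
      (hnz t (by omega) ht8)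
    have hvne : v₁ s ≠ v₂ s := by
      intro he
      apply hind
      rw [← ev₂ s hs8, ← he, ev₁ s hs8]
      exact mem_span_singleton_self _
    have h2 := (h1.mono (Nat.succ_le_of_lt hMst) hMt.le).cotri hMs (hu s hs8) (hv₁ s hs8)
      (hv₂ s hs8) hvne (by rw [ev₁ s hs8, eu s hs8]; exact hf)
      (by rw [ev₂ s hs8, eu s hs8]; exact hf₂) a_s0 (by rw [f_s, p_s]; exact hf)
      (by rw [g_s, p_s]; exact hf₂) (hnz s hs1 hs8)
    have hb' : R'.a (u s) (v₁ s) = R'.a (u t) (v₁ t) := hbb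
    have hr2 : R'.a (u s) (v₁ s) = r * R'.a (u s) (v₂ s) :=
      hrat (M s) (hij.trans (hMj s hs1 hs8)) hMs _ (hu s hs8) _ (hv₁ s hs8) _ (hv₂ s hs8)
        (eu s hs8) (ev₁ s hs8) (ev₂ s hs8) (ea₁ s hs8) (ea₂ s hs8)
    have ha2s : R'.a (u s) (v₂ s) ≠ 0 := by
      intro h3
      refine hnz s hs1 hs8 ?_
      rw [hr2, h3, mul_zero]
    have e1 : (U'.map (kapi (R'.p (u t)) (R'.ph (v₁ t)) (R'.a (u t) (v₁ t)))).map
        (kapi (R'.p (u s)) (R'.ph (v₁ s)) (R'.a (u s) (v₁ s))) = U' := by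
      rw [p_s, p_t, f_s, f_t, hb', kapi_eq_kap S.h8 hf, ← Submodule.map_comp, kap_kap S.h8 hf,
        Submodule.map_id]
    have e2 : LinearMap.ker (R'.a (u s) (v₂ s) • R'.ph (v₁ s) - R'.a (u s) (v₁ s) • R'.ph (v₂ s)) =
        LinearMap.ker (R.ph y - r • R.ph y₂) := by
      have e3 : R'.a (u s) (v₂ s) • R'.ph (v₁ s) - R'.a (u s) (v₁ s) • R'.ph (v₂ s) =
          R'.a (u s) (v₂ s) • (R.ph y - r • R.ph y₂) := by
        rw [f_s, g_s, hr2, smul_sub, smul_smul, mul_comm r]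
      rw [e3]
      exact LinearMap.ker_smul _ _ ha2s
    rw [e1, e2] at h2
    exact ⟨_, h2.mono (Nat.succ_le_of_lt (hMj s hs1 hs8)) hMs.le⟩

end Pool.MP_4929df_co.H92
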