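import Pool.Agent.W_4929df_h92.ChnN0
import Pool.Agent.W_4929df_h92.ChnN1
import Pool.Agent.W_4929df_h92.ChnN2
import Pool.Agent.W_4929df_h92.ChnN4
import Pool.Agent.W_4929df_h92.ChnE

/-!
Parity (proofs row 594, section 11).
-/

set_option autoImplicit false

namespace Pool.MP_4929df_co.H92

open Submodule

variable {F : Type} [Field F] {E : Type} [Fintype E] [DecidableEq E] {V V' : Type}
  [AddCommGroup V] [Module F V] [AddCommGroup V'] [Module F V'] {c : Chn E} {k : ℕ}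
  {w : E → V} {w' : E → V'} {R : ChRep F c k w} {R' : ChRep F c k w'} {L M : ℕ → ℕ} {i j : ℕ}
  {x y x' y' : E} {U U' : Submodule F (Fin k → F)}

/-- End sets `A' ⊆ A 0` with `R.T 0 A'` a complement of `span {p x} ⊔ span {p x₂}`
(`ChRep.exists_left_compl`), `B'` outside `A n` with `R.T n B'` a complement of `ker (ph y)`
(`exists_right_compl`); by `compl_join2`, `compl_kill` the same holds in `R'`. `η₁, η₂` from
`three_fun`, `t` from `one_pt`, `r` and three left traces from `Sit.left_three`, `x₂'` a copy of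
`x₂` in `j` (`ty_tri`). `g = (R'.a x y)⁻¹`, `g' = (R'.a x' y')⁻¹`. `toggle`:
(1) `(x, y)`, `η₁`: `b₁ = η₁ t / ph t`; (2) `(x₂, y)`, `(x₂', y')`, `η₂`:
`r * b₂ = η₂ t / ph t` is not `0, r g, r g', r g + r g'`; (3) `(x, y)`, `r • η₁ + η₂`:
`b₁ + b₂`. Contradiction to `index_two`. -/
theorem Sit.parity (S : Sit R R' L M i j x y x' y') (hf : R.ph y (R.p x) = 0)
    (hY : (c.Y i).card ≤ 1) {x₂ : E} (hx₂ : x₂ ∈ c.X i) (ha₂ : R.a x₂ y ≠ 0)
    (hind : R.p x₂ ∉ span F {R.p x}) : False := by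
  have := S.fd
  have := S.fd'
  have hj := S.ctx.hj
  have hij := S.ctx.hij
  have hi : i < c.n := hij.trans hj
  have hf₂ : R.ph y (R.p x₂) = 0 := (S.zone_p le_rfl hij.le hx₂).resolve_right hind
  -- the left end
  obtain ⟨A, hA, hcA⟩ := R.exists_left_compl (Nat.zero_le c.n)
    (span F {R.p x} ⊔ span F {R.p x₂})
  have hLP : LP R R' 0 (R.T 0 A) (R'.T 0 A) := ⟨A, hA, rfl, rfl⟩
  obtain ⟨η₁, η₂, e1, e2, e3, e4, hsp⟩ :=
    three_fun (compl_join2 S.hw S.hs hi S.hx hx₂ hLP hcA) S.hp0 hind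
  obtain ⟨r, hr0, hr1, hr2, ⟨U₁, h1⟩, ⟨U₂, h2⟩, ⟨U₃, h3⟩⟩ :=
    S.left_three hf hY hx₂ ha₂ hind hLP
  have s1 := hsp 1 0 (Or.inl one_ne_zero)
  have s2 := hsp 0 1 (Or.inr one_ne_zero)
  have s3 := hsp r 1 (Or.inr one_ne_zero)
  have hneg : span F {-R.p x₂} = span F {R.p x₂} := by
    rw [← neg_one_smul F (R.p x₂)]
    exact span_singleton_smul_eq (IsUnit.mk0 _ (neg_ne_zero.2 one_ne_zero)) _
  rw [one_smul, zero_smul, add_zero, zero_smul, one_smul, zero_sub, hneg] at s1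
  rw [one_smul, zero_smul, zero_add, zero_smul, one_smul, sub_zero] at s2
  rw [one_smul, one_smul] at s3
  rw [← s1] at h1
  rw [← s2] at h2
  rw [← s3] at h3
  -- the right end
  obtain ⟨B, hB, hcB⟩ := R.exists_right_compl (le_refl c.n) (LinearMap.ker (R.ph y))
  have hRP : RP R R' c.n (R.T c.n B) (R'.T c.n B) := ⟨B, hB, rfl, rfl⟩
  obtain ⟨t, ht, hsp'⟩ := one_pt (compl_kill S.hw S.hs hi S.hy hRP hcB) S.hph0
  rw [hsp'] at hRP
  have hR := hRP.mono (show j + 1 ≤ c.n from hj) le_rfl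
  -- the copy of `x₂`
  obtain ⟨x₁', hx₁', x₂', hx₂', y₁', hy₁', f1, f2, f3, f4, f5⟩ :=
    ty_tri S.ctx.ht.symm hY S.hx hx₂ S.hy
  have hY' : (c.Y j).card ≤ 1 := (ty_Y S.ctx.ht.symm).2 hY
  obtain rfl : y₁' = y' := Finset.card_le_one.1 hY' _ hy₁' _ S.hy'
  have hr3 := hr2 x₂' hx₂' f2 f5
  have hn1 : R'.a x y ≠ 0 := S.nz.1
  have hn2 : R'.a x' y₁' ≠ 0 := S.nz.2.1
  have hne₂ : R'.a x₂ y ≠ R'.a x₂' y₁' := fun h => S.hne (by rw [hr1, hr3, h])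
  have t1 := toggle S.h8 S.hw S.hs hij hj S.hx S.hy S.hx' S.hy' S.hp S.hph S.ha hf S.ha0 S.hne
    h1 hR ht (by rw [e1]; exact one_ne_zero)
  have t2 := toggle S.h8 S.hw S.hs hij hj hx₂ S.hy hx₂' S.hy' f2 S.hph f5 hf₂ ha₂ hne₂
    h2 hR ht (by rw [e4]; exact one_ne_zero)
  have hη : (r • η₁ + η₂) (R.p x) = r := by
    rw [LinearMap.add_apply, LinearMap.smul_apply, e1, e3, smul_eq_mul, mul_one, add_zero]
  have t3 := toggle S.h8 S.hw S.hs hij hj S.hx S.hy S.hx' S.hy' S.hp S.hph S.ha hf S.ha0 S.hne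
    h3 hR ht (by rw [hη]; exact hr0)
  rw [e1, mul_one] at t1
  rw [e4, mul_one] at t2
  rw [hη, LinearMap.add_apply, LinearMap.smul_apply, smul_eq_mul] at t3
  have hb3 : (r * η₁ t + η₂ t) / (R.ph y t * r) =
      η₁ t / R.ph y t + r⁻¹ * (η₂ t / R.ph y t) := by
    field_simp
  have hg1 : (R'.a x y)⁻¹ = r⁻¹ * (R'.a x₂ y)⁻¹ := by rw [hr1, mul_inv]
  have hg2 : (R'.a x' y₁')⁻¹ = r⁻¹ * (R'.a x₂' y₁')⁻¹ := by rw [hr3, mul_inv]
  refine index_two S.h8 (inv_ne_zero hn1) (inv_ne_zero hn2)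
    (fun h => S.hne (inv_injective h)) hb3 t1 ?_ t3
  refine ⟨mul_ne_zero (inv_ne_zero hr0) t2.1, fun h => t2.2.1 ?_, fun h => t2.2.2.1 ?_,
    fun h => t2.2.2.2 ?_⟩
  · rw [hg1] at h
    exact mul_left_cancel₀ (inv_ne_zero hr0) h
  · rw [hg2] at h
    exact mul_left_cancel₀ (inv_ne_zero hr0) h
  · rw [hg1, hg2, ← mul_add] at h
    exact mul_left_cancel₀ (inv_ne_zero hr0) h

end Pool.MP_4929df_co.H92
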