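import Pool.Agent.W_4929df_h92.ChnN0
import Pool.Agent.W_4929df_h92.ChnN1
import Pool.Agent.W_4929df_h92.ChnN2
import Pool.Agent.W_4929df_h92.ChnN5
import Pool.Agent.W_4929df_h92.ChnE

/-!
Dual parity (proofs row 594, section 12).
-/

set_option autoImplicit false

namespace Pool.MP_4929df_co.H92

open Submodule

variable {F : Type} [Field F] {E : Type} [Fintype E] [DecidableEq E] {V V' : Type}
  [AddCommGroup V] [Module F V] [AddCommGroup V'] [Module F V'] {c : Chn E} {k : ℕ}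
  {w : E → V} {w' : E → V'} {R : ChRep F c k w} {R' : ChRep F c k w'} {L M : ℕ → ℕ} {i j : ℕ}
  {x y x' y' : E} {U U' : Submodule F (Fin k → F)}

/-- End sets `A' ⊆ A 0` with `R.T 0 A'` a complement of `span {p x}`, `B'` outside `A n` with
`R.T n B'` a complement of `ker (ph y) ⊓ ker (ph y₂)`; the same holds in `R'` (`compl_join`,
`compl_kill2`). `η` from `one_fun`, `u₁, u₂` from `three_pt` for `f₁ = ph y`, `f₂ = ph y₂`, `r`
and three right traces from `Sit.right_three`, `y₂'` a copy of `y₂` in `j` (`ty_cotri`).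
`toggle`: (1) `(x, y)`, `t = -u₂`: `b₁ = η u₂ / η p`; (2) `(x, y₂)`, `(x', y₂')`, `t = u₁`:
`r * b₂ = η u₁ / η p`; (3) `(x, y)`, `t = u₁ + r • u₂`: `b₁ + b₂`. Contradiction to
`index_two`. -/
theorem Sit.coparity (S : Sit R R' L M i j x y x' y') (hf : R.ph y (R.p x) = 0)
    (hX : (c.X i).card ≤ 1) {y₂ : E} (hy₂ : y₂ ∈ c.Y i) (ha₂ : R.a x y₂ ≠ 0)
    (hind : R.ph y₂ ∉ span F {R.ph y}) : False := by
  have := S.fd
  have := S.fd'
  have hj := S.ctx.hj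
  have hij := S.ctx.hij
  have hi : i < c.n := hij.trans hj
  have hf₂ : R.ph y₂ (R.p x) = 0 := by
    rcases S.zone_ph le_rfl hij.le hy₂ with h1 | h1
    · exact h1
    · exact absurd h1 hind
  -- the left end
  obtain ⟨A, hA, hcA⟩ := R.exists_left_compl (Nat.zero_le c.n) (span F {R.p x})
  have hLP : LP R R' 0 (R.T 0 A) (R'.T 0 A) := ⟨A, hA, rfl, rfl⟩
  obtain ⟨η, hη, hker⟩ := one_fun (compl_join S.hw S.hs hi S.hx hLP hcA) S.hp0
  rw [hker] at hLP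
  have hL := hLP.mono (Nat.zero_le i) hi.le
  -- the right end
  obtain ⟨B, hB, hcB⟩ := R.exists_right_compl (le_refl c.n)
    (LinearMap.ker (R.ph y) ⊓ LinearMap.ker (R.ph y₂))
  have hRP : RP R R' c.n (R.T c.n B) (R'.T c.n B) := ⟨B, hB, rfl, rfl⟩
  obtain ⟨u₁, u₂, e1, e2, e3, e4, hsp⟩ :=
    three_pt (compl_kill2 S.hw S.hs hi S.hy hy₂ hRP hcB) S.hph0 hind
  obtain ⟨r, hr0, hr1, hr2, ⟨U₁, h1⟩, ⟨U₂, h2⟩, ⟨U₃, h3⟩⟩ :=
    S.right_three hf hX hy₂ ha₂ hind hRP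
  have s1 := hsp 0 1 (Or.inr one_ne_zero)
  rw [zero_smul, zero_add, one_smul, zero_smul, one_smul, zero_sub] at s1
  have s2 := hsp 1 0 (Or.inl one_ne_zero)
  rw [zero_smul, add_zero, one_smul, zero_smul, one_smul, sub_zero] at s2
  have s3 := hsp 1 (-r) (Or.inl one_ne_zero)
  have e5 : (1 : F) • R.ph y + (-r) • R.ph y₂ = R.ph y - r • R.ph y₂ := by
    refine LinearMap.ext fun v => ?_
    simp only [LinearMap.add_apply, LinearMap.sub_apply, LinearMap.smul_apply, smul_eq_mul]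
    ring
  have e6 : (1 : F) • u₁ - (-r) • u₂ = u₁ + r • u₂ := by
    rw [one_smul, neg_smul, sub_neg_eq_add]
  rw [e5, e6] at s3
  rw [s1] at h1
  rw [s2] at h2
  rw [s3] at h3
  -- the copy of `y₂`
  obtain ⟨x₁, hx₁, y₁', hy₁', y₂', hy₂', f1, f2, f3, f4, f5⟩ :=
    ty_cotri S.ctx.ht.symm hX S.hx S.hy hy₂
  have hX' : (c.X j).card ≤ 1 := (ty_X S.ctx.ht.symm).2 hX
  obtain rfl : x₁ = x' := Finset.card_le_one.1 hX' _ hx₁ _ S.hx'
  have hr3 := hr2 y₂' hy₂' f3 f5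
  have hn1 : R'.a x y ≠ 0 := S.nz.1
  have hn2 : R'.a x₁ y' ≠ 0 := S.nz.2.1
  have hn3 : R'.a x y₂ ≠ 0 := fun h => hn1 (by rw [hr1, h, mul_zero])
  have hn4 : R'.a x₁ y₂' ≠ 0 := fun h => hn2 (by rw [hr3, h, mul_zero])
  have hne₂ : R'.a x y₂ ≠ R'.a x₁ y₂' := fun h => S.hne (by rw [hr1, hr3, h])
  have t1 := toggle S.h8 S.hw S.hs hij hj S.hx S.hy S.hx' S.hy' S.hp S.hph S.ha hf S.ha0 S.hne
    hL h1 (by rw [map_neg, e3]; exact neg_ne_zero.2 one_ne_zero) hη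
  have t2 := toggle S.h8 S.hw S.hs hij hj S.hx hy₂ S.hx' hy₂' S.hp f3 f5 hf₂ ha₂ hne₂
    hL h2 (by rw [e2]; exact one_ne_zero) hη
  have t3 := toggle S.h8 S.hw S.hs hij hj S.hx S.hy S.hx' S.hy' S.hp S.hph S.ha hf S.ha0 S.hne
    hL h3 (by rw [map_add, map_smul, e1, e3, zero_add, smul_eq_mul, mul_one]; exact hr0) hη
  rw [map_neg, map_neg, e3, neg_mul, one_mul, neg_div_neg_eq] at t1
  rw [e2, one_mul] at t2
  rw [map_add, map_add, map_smul, map_smul, e1, e3, zero_add, smul_eq_mul, smul_eq_mul,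
    mul_one] at t3
  have hb3 : (η u₁ + r * η u₂) / (r * η (R.p x)) =
      η u₂ / η (R.p x) + r⁻¹ * (η u₁ / η (R.p x)) := by
    field_simp
    ring
  have hg1 : (R'.a x y)⁻¹ = r⁻¹ * (R'.a x y₂)⁻¹ := by rw [hr1, mul_inv]
  have hg2 : (R'.a x₁ y')⁻¹ = r⁻¹ * (R'.a x₁ y₂')⁻¹ := by rw [hr3, mul_inv]
  refine index_two S.h8 (inv_ne_zero hn1) (inv_ne_zero hn2)
    (fun h => S.hne (inv_injective h)) hb3 t1 ?_ t3
  refine ⟨mul_ne_zero (inv_ne_zero hr0) t2.1, fun h => t2.2.1 ?_, fun h => t2.2.2.1 ?_,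
    fun h => t2.2.2.2 ?_⟩
  · rw [hg1] at h
    exact mul_left_cancel₀ (inv_ne_zero hr0) h
  · rw [hg2] at h
    exact mul_left_cancel₀ (inv_ne_zero hr0) h
  · rw [hg1, hg2, ← mul_add] at h
    exact mul_left_cancel₀ (inv_ne_zero hr0) h

end Pool.MP_4929df_co.H92
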