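import Pool.Agent.W_4929df_h92.ChnI
import Pool.Agent.W_4929df_h92.ChnM1
import Pool.Agent.W_4929df_h92.ChnM2
import Pool.Agent.W_4929df_h92.ChnN6
import Pool.Agent.W_4929df_h92.ChnN7

/-!
Claim R (proofs row 594, section 7).
-/

set_option autoImplicit false

namespace Pool.MP_4929df_co.H92

open Submodule

variable {F : Type} [Field F] {E : Type} [Fintype E] [DecidableEq E] {V V' : Type}
  [AddCommGroup V] [Module F V] [AddCommGroup V'] [Module F V'] {c : Chn E} {k : ℕ}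
  {w : E → V} {w' : E → V'}

/-- Clear if `a = 0` or `a + ph p = 0` (`SameR.a_iff`, `SameR.aph_iff`). Otherwise, if false,
`exists_ctx` gives a `Sit`; `Sit.hom_false`, `Sit.ela_false`, `Sit.ela_false'`, `Sit.parity`,
`Sit.coparity`. -/
theorem rigid (fd : FiniteDimensional F V) (fd' : FiniteDimensional F V')
    (h8 : Nat.card F = 8) (hk : 3 ≤ k) (R : ChRep F c k w) (R' : ChRep F c k w')
    (hw : SameR F w w') (hs : Sh R R') (hsm : c.Small) (h4 : Four F w) {i j : ℕ} (hij : i < j)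
    (hj : j < c.n) (hcls : cls c.n R.ty 16 i = cls c.n R.ty 16 j) {x y x' y' : E}
    (hx : x ∈ c.X i) (hy : y ∈ c.Y i) (hx' : x' ∈ c.X j) (hy' : y' ∈ c.Y j)
    (hp : R.p x' = R.p x) (hph : R.ph y' = R.ph y) (ha : R.a x' y' = R.a x y)
    (hp0 : R.p x ≠ 0) (hph0 : R.ph y ≠ 0) : R'.a x y = R'.a x' y' := by
  by_contra hne
  by_cases ha0 : R.a x y = 0
  · have h1 := (hw.a_iff R R' (hij.trans hj) hx hy).1 ha0
    have h2 := (hw.a_iff R R' hj hx' hy').1 (ha.trans ha0)
    exact hne (h1.trans h2.symm)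
  by_cases hb0 : R.a x y + R.ph y (R.p x) = 0
  · have h1 := (hw.aph_iff R R' (hij.trans hj) hx hy).1 hb0
    have h2 := (hw.aph_iff R R' hj hx' hy').1 (by rw [ha, hp, hph]; exact hb0)
    rw [← hs.1 i (hij.trans hj) x hx, ← hs.2 i (hij.trans hj) y hy] at h1
    rw [← hs.1 j hj x' hx', ← hs.2 j hj y' hy', hp, hph] at h2
    exact hne (by linear_combination h1 - h2)
  obtain ⟨L, M, hctx⟩ := exists_ctx hij hj hcls
  have S : Sit R R' L M i j x y x' y' :=
    ⟨fd, fd', h8, hw, hs, hctx, hx, hy, hx', hy', hp, hph, ha, hp0, hph0, ha0, hb0, hne⟩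
  by_cases hf : R.ph y (R.p x) = 0
  · rcases hsm i (hij.trans hj) with hY | hX
    · by_cases hall : ∀ e ∈ c.X i, R.a e y ≠ 0 → R.p e ∈ span F {R.p x}
      · exact S.ela_false hk h4 hf hY hall
      · push Not at hall
        obtain ⟨x₂, hx₂, ha₂, hind⟩ := hall
        exact S.parity hf hY hx₂ ha₂ hind
    · by_cases hall : ∀ g ∈ c.Y i, R.a x g ≠ 0 → R.ph g ∈ span F {R.ph y}
      · exact S.ela_false' hk h4 hf hX hall
      · push Not at hall
        obtain ⟨y₂, hy₂, ha₂, hind⟩ := hall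
        exact S.coparity hf hX hy₂ ha₂ hind
  · exact S.hom_false hk h4 hsm hf

end Pool.MP_4929df_co.H92
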