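import Pool.Agent.W_4929df_h92.ChnG1

/-!
Relations along the chain (proofs row 594, section 6, final lemma).
-/

set_option autoImplicit false

namespace Pool.MP_4929df_co.H92

open Submodule

variable {F : Type} [Field F] {E : Type} [Fintype E] [DecidableEq E] {V V' : Type}
  [AddCommGroup V] [Module F V] [AddCommGroup V'] [Module F V'] {c : Chn E} {k : ℕ}
  {w : E → V} {w' : E → V'}

/-- the same positions of the vectors of `A 0` and of the vectors outside `A n` -/
structure SameEnds (R : ChRep F c k w) (R' : ChRep F c k w') : Prop where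
  zero : ∀ (b : E → F) (g : Fin k → F), ∑ e ∈ c.A 0, b e • w e = R.th 0 g ↔
    ∑ e ∈ c.A 0, b e • w' e = R'.th 0 g
  last : ∀ (b : E → F) (g : Fin k → F), ∑ e ∈ (c.A c.n)ᶜ, b e • w e = R.th c.n g ↔
    ∑ e ∈ (c.A c.n)ᶜ, b e • w' e = R'.th c.n g

private theorem ChnP1_mem {v : E → V} {S : Finset E} (b : E → F) :
    ∑ e ∈ S, b e • v e ∈ Sp F v S :=
  Submodule.sum_mem _ fun _ he => Submodule.smul_mem _ _ (mem_Sp he)

private theorem ChnP1_split (c : Chn E) {l : ℕ} (hl : l < c.n) (f : E → V) :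
    ∑ e ∈ c.A (l + 1), f e =
      ∑ e ∈ c.A l, f e + (∑ y ∈ c.Y l, f y + ∑ x ∈ c.X l, f x) := by
  have h1 := Finset.sum_sdiff (f := f) (c.mono l hl)
  have h2 := Finset.sum_sdiff (f := f) (c.sub l hl)
  rw [← h1, ← h2]
  unfold Chn.X
  abel

/-- One block: write `w x` (`x ∈ X l`) with `R.xel` and `th (l+1) g` with `R.step` and use
`R.indL` (all the other terms are in `Sp (A l)`). -/
theorem ChRep.rel_step (R : ChRep F c k w) {l : ℕ} (hl : l < c.n) (b : E → F) (g : Fin k → F) :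
    ∑ e ∈ c.A (l + 1), b e • w e = R.th (l + 1) g ↔
      ∑ e ∈ c.A l, b e • w e = R.th l (g - ∑ x ∈ c.X l, b x • R.p x) ∧
        ∀ y ∈ c.Y l, b y + ∑ x ∈ c.X l, b x * R.a x y + R.ph y g = 0 := by
  have hX : ∑ x ∈ c.X l, b x • w x =
      ∑ y ∈ c.Y l, (∑ x ∈ c.X l, b x * R.a x y) • w y + R.th l (∑ x ∈ c.X l, b x • R.p x) := by
    rw [map_sum]
    have h1 : ∑ y ∈ c.Y l, (∑ x ∈ c.X l, b x * R.a x y) • w y =
        ∑ x ∈ c.X l, ∑ y ∈ c.Y l, (b x * R.a x y) • w y := by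
      rw [Finset.sum_comm]
      exact Finset.sum_congr rfl fun y _ => Finset.sum_smul
    rw [h1, ← Finset.sum_add_distrib]
    refine Finset.sum_congr rfl fun x hx => ?_
    rw [R.xel l hl x hx, smul_add, Finset.smul_sum, map_smul]
    congr 1
    exact Finset.sum_congr rfl fun y _ => by rw [smul_smul]
  have hY : ∑ y ∈ c.Y l, (b y + ∑ x ∈ c.X l, b x * R.a x y + R.ph y g) • w y =
      ∑ y ∈ c.Y l, b y • w y + ∑ y ∈ c.Y l, (∑ x ∈ c.X l, b x * R.a x y) • w y +
        ∑ y ∈ c.Y l, R.ph y g • w y := by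
    rw [← Finset.sum_add_distrib, ← Finset.sum_add_distrib]
    exact Finset.sum_congr rfl fun y _ => by rw [add_smul, add_smul]
  rw [ChnP1_split c hl, hX, R.step l hl g]
  have key : ∑ e ∈ c.A l, b e • w e + (∑ y ∈ c.Y l, b y • w y +
      (∑ y ∈ c.Y l, (∑ x ∈ c.X l, b x * R.a x y) • w y +
        R.th l (∑ x ∈ c.X l, b x • R.p x))) =
      R.th l g - ∑ y ∈ c.Y l, R.ph y g • w y ↔
      ∑ e ∈ c.A l, b e • w e +
        ∑ y ∈ c.Y l, (b y + ∑ x ∈ c.X l, b x * R.a x y + R.ph y g) • w y =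
      R.th l (g - ∑ x ∈ c.X l, b x • R.p x) := by
    rw [hY, map_sub]
    constructor
    · intro h
      rw [eq_sub_iff_add_eq] at h ⊢
      rw [← h]
      abel
    · intro h
      rw [eq_sub_iff_add_eq] at h ⊢
      rw [← h]
      abel
  rw [key]
  constructor
  · intro h
    have h0 : ∀ y ∈ c.Y l, b y + ∑ x ∈ c.X l, b x * R.a x y + R.ph y g = 0 := by
      refine R.indL l hl (fun y => b y + ∑ x ∈ c.X l, b x * R.a x y + R.ph y g) ?_
      have h2 : ∑ y ∈ c.Y l, (b y + ∑ x ∈ c.X l, b x * R.a x y + R.ph y g) • w y =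
          R.th l (g - ∑ x ∈ c.X l, b x • R.p x) - ∑ e ∈ c.A l, b e • w e := by
        rw [← h]
        abel
      show ∑ y ∈ c.Y l, (b y + ∑ x ∈ c.X l, b x * R.a x y + R.ph y g) • w y ∈ _
      rw [h2]
      refine Submodule.sub_mem _ ?_ (ChnP1_mem b)
      have h3 : R.th l (g - ∑ x ∈ c.X l, b x • R.p x) ∈ LinearMap.range (R.th l) :=
        LinearMap.mem_range_self _ _
      rw [R.rng l hl.le] at h3
      exact h3.1
    refine ⟨?_, h0⟩
    rw [← h, Finset.sum_eq_zero (s := c.Y l) fun y hy => by rw [h0 y hy, zero_smul], add_zero]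
  · rintro ⟨h, h0⟩
    rw [Finset.sum_eq_zero (s := c.Y l) fun y hy => by rw [h0 y hy, zero_smul], add_zero]
    exact h

/-- `∑ e ∈ A l, b e • w e = th l g` iff `∑ e ∈ A l, b e • w' e = th' l g` by induction on `l`
(`ChRep.rel_step`), for all `b`, `g`. Then `∑ e, b e • w e = 0` iff for some `g` both
`∑ e ∈ A n, b e • w e = th n g` and `∑ e ∈ (A n)ᶜ, b e • w e = th n (-g)` (`R.rng`). -/
theorem rel_eq (R : ChRep F c k w) (R' : ChRep F c k w') (hs : Sh R R')
    (ha : ∀ l, l < c.n → ∀ x ∈ c.X l, ∀ y ∈ c.Y l, R.a x y = R'.a x y)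
    (he : SameEnds R R') (b : E → F) :
    ∑ e, b e • w e = 0 ↔ ∑ e, b e • w' e = 0 := by
  have h1 : ∀ l, l ≤ c.n → ∀ g : Fin k → F, ∑ e ∈ c.A l, b e • w e = R.th l g ↔
      ∑ e ∈ c.A l, b e • w' e = R'.th l g := by
    intro l
    induction l with
    | zero => exact fun _ g => he.zero b g
    | succ l ih =>
      intro hl g
      rw [R.rel_step (by omega) b g, R'.rel_step (by omega) b g]
      have e1 : ∑ x ∈ c.X l, b x • R.p x = ∑ x ∈ c.X l, b x • R'.p x :=
        Finset.sum_congr rfl fun x hx => by rw [hs.1 l (by omega) x hx]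
      rw [e1, ih (by omega)]
      refine and_congr_right fun _ => forall_congr' fun y => forall_congr' fun hy => ?_
      have e2 : ∑ x ∈ c.X l, b x * R.a x y = ∑ x ∈ c.X l, b x * R'.a x y :=
        Finset.sum_congr rfl fun x hx => by rw [ha l (by omega) x hx y hy]
      rw [e2, hs.2 l (by omega) y hy]
  have h2 : ∀ {U : Type} [AddCommGroup U] [Module F U] {u : E → U} (Q : ChRep F c k u),
      ∑ e, b e • u e = 0 ↔ ∃ g, ∑ e ∈ c.A c.n, b e • u e = Q.th c.n g ∧
        ∑ e ∈ (c.A c.n)ᶜ, b e • u e = Q.th c.n (-g) := by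
    intro U _ _ u Q
    rw [← Finset.sum_add_sum_compl (c.A c.n)]
    constructor
    · intro h
      have h3 : ∑ e ∈ c.A c.n, b e • u e ∈ LinearMap.range (Q.th c.n) := by
        rw [Q.rng c.n le_rfl]
        refine ⟨ChnP1_mem b, ?_⟩
        rw [eq_neg_of_add_eq_zero_left h]
        exact Submodule.neg_mem _ (ChnP1_mem b)
      obtain ⟨g, hg⟩ := h3
      refine ⟨g, hg.symm, ?_⟩
      rw [map_neg, hg]
      exact eq_neg_of_add_eq_zero_right h
    · rintro ⟨g, h3, h4⟩
      rw [h3, h4, map_neg, add_neg_cancel]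
  rw [h2 R, h2 R']
  refine exists_congr fun g => ?_
  rw [h1 c.n le_rfl g, he.last b (-g)]

end Pool.MP_4929df_co.H92
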