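import Pool.Agent.W_4929df_h92.ChnDefs

/-!
Spanning vectors with the same linear relations.
-/

set_option autoImplicit false

namespace Pool.MP_4929df_co.H92

open Submodule

variable {F : Type} [Field F] {E : Type} [Fintype E] {V V' : Type}
  [AddCommGroup V] [Module F V] [AddCommGroup V'] [Module F V'] {w : E → V} {w' : E → V'}

private theorem ChnP1b_surj {V : Type} [AddCommGroup V] [Module F V] {w : E → V}
    (h : Sp F w Finset.univ = ⊤) :
    Function.Surjective (Fintype.linearCombination F w) := by
  rw [← LinearMap.range_eq_top, Fintype.range_linearCombination, ← h]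
  unfold Sp
  rw [Finset.coe_univ, Set.image_univ]

/-- spanning vectors with the same linear relations are related by a linear equivalence -/
theorem chn_equiv_of_rel (h : Sp F w Finset.univ = ⊤) (h' : Sp F w' Finset.univ = ⊤)
    (hrel : ∀ b : E → F, ∑ e, b e • w e = 0 ↔ ∑ e, b e • w' e = 0) :
    ∃ g : V' ≃ₗ[F] V, ∀ e, w e = g (w' e) := by
  classical
  have hs := ChnP1b_surj h
  have hs' := ChnP1b_surj h'
  have hker : LinearMap.ker (Fintype.linearCombination F w') =
      LinearMap.ker (Fintype.linearCombination F w) := by
    ext b
    rw [LinearMap.mem_ker, LinearMap.mem_ker, Fintype.linearCombination_apply,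
      Fintype.linearCombination_apply]
    exact (hrel b).symm
  refine ⟨((Fintype.linearCombination F w').quotKerEquivOfSurjective hs').symm ≪≫ₗ
    (Submodule.quotEquivOfEq _ _ hker) ≪≫ₗ
    ((Fintype.linearCombination F w).quotKerEquivOfSurjective hs), fun e => ?_⟩
  have h1 : ∀ {V : Type} [AddCommGroup V] [Module F V] (w : E → V),
      Fintype.linearCombination F w (Pi.single e 1) = w e := by
    intro V _ _ w
    rw [Fintype.linearCombination_apply, Finset.sum_eq_single e]
    · rw [Pi.single_eq_same, one_smul]
    · intro b _ hb
      rw [Pi.single_eq_of_ne hb, zero_smul]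
    · intro hne
      exact absurd (Finset.mem_univ e) hne
  rw [LinearEquiv.trans_apply, LinearEquiv.trans_apply]
  conv_rhs => rw [← h1 w', LinearMap.quotKerEquivOfSurjective_symm_apply,
    Submodule.quotEquivOfEq_mk, LinearMap.quotKerEquivOfSurjective_apply_mk, h1 w]

end Pool.MP_4929df_co.H92
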