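import Pool.Agent.W_4929df_h92.ChnG1

/-!
Rescaling the vectors (proofs row 594, section 6).
-/

set_option autoImplicit false

namespace Pool.MP_4929df_co.H92

open Submodule

variable {F : Type} [Field F] {E : Type} [Fintype E] [DecidableEq E] {V V' : Type}
  [AddCommGroup V] [Module F V] [AddCommGroup V'] [Module F V'] {c : Chn E} {k : ℕ}
  {w : E → V} {w' : E → V'}

/-- rescaling does not change the spans -/
theorem Sp_smul {u : E → F} (hu : ∀ e, u e ≠ 0) (S : Finset E) :
    Sp F (fun e => u e • w e) S = Sp F w S := by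
  apply le_antisymm
  · refine span_le.2 ?_
    rintro _ ⟨e, he, rfl⟩
    exact (Sp F w S).smul_mem _ (subset_span ⟨e, he, rfl⟩)
  · refine span_le.2 ?_
    rintro _ ⟨e, he, rfl⟩
    have h1 : w e = (u e)⁻¹ • (u e • w e) := by
      rw [smul_smul, inv_mul_cancel₀ (hu e), one_smul]
    rw [h1]
    exact (Sp F (fun e => u e • w e) S).smul_mem _ (subset_span ⟨e, he, rfl⟩)

private theorem ChnP2_sum {u : E → F} (b : E → F) (Y : Finset E) :
    ∑ y ∈ Y, b y • (u y • w y) = ∑ y ∈ Y, (b y * u y) • w y := by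
  refine Finset.sum_congr rfl fun y _ => ?_
  rw [smul_smul]

theorem ChRep.rescale (R : ChRep F c k w) {u : E → F} (hu : ∀ e, u e ≠ 0) :
    ∃ R₁ : ChRep F c k (fun e => u e • w e), R₁.th = R.th ∧ (∀ x, R₁.p x = u x • R.p x) ∧
      (∀ y, R₁.ph y = (u y)⁻¹ • R.ph y) ∧ ∀ x y, R₁.a x y = u x * (u y)⁻¹ * R.a x y := by
  refine ⟨⟨R.th, fun x => u x • R.p x, fun y => (u y)⁻¹ • R.ph y,
    fun x y => u x * (u y)⁻¹ * R.a x y, R.inj, ?_, ?_, ?_, ?_, ?_, ?_⟩, rfl, fun _ => rfl,
    fun _ => rfl, fun _ _ => rfl⟩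
  · intro l hl
    rw [Sp_smul hu, Sp_smul hu]
    exact R.rng l hl
  · intro l hl g
    rw [R.step l hl g]
    congr 1
    refine Finset.sum_congr rfl fun y _ => ?_
    rw [LinearMap.smul_apply, smul_eq_mul, smul_smul]
    congr 1
    field_simp [hu y]
  · intro l hl x hx
    rw [R.xel l hl x hx, smul_add, Finset.smul_sum, map_smul]
    congr 1
    refine Finset.sum_congr rfl fun y _ => ?_
    rw [smul_smul, smul_smul]
    congr 1
    field_simp [hu y]
  · intro l hl b hb y hy
    rw [ChnP2_sum, Sp_smul hu] at hb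
    have h1 := R.indL l hl (fun y => b y * u y) hb y hy
    exact (mul_eq_zero.1 h1).resolve_right (hu y)
  · intro l hl b hb y hy
    rw [ChnP2_sum, Sp_smul hu] at hb
    have h1 := R.indR l hl (fun y => b y * u y) hb y hy
    exact (mul_eq_zero.1 h1).resolve_right (hu y)
  · rw [Sp_smul hu]
    exact R.top

end Pool.MP_4929df_co.H92
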