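import Pool.Agent.W_4929df_h92.ChnP2
import Pool.Agent.W_4929df_h92.ChnP1
import Pool.Agent.W_4929df_h92.ChnP1b

/-!
Equivalence of representations which agree up to scaling (proofs row 594, section 6).
-/

set_option autoImplicit false

namespace Pool.MP_4929df_co.H92

open Submodule

variable {F : Type} [Field F] {E : Type} [Fintype E] [DecidableEq E] {V V' : Type}
  [AddCommGroup V] [Module F V] [AddCommGroup V'] [Module F V'] {c : Chn E} {k : ℕ}
  {w : E → V} {w' : E → V'}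

private theorem ChnP2b_X (c : Chn E) {l : ℕ} {e : E} (he : e ∈ c.X l) :
    e ∈ c.A (l + 1) \ c.A l := c.X_sub he

private theorem ChnP2b_Y (c : Chn E) {l : ℕ} (hl : l < c.n) {e : E} (he : e ∈ c.Y l) :
    e ∈ c.A (l + 1) \ c.A l := c.sub l hl he

private theorem ChnP2b_XY (c : Chn E) {l : ℕ} {e : E} (he : e ∈ c.X l) (he' : e ∈ c.Y l) :
    False := by
  unfold Chn.X at he
  exact (Finset.mem_sdiff.1 he).2 he'

/-- the scaling factors -/
private def ChnP2b_u (c : Chn E) (r s : ℕ → E → F) (e : E) : F :=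
  ∏ l ∈ Finset.range c.n, if e ∈ c.X l then r l e else if e ∈ c.Y l then (s l e)⁻¹ else 1

private theorem ChnP2b_ne (c : Chn E) {r s : ℕ → E → F}
    (hr : ∀ l, l < c.n → ∀ x ∈ c.X l, r l x ≠ 0) (hs : ∀ l, l < c.n → ∀ y ∈ c.Y l, s l y ≠ 0)
    (e : E) : ChnP2b_u c r s e ≠ 0 := by
  unfold ChnP2b_u
  rw [Finset.prod_ne_zero_iff]
  intro l hl
  rw [Finset.mem_range] at hl
  split_ifs with h1 h2
  · exact hr l hl e h1
  · exact inv_ne_zero (hs l hl e h2)
  · exact one_ne_zero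

private theorem ChnP2b_uX (c : Chn E) {r s : ℕ → E → F} {l : ℕ} (hl : l < c.n) {x : E}
    (hx : x ∈ c.X l) : ChnP2b_u c r s x = r l x := by
  unfold ChnP2b_u
  rw [Finset.prod_eq_single l]
  · rw [if_pos hx]
  · intro m hm hml
    rw [Finset.mem_range] at hm
    rw [if_neg, if_neg]
    · intro h
      exact hml (c.block_unique hm hl (ChnP2b_Y c hm h) (ChnP2b_X c hx))
    · intro h
      exact hml (c.block_unique hm hl (ChnP2b_X c h) (ChnP2b_X c hx))
  · intro h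
    exact absurd (Finset.mem_range.2 hl) h

private theorem ChnP2b_uY (c : Chn E) {r s : ℕ → E → F} {l : ℕ} (hl : l < c.n) {y : E}
    (hy : y ∈ c.Y l) : ChnP2b_u c r s y = (s l y)⁻¹ := by
  unfold ChnP2b_u
  rw [Finset.prod_eq_single l]
  · rw [if_neg fun h => ChnP2b_XY c h hy, if_pos hy]
  · intro m hm hml
    rw [Finset.mem_range] at hm
    rw [if_neg, if_neg]
    · intro h
      exact hml (c.block_unique hm hl (ChnP2b_Y c hm h) (ChnP2b_Y c hl hy))
    · intro h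
      exact hml (c.block_unique hm hl (ChnP2b_X c h) (ChnP2b_Y c hl hy))
  · intro h
    exact absurd (Finset.mem_range.2 hl) h

private theorem ChnP2b_one (c : Chn E) {r s : ℕ → E → F} {e : E}
    (he : ∀ l, l < c.n → e ∉ c.A (l + 1) \ c.A l) : ChnP2b_u c r s e = 1 := by
  unfold ChnP2b_u
  refine Finset.prod_eq_one fun l hl => ?_
  rw [Finset.mem_range] at hl
  rw [if_neg fun h => he l hl (ChnP2b_X c h), if_neg fun h => he l hl (ChnP2b_Y c hl h)]

/-- Rescale `R'` (`ChRep.rescale`) with `u e = r e` for `e ∈ X l`, `u e = (s e)⁻¹` for `e ∈ Y l`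
and `u e = 1` for all other `e`; then `rel_eq`, `equiv_of_rel`. -/
theorem equiv_of_agree (R : ChRep F c k w) (R' : ChRep F c k w') (hs : Sh R R')
    (he : SameEnds R R')
    (hag : ∀ l, l < c.n → ∃ r s : E → F, (∀ x ∈ c.X l, r x ≠ 0) ∧ (∀ y ∈ c.Y l, s y ≠ 0) ∧
      (∀ x ∈ c.X l, R.p x ≠ 0 → r x = 1) ∧ (∀ y ∈ c.Y l, R.ph y ≠ 0 → s y = 1) ∧
      ∀ x ∈ c.X l, ∀ y ∈ c.Y l, R.a x y = r x * s y * R'.a x y) :
    ∃ g : V' ≃ₗ[F] V, ∃ u : E → F, (∀ e, u e ≠ 0) ∧ ∀ e, w e = u e • g (w' e) := by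
  have hag' : ∀ l, ∃ r s : E → F, l < c.n → (∀ x ∈ c.X l, r x ≠ 0) ∧ (∀ y ∈ c.Y l, s y ≠ 0) ∧
      (∀ x ∈ c.X l, R.p x ≠ 0 → r x = 1) ∧ (∀ y ∈ c.Y l, R.ph y ≠ 0 → s y = 1) ∧
      ∀ x ∈ c.X l, ∀ y ∈ c.Y l, R.a x y = r x * s y * R'.a x y := by
    intro l
    by_cases hl : l < c.n
    · obtain ⟨r, s, h⟩ := hag l hl
      exact ⟨r, s, fun _ => h⟩
    · exact ⟨fun _ => 1, fun _ => 1, fun h => absurd h hl⟩
  choose r s h using hag'
  have hu : ∀ e, ChnP2b_u c r s e ≠ 0 := fun e =>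
    ChnP2b_ne c (fun l hl => (h l hl).1) (fun l hl => (h l hl).2.1) e
  obtain ⟨R₁, hth, hp, hph, ha⟩ := R'.rescale hu
  have hSh : Sh R R₁ := by
    refine ⟨fun l hl x hx => ?_, fun l hl y hy => ?_⟩
    · rw [hp x, ← hs.1 l hl x hx]
      by_cases h0 : R.p x = 0
      · rw [h0, smul_zero]
      · rw [ChnP2b_uX c hl hx, (h l hl).2.2.1 x hx h0, one_smul]
    · rw [hph y, ← hs.2 l hl y hy]
      by_cases h0 : R.ph y = 0
      · rw [h0, smul_zero]
      · rw [ChnP2b_uY c hl hy, (h l hl).2.2.2.1 y hy h0, inv_one, inv_one, one_smul]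
  have hEnds : SameEnds R R₁ := by
    refine ⟨fun b g => ?_, fun b g => ?_⟩
    · rw [he.zero b g, hth]
      have h1 : ∑ e ∈ c.A 0, b e • (ChnP2b_u c r s e • w' e) = ∑ e ∈ c.A 0, b e • w' e := by
        refine Finset.sum_congr rfl fun e hA => ?_
        rw [ChnP2b_one c, one_smul]
        intro l hl h2
        exact (Finset.mem_sdiff.1 h2).2 (c.A_mono (Nat.zero_le l) hl.le hA)
      rw [h1]
    · rw [he.last b g, hth]
      have h1 : ∑ e ∈ (c.A c.n)ᶜ, b e • (ChnP2b_u c r s e • w' e) =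
          ∑ e ∈ (c.A c.n)ᶜ, b e • w' e := by
        refine Finset.sum_congr rfl fun e hA => ?_
        rw [ChnP2b_one c, one_smul]
        intro l hl h2
        exact (Finset.mem_compl.1 hA) (c.A_mono (by omega) le_rfl (Finset.mem_sdiff.1 h2).1)
      rw [h1]
  have hA : ∀ l, l < c.n → ∀ x ∈ c.X l, ∀ y ∈ c.Y l, R.a x y = R₁.a x y := by
    intro l hl x hx y hy
    rw [ha x y, ChnP2b_uX c hl hx, ChnP2b_uY c hl hy, inv_inv]
    exact (h l hl).2.2.2.2 x hx y hy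
  obtain ⟨g, hg⟩ := chn_equiv_of_rel R.top R₁.top (rel_eq R R₁ hSh hA hEnds)
  refine ⟨g, ChnP2b_u c r s, hu, fun e => ?_⟩
  rw [hg e, map_smul]

end Pool.MP_4929df_co.H92
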