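import Pool.Agent.W_4929df_h92.ChnP1
import Pool.Agent.W_4929df_h92.ChnP2
import Pool.Agent.W_4929df_h92.ChnF2

/-!
Sharing letters (proofs row 594, section 6).
-/

set_option autoImplicit false

namespace Pool.MP_4929df_co.H92

open Submodule

variable {F : Type} [Field F] {E : Type} [Fintype E] [DecidableEq E] {V V₀ V' : Type}
  [AddCommGroup V₀] [Module F V₀] [AddCommGroup V] [Module F V] [AddCommGroup V'] [Module F V']
  {c : Chn E} {k : ℕ} {w₀ : E → V₀} {w : E → V} {w' : E → V'}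

/-- pairs of points -/
def inv1p (R₀ : ChRep F c k w₀) (R : ChRep F c k w) : Set ((Fin k → F) × (Fin k → F)) :=
  {z | ∃ l, l < c.n ∧ ∃ x ∈ c.X l, (R₀.p x, R.p x) = z}

/-- pairs of functionals -/
def inv1f (R₀ : ChRep F c k w₀) (R : ChRep F c k w) :
    Set (((Fin k → F) →ₗ[F] F) × ((Fin k → F) →ₗ[F] F)) :=
  {z | ∃ l, l < c.n ∧ ∃ y ∈ c.Y l, (R₀.ph y, R.ph y) = z}

/-- the position of the vectors of `A 0` -/
def inv1a (R : ChRep F c k w) : Set ((c.A 0 → F) × (Fin k → F)) :=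
  {z | ∑ e : c.A 0, z.1 e • w (e : E) = R.th 0 z.2}

/-- the position of the vectors outside `A n` -/
def inv1b (R : ChRep F c k w) : Set ((((c.A c.n)ᶜ : Finset E) → F) × (Fin k → F)) :=
  {z | ∑ e : ((c.A c.n)ᶜ : Finset E), z.1 e • w (e : E) = R.th c.n z.2}

theorem sameEnds_of_inv {R : ChRep F c k w} {R' : ChRep F c k w'} (ha : inv1a R = inv1a R')
    (hb : inv1b R = inv1b R') : SameEnds R R' := by
  constructor
  · intro b g
    have h1 : ((fun e : c.A 0 => b (e : E)), g) ∈ inv1a R ↔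
        ((fun e : c.A 0 => b (e : E)), g) ∈ inv1a R' := by rw [ha]
    have h2 : ∑ e : c.A 0, b (e : E) • w (e : E) = R.th 0 g ↔
        ∑ e : c.A 0, b (e : E) • w' (e : E) = R'.th 0 g := h1
    rw [Finset.sum_coe_sort (c.A 0) (fun e => b e • w e),
      Finset.sum_coe_sort (c.A 0) (fun e => b e • w' e)] at h2
    exact h2
  · intro b g
    have h1 : ((fun e : ((c.A c.n)ᶜ : Finset E) => b (e : E)), g) ∈ inv1b R ↔
        ((fun e : ((c.A c.n)ᶜ : Finset E) => b (e : E)), g) ∈ inv1b R' := by rw [hb]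
    have h2 : ∑ e : ((c.A c.n)ᶜ : Finset E), b (e : E) • w (e : E) = R.th c.n g ↔
        ∑ e : ((c.A c.n)ᶜ : Finset E), b (e : E) • w' (e : E) = R'.th c.n g := h1
    rw [Finset.sum_coe_sort ((c.A c.n)ᶜ) (fun e => b e • w e),
      Finset.sum_coe_sort ((c.A c.n)ᶜ) (fun e => b e • w' e)] at h2
    exact h2

private theorem ChnP3_mono (c : Chn E) {l m : ℕ} (h : l ≤ m) (hm : m ≤ c.n) :
    c.A l ⊆ c.A m := by
  induction m, h using Nat.le_induction with
  | base => exact Finset.Subset.refl _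
  | succ m hlm ih => exact (ih (by omega)).trans (c.mono m (by omega))

private theorem ChnP3_eq (c : Chn E) {l m : ℕ} (hl : l < c.n) (hm : m < c.n) {e : E}
    (h : e ∈ c.A (l + 1) \ c.A l) (h' : e ∈ c.A (m + 1) \ c.A m) : l = m := by
  rw [Finset.mem_sdiff] at h h'
  rcases lt_trichotomy l m with h1 | h1 | h1
  · exact absurd (ChnP3_mono c (Nat.succ_le_of_lt h1) hm.le h.1) h'.2
  · exact h1
  · exact absurd (ChnP3_mono c (Nat.succ_le_of_lt h1) hl.le h'.1) h.2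

private theorem ChnP3_u [FiniteDimensional F V₀] [FiniteDimensional F V]
    (hw : SameR F w₀ w) (R₀ : ChRep F c k w₀) (R : ChRep F c k w)
    (R' : ChRep F c k w') (hp : inv1p R₀ R = inv1p R₀ R') (hf : inv1f R₀ R = inv1f R₀ R')
    (e : E) : ∃ v : F, v ≠ 0 ∧ (∀ l, l < c.n → e ∈ c.X l → R.p e = v • R'.p e) ∧
      (∀ l, l < c.n → e ∈ c.Y l → R.ph e = v⁻¹ • R'.ph e) ∧
      ((e ∈ c.A 0 ∨ e ∉ c.A c.n) → v = 1) := by
  by_cases hX : ∃ l, l < c.n ∧ e ∈ c.X l
  · obtain ⟨l, hl, he⟩ := hX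
    have hz : (R₀.p e, R'.p e) ∈ inv1p R₀ R := by
      rw [hp]
      exact ⟨l, hl, e, he, rfl⟩
    obtain ⟨l1, hl1, x1, hx1, h1⟩ := hz
    have h2 : R₀.p x1 = R₀.p e := congrArg Prod.fst h1
    have h3 : R.p x1 = R'.p e := congrArg Prod.snd h1
    obtain ⟨v, hv, h4⟩ := par_p hw R₀ R hl hl1 he hx1 h2.symm
    have he' := he
    unfold Chn.X at he'
    rw [Finset.mem_sdiff] at he'
    refine ⟨v, hv, fun _ _ _ => ?_, fun m hm hY => ?_, fun h => ?_⟩
    · rw [h4, h3]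
    · exfalso
      have h5 : l = m := ChnP3_eq c hl hm he'.1 (c.sub m hm hY)
      subst h5
      exact he'.2 hY
    · exfalso
      have h6 := Finset.mem_sdiff.1 he'.1
      rcases h with h | h
      · exact h6.2 (ChnP3_mono c (Nat.zero_le l) hl.le h)
      · exact h (ChnP3_mono c (Nat.succ_le_of_lt hl) le_rfl h6.1)
  · by_cases hY : ∃ l, l < c.n ∧ e ∈ c.Y l
    · obtain ⟨l, hl, he⟩ := hY
      have hz : (R₀.ph e, R'.ph e) ∈ inv1f R₀ R := by
        rw [hf]
        exact ⟨l, hl, e, he, rfl⟩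
      obtain ⟨l1, hl1, x1, hx1, h1⟩ := hz
      have h2 : R₀.ph x1 = R₀.ph e := congrArg Prod.fst h1
      have h3 : R.ph x1 = R'.ph e := congrArg Prod.snd h1
      obtain ⟨v, hv, h4⟩ := par_ph hw R₀ R hl hl1 he hx1 h2.symm
      refine ⟨v⁻¹, inv_ne_zero hv, fun m hm hX' => absurd ⟨m, hm, hX'⟩ hX, fun _ _ _ => ?_,
        fun h => ?_⟩
      · rw [inv_inv, h4, h3]
      · exfalso
        have h6 := Finset.mem_sdiff.1 (c.sub l hl he)
        rcases h with h | h
        · exact h6.2 (ChnP3_mono c (Nat.zero_le l) hl.le h)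
        · exact h (ChnP3_mono c (Nat.succ_le_of_lt hl) le_rfl h6.1)
    · exact ⟨1, one_ne_zero, fun m hm hX' => absurd ⟨m, hm, hX'⟩ hX,
        fun m hm hY' => absurd ⟨m, hm, hY'⟩ hY, fun _ => rfl⟩

/-- If `(R₀.p x, R'.p x) ∈ inv1p R₀ R' = inv1p R₀ R`, there is `x₁` with `R₀.p x₁ = R₀.p x`,
`R.p x₁ = R'.p x`; by `par_p` `R.p x` is a nonzero multiple of `R.p x₁ = R'.p x`. Rescale `R'`
with these multiples (the inverses for `Y l`), and with `1` outside the blocks; the ends do not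
change. -/
theorem exists_shared [FiniteDimensional F V₀] [FiniteDimensional F V] [FiniteDimensional F V']
    (hw : SameR F w₀ w) (hw' : SameR F w₀ w') (R₀ : ChRep F c k w₀) (R : ChRep F c k w)
    (R' : ChRep F c k w') (hp : inv1p R₀ R = inv1p R₀ R') (hf : inv1f R₀ R = inv1f R₀ R')
    (ha : inv1a R = inv1a R') (hb : inv1b R = inv1b R') :
    ∃ u : E → F, (∀ e, u e ≠ 0) ∧ ∃ R₁ : ChRep F c k (fun e => u e • w' e),
      Sh R R₁ ∧ SameEnds R R₁ := by
  have _ := hw'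
  choose u hu hX hY h1 using ChnP3_u hw R₀ R R' hp hf
  obtain ⟨R₁, e1, e2, e3, _⟩ := R'.rescale hu
  have hs := sameEnds_of_inv ha hb
  refine ⟨u, hu, R₁, ⟨fun l hl x hx => ?_, fun l hl y hy => ?_⟩, ⟨fun b g => ?_, fun b g => ?_⟩⟩
  · rw [e2, hX x l hl hx]
  · rw [e3, hY y l hl hy]
  · rw [hs.zero b g, e1]
    have h2 : ∑ e ∈ c.A 0, b e • (fun e => u e • w' e) e = ∑ e ∈ c.A 0, b e • w' e := by
      refine Finset.sum_congr rfl fun e he => ?_
      show b e • (u e • w' e) = _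
      rw [h1 e (Or.inl he), one_smul]
    rw [h2]
  · rw [hs.last b g, e1]
    have h2 : ∑ e ∈ (c.A c.n)ᶜ, b e • (fun e => u e • w' e) e =
        ∑ e ∈ (c.A c.n)ᶜ, b e • w' e := by
      refine Finset.sum_congr rfl fun e he => ?_
      show b e • (u e • w' e) = _
      rw [h1 e (Or.inr (Finset.mem_compl.1 he)), one_smul]
    rw [h2]

end Pool.MP_4929df_co.H92
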