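import Pool.Agent.W_4929df_h92.ChnP1
import Pool.Agent.W_4929df_h92.ChnO
import Pool.Agent.W_4929df_h92.ChnH3

/-!
The second invariants and agreement (proofs row 594, section 13).
-/

set_option autoImplicit false

namespace Pool.MP_4929df_co.H92

open Submodule

variable {F : Type} [Field F] {E : Type} [Fintype E] [DecidableEq E] {V V₀ V' : Type}
  [AddCommGroup V₀] [Module F V₀] [AddCommGroup V] [Module F V] [AddCommGroup V'] [Module F V']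
  {c : Chn E} {k : ℕ} {w₀ : E → V₀} {w : E → V} {w' : E → V'}

/-- classes and letters -/
def inv2 (R₀ : ChRep F c k w₀) (R : ChRep F c k w) :
    Set (Cls (Ty F k) 16 × (Fin k → F) × ((Fin k → F) →ₗ[F] F) × F × F) :=
  {z | ∃ l, l < c.n ∧ ∃ x ∈ c.X l, ∃ y ∈ c.Y l,
    (cls c.n R₀.ty 16 l, R₀.p x, R₀.ph y, R₀.a x y, R.a x y) = z}

/-- ratios of letters in blocks with `ph y = 0` -/
def inv3 (R₀ : ChRep F c k w₀) (R : ChRep F c k w) :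
    Set ((Fin k → F) × (Fin k → F) × F × F × F) :=
  {z | ∃ l, l < c.n ∧ ∃ x₁ ∈ c.X l, ∃ x₂ ∈ c.X l, ∃ y ∈ c.Y l, (c.Y l).card ≤ 1 ∧
    R₀.ph y = 0 ∧ (R₀.p x₁, R₀.p x₂, R₀.a x₁ y, R₀.a x₂ y, R.a x₁ y / R.a x₂ y) = z}

/-- ratios of letters in blocks with `p x = 0` -/
def inv4 (R₀ : ChRep F c k w₀) (R : ChRep F c k w) :
    Set (((Fin k → F) →ₗ[F] F) × ((Fin k → F) →ₗ[F] F) × F × F × F) :=
  {z | ∃ l, l < c.n ∧ ∃ x ∈ c.X l, ∃ y₁ ∈ c.Y l, ∃ y₂ ∈ c.Y l, (c.X l).card ≤ 1 ∧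
    R₀.p x = 0 ∧ (R₀.ph y₁, R₀.ph y₂, R₀.a x y₁, R₀.a x y₂, R.a x y₁ / R.a x y₂) = z}

/-- the assumptions of the final comparison -/
structure Fin3 (R₀ : ChRep F c k w₀) (R : ChRep F c k w) (R' : ChRep F c k w') : Prop where
  fd₀ : FiniteDimensional F V₀
  fd : FiniteDimensional F V
  fd' : FiniteDimensional F V'
  h8 : Nat.card F = 8
  hk : 3 ≤ k
  h4 : Four F w₀
  hsm : c.Small
  hw : SameR F w₀ w
  hw' : SameR F w₀ w'
  hs : Sh R₀ R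
  hs' : Sh R₀ R'
  h2 : inv2 R₀ R = inv2 R₀ R'
  h3 : inv3 R₀ R = inv3 R₀ R'
  h5 : inv4 R₀ R = inv4 R₀ R'

variable {R₀ : ChRep F c k w₀} {R : ChRep F c k w} {R' : ChRep F c k w'}

/-- By `h2` there are `x₁, y₁` in a block `l₁` of the same class with the same letters in `R₀` and
`R'.a x₁ y₁ = R.a x y`. If `l₁ ≠ l` use `rigid` for `R₀`, `R'`. If `l₁ = l` and `R₀.a x y ≠ 0`,
then `x₁ = x`, `y₁ = y` by `hsm` and `N3` or `N3'`; if `R₀.a x y = 0` all letters are `0`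
(`SameR.a_iff`). -/
theorem Fin3.agree1 (H : Fin3 R₀ R R') {l : ℕ} (hl : l < c.n) {x y : E} (hx : x ∈ c.X l)
    (hy : y ∈ c.Y l) (hp : R₀.p x ≠ 0) (hph : R₀.ph y ≠ 0) : R.a x y = R'.a x y := by
  haveI := H.fd₀
  haveI := H.fd
  haveI := H.fd'
  have h1 : (cls c.n R₀.ty 16 l, R₀.p x, R₀.ph y, R₀.a x y, R.a x y) ∈ inv2 R₀ R :=
    ⟨l, hl, x, hx, y, hy, rfl⟩
  rw [H.h2] at h1
  obtain ⟨l₁, hl₁, x₁, hx₁, y₁, hy₁, he⟩ := h1
  simp only [Prod.mk.injEq] at he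
  obtain ⟨e1, e2, e3, e4, e5⟩ := he
  rcases lt_trichotomy l l₁ with hlt | heq | hgt
  · have h2 := rigid H.fd₀ H.fd' H.h8 H.hk R₀ R' H.hw' H.hs' H.hsm H.h4 hlt hl₁ e1.symm hx hy hx₁
      hy₁ e2 e3 e4 hp hph
    rw [h2, e5]
  · subst heq
    by_cases ha0 : R₀.a x y = 0
    · rw [(H.hw.a_iff R₀ R hl hx hy).1 ha0, (H.hw'.a_iff R₀ R' hl hx hy).1 ha0]
    rcases H.hsm l hl with hY | hX
    · have hyy : y₁ = y := Finset.card_le_one.1 hY y₁ hy₁ y hy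
      subst hyy
      have hxx : x = x₁ := N3 H.fd₀ H.hk R₀ H.h4 hl hY hy hx hx₁ e2.symm e4.symm
      subst hxx
      exact e5.symm
    · have hxx : x₁ = x := Finset.card_le_one.1 hX x₁ hx₁ x hx
      subst hxx
      have hyy : y = y₁ := N3' H.fd₀ H.hk R₀ H.h4 hl hX hx hy hy₁ e3.symm e4.symm ha0
      subst hyy
      exact e5.symm
  · have h2 := rigid H.fd₀ H.fd' H.h8 H.hk R₀ R' H.hw' H.hs' H.hsm H.h4 hgt hl e1 hx₁ hy₁ hx
      hy e2.symm e3.symm e4.symm (by rw [e2]; exact hp) (by rw [e3]; exact hph)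
    rw [← h2, e5]

end Pool.MP_4929df_co.H92
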