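import Pool.Agent.W_4929df_h92.ChnP4
import Pool.Agent.W_4929df_h92.ChnN3
import Pool.Agent.W_4929df_h92.ChnH2

/-!
Agreement in blocks with `ph y = 0` (proofs row 594, section 13).
-/

set_option autoImplicit false

namespace Pool.MP_4929df_co.H92

open Submodule

variable {F : Type} [Field F] {E : Type} [Fintype E] [DecidableEq E] {V V₀ V' : Type}
  [AddCommGroup V₀] [Module F V₀] [AddCommGroup V] [Module F V] [AddCommGroup V'] [Module F V']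
  {c : Chn E} {k : ℕ} {w₀ : E → V₀} {w : E → V} {w' : E → V'}
  {R₀ : ChRep F c k w₀} {R : ChRep F c k w} {R' : ChRep F c k w'}

private theorem ChnP4b_ratio (H : Fin3 R₀ R R') {l : ℕ} (hl : l < c.n) (hY : (c.Y l).card ≤ 1)
    {y : E} (hy : y ∈ c.Y l) (hph : R₀.ph y = 0) {x₁ x₂ : E} (hx₁ : x₁ ∈ c.X l)
    (hx₂ : x₂ ∈ c.X l) (ha₁ : R₀.a x₁ y ≠ 0) (ha₂ : R₀.a x₂ y ≠ 0) (h0 : R₀.p x₁ ≠ 0)
    (hind : R₀.p x₂ ∉ span F {R₀.p x₁}) :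
    R.a x₁ y * R'.a x₂ y = R'.a x₁ y * R.a x₂ y := by
  haveI := H.fd₀
  haveI := H.fd
  haveI := H.fd'
  have n2 : R.a x₂ y ≠ 0 := fun h => ha₂ ((H.hw.a_iff R₀ R hl hx₂ hy).2 h)
  have h1 : (R₀.p x₁, R₀.p x₂, R₀.a x₁ y, R₀.a x₂ y, R.a x₁ y / R.a x₂ y) ∈ inv3 R₀ R :=
    ⟨l, hl, x₁, hx₁, x₂, hx₂, y, hy, hY, hph, rfl⟩
  rw [H.h3] at h1
  obtain ⟨l₁, hl₁, u₁, hu₁, u₂, hu₂, v, hv, hcv, hphv, he⟩ := h1
  simp only [Prod.mk.injEq] at he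
  obtain ⟨e1, e2, e3, e4, e5⟩ := he
  have m2 : R'.a u₂ v ≠ 0 := fun h => ha₂ (by
    rw [← e4]
    exact (H.hw'.a_iff R₀ R' hl₁ hu₂ hv).2 h)
  have key : R'.a x₁ y * R'.a u₂ v = R'.a u₁ v * R'.a x₂ y := by
    rcases lt_trichotomy l l₁ with hlt | heq | hgt
    · exact ratio_two H.hw' H.hs' hlt hl₁ hx₁ hx₂ hy hu₁ hu₂ hv e1 e2 (by rw [hphv, hph]) e3 e4
        (by rw [hph]; rfl) (by rw [hph]; rfl) ha₁ ha₂ h0 hind
    · subst heq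
      have hvy : v = y := Finset.card_le_one.1 hY v hv y hy
      subst hvy
      have e6 : u₁ = x₁ := N3 H.fd₀ H.hk R₀ H.h4 hl hY hy hu₁ hx₁ e1 e3
      have e7 : u₂ = x₂ := N3 H.fd₀ H.hk R₀ H.h4 hl hY hy hu₂ hx₂ e2 e4
      rw [e6, e7]
    · exact (ratio_two H.hw' H.hs' hgt hl hu₁ hu₂ hv hx₁ hx₂ hy e1.symm e2.symm
        (by rw [hphv, hph]) e3.symm e4.symm (by rw [hphv]; rfl) (by rw [hphv]; rfl)
        (by rw [e3]; exact ha₁) (by rw [e4]; exact ha₂) (by rw [e1]; exact h0)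
        (by rw [e1, e2]; exact hind)).symm
  rw [div_eq_div_iff m2 n2] at e5
  refine mul_right_cancel₀ m2 ?_
  calc R.a x₁ y * R'.a x₂ y * R'.a u₂ v = (R.a x₁ y * R'.a u₂ v) * R'.a x₂ y := by ring
    _ = (R'.a u₁ v * R.a x₂ y) * R'.a x₂ y := by rw [e5]
    _ = (R'.a u₁ v * R'.a x₂ y) * R.a x₂ y := by ring
    _ = (R'.a x₁ y * R'.a u₂ v) * R.a x₂ y := by rw [key]
    _ = R'.a x₁ y * R.a x₂ y * R'.a u₂ v := by ring

/-- For active `x₁, x₂` with independent `p` the ratios `a x₁ y / a x₂ y` in `R` and `R'` are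
equal: `h3`, then `ratio_two` for `R₀`, `R'` (different blocks) or `N3` (same block). By `N2` there
is an active element with `p` outside any given line, so the quotient `R.a x y / R'.a x y` is the
same for all active `x` (two active elements with dependent `p` are both independent of a third
one). -/
theorem Fin3.agree2 (H : Fin3 R₀ R R') {l : ℕ} (hl : l < c.n) (hY : (c.Y l).card ≤ 1) {y : E}
    (hy : y ∈ c.Y l) (hph : R₀.ph y = 0) :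
    ∃ s : F, s ≠ 0 ∧ ∀ x ∈ c.X l, R.a x y = s * R'.a x y := by
  haveI := H.fd₀
  haveI := H.fd
  haveI := H.fd'
  obtain ⟨x₀, hx₀, ha₀, hq₀⟩ := N2 H.fd₀ H.hk R₀ H.h4 hl hY hy hph 0
  obtain ⟨x₃, hx₃, ha₃, hq₃⟩ := N2 H.fd₀ H.hk R₀ H.h4 hl hY hy hph (R₀.p x₀)
  have hp : ∀ x ∈ c.X l, R₀.p x ≠ 0 := fun x hx h0 => N1 H.fd₀ H.hk R₀ H.h4 hl hY hx h0
  have nR : ∀ x ∈ c.X l, R₀.a x y ≠ 0 → R.a x y ≠ 0 := fun x hx ha h =>
    ha ((H.hw.a_iff R₀ R hl hx hy).2 h)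
  have nR' : ∀ x ∈ c.X l, R₀.a x y ≠ 0 → R'.a x y ≠ 0 := fun x hx ha h =>
    ha ((H.hw'.a_iff R₀ R' hl hx hy).2 h)
  have r03 := ChnP4b_ratio H hl hY hy hph hx₀ hx₃ ha₀ ha₃ (hp x₀ hx₀) hq₃
  refine ⟨R.a x₀ y / R'.a x₀ y, div_ne_zero (nR x₀ hx₀ ha₀) (nR' x₀ hx₀ ha₀), ?_⟩
  intro x hx
  by_cases ha : R₀.a x y = 0
  · rw [(H.hw.a_iff R₀ R hl hx hy).1 ha, (H.hw'.a_iff R₀ R' hl hx hy).1 ha, mul_zero]
  rw [div_mul_eq_mul_div, eq_div_iff (nR' x₀ hx₀ ha₀)]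
  by_cases hs : R₀.p x ∈ span F {R₀.p x₀}
  · have hs3 : R₀.p x ∉ span F {R₀.p x₃} := by
      intro h3
      obtain ⟨t, ht⟩ := mem_span_singleton.1 hs
      obtain ⟨t', ht'⟩ := mem_span_singleton.1 h3
      have ht0 : t' ≠ 0 := by
        rintro rfl
        rw [zero_smul] at ht'
        exact hp x hx ht'.symm
      refine hq₃ (mem_span_singleton.2 ⟨t'⁻¹ * t, ?_⟩)
      rw [mul_smul, ht, ← ht', smul_smul, inv_mul_cancel₀ ht0, one_smul]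
    have r3 := ChnP4b_ratio H hl hY hy hph hx₃ hx ha₃ ha (hp x₃ hx₃) hs3
    refine mul_right_cancel₀ (nR' x₃ hx₃ ha₃) ?_
    calc R.a x y * R'.a x₀ y * R'.a x₃ y = (R'.a x₃ y * R.a x y) * R'.a x₀ y := by ring
      _ = (R.a x₃ y * R'.a x y) * R'.a x₀ y := by rw [r3]
      _ = (R'.a x₀ y * R.a x₃ y) * R'.a x y := by ring
      _ = (R.a x₀ y * R'.a x₃ y) * R'.a x y := by rw [r03]
      _ = R.a x₀ y * R'.a x y * R'.a x₃ y := by ring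
  · have r0 := ChnP4b_ratio H hl hY hy hph hx₀ hx ha₀ ha (hp x₀ hx₀) hs
    rw [r0]
    ring

end Pool.MP_4929df_co.H92
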