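import Pool.Agent.W_4929df_h92.ChnP4

/-!
Agreement in blocks with `p x = 0` (proofs row 594, section 13).
-/

set_option autoImplicit false

namespace Pool.MP_4929df_co.H92

open Submodule

variable {F : Type} [Field F] {E : Type} [Fintype E] [DecidableEq E] {V V₀ V' : Type}
  [AddCommGroup V₀] [Module F V₀] [AddCommGroup V] [Module F V] [AddCommGroup V'] [Module F V']
  {c : Chn E} {k : ℕ} {w₀ : E → V₀} {w : E → V} {w' : E → V'}
  {R₀ : ChRep F c k w₀} {R : ChRep F c k w} {R' : ChRep F c k w'}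

/-- in a block with one element `x` no `ph y` is zero: otherwise the complement of `{x, y}` has
rank at most `r - 1` -/
private theorem chnP4c_ne {k : ℕ} {w : E → V} (hV : FiniteDimensional F V) (hk : 3 ≤ k)
    (R : ChRep F c k w) (h4 : Four F w) {l : ℕ} (hl : l < c.n) (hX : (c.X l).card ≤ 1) {x : E}
    (hx : x ∈ c.X l) {y : E} (hy : y ∈ c.Y l) : R.ph y ≠ 0 := by
  intro h0
  have hXx : c.X l = {x} := by
    obtain ⟨z, hz⟩ := Finset.card_eq_one.1 (le_antisymm hX (Finset.card_pos.2 ⟨x, hx⟩))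
    rw [hz] at hx ⊢
    rw [Finset.mem_singleton.1 hx]
  have hyl : y ∈ c.A (l + 1) \ c.A l := c.sub l hl hy
  have hxl : x ∈ c.A (l + 1) \ c.A l := c.X_sub hx
  have hxY : x ∉ c.Y l := (Finset.mem_sdiff.1 hx).2
  have hne : x ≠ y := fun h => hxY (h ▸ hy)
  have hP : Disjoint ({x, y} : Finset E) (c.A l) := by
    rw [Finset.disjoint_left]
    intro e he hA
    rw [Finset.mem_insert, Finset.mem_singleton] at he
    rcases he with rfl | rfl
    · exact (Finset.mem_sdiff.1 hxl).2 hA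
    · exact (Finset.mem_sdiff.1 hyl).2 hA
  have h1 := h4.ge hV hk R hl.le hP (s := 2) (by omega) (Finset.card_pair hne).ge
  have h2 : Module.finrank F (Sp F w ({x, y} : Finset E)) ≤ ({x, y} : Finset E).card := by
    classical
    have e1 := finrank_span_finset_le_card (R := F) (({x, y} : Finset E).image w)
    rw [Finset.coe_image] at e1
    exact e1.trans Finset.card_image_le
  rw [Finset.card_pair hne] at h2
  have hl1 : l + 1 ≤ c.n := hl
  obtain ⟨Z, hZ⟩ : ∃ Z : Finset E, Z = c.Y l \ {y} := ⟨_, rfl⟩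
  have hZs : Z ⊆ c.A (l + 1) \ c.A l := by
    rw [hZ]
    intro e he
    exact c.sub l hl (Finset.mem_sdiff.1 he).1
  have hZY : Z \ c.Y l = ∅ := by
    rw [hZ, Finset.sdiff_eq_empty_iff_subset]
    exact Finset.sdiff_subset
  have hS1 : c.A l ∪ Z ⊆ c.A (l + 1) := by
    intro e he
    rcases Finset.mem_union.1 he with h | h
    · exact c.mono l hl h
    · exact (Finset.mem_sdiff.1 (hZs h)).1
  have hT1 : R.T (l + 1) (c.A l ∪ Z) = ⊤ := by
    rw [eq_top_iff]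
    intro g _
    rw [R.mem_T_left hl (Finset.Subset.refl _) hZs g]
    refine ⟨fun _ => 0, ?_, ?_⟩
    · rw [R.T_left hl.le]
      exact Submodule.mem_top
    · intro z hz
      rw [hZY, Finset.sum_empty, add_zero]
      rw [Finset.mem_sdiff] at hz
      have hz2 : z = y := by
        by_contra hcon
        apply hz.2
        rw [hZ]
        exact Finset.mem_sdiff.2 ⟨hz.1, fun h => hcon (Finset.mem_singleton.1 h)⟩
      rw [hz2, h0, LinearMap.zero_apply]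
  have h3 := R.finrank_T hl1 hS1 (le_refl (c.A (l + 1))ᶜ)
  rw [hT1, R.T_right hl1, inf_top_eq, finrank_top, Module.finrank_fin_fun] at h3
  have h5 := R.finrank_succ hl
  have h6 := R.finrank_univ hl1
  have h7 := R.finrank_Y hl (Finset.sdiff_subset (s := c.Y l) (t := ({y} : Finset E)))
  have h8 : (c.Y l \ ({y} : Finset E)).card + 1 = (c.Y l).card := by
    rw [← Finset.card_singleton y]
    exact Finset.card_sdiff_add_card_eq_card (Finset.singleton_subset_iff.2 hy)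
  rw [← hZ] at h7 h8
  have hPc : ({x, y} : Finset E)ᶜ = (c.A l ∪ Z) ∪ (c.A (l + 1))ᶜ := by
    ext e
    simp only [hZ, Finset.mem_compl, Finset.mem_insert, Finset.mem_union, Finset.mem_singleton,
      Finset.mem_sdiff]
    constructor
    · intro h
      by_cases hA1 : e ∈ c.A (l + 1)
      · left
        by_cases hA : e ∈ c.A l
        · exact Or.inl hA
        · right
          by_cases hYe : e ∈ c.Y l
          · exact ⟨hYe, fun h' => h (Or.inr h')⟩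
          · exfalso
            have : e ∈ c.X l := Finset.mem_sdiff.2 ⟨Finset.mem_sdiff.2 ⟨hA1, hA⟩, hYe⟩
            rw [hXx, Finset.mem_singleton] at this
            exact h (Or.inl this)
      · exact Or.inr hA1
    · rintro ((h | h) | h) h''
      · rcases h'' with rfl | rfl
        · exact (Finset.mem_sdiff.1 hxl).2 h
        · exact (Finset.mem_sdiff.1 hyl).2 h
      · rcases h'' with rfl | rfl
        · exact hxY h.1
        · exact h.2 rfl
      · rcases h'' with rfl | rfl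
        · exact h (Finset.mem_sdiff.1 hxl).1
        · exact h (Finset.mem_sdiff.1 hyl).1
  rw [← hPc] at h3
  omega

/-- the ratios of two active elements with independent `ph` -/
private theorem chnP4c_ratio (H : Fin3 R₀ R R') {l : ℕ} (hl : l < c.n) (hX : (c.X l).card ≤ 1)
    {x : E} (hx : x ∈ c.X l) (hp : R₀.p x = 0) {y₁ y₂ : E} (hy₁ : y₁ ∈ c.Y l) (hy₂ : y₂ ∈ c.Y l)
    (ha₁ : R₀.a x y₁ ≠ 0) (ha₂ : R₀.a x y₂ ≠ 0) (h0 : R₀.ph y₁ ≠ 0)
    (hind : R₀.ph y₂ ∉ span F {R₀.ph y₁}) :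
    R.a x y₁ / R.a x y₂ = R'.a x y₁ / R'.a x y₂ := by
  haveI := H.fd₀
  haveI := H.fd'
  have hmem : (R₀.ph y₁, R₀.ph y₂, R₀.a x y₁, R₀.a x y₂, R.a x y₁ / R.a x y₂) ∈ inv4 R₀ R :=
    ⟨l, hl, x, hx, y₁, hy₁, y₂, hy₂, hX, hp, rfl⟩
  rw [H.h5] at hmem
  obtain ⟨m, hm, x', hx', z₁, hz₁, z₂, hz₂, hX', hp', he⟩ := hmem
  simp only [Prod.mk.injEq] at he
  obtain ⟨e1, e2, e3, e4, e5⟩ := he
  rw [← e5]
  have n1' : R₀.a x' z₁ ≠ 0 := by rw [e3]; exact ha₁
  have n2' : R₀.a x' z₂ ≠ 0 := by rw [e4]; exact ha₂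
  have k2 : R'.a x y₂ ≠ 0 := fun h => ha₂ ((H.hw'.a_iff R₀ R' hl hx hy₂).2 h)
  have k2' : R'.a x' z₂ ≠ 0 := fun h => n2' ((H.hw'.a_iff R₀ R' hm hx' hz₂).2 h)
  rcases lt_trichotomy l m with hlm | hlm | hlm
  · have key := coratio_two (R := R₀) (R' := R') H.hw' H.hs' hlm hm hx hy₁ hy₂ hx' hz₁ hz₂
      (hp'.trans hp.symm) e1 e2 e3 e4 (by rw [hp, map_zero]) (by rw [hp, map_zero]) ha₁ ha₂ h0 hind
    rw [div_eq_div_iff k2' k2]
    exact key.symm
  · subst hlm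
    have hxx : x' = x := Finset.card_le_one.1 hX x' hx' x hx
    subst hxx
    have g1 : z₁ = y₁ := N3' H.fd₀ H.hk R₀ H.h4 hl hX hx hz₁ hy₁ e1 e3 n1'
    have g2 : z₂ = y₂ := N3' H.fd₀ H.hk R₀ H.h4 hl hX hx hz₂ hy₂ e2 e4 n2'
    rw [g1, g2]
  · have key := coratio_two (R := R₀) (R' := R') H.hw' H.hs' hlm hl hx' hz₁ hz₂ hx hy₁ hy₂
      (hp.trans hp'.symm) e1.symm e2.symm e3.symm e4.symm (by rw [hp', map_zero])
      (by rw [hp', map_zero]) n1' n2' (by rw [e1]; exact h0) (by rw [e1, e2]; exact hind)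
    rw [div_eq_div_iff k2' k2]
    exact key

/-- Dual to `agree2`, with `coratio_two`, `N3'`, `N2'`. -/
theorem Fin3.agree3 (H : Fin3 R₀ R R') {l : ℕ} (hl : l < c.n) (hX : (c.X l).card ≤ 1) {x : E}
    (hx : x ∈ c.X l) (hp : R₀.p x = 0) :
    ∃ r : F, r ≠ 0 ∧ ∀ y ∈ c.Y l, R.a x y = r * R'.a x y := by
  have hne : ∀ y ∈ c.Y l, R₀.ph y ≠ 0 := fun y hy =>
    chnP4c_ne H.fd₀ H.hk R₀ H.h4 hl hX hx hy
  haveI := H.fd₀
  haveI := H.fd
  haveI := H.fd'
  have ha : ∀ y ∈ c.Y l, R₀.a x y ≠ 0 → R.a x y ≠ 0 := fun y hy h h' =>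
    h ((H.hw.a_iff R₀ R hl hx hy).2 h')
  have ha' : ∀ y ∈ c.Y l, R₀.a x y ≠ 0 → R'.a x y ≠ 0 := fun y hy h h' =>
    h ((H.hw'.a_iff R₀ R' hl hx hy).2 h')
  -- independent active elements have the same quotient
  have hq : ∀ y₁ ∈ c.Y l, ∀ y₂ ∈ c.Y l, R₀.a x y₁ ≠ 0 → R₀.a x y₂ ≠ 0 →
      R₀.ph y₂ ∉ span F {R₀.ph y₁} → R.a x y₂ / R'.a x y₂ = R.a x y₁ / R'.a x y₁ := by
    intro y₁ hy₁ y₂ hy₂ n1 n2 hi
    have h1 := chnP4c_ratio H hl hX hx hp hy₁ hy₂ n1 n2 (hne y₁ hy₁) hi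
    have a1 := ha y₁ hy₁ n1
    have a2 := ha y₂ hy₂ n2
    have b1 := ha' y₁ hy₁ n1
    have b2 := ha' y₂ hy₂ n2
    rw [div_eq_div_iff a2 b2] at h1
    rw [div_eq_div_iff b2 b1]
    linear_combination -h1
  obtain ⟨y₀, hy₀, n0, -⟩ := N2' H.fd₀ H.hk R₀ H.h4 hl hX hx hp 0
  have b0 := ha' y₀ hy₀ n0
  have a0 := ha y₀ hy₀ n0
  refine ⟨R.a x y₀ / R'.a x y₀, div_ne_zero a0 b0, ?_⟩
  intro y hy
  by_cases hy0 : R₀.a x y = 0
  · rw [(H.hw.a_iff R₀ R hl hx hy).1 hy0, (H.hw'.a_iff R₀ R' hl hx hy).1 hy0, mul_zero]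
  have b1 := ha' y hy hy0
  have hfin : R.a x y / R'.a x y = R.a x y₀ / R'.a x y₀ := by
    by_cases hi : R₀.ph y ∈ span F {R₀.ph y₀}
    · obtain ⟨y₃, hy₃, n3, hi3⟩ := N2' H.fd₀ H.hk R₀ H.h4 hl hX hx hp (R₀.ph y₀)
      have h1 := hq y₀ hy₀ y₃ hy₃ n0 n3 hi3
      have hi4 : R₀.ph y₃ ∉ span F {R₀.ph y} := by
        intro h
        exact hi3 (span_le.2 (Set.singleton_subset_iff.2 hi) h)
      have h2 := hq y hy y₃ hy₃ hy0 n3 hi4
      exact h2.symm.trans h1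
    · exact hq y₀ hy₀ y hy n0 hy0 hi
  rw [← hfin, div_mul_cancel₀ _ b1]

end Pool.MP_4929df_co.H92
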