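import Pool.Agent.W_4929df_h92.ChnP2b
import Pool.Agent.W_4929df_h92.ChnP4b
import Pool.Agent.W_4929df_h92.ChnP4c

/-!
Representations with the same invariants are equivalent (proofs row 594, section 13).
-/

set_option autoImplicit false

namespace Pool.MP_4929df_co.H92

open Submodule

variable {F : Type} [Field F] {E : Type} [Fintype E] [DecidableEq E] {V V₀ V' : Type}
  [AddCommGroup V₀] [Module F V₀] [AddCommGroup V] [Module F V] [AddCommGroup V'] [Module F V']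
  {c : Chn E} {k : ℕ} {w₀ : E → V₀} {w : E → V} {w' : E → V'}
  {R₀ : ChRep F c k w₀} {R : ChRep F c k w} {R' : ChRep F c k w'}

/-- `equiv_of_agree`. In block `l`: if some `y ∈ Y l` has `R₀.ph y = 0`, then `(X l).card > 1`
(`N1'`), so `Y l = {y}` (`hsm`), all `R₀.p x ≠ 0` (`N1`): `r = 1`, `s` from `Fin3.agree2`. If some
`x ∈ X l` has `R₀.p x = 0`, then `(Y l).card > 1` (`N1`), so `X l = {x}`, all `R₀.ph y ≠ 0`
(`N1'`): `s = 1`, `r` from `Fin3.agree3`. Otherwise `r = s = 1` by `Fin3.agree1`. -/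
theorem Fin3.equiv (H : Fin3 R₀ R R') (he : SameEnds R R') :
    ∃ g : V' ≃ₗ[F] V, ∃ u : E → F, (∀ e, u e ≠ 0) ∧ ∀ e, w e = u e • g (w' e) := by
  have hs : Sh R R' := ⟨fun l hl x hx => (H.hs.1 l hl x hx).symm.trans (H.hs'.1 l hl x hx),
    fun l hl y hy => (H.hs.2 l hl y hy).symm.trans (H.hs'.2 l hl y hy)⟩
  refine equiv_of_agree R R' hs he fun l hl => ?_
  by_cases hA : ∃ y ∈ c.Y l, R₀.ph y = 0
  · obtain ⟨y₀, hy₀, h0⟩ := hA
    have hX : ¬ (c.X l).card ≤ 1 := fun h => N1' H.fd₀ H.hk R₀ H.h4 hl h hy₀ h0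
    have hY : (c.Y l).card ≤ 1 := (H.hsm l hl).resolve_right hX
    obtain ⟨s, hs0, hs1⟩ := H.agree2 hl hY hy₀ h0
    refine ⟨fun _ => 1, fun _ => s, fun _ _ => one_ne_zero, fun _ _ => hs0, fun _ _ _ => rfl, ?_, ?_⟩
    · intro y hy hph
      have hyy : y = y₀ := Finset.card_le_one.1 hY y hy y₀ hy₀
      rw [hyy, ← H.hs.2 l hl y₀ hy₀, h0] at hph
      exact absurd rfl hph
    · intro x hx y hy
      have hyy : y = y₀ := Finset.card_le_one.1 hY y hy y₀ hy₀
      rw [hyy, one_mul]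
      exact hs1 x hx
  · by_cases hB : ∃ x ∈ c.X l, R₀.p x = 0
    · obtain ⟨x₀, hx₀, h0⟩ := hB
      have hY : ¬ (c.Y l).card ≤ 1 := fun h => N1 H.fd₀ H.hk R₀ H.h4 hl h hx₀ h0
      have hX : (c.X l).card ≤ 1 := (H.hsm l hl).resolve_left hY
      obtain ⟨r, hr0, hr1⟩ := H.agree3 hl hX hx₀ h0
      refine ⟨fun _ => r, fun _ => 1, fun _ _ => hr0, fun _ _ => one_ne_zero, ?_, fun _ _ _ => rfl, ?_⟩
      · intro x hx hp
        have hxx : x = x₀ := Finset.card_le_one.1 hX x hx x₀ hx₀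
        rw [hxx, ← H.hs.1 l hl x₀ hx₀, h0] at hp
        exact absurd rfl hp
      · intro x hx y hy
        have hxx : x = x₀ := Finset.card_le_one.1 hX x hx x₀ hx₀
        rw [hxx, mul_one]
        exact hr1 y hy
    · refine ⟨fun _ => 1, fun _ => 1, fun _ _ => one_ne_zero, fun _ _ => one_ne_zero,
        fun _ _ _ => rfl, fun _ _ _ => rfl, fun x hx y hy => ?_⟩
      rw [one_mul, one_mul]
      exact H.agree1 hl hx hy (fun h => hB ⟨x, hx, h⟩) (fun h => hA ⟨y, hy, h⟩)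

end Pool.MP_4929df_co.H92
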