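import Pool.Agent.W_4929df_h92.Rk

/-!
Transporting sets (proofs row 594, section 1). `r` is a rank function on subsets of the finite
set `E`, `A ⊆ B` two consecutive sets of the chain, `D = B \ A`.
-/

set_option autoImplicit false

namespace Pool.MP_4929df_co.H92

variable {E : Type} [Fintype E] [DecidableEq E] {r : Finset E → ℕ} {A B : Finset E} {k : ℕ}

/-- Rank at most one. If `r B = r A` take `Y = ∅` (`r Aᶜ = r Bᶜ`). Otherwise some `y ∈ B \ A` has
`r (insert y A) = r A + 1` and `r (insert y Bᶜ) = r Bᶜ + 1`: if not, let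
`Z = A ∪ {x ∈ B \ A | r (insert x A) = r A}`; then `r Z = r A` and `r Zᶜ = r Bᶜ` (adding elements
which do not increase the rank one by one), so `r Z + r Zᶜ = r univ + k - 1`. -/
theorem transport_rank (hr : IsRk r) (hAB : A ⊆ B) (hA : r A + r Aᶜ = r Finset.univ + k)
    (hB : r B + r Bᶜ = r Finset.univ + k)
    (hmin : ∀ Z, A ⊆ Z → Z ⊆ B → r Finset.univ + k ≤ r Z + r Zᶜ) (h1 : r B ≤ r A + 1) :
    ∃ Y ⊆ B \ A, Y.card ≤ 1 ∧ r (A ∪ Y) = r A + Y.card ∧ r B = r A + Y.card ∧
      r (Bᶜ ∪ Y) = r Bᶜ + Y.card := by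
  have hm := hr.mono A B hAB
  by_cases h0 : r B = r A
  · refine ⟨∅, Finset.empty_subset _, by simp, ?_, ?_, ?_⟩
    · rw [Finset.union_empty, Finset.card_empty, add_zero]
    · rw [h0, Finset.card_empty, add_zero]
    · rw [Finset.union_empty, Finset.card_empty, add_zero]
  · have h2 : r B = r A + 1 := by omega
    obtain ⟨y, hy, hy1, hy2⟩ : ∃ y ∈ B \ A, r (insert y A) = r A + 1 ∧
        r (insert y Bᶜ) = r Bᶜ + 1 := by
      by_contra hcon
      push Not at hcon
      have h3 : r (A ∪ (B \ A).filter (fun x => r (insert x A) ≤ r A)) ≤ r A :=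
        hr.cl_union fun x hx => (Finset.mem_filter.1 hx).2
      have h4 : r (Bᶜ ∪ (B \ A).filter (fun x => r (insert x Bᶜ) ≤ r Bᶜ)) ≤ r Bᶜ :=
        hr.cl_union fun x hx => (Finset.mem_filter.1 hx).2
      have h5 : (A ∪ (B \ A).filter (fun x => r (insert x A) ≤ r A))ᶜ ⊆
          Bᶜ ∪ (B \ A).filter (fun x => r (insert x Bᶜ) ≤ r Bᶜ) := by
        intro x hx
        rw [Finset.mem_compl, Finset.mem_union, not_or] at hx
        rw [Finset.mem_union, Finset.mem_compl]
        by_cases hxB : x ∈ B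
        · right
          have hxD : x ∈ B \ A := Finset.mem_sdiff.2 ⟨hxB, hx.1⟩
          refine Finset.mem_filter.2 ⟨hxD, ?_⟩
          have h6 : ¬ r (insert x A) ≤ r A := fun h => hx.2 (Finset.mem_filter.2 ⟨hxD, h⟩)
          have h7 := hr.ins x A
          have h8 := hcon x hxD (by omega)
          have h9 := hr.ins x Bᶜ
          omega
        · exact Or.inl hxB
      have h6 := hmin (A ∪ (B \ A).filter (fun x => r (insert x A) ≤ r A))
        Finset.subset_union_left (Finset.union_subset hAB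
          ((Finset.filter_subset _ _).trans Finset.sdiff_subset))
      have h7 := hr.mono _ _ h5
      omega
    refine ⟨{y}, Finset.singleton_subset_iff.2 hy, by simp, ?_, ?_, ?_⟩
    · rw [Finset.union_comm, ← Finset.insert_eq, Finset.card_singleton]; exact hy1
    · rw [Finset.card_singleton]; exact h2
    · rw [Finset.union_comm, ← Finset.insert_eq, Finset.card_singleton]; exact hy2

/-- If all elements outside `C ⊆ D` are coloops of `r` on `A ∪ D`, then
`r (A ∪ C) + |D \ C| ≤ r (A ∪ D)`: induction on `D \ C` with `IsRk.sub`. -/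
theorem coloops (hr : IsRk r) {A D C : Finset E} (hAD : Disjoint A D) (hC : C ⊆ D)
    (h : ∀ x ∈ D \ C, r (A ∪ D.erase x) + 1 ≤ r (A ∪ D)) :
    r (A ∪ C) + (D \ C).card ≤ r (A ∪ D) := by
  have key : ∀ T : Finset E, T ⊆ D \ C → r (A ∪ (D \ T)) + T.card ≤ r (A ∪ D) := by
    intro T
    induction T using Finset.induction_on with
    | empty => intro _; simp
    | insert x T hx ih =>
      intro hT
      have h1 := ih ((Finset.subset_insert x T).trans hT)
      have hxD := hT (Finset.mem_insert_self x T)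
      have h2 := h x hxD
      have h3 := hr.sub4 (A := A ∪ D.erase x) (B := A ∪ (D \ T)) (C := A ∪ D)
        (D := A ∪ (D \ insert x T)) (by
          intro a ha
          simp only [Finset.mem_union, Finset.mem_erase, Finset.mem_sdiff] at ha ⊢
          by_cases hax : a = x
          · subst hax; tauto
          · tauto) (by
          intro a ha
          simp only [Finset.mem_union, Finset.mem_inter, Finset.mem_erase, Finset.mem_sdiff,
            Finset.mem_insert] at ha ⊢
          tauto)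
      rw [Finset.card_insert_of_notMem hx]
      omega
  have h1 := key (D \ C) (Finset.Subset.refl _)
  rwa [Finset.sdiff_sdiff_eq_self hC] at h1

/-- Corank at most one: `|D| ≤ r B - r A + 1`. Also `r Aᶜ - r Bᶜ = r B - r A =: ρ`, `|D| ≥ ρ`. If
`|D| = ρ` take `Y = D`. If `|D| = ρ + 1` let `C₁ = {x ∈ D | r (A ∪ D.erase x) = r B}`,
`C₂ = {x ∈ D | r (Bᶜ ∪ D.erase x) = r Aᶜ}`. If `x ∈ C₁ ∩ C₂` take `Y = D.erase x`. Otherwise
`Z = A ∪ C₁` has `Zᶜ = Bᶜ ∪ (D \ C₁)`, `r Z ≤ r B - |D \ C₁|` and
`r Zᶜ ≤ r Aᶜ - |C₁|` (`coloops`; the elements of `C₁` are not in `C₂`), so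
`r Z + r Zᶜ ≤ r B + r Aᶜ - |D| = r univ + k + ρ - |D| = r univ + k - 1`. -/
theorem transport_corank (hr : IsRk r) (hAB : A ⊆ B) (hA : r A + r Aᶜ = r Finset.univ + k)
    (hB : r B + r Bᶜ = r Finset.univ + k)
    (hmin : ∀ Z, A ⊆ Z → Z ⊆ B → r Finset.univ + k ≤ r Z + r Zᶜ)
    (h1 : (B \ A).card + r A ≤ r B + 1) :
    ∃ Y ⊆ B \ A, ((B \ A) \ Y).card ≤ 1 ∧ r (A ∪ Y) = r A + Y.card ∧ r B = r A + Y.card ∧
      r (Bᶜ ∪ Y) = r Bᶜ + Y.card := by
  have hAD : A ∪ (B \ A) = B := Finset.union_sdiff_of_subset hAB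
  have hBD : Bᶜ ∪ (B \ A) = Aᶜ := by
    ext x
    simp only [Finset.mem_union, Finset.mem_compl, Finset.mem_sdiff]
    constructor
    · rintro (h | h)
      · exact fun h2 => h (hAB h2)
      · exact h.2
    · intro h
      by_cases hB : x ∈ B
      · exact Or.inr ⟨hB, h⟩
      · exact Or.inl hB
  have hge : r B ≤ r A + (B \ A).card := by
    have h2 := hr.add_card A (B \ A)
    rwa [hAD] at h2
  have hm := hr.mono A B hAB
  by_cases h0 : (B \ A).card + r A = r B
  · refine ⟨B \ A, Finset.Subset.refl _, by simp, ?_, by omega, ?_⟩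
    · rw [hAD]; omega
    · rw [hBD]; omega
  by_cases hx : ∃ x ∈ B \ A, r (A ∪ (B \ A).erase x) = r B ∧ r (Bᶜ ∪ (B \ A).erase x) = r Aᶜ
  · obtain ⟨x, hxD, hx1, hx2⟩ := hx
    have h2 : ((B \ A).erase x).card + 1 = (B \ A).card := Finset.card_erase_add_one hxD
    refine ⟨(B \ A).erase x, Finset.erase_subset _ _, ?_, by omega, by omega, by omega⟩
    rw [Finset.card_sdiff_of_subset (Finset.erase_subset _ _)]
    omega
  · exfalso
    push Not at hx
    have hdisj : Disjoint A (B \ A) := Finset.disjoint_sdiff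
    have hdisj' : Disjoint Bᶜ (B \ A) :=
      Finset.disjoint_left.2 fun x hx hx' => Finset.mem_compl.1 hx (Finset.mem_sdiff.1 hx').1
    have hCD : (B \ A).filter (fun x => r (A ∪ (B \ A).erase x) = r B) ⊆ B \ A :=
      Finset.filter_subset _ _
    have h2 := coloops hr hdisj hCD (by
      intro x hx
      rw [hAD]
      have h3 : r (A ∪ (B \ A).erase x) ≠ r B := fun h =>
        (Finset.mem_sdiff.1 hx).2 (Finset.mem_filter.2 ⟨(Finset.mem_sdiff.1 hx).1, h⟩)
      have h4 := hr.mono (A ∪ (B \ A).erase x) B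
        (Finset.union_subset hAB ((Finset.erase_subset _ _).trans Finset.sdiff_subset))
      omega)
    have h3 := coloops hr hdisj' (C := (B \ A) \ (B \ A).filter
        (fun x => r (A ∪ (B \ A).erase x) = r B)) Finset.sdiff_subset (by
      intro x hx'
      rw [Finset.sdiff_sdiff_eq_self hCD, Finset.mem_filter] at hx'
      have h4 := hx x hx'.1 hx'.2
      have h5 := hr.mono (Bᶜ ∪ (B \ A).erase x) (Bᶜ ∪ (B \ A))
        (Finset.union_subset_union_right (Finset.erase_subset _ _))
      rw [hBD] at h5 ⊢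
      omega)
    rw [Finset.sdiff_sdiff_eq_self hCD, hBD] at h3
    rw [hAD] at h2
    have h4 := hmin (A ∪ (B \ A).filter (fun x => r (A ∪ (B \ A).erase x) = r B))
      Finset.subset_union_left (Finset.union_subset hAB (hCD.trans Finset.sdiff_subset))
    have h5 : (A ∪ (B \ A).filter (fun x => r (A ∪ (B \ A).erase x) = r B))ᶜ ⊆
        Bᶜ ∪ ((B \ A) \ (B \ A).filter (fun x => r (A ∪ (B \ A).erase x) = r B)) := by
      intro x hx
      simp only [Finset.mem_compl, Finset.mem_union, Finset.mem_sdiff] at hx ⊢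
      tauto
    have h6 := hr.mono _ _ h5
    have h7 := Finset.card_sdiff_add_card_eq_card hCD
    omega

end Pool.MP_4929df_co.H92
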