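import Pool.Agent.W_4929df_h92.ChnQ2
import Pool.Agent.W_4929df_h92.ChnG1

/-!
Existence of coordinates along a chain (proofs row 594, section 2).
-/

set_option autoImplicit false

namespace Pool.MP_4929df_co.H92

open Submodule

variable {F : Type} [Field F] {E : Type} [Fintype E] [DecidableEq E] {V : Type}
  [AddCommGroup V] [Module F V] {c : Chn E} {k : ℕ} {w : E → V}

private theorem ChnQ3_zero [FiniteDimensional F V] {A : Finset E}
    (hA : Module.finrank F (Sp F w A) + Module.finrank F (Sp F w Aᶜ) =
      Module.finrank F (Sp F w Finset.univ) + k) :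
    ∃ th : (Fin k → F) →ₗ[F] V, Function.Injective th ∧
      LinearMap.range th = Sp F w A ⊓ Sp F w Aᶜ := by
  have h5 := Submodule.finrank_sup_add_finrank_inf_eq (Sp F w A) (Sp F w Aᶜ)
  rw [← Sp_union, Finset.union_compl] at h5
  have h6 : Module.finrank F (Fin k → F) =
      Module.finrank F (Sp F w A ⊓ Sp F w Aᶜ : Submodule F V) := by
    rw [Module.finrank_fin_fun]
    omega
  obtain ⟨e⟩ : Nonempty ((Fin k → F) ≃ₗ[F] (Sp F w A ⊓ Sp F w Aᶜ : Submodule F V)) :=
    ⟨LinearEquiv.ofFinrankEq _ _ h6⟩
  refine ⟨(Sp F w A ⊓ Sp F w Aᶜ : Submodule F V).subtype.comp e.toLinearMap, ?_, ?_⟩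
  · intro a b hab
    exact e.injective (Subtype.ext hab)
  · rw [LinearMap.range_comp, LinearEquiv.range, Submodule.map_top, Submodule.range_subtype]

/-- `th 0` is any injective map onto `Sp (A 0) ⊓ Sp (A 0)ᶜ`, which has dimension `k`. By induction
on `m ≤ n` there are `th : ℕ → _`, `ph : E → _` with `inj`, `rng` for `l ≤ m` and `step` for
`l < m` (`chrep_step`; change `ph` on `Y m` and `th` at `m + 1`, the sets `Y l` are disjoint,
`Chn.block_unique`). `a`, `p` from `chrep_xel` (each `x` is in at most one `X l`), `indL`, `indR`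
from `ind_of_rank`. -/
theorem exists_chrep [FiniteDimensional F V]
    (hA : ∀ l, l ≤ c.n → Module.finrank F (Sp F w (c.A l)) +
      Module.finrank F (Sp F w (c.A l)ᶜ) = Module.finrank F (Sp F w Finset.univ) + k)
    (h1 : ∀ l, l < c.n → Module.finrank F (Sp F w (c.A l ∪ c.Y l)) =
      Module.finrank F (Sp F w (c.A l)) + (c.Y l).card)
    (h2 : ∀ l, l < c.n → Module.finrank F (Sp F w (c.A (l + 1))) =
      Module.finrank F (Sp F w (c.A l)) + (c.Y l).card)
    (h3 : ∀ l, l < c.n → Module.finrank F (Sp F w ((c.A (l + 1))ᶜ ∪ c.Y l)) =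
      Module.finrank F (Sp F w (c.A (l + 1))ᶜ) + (c.Y l).card)
    (htop : Sp F w Finset.univ = ⊤) : Nonempty (ChRep F c k w) := by
  have key : ∀ m, m ≤ c.n → ∃ (th : ℕ → (Fin k → F) →ₗ[F] V) (ph : E → (Fin k → F) →ₗ[F] F),
      (∀ l, l ≤ m → Function.Injective (th l)) ∧
      (∀ l, l ≤ m → LinearMap.range (th l) = Sp F w (c.A l) ⊓ Sp F w (c.A l)ᶜ) ∧
      ∀ l, l < m → ∀ g, th (l + 1) g = th l g - ∑ y ∈ c.Y l, ph y g • w y := by
    intro m
    induction m with
    | zero =>
      intro _
      obtain ⟨t, ht1, ht2⟩ := ChnQ3_zero (hA 0 (Nat.zero_le _))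
      refine ⟨fun _ => t, fun _ => 0, fun l _ => ht1, fun l hl => ?_, fun l hl => absurd hl (by omega)⟩
      have hl0 : l = 0 := by omega
      rw [hl0]
      exact ht2
    | succ m ih =>
      intro hm
      obtain ⟨th, ph, hi, hr, hs⟩ := ih (by omega)
      obtain ⟨ph', t', hs', hi', hr'⟩ := chrep_step (c.mono m (by omega)) (c.sub m (by omega))
        (hA m (by omega)) (hA (m + 1) hm) (h1 m (by omega)) (h2 m (by omega)) (h3 m (by omega))
        (th m) (hi m le_rfl) (hr m le_rfl)
      refine ⟨fun l => if l ≤ m then th l else t', fun y => if y ∈ c.Y m then ph' y else ph y,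
        ?_, ?_, ?_⟩
      · intro l hl
        by_cases h : l ≤ m
        · simp only [h, if_true]
          exact hi l h
        · simp only [h, if_false]
          exact hi'
      · intro l hl
        by_cases h : l ≤ m
        · simp only [h, if_true]
          exact hr l h
        · have hlm : l = m + 1 := by omega
          subst hlm
          simp only [h, if_false]
          exact hr'
      · intro l hl g
        by_cases h : l < m
        · have e1 : l + 1 ≤ m := by omega
          have e2 : l ≤ m := by omega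
          simp only [e1, e2, if_true]
          rw [hs l h g]
          congr 1
          refine Finset.sum_congr rfl fun y hy => ?_
          have e3 : y ∉ c.Y m := by
            intro hy'
            have := c.block_unique (l := l) (m := m) (by omega) (by omega) (c.sub l (by omega) hy)
              (c.sub m (by omega) hy')
            omega
          rw [if_neg e3]
        · have hlm : l = m := by omega
          subst hlm
          have e1 : ¬ l + 1 ≤ l := by omega
          simp only [e1, le_refl, if_true, if_false]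
          rw [hs' g]
          congr 1
          exact Finset.sum_congr rfl fun y hy => by rw [if_pos hy]
  obtain ⟨th, ph, hi, hr, hs⟩ := key c.n le_rfl
  have hx : ∀ x : E, ∃ (a : E → F) (p : Fin k → F), ∀ l, l < c.n → x ∈ c.X l →
      w x = ∑ y ∈ c.Y l, a y • w y + th l p := by
    intro x
    by_cases h : ∃ l, l < c.n ∧ x ∈ c.X l
    · obtain ⟨l, hl, hxl⟩ := h
      obtain ⟨a, p, hap⟩ := chrep_xel (c.mono l hl) (c.sub l hl) (h1 l hl) (h2 l hl) (th l)
        (hr l hl.le) (c.X_sub hxl)
      refine ⟨a, p, fun l' hl' hxl' => ?_⟩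
      have e := c.block_unique hl' hl (c.X_sub hxl') (c.X_sub hxl)
      rw [e]
      exact hap
    · exact ⟨0, 0, fun l hl hxl => absurd ⟨l, hl, hxl⟩ h⟩
  choose a p hap using hx
  exact ⟨{
    th := th
    p := p
    ph := ph
    a := a
    inj := hi
    rng := hr
    step := hs
    xel := fun l hl x hx => hap x l hl hx
    indL := fun l hl b hb => ind_of_rank (h1 l hl) b hb
    indR := fun l hl b hb => ind_of_rank (h3 l hl) b hb
    top := htop }⟩

end Pool.MP_4929df_co.H92
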