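import Pool.Agent.W_4929df_h92.ChnP3

/-!
The first pigeonhole (proofs row 594, section 6).
-/

set_option autoImplicit false

namespace Pool.MP_4929df_co.H92

open Submodule

/-- a large fibre -/
theorem fiber_pigeon {ι T : Type} [Finite ι] [Finite T] (f : ι → T) {N M : ℕ}
    (hM : Nat.card T ≤ M) (h : M * N < Nat.card ι) : ∃ i₀, N < {i | f i = f i₀}.ncard := by
  classical
  obtain ⟨_⟩ := nonempty_fintype ι
  obtain ⟨_⟩ := nonempty_fintype T
  have h1 : (Finset.univ : Finset T).card * N < (Finset.univ : Finset ι).card := by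
    rw [Nat.card_eq_fintype_card] at hM h
    rw [Finset.card_univ, Finset.card_univ]
    exact lt_of_le_of_lt (Nat.mul_le_mul_right N hM) h
  obtain ⟨y, -, hy⟩ := Finset.exists_lt_card_fiber_of_mul_lt_card_of_maps_to
    (f := f) (fun a _ => Finset.mem_univ (f a)) h1
  obtain ⟨i₀, hi₀⟩ := Finset.card_pos.1 (lt_of_le_of_lt (Nat.zero_le N) hy)
  rw [Finset.mem_filter] at hi₀
  refine ⟨i₀, lt_of_lt_of_eq hy ?_⟩
  rw [← Set.ncard_coe_finset]
  congr 1
  ext i
  simp only [Finset.coe_filter, Finset.mem_univ, true_and, Set.mem_ofPred_eq, hi₀.2]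

theorem card_ends {F : Type} [Field F] [Finite F] {E : Type} {k t : ℕ} (S : Finset E)
    (hS : S.card ≤ t) :
    Nat.card (Set ((S → F) × (Fin k → F))) ≤ 2 ^ (Nat.card F ^ t * Nat.card F ^ k) := by
  classical
  obtain ⟨_⟩ := nonempty_fintype F
  have hF : 0 < Fintype.card F := Fintype.card_pos
  rw [Nat.card_eq_fintype_card, Fintype.card_set, Fintype.card_prod, Fintype.card_fun,
    Fintype.card_fun, Fintype.card_fin, Fintype.card_coe, Nat.card_eq_fintype_card]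
  exact Nat.pow_le_pow_right (by norm_num) (Nat.mul_le_mul_right _ (Nat.pow_le_pow_right hF hS))

variable {F : Type} [Field F] [Finite F]

/-- `fiber_pigeon` for the map to `(inv1p R₀ R, inv1f R₀ R, inv1a R, inv1b R)` with `R₀` the
representation of a fixed index, then `exists_shared` for `R` of the index `i₀` and `R'` of
`i`. -/
theorem share_bound (k t : ℕ) : ∃ M : ℕ, ∀ (E : Type) [Fintype E] [DecidableEq E] (V : Type)
    [AddCommGroup V] [Module F V] [FiniteDimensional F V] (c : Chn E) (ι : Type) [Finite ι]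
    (f : ι → E → V) (N : ℕ), (c.A 0).card ≤ t → ((c.A c.n)ᶜ).card ≤ t →
    (∀ i, Nonempty (ChRep F c k (f i))) → (∀ i j, SameR F (f i) (f j)) → M * N < Nat.card ι →
    ∃ (i₀ : ι) (J : Set ι) (R₀ : ChRep F c k (f i₀)), N < J.ncard ∧ ∀ i ∈ J,
      ∃ u : E → F, (∀ e, u e ≠ 0) ∧ ∃ R₁ : ChRep F c k (fun e => u e • f i e),
        Sh R₀ R₁ ∧ SameEnds R₀ R₁ := by
  classical
  have hfin : Finite ((Fin k → F) →ₗ[F] F) := DFunLike.finite _
  refine ⟨Nat.card (Set ((Fin k → F) × (Fin k → F))) *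
    (Nat.card (Set (((Fin k → F) →ₗ[F] F) × ((Fin k → F) →ₗ[F] F))) *
      (2 ^ (Nat.card F ^ t * Nat.card F ^ k) * 2 ^ (Nat.card F ^ t * Nat.card F ^ k))), ?_⟩
  intro E _ _ V _ _ _ c ι _ f N hA hB hR hS hlt
  have hpos : 0 < Nat.card ι := lt_of_le_of_lt (Nat.zero_le _) hlt
  obtain ⟨i₁⟩ := (Nat.card_pos_iff.1 hpos).1
  obtain ⟨R⟩ : Nonempty (∀ i, ChRep F c k (f i)) := ⟨fun i => (hR i).some⟩
  obtain ⟨g, hg⟩ : ∃ g : ι → Set ((Fin k → F) × (Fin k → F)) ×
      (Set (((Fin k → F) →ₗ[F] F) × ((Fin k → F) →ₗ[F] F)) ×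
        (Set ((c.A 0 → F) × (Fin k → F)) ×
          Set ((((c.A c.n)ᶜ : Finset E) → F) × (Fin k → F)))),
      g = fun i => (inv1p (R i₁) (R i), inv1f (R i₁) (R i), inv1a (R i), inv1b (R i)) := ⟨_, rfl⟩
  obtain ⟨i₀, hi₀⟩ := fiber_pigeon g (N := N) (by
    rw [Nat.card_prod, Nat.card_prod, Nat.card_prod]
    exact Nat.mul_le_mul_left _ (Nat.mul_le_mul_left _
      (Nat.mul_le_mul (card_ends (c.A 0) hA) (card_ends ((c.A c.n)ᶜ) hB)))) hlt
  refine ⟨i₀, {i | g i = g i₀}, R i₀, hi₀, fun i hi => ?_⟩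
  have hi' : g i = g i₀ := hi
  rw [hg] at hi'
  simp only [Prod.mk.injEq] at hi'
  exact exists_shared (hS i₁ i₀) (hS i₁ i) (R i₁) (R i₀) (R i) hi'.1.symm hi'.2.1.symm
    hi'.2.2.1.symm hi'.2.2.2.symm

end Pool.MP_4929df_co.H92
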