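import Pool.Agent.W_4929df_h92.ChnR1
import Pool.Agent.W_4929df_h92.ChnP5

/-!
The second pigeonhole (proofs row 594, section 13).
-/

set_option autoImplicit false

namespace Pool.MP_4929df_co.H92

open Submodule

theorem finite_Cls {τ : Type} [Finite τ] (r : ℕ) : Finite (Cls τ r) := by
  induction r with
  | zero => exact (inferInstance : Finite τ)
  | succ r ih =>
    have := ih
    exact (inferInstance : Finite (Cls τ r × Set (Cls τ r) × Set (Cls τ r)))

variable {F : Type} [Field F] [Finite F]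

/-- `K = M * N` with `M` from `share_bound` and `N` the number of triples of sets (types of
`inv2`, `inv3`, `inv4`; finite by `finite_Cls`). In `J` two indices `i ≠ j` have the same
`inv2`, `inv3`, `inv4` with respect to `R₀`; `Fin3.equiv` for their rescaled representations
(`SameEnds` is symmetric and transitive, `SameR` with `Sp_smul`). -/
theorem chain_bound (h8 : Nat.card F = 8) {k : ℕ} (hk : 3 ≤ k) (t : ℕ) :
    ∃ K : ℕ, ∀ (E : Type) [Fintype E] [DecidableEq E] (V : Type)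
    [AddCommGroup V] [Module F V] [FiniteDimensional F V] (c : Chn E) (ι : Type) [Finite ι]
    (f : ι → E → V), (c.A 0).card ≤ t → ((c.A c.n)ᶜ).card ≤ t → c.Small →
    (∀ i, Four F (f i)) → (∀ i, Nonempty (ChRep F c k (f i))) →
    (∀ i j, SameR F (f i) (f j)) → K < Nat.card ι →
    ∃ i j, i ≠ j ∧ ∃ g : V ≃ₗ[F] V, ∃ u : E → F, (∀ e, u e ≠ 0) ∧
      ∀ e, f i e = u e • g (f j e) := by
  obtain ⟨M, hM⟩ := share_bound (F := F) k t
  have hfL : Finite ((Fin k → F) →ₗ[F] F) := DFunLike.finite _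
  have hfT : Finite (Ty F k) :=
    (inferInstance : Finite (Set ((Fin k → F) × ((Fin k → F) →ₗ[F] F) × F) × Set (Fin k → F) ×
      Set ((Fin k → F) →ₗ[F] F) × Prop × Prop))
  have hfC : Finite (Cls (Ty F k) 16) := finite_Cls 16
  refine ⟨M * Nat.card (Set (Cls (Ty F k) 16 × (Fin k → F) × ((Fin k → F) →ₗ[F] F) × F × F) ×
    Set ((Fin k → F) × (Fin k → F) × F × F × F) ×
    Set (((Fin k → F) →ₗ[F] F) × ((Fin k → F) →ₗ[F] F) × F × F × F)), ?_⟩
  intro E _ _ V _ _ _ c ι _ f h0 hn hsm h4 hR hS hK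
  obtain ⟨i₀, J, R₀, hJ, hJ'⟩ := hM E V c ι f _ h0 hn hR hS hK
  choose u hu R₁ hSh hEnd using hJ'
  -- two indices with the same invariants
  obtain ⟨a, b, hab, hinv⟩ : ∃ a b : J, a ≠ b ∧
      (inv2 R₀ (R₁ a a.2), inv3 R₀ (R₁ a a.2), inv4 R₀ (R₁ a a.2)) =
        (inv2 R₀ (R₁ b b.2), inv3 R₀ (R₁ b b.2), inv4 R₀ (R₁ b b.2)) := by
    by_contra hcon
    have hinj : Function.Injective (fun a : J =>
        (inv2 R₀ (R₁ a a.2), inv3 R₀ (R₁ a a.2), inv4 R₀ (R₁ a a.2))) := by
      intro a b h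
      by_contra hab
      exact hcon ⟨a, b, hab, h⟩
    have h1 := Nat.card_le_card_of_injective _ hinj
    rw [Nat.card_coe_set_eq] at h1
    exact absurd hJ (not_lt.2 h1)
  have hSame : ∀ (i : ι) (hi : i ∈ J), SameR F (f i₀) (fun e => u i hi e • f i e) := by
    intro i hi S
    rw [Sp_smul (hu i hi)]
    exact hS i₀ i S
  have H : Fin3 R₀ (R₁ a a.2) (R₁ b b.2) :=
    { fd₀ := inferInstance
      fd := inferInstance
      fd' := inferInstance
      h8 := h8
      hk := hk
      h4 := h4 i₀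
      hsm := hsm
      hw := hSame a a.2
      hw' := hSame b b.2
      hs := hSh a a.2
      hs' := hSh b b.2
      h2 := congrArg Prod.fst hinv
      h3 := congrArg (fun z => z.2.1) hinv
      h5 := congrArg (fun z => z.2.2) hinv }
  have hE : SameEnds (R₁ a a.2) (R₁ b b.2) :=
    ⟨fun x g => ((hEnd a a.2).zero x g).symm.trans ((hEnd b b.2).zero x g),
      fun x g => ((hEnd a a.2).last x g).symm.trans ((hEnd b b.2).last x g)⟩
  obtain ⟨g, v, hv, hg⟩ := H.equiv hE
  refine ⟨a, b, fun h => hab (Subtype.ext h), g, fun e => (u a a.2 e)⁻¹ * (v e * u b b.2 e),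
    fun e => mul_ne_zero (inv_ne_zero (hu a a.2 e)) (mul_ne_zero (hv e) (hu b b.2 e)), fun e => ?_⟩
  have h2 := hg e
  rw [map_smul, smul_smul] at h2
  rw [mul_smul, ← h2, smul_smul, inv_mul_cancel₀ (hu a a.2 e), one_smul]

end Pool.MP_4929df_co.H92
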