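import Pool.Agent.W_4929df_h92.ChnS

/-!
MP_4929df_co. A 4-connected matroid `M` given by vectors over GF(8) and sets
`A 0 ⊆ A 1 ⊆ ... ⊆ A n` of connectivity `k ≥ 3` such that every set between `A 0` and `A n` has
connectivity at least `k`, at most `t` elements are in `A 0` and at most `t` outside `A n`, and every
block `A (l+1) \ A l` raises the rank by at most one or has at most one element more than it
raises the rank. Then `M` has at most `K` inequivalent GF(8)-representations; `K` depends only on
`k` and `t`.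
-/

set_option autoImplicit false

namespace Pool.MP_4929df_co.H92.ChainBoundDraft

/-- the rank of the set `X` in the matroid of the vectors `v` -/
noncomputable def rank {E : Type} {m : ℕ} (v : E → (Fin m → GaloisField 2 3)) (X : Set E) : ℕ :=
  Module.finrank (GaloisField 2 3) (Submodule.span (GaloisField 2 3) (v '' X))

/-- the matroid of the vectors `v` is 4-connected (the hypothesis of the frozen statement) -/
def FourConnected {E : Type} {m : ℕ} (v : E → (Fin m → GaloisField 2 3)) : Prop :=
  ∀ X : Set E, ∀ j : ℕ, j < 4 → j ≤ X.ncard → j ≤ Xᶜ.ncard →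
    Module.finrank (GaloisField 2 3) (Submodule.span (GaloisField 2 3) (Set.range v)) + j ≤
      Module.finrank (GaloisField 2 3) (Submodule.span (GaloisField 2 3) (v '' X)) +
      Module.finrank (GaloisField 2 3) (Submodule.span (GaloisField 2 3) (v '' Xᶜ))

/-- `A 0 ⊆ A 1 ⊆ ... ⊆ A n`; `A 0` and the complement of `A n` have at most `t` elements; all `A l`
have connectivity `k` and the sets between `A 0` and `A n` at least `k` (`width`, `linked`); each
block raises the rank by at most one, or has at most one element more than it raises the rank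
(`small`) -/
structure Chain {E : Type} {m : ℕ} (v : E → (Fin m → GaloisField 2 3)) (k t n : ℕ)
    (A : ℕ → Set E) : Prop where
  mono : ∀ l, l < n → A l ⊆ A (l + 1)
  first : (A 0).ncard ≤ t
  last : (A n)ᶜ.ncard ≤ t
  width : ∀ l, l ≤ n → rank v (A l) + rank v (A l)ᶜ = rank v Set.univ + k
  linked : ∀ B, A 0 ⊆ B → B ⊆ A n → rank v Set.univ + k ≤ rank v B + rank v Bᶜ
  small : ∀ l, l < n → rank v (A (l + 1)) ≤ rank v (A l) + 1 ∨
    (A (l + 1) \ A l).ncard + rank v (A l) ≤ rank v (A (l + 1)) + 1

theorem result (k t : ℕ) (hk : 3 ≤ k) : ∃ K : ℕ, ∀ (E : Type) [Fintype E] (m : ℕ)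
    (v : E → (Fin m → GaloisField 2 3)) (n : ℕ) (A : ℕ → Set E), FourConnected v →
    Chain v k t n A →
    ∀ r : ℕ, ∀ w : Fin (K + 1) → E → (Fin r → GaloisField 2 3),
      (∀ i, Submodule.span (GaloisField 2 3) (Set.range (w i)) = ⊤ ∧
        ∀ S : Set E, (LinearIndependent (GaloisField 2 3) (fun s : S => w i (s : E)) ↔
          LinearIndependent (GaloisField 2 3) (fun s : S => v (s : E)))) →
      ∃ i j : Fin (K + 1), i ≠ j ∧
        ∃ g : (Fin r → GaloisField 2 3) ≃ₗ[GaloisField 2 3] (Fin r → GaloisField 2 3),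
        ∃ c : E → GaloisField 2 3, (∀ e, c e ≠ 0) ∧ ∀ e, w i e = c e • g (w j e) := by
  obtain ⟨K, hK⟩ := Pool.MP_4929df_co.H92.final6 k t hk
  refine ⟨K, ?_⟩
  intro E _ m v n A hv hA
  exact hK E m v n A hv ⟨hA.mono, hA.first, hA.last, hA.width, hA.linked, hA.small⟩

end Pool.MP_4929df_co.H92.ChainBoundDraft
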