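import Pool.Agent.W_4929df_h92.ChnQ1
import Pool.Agent.W_4929df_h92.ChnQ3
import Pool.Agent.W_4929df_h92.ChnR2
import Pool.Agent.W_4929df_h92.Final2

/-!
The chain theorem for representations as in the frozen statement (proofs row 594).
-/

set_option autoImplicit false

namespace Pool.MP_4929df_co.H92

open Submodule

/-- a linked chain of sets of connectivity `k` with small ends and blocks of rank or corank at most
one -/
structure Chain {E : Type} {m : ℕ} (v : E → (Fin m → GaloisField 2 3)) (k t n : ℕ)
    (A : ℕ → Set E) : Prop where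
  mono : ∀ l, l < n → A l ⊆ A (l + 1)
  first : (A 0).ncard ≤ t
  last : (A n)ᶜ.ncard ≤ t
  width : ∀ l, l ≤ n → rank v (A l) + rank v (A l)ᶜ = rank v Set.univ + k
  linked : ∀ B, A 0 ⊆ B → B ⊆ A n → rank v Set.univ + k ≤ rank v B + rank v Bᶜ
  small : ∀ l, l < n → rank v (A (l + 1)) ≤ rank v (A l) + 1 ∨
    (A (l + 1) \ A l).ncard + rank v (A l) ≤ rank v (A (l + 1)) + 1

/-- `c.A l = (A l).toFinset`, `c.Y l` from `transport_rank` or `transport_corank` for the rank
function `fun S => finrank (Sp F v S)` (`IsRk` from `rk_isRk` with `Y = ⊥`); all `w i` have the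
same rank function as `v` (`sameRk_of_indep`); `exists_chrep`, `chain_bound`. -/
theorem final6 (k t : ℕ) (hk : 3 ≤ k) : ∃ K : ℕ, ∀ (E : Type) [Fintype E] (m : ℕ)
    (v : E → (Fin m → GaloisField 2 3)) (n : ℕ) (A : ℕ → Set E), FourConn v →
    Chain v k t n A →
    ∀ r : ℕ, ∀ w : Fin (K + 1) → E → (Fin r → GaloisField 2 3),
      (∀ i, Submodule.span (GaloisField 2 3) (Set.range (w i)) = ⊤ ∧
        ∀ S : Set E, (LinearIndependent (GaloisField 2 3) (fun s : S => w i (s : E)) ↔
          LinearIndependent (GaloisField 2 3) (fun s : S => v (s : E)))) →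
      ∃ i j : Fin (K + 1), i ≠ j ∧
        ∃ g : (Fin r → GaloisField 2 3) ≃ₗ[GaloisField 2 3] (Fin r → GaloisField 2 3),
        ∃ c : E → GaloisField 2 3, (∀ e, c e ≠ 0) ∧ ∀ e, w i e = c e • g (w j e) := by
  classical
  have h8 : Nat.card (GaloisField 2 3) = 8 := by
    rw [GaloisField.card 2 3 (by norm_num)]; norm_num
  haveI hfin : Finite (GaloisField 2 3) := Nat.finite_of_card_ne_zero (by rw [h8]; norm_num)
  obtain ⟨K, hK⟩ := chain_bound (F := GaloisField 2 3) h8 hk t
  refine ⟨K, ?_⟩
  intro E _ m v n A hfour hC r w hw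
  have hmono : ∀ l l', l ≤ l' → l' ≤ n → A l ⊆ A l' := by
    intro l l' hll'
    induction l', hll' using Nat.le_induction with
    | base => intro _; exact subset_rfl
    | succ j _ ih => intro hj; exact (ih (by omega)).trans (hC.mono j (by omega))
  have hrk : ∀ i, ∀ S : Finset E, Module.finrank (GaloisField 2 3) (Sp (GaloisField 2 3) (w i) S) =
      rank v (S : Set E) := fun i S =>
    sameRk_of_indep (F := GaloisField 2 3) (F' := GaloisField 2 3) (w := w i) (w' := v)
      (G := Finset.univ) (fun S _ => (hw i).2 S) S (Finset.subset_univ _)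
  have hspan : ∀ i, Sp (GaloisField 2 3) (w i) Finset.univ = ⊤ := by
    intro i
    unfold Sp
    rw [Finset.coe_univ, Set.image_univ]
    exact (hw i).1
  have hr : IsRk (fun S : Finset E => rank v (S : Set E)) := by
    have h1 := rk_isRk (F := GaloisField 2 3) v (⊥ : Submodule (GaloisField 2 3) (Fin m → GaloisField 2 3))
    have h2 : rk (GaloisField 2 3) v (⊥ : Submodule (GaloisField 2 3) (Fin m → GaloisField 2 3)) =
        fun S : Finset E => rank v (S : Set E) := by
      funext S
      unfold rk
      rw [sup_bot_eq]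
      rfl
    rwa [h2] at h1
  have hw1 : ∀ l, l ≤ n → rank v (((A l).toFinset : Finset E) : Set E) +
      rank v ((((A l).toFinset)ᶜ : Finset E) : Set E) = rank v ((Finset.univ : Finset E) : Set E) + k := by
    intro l hl
    rw [Finset.coe_compl, Set.coe_toFinset, Finset.coe_univ]
    exact hC.width l hl
  have hY : ∀ l, l < n → ∃ Y : Finset E, Y ⊆ (A (l + 1)).toFinset \ (A l).toFinset ∧
      (Y.card ≤ 1 ∨ (((A (l + 1)).toFinset \ (A l).toFinset) \ Y).card ≤ 1) ∧
      rank v (((A l).toFinset ∪ Y : Finset E) : Set E) = rank v (((A l).toFinset : Finset E) : Set E) + Y.card ∧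
      rank v (((A (l + 1)).toFinset : Finset E) : Set E) =
        rank v (((A l).toFinset : Finset E) : Set E) + Y.card ∧
      rank v ((((A (l + 1)).toFinset)ᶜ ∪ Y : Finset E) : Set E) =
        rank v ((((A (l + 1)).toFinset)ᶜ : Finset E) : Set E) + Y.card := by
    intro l hl
    have hAB : (A l).toFinset ⊆ (A (l + 1)).toFinset := Set.toFinset_subset_toFinset.2 (hC.mono l hl)
    have hmin : ∀ Z : Finset E, (A l).toFinset ⊆ Z → Z ⊆ (A (l + 1)).toFinset →
        rank v ((Finset.univ : Finset E) : Set E) + k ≤ rank v (Z : Set E) + rank v ((Zᶜ : Finset E) : Set E) := by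
      intro Z hZ1 hZ2
      rw [Finset.coe_compl, Finset.coe_univ]
      refine hC.linked _ ?_ ?_
      · refine (hmono 0 l (Nat.zero_le _) hl.le).trans fun x hx => ?_
        exact Finset.mem_coe.2 (hZ1 (Set.mem_toFinset.2 hx))
      · intro x hx
        exact hmono (l + 1) n hl le_rfl (Set.mem_toFinset.1 (hZ2 (Finset.mem_coe.1 hx)))
    rcases hC.small l hl with h1 | h1
    · obtain ⟨Y, hY1, hY2, hY3, hY4, hY5⟩ := transport_rank hr hAB (hw1 l hl.le) (hw1 (l + 1) hl) hmin
        (by simp only [Set.coe_toFinset]; exact h1)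
      exact ⟨Y, hY1, Or.inl hY2, hY3, hY4, hY5⟩
    · obtain ⟨Y, hY1, hY2, hY3, hY4, hY5⟩ := transport_corank hr hAB (hw1 l hl.le) (hw1 (l + 1) hl) hmin
        (by
          simp only [Set.coe_toFinset]
          rw [← Set.toFinset_sdiff, ← Set.ncard_eq_toFinset_card']
          exact h1)
      exact ⟨Y, hY1, Or.inr hY2, hY3, hY4, hY5⟩
  choose! Y hY1 hY2 hY3 hY4 hY5 using hY
  obtain ⟨i, j, hij, g, u, hu, h⟩ := hK E (Fin r → GaloisField 2 3)
    { n := n
      A := fun l => (A l).toFinset
      Y := Y
      mono := fun l hl => Set.toFinset_subset_toFinset.2 (hC.mono l hl)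
      sub := hY1 } (Fin (K + 1)) w
    (by
      show ((A 0).toFinset).card ≤ t
      rw [← Set.ncard_eq_toFinset_card']
      exact hC.first)
    (by
      show (((A n).toFinset)ᶜ).card ≤ t
      rw [← Set.toFinset_compl, ← Set.ncard_eq_toFinset_card']
      exact hC.last)
    hY2
    (by
      intro i P j hj h1 h2
      rw [hrk, hrk, hrk, Finset.coe_univ, Finset.coe_compl]
      have h3 := hfour (P : Set E) j hj (by rwa [Set.ncard_coe_finset])
        (by rwa [← Finset.coe_compl, Set.ncard_coe_finset])
      rw [← Set.image_univ] at h3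
      exact h3)
    (by
      intro i
      refine exists_chrep ?_ ?_ ?_ ?_ (hspan i)
      · intro l hl
        rw [hrk, hrk, hrk]
        exact hw1 l hl
      · intro l hl
        rw [hrk, hrk]
        exact hY3 l hl
      · intro l hl
        rw [hrk, hrk]
        exact hY4 l hl
      · intro l hl
        rw [hrk, hrk]
        exact hY5 l hl)
    (fun i j S => (hrk i S).trans (hrk j S).symm)
    (by rw [Nat.card_eq_fintype_card, Fintype.card_fin]; exact Nat.lt_succ_self K)
  exact ⟨i, j, hij, g, u, hu, h⟩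

end Pool.MP_4929df_co.H92
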