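import Pool.Agent.W_4929df_h92.Tutte

/-!
Circuits of rank functions. `Circ r X`: `X` nonempty, `r X + 1 = r ∅ + X.card`, and
`r (X.erase z) = r X` for all `z ∈ X`. For circuits of a contraction use `Circ (ct r A) X`,
`ct r A X = r (X ∪ A)` (by `rfl`), `ct_empty_apply`.
-/

set_option autoImplicit false

namespace Pool.MP_4929df_co.H92

variable {α : Type*} [DecidableEq α] {r : Finset α → ℕ}

/-- every set contains a basis: induction on `A` (`Finset.induction_on`): for `insert x A` take the
basis `I` of `A`; if `r (insert x A) = r A` keep `I`; otherwise `r (insert x A) = r A + 1` and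
`insert x I` works (`r (insert x I) ≥ r I + 1` because otherwise `cl_mono`). -/
theorem exists_basis (hr : IsRk r) (A : Finset α) : ∃ I ⊆ A, r I = r A ∧ r I = r ∅ + I.card := by
  induction A using Finset.induction_on with
  | empty => exact ⟨∅, Finset.Subset.refl _, rfl, by simp⟩
  | insert x A hx ih =>
    obtain ⟨I, hIA, h1, h2⟩ := ih
    have hle := hr.ins x A
    have hmono := hr.mono A (insert x A) (Finset.subset_insert _ _)
    by_cases h : r (insert x A) = r A
    · exact ⟨I, hIA.trans (Finset.subset_insert _ _), by omega, h2⟩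
    · have hxI : x ∉ I := fun hc => hx (hIA hc)
      have h3 := hr.ins x I
      have h4 : ¬ r (insert x I) ≤ r I := fun hc => by
        have := hr.cl_mono hc hIA
        omega
      refine ⟨insert x I, Finset.insert_subset_insert _ hIA, by omega, ?_⟩
      rw [Finset.card_insert_of_notMem hxI]
      omega

/-- subsets of independent sets are independent (`IsRk.le_add_card`, `IsRk.le_card`) -/
theorem indep_subset (hr : IsRk r) {I J : Finset α} (hI : r ∅ + I.card ≤ r I) (hJ : J ⊆ I) :
    r J = r ∅ + J.card := by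
  have h1 : r I ≤ r J + (I \ J).card := hr.le_add_card (by
    intro a ha
    simp only [Finset.mem_union, Finset.mem_sdiff]
    tauto)
  have h2 := hr.le_card J
  have h3 := Finset.card_sdiff_add_card_eq_card hJ
  omega

/-- proper subsets of a circuit are independent: `Y ⊆ X.erase z`, and `X.erase z` is independent -/
theorem Circ.indep (hr : IsRk r) {X Y : Finset α} (hX : Circ r X) (hY : Y ⊆ X) (hne : Y ≠ X) :
    r Y = r ∅ + Y.card := by
  obtain ⟨z, hzX, hzY⟩ : ∃ z ∈ X, z ∉ Y := by
    by_contra hcon
    push Not at hcon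
    exact hne (Finset.Subset.antisymm hY hcon)
  have h1 := hX.2.2 z hzX
  have h2 := hX.2.1
  have h3 := Finset.card_erase_add_one hzX
  refine indep_subset hr (I := X.erase z) (by omega) ?_
  intro a ha
  rw [Finset.mem_erase]
  exact ⟨fun hc => hzY (hc ▸ ha), hY ha⟩

/-- a dependent set contains a circuit: a subset `C` with `r C + 1 ≤ r ∅ + C.card` and `C.card`
minimal; for `z ∈ C` minimality gives `r (C.erase z) ≥ r ∅ + C.card - 1 ≥ r C`. `C` is nonempty. -/
theorem exists_circ (hr : IsRk r) {X : Finset α} (h : r X + 1 ≤ r ∅ + X.card) :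
    ∃ C ⊆ X, Circ r C := by
  induction X using Finset.strongInduction with
  | H X ih =>
    by_cases hz : ∃ z ∈ X, r (X.erase z) + 1 ≤ r ∅ + (X.erase z).card
    · obtain ⟨z, hzX, hz⟩ := hz
      obtain ⟨C, hC, hC'⟩ := ih (X.erase z) (Finset.erase_ssubset hzX) hz
      exact ⟨C, hC.trans (Finset.erase_subset _ _), hC'⟩
    · push Not at hz
      have hne : X.Nonempty := by
        rw [Finset.nonempty_iff_ne_empty]
        rintro rfl
        simp at h
      have hall : ∀ z ∈ X, r (X.erase z) = r X ∧ r X + 1 = r ∅ + X.card := by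
        intro z hzX
        have h1 := hz z hzX
        have h2 := Finset.card_erase_add_one hzX
        have h3 := hr.mono (X.erase z) X (Finset.erase_subset _ _)
        omega
      obtain ⟨z, hzX⟩ := hne
      exact ⟨X, Finset.Subset.refl _, ⟨z, hzX⟩, (hall z hzX).2, fun w hw => (hall w hw).1⟩

/-- circuits are connected: `A, B` nonempty parts, both independent (`Circ.indep`), so
`r A + r B = 2 r ∅ + X.card = r X + r ∅ + 1` -/
theorem Circ.conn (hr : IsRk r) {X : Finset α} (hX : Circ r X) : Conn r X := by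
  intro A B hAB hdis hA hB
  have hA1 : A ⊆ X := hAB ▸ Finset.subset_union_left
  have hB1 : B ⊆ X := hAB ▸ Finset.subset_union_right
  have hA2 : A ≠ X := by
    rintro rfl
    obtain ⟨b, hb⟩ := hB
    exact Finset.disjoint_left.1 hdis (hB1 hb) hb
  have hB2 : B ≠ X := by
    rintro rfl
    obtain ⟨a, ha⟩ := hA
    exact Finset.disjoint_left.1 hdis ha (hA1 ha)
  have h1 := hX.indep hr hA1 hA2
  have h2 := hX.indep hr hB1 hB2
  have h3 : X.card = A.card + B.card := by rw [← hAB, Finset.card_union_of_disjoint hdis]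
  have h4 := hX.2.1
  omega

/-- A circuit `X` of the contraction by `A` extends by elements of `A` to a circuit. Proof: basis
`I` of `A`; `r (X ∪ I) ≤ r (X ∪ A)`, so `r (X ∪ I) + 1 ≤ r ∅ + (X ∪ I).card` and there is a circuit
`C ⊆ X ∪ I`. `C` is not contained in `I` (`indep_subset`), so there is `z ∈ C ∩ X`. Claim `X ⊆ C`:
otherwise `z₀ ∈ X`, `z₀ ∉ C`; `z` is in the closure of `C.erase z ⊆ ((X.erase z₀).erase z) ∪ A`, so
`r (X.erase z₀ ∪ A) ≤ r ((X.erase z₀).erase z ∪ A) ≤ r A + X.card - 2`, but
`r (X.erase z₀ ∪ A) = r (X ∪ A) = r A + X.card - 1`. Take `A₀ = C \ X ⊆ I`. -/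
theorem Circ.lift (hr : IsRk r) {X A : Finset α} (hX : Circ (ct r A) X) (hXA : Disjoint X A) :
    ∃ A₀ ⊆ A, Circ r (X ∪ A₀) := by
  have e1 : r (X ∪ A) + 1 = r A + X.card := by
    have h := hX.2.1
    rw [ct_empty_apply] at h
    exact h
  have e2 : ∀ z ∈ X, r (X.erase z ∪ A) = r (X ∪ A) := hX.2.2
  obtain ⟨I, hIA, hI1, hI2⟩ := exists_basis hr A
  have hXI : Disjoint X I := hXA.mono_right hIA
  have c1 : (X ∪ I).card = X.card + I.card := Finset.card_union_of_disjoint hXI
  have c2 := hr.mono (X ∪ I) (X ∪ A) (Finset.union_subset_union_right hIA)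
  obtain ⟨C, hC, hCc⟩ := exists_circ hr (X := X ∪ I) (by omega)
  have c3 : ¬ C ⊆ I := by
    intro hCI
    have h1 := indep_subset hr (I := I) (J := C) (by omega) hCI
    have h2 := hCc.2.1
    omega
  rw [Finset.not_subset] at c3
  obtain ⟨z, hzC, hzI⟩ := c3
  have hzX : z ∈ X := by
    have := hC hzC
    rw [Finset.mem_union] at this
    exact this.resolve_right hzI
  have hXC : X ⊆ C := by
    intro w hwX
    by_contra hwC
    have hne : z ≠ w := fun hc => hwC (hc ▸ hzC)
    have k1 : r (insert z (C.erase z)) ≤ r (C.erase z) := by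
      rw [Finset.insert_erase hzC, hCc.2.2 z hzC]
    have k2 : C.erase z ⊆ (X.erase w).erase z ∪ A := by
      intro a ha
      rw [Finset.mem_erase] at ha
      have h1 := hC ha.2
      rw [Finset.mem_union] at h1
      rw [Finset.mem_union, Finset.mem_erase, Finset.mem_erase]
      rcases h1 with h1 | h1
      · left
        exact ⟨ha.1, fun hc => hwC (hc ▸ ha.2), h1⟩
      · right
        exact hIA h1
    have k3 := hr.cl_mono k1 k2
    have k4 : insert z ((X.erase w).erase z ∪ A) = X.erase w ∪ A := by
      rw [← Finset.insert_union, Finset.insert_erase]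
      rw [Finset.mem_erase]
      exact ⟨hne, hzX⟩
    rw [k4, e2 w hwX] at k3
    have k5 : r ((X.erase w).erase z ∪ A) ≤ r A + ((X.erase w).erase z).card := by
      rw [Finset.union_comm]
      exact hr.add_card _ _
    have k6 : ((X.erase w).erase z).card + 1 = (X.erase w).card :=
      Finset.card_erase_add_one (Finset.mem_erase.2 ⟨hne, hzX⟩)
    have k7 := Finset.card_erase_add_one hwX
    omega
  refine ⟨C \ X, ?_, ?_⟩
  · intro a ha
    rw [Finset.mem_sdiff] at ha
    have h1 := hC ha.1
    rw [Finset.mem_union] at h1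
    exact hIA (h1.resolve_left ha.2)
  · rw [Finset.union_sdiff_of_subset hXC]
    exact hCc

/-- A circuit with at least two elements of the contraction by `A` is disjoint from `A`: if
`z ∈ X ∩ A` and `w ∈ X`, `w ≠ z`, then `r (X.erase w ∪ A) ≤ r A + (X.card - 2)`
(`X.erase w ∪ A ⊆ A ∪ (X.erase w).erase z`), but it equals `r (X ∪ A) = r A + X.card - 1`. -/
theorem Circ.disj (hr : IsRk r) {X A : Finset α} (hX : Circ (ct r A) X) (h2 : 2 ≤ X.card) :
    Disjoint X A := by
  have e1 : r (X ∪ A) + 1 = r A + X.card := by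
    have h := hX.2.1
    rw [ct_empty_apply] at h
    exact h
  have e2 : ∀ z ∈ X, r (X.erase z ∪ A) = r (X ∪ A) := hX.2.2
  rw [Finset.disjoint_left]
  intro z hzX hzA
  obtain ⟨w, hwX, hne⟩ : ∃ w ∈ X, w ≠ z := Finset.exists_mem_ne (by omega) z
  have k5 : r (X.erase w ∪ A) ≤ r A + ((X.erase w).erase z).card := hr.le_add_card (by
    intro a ha
    rw [Finset.mem_union] at ha
    rw [Finset.mem_union, Finset.mem_erase]
    by_cases haz : a = z
    · left
      rw [haz]
      exact hzA
    · tauto)
  have k6 : ((X.erase w).erase z).card + 1 = (X.erase w).card :=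
    Finset.card_erase_add_one (Finset.mem_erase.2 ⟨hne.symm, hzX⟩)
  have k7 := Finset.card_erase_add_one hwX
  have k8 := e2 w hwX
  omega

end Pool.MP_4929df_co.H92
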