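import Pool.Agent.W_4929df_h92.Tutte

/-!
Linking two skew connected sets in a connected matroid (step 5a of proofs row 546).
-/

set_option autoImplicit false

namespace Pool.MP_4929df_co.H92

variable {α : Type*} [DecidableEq α] {r : Finset α → ℕ}

/-- A connected set `Z` stays connected after contraction of a set `A` skew to it: for a partition
`(X, Y)` of `Z`: `r (X ∪ A) + r ∅ = r X + r A` and the same for `Y` (`≤` by submodularity; `≥`:
`r Z + r A - r ∅ = r (Z ∪ A) ≤ r (X ∪ A) + r Y - r ∅` and `r Z ≤ ...`; precisely submodularity for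
`X ∪ A` and `Z`: `r (Z ∪ A) + r X ≤ r (X ∪ A) + r Z`). -/
theorem conn_ct_of_skew (hr : IsRk r) {Z A : Finset α} (hZ : Conn r Z)
    (hsk : r (Z ∪ A) + r ∅ = r Z + r A) : Conn (ct r A) Z := by
  intro X Y hXY hd hXn hYn
  have h0 := hZ X Y hXY hd hXn hYn
  have h1 := hr.sub4 (A := X ∪ A) (B := Z) (C := Z ∪ A) (D := X)
    (by intro a ha; simp only [Finset.mem_union] at ha ⊢; tauto)
    (by rw [← hXY]; intro a ha; simp only [Finset.mem_union, Finset.mem_inter] at ha ⊢; tauto)
  have h2 := hr.sub4 (A := Y ∪ A) (B := Z) (C := Z ∪ A) (D := Y)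
    (by intro a ha; simp only [Finset.mem_union] at ha ⊢; tauto)
    (by rw [← hXY]; intro a ha; simp only [Finset.mem_union, Finset.mem_inter] at ha ⊢; tauto)
  rw [ct_empty_apply]
  show r (Z ∪ A) + r A + 1 ≤ r (X ∪ A) + r (Y ∪ A)
  omega

/-- Deleting an element `y` in the closure (of the contraction) of a connected subset `Z` keeps
connectivity. Here for `r` itself; it is applied to `ct r A`. If `(P, Q)` is a partition of
`G.erase y`, `P, Q` nonempty, `r P + r Q ≤ r (G.erase y) + r ∅`, then `Z ⊆ P` or `Z ⊆ Q`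
(`Conn.side` with `G.erase y`); say `Z ⊆ P`: `y` is in the closure of `P` (`cl_mono`), so
`(insert y P, Q)` contradicts `Conn r G`. -/
theorem conn_erase_of_cl (hr : IsRk r) {G Z : Finset α} (hG : Conn r G) (hZ : Conn r Z) {y : α}
    (hyG : y ∈ G) (hZG : Z ⊆ G.erase y) (hy : r (insert y Z) ≤ r Z) : Conn r (G.erase y) := by
  intro P Q hPQ hd hPn hQn
  by_contra hcon
  have h1 : r P + r Q ≤ r (G.erase y) + r ∅ := by omega
  have h2 := hr.mono (G.erase y) G (Finset.erase_subset _ _)
  have hyn := erase_disj hPQ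
  rcases hZ.side hr hZG hPQ h1 hd with h | h
  · have h3 := hr.cl_mono hy h
    have h4 := hG (insert y P) Q (by rw [Finset.insert_union, hPQ, Finset.insert_erase hyG])
      (by rw [Finset.disjoint_insert_left]; exact ⟨hyn.2, hd⟩) ⟨y, Finset.mem_insert_self _ _⟩ hQn
    omega
  · have h3 := hr.cl_mono hy h
    have h4 := hG P (insert y Q) (by rw [Finset.union_insert, hPQ, Finset.insert_erase hyG])
      (by rw [Finset.disjoint_insert_right]; exact ⟨hyn.1, hd⟩) hPn ⟨y, Finset.mem_insert_self _ _⟩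
    omega

/-- `Z ∪ D` is not connected if `Z, D` are skew (nonempty, disjoint) and `A` is skew to `Z ∪ D`:
`r (Z ∪ D ∪ A) = r Z + r D + r A - 2 r ∅`, `r (Z ∪ A) ≤ r Z + r A - r ∅`, the same for `D`. -/
theorem not_conn_of_skew (hr : IsRk r) {Z D A : Finset α} (hZn : Z.Nonempty) (hDn : D.Nonempty)
    (hZD : Disjoint Z D) (hsk : r (Z ∪ D) + r ∅ = r Z + r D)
    (hskA : r (Z ∪ D ∪ A) + r ∅ = r (Z ∪ D) + r A) : ¬ Conn (ct r A) (Z ∪ D) := by
  intro hc
  have h1 := hc Z D rfl hZD hZn hDn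
  rw [ct_empty_apply] at h1
  have h2 : r (Z ∪ D ∪ A) + r A + 1 ≤ r (Z ∪ A) + r (D ∪ A) := h1
  have h3 := hr.sub4 (A := Z) (B := A) (C := Z ∪ A) (D := ∅) subset_rfl (Finset.empty_subset _)
  have h4 := hr.sub4 (A := D) (B := A) (C := D ∪ A) (D := ∅) subset_rfl (Finset.empty_subset _)
  omega

/-- The linking lemma, by strong induction on `G'.card` (generalizing `A`, `G'`). If
`G' = Z ∪ D`: `not_conn_of_skew`. Otherwise take `y ∈ G' \ (Z ∪ D)`.
Case 1: `r (insert y (Z ∪ D ∪ A)) = r (Z ∪ D ∪ A)`. If `r (insert y (Z ∪ A)) = r (Z ∪ A) + 1` and the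
same for `D`, then `x = y`. Otherwise, say `r (insert y (Z ∪ A)) ≤ r (Z ∪ A)`:
`Conn (ct r A) (G'.erase y)` by `conn_erase_of_cl` for `ct r A` and `conn_ct_of_skew` (`Z` and `A`
are skew: submodularity from `hsk`, `hskA`), induction.
Case 2: `r (insert y (Z ∪ D ∪ A)) = r (Z ∪ D ∪ A) + 1`. `Conn.tutte` for `ct r A`: either
`Conn (ct r A) (G'.erase y)`, induction; or `Conn (ct (ct r A) {y}) (G'.erase y)`, by `ct_ct`
`Conn (ct r (A ∪ {y})) (G'.erase y)`; `r (A ∪ {y}) = r A + 1` (`cl_mono`), so `A ∪ {y}` is again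
skew to `Z ∪ D`; induction. -/
theorem link_aux (hr : IsRk r) {G Z D : Finset α} (hZc : Conn r Z) (hDc : Conn r D)
    (hZn : Z.Nonempty) (hDn : D.Nonempty) (hZD : Disjoint Z D)
    (hsk : r (Z ∪ D) + r ∅ = r Z + r D) :
    ∀ (n : ℕ) (A G' : Finset α), G'.card = n → A ⊆ G → G' ⊆ G → Z ∪ D ⊆ G' → Disjoint A G' →
      Conn (ct r A) G' → r (Z ∪ D ∪ A) + r ∅ = r (Z ∪ D) + r A →
      ∃ A' ⊆ G, ∃ x ∈ G, Disjoint A' (Z ∪ D) ∧ r (Z ∪ D ∪ A') + r ∅ = r (Z ∪ D) + r A' ∧
        r (insert x (Z ∪ D ∪ A')) = r (Z ∪ D ∪ A') ∧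
        r (insert x (Z ∪ A')) = r (Z ∪ A') + 1 ∧ r (insert x (D ∪ A')) = r (D ∪ A') + 1 := by
  intro n
  induction n using Nat.strong_induction_on with
  | _ n ih =>
  intro A G' hn hAG hG'G hZDG hAG' hconn hskA
  by_cases heq : Z ∪ D = G'
  · subst heq
    exact absurd hconn (not_conn_of_skew hr hZn hDn hZD hsk hskA)
  · obtain ⟨y, hyG', hyZD⟩ : ∃ y ∈ G', y ∉ Z ∪ D := by
      by_contra hcon
      push Not at hcon
      exact heq (Finset.Subset.antisymm hZDG hcon)
    have hsubE : Z ∪ D ⊆ G'.erase y := by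
      intro a ha
      rw [Finset.mem_erase]
      exact ⟨fun h => hyZD (h ▸ ha), hZDG ha⟩
    have hZE : Z ⊆ G'.erase y := Finset.subset_union_left.trans hsubE
    have hDE : D ⊆ G'.erase y := Finset.subset_union_right.trans hsubE
    have hcard : (G'.erase y).card < n := by
      rw [← hn]; exact Finset.card_erase_lt_of_mem hyG'
    have hEG : G'.erase y ⊆ G := (Finset.erase_subset _ _).trans hG'G
    have hAE : Disjoint A (G'.erase y) := hAG'.mono_right (Finset.erase_subset _ _)
    have goE : Conn (ct r A) (G'.erase y) → _ := fun hc =>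
      ih _ hcard A (G'.erase y) rfl hAG hEG hsubE hAE hc hskA
    by_cases hy1 : r (insert y (Z ∪ D ∪ A)) = r (Z ∪ D ∪ A)
    · have skew : ∀ X Y : Finset α, X ∪ Y = Z ∪ D → r (X ∪ A) + r ∅ = r X + r A := by
        intro X Y hXY
        have h1 := hr.sub4 (A := X) (B := A) (C := X ∪ A) (D := ∅) subset_rfl
          (Finset.empty_subset _)
        have h2 := hr.sub4 (A := X ∪ A) (B := Z ∪ D) (C := Z ∪ D ∪ A) (D := X)
          (by intro a ha; simp only [Finset.mem_union] at ha ⊢; tauto)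
          (by rw [← hXY]; intro a ha
              simp only [Finset.mem_union, Finset.mem_inter] at ha ⊢; tauto)
        omega
      by_cases hyZ : r (insert y (Z ∪ A)) ≤ r (Z ∪ A)
      · apply goE
        apply conn_erase_of_cl (hr.ct A) hconn (conn_ct_of_skew hr hZc (skew Z D rfl)) hyG' hZE
        show r (insert y Z ∪ A) ≤ r (Z ∪ A)
        rw [Finset.insert_union]; exact hyZ
      · by_cases hyD : r (insert y (D ∪ A)) ≤ r (D ∪ A)
        · apply goE
          apply conn_erase_of_cl (hr.ct A) hconn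
            (conn_ct_of_skew hr hDc (skew D Z (Finset.union_comm _ _))) hyG' hDE
          show r (insert y D ∪ A) ≤ r (D ∪ A)
          rw [Finset.insert_union]; exact hyD
        · have h1 := hr.ins y (Z ∪ A)
          have h2 := hr.ins y (D ∪ A)
          exact ⟨A, hAG, y, hG'G hyG', hAG'.mono_right hZDG, hskA, hy1, by omega, by omega⟩
    · have hy2 : r (insert y (Z ∪ D ∪ A)) = r (Z ∪ D ∪ A) + 1 := by
        have h1 := hr.ins y (Z ∪ D ∪ A)
        have h2 := hr.mono (Z ∪ D ∪ A) (insert y (Z ∪ D ∪ A)) (Finset.subset_insert _ _)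
        omega
      rcases hconn.tutte (hr.ct A) hyG' with hc | hc
      · exact goE hc
      · rw [ct_ct] at hc
        have hyA : r (A ∪ {y}) = r A + 1 := by
          have e : A ∪ {y} = insert y A := by
            ext a; simp only [Finset.mem_union, Finset.mem_singleton, Finset.mem_insert]; tauto
          rw [e]
          have h1 := hr.ins y A
          by_contra hcon
          have h2 := hr.cl_mono (x := y) (A := A) (B := Z ∪ D ∪ A) (by omega)
            Finset.subset_union_right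
          omega
        refine ih _ hcard (A ∪ {y}) (G'.erase y) rfl ?_ hEG hsubE ?_ hc ?_
        · intro a ha
          rw [Finset.mem_union, Finset.mem_singleton] at ha
          rcases ha with ha | ha
          · exact hAG ha
          · rw [ha]; exact hG'G hyG'
        · rw [Finset.disjoint_union_left]
          exact ⟨hAE, by simp⟩
        · have e : Z ∪ D ∪ (A ∪ {y}) = insert y (Z ∪ D ∪ A) := by
            ext a
            simp only [Finset.mem_union, Finset.mem_singleton, Finset.mem_insert]; tauto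
          rw [e, hyA]
          omega

/-- `link_aux` with `A = ∅`, `G' = G` (`ct r ∅ = r`: `funext`, `Finset.union_empty`) -/
theorem link (hr : IsRk r) {G Z D : Finset α} (hG : Conn r G) (hZ : Z ⊆ G) (hD : D ⊆ G)
    (hZc : Conn r Z) (hDc : Conn r D) (hZn : Z.Nonempty) (hDn : D.Nonempty) (hZD : Disjoint Z D)
    (hsk : r (Z ∪ D) + r ∅ = r Z + r D) :
    ∃ A ⊆ G, ∃ x ∈ G, Disjoint A (Z ∪ D) ∧ r (Z ∪ D ∪ A) + r ∅ = r (Z ∪ D) + r A ∧
      r (insert x (Z ∪ D ∪ A)) = r (Z ∪ D ∪ A) ∧
      r (insert x (Z ∪ A)) = r (Z ∪ A) + 1 ∧ r (insert x (D ∪ A)) = r (D ∪ A) + 1 := by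
  have e : ct r ∅ = r := by
    funext X
    show r (X ∪ ∅) = r X
    rw [Finset.union_empty]
  exact link_aux hr hZc hDc hZn hDn hZD hsk G.card ∅ G rfl (Finset.empty_subset _) subset_rfl
    (Finset.union_subset hZ hD) (Finset.disjoint_empty_left _) (by rw [e]; exact hG)
    (by rw [Finset.union_empty])

end Pool.MP_4929df_co.H92
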