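import Pool.Agent.W_4929df_h92.CircA

/-!
Half of a circuit (step 5b of proofs row 546).
-/

set_option autoImplicit false

namespace Pool.MP_4929df_co.H92

variable {α : Type*} [DecidableEq α] {r : Finset α → ℕ}

/-- a set `Y` with `x` in its closure contains a minimal one -/
theorem exists_min_cl (hr : IsRk r) {Y : Finset α} {x : α} (h : r (insert x Y) ≤ r Y) :
    ∃ P ⊆ Y, r (insert x P) = r P ∧ ∀ z ∈ P, r (insert x (P.erase z)) = r (P.erase z) + 1 := by
  induction Y using Finset.strongInduction with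
  | H Y ih =>
    by_cases hz : ∃ z ∈ Y, r (insert x (Y.erase z)) ≤ r (Y.erase z)
    · obtain ⟨z, hzY, hz⟩ := hz
      obtain ⟨P, hP, hP'⟩ := ih (Y.erase z) (Finset.erase_ssubset hzY) hz
      exact ⟨P, hP.trans (Finset.erase_subset _ _), hP'⟩
    · push Not at hz
      refine ⟨Y, Finset.Subset.refl _, ?_, ?_⟩
      · have := hr.mono Y (insert x Y) (Finset.subset_insert _ _)
        omega
      · intro z hzY
        have h1 := hz z hzY
        have h2 := hr.ins x (Y.erase z)
        omega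

/-- Let `Z` be a circuit, `x` in its closure, `x` not a loop. Then some minimal `P ⊆ Z` with `x` in
its closure has at least half of the elements of `Z`. Proof: for `z₀ ∈ Z`, `x` is in the closure of
`Z.erase z₀`; take `P ⊆ Z.erase z₀` from `exists_min_cl`; `P` is nonempty; `z ∈ P`, and
`P' ⊆ Z.erase z` from `exists_min_cl`. If `P ∪ P' ≠ Z`, then `P ∪ P'` is independent
(`Circ.indep`, `indep_subset`), and submodularity for `insert x P`, `insert x P'` gives
`r (insert x (P ∩ P')) ≤ r ∅ + (P ∩ P').card = r (P ∩ P')`, so `x` is in the closure of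
`P ∩ P' ⊆ P.erase z`, contradiction. So `P ∪ P' = Z` and one of them has `≥ Z.card / 2` elements. -/
theorem half (hr : IsRk r) {Z : Finset α} (hZ : Circ r Z) {x : α} (hx : r (insert x Z) = r Z)
    (hx0 : r {x} = r ∅ + 1) :
    ∃ P ⊆ Z, P ≠ Z ∧ Z.card ≤ 2 * P.card ∧ r (insert x P) = r P ∧
      ∀ z ∈ P, r (insert x (P.erase z)) = r (P.erase z) + 1 := by
  have hcl : ∀ z₀ ∈ Z, r (insert x (Z.erase z₀)) ≤ r (Z.erase z₀) := by
    intro z₀ hz₀
    have h1 := hr.mono (insert x (Z.erase z₀)) (insert x Z)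
      (Finset.insert_subset_insert _ (Finset.erase_subset _ _))
    have h2 := hZ.2.2 z₀ hz₀
    omega
  have hneq : ∀ (w : α) (Q : Finset α), w ∈ Z → Q ⊆ Z.erase w → Q ≠ Z := by
    intro w Q hw hQ hc
    have h1 : w ∈ Z.erase w := hQ (hc ▸ hw)
    exact (Finset.mem_erase.1 h1).1 rfl
  obtain ⟨z₀, hz₀⟩ := hZ.1
  obtain ⟨P, hP1, hP2, hP3⟩ := exists_min_cl hr (hcl z₀ hz₀)
  have hPZ : P ⊆ Z := hP1.trans (Finset.erase_subset _ _)
  have hPne : P.Nonempty := by
    rw [Finset.nonempty_iff_ne_empty]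
    rintro rfl
    have h1 : insert x (∅ : Finset α) = {x} := rfl
    rw [h1] at hP2
    omega
  obtain ⟨z, hzP⟩ := hPne
  obtain ⟨P', hP1', hP2', hP3'⟩ := exists_min_cl hr (hcl z (hPZ hzP))
  have hPZ' : P' ⊆ Z := hP1'.trans (Finset.erase_subset _ _)
  have hzP' : z ∉ P' := fun hc => (Finset.mem_erase.1 (hP1' hc)).1 rfl
  have hn := hneq z₀ P hz₀ hP1
  have hn' := hneq z P' (hPZ hzP) hP1'
  have hun : P ∪ P' = Z := by
    by_contra hne
    have k1 := hZ.indep hr (Finset.union_subset hPZ hPZ') hne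
    have k2 := hZ.indep hr hPZ hn
    have k3 := hZ.indep hr hPZ' hn'
    have hI : P ∩ P' ⊆ Z := Finset.inter_subset_left.trans hPZ
    have hIne : P ∩ P' ≠ Z := fun hc => hzP' ((Finset.mem_inter.1 (hc ▸ hPZ hzP)).2)
    have k4 := hZ.indep hr hI hIne
    have k5 : r (P ∪ P') + r (insert x (P ∩ P')) ≤ r (insert x P) + r (insert x P') := by
      refine hr.sub4 ?_ ?_
      · intro a ha
        simp only [Finset.mem_union, Finset.mem_insert] at ha ⊢
        tauto
      · intro a ha
        simp only [Finset.mem_inter, Finset.mem_insert] at ha ⊢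
        tauto
    have k6 := Finset.card_union_add_card_inter P P'
    have k7 : r (insert x (P ∩ P')) ≤ r (P ∩ P') := by omega
    have k8 : P ∩ P' ⊆ P.erase z := by
      intro a ha
      rw [Finset.mem_inter] at ha
      rw [Finset.mem_erase]
      exact ⟨fun hc => hzP' (hc ▸ ha.2), ha.1⟩
    have k9 := hr.cl_mono k7 k8
    have k10 := hP3 z hzP
    omega
  have hc : Z.card ≤ P.card + P'.card := by
    rw [← hun]
    exact Finset.card_union_le _ _
  by_cases hle : P'.card ≤ P.card
  · exact ⟨P, hPZ, hn, by omega, hP2, hP3⟩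
  · exact ⟨P', hPZ', hn', by omega, hP2', hP3'⟩

end Pool.MP_4929df_co.H92
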