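import Pool.Agent.W_4929df_h92.CircA

/-!
Joining two half circuits (step 5b of proofs row 546).
-/

set_option autoImplicit false

namespace Pool.MP_4929df_co.H92

variable {α : Type*} [DecidableEq α] {r : Finset α → ℕ}

/-- skew sets: `X ⊆ Z`, `Y ⊆ D` -/
theorem skew_sub (hr : IsRk r) {Z D A X Y : Finset α} (hsk : r (Z ∪ D) + r ∅ = r Z + r D)
    (hskA : r (Z ∪ D ∪ A) + r ∅ = r (Z ∪ D) + r A) (hX : X ⊆ Z) (hY : Y ⊆ D) :
    r (X ∪ Y ∪ A) + 2 * r ∅ = r X + r Y + r A := by
  have m : ∀ a, a ∈ X → a ∈ Z := fun a ha => hX ha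
  have m' : ∀ a, a ∈ Y → a ∈ D := fun a ha => hY ha
  have h1 := hr.sub4 (A := X) (B := Y) (C := X ∪ Y) (D := ∅) (Finset.Subset.refl _)
    (Finset.empty_subset _)
  have h2 := hr.sub4 (A := X ∪ Y) (B := A) (C := X ∪ Y ∪ A) (D := ∅) (Finset.Subset.refl _)
    (Finset.empty_subset _)
  have h3 := hr.sub4 (A := X ∪ Y ∪ A) (B := Z ∪ D) (C := Z ∪ D ∪ A) (D := X ∪ Y)
    (by intro a ha; simp only [Finset.mem_union] at ha ⊢; tauto)
    (by
      intro a ha
      have := m a
      have := m' a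
      simp only [Finset.mem_union, Finset.mem_inter] at ha ⊢
      tauto)
  have h4 := hr.sub4 (A := X ∪ Y) (B := Z) (C := Z ∪ Y) (D := X)
    (by intro a ha; simp only [Finset.mem_union] at ha ⊢; tauto)
    (by
      intro a ha
      have := m a
      simp only [Finset.mem_union, Finset.mem_inter] at ha ⊢
      tauto)
  have h5 := hr.sub4 (A := Z ∪ Y) (B := D) (C := Z ∪ D) (D := Y)
    (by intro a ha; simp only [Finset.mem_union] at ha ⊢; tauto)
    (by
      intro a ha
      have := m' a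
      simp only [Finset.mem_union, Finset.mem_inter] at ha ⊢
      tauto)
  omega

/-- `Z` is still a circuit in the contraction by `D ∪ A`: `skew_sub` with `X = Z` and
`X = Z.erase z`, `Y = D`, and with `X = ∅` -/
theorem circ_ct_of_skew (hr : IsRk r) {Z D A : Finset α} (hZ : Circ r Z)
    (hsk : r (Z ∪ D) + r ∅ = r Z + r D)
    (hskA : r (Z ∪ D ∪ A) + r ∅ = r (Z ∪ D) + r A) : Circ (ct r (D ∪ A)) Z := by
  have e : ∀ X : Finset α, X ∪ (D ∪ A) = X ∪ D ∪ A := fun X => (Finset.union_assoc X D A).symm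
  have h1 := skew_sub hr hsk hskA (Finset.Subset.refl Z) (Finset.Subset.refl D)
  have h2 := skew_sub hr hsk hskA (Finset.empty_subset Z) (Finset.Subset.refl D)
  refine ⟨hZ.1, ?_, fun z hz => ?_⟩
  · show r (Z ∪ (D ∪ A)) + 1 = r (∅ ∪ (D ∪ A)) + Z.card
    rw [e, e]
    have h3 := hZ.2.1
    omega
  · show r (Z.erase z ∪ (D ∪ A)) = r (Z ∪ (D ∪ A))
    rw [e, e]
    have h4 := skew_sub hr hsk hskA (Finset.erase_subset z Z) (Finset.Subset.refl D)
    have h5 := hZ.2.2 z hz
    omega

/-- `Z, D` skew circuits, `A` skew to `Z ∪ D`; `P ⊂ Z` minimal with `x` in the closure of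
`P ∪ (D ∪ A)`, `Q ⊂ D` minimal with `x` in the closure of `Q ∪ (Z ∪ A)`. Then `insert x (P ∪ Q)` is
a circuit of the contraction by `A`. Proof: `P, Q` are independent (`Circ.indep`), so by `skew_sub`
`r (P ∪ Q ∪ A) = r A + P.card + Q.card`. Submodularity for `insert x (P ∪ D ∪ A)` and
`insert x (Z ∪ Q ∪ A)`: union contains `insert x (Z ∪ D ∪ A)`, intersection contains
`insert x (P ∪ Q ∪ A)`; with `skew_sub` this gives `r (insert x (P ∪ Q ∪ A)) ≤ r (P ∪ Q ∪ A)`. For
`z ∈ P`: `x` is not in the closure of `P.erase z ∪ (D ∪ A)`, so not in that of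
`(P ∪ Q).erase z ∪ A`; the same for `z ∈ Q`. `x ∉ P ∪ Q ∪ A` because `x` is not in the closure of
`D ∪ A` (`hxD`) and not in that of `Z ∪ A` (`hxZ`). -/
theorem join (hr : IsRk r) {Z D A P Q : Finset α} {x : α} (hZ : Circ r Z) (hD : Circ r D)
    (hZD : Disjoint Z D) (hA : Disjoint A (Z ∪ D)) (hsk : r (Z ∪ D) + r ∅ = r Z + r D)
    (hskA : r (Z ∪ D ∪ A) + r ∅ = r (Z ∪ D) + r A)
    (hxZ : r (insert x (Z ∪ A)) = r (Z ∪ A) + 1) (hxD : r (insert x (D ∪ A)) = r (D ∪ A) + 1)
    (hP : P ⊆ Z) (hPZ : P ≠ Z) (hQ : Q ⊆ D) (hQD : Q ≠ D)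
    (hxP : r (insert x (P ∪ (D ∪ A))) = r (P ∪ (D ∪ A)))
    (hxP' : ∀ z ∈ P, r (insert x (P.erase z ∪ (D ∪ A))) = r (P.erase z ∪ (D ∪ A)) + 1)
    (hxQ : r (insert x (Q ∪ (Z ∪ A))) = r (Q ∪ (Z ∪ A)))
    (hxQ' : ∀ z ∈ Q, r (insert x (Q.erase z ∪ (Z ∪ A))) = r (Q.erase z ∪ (Z ∪ A)) + 1) :
    Circ (ct r A) (insert x (P ∪ Q)) ∧ (insert x (P ∪ Q)).card = P.card + Q.card + 1 ∧
      Disjoint (insert x (P ∪ Q)) A := by
  have eD : ∀ X : Finset α, X ∪ (D ∪ A) = X ∪ D ∪ A := fun X => (Finset.union_assoc X D A).symm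
  have eZ : ∀ X : Finset α, X ∪ (Z ∪ A) = Z ∪ X ∪ A := fun X => by
    rw [← Finset.union_assoc, Finset.union_comm X Z]
  have hPi := hZ.indep hr hP hPZ
  have hQi := hD.indep hr hQ hQD
  have hPQ : Disjoint P Q := Finset.disjoint_of_subset_left hP
    (Finset.disjoint_of_subset_right hQ hZD)
  have cPQ : (P ∪ Q).card = P.card + Q.card := Finset.card_union_of_disjoint hPQ
  have xZ : x ∉ Z ∪ A := by
    intro hc
    rw [Finset.insert_eq_self.2 hc] at hxZ
    omega
  have xD : x ∉ D ∪ A := by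
    intro hc
    rw [Finset.insert_eq_self.2 hc] at hxD
    omega
  rw [Finset.mem_union, not_or] at xZ xD
  have xPQ : x ∉ P ∪ Q := by
    rw [Finset.mem_union, not_or]
    exact ⟨fun hc => xZ.1 (hP hc), fun hc => xD.1 (hQ hc)⟩
  have s1 := skew_sub hr hsk hskA hP hQ
  have s2 := skew_sub hr hsk hskA hP (Finset.Subset.refl D)
  have s3 := skew_sub hr hsk hskA (Finset.Subset.refl Z) hQ
  have s4 := skew_sub hr hsk hskA (Finset.Subset.refl Z) (Finset.Subset.refl D)
  have mP : ∀ a, a ∈ P → a ∈ Z := fun a ha => hP ha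
  have mQ : ∀ a, a ∈ Q → a ∈ D := fun a ha => hQ ha
  have h1 := hr.sub4 (A := insert x (P ∪ (D ∪ A))) (B := insert x (Q ∪ (Z ∪ A)))
    (C := Z ∪ D ∪ A) (D := insert x (P ∪ Q) ∪ A)
    (by intro a ha; simp only [Finset.mem_union, Finset.mem_insert] at ha ⊢; tauto)
    (by
      intro a ha
      have := mP a
      have := mQ a
      simp only [Finset.mem_union, Finset.mem_inter, Finset.mem_insert] at ha ⊢
      tauto)
  rw [hxP, hxQ, eD, eZ] at h1
  have h2 : r (P ∪ Q ∪ A) ≤ r (insert x (P ∪ Q) ∪ A) :=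
    hr.mono _ _ (Finset.union_subset_union_left (Finset.subset_insert _ _))
  have h3 : r (insert x (P ∪ Q) ∪ A) = r (P ∪ Q ∪ A) := by omega
  have hcard : (insert x (P ∪ Q)).card = P.card + Q.card + 1 := by
    rw [Finset.card_insert_of_notMem xPQ, cPQ]
  refine ⟨⟨Finset.insert_nonempty _ _, ?_, ?_⟩, hcard, ?_⟩
  · show r (insert x (P ∪ Q) ∪ A) + 1 = r (∅ ∪ A) + (insert x (P ∪ Q)).card
    rw [Finset.empty_union, hcard]
    omega
  · intro z hz
    show r ((insert x (P ∪ Q)).erase z ∪ A) = r (insert x (P ∪ Q) ∪ A)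
    by_cases hzx : z = x
    · rw [hzx, Finset.erase_insert xPQ, h3]
    have hup : r ((insert x (P ∪ Q)).erase z ∪ A) ≤ r (insert x (P ∪ Q) ∪ A) :=
      hr.mono _ _ (Finset.union_subset_union_left (Finset.erase_subset _ _))
    have hz' : z ∈ P ∪ Q := by
      rw [Finset.mem_insert] at hz
      exact hz.resolve_left hzx
    rw [Finset.mem_union] at hz'
    rcases hz' with hzP | hzQ
    · have hzQ : z ∉ Q := fun hc => Finset.disjoint_left.1 hPQ hzP hc
      have e1 : (insert x (P ∪ Q)).erase z ∪ A = insert x (P.erase z ∪ Q ∪ A) := by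
        ext a
        simp only [Finset.mem_union, Finset.mem_insert, Finset.mem_erase]
        by_cases haz : a = z
        · subst haz
          simp [hzx, hzQ]
        · simp only [ne_eq, haz, not_false_eq_true, true_and]
          tauto
      have s5 := skew_sub hr hsk hskA ((Finset.erase_subset z P).trans hP) hQ
      have h4 := indep_subset hr (I := P) (J := P.erase z) (by omega) (Finset.erase_subset _ _)
      have h5 := Finset.card_erase_add_one hzP
      have h6 : ¬ r (insert x (P.erase z ∪ Q ∪ A)) ≤ r (P.erase z ∪ Q ∪ A) := by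
        intro hc
        have h7 := hr.cl_mono hc (B := P.erase z ∪ (D ∪ A)) (by
          intro a ha
          have := mQ a
          simp only [Finset.mem_union] at ha ⊢
          tauto)
        have h8 := hxP' z hzP
        omega
      rw [e1] at hup ⊢
      omega
    · have hzP : z ∉ P := fun hc => Finset.disjoint_left.1 hPQ hc hzQ
      have e1 : (insert x (P ∪ Q)).erase z ∪ A = insert x (P ∪ Q.erase z ∪ A) := by
        ext a
        simp only [Finset.mem_union, Finset.mem_insert, Finset.mem_erase]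
        by_cases haz : a = z
        · subst haz
          simp [hzx, hzP]
        · simp only [ne_eq, haz, not_false_eq_true, true_and]
          tauto
      have s5 := skew_sub hr hsk hskA hP ((Finset.erase_subset z Q).trans hQ)
      have h4 := indep_subset hr (I := Q) (J := Q.erase z) (by omega) (Finset.erase_subset _ _)
      have h5 := Finset.card_erase_add_one hzQ
      have h6 : ¬ r (insert x (P ∪ Q.erase z ∪ A)) ≤ r (P ∪ Q.erase z ∪ A) := by
        intro hc
        have h7 := hr.cl_mono hc (B := Q.erase z ∪ (Z ∪ A)) (by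
          intro a ha
          have := mP a
          simp only [Finset.mem_union] at ha ⊢
          tauto)
        have h8 := hxQ' z hzQ
        omega
      rw [e1] at hup ⊢
      omega
  · rw [Finset.disjoint_left]
    intro a ha haA
    rw [Finset.mem_insert, Finset.mem_union] at ha
    have hA' := Finset.disjoint_left.1 hA haA
    rw [Finset.mem_union, not_or] at hA'
    rcases ha with ha | ha | ha
    · exact xZ.2 (ha ▸ haA)
    · exact hA'.1 (hP ha)
    · exact hA'.2 (hQ ha)

end Pool.MP_4929df_co.H92
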