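import Pool.Agent.W_4929df_h92.CircB
import Pool.Agent.W_4929df_h92.CircC
import Pool.Agent.W_4929df_h92.CircD

/-!
Contraction of a longest circuit decreases the size of the circuits (step 5 of proofs row 546).
-/

set_option autoImplicit false

namespace Pool.MP_4929df_co.H92

variable {α : Type*} [DecidableEq α] {r : Finset α → ℕ} {G : Finset α}

/-- Suppose `D ⊆ G`, `Circ (ct r Z) D`, `c ≤ D.card`. `Circ.disj` (`2 ≤ c`): `Disjoint D Z`.
`Circ.lift`: `Circ r (D ∪ A₀)` with `A₀ ⊆ Z`, so `D.card + A₀.card ≤ c`, `A₀ = ∅`, `Circ r D`,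
`D.card = c`, and `r (Z ∪ D) + r ∅ = r Z + r D` from the rank formulas of the circuits. `link`
(with `Circ.conn`) gives `A, x`. `half` for `ct r (D ∪ A)` and `Z` (`circ_ct_of_skew`) gives `P`;
`half` for `ct r (Z ∪ A)` and `D` gives `Q` (for `r {x} = r ∅ + 1` of the contraction use
`r (insert x (D ∪ A)) = r (D ∪ A) + 1`). `join` and `Circ.lift` give a circuit of `r` contained in
`G` with at least `P.card + Q.card + 1 > c` elements (`Z.card ≤ 2 * P.card`, `D.card ≤ 2 * Q.card`).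
-/
theorem circ_lt (hr : IsRk r) (hG : Conn r G) {c : ℕ} (hc2 : 2 ≤ c)
    (hc : ∀ X ⊆ G, Circ r X → X.card ≤ c) {Z : Finset α} (hZG : Z ⊆ G) (hZ : Circ r Z)
    (hZc : Z.card = c) : ∀ D ⊆ G, Circ (ct r Z) D → D.card < c := by
  intro D hDG hD
  by_contra hcon
  push Not at hcon
  have hDZ : Disjoint D Z := hD.disj hr (by omega)
  obtain ⟨A₀, hA₀, hDA₀⟩ := hD.lift hr hDZ
  have hDA : Disjoint D A₀ := hDZ.mono_right hA₀
  have hcard : (D ∪ A₀).card = D.card + A₀.card := Finset.card_union_of_disjoint hDA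
  have hle := hc (D ∪ A₀) (Finset.union_subset hDG (hA₀.trans hZG)) hDA₀
  have hA₀0 : A₀ = ∅ := by
    rw [← Finset.card_eq_zero]
    omega
  rw [hA₀0, Finset.union_empty] at hDA₀
  have hDc : D.card = c := by
    have := hc D hDG hDA₀
    omega
  have e1 : r (D ∪ Z) + 1 = r Z + D.card := by
    have h := hD.2.1
    rw [ct_empty_apply] at h
    exact h
  have e2 := hDA₀.2.1
  have hsk' : r (D ∪ Z) + r ∅ = r D + r Z := by omega
  have hsk : r (Z ∪ D) + r ∅ = r Z + r D := by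
    rw [Finset.union_comm Z D]
    omega
  obtain ⟨A, hAG, x, hxG, hAd, hskA, hx1, hxZ, hxD⟩ :=
    link hr hG hZG hDG (hZ.conn hr) (hDA₀.conn hr) hZ.1 hDA₀.1 hDZ.symm hsk
  have hskA' : r (D ∪ Z ∪ A) + r ∅ = r (D ∪ Z) + r A := by
    rw [Finset.union_comm D Z]
    exact hskA
  have u1 : ∀ Y : Finset α, insert x Y ∪ (D ∪ A) = insert x (Y ∪ (D ∪ A)) := fun Y =>
    Finset.insert_union _ _ _
  have u2 : ∀ Y : Finset α, insert x Y ∪ (Z ∪ A) = insert x (Y ∪ (Z ∪ A)) := fun Y =>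
    Finset.insert_union _ _ _
  have v1 : Z ∪ (D ∪ A) = Z ∪ D ∪ A := (Finset.union_assoc _ _ _).symm
  have v2 : D ∪ (Z ∪ A) = Z ∪ D ∪ A := by
    rw [← Finset.union_assoc, Finset.union_comm D Z]
  obtain ⟨P, hPZ, hPne, hPc, hP1, hP2⟩ := half (hr.ct (D ∪ A)) (circ_ct_of_skew hr hZ hsk hskA)
    (x := x) (by
      show r (insert x Z ∪ (D ∪ A)) = r (Z ∪ (D ∪ A))
      rw [u1, v1, hx1]) (by
      rw [ct_empty_apply]
      show r ({x} ∪ (D ∪ A)) = r (D ∪ A) + 1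
      rw [← Finset.insert_eq, hxD])
  obtain ⟨Q, hQD, hQne, hQc, hQ1, hQ2⟩ := half (hr.ct (Z ∪ A))
    (circ_ct_of_skew hr hDA₀ hsk' hskA')
    (x := x) (by
      show r (insert x D ∪ (Z ∪ A)) = r (D ∪ (Z ∪ A))
      rw [u2, v2, hx1]) (by
      rw [ct_empty_apply]
      show r ({x} ∪ (Z ∪ A)) = r (Z ∪ A) + 1
      rw [← Finset.insert_eq, hxZ])
  obtain ⟨j1, j2, j3⟩ := join hr hZ hDA₀ hDZ.symm hAd hsk hskA hxZ hxD hPZ hPne hQD hQne
    (by rw [← u1]; exact hP1)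
    (by intro z hz; rw [← u1]; exact hP2 z hz)
    (by rw [← u2]; exact hQ1)
    (by intro z hz; rw [← u2]; exact hQ2 z hz)
  obtain ⟨A₁, hA₁, hfin⟩ := j1.lift hr j3
  have hsubG : insert x (P ∪ Q) ∪ A₁ ⊆ G := by
    refine Finset.union_subset (Finset.insert_subset hxG (Finset.union_subset
      (hPZ.trans hZG) (hQD.trans hDG))) (hA₁.trans hAG)
  have h1 := hc _ hsubG hfin
  have h2 := Finset.card_le_card (Finset.subset_union_left (s₁ := insert x (P ∪ Q)) (s₂ := A₁))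
  omega

end Pool.MP_4929df_co.H92
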