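import Pool.Agent.W_4929df_h92.DualDefs

/-!
Dual representations: the space `Rel` of linear relations of the vectors `w x` and the vectors
`dualv w x` (coordinate functionals of `Rel`).
-/

set_option autoImplicit false

namespace Pool.MP_4929df_co.H92

open Submodule

variable {F : Type} [Field F] {V : Type} [AddCommGroup V] [Module F V] [FiniteDimensional F V]
  {α : Type} [Fintype α] [DecidableEq α]

/-- `finrank (Rel F w) = card α - finrank (Sp F w univ)` (rank-nullity for
`a ↦ ∑ x, a x • w x`, whose range is `Sp F w univ`) -/
theorem finrank_Rel (w : α → V) :
    Module.finrank F (Rel F w) + Module.finrank F (Sp F w Finset.univ) = Fintype.card α := by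
  have hk : LinearMap.ker (Fintype.linearCombination F w) = Rel F w := by
    ext a
    rw [LinearMap.mem_ker, mem_Rel, Fintype.linearCombination_apply]
  have hr : LinearMap.range (Fintype.linearCombination F w) = Sp F w Finset.univ := by
    rw [Fintype.range_linearCombination, Sp, Finset.coe_univ, Set.image_univ]
  have h := LinearMap.finrank_range_add_finrank_ker (Fintype.linearCombination F w)
  rw [hk, hr, Module.finrank_fintype_fun_eq_card] at h
  omega

/-- the coordinate functionals span the dual space: an element of the dual of a subspace of
`α → F` extends to a functional on `α → F` (`LinearMap.exists_extend`), which is a combination of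
coordinates -/
theorem dualv_span (w : α → V) : Sp F (dualv (F := F) w) Finset.univ = ⊤ := by
  rw [eq_top_iff]
  intro f _
  obtain ⟨g, hg⟩ := LinearMap.exists_extend f
  have hsum : f = ∑ x, g (Pi.single x 1) • dualv (F := F) w x := by
    apply LinearMap.ext
    intro a
    have h1 : f a = g (a : α → F) := by
      rw [← hg]
      rfl
    have h2 : g (a : α → F) = ∑ x, (a : α → F) x • g (Pi.single x 1) := by
      conv_lhs => rw [pi_eq_sum_univ' (a : α → F)]
      rw [map_sum]
      apply Finset.sum_congr rfl
      intro x _
      rw [map_smul]
    rw [h1, h2, LinearMap.sum_apply]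
    apply Finset.sum_congr rfl
    intro x _
    rw [LinearMap.smul_apply, smul_eq_mul, smul_eq_mul, mul_comm]
    rfl
  rw [hsum]
  apply Submodule.sum_mem
  intro x _
  apply Submodule.smul_mem
  apply Submodule.subset_span
  exact ⟨x, by simp, rfl⟩

end Pool.MP_4929df_co.H92
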