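import Pool.Agent.W_4929df_h92.DualA

/-!
Dual representations: the space `Rel` of linear relations of the vectors `w x` and the vectors
`dualv w x` (coordinate functionals of `Rel`).
-/

set_option autoImplicit false

namespace Pool.MP_4929df_co.H92

open Submodule

variable {F : Type} [Field F] {V : Type} [AddCommGroup V] [Module F V] [FiniteDimensional F V]
  {α : Type} [Fintype α] [DecidableEq α]

omit [FiniteDimensional F V] [Fintype α] [DecidableEq α] in
/-- rank-nullity for the vectors of `B` -/
theorem DualA2_ker (w : α → V) (B : Finset α) :
    Module.finrank F (LinearMap.ker (Fintype.linearCombination F (fun z : B => w z))) +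
      Module.finrank F (Sp F w B) = B.card := by
  have h1 : LinearMap.range (Fintype.linearCombination F (fun z : B => w z)) = Sp F w B := by
    rw [Fintype.range_linearCombination]
    unfold Sp
    congr 1
    ext x
    simp only [Set.mem_range, Set.mem_image, Subtype.exists, Finset.mem_coe]
    constructor
    · rintro ⟨z, hz, rfl⟩
      exact ⟨z, hz, rfl⟩
    · rintro ⟨z, hz, rfl⟩
      exact ⟨z, hz, rfl⟩
  have h2 := LinearMap.finrank_range_add_finrank_ker
    (Fintype.linearCombination F (fun z : B => w z))
  rw [Module.finrank_fintype_fun_eq_card, Fintype.card_coe, h1] at h2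
  omega

/-- the relations supported on `univ \ A` -/
def DualA2_K (F : Type) [Field F] {V : Type} [AddCommGroup V] [Module F V] {α : Type} [Fintype α]
    [DecidableEq α] (w : α → V) (A : Finset α) : Submodule F (Rel F w) :=
  (Sp F (dualv (F := F) w) A).dualCoannihilator

omit [FiniteDimensional F V] in
theorem DualA2_mem_K {w : α → V} {A : Finset α} {a : Rel F w} :
    a ∈ DualA2_K F w A ↔ ∀ x ∈ A, (a : α → F) x = 0 := by
  unfold DualA2_K
  rw [Submodule.mem_dualCoannihilator]
  constructor
  · intro h x hx
    exact h (dualv (F := F) w x) (mem_Sp hx)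
  · intro h φ hφ
    have h1 : Sp F (dualv (F := F) w) A ≤ LinearMap.ker (Module.Dual.eval F (Rel F w) a) := by
      rw [Sp_le]
      intro x hx
      rw [LinearMap.mem_ker, Module.Dual.eval_apply]
      exact h x hx
    have h2 := h1 hφ
    rwa [LinearMap.mem_ker, Module.Dual.eval_apply] at h2

/-- restriction of a relation supported on `univ \ A` -/
def DualA2_res (F : Type) [Field F] {V : Type} [AddCommGroup V] [Module F V] {α : Type} [Fintype α]
    [DecidableEq α] (w : α → V) (A : Finset α) :
    DualA2_K F w A →ₗ[F] ((Finset.univ \ A : Finset α) → F) :=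
  (LinearMap.funLeft F F (fun z : (Finset.univ \ A : Finset α) => (z : α))) ∘ₗ
    (Rel F w).subtype ∘ₗ (DualA2_K F w A).subtype

omit [FiniteDimensional F V] in
theorem DualA2_res_apply {w : α → V} {A : Finset α} (a : DualA2_K F w A)
    (z : (Finset.univ \ A : Finset α)) :
    DualA2_res F w A a z = ((a : Rel F w) : α → F) z := rfl

omit [FiniteDimensional F V] in
theorem DualA2_finrank_K (w : α → V) (A : Finset α) :
    Module.finrank F (DualA2_K F w A) + Module.finrank F (Sp F w (Finset.univ \ A)) =
      (Finset.univ \ A).card := by
  rw [← DualA2_ker (F := F) w (Finset.univ \ A)]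
  congr 1
  have hinj : Function.Injective (DualA2_res F w A) := by
    intro a b hab
    apply Subtype.ext
    apply Subtype.ext
    funext x
    by_cases hx : x ∈ A
    · rw [DualA2_mem_K.1 a.2 x hx, DualA2_mem_K.1 b.2 x hx]
    · have h1 := congrFun hab (⟨x, by simp [hx]⟩ : (Finset.univ \ A : Finset α))
      rw [DualA2_res_apply, DualA2_res_apply] at h1
      exact h1
  have hrange : LinearMap.range (DualA2_res F w A) =
      LinearMap.ker (Fintype.linearCombination F
        (fun z : (Finset.univ \ A : Finset α) => w z)) := by
    ext c
    rw [LinearMap.mem_range, LinearMap.mem_ker, Fintype.linearCombination_apply]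
    constructor
    · rintro ⟨a, rfl⟩
      have h1 : ∑ x, ((a : Rel F w) : α → F) x • w x = 0 := mem_Rel.1 (a : Rel F w).2
      have h2 : ∑ x ∈ Finset.univ \ A, ((a : Rel F w) : α → F) x • w x = 0 := by
        rw [← h1]
        apply Finset.sum_subset (Finset.subset_univ _)
        intro x _ hx
        have hxA : x ∈ A := by
          by_contra h
          exact hx (by simp [h])
        rw [DualA2_mem_K.1 a.2 x hxA, zero_smul]
      rw [← h2, ← Finset.sum_coe_sort (Finset.univ \ A)]
      rfl
    · intro hc
      let b : α → F := fun x =>
        if hx : x ∈ (Finset.univ \ A : Finset α) then c ⟨x, hx⟩ else 0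
      have hb1 : ∀ z : (Finset.univ \ A : Finset α), b z = c z := by
        intro z
        show (if hx : (z : α) ∈ (Finset.univ \ A : Finset α) then c ⟨z, hx⟩ else 0) = c z
        rw [dif_pos z.2]
      have hb2 : ∀ x ∉ (Finset.univ \ A : Finset α), b x = 0 := by
        intro x hx
        show (if hx : x ∈ (Finset.univ \ A : Finset α) then c ⟨x, hx⟩ else 0) = 0
        rw [dif_neg hx]
      have hbR : b ∈ Rel F w := by
        rw [mem_Rel]
        have h2 : ∑ x, b x • w x = ∑ x ∈ Finset.univ \ A, b x • w x := by
          symm
          apply Finset.sum_subset (Finset.subset_univ _)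
          intro x _ hx
          rw [hb2 x hx, zero_smul]
        rw [h2, ← Finset.sum_coe_sort (Finset.univ \ A), ← hc]
        refine Finset.sum_congr rfl fun i _ => ?_
        rw [hb1 i]
      have hbK : (⟨b, hbR⟩ : Rel F w) ∈ DualA2_K F w A := by
        rw [DualA2_mem_K]
        intro x hx
        exact hb2 x (by simp [hx])
      refine ⟨⟨⟨b, hbR⟩, hbK⟩, ?_⟩
      funext z
      rw [DualA2_res_apply]
      exact hb1 z
  rw [← hrange]
  exact (LinearMap.finrank_range_of_inj hinj).symm

/-- The rank formula of the dual. `Sp F (dualv w) A` is the annihilator (in the dual of `Rel F w`) of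
`{a ∈ Rel F w | a x = 0 for x ∈ A}`, so its dimension is `finrank (Rel F w)` minus the dimension of
this space; the space is isomorphic to the space of relations supported on `univ \ A`, of dimension
`(univ \ A).card - finrank (Sp F w (univ \ A))`. (Or: the restriction map `Rel F w → (A → F)` has
rank `finrank (Sp F (dualv w) A)` and this kernel.) -/
theorem finrank_dualv (w : α → V) (A : Finset α) :
    Module.finrank F (Sp F (dualv (F := F) w) A) + Module.finrank F (Sp F w Finset.univ) =
      A.card + Module.finrank F (Sp F w (Finset.univ \ A)) := by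
  have h1 := finrank_Rel (F := F) w
  have h2 : Module.finrank F (Sp F (dualv (F := F) w) A) + Module.finrank F (DualA2_K F w A) =
      Module.finrank F (Rel F w) :=
    Subspace.finrank_add_finrank_dualCoannihilator_eq _
  have h3 := DualA2_finrank_K (F := F) w A
  have h4 : A.card + (Finset.univ \ A).card = Fintype.card α := by
    rw [Finset.card_sdiff_of_subset (Finset.subset_univ A), Finset.card_univ]
    have := Finset.card_le_univ A
    omega
  omega

end Pool.MP_4929df_co.H92
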