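import Pool.Agent.W_4929df_h92.DualA

/-!
Relations of the dual representation: row space.
-/

set_option autoImplicit false

namespace Pool.MP_4929df_co.H92

open Submodule

variable {F : Type} [Field F] {V : Type} [AddCommGroup V] [Module F V] [FiniteDimensional F V]
  {V' : Type} [AddCommGroup V'] [Module F V'] [FiniteDimensional F V']
  {α : Type} [Fintype α] [DecidableEq α]

/-- Double annihilator. If `b : α → F` is orthogonal to all relations `a` of `w` supported on `G`
modulo `Sp F w C` (`G` and `C` disjoint), then `b` is given on `G` by a functional that vanishes on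
`Sp F w C`. Proof: in `Q = V ⧸ Sp F w C` with `q x = mkQ (w x)`: the functional
`∑ x ∈ G, a x • q x ↦ ∑ x ∈ G, a x * b x` is well defined on the span of the `q x` and extends to
`Q`; compose with `mkQ`. -/
theorem exists_functional {w : α → V} {G C : Finset α} {b : α → F}
    (h : ∀ a : α → F, ∑ x ∈ G, a x • w x ∈ Sp F w C → ∑ x ∈ G, a x * b x = 0) :
    ∃ φ : Module.Dual F V, (∀ x ∈ G, φ (w x) = b x) ∧ ∀ z ∈ Sp F w C, φ z = 0 := by
  classical
  let T : (α → F) →ₗ[F] (V ⧸ Sp F w C) :=
    ∑ x ∈ G, (LinearMap.proj (R := F) (φ := fun _ : α => F) x).smulRight ((Sp F w C).mkQ (w x))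
  let L : Module.Dual F (α → F) :=
    ∑ x ∈ G, b x • (LinearMap.proj (R := F) (φ := fun _ : α => F) x)
  have hT : ∀ a : α → F, T a = (Sp F w C).mkQ (∑ x ∈ G, a x • w x) := by
    intro a
    simp only [T, LinearMap.sum_apply, LinearMap.smulRight_apply, LinearMap.proj_apply, map_sum,
      map_smul]
  have hL : ∀ a : α → F, L a = ∑ x ∈ G, a x * b x := by
    intro a
    simp only [L, LinearMap.sum_apply, LinearMap.smul_apply, LinearMap.proj_apply, smul_eq_mul]
    exact Finset.sum_congr rfl fun x _ => mul_comm _ _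
  have h1 : L ∈ LinearMap.range T.dualMap := by
    rw [LinearMap.range_dualMap_eq_dualAnnihilator_ker, Submodule.mem_dualAnnihilator]
    intro a ha
    rw [LinearMap.mem_ker, hT] at ha
    rw [hL]
    exact h a ((Submodule.Quotient.mk_eq_zero _).1 ha)
  obtain ⟨ψ, hψ⟩ := h1
  refine ⟨ψ.comp (Sp F w C).mkQ, ?_, ?_⟩
  · intro x hx
    have h2 : ∑ y ∈ G, (Pi.single x (1 : F) : α → F) y • w y = w x := by
      rw [Finset.sum_eq_single x]
      · rw [Pi.single_eq_same, one_smul]
      · intro y _ hy
        rw [Pi.single_eq_of_ne hy, zero_smul]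
      · intro hx'
        exact absurd hx hx'
    have h3 : ∑ y ∈ G, (Pi.single x (1 : F) : α → F) y * b y = b x := by
      rw [Finset.sum_eq_single x]
      · rw [Pi.single_eq_same, one_mul]
      · intro y _ hy
        rw [Pi.single_eq_of_ne hy, zero_mul]
      · intro hx'
        exact absurd hx hx'
    have h4 := LinearMap.congr_fun hψ (Pi.single x (1 : F))
    rw [hL, h3, LinearMap.dualMap_apply, hT, h2] at h4
    exact h4
  · intro z hz
    rw [LinearMap.comp_apply, Submodule.mkQ_apply, (Submodule.Quotient.mk_eq_zero _).2 hz, map_zero]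

omit [FiniteDimensional F V] [Fintype α] [DecidableEq α] in
theorem DualB_mem_Sp {w : α → V} {C : Finset α} {z : V} (hz : z ∈ Sp F w C) :
    ∃ c : α → F, z = ∑ x ∈ C, c x • w x := by
  classical
  unfold Sp at hz
  rw [← Finset.coe_image] at hz
  induction hz using Submodule.span_induction with
  | mem y hy =>
    rw [Finset.mem_coe, Finset.mem_image] at hy
    obtain ⟨x, hx, rfl⟩ := hy
    refine ⟨Pi.single x 1, ?_⟩
    rw [Finset.sum_eq_single x]
    · rw [Pi.single_eq_same, one_smul]
    · intro y _ hy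
      rw [Pi.single_eq_of_ne hy, zero_smul]
    · intro hx'
      exact absurd hx hx'
  | zero => exact ⟨0, by simp⟩
  | add y z _ _ h1 h2 =>
    obtain ⟨c, rfl⟩ := h1
    obtain ⟨d, rfl⟩ := h2
    exact ⟨c + d, by simp [add_smul, Finset.sum_add_distrib]⟩
  | smul t y _ h1 =>
    obtain ⟨c, rfl⟩ := h1
    exact ⟨t • c, by simp [mul_smul, Finset.smul_sum]⟩

/-- Relations of the dual on `G = univ \ C`: `∑ x ∈ G, b x • dualv w x = 0` iff `b` is orthogonal to
all `a ∈ Rel F w` on `G`, i.e. to all `a` on `G` with `∑ x ∈ G, a x • w x ∈ Sp F w C` (extend `a` to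
`C`) -/
theorem dualv_rel_iff {w : α → V} {C : Finset α} {b : α → F} :
    ∑ x ∈ Finset.univ \ C, b x • dualv (F := F) w x = 0 ↔
      ∀ a : α → F, ∑ x ∈ Finset.univ \ C, a x • w x ∈ Sp F w C →
        ∑ x ∈ Finset.univ \ C, a x * b x = 0 := by
  have key : ∀ a : Rel F w, (∑ x ∈ Finset.univ \ C, b x • dualv (F := F) w x) a =
      ∑ x ∈ Finset.univ \ C, (a : α → F) x * b x := by
    intro a
    rw [LinearMap.sum_apply]
    refine Finset.sum_congr rfl fun x _ => ?_
    rw [LinearMap.smul_apply, smul_eq_mul, mul_comm]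
    rfl
  constructor
  · intro h a ha
    obtain ⟨c, hc⟩ := DualB_mem_Sp ha
    have h1 : (fun x => if x ∈ C then - c x else a x) ∈ Rel F w := by
      rw [mem_Rel, ← Finset.sum_sdiff (Finset.subset_univ C)]
      have e1 : ∑ x ∈ Finset.univ \ C, (if x ∈ C then - c x else a x) • w x =
          ∑ x ∈ Finset.univ \ C, a x • w x := by
        refine Finset.sum_congr rfl fun x hx => ?_
        rw [if_neg (Finset.mem_sdiff.1 hx).2]
      have e2 : ∑ x ∈ C, (if x ∈ C then - c x else a x) • w x = - ∑ x ∈ C, c x • w x := by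
        rw [← Finset.sum_neg_distrib]
        refine Finset.sum_congr rfl fun x hx => ?_
        rw [if_pos hx, neg_smul]
      rw [e1, e2, hc, add_neg_cancel]
    have h2 := key ⟨_, h1⟩
    rw [h, LinearMap.zero_apply] at h2
    rw [h2]
    refine Finset.sum_congr rfl fun x hx => ?_
    show a x * b x = (if x ∈ C then - c x else a x) * b x
    rw [if_neg (Finset.mem_sdiff.1 hx).2]
  · intro h
    ext a
    rw [key, LinearMap.zero_apply]
    refine h _ ?_
    have h1 := mem_Rel.1 a.2
    rw [← Finset.sum_sdiff (Finset.subset_univ C)] at h1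
    rw [eq_neg_of_add_eq_zero_left h1]
    exact neg_mem (Submodule.sum_mem _ fun x hx => Submodule.smul_mem _ _ (mem_Sp hx))

end Pool.MP_4929df_co.H92
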