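import Pool.Agent.W_4929df_h92.DualB

/-!
Relations of the dual representation: row space.
-/

set_option autoImplicit false

namespace Pool.MP_4929df_co.H92

open Submodule

variable {F : Type} [Field F] {V : Type} [AddCommGroup V] [Module F V] [FiniteDimensional F V]
  {V' : Type} [AddCommGroup V'] [Module F V'] [FiniteDimensional F V']
  {α : Type} [Fintype α] [DecidableEq α]

/-- If the relations of `w` and `w'` on `univ \ C` modulo the span of `C` correspond by scaling with
`c`, then the relations of the duals on `univ \ C` correspond by scaling with `c⁻¹`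
(`dualv_rel_iff`; replace `a` by `fun x => a x * c x` or `a x * (c x)⁻¹`). -/
theorem dualv_rel_of_rel {w : α → V} {w' : α → V'} {C : Finset α} {c : α → F}
    (hc : ∀ x, c x ≠ 0)
    (h : ∀ a : α → F, (∑ x ∈ Finset.univ \ C, a x • w x ∈ Sp F w C ↔
      ∑ x ∈ Finset.univ \ C, (a x * c x) • w' x ∈ Sp F w' C)) (b : α → F) :
    ∑ x ∈ Finset.univ \ C, b x • dualv (F := F) w x = 0 ↔
      ∑ x ∈ Finset.univ \ C, (b x * (c x)⁻¹) • dualv (F := F) w' x = 0 := by
  rw [dualv_rel_iff, dualv_rel_iff (b := fun x => b x * (c x)⁻¹)]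
  constructor
  · intro h1 a ha
    have h2 := h1 (fun x => a x * (c x)⁻¹) ?_
    · rw [← h2]
      refine Finset.sum_congr rfl fun x _ => ?_
      ring
    · rw [h]
      have h3 : ∀ x, a x * (c x)⁻¹ * c x = a x := fun x => by
        rw [mul_assoc, inv_mul_cancel₀ (hc x), mul_one]
      simp only [h3]
      exact ha
  · intro h1 a ha
    have h2 := h1 (fun x => a x * c x) ((h a).1 ha)
    rw [← h2]
    refine Finset.sum_congr rfl fun x _ => ?_
    have h3 : c x * (c x)⁻¹ = 1 := mul_inv_cancel₀ (hc x)
    calc a x * b x = a x * b x * (c x * (c x)⁻¹) := by rw [h3, mul_one]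
      _ = a x * c x * (b x * (c x)⁻¹) := by ring

theorem DualB2_rel_iff {w : α → V} {a : α → F} :
    ∑ x, a x • w x = 0 ↔
      ∀ b : α → F, ∑ x, b x • dualv (F := F) w x = 0 → ∑ x, a x * b x = 0 := by
  have key : ∀ b : α → F, (∑ x, b x • dualv (F := F) w x = 0 ↔
      ∀ a : α → F, ∑ x, a x • w x = 0 → ∑ x, a x * b x = 0) := by
    intro b
    have h := dualv_rel_iff (F := F) (w := w) (C := ∅) (b := b)
    have hS : Sp F w ∅ = ⊥ := by
      unfold Sp
      rw [Finset.coe_empty, Set.image_empty, Submodule.span_empty]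
    rw [hS] at h
    simpa only [Finset.sdiff_empty, Submodule.mem_bot] using h
  constructor
  · intro h b hb
    exact (key b).1 hb a h
  · intro h
    rw [← Module.forall_dual_apply_eq_zero_iff F]
    intro φ
    have h1 := h (fun x => φ (w x)) ((key _).2 ?_)
    · rw [map_sum]
      rw [← h1]
      refine Finset.sum_congr rfl fun x _ => ?_
      rw [map_smul, smul_eq_mul]
    · intro a' ha'
      have h2 : φ (∑ x, a' x • w x) = 0 := by rw [ha', map_zero]
      rw [map_sum] at h2
      rw [← h2]
      refine Finset.sum_congr rfl fun x _ => ?_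
      rw [map_smul, smul_eq_mul]

/-- Conversely, for `C = ∅`: if the relations of the duals correspond by scaling with `c`, then the
relations of `w`, `w'` correspond by scaling with `c⁻¹`. If `a ∈ Rel F w` and `b` is any relation of
`dualv w'`..., precisely: `a ∈ Rel F w'` iff `a` is orthogonal to all `b` of the form
`fun x => φ (w' x)`, and these `b` are the relations of `dualv w'` (`dualv_rel_iff` with `C = ∅` and
`exists_functional`); the same for `w`. -/
theorem rel_of_dualv_rel {w : α → V} {w' : α → V'} {c : α → F} (hc : ∀ x, c x ≠ 0)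
    (h : ∀ b : α → F, (∑ x, b x • dualv (F := F) w x = 0 ↔
      ∑ x, (b x * c x) • dualv (F := F) w' x = 0)) (a : α → F) :
    ∑ x, a x • w x = 0 ↔ ∑ x, (a x * (c x)⁻¹) • w' x = 0 := by
  rw [DualB2_rel_iff, DualB2_rel_iff (w := w') (a := fun x => a x * (c x)⁻¹)]
  constructor
  · intro h1 b hb
    have h3 : ∀ x, b x * (c x)⁻¹ * c x = b x := fun x => by
      rw [mul_assoc, inv_mul_cancel₀ (hc x), mul_one]
    have h2 := h1 (fun x => b x * (c x)⁻¹) ((h _).2 (by simp only [h3]; exact hb))
    rw [← h2]
    refine Finset.sum_congr rfl fun x _ => ?_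
    ring
  · intro h1 b hb
    have h2 := h1 (fun x => b x * c x) ((h b).1 hb)
    rw [← h2]
    refine Finset.sum_congr rfl fun x _ => ?_
    have h3 : c x * (c x)⁻¹ = 1 := mul_inv_cancel₀ (hc x)
    calc a x * b x = a x * b x * (c x * (c x)⁻¹) := by rw [h3, mul_one]
      _ = a x * (c x)⁻¹ * (b x * c x) := by ring

end Pool.MP_4929df_co.H92
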