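import Pool.Agent.W_4929df_h92.DualA2

/-!
The dual representation: connectivity and ranks.
-/

set_option autoImplicit false

namespace Pool.MP_4929df_co.H92

open Submodule

variable {F : Type} [Field F] {V : Type} [AddCommGroup V] [Module F V] [FiniteDimensional F V]
  {α : Type} [Fintype α] [DecidableEq α]

/-- the rank formula on the complement of `C` -/
theorem DualC_rk (w : α → V) (C : Finset α) {X : Finset α} (hX : X ⊆ Finset.univ \ C) :
    Module.finrank F (Sp F (dualv (F := F) w) X) + Module.finrank F (Sp F w Finset.univ) =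
      X.card + rk F w (Sp F w C) ((Finset.univ \ C) \ X) := by
  rw [finrank_dualv]
  unfold rk
  rw [← Sp_union]
  have h2 : Finset.univ \ X = (Finset.univ \ C) \ X ∪ C := by
    ext a
    have h1 := @hX a
    simp only [Finset.mem_sdiff, Finset.mem_univ, true_and, Finset.mem_union] at h1 ⊢
    tauto
  rw [h2]

/-- Duality of 3-connectivity: for `X ⊆ univ \ C`, `univ \ X = (univ \ C \ X) ∪ C`, so by
`finrank_dualv` `finrank (Sp (dualv w) X) + R = X.card + rk F w (Sp F w C) (univ \ C \ X)`
(`R = finrank (Sp F w univ)`, `rk F w (Sp F w C) A = finrank (Sp F w (A ∪ C))`); the connectivity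
inequality is the same. `Three` is stated with sets: use `X.toFinset` (classical) and
`Set.ncard_coe_finset`. -/
theorem three_dualv {w : α → V} {C : Finset α}
    (h : ThreeR (rk F w (Sp F w C)) (Finset.univ \ C)) :
    Three (F := F) (dualv (F := F) w) (Finset.univ \ C) := by
  classical
  intro Xs hXs j hj h1 h2
  obtain ⟨X, rfl⟩ : ∃ X : Finset α, (X : Set α) = Xs := ⟨Xs.toFinset, by simp⟩
  set G : Finset α := Finset.univ \ C with hG
  have hX : X ⊆ G := by exact_mod_cast hXs
  rw [Set.ncard_coe_finset] at h1
  rw [← Finset.coe_sdiff, Set.ncard_coe_finset] at h2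
  rw [← Finset.coe_sdiff]
  show Module.finrank F (Sp F (dualv (F := F) w) G) + j ≤
    Module.finrank F (Sp F (dualv (F := F) w) X) + Module.finrank F (Sp F (dualv (F := F) w) (G \ X))
  have h3 := h X hX j hj h1 h2
  have e1 := DualC_rk (F := F) w C (X := X) hX
  have e2 := DualC_rk (F := F) w C (X := G \ X) Finset.sdiff_subset
  have e3 := DualC_rk (F := F) w C (X := G) subset_rfl
  have e4 : G \ (G \ X) = X := by
    rw [Finset.sdiff_sdiff_eq_self hX]
  rw [← hG] at e1 e2 e3
  rw [e4] at e2
  rw [Finset.sdiff_self] at e3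
  have e5 : rk F w (Sp F w C) G = Module.finrank F (Sp F w Finset.univ) := by
    unfold rk
    rw [← Sp_union, hG, Finset.sdiff_union_of_subset (Finset.subset_univ C)]
  have e6 := Finset.card_sdiff_add_card_eq_card hX
  omega

/-- equal ranks for the duals (`finrank_dualv`) -/
theorem sameRk_dualv {w w' : α → V} (h : SameRk (F := F) (F' := F) Finset.univ w w') :
    SameRk (F := F) (F' := F) Finset.univ (dualv (F := F) w) (dualv (F := F) w') := by
  intro A hA
  have e1 := finrank_dualv (F := F) w A
  have e2 := finrank_dualv (F := F) w' A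
  have h1 := h Finset.univ subset_rfl
  have h2 := h (Finset.univ \ A) (Finset.subset_univ _)
  omega

end Pool.MP_4929df_co.H92
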