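import Pool.Agent.W_4929df_h92.DualC
import Pool.Agent.W_4929df_h92.DualB2

/-!
The bound for representations that are equivalent after contraction of `C`, by duality.
-/

set_option autoImplicit false

namespace Pool.MP_4929df_co.H92

open Submodule

/-- the span of the images under a linear isomorphism -/
theorem DualC2_span {F : Type} [Field F] {V : Type} [AddCommGroup V] [Module F V]
    {V' : Type} [AddCommGroup V'] [Module F V'] {α : Type} (e : V ≃ₗ[F] V') (w : α → V)
    (X : Set α) :
    span F ((fun x => e (w x)) '' X) = (span F (w '' X)).map (e : V →ₗ[F] V') := by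
  rw [Submodule.map_span, ← Set.image_comp]
  rfl

theorem DualC2_finrank {F : Type} [Field F] {V : Type} [AddCommGroup V] [Module F V]
    {V' : Type} [AddCommGroup V'] [Module F V'] {α : Type} (e : V ≃ₗ[F] V') (w : α → V)
    (X : Set α) :
    Module.finrank F (span F ((fun x => e (w x)) '' X)) =
      Module.finrank F (span F (w '' X)) := by
  rw [DualC2_span, LinearEquiv.finrank_map_eq]

theorem DualC2_sum {F : Type} [Field F] {V : Type} [AddCommGroup V] [Module F V]
    {V' : Type} [AddCommGroup V'] [Module F V'] {α : Type} (e : V ≃ₗ[F] V') (w : α → V)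
    (G : Finset α) (a : α → F) :
    ∑ x ∈ G, a x • e (w x) = 0 ↔ ∑ x ∈ G, a x • w x = 0 := by
  have h : ∑ x ∈ G, a x • e (w x) = e (∑ x ∈ G, a x • w x) := by
    rw [map_sum]
    exact Finset.sum_congr rfl fun x _ => (map_smul e (a x) (w x)).symm
  rw [h, LinearEquiv.map_eq_zero_iff]

/-- The bound for contractions. `K` from `equiv_bound`. All `Rel F (f i)` have the same dimension
`n` (`finrank_Rel`, `SameRk`); let `e i : Module.Dual F (Rel F (f i)) ≃ₗ (Fin n → F)` and
`f' i x = e i (dualv (f i) x)`. Apply `equiv_bound` with `G = univ \ C`, `D = C` to `f'`: `Three` by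
`three_dualv` (ranks do not change under `e i`), `SameRk` by `sameRk_dualv`, the span by
`dualv_span`, equivalence on `G` from `EquivMod` by `dualv_rel_of_rel` and `equiv_of_rel` (apply
`e i`, `e j` to the sums). The result `f' i x = c x • g (f' j x)` gives the hypothesis of
`rel_of_dualv_rel`, and `equiv_of_rel` with `G = univ` gives the claim. -/
theorem contract_bound : ∃ K : ℕ, ∀ (t : ℕ) (F : Type) [Field F] (V : Type) [AddCommGroup V]
    [Module F V] [FiniteDimensional F V] (α : Type) [Fintype α] [DecidableEq α]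
    (C : Finset α) (ι : Type) [Finite ι] (f : ι → α → V), Nat.card F = 8 → C.card ≤ t →
    (∀ i, ThreeR (rk F (f i) (Sp F (f i) C)) (Finset.univ \ C)) →
    (∀ i j, SameRk (F := F) (F' := F) Finset.univ (f i) (f j)) →
    (∀ i j, EquivMod (F := F) C (Finset.univ \ C) (f i) (f j)) →
    (K * 8 ^ t) ^ t < Nat.card ι →
    ∃ i j, i ≠ j ∧ ∃ g : V ≃ₗ[F] V, ∃ c : α → F, (∀ x, c x ≠ 0) ∧ ∀ x, f i x = c x • g (f j x) := by
  obtain ⟨K, hK⟩ := equiv_bound
  refine ⟨K, ?_⟩
  intro t F _ V _ _ _ α _ _ C ι _ f hF hC hT hrk heq hcard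
  have hne : Nonempty ι := by
    by_contra h
    rw [not_nonempty_iff] at h
    rw [Nat.card_of_isEmpty] at hcard
    exact absurd hcard (Nat.not_lt_zero _)
  obtain ⟨i₀⟩ := hne
  have hn : ∀ i, Module.finrank F (Module.Dual F (Rel F (f i))) =
      Module.finrank F (Fin (Module.finrank F (Rel F (f i₀))) → F) := by
    intro i
    rw [Subspace.dual_finrank_eq, Module.finrank_fin_fun]
    have h1 := finrank_Rel (F := F) (f i)
    have h2 := finrank_Rel (F := F) (f i₀)
    have h3 := hrk i i₀ Finset.univ (Finset.Subset.refl _)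
    omega
  let e : ∀ i, Module.Dual F (Rel F (f i)) ≃ₗ[F]
      (Fin (Module.finrank F (Rel F (f i₀))) → F) := fun i => LinearEquiv.ofFinrankEq _ _ (hn i)
  obtain ⟨i, j, hij, g, c, hc, hg⟩ := hK t F (Fin (Module.finrank F (Rel F (f i₀))) → F) α
    (Finset.univ \ C) C ι (fun i x => e i (dualv (F := F) (f i) x)) hF
    (by
      intro i X hX k hk h1 h2
      rw [DualC2_finrank, DualC2_finrank, DualC2_finrank]
      exact three_dualv (hT i) X hX k hk h1 h2)
    (Finset.sdiff_union_of_subset (Finset.subset_univ _))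
    Finset.sdiff_disjoint hC
    (by
      intro i j A hA
      unfold Sp
      rw [DualC2_finrank, DualC2_finrank]
      exact sameRk_dualv (hrk i j) A hA)
    (by
      intro i
      have h1 := dualv_span (F := F) (f i)
      unfold Sp at h1 ⊢
      rw [DualC2_span, h1, Submodule.map_top, LinearEquiv.range])
    (by
      intro i j
      obtain ⟨c, hc, h⟩ := heq i j
      have h1 := dualv_rel_of_rel (F := F) hc h
      obtain ⟨g, hg⟩ := equiv_of_rel (F := F) (w := fun x => e i (dualv (F := F) (f i) x))
        (w' := fun x => e j (dualv (F := F) (f j) x)) (G := Finset.univ \ C)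
        (c := fun x => (c x)⁻¹) (fun x => inv_ne_zero (hc x)) (by
          intro a
          rw [DualC2_sum, DualC2_sum]
          exact h1 a)
      exact ⟨g, fun x => (c x)⁻¹, fun x => inv_ne_zero (hc x), hg⟩)
    hcard
  have h2 : ∀ b : α → F, (∑ x, b x • dualv (F := F) (f i) x = 0 ↔
      ∑ x, (b x * c x) • dualv (F := F) (f j) x = 0) := by
    intro b
    rw [← DualC2_sum (e i), ← DualC2_sum (e j),
      ← DualC2_sum g (fun x => e j (dualv (F := F) (f j) x))]
    have h3 : ∑ x, b x • e i (dualv (F := F) (f i) x) =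
        ∑ x, (b x * c x) • g (e j (dualv (F := F) (f j) x)) := by
      refine Finset.sum_congr rfl fun x _ => ?_
      rw [hg x, smul_smul]
    rw [h3]
  have h4 := rel_of_dualv_rel (F := F) hc h2
  obtain ⟨g', hg'⟩ := equiv_of_rel (F := F) (w := f i) (w' := f j) (G := Finset.univ)
    (c := fun x => (c x)⁻¹) (fun x => inv_ne_zero (hc x)) h4
  exact ⟨i, j, hij, g', fun x => (c x)⁻¹, fun x => inv_ne_zero (hc x),
    fun x => hg' x (Finset.mem_univ x)⟩

end Pool.MP_4929df_co.H92
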