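import Pool.Agent.W_4929df_h92.GenC

/-!
Most components have guts of rank at least two (step 7 of proofs row 546).
-/

set_option autoImplicit false

namespace Pool.MP_4929df_co.H92

open Submodule

variable {F : Type} [Field F] {V : Type} [AddCommGroup V] [Module F V] [FiniteDimensional F V]
  {α : Type} [DecidableEq α] {v : α → V} {Y : Submodule F V} {G : Finset α} {H : Set V}

/-- `(Sp F v P ⊔ Y) ⊓ (Sp F v S ⊔ Y)` has dimension `rk P + rk S - rk (P ∪ S)`, larger than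
`finrank Y`; an element outside `Y` is `u + y` with `u ∈ Sp F v S`, `y ∈ Y` -/
theorem guts_vec {S P : Finset α} (h : rk F v Y (P ∪ S) + rk F v Y ∅ + 1 ≤ rk F v Y P + rk F v Y S) :
    ∃ u ∈ Sp F v S, u ∉ Y ∧ u ∈ Sp F v P ⊔ Y := by
  have h1 := Submodule.finrank_sup_add_finrank_inf_eq (Sp F v P ⊔ Y) (Sp F v S ⊔ Y)
  have e1 : Sp F v P ⊔ Y ⊔ (Sp F v S ⊔ Y) = Sp F v (P ∪ S) ⊔ Y := by
    rw [Sp_union, sup_sup_sup_comm, sup_idem]
  rw [e1] at h1
  rw [rk_empty] at h
  unfold rk at h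
  have h2 : ¬ (Sp F v P ⊔ Y) ⊓ (Sp F v S ⊔ Y) ≤ Y := by
    intro hle
    have h3 := Submodule.finrank_mono hle
    omega
  obtain ⟨x, hx, hxY⟩ := SetLike.not_le_iff_exists.1 h2
  obtain ⟨hxP, hxS⟩ := Submodule.mem_inf.1 hx
  obtain ⟨u, hu, y, hy, rfl⟩ := Submodule.mem_sup.1 hxS
  refine ⟨u, hu, fun huY => hxY (Y.add_mem huY hy), ?_⟩
  have h4 : u = (u + y) - y := by abel
  rw [h4]
  exact Submodule.sub_mem _ hxP (Submodule.mem_sup_right hy)

theorem FinA_inf {P Q : Finset α} {u : V} (huY : u ∉ Y) (huP : u ∈ Sp F v P ⊔ Y)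
    (huQ : u ∈ Sp F v Q ⊔ Y) :
    rk F v Y (P ∪ Q) + rk F v Y ∅ + 1 ≤ rk F v Y P + rk F v Y Q := by
  have h1 := Submodule.finrank_sup_add_finrank_inf_eq (Sp F v P ⊔ Y) (Sp F v Q ⊔ Y)
  have e1 : Sp F v P ⊔ Y ⊔ (Sp F v Q ⊔ Y) = Sp F v (P ∪ Q) ⊔ Y := by
    rw [Sp_union, sup_sup_sup_comm, sup_idem]
  rw [e1] at h1
  have h2 : Y < (Sp F v P ⊔ Y) ⊓ (Sp F v Q ⊔ Y) := by
    refine lt_of_le_of_ne (le_inf le_sup_right le_sup_right) ?_
    intro heq
    exact huY (heq ▸ Submodule.mem_inf.2 ⟨huP, huQ⟩)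
  have h3 := Submodule.finrank_lt_finrank_of_lt h2
  rw [rk_empty]
  unfold rk
  omega

/-- Two components with the same guts. `P, Q ⊆ G \ S` disjoint separators of the contraction by `S`
with guts of rank one and a common guts vector `u`. (i) `rk (P ∪ Q) + rk ∅ + 1 ≤ rk P + rk Q`
(`Y ⊔ span {u}` is in the intersection of `Sp P ⊔ Y` and `Sp Q ⊔ Y`).
(ii) `rk (G \ (P ∪ Q)) + rk (Q ∪ S) ≤ rk (G \ P) + rk S`: hence equality; indeed `sub4` for
`G \ P` and `G \ Q` (union `G`, intersection `G \ (P ∪ Q)`) gives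
`rk G + rk (G \ (P ∪ Q)) ≤ rk (G \ P) + rk (G \ Q)`; with `hP, hQ`:
`rk (G \ (P ∪ Q)) ≤ rk G + 2 rk S - rk (P ∪ S) - rk (Q ∪ S) = rk G - rk P - rk Q + 2 rk ∅ + 2`.
So `rk (P ∪ Q) + rk (G \ (P ∪ Q)) ≤ rk G + rk ∅ + 1`, and `TwoS`: `Ser (P ∪ Q)`, i.e.
`P.card + Q.card + rk (G \ (P ∪ Q)) ≤ rk G + 1`, gives
`rk (P ∪ Q) + rk (G \ (P ∪ Q)) ≤ rk G + rk ∅` (use `rk P ≤ rk ∅ + P.card`, the same for `Q`, and
(i)), contradiction to `Conn`; `Ser (G \ (P ∪ Q))` contradicts `ser_le`. -/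
theorem two_thin (h : Gen v Y G H) {S P Q : Finset α} (hP : P ⊆ G \ S) (hQ : Q ⊆ G \ S)
    (hPn : P.Nonempty) (hPQ : Disjoint P Q)
    (hP2 : rk F v Y (P ∪ S) + rk F v Y (G \ P) = rk F v Y G + rk F v Y S)
    (hQ2 : rk F v Y (Q ∪ S) + rk F v Y (G \ Q) = rk F v Y G + rk F v Y S)
    (hP1 : rk F v Y P + rk F v Y S = rk F v Y (P ∪ S) + rk F v Y ∅ + 1)
    (hQ1 : rk F v Y Q + rk F v Y S = rk F v Y (Q ∪ S) + rk F v Y ∅ + 1)
    {u : V} (huY : u ∉ Y) (huP : u ∈ Sp F v P ⊔ Y) (huQ : u ∈ Sp F v Q ⊔ Y)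
    (hbig : 8 < (G \ (P ∪ Q)).card) : False := by
  have hr := rk_isRk (F := F) v Y
  have hPG : P ⊆ G := fun a ha => (Finset.mem_sdiff.1 (hP ha)).1
  have hQG : Q ⊆ G := fun a ha => (Finset.mem_sdiff.1 (hQ ha)).1
  have hU : (P ∪ Q) ⊆ G := Finset.union_subset hPG hQG
  have hi := FinA_inf huY huP huQ
  have h1 : rk F v Y G + rk F v Y (G \ (P ∪ Q)) ≤ rk F v Y (G \ P) + rk F v Y (G \ Q) := by
    refine hr.sub4 ?_ ?_
    · intro a ha
      simp only [Finset.mem_union, Finset.mem_sdiff]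
      by_cases haP : a ∈ P
      · exact Or.inr ⟨ha, fun haQ => (Finset.disjoint_left.1 hPQ haP) haQ⟩
      · exact Or.inl ⟨ha, haP⟩
    · intro a ha
      simp only [Finset.mem_union, Finset.mem_sdiff, Finset.mem_inter] at ha ⊢
      tauto
  have hun : (P ∪ Q) ∪ (G \ (P ∪ Q)) = G := Finset.union_sdiff_of_subset hU
  have hdi : Disjoint (P ∪ Q) (G \ (P ∪ Q)) := Finset.disjoint_sdiff
  have h2 : rk F v Y (P ∪ Q) + rk F v Y (G \ (P ∪ Q)) ≤ rk F v Y G + rk F v Y ∅ + 1 := by omega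
  rcases h.hG.2 (P ∪ Q) (G \ (P ∪ Q)) hun hdi h2 with h3 | h3
  · have h4 := h3.2
    rw [Finset.card_union_of_disjoint hPQ] at h4
    have h5 := hr.le_card P
    have h6 := hr.le_card Q
    have h7 := h.hG.1 (P ∪ Q) (G \ (P ∪ Q)) hun hdi (hPn.mono Finset.subset_union_left)
      (Finset.card_pos.1 (by omega))
    omega
  · have h4 := h.ser_le h3
    omega

/-- the data after this step: `K` components with guts of rank at least two -/
structure Fat (r : Finset α → ℕ) (G S : Finset α) (K : ℕ) (P : Fin K → Finset α) : Prop where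
  hS : S ⊆ G
  hcard : S.card ≤ 64
  hPG : ∀ k, P k ⊆ G \ S
  hdisj : ∀ k l, k ≠ l → Disjoint (P k) (P l)
  hconn : ∀ k, Conn (ct r S) (P k)
  hne : ∀ k, r S < r (P k ∪ S)
  hsep : ∀ k, r (P k ∪ S) + r (G \ P k) = r G + r S
  hfat : ∀ k, r (P k ∪ S) + r ∅ + 2 ≤ r (P k) + r S

/-- Step 7. For each `k`, `Conn` for `(P k, G \ P k)` and `hsep` give
`rk (P k ∪ S) + rk ∅ + 1 ≤ rk (P k) + rk S`. If equality holds for more than `8 ^ 64` of the `k`:
`guts_vec` gives `u k ∈ Sp F v S`, a space with at most `8 ^ S.card ≤ 8 ^ 64` elements, so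
`u k = u l` for some `k ≠ l`, and `two_thin` (the other `P j` are nonempty and disjoint, so
`G \ (P k ∪ P l)` has more than 8 elements). So the inequality is strict for at least `K` of the `k`
(`Finset.exists_subset_card_eq`, `Finset.orderEmbOfFin` or `Finset.equivFin`). -/
theorem exists_fat (h : Gen v Y G H) {K : ℕ} (hst : StarAt (rk F v Y) G 8 (8 ^ 64 + K + 12)) :
    ∃ (S : Finset α) (P : Fin K → Finset α), Fat (rk F v Y) G S K P := by
  classical
  obtain ⟨S, hS, hcard, P, hPG, hdisj, hconn, hne, hsep⟩ := hst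
  have hcard' : S.card ≤ 64 := hcard.trans (by norm_num)
  have hPGG : ∀ k, P k ⊆ G := fun k a ha => (Finset.mem_sdiff.1 (hPG k ha)).1
  have hPn : ∀ k, (P k).Nonempty := fun k => by
    rw [Finset.nonempty_iff_ne_empty]
    intro h0
    have h1 := hne k
    rw [h0, Finset.empty_union] at h1
    exact lt_irrefl _ h1
  choose e he using hPn
  have he_inj : Function.Injective e := by
    intro k l hkl
    by_contra hne'
    exact (Finset.disjoint_left.1 (hdisj k l hne') (he k)) (hkl ▸ he l)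
  -- the complement of two members is large
  have hbig : ∀ k l, 8 < (G \ (P k ∪ P l)).card := by
    intro k l
    have h1 : (((Finset.univ.erase k).erase l).image e) ⊆ G \ (P k ∪ P l) := by
      intro a ha
      obtain ⟨j, hj, rfl⟩ := Finset.mem_image.1 ha
      rw [Finset.mem_erase, Finset.mem_erase] at hj
      rw [Finset.mem_sdiff, Finset.mem_union, not_or]
      exact ⟨hPGG j (he j), Finset.disjoint_left.1 (hdisj j k hj.2.1) (he j),
        Finset.disjoint_left.1 (hdisj j l hj.1) (he j)⟩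
    have h2 := Finset.card_le_card h1
    rw [Finset.card_image_of_injective _ he_inj] at h2
    have h3 := Finset.pred_card_le_card_erase (a := l)
      (s := ((Finset.univ : Finset (Fin (8 ^ 64 + K + 12))).erase k))
    have h4 := Finset.pred_card_le_card_erase (a := k)
      (s := (Finset.univ : Finset (Fin (8 ^ 64 + K + 12))))
    rw [Finset.card_univ, Fintype.card_fin] at h4
    omega
  have hgap : ∀ k, rk F v Y (P k ∪ S) + rk F v Y ∅ + 1 ≤ rk F v Y (P k) + rk F v Y S := by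
    intro k
    have h1 := h.hG.1 (P k) (G \ P k) (Finset.union_sdiff_of_subset (hPGG k))
      Finset.disjoint_sdiff ⟨e k, he k⟩ (by
        have h2 := hbig k k
        rw [Finset.union_idempotent] at h2
        exact Finset.card_pos.1 (by omega))
    have h2 := hsep k
    omega
  -- the thin indices
  set T : Finset (Fin (8 ^ 64 + K + 12)) := Finset.univ.filter (fun k =>
    rk F v Y (P k) + rk F v Y S = rk F v Y (P k ∪ S) + rk F v Y ∅ + 1) with hT
  have hTc : T.card ≤ 8 ^ 64 := by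
    have := h.finite
    have : Finite V := Module.finite_of_finite F
    have hv : ∀ k, ∃ u ∈ Sp F v S, u ∉ Y ∧ u ∈ Sp F v (P k) ⊔ Y := fun k => guts_vec (hgap k)
    choose u huS huY huP using hv
    by_contra hcon
    have : Fintype (Sp F v S) := Fintype.ofFinite _
    have h1 : (Finset.univ : Finset (Sp F v S)).card < T.card := by
      have h2 : Fintype.card (Sp F v S) = 8 ^ Module.finrank F (Sp F v S) := by
        rw [← Nat.card_eq_fintype_card, Module.natCard_eq_pow_finrank (K := F), h.h8]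
      have h3 : Module.finrank F (Sp F v S) ≤ 64 := by
        refine le_trans ?_ hcard'
        have h4 := finrank_span_finset_le_card (R := F) (S.image v)
        rw [Finset.coe_image] at h4
        exact h4.trans Finset.card_image_le
      rw [Finset.card_univ, h2]
      exact lt_of_le_of_lt (Nat.pow_le_pow_right (by norm_num) h3) (not_le.1 hcon)
    obtain ⟨k, hk, l, hl, hkl, heq⟩ := Finset.exists_ne_map_eq_of_card_lt_of_maps_to h1
      (f := fun k => (⟨u k, huS k⟩ : Sp F v S)) (fun _ _ => Finset.mem_univ _)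
    rw [hT, Finset.mem_filter] at hk hl
    have heq' : u k = u l := congrArg Subtype.val heq
    exact two_thin h (hPG k) (hPG l) ⟨e k, he k⟩ (hdisj k l hkl) (hsep k) (hsep l) hk.2 hl.2
      (huY k) (huP k) (heq' ▸ huP l) (hbig k l)
  have hTcc : K ≤ (Tᶜ).card := by
    rw [Finset.card_compl, Fintype.card_fin]
    omega
  obtain ⟨W, hW, hWc⟩ := Finset.exists_subset_card_eq hTcc
  let φ : Fin K ≃ W := (Finset.equivFinOfCardEq hWc).symm
  have hφ : ∀ k, ((φ k : W) : Fin (8 ^ 64 + K + 12)) ∉ T := fun k =>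
    Finset.mem_compl.1 (hW (φ k).2)
  refine ⟨S, fun k => P (φ k), hS, hcard', fun k => hPG _, ?_, fun k => hconn _, fun k => hne _,
    fun k => hsep _, ?_⟩
  · intro k l hkl
    refine hdisj _ _ ?_
    intro h0
    exact hkl (φ.injective (Subtype.ext h0))
  · intro k
    have h1 := hφ k
    rw [hT, Finset.mem_filter] at h1
    have h2 := hgap (φ k)
    have h3 : ¬ (rk F v Y (P (φ k)) + rk F v Y S = rk F v Y (P (φ k) ∪ S) + rk F v Y ∅ + 1) :=
      fun h4 => h1 ⟨Finset.mem_univ _, h4⟩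
    omega

end Pool.MP_4929df_co.H92
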