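import Pool.Agent.W_4929df_h92.TripleA

/-!
Triples (step 8 of proofs row 546).
-/

set_option autoImplicit false

namespace Pool.MP_4929df_co.H92

variable {α : Type*} [DecidableEq α] {r : Finset α → ℕ}

/-- the conclusion: `A` skew to `S`, and `a, b, c ∈ P` are parallel nonloops modulo `A ∪ S`, and
independent modulo `A` -/
def Trip (r : Finset α → ℕ) (S P : Finset α) : Prop :=
  ∃ A ⊆ P, ∃ a ∈ P, ∃ b ∈ P, ∃ c ∈ P, a ∉ A ∧ b ∉ A ∧ c ∉ A ∧ a ≠ b ∧ a ≠ c ∧ b ≠ c ∧
    r (A ∪ S) + r ∅ = r A + r S ∧
    r (insert a (A ∪ S)) = r (A ∪ S) + 1 ∧ r (insert b (A ∪ S)) = r (A ∪ S) + 1 ∧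
    r (insert c (A ∪ S)) = r (A ∪ S) + 1 ∧ r ({a, b, c} ∪ (A ∪ S)) = r (A ∪ S) + 1 ∧
    r ({a, b, c} ∪ A) = r A + 3

/-- Strong induction on `P'.card`, generalizing `A, P'`.
Case `r (P' ∪ (A ∪ S)) = r (A ∪ S) + 1`: `hg` gives `r A + 3 ≤ r (P' ∪ A)`, `pick_three`; each of
`a, b, c` is not a loop modulo `A ∪ S` (`Conn.single` for `ct r (A ∪ S)`, `P'` has at least 3
elements), and `r ({a, b, c} ∪ (A ∪ S)) ≤ r (P' ∪ (A ∪ S))`.
Case `≥ r (A ∪ S) + 2` (so `P'` has at least two elements). (i) If
`Conn (ct (ct r (A ∪ S)) {y}) (P'.erase y)` for some `y ∈ P'`: by `ct_ct` this is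
`Conn (ct r ((A ∪ {y}) ∪ S)) (P'.erase y)` up to the order of unions; use the induction hypothesis
for `insert y A`, `P'.erase y`: `r (insert y (A ∪ S)) = r (A ∪ S) + 1` (`Conn.single`),
`r (insert y A) = r A + 1` (submodularity), so all hypotheses hold.
(ii) Otherwise `Conn (ct r (A ∪ S)) (P'.erase y)` for all `y ∈ P'` (`Conn.tutte`). If for some
`y ∈ P'` `r (P'.erase y ∪ A) = r (P' ∪ A)`: induction hypothesis for `A, P'.erase y`
(`Conn.erase_eq`: `r (P'.erase y ∪ (A ∪ S)) = r (P' ∪ (A ∪ S))`). The same if the inequality `hg` is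
strict (`r (P' ∪ A) ≤ r (P'.erase y ∪ A) + 1`). Otherwise `all_coloop` gives
`r (P' ∪ A) = r A + P'.card`, `hg` is an equality, so `P'.card + r (A ∪ S) = r (P' ∪ (A ∪ S)) + 2` and
`corank_two` for `ct r (A ∪ S)` contradicts the assumption of (ii). -/
theorem triple_aux (hr : IsRk r) {S P : Finset α} : ∀ (n : ℕ) (A P' : Finset α), P'.card = n →
    A ⊆ P → P' ⊆ P → Disjoint A P' → Conn (ct r (A ∪ S)) P' → r (A ∪ S) < r (P' ∪ (A ∪ S)) →
    r (A ∪ S) + r ∅ = r A + r S →
    r (P' ∪ (A ∪ S)) + r A + 2 ≤ r (P' ∪ A) + r (A ∪ S) → Trip r S P := by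
  intro n
  induction n using Nat.strong_induction_on with
  | _ n IH =>
  intro A P' hn hA hP' hd hC hlt hsk hg
  have hct := hr.ct (A ∪ S)
  have e0 : ct r (A ∪ S) ∅ = r (A ∪ S) := ct_empty_apply _ _
  have eP : ct r (A ∪ S) P' = r (P' ∪ (A ∪ S)) := rfl
  by_cases h1 : r (P' ∪ (A ∪ S)) = r (A ∪ S) + 1
  · obtain ⟨a, ha, b, hb, c, hc, haA, hbA, hcA, hab, hac, hbc, h3⟩ :=
      pick_three hr (A := A) (P := P') (by omega)
    have sing : ∀ x ∈ P', ∀ z ∈ P', z ≠ x → r (insert x (A ∪ S)) = r (A ∪ S) + 1 := by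
      intro x hx z hz hzx
      have h4 := hC.single hct hx ⟨z, Finset.mem_erase.2 ⟨hzx, hz⟩⟩
      rw [e0] at h4
      have h5 : ct r (A ∪ S) {x} = r (insert x (A ∪ S)) := by
        show r ({x} ∪ (A ∪ S)) = r (insert x (A ∪ S))
        rw [← Finset.insert_eq]
      rw [h5] at h4
      exact h4
    have s1 := sing a ha b hb hab.symm
    have s2 := sing b hb a ha hab
    have s3 := sing c hc a ha hac
    have m1 : r ({a, b, c} ∪ (A ∪ S)) ≤ r (P' ∪ (A ∪ S)) := hr.mono _ _ (by
      refine Finset.union_subset_union_left ?_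
      intro z hz
      simp only [Finset.mem_insert, Finset.mem_singleton] at hz
      rcases hz with rfl | rfl | rfl
      · exact ha
      · exact hb
      · exact hc)
    have m2 : r (insert a (A ∪ S)) ≤ r ({a, b, c} ∪ (A ∪ S)) := hr.mono _ _ (by
      intro z hz
      simp only [Finset.mem_insert, Finset.mem_union, Finset.mem_singleton] at hz ⊢
      tauto)
    exact ⟨A, hA, a, hP' ha, b, hP' hb, c, hP' hc, haA, hbA, hcA, hab, hac, hbc, hsk, s1, s2, s3,
      by omega, h3⟩
  · have hcard2 : 2 ≤ P'.card := by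
      have h2 := hr.add_card (A ∪ S) P'
      rw [Finset.union_comm] at h2
      omega
    have hne : ∀ y ∈ P', (P'.erase y).Nonempty := by
      intro y hy
      rw [← Finset.card_pos, Finset.card_erase_of_mem hy]
      omega
    have hcard : ∀ y ∈ P', (P'.erase y).card < n := by
      intro y hy
      rw [Finset.card_erase_of_mem hy]
      omega
    by_cases hi : ∃ y ∈ P', Conn (ct (ct r (A ∪ S)) {y}) (P'.erase y)
    · obtain ⟨y, hy, hy'⟩ := hi
      have hyA : y ∉ A := fun h => (Finset.disjoint_left.1 hd) h hy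
      rw [ct_ct] at hy'
      have e1 : (A ∪ S) ∪ {y} = insert y A ∪ S := by
        ext z; simp only [Finset.mem_union, Finset.mem_insert, Finset.mem_singleton]; tauto
      rw [e1] at hy'
      have h4 := hC.single hct hy (hne y hy)
      rw [e0] at h4
      have e2 : ct r (A ∪ S) {y} = r (insert y A ∪ S) := by
        show r ({y} ∪ (A ∪ S)) = r (insert y A ∪ S)
        congr 1
        ext z; simp only [Finset.mem_union, Finset.mem_insert, Finset.mem_singleton]; tauto
      rw [e2] at h4
      have e3 : P'.erase y ∪ (insert y A ∪ S) = P' ∪ (A ∪ S) := by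
        ext z
        simp only [Finset.mem_union, Finset.mem_erase, Finset.mem_insert]
        by_cases h : z = y
        · subst h; simp [hy]
        · simp [h]
      have e4 : P'.erase y ∪ insert y A = P' ∪ A := by
        ext z
        simp only [Finset.mem_union, Finset.mem_erase, Finset.mem_insert]
        by_cases h : z = y
        · subst h; simp [hy]
        · simp [h]
      have h5 := hr.ins y A
      have h6 := hr.sub4 (A := insert y A) (B := A ∪ S) (C := insert y A ∪ S) (D := A)
        (by intro z hz; simp only [Finset.mem_union, Finset.mem_insert] at hz ⊢; tauto)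
        (by intro z hz; simp only [Finset.mem_union, Finset.mem_inter, Finset.mem_insert] at hz ⊢
            tauto)
      refine IH _ (hcard y hy) (insert y A) (P'.erase y) rfl ?_ ?_ ?_ hy' ?_ ?_ ?_
      · exact Finset.insert_subset (hP' hy) hA
      · exact (Finset.erase_subset _ _).trans hP'
      · rw [Finset.disjoint_left] at hd ⊢
        intro z hz hz'
        rw [Finset.mem_insert] at hz
        rw [Finset.mem_erase] at hz'
        rcases hz with hz | hz
        · exact hz'.1 hz
        · exact hd hz hz'.2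
      · rw [e3]; omega
      · omega
      · rw [e3, e4]; omega
    · push Not at hi
      have hdel : ∀ y ∈ P', Conn (ct r (A ∪ S)) (P'.erase y) := by
        intro y hy
        rcases hC.tutte hct hy with h | h
        · exact h
        · exact absurd h (hi y hy)
      have herase : ∀ y ∈ P', r (P'.erase y ∪ (A ∪ S)) = r (P' ∪ (A ∪ S)) := by
        intro y hy
        exact hC.erase_eq hct hy (hne y hy)
      have fin : ∀ y ∈ P', r (P' ∪ (A ∪ S)) + r A + 2 ≤ r (P'.erase y ∪ A) + r (A ∪ S) →
          Trip r S P := by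
        intro y hy h2
        refine IH _ (hcard y hy) A (P'.erase y) rfl hA ((Finset.erase_subset _ _).trans hP')
          (hd.mono_right (Finset.erase_subset _ _)) (hdel y hy) ?_ hsk ?_
        · rw [herase y hy]; exact hlt
        · rw [herase y hy]; exact h2
      by_cases hii : ∃ y ∈ P', r (P' ∪ (A ∪ S)) + r A + 2 ≤ r (P'.erase y ∪ A) + r (A ∪ S)
      · obtain ⟨y, hy, h2⟩ := hii
        exact fin y hy h2
      · exfalso
        push Not at hii
        have hcol : ∀ y ∈ P', r (P'.erase y ∪ A) < r (P' ∪ A) := by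
          intro y hy
          have := hii y hy
          omega
        have h7 := all_coloop hr hcol
        obtain ⟨y, hy⟩ : P'.Nonempty := by
          rw [← Finset.card_pos]; omega
        have h8 := hii y hy
        have h9 : r (P' ∪ A) ≤ r (P'.erase y ∪ A) + 1 := by
          have h10 := hr.ins y (P'.erase y ∪ A)
          rw [← Finset.insert_union, Finset.insert_erase hy] at h10
          exact h10
        obtain ⟨z, hz, hz'⟩ := corank_two hct hC (by rw [e0, eP]; omega) (by rw [e0, eP]; omega)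
        exact hi z hz hz'

/-- `triple_aux` with `A = ∅`, `P' = P` -/
theorem triple (hr : IsRk r) {S P : Finset α} (hC : Conn (ct r S) P) (hne : r S < r (P ∪ S))
    (hg : r (P ∪ S) + r ∅ + 2 ≤ r P + r S) : Trip r S P := by
  refine triple_aux hr P.card ∅ P rfl (Finset.empty_subset _) (Finset.Subset.refl _)
    (Finset.disjoint_empty_left _) ?_ ?_ ?_ ?_
  · rw [Finset.empty_union]; exact hC
  · rw [Finset.empty_union]; exact hne
  · rw [Finset.empty_union]; omega
  · rw [Finset.empty_union, Finset.union_empty]; exact hg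

end Pool.MP_4929df_co.H92
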