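import Pool.Agent.W_4929df_h92.FinA
import Pool.Agent.W_4929df_h92.TripleB

/-!
Triples of vectors and four equal ones (step 9 of proofs row 546).
-/

set_option autoImplicit false

namespace Pool.MP_4929df_co.H92

open Submodule

variable {F : Type} [Field F] {V : Type} [AddCommGroup V] [Module F V]
  {α : Type} [DecidableEq α] {v : α → V} {Y : Submodule F V} {G : Finset α} {H : Set V}

/-- `P` contains elements `a, b, c` with vectors `a`, `a + u`, `a + w` up to scalars, modulo a set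
`A ⊆ P` skew to `S` -/
def TV (v : α → V) (Y : Submodule F V) (S P : Finset α) (u w : V) : Prop :=
  ∃ A ⊆ P, ∃ a ∈ P, ∃ b ∈ P, ∃ c ∈ P, ∃ β γ : F, β ≠ 0 ∧ γ ≠ 0 ∧
    β • v b - v a - u ∈ Sp F v A ⊔ Y ∧ γ • v c - v a - w ∈ Sp F v A ⊔ Y ∧
    v a ∉ Sp F v (A ∪ S) ⊔ Y ∧ rk F v Y (A ∪ S) + rk F v Y ∅ = rk F v Y A + rk F v Y S

/-- the coefficient and the vector of `S` for one element -/
theorem FinB_ratio {A S : Finset α} {a b : α} (hb : v b ∉ Sp F v (A ∪ S) ⊔ Y)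
    (h : v b ∈ Sp F v (insert a (A ∪ S)) ⊔ Y) :
    ∃ β : F, β ≠ 0 ∧ ∃ u ∈ Sp F v S, β • v b - v a - u ∈ Sp F v A ⊔ Y := by
  rw [Sp_insert, Sp_union, sup_assoc, sup_assoc] at h
  obtain ⟨p, hp, q, hq, hpq⟩ := mem_sup.1 h
  obtain ⟨x, rfl⟩ := mem_span_singleton.1 hp
  obtain ⟨q1, hq1, q2, hq2, rfl⟩ := mem_sup.1 hq
  obtain ⟨s, hs, y, hy, rfl⟩ := mem_sup.1 hq2
  have hx : x ≠ 0 := by
    rintro rfl
    apply hb
    rw [← hpq, Sp_union, sup_assoc, zero_smul, zero_add]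
    exact hq
  refine ⟨x⁻¹, inv_ne_zero hx, x⁻¹ • s, smul_mem _ _ hs, ?_⟩
  have e : x⁻¹ • v b - v a - x⁻¹ • s = x⁻¹ • q1 + x⁻¹ • y := by
    rw [← hpq, smul_add, smul_smul, inv_mul_cancel₀ hx, one_smul, smul_add, smul_add]
    abel
  rw [e]
  exact add_mem (mem_sup_left (smul_mem _ _ hq1)) (mem_sup_right (smul_mem _ _ hy))

variable [FiniteDimensional F V]

/-- From `Trip`: `v b ∈ span {v a} ⊔ (Sp F v (A ∪ S) ⊔ Y)` (dimensions: `sup_eq_of_rk_le`), so
`v b = x • v a + s + z`, `s ∈ Sp F v S`, `z ∈ Sp F v A ⊔ Y`, and `x ≠ 0` because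
`v b ∉ Sp F v (A ∪ S) ⊔ Y` (`not_cl_iff`); `β = x⁻¹`, `u = β • s`. The same for `c`. If
`x • u + y • w ∈ Y`, then `x • (β • v b - v a) + y • (γ • v c - v a) ∈ Sp F v A ⊔ Y`, and
`rk ({a, b, c} ∪ A) = rk A + 3` gives `x = y = 0` (`indep_rel` for `{a, b, c}` modulo
`Sp F v A ⊔ Y`, `ct_rk`). -/
theorem trip_vec {S P : Finset α} (h : Trip (rk F v Y) S P) :
    ∃ u ∈ Sp F v S, ∃ w ∈ Sp F v S, (∀ x y : F, x • u + y • w ∈ Y → x = 0 ∧ y = 0) ∧
      TV v Y S P u w := by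
  obtain ⟨A, hAP, a, haP, b, hbP, c, hcP, -, -, -, hab, hac, hbc, h0, ha1, hb1, hc1, h3, h4⟩ := h
  have hsup : Sp F v (insert a (A ∪ S)) ⊔ Y = Sp F v ({a, b, c} ∪ (A ∪ S)) ⊔ Y := by
    refine sup_eq_of_rk_le ?_ (by omega)
    intro z hz
    simp only [Finset.mem_insert, Finset.mem_union, Finset.mem_singleton] at hz ⊢
    tauto
  have hb2 : v b ∈ Sp F v (insert a (A ∪ S)) ⊔ Y := by
    rw [hsup]
    exact mem_sup_left (mem_Sp (by simp))
  have hc2 : v c ∈ Sp F v (insert a (A ∪ S)) ⊔ Y := by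
    rw [hsup]
    exact mem_sup_left (mem_Sp (by simp))
  obtain ⟨β, hβ, u, hu, hbu⟩ := FinB_ratio (not_cl_iff.1 hb1) hb2
  obtain ⟨γ, hγ, w, hw, hcw⟩ := FinB_ratio (not_cl_iff.1 hc1) hc2
  refine ⟨u, hu, w, hw, ?_, A, hAP, a, haP, b, hbP, c, hcP, β, γ, hβ, hγ, hbu, hcw,
    not_cl_iff.1 ha1, h0⟩
  intro x y hxy
  have hcard : ({a, b, c} : Finset α).card = 3 := Finset.card_eq_three.2 ⟨a, b, c, hab, hac, hbc, rfl⟩
  have hrk : rk F v (Sp F v A ⊔ Y) {a, b, c} =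
      Module.finrank F (Sp F v A ⊔ Y : Submodule F V) + ({a, b, c} : Finset α).card := by
    rw [hcard, ← ct_rk]
    exact h4
  have hmem : x • (β • v b - v a) + y • (γ • v c - v a) ∈ Sp F v A ⊔ Y := by
    have e : x • (β • v b - v a) + y • (γ • v c - v a) =
        x • (β • v b - v a - u) + y • (γ • v c - v a - w) + (x • u + y • w) := by
      module
    rw [e]
    exact add_mem (add_mem (smul_mem _ _ hbu) (smul_mem _ _ hcw)) (mem_sup_right hxy)
  have key := indep_rel hrk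
    (c := fun z => if z = a then -(x + y) else if z = b then x * β else y * γ) (by
      rw [Finset.sum_insert (by simp [hab, hac]), Finset.sum_insert (by simp [hbc]),
        Finset.sum_singleton]
      simp only [if_true, if_neg hab.symm, if_neg hac.symm, if_neg hbc.symm]
      have e : -(x + y) • v a + ((x * β) • v b + (y * γ) • v c) =
          x • (β • v b - v a) + y • (γ • v c - v a) := by
        module
      rw [e]
      exact hmem)
  have kb := key b (by simp)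
  have kc := key c (by simp)
  simp only [if_neg hab.symm, if_neg hac.symm, if_neg hbc.symm, if_true] at kb kc
  exact ⟨(mul_eq_zero.1 kb).resolve_right hβ, (mul_eq_zero.1 kc).resolve_right hγ⟩

/-- Step 9, pigeonhole: `triple` and `trip_vec` for every `k` give a map from `Fin K` to
`Sp F v S × Sp F v S`, a set with at most `8 ^ 128` elements (`8 ^ S.card ≤ 8 ^ 64`), so four
indices have the same value (`Finset.exists_le_card_fiber_of_mul_le_card_of_maps_to` or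
`Finset.exists_lt_card_fiber_of_mul_lt_card_of_maps_to`). -/
theorem exists_four (h8 : Nat.card F = 8) {S : Finset α} {P : Fin (3 * 8 ^ 128 + 1) → Finset α}
    (h : Fat (rk F v Y) G S (3 * 8 ^ 128 + 1) P) :
    ∃ u ∈ Sp F v S, ∃ w ∈ Sp F v S, (∀ x y : F, x • u + y • w ∈ Y → x = 0 ∧ y = 0) ∧
      ∃ P' : Fin 4 → Finset α, (∀ k, P' k ⊆ G \ S) ∧ (∀ k l, k ≠ l → Disjoint (P' k) (P' l)) ∧
        (∀ k, rk F v Y (P' k ∪ S) + rk F v Y (G \ P' k) = rk F v Y G + rk F v Y S) ∧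
        ∀ k, TV v Y S (P' k) u w := by
  classical
  have hF : Finite F := Nat.finite_of_card_ne_zero (by omega)
  have hV : Finite (Sp F v S) := Module.finite_of_finite F
  have hcS : Nat.card (Sp F v S) ≤ 8 ^ 64 := by
    rw [Module.natCard_eq_pow_finrank (K := F), h8]
    refine Nat.pow_le_pow_right (by norm_num) (le_trans ?_ h.hcard)
    have h1 := finrank_span_finset_le_card (R := F) (M := V) (S.image v)
    rw [Finset.coe_image] at h1
    exact h1.trans Finset.card_image_le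
  have ht : ∀ k, ∃ u ∈ Sp F v S, ∃ w ∈ Sp F v S, (∀ x y : F, x • u + y • w ∈ Y → x = 0 ∧ y = 0) ∧
      TV v Y S (P k) u w := fun k =>
    trip_vec (triple (rk_isRk v Y) (h.hconn k) (h.hne k) (h.hfat k))
  choose u hu w hw hi hT using ht
  have := Fintype.ofFinite (Sp F v S)
  let f : Fin (3 * 8 ^ 128 + 1) → Sp F v S × Sp F v S := fun k => (⟨u k, hu k⟩, ⟨w k, hw k⟩)
  have hcard : Fintype.card (Sp F v S × Sp F v S) * 3 < Fintype.card (Fin (3 * 8 ^ 128 + 1)) := by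
    rw [Fintype.card_prod, Fintype.card_fin]
    rw [Nat.card_eq_fintype_card] at hcS
    have h1 := Nat.mul_le_mul hcS hcS
    have e : (8 : ℕ) ^ 64 * 8 ^ 64 = 8 ^ 128 := by norm_num
    rw [e] at h1
    omega
  obtain ⟨y, hy⟩ := Fintype.exists_lt_card_fiber_of_mul_lt_card f hcard
  obtain ⟨T, hTs, hT4⟩ := Finset.exists_subset_card_eq (show 4 ≤ _ from hy)
  have hTy : ∀ k : Fin 4, f (T.orderEmbOfFin hT4 k) = y := fun k =>
    (Finset.mem_filter.1 (hTs (T.orderEmbOfFin_mem hT4 k))).2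
  have hu' : ∀ k : Fin 4, u (T.orderEmbOfFin hT4 k) = y.1 := fun k => by
    rw [← hTy k]
  have hw' : ∀ k : Fin 4, w (T.orderEmbOfFin hT4 k) = y.2 := fun k => by
    rw [← hTy k]
  refine ⟨y.1, y.1.2, y.2, y.2.2, ?_, fun k => P (T.orderEmbOfFin hT4 k), fun k => h.hPG _,
    fun k l hkl => h.hdisj _ _ fun he => hkl ((T.orderEmbOfFin hT4).injective he),
    fun k => h.hsep _, fun k => ?_⟩
  · rw [← hu' 0, ← hw' 0]
    exact hi _
  · rw [← hu' k, ← hw' k]
    exact hT _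

end Pool.MP_4929df_co.H92
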