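import Pool.Agent.W_4929df_h92.FinB

/-!
The coordinates (step 9 of proofs row 546).
-/

set_option autoImplicit false

namespace Pool.MP_4929df_co.H92

open Submodule

variable {F : Type} [Field F] {V : Type} [AddCommGroup V] [Module F V]
  {α : Type} [DecidableEq α] {v : α → V} {Y : Submodule F V} {G : Finset α} {H : Set V}

/-- the model: modulo `Sp F v D ⊔ Y` the space `Sp F v G ⊔ Y` has the basis `v (a k)` (`k < 4`),
`u`, `w`, with coordinates `Λ`, and `b k`, `c k` are `a k + u`, `a k + w` up to scalars -/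
structure Model (v : α → V) (Y : Submodule F V) (G D : Finset α) (a b c : Fin 4 → α) (u w : V)
    (β γ : Fin 4 → F) (Λ : V →ₗ[F] (Fin 4 → F) × F × F) : Prop where
  hD : D ⊆ G
  ha : ∀ k, a k ∈ G
  hb : ∀ k, b k ∈ G
  hc : ∀ k, c k ∈ G
  hβ : ∀ k, β k ≠ 0
  hγ : ∀ k, γ k ≠ 0
  hu : u ∈ Sp F v G ⊔ Y
  hw : w ∈ Sp F v G ⊔ Y
  hbk : ∀ k, β k • v (b k) - v (a k) - u ∈ Sp F v D ⊔ Y
  hck : ∀ k, γ k • v (c k) - v (a k) - w ∈ Sp F v D ⊔ Y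
  hΛD : ∀ z ∈ Sp F v D ⊔ Y, Λ z = 0
  hΛa : ∀ k, Λ (v (a k)) = (Pi.single k 1, 0, 0)
  hΛu : Λ u = (0, 1, 0)
  hΛw : Λ w = (0, 0, 1)
  hdec : ∀ g ∈ Sp F v G ⊔ Y,
    g - (∑ k, (Λ g).1 k • v (a k) + (Λ g).2.1 • u + (Λ g).2.2 • w) ∈ Sp F v D ⊔ Y

end Pool.MP_4929df_co.H92
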