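import Pool.Agent.W_4929df_h92.FinC0

/-!
The coordinates (step 9 of proofs row 546).
-/

set_option autoImplicit false

namespace Pool.MP_4929df_co.H92

open Submodule

variable {F : Type} [Field F] {V : Type} [AddCommGroup V] [Module F V]
  {α : Type} [DecidableEq α] {v : α → V} {Y : Submodule F V} {G : Finset α} {H : Set V}

variable [FiniteDimensional F V]

omit [DecidableEq α] [FiniteDimensional F V] in
theorem FinC1_mono {A B : Finset α} (h : A ⊆ B) {q : V} (hq : q ∈ Sp F v A ⊔ Y) :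
    q ∈ Sp F v B ⊔ Y := by
  have h1 : Sp F v A ⊔ Y ≤ Sp F v B ⊔ Y := sup_le_sup_right (Sp_mono h) _
  exact h1 hq

/-- the intersection of two spaces, by dimensions -/
theorem FinC1_inf {A B D : Finset α} (hDA : D ⊆ A) (hDB : D ⊆ B)
    (h : rk F v Y A + rk F v Y B = rk F v Y (A ∪ B) + rk F v Y D) {q : V}
    (h1 : q ∈ Sp F v A ⊔ Y) (h2 : q ∈ Sp F v B ⊔ Y) : q ∈ Sp F v D ⊔ Y := by
  have e := Submodule.finrank_sup_add_finrank_inf_eq (Sp F v A ⊔ Y) (Sp F v B ⊔ Y)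
  have e1 : Sp F v A ⊔ Y ⊔ (Sp F v B ⊔ Y) = Sp F v (A ∪ B) ⊔ Y := by
    rw [Sp_union, sup_sup_sup_comm, sup_idem]
  rw [e1] at e
  have h3 : Sp F v D ⊔ Y ≤ (Sp F v A ⊔ Y) ⊓ (Sp F v B ⊔ Y) :=
    le_inf (sup_le_sup_right (Sp_mono hDA) _) (sup_le_sup_right (Sp_mono hDB) _)
  have h4 : Sp F v D ⊔ Y = (Sp F v A ⊔ Y) ⊓ (Sp F v B ⊔ Y) := by
    refine Submodule.eq_of_le_of_finrank_le h3 ?_
    unfold rk at h
    omega
  rw [h4]
  exact ⟨h1, h2⟩

omit [FiniteDimensional F V] in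
/-- elements of the span of a union -/
theorem FinC1_dec {A : Fin 4 → Finset α} {q : V} (hq : q ∈ Sp F v (Finset.univ.biUnion A)) :
    ∃ z : Fin 4 → V, (∀ k, z k ∈ Sp F v (A k)) ∧ ∑ k, z k = q := by
  unfold Sp at hq
  induction hq using Submodule.span_induction with
  | mem y hy =>
    obtain ⟨a, ha, rfl⟩ := hy
    have ha' : a ∈ Finset.univ.biUnion A := by exact_mod_cast ha
    obtain ⟨k, -, hk⟩ := Finset.mem_biUnion.1 ha'
    refine ⟨fun l => if l = k then v a else 0, fun l => ?_, ?_⟩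
    · by_cases hl : l = k
      · subst hl
        simpa using mem_Sp (F := F) (v := v) hk
      · simp [hl]
    · simp
  | zero => exact ⟨fun _ => 0, fun k => Submodule.zero_mem _, by simp⟩
  | add y y' _ _ ih ih' =>
    obtain ⟨z, hz, hs⟩ := ih
    obtain ⟨z', hz', hs'⟩ := ih'
    refine ⟨fun k => z k + z' k, fun k => Submodule.add_mem _ (hz k) (hz' k), ?_⟩
    rw [Finset.sum_add_distrib, hs, hs']
  | smul c y _ ih =>
    obtain ⟨z, hz, hs⟩ := ih
    refine ⟨fun k => c • z k, fun k => Submodule.smul_mem _ _ (hz k), ?_⟩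
    rw [← Finset.smul_sum, hs]

/-- Components are independent modulo `S`: `x l` is in `Sp F v (G \ P k) ⊔ Y` for `l ≠ k`, so
`x k ∈ (Sp F v (P k ∪ S) ⊔ Y) ⊓ (Sp F v (G \ P k) ⊔ Y)`, which is `Sp F v S ⊔ Y` by the dimension
formula `hsep` (`S ⊆ G \ P k`, the sum is `Sp F v G ⊔ Y`). -/
theorem multi_sep {S : Finset α} {P : Fin 4 → Finset α} (hS : S ⊆ G) (hPG : ∀ k, P k ⊆ G \ S)
    (hdisj : ∀ k l, k ≠ l → Disjoint (P k) (P l))
    (hsep : ∀ k, rk F v Y (P k ∪ S) + rk F v Y (G \ P k) = rk F v Y G + rk F v Y S)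
    {x : Fin 4 → V} (hx : ∀ k, x k ∈ Sp F v (P k) ⊔ Y) (hsum : ∑ k, x k ∈ Sp F v S ⊔ Y) :
    ∀ k, x k ∈ Sp F v S ⊔ Y := by
  intro k
  have hSk : S ⊆ G \ P k := by
    intro a ha
    rw [Finset.mem_sdiff]
    refine ⟨hS ha, fun h => ?_⟩
    exact (Finset.mem_sdiff.1 (hPG k h)).2 ha
  have hG : P k ∪ S ∪ G \ P k = G := by
    ext a
    have h1 := @hS a
    have h2 := @hPG k a
    simp only [Finset.mem_union, Finset.mem_sdiff] at h2 ⊢
    tauto
  refine FinC1_inf (A := P k ∪ S) (B := G \ P k) Finset.subset_union_right hSk ?_ ?_ ?_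
  · rw [hG]
    exact hsep k
  · exact FinC1_mono Finset.subset_union_left (hx k)
  · have e : x k = ∑ l, x l - ∑ l ∈ Finset.univ.erase k, x l := by
      rw [← Finset.add_sum_erase _ _ (Finset.mem_univ k)]
      abel
    rw [e]
    refine Submodule.sub_mem _ (FinC1_mono hSk hsum)
      (Submodule.sum_mem _ fun l hl => ?_)
    have hlk : l ≠ k := Finset.ne_of_mem_erase hl
    refine FinC1_mono ?_ (hx l)
    intro a ha
    rw [Finset.mem_sdiff]
    exact ⟨(Finset.mem_sdiff.1 (hPG l ha)).1, Finset.disjoint_left.1 (hdisj l k hlk) ha⟩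

/-- The six vectors are independent modulo `Sp F v (⋃ A k) ⊔ Y`. Write the element of
`Sp F v (univ.biUnion A) ⊔ Y` as `∑ z k + y`, `z k ∈ Sp F v (A k)`; `multi_sep` for
`x k • v (a k) - z k` (the sum is `- s • u - t • w + y ∈ Sp F v S ⊔ Y`) gives
`x k • v (a k) ∈ Sp F v (A k ∪ S) ⊔ Y`, so `x k = 0`; then `z k ∈ Sp F v S ⊔ Y` and
`z k ∈ Sp F v (A k)`, so `z k ∈ Y` (`hsk`: the intersection of `Sp F v (A k) ⊔ Y` and
`Sp F v S ⊔ Y` is `Y` by dimensions), so `s • u + t • w ∈ Y` and `s = t = 0`. -/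
theorem six_indep {S : Finset α} {P A : Fin 4 → Finset α} {a : Fin 4 → α} {u w : V} (hS : S ⊆ G)
    (hPG : ∀ k, P k ⊆ G \ S) (hdisj : ∀ k l, k ≠ l → Disjoint (P k) (P l))
    (hsep : ∀ k, rk F v Y (P k ∪ S) + rk F v Y (G \ P k) = rk F v Y G + rk F v Y S)
    (hA : ∀ k, A k ⊆ P k) (ha : ∀ k, a k ∈ P k) (haA : ∀ k, v (a k) ∉ Sp F v (A k ∪ S) ⊔ Y)
    (hsk : ∀ k, rk F v Y (A k ∪ S) + rk F v Y ∅ = rk F v Y (A k) + rk F v Y S)
    (hu : u ∈ Sp F v S) (hw : w ∈ Sp F v S)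
    (huw : ∀ x y : F, x • u + y • w ∈ Y → x = 0 ∧ y = 0) {x : Fin 4 → F} {s t : F}
    (h : ∑ k, x k • v (a k) + s • u + t • w ∈ Sp F v (Finset.univ.biUnion A) ⊔ Y) :
    (∀ k, x k = 0) ∧ s = 0 ∧ t = 0 := by
  obtain ⟨q, hq, y, hy, hqy⟩ := Submodule.mem_sup.1 h
  obtain ⟨z, hz, hzq⟩ := FinC1_dec hq
  have hzP : ∀ k, z k ∈ Sp F v (P k) := fun k => Sp_mono (hA k) (hz k)
  have hX : ∀ k, x k • v (a k) - z k ∈ Sp F v (P k) ⊔ Y := fun k =>
    Submodule.mem_sup_left (Submodule.sub_mem _ (Submodule.smul_mem _ _ (mem_Sp (ha k))) (hzP k))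
  have hsum : ∑ k, (x k • v (a k) - z k) ∈ Sp F v S ⊔ Y := by
    have e : ∑ k, (x k • v (a k) - z k) = y + (-(s • u) - t • w) := by
      rw [Finset.sum_sub_distrib, hzq]
      have e1 : ∑ k, x k • v (a k) = q + y - s • u - t • w := by
        rw [hqy]
        abel
      rw [e1]
      abel
    rw [e]
    refine Submodule.add_mem _ (Submodule.mem_sup_right hy) (Submodule.mem_sup_left ?_)
    exact Submodule.sub_mem _ (Submodule.neg_mem _ (Submodule.smul_mem _ _ hu))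
      (Submodule.smul_mem _ _ hw)
  have hX' := multi_sep hS hPG hdisj hsep hX hsum
  have hx0 : ∀ k, x k = 0 := by
    intro k
    by_contra hne
    apply haA k
    have h1 : x k • v (a k) ∈ Sp F v (A k ∪ S) ⊔ Y := by
      have e : x k • v (a k) = (x k • v (a k) - z k) + z k := by abel
      rw [e]
      refine Submodule.add_mem _ (FinC1_mono Finset.subset_union_right (hX' k))
        (Submodule.mem_sup_left (Sp_mono Finset.subset_union_left (hz k)))
    have h2 := Submodule.smul_mem _ (x k)⁻¹ h1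
    rwa [smul_smul, inv_mul_cancel₀ hne, one_smul] at h2
  have hzY : ∀ k, z k ∈ Y := by
    intro k
    have h1 : z k ∈ Sp F v S ⊔ Y := by
      have h2 := hX' k
      rw [hx0 k, zero_smul, zero_sub] at h2
      exact (Submodule.neg_mem_iff _).1 h2
    have h3 := FinC1_inf (A := A k) (B := S) (D := ∅) (Finset.empty_subset _)
      (Finset.empty_subset _) (hsk k).symm (Submodule.mem_sup_left (hz k)) h1
    rwa [Sp_empty, bot_sup_eq] at h3
  refine ⟨hx0, huw s t ?_⟩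
  have e : s • u + t • w = q + y := by
    rw [hqy]
    simp [hx0]
  rw [e, ← hzq]
  exact Submodule.add_mem _ (Submodule.sum_mem _ fun k _ => hzY k) hy

end Pool.MP_4929df_co.H92
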