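import Pool.Agent.W_4929df_h92.FinD4

/-!
The parity argument and the contradiction (steps 9, 10 of proofs row 546).
-/

set_option autoImplicit false

namespace Pool.MP_4929df_co.H92

open Submodule

variable {F : Type} [Field F] {V : Type} [AddCommGroup V] [Module F V]
  {α : Type} [DecidableEq α] {v : α → V} {Y : Submodule F V} {G D : Finset α} {H : Set V}
  {a b c : Fin 4 → α} {u w : V} {β γ : Fin 4 → F} {Λ : V →ₗ[F] (Fin 4 → F) × F × F}

/-- the functional `l k` -/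
def FinD3_one (F : Type) [Field F] (k : Fin 4) : ((Fin 4 → F) × F × F) →ₗ[F] F where
  toFun p := p.1 k
  map_add' p q := by simp only [Prod.fst_add, Pi.add_apply]
  map_smul' r p := by
    simp only [Prod.smul_fst, Pi.smul_apply, smul_eq_mul, RingHom.id_apply]

/-- the functional `m + n + ∑ k ∈ T, l k` -/
def FinD3_phi (F : Type) [Field F] (T : Finset (Fin 4)) : ((Fin 4 → F) × F × F) →ₗ[F] F where
  toFun p := p.2.1 + p.2.2 + ∑ k ∈ T, p.1 k
  map_add' p q := by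
    simp only [Prod.fst_add, Prod.snd_add, Pi.add_apply, Finset.sum_add_distrib]
    ring
  map_smul' r p := by
    simp only [Prod.smul_fst, Prod.smul_snd, Pi.smul_apply, smul_eq_mul, RingHom.id_apply,
      ← Finset.mul_sum]
    ring

/-- `(Λ h).1 k ≠ 0`. `X = D ∪ {a l, b l, c l : l ≠ k}`, `φ x = x.1 k`, `g = v (a k)` in `Model.ne`. If
`(Λ h).1 k = 0`, then `h ∈ Sp F v X ⊔ Y` by `hdec`: `u = β l • v (b l) - v (a l)` modulo
`Sp F v D ⊔ Y` for some `l ≠ k`, and `w` with `c l`. -/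
theorem Model.c1 (hM : Model v Y G D a b c u w β γ Λ) (hg : Gen v Y G H) {h : V} (hh : h ∈ H)
    (k : Fin 4) : (Λ h).1 k ≠ 0 := by
  classical
  intro h0
  obtain ⟨l0, hl0⟩ : ∃ l : Fin 4, l ≠ k := exists_ne k
  set X : Finset α := D ∪ (({k} : Finset (Fin 4))ᶜ.image a ∪ ({k} : Finset (Fin 4))ᶜ.image b) ∪
    ({k} : Finset (Fin 4))ᶜ.image c with hX
  have hXG : X ⊆ G := by
    intro x hx
    simp only [hX, Finset.mem_union, Finset.mem_image, Finset.mem_compl] at hx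
    rcases hx with (hx | ⟨k, -, rfl⟩ | ⟨k, -, rfl⟩) | ⟨k, -, rfl⟩
    · exact hM.hD hx
    · exact hM.ha k
    · exact hM.hb k
    · exact hM.hc k
  have hφ : ∀ x ∈ X, FinD3_one F k (Λ (v x)) = 0 := by
    intro x hx
    simp only [hX, Finset.mem_union, Finset.mem_image, Finset.mem_compl,
      Finset.mem_singleton] at hx
    rcases hx with (hx | ⟨l, hl, rfl⟩ | ⟨l, hl, rfl⟩) | ⟨l, hl, rfl⟩
    · rw [hM.hΛD _ (mem_sup_left (mem_Sp hx)), map_zero]
    · rw [hM.hΛa]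
      show (Pi.single l (1 : F) : Fin 4 → F) k = 0
      rw [Pi.single_eq_of_ne (Ne.symm hl)]
    · rw [(hM.coord l).1, map_smul]
      show (β l)⁻¹ • (Pi.single l (1 : F) : Fin 4 → F) k = 0
      rw [Pi.single_eq_of_ne (Ne.symm hl), smul_zero]
    · rw [(hM.coord l).2, map_smul]
      show (γ l)⁻¹ • (Pi.single l (1 : F) : Fin 4 → F) k = 0
      rw [Pi.single_eq_of_ne (Ne.symm hl), smul_zero]
  have hne : FinD3_one F k (Λ (v (a k))) ≠ 0 := by
    rw [hM.hΛa]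
    show (Pi.single k (1 : F) : Fin 4 → F) k ≠ 0
    rw [Pi.single_eq_same]
    exact one_ne_zero
  refine hM.ne hg hXG _ hφ (mem_sup_left (mem_Sp (hM.ha k))) hne hh ?_
  have hDX : Sp F v D ⊔ Y ≤ Sp F v X ⊔ Y :=
    sup_le_sup_right (Sp_mono (Finset.subset_union_left.trans Finset.subset_union_left)) _
  have ha : ∀ l, l ≠ k → v (a l) ∈ Sp F v X ⊔ Y := fun l hl =>
    mem_sup_left (mem_Sp (by
      simp only [hX, Finset.mem_union, Finset.mem_image, Finset.mem_compl, Finset.mem_singleton]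
      exact Or.inl (Or.inr (Or.inl ⟨l, hl, rfl⟩))))
  have hb : v (b l0) ∈ Sp F v X ⊔ Y :=
    mem_sup_left (mem_Sp (by
      simp only [hX, Finset.mem_union, Finset.mem_image, Finset.mem_compl, Finset.mem_singleton]
      exact Or.inl (Or.inr (Or.inr ⟨l0, hl0, rfl⟩))))
  have hc : v (c l0) ∈ Sp F v X ⊔ Y :=
    mem_sup_left (mem_Sp (by
      simp only [hX, Finset.mem_union, Finset.mem_image, Finset.mem_compl, Finset.mem_singleton]
      exact Or.inr ⟨l0, hl0, rfl⟩))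
  have hu : u ∈ Sp F v X ⊔ Y := by
    have e1 := hDX (hM.hbk l0)
    have e2 : u = β l0 • v (b l0) - v (a l0) - (β l0 • v (b l0) - v (a l0) - u) := by abel
    rw [e2]
    exact sub_mem (sub_mem (smul_mem _ _ hb) (ha l0 hl0)) e1
  have hw : w ∈ Sp F v X ⊔ Y := by
    have e1 := hDX (hM.hck l0)
    have e2 : w = γ l0 • v (c l0) - v (a l0) - (γ l0 • v (c l0) - v (a l0) - w) := by abel
    rw [e2]
    exact sub_mem (sub_mem (smul_mem _ _ hc) (ha l0 hl0)) e1
  have e3 := hDX (hM.hdec h (hg.h1 h hh))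
  have e4 : ∑ l, (Λ h).1 l • v (a l) + (Λ h).2.1 • u + (Λ h).2.2 • w ∈ Sp F v X ⊔ Y := by
    refine add_mem (add_mem (sum_mem fun l _ => ?_) (smul_mem _ _ hu)) (smul_mem _ _ hw)
    by_cases hl : l = k
    · rw [hl, h0, zero_smul]
      exact zero_mem _
    · exact smul_mem _ _ (ha l hl)
  have e5 := add_mem e3 e4
  rwa [sub_add_cancel] at e5

/-- `m + n + ∑ k ∈ T, l k ≠ 0` for `T` nonempty (characteristic 2: `Nat.card F = 8`).
`X = D ∪ {a k : k ∉ T} ∪ {b k, c k : k ∈ T}`, `φ (l, m, n) = m + n + ∑ k ∈ T, l k`, `g = u`. If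
`φ (Λ h) = 0` then `h ∈ Sp F v X ⊔ Y`: modulo `Sp F v X ⊔ Y`, `v (a k) = u` (`= - u`) for `k ∈ T`
(by `b k`), `v (a k) = w` (by `c k`), so `u = w` (`T` nonempty), `v (a k) = 0` for `k ∉ T`, and by
`hdec` `h = φ (Λ h) • u = 0`. -/
theorem Model.c2 (hM : Model v Y G D a b c u w β γ Λ) (hg : Gen v Y G H) {h : V} (hh : h ∈ H)
    {T : Finset (Fin 4)} (hT : T.Nonempty) :
    (Λ h).2.1 + (Λ h).2.2 + ∑ k ∈ T, (Λ h).1 k ≠ 0 := by
  classical
  intro h0
  have h2 := FinD4_two hg.h8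
  obtain ⟨k0, hk0⟩ := hT
  set X : Finset α := D ∪ (Tᶜ.image a ∪ T.image b) ∪ T.image c with hX
  have hXG : X ⊆ G := by
    intro x hx
    simp only [hX, Finset.mem_union, Finset.mem_image, Finset.mem_compl] at hx
    rcases hx with (hx | ⟨k, -, rfl⟩ | ⟨k, -, rfl⟩) | ⟨k, -, rfl⟩
    · exact hM.hD hx
    · exact hM.ha k
    · exact hM.hb k
    · exact hM.hc k
  have hφ : ∀ x ∈ X, FinD3_phi F T (Λ (v x)) = 0 := by
    intro x hx
    simp only [hX, Finset.mem_union, Finset.mem_image, Finset.mem_compl] at hx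
    rcases hx with (hx | ⟨k, hk, rfl⟩ | ⟨k, hk, rfl⟩) | ⟨k, hk, rfl⟩
    · rw [hM.hΛD _ (mem_sup_left (mem_Sp hx)), map_zero]
    · rw [hM.hΛa]
      show (0 : F) + 0 + ∑ j ∈ T, (Pi.single k (1 : F) : Fin 4 → F) j = 0
      rw [zero_add, zero_add, Finset.sum_pi_single', if_neg hk]
    · rw [(hM.coord k).1, map_smul]
      show (β k)⁻¹ • ((1 : F) + 0 + ∑ j ∈ T, (Pi.single k (1 : F) : Fin 4 → F) j) = 0
      rw [add_zero, Finset.sum_pi_single', if_pos hk, h2, smul_zero]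
    · rw [(hM.coord k).2, map_smul]
      show (γ k)⁻¹ • ((0 : F) + 1 + ∑ j ∈ T, (Pi.single k (1 : F) : Fin 4 → F) j) = 0
      rw [zero_add, Finset.sum_pi_single', if_pos hk, h2, smul_zero]
  have hne : FinD3_phi F T (Λ u) ≠ 0 := by
    rw [hM.hΛu]
    show (1 : F) + 0 + ∑ j ∈ T, (0 : Fin 4 → F) j ≠ 0
    simp
  refine hM.ne hg hXG _ hφ hM.hu hne hh ?_
  have hDX : Sp F v D ⊔ Y ≤ Sp F v X ⊔ Y :=
    sup_le_sup_right (Sp_mono (Finset.subset_union_left.trans Finset.subset_union_left)) _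
  have ha : ∀ k, k ∉ T → v (a k) ∈ Sp F v X ⊔ Y := fun k hk =>
    mem_sup_left (mem_Sp (by
      simp only [hX, Finset.mem_union, Finset.mem_image, Finset.mem_compl]
      exact Or.inl (Or.inr (Or.inl ⟨k, hk, rfl⟩))))
  have hb : ∀ k ∈ T, v (b k) ∈ Sp F v X ⊔ Y := fun k hk =>
    mem_sup_left (mem_Sp (by
      simp only [hX, Finset.mem_union, Finset.mem_image, Finset.mem_compl]
      exact Or.inl (Or.inr (Or.inr ⟨k, hk, rfl⟩))))
  have hc : ∀ k ∈ T, v (c k) ∈ Sp F v X ⊔ Y := fun k hk =>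
    mem_sup_left (mem_Sp (by
      simp only [hX, Finset.mem_union, Finset.mem_image, Finset.mem_compl]
      exact Or.inr ⟨k, hk, rfl⟩))
  have hs : ∀ k ∈ T, v (a k) + u ∈ Sp F v X ⊔ Y := by
    intro k hk
    have e1 := hDX (hM.hbk k)
    have e2 : v (a k) + u = β k • v (b k) - (β k • v (b k) - v (a k) - u) := by abel
    rw [e2]
    exact sub_mem (smul_mem _ _ (hb k hk)) e1
  have hs' : ∀ k ∈ T, v (a k) + w ∈ Sp F v X ⊔ Y := by
    intro k hk
    have e1 := hDX (hM.hck k)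
    have e2 : v (a k) + w = γ k • v (c k) - (γ k • v (c k) - v (a k) - w) := by abel
    rw [e2]
    exact sub_mem (smul_mem _ _ (hc k hk)) e1
  have hr : w - u ∈ Sp F v X ⊔ Y := by
    have e2 : w - u = (v (a k0) + w) - (v (a k0) + u) := by abel
    rw [e2]
    exact sub_mem (hs' k0 hk0) (hs k0 hk0)
  have e3 := hDX (hM.hdec h (hg.h1 h hh))
  have e4 := FinD4_red h2 (n := (Λ h).2.2) ha hs hr h0
  have e5 := add_mem e3 e4
  have e6 : h - (∑ k, (Λ h).1 k • v (a k) + (Λ h).2.1 • u + (Λ h).2.2 • w) +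
      (∑ k, (Λ h).1 k • v (a k) + ((Λ h).2.1 + (Λ h).2.2) • u + (Λ h).2.2 • (w - u)) = h := by
    rw [add_smul, smul_sub]
    abel
  rwa [e6] at e5

end Pool.MP_4929df_co.H92
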