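import Pool.Agent.W_4929df_h92.FinD2

/-!
The parity argument and the contradiction (steps 9, 10 of proofs row 546).
-/

set_option autoImplicit false

namespace Pool.MP_4929df_co.H92

open Submodule

variable {F : Type} [Field F] {V : Type} [AddCommGroup V] [Module F V]
  {α : Type} [DecidableEq α] {v : α → V} {Y : Submodule F V} {G D : Finset α} {H : Set V}
  {a b c : Fin 4 → α} {u w : V} {β γ : Fin 4 → F} {Λ : V →ₗ[F] (Fin 4 → F) × F × F}

/-- `card F = 8` gives characteristic 2 -/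
theorem FinD4_two (h8 : Nat.card F = 8) : (1 : F) + 1 = 0 := by
  have hfin : Finite F := Nat.finite_of_card_ne_zero (by rw [h8]; norm_num)
  have : Fintype F := Fintype.ofFinite F
  have h1 : ((Fintype.card F : ℕ) : F) = 0 := Nat.cast_card_eq_zero F
  rw [← Nat.card_eq_fintype_card, h8] at h1
  have h2 : ((1 : F) + 1) ^ 3 = 0 := by
    have : ((1 : F) + 1) ^ 3 = ((8 : ℕ) : F) := by push_cast; ring
    rw [this, h1]
  exact pow_eq_zero_iff (n := 3) (by norm_num) |>.1 h2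

/-- the functional `m + ∑ k ∈ T, l k` -/
def FinD4_phi (F : Type) [Field F] (T : Finset (Fin 4)) : ((Fin 4 → F) × F × F) →ₗ[F] F where
  toFun p := p.2.1 + ∑ k ∈ T, p.1 k
  map_add' p q := by
    simp only [Prod.fst_add, Prod.snd_add, Pi.add_apply, Finset.sum_add_distrib]
    ring
  map_smul' r p := by
    simp only [Prod.smul_fst, Prod.smul_snd, Pi.smul_apply, smul_eq_mul, RingHom.id_apply,
      ← Finset.mul_sum]
    ring

/-- the functional `n + ∑ k ∈ T, l k` -/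
def FinD4_psi (F : Type) [Field F] (T : Finset (Fin 4)) : ((Fin 4 → F) × F × F) →ₗ[F] F where
  toFun p := p.2.2 + ∑ k ∈ T, p.1 k
  map_add' p q := by
    simp only [Prod.fst_add, Prod.snd_add, Pi.add_apply, Finset.sum_add_distrib]
    ring
  map_smul' r p := by
    simp only [Prod.smul_fst, Prod.smul_snd, Pi.smul_apply, smul_eq_mul, RingHom.id_apply,
      ← Finset.mul_sum]
    ring

theorem FinD4_neg (h2 : (1 : F) + 1 = 0) (x : V) : -x = x := by
  have : x + x = 0 := by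
    have h3 : ((1 : F) + 1) • x = 0 := by rw [h2, zero_smul]
    rwa [add_smul, one_smul] at h3
  exact neg_eq_of_add_eq_zero_left this

/-- the common step: if modulo `M` the vectors `v (a k)` are `0` for `k ∉ T` and `s` for `k ∈ T`
and the vector `r` vanishes then `h` is `(m + ∑ k ∈ T, l k) s` -/
theorem FinD4_red (h2 : (1 : F) + 1 = 0) {M : Submodule F V} {T : Finset (Fin 4)} {l : Fin 4 → F}
    {m n : F} {s r : V} {e : Fin 4 → V} (he : ∀ k, k ∉ T → e k ∈ M) (hs : ∀ k ∈ T, e k + s ∈ M)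
    (hr : r ∈ M) (h0 : m + ∑ k ∈ T, l k = 0) :
    (∑ k, l k • e k) + m • s + n • r ∈ M := by
  classical
  have e1 : m = ∑ k ∈ T, l k := by
    have h3 : m + m = 0 := by rw [← two_mul, ← one_add_one_eq_two, h2, zero_mul]
    have : m + ∑ k ∈ T, l k = m + m := by rw [h0, h3]
    exact (add_left_cancel this).symm
  have e2 : (∑ k, l k • e k) = ∑ k ∈ T, l k • e k + ∑ k ∈ Tᶜ, l k • e k :=
    (Finset.sum_add_sum_compl T _).symm
  have e3 : (∑ k, l k • e k) + m • s + n • r =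
      ∑ k ∈ T, l k • (e k + s) + ∑ k ∈ Tᶜ, l k • e k + n • r := by
    rw [e2, e1, Finset.sum_smul]
    simp only [smul_add, Finset.sum_add_distrib]
    abel
  rw [e3]
  refine add_mem (add_mem (sum_mem fun k hk => smul_mem _ _ (hs k hk))
    (sum_mem fun k hk => smul_mem _ _ (he k (by simpa using hk)))) (smul_mem _ _ hr)

/-- `m + ∑ k ∈ T, l k ≠ 0` for `T ≠ univ`. `X = D ∪ {a k, c k : k ∉ T} ∪ {b k : k ∈ T}`,
`φ (l, m, n) = m + ∑ k ∈ T, l k`, `g = u`. Modulo `Sp F v X ⊔ Y`: `v (a k) = 0` for `k ∉ T`, so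
`w = 0` (`c k`, `T ≠ univ`), `v (a k) = u` for `k ∈ T`, so `h = φ (Λ h) • u`. -/
theorem Model.c3 (hM : Model v Y G D a b c u w β γ Λ) (hg : Gen v Y G H) {h : V} (hh : h ∈ H)
    {T : Finset (Fin 4)} (hT : T ≠ Finset.univ) :
    (Λ h).2.1 + ∑ k ∈ T, (Λ h).1 k ≠ 0 := by
  classical
  intro h0
  have h2 := FinD4_two hg.h8
  obtain ⟨k0, hk0⟩ : ∃ k, k ∉ T := by
    by_contra hc
    push Not at hc
    exact hT (Finset.eq_univ_iff_forall.2 hc)
  set X : Finset α := D ∪ (Tᶜ.image a ∪ Tᶜ.image c) ∪ T.image b with hX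
  have hXG : X ⊆ G := by
    intro x hx
    simp only [hX, Finset.mem_union, Finset.mem_image, Finset.mem_compl] at hx
    rcases hx with (hx | ⟨k, -, rfl⟩ | ⟨k, -, rfl⟩) | ⟨k, -, rfl⟩
    · exact hM.hD hx
    · exact hM.ha k
    · exact hM.hc k
    · exact hM.hb k
  have hφ : ∀ x ∈ X, FinD4_phi F T (Λ (v x)) = 0 := by
    intro x hx
    simp only [hX, Finset.mem_union, Finset.mem_image, Finset.mem_compl] at hx
    rcases hx with (hx | ⟨k, hk, rfl⟩ | ⟨k, hk, rfl⟩) | ⟨k, hk, rfl⟩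
    · rw [hM.hΛD _ (mem_sup_left (mem_Sp hx)), map_zero]
    · rw [hM.hΛa]
      show (0 : F) + ∑ j ∈ T, (Pi.single k (1 : F) : Fin 4 → F) j = 0
      rw [zero_add, Finset.sum_pi_single', if_neg hk]
    · rw [(hM.coord k).2, map_smul]
      show (γ k)⁻¹ • ((0 : F) + ∑ j ∈ T, (Pi.single k (1 : F) : Fin 4 → F) j) = 0
      rw [zero_add, Finset.sum_pi_single', if_neg hk, smul_zero]
    · rw [(hM.coord k).1, map_smul]
      show (β k)⁻¹ • ((1 : F) + ∑ j ∈ T, (Pi.single k (1 : F) : Fin 4 → F) j) = 0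
      rw [Finset.sum_pi_single', if_pos hk, h2, smul_zero]
  have hne : FinD4_phi F T (Λ u) ≠ 0 := by
    rw [hM.hΛu]
    show (1 : F) + ∑ j ∈ T, (0 : Fin 4 → F) j ≠ 0
    simp
  refine hM.ne hg hXG _ hφ hM.hu hne hh ?_
  have hDX : Sp F v D ⊔ Y ≤ Sp F v X ⊔ Y :=
    sup_le_sup_right (Sp_mono (Finset.subset_union_left.trans Finset.subset_union_left)) _
  have ha : ∀ k, k ∉ T → v (a k) ∈ Sp F v X ⊔ Y := fun k hk =>
    mem_sup_left (mem_Sp (by
      simp only [hX, Finset.mem_union, Finset.mem_image, Finset.mem_compl]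
      exact Or.inl (Or.inr (Or.inl ⟨k, hk, rfl⟩))))
  have hc : ∀ k, k ∉ T → v (c k) ∈ Sp F v X ⊔ Y := fun k hk =>
    mem_sup_left (mem_Sp (by
      simp only [hX, Finset.mem_union, Finset.mem_image, Finset.mem_compl]
      exact Or.inl (Or.inr (Or.inr ⟨k, hk, rfl⟩))))
  have hb : ∀ k ∈ T, v (b k) ∈ Sp F v X ⊔ Y := fun k hk =>
    mem_sup_left (mem_Sp (by
      simp only [hX, Finset.mem_union, Finset.mem_image, Finset.mem_compl]
      exact Or.inr ⟨k, hk, rfl⟩))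
  have hw : w ∈ Sp F v X ⊔ Y := by
    have e1 := hDX (hM.hck k0)
    have e2 : w = γ k0 • v (c k0) - v (a k0) - (γ k0 • v (c k0) - v (a k0) - w) := by abel
    rw [e2]
    exact sub_mem (sub_mem (smul_mem _ _ (hc k0 hk0)) (ha k0 hk0)) e1
  have hs : ∀ k ∈ T, v (a k) + u ∈ Sp F v X ⊔ Y := by
    intro k hk
    have e1 := hDX (hM.hbk k)
    have e2 : v (a k) + u = β k • v (b k) - (β k • v (b k) - v (a k) - u) := by abel
    rw [e2]
    exact sub_mem (smul_mem _ _ (hb k hk)) e1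
  have e3 := hDX (hM.hdec h (hg.h1 h hh))
  have e4 := FinD4_red h2 (n := (Λ h).2.2) ha hs hw h0
  have e5 := add_mem e3 e4
  rwa [sub_add_cancel] at e5

/-- the same with `b, u` and `c, w` exchanged: `X = D ∪ {a k, b k : k ∉ T} ∪ {c k : k ∈ T}`, `g = w` -/
theorem Model.c4 (hM : Model v Y G D a b c u w β γ Λ) (hg : Gen v Y G H) {h : V} (hh : h ∈ H)
    {T : Finset (Fin 4)} (hT : T ≠ Finset.univ) :
    (Λ h).2.2 + ∑ k ∈ T, (Λ h).1 k ≠ 0 := by
  classical
  intro h0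
  have h2 := FinD4_two hg.h8
  obtain ⟨k0, hk0⟩ : ∃ k, k ∉ T := by
    by_contra hc
    push Not at hc
    exact hT (Finset.eq_univ_iff_forall.2 hc)
  set X : Finset α := D ∪ (Tᶜ.image a ∪ Tᶜ.image b) ∪ T.image c with hX
  have hXG : X ⊆ G := by
    intro x hx
    simp only [hX, Finset.mem_union, Finset.mem_image, Finset.mem_compl] at hx
    rcases hx with (hx | ⟨k, -, rfl⟩ | ⟨k, -, rfl⟩) | ⟨k, -, rfl⟩
    · exact hM.hD hx
    · exact hM.ha k
    · exact hM.hb k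
    · exact hM.hc k
  have hφ : ∀ x ∈ X, FinD4_psi F T (Λ (v x)) = 0 := by
    intro x hx
    simp only [hX, Finset.mem_union, Finset.mem_image, Finset.mem_compl] at hx
    rcases hx with (hx | ⟨k, hk, rfl⟩ | ⟨k, hk, rfl⟩) | ⟨k, hk, rfl⟩
    · rw [hM.hΛD _ (mem_sup_left (mem_Sp hx)), map_zero]
    · rw [hM.hΛa]
      show (0 : F) + ∑ j ∈ T, (Pi.single k (1 : F) : Fin 4 → F) j = 0
      rw [zero_add, Finset.sum_pi_single', if_neg hk]
    · rw [(hM.coord k).1, map_smul]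
      show (β k)⁻¹ • ((0 : F) + ∑ j ∈ T, (Pi.single k (1 : F) : Fin 4 → F) j) = 0
      rw [zero_add, Finset.sum_pi_single', if_neg hk, smul_zero]
    · rw [(hM.coord k).2, map_smul]
      show (γ k)⁻¹ • ((1 : F) + ∑ j ∈ T, (Pi.single k (1 : F) : Fin 4 → F) j) = 0
      rw [Finset.sum_pi_single', if_pos hk, h2, smul_zero]
  have hne : FinD4_psi F T (Λ w) ≠ 0 := by
    rw [hM.hΛw]
    show (1 : F) + ∑ j ∈ T, (0 : Fin 4 → F) j ≠ 0
    simp
  refine hM.ne hg hXG _ hφ hM.hw hne hh ?_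
  have hDX : Sp F v D ⊔ Y ≤ Sp F v X ⊔ Y :=
    sup_le_sup_right (Sp_mono (Finset.subset_union_left.trans Finset.subset_union_left)) _
  have ha : ∀ k, k ∉ T → v (a k) ∈ Sp F v X ⊔ Y := fun k hk =>
    mem_sup_left (mem_Sp (by
      simp only [hX, Finset.mem_union, Finset.mem_image, Finset.mem_compl]
      exact Or.inl (Or.inr (Or.inl ⟨k, hk, rfl⟩))))
  have hb : ∀ k, k ∉ T → v (b k) ∈ Sp F v X ⊔ Y := fun k hk =>
    mem_sup_left (mem_Sp (by
      simp only [hX, Finset.mem_union, Finset.mem_image, Finset.mem_compl]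
      exact Or.inl (Or.inr (Or.inr ⟨k, hk, rfl⟩))))
  have hc : ∀ k ∈ T, v (c k) ∈ Sp F v X ⊔ Y := fun k hk =>
    mem_sup_left (mem_Sp (by
      simp only [hX, Finset.mem_union, Finset.mem_image, Finset.mem_compl]
      exact Or.inr ⟨k, hk, rfl⟩))
  have hu : u ∈ Sp F v X ⊔ Y := by
    have e1 := hDX (hM.hbk k0)
    have e2 : u = β k0 • v (b k0) - v (a k0) - (β k0 • v (b k0) - v (a k0) - u) := by abel
    rw [e2]
    exact sub_mem (sub_mem (smul_mem _ _ (hb k0 hk0)) (ha k0 hk0)) e1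
  have hs : ∀ k ∈ T, v (a k) + w ∈ Sp F v X ⊔ Y := by
    intro k hk
    have e1 := hDX (hM.hck k)
    have e2 : v (a k) + w = γ k • v (c k) - (γ k • v (c k) - v (a k) - w) := by abel
    rw [e2]
    exact sub_mem (smul_mem _ _ (hc k hk)) e1
  have e3 := hDX (hM.hdec h (hg.h1 h hh))
  have e4 := FinD4_red h2 (n := (Λ h).2.1) ha hs hu h0
  have e5 := add_mem e3 e4
  have e6 : h - (∑ k, (Λ h).1 k • v (a k) + (Λ h).2.1 • u + (Λ h).2.2 • w) +
      (∑ k, (Λ h).1 k • v (a k) + (Λ h).2.2 • w + (Λ h).2.1 • u) = h := by abel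
  rwa [e6] at e5

end Pool.MP_4929df_co.H92
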