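import Pool.Agent.W_4929df_h92.FinD1
import Pool.Agent.W_4929df_h92.FinD3
import Pool.Agent.W_4929df_h92.FinD4

/-!
The parity argument and the contradiction (steps 9, 10 of proofs row 546).
-/

set_option autoImplicit false

namespace Pool.MP_4929df_co.H92

open Submodule

variable {F : Type} [Field F] {V : Type} [AddCommGroup V] [Module F V]
  {α : Type} [DecidableEq α] {v : α → V} {Y : Submodule F V} {G D : Finset α} {H : Set V}
  {a b c : Fin 4 → α} {u w : V} {β γ : Fin 4 → F} {Λ : V →ₗ[F] (Fin 4 → F) × F × F}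

/-- The contradiction: by `parity` `(Λ h).1 0 = (Λ h).1 1` for all `h ∈ H`; the functional
`g ↦ (Λ g).1 0 - (Λ g).1 1` vanishes on `span F H ⊔ Y`, so on `v (a 0) ∈ Sp F v G ⊔ Y` (`hU`), but
its value there is 1. -/
theorem Model.false (hM : Model v Y G D a b c u w β γ Λ) (hg : Gen v Y G H) : False := by
  have hpar : ∀ h ∈ H, (Λ h).1 0 = (Λ h).1 1 := fun h hh =>
    parity hg.h8 (l := (Λ h).1) (m := (Λ h).2.1) (n := (Λ h).2.2) (fun k => hM.c1 hg hh k)
      (fun T hT => hM.c2 hg hh hT) (fun T hT => hM.c3 hg hh hT) (fun T hT => hM.c4 hg hh hT)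
  let ψ : V →ₗ[F] F :=
    { toFun := fun g => (Λ g).1 0 - (Λ g).1 1
      map_add' := fun x y => by
        simp only [map_add, Prod.fst_add, Pi.add_apply]
        ring
      map_smul' := fun r x => by
        simp only [map_smul, Prod.smul_fst, Pi.smul_apply, smul_eq_mul, RingHom.id_apply]
        ring }
  have hψ : ∀ g, ψ g = (Λ g).1 0 - (Λ g).1 1 := fun g => rfl
  have hker : span F H ⊔ Y ≤ LinearMap.ker ψ := by
    rw [sup_le_iff, span_le]
    constructor
    · intro h hh
      rw [SetLike.mem_coe, LinearMap.mem_ker, hψ, hpar h hh, sub_self]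
    · intro y hy
      rw [LinearMap.mem_ker, hψ, hM.hΛD y (mem_sup_right hy)]
      simp
  have h1 : v (a 0) ∈ Sp F v G ⊔ Y := mem_sup_left (mem_Sp (hM.ha 0))
  have h2 := hker (hg.hU h1)
  rw [LinearMap.mem_ker, hψ, hM.hΛa] at h2
  simp at h2

end Pool.MP_4929df_co.H92
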