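import Pool.Agent.W_4929df_h92.FinC0

/-!
The parity argument and the contradiction (steps 9, 10 of proofs row 546).
-/

set_option autoImplicit false

namespace Pool.MP_4929df_co.H92

open Submodule

/-- Step 10. A field (only the additive group matters) with 8 elements, so `x + x = 0`
(`CharP F 2`, or `Nat.card F • x = 0`). Suppose `l 0 ≠ l 1`. `W = {0, l 0, l 1, l 0 + l 1}` is an
additive subgroup with 4 elements, so of index 2 (`AddSubgroup.index`), so `x, y ∉ W` implies
`x + y ∈ W` (`AddSubgroup.add_mem_iff_of_index_two`). `m ∉ W` and `n ∉ W` by `h3, h4` for the subsets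
of `{0, 1}`, so `m + n ∈ W`; it is not `l 0, l 1, l 0 + l 1` by `h2`; and `m + n ≠ 0` because there
is a nonempty `T` with `∑ k ∈ T, l k = 0`: if `l 2 ∈ W`, then `l 2 = ∑ k ∈ T', l k` for a nonempty
`T' ⊆ {0, 1}`, `T = insert 2 T'`; the same for `l 3`; otherwise `l 2 + l 3 ∈ W`. -/
theorem parity {F : Type} [Field F] (h8 : Nat.card F = 8) {l : Fin 4 → F} {m n : F}
    (h1 : ∀ k, l k ≠ 0) (h2 : ∀ T : Finset (Fin 4), T.Nonempty → m + n + ∑ k ∈ T, l k ≠ 0)
    (h3 : ∀ T : Finset (Fin 4), T ≠ Finset.univ → m + ∑ k ∈ T, l k ≠ 0)
    (h4 : ∀ T : Finset (Fin 4), T ≠ Finset.univ → n + ∑ k ∈ T, l k ≠ 0) : l 0 = l 1 := by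
  classical
  by_contra hne
  have hd : ∀ x : F, x + x = 0 := by
    have h : (Nat.card F) • (1 : F) = 0 := card_nsmul_eq_zero'
    rw [h8] at h
    have h' : (2 : F) * 2 * 2 = 0 := by
      have : (8 : ℕ) • (1 : F) = 2 * 2 * 2 := by
        rw [nsmul_eq_mul]; norm_num
      rw [← this]; exact h
    have h2' : (2 : F) = 0 := by
      rcases mul_eq_zero.mp h' with h | h
      · rcases mul_eq_zero.mp h with h | h <;> exact h
      · exact h
    intro x
    rw [← two_mul, h2', zero_mul]
  have hsw : ∀ x y : F, x + y = 0 → x = y := by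
    intro x y h
    have := hd y
    exact add_right_cancel (h.trans this.symm)
  have h10 := h1 0
  have h11 := h1 1
  let W : AddSubgroup F :=
    { carrier := {x | x = 0 ∨ x = l 0 ∨ x = l 1 ∨ x = l 0 + l 1}
      zero_mem' := Or.inl rfl
      add_mem' := by
        rintro x y (rfl | rfl | rfl | rfl) (rfl | rfl | rfl | rfl)
        · left; simp
        · right; left; simp
        · right; right; left; simp
        · right; right; right; simp
        · right; left; simp
        · left; exact hd _
        · right; right; right; rfl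
        · right; right; left
          rw [← add_assoc, hd, zero_add]
        · right; right; left; simp
        · right; right; right; exact add_comm _ _
        · left; exact hd _
        · right; left
          rw [add_left_comm, hd, add_zero]
        · right; right; right; simp
        · right; right; left
          rw [add_right_comm, hd, zero_add]
        · right; left
          rw [add_assoc, hd, add_zero]
        · left; exact hd _
      neg_mem' := by
        intro x hx
        have : -x = x := neg_eq_of_add_eq_zero_left (hd x)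
        show -x = 0 ∨ -x = l 0 ∨ -x = l 1 ∨ -x = l 0 + l 1
        rw [this]; exact hx }
  have hmem : ∀ x, x ∈ W ↔ (x = 0 ∨ x = l 0 ∨ x = l 1 ∨ x = l 0 + l 1) := fun x => Iff.rfl
  have hcard : Nat.card W = 4 := by
    have e : (W : Set F) = (({0, l 0, l 1, l 0 + l 1} : Finset F) : Set F) := by
      ext x
      simp only [SetLike.mem_coe, hmem, Finset.coe_insert, Finset.coe_singleton,
        Set.mem_insert_iff, Set.mem_singleton_iff]
    have e2 : Nat.card W = Set.ncard (W : Set F) := rfl
    rw [e2, e, Set.ncard_coe_finset]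
    have a1 : l 0 + l 1 ≠ 0 := fun h => hne (hsw _ _ h)
    have a2 : l 1 ≠ l 0 + l 1 := fun h => h10 (by
      have := add_right_cancel ((zero_add (l 1)).trans h)
      exact this.symm)
    have a3 : l 0 ≠ l 0 + l 1 := fun h => h11 (by
      have := add_left_cancel ((add_zero (l 0)).trans h)
      exact this.symm)
    rw [Finset.card_insert_of_notMem, Finset.card_insert_of_notMem, Finset.card_insert_of_notMem,
      Finset.card_singleton]
    · simp only [Finset.mem_singleton]; exact a2
    · simp only [Finset.mem_insert, Finset.mem_singleton]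
      rintro (h | h)
      · exact hne h
      · exact a3 h
    · simp only [Finset.mem_insert, Finset.mem_singleton]
      rintro (h | h | h)
      · exact h10 h.symm
      · exact h11 h.symm
      · exact a1 h.symm
  have hidx : W.index = 2 := by
    have := W.card_mul_index
    rw [hcard, h8] at this
    omega
  have key : ∀ x y : F, x ∉ W → y ∉ W → x + y ∈ W := by
    intro x y hx hy
    rw [AddSubgroup.add_mem_iff_of_index_two hidx]
    exact ⟨fun h => absurd h hx, fun h => absurd h hy⟩
  have s0 : ∑ k ∈ ({0} : Finset (Fin 4)), l k = l 0 := Finset.sum_singleton _ _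
  have s1 : ∑ k ∈ ({1} : Finset (Fin 4)), l k = l 1 := Finset.sum_singleton _ _
  have s01 : ∑ k ∈ ({0, 1} : Finset (Fin 4)), l k = l 0 + l 1 := Finset.sum_pair (by decide)
  have nW : ∀ x : F, (∀ T : Finset (Fin 4), T ≠ Finset.univ → x + ∑ k ∈ T, l k ≠ 0) → x ∉ W := by
    intro x hx hxW
    rcases (hmem x).mp hxW with h | h | h | h
    · exact hx ∅ (by decide) (by rw [h]; simp)
    · exact hx {0} (by decide) (by rw [s0, h]; exact hd _)
    · exact hx {1} (by decide) (by rw [s1, h]; exact hd _)
    · exact hx {0, 1} (by decide) (by rw [s01, h]; exact hd _)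
  have hmn := key m n (nW m h3) (nW n h4)
  have hmn0 : m + n = 0 := by
    rcases (hmem _).mp hmn with h | h | h | h
    · exact h
    · exact absurd (by rw [s0, h]; exact hd _) (h2 {0} (by decide))
    · exact absurd (by rw [s1, h]; exact hd _) (h2 {1} (by decide))
    · exact absurd (by rw [s01, h]; exact hd _) (h2 {0, 1} (by decide))
  have fin : ∀ T : Finset (Fin 4), T.Nonempty → ∑ k ∈ T, l k = 0 → False := by
    intro T hT h
    exact h2 T hT (by rw [hmn0, h, add_zero])
  have one : ∀ j : Fin 4, j ≠ 0 → j ≠ 1 → l j ∉ W := by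
    intro j hj0 hj1 h
    rcases (hmem _).mp h with h | h | h | h
    · exact h1 j h
    · refine fin {j, 0} ⟨j, by simp⟩ ?_
      rw [Finset.sum_pair hj0, h]; exact hd _
    · refine fin {j, 1} ⟨j, by simp⟩ ?_
      rw [Finset.sum_pair hj1, h]; exact hd _
    · refine fin (insert j {0, 1}) ⟨j, by simp⟩ ?_
      rw [Finset.sum_insert (by simp [hj0, hj1]), s01, h]; exact hd _
  have h23 := key _ _ (one 2 (by decide) (by decide)) (one 3 (by decide) (by decide))
  have s23 : ∑ k ∈ ({2, 3} : Finset (Fin 4)), l k = l 2 + l 3 := Finset.sum_pair (by decide)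
  rcases (hmem _).mp h23 with h | h | h | h
  · exact fin {2, 3} (by decide) (by rw [s23, h])
  · refine fin (insert 0 {2, 3}) (by decide) ?_
    rw [Finset.sum_insert (by decide), s23, h]; exact hd _
  · refine fin (insert 1 {2, 3}) (by decide) ?_
    rw [Finset.sum_insert (by decide), s23, h]; exact hd _
  · refine fin (insert 0 (insert 1 {2, 3})) (by decide) ?_
    rw [Finset.sum_insert (by decide), Finset.sum_insert (by decide), s23, h, ← add_assoc]
    exact hd _

end Pool.MP_4929df_co.H92
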