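import Pool.Agent.W_4929df_h92.FinC0

/-!
The parity argument and the contradiction (steps 9, 10 of proofs row 546).
-/

set_option autoImplicit false

namespace Pool.MP_4929df_co.H92

open Submodule

variable {F : Type} [Field F] {V : Type} [AddCommGroup V] [Module F V]
  {α : Type} [DecidableEq α] {v : α → V} {Y : Submodule F V} {G D : Finset α} {H : Set V}
  {a b c : Fin 4 → α} {u w : V} {β γ : Fin 4 → F} {Λ : V →ₗ[F] (Fin 4 → F) × F × F}

/-- a functional `φ` of the coordinates that vanishes on the vectors of `X ⊆ G`, but not on all of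
`Sp F v G ⊔ Y`: then `h ∉ Sp F v X ⊔ Y` (`hgen`; `Sp F v X ⊔ Y ≤ ker (φ ∘ Λ)`, `Λ` vanishes on `Y`
by `hΛD`) -/
theorem Model.ne (hM : Model v Y G D a b c u w β γ Λ) (hg : Gen v Y G H) {X : Finset α}
    (hX : X ⊆ G) (φ : ((Fin 4 → F) × F × F) →ₗ[F] F) (hφ : ∀ x ∈ X, φ (Λ (v x)) = 0) {g : V}
    (hgG : g ∈ Sp F v G ⊔ Y) (hne : φ (Λ g) ≠ 0) {h : V} (hh : h ∈ H) : h ∉ Sp F v X ⊔ Y := by
  intro hX'
  have h1 : g ∈ Sp F v X ⊔ Y := hg.hgen X hX h hh hX' hgG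
  have h2 : Sp F v X ⊔ Y ≤ LinearMap.ker (φ ∘ₗ Λ) := by
    refine sup_le (Sp_le.2 fun x hx => ?_) fun y hy => ?_
    · rw [LinearMap.mem_ker, LinearMap.comp_apply]
      exact hφ x hx
    · rw [LinearMap.mem_ker, LinearMap.comp_apply, hM.hΛD y (mem_sup_right hy), map_zero]
  have h3 := h2 h1
  rw [LinearMap.mem_ker, LinearMap.comp_apply] at h3
  exact hne h3

/-- `Λ (v (b k)) = (β k)⁻¹ • (Pi.single k 1, 1, 0)` and `Λ (v (c k)) = (γ k)⁻¹ • (Pi.single k 1, 0, 1)`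
-/
theorem Model.coord (hM : Model v Y G D a b c u w β γ Λ) (k : Fin 4) :
    Λ (v (b k)) = (β k)⁻¹ • (Pi.single k 1, 1, 0) ∧
      Λ (v (c k)) = (γ k)⁻¹ • (Pi.single k 1, 0, 1) := by
  have hb := hM.hΛD _ (hM.hbk k)
  have hc := hM.hΛD _ (hM.hck k)
  rw [map_sub, map_sub, map_smul, hM.hΛa k, hM.hΛu, sub_sub, sub_eq_zero] at hb
  rw [map_sub, map_sub, map_smul, hM.hΛa k, hM.hΛw, sub_sub, sub_eq_zero] at hc
  have eb : ((Pi.single k 1, 0, 0) + (0, 1, 0) : (Fin 4 → F) × F × F) = (Pi.single k 1, 1, 0) := by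
    simp
  have ec : ((Pi.single k 1, 0, 0) + (0, 0, 1) : (Fin 4 → F) × F × F) = (Pi.single k 1, 0, 1) := by
    simp
  rw [eb] at hb
  rw [ec] at hc
  constructor
  · rw [← hb, inv_smul_smul₀ (hM.hβ k)]
  · rw [← hc, inv_smul_smul₀ (hM.hγ k)]

end Pool.MP_4929df_co.H92
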