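import Pool.Agent.W_4929df_h92.Final2

/-!
The theorem for deletion of `D` and contraction of `C` when at most `t` inequivalent
representations of the minor occur.
-/

set_option autoImplicit false

namespace Pool.MP_4929df_co.H92

open Submodule

theorem EquivMinor.refl {E : Type} {r : ℕ} (C D : Set E) (w : E → (Fin r → GaloisField 2 3)) :
    EquivMinor C D w w :=
  ⟨LinearEquiv.refl _ _, fun _ => 1, fun _ => one_ne_zero, fun e _ => by
    rw [one_smul, LinearEquiv.refl_apply]⟩

theorem EquivMinor.symm {E : Type} {r : ℕ} {C D : Set E} {w w' : E → (Fin r → GaloisField 2 3)}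
    (h : EquivMinor C D w w') : EquivMinor C D w' w := by
  obtain ⟨g, c, hc, hg⟩ := h
  refine ⟨g.symm, fun e => (c e)⁻¹, fun e => inv_ne_zero (hc e), fun e he => ?_⟩
  rw [hg e he, map_smul, LinearEquiv.symm_apply_apply, smul_smul, inv_mul_cancel₀ (hc e),
    one_smul]

theorem EquivMinor.trans {E : Type} {r : ℕ} {C D : Set E}
    {w w' w'' : E → (Fin r → GaloisField 2 3)} (h : EquivMinor C D w w')
    (h' : EquivMinor C D w' w'') : EquivMinor C D w w'' := by
  obtain ⟨g, c, hc, hg⟩ := h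
  obtain ⟨g', c', hc', hg'⟩ := h'
  refine ⟨g'.trans g, fun e => c e * c' e, fun e => mul_ne_zero (hc e) (hc' e), fun e he => ?_⟩
  rw [hg e he, hg' e he, map_smul, smul_smul, LinearEquiv.trans_apply]

/-- The final theorem, mixed version, with at most `t` inequivalent representations of the minor. -/
theorem final3 (t : ℕ) : ∃ k : ℕ, ∀ (E : Type) [Fintype E] (m : ℕ)
    (v : E → (Fin m → GaloisField 2 3)) (C D : Set E), Disjoint C D → C.ncard ≤ t → D.ncard ≤ t →
    (ThreeMinor v C D ∨ ((C ∪ D).ncard = 1 ∧ FourConn v)) →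
    ∀ r : ℕ, ∀ w : Fin (k + 1) → E → (Fin r → GaloisField 2 3),
      (∀ i, Submodule.span (GaloisField 2 3) (Set.range (w i)) = ⊤ ∧
        ∀ S : Set E, (LinearIndependent (GaloisField 2 3) (fun s : S => w i (s : E)) ↔
          LinearIndependent (GaloisField 2 3) (fun s : S => v (s : E)))) →
      (BinaryMinor v C D ∨ ∀ T : Set (Fin (k + 1)), t < T.ncard →
        ∃ i ∈ T, ∃ j ∈ T, i ≠ j ∧ EquivMinor C D (w i) (w j)) →
      ∃ i j : Fin (k + 1), i ≠ j ∧
        ∃ g : (Fin r → GaloisField 2 3) ≃ₗ[GaloisField 2 3] (Fin r → GaloisField 2 3),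
        ∃ c : E → GaloisField 2 3, (∀ e, c e ≠ 0) ∧ ∀ e, w i e = c e • g (w j e) := by
  classical
  obtain ⟨k₂, hk₂⟩ := final2 t
  refine ⟨(t + 1) * k₂, ?_⟩
  intro E _ m v C D hCD hC hD hcase r w hw hbin
  have key : ∀ f : Fin (k₂ + 1) → Fin ((t + 1) * k₂ + 1), Function.Injective f →
      (BinaryMinor v C D ∨ ∀ i j, EquivMinor C D (w (f i)) (w (f j))) →
      ∃ i j : Fin ((t + 1) * k₂ + 1), i ≠ j ∧
        ∃ g : (Fin r → GaloisField 2 3) ≃ₗ[GaloisField 2 3] (Fin r → GaloisField 2 3),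
        ∃ c : E → GaloisField 2 3, (∀ e, c e ≠ 0) ∧ ∀ e, w i e = c e • g (w j e) := by
    intro f hf hb
    obtain ⟨i, j, hij, h⟩ := hk₂ E m v C D hCD hC hD hcase r (fun i => w (f i))
      (fun i => hw (f i)) hb
    exact ⟨f i, f j, fun h' => hij (hf h'), h⟩
  rcases hbin with hb | hT
  · refine key (Fin.castLE (by nlinarith)) (Fin.castLE_injective _) (Or.inl hb)
  · have hcard : Nat.card (Fin ((t + 1) * k₂ + 1)) = (t + 1) * k₂ + 1 := by
      rw [Nat.card_eq_fintype_card, Fintype.card_fin]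
    obtain ⟨i₀, hi₀⟩ := class_pigeon (R := fun i j => EquivMinor C D (w i) (w j))
      (a := t) (b := k₂) (fun i => EquivMinor.refl _ _ _) (fun i j h => h.symm) hT
      (by rw [hcard]; nlinarith)
    have hc : Fintype.card (Fin (k₂ + 1)) ≤
        Fintype.card {i | EquivMinor C D (w i₀) (w i)} := by
      rw [Fintype.card_fin, ← Set.toFinset_card, ← Set.ncard_eq_toFinset_card']
      exact hi₀
    obtain ⟨φ⟩ := Function.Embedding.nonempty_of_card_le hc
    refine key (fun i => (φ i).1) (fun i j h => φ.injective (Subtype.ext h)) (Or.inr ?_)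
    intro i j
    exact (EquivMinor.symm (φ i).2).trans (φ j).2

end Pool.MP_4929df_co.H92
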