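import Pool.Agent.W_4929df_h92.Final3

/-!
Equivalence of the representations of a minor, given by an automorphism of the whole space.
-/

set_option autoImplicit false

namespace Pool.MP_4929df_co.H92

open Submodule

theorem equivMinor_of_lift {E : Type} {r : ℕ} {C D : Set E}
    {w w' : E → (Fin r → GaloisField 2 3)}
    (g : (Fin r → GaloisField 2 3) ≃ₗ[GaloisField 2 3] (Fin r → GaloisField 2 3))
    (hg : ∀ x, x ∈ span (GaloisField 2 3) (w' '' C) ↔ g x ∈ span (GaloisField 2 3) (w '' C))
    {c : E → GaloisField 2 3} (hc : ∀ e, c e ≠ 0)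
    (h : ∀ e, e ∉ C ∪ D → w e - c e • g (w' e) ∈ span (GaloisField 2 3) (w '' C)) :
    EquivMinor C D w w' := by
  have hmap : (span (GaloisField 2 3) (w' '' C)).map
      (g : (Fin r → GaloisField 2 3) →ₗ[GaloisField 2 3] (Fin r → GaloisField 2 3)) =
      span (GaloisField 2 3) (w '' C) := by
    ext y
    rw [Submodule.mem_map]
    constructor
    · rintro ⟨x, hx, rfl⟩
      exact (hg x).1 hx
    · intro hy
      refine ⟨g.symm y, (hg _).2 ?_, ?_⟩
      · rw [LinearEquiv.apply_symm_apply]; exact hy
      · show g (g.symm y) = y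
        rw [LinearEquiv.apply_symm_apply]
  refine ⟨Submodule.Quotient.equiv _ _ g hmap, c, hc, fun e he => ?_⟩
  show Submodule.Quotient.mk (w e) = c e • (Submodule.Quotient.mk (g (w' e)) :
    (Fin r → GaloisField 2 3) ⧸ span (GaloisField 2 3) (w '' C))
  rw [← Submodule.Quotient.mk_smul, Submodule.Quotient.eq]
  exact h e he

end Pool.MP_4929df_co.H92
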