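import Pool.Agent.W_4929df_h92.Final5B

/-!
The theorem on arbitrary extensions, for representations over GF(8) (proofs row 572).
-/

set_option autoImplicit false

namespace Pool.MP_4929df_co.H92

open Submodule

/-- The final theorem: `k = (t + 1) * k₁` (`final5_one`), `class_pigeon` for `EquivN` as in
`final3` (Final3.lean). -/
theorem final5 (t : ℕ) : ∃ k : ℕ, ∀ (E : Type) [Fintype E] (m : ℕ)
    (v : E → (Fin m → GaloisField 2 3)) (C X S : Set E), Disjoint C X → C.ncard ≤ t →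
    rank v (X ∪ C) = rank v Set.univ → ThreeN v C X → S ⊆ X → S.ncard ≤ t → Pieces v C X S t →
    ∀ r : ℕ, ∀ w : Fin (k + 1) → E → (Fin r → GaloisField 2 3),
      (∀ i, Submodule.span (GaloisField 2 3) (Set.range (w i)) = ⊤ ∧
        ∀ S : Set E, (LinearIndependent (GaloisField 2 3) (fun s : S => w i (s : E)) ↔
          LinearIndependent (GaloisField 2 3) (fun s : S => v (s : E)))) →
      (BinN v C X ∨ ∀ T : Set (Fin (k + 1)), t < T.ncard →
        ∃ i ∈ T, ∃ j ∈ T, i ≠ j ∧ EquivN C X (w i) (w j)) →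
      ∃ i j : Fin (k + 1), i ≠ j ∧
        ∃ g : (Fin r → GaloisField 2 3) ≃ₗ[GaloisField 2 3] (Fin r → GaloisField 2 3),
        ∃ c : E → GaloisField 2 3, (∀ e, c e ≠ 0) ∧ ∀ e, w i e = c e • g (w j e) := by
  obtain ⟨k₁, hk₁⟩ := final5_one t
  refine ⟨(t + 1) * k₁, ?_⟩
  intro E _ m v C X S hCX hC hrk h3 hSX hS hP r w hw hbin
  have key := hk₁ E m v C X S hCX hC hrk h3 hSX hS hP
  rcases hbin with hb | hT
  · refine key (Fin ((t + 1) * k₁ + 1)) r w hw (Or.inl hb) ?_
    rw [Nat.card_eq_fintype_card, Fintype.card_fin]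
    nlinarith
  · have hcard : Nat.card (Fin ((t + 1) * k₁ + 1)) = (t + 1) * k₁ + 1 := by
      rw [Nat.card_eq_fintype_card, Fintype.card_fin]
    obtain ⟨i₀, hi₀⟩ := class_pigeon (R := fun i j => EquivN C X (w i) (w j))
      (a := t) (b := k₁) (fun i => EquivN.refl _ _ _) (fun i j h => h.symm) hT
      (by rw [hcard]; nlinarith)
    have hc : k₁ < Nat.card {i | EquivN C X (w i₀) (w i)} := by
      rw [Nat.card_coe_set_eq]
      exact hi₀
    obtain ⟨i, j, hij, h⟩ := key {i | EquivN C X (w i₀) (w i)} r (fun i => w i.1)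
      (fun i => hw i.1) (Or.inr fun i j => (EquivN.symm i.2).trans j.2) hc
    exact ⟨i.1, j.1, fun h' => hij (Subtype.ext h'), h⟩

end Pool.MP_4929df_co.H92
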