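import Pool.Agent.W_4929df_h92.Final4

/-!
The theorem on arbitrary extensions, for representations over GF(8) (proofs row 572).
-/

set_option autoImplicit false

namespace Pool.MP_4929df_co.H92

open Submodule

/-- `(M | (X ∪ C)) / C` is 3-connected -/
def ThreeN {E : Type} {m : ℕ} (v : E → (Fin m → GaloisField 2 3)) (C X : Set E) : Prop :=
  ∀ Z : Set E, Z ⊆ X → ∀ j : ℕ, j < 3 → j ≤ Z.ncard → j ≤ (X \ Z).ncard →
    rank v (X ∪ C) + rank v C + j ≤ rank v (Z ∪ C) + rank v ((X \ Z) ∪ C)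

/-- all components of `N / S` have at most `t` elements, `N = (M | (X ∪ C)) / C` -/
def Pieces {E : Type} {m : ℕ} (v : E → (Fin m → GaloisField 2 3)) (C X S : Set E) (t : ℕ) : Prop :=
  ∀ x ∈ X \ S, ∃ P ⊆ X \ S, x ∈ P ∧ P.ncard ≤ t ∧
    rank v (P ∪ S ∪ C) + rank v ((X \ P) ∪ C) = rank v (X ∪ C) + rank v (S ∪ C)

/-- `(M | (X ∪ C)) / C` is binary -/
def BinN {E : Type} {m : ℕ} (v : E → (Fin m → GaloisField 2 3)) (C X : Set E) : Prop :=
  ∃ (n : ℕ) (u : E → (Fin n → ZMod 2)), ∀ Z : Set E, Z ⊆ X →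
    rank v (Z ∪ C) = rank v C + Module.finrank (ZMod 2) (Submodule.span (ZMod 2) (u '' Z))

/-- the representations of `(M | (X ∪ C)) / C` induced by `w` and `w'` are equivalent -/
def EquivN {E : Type} {r : ℕ} (C X : Set E) (w w' : E → (Fin r → GaloisField 2 3)) : Prop :=
  ∃ g : (Fin r → GaloisField 2 3) ≃ₗ[GaloisField 2 3] (Fin r → GaloisField 2 3),
    (∀ x, x ∈ Submodule.span (GaloisField 2 3) (w' '' C) ↔
      g x ∈ Submodule.span (GaloisField 2 3) (w '' C)) ∧
    ∃ c : E → GaloisField 2 3, (∀ e, c e ≠ 0) ∧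
      ∀ e ∈ X, w e - c e • g (w' e) ∈ Submodule.span (GaloisField 2 3) (w '' C)

/-- `EquivMod` from `EquivN`: apply the inverse of `g`, or as in `equivMinor_of_lift` and
`equivMod_of_quot`: for `a : E → F`, `∑ a x • w x - g (∑ (a x * c x) • w' x)` is in the span of
`w '' C`. -/
theorem equivMod_of_equivN {E : Type} [Fintype E] [DecidableEq E] {r : ℕ} {C X : Finset E}
    {w w' : E → (Fin r → GaloisField 2 3)} (h : EquivN (C : Set E) (X : Set E) w w') :
    EquivMod (F := GaloisField 2 3) C X w w' := by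
  obtain ⟨g, hg, c, hc, hX⟩ := h
  refine ⟨c, hc, fun a => ?_⟩
  have h1 : ∑ x ∈ X, a x • w x - g (∑ x ∈ X, (a x * c x) • w' x) ∈
      Submodule.span (GaloisField 2 3) (w '' (C : Set E)) := by
    rw [map_sum, ← Finset.sum_sub_distrib]
    refine Submodule.sum_mem _ fun x hx => ?_
    rw [map_smul, mul_smul, ← smul_sub]
    exact Submodule.smul_mem _ _ (hX x (Finset.mem_coe.2 hx))
  have h2 := hg (∑ x ∈ X, (a x * c x) • w' x)
  change _ ∈ Submodule.span (GaloisField 2 3) (w '' (C : Set E)) ↔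
    _ ∈ Submodule.span (GaloisField 2 3) (w' '' (C : Set E))
  rw [h2]
  constructor
  · intro h3
    have h4 := Submodule.sub_mem _ h3 h1
    rwa [sub_sub_cancel] at h4
  · intro h3
    have h4 := Submodule.add_mem _ h1 h3
    rwa [sub_add_cancel] at h4

theorem EquivN.refl {E : Type} {r : ℕ} (C X : Set E) (w : E → (Fin r → GaloisField 2 3)) :
    EquivN C X w w := by
  refine ⟨LinearEquiv.refl _ _, fun x => Iff.rfl, fun _ => 1, fun _ => one_ne_zero, fun e _ => ?_⟩
  rw [one_smul, LinearEquiv.refl_apply, sub_self]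
  exact Submodule.zero_mem _

theorem EquivN.symm {E : Type} {r : ℕ} {C X : Set E} {w w' : E → (Fin r → GaloisField 2 3)}
    (h : EquivN C X w w') : EquivN C X w' w := by
  obtain ⟨g, hg, c, hc, hX⟩ := h
  refine ⟨g.symm, fun x => ?_, fun e => (c e)⁻¹, fun e => inv_ne_zero (hc e), fun e he => ?_⟩
  · have h1 := hg (g.symm x)
    rw [LinearEquiv.apply_symm_apply] at h1
    exact h1.symm
  · rw [hg, map_sub, map_smul, LinearEquiv.apply_symm_apply]
    have h1 : g (w' e) - (c e)⁻¹ • w e = -((c e)⁻¹ • (w e - c e • g (w' e))) := by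
      rw [smul_sub, smul_smul, inv_mul_cancel₀ (hc e), one_smul, neg_sub]
    rw [h1]
    exact Submodule.neg_mem _ (Submodule.smul_mem _ _ (hX e he))

theorem EquivN.trans {E : Type} {r : ℕ} {C X : Set E}
    {w w' w'' : E → (Fin r → GaloisField 2 3)} (h : EquivN C X w w')
    (h' : EquivN C X w' w'') : EquivN C X w w'' := by
  obtain ⟨g, hg, c, hc, hX⟩ := h
  obtain ⟨g', hg', c', hc', hX'⟩ := h'
  refine ⟨g'.trans g, fun x => ?_, fun e => c e * c' e, fun e => mul_ne_zero (hc e) (hc' e),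
    fun e he => ?_⟩
  · rw [hg' x, hg (g' x), LinearEquiv.trans_apply]
  · have h1 : w e - (c e * c' e) • (g'.trans g) (w'' e) =
        (w e - c e • g (w' e)) + c e • g (w' e - c' e • g' (w'' e)) := by
      rw [LinearEquiv.trans_apply, map_sub, map_smul, smul_sub, smul_smul, sub_add_sub_cancel]
    rw [h1]
    exact Submodule.add_mem _ (hX e he)
      (Submodule.smul_mem _ _ ((hg _).1 (hX' e he)))

end Pool.MP_4929df_co.H92
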