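import Pool.Agent.W_4929df_h92.BlkK
import Pool.Agent.W_4929df_h92.Final5A

/-!
The theorem on arbitrary extensions, one class of representations of `N` (proofs row 572).
-/

set_option autoImplicit false

namespace Pool.MP_4929df_co.H92

open Submodule

/-- One class: all pairs equivalent on `N`, or `N` binary. As `final2` (Final2.lean):
`star_bound t`, `sameRk_of_indep`, `equivMod_of_binary`, `equivMod_of_equivN`; the sets as
`Set.toFinset`. -/
theorem final5_one (t : ℕ) : ∃ k : ℕ, ∀ (E : Type) [Fintype E] (m : ℕ)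
    (v : E → (Fin m → GaloisField 2 3)) (C X S : Set E), Disjoint C X → C.ncard ≤ t →
    rank v (X ∪ C) = rank v Set.univ → ThreeN v C X → S ⊆ X → S.ncard ≤ t → Pieces v C X S t →
    ∀ (ι : Type) [Finite ι] (r : ℕ), ∀ w : ι → E → (Fin r → GaloisField 2 3),
      (∀ i, Submodule.span (GaloisField 2 3) (Set.range (w i)) = ⊤ ∧
        ∀ S : Set E, (LinearIndependent (GaloisField 2 3) (fun s : S => w i (s : E)) ↔
          LinearIndependent (GaloisField 2 3) (fun s : S => v (s : E)))) →
      (BinN v C X ∨ ∀ i j, EquivN C X (w i) (w j)) → k < Nat.card ι →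
      ∃ i j : ι, i ≠ j ∧
        ∃ g : (Fin r → GaloisField 2 3) ≃ₗ[GaloisField 2 3] (Fin r → GaloisField 2 3),
        ∃ c : E → GaloisField 2 3, (∀ e, c e ≠ 0) ∧ ∀ e, w i e = c e • g (w j e) := by
  classical
  obtain ⟨k0, hk0⟩ := star_bound t
  refine ⟨k0, ?_⟩
  intro E _ m v C X S hCX hC hrkX hthree hSX hS hpie ι _ r w hw hbin hcard
  have h8 : Nat.card (GaloisField 2 3) = 8 := by
    rw [GaloisField.card 2 3 (by norm_num)]; norm_num
  have hrk : ∀ i, ∀ Y : Set E,
      Module.finrank (GaloisField 2 3) (Submodule.span (GaloisField 2 3) (w i '' Y)) =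
      rank v Y := by
    intro i Y
    have h := sameRk_of_indep (F := GaloisField 2 3) (F' := GaloisField 2 3) (w := w i) (w' := v)
      (G := Finset.univ) (fun S _ => (hw i).2 S) Y.toFinset (Finset.subset_univ _)
    unfold Sp at h
    rw [Set.coe_toFinset] at h
    exact h
  have hsame : ∀ i j, SameRk (F := GaloisField 2 3) (F' := GaloisField 2 3) Finset.univ
      (w i) (w j) := by
    intro i j
    exact sameRk_of_indep (fun S _ => ((hw i).2 S).trans ((hw j).2 S).symm)
  have hspan : ∀ i, Sp (GaloisField 2 3) (w i) (X.toFinset ∪ C.toFinset) = ⊤ := by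
    intro i
    have h1 : Sp (GaloisField 2 3) (w i) (X.toFinset ∪ C.toFinset) =
        Submodule.span (GaloisField 2 3) (w i '' (X ∪ C)) := by
      unfold Sp
      rw [Finset.coe_union, Set.coe_toFinset, Set.coe_toFinset]
    rw [h1]
    refine Submodule.eq_top_of_finrank_eq ?_
    rw [hrk, hrkX, ← hrk i, Set.image_univ, (hw i).1, finrank_top]
  have hrkC : ∀ i, ∀ A : Finset E,
      rk (GaloisField 2 3) (w i) (Sp (GaloisField 2 3) (w i) C.toFinset) A =
        rank v ((A : Set E) ∪ C) := by
    intro i A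
    unfold rk
    rw [← Sp_union, ← hrk i]
    unfold Sp
    rw [Finset.coe_union, Set.coe_toFinset]
  have hequiv : ∀ i j, EquivMod (F := GaloisField 2 3) C.toFinset X.toFinset (w i) (w j) := by
    intro i j
    rcases hbin with ⟨n, u, hu⟩ | hE
    · refine equivMod_of_binary (u := u) ?_ ?_
      · intro A hA
        have h1 := hu (A : Set E) (by
          intro x hx
          have := hA (Finset.mem_coe.1 hx)
          rwa [Set.mem_toFinset] at this)
        rw [← hrk i, ← hrk i] at h1
        unfold Sp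
        rw [Finset.coe_union, Set.coe_toFinset]
        exact h1
      · intro A hA
        have h1 := hu (A : Set E) (by
          intro x hx
          have := hA (Finset.mem_coe.1 hx)
          rwa [Set.mem_toFinset] at this)
        rw [← hrk j, ← hrk j] at h1
        unfold Sp
        rw [Finset.coe_union, Set.coe_toFinset]
        exact h1
    · refine equivMod_of_equivN ?_
      rw [Set.coe_toFinset, Set.coe_toFinset]
      exact hE i j
  have hthree' : ∀ i, ThreeR (rk (GaloisField 2 3) (w i)
      (Sp (GaloisField 2 3) (w i) C.toFinset)) X.toFinset := by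
    intro i Z hZ j hj hZ1 hZ2
    have hZs : (Z : Set E) ⊆ X := by
      intro x hx
      have := hZ (Finset.mem_coe.1 hx)
      rwa [Set.mem_toFinset] at this
    have hdiff : ((X.toFinset \ Z : Finset E) : Set E) = X \ (Z : Set E) := by
      rw [Finset.coe_sdiff, Set.coe_toFinset]
    rw [hrkC, hrkC, hrkC, hrkC, hdiff, Set.coe_toFinset, Finset.coe_empty, Set.empty_union]
    refine hthree Z hZs j hj ?_ ?_
    · rwa [Set.ncard_coe_finset]
    · rwa [← hdiff, Set.ncard_coe_finset]
  have hpie' : ∀ i, ∀ x ∈ X.toFinset \ S.toFinset, ∃ P, SepN (rk (GaloisField 2 3) (w i)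
      (Sp (GaloisField 2 3) (w i) C.toFinset)) X.toFinset S.toFinset P ∧ x ∈ P ∧ P.card ≤ t := by
    intro i x hx
    rw [Finset.mem_sdiff, Set.mem_toFinset, Set.mem_toFinset] at hx
    obtain ⟨P, hP, hxP, hPt, hPr⟩ := hpie x hx
    refine ⟨P.toFinset, ⟨?_, ?_⟩, Set.mem_toFinset.2 hxP, ?_⟩
    · intro y hy
      have h1 := hP (Set.mem_toFinset.1 hy)
      rw [Finset.mem_sdiff, Set.mem_toFinset, Set.mem_toFinset]
      exact h1
    · rw [hrkC, hrkC, hrkC, hrkC, Finset.coe_union, Finset.coe_sdiff, Set.coe_toFinset,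
        Set.coe_toFinset, Set.coe_toFinset]
      exact hPr
    · rw [← Set.ncard_eq_toFinset_card']
      exact hPt
  refine hk0 (GaloisField 2 3) (Fin r → GaloisField 2 3) E C.toFinset X.toFinset S.toFinset ι w h8
    (Set.disjoint_toFinset.2 hCX) ?_ hthree' ?_ ?_ hpie' hsame hspan hequiv hcard
  · rw [← Set.ncard_eq_toFinset_card']; exact hC
  · exact Set.toFinset_subset_toFinset.2 hSX
  · rw [← Set.ncard_eq_toFinset_card']; exact hS

end Pool.MP_4929df_co.H92
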