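import Pool.Agent.W_4929df_h92.Vec

/-!
Families under deletion and contraction, their size, and the coefficient argument
(steps 1, 4 of proofs row 546). Useful: `Sp_union`, `Sp_insert`, `sup_eq_of_rk_le`, `cl_iff`,
`ct_rk`, `rk_isRk`.
-/

set_option autoImplicit false

namespace Pool.MP_4929df_co.H92

open Submodule

variable {F : Type*} [Field F] {V : Type*} [AddCommGroup V] [Module F V] [FiniteDimensional F V]
  {α : Type*} [DecidableEq α] {v : α → V} {Y : Submodule F V} {G : Finset α} {H : Set V}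

/-- The linear map sending coefficients on `X` to the class modulo `Y` of the combination. -/
noncomputable def GenA2_phi (F : Type*) [Field F] {V : Type*} [AddCommGroup V] [Module F V]
    {α : Type*} (v : α → V) (Y : Submodule F V) (X : Finset α) : (X → F) →ₗ[F] V ⧸ Y :=
  Y.mkQ ∘ₗ Fintype.linearCombination F (fun z : X => v z)

omit [FiniteDimensional F V] [DecidableEq α] in
theorem GenA2_phi_apply (X : Finset α) (c : X → F) :
    GenA2_phi F v Y X c = Y.mkQ (∑ z : X, c z • v z) := by
  unfold GenA2_phi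
  rw [LinearMap.comp_apply, Fintype.linearCombination_apply]

omit [DecidableEq α] in
theorem GenA2_range (X : Finset α) :
    Module.finrank F (LinearMap.range (GenA2_phi F v Y X)) + Module.finrank F Y =
      rk F v Y X := by
  have h1 : LinearMap.range (GenA2_phi F v Y X) = (Sp F v X ⊔ Y).map Y.mkQ := by
    unfold GenA2_phi
    rw [LinearMap.range_comp, Fintype.range_linearCombination, Submodule.map_sup,
      Submodule.mkQ_map_self, sup_bot_eq]
    congr 1
    unfold Sp
    congr 1
    ext w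
    simp only [Set.mem_range, Set.mem_image, Subtype.exists, Finset.mem_coe]
    constructor
    · rintro ⟨z, hz, rfl⟩
      exact ⟨z, hz, rfl⟩
    · rintro ⟨z, hz, rfl⟩
      exact ⟨z, hz, rfl⟩
  have hle : Y ≤ Sp F v X ⊔ Y := le_sup_right
  have h2 := LinearMap.finrank_range_add_finrank_ker (Y.mkQ ∘ₗ (Sp F v X ⊔ Y).subtype)
  rw [LinearMap.range_comp, Submodule.range_subtype, LinearMap.ker_comp, Submodule.ker_mkQ,
    (Submodule.comapSubtypeEquivOfLe hle).finrank_eq] at h2
  rw [h1]
  exact h2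

/-- independent sets have no nontrivial relation. For instance: the linear map
`c ↦ Y.mkQ (∑ z ∈ X, c z • v z)` from `X → F` is onto `(Sp F v X ⊔ Y).map Y.mkQ` of dimension
`rk F v Y X - finrank F Y = X.card`, so it is injective. -/
theorem indep_rel {X : Finset α} (h : rk F v Y X = Module.finrank F Y + X.card) {c : α → F}
    (hc : ∑ z ∈ X, c z • v z ∈ Y) : ∀ z ∈ X, c z = 0 := by
  have h1 := GenA2_range (F := F) (v := v) (Y := Y) X
  have h2 := LinearMap.finrank_range_add_finrank_ker (GenA2_phi F v Y X)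
  rw [Module.finrank_fintype_fun_eq_card, Fintype.card_coe] at h2
  have h3 : Module.finrank F (LinearMap.ker (GenA2_phi F v Y X)) = 0 := by omega
  have h4 : LinearMap.ker (GenA2_phi F v Y X) = ⊥ := Submodule.finrank_eq_zero.1 h3
  have h5 : (fun z : X => c z) ∈ LinearMap.ker (GenA2_phi F v Y X) := by
    rw [LinearMap.mem_ker, GenA2_phi_apply, Submodule.mkQ_apply, Submodule.Quotient.mk_eq_zero]
    rwa [← Finset.sum_coe_sort X (fun z => c z • v z)] at hc
  rw [h4, Submodule.mem_bot] at h5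
  intro z hz
  exact congrFun h5 ⟨z, hz⟩

/-- dependent sets have a nontrivial relation (same linear map: not injective) -/
theorem exists_dep {X : Finset α} (h : rk F v Y X + 1 ≤ Module.finrank F Y + X.card) :
    ∃ c : α → F, (∃ z ∈ X, c z ≠ 0) ∧ ∑ z ∈ X, c z • v z ∈ Y := by
  classical
  have h1 := GenA2_range (F := F) (v := v) (Y := Y) X
  have h2 := LinearMap.finrank_range_add_finrank_ker (GenA2_phi F v Y X)
  rw [Module.finrank_fintype_fun_eq_card, Fintype.card_coe] at h2
  have h4 : LinearMap.ker (GenA2_phi F v Y X) ≠ ⊥ := by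
    intro h5
    rw [h5, finrank_bot] at h2
    omega
  obtain ⟨c, hc, hc0⟩ := (Submodule.ne_bot_iff _).1 h4
  obtain ⟨z, hz⟩ := Function.ne_iff.1 hc0
  refine ⟨fun a => if ha : a ∈ X then c ⟨a, ha⟩ else 0, ⟨z, z.2, ?_⟩, ?_⟩
  · simpa using hz
  · rw [LinearMap.mem_ker, GenA2_phi_apply, Submodule.mkQ_apply,
      Submodule.Quotient.mk_eq_zero] at hc
    rw [← Finset.sum_coe_sort X]
    have h6 : (∑ i : X, (if ha : (i : α) ∈ X then c ⟨i, ha⟩ else 0) • v i) =
        ∑ z : X, c z • v z := by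
      refine Finset.sum_congr rfl fun i _ => ?_
      rw [dif_pos i.2]
    rw [h6]
    exact hc

/-- circuits have a relation with nonzero coefficients: `exists_dep`; if `c z = 0` for some `z ∈ X`,
then it is a nontrivial relation of `X.erase z`, which is independent (`indep_rel`) -/
theorem exists_rel {X : Finset α} (hX : Circ (rk F v Y) X) :
    ∃ c : α → F, (∀ z ∈ X, c z ≠ 0) ∧ ∑ z ∈ X, c z • v z ∈ Y := by
  obtain ⟨hne, h1, h2⟩ := hX
  rw [rk_empty] at h1
  obtain ⟨c, ⟨z0, hz0, hcz0⟩, hcY⟩ := exists_dep (F := F) (v := v) (Y := Y) (X := X) h1.le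
  refine ⟨c, ?_, hcY⟩
  intro z hz h0
  have h3 := Finset.card_erase_add_one hz
  have h4 : rk F v Y (X.erase z) = Module.finrank F Y + (X.erase z).card := by
    have := h2 z hz
    omega
  have h5 : ∑ x ∈ X.erase z, c x • v x ∈ Y := by
    rw [← Finset.add_sum_erase X _ hz, h0, zero_smul, zero_add] at hcY
    exact hcY
  have h6 := indep_rel h4 h5
  apply hcz0
  by_cases h7 : z0 = z
  · rw [h7]
    exact h0
  · exact h6 z0 (Finset.mem_erase.2 ⟨h7, hz0⟩)

/-- The coefficient argument. Write `h = ∑ p z • v z` modulo `Y` (`h ∈ Sp F v X ⊔ Y`); the map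
`z ↦ p z / c z` is injective on `X`: if `p z / c z = p z' / c z' = t`, then
`h - t • ∑ c z • v z = ∑ (p z - t * c z) • v z` modulo `Y`, and it is in
`Sp F v (X \ {z, z'}) ⊔ Y`. -/
theorem coeff_inj [Finite F] {X : Finset α} {c : α → F} (hc : ∀ z ∈ X, c z ≠ 0)
    (hcY : ∑ z ∈ X, c z • v z ∈ Y) {h : V} (hX : h ∈ Sp F v X ⊔ Y)
    (hh : ∀ z ∈ X, ∀ z' ∈ X, z ≠ z' → h ∉ Sp F v (X \ {z, z'}) ⊔ Y) : X.card ≤ Nat.card F := by
  classical
  obtain ⟨s, hs, y, hy, hsy⟩ := Submodule.mem_sup.1 hX
  obtain ⟨p, hp⟩ : ∃ p : α → F, ∑ z ∈ X, p z • v z = s := by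
    unfold Sp at hs
    rw [Submodule.mem_span_image_finset_iff_exists_fun] at hs
    obtain ⟨p0, hp0⟩ := hs
    refine ⟨fun a => if ha : a ∈ X then p0 ⟨a, ha⟩ else 0, ?_⟩
    rw [← hp0, ← Finset.sum_coe_sort X]
    refine Finset.sum_congr rfl fun i _ => ?_
    show (if ha : (i : α) ∈ X then p0 ⟨i, ha⟩ else 0) • v i = p0 i • v i
    rw [dif_pos i.2]
  have : Fintype F := Fintype.ofFinite F
  rw [Nat.card_eq_fintype_card, ← Finset.card_univ]
  refine Finset.card_le_card_of_injOn (fun z => p z / c z) (fun z _ => Finset.mem_univ _) ?_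
  intro z hz z' hz' hzz
  by_contra hne
  simp only at hzz
  set t := p z / c z with ht
  have e1 : p z - t * c z = 0 := by
    rw [ht, div_mul_cancel₀ _ (hc z hz), sub_self]
  have e2 : p z' - t * c z' = 0 := by
    rw [hzz, div_mul_cancel₀ _ (hc z' hz'), sub_self]
  apply hh z hz z' hz' hne
  have e3 : h = (∑ x ∈ X, (p x - t * c x) • v x) + (t • ∑ x ∈ X, c x • v x + y) := by
    rw [← hsy, ← hp, Finset.smul_sum, ← add_assoc, ← Finset.sum_add_distrib]
    congr 1
    refine Finset.sum_congr rfl fun x _ => ?_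
    rw [smul_smul, ← add_smul, sub_add_cancel]
  rw [e3]
  refine Submodule.add_mem_sup ?_ (Y.add_mem (Y.smul_mem _ hcY) hy)
  have e4 : ∑ x ∈ X, (p x - t * c x) • v x = ∑ x ∈ X \ {z, z'}, (p x - t * c x) • v x := by
    symm
    refine Finset.sum_subset Finset.sdiff_subset ?_
    intro x hx hx2
    have h7 : x = z ∨ x = z' := by
      by_contra hcon
      apply hx2
      rw [Finset.mem_sdiff, Finset.mem_insert, Finset.mem_singleton]
      exact ⟨hx, hcon⟩
    rcases h7 with rfl | rfl
    · rw [e1, zero_smul]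
    · rw [e2, zero_smul]
  rw [e4]
  exact Submodule.sum_mem _ fun x hx => Submodule.smul_mem _ _ (mem_Sp hx)

end Pool.MP_4929df_co.H92
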