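import Pool.Agent.W_4929df_h92.Thick
import Pool.Agent.W_4929df_h92.CircA
import Pool.Agent.W_4929df_h92.GenA2

/-!
Families under deletion and contraction, their size, and the coefficient argument
(steps 1, 4 of proofs row 546). Useful: `Sp_union`, `Sp_insert`, `sup_eq_of_rk_le`, `cl_iff`,
`ct_rk`, `rk_isRk`.
-/

set_option autoImplicit false

namespace Pool.MP_4929df_co.H92

open Submodule

variable {F : Type*} [Field F] {V : Type*} [AddCommGroup V] [Module F V] [FiniteDimensional F V]
  {α : Type*} [DecidableEq α] {v : α → V} {Y : Submodule F V} {G : Finset α} {H : Set V}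

omit [FiniteDimensional F V] in
theorem GenA3_sup (v : α → V) (Y : Submodule F V) (A B : Finset α) :
    Sp F v A ⊔ (Sp F v B ⊔ Y) = Sp F v (A ∪ B) ⊔ Y := by
  rw [Sp_union, sup_assoc]

omit [FiniteDimensional F V] in
theorem GenA3_rk (v : α → V) (Y : Submodule F V) (A B : Finset α) :
    rk F v (Sp F v B ⊔ Y) A = rk F v Y (A ∪ B) := by
  rw [← ct_rk]
  rfl

/-- Series sets. `X` is a circuit of `rk F v W`, `W = Sp F v (G \ X) ⊔ Y` (`ct_rk`): for `z ∈ X`,
`rk (X.erase z ∪ (G \ X)) = rk (G.erase z) = rk G` (`Conn.erase_eq`), and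
`X.card + rk (G \ X) = rk G + 1` (`≤` is `Ser`; if `X.card + rk (G \ X) ≤ rk G` then
`rk (G.erase z) ≤ rk (G \ X) + X.card - 1 < rk G`). Apply `exists_rel` and `coeff_inj` to `W`
(`Sp F v (X \ {z, z'}) ⊔ W = Sp F v (G \ {z, z'}) ⊔ Y`). -/
theorem ser_card [Finite F] (hG : Conn (rk F v Y) G) {X : Finset α} (hX : Ser (rk F v Y) G X)
    (h2 : 2 ≤ X.card) {h : V} (hhG : h ∈ Sp F v G ⊔ Y)
    (hh : ∀ z ∈ X, ∀ z' ∈ X, z ≠ z' → h ∉ Sp F v (G \ {z, z'}) ⊔ Y) : X.card ≤ Nat.card F := by
  set W : Submodule F V := Sp F v (G \ X) ⊔ Y with hW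
  have hr := rk_isRk (F := F) v Y
  have hXG := hX.1
  have hcard := hX.2
  have eun : X ∪ (G \ X) = G := by
    ext a; simp only [Finset.mem_union, Finset.mem_sdiff]
    by_cases h : a ∈ X
    · simp [h, hXG h]
    · simp [h]
  have eer : ∀ z ∈ X, X.erase z ∪ (G \ X) = G.erase z := by
    intro z hz
    ext a; simp only [Finset.mem_union, Finset.mem_sdiff, Finset.mem_erase]
    by_cases h : a ∈ X
    · simp [h, hXG h]
    · simp only [h, and_false, not_false_eq_true, and_true, false_or]
      constructor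
      · intro ha; exact ⟨fun e => h (e ▸ hz), ha⟩
      · exact fun ha => ha.2
  have hne : ∀ z ∈ X, (G.erase z).Nonempty := by
    intro z hz
    obtain ⟨z', hz', hzz⟩ := Finset.exists_mem_ne (Nat.lt_of_succ_le h2) z
    exact ⟨z', Finset.mem_erase.2 ⟨hzz, hXG hz'⟩⟩
  have hXn : X.Nonempty := Finset.card_pos.1 (by omega)
  have hcirc : Circ (rk F v W) X := by
    refine ⟨hXn, ?_, ?_⟩
    · rw [hW, GenA3_rk, GenA3_rk, eun, Finset.empty_union]
      obtain ⟨z, hz⟩ := hXn
      have h3 := hG.erase_eq hr (hXG hz) (hne z hz)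
      have h4 : rk F v Y (G.erase z) ≤ rk F v Y (G \ X) + (X.erase z).card :=
        hr.le_add_card (by rw [← eer z hz, Finset.union_comm])
      rw [Finset.card_erase_of_mem hz] at h4
      omega
    · intro z hz
      rw [hW, GenA3_rk, GenA3_rk, eun, eer z hz]
      exact hG.erase_eq hr (hXG hz) (hne z hz)
  obtain ⟨c, hc, hcW⟩ := exists_rel hcirc
  refine coeff_inj hc hcW (h := h) ?_ ?_
  · rw [hW, GenA3_sup, eun]; exact hhG
  · intro z hz z' hz' hzz
    have e : X \ {z, z'} ∪ (G \ X) = G \ {z, z'} := by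
      ext a
      simp only [Finset.mem_union, Finset.mem_sdiff, Finset.mem_insert, Finset.mem_singleton]
      by_cases ha : a ∈ X
      · simp [ha, hXG ha]
      · simp only [ha, false_and, not_false_eq_true, and_true, false_or]
        constructor
        · intro h; exact ⟨h, by rintro (e | e) <;> subst e <;> contradiction⟩
        · exact fun h => h.1
    rw [hW, GenA3_sup, e]
    exact hh z hz z' hz' hzz

/-- A set `A ⊆ G` skew to `X` with `X ∪ A` spanning `G`: take `A ⊆ G` with
`r (X ∪ A) + r ∅ = r X + r A` and `A.card` maximal; if `r (X ∪ A) < r G` then some `y ∈ G` has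
`r (insert y (X ∪ A)) = r (X ∪ A) + 1` (`cl_union`), and `insert y A` is larger. -/
theorem exists_skew {r : Finset α → ℕ} (hr : IsRk r) {X : Finset α} (hX : X ⊆ G) :
    ∃ A ⊆ G, r (X ∪ A) + r ∅ = r X + r A ∧ r (X ∪ A) = r G := by
  classical
  set P : Finset (Finset α) := G.powerset.filter (fun A => r (X ∪ A) + r ∅ = r X + r A) with hP
  have hPn : P.Nonempty := ⟨∅, by
    rw [hP, Finset.mem_filter, Finset.union_empty]
    exact ⟨Finset.empty_mem_powerset _, rfl⟩⟩
  obtain ⟨A, hA, hmax⟩ := Finset.exists_max_image P Finset.card hPn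
  rw [hP, Finset.mem_filter, Finset.mem_powerset] at hA
  obtain ⟨hAG, hsk⟩ := hA
  refine ⟨A, hAG, hsk, ?_⟩
  have hle := hr.mono (X ∪ A) G (Finset.union_subset hX hAG)
  by_contra hcon
  have hlt : r (X ∪ A) < r G := lt_of_le_of_ne hle hcon
  obtain ⟨y, hyG, hy⟩ : ∃ y ∈ G, r (X ∪ A) < r (insert y (X ∪ A)) := by
    by_contra hc
    push Not at hc
    have h1 := hr.cl_union hc
    have h2 := hr.mono G (X ∪ A ∪ G) Finset.subset_union_right
    omega
  have hyXA : y ∉ X ∪ A := by
    intro h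
    rw [Finset.insert_eq_of_mem h] at hy
    exact lt_irrefl _ hy
  have h1 := hr.ins y (X ∪ A)
  have h2 := hr.ins y A
  have h3 : r A < r (insert y A) := by
    by_contra hc
    have h4 := hr.cl_mono (x := y) (A := A) (B := X ∪ A) (by omega) Finset.subset_union_right
    omega
  have h5 : insert y A ∈ P := by
    rw [hP, Finset.mem_filter, Finset.mem_powerset, Finset.union_insert]
    exact ⟨Finset.insert_subset hyG hAG, by omega⟩
  have h6 := hmax _ h5
  rw [Finset.card_insert_of_notMem (fun h => hyXA (Finset.mem_union_right _ h))] at h6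
  omega

/-- Circuits. `X` has a skew complement `A` (`exists_skew`), so `X` is a circuit of `rk F v W`,
`W = Sp F v A ⊔ Y`; `exists_rel`, `coeff_inj`; `h ∉ Sp F v (X \ {z, z'}) ⊔ W` by `hgen` because
`rk (X \ {z, z'} ∪ A) ≤ rk A + X.card - 2 < rk A + X.card - 1 = rk G`. (If `X.card ≤ 1` there is
nothing to prove: `1 ≤ Nat.card F`.) -/
theorem circ_card [Finite F] {X : Finset α} (hX : Circ (rk F v Y) X) (hXG : X ⊆ G) {h : V}
    (hhG : h ∈ Sp F v G ⊔ Y)
    (hgen : ∀ A ⊆ G, h ∈ Sp F v A ⊔ Y → Sp F v G ⊔ Y ≤ Sp F v A ⊔ Y) : X.card ≤ Nat.card F := by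
  have hr := rk_isRk (F := F) v Y
  rcases Nat.lt_or_ge X.card 2 with hlt | h2
  · have : 0 < Nat.card F := Nat.card_pos
    omega
  obtain ⟨A, hAG, hsk, hsp⟩ := exists_skew hr hXG
  set W : Submodule F V := Sp F v A ⊔ Y with hW
  have hcirc : Circ (rk F v W) X := by
    refine ⟨hX.1, ?_, ?_⟩
    · rw [hW, GenA3_rk, GenA3_rk, Finset.empty_union]
      have := hX.2.1
      omega
    · intro z hz
      rw [hW, GenA3_rk, GenA3_rk]
      have h1 : rk F v Y (insert z (X.erase z)) ≤ rk F v Y (X.erase z) := by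
        rw [Finset.insert_erase hz, hX.2.2 z hz]
      have h3 := hr.cl_mono h1 (Finset.subset_union_left (s₂ := A))
      rw [← Finset.insert_union, Finset.insert_erase hz] at h3
      have h4 := hr.mono (X.erase z ∪ A) (X ∪ A)
        (Finset.union_subset_union_left (Finset.erase_subset _ _))
      omega
  have espan : Sp F v (X ∪ A) ⊔ Y = Sp F v G ⊔ Y :=
    sup_eq_of_rk_le (Finset.union_subset hXG hAG) hsp.ge
  obtain ⟨c, hc, hcW⟩ := exists_rel hcirc
  refine coeff_inj hc hcW (h := h) ?_ ?_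
  · rw [hW, GenA3_sup, espan]; exact hhG
  · intro z hz z' hz' hzz hmem
    rw [hW, GenA3_sup] at hmem
    have h3 := hgen _ (Finset.union_subset (Finset.sdiff_subset.trans hXG) hAG) hmem
    have h4 : rk F v Y G ≤ rk F v Y (X \ {z, z'} ∪ A) := Submodule.finrank_mono h3
    have h5 : rk F v Y (X \ {z, z'} ∪ A) ≤ rk F v Y A + (X \ {z, z'}).card :=
      hr.le_add_card (by rw [Finset.union_comm])
    have h6 : (X \ {z, z'}).card + 2 = X.card := by
      have h7 := Finset.card_sdiff_add_card_eq_card (s := {z, z'}) (t := X)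
        (by intro a ha
            rw [Finset.mem_insert, Finset.mem_singleton] at ha
            rcases ha with ha | ha <;> rw [ha] <;> assumption)
      rw [Finset.card_pair hzz] at h7
      exact h7
    have h8 := hX.2.1
    omega

end Pool.MP_4929df_co.H92
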