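import Pool.Agent.W_4929df_h92.GenA1
import Pool.Agent.W_4929df_h92.GenA3

/-! Collects the files on families under deletion and contraction. -/
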