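import Pool.Agent.W_4929df_h92.Vec

/-!
Families under deletion and contraction, their size, and the coefficient argument
(steps 1, 4 of proofs row 546). Useful: `Sp_union`, `Sp_insert`, `sup_eq_of_rk_le`, `cl_iff`,
`ct_rk`, `rk_isRk`.
-/

set_option autoImplicit false

namespace Pool.MP_4929df_co.H92

open Submodule

variable {F : Type*} [Field F] {V : Type*} [AddCommGroup V] [Module F V] [FiniteDimensional F V]
  {α : Type*} [DecidableEq α] {v : α → V} {Y : Submodule F V} {G : Finset α} {H : Set V}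

omit [FiniteDimensional F V] in
theorem GenA1_sup (v : α → V) (Y : Submodule F V) (x : α) (A : Finset α) :
    Sp F v A ⊔ (Sp F v {x} ⊔ Y) = Sp F v (insert x A) ⊔ Y := by
  rw [Sp_insert, Sp_singleton, ← sup_assoc, sup_comm (Sp F v A)]

/-- Contraction of `x` with `v x ∉ span F H ⊔ Y`. `h1`: `Sp F v (insert x G') ⊔ Y = Sp F v G ⊔ Y`
(`sup_eq_of_rk_le`). `h2`: `h = a h' + b v x + y` with `b = 0` contradicts `h2`, with `b ≠ 0` it
gives `v x ∈ span F H ⊔ Y`. `h3`: `Sp F v A ⊔ (Sp F v {x} ⊔ Y) = Sp F v (insert x A) ⊔ Y`. -/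
theorem Fam.contract (h : Fam F v Y G H) {x : α} (hxG : x ∈ G) (hx : v x ∉ span F H ⊔ Y)
    {G' : Finset α} (hG' : G' ⊆ G) (hspan : rk F v Y (insert x G') = rk F v Y G) :
    Fam F v (Sp F v {x} ⊔ Y) G' H where
  h1 k hk := by
    rw [GenA1_sup, sup_eq_of_rk_le (Finset.insert_subset hxG hG') hspan.ge]
    exact h.h1 k hk
  h2 k hk k' hk' hne hmem := by
    rw [Sp_singleton] at hmem
    obtain ⟨p, hp, q, hq, hpq⟩ := mem_sup.1 hmem
    obtain ⟨r, hr, y, hy, hry⟩ := mem_sup.1 hq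
    obtain ⟨b, rfl⟩ := mem_span_singleton.1 hr
    by_cases hb : b = 0
    · refine h.h2 k hk k' hk' hne (mem_sup.2 ⟨p, hp, y, hy, ?_⟩)
      rw [← hpq, ← hry, hb, zero_smul, zero_add]
    · apply hx
      have hpH : p ∈ span F H := span_mono (Set.singleton_subset_iff.2 hk') hp
      have e : v x = b⁻¹ • (k - p) + -(b⁻¹ • y) := by
        have : k - p = b • v x + y := by rw [← hpq, ← hry]; abel
        rw [this, smul_add, smul_smul, inv_mul_cancel₀ hb, one_smul]
        abel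
      rw [e]
      exact mem_sup.2 ⟨_, smul_mem _ _ (sub_mem (subset_span hk) hpH), _,
        neg_mem (smul_mem _ _ hy), rfl⟩
  h3 A hA k hk k' hk' hmem := by
    rw [GenA1_sup] at hmem ⊢
    exact h.h3 (insert x A) (Finset.insert_subset hxG (hA.trans hG')) k hk k' hk' hmem

theorem Fam.delete (h : Fam F v Y G H) {G' : Finset α} (hG' : G' ⊆ G)
    (hspan : rk F v Y G' = rk F v Y G) : Fam F v Y G' H where
  h1 k hk := by
    rw [sup_eq_of_rk_le hG' hspan.ge]
    exact h.h1 k hk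
  h2 := h.h2
  h3 A hA k hk k' hk' hmem := h.h3 A (hA.trans hG') k hk k' hk' hmem

theorem GenA1_finrank_map {N : Submodule F V} (hN : Y ≤ N) :
    Module.finrank F (N.map Y.mkQ) + Module.finrank F Y = Module.finrank F N := by
  have h1 := LinearMap.finrank_range_add_finrank_ker (Y.mkQ.domRestrict N)
  have h2 : LinearMap.range (Y.mkQ.domRestrict N) = N.map Y.mkQ := by
    rw [LinearMap.range_domRestrict]
  have h3 : LinearMap.ker (Y.mkQ.domRestrict N) = Y.comap N.subtype := by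
    rw [LinearMap.domRestrict, LinearMap.ker_comp, Submodule.ker_mkQ]
  rw [h2, h3, (Submodule.comapSubtypeEquivOfLe hN).finrank_eq] at h1
  exact h1

/-- `h ↦ Y.mkQ h` is injective on `H` (`h2`: if `h - h' ∈ Y` then `h ∈ span {h'} ⊔ Y`) and maps into
`(Sp F v G ⊔ Y).map Y.mkQ`, a space of dimension `rk F v Y G - finrank F Y`, which has
`Nat.card F ^ ...` elements -/
theorem Fam.ncard_le [Finite F] (h : Fam F v Y G H) :
    H.ncard ≤ Nat.card F ^ (rk F v Y G - Module.finrank F Y) := by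
  haveI : Finite (V ⧸ Y) := Module.finite_of_finite F
  have hinj : Set.InjOn Y.mkQ H := by
    intro k hk k' hk' e
    by_contra hne
    refine h.h2 k hk k' hk' hne ?_
    have h1 : k - k' ∈ Y := by
      rw [← Submodule.ker_mkQ Y, LinearMap.mem_ker, map_sub, e, sub_self]
    exact mem_sup.2 ⟨k', mem_span_singleton_self k', k - k', h1, by abel⟩
  have hsub : Y.mkQ '' H ⊆ ((Sp F v G ⊔ Y).map Y.mkQ : Submodule F (V ⧸ Y)) := by
    rintro _ ⟨k, hk, rfl⟩
    exact Submodule.mem_map_of_mem (h.h1 k hk)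
  have h1 : H.ncard = (Y.mkQ '' H).ncard := (Set.ncard_image_of_injOn hinj).symm
  have h2 : (Y.mkQ '' H).ncard ≤
      (((Sp F v G ⊔ Y).map Y.mkQ : Submodule F (V ⧸ Y)) : Set (V ⧸ Y)).ncard :=
    Set.ncard_le_ncard hsub (Set.toFinite _)
  have h3 : (((Sp F v G ⊔ Y).map Y.mkQ : Submodule F (V ⧸ Y)) : Set (V ⧸ Y)).ncard =
      Nat.card F ^ Module.finrank F ((Sp F v G ⊔ Y).map Y.mkQ : Submodule F (V ⧸ Y)) := by
    rw [← Module.natCard_eq_pow_finrank (K := F)]
    rfl
  have h4 := GenA1_finrank_map (F := F) (Y := Y) (N := Sp F v G ⊔ Y) le_sup_right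
  have h5 : Module.finrank F ((Sp F v G ⊔ Y).map Y.mkQ : Submodule F (V ⧸ Y)) =
      rk F v Y G - Module.finrank F Y := by
    unfold rk
    omega
  rw [h1, ← h5, ← h3]
  exact h2

end Pool.MP_4929df_co.H92
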