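import Pool.Agent.W_4929df_h92.StarA
import Pool.Agent.W_4929df_h92.CircE

/-!
Large connected matroids without long circuits have a small set `S` whose contraction has many
components (step 6 of proofs row 546).
-/

set_option autoImplicit false

namespace Pool.MP_4929df_co.H92

/-- the conclusion of the theorem `star` -/
def StarAt {α : Type} [DecidableEq α] (r : Finset α → ℕ) (G : Finset α) (c m : ℕ) : Prop :=
  ∃ S ⊆ G, S.card ≤ c * c ∧ ∃ P : Fin m → Finset α, (∀ k, P k ⊆ G \ S) ∧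
    (∀ k l, k ≠ l → Disjoint (P k) (P l)) ∧ (∀ k, Conn (ct r S) (P k)) ∧
    (∀ k, r S < r (P k ∪ S)) ∧ ∀ k, r (P k ∪ S) + r (G \ P k) = r G + r S

/-- the hypothesis on the size of flats -/
def FlatBd {α : Type} [DecidableEq α] (r : Finset α → ℕ) (G : Finset α) (β : ℕ → ℕ) : Prop :=
  ∀ (ρ : ℕ) (A X : Finset α), A ⊆ G → X ⊆ G → r A ≤ r ∅ + ρ →
    (∀ x ∈ X, r (insert x A) ≤ r A) → X.card ≤ β ρ

variable {α : Type} [DecidableEq α] {r : Finset α → ℕ} {G : Finset α}

/-- a connected matroid with at least two elements has a circuit with at least two elements: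
`y ∈ G`; `G.erase y` has rank `r G` (`Conn.erase_eq`) and so `r G + 1 ≤ r ∅ + G.card`;
`exists_circ`; a circuit with one element is a loop, excluded by `Conn.single` -/
theorem exists_circ_of_conn (hr : IsRk r) (hG : Conn r G) (h2 : 2 ≤ G.card) :
    ∃ X ⊆ G, Circ r X ∧ 2 ≤ X.card := by
  obtain ⟨y, hy⟩ : G.Nonempty := Finset.card_pos.1 (by omega)
  have hne : ∀ z ∈ G, (G.erase z).Nonempty := fun z hz => by
    rw [← Finset.card_pos, Finset.card_erase_of_mem hz]
    omega
  have h3 := hG.erase_eq hr hy (hne y hy)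
  have h4 := hr.le_card (G.erase y)
  have h5 := Finset.card_erase_add_one hy
  obtain ⟨C, hC, hCc⟩ := exists_circ hr (X := G) (by omega)
  refine ⟨C, hC, hCc, ?_⟩
  by_contra hcon
  have h6 : C.card = 1 := by
    have := Finset.card_pos.2 hCc.1
    omega
  obtain ⟨z, hz⟩ := Finset.card_eq_one.1 h6
  have hzG : z ∈ G := hC (by rw [hz]; exact Finset.mem_singleton_self z)
  have h7 := hG.single hr hzG (hne z hzG)
  have h8 := hCc.2.1
  rw [h6, hz] at h8
  omega

/-- elements of `Z` are not in `G₁` -/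
theorem StarB_disj {Z G₁ P : Finset α}
    (hG₁ : G₁ = G.filter (fun y => r Z < r (insert y Z))) (hP : P ⊆ G₁) : Disjoint P Z := by
  rw [Finset.disjoint_left]
  intro a ha haZ
  have h1 := hP ha
  rw [hG₁, Finset.mem_filter, Finset.insert_eq_of_mem haZ] at h1
  exact lt_irrefl _ h1.2

/-- elements of `G` outside `G₁` are in the closure of `Z` -/
theorem StarB_cl {Z G₁ : Finset α}
    (hG₁ : G₁ = G.filter (fun y => r Z < r (insert y Z))) :
    ∀ x ∈ G, x ∉ G₁ → r (insert x Z) ≤ r Z := by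
  intro x hx hx1
  rw [hG₁, Finset.mem_filter] at hx1
  by_contra hcon
  exact hx1 ⟨hx, by omega⟩

/-- One step, many components: `Z` a circuit (`r Z ≤ r ∅ + c`), `G₁` the elements outside the closure
of `Z`, `𝒟` the components (`comps`) of `ct r Z` restricted to `G₁`, at least `m` of them. Take an
injection of `Fin m` into `𝒟` and `S = Z`. `Disjoint P Z` because elements of `Z` are in the closure
of `Z` and `P ⊆ G₁`; `sep_of_ct`; `r Z < r (P ∪ Z)` because `P` is nonempty and contained in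
`G₁`. -/
theorem star_many (hr : IsRk r) {Z G₁ : Finset α} {c m : ℕ} (hZ : Z ⊆ G) (hZc : Z.card = c)
    (hG₁ : G₁ = G.filter (fun y => r Z < r (insert y Z))) {𝒟 : Finset (Finset α)}
    (h1 : ∀ P ∈ 𝒟, P.Nonempty ∧ P ⊆ G₁ ∧ Conn (ct r Z) P ∧
      ct r Z P + ct r Z (G₁ \ P) = ct r Z G₁ + ct r Z ∅)
    (h2 : ∀ P ∈ 𝒟, ∀ Q ∈ 𝒟, P ≠ Q → Disjoint P Q) (hm : m ≤ 𝒟.card) : StarAt r G c m := by
  have hG₁G : G₁ ⊆ G := by rw [hG₁]; exact Finset.filter_subset _ _
  have hdisj : ∀ P : Finset α, P ⊆ G₁ → Disjoint P Z := fun P hP => StarB_disj hG₁ hP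
  let e : Fin m → Finset α := fun k => (𝒟.equivFin.symm (Fin.castLE hm k)).1
  have he : ∀ k, e k ∈ 𝒟 := fun k => (𝒟.equivFin.symm (Fin.castLE hm k)).2
  have hinj : ∀ k l, k ≠ l → e k ≠ e l := fun k l hkl h => by
    have h3 := 𝒟.equivFin.symm.injective (Subtype.ext h)
    exact hkl (Fin.castLE_injective hm h3)
  refine ⟨Z, hZ, by rw [hZc]; exact Nat.le_mul_self c, e, ?_, ?_, ?_, ?_, ?_⟩
  · intro k a ha
    have h3 := (h1 _ (he k)).2.1
    rw [Finset.mem_sdiff]
    exact ⟨hG₁G (h3 ha), Finset.disjoint_left.1 (hdisj _ h3) ha⟩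
  · intro k l hkl
    exact h2 _ (he k) _ (he l) (hinj k l hkl)
  · intro k
    exact (h1 _ (he k)).2.2.1
  · intro k
    obtain ⟨p, hp⟩ := (h1 _ (he k)).1
    have h3 := (h1 _ (he k)).2.1 hp
    rw [hG₁, Finset.mem_filter] at h3
    refine lt_of_lt_of_le h3.2 (hr.mono _ _ ?_)
    intro a ha
    rw [Finset.mem_insert] at ha
    rw [Finset.mem_union]
    rcases ha with ha | ha
    · left; rw [ha]; exact hp
    · right; exact ha
  · intro k
    have h3 := (h1 _ (he k)).2.1
    exact sep_of_ct hr hZ hG₁G (StarB_cl hG₁) h3 (hdisj _ h3) (h1 _ (he k)).2.2.2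

/-- One step, a large component `P`: `StarAt (ct r Z) P (c - 1) m` gives `StarAt r G c m` with
`S = Z ∪ S'` (`sep_of_ct`, `sep_nest`, `ct_ct`). `c + (c - 1) * (c - 1) ≤ c * c` for `1 ≤ c`. -/
theorem star_large (hr : IsRk r) {Z G₁ P : Finset α} {c m : ℕ} (hZ : Z ⊆ G) (hZc : Z.card = c)
    (hc : 1 ≤ c) (hG₁ : G₁ = G.filter (fun y => r Z < r (insert y Z))) (hP : P ⊆ G₁)
    (hsep : ct r Z P + ct r Z (G₁ \ P) = ct r Z G₁ + ct r Z ∅)
    (h : StarAt (ct r Z) P (c - 1) m) : StarAt r G c m := by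
  obtain ⟨S, hS, hSc, Q, hQ1, hQ2, hQ3, hQ4, hQ5⟩ := h
  have hG₁G : G₁ ⊆ G := by rw [hG₁]; exact Finset.filter_subset _ _
  have hPZ : Disjoint P Z := StarB_disj hG₁ hP
  have hPG : P ⊆ G := hP.trans hG₁G
  have hPs := sep_of_ct hr hZ hG₁G (StarB_cl hG₁) hP hPZ hsep
  have hQP : ∀ k, Q k ⊆ P := fun k => (hQ1 k).trans Finset.sdiff_subset
  refine ⟨Z ∪ S, Finset.union_subset hZ (hS.trans hPG), ?_, Q, ?_, hQ2, ?_, ?_, ?_⟩
  · have h1 := Finset.card_union_le Z S
    obtain ⟨d, rfl⟩ : ∃ d, c = d + 1 := ⟨c - 1, by omega⟩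
    rw [Nat.add_sub_cancel] at hSc
    nlinarith
  · intro k a ha
    rw [Finset.mem_sdiff, Finset.mem_union]
    refine ⟨hPG (hQP k ha), ?_⟩
    rintro (h1 | h1)
    · exact Finset.disjoint_left.1 hPZ (hQP k ha) h1
    · exact (Finset.mem_sdiff.1 (hQ1 k ha)).2 h1
  · intro k
    rw [← ct_ct]
    exact hQ3 k
  · intro k
    have h1 : r (S ∪ Z) < r (Q k ∪ S ∪ Z) := hQ4 k
    have e1 : S ∪ Z = Z ∪ S := Finset.union_comm _ _
    have e2 : Q k ∪ S ∪ Z = Q k ∪ (Z ∪ S) := by
      rw [Finset.union_assoc, Finset.union_comm S Z]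
    rw [e1, e2] at h1
    exact h1
  · intro k
    exact sep_nest hr hZ hPG hPZ hS (hQ1 k) hPs (hQ5 k)

/-- Step 6. Induction on `c`, for all `β`. `c ≤ 1`: `n = 2` (`exists_circ_of_conn`). `c ≥ 2`: `n₁` from
the induction hypothesis for `c - 1, m, fun ρ => β (ρ + c)`, `n₂` from the one for `c - 1, m, β`;
`n = max n₂ (β c + m * n₁ + 2)`. If there is no circuit with exactly `c` elements in `G`, the
hypothesis for `c - 1` applies (`(c - 1) * (c - 1) ≤ c * c`). Otherwise `Z` is such a circuit, `G₁`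
as above, `(G \ G₁).card ≤ β c`, `comps (hr.ct Z) G₁`. If `m ≤ 𝒟.card`: `star_many`. Otherwise
`comps_large` gives `P ∈ 𝒟` with more than `n₁` elements, the circuits of `ct r Z` in `P` have fewer
than `c` elements by `circ_lt`, `FlatBd (ct r Z) P (fun ρ => β (ρ + c))` from the hypothesis with
`A ∪ Z`; `star_large`. -/
theorem star : ∀ (c m : ℕ) (β : ℕ → ℕ), ∃ n : ℕ, ∀ {α : Type} [DecidableEq α]
    (r : Finset α → ℕ) (G : Finset α), IsRk r → Conn r G → (∀ X ⊆ G, Circ r X → X.card ≤ c) →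
    FlatBd r G β → n ≤ G.card → StarAt r G c m := by
  intro c
  induction c with
  | zero =>
    intro m β
    refine ⟨2, ?_⟩
    intro α _ r G hr hG hc _ hn
    obtain ⟨X, hX, hXc, h2⟩ := exists_circ_of_conn hr hG hn
    have := hc X hX hXc
    omega
  | succ c ih =>
    intro m β
    by_cases hc1 : c = 0
    · subst hc1
      refine ⟨2, ?_⟩
      intro α _ r G hr hG hc _ hn
      obtain ⟨X, hX, hXc, h2⟩ := exists_circ_of_conn hr hG hn
      have := hc X hX hXc
      omega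
    · obtain ⟨n₁, hn₁⟩ := ih m (fun ρ => β (ρ + (c + 1)))
      obtain ⟨n₂, hn₂⟩ := ih m β
      refine ⟨max n₂ (β (c + 1) + m * n₁ + 2), ?_⟩
      intro α _ r G hr hG hc hβ hn
      by_cases hZ : ∃ Z ⊆ G, Circ r Z ∧ Z.card = c + 1
      · obtain ⟨Z, hZG, hZ, hZc⟩ := hZ
        obtain ⟨G₁, hG₁⟩ : ∃ G₁, G₁ = G.filter (fun y => r Z < r (insert y Z)) := ⟨_, rfl⟩
        have hG₁G : G₁ ⊆ G := by rw [hG₁]; exact Finset.filter_subset _ _
        have h1 : (G \ G₁).card ≤ β (c + 1) := by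
          refine hβ (c + 1) Z (G \ G₁) hZG Finset.sdiff_subset ?_ ?_
          · rw [← hZc]; exact hr.le_card Z
          · intro x hx
            rw [Finset.mem_sdiff] at hx
            exact StarB_cl hG₁ x hx.1 hx.2
        have h2 := Finset.card_sdiff_add_card_eq_card hG₁G
        have h3 : β (c + 1) + m * n₁ + 2 ≤ G.card := (le_max_right _ _).trans hn
        obtain ⟨𝒟, hD1, hD2, hD3⟩ := comps (hr.ct Z) G₁
        by_cases hm : m ≤ 𝒟.card
        · exact star_many hr hZG hZc hG₁ hD1 hD2 hm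
        · obtain ⟨P, hPD, hPc⟩ := comps_large (m := m) (n := n₁) hD3 (by omega) (by omega)
          obtain ⟨_, hP1, hP2, hP3⟩ := hD1 P hPD
          have hPG : P ⊆ G := hP1.trans hG₁G
          refine star_large hr hZG hZc (by omega) hG₁ hP1 hP3 ?_
          rw [Nat.add_sub_cancel]
          refine hn₁ (ct r Z) P (hr.ct Z) hP2 ?_ ?_ hPc.le
          · intro X hX hXc
            have := circ_lt hr hG (by omega) hc hZG hZ hZc X (hX.trans hPG) hXc
            omega
          · intro ρ A X hA hX hρ hXA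
            refine hβ (ρ + (c + 1)) (A ∪ Z) X (Finset.union_subset (hA.trans hPG) hZG)
              (hX.trans hPG) ?_ ?_
            · have h4 : r (A ∪ Z) ≤ r (∅ ∪ Z) + ρ := hρ
              rw [Finset.empty_union] at h4
              have h5 := hr.le_card Z
              omega
            · intro x hx
              have h4 : r (insert x A ∪ Z) ≤ r (A ∪ Z) := hXA x hx
              rwa [Finset.insert_union] at h4
      · obtain ⟨S, hS, hSc, Q, hQ⟩ := hn₂ r G hr hG (by
          intro X hX hXc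
          have h1 := hc X hX hXc
          by_contra hcon
          exact hZ ⟨X, hX, hXc, by omega⟩) hβ ((le_max_left _ _).trans hn)
        refine ⟨S, hS, hSc.trans ?_, Q, hQ⟩
        exact Nat.mul_le_mul (Nat.le_succ c) (Nat.le_succ c)

end Pool.MP_4929df_co.H92
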