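import Pool.Agent.W_4929df_h92.GenA
import Pool.Agent.W_4929df_h92.StarB

/-!
Generic families: series sets, parallel elements, flats (steps 3, 4 of proofs row 546).
-/

set_option autoImplicit false

namespace Pool.MP_4929df_co.H92

open Submodule

/-- a spanning generic family (`card F = 8`) -/
structure Gen {F : Type} [Field F] {V : Type} [AddCommGroup V] [Module F V] {α : Type}
    [DecidableEq α] (v : α → V) (Y : Submodule F V) (G : Finset α) (H : Set V) : Prop where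
  h8 : Nat.card F = 8
  hG : Good (rk F v Y) G
  hne : H.Nonempty
  h1 : ∀ h ∈ H, h ∈ Sp F v G ⊔ Y
  hU : Sp F v G ⊔ Y ≤ span F H ⊔ Y
  hgen : ∀ A ⊆ G, ∀ h ∈ H, h ∈ Sp F v A ⊔ Y → Sp F v G ⊔ Y ≤ Sp F v A ⊔ Y

variable {F : Type} [Field F] {V : Type} [AddCommGroup V] [Module F V]
  {α : Type} [DecidableEq α] {v : α → V} {Y : Submodule F V} {G : Finset α} {H : Set V}

/-- if `h ∈ Sp F v A ⊔ Y` for one `h ∈ H` then for all by `Fam.h3`, so
`Sp F v G ⊔ Y ≤ span F H ⊔ Y ≤ Sp F v A ⊔ Y` -/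
theorem gen_of_fam (h8 : Nat.card F = 8) (hG : Good (rk F v Y) G) (hF : Fam F v Y G H)
    (hne : H.Nonempty) (hU : Sp F v G ⊔ Y ≤ span F H ⊔ Y) : Gen v Y G H := by
  refine ⟨h8, hG, hne, hF.h1, hU, ?_⟩
  intro A hA h hh hmem
  refine hU.trans (sup_le (span_le.2 ?_) le_sup_right)
  intro h' hh'
  exact hF.h3 A hA h hh h' hh' hmem

theorem Gen.finite (h : Gen v Y G H) : Finite F :=
  Nat.finite_of_card_ne_zero (by rw [h.h8]; norm_num)

variable [FiniteDimensional F V]

/-- series sets have at most 8 elements: `ser_card`; for `z ≠ z'` in `X`, `Ser {z, z'}`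
(`Ser.mono`) gives `rk (G \ {z, z'}) < rk G`, so `hgen` excludes `h ∈ Sp F v (G \ {z, z'}) ⊔ Y` -/
theorem Gen.ser_le (h : Gen v Y G H) {X : Finset α} (hX : Ser (rk F v Y) G X) : X.card ≤ 8 := by
  have := h.finite
  have hr := rk_isRk v Y
  by_cases h2 : 2 ≤ X.card
  · obtain ⟨h0, hh0⟩ := h.hne
    rw [← h.h8]
    refine ser_card h.hG.1 hX h2 (h.h1 h0 hh0) ?_
    intro z hz z' hz' hzz hmem
    have hs : Ser (rk F v Y) G {z, z'} := hX.mono hr (by
      intro a ha
      simp only [Finset.mem_insert, Finset.mem_singleton] at ha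
      rcases ha with rfl | rfl <;> assumption)
    have h3 := h.hgen _ Finset.sdiff_subset h0 hh0 hmem
    have h4 : rk F v Y G ≤ rk F v Y (G \ {z, z'}) := Submodule.finrank_mono h3
    have h5 := hs.2
    rw [Finset.card_pair hzz] at h5
    omega
  · omega

/-- circuits have at most 8 elements: `circ_card` -/
theorem Gen.circ_le (h : Gen v Y G H) {X : Finset α} (hXG : X ⊆ G) (hX : Circ (rk F v Y) X) :
    X.card ≤ 8 := by
  have := h.finite
  obtain ⟨h0, hh0⟩ := h.hne
  rw [← h.h8]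
  exact circ_card hX hXG (h.h1 h0 hh0) (fun A hA hm => h.hgen A hA h0 hh0 hm)

/-- No parallel elements. If `rk {x, y} ≤ rk ∅ + 1`, then
`rk {x, y} + rk (G \ {x, y}) ≤ rk G + rk ∅ + 1`; `TwoS`: `Ser {x, y}` gives
`rk {x, y} + rk (G \ {x, y}) ≤ rk G + rk ∅`, contradiction to `Conn`; `Ser (G \ {x, y})` gives
`G.card ≤ 10` by `ser_le`. -/
theorem Gen.no_parallel (h : Gen v Y G H) (hbig : 10 < G.card) {x y : α} (hx : x ∈ G) (hy : y ∈ G)
    (hxy : x ≠ y) : rk F v Y {x, y} = rk F v Y ∅ + 2 := by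
  have hr := rk_isRk v Y
  have h1 := hr.le_card {x, y}
  rw [Finset.card_pair hxy] at h1
  have hsub : ({x, y} : Finset α) ⊆ G := by
    intro a ha
    simp only [Finset.mem_insert, Finset.mem_singleton] at ha
    rcases ha with rfl | rfl <;> assumption
  have hcard := Finset.card_sdiff_add_card_eq_card hsub
  rw [Finset.card_pair hxy] at hcard
  by_contra hcon
  have h2 : rk F v Y {x, y} ≤ rk F v Y ∅ + 1 := by omega
  have hun : {x, y} ∪ (G \ {x, y}) = G := Finset.union_sdiff_of_subset hsub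
  have hdis : Disjoint {x, y} (G \ {x, y}) := Finset.disjoint_sdiff
  have h3 := h.hG.1 {x, y} (G \ {x, y}) hun hdis ⟨x, Finset.mem_insert_self _ _⟩
    (Finset.card_pos.1 (by omega))
  have h4 := hr.mono (G \ {x, y}) G Finset.sdiff_subset
  rcases h.hG.2 {x, y} (G \ {x, y}) hun hdis (by omega) with h5 | h5
  · have h6 := h5.2
    rw [Finset.card_pair hxy] at h6
    omega
  · have h6 := h.ser_le h5
    omega

/-- Size of flats: `x ↦ Y.mkQ (v x)` is injective on `G` (`no_parallel`: if `v x - v y ∈ Y` then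
`rk {x, y} ≤ rk ∅ + 1`), and if all `x ∈ X` are in the closure of `A` (`cl_iff`), it maps into
`(Sp F v A ⊔ Y).map Y.mkQ`, of dimension `rk A - rk ∅ ≤ ρ`, with at most `8 ^ ρ` elements -/
theorem Gen.flat (h : Gen v Y G H) (hbig : 10 < G.card) :
    FlatBd (rk F v Y) G (fun ρ => 8 ^ ρ) := by
  intro ρ A X hA hX hρ hcl
  have := h.finite
  have : Finite (V ⧸ Y) := Module.finite_of_finite F
  have hr := rk_isRk v Y
  have hinj : Set.InjOn (fun x => Y.mkQ (v x)) (X : Set α) := by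
    intro x hx y hy e
    by_contra hne
    have h1 := h.no_parallel hbig (hX (Finset.mem_coe.1 hx)) (hX (Finset.mem_coe.1 hy)) hne
    have h2 : v x - v y ∈ Y := by
      rw [← Submodule.ker_mkQ Y, LinearMap.mem_ker, map_sub, sub_eq_zero]
      exact e
    have h3 : rk F v Y (insert x {y}) ≤ rk F v Y {y} := by
      rw [cl_iff]
      exact mem_sup.2 ⟨v y, mem_Sp (Finset.mem_singleton_self y), v x - v y, h2, by abel⟩
    have h4 := hr.le_card {y}
    rw [Finset.card_singleton] at h4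
    omega
  have hsub : (fun x => Y.mkQ (v x)) '' (X : Set α) ⊆
      (((Sp F v A ⊔ Y).map Y.mkQ : Submodule F (V ⧸ Y)) : Set (V ⧸ Y)) := by
    rintro _ ⟨k, hk, rfl⟩
    exact Submodule.mem_map_of_mem (cl_iff.1 (hcl k (Finset.mem_coe.1 hk)))
  have h1 : X.card = ((fun x => Y.mkQ (v x)) '' (X : Set α)).ncard := by
    rw [hinj.ncard_image, Set.ncard_coe_finset]
  have h2 : ((fun x => Y.mkQ (v x)) '' (X : Set α)).ncard ≤
      (((Sp F v A ⊔ Y).map Y.mkQ : Submodule F (V ⧸ Y)) : Set (V ⧸ Y)).ncard :=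
    Set.ncard_le_ncard hsub (Set.toFinite _)
  have h3 : (((Sp F v A ⊔ Y).map Y.mkQ : Submodule F (V ⧸ Y)) : Set (V ⧸ Y)).ncard =
      Nat.card F ^ Module.finrank F ((Sp F v A ⊔ Y).map Y.mkQ : Submodule F (V ⧸ Y)) := by
    rw [← Module.natCard_eq_pow_finrank (K := F)]
    rfl
  have h4 := GenA1_finrank_map (F := F) (Y := Y) (N := Sp F v A ⊔ Y) le_sup_right
  have h5 : Module.finrank F ((Sp F v A ⊔ Y).map Y.mkQ : Submodule F (V ⧸ Y)) ≤ ρ := by
    rw [rk_empty] at hρ
    unfold rk at hρ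
    omega
  rw [h1]
  refine h2.trans ?_
  rw [h3, h.h8]
  exact Nat.pow_le_pow_right (by norm_num) h5

end Pool.MP_4929df_co.H92
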