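import Pool.Agent.W_4929df_h92.MixA

/-!
Deletion of `D` and contraction of `C`: representations that agree outside `D`.
-/

set_option autoImplicit false

namespace Pool.MP_4929df_co.H92

open Submodule

/-- `x ∉ Y`, `x ∈ span {y} ⊔ Y`: the two spaces are equal -/
theorem MixA2_eq {F : Type} [Field F] {V : Type} [AddCommGroup V] [Module F V]
    {Y : Submodule F V} {x y : V} (hx : x ∉ (Y : Set V)) (h : x ∈ span F {y} ⊔ Y) :
    span F {x} ⊔ Y = span F {y} ⊔ Y := by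
  obtain ⟨a, ha, u, hu, hau⟩ := mem_sup.1 h
  obtain ⟨t, rfl⟩ := mem_span_singleton.1 ha
  have ht : t ≠ 0 := by
    rintro rfl
    rw [zero_smul, zero_add] at hau
    exact hx (hau ▸ hu)
  apply le_antisymm
  · exact sup_le ((span_singleton_le_iff_mem _ _).2 h) le_sup_right
  · refine sup_le ((span_singleton_le_iff_mem _ _).2 ?_) le_sup_right
    have hy : y = t⁻¹ • x - t⁻¹ • u := by
      rw [← hau, smul_add, smul_smul, inv_mul_cancel₀ ht, one_smul, add_sub_cancel_right]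
    rw [hy]
    exact Submodule.sub_mem _
      (mem_sup_left (Submodule.smul_mem _ _ (mem_span_singleton_self x)))
      (mem_sup_right (Submodule.smul_mem _ _ hu))

/-- `vec_bound` modulo `Y`: `K = 8 * K₀ + 9`, `K₀` from `fam_bound`. Take a maximal subset
`H' ⊆ {h ∈ H | h ∉ Y}` of vectors with `h ∉ span {h'} ⊔ Y` for `h ≠ h'` (`H' ∪ ...` is a `Fam`; if
`h ∈ span {h'} ⊔ Y` and `h ∉ Y` then also `h' ∈ span {h} ⊔ Y`); every `h ∈ H` is in `Y` or in
`span {h'} ⊔ Y` for some `h' ∈ H'`, so `H.ncard ≤ (8 * K₀ + 1) * 8 ^ finrank F Y`. -/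
theorem vec_boundY : ∃ K : ℕ, ∀ (F : Type) [Field F] (V : Type) [AddCommGroup V] [Module F V]
    [FiniteDimensional F V] (α : Type) [DecidableEq α] (v : α → V) (Y : Submodule F V)
    (G : Finset α) (H : Set V), Nat.card F = 8 → Good (rk F v Y) G →
      (∀ h ∈ H, h ∈ Sp F v G ⊔ Y) →
      (∀ A ⊆ G, ∀ h ∈ H, ∀ h' ∈ H, h ∈ Sp F v A ⊔ Y → h' ∈ Sp F v A ⊔ Y) →
      H.ncard ≤ K * 8 ^ Module.finrank F Y := by
  obtain ⟨K, hK⟩ := fam_bound
  refine ⟨8 * K + 1, ?_⟩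
  intro F _ V _ _ _ α _ v Y G H h8 hG h1 h3
  have hfin : Finite F := Nat.finite_of_card_ne_zero (by rw [h8]; norm_num)
  have hV : Finite V := Module.finite_of_finite F
  have hrep : ∀ ℓ : Submodule F V, ∃ h : V, (∃ k ∈ H \ (Y : Set V), span F {k} ⊔ Y = ℓ) →
      h ∈ H \ (Y : Set V) ∧ span F {h} ⊔ Y = ℓ := by
    intro ℓ
    by_cases hℓ : ∃ k ∈ H \ (Y : Set V), span F {k} ⊔ Y = ℓ
    · obtain ⟨k, hk, hkℓ⟩ := hℓ
      exact ⟨k, fun _ => ⟨hk, hkℓ⟩⟩
    · exact ⟨0, fun h => absurd h hℓ⟩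
  choose rep hrep using hrep
  obtain ⟨H', hH'⟩ : ∃ H' : Set V, H' = (fun k => rep (span F {k} ⊔ Y)) '' (H \ (Y : Set V)) :=
    ⟨_, rfl⟩
  have hsub : ∀ k ∈ H \ (Y : Set V), rep (span F {k} ⊔ Y) ∈ H \ (Y : Set V) ∧
      span F {rep (span F {k} ⊔ Y)} ⊔ Y = span F {k} ⊔ Y :=
    fun k hk => hrep _ ⟨k, hk, rfl⟩
  have hF : Fam F v Y G H' := by
    refine ⟨?_, ?_, ?_⟩
    · intro h hh
      rw [hH'] at hh
      obtain ⟨k, hk, rfl⟩ := hh
      exact h1 _ (hsub k hk).1.1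
    · intro h hh h' hh' hne hmem
      rw [hH'] at hh hh'
      obtain ⟨k, hk, rfl⟩ := hh
      obtain ⟨k', hk', rfl⟩ := hh'
      apply hne
      have e : span F {rep (span F {k} ⊔ Y)} ⊔ Y = span F {rep (span F {k'} ⊔ Y)} ⊔ Y :=
        MixA2_eq (hsub k hk).1.2 hmem
      rw [(hsub k hk).2, (hsub k' hk').2] at e
      change rep (span F {k} ⊔ Y) = rep (span F {k'} ⊔ Y)
      rw [e]
    · intro A hA h hh h' hh' hmem
      rw [hH'] at hh hh'
      obtain ⟨k, hk, rfl⟩ := hh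
      obtain ⟨k', hk', rfl⟩ := hh'
      exact h3 A hA _ (hsub k hk).1.1 _ (hsub k' hk').1.1 hmem
  have hcard := hK F V α v Y G H' h8 hG hF
  have hcov : H ⊆ (Y : Set V) ∪ ((fun p : (F × V) × V => p.1.1 • p.1.2 + p.2) ''
      ((Set.univ ×ˢ H') ×ˢ (Y : Set V))) := by
    intro h hh
    by_cases h0 : h ∈ (Y : Set V)
    · exact Or.inl h0
    · right
      have hk : h ∈ H \ (Y : Set V) := ⟨hh, h0⟩
      have hm : h ∈ span F {rep (span F {h} ⊔ Y)} ⊔ Y := by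
        rw [(hsub h hk).2]
        exact mem_sup_left (mem_span_singleton_self h)
      obtain ⟨a, ha, y, hy, hay⟩ := mem_sup.1 hm
      obtain ⟨t, rfl⟩ := mem_span_singleton.1 ha
      refine ⟨((t, rep (span F {h} ⊔ Y)), y), ⟨⟨Set.mem_univ _, ?_⟩, hy⟩, hay⟩
      rw [hH']
      exact ⟨h, hk, rfl⟩
  have hY : ((Y : Submodule F V) : Set V).ncard = 8 ^ Module.finrank F Y := by
    have h2 : ((Y : Submodule F V) : Set V).ncard = Nat.card Y := rfl
    rw [h2, Module.natCard_eq_pow_finrank (K := F), h8]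
  have e1 := Set.ncard_le_ncard hcov (Set.toFinite _)
  have e2 := Set.ncard_union_le (Y : Set V) ((fun p : (F × V) × V => p.1.1 • p.1.2 + p.2) ''
      ((Set.univ ×ˢ H') ×ˢ (Y : Set V)))
  have e3 : ((fun p : (F × V) × V => p.1.1 • p.1.2 + p.2) ''
      ((Set.univ ×ˢ H') ×ˢ (Y : Set V))).ncard ≤
      (((Set.univ : Set F) ×ˢ H') ×ˢ (Y : Set V)).ncard := Set.ncard_image_le (Set.toFinite _)
  have e4 : (((Set.univ : Set F) ×ˢ H') ×ˢ (Y : Set V)).ncard =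
      8 * H'.ncard * 8 ^ Module.finrank F Y := by
    rw [Set.ncard_prod, Set.ncard_prod, Set.ncard_univ, h8, hY]
  rw [hY] at e2
  calc H.ncard ≤ 8 ^ Module.finrank F Y + 8 * H'.ncard * 8 ^ Module.finrank F Y := by
        rw [e4] at e3
        omega
    _ ≤ 8 ^ Module.finrank F Y + 8 * K * 8 ^ Module.finrank F Y :=
        Nat.add_le_add_left (Nat.mul_le_mul_right _ (Nat.mul_le_mul_left _ hcard)) _
    _ = (8 * K + 1) * 8 ^ Module.finrank F Y := by ring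

end Pool.MP_4929df_co.H92
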