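import Pool.Agent.W_4929df_h92.DualDefs

/-!
Deletion of `D` and contraction of `C`: the bound.
-/

set_option autoImplicit false

namespace Pool.MP_4929df_co.H92

open Submodule

/-- Classes: `R` reflexive; among any `a + 1` elements two are related (`h`); then some `i₀` is
related to more than `b` elements, if `a * b < Nat.card ι`. (A maximal set of pairwise unrelated
elements has at most `a` elements; every element is related to one of them, `R i₀ i` or `R i i₀`,
use symmetry.) -/
theorem class_pigeon {ι : Type} [Finite ι] {R : ι → ι → Prop} (hrefl : ∀ i, R i i)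
    (hsymm : ∀ i j, R i j → R j i) {a b : ℕ}
    (h : ∀ T : Set ι, a < T.ncard → ∃ i ∈ T, ∃ j ∈ T, i ≠ j ∧ R i j) (hab : a * b < Nat.card ι) :
    ∃ i₀, b < {i | R i₀ i}.ncard := by
  classical
  have := Fintype.ofFinite ι
  by_contra hcon
  push Not at hcon
  set S : Finset (Finset ι) :=
    (Finset.univ : Finset (Finset ι)).filter (fun T => ∀ i ∈ T, ∀ j ∈ T, i ≠ j → ¬ R i j) with hS
  have hne : S.Nonempty := ⟨∅, by rw [hS, Finset.mem_filter]; simp⟩
  obtain ⟨T, hT, hmax⟩ := Finset.exists_max_image S Finset.card hne
  rw [hS, Finset.mem_filter] at hT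
  have hTa : T.card ≤ a := by
    by_contra hlt
    push Not at hlt
    obtain ⟨i, hi, j, hj, hij, hR⟩ := h (T : Set ι) (by rwa [Set.ncard_coe_finset])
    exact hT.2 i (by exact_mod_cast hi) j (by exact_mod_cast hj) hij hR
  have hcov : ∀ j, ∃ i ∈ T, R i j := by
    intro j
    by_contra hno
    push Not at hno
    have hj : j ∉ T := fun hj => hno j hj (hrefl j)
    have hin : insert j T ∈ S := by
      rw [hS, Finset.mem_filter]
      refine ⟨Finset.mem_univ _, ?_⟩
      intro x hx y hy hxy
      rw [Finset.mem_insert] at hx hy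
      rcases hx with rfl | hx <;> rcases hy with rfl | hy
      · exact absurd rfl hxy
      · exact fun hR => hno y hy (hsymm _ _ hR)
      · exact hno x hx
      · exact hT.2 x hx y hy hxy
    have h1 := hmax _ hin
    rw [Finset.card_insert_of_notMem hj] at h1
    omega
  have hsub : (Finset.univ : Finset ι) ⊆ T.biUnion (fun i => Finset.univ.filter (fun j => R i j)) := by
    intro j _
    obtain ⟨i, hi, hR⟩ := hcov j
    rw [Finset.mem_biUnion]
    exact ⟨i, hi, by simpa using hR⟩
  have h1 := Finset.card_le_card hsub
  have h2 : (T.biUnion (fun i => Finset.univ.filter (fun j => R i j))).card ≤ T.card * b := by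
    apply Finset.card_biUnion_le_card_mul
    intro i _
    have h3 := hcon i
    rwa [Set.ncard_eq_toFinset_card', Set.toFinset_setOf] at h3
  have h4 : T.card * b ≤ a * b := Nat.mul_le_mul_right b hTa
  rw [Finset.card_univ, ← Nat.card_eq_fintype_card] at h1
  omega

end Pool.MP_4929df_co.H92
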