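import Pool.Agent.W_4929df_h92.DualDefs

/-!
Equivalence of the representations of a minor, from isomorphisms of quotient spaces and for binary
minors.
-/

set_option autoImplicit false

namespace Pool.MP_4929df_co.H92

open Submodule

variable {F : Type} [Field F] {V : Type} [AddCommGroup V] [Module F V] [FiniteDimensional F V]
  {α : Type} [DecidableEq α]

omit [FiniteDimensional F V] [DecidableEq α] in
theorem MixC_mem {w : α → V} {C G : Finset α} (a : α → F) :
    ∑ x ∈ G, a x • w x ∈ Sp F w C ↔ ∑ x ∈ G, a x • (Sp F w C).mkQ (w x) = 0 := by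
  rw [← Submodule.ker_mkQ (Sp F w C), LinearMap.mem_ker, map_sum, Submodule.ker_mkQ]
  simp only [map_smul]

/-- `∑ a x • w x ∈ Sp F w C` iff `∑ a x • mkQ (w x) = 0`; apply `g`. -/
theorem equivMod_of_quot {w w' : α → V} {C G : Finset α}
    (g : (V ⧸ Sp F w' C) ≃ₗ[F] (V ⧸ Sp F w C)) {c : α → F} (hc : ∀ x, c x ≠ 0)
    (h : ∀ x ∈ G, (Sp F w C).mkQ (w x) = c x • g ((Sp F w' C).mkQ (w' x))) :
    EquivMod (F := F) C G w w' := by
  refine ⟨c, hc, fun a => ?_⟩
  rw [MixC_mem, MixC_mem]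
  have e : ∑ x ∈ G, a x • (Sp F w C).mkQ (w x) =
      g (∑ x ∈ G, (a x * c x) • (Sp F w' C).mkQ (w' x)) := by
    rw [map_sum]
    refine Finset.sum_congr rfl fun x hx => ?_
    rw [h x hx, map_smul, smul_smul]
  rw [e, LinearEquiv.map_eq_zero_iff]

/-- `binary_rel` for `mkQ ∘ w`, `mkQ ∘ w'` and `u`; `finrank_mkQ` gives `SameRk` -/
theorem equivMod_of_binary {w w' : α → V} {C G : Finset α} {n : ℕ} {u : α → (Fin n → ZMod 2)}
    (h : ∀ A ⊆ G, Module.finrank F (Sp F w (A ∪ C)) =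
      Module.finrank F (Sp F w C) + Module.finrank (ZMod 2) (Sp (ZMod 2) u A))
    (h' : ∀ A ⊆ G, Module.finrank F (Sp F w' (A ∪ C)) =
      Module.finrank F (Sp F w' C) + Module.finrank (ZMod 2) (Sp (ZMod 2) u A)) :
    EquivMod (F := F) C G w w' := by
  obtain ⟨c, hc, hrel⟩ := binary_rel F α G.card (V ⧸ Sp F w C) (V ⧸ Sp F w' C) (Fin n → ZMod 2)
    (fun x => (Sp F w C).mkQ (w x)) (fun x => (Sp F w' C).mkQ (w' x)) u G rfl
    (by
      intro A hA
      have h1 := finrank_mkQ (F := F) w C A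
      have h2 := h A hA
      omega)
    (by
      intro A hA
      have h1 := finrank_mkQ (F := F) w' C A
      have h2 := h' A hA
      omega)
  refine ⟨c, hc, fun a => ?_⟩
  rw [MixC_mem, MixC_mem]
  exact hrel a

end Pool.MP_4929df_co.H92
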