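import Pool.Agent.W_4929df_h92.RepA1

/-!
Families of representations that agree on the elements outside `D` (corollary of proofs row 546).
-/

set_option autoImplicit false

namespace Pool.MP_4929df_co.H92

open Submodule

variable {F : Type} [Field F] {V : Type} [AddCommGroup V] [Module F V] [FiniteDimensional F V]
  {α : Type} [DecidableEq α] {v w : α → V} {G : Finset α}

/-- The values at one element `d`. `f i : α → V`, `i ∈ ι`, are configurations that all agree with `v` on
`G ∪ D₀`, where `Sp F v G` and `Sp F v D₀` are complementary; whether `f i d ∈ Sp F v (A ∪ D₀)`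
(`A ⊆ G`) does not depend on `i`. Then `{f i d}` has at most `K * 8 ^ D₀.card` elements, `K` from
`vec_bound`. Proof: let `π : V → V` be the projection onto `Sp F v G` along `Sp F v D₀`; the set
`{π (f i d)}` satisfies the hypotheses of `vec_bound` (`π z ∈ Sp F v A` iff
`z ∈ Sp F v A ⊔ Sp F v D₀` for `A ⊆ G`), and `f i d - π (f i d) ∈ Sp F v D₀`, a space with
`8 ^ finrank ≤ 8 ^ D₀.card` elements. -/
theorem value_bound {K : ℕ} (hK : ∀ H : Set V, (∀ h ∈ H, h ∈ Sp F v G) →
      (∀ A ⊆ G, ∀ h ∈ H, ∀ h' ∈ H, h ∈ Sp F v A → h' ∈ Sp F v A) → H.ncard ≤ K)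
    (h8 : Nat.card F = 8) {D₀ : Finset α} (hcompl : IsCompl (Sp F v G) (Sp F v D₀))
    {ι : Type} {z : ι → V}
    (hz : ∀ A ⊆ G, ∀ i j, z i ∈ Sp F v (A ∪ D₀) → z j ∈ Sp F v (A ∪ D₀)) :
    (Set.range z).ncard ≤ K * 8 ^ D₀.card := by
  classical
  have hFfin : Finite F := Nat.finite_of_card_ne_zero (by rw [h8]; norm_num)
  have hVfin : Finite V := Module.finite_of_finite F
  set P := Submodule.projectionOnto (Sp F v G) (Sp F v D₀) hcompl with hP
  have hker : ∀ x : V, x - (P x : V) ∈ Sp F v D₀ := by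
    intro x
    have : P (x - (P x : V)) = 0 := by
      rw [map_sub, Submodule.projectionOnto_apply_left hcompl (P x), sub_self]
    rwa [hP, Submodule.projectionOnto_apply_eq_zero_iff] at this
  have hiff : ∀ A ⊆ G, ∀ x : V, (P x : V) ∈ Sp F v A ↔ x ∈ Sp F v (A ∪ D₀) := by
    intro A hA x
    rw [Sp_union]
    constructor
    · intro h
      have : x = (P x : V) + (x - (P x : V)) := by abel
      rw [this]
      exact Submodule.add_mem_sup h (hker x)
    · intro h
      obtain ⟨a, ha, d, hd, rfl⟩ := Submodule.mem_sup.mp h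
      have haG : a ∈ Sp F v G := Sp_mono hA ha
      have h1 : P a = ⟨a, haG⟩ := Submodule.projectionOnto_apply_left hcompl ⟨a, haG⟩
      have h2 : P d = 0 := (Submodule.projectionOnto_apply_eq_zero_iff hcompl).mpr hd
      rw [map_add, h1, h2, add_zero]
      exact ha
  set H : Set V := Set.range (fun i => (P (z i) : V)) with hH
  have hHK : H.ncard ≤ K := by
    apply hK
    · rintro _ ⟨i, rfl⟩
      exact (P (z i)).2
    · rintro A hA _ ⟨i, rfl⟩ _ ⟨j, rfl⟩ hi
      exact (hiff A hA (z j)).mpr (hz A hA i j ((hiff A hA (z i)).mp hi))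
  have hD : ((Sp F v D₀ : Submodule F V) : Set V).ncard ≤ 8 ^ D₀.card := by
    have h1 : ((Sp F v D₀ : Submodule F V) : Set V).ncard = Nat.card (Sp F v D₀) := rfl
    rw [h1, Module.natCard_eq_pow_finrank (K := F), h8]
    apply Nat.pow_le_pow_right (by norm_num)
    unfold Sp
    have := finrank_span_finset_le_card (R := F) (D₀.image v)
    rw [Finset.coe_image] at this
    exact this.trans Finset.card_image_le
  have hsub : Set.range z ⊆ (fun p : V × V => p.1 + p.2) '' (H ×ˢ ((Sp F v D₀ : Submodule F V) : Set V)) := by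
    rintro _ ⟨i, rfl⟩
    refine ⟨((P (z i) : V), z i - (P (z i) : V)), ⟨⟨i, rfl⟩, hker (z i)⟩, ?_⟩
    simp
  calc (Set.range z).ncard
      ≤ ((fun p : V × V => p.1 + p.2) '' (H ×ˢ ((Sp F v D₀ : Submodule F V) : Set V))).ncard :=
        Set.ncard_le_ncard hsub (Set.toFinite _)
    _ ≤ (H ×ˢ ((Sp F v D₀ : Submodule F V) : Set V)).ncard := Set.ncard_image_le (Set.toFinite _)
    _ = H.ncard * ((Sp F v D₀ : Submodule F V) : Set V).ncard := Set.ncard_prod
    _ ≤ K * 8 ^ D₀.card := Nat.mul_le_mul hHK hD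

end Pool.MP_4929df_co.H92
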