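import Pool.Agent.W_4929df_h92.Main
import Pool.Agent.W_4929df_h92.BinC

/-!
Families of representations that agree on the elements outside `D` (corollary of proofs row 546).
-/

set_option autoImplicit false

namespace Pool.MP_4929df_co.H92

open Submodule

/-- Tutte 3-connectivity of the vectors `v x`, `x ∈ G` -/
def Three {F : Type} [Field F] {V : Type} [AddCommGroup V] [Module F V] {α : Type}
    (v : α → V) (G : Finset α) : Prop :=
  ∀ X : Set α, X ⊆ (G : Set α) → ∀ j : ℕ, j < 3 → j ≤ X.ncard → j ≤ ((G : Set α) \ X).ncard →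
    Module.finrank F (span F (v '' (G : Set α))) + j ≤
      Module.finrank F (span F (v '' X)) + Module.finrank F (span F (v '' ((G : Set α) \ X)))

variable {F : Type} [Field F] {V : Type} [AddCommGroup V] [Module F V] [FiniteDimensional F V]
  {α : Type} [DecidableEq α] {v w : α → V} {G : Finset α}

omit [FiniteDimensional F V] [DecidableEq α] in
theorem RepA1_rk (v : α → V) (A : Finset α) :
    rk F v (⊥ : Submodule F V) A = Module.finrank F (Sp F v A) := by
  unfold rk
  rw [sup_bot_eq]

omit [FiniteDimensional F V] in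
/-- the connectivity inequality for a partition in finsets -/
theorem RepA1_three (h : Three (F := F) v G) {A B : Finset α} (hAB : A ∪ B = G)
    (hd : Disjoint A B) {j : ℕ} (hj : j < 3) (hA : j ≤ A.card) (hB : j ≤ B.card) :
    Module.finrank F (Sp F v G) + j ≤
      Module.finrank F (Sp F v A) + Module.finrank F (Sp F v B) := by
  have hBe : (G : Set α) \ (A : Set α) = (B : Set α) := by
    rw [← Finset.coe_sdiff, ← hAB, Finset.union_sdiff_cancel_left hd]
  have hAG : (A : Set α) ⊆ (G : Set α) := by
    rw [← hAB]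
    exact_mod_cast Finset.subset_union_left
  have key := h (A : Set α) hAG j hj (by rw [Set.ncard_coe_finset]; exact hA)
    (by rw [hBe, Set.ncard_coe_finset]; exact hB)
  rw [hBe] at key
  exact key

/-- `Conn` is `j = 1`. `TwoS`: if `rk A + rk B ≤ rk G + 1` (`rk ∅ = 0`) then by `j = 2` `A` or `B` has at
most one element, and then it is `Ser` (`A.card ≤ 1`, `rk (G \ A) ≤ rk G`).
(`rk F v ⊥ A = finrank (Sp F v A)` by `sup_bot_eq`; `Set.ncard_coe_finset`.) -/
theorem good_of_three (h : Three (F := F) v G) : Good (rk F v (⊥ : Submodule F V)) G := by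
  have h0 : rk F v (⊥ : Submodule F V) ∅ = 0 := by
    rw [rk_empty, finrank_bot]
  constructor
  · intro A B hAB hd hA hB
    rw [h0, RepA1_rk, RepA1_rk, RepA1_rk]
    exact RepA1_three h hAB hd (by norm_num) (Finset.card_pos.2 hA) (Finset.card_pos.2 hB)
  · intro A B hAB hd hle
    have hmono := (rk_isRk v (⊥ : Submodule F V)).mono
    by_cases hA : A.card ≤ 1
    · left
      refine ⟨by rw [← hAB]; exact Finset.subset_union_left, ?_⟩
      have := hmono (G \ A) G Finset.sdiff_subset
      omega
    by_cases hB : B.card ≤ 1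
    · right
      refine ⟨by rw [← hAB]; exact Finset.subset_union_right, ?_⟩
      have := hmono (G \ B) G Finset.sdiff_subset
      omega
    exfalso
    rw [h0, RepA1_rk, RepA1_rk, RepA1_rk] at hle
    have := RepA1_three h hAB hd (j := 2) (by norm_num) (by omega) (by omega)
    omega

/-- `Good` depends only on the ranks of subsets of `G` -/
theorem good_of_sameRk (hvw : SameRk (F := F) (F' := F) G v w)
    (h : Good (rk F v (⊥ : Submodule F V)) G) : Good (rk F w (⊥ : Submodule F V)) G := by
  have e : ∀ A ⊆ G, rk F w (⊥ : Submodule F V) A = rk F v (⊥ : Submodule F V) A := by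
    intro A hA
    rw [RepA1_rk, RepA1_rk]
    exact (hvw A hA).symm
  have eG := e G (Finset.Subset.refl _)
  have e0 := e ∅ (Finset.empty_subset _)
  have hs : ∀ A, Ser (rk F v (⊥ : Submodule F V)) G A → Ser (rk F w (⊥ : Submodule F V)) G A := by
    rintro A ⟨h1, h2⟩
    refine ⟨h1, ?_⟩
    rw [e _ Finset.sdiff_subset, eG]
    exact h2
  constructor
  · intro A B hAB hd hA hB
    rw [eG, e0, e A (by rw [← hAB]; exact Finset.subset_union_left),
      e B (by rw [← hAB]; exact Finset.subset_union_right)]
    exact h.1 A B hAB hd hA hB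
  · intro A B hAB hd hle
    rw [eG, e0, e A (by rw [← hAB]; exact Finset.subset_union_left),
      e B (by rw [← hAB]; exact Finset.subset_union_right)] at hle
    rcases h.2 A B hAB hd hle with h1 | h1
    · exact Or.inl (hs A h1)
    · exact Or.inr (hs B h1)

/-- A subset `D₀` of `D` that is a basis modulo `Sp F v G`: maximal with
`finrank (Sp F v (G ∪ D₀)) = finrank (Sp F v G) + D₀.card`; then
`Sp F v (G ∪ D₀) = Sp F v (G ∪ D)`. (For instance `exists_basis` for the rank function
`rk F v (Sp F v G)`, `rk_isRk`, `rk_empty`.) -/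
theorem exists_basis_mod (v : α → V) (G D : Finset α) : ∃ D₀ ⊆ D,
    Module.finrank F (Sp F v (G ∪ D₀)) = Module.finrank F (Sp F v G) + D₀.card ∧
    Sp F v (G ∪ D₀) = Sp F v (G ∪ D) := by
  obtain ⟨I, hI, h1, h2⟩ := exists_basis (rk_isRk v (Sp F v G)) D
  have e : ∀ A : Finset α, rk F v (Sp F v G) A = Module.finrank F (Sp F v (G ∪ A)) := by
    intro A
    unfold rk
    rw [Sp_union, sup_comm]
  refine ⟨I, hI, ?_, ?_⟩
  · rw [← e I, h2, rk_empty]
  · rw [e, e] at h1
    exact Submodule.eq_of_le_of_finrank_eq (Sp_mono (Finset.union_subset_union_right hI)) h1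

end Pool.MP_4929df_co.H92
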