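import Pool.Agent.W_4929df_h92.RepA1

/-!
Families of representations that agree on the elements outside `D` (corollary of proofs row 546).
-/

set_option autoImplicit false

namespace Pool.MP_4929df_co.H92

open Submodule

variable {F : Type} [Field F] {V : Type} [AddCommGroup V] [Module F V] [FiniteDimensional F V]
  {α : Type} [DecidableEq α] {v w : α → V} {G : Finset α}

/-- coordinates relative to the span of `G` and the vectors of `D₀` -/
theorem RepA2_equiv {D₀ : Finset α} {W : Submodule F V} (hW : Sp F v G = W)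
    (hv : Module.finrank F (Sp F v (G ∪ D₀)) = Module.finrank F (Sp F v G) + D₀.card)
    (hvt : Sp F v (G ∪ D₀) = ⊤) :
    ∃ f : (W × (D₀ → F)) ≃ₗ[F] V, (∀ y : W, f (y, 0) = y) ∧
      ∀ x : D₀, f (0, Pi.single x 1) = v x := by
  subst hW
  set Φ : (Sp F v G × (D₀ → F)) →ₗ[F] V :=
    (Sp F v G).subtype.coprod (Fintype.linearCombination F (fun x : D₀ => v x)) with hΦ
  have hsur : Function.Surjective Φ := by
    rw [← LinearMap.range_eq_top, hΦ, LinearMap.range_coprod, Submodule.range_subtype,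
      Fintype.range_linearCombination, ← hvt, Sp_union]
    congr 1
    unfold Sp
    congr 1
    ext y
    simp
  have hdim : Module.finrank F (Sp F v G × (D₀ → F)) = Module.finrank F V := by
    rw [Module.finrank_prod, Module.finrank_fintype_fun_eq_card, Fintype.card_coe, ← hv, hvt,
      finrank_top]
  have hinj : Function.Injective Φ :=
    (LinearMap.injective_iff_surjective_of_finrank_eq_finrank hdim).2 hsur
  refine ⟨LinearEquiv.ofBijective Φ ⟨hinj, hsur⟩, fun y => ?_, fun x => ?_⟩
  · simp [hΦ]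
  · simp [hΦ, Fintype.linearCombination_apply_single]

/-- Two configurations that agree on `G`, both with `D₀` a basis of the whole space modulo the span
of `G`: there is an automorphism of the space that fixes the span of `G` and maps `w x` to `v x` for
`x ∈ D₀`. (By dimensions `V` is the direct sum of `Sp F v G` and `Sp F v D₀`, and `D₀` is linearly
independent; the same for `w`.) -/
theorem exists_adjust {D₀ : Finset α} (hvw : ∀ x ∈ G, w x = v x)
    (hv : Module.finrank F (Sp F v (G ∪ D₀)) = Module.finrank F (Sp F v G) + D₀.card)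
    (hvt : Sp F v (G ∪ D₀) = ⊤)
    (hw : Module.finrank F (Sp F w (G ∪ D₀)) = Module.finrank F (Sp F w G) + D₀.card)
    (hwt : Sp F w (G ∪ D₀) = ⊤) :
    ∃ g : V ≃ₗ[F] V, (∀ x ∈ G, g (w x) = v x) ∧ ∀ x ∈ D₀, g (w x) = v x := by
  have hG : Sp F w G = Sp F v G := by
    unfold Sp
    congr 1
    ext y
    constructor
    · rintro ⟨x, hx, rfl⟩
      exact ⟨x, hx, (hvw x (by exact_mod_cast hx)).symm⟩
    · rintro ⟨x, hx, rfl⟩
      exact ⟨x, hx, hvw x (by exact_mod_cast hx)⟩
  obtain ⟨f, hf1, hf2⟩ := RepA2_equiv (v := v) (W := Sp F v G) rfl hv hvt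
  obtain ⟨f', hf1', hf2'⟩ := RepA2_equiv (v := w) (W := Sp F v G) hG hw hwt
  refine ⟨f'.symm.trans f, fun x hx => ?_, fun x hx => ?_⟩
  · have h1 := hf1' ⟨w x, hG ▸ mem_Sp hx⟩
    have h2 := hf1 ⟨w x, hG ▸ mem_Sp hx⟩
    show f (f'.symm (w x)) = v x
    have h3 : f'.symm (w x) = (⟨w x, hG ▸ mem_Sp hx⟩, 0) := by
      rw [LinearEquiv.symm_apply_eq, h1]
    rw [h3, h2]
    exact hvw x hx
  · have h1 := hf2' ⟨x, hx⟩
    have h2 := hf2 ⟨x, hx⟩
    show f (f'.symm (w x)) = v x
    have h3 : f'.symm (w x) = (0, Pi.single ⟨x, hx⟩ 1) := by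
      rw [LinearEquiv.symm_apply_eq, h1]
    rw [h3, h2]

end Pool.MP_4929df_co.H92
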