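import Pool.Agent.W_4929df_h92.RepA

/-!
The bound for representations that are equivalent outside `D`.
-/

set_option autoImplicit false

namespace Pool.MP_4929df_co.H92

open Submodule

/-- Counting: if all values `f i d` for `d ∈ D` are in a set of at most `B` elements, and
`B ^ D.card < Nat.card ι`, then `f i` and `f j` agree on `D` for some `i ≠ j`. -/
theorem pigeon {ι α V : Type} [Finite ι] {D : Finset α} {f : ι → α → V} {B : ℕ}
    (h : ∀ d ∈ D, (Set.range fun i => f i d).Finite ∧ (Set.range fun i => f i d).ncard ≤ B)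
    (hB : B ^ D.card < Nat.card ι) : ∃ i j, i ≠ j ∧ ∀ d ∈ D, f i d = f j d := by
  classical
  haveI : ∀ d : D, Finite (Set.range fun i => f i d.1) := fun d => (h d.1 d.2).1.to_subtype
  let g : ι → (∀ d : D, Set.range fun i => f i d.1) := fun i d => ⟨f i d.1, i, rfl⟩
  by_contra hcon
  push Not at hcon
  have hinj : Function.Injective g := by
    intro i j hij
    by_contra hne
    obtain ⟨d, hd, hfd⟩ := hcon i j hne
    exact hfd (congrArg Subtype.val (congrFun hij ⟨d, hd⟩))
  have h1 := Nat.card_le_card_of_injective g hinj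
  rw [Nat.card_pi] at h1
  have h2 : ∏ d : D, Nat.card (Set.range fun i => f i d.1) ≤ ∏ _d : D, B :=
    Finset.prod_le_prod' fun d _ => (h d.1 d.2).2
  rw [Finset.prod_const, Finset.card_univ, Fintype.card_coe] at h2
  omega

/-- the span of the images under an automorphism -/
theorem RepB1_Sp_map {F : Type} [Field F] {V : Type} [AddCommGroup V] [Module F V] {α : Type}
    (g : V ≃ₗ[F] V) (w : α → V) (A : Finset α) :
    Sp F (fun x => g (w x)) A = (Sp F w A).map (g : V →ₗ[F] V) := by
  unfold Sp
  rw [Submodule.map_span, ← Set.image_comp]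
  rfl

theorem RepB1_Sp_congr {F : Type} [Field F] {V : Type} [AddCommGroup V] [Module F V] {α : Type}
    {w w' : α → V} {A : Finset α} (h : ∀ x ∈ A, w x = w' x) : Sp F w A = Sp F w' A := by
  unfold Sp
  congr 1
  exact Set.image_congr fun x hx => h x (by exact_mod_cast hx)

/-- Representations that agree on `G` (same vectors). `G, D` disjoint, `G ∪ D = univ`; all `f i` have
the same ranks as `v` (`SameRk univ`), span the space, and `f i x = v x` for `x ∈ G`. With `K ≥ 1` at least
the bound of `vec_bound` and `(K * 8 ^ t) ^ t < Nat.card ι`, `D.card ≤ t`, there are `i ≠ j` and an automorphism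
`g` of the space with `f i x = g (f j x)` for all `x`. Proof: `exists_basis_mod` for `v` gives `D₀`
(also for all `f i` by `SameRk`); `exists_adjust` gives `g i` with `f' i x = g i (f i x)`,
`f' i x = v x` on `G ∪ D₀`; `value_bound` for `z i = f' i d` (membership in `Sp F v (A ∪ D₀)` is
decided by ranks: `Sp F v (A ∪ D₀) = Sp F (f' i) (A ∪ D₀)`, `SameRk.mem`); `pigeon` for `f'`. -/
theorem agree_bound : ∃ K : ℕ, ∀ (t : ℕ) (F : Type) [Field F] (V : Type) [AddCommGroup V]
    [Module F V] [FiniteDimensional F V] (α : Type) [Fintype α] [DecidableEq α] (v : α → V)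
    (G D : Finset α) (ι : Type) [Finite ι] (f : ι → α → V), Nat.card F = 8 → Three (F := F) v G →
    G ∪ D = Finset.univ → Disjoint G D → D.card ≤ t →
    (∀ i, SameRk (F := F) (F' := F) Finset.univ v (f i)) →
    (∀ i, Sp F (f i) Finset.univ = ⊤) → (∀ i, ∀ x ∈ G, f i x = v x) →
    (K * 8 ^ t) ^ t < Nat.card ι →
    ∃ i j, i ≠ j ∧ ∃ g : V ≃ₗ[F] V, ∀ x, f i x = g (f j x) := by
  obtain ⟨K0, hK0⟩ := vec_bound
  refine ⟨K0 + 1, ?_⟩
  intro t F _ V _ _ _ α _ _ v G D ι _ f h8 h3 hGD _ hDt hsame htop hagree hcard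
  have hgood := good_of_three h3
  obtain ⟨D₀, hD₀, hfr, hsp⟩ := exists_basis_mod (F := F) v G D
  have hne : Nonempty ι := by
    by_contra hc
    rw [not_nonempty_iff] at hc
    rw [Nat.card_of_isEmpty] at hcard
    exact Nat.not_lt_zero _ hcard
  obtain ⟨i0⟩ := hne
  have hvt : Sp F v (G ∪ D₀) = ⊤ := by
    rw [hsp, hGD]
    apply Submodule.eq_top_of_finrank_eq
    rw [hsame i0 Finset.univ (Finset.Subset.refl _), htop i0, finrank_top]
  have hft : ∀ i, Sp F (f i) (G ∪ D₀) = ⊤ := by
    intro i
    apply Submodule.eq_top_of_finrank_eq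
    rw [← hsame i (G ∪ D₀) (Finset.subset_univ _), hvt, finrank_top]
  have hff : ∀ i, Module.finrank F (Sp F (f i) (G ∪ D₀)) =
      Module.finrank F (Sp F (f i) G) + D₀.card := by
    intro i
    rw [← hsame i (G ∪ D₀) (Finset.subset_univ _), ← hsame i G (Finset.subset_univ _), hfr]
  have hadj := fun i => exists_adjust (D₀ := D₀) (hagree i) hfr hvt (hff i) (hft i)
  choose g hgG hgD using hadj
  have hsame' : ∀ i, SameRk (F := F) (F' := F) Finset.univ v (fun x => g i (f i x)) := by
    intro i A hA
    rw [RepB1_Sp_map, LinearEquiv.finrank_map_eq]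
    exact hsame i A hA
  have hcompl : IsCompl (Sp F v G) (Sp F v D₀) := by
    have h1 : Sp F v G ⊔ Sp F v D₀ = ⊤ := by rw [← Sp_union, hvt]
    refine IsCompl.of_eq ?_ h1
    have h2 := Submodule.finrank_sup_add_finrank_inf_eq (Sp F v G) (Sp F v D₀)
    rw [← Sp_union, hfr] at h2
    have h4 : Module.finrank F (Sp F v D₀) ≤ D₀.card := by
      classical
      have h5 : Sp F v D₀ = span F ((D₀.image v : Finset V) : Set V) := by
        unfold Sp
        rw [Finset.coe_image]
      rw [h5]
      exact (finrank_span_finset_le_card _).trans Finset.card_image_le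
    have h6 : Module.finrank F (Sp F v G ⊓ Sp F v D₀ : Submodule F V) = 0 := by omega
    exact Submodule.finrank_eq_zero.1 h6
  have hval : ∀ d ∈ D, (Set.range fun i => g i (f i d)).Finite ∧
      (Set.range fun i => g i (f i d)).ncard ≤ (K0 + 1) * 8 ^ t := by
    intro d _
    refine ⟨Set.finite_range _, ?_⟩
    have h1 := value_bound (K := K0 + 1) (v := v) (G := G)
      (fun H hH1 hH2 => (hK0 F V α v G H h8 hgood hH1 hH2).trans (Nat.le_succ _)) h8 hcompl
      (z := fun i => g i (f i d)) ?_
    · refine h1.trans (Nat.mul_le_mul_left _ (Nat.pow_le_pow_right (by norm_num) ?_))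
      exact (Finset.card_le_card hD₀).trans hDt
    · intro A hA i j hi
      have hS : ∀ k, Sp F (fun x => g k (f k x)) (A ∪ D₀) = Sp F v (A ∪ D₀) := by
        intro k
        apply RepB1_Sp_congr
        intro x hx
        rcases Finset.mem_union.1 hx with hx | hx
        · exact hgG k x (hA hx)
        · exact hgD k x hx
      have hm : ∀ k, v d ∈ Sp F v (A ∪ D₀) ↔
          g k (f k d) ∈ Sp F (fun x => g k (f k x)) (A ∪ D₀) := fun k =>
        (hsame' k).mem (Finset.subset_univ _) (Finset.mem_univ d)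
      have h2 : g i (f i d) ∈ Sp F (fun x => g i (f i x)) (A ∪ D₀) := by
        rw [hS i]; exact hi
      have h3 := (hm j).1 ((hm i).2 h2)
      rw [hS j] at h3
      exact h3
  have hB : ((K0 + 1) * 8 ^ t) ^ D.card < Nat.card ι := by
    refine lt_of_le_of_lt (Nat.pow_le_pow_right ?_ hDt) hcard
    positivity
  obtain ⟨i, j, hij, heq⟩ := pigeon (f := fun i x => g i (f i x)) hval hB
  refine ⟨i, j, hij, (g j).trans (g i).symm, fun x => ?_⟩
  have hx : g i (f i x) = g j (f j x) := by
    have hxu : x ∈ G ∪ D := by rw [hGD]; exact Finset.mem_univ x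
    rcases Finset.mem_union.1 hxu with hx | hx
    · rw [hgG i x hx, hgG j x hx]
    · exact heq x hx
  rw [LinearEquiv.trans_apply, ← hx, LinearEquiv.symm_apply_apply]

end Pool.MP_4929df_co.H92
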