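import Pool.Agent.W_4929df_h92.RepB1

/-!
The bound for representations that are equivalent outside `D`.
-/

set_option autoImplicit false

namespace Pool.MP_4929df_co.H92

open Submodule

/-- scaled vectors under an automorphism: the span is the image of the span -/
theorem RepB2_span {F : Type} [Field F] {V : Type} [AddCommGroup V] [Module F V] {α : Type}
    (v : α → V) (g : V ≃ₗ[F] V) (c : α → F) (hc : ∀ x, c x ≠ 0) (A : Finset α) :
    Sp F (fun x => c x • g (v x)) A = (Sp F v A).map (g : V →ₗ[F] V) := by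
  apply le_antisymm
  · rw [Sp_le]
    intro x hx
    exact Submodule.smul_mem _ _ (Submodule.mem_map_of_mem (mem_Sp hx))
  · rw [Submodule.map_le_iff_le_comap, Sp_le]
    intro x hx
    rw [Submodule.mem_comap]
    have h1 : c x • g (v x) ∈ Sp F (fun x => c x • g (v x)) A :=
      mem_Sp (v := fun x => c x • g (v x)) hx
    have h2 := Submodule.smul_mem _ (c x)⁻¹ h1
    rw [smul_smul, inv_mul_cancel₀ (hc x), one_smul] at h2
    exact h2

/-- Representations that are equivalent on `G`: choose `i₀` and `g i, c i` with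
`f i₀ x = c i x • g i (f i x)` for `x ∈ G`, apply `agree_bound` to `c i x • g i (f i x)` and
`v = f i₀` (`Three` and `SameRk` are transferred: `Three` depends only on ranks). -/
theorem equiv_bound : ∃ K : ℕ, ∀ (t : ℕ) (F : Type) [Field F] (V : Type) [AddCommGroup V]
    [Module F V] [FiniteDimensional F V] (α : Type) [Fintype α] [DecidableEq α]
    (G D : Finset α) (ι : Type) [Finite ι] (f : ι → α → V), Nat.card F = 8 →
    (∀ i, Three (F := F) (f i) G) →
    G ∪ D = Finset.univ → Disjoint G D → D.card ≤ t →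
    (∀ i j, SameRk (F := F) (F' := F) Finset.univ (f i) (f j)) →
    (∀ i, Sp F (f i) Finset.univ = ⊤) →
    (∀ i j, ∃ g : V ≃ₗ[F] V, ∃ c : α → F, (∀ x, c x ≠ 0) ∧ ∀ x ∈ G, f i x = c x • g (f j x)) →
    (K * 8 ^ t) ^ t < Nat.card ι →
    ∃ i j, i ≠ j ∧ ∃ g : V ≃ₗ[F] V, ∃ c : α → F, (∀ x, c x ≠ 0) ∧ ∀ x, f i x = c x • g (f j x) := by
  obtain ⟨K, hK⟩ := agree_bound
  refine ⟨K, ?_⟩
  intro t F _ V _ _ _ α _ _ G D ι _ f hF hT hGD hdis hD hrk htop heq hcard
  have hne : Nonempty ι := by
    by_contra h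
    rw [not_nonempty_iff] at h
    rw [Nat.card_of_isEmpty] at hcard
    exact absurd hcard (Nat.not_lt_zero _)
  obtain ⟨i₀⟩ := hne
  choose g c hc hg using fun i => heq i₀ i
  have hsp : ∀ i A, Sp F (fun x => c i x • g i (f i x)) A =
      (Sp F (f i) A).map ((g i : V ≃ₗ[F] V) : V →ₗ[F] V) :=
    fun i A => RepB2_span (f i) (g i) (c i) (hc i) A
  obtain ⟨i, j, hij, γ, hγ⟩ := hK t F V α (f i₀) G D ι (fun i x => c i x • g i (f i x)) hF (hT i₀)
    hGD hdis hD
    (by
      intro i A hA
      show Module.finrank F (Sp F (f i₀) A) =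
        Module.finrank F (Sp F (fun x => c i x • g i (f i x)) A)
      rw [hsp i A, LinearEquiv.finrank_map_eq]
      exact hrk i₀ i A hA)
    (by
      intro i
      show Sp F (fun x => c i x • g i (f i x)) Finset.univ = ⊤
      rw [hsp i, htop i, Submodule.map_top, LinearEquiv.range])
    (by
      intro i x hx
      exact (hg i x hx).symm)
    hcard
  refine ⟨i, j, hij, (g j).trans (γ.trans (g i).symm), fun x => (c i x)⁻¹ * c j x,
    fun x => mul_ne_zero (inv_ne_zero (hc i x)) (hc j x), ?_⟩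
  intro x
  have h1 : c i x • g i (f i x) = γ (c j x • g j (f j x)) := hγ x
  rw [map_smul] at h1
  have h2 : g i (f i x) = (c i x)⁻¹ • (c j x • γ (g j (f j x))) := by
    rw [← h1, smul_smul, inv_mul_cancel₀ (hc i x), one_smul]
  have h3 : f i x = (g i).symm ((c i x)⁻¹ • (c j x • γ (g j (f j x)))) := by
    rw [← h2, LinearEquiv.symm_apply_apply]
  rw [h3, map_smul, map_smul, smul_smul]
  rfl

end Pool.MP_4929df_co.H92
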