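import Pool.Agent.W_4929df_h92.RepB

/-!
The 4-connected case, and representations given as in the frozen statement.
-/

set_option autoImplicit false

namespace Pool.MP_4929df_co.H92

open Submodule

variable {F : Type} [Field F] {V : Type} [AddCommGroup V] [Module F V] [FiniteDimensional F V]
  {α : Type} [Fintype α] [DecidableEq α]

omit [FiniteDimensional F V] [Fintype α] [DecidableEq α] in
theorem RepC_insert (v : α → V) (e : α) (Z : Set α) [Finite α] :
    Module.finrank F (span F (v '' insert e Z)) ≤ Module.finrank F (span F (v '' Z)) + 1 := by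
  have : FiniteDimensional F (span F (v '' Z)) :=
    FiniteDimensional.span_of_finite F (Set.toFinite _)
  have : FiniteDimensional F (span F {v e}) :=
    FiniteDimensional.span_of_finite F (Set.toFinite _)
  rw [Set.image_insert_eq, span_insert]
  refine (Submodule.finrank_add_le_finrank_add_finrank _ _).trans ?_
  have h1 : Module.finrank F (span F {v e}) ≤ 1 := by
    simpa using finrank_span_le_card (R := F) ({v e} : Set V)
  omega

theorem RepC_compl {e : α} {X : Set α} (hX : X ⊆ ((Finset.univ.erase e : Finset α) : Set α)) :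
    Xᶜ = insert e (((Finset.univ.erase e : Finset α) : Set α) \ X) := by
  ext x
  simp only [Set.mem_compl_iff, Set.mem_insert_iff, Set.mem_sdiff, Finset.coe_erase,
    Finset.coe_univ, Set.mem_univ, Set.mem_singleton_iff, true_and]
  constructor
  · intro h
    by_cases hx : x = e
    · exact Or.inl hx
    · exact Or.inr ⟨hx, h⟩
  · rintro (rfl | ⟨_, h⟩)
    · intro h
      have := hX h
      simp at this
    · exact h

/-- `M` 4-connected with at least 6 elements, `e ∈ M`: `M` delete `e` is 3-connected. For `X ⊆ univ \ {e}`,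
`Z = univ \ {e} \ X`, `j ≤ 2`, `j ≤ X.ncard`, `j ≤ Z.ncard`: if `j = 0` submodularity
(`span (v '' (X ∪ Z)) ≤ span X ⊔ span Z`). For `j = 1, 2` one of `X, Z` has at least 3 elements, say
`Z`... precisely: `X.ncard + Z.ncard ≥ 5`, so one of them has at least `3 ≥ j + 1` elements, say `X`;
4-connectivity for `X` and its complement `insert e Z` (which has `≥ j + 1` elements), with `j + 1`:
`r(M) + j + 1 ≤ r(X) + r(Z ∪ e) ≤ r(X) + r(Z) + 1`, and `r(M \ e) ≤ r(M)`. -/
theorem three_of_four {v : α → V} (h6 : 6 ≤ Fintype.card α)
    (h : ∀ X : Set α, ∀ j : ℕ, j < 4 → j ≤ X.ncard → j ≤ Xᶜ.ncard →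
      Module.finrank F (span F (Set.range v)) + j ≤
        Module.finrank F (span F (v '' X)) + Module.finrank F (span F (v '' Xᶜ))) (e : α) :
    Three (F := F) v (Finset.univ.erase e) := by
  intro X hX j hj hjX hjZ
  set Z : Set α := ((Finset.univ.erase e : Finset α) : Set α) \ X with hZ
  have hXZ : X ∪ Z = ((Finset.univ.erase e : Finset α) : Set α) := Set.union_sdiff_cancel hX
  have hGe : ((Finset.univ.erase e : Finset α) : Set α) = {e}ᶜ := by
    ext x; simp
  have heX : e ∉ X := fun h => by
    have := hX h
    rw [hGe] at this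
    exact this rfl
  have hdis : Disjoint X Z := Set.disjoint_sdiff_right
  have hZX : ((Finset.univ.erase e : Finset α) : Set α) \ Z = X := by
    rw [hZ, Set.sdiff_sdiff_cancel_left hX]
  have hcard : X.ncard + Z.ncard + 1 = Fintype.card α := by
    rw [← Set.ncard_union_eq hdis (Set.toFinite _) (Set.toFinite _), hXZ, Set.ncard_coe_finset,
      Finset.card_erase_of_mem (Finset.mem_univ e), Finset.card_univ]
    omega
  have hmono : Module.finrank F (span F (v '' ((Finset.univ.erase e : Finset α) : Set α))) ≤
      Module.finrank F (span F (Set.range v)) :=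
    Submodule.finrank_mono (span_mono (Set.image_subset_range _ _))
  rcases Nat.eq_zero_or_pos j with rfl | hj0
  · rw [← hXZ, Set.image_union, span_union]
    exact Submodule.finrank_add_le_finrank_add_finrank _ _
  · have hc1 : Xᶜ = insert e Z := RepC_compl hX
    have hc2 : Zᶜ = insert e X := by
      have h1 := RepC_compl (e := e) (X := Z) Set.sdiff_subset
      rw [hZX] at h1
      exact h1
    have heZ : e ∉ Z := fun h => by
      have := h.1
      rw [hGe] at this
      exact this rfl
    rcases (by omega : 3 ≤ X.ncard ∨ 3 ≤ Z.ncard) with h3 | h3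
    · have h1 := h X (j + 1) (by omega) (by omega)
        (by rw [hc1, Set.ncard_insert_of_notMem heZ (Set.toFinite _)]; omega)
      have h2 := RepC_insert (F := F) v e Z
      rw [hc1] at h1
      omega
    · have h1 := h Z (j + 1) (by omega) (by omega)
        (by rw [hc2, Set.ncard_insert_of_notMem heX (Set.toFinite _)]; omega)
      have h2 := RepC_insert (F := F) v e X
      rw [hc2] at h1
      omega

/-- few elements: at most 5 elements, more than `8 ^ 25` representations `α → (Fin r → F)` that span:
two are equal (`r ≤ 5` because `α` has at most 5 elements; `Nat.card (α → Fin r → F) ≤ 8 ^ 25`) -/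
theorem small_case (h8 : Nat.card F = 8) (h5 : Fintype.card α ≤ 5) {r : ℕ} {ι : Type} [Finite ι]
    {w : ι → α → (Fin r → F)} (hw : ∀ i, span F (Set.range (w i)) = ⊤)
    (hι : 8 ^ 25 < Nat.card ι) : ∃ i j, i ≠ j ∧ w i = w j := by
  have hFfin : Finite F := Nat.finite_of_card_ne_zero (by rw [h8]; norm_num)
  have hne : Nonempty ι := by
    by_contra hc
    rw [not_nonempty_iff] at hc
    rw [Nat.card_of_isEmpty] at hι
    exact Nat.not_lt_zero _ hι
  obtain ⟨i0⟩ := hne
  have hr : r ≤ 5 := by
    have h1 := finrank_range_le_card (R := F) (w i0)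
    unfold Set.finrank at h1
    rw [hw i0, finrank_top, Module.finrank_fin_fun] at h1
    omega
  by_contra hcon
  push Not at hcon
  have hinj : Function.Injective w := by
    intro i j hij
    by_contra hne
    exact hcon i j hne hij
  have h1 := Nat.card_le_card_of_injective w hinj
  rw [Nat.card_fun, Nat.card_fun, h8, Nat.card_eq_fintype_card (α := Fin r),
    Nat.card_eq_fintype_card (α := α), Fintype.card_fin, ← pow_mul] at h1
  have h2 : r * Fintype.card α ≤ 25 := by nlinarith
  have h3 : 8 ^ (r * Fintype.card α) ≤ 8 ^ 25 := Nat.pow_le_pow_right (by norm_num) h2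
  omega

/-- binary outside `D`: any two representations are equivalent on `G` (`binary_rel`,
`equiv_of_rel`, `sameRk_of_indep`) -/
theorem equiv_of_binary {w w' : α → V} {n : ℕ} {u : α → (Fin n → ZMod 2)} {G : Finset α}
    (h : ∀ S : Set α, S ⊆ (G : Set α) → (LinearIndependent F (fun s : S => w (s : α)) ↔
      LinearIndependent (ZMod 2) (fun s : S => u (s : α))))
    (h' : ∀ S : Set α, S ⊆ (G : Set α) → (LinearIndependent F (fun s : S => w' (s : α)) ↔
      LinearIndependent (ZMod 2) (fun s : S => u (s : α)))) :
    ∃ g : V ≃ₗ[F] V, ∃ c : α → F, (∀ x, c x ≠ 0) ∧ ∀ x ∈ G, w x = c x • g (w' x) := by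
  obtain ⟨c, hc, hrel⟩ := binary_rel F α G.card V V (Fin n → ZMod 2) w w' u G rfl
    (sameRk_of_indep h) (sameRk_of_indep h')
  obtain ⟨g, hg⟩ := equiv_of_rel (w := w) (w' := w') (G := G) hc hrel
  exact ⟨g, c, hc, hg⟩

end Pool.MP_4929df_co.H92
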