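import Mathlib

/-!
Rank functions (with arbitrary value at the empty set), connectivity, contraction.
-/

set_option autoImplicit false

namespace Pool.MP_4929df_co.H92

variable {α : Type*} [DecidableEq α]

/-- rank functions; the value at the empty set is arbitrary -/
structure IsRk (r : Finset α → ℕ) : Prop where
  mono : ∀ A B, A ⊆ B → r A ≤ r B
  sub : ∀ A B, r (A ∪ B) + r (A ∩ B) ≤ r A + r B
  ins : ∀ x A, r (insert x A) ≤ r A + 1

/-- contraction of the set `S` -/
def ct (r : Finset α → ℕ) (S : Finset α) : Finset α → ℕ := fun A => r (A ∪ S)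

/-- the matroid `r` restricted to `G` is connected -/
def Conn (r : Finset α → ℕ) (G : Finset α) : Prop :=
  ∀ A B, A ∪ B = G → Disjoint A B → A.Nonempty → B.Nonempty → r G + r ∅ + 1 ≤ r A + r B

/-- `A` is contained in a series class of `r` restricted to `G` -/
def Ser (r : Finset α → ℕ) (G A : Finset α) : Prop := A ⊆ G ∧ A.card + r (G \ A) ≤ r G + 1

/-- every 2-separation has a side contained in a series class -/
def TwoS (r : Finset α → ℕ) (G : Finset α) : Prop :=
  ∀ A B, A ∪ B = G → Disjoint A B → r A + r B ≤ r G + r ∅ + 1 → Ser r G A ∨ Ser r G B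

/-- the matroid `r` restricted to `G` is connected and its cosimplification is 3-connected -/
def Good (r : Finset α → ℕ) (G : Finset α) : Prop := Conn r G ∧ TwoS r G

/-- `X` is a circuit of `r` (relative to the empty set) -/
def Circ (r : Finset α → ℕ) (X : Finset α) : Prop :=
  X.Nonempty ∧ r X + 1 = r ∅ + X.card ∧ ∀ z ∈ X, r (X.erase z) = r X

namespace IsRk

variable {r : Finset α → ℕ} (hr : IsRk r)
include hr

theorem sub4 {A B C D : Finset α} (h1 : C ⊆ A ∪ B) (h2 : D ⊆ A ∩ B) : r C + r D ≤ r A + r B :=
  (Nat.add_le_add (hr.mono _ _ h1) (hr.mono _ _ h2)).trans (hr.sub A B)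

theorem add_card (A B : Finset α) : r (A ∪ B) ≤ r A + B.card := by
  induction B using Finset.induction_on with
  | empty => simp
  | insert x B hx ih =>
    rw [Finset.union_insert, Finset.card_insert_of_notMem hx]
    have := hr.ins x (A ∪ B)
    omega

theorem le_add_card {A B C : Finset α} (h : C ⊆ A ∪ B) : r C ≤ r A + B.card :=
  (hr.mono _ _ h).trans (hr.add_card A B)

theorem le_card (A : Finset α) : r A ≤ r ∅ + A.card := hr.le_add_card (by simp)

theorem ct (S : Finset α) : IsRk (ct r S) where
  mono A B h := hr.mono _ _ (Finset.union_subset_union_left h)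
  sub A B := by
    refine hr.sub4 ?_ ?_
    · intro a ha; simp only [Finset.mem_union] at ha ⊢; tauto
    · intro a ha; simp only [Finset.mem_union, Finset.mem_inter] at ha ⊢; tauto
  ins x A := by
    show r (insert x A ∪ S) ≤ r (A ∪ S) + 1
    rw [Finset.insert_union]
    exact hr.ins _ _

/-- closure is monotone -/
theorem cl_mono {x : α} {A B : Finset α} (h : r (insert x A) ≤ r A) (hAB : A ⊆ B) :
    r (insert x B) ≤ r B := by
  have h1 := hr.sub4 (A := insert x A) (B := B) (C := insert x B) (D := A)
    (by intro a ha; simp only [Finset.mem_union, Finset.mem_insert] at ha ⊢; tauto)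
    (Finset.subset_inter (Finset.subset_insert _ _) hAB)
  omega

theorem cl_union {A X : Finset α} (h : ∀ x ∈ X, r (insert x A) ≤ r A) : r (A ∪ X) ≤ r A := by
  induction X using Finset.induction_on with
  | empty => simp
  | insert x X hx ih =>
    rw [Finset.union_insert]
    have h1 := ih (fun y hy => h y (Finset.mem_insert_of_mem hy))
    have h2 := hr.cl_mono (h x (Finset.mem_insert_self _ _)) (Finset.subset_union_left (s₂ := X))
    omega

end IsRk

theorem ct_ct (r : Finset α → ℕ) (S T : Finset α) : ct (ct r S) T = ct r (S ∪ T) := by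
  funext A
  show r (A ∪ T ∪ S) = r (A ∪ (S ∪ T))
  congr 1
  ext a; simp only [Finset.mem_union]; tauto

theorem ct_empty_apply (r : Finset α → ℕ) (S : Finset α) : ct r S ∅ = r S := by
  show r (∅ ∪ S) = r S
  rw [Finset.empty_union]

theorem Ser.mono {r : Finset α → ℕ} (hr : IsRk r) {G A B : Finset α} (h : Ser r G A)
    (hBA : B ⊆ A) : Ser r G B := by
  refine ⟨hBA.trans h.1, ?_⟩
  have h1 := h.2
  have h2 : r (G \ B) ≤ r (G \ A) + (A \ B).card := hr.le_add_card (by
    intro a ha; simp only [Finset.mem_union, Finset.mem_sdiff] at ha ⊢; tauto)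
  have h3 := Finset.card_sdiff_add_card_eq_card hBA
  omega

section conn

variable {r : Finset α → ℕ} (hr : IsRk r) {G : Finset α}
include hr

theorem Conn.erase_eq (hG : Conn r G) {y : α} (hy : y ∈ G) (hne : (G.erase y).Nonempty) :
    r (G.erase y) = r G := by
  have h1 := hG {y} (G.erase y) (by
    ext a; simp only [Finset.mem_union, Finset.mem_singleton, Finset.mem_erase]
    by_cases h : a = y <;> simp [h, hy]) (by simp) (by simp) hne
  have h2 : r {y} ≤ r ∅ + 1 := by simpa using hr.le_card {y}
  have h3 := hr.mono (G.erase y) G (Finset.erase_subset _ _)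
  omega

theorem Conn.single (hG : Conn r G) {y : α} (hy : y ∈ G) (hne : (G.erase y).Nonempty) :
    r {y} = r ∅ + 1 := by
  have h1 := hG {y} (G.erase y) (by
    ext a; simp only [Finset.mem_union, Finset.mem_singleton, Finset.mem_erase]
    by_cases h : a = y <;> simp [h, hy]) (by simp) (by simp) hne
  have h2 : r {y} ≤ r ∅ + 1 := by simpa using hr.le_card {y}
  have h3 := hr.mono (G.erase y) G (Finset.erase_subset _ _)
  omega

end conn

end Pool.MP_4929df_co.H92
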