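import Pool.Agent.W_4929df_h92.Tutte

/-!
Contraction of an element of a nontrivial series class. `ct r {s}` applied to `A` is
`r (A ∪ {s})` (by `rfl`), and `ct_empty_apply` gives its value at the empty set.
Useful: `Conn.erase_eq`, `Conn.single`, `IsRk.cl_mono`, `IsRk.sub4`, `Ser.mono`.
-/

set_option autoImplicit false

namespace Pool.MP_4929df_co.H92

variable {α : Type*} [DecidableEq α] {r : Finset α → ℕ} {G : Finset α}

/-- If `s, s'` are in series, `s' ∉ D`, `s ∉ D`, `D ⊆ G`, then `s` is not in the closure of `D`.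
Proof: `D ⊆ G \ {s, s'}`, `2 + r (G \ {s, s'}) ≤ r G + 1` and `r (G.erase s') = r G`
(`Conn.erase_eq`), `G.erase s' ⊆ insert s (G \ {s, s'})`; if `r (insert s D) ≤ r D`, then `cl_mono`
gives `r (insert s (G \ {s, s'})) ≤ r (G \ {s, s'})`, contradiction. -/
theorem thick_not_cl (hr : IsRk r) (hG : Conn r G) {s s' : α} (hs : s ∈ G) (hs' : s' ∈ G)
    (hne : s ≠ s') (h : Ser r G {s, s'}) {D : Finset α} (hD : D ⊆ G) (h1 : s ∉ D) (h2 : s' ∉ D) :
    r (D ∪ {s}) = r D + 1 := by
  have e1 : D ∪ {s} = insert s D := by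
    ext a; simp only [Finset.mem_union, Finset.mem_singleton, Finset.mem_insert]; tauto
  rw [e1]
  have h3 := hr.ins s D
  by_contra hcon
  have h4 : r (insert s D) ≤ r D := by omega
  have h5 : D ⊆ G \ {s, s'} := by
    intro a ha
    simp only [Finset.mem_sdiff, Finset.mem_insert, Finset.mem_singleton, not_or]
    refine ⟨hD ha, ?_, ?_⟩
    · rintro rfl; exact h1 ha
    · rintro rfl; exact h2 ha
  have h6 := hr.cl_mono h4 h5
  have h7 := hG.erase_eq hr hs' ⟨s, Finset.mem_erase.2 ⟨hne, hs⟩⟩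
  have h8 : G.erase s' ⊆ insert s (G \ {s, s'}) := by
    intro a ha
    rw [Finset.mem_erase] at ha
    simp only [Finset.mem_sdiff, Finset.mem_insert, Finset.mem_singleton, not_or]
    by_cases hc : a = s
    · exact Or.inl hc
    · exact Or.inr ⟨ha.2, hc, ha.1⟩
  have h9 := hr.mono _ _ h8
  have h10 := h.2
  rw [Finset.card_pair hne] at h10
  omega

/-- the rank of the whole ground set in the contraction -/
theorem Thick_ct_all {s : α} (hs : s ∈ G) : ct r {s} (G.erase s) = r G := by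
  show r (G.erase s ∪ {s}) = r G
  congr 1
  ext a; simp only [Finset.mem_union, Finset.mem_erase, Finset.mem_singleton]
  by_cases h : a = s <;> simp [h, hs]

/-- set bookkeeping for a partition of `G.erase s` -/
theorem Thick_part {s : α} (hs : s ∈ G) {A B : Finset α} (hA : A ∪ B = G.erase s)
    (hAB : Disjoint A B) : (A ∪ {s}) ∪ B = G ∧ Disjoint (A ∪ {s}) B ∧ A ⊆ G.erase s ∧
      B ⊆ G.erase s ∧ s ∉ A ∧ s ∉ B := by
  have h0 := erase_disj hA
  refine ⟨?_, ?_, ?_, ?_, h0.1, h0.2⟩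
  · ext a
    have h1 := Finset.ext_iff.1 hA a
    simp only [Finset.mem_union, Finset.mem_erase, Finset.mem_singleton] at h1 ⊢
    by_cases h : a = s
    · subst h; simp [hs]
    · tauto
  · rw [Finset.disjoint_left] at hAB ⊢
    intro a ha hb
    rw [Finset.mem_union, Finset.mem_singleton] at ha
    rcases ha with ha | rfl
    · exact hAB ha hb
    · exact h0.2 hb
  · rw [← hA]; exact Finset.subset_union_left
  · rw [← hA]; exact Finset.subset_union_right

/-- rank computations for a partition of `G.erase s` with `s'` in the first part -/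
theorem Thick_side (hr : IsRk r) (hG : Conn r G) {s s' : α} (hs : s ∈ G) (hs' : s' ∈ G)
    (hne : s ≠ s') (h : Ser r G {s, s'}) {A B : Finset α} (hA : A ∪ B = G.erase s)
    (hAB : Disjoint A B) (hsA : s' ∈ A) : ct r {s} B = r B + 1 := by
  obtain ⟨p1, p2, p3, p4, p5, p6⟩ := Thick_part hs hA hAB
  exact thick_not_cl hr hG hs hs' hne h (p4.trans (Finset.erase_subset _ _)) p6
    (Finset.disjoint_left.1 hAB hsA)

/-- connectivity inequality, `s'` in the first part -/
theorem Thick_conn_aux (hr : IsRk r) (hG : Conn r G) {s s' : α} (hs : s ∈ G) (hs' : s' ∈ G)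
    (hne : s ≠ s') (h : Ser r G {s, s'}) {A B : Finset α} (hA : A ∪ B = G.erase s)
    (hAB : Disjoint A B) (hB : B.Nonempty) (hsA : s' ∈ A) :
    r G + ct r {s} ∅ + 1 ≤ ct r {s} A + ct r {s} B := by
  obtain ⟨p1, p2, p3, p4, p5, p6⟩ := Thick_part hs hA hAB
  have h1 := Thick_side hr hG hs hs' hne h hA hAB hsA
  have h2 := hG _ _ p1 p2 ⟨s, by simp⟩ hB
  have h3 := hG.single hr hs ⟨s', Finset.mem_erase.2 ⟨hne.symm, hs'⟩⟩
  rw [ct_empty_apply, h3, h1]
  have h4 : ct r {s} A = r (A ∪ {s}) := rfl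
  rw [h4]
  omega

/-- Let `(C, D)` be a partition of `G.erase s` with `s' ∈ C` (other case by symmetry). Then
`r (D ∪ {s}) = r D + 1` (`thick_not_cl`) and `Conn` for `(C ∪ {s}, D)` gives
`r G + r ∅ + 1 ≤ r (C ∪ {s}) + r D`; `r {s} = r ∅ + 1` by `Conn.single`. -/
theorem thick_conn (hr : IsRk r) (hG : Conn r G) {s s' : α} (hs : s ∈ G) (hs' : s' ∈ G)
    (hne : s ≠ s') (h : Ser r G {s, s'}) : Conn (ct r {s}) (G.erase s) := by
  intro A B hA hAB hAn hBn
  rw [Thick_ct_all hs]
  have h1 : s' ∈ A ∪ B := by rw [hA]; exact Finset.mem_erase.2 ⟨hne.symm, hs'⟩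
  rcases Finset.mem_union.1 h1 with h2 | h2
  · exact Thick_conn_aux hr hG hs hs' hne h hA hAB hBn h2
  · have h3 := Thick_conn_aux hr hG hs hs' hne h ((Finset.union_comm B A).trans hA) hAB.symm hAn h2
    omega

/-- the `TwoS` step, `s'` in the first part -/
theorem Thick_two_aux (hr : IsRk r) (hG : Good r G) {s s' : α} (hs : s ∈ G) (hs' : s' ∈ G)
    (hne : s ≠ s') (h : Ser r G {s, s'}) {A B : Finset α} (hA : A ∪ B = G.erase s)
    (hAB : Disjoint A B) (hsA : s' ∈ A)
    (hsum : ct r {s} A + ct r {s} B ≤ ct r {s} (G.erase s) + ct r {s} ∅ + 1) :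
    Ser (ct r {s}) (G.erase s) A ∨ Ser (ct r {s}) (G.erase s) B := by
  obtain ⟨p1, p2, p3, p4, p5, p6⟩ := Thick_part hs hA hAB
  have h1 := Thick_side hr hG.1 hs hs' hne h hA hAB hsA
  have h3 := hG.1.single hr hs ⟨s', Finset.mem_erase.2 ⟨hne.symm, hs'⟩⟩
  rw [ct_empty_apply, h3, h1, Thick_ct_all hs] at hsum
  have h4 : ct r {s} A = r (A ∪ {s}) := rfl
  rw [h4] at hsum
  have h5 : r (A ∪ {s}) + r B ≤ r G + r ∅ + 1 := by omega
  rcases hG.2 _ _ p1 p2 h5 with h6 | h6
  · left
    refine ⟨p3, ?_⟩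
    rw [Thick_ct_all hs]
    show A.card + r ((G.erase s \ A) ∪ {s}) ≤ r G + 1
    have h7 := h6.2
    have h8 : (A ∪ {s}).card = A.card + 1 := by
      rw [Finset.card_union_of_disjoint (by simpa using p5)]; simp
    have h9 : r ((G.erase s \ A) ∪ {s}) ≤ r (G \ (A ∪ {s})) + ({s} : Finset α).card :=
      hr.le_add_card (by
        intro a ha
        simp only [Finset.mem_union, Finset.mem_sdiff, Finset.mem_erase, Finset.mem_singleton,
          not_or] at ha ⊢
        tauto)
    rw [Finset.card_singleton] at h9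
    omega
  · right
    refine ⟨p4, ?_⟩
    rw [Thick_ct_all hs]
    show B.card + r ((G.erase s \ B) ∪ {s}) ≤ r G + 1
    have h7 := h6.2
    have h9 : r ((G.erase s \ B) ∪ {s}) ≤ r (G \ B) := hr.mono _ _ (by
        intro a ha
        simp only [Finset.mem_union, Finset.mem_sdiff, Finset.mem_erase,
          Finset.mem_singleton] at ha ⊢
        rcases ha with ha | rfl
        · exact ⟨ha.1.2, ha.2⟩
        · exact ⟨hs, p6⟩)
    omega

/-- `Conn` is `thick_conn`. `TwoS`: `(C, D)` partition of `G.erase s`, say `s' ∈ C`,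
`r (C ∪ {s}) + r (D ∪ {s}) ≤ r G + r {s} + 1 = r G + r ∅ + 2`, so `r (C ∪ {s}) + r D ≤ r G + r ∅ + 1`
and `TwoS r G` gives `Ser r G (C ∪ {s})` or `Ser r G D`. In the first case
`C.card + 1 + r (G \ (C ∪ {s})) ≤ r G + 1` and `((G.erase s) \ C) ∪ {s} = (G \ (C ∪ {s})) ∪ {s}` has
rank at most one more. In the second case `G \ D = ((G.erase s) \ D) ∪ {s}`. -/
theorem thick_good (hr : IsRk r) (hG : Good r G) {s s' : α} (hs : s ∈ G) (hs' : s' ∈ G)
    (hne : s ≠ s') (h : Ser r G {s, s'}) : Good (ct r {s}) (G.erase s) := by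
  refine ⟨thick_conn hr hG.1 hs hs' hne h, ?_⟩
  intro A B hA hAB hsum
  have h1 : s' ∈ A ∪ B := by rw [hA]; exact Finset.mem_erase.2 ⟨hne.symm, hs'⟩
  rcases Finset.mem_union.1 h1 with h2 | h2
  · exact Thick_two_aux hr hG hs hs' hne h hA hAB h2 hsum
  · exact (Thick_two_aux hr hG hs hs' hne h ((Finset.union_comm B A).trans hA) hAB.symm h2
      (by omega)).symm

end Pool.MP_4929df_co.H92
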