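import Pool.Agent.W_4929df_h92.Thick

/-!
Preparations for the triples (step 8 of proofs row 546).
-/

set_option autoImplicit false

namespace Pool.MP_4929df_co.H92

variable {α : Type*} [DecidableEq α] {r : Finset α → ℕ}

/-- if all elements of `P` are coloops of `P ∪ A` then `P` is independent modulo `A`: for `Q ⊆ P`
show `r (Q ∪ A) = r A + Q.card` by `Finset.induction_on` (`insert y Q`: if
`r (insert y (Q ∪ A)) ≤ r (Q ∪ A)` then by `cl_mono` `y` is in the closure of `P.erase y ∪ A`) -/
theorem all_coloop (hr : IsRk r) {A P : Finset α} (h : ∀ y ∈ P, r (P.erase y ∪ A) < r (P ∪ A)) :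
    r (P ∪ A) = r A + P.card := by
  have key : ∀ Q : Finset α, Q ⊆ P → r (Q ∪ A) = r A + Q.card := by
    intro Q
    induction Q using Finset.induction_on with
    | empty => intro _; simp
    | insert y Q hy ih =>
      intro hQ
      have hyP : y ∈ P := hQ (Finset.mem_insert_self _ _)
      have hQP : Q ⊆ P := (Finset.subset_insert _ _).trans hQ
      have h1 := ih hQP
      have h2 := hr.ins y (Q ∪ A)
      rw [Finset.insert_union, Finset.card_insert_of_notMem hy]
      by_contra hne
      have h3 : r (insert y (Q ∪ A)) ≤ r (Q ∪ A) := by omega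
      have h4 := hr.cl_mono h3 (B := P.erase y ∪ A) (by
        intro a ha
        simp only [Finset.mem_union, Finset.mem_erase] at ha ⊢
        rcases ha with ha | ha
        · left; exact ⟨fun e => hy (e ▸ ha), hQP ha⟩
        · right; exact ha)
      have h5 : insert y (P.erase y ∪ A) = P ∪ A := by
        rw [← Finset.insert_union, Finset.insert_erase hyP]
      rw [h5] at h4
      have h6 := h y hyP
      omega
  exact key P (Finset.Subset.refl _)

theorem TripleA_pick (hr : IsRk r) {A P : Finset α} (h : r A < r (P ∪ A)) :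
    ∃ a ∈ P, a ∉ A ∧ r (insert a A) = r A + 1 := by
  by_contra hcon
  push Not at hcon
  have h1 : r (A ∪ P) ≤ r A := hr.cl_union (by
    intro x hx
    by_cases hxA : x ∈ A
    · rw [Finset.insert_eq_of_mem hxA]
    · have h2 := hcon x hx hxA
      have h3 := hr.ins x A
      omega)
  rw [Finset.union_comm] at h1
  omega

/-- three independent elements: twice or three times: if `r A < r (P ∪ A)` then some `a ∈ P` has
`r (insert a A) = r A + 1` (otherwise `cl_union`) -/
theorem pick_three (hr : IsRk r) {A P : Finset α} (h : r A + 3 ≤ r (P ∪ A)) :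
    ∃ a ∈ P, ∃ b ∈ P, ∃ c ∈ P, a ∉ A ∧ b ∉ A ∧ c ∉ A ∧ a ≠ b ∧ a ≠ c ∧ b ≠ c ∧
      r ({a, b, c} ∪ A) = r A + 3 := by
  obtain ⟨a, ha, haA, h1⟩ := TripleA_pick hr (A := A) (P := P) (by omega)
  have m1 : r (P ∪ A) ≤ r (P ∪ insert a A) :=
    hr.mono _ _ (Finset.union_subset_union_right (Finset.subset_insert _ _))
  obtain ⟨b, hb, hbA, h2⟩ := TripleA_pick hr (A := insert a A) (P := P) (by omega)
  have m2 : r (P ∪ insert a A) ≤ r (P ∪ insert b (insert a A)) :=
    hr.mono _ _ (Finset.union_subset_union_right (Finset.subset_insert _ _))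
  obtain ⟨c, hc, hcA, h3⟩ := TripleA_pick hr (A := insert b (insert a A)) (P := P) (by omega)
  simp only [Finset.mem_insert, not_or] at hbA hcA
  refine ⟨a, ha, b, hb, c, hc, haA, hbA.2, hcA.2.2, Ne.symm hbA.1, Ne.symm hcA.2.1,
    Ne.symm hcA.1, ?_⟩
  have e : ({a, b, c} : Finset α) ∪ A = insert c (insert b (insert a A)) := by
    ext z
    simp only [Finset.mem_union, Finset.mem_insert, Finset.mem_singleton]
    tauto
  rw [e]
  omega

theorem TripleA_aux (hr : IsRk r) {P : Finset α} (hP : Conn r P)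
    (hcard : P.card + r ∅ = r P + 2) {y : α} (hy : y ∈ P) {C D : Finset α}
    (hCD : C ∪ D = P.erase y) (hd : Disjoint C D)
    (hD : r (D ∪ {y}) = r D) (hs : r C + r D = r P + r ∅ + 1)
    (h2 : 2 ≤ C.card) : ∃ y ∈ P, Conn (ct r {y}) (P.erase y) := by
  have hyCD : y ∉ C ∪ D := by rw [hCD]; simp
  have hc : C.card + D.card + 1 = P.card := by
    rw [← Finset.card_union_of_disjoint hd, hCD, Finset.card_erase_add_one hy]
  have hC1 := hr.le_card C
  have hD1 := hr.le_card D
  obtain ⟨z, hz, z', hz', hne⟩ := Finset.one_lt_card.1 h2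
  have hCP : C ⊆ P := fun a ha =>
    Finset.mem_of_mem_erase (hCD ▸ Finset.mem_union_left D ha)
  refine ⟨z, hCP hz, thick_conn hr hP (hCP hz) (hCP hz') hne ⟨?_, ?_⟩⟩
  · intro a ha
    simp only [Finset.mem_insert, Finset.mem_singleton] at ha
    rcases ha with rfl | rfl
    · exact hCP hz
    · exact hCP hz'
  · have h3 : ({z, z'} : Finset α).card = 2 := Finset.card_pair hne
    have hsub : ({z, z'} : Finset α) ⊆ C := by
      intro a ha
      simp only [Finset.mem_insert, Finset.mem_singleton] at ha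
      rcases ha with rfl | rfl
      · exact hz
      · exact hz'
    have h4 : (C \ {z, z'}).card + 2 = C.card := by
      rw [← h3]; exact Finset.card_sdiff_add_card_eq_card hsub
    have h5 : r (P \ {z, z'}) ≤ r (D ∪ {y}) + (C \ {z, z'}).card := hr.le_add_card (by
      intro a ha
      simp only [Finset.mem_sdiff, Finset.mem_union, Finset.mem_singleton] at ha ⊢
      by_cases hay : a = y
      · left; right; exact hay
      · have h6 : a ∈ C ∪ D := by rw [hCD]; exact Finset.mem_erase.2 ⟨hay, ha.1⟩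
        rw [Finset.mem_union] at h6
        rcases h6 with h6 | h6
        · right; exact ⟨h6, ha.2⟩
        · left; left; exact h6)
    omega

/-- Corank two. Take `y ∈ P`. If `Conn (ct r {y}) (P.erase y)`, done. Otherwise a partition `(C, D)`
of `P.erase y`, both nonempty, with `r (C ∪ {y}) + r (D ∪ {y}) ≤ r P + r {y} = r P + r ∅ + 1`
(`Conn.single`). `Conn r P` for `(C, D ∪ {y})` and `(D, C ∪ {y})`: `r (C ∪ {y}) = r C`,
`r (D ∪ {y}) = r D`, `r C + r D = r P + r ∅ + 1`. With `hcard` and `IsRk.le_card`: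
`r C = r ∅ + C.card`, `r D = r ∅ + D.card`, and `C.card + D.card = P.card - 1 ≥ 3`, so one of them,
say `C`, has two elements `z ≠ z'`. `P \ {z, z'} ⊆ (C \ {z, z'}) ∪ (D ∪ {y})` has rank at most
`r D + C.card - 2 = r P - 1`, so `Ser r P {z, z'}` and `thick_conn` gives the claim for `z`. -/
theorem corank_two (hr : IsRk r) {P : Finset α} (hP : Conn r P) (h2 : r ∅ + 2 ≤ r P)
    (hcard : P.card + r ∅ = r P + 2) : ∃ y ∈ P, Conn (ct r {y}) (P.erase y) := by
  have hne : P.Nonempty := by
    rw [← Finset.card_pos]; omega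
  obtain ⟨y, hy⟩ := hne
  by_cases hc : Conn (ct r {y}) (P.erase y)
  · exact ⟨y, hy, hc⟩
  unfold Conn at hc
  push Not at hc
  obtain ⟨C, D, hCD, hd, hCn, hDn, hlt⟩ := hc
  have hne : (P.erase y).Nonempty := by
    obtain ⟨a, ha⟩ := hCn
    exact ⟨a, hCD ▸ Finset.mem_union_left D ha⟩
  have hs := hP.single hr hy hne
  have e1 : ct r {y} (P.erase y) = r P := by
    show r (P.erase y ∪ {y}) = r P
    congr 1
    ext a; simp only [Finset.mem_union, Finset.mem_erase, Finset.mem_singleton]
    by_cases h : a = y <;> simp [h, hy]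
  have e2 : ct r {y} ∅ = r {y} := ct_empty_apply _ _
  have e3 : ct r {y} C = r (C ∪ {y}) := rfl
  have e4 : ct r {y} D = r (D ∪ {y}) := rfl
  rw [e1, e2, e3, e4] at hlt
  have hyn := erase_disj hCD
  have k1 := hP C (D ∪ {y}) (by
    rw [← Finset.union_assoc, hCD]
    ext a; simp only [Finset.mem_union, Finset.mem_erase, Finset.mem_singleton]
    by_cases h : a = y <;> simp [h, hy]) (by
      rw [Finset.disjoint_union_right]
      exact ⟨hd, by simp [hyn.1]⟩) hCn ⟨y, by simp⟩
  have k2 := hP D (C ∪ {y}) (by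
    rw [← Finset.union_assoc, Finset.union_comm D C, hCD]
    ext a; simp only [Finset.mem_union, Finset.mem_erase, Finset.mem_singleton]
    by_cases h : a = y <;> simp [h, hy]) (by
      rw [Finset.disjoint_union_right]
      exact ⟨hd.symm, by simp [hyn.2]⟩) hDn ⟨y, by simp⟩
  have m1 : r C ≤ r (C ∪ {y}) := hr.mono _ _ Finset.subset_union_left
  have m2 : r D ≤ r (D ∪ {y}) := hr.mono _ _ Finset.subset_union_left
  have hc : C.card + D.card + 1 = P.card := by
    rw [← Finset.card_union_of_disjoint hd, hCD, Finset.card_erase_add_one hy]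
  by_cases hC2 : 2 ≤ C.card
  · exact TripleA_aux hr hP hcard hy hCD hd (by omega) (by omega) hC2
  · exact TripleA_aux hr hP hcard hy ((Finset.union_comm D C).trans hCD) hd.symm (by omega)
      (by omega) (by omega)

end Pool.MP_4929df_co.H92
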