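import Pool.Agent.W_4929df_h92.Rk

/-!
Tutte's lemma (deleting or contracting an element keeps connectivity), unions of connected sets,
and contraction of an element of a nontrivial series class.
-/

set_option autoImplicit false

namespace Pool.MP_4929df_co.H92

variable {α : Type*} [DecidableEq α] {r : Finset α → ℕ} {G : Finset α}

/-- uncrossing -/
theorem uncross (hr : IsRk r) (x : α) (A B C D : Finset α) :
    r (A ∩ C) + r (B ∪ D ∪ {x}) + (r (B ∩ D) + r (A ∪ C ∪ {x})) ≤
      r A + r B + (r (C ∪ {x}) + r (D ∪ {x})) := by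
  have h1 := hr.sub4 (A := A) (B := C ∪ {x}) (C := A ∪ C ∪ {x}) (D := A ∩ C)
    (by intro a ha; simp only [Finset.mem_union] at ha ⊢; tauto)
    (by intro a ha; simp only [Finset.mem_union, Finset.mem_inter] at ha ⊢; tauto)
  have h2 := hr.sub4 (A := B) (B := D ∪ {x}) (C := B ∪ D ∪ {x}) (D := B ∩ D)
    (by intro a ha; simp only [Finset.mem_union] at ha ⊢; tauto)
    (by intro a ha; simp only [Finset.mem_union, Finset.mem_inter] at ha ⊢; tauto)
  omega

/-- the complement of `A ∩ C` -/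
theorem cross_union {x : α} (hx : x ∈ G) {A B C D : Finset α} (hA : A ∪ B = G.erase x)
    (hC : C ∪ D = G.erase x) : A ∩ C ∪ (B ∪ D ∪ {x}) = G := by
  ext a
  have h1 := Finset.ext_iff.1 hA a
  have h2 := Finset.ext_iff.1 hC a
  simp only [Finset.mem_union, Finset.mem_inter, Finset.mem_singleton, Finset.mem_erase] at h1 h2 ⊢
  by_cases h : a = x
  · subst h; simp [hx]
  · tauto

theorem cross_disj {x : α} {A B C D : Finset α} (hA : A ∪ B = G.erase x)
    (hAB : Disjoint A B) (hCD : Disjoint C D) :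
    Disjoint (A ∩ C) (B ∪ D ∪ {x}) := by
  rw [Finset.disjoint_left] at hAB hCD ⊢
  intro a ha hb
  have h1 := Finset.ext_iff.1 hA a
  have h2 := @hAB a
  have h3 := @hCD a
  simp only [Finset.mem_union, Finset.mem_inter, Finset.mem_singleton, Finset.mem_erase] at *
  by_cases h : a = x
  · tauto
  · tauto

theorem erase_disj {x : α} {A B : Finset α} (hA : A ∪ B = G.erase x) : x ∉ A ∧ x ∉ B := by
  have h1 := Finset.ext_iff.1 hA x
  simp only [Finset.mem_union, Finset.mem_erase] at h1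
  tauto

/-- Tutte: if `G` is connected, then `G` delete `y` or `G` contract `y` is connected -/
theorem Conn.tutte (hr : IsRk r) (hG : Conn r G) {y : α} (hy : y ∈ G) :
    Conn r (G.erase y) ∨ Conn (ct r {y}) (G.erase y) := by
  by_contra hcon
  rw [not_or] at hcon
  obtain ⟨h1, h2⟩ := hcon
  unfold Conn at h1 h2
  push Not at h1 h2
  obtain ⟨A, B, hA, hAB, hAn, hBn, h1⟩ := h1
  obtain ⟨C, D, hC, hCD, hCn, hDn, h2⟩ := h2
  have e1 : ct r {y} (G.erase y) = r G := by
    show r (G.erase y ∪ {y}) = r G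
    congr 1
    ext a; simp only [Finset.mem_union, Finset.mem_erase, Finset.mem_singleton]
    by_cases h : a = y <;> simp [h, hy]
  have e2 : ct r {y} ∅ ≤ r ∅ + 1 := by
    rw [ct_empty_apply]; simpa using hr.le_card {y}
  have e3 : ct r {y} C = r (C ∪ {y}) := rfl
  have e4 : ct r {y} D = r (D ∪ {y}) := rfl
  have e5 := hr.mono (G.erase y) G (Finset.erase_subset _ _)
  have u1 := uncross hr y A B C D
  have u2 := uncross hr y A B D C
  have key : ∀ {A B C D : Finset α}, A ∪ B = G.erase y → C ∪ D = G.erase y → Disjoint A B →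
      Disjoint C D → (A ∩ C).Nonempty → r G + r ∅ + 1 ≤ r (A ∩ C) + r (B ∪ D ∪ {y}) := by
    intro A B C D hA hC hAB hCD hne
    exact hG _ _ (cross_union hy hA hC) (cross_disj hA hAB hCD) hne ⟨y, by simp⟩
  have k1 : (A ∩ C).Nonempty → r G + r ∅ + 1 ≤ r (A ∩ C) + r (B ∪ D ∪ {y}) :=
    key hA hC hAB hCD
  have k2 : (B ∩ D).Nonempty → r G + r ∅ + 1 ≤ r (B ∩ D) + r (A ∪ C ∪ {y}) :=
    key ((Finset.union_comm B A).trans hA) ((Finset.union_comm D C).trans hC) hAB.symm hCD.symm
  have k3 : (A ∩ D).Nonempty → r G + r ∅ + 1 ≤ r (A ∩ D) + r (B ∪ C ∪ {y}) :=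
    key hA ((Finset.union_comm D C).trans hC) hAB hCD.symm
  have k4 : (B ∩ C).Nonempty → r G + r ∅ + 1 ≤ r (B ∩ C) + r (A ∪ D ∪ {y}) :=
    key ((Finset.union_comm B A).trans hA) hC hAB.symm hCD
  have m1 : ¬ (A ∩ C).Nonempty ∨ ¬ (B ∩ D).Nonempty := by
    by_contra hc
    rw [not_or, not_not, not_not] at hc
    have := k1 hc.1
    have := k2 hc.2
    omega
  have m2 : ¬ (A ∩ D).Nonempty ∨ ¬ (B ∩ C).Nonempty := by
    by_contra hc
    rw [not_or, not_not, not_not] at hc
    have := k3 hc.1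
    have := k4 hc.2
    omega
  obtain ⟨a, ha⟩ := hAn
  obtain ⟨b, hb⟩ := hBn
  obtain ⟨c, hc⟩ := hCn
  obtain ⟨d, hd⟩ := hDn
  have haG : a ∈ C ∪ D := by rw [hC, ← hA]; exact Finset.mem_union_left _ ha
  have hbG : b ∈ C ∪ D := by rw [hC, ← hA]; exact Finset.mem_union_right _ hb
  have hcG : c ∈ A ∪ B := by rw [hA, ← hC]; exact Finset.mem_union_left _ hc
  have hdG : d ∈ A ∪ B := by rw [hA, ← hC]; exact Finset.mem_union_right _ hd
  rw [Finset.mem_union] at haG hbG hcG hdG
  simp only [Finset.not_nonempty_iff_eq_empty, Finset.eq_empty_iff_forall_notMem,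
    Finset.mem_inter, not_and] at m1 m2
  have a1 := fun h : (∀ x ∈ A, x ∉ C) => h a ha
  rcases m1 with m1 | m1 <;> rcases m2 with m2 | m2
  · rcases haG with h | h
    · exact m1 a ha h
    · exact m2 a ha h
  · rcases hcG with h | h
    · exact m1 c h hc
    · exact m2 c h hc
  · rcases hdG with h | h
    · exact m2 d h hd
    · exact m1 d h hd
  · rcases hbG with h | h
    · exact m2 b hb h
    · exact m1 b hb h

/-- if `(A, B)` is a 1-separation of `G` and `X ⊆ G` is connected, then `X ⊆ A` or `X ⊆ B` -/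
theorem Conn.side (hr : IsRk r) {X A B : Finset α} (hX : Conn r X) (hXG : X ⊆ G) (hA : A ∪ B = G)
    (h : r A + r B ≤ r G + r ∅) (hAB : Disjoint A B) : X ⊆ A ∨ X ⊆ B := by
  by_contra hcon
  rw [not_or, Finset.not_subset, Finset.not_subset] at hcon
  obtain ⟨⟨a, ha, ha'⟩, ⟨b, hb, hb'⟩⟩ := hcon
  have haG := hXG ha
  have hbG := hXG hb
  rw [← hA, Finset.mem_union] at haG hbG
  have h1 := hX (X ∩ A) (X ∩ B) (by
    ext z
    have h1 := Finset.ext_iff.1 hA z
    have h2 := @hXG z
    simp only [Finset.mem_union, Finset.mem_inter] at h1 h2 ⊢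
    tauto) (hAB.mono Finset.inter_subset_right Finset.inter_subset_right)
    ⟨b, by simp only [Finset.mem_inter]; tauto⟩ ⟨a, by simp only [Finset.mem_inter]; tauto⟩
  -- r(X∩A) + r(A ∪ X) ≤ r X + r A,  r(X ∩ B) + r(G) ≤ r(A ∪ X) + r(B)
  have h2 := hr.sub4 (A := X) (B := A) (C := A ∪ X) (D := X ∩ A)
    (by intro z; simp only [Finset.mem_union]; tauto)
    (by intro z; simp only [Finset.mem_inter]; tauto)
  have h3 := hr.sub4 (A := A ∪ X) (B := B) (C := G) (D := X ∩ B)
    (by rw [← hA]; intro z; simp only [Finset.mem_union]; tauto)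
    (by intro z; simp only [Finset.mem_inter, Finset.mem_union]; tauto)
  omega

end Pool.MP_4929df_co.H92
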