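import Pool.Agent.W_4929df_h92.UnqDefs

/-!
Relative uniqueness, basic facts.
-/

set_option autoImplicit false

namespace Pool.MP_4929df_co.H92

open Submodule

variable {F : Type} [Field F] {E : Type} [DecidableEq E] {V : Type} [AddCommGroup V] [Module F V]
  {w w' w'' : E → V} {B : Submodule F V} {D D' : Finset E}

theorem UH.symm (h : UH F w w' B D) : UH F w' w B D :=
  ⟨fun Z hZ => (h.cap Z hZ).symm, fun Z hZ => (h.rank Z hZ).symm⟩

theorem UH.mono (h : UH F w w' B D) (hD : D' ⊆ D) : UH F w w' B D' :=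
  ⟨fun Z hZ => h.cap Z (hZ.trans hD), fun Z hZ => h.rank Z (hZ.trans hD)⟩

/-- `rk F w B Z = finrank (Sp w Z ⊔ B) = rk F w ⊥ Z + finrank B - finrank (Sp w Z ⊓ B)`
(`Submodule.finrank_sup_add_finrank_inf_eq`) -/
theorem UH.rkB [FiniteDimensional F V] (h : UH F w w' B D) {Z : Finset E} (hZ : Z ⊆ D) :
    rk F w B Z = rk F w' B Z := by
  have h1 := Submodule.finrank_sup_add_finrank_inf_eq (Sp F w Z) B
  have h2 := Submodule.finrank_sup_add_finrank_inf_eq (Sp F w' Z) B
  have h3 := h.rank Z hZ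
  have h4 := h.cap Z hZ
  unfold rk at h3 ⊢
  rw [sup_bot_eq, sup_bot_eq] at h3
  rw [← h4] at h2
  omega

theorem UH.good [FiniteDimensional F V] (h : UH F w w' B D) (hg : UGood F w B D) :
    UGood F w' B D := by
  intro P hP
  have h1 := hg P hP
  have h2 := h.rkB (Finset.Subset.refl D)
  have h3 := h.rkB (Z := D \ P) Finset.sdiff_subset
  have h4 := h.rank P hP
  rw [← h2, ← h3, ← h4]
  exact h1

theorem UEq.refl : UEq F w w B D :=
  ⟨LinearEquiv.refl F V, fun _ => 1, fun _ _ => rfl, fun x _ => ⟨one_ne_zero, by simp⟩⟩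

theorem UEq.symm (h : UEq F w w' B D) : UEq F w' w B D := by
  obtain ⟨g, c, hB, hx⟩ := h
  refine ⟨g.symm, fun x => (c x)⁻¹, fun b hb => ?_, fun x hxD => ?_⟩
  · rw [LinearEquiv.symm_apply_eq]
    exact (hB b hb).symm
  · obtain ⟨h0, h1⟩ := hx x hxD
    refine ⟨inv_ne_zero h0, ?_⟩
    rw [h1, map_smul, LinearEquiv.symm_apply_apply, smul_smul, inv_mul_cancel₀ h0, one_smul]

theorem UEq.trans (h : UEq F w w' B D) (h' : UEq F w' w'' B D) : UEq F w w'' B D := by
  obtain ⟨g, c, hB, hx⟩ := h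
  obtain ⟨g', c', hB', hx'⟩ := h'
  refine ⟨g.trans g', fun x => c' x * c x, fun b hb => ?_, fun x hxD => ?_⟩
  · rw [LinearEquiv.trans_apply, hB b hb, hB' b hb]
  · obtain ⟨h0, h1⟩ := hx x hxD
    obtain ⟨h0', h1'⟩ := hx' x hxD
    refine ⟨mul_ne_zero h0' h0, ?_⟩
    rw [h1', h1, map_smul, smul_smul, LinearEquiv.trans_apply]

/-- if `w` and `w'` are equivalent on `D` relative to `B`, the spans of subsets of `D` correspond -/
theorem UEq.uh [FiniteDimensional F V] (h : UEq F w w' B D) : UH F w w' B D := by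
  obtain ⟨g, c, hB, hx⟩ := h
  have key : ∀ Z, Z ⊆ D → Sp F w' Z = (Sp F w Z).map (g : V →ₗ[F] V) := by
    intro Z hZ
    apply le_antisymm
    · rw [Sp_le]
      intro x hxZ
      rw [(hx x (hZ hxZ)).2]
      exact Submodule.smul_mem _ _ (Submodule.mem_map_of_mem (mem_Sp hxZ))
    · rw [Submodule.map_le_iff_le_comap, Sp_le]
      intro x hxZ
      obtain ⟨h0, h1⟩ := hx x (hZ hxZ)
      rw [Submodule.mem_comap]
      have h2 : (g : V →ₗ[F] V) (w x) = (c x)⁻¹ • w' x := by
        rw [h1, smul_smul, inv_mul_cancel₀ h0, one_smul]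
        rfl
      rw [h2]
      exact Submodule.smul_mem _ _ (mem_Sp hxZ)
  refine ⟨fun Z hZ => ?_, fun Z hZ => ?_⟩
  · rw [key Z hZ]
    ext y
    rw [Submodule.mem_inf, Submodule.mem_inf]
    constructor
    · rintro ⟨h1, h2⟩
      exact ⟨⟨y, h1, hB y h2⟩, h2⟩
    · rintro ⟨⟨z, hz, hzy⟩, h2⟩
      have h3 : g z = g y := by
        rw [hB y h2]
        exact hzy
      have h4 : z = y := g.injective h3
      rw [h4] at hz
      exact ⟨hz, h2⟩
  · unfold rk
    rw [sup_bot_eq, sup_bot_eq, key Z hZ]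
    exact (LinearEquiv.finrank_map_eq g (Sp F w Z)).symm

theorem UH.trans (h : UH F w w' B D) (h' : UH F w' w'' B D) : UH F w w'' B D :=
  ⟨fun Z hZ => (h.cap Z hZ).trans (h'.cap Z hZ), fun Z hZ => (h.rank Z hZ).trans (h'.rank Z hZ)⟩

/-- if no pair has connectivity at most one, `UGood` gives 3-connected: for `2 ≤ P.card` and
`rk F w ⊥ P + rk F w B (D \ P) ≤ rk F w B D + 1` we get `P.card = 2` and `P = {x, x'}` -/
theorem UGood.three (h : UGood F w B D) (hp : ∀ x ∈ D, ∀ x' ∈ D, x ≠ x' →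
    rk F w B D + 2 ≤ rk F w ⊥ {x, x'} + rk F w B (D \ {x, x'})) : UThree F w B D := by
  intro P hP
  refine ⟨(h P hP).1, fun h2 => ?_⟩
  by_contra hcon
  have h3 := (h P hP).2 (by omega)
  have h4 : P.card = 2 := by omega
  obtain ⟨x, x', hne, hPx⟩ := Finset.card_eq_two.1 h4
  rw [hPx] at hP hcon
  have h5 := hp x (hP (by simp)) x' (hP (by simp)) hne
  omega

/-- single elements have rank one -/
theorem UGood.single [FiniteDimensional F V] (h : UGood F w B D) {x : E} (hx : x ∈ D) :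
    rk F w ⊥ {x} = 1 ∧ rk F w B (D.erase x) = rk F w B D := by
  have hP : ({x} : Finset E) ⊆ D := Finset.singleton_subset_iff.2 hx
  have h1 := (h {x} hP).1 (Finset.singleton_nonempty x)
  rw [Finset.sdiff_singleton_eq_erase] at h1
  have h2 : rk F w ⊥ {x} ≤ 1 := by
    unfold rk
    rw [sup_bot_eq, Sp_singleton]
    simpa using finrank_span_le_card (R := F) ({w x} : Set V)
  have h3 : rk F w B (D.erase x) ≤ rk F w B D := (rk_isRk w B).mono _ _ (Finset.erase_subset x D)
  omega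

end Pool.MP_4929df_co.H92
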