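import Pool.Agent.W_4929df_h92.UnqA

/-!
Relative uniqueness, removing one element of a parallel pair, or an element in `B`.
-/

set_option autoImplicit false

namespace Pool.MP_4929df_co.H92

open Submodule

variable {F : Type} [Field F] {E : Type} [DecidableEq E] {V : Type} [AddCommGroup V] [Module F V]
  [FiniteDimensional F V] {w w' : E → V} {B : Submodule F V} {D : Finset E}

private theorem UnqB_ne (hg : UGood F w B D) {x : E} (hx : x ∈ D) : w x ≠ 0 := by
  intro h0
  have h1 := (hg.single hx).1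
  unfold rk at h1
  rw [sup_bot_eq, Sp_singleton, h0, span_zero_singleton, finrank_bot] at h1
  omega

private theorem UnqB_par (hg : UGood F w B D) {x x' : E} (hx : x ∈ D) (hx' : x' ∈ D)
    (hp : rk F w ⊥ {x, x'} ≤ 1) : ∃ t : F, t ≠ 0 ∧ w x' = t • w x := by
  have h1 := (hg.single hx).1
  have h2 : ({x, x'} : Finset E) = insert x' {x} := Finset.pair_comm x x'
  rw [h2] at hp
  have h3 : rk F w ⊥ (insert x' {x}) ≤ rk F w ⊥ {x} := by omega
  have h4 := cl_iff.1 h3
  rw [sup_bot_eq, Sp_singleton, mem_span_singleton] at h4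
  obtain ⟨t, ht⟩ := h4
  refine ⟨t, fun h0 => ?_, ht.symm⟩
  rw [h0, zero_smul] at ht
  exact UnqB_ne hg hx' ht.symm

private theorem UnqB_ins (Y : Submodule F V) {x x' : E} {t : F} (ht : w x' = t • w x)
    {P : Finset E} (hP : x ∈ P) : rk F w Y (insert x' P) = rk F w Y P := by
  refine le_antisymm (cl_iff.2 ?_) ((rk_isRk w Y).mono _ _ (Finset.subset_insert x' P))
  rw [ht]
  exact mem_sup_left (Submodule.smul_mem _ _ (mem_Sp hP))

private theorem UnqB_insB {e : E} (heB : w e ∈ B) (P : Finset E) :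
    rk F w B (insert e P) = rk F w B P :=
  le_antisymm (cl_iff.2 (mem_sup_right heB)) ((rk_isRk w B).mono _ _ (Finset.subset_insert e P))

/-- `x, x'` parallel (`rk F w ⊥ {x, x'} = 1`). Then `D.erase x'` is good. `w x' = t • w x`, `t ≠ 0`
(`UGood.single`). Let `P ⊆ D.erase x'`. If `x ∈ P`: `rk F w ⊥ (insert x' P) = rk F w ⊥ P` and
`D \ insert x' P = D.erase x' \ P`; use the property for `insert x' P`. If `x ∉ P`:
`rk F w B (D.erase x' \ P) = rk F w B (D \ P)`, both contain `x`; use the property for `P`. Also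
`rk F w B (D.erase x') = rk F w B D`. -/
theorem unq_par_good (hg : UGood F w B D) {x x' : E} (hx : x ∈ D) (hx' : x' ∈ D) (hne : x ≠ x')
    (hp : rk F w ⊥ {x, x'} ≤ 1) : UGood F w B (D.erase x') := by
  obtain ⟨t, -, ht⟩ := UnqB_par hg hx hx' hp
  intro P hP
  rw [(hg.single hx').2]
  have hPD : P ⊆ D := hP.trans (Finset.erase_subset x' D)
  have hxP' : x' ∉ P := fun h => (Finset.mem_erase.1 (hP h)).1 rfl
  by_cases hxP : x ∈ P
  · have h1 := hg (insert x' P) (Finset.insert_subset hx' hPD)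
    have h2 : D \ insert x' P = D.erase x' \ P := by
      ext y
      simp only [Finset.mem_sdiff, Finset.mem_insert, Finset.mem_erase]
      tauto
    rw [UnqB_ins ⊥ ht hxP, h2] at h1
    refine ⟨fun _ => h1.1 (Finset.insert_nonempty x' P), fun h3 => ?_⟩
    exact (Finset.card_le_card (Finset.subset_insert x' P)).trans (h1.2 h3)
  · have h1 := hg P hPD
    have h2 : D \ P = insert x' (D.erase x' \ P) := by
      ext y
      simp only [Finset.mem_sdiff, Finset.mem_insert, Finset.mem_erase]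
      constructor
      · rintro ⟨h3, h4⟩
        by_cases h5 : y = x'
        · exact Or.inl h5
        · exact Or.inr ⟨⟨h5, h3⟩, h4⟩
      · rintro (h3 | ⟨⟨h3, h4⟩, h5⟩)
        · rw [h3]
          exact ⟨hx', hxP'⟩
        · exact ⟨h4, h5⟩
    have h3 : x ∈ D.erase x' \ P :=
      Finset.mem_sdiff.2 ⟨Finset.mem_erase.2 ⟨hne, hx⟩, hxP⟩
    rw [h2, UnqB_ins B ht h3] at h1
    exact h1

/-- `w x' = t • w x`, and (same ranks) `w' x' = t' • w' x`; put `c x' = t' * c x * t⁻¹`. -/
theorem unq_par (h : UH F w w' B D) (hg : UGood F w B D) {x x' : E} (hx : x ∈ D) (hx' : x' ∈ D)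
    (hne : x ≠ x') (hp : rk F w ⊥ {x, x'} ≤ 1) (he : UEq F w w' B (D.erase x')) :
    UEq F w w' B D := by
  obtain ⟨t, ht0, ht⟩ := UnqB_par hg hx hx' hp
  have hsub : ({x, x'} : Finset E) ⊆ D := by
    intro y hy
    rw [Finset.mem_insert, Finset.mem_singleton] at hy
    rcases hy with h1 | h1
    · rw [h1]
      exact hx
    · rw [h1]
      exact hx'
  obtain ⟨t', ht0', ht'⟩ := UnqB_par (h.good hg) hx hx' ((h.rank _ hsub) ▸ hp)
  obtain ⟨g, c, hB, hc⟩ := he
  obtain ⟨hcx, hwx⟩ := hc x (Finset.mem_erase.2 ⟨hne, hx⟩)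
  refine ⟨g, Function.update c x' (t' * c x * t⁻¹), hB, fun y hy => ?_⟩
  by_cases hyx : y = x'
  · rw [hyx, Function.update_self]
    refine ⟨mul_ne_zero (mul_ne_zero ht0' hcx) (inv_ne_zero ht0), ?_⟩
    rw [ht', hwx, ht, map_smul, smul_smul, smul_smul, mul_assoc, mul_assoc, inv_mul_cancel₀ ht0,
      mul_one]
  · rw [Function.update_of_ne hyx]
    exact hc y (Finset.mem_erase.2 ⟨hyx, hy⟩)

/-- an element `e` with `w e ∈ B`: the ranks `rk F w B` do not change when `e` is removed -/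
theorem unq_inB_good (hg : UGood F w B D) {e : E} (he : e ∈ D) (heB : w e ∈ B) :
    UGood F w B (D.erase e) := by
  intro P hP
  rw [(hg.single he).2]
  have hPD : P ⊆ D := hP.trans (Finset.erase_subset e D)
  have heP : e ∉ P := fun h => (Finset.mem_erase.1 (hP h)).1 rfl
  have h1 := hg P hPD
  have h2 : D \ P = insert e (D.erase e \ P) := by
    ext y
    simp only [Finset.mem_sdiff, Finset.mem_insert, Finset.mem_erase]
    constructor
    · rintro ⟨h3, h4⟩
      by_cases h5 : y = e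
      · exact Or.inl h5
      · exact Or.inr ⟨⟨h5, h3⟩, h4⟩
    · rintro (h3 | ⟨⟨h3, h4⟩, h5⟩)
      · rw [h3]
        exact ⟨he, heP⟩
      · exact ⟨h4, h5⟩
  rw [h2, UnqB_insB heB] at h1
  exact h1

/-- `Sp w {e} ⊓ B = Sp w' {e} ⊓ B` is the span of `w e`, so `w' e = c • w e = c • g (w e)` -/
theorem unq_inB (h : UH F w w' B D) (hg : UGood F w B D) {e : E} (he : e ∈ D) (heB : w e ∈ B)
    (hq : UEq F w w' B (D.erase e)) : UEq F w w' B D := by
  have h1 : w e ∈ Sp F w' {e} ⊓ B := by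
    rw [← h.cap {e} (Finset.singleton_subset_iff.2 he)]
    exact ⟨mem_Sp (Finset.mem_singleton_self e), heB⟩
  have h2 : w e ∈ Sp F w' {e} := (Submodule.mem_inf.1 h1).1
  rw [Sp_singleton, mem_span_singleton] at h2
  obtain ⟨s, hs⟩ := h2
  have hs0 : s ≠ 0 := by
    intro h0
    rw [h0, zero_smul] at hs
    exact UnqB_ne hg he hs.symm
  obtain ⟨g, c, hB, hc⟩ := hq
  refine ⟨g, Function.update c e s⁻¹, hB, fun y hy => ?_⟩
  by_cases hye : y = e
  · rw [hye, Function.update_self]
    refine ⟨inv_ne_zero hs0, ?_⟩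
    rw [hB (w e) heB, ← hs, smul_smul, inv_mul_cancel₀ hs0, one_smul]
  · rw [Function.update_of_ne hye]
    exact hc y (Finset.mem_erase.2 ⟨hye, hy⟩)

end Pool.MP_4929df_co.H92
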