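import Pool.Agent.W_4929df_h92.UnqA

/-!
Relative uniqueness, passing to the quotient by the vector of an element.
-/

set_option autoImplicit false

namespace Pool.MP_4929df_co.H92

open Submodule

variable {F : Type} [Field F] {E : Type} [DecidableEq E] {V : Type} [AddCommGroup V] [Module F V]
  {w w' : E → V} {B : Submodule F V} {D : Finset E}

/-- spans in the quotient -/
theorem Sp_qv (u : V) (w : E → V) (Z : Finset E) :
    Sp F (qv F u w) Z = (Sp F w Z).map (span F {u}).mkQ := by
  unfold Sp qv
  rw [Submodule.map_span, Set.image_image]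

omit [DecidableEq E] in
private theorem unqC_finrank [FiniteDimensional F V] {Y N : Submodule F V} (h : Y ≤ N) :
    Module.finrank F (N.map Y.mkQ) + Module.finrank F Y = Module.finrank F N := by
  have h1 := LinearMap.finrank_range_add_finrank_ker (Y.mkQ.domRestrict N)
  have h2 : LinearMap.range (Y.mkQ.domRestrict N) = N.map Y.mkQ := by
    rw [LinearMap.range_domRestrict]
  have h3 : LinearMap.ker (Y.mkQ.domRestrict N) = Y.comap N.subtype := by
    rw [LinearMap.domRestrict, LinearMap.ker_comp, Submodule.ker_mkQ]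
  rw [h2, h3, (Submodule.comapSubtypeEquivOfLe h).finrank_eq] at h1
  exact h1

omit [DecidableEq E] in
private theorem unqC_map (u : V) (W : Submodule F V) :
    (W ⊔ span F {u}).map (span F {u}).mkQ = W.map (span F {u}).mkQ := by
  have h : (span F {u}).map (span F {u}).mkQ = ⊥ := by
    rw [eq_bot_iff, Submodule.map_le_iff_le_comap]
    intro x hx
    rw [Submodule.mem_comap, Submodule.mem_bot, Submodule.mkQ_apply, Submodule.Quotient.mk_eq_zero]
    exact hx
  rw [Submodule.map_sup, h, sup_bot_eq]

omit [DecidableEq E] in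
private theorem unqC_fin [FiniteDimensional F V] {u : V} (hu : u ≠ 0) (W : Submodule F V) :
    Module.finrank F (W.map (span F {u}).mkQ) + 1 =
      Module.finrank F (W ⊔ span F {u} : Submodule F V) := by
  have h := unqC_finrank (F := F) (Y := span F {u}) (N := W ⊔ span F {u}) le_sup_right
  rw [unqC_map, finrank_span_singleton hu] at h
  exact h

/-- ranks in the quotient (`finrank (W.map mkQ) + 1 = finrank (W ⊔ span {u})`, `u ≠ 0`) -/
theorem rk_qv [FiniteDimensional F V] {u : V} (hu : u ≠ 0) (w : E → V) (Z : Finset E) :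
    rk F (qv F u w) ⊥ Z + 1 = rk F w (span F {u}) Z := by
  unfold rk
  rw [Sp_qv, sup_bot_eq]
  exact unqC_fin hu _

theorem rk_qvB [FiniteDimensional F V] {u : V} (hu : u ≠ 0) (w : E → V) (Z : Finset E) :
    rk F (qv F u w) (qB F u B) Z + 1 = rk F w (B ⊔ span F {u}) Z := by
  unfold rk qB
  rw [Sp_qv, ← Submodule.map_sup, ← sup_assoc]
  exact unqC_fin hu _

/-- the same in terms of an element `e` with `w e = u` -/
theorem rk_insert_bot {u : V} {e : E} (he : w e = u) (Z : Finset E) :
    rk F w (span F {u}) Z = rk F w ⊥ (insert e Z) := by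
  unfold rk
  rw [Sp_insert, he, sup_bot_eq, sup_comm]

theorem rk_insert_B {u : V} {e : E} (he : w e = u) (Z : Finset E) :
    rk F w (B ⊔ span F {u}) Z = rk F w B (insert e Z) := by
  unfold rk
  have h : Sp F w Z ⊔ (B ⊔ span F {u}) = Sp F w (insert e Z) ⊔ B := by
    rw [Sp_insert, he, sup_comm B, ← sup_assoc, sup_comm (Sp F w Z)]
  rw [h]

private theorem unqC_cap {w w' : E → V} (h : UH F w w' B D) {e : E} (he : e ∈ D)
    (hu : w' e = w e) {Z : Finset E} (hZ : Z ⊆ D.erase e) :
    Sp F (qv F (w e) w) Z ⊓ qB F (w e) B ≤ Sp F (qv F (w e) w') Z ⊓ qB F (w e) B := by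
  rintro x ⟨hx1, hx2⟩
  refine ⟨?_, hx2⟩
  rw [SetLike.mem_coe, Sp_qv] at hx1 ⊢
  obtain ⟨b, hb, rfl⟩ := hx2
  have hbc : b ∈ B := hb
  have hins : insert e Z ⊆ D := by
    intro x hx
    rcases Finset.mem_insert.1 hx with rfl | hx
    · exact he
    · exact Finset.mem_of_mem_erase (hZ hx)
  obtain ⟨a, ha, hab⟩ := hx1
  have ha' : a ∈ Sp F w Z := ha
  have h1 : b - a ∈ span F {w e} := by
    have := (Submodule.Quotient.eq (span F {w e})).1 (show
      (Submodule.Quotient.mk b : V ⧸ span F {w e}) = Submodule.Quotient.mk a from hab.symm)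
    exact this
  have h2 : b ∈ Sp F w (insert e Z) := by
    rw [Sp_insert]
    have : b = (b - a) + a := by abel
    rw [this]
    exact Submodule.add_mem_sup h1 ha'
  have h3 : b ∈ Sp F w' (insert e Z) := by
    have : b ∈ Sp F w (insert e Z) ⊓ B := ⟨h2, hbc⟩
    rw [h.cap _ hins] at this
    exact this.1
  rw [Sp_insert, hu] at h3
  obtain ⟨y, hy, z, hz, hyz⟩ := Submodule.mem_sup.1 h3
  refine ⟨z, hz, ?_⟩
  rw [← hyz, map_add]
  have : (span F {w e}).mkQ y = 0 := by
    rw [Submodule.mkQ_apply, Submodule.Quotient.mk_eq_zero]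
    exact hy
  rw [this, zero_add]

/-- The hypotheses pass to the quotient by `u = w e = w' e`, `u ∉ B`. Ranks: `rk_qv`,
`rk_insert_bot`. Intersections: an element of `qB` is `mkQ b` with a unique `b ∈ B`, and
`mkQ b ∈ Sp (qv w) Z` iff `b ∈ Sp w Z ⊔ span {u} = Sp w (insert e Z)`, the same for `w'`. -/
theorem UH.quot [FiniteDimensional F V] (h : UH F w w' B D) {e : E} (he : e ∈ D)
    (hu : w' e = w e) (hB : w e ∉ B) :
    UH F (qv F (w e) w) (qv F (w e) w') (qB F (w e) B) (D.erase e) := by
  have hne : w e ≠ 0 := by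
    intro h0
    exact hB (h0 ▸ B.zero_mem)
  refine ⟨fun Z hZ => ?_, fun Z hZ => ?_⟩
  · refine le_antisymm (unqC_cap h he hu hZ) ?_
    have hs : UH F w' w B D := h.symm
    have := unqC_cap hs he hu.symm hZ
    rw [hu] at this
    exact this
  · have hins : insert e Z ⊆ D := by
      intro x hx
      rcases Finset.mem_insert.1 hx with rfl | hx
      · exact he
      · exact Finset.mem_of_mem_erase (hZ hx)
    have h1 := rk_qv (F := F) hne w Z
    have h2 := rk_qv (F := F) hne w' Z
    rw [rk_insert_bot (F := F) (w := w) rfl] at h1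
    rw [rk_insert_bot (F := F) (w := w') hu] at h2
    have h3 := h.rank _ hins
    omega

end Pool.MP_4929df_co.H92
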