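import Pool.Agent.W_4929df_h92.UnqC

/-!
Relative uniqueness, contracting one element of a series pair.
-/

set_option autoImplicit false

namespace Pool.MP_4929df_co.H92

open Submodule

variable {F : Type} [Field F] {E : Type} [DecidableEq E] {V : Type} [AddCommGroup V] [Module F V]
  [FiniteDimensional F V] {w w' : E → V} {B : Submodule F V} {D : Finset E}

omit [FiniteDimensional F V] in
private theorem UnqD_erase {x x' : E} (hx' : x' ∈ D) (hne : x ≠ x') :
    D.erase x = insert x' (D \ {x, x'}) := by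
  ext y
  simp only [Finset.mem_erase, Finset.mem_insert, Finset.mem_sdiff, Finset.mem_singleton, not_or]
  constructor
  · rintro ⟨h1, h2⟩
    by_cases h3 : y = x'
    · exact Or.inl h3
    · exact Or.inr ⟨h2, h1, h3⟩
  · rintro (h1 | ⟨h1, h2, h3⟩)
    · rw [h1]
      exact ⟨fun h => hne h.symm, hx'⟩
    · exact ⟨h2, h1⟩

private theorem UnqD_notmem (hg : UGood F w B D) {x x' : E} (hx : x ∈ D) (hx' : x' ∈ D)
    (hne : x ≠ x') (hs : rk F w B (D \ {x, x'}) + 1 ≤ rk F w B D) {A : Finset E}
    (hA : A ⊆ D \ {x, x'}) : w x' ∉ Sp F w A ⊔ B := by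
  intro h
  have h1 : w x' ∈ Sp F w (D \ {x, x'}) ⊔ B := sup_le_sup_right (Sp_mono hA) B h
  have h2 := cl_iff.2 h1
  rw [← UnqD_erase hx' hne, (hg.single hx).2] at h2
  omega

/-- `{x, x'}` a series pair: `rk F w ⊥ {x, x'} = 2` and `rk F w B (D \ {x, x'}) + 1 ≤ rk F w B D`.
Then `w x' ∉ B`: otherwise `rk F w B (D.erase x) = rk F w B (D \ {x, x'})`, contradiction to
`UGood.single`. -/
theorem unq_ser_notB (hg : UGood F w B D) {x x' : E} (hx : x ∈ D) (hx' : x' ∈ D) (hne : x ≠ x')
    (hs : rk F w B (D \ {x, x'}) + 1 ≤ rk F w B D) : w x' ∉ B := fun h =>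
  UnqD_notmem hg hx hx' hne hs (A := ∅) (Finset.empty_subset _) (mem_sup_right h)

/-- The quotient by `w x'` is good. Let `u = w x'`, `P ⊆ D.erase x'`; write the ranks in the
quotient with `rk_qv`, `rk_qvB`, `rk_insert_bot`, `rk_insert_B`. If `x ∈ P`: `x'` is a coloop of
`D \ P` over `B` (`rk F w B (D \ P) = rk F w B (D.erase x' \ P) + 1`, because `D \ P` does not
contain `x`; from `hs` and submodularity), so the connectivity of `P` in the quotient is the one of
`insert x' P` in `D`. If `x ∉ P`: `rk F w ⊥ (insert x' P) = rk F w ⊥ P + 1` (again `x'` is a coloop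
of `insert x' P` over `B`, as this set does not contain `x`), so it is the one of `P` in `D`. -/
theorem unq_ser_good (hg : UGood F w B D) {x x' : E} (hx : x ∈ D) (hx' : x' ∈ D) (hne : x ≠ x')
    (hs : rk F w B (D \ {x, x'}) + 1 ≤ rk F w B D) :
    UGood F (qv F (w x') w) (qB F (w x') B) (D.erase x') := by
  have hB : w x' ∉ B := unq_ser_notB hg hx hx' hne hs
  have hu : w x' ≠ 0 := fun h0 => hB (h0 ▸ B.zero_mem)
  intro P hP
  have hPD : P ⊆ D := hP.trans (Finset.erase_subset x' D)
  have hxP' : x' ∉ P := fun h => (Finset.mem_erase.1 (hP h)).1 rfl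
  have e1 := rk_qvB (F := F) (B := B) hu w (D.erase x')
  rw [rk_insert_B (F := F) (w := w) rfl, Finset.insert_erase hx'] at e1
  have e2 := rk_qv (F := F) hu w P
  rw [rk_insert_bot (F := F) (w := w) rfl] at e2
  have e3 := rk_qvB (F := F) (B := B) hu w (D.erase x' \ P)
  have s1 : insert x' (D.erase x' \ P) = D \ P := by
    ext y
    simp only [Finset.mem_sdiff, Finset.mem_insert, Finset.mem_erase]
    constructor
    · rintro (h3 | ⟨⟨h3, h4⟩, h5⟩)
      · rw [h3]
        exact ⟨hx', hxP'⟩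
      · exact ⟨h4, h5⟩
    · rintro ⟨h3, h4⟩
      by_cases h5 : y = x'
      · exact Or.inl h5
      · exact Or.inr ⟨⟨h5, h3⟩, h4⟩
  rw [rk_insert_B (F := F) (w := w) rfl, s1] at e3
  by_cases hxP : x ∈ P
  · have h1 := hg (insert x' P) (Finset.insert_subset hx' hPD)
    have s2 : D.erase x' \ P = D \ insert x' P := by
      ext y
      simp only [Finset.mem_sdiff, Finset.mem_insert, Finset.mem_erase]
      tauto
    have s3 : D \ insert x' P ⊆ D \ {x, x'} := by
      intro y hy
      simp only [Finset.mem_sdiff, Finset.mem_insert, Finset.mem_singleton, not_or] at hy ⊢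
      exact ⟨hy.1, fun h => hy.2.2 (h ▸ hxP), hy.2.1⟩
    have h2 := not_cl_iff.2 (UnqD_notmem hg hx hx' hne hs s3)
    have s4 : insert x' (D \ insert x' P) = D \ P := by
      rw [← s2, s1]
    rw [s4] at h2
    refine ⟨fun _ => ?_, fun h3 => ?_⟩
    · have h4 := h1.1 (Finset.insert_nonempty x' P)
      omega
    · exact (Finset.card_le_card (Finset.subset_insert x' P)).trans (h1.2 (by omega))
  · have h1 := hg P hPD
    have s3 : P ⊆ D \ {x, x'} := by
      intro y hy
      simp only [Finset.mem_sdiff, Finset.mem_insert, Finset.mem_singleton, not_or]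
      exact ⟨hPD hy, fun h => hxP (h ▸ hy), fun h => hxP' (h ▸ hy)⟩
    have h2 : w x' ∉ Sp F w P ⊔ (⊥ : Submodule F V) := by
      rw [sup_bot_eq]
      exact fun h => UnqD_notmem hg hx hx' hne hs s3 (mem_sup_left h)
    have h3 := not_cl_iff.2 h2
    refine ⟨fun hPn => ?_, fun h4 => h1.2 (by omega)⟩
    have h5 := h1.1 hPn
    omega

end Pool.MP_4929df_co.H92
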