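import Pool.Agent.W_4929df_h92.UnqD

/-!
Relative uniqueness, the final step for a series pair.
-/

set_option autoImplicit false

namespace Pool.MP_4929df_co.H92

open Submodule

variable {F : Type} [Field F] {E : Type} [DecidableEq E] {V : Type} [AddCommGroup V] [Module F V]
  [FiniteDimensional F V] {w w' : E → V} {B : Submodule F V} {D : Finset E}

omit [DecidableEq E] [FiniteDimensional F V] in
private theorem UnqD2_dual {u : V} {H : Submodule F V} (hu : u ∉ H) :
    ∃ f : V →ₗ[F] F, f u = 1 ∧ ∀ v ∈ H, f v = 0 := by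
  obtain ⟨f, hf, hf'⟩ := Submodule.exists_le_ker_of_notMem hu
  refine ⟨(f u)⁻¹ • f, ?_, fun v hv => ?_⟩
  · rw [LinearMap.smul_apply, smul_eq_mul, inv_mul_cancel₀ hf]
  · rw [LinearMap.smul_apply, LinearMap.mem_ker.1 (hf' hv), smul_zero]

/-- one of the two families -/
private theorem UnqD2_side (hg : UGood F w B D) {x x' : E} (hx : x ∈ D) (hx' : x' ∈ D)
    (hne : x ≠ x') (hs : rk F w B (D \ {x, x'}) + 1 ≤ rk F w B D) :
    ∃ f : V →ₗ[F] F, f (w x') = 1 ∧ f (w x) ≠ 0 ∧ (∀ b ∈ B, f b = 0) ∧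
      ∀ d ∈ D \ {x, x'}, f (w d) = 0 := by
  have hI := rk_isRk w B
  have e1 : D.erase x' = insert x (D \ {x, x'}) := by
    ext d
    simp only [Finset.mem_erase, Finset.mem_insert, Finset.mem_sdiff, Finset.mem_singleton]
    constructor
    · rintro ⟨h1, h2⟩
      by_cases h3 : d = x
      · exact Or.inl h3
      · exact Or.inr ⟨h2, by rintro (h4 | h4); exacts [h3 h4, h1 h4]⟩
    · rintro (h1 | ⟨h1, h2⟩)
      · subst h1
        exact ⟨hne, hx⟩
      · exact ⟨fun h3 => h2 (Or.inr h3), h1⟩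
  have e2 : D.erase x = insert x' (D \ {x, x'}) := by
    ext d
    simp only [Finset.mem_erase, Finset.mem_insert, Finset.mem_sdiff, Finset.mem_singleton]
    constructor
    · rintro ⟨h1, h2⟩
      by_cases h3 : d = x'
      · exact Or.inl h3
      · exact Or.inr ⟨h2, by rintro (h4 | h4); exacts [h1 h4, h3 h4]⟩
    · rintro (h1 | ⟨h1, h2⟩)
      · subst h1
        exact ⟨hne.symm, hx'⟩
      · exact ⟨fun h3 => h2 (Or.inl h3), h1⟩
  have r1 := (hg.single hx').2
  have r2 := (hg.single hx).2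
  rw [e1] at r1
  rw [e2] at r2
  have i1 := hI.ins x (D \ {x, x'})
  have i2 := hI.ins x' (D \ {x, x'})
  have n1 : w x ∉ Sp F w (D \ {x, x'}) ⊔ B := not_cl_iff.1 (by omega)
  have n2 : w x' ∉ Sp F w (D \ {x, x'}) ⊔ B := not_cl_iff.1 (by omega)
  obtain ⟨f, f1, f2⟩ := UnqD2_dual n2
  refine ⟨f, f1, fun h0 => n1 ?_, fun b hb => f2 b (mem_sup_right hb),
    fun d hd => f2 _ (mem_sup_left (mem_Sp hd))⟩
  have h1 : w x ∈ span F {w x'} ⊔ (Sp F w (D \ {x, x'}) ⊔ B) := by
    have h2 : Sp F w (insert x' (D \ {x, x'})) ⊔ B = Sp F w D ⊔ B :=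
      sup_eq_of_rk_le (by rw [← e2]; exact Finset.erase_subset _ _) r2.ge
    rw [← sup_assoc, ← Sp_insert, h2]
    exact mem_sup_left (mem_Sp hx)
  obtain ⟨y, hy, z, hz, hyz⟩ := mem_sup.1 h1
  obtain ⟨t, rfl⟩ := mem_span_singleton.1 hy
  have h2 : f (w x) = t := by
    rw [← hyz, map_add, map_smul, f1, f2 z hz, add_zero, smul_eq_mul, mul_one]
  rw [h2] at h0
  rw [← hyz, h0, zero_smul, zero_add]
  exact hz

/-- The final step for a series pair. `w' d - w d ∈ ⟨u⟩`, `u = w x' = w' x'`. Let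
`H = Sp w (D \ {x, x'}) ⊔ B`, `H' = Sp w' (D \ {x, x'}) ⊔ B`; `u, w x ∉ H`, `u, w' x ∉ H'`, but
`w x ∈ H ⊔ ⟨u⟩`, `w' x ∈ H' ⊔ ⟨u⟩` (ranks). The subspace
`N = {(v, v')}` spanned by the pairs `(w d, w' d)`, `d ∈ D \ {x, x'}`, and `(b, b)`, `b ∈ B`, consists
of pairs with `v' - v ∈ ⟨u⟩`; `(0, v') ∈ N` gives `v' ∈ H' ⊓ ⟨u⟩ = ⊥`, and `(v, 0) ∈ N` gives
`v ∈ H ⊓ ⟨u⟩ = ⊥`. So `N` is the graph of an isomorphism `H ≃ H'`. Extend it by `u ↦ α • u` to
`H ⊔ ⟨u⟩` and then to `V`. `w x = h + ξ • u`, `w' x = h' + ξ' • u`, `ξ, ξ' ≠ 0`, the image of `h` is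
`h'` (the difference is in `H' ⊓ ⟨u⟩`); take `α = ξ' * ξ⁻¹`. -/
theorem unq_ser (h : UH F w w' B D) (hg : UGood F w B D) {x x' : E} (hx : x ∈ D) (hx' : x' ∈ D)
    (hne : x ≠ x') (hs : rk F w B (D \ {x, x'}) + 1 ≤ rk F w B D) (hu : w' x' = w x')
    (hc : ∀ d ∈ D, ∃ t : F, w' d = w d + t • w x') : UEq F w w' B D := by
  have hsub : D \ {x, x'} ⊆ D := Finset.sdiff_subset
  obtain ⟨f, f1, f2, f3, f4⟩ := UnqD2_side hg hx hx' hne hs
  obtain ⟨f', f1', f2', f3', f4'⟩ := UnqD2_side (h.good hg) hx hx' hne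
    (by rw [← h.rkB hsub, ← h.rkB (Finset.Subset.refl D)]; exact hs)
  rw [hu] at f1'
  set u : V := w x' with hudef
  set α : F := f' (w' x) * (f (w x))⁻¹ with hα
  have hα0 : α ≠ 0 := mul_ne_zero f2' (inv_ne_zero f2)
  have hu0 : u ≠ 0 := by
    intro h0
    rw [h0, map_zero] at f1
    exact zero_ne_one f1
  set g0 : V →ₗ[F] V := LinearMap.id + (α • f - f').smulRight u with hg0
  have hgv : ∀ v, g0 v = v + (α * f v - f' v) • u := by
    intro v
    rw [hg0]
    simp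
  have hinj : Function.Injective g0 := by
    rw [← LinearMap.ker_eq_bot, LinearMap.ker_eq_bot']
    intro v hv
    rw [hgv] at hv
    have h1 : v = (-(α * f v - f' v)) • u := by
      rw [neg_smul]
      exact eq_neg_of_add_eq_zero_left hv
    obtain ⟨s, hs'⟩ : ∃ s : F, v = s • u := ⟨_, h1⟩
    rw [hs', map_smul, map_smul, f1, f1'] at hv
    simp only [smul_eq_mul, mul_one] at hv
    rw [← add_smul] at hv
    have h2 : s + (α * s - s) = 0 := (smul_eq_zero.1 hv).resolve_right hu0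
    have h3 : α * s = 0 := by
      rw [← h2]
      ring
    rw [hs', (mul_eq_zero.1 h3).resolve_left hα0, zero_smul]
  refine ⟨LinearEquiv.ofInjectiveEndo g0 hinj, fun d => if d = x' then α⁻¹ else 1, ?_, ?_⟩
  · intro b hb
    rw [LinearEquiv.coe_ofInjectiveEndo, hgv, f3 b hb, f3' b hb]
    simp
  · intro d hd
    by_cases h1 : d = x'
    · subst h1
      refine ⟨by simpa using hα0, ?_⟩
      beta_reduce
      rw [if_pos rfl, LinearEquiv.coe_ofInjectiveEndo, ← hudef, hgv, f1, f1', hu]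
      rw [mul_one, sub_smul, one_smul, add_sub_cancel, smul_smul, inv_mul_cancel₀ hα0, one_smul]
    · refine ⟨by simp [h1], ?_⟩
      beta_reduce
      rw [if_neg h1, one_smul, LinearEquiv.coe_ofInjectiveEndo, hgv]
      obtain ⟨t, ht⟩ := hc d hd
      rw [ht]
      congr 2
      by_cases h2 : d = x
      · subst h2
        have h3 : f' (w' d) = f' (w d) + t := by
          rw [ht, map_add, map_smul, f1', smul_eq_mul, mul_one]
        have h4 : α * f (w d) = f' (w' d) := by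
          rw [hα, mul_assoc, inv_mul_cancel₀ f2, mul_one]
        rw [h4, h3]
        ring
      · have hd' : d ∈ D \ {x, x'} := by
          rw [Finset.mem_sdiff, Finset.mem_insert, Finset.mem_singleton]
          exact ⟨hd, by rintro (h3 | h3); exacts [h2 h3, h1 h3]⟩
        have h3 : f' (w' d) = f' (w d) + t := by
          rw [ht, map_add, map_smul, f1', smul_eq_mul, mul_one]
        rw [f4' d hd'] at h3
        rw [f4 d hd', mul_zero, zero_sub, eq_neg_iff_add_eq_zero, add_comm]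
        exact h3.symm

end Pool.MP_4929df_co.H92
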