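import Pool.Agent.W_4929df_h92.Vec

/-!
Relative uniqueness of representations (proofs row of the branch-width theorem, part U).
`w, w' : E → V`, `D` a finite set of elements, `B` a subspace. `rk F w ⊥ P` is the rank of `P`,
`rk F w B P` the rank of `P` together with `B`.
-/

set_option autoImplicit false

namespace Pool.MP_4929df_co.H92

open Submodule

section

variable (F : Type) [Field F] {E : Type} [DecidableEq E] {V : Type} [AddCommGroup V] [Module F V]

/-- the same ranks and the same intersections with `B` -/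
structure UH (w w' : E → V) (B : Submodule F V) (D : Finset E) : Prop where
  cap : ∀ Z, Z ⊆ D → Sp F w Z ⊓ B = Sp F w' Z ⊓ B
  rank : ∀ Z, Z ⊆ D → rk F w ⊥ Z = rk F w' ⊥ Z

/-- connected, and the sets with connectivity one have at most two elements -/
def UGood (w : E → V) (B : Submodule F V) (D : Finset E) : Prop :=
  ∀ P, P ⊆ D → (P.Nonempty → rk F w B D + 1 ≤ rk F w ⊥ P + rk F w B (D \ P)) ∧
    (rk F w ⊥ P + rk F w B (D \ P) ≤ rk F w B D + 1 → P.card ≤ 2)

/-- 3-connected relative to `B` -/
def UThree (w : E → V) (B : Submodule F V) (D : Finset E) : Prop :=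
  ∀ P, P ⊆ D → (P.Nonempty → rk F w B D + 1 ≤ rk F w ⊥ P + rk F w B (D \ P)) ∧
    (2 ≤ P.card → rk F w B D + 2 ≤ rk F w ⊥ P + rk F w B (D \ P))

/-- equivalent on `D` by an isomorphism that is the identity on `B` -/
def UEq (w w' : E → V) (B : Submodule F V) (D : Finset E) : Prop :=
  ∃ g : V ≃ₗ[F] V, ∃ c : E → F, (∀ b ∈ B, g b = b) ∧ ∀ x ∈ D, c x ≠ 0 ∧ w' x = c x • g (w x)

/-- images modulo the vector `u` -/
def qv (u : V) (w : E → V) : E → V ⧸ span F {u} := fun x => (span F {u}).mkQ (w x)

/-- the image of `B` modulo `u` -/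
def qB (u : V) (B : Submodule F V) : Submodule F (V ⧸ span F {u}) := B.map (span F {u}).mkQ

end

end Pool.MP_4929df_co.H92
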