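import Pool.Agent.W_4929df_h92.UnqC

/-!
Relative uniqueness, Bixby's lemma relative to `B`.
-/

set_option autoImplicit false

namespace Pool.MP_4929df_co.H92

open Submodule

variable {F : Type} [Field F] {E : Type} [DecidableEq E] {V : Type} [AddCommGroup V] [Module F V]
  [FiniteDimensional F V] {w w' : E → V} {B : Submodule F V} {D : Finset E}

/-- mixed submodularity: `rk F w ⊥ P + rk F w B Q ≥ rk F w ⊥ (P ∩ Q) + rk F w B (P ∪ Q)` -/
theorem rk_mixed (w : E → V) (B : Submodule F V) (P Q : Finset E) :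
    rk F w ⊥ (P ∩ Q) + rk F w B (P ∪ Q) ≤ rk F w ⊥ P + rk F w B Q := by
  show Module.finrank F (Sp F w (P ∩ Q) ⊔ ⊥ : Submodule F V) +
    Module.finrank F (Sp F w (P ∪ Q) ⊔ B : Submodule F V) ≤
    Module.finrank F (Sp F w P ⊔ ⊥ : Submodule F V) +
    Module.finrank F (Sp F w Q ⊔ B : Submodule F V)
  rw [← Submodule.finrank_sup_add_finrank_inf_eq (Sp F w P ⊔ ⊥) (Sp F w Q ⊔ B)]
  have e1 : Sp F w (P ∪ Q) ⊔ B = Sp F w P ⊔ ⊥ ⊔ (Sp F w Q ⊔ B) := by
    rw [Sp_union, sup_bot_eq, sup_assoc]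
  rw [e1]
  have h2 : Sp F w (P ∩ Q) ⊔ ⊥ ≤ (Sp F w P ⊔ ⊥) ⊓ (Sp F w Q ⊔ B) := by
    refine le_inf (sup_le_sup_right (Sp_mono Finset.inter_subset_left) _) ?_
    rw [sup_bot_eq]
    exact (Sp_mono Finset.inter_subset_right).trans le_sup_left
  have h3 := Submodule.finrank_mono h2
  omega

/-- Bixby. Suppose `P, Q ⊆ D.erase e` have at least three elements and
`rk F w ⊥ P + rk F w B (D.erase e \ P) ≤ rk F w B D + 1`,
`rk F w ⊥ (insert e Q) + rk F w B (D \ Q) ≤ rk F w B D + 2`. Submodularity of `rk F w ⊥` and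
`rk F w B` gives `λ(P ∩ Q) + λ(insert e (P ∪ Q)) ≤ 3` (`λ(R) = rk ⊥ R + rk B (D \ R) - rk B D`), and
`rk_mixed` twice (for `P, D \ Q` and for `insert e Q, D.erase e \ P`) gives
`λ(P \ Q) + λ(Q \ P) ≤ 3`. With `UThree`: `λ(insert e (P ∪ Q)) ≥ 2`, so `(P ∩ Q).card ≤ 1`, and
`(P \ Q).card ≤ 1` or `(Q \ P).card ≤ 1`; contradiction. -/
theorem unq_bixby (h3 : UThree F w B D) {e : E} (he : e ∈ D) :
    (∀ P, P ⊆ D.erase e → rk F w ⊥ P + rk F w B (D.erase e \ P) ≤ rk F w B D + 1 →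
      P.card ≤ 2) ∨
    (∀ Q, Q ⊆ D.erase e → rk F w ⊥ (insert e Q) + rk F w B (D \ Q) ≤ rk F w B D + 2 →
      Q.card ≤ 2) := by
  by_contra hcon
  rw [not_or] at hcon
  push Not at hcon
  obtain ⟨⟨P, hP, hP1, hP3⟩, Q, hQ, hQ1, hQ3⟩ := hcon
  have heP : e ∉ P := fun h => Finset.notMem_erase e D (hP h)
  have heQ : e ∉ Q := fun h => Finset.notMem_erase e D (hQ h)
  have hPD : ∀ x ∈ P, x ∈ D := fun x h => Finset.mem_of_mem_erase (hP h)
  have hQD : ∀ x ∈ Q, x ∈ D := fun x h => Finset.mem_of_mem_erase (hQ h)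
  have s1 := (rk_isRk w (⊥ : Submodule F V)).sub P (insert e Q)
  have s2 := (rk_isRk w B).sub (D.erase e \ P) (D \ Q)
  have s3 := rk_mixed w B P (D \ Q)
  have s4 := rk_mixed w B (insert e Q) (D.erase e \ P)
  have e1 : P ∩ insert e Q = P ∩ Q := by
    ext x
    simp only [Finset.mem_inter, Finset.mem_insert]
    constructor
    · rintro ⟨h1, h2 | h2⟩
      · exact absurd (h2 ▸ h1) heP
      · exact ⟨h1, h2⟩
    · rintro ⟨h1, h2⟩
      exact ⟨h1, Or.inr h2⟩
  have e2 : P ∪ insert e Q = insert e (P ∪ Q) := Finset.union_insert _ _ _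
  have e3 : (D.erase e \ P) ∪ (D \ Q) = D \ (P ∩ Q) := by
    ext x
    simp only [Finset.mem_union, Finset.mem_sdiff, Finset.mem_erase, Finset.mem_inter, not_and_or]
    constructor
    · rintro (⟨⟨_, h1⟩, h2⟩ | ⟨h1, h2⟩)
      · exact ⟨h1, Or.inl h2⟩
      · exact ⟨h1, Or.inr h2⟩
    · rintro ⟨h1, h2 | h2⟩
      · by_cases hx : x = e
        · right
          rw [hx]
          exact ⟨he, heQ⟩
        · exact Or.inl ⟨⟨hx, h1⟩, h2⟩
      · exact Or.inr ⟨h1, h2⟩
  have e4 : (D.erase e \ P) ∩ (D \ Q) = D \ insert e (P ∪ Q) := by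
    ext x
    simp only [Finset.mem_union, Finset.mem_sdiff, Finset.mem_erase, Finset.mem_inter,
      Finset.mem_insert, not_or]
    tauto
  have e5 : P ∩ (D \ Q) = P \ Q := by
    ext x
    simp only [Finset.mem_sdiff, Finset.mem_inter]
    constructor
    · rintro ⟨h1, _, h2⟩
      exact ⟨h1, h2⟩
    · rintro ⟨h1, h2⟩
      exact ⟨h1, hPD x h1, h2⟩
  have e6 : P ∪ (D \ Q) = D \ (Q \ P) := by
    ext x
    simp only [Finset.mem_sdiff, Finset.mem_union, not_and, not_not]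
    constructor
    · rintro (h1 | ⟨h1, h2⟩)
      · exact ⟨hPD x h1, fun _ => h1⟩
      · exact ⟨h1, fun h => absurd h h2⟩
    · rintro ⟨h1, h2⟩
      by_cases hx : x ∈ Q
      · exact Or.inl (h2 hx)
      · exact Or.inr ⟨h1, hx⟩
  have e7 : insert e Q ∩ (D.erase e \ P) = Q \ P := by
    ext x
    simp only [Finset.mem_sdiff, Finset.mem_inter, Finset.mem_insert, Finset.mem_erase]
    constructor
    · rintro ⟨h1 | h1, ⟨h2, _⟩, h3⟩
      · exact absurd h1 h2
      · exact ⟨h1, h3⟩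
    · rintro ⟨h1, h2⟩
      exact ⟨Or.inr h1, ⟨fun h => heQ (h ▸ h1), hQD x h1⟩, h2⟩
  have e8 : insert e Q ∪ (D.erase e \ P) = D \ (P \ Q) := by
    ext x
    simp only [Finset.mem_sdiff, Finset.mem_union, Finset.mem_insert, Finset.mem_erase, not_and,
      not_not]
    constructor
    · rintro ((h1 | h1) | ⟨⟨_, h1⟩, h2⟩)
      · rw [h1]
        exact ⟨he, fun h => absurd h heP⟩
      · exact ⟨hQD x h1, fun _ => h1⟩
      · exact ⟨h1, fun h => absurd h h2⟩
    · rintro ⟨h1, h2⟩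
      by_cases hx : x = e
      · exact Or.inl (Or.inl hx)
      · by_cases hxP : x ∈ P
        · exact Or.inl (Or.inr (h2 hxP))
        · exact Or.inr ⟨⟨hx, h1⟩, hxP⟩
  rw [e1, e2] at s1
  rw [e3, e4] at s2
  rw [e5, e6] at s3
  rw [e7, e8] at s4
  have u1 := (h3 (insert e (P ∪ Q)) (by
    intro x hx
    rw [Finset.mem_insert, Finset.mem_union] at hx
    rcases hx with h | h | h
    · rw [h]
      exact he
    · exact hPD x h
    · exact hQD x h)).2 (by
      have h1 : P.card ≤ (insert e (P ∪ Q)).card :=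
        Finset.card_le_card (Finset.subset_union_left.trans (Finset.subset_insert _ _))
      omega)
  have c1 : (P ∩ Q).card ≤ 1 := by
    by_contra hc
    have u2 := (h3 (P ∩ Q) (fun x hx => hPD x (Finset.mem_inter.1 hx).1)).2 (by omega)
    omega
  have cP := Finset.card_inter_add_card_sdiff P Q
  have cQ := Finset.card_inter_add_card_sdiff Q P
  rw [Finset.inter_comm] at cQ
  have u3 := (h3 (P \ Q) (fun x hx => hPD x (Finset.mem_sdiff.1 hx).1)).2 (by omega)
  have u4 := (h3 (Q \ P) (fun x hx => hQD x (Finset.mem_sdiff.1 hx).1)).2 (by omega)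
  omega

end Pool.MP_4929df_co.H92
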