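import Pool.Agent.W_4929df_h92.UnqE

/-!
Relative uniqueness, deletion and contraction after Bixby.
-/

set_option autoImplicit false

namespace Pool.MP_4929df_co.H92

open Submodule

variable {F : Type} [Field F] {E : Type} [DecidableEq E] {V : Type} [AddCommGroup V] [Module F V]
  [FiniteDimensional F V] {w w' : E → V} {B : Submodule F V} {D : Finset E}

private theorem UnqE2_card (w : E → V) (A : Finset E) : rk F w ⊥ A ≤ A.card := by
  have h := (rk_isRk (F := F) w ⊥).le_card A
  rw [rk_empty, finrank_bot, zero_add] at h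
  exact h

private theorem UnqE2_mono (w : E → V) (Y : Submodule F V) {A A' : Finset E} (h : A ⊆ A') :
    rk F w Y A ≤ rk F w Y A' := (rk_isRk (F := F) w Y).mono A A' h

/-- the values for one and two elements -/
private theorem UnqE2_one (h3 : UThree F w B D) {x : E} (hx : x ∈ D) :
    1 ≤ rk F w ⊥ {x} ∧ rk F w B D ≤ rk F w B (D \ {x}) := by
  have h1 := (h3 {x} (Finset.singleton_subset_iff.2 hx)).1 (Finset.singleton_nonempty x)
  have h2 := UnqE2_card (F := F) w {x}
  rw [Finset.card_singleton] at h2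
  have h4 := UnqE2_mono (F := F) w B (Finset.sdiff_subset (s := D) (t := {x}))
  constructor <;> omega

private theorem UnqE2_two (h3 : UThree F w B D) {e x : E} (he : e ∈ D) (hx : x ∈ D) (hne : e ≠ x) :
    2 ≤ rk F w ⊥ {e, x} ∧ rk F w B D ≤ rk F w B (D \ {e, x}) := by
  have hsub : ({e, x} : Finset E) ⊆ D := by
    intro z hz
    rw [Finset.mem_insert, Finset.mem_singleton] at hz
    rcases hz with rfl | rfl
    · exact he
    · exact hx
  have hc : ({e, x} : Finset E).card = 2 := Finset.card_pair hne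
  have h1 := (h3 {e, x} hsub).2 hc.ge
  have h2 := UnqE2_card (F := F) w {e, x}
  rw [hc] at h2
  have h4 := UnqE2_mono (F := F) w B (Finset.sdiff_subset (s := D) (t := {e, x}))
  constructor <;> omega

/-- `rk F w B (D.erase e) = rk F w B D`; for `P` nonempty `rk F w B D + 1 ≤ ...`: for `2 ≤ P.card`
from `UThree` for `P` (`rk F w B (D \ P) ≤ rk F w B (D.erase e \ P) + 1`), for `P = {x}` from
`UThree` for `{e, x}` (rank at most two, so `rk F w B D ≤ rk F w B (D \ {e, x})`) and
`rk F w ⊥ {x} ≥ 1`. -/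
theorem unq_del_good (h3 : UThree F w B D) {e : E} (he : e ∈ D)
    (hb : ∀ P, P ⊆ D.erase e → rk F w ⊥ P + rk F w B (D.erase e \ P) ≤ rk F w B D + 1 →
      P.card ≤ 2) : UGood F w B (D.erase e) := by
  have hE : D.erase e = D \ {e} := (Finset.sdiff_singleton_eq_erase e D).symm
  have h1 : rk F w B D ≤ rk F w B (D.erase e) := by
    rw [hE]
    exact (UnqE2_one h3 he).2
  have h2 : rk F w B (D.erase e) ≤ rk F w B D := UnqE2_mono w B (Finset.erase_subset e D)
  intro P hP
  have hPD : P ⊆ D := hP.trans (Finset.erase_subset e D)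
  refine ⟨fun hne => ?_, fun h => hb P hP (by omega)⟩
  rcases Nat.lt_or_ge P.card 2 with hc | hc
  · -- one element
    have hc1 : P.card = 1 := by
      have := hne.card_pos
      omega
    obtain ⟨x, rfl⟩ := Finset.card_eq_one.1 hc1
    have hx : x ∈ D.erase e := hP (Finset.mem_singleton_self x)
    have hxe : e ≠ x := fun h => (Finset.ne_of_mem_erase hx) h.symm
    have hxD : x ∈ D := Finset.mem_of_mem_erase hx
    have h4 := (UnqE2_one h3 hxD).1
    have h5 := (UnqE2_two h3 he hxD hxe).2
    have h6 : D.erase e \ {x} = D \ {e, x} := by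
      ext z
      simp only [Finset.mem_sdiff, Finset.mem_erase, Finset.mem_singleton, Finset.mem_insert]
      tauto
    rw [h6]
    omega
  · have h4 := (h3 P hPD).2 hc
    have h5 : rk F w B (D \ P) ≤ rk F w B (D.erase e \ P) + 1 := by
      have h6 : D \ P ⊆ insert e (D.erase e \ P) := by
        intro z hz
        rw [Finset.mem_sdiff] at hz
        rw [Finset.mem_insert, Finset.mem_sdiff, Finset.mem_erase]
        by_cases hze : z = e
        · exact Or.inl hze
        · exact Or.inr ⟨⟨hze, hz.1⟩, hz.2⟩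
      exact (UnqE2_mono w B h6).trans ((rk_isRk (F := F) w B).ins e _)
    omega

/-- the quotient by `w e`, `w e ∉ B`; `rk_qv`, `rk_qvB`, `rk_insert_bot`, `rk_insert_B`. For `P`
nonempty: `rk F w ⊥ (insert e P) + rk F w B (D \ P) ≥ rk F w B D + 2`: for `2 ≤ P.card`
`rk ⊥ (insert e P) ≥ rk ⊥ P`; for `P = {x}` `rk F w ⊥ {e, x} = 2` (`UThree` for `{e, x}`), and
`rk F w B (D \ {x}) = rk F w B D`. -/
theorem unq_con_good (h3 : UThree F w B D) {e : E} (he : e ∈ D) (heB : w e ∉ B)
    (hb : ∀ Q, Q ⊆ D.erase e → rk F w ⊥ (insert e Q) + rk F w B (D \ Q) ≤ rk F w B D + 2 →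
      Q.card ≤ 2) : UGood F (qv F (w e) w) (qB F (w e) B) (D.erase e) := by
  have hu : w e ≠ 0 := fun h => heB (h ▸ B.zero_mem)
  have q0 : ∀ Z : Finset E, rk F (qv F (w e) w) ⊥ Z + 1 = rk F w ⊥ (insert e Z) := fun Z => by
    rw [rk_qv hu, rk_insert_bot rfl]
  have qB' : ∀ Z : Finset E, rk F (qv F (w e) w) (qB F (w e) B) Z + 1 = rk F w B (insert e Z) :=
    fun Z => by rw [rk_qvB hu, rk_insert_B rfl]
  intro P hP
  have hPD : P ⊆ D := hP.trans (Finset.erase_subset e D)
  have heP : e ∉ P := fun h => (Finset.ne_of_mem_erase (hP h)) rfl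
  have e1 : insert e (D.erase e \ P) = D \ P := by
    ext z
    rw [Finset.mem_insert, Finset.mem_sdiff, Finset.mem_erase, Finset.mem_sdiff]
    constructor
    · rintro (rfl | ⟨⟨-, h1⟩, h2⟩)
      · exact ⟨he, heP⟩
      · exact ⟨h1, h2⟩
    · rintro ⟨h1, h2⟩
      by_cases hze : z = e
      · exact Or.inl hze
      · exact Or.inr ⟨⟨hze, h1⟩, h2⟩
  have e2 : insert e (D.erase e) = D := Finset.insert_erase he
  have f1 := q0 P
  have f2 := qB' (D.erase e \ P)
  have f3 := qB' (D.erase e)
  rw [e1] at f2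
  rw [e2] at f3
  refine ⟨fun hne => ?_, fun h => hb P hP (by omega)⟩
  have key : rk F w B D + 2 ≤ rk F w ⊥ (insert e P) + rk F w B (D \ P) := by
    rcases Nat.lt_or_ge P.card 2 with hc | hc
    · have hc1 : P.card = 1 := by
        have := hne.card_pos
        omega
      obtain ⟨x, rfl⟩ := Finset.card_eq_one.1 hc1
      have hx : x ∈ D.erase e := hP (Finset.mem_singleton_self x)
      have hxe : e ≠ x := fun h => (Finset.ne_of_mem_erase hx) h.symm
      have hxD : x ∈ D := Finset.mem_of_mem_erase hx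
      have h4 := (UnqE2_one h3 hxD).2
      have h5 := (UnqE2_two h3 he hxD hxe).1
      omega
    · have h4 := (h3 P hPD).2 hc
      have h5 := UnqE2_mono (F := F) w ⊥ (Finset.subset_insert e P)
      omega
  omega

end Pool.MP_4929df_co.H92
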