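import Pool.Agent.W_4929df_h92.UnqC
import Pool.Agent.W_4929df_h92.BlkC

/-!
Relative uniqueness, the linking lemma.
-/

set_option autoImplicit false

namespace Pool.MP_4929df_co.H92

open Submodule

private theorem UnqF_inl {F : Type} [Field F] {E : Type} [DecidableEq E] {V : Type} [AddCommGroup V]
    [Module F V] {n : ℕ} (w : E → V) (β : Fin n → V) (A : Finset E) :
    Sp F (Sum.elim w β) (A.map Function.Embedding.inl) = Sp F w A := by
  unfold Sp
  congr 1
  ext z
  simp

private theorem UnqF_inr {F : Type} [Field F] {E : Type} [DecidableEq E] {V : Type} [AddCommGroup V]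
    [Module F V] {n : ℕ} (w : E → V) (B : Submodule F V) (β : Module.Basis (Fin n) F B) :
    Sp F (Sum.elim w (fun i => (β i : V))) ((Finset.univ : Finset (Fin n)).map Function.Embedding.inr) = B := by
  have h1 : Sum.elim w (fun i => (β i : V)) '' (((Finset.univ : Finset (Fin n)).map
      (Function.Embedding.inr (α := E)) : Finset (E ⊕ Fin n)) : Set (E ⊕ Fin n)) =
      B.subtype '' (Set.range β) := by
    ext z
    simp
  unfold Sp
  rw [h1, ← Submodule.map_span, β.span_eq, Submodule.map_top, Submodule.range_subtype]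

/-- Linking of the vectors `a, b` to the subspace `B`. Take a basis `β : Fin n → V` of `B`, the family
`v : E ⊕ Fin n → V`, `v (inl x) = w x`, `v (inr i) = β i`, and apply `link_vec` with `U = ⊥`,
`S = univ.map inr`, `R.map inl` (`Sp v (A.map inl) = Sp w A`, `Sp v S = B`; every subset of `R.map inl`
is of the form `A.map inl`). It gives `T ⊆ R` with `Sp w T ⊔ B = Sp w R ⊔ B`,
`finrank (Sp w T ⊔ B) = finrank B + T.card`, so `Disjoint (Sp w T) B`, and `Ind2 (Sp w T) a b`. Then
`a, b ∈ Sp w T ⊔ B`; the `B`-parts are independent because `a, b` are independent modulo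
`Sp w T`. -/
theorem unq_link {F : Type} [Field F] {E : Type} [DecidableEq E] {V : Type} [AddCommGroup V]
    [Module F V] [FiniteDimensional F V] (w : E → V) (B : Submodule F V) (R : Finset E) {a b : V}
    (ha : a ∈ Sp F w R ⊔ B) (hb : b ∈ Sp F w R ⊔ B)
    (h : ∀ A, A ⊆ R → rk F w B R + 2 ≤ rk F w (span F {a, b}) A + rk F w B (R \ A)) :
    ∃ T, T ⊆ R ∧ Disjoint (Sp F w T) B ∧ ∃ z ∈ Sp F w T, ∃ z' ∈ Sp F w T, ∃ b₁ ∈ B, ∃ b₂ ∈ B,
      a = z + b₁ ∧ b = z' + b₂ ∧ ∀ x y : F, x • b₁ + y • b₂ = 0 → x = 0 ∧ y = 0 := by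
  classical
  set β := Module.finBasis F B with hβ
  set v : E ⊕ Fin (Module.finrank F B) → V := Sum.elim w (fun i => (β i : V)) with hv
  set S : Finset (E ⊕ Fin (Module.finrank F B)) :=
    (Finset.univ : Finset (Fin (Module.finrank F B))).map Function.Embedding.inr with hS
  have hl : ∀ A : Finset E, Sp F v (A.map Function.Embedding.inl) = Sp F w A := fun A => UnqF_inl w _ A
  have hr : Sp F v S = B := UnqF_inr w B β
  have hAS : ∀ A : Finset E, rk F v ⊥ (A.map Function.Embedding.inl ∪ S) = rk F w B A := by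
    intro A
    unfold rk
    rw [Sp_union, hl, hr, sup_bot_eq]
  have hAb : ∀ A : Finset E, rk F v (⊥ ⊔ span F {a, b}) (A.map Function.Embedding.inl) =
      rk F w (span F {a, b}) A := by
    intro A
    unfold rk
    rw [hl, bot_sup_eq]
  have hdis : ∀ A : Finset E, Disjoint (A.map Function.Embedding.inl) S := by
    intro A
    rw [Finset.disjoint_left]
    intro z hz hz'
    obtain ⟨x, -, rfl⟩ := Finset.mem_map.1 hz
    obtain ⟨y, -, hy⟩ := Finset.mem_map.1 hz'
    simp at hy
  have hab : span F {a, b} ≤ Sp F v (R.map Function.Embedding.inl ∪ S) ⊔ (⊥ : Submodule F V) := by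
    rw [Sp_union, hl, hr, sup_bot_eq, Submodule.span_le]
    intro z hz
    rcases hz with hz | hz
    · rw [hz]
      exact ha
    · rw [Set.mem_singleton_iff] at hz
      rw [hz]
      exact hb
  obtain ⟨T', hT', h1, h2, h3⟩ := link_vec (F := F) (v := v) (U := (⊥ : Submodule F V)) (S := S)
    (R := R.map Function.Embedding.inl) (a := a) (b := b) (hdis R) hab (by
      intro A' hA'
      obtain ⟨A, hA, rfl⟩ := Finset.subset_map_iff.1 hA'
      rw [hAS, hAb, ← Finset.map_sdiff, hAS, finrank_bot, Nat.add_zero]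
      exact h A hA)
  obtain ⟨T, hT, rfl⟩ := Finset.subset_map_iff.1 hT'
  rw [hAS, hAS] at h1
  rw [hAS, Finset.card_map] at h2
  have h4 : rk F v ⊥ S = Module.finrank F B := by
    unfold rk
    rw [hr, sup_bot_eq]
  rw [h4] at h2
  rw [hl, sup_bot_eq] at h3
  have h5 : Sp F w T ⊔ B = Sp F w R ⊔ B := sup_eq_of_rk_le hT h1.ge
  have h6 : Disjoint (Sp F w T) B := by
    rw [disjoint_iff, ← Submodule.finrank_eq_zero (R := F)]
    have e1 := Submodule.finrank_sup_add_finrank_inf_eq (Sp F w T) B
    have e2 : Module.finrank F (Sp F w T) ≤ T.card := by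
      have e3 := (rk_isRk w (⊥ : Submodule F V)).le_card T
      have e4 : rk F w ⊥ T = Module.finrank F (Sp F w T) := by
        unfold rk
        rw [sup_bot_eq]
      have e5 : rk F w (⊥ : Submodule F V) ∅ = 0 := by
        rw [rk_empty, finrank_bot]
      omega
    have e6 : rk F w B T = Module.finrank F (Sp F w T ⊔ B : Submodule F V) := rfl
    omega
  rw [← h5] at ha hb
  obtain ⟨z, hz, b₁, hb₁, e1⟩ := mem_sup.1 ha
  obtain ⟨z', hz', b₂, hb₂, e2⟩ := mem_sup.1 hb
  refine ⟨T, hT, h6, z, hz, z', hz', b₁, hb₁, b₂, hb₂, e1.symm, e2.symm, ?_⟩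
  intro x y hxy
  apply h3 x y
  have e3 : x • a + y • b = x • z + y • z' := by
    rw [← e1, ← e2, smul_add, smul_add, add_add_add_comm, hxy, add_zero]
  rw [e3]
  exact add_mem (smul_mem _ _ hz) (smul_mem _ _ hz')

end Pool.MP_4929df_co.H92
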