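import Pool.Agent.W_4929df_h92.UnqE2
import Pool.Agent.W_4929df_h92.UnqF

/-!
Relative uniqueness, the deletion step and the contraction step.
-/

set_option autoImplicit false

namespace Pool.MP_4929df_co.H92

open Submodule

variable {F : Type} [Field F] {E : Type} [DecidableEq E] {V : Type} [AddCommGroup V] [Module F V]
  [FiniteDimensional F V] {w w' : E → V} {B : Submodule F V} {D : Finset E}

/-- Deletion step, special case: `w'` and `w` agree on `D.erase e`. Suppose `w' e` is not a multiple
of `w e` (`w e ≠ 0`, `w' e ≠ 0`). Both are in `Sp w (D.erase e) ⊔ B` (`UThree`: ranks). If the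
hypothesis of `unq_link` holds for `R = D.erase e`, `a = w e`, `b = w' e`: then `b₁` spans
`Sp w (insert e T) ⊓ B` (an element `s + x • w e`, `s ∈ Sp w T`, is in `B` iff it is `x • b₁`) and `b₂`
spans `Sp w' (insert e T) ⊓ B`; `UH.cap` gives a contradiction. Otherwise there is `A ⊆ D.erase e`
with `rk F w (span {w e, w' e}) A + rk F w B (D.erase e \ A) ≤ rk F w B D + 1`, and
`rk F w ⊥ (insert e A) ≤ rk F w (span {w e, w' e}) A`; by `UThree` `insert e A` has one element,
`A = ∅`, but `rk F w (span {w e, w' e}) ∅ = 2`. -/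
theorem unq_del_aux (h : UH F w w' B D) (h3 : UThree F w B D) {e : E} (he : e ∈ D)
    (heq : ∀ d ∈ D.erase e, w' d = w d) : ∃ t : F, t ≠ 0 ∧ w' e = t • w e := by
  classical
  set R : Finset E := D.erase e with hR
  have hRD : R ⊆ D := Finset.erase_subset e D
  have heR : e ∉ R := Finset.notMem_erase e D
  have hins : insert e R = D := Finset.insert_erase he
  have hsd : D \ {e} = R := Finset.sdiff_singleton_eq_erase e D
  have hPe : ({e} : Finset E) ⊆ D := Finset.singleton_subset_iff.2 he
  have hcard : rk F w ⊥ {e} ≤ 1 := by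
    have h1 := (rk_isRk (F := F) w ⊥).le_card {e}
    rw [rk_empty, finrank_bot, zero_add, Finset.card_singleton] at h1
    exact h1
  have h31 := (h3 {e} hPe).1 (Finset.singleton_nonempty e)
  rw [hsd] at h31
  have hmono : rk F w B R ≤ rk F w B D := (rk_isRk (F := F) w B).mono R D hRD
  have hr1 : rk F w ⊥ {e} = 1 := by omega
  have hrR : rk F w B R = rk F w B D := by omega
  -- the vectors are not zero
  have hz : ∀ v : E → V, rk F v ⊥ {e} = 1 → v e ≠ 0 := by
    intro v hv h0
    unfold rk at hv
    rw [sup_bot_eq, Sp_singleton, h0, Submodule.span_zero_singleton, finrank_bot] at hv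
    omega
  have hwe : w e ≠ 0 := hz w hr1
  have hwe' : w' e ≠ 0 := hz w' ((h.rank {e} hPe).symm.trans hr1)
  -- `w` and `w'` have the same spans inside `R`
  have hSp : ∀ T, T ⊆ R → Sp F w' T = Sp F w T := by
    intro T hT
    apply le_antisymm
    · rw [Sp_le]
      intro x hx
      rw [heq x (hT hx)]
      exact mem_Sp hx
    · rw [Sp_le]
      intro x hx
      rw [← heq x (hT hx)]
      exact mem_Sp hx
  have hSD : Sp F w R ⊔ B = Sp F w D ⊔ B := sup_eq_of_rk_le hRD hrR.ge
  have hrR' : rk F w' B D ≤ rk F w' B R := by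
    rw [← h.rkB (Finset.Subset.refl D), ← h.rkB hRD, hrR]
  have hSD' : Sp F w' R ⊔ B = Sp F w' D ⊔ B := sup_eq_of_rk_le hRD hrR'
  have ha : w e ∈ Sp F w R ⊔ B := by
    rw [hSD]
    exact (le_sup_left : Sp F w D ≤ Sp F w D ⊔ B) (mem_Sp he)
  have hb : w' e ∈ Sp F w R ⊔ B := by
    rw [← hSp R (Finset.Subset.refl R), hSD']
    exact (le_sup_left : Sp F w' D ≤ Sp F w' D ⊔ B) (mem_Sp he)
  by_contra hcon
  have hno : ∀ t : F, w' e ≠ t • w e := by
    intro t ht
    refine hcon ⟨t, ?_, ht⟩
    rintro rfl
    rw [zero_smul] at ht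
    exact hwe' ht
  by_cases hlink : ∀ A, A ⊆ R → rk F w B R + 2 ≤ rk F w (span F {w e, w' e}) A + rk F w B (R \ A)
  · obtain ⟨T, hT, hdis, z, hzT, z', hzT', b₁, hb₁, b₂, hb₂, e1, e2, hind⟩ :=
      unq_link w B R ha hb hlink
    have hTD : insert e T ⊆ D := by
      rw [← hins]
      exact Finset.insert_subset_insert e hT
    have h1 : b₁ ∈ Sp F w (insert e T) ⊓ B := by
      refine Submodule.mem_inf.2 ⟨?_, hb₁⟩
      have h2 : b₁ = w e - z := by
        rw [e1]
        abel
      rw [h2]
      exact sub_mem (mem_Sp (Finset.mem_insert_self e T)) (Sp_mono (Finset.subset_insert e T) hzT)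
    rw [h.cap (insert e T) hTD] at h1
    have h2 := (Submodule.mem_inf.1 h1).1
    rw [Sp_insert, hSp T hT] at h2
    obtain ⟨y, hy, s, hs, hys⟩ := Submodule.mem_sup.1 h2
    obtain ⟨x, hx⟩ := Submodule.mem_span_singleton.1 hy
    have h4 : b₁ - x • b₂ = x • z' + s := by
      rw [← hys, ← hx, e2, smul_add]
      abel
    have h5 : b₁ - x • b₂ ∈ Sp F w T := by
      rw [h4]
      exact add_mem (Submodule.smul_mem _ _ hzT') hs
    have h6 : b₁ - x • b₂ ∈ B := sub_mem hb₁ (Submodule.smul_mem _ _ hb₂)
    have h7 : b₁ - x • b₂ = 0 := (Submodule.disjoint_def.1 hdis) _ h5 h6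
    have h8 := hind 1 (-x) (by
      rw [one_smul, neg_smul, ← sub_eq_add_neg]
      exact h7)
    exact one_ne_zero h8.1
  · push Not at hlink
    obtain ⟨A, hA, hAlt⟩ := hlink
    have heA : e ∉ A := fun h' => heR (hA h')
    have hPD : insert e A ⊆ D := by
      rw [← hins]
      exact Finset.insert_subset_insert e hA
    have hDP : D \ insert e A = R \ A := by
      ext x
      rw [Finset.mem_sdiff, Finset.mem_insert, Finset.mem_sdiff, hR, Finset.mem_erase]
      tauto
    have hle : rk F w ⊥ (insert e A) ≤ rk F w (span F {w e, w' e}) A := by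
      unfold rk
      apply Submodule.finrank_mono
      rw [sup_bot_eq, Sp_insert]
      refine sup_le ?_ le_sup_left
      refine le_trans ?_ le_sup_right
      rw [Submodule.span_singleton_le_iff_mem]
      exact Submodule.subset_span (Set.mem_insert _ _)
    have hc : (insert e A).card < 2 := by
      by_contra hc
      have h4 := (h3 (insert e A) hPD).2 (by omega)
      rw [hDP] at h4
      omega
    rw [Finset.card_insert_of_notMem heA] at hc
    have hA0 : A = ∅ := Finset.card_eq_zero.1 (by omega)
    subst hA0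
    have h2 : Module.finrank F (span F {w e, w' e}) = 2 := by
      have hli : LinearIndependent F ![w e, w' e] := by
        rw [LinearIndependent.pair_iff' hwe]
        intro t ht
        exact hno t ht.symm
      have h5 := finrank_span_eq_card hli
      rw [Matrix.range_cons, Matrix.range_cons, Matrix.range_empty, Set.union_empty,
        Set.singleton_union, Fintype.card_fin] at h5
      exact h5
    rw [rk_empty, h2, Finset.sdiff_empty] at hAlt
    omega

/-- Deletion step: replace `w` by `w₁ d = c d • g (w d)` (`c e = 1`); `unq_del_aux` for `w₁, w'`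
(`UEq.uh`, `UH.trans`; `UThree` passes to `w₁`). -/
theorem unq_del (h : UH F w w' B D) (h3 : UThree F w B D) {e : E} (he : e ∈ D)
    (hq : UEq F w w' B (D.erase e)) : UEq F w w' B D := by
  classical
  obtain ⟨g, c, hB, hx⟩ := hq
  set w₁ : E → V := fun d => (Function.update c e 1 d) • g (w d) with hw₁
  have hE1 : UEq F w w₁ B D := by
    refine ⟨g, Function.update c e 1, hB, fun x hxD => ⟨?_, rfl⟩⟩
    by_cases hxe : x = e
    · subst hxe
      rw [Function.update_self]
      exact one_ne_zero
    · rw [Function.update_of_ne hxe]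
      exact (hx x (Finset.mem_erase.2 ⟨hxe, hxD⟩)).1
  have hU1 : UH F w w₁ B D := hE1.uh
  have hU2 : UH F w₁ w' B D := hU1.symm.trans h
  have h31 : UThree F w₁ B D := by
    intro P hP
    have h4 := h3 P hP
    rw [← hU1.rkB (Finset.Subset.refl D), ← hU1.rkB (Z := D \ P) Finset.sdiff_subset,
      ← hU1.rank P hP]
    exact h4
  obtain ⟨t, ht, ht'⟩ := unq_del_aux hU2 h31 he (by
    intro d hd
    have h5 := (hx d hd).2
    rw [hw₁]
    simp only
    rw [Function.update_of_ne (Finset.ne_of_mem_erase hd)]
    exact h5)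
  refine ⟨g, Function.update c e t, hB, fun x hxD => ?_⟩
  by_cases hxe : x = e
  · subst hxe
    rw [Function.update_self]
    refine ⟨ht, ?_⟩
    rw [ht', hw₁]
    simp only
    rw [Function.update_self, one_smul]
  · rw [Function.update_of_ne hxe]
    exact hx x (Finset.mem_erase.2 ⟨hxe, hxD⟩)

end Pool.MP_4929df_co.H92
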