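import Pool.Agent.W_4929df_h92.UnqG

/-!
Relative uniqueness, the contraction step, first case.
-/

set_option autoImplicit false

namespace Pool.MP_4929df_co.H92

open Submodule

variable {F : Type} [Field F] {E : Type} [DecidableEq E] {V : Type} [AddCommGroup V] [Module F V]
  [FiniteDimensional F V] {w w' : E → V} {B : Submodule F V} {D : Finset E}

/-- an isomorphism between two subspaces extends to the whole space -/
private theorem UnqG2_ext_iso {W W' : Submodule F V} (φ : W ≃ₗ[F] W') :
    ∃ g : V ≃ₗ[F] V, ∀ x : W, g x = φ x := by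
  obtain ⟨C, hC⟩ := Submodule.exists_isCompl W
  obtain ⟨C', hC'⟩ := Submodule.exists_isCompl W'
  have h1 := finrank_add_eq_of_isCompl hC
  have h2 := finrank_add_eq_of_isCompl hC'
  have h3 := φ.finrank_eq
  have h4 : Module.finrank F C = Module.finrank F C' := by omega
  let ψ : C ≃ₗ[F] C' := LinearEquiv.ofFinrankEq C C' h4
  refine ⟨(prodEquivOfIsCompl W C hC).symm ≪≫ₗ (φ.prodCongr ψ) ≪≫ₗ prodEquivOfIsCompl W' C' hC',
    fun x => ?_⟩
  simp

/-- a subspace of `V × V` which meets both factors in zero is part of the graph of an isomorphism -/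
private theorem UnqG2_ext (N : Submodule F (V × V)) (h1 : ∀ v, ((0 : V), v) ∈ N → v = 0)
    (h2 : ∀ v, (v, (0 : V)) ∈ N → v = 0) :
    ∃ g : V ≃ₗ[F] V, ∀ v v', (v, v') ∈ N → g v = v' := by
  set f := (LinearMap.fst F V V).domRestrict N with hf
  set k := (LinearMap.snd F V V).domRestrict N with hk
  have hf1 : Function.Injective f := by
    rw [← LinearMap.ker_eq_bot, LinearMap.ker_eq_bot']
    rintro ⟨⟨a, b⟩, hn⟩ h
    have ha : a = 0 := h
    subst ha
    have hb := h1 b hn
    subst hb
    rfl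
  have hk1 : Function.Injective k := by
    rw [← LinearMap.ker_eq_bot, LinearMap.ker_eq_bot']
    rintro ⟨⟨a, b⟩, hn⟩ h
    have hb : b = 0 := h
    subst hb
    have ha := h2 a hn
    subst ha
    rfl
  obtain ⟨g, hg⟩ := UnqG2_ext_iso
    ((LinearEquiv.ofInjective f hf1).symm ≪≫ₗ LinearEquiv.ofInjective k hk1)
  refine ⟨g, fun v v' hn => ?_⟩
  have h3 := hg ((LinearEquiv.ofInjective f hf1) ⟨(v, v'), hn⟩)
  rw [LinearEquiv.trans_apply, LinearEquiv.symm_apply_apply] at h3
  exact h3

/-- dimension count -/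
private theorem UnqG2_dim (N : Submodule F (V × V)) {W W' : Submodule F V}
    (hW : N.map (LinearMap.fst F V V) = W) (hW' : N.map (LinearMap.snd F V V) = W')
    (hd : Module.finrank F W = Module.finrank F W') :
    (∀ v, ((0 : V), v) ∈ N → v = 0) ↔ (∀ v, (v, (0 : V)) ∈ N → v = 0) := by
  have e1 := LinearMap.finrank_range_add_finrank_ker ((LinearMap.fst F V V).domRestrict N)
  have e2 := LinearMap.finrank_range_add_finrank_ker ((LinearMap.snd F V V).domRestrict N)
  rw [LinearMap.range_domRestrict, hW] at e1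
  rw [LinearMap.range_domRestrict, hW'] at e2
  have k1 : LinearMap.ker ((LinearMap.fst F V V).domRestrict N) = ⊥ ↔
      ∀ v, ((0 : V), v) ∈ N → v = 0 := by
    rw [LinearMap.ker_eq_bot']
    constructor
    · intro h v hv
      have h1 := h ⟨(0, v), hv⟩ rfl
      have h2 := congrArg (fun z : N => z.1.2) h1
      exact h2
    · rintro h ⟨⟨a, b⟩, hn⟩ h0
      have ha : a = 0 := h0
      subst ha
      have hb := h b hn
      subst hb
      rfl
  have k2 : LinearMap.ker ((LinearMap.snd F V V).domRestrict N) = ⊥ ↔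
      ∀ v, (v, (0 : V)) ∈ N → v = 0 := by
    rw [LinearMap.ker_eq_bot']
    constructor
    · intro h v hv
      have h1 := h ⟨(v, 0), hv⟩ rfl
      have h2 := congrArg (fun z : N => z.1.1) h1
      exact h2
    · rintro h ⟨⟨a, b⟩, hn⟩ h0
      have hb : b = 0 := h0
      subst hb
      have ha := h a hn
      subst ha
      rfl
  rw [← k1, ← k2, ← Submodule.finrank_eq_zero, ← Submodule.finrank_eq_zero]
  omega

/-- Contraction step, first case. `N` is the span of the pairs `(w d, w' d)`, `d ∈ D.erase e`, and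
`(b, b)`, `b ∈ B`; `u = w e = w' e`; all `(v, v') ∈ N` have `v' - v ∈ ⟨u⟩`. If `(0, u) ∉ N` or
`(u, 0) ∉ N`, then `N` is the graph of an isomorphism from `Sp w (D.erase e) ⊔ B` onto
`Sp w' (D.erase e) ⊔ B` (both of dimension `rk F w B D`; the two projections of `N` are onto; if one
of them is injective then so is the other by dimension), which maps `u` to a nonzero multiple of
`u` (`u` is in both spaces); extend it to `V`. -/
theorem unq_con_graph (h : UH F w w' B D) (h3 : UThree F w B D) {e : E} (he : e ∈ D)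
    (hu : w' e = w e) (hc : ∀ d ∈ D, ∃ t : F, w' d = w d + t • w e)
    (hN : (0, w e) ∉ span F ({z : V × V | ∃ d ∈ D.erase e, z = (w d, w' d)} ∪
        {z : V × V | ∃ b ∈ B, z = (b, b)}) ∨
      (w e, 0) ∉ span F ({z : V × V | ∃ d ∈ D.erase e, z = (w d, w' d)} ∪
        {z : V × V | ∃ b ∈ B, z = (b, b)})) : UEq F w w' B D := by
  set N : Submodule F (V × V) := span F ({z : V × V | ∃ d ∈ D.erase e, z = (w d, w' d)} ∪
        {z : V × V | ∃ b ∈ B, z = (b, b)}) with hNdef
  -- ranks
  have hsub : D.erase e ⊆ D := Finset.erase_subset _ _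
  have he1 : ({e} : Finset E) ⊆ D := Finset.singleton_subset_iff.2 he
  have hr := (h3 {e} he1).1 (Finset.singleton_nonempty e)
  rw [Finset.sdiff_singleton_eq_erase] at hr
  have hmon : rk F w B (D.erase e) ≤ rk F w B D := by
    unfold rk
    exact finrank_mono (sup_le_sup_right (Sp_mono hsub) _)
  have hr1 : rk F w ⊥ {e} ≤ 1 := by
    unfold rk
    rw [Sp_singleton, sup_bot_eq]
    exact (finrank_span_le_card ({w e} : Set V)).trans (by simp)
  have hrk : rk F w B D ≤ rk F w B (D.erase e) := by omega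
  have hue : w e ≠ 0 := by
    intro h0
    have h1 : rk F w ⊥ {e} = 0 := by
      unfold rk
      rw [Sp_singleton, sup_bot_eq, h0, span_singleton_eq_bot.2 rfl, finrank_bot]
    omega
  have hW : w e ∈ Sp F w (D.erase e) ⊔ B := by
    rw [sup_eq_of_rk_le hsub hrk]
    exact mem_sup_left (mem_Sp he)
  have hrk' : rk F w' B D ≤ rk F w' B (D.erase e) := by
    rw [← h.rkB subset_rfl, ← h.rkB hsub]
    exact hrk
  have hW' : w' e ∈ Sp F w' (D.erase e) ⊔ B := by
    rw [sup_eq_of_rk_le hsub hrk']
    exact mem_sup_left (mem_Sp he)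
  have hdim : Module.finrank F (Sp F w (D.erase e) ⊔ B : Submodule F V) =
      Module.finrank F (Sp F w' (D.erase e) ⊔ B : Submodule F V) := h.rkB hsub
  -- projections
  have m1 : ∀ d ∈ D.erase e, (w d, w' d) ∈ N := fun d hd => subset_span (Or.inl ⟨d, hd, rfl⟩)
  have m2 : ∀ b ∈ B, (b, b) ∈ N := fun b hb => subset_span (Or.inr ⟨b, hb, rfl⟩)
  have p1 : N.map (LinearMap.fst F V V) = Sp F w (D.erase e) ⊔ B := by
    refine le_antisymm ?_ (sup_le ?_ ?_)
    · rw [map_le_iff_le_comap, hNdef, span_le]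
      rintro z (⟨d, hd, rfl⟩ | ⟨b, hb, rfl⟩)
      · exact mem_sup_left (mem_Sp hd)
      · exact mem_sup_right hb
    · exact Sp_le.2 fun d hd => ⟨_, m1 d hd, rfl⟩
    · exact fun b hb => ⟨_, m2 b hb, rfl⟩
  have p2 : N.map (LinearMap.snd F V V) = Sp F w' (D.erase e) ⊔ B := by
    refine le_antisymm ?_ (sup_le ?_ ?_)
    · rw [map_le_iff_le_comap, hNdef, span_le]
      rintro z (⟨d, hd, rfl⟩ | ⟨b, hb, rfl⟩)
      · exact mem_sup_left (mem_Sp hd)
      · exact mem_sup_right hb
    · exact Sp_le.2 fun d hd => ⟨_, m1 d hd, rfl⟩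
    · exact fun b hb => ⟨_, m2 b hb, rfl⟩
  -- differences
  have hdiff : ∀ z ∈ N, z.2 - z.1 ∈ span F {w e} := by
    intro z hz
    have h1 : N ≤ (span F {w e}).comap (LinearMap.snd F V V - LinearMap.fst F V V) := by
      rw [hNdef, span_le]
      rintro z (⟨d, hd, rfl⟩ | ⟨b, hb, rfl⟩)
      · obtain ⟨t, ht⟩ := hc d (hsub hd)
        show w' d - w d ∈ span F {w e}
        rw [ht, add_sub_cancel_left]
        exact smul_mem _ _ (mem_span_singleton_self _)
      · show b - b ∈ span F {w e}
        rw [sub_self]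
        exact zero_mem _
    exact h1 hz
  have hd := UnqG2_dim N p1 p2 hdim
  have hinj : (∀ v, ((0 : V), v) ∈ N → v = 0) ∧ (∀ v, (v, (0 : V)) ∈ N → v = 0) := by
    rcases hN with hN | hN
    · have h1 : ∀ v, ((0 : V), v) ∈ N → v = 0 := by
        intro v hv
        have h2 := hdiff _ hv
        simp only [sub_zero] at h2
        obtain ⟨t, ht⟩ := mem_span_singleton.1 h2
        by_contra hv0
        have ht0 : t ≠ 0 := by
          rintro rfl
          rw [zero_smul] at ht
          exact hv0 ht.symm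
        apply hN
        have h4 := N.smul_mem t⁻¹ hv
        rw [← ht] at h4
        simpa [ht0] using h4
      exact ⟨h1, hd.1 h1⟩
    · have h1 : ∀ v, (v, (0 : V)) ∈ N → v = 0 := by
        intro v hv
        have h2 := hdiff _ hv
        simp only [zero_sub] at h2
        rw [neg_mem_iff] at h2
        obtain ⟨t, ht⟩ := mem_span_singleton.1 h2
        by_contra hv0
        have ht0 : t ≠ 0 := by
          rintro rfl
          rw [zero_smul] at ht
          exact hv0 ht.symm
        apply hN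
        have h4 := N.smul_mem t⁻¹ hv
        rw [← ht] at h4
        simpa [ht0] using h4
      exact ⟨hd.2 h1, h1⟩
  obtain ⟨g, hg⟩ := UnqG2_ext N hinj.1 hinj.2
  -- the image of `u`
  obtain ⟨s, hs0, hs⟩ : ∃ s : F, s ≠ 0 ∧ g (w e) = s • w e := by
    have h1 : w e ∈ N.map (LinearMap.fst F V V) := by
      rw [p1]
      exact hW
    obtain ⟨⟨a, b⟩, hz, hz1⟩ := h1
    have ha : a = w e := hz1
    subst ha
    have h2 := hdiff _ hz
    obtain ⟨t, ht⟩ := mem_span_singleton.1 h2
    have h4 : b = (1 + t) • w e := by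
      rw [add_smul, one_smul, ht]
      simp
    refine ⟨1 + t, ?_, ?_⟩
    · intro h0
      rw [h0, zero_smul] at h4
      subst h4
      exact hue (hinj.2 _ hz)
    · rw [hg _ _ hz, h4]
  refine ⟨g, fun x => if x = e then s⁻¹ else 1, fun b hb => hg _ _ (m2 b hb), fun x hx => ?_⟩
  by_cases hxe : x = e
  · subst hxe
    simp only [if_true]
    refine ⟨inv_ne_zero hs0, ?_⟩
    rw [hs, hu, smul_smul, inv_mul_cancel₀ hs0, one_smul]
  · simp only [if_neg hxe]
    refine ⟨one_ne_zero, ?_⟩
    rw [one_smul, hg _ _ (m1 x (Finset.mem_erase.2 ⟨hxe, hx⟩))]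

end Pool.MP_4929df_co.H92
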