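import Pool.Agent.W_4929df_h92.UnqG2

/-!
Relative uniqueness, the contraction step.
-/

set_option autoImplicit false

namespace Pool.MP_4929df_co.H92

open Submodule

variable {F : Type} [Field F] {E : Type} [DecidableEq E] {V : Type} [AddCommGroup V] [Module F V]
  [FiniteDimensional F V] {w w' : E → V} {B : Submodule F V} {D : Finset E}

/-- the pairs `(w d, w' d)` -/
private def UnqH_W (w w' : E → V) : E → V × V := fun d => (w d, w' d)

/-- the diagonal of `B` -/
private def UnqH_B (F : Type) [Field F] {V : Type} [AddCommGroup V] [Module F V]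
    (B : Submodule F V) : Submodule F (V × V) :=
  B.map (LinearMap.prod LinearMap.id LinearMap.id)

/-- the pairs whose difference is a multiple of `u` -/
private def UnqH_K (F : Type) [Field F] {V : Type} [AddCommGroup V] [Module F V]
    (u : V) : Submodule F (V × V) :=
  (span F {u}).comap (LinearMap.snd F V V - LinearMap.fst F V V)

omit [DecidableEq E] [FiniteDimensional F V] in
private theorem UnqH_mem_B {z : V × V} : z ∈ UnqH_B F B ↔ ∃ b ∈ B, z = (b, b) := by
  unfold UnqH_B
  rw [Submodule.mem_map]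
  constructor
  · rintro ⟨b, hb, rfl⟩
    exact ⟨b, hb, rfl⟩
  · rintro ⟨b, hb, rfl⟩
    exact ⟨b, hb, rfl⟩

omit [DecidableEq E] [FiniteDimensional F V] in
private theorem UnqH_mem_K {u : V} {z : V × V} :
    z ∈ UnqH_K F u ↔ ∃ t : F, z.2 = z.1 + t • u := by
  unfold UnqH_K
  rw [Submodule.mem_comap, mem_span_singleton]
  constructor
  · rintro ⟨t, ht⟩
    refine ⟨t, ?_⟩
    rw [ht]
    simp
  · rintro ⟨t, ht⟩
    refine ⟨t, ?_⟩
    simp [ht]

omit [FiniteDimensional F V] in
private theorem UnqH_span (w w' : E → V) (B : Submodule F V) (R : Finset E) :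
    span F ({z : V × V | ∃ d ∈ R, z = (w d, w' d)} ∪ {z : V × V | ∃ b ∈ B, z = (b, b)}) =
      Sp F (UnqH_W w w') R ⊔ UnqH_B F B := by
  rw [span_union]
  congr 1
  · unfold Sp
    congr 1
    ext z
    constructor
    · rintro ⟨d, hd, rfl⟩
      exact ⟨d, by exact_mod_cast hd, rfl⟩
    · rintro ⟨d, hd, rfl⟩
      exact ⟨d, by exact_mod_cast hd, rfl⟩
  · have h1 : {z : V × V | ∃ b ∈ B, z = (b, b)} = (UnqH_B F B : Set (V × V)) := by
      ext z
      exact UnqH_mem_B.symm
    rw [h1, span_eq]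

omit [DecidableEq E] [FiniteDimensional F V] in
private theorem UnqH_fst (w w' : E → V) (Z : Finset E) :
    (Sp F (UnqH_W w w') Z).map (LinearMap.fst F V V) = Sp F w Z := by
  unfold Sp
  rw [Submodule.map_span, ← Set.image_comp]
  rfl

omit [DecidableEq E] [FiniteDimensional F V] in
private theorem UnqH_snd (w w' : E → V) (Z : Finset E) :
    (Sp F (UnqH_W w w') Z).map (LinearMap.snd F V V) = Sp F w' Z := by
  unfold Sp
  rw [Submodule.map_span, ← Set.image_comp]
  rfl

omit [DecidableEq E] [FiniteDimensional F V] in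
private theorem UnqH_Bfst (B : Submodule F V) :
    (UnqH_B F B).map (LinearMap.fst F V V) = B := by
  ext b
  rw [Submodule.mem_map]
  constructor
  · rintro ⟨z, hz, rfl⟩
    obtain ⟨b, hb, rfl⟩ := UnqH_mem_B.1 hz
    exact hb
  · intro hb
    exact ⟨(b, b), UnqH_mem_B.2 ⟨b, hb, rfl⟩, rfl⟩

omit [DecidableEq E] in
private theorem UnqH_low {M : Submodule F (V × V)} {u : V} (hu : u ≠ 0)
    (h : ((0 : V), u) ∈ M) :
    Module.finrank F (M.map (LinearMap.fst F V V)) + 1 ≤ Module.finrank F M := by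
  have h1 := LinearMap.finrank_range_add_finrank_ker ((LinearMap.fst F V V).domRestrict M)
  rw [LinearMap.range_domRestrict] at h1
  have h2 : Module.finrank F (LinearMap.ker ((LinearMap.fst F V V).domRestrict M)) ≠ 0 := by
    intro h3
    rw [Submodule.finrank_eq_zero] at h3
    have h4 : (⟨((0 : V), u), h⟩ : M) ∈ LinearMap.ker ((LinearMap.fst F V V).domRestrict M) := by
      rw [LinearMap.mem_ker]
      rfl
    rw [h3, Submodule.mem_bot] at h4
    have h5 := congrArg (fun x : M => x.1.2) h4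
    exact hu h5
  omega

omit [DecidableEq E] in
private theorem UnqH_upp {M : Submodule F (V × V)} {u : V} (h : M ≤ UnqH_K F u) :
    Module.finrank F M ≤ Module.finrank F (M.map (LinearMap.fst F V V)) + 1 := by
  have h1 := LinearMap.finrank_range_add_finrank_ker ((LinearMap.fst F V V).domRestrict M)
  rw [LinearMap.range_domRestrict] at h1
  have h2 : Module.finrank F (LinearMap.ker ((LinearMap.fst F V V).domRestrict M)) ≤ 1 := by
    rw [← Submodule.finrank_map_subtype_eq M]
    have h3 : (LinearMap.ker ((LinearMap.fst F V V).domRestrict M)).map M.subtype ≤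
        span F {((0 : V), u)} := by
      rintro _ ⟨z, hz, rfl⟩
      have hz1 : z.1.1 = 0 := LinearMap.mem_ker.1 hz
      obtain ⟨t, ht⟩ := UnqH_mem_K.1 (h z.2)
      rw [hz1, zero_add] at ht
      rw [mem_span_singleton]
      refine ⟨t, ?_⟩
      refine Prod.ext ?_ ?_
      · simp [hz1]
      · simp [ht]
    refine (Submodule.finrank_mono h3).trans ?_
    simpa using finrank_span_le_card (R := F) ({((0 : V), u)} : Set (V × V))
  omega

omit [DecidableEq E] [FiniteDimensional F V] in
private theorem UnqH_BK (B : Submodule F V) (u : V) : UnqH_B F B ≤ UnqH_K F u := by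
  intro z hz
  obtain ⟨b, -, rfl⟩ := UnqH_mem_B.1 hz
  exact UnqH_mem_K.2 ⟨0, by simp⟩

omit [FiniteDimensional F V] in
private theorem UnqH_SK {u : V} (hc : ∀ d ∈ D, ∃ t : F, w' d = w d + t • u) {Z : Finset E}
    (hZ : Z ⊆ D) : Sp F (UnqH_W w w') Z ≤ UnqH_K F u := by
  rw [Sp_le]
  intro x hx
  exact UnqH_mem_K.2 (hc x (hZ hx))

/-- Contraction step, second case (see `unq_con_graph` for `N`). Let `W d = (w d, w' d)`,
`B₂ = {(b, b)}`, so `N = Sp W (D.erase e) ⊔ B₂`; `a = (u, 0)`, `a' = (0, u)` are in `N`. If the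
hypothesis of `unq_link` holds for `W, B₂, R = D.erase e, a, a'`, then `a = z + (b₁, b₁)`,
`a' = z' + (b₂, b₂)` with `z, z' ∈ Sp W T`; the second component of `z` is `-b₁`, so
`b₁ ∈ Sp w' T ⊓ B = Sp w T ⊓ B`; the first component of `z'` is `-b₂`, so `b₂ ∈ Sp w T ⊓ B`. Take
`ζ ∈ Sp W T` with first component `b₁`, second component `b₁ + t • u` (all elements of `N` have
`v' - v ∈ ⟨u⟩`), and `ζ' ∈ Sp W T` with first component `b₂` and second `b₂ + t' • u`. `t ≠ 0`,
`t' ≠ 0` or else `ζ` (`ζ'`) is in `Sp W T ⊓ B₂ = ⊥`, and `t' • ζ - t • ζ' ∈ Sp W T ⊓ B₂`, so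
`t' • b₁ = t • b₂`, contradiction to independence. So there is `A ⊆ D.erase e` with
`rk F W (span {a, a'}) A + rk F W B₂ (D.erase e \ A) ≤ rk F W B₂ (D.erase e) + 1`. Here
`rk F W (span {a, a'}) A = rk F w ⊥ (insert e A) + 1` (first projection of
`Sp W A ⊔ span {a, a'}`: image `Sp w (insert e A)`, kernel spanned by `(0, u)`),
`rk F W B₂ (D.erase e \ A) ≥ rk F w B (D.erase e \ A)`, `rk F W B₂ (D.erase e) = rk F w B D + 1`. By
`UThree` `insert e A` has one element, `A = ∅`, but `rk F W (span {a, a'}) ∅ = 2`. -/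
theorem unq_con_link (h : UH F w w' B D) (h3 : UThree F w B D) {e : E} (he : e ∈ D)
    (heB : w e ∉ B) (hu : w' e = w e) (hc : ∀ d ∈ D, ∃ t : F, w' d = w d + t • w e)
    (hN : (0, w e) ∈ span F ({z : V × V | ∃ d ∈ D.erase e, z = (w d, w' d)} ∪
        {z : V × V | ∃ b ∈ B, z = (b, b)}))
    (hN' : (w e, 0) ∈ span F ({z : V × V | ∃ d ∈ D.erase e, z = (w d, w' d)} ∪
        {z : V × V | ∃ b ∈ B, z = (b, b)})) : False := by
  have hu0 : w e ≠ 0 := fun h0 => heB (h0 ▸ B.zero_mem)
  rw [UnqH_span] at hN hN'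
  have hR : D.erase e ⊆ D := Finset.erase_subset _ _
  set u : V := w e with hudef
  set W : E → V × V := UnqH_W w w' with hW
  set B₂ : Submodule F (V × V) := UnqH_B F B with hB₂
  by_cases hl : ∀ A, A ⊆ D.erase e → rk F W B₂ (D.erase e) + 2 ≤
      rk F W (span F {((u, 0) : V × V), (0, u)}) A + rk F W B₂ (D.erase e \ A)
  · obtain ⟨T, hT, hdis, z, hz, z', hz', β₁, hβ₁, β₂, hβ₂, ha, hb, hind⟩ :=
      unq_link W B₂ (D.erase e) hN' hN hl
    obtain ⟨b₁, hb₁, rfl⟩ := UnqH_mem_B.1 hβ₁
    obtain ⟨b₂, hb₂, rfl⟩ := UnqH_mem_B.1 hβ₂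
    have hTD : T ⊆ D := hT.trans hR
    have hz2 : z.2 = -b₁ := by
      have h1 := congrArg Prod.snd ha
      have h2 : (0 : V) = z.2 + b₁ := h1
      exact eq_neg_of_add_eq_zero_left h2.symm
    have hz1' : z'.1 = -b₂ := by
      have h1 := congrArg Prod.fst hb
      have h2 : (0 : V) = z'.1 + b₂ := h1
      exact eq_neg_of_add_eq_zero_left h2.symm
    have hb₁T : b₁ ∈ Sp F w T := by
      have h1 : z.2 ∈ Sp F w' T := by
        rw [← UnqH_snd w w' T]
        exact ⟨z, hz, rfl⟩
      rw [hz2, Submodule.neg_mem_iff] at h1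
      have h2 : b₁ ∈ Sp F w' T ⊓ B := ⟨h1, hb₁⟩
      rw [← h.cap T hTD] at h2
      exact h2.1
    have hb₂T : b₂ ∈ Sp F w T := by
      have h1 : z'.1 ∈ Sp F w T := by
        rw [← UnqH_fst w w' T]
        exact ⟨z', hz', rfl⟩
      rwa [hz1', Submodule.neg_mem_iff] at h1
    rw [← UnqH_fst w w' T] at hb₁T hb₂T
    obtain ⟨ζ, hζ, hζ1⟩ := hb₁T
    obtain ⟨ζ', hζ', hζ1'⟩ := hb₂T
    have hζ1 : ζ.1 = b₁ := hζ1
    have hζ1' : ζ'.1 = b₂ := hζ1'
    obtain ⟨t, ht⟩ := UnqH_mem_K.1 (UnqH_SK hc hTD hζ)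
    obtain ⟨t', ht'⟩ := UnqH_mem_K.1 (UnqH_SK hc hTD hζ')
    rw [hζ1] at ht
    rw [hζ1'] at ht'
    have hne1 : b₁ ≠ 0 := by
      intro h0
      have h1 := hind 1 0 (by rw [h0]; simp)
      exact one_ne_zero h1.1
    have ht0 : t ≠ 0 := by
      intro h0
      rw [h0, zero_smul, add_zero] at ht
      have h1 : ζ ∈ B₂ := UnqH_mem_B.2 ⟨b₁, hb₁, Prod.ext hζ1 ht⟩
      have h2 := Submodule.disjoint_def.1 hdis ζ hζ h1
      apply hne1
      rw [← hζ1, h2]
      rfl
    have hbb : t' • b₁ - t • b₂ = 0 := by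
      have h1 : t' • ζ - t • ζ' ∈ Sp F W T :=
        Submodule.sub_mem _ (Submodule.smul_mem _ _ hζ) (Submodule.smul_mem _ _ hζ')
      have h2 : t' • ζ - t • ζ' ∈ B₂ := by
        refine UnqH_mem_B.2 ⟨t' • b₁ - t • b₂, Submodule.sub_mem _ (Submodule.smul_mem _ _ hb₁)
          (Submodule.smul_mem _ _ hb₂), Prod.ext ?_ ?_⟩
        · simp [hζ1, hζ1']
        · simp only [Prod.snd_sub, Prod.smul_snd, ht, ht', smul_add, smul_smul, mul_comm t' t]
          abel
      have h3 := Submodule.disjoint_def.1 hdis _ h1 h2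
      have h4 := congrArg Prod.fst h3
      simpa [hζ1, hζ1'] using h4
    have h1 := hind t' (-t) (by
      refine Prod.ext ?_ ?_
      · simpa [sub_eq_add_neg] using hbb
      · simpa [sub_eq_add_neg] using hbb)
    exact ht0 (by simpa using h1.2)
  · push Not at hl
    obtain ⟨A, hA, hlt⟩ := hl
    have hAD : A ⊆ D := hA.trans hR
    have heA : e ∉ A := fun h1 => Finset.notMem_erase e D (hA h1)
    have h1 : rk F w ⊥ (insert e A) + 1 ≤ rk F W (span F {((u, 0) : V × V), (0, u)}) A := by
      have h2 : ((0 : V), u) ∈ Sp F W A ⊔ span F {((u, 0) : V × V), (0, u)} :=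
        mem_sup_right (subset_span (by simp))
      have h3 := UnqH_low hu0 h2
      have h4 : (Sp F W A ⊔ span F {((u, 0) : V × V), (0, u)}).map (LinearMap.fst F V V) =
          Sp F w (insert e A) := by
        rw [Submodule.map_sup, UnqH_fst, Submodule.map_span, Set.image_pair, Sp_insert,
          sup_comm]
        congr 1
        apply le_antisymm
        · rw [span_le]
          intro x hx
          rcases hx with rfl | rfl
          · exact subset_span rfl
          · exact Submodule.zero_mem _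
        · exact span_mono (by intro x hx; left; exact hx)
      rw [h4] at h3
      unfold rk
      rw [sup_bot_eq]
      exact h3
    have h2 : rk F w B (D.erase e \ A) ≤ rk F W B₂ (D.erase e \ A) := by
      unfold rk
      have h3 : (Sp F W (D.erase e \ A) ⊔ B₂).map (LinearMap.fst F V V) =
          Sp F w (D.erase e \ A) ⊔ B := by
        rw [Submodule.map_sup, UnqH_fst, UnqH_Bfst]
      rw [← h3]
      exact Submodule.finrank_map_le _ _
    have h3 : rk F W B₂ (D.erase e) ≤ rk F w B D + 1 := by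
      have h4 := UnqH_upp (sup_le (UnqH_SK hc hR) (UnqH_BK B (w e)))
      have h5 : (Sp F W (D.erase e) ⊔ B₂).map (LinearMap.fst F V V) =
          Sp F w (D.erase e) ⊔ B := by
        rw [Submodule.map_sup, UnqH_fst, UnqH_Bfst]
      rw [h5] at h4
      have h6 : rk F w B (D.erase e) ≤ rk F w B D := (rk_isRk w B).mono _ _ hR
      unfold rk at h6 ⊢
      exact h4.trans (Nat.add_le_add_right h6 1)
    have hcard : ¬ 2 ≤ (insert e A).card := by
      intro h4
      have h5 := (h3 : rk F W B₂ (D.erase e) ≤ rk F w B D + 1)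
      have h6 := (‹UThree F w B D› (insert e A) (Finset.insert_subset he hAD)).2 h4
      have h7 : D \ insert e A = D.erase e \ A := by
        ext x
        simp only [Finset.mem_sdiff, Finset.mem_insert, Finset.mem_erase]
        tauto
      rw [h7] at h6
      omega
    have hA0 : A = ∅ := by
      rw [Finset.card_insert_of_notMem heA] at hcard
      apply Finset.card_eq_zero.1
      omega
    subst hA0
    have h8 : rk F w ⊥ (insert e ∅) = 1 := by
      unfold rk
      rw [sup_bot_eq, Finset.insert_empty, Sp_singleton]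
      exact finrank_span_singleton hu0
    rw [Finset.sdiff_empty] at hlt
    omega

end Pool.MP_4929df_co.H92
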