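import Pool.Agent.W_4929df_h92.UnqB
import Pool.Agent.W_4929df_h92.UnqC2
import Pool.Agent.W_4929df_h92.UnqD2
import Pool.Agent.W_4929df_h92.UnqH

/-!
Relative uniqueness, the theorem.
-/

set_option autoImplicit false

namespace Pool.MP_4929df_co.H92

open Submodule

/-- The common part: `w₁ = g₀ ∘ w'` with `w₁ e = w e`, and `w₂` from `exists_cong`. -/
private theorem UnqI_prep {F : Type} [Field F] {E : Type} [DecidableEq E] {V : Type}
    [AddCommGroup V] [Module F V] [FiniteDimensional F V] {w w' : E → V} {B : Submodule F V}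
    {D : Finset E} (h : UH F w w' B D) {e : E} (he : e ∈ D) (heB : w e ∉ B)
    (hb : UGood F (qv F (w e) w) (qB F (w e) B) (D.erase e))
    (ih : ∀ w₁ w₂ : E → V ⧸ span F {w e}, UH F w₁ w₂ (qB F (w e) B) (D.erase e) →
      UGood F w₁ (qB F (w e) B) (D.erase e) → UEq F w₁ w₂ (qB F (w e) B) (D.erase e)) :
    ∃ w₁ w₂ : E → V, UEq F w w₂ B D ∧ UEq F w₁ w' B D ∧ w₂ e = w e ∧ w₁ e = w e ∧
      (∀ d ∈ D, ∃ t : F, w₁ d = w₂ d + t • w e) ∧ UH F w w₂ B D ∧ UH F w₂ w₁ B D := by
  have hsub : ({e} : Finset E) ⊆ D := Finset.singleton_subset_iff.2 he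
  have hwe : w e ≠ 0 := fun h0 => heB (h0 ▸ B.zero_mem)
  have hw'0 : w' e ≠ 0 := by
    intro h0
    have h1 := h.rank {e} hsub
    unfold rk at h1
    rw [Sp_singleton, Sp_singleton, h0, sup_bot_eq, sup_bot_eq, finrank_span_singleton hwe,
      span_zero_singleton, finrank_bot] at h1
    omega
  have hw'B : w' e ∉ B := by
    intro h0
    have h1 : w' e ∈ Sp F w {e} ⊓ B := by
      rw [h.cap {e} hsub]
      exact ⟨mem_Sp (Finset.mem_singleton_self e), h0⟩
    have h2 : w' e ∈ Sp F w {e} := h1.1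
    rw [Sp_singleton, mem_span_singleton] at h2
    obtain ⟨t, ht⟩ := h2
    rcases eq_or_ne t 0 with h3 | h3
    · rw [h3, zero_smul] at ht
      exact hw'0 ht.symm
    · apply heB
      have h4 : w e = t⁻¹ • w' e := by
        rw [← ht, smul_smul, inv_mul_cancel₀ h3, one_smul]
      rw [h4]
      exact B.smul_mem _ h0
  obtain ⟨g, hg1, hg2⟩ := exists_fix_move hw'B heB
  have hE1 : UEq F w' (fun x => g (w' x)) B D :=
    ⟨g, fun _ => 1, hg1, fun x _ => ⟨one_ne_zero, (one_smul F _).symm⟩⟩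
  have hH1 : UH F w (fun x => g (w' x)) B D := h.trans hE1.uh
  have hQ := hH1.quot he hg2 heB
  obtain ⟨w₂, h2, h3, h4⟩ := exists_cong (w' := fun x => g (w' x)) he hg2 heB (ih _ _ hQ hb)
  exact ⟨fun x => g (w' x), w₂, h2, hE1.symm, h3, hg2, h4, h2.uh, h2.uh.symm.trans hH1⟩

/-- Contraction of `e`: if uniqueness holds in the quotient, we may assume `w' e = w e` and
`w' d - w d ∈ ⟨w e⟩` (`exists_fix_move` applied to `w'`, `exists_cong`, `UEq.trans`, `UH.trans`);
then `unq_con_graph` and `unq_con_link`. `w' e ∉ B` and `w' e ≠ 0` because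
`Sp w' {e} ⊓ B = Sp w {e} ⊓ B = ⊥`. The hypothesis `ih` is used for `qv (w e) w` and
`qv (w e) (g ∘ w')`. -/
theorem unq_con {F : Type} [Field F] {E : Type} [DecidableEq E] {V : Type} [AddCommGroup V]
    [Module F V] [FiniteDimensional F V] {w w' : E → V} {B : Submodule F V} {D : Finset E}
    (h : UH F w w' B D) (h3 : UThree F w B D) {e : E} (he : e ∈ D) (heB : w e ∉ B)
    (hb : UGood F (qv F (w e) w) (qB F (w e) B) (D.erase e))
    (ih : ∀ w₁ w₂ : E → V ⧸ span F {w e}, UH F w₁ w₂ (qB F (w e) B) (D.erase e) →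
      UGood F w₁ (qB F (w e) B) (D.erase e) → UEq F w₁ w₂ (qB F (w e) B) (D.erase e)) :
    UEq F w w' B D := by
  obtain ⟨w₁, w₂, h1, h2, h8, h4, h5, h6, h7⟩ := UnqI_prep h he heB hb ih
  have h3' : UThree F w₂ B D := by
    intro P hP
    have e1 := h6.rank P hP
    have e2 := h6.rkB (Finset.Subset.refl D)
    have e3 := h6.rkB (Finset.sdiff_subset (s := D) (t := P))
    have e4 := h3 P hP
    rw [e1, e2, e3] at e4
    exact e4
  refine h1.trans (UEq.trans ?_ h2)
  have hc : ∀ d ∈ D, ∃ t : F, w₁ d = w₂ d + t • w₂ e := by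
    rw [h8]
    exact h5
  have hu : w₁ e = w₂ e := by rw [h8, h4]
  refine unq_con_graph h7 h3' he hu hc ?_
  by_contra hno
  push Not at hno
  exact unq_con_link h7 h3' he (by rw [h8]; exact heB) hu hc hno.1 hno.2

/-- Contraction of an element `x'` of a series pair, in the same way with `unq_ser`,
`unq_ser_good`, `unq_ser_notB` -/
theorem unq_ser_con {F : Type} [Field F] {E : Type} [DecidableEq E] {V : Type} [AddCommGroup V]
    [Module F V] [FiniteDimensional F V] {w w' : E → V} {B : Submodule F V} {D : Finset E}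
    (h : UH F w w' B D) (hg : UGood F w B D) {x x' : E} (hx : x ∈ D) (hx' : x' ∈ D)
    (hne : x ≠ x') (hs : rk F w B (D \ {x, x'}) + 1 ≤ rk F w B D)
    (ih : ∀ w₁ w₂ : E → V ⧸ span F {w x'}, UH F w₁ w₂ (qB F (w x') B) (D.erase x') →
      UGood F w₁ (qB F (w x') B) (D.erase x') → UEq F w₁ w₂ (qB F (w x') B) (D.erase x')) :
    UEq F w w' B D := by
  have heB := unq_ser_notB hg hx hx' hne hs
  obtain ⟨w₁, w₂, h1, h2, h8, h4, h5, h6, h7⟩ :=
    UnqI_prep h hx' heB (unq_ser_good hg hx hx' hne hs) ih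
  refine h1.trans (UEq.trans ?_ h2)
  have hs' : rk F w₂ B (D \ {x, x'}) + 1 ≤ rk F w₂ B D := by
    rw [← h6.rkB (Finset.Subset.refl D), ← h6.rkB Finset.sdiff_subset]
    exact hs
  exact unq_ser h7 (h6.good hg) hx hx' hne hs' (by rw [h8, h4]) (by rw [h8]; exact h5)

end Pool.MP_4929df_co.H92
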